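import Pool.Agent.Helper72.TM2.T01
import Pool.Agent.Helper72.TM2.T02

section

set_option autoImplicit false

set_option linter.style.haveILetI false

namespace Pool.Agent.Helper16

open Polynomial IntermediateField IsDedekindDomain

theorem valuation_eq_of_le {N : Type} [Field N] (v w : Valuation N (WithZero (Multiplicative ℤ)))
    (hv : Function.Surjective v) (hw : Function.Surjective w)
    (h : ∀ x, w x ≤ 1 → v x ≤ 1) : v = w := by
  have h1 : ∀ x, w x = 1 → v x = 1 := by
    intro x hx
    have hx0 : x ≠ 0 := by
      rintro rfl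
      rw [map_zero] at hx
      exact zero_ne_one hx
    refine le_antisymm (h x hx.le) ?_
    have := h x⁻¹ (by rw [map_inv₀, hx, inv_one])
    rw [map_inv₀] at this
    exact (inv_le_one₀ (zero_lt_iff.2 (by simpa using hx0))).1 this
  obtain ⟨p, hp⟩ := hw (WithZero.exp (-1 : ℤ))
  have hp0 : p ≠ 0 := by
    rintro rfl
    rw [map_zero] at hp
    exact WithZero.exp_ne_zero hp.symm
  have h2 : ∀ x (n : ℤ), x ≠ 0 → w x = WithZero.exp (-n) → v x = (v p) ^ n := by
    intro x n hx hn
    have h3 : w (x * (p ^ n)⁻¹) = 1 := by
      rw [map_mul, map_inv₀, map_zpow₀, hn, hp, ← WithZero.exp_zsmul]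
      simp
    have h4 := h1 _ h3
    rw [map_mul, map_inv₀, map_zpow₀] at h4
    exact (mul_inv_eq_one₀ (zpow_ne_zero _ (by simpa using hp0))).1 h4
  have h5 : v p ≤ 1 := h p (by rw [hp, ← WithZero.exp_zero, WithZero.exp_le_exp]; norm_num)
  have hvp0 : v p ≠ 0 := by simpa using hp0
  have key : ∀ x, x ≠ 0 → WithZero.log (v x) = WithZero.log (v p) * (-WithZero.log (w x)) := by
    intro x hx
    have hwx : w x ≠ 0 := by simpa using hx
    have := h2 x (-WithZero.log (w x)) hx (by rw [neg_neg, WithZero.exp_log hwx])
    rw [this, WithZero.log_zpow]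
    simp [mul_comm]
  obtain ⟨y, hy⟩ := hv (WithZero.exp (-1 : ℤ))
  have hy0 : y ≠ 0 := by
    rintro rfl
    rw [map_zero] at hy
    exact WithZero.exp_ne_zero hy.symm
  have h6 := key y hy0
  rw [hy, WithZero.log_exp] at h6
  have h7 : WithZero.log (v p) ≤ 0 := by
    have := (WithZero.log_le_log hvp0 one_ne_zero).2 h5
    simpa using this
  have h8 : WithZero.log (v p) = -1 := by
    have h9 : WithZero.log (v p) * WithZero.log (w y) = 1 := by linarith
    rcases Int.eq_one_or_neg_one_of_mul_eq_one h9 with h | h
    · omega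
    · exact h
  ext x
  by_cases hx : x = 0
  · subst hx; simp
  · have h10 := key x hx
    rw [h8] at h10
    have h11 : WithZero.log (v x) = WithZero.log (w x) := by linarith
    rw [← WithZero.exp_log (show v x ≠ 0 by simpa using hx), h11,
      WithZero.exp_log (show w x ≠ 0 by simpa using hx)]

section Ded

variable {K N : Type} [Field K] [Field N] [Algebra K N]

/-- The integral closure of `K[s]` in `N`. -/
@[reducible] noncomputable def IC (K : Type) {N : Type} [Field K] [Field N] [Algebra K N] (s : N) :
    @Subalgebra K[X] N _ _ (algX K s) := @integralClosure K[X] N _ _ (algX K s)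

theorem isDedekindDomain_IC (s : N) (hs : Transcendental K s) [FiniteDimensional K⟮s⟯ N] :
    IsDedekindDomain (IC K s) := by
  letI := algX K s
  letI := algXF K s
  haveI := towerXF (K := K) s
  haveI := isFractionRing_algXF s hs
  haveI := faithfulX s hs
  haveI := finite_integralClosure s hs
  haveI : IsNoetherianRing (IC K s) := IsNoetherianRing.of_finite K[X] (IC K s)
  haveI : IsIntegrallyClosed (IC K s) :=
    integralClosure.isIntegrallyClosedOfFiniteExtension K⟮s⟯
  haveI : Ring.DimensionLEOne (IC K s) := Ring.DimensionLEOne.of_isIntegral K[X] (IC K s)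
  exact { }

theorem isFractionRing_IC (s : N) (hs : Transcendental K s) [FiniteDimensional K⟮s⟯ N] :
    IsFractionRing (IC K s) N := by
  letI := algX K s
  letI := algXF K s
  haveI := towerXF (K := K) s
  haveI := isFractionRing_algXF s hs
  haveI := faithfulX s hs
  exact integralClosure.isFractionRing_of_finite_extension K⟮s⟯ N

end Ded

end Pool.Agent.Helper16

end

section

set_option autoImplicit false

set_option linter.style.haveILetI false

namespace Pool.Agent.Helper16

open Polynomial IntermediateField IsDedekindDomain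

section Ded

variable {K N : Type} [Field K] [Field N] [Algebra K N]

/-- Elements integral over `K[s]` are regular at all places where `s` is regular. -/
theorem IntOver.mem_ring {s x : N} (hx : IntOver K s x) (v : Place K N) (hs : v.val s ≤ 1) :
    v.val x ≤ 1 := by
  have := hx.mem_valuationSubring v.val.valuationSubring (fun a => v.val_algebraMap_le a) hs
  exact this

/-- The place attached to a prime of the integral closure of `K[s]`. -/
noncomputable def placeOfPrime (s : N) (hs : Transcendental K s) [FiniteDimensional K⟮s⟯ N]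
    (P : HeightOneSpectrum (IC K s)) : Place K N :=
  haveI := isDedekindDomain_IC s hs
  haveI := isFractionRing_IC s hs
  { val := P.valuation N
    surj := P.valuation_surjective N
    triv := by
      intro a ha
      have h1 : IsUnit (⟨algebraMap K N a, IntOver.const s a⟩ : IC K s) := by
        refine ⟨⟨⟨algebraMap K N a, IntOver.const s a⟩, ⟨algebraMap K N a⁻¹, IntOver.const s a⁻¹⟩,
          ?_, ?_⟩, rfl⟩
        · apply Subtype.ext
          change algebraMap K N a * algebraMap K N a⁻¹ = 1
          rw [← map_mul, mul_inv_cancel₀ ha, map_one]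
        · apply Subtype.ext
          change algebraMap K N a⁻¹ * algebraMap K N a = 1
          rw [← map_mul, inv_mul_cancel₀ ha, map_one]
      have h2 := P.valuation_of_algebraMap (K := N) (⟨algebraMap K N a, IntOver.const s a⟩ : IC K s)
      have h3 : P.intValuation (⟨algebraMap K N a, IntOver.const s a⟩ : IC K s) = 1 := by
        rw [HeightOneSpectrum.intValuation_eq_one_iff]
        intro hmem
        exact P.isPrime.ne_top (Ideal.eq_top_of_isUnit_mem _ hmem h1)
      rw [h3] at h2
      exact h2 }

theorem placeOfPrime_val_algebraMap (s : N) (hs : Transcendental K s) [FiniteDimensional K⟮s⟯ N]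
    (P : HeightOneSpectrum (IC K s)) (b : IC K s) : (placeOfPrime s hs P).val (b : N) ≤ 1 := by
  haveI := isDedekindDomain_IC s hs
  haveI := isFractionRing_IC s hs
  exact P.valuation_le_one (K := N) b

theorem placeOfPrime_val_lt (s : N) (hs : Transcendental K s) [FiniteDimensional K⟮s⟯ N]
    (P : HeightOneSpectrum (IC K s)) (b : IC K s) :
    (placeOfPrime s hs P).val (b : N) < 1 ↔ b ∈ P.asIdeal := by
  haveI := isDedekindDomain_IC s hs
  haveI := isFractionRing_IC s hs
  exact P.valuation_lt_one_iff_mem (K := N) b

theorem exists_placeOfPrime (s : N) (hs : Transcendental K s) [FiniteDimensional K⟮s⟯ N]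
    (v : Place K N) (hv : v.val s ≤ 1) : ∃ P, placeOfPrime s hs P = v := by
  haveI := isDedekindDomain_IC s hs
  haveI := isFractionRing_IC s hs
  let P : Ideal (IC K s) :=
    { carrier := {b | v.val (b : N) < 1}
      add_mem' := fun {a b} ha hb => v.val.map_add_lt ha hb
      zero_mem' := by
        change v.val ((0 : IC K s) : N) < 1
        simp
      smul_mem' := by
        intro c b hb
        change v.val ((c * b : IC K s) : N) < 1
        have h1 : ((c * b : IC K s) : N) = (c : N) * (b : N) := rfl
        rw [h1, map_mul, mul_comm]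
        exact mul_lt_one_of_lt_of_le hb (IntOver.mem_ring (K := K) c.2 v hv) }
  have hmem : ∀ b : IC K s, b ∈ P ↔ v.val (b : N) < 1 := fun b => Iff.rfl
  have hprime : P.IsPrime := by
    refine ⟨?_, ?_⟩
    · rw [Ideal.ne_top_iff_one, hmem]
      have h1 : ((1 : IC K s) : N) = 1 := rfl
      rw [h1, map_one]
      exact lt_irrefl _
    · intro a b hab
      rw [hmem] at hab
      have h1 : ((a * b : IC K s) : N) = (a : N) * (b : N) := rfl
      rw [h1, map_mul] at hab
      by_contra hcon
      rw [not_or, hmem, hmem, not_lt, not_lt] at hcon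
      exact absurd hab (not_lt.2 (one_le_mul hcon.1 hcon.2))
  have hbot : P ≠ ⊥ := by
    intro h0
    obtain ⟨y, hy⟩ := v.surj (WithZero.exp (1 : ℤ))
    obtain ⟨a, b, hb, hab⟩ := IsFractionRing.div_surjective (A := IC K s) y
    have hu : ∀ c : IC K s, c ≠ 0 → v.val (c : N) = 1 := by
      intro c hc
      refine le_antisymm (IntOver.mem_ring (K := K) c.2 v hv) ?_
      by_contra hlt
      rw [not_le] at hlt
      have : c ∈ P := hlt
      rw [h0] at this
      exact hc this
    have hb0 : b ≠ 0 := nonZeroDivisors.ne_zero hb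
    have h1 : v.val (algebraMap (IC K s) N b) = 1 := hu b hb0
    rw [← hab, map_div₀, h1, div_one] at hy
    by_cases ha : a = 0
    · rw [ha, map_zero, map_zero] at hy
      exact WithZero.exp_ne_zero hy.symm
    · have h2 : v.val (algebraMap (IC K s) N a) = 1 := hu a ha
      rw [h2, ← WithZero.exp_zero, WithZero.exp_inj] at hy
      omega
  let Q : HeightOneSpectrum (IC K s) := ⟨P, hprime, hbot⟩
  refine ⟨Q, ?_⟩
  apply Place.ext_val
  symm
  apply valuation_eq_of_le _ _ v.surj (placeOfPrime s hs Q).surj
  intro x hx
  obtain ⟨n, d, hnd⟩ := Q.exists_primeCompl_mul_eq_of_integer (K := N) x hx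
  have hd : v.val (algebraMap (IC K s) N d) = 1 := by
    refine le_antisymm (IntOver.mem_ring (K := K) d.1.2 v hv) ?_
    by_contra hlt
    rw [not_le] at hlt
    exact d.2 hlt
  have h1 := congrArg v.val hnd
  rw [map_mul, hd, mul_one] at h1
  rw [h1]
  exact IntOver.mem_ring (K := K) n.2 v hv

theorem placeOfPrime_injective (s : N) (hs : Transcendental K s) [FiniteDimensional K⟮s⟯ N] :
    Function.Injective (placeOfPrime (K := K) s hs) := by
  intro P Q h
  apply HeightOneSpectrum.ext
  ext b
  rw [← placeOfPrime_val_lt s hs P, ← placeOfPrime_val_lt s hs Q, h]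

end Ded

end Pool.Agent.Helper16

end

section

set_option autoImplicit false

set_option linter.style.haveILetI false

namespace Pool.Agent.Helper16

open Polynomial IntermediateField IsDedekindDomain

section Ded

variable {K N : Type} [Field K] [Field N] [Algebra K N]

/-- `s` as an element of the integral closure of `K[s]`. -/
def sIC (K : Type) {N : Type} [Field K] [Field N] [Algebra K N] (s : N) : IC K s :=
  ⟨s, IntOver.self s⟩

theorem algebraMap_X_IC (s : N) :
    letI := algX K s
    algebraMap K[X] (IC K s) X = sIC K s := by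
  letI := algX K s
  apply Subtype.ext
  change aeval s (X : K[X]) = s
  simp

theorem liesOver_of_mem (s : N) (P : HeightOneSpectrum (IC K s)) (h : sIC K s ∈ P.asIdeal) :
    letI := algX K s
    P.asIdeal.LiesOver (Ideal.span {(X : K[X])}) := by
  letI := algX K s
  have hmax : (Ideal.span {(X : K[X])}).IsMaximal :=
    PrincipalIdealRing.isMaximal_of_irreducible irreducible_X
  refine ⟨?_⟩
  apply hmax.eq_of_le
  · intro h1
    apply P.isPrime.ne_top
    rw [Ideal.eq_top_iff_one] at h1 ⊢
    simpa using h1
  · rw [Ideal.span_singleton_le_iff_mem]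
    change algebraMap K[X] (IC K s) X ∈ P.asIdeal
    rw [algebraMap_X_IC]
    exact h

theorem exists_resEquiv (s : N) (hs : Transcendental K s) [FiniteDimensional K⟮s⟯ N]
    (P : HeightOneSpectrum (IC K s)) :
    letI := algX K s
    haveI := towerX (K := K) s
    Nonempty ((IC K s ⧸ P.asIdeal) ≃ₐ[K] (placeOfPrime s hs P).resField) := by
  letI := algX K s
  haveI := towerX (K := K) s
  haveI := isDedekindDomain_IC s hs
  haveI := isFractionRing_IC s hs
  haveI : P.asIdeal.IsMaximal := P.isMaximal
  let v := placeOfPrime s hs P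
  let ψ : IC K s →ₐ[K] v.resField :=
    { toFun := fun b => IsLocalRing.residue v.ring ⟨(b : N), placeOfPrime_val_algebraMap s hs P b⟩
      map_one' := map_one _
      map_mul' := fun a b => by rw [← map_mul]; rfl
      map_zero' := map_zero _
      map_add' := fun a b => by rw [← map_add]; rfl
      commutes' := fun a => by
        have h1 : (⟨((algebraMap K (IC K s) a : IC K s) : N),
            placeOfPrime_val_algebraMap s hs P _⟩ : v.ring) = algebraMap K v.ring a := by
          rfl
        rw [h1]
        rfl }
  have hψ : ∀ b, ψ b = 0 ↔ b ∈ P.asIdeal := by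
    intro b
    change IsLocalRing.residue v.ring _ = 0 ↔ _
    rw [IsLocalRing.residue_eq_zero_iff, Place.mem_maximalIdeal]
    exact placeOfPrime_val_lt s hs P b
  have hsurj : Function.Surjective ψ := by
    intro r
    obtain ⟨⟨x, hx⟩, rfl⟩ := IsLocalRing.residue_surjective r
    obtain ⟨n, d, hnd⟩ := P.exists_primeCompl_mul_eq_of_integer (K := N) x hx
    obtain ⟨e, i, hi, he⟩ := P.isMaximal.exists_inv d.2
    refine ⟨n * e, ?_⟩
    change IsLocalRing.residue v.ring _ = IsLocalRing.residue v.ring _
    rw [← sub_eq_zero, ← map_sub, IsLocalRing.residue_eq_zero_iff, Place.mem_maximalIdeal]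
    have h1 : (n * e : IC K s) = (n : N) * (e : N) := rfl
    have h2 : (e : N) * ((d : IC K s) : N) + (i : N) = 1 := by
      have := congrArg (Subtype.val) he
      exact this
    have h3 : x * ((d : IC K s) : N) = (n : N) := hnd
    have h4 : ((n * e : IC K s) : N) - x = - (x * (i : N)) := by
      rw [h1, ← h3]
      linear_combination x * h2
    change v.val (((n * e : IC K s) : N) - x) < 1
    rw [h4, Valuation.map_neg, map_mul, mul_comm]
    exact mul_lt_one_of_lt_of_le ((placeOfPrime_val_lt s hs P i).2 hi) hx
  have hker : RingHom.ker ψ = P.asIdeal := by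
    ext b
    exact hψ b
  exact ⟨(Ideal.quotientEquivAlgOfEq K hker.symm).trans (Ideal.quotientKerAlgEquivOfSurjective hsurj)⟩

theorem deg_placeOfPrime (s : N) (hs : Transcendental K s) [FiniteDimensional K⟮s⟯ N]
    (P : HeightOneSpectrum (IC K s)) (h : sIC K s ∈ P.asIdeal) :
    letI := algX K s
    (placeOfPrime s hs P).deg = P.asIdeal.inertiaDeg K[X] ∧
      Module.Finite K (placeOfPrime s hs P).resField := by
  letI := algX K s
  haveI := towerX (K := K) s
  haveI := isDedekindDomain_IC s hs
  haveI := isFractionRing_IC s hs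
  haveI := finite_integralClosure s hs
  have hmax : (Ideal.span {(X : K[X])}).IsMaximal :=
    PrincipalIdealRing.isMaximal_of_irreducible irreducible_X
  haveI : P.asIdeal.IsMaximal := P.isMaximal
  haveI := liesOver_of_mem s P h
  obtain ⟨e1⟩ := exists_resEquiv s hs P
  haveI : Module.Free (K[X] ⧸ Ideal.span {(X : K[X])}) (IC K s ⧸ P.asIdeal) := by
    letI := Ideal.Quotient.field (Ideal.span {(X : K[X])})
    infer_instance
  have h1 : Module.finrank K (K[X] ⧸ Ideal.span {(X : K[X])}) = 1 := by
    rw [finrank_quotient_span_eq_natDegree, natDegree_X]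
  constructor
  · rw [Place.deg, ← e1.toLinearEquiv.finrank_eq,
      Ideal.inertiaDeg_eq_of_isMaximal (Ideal.span {(X : K[X])})]
    have h2 := Module.finrank_mul_finrank K (K[X] ⧸ Ideal.span {(X : K[X])}) (IC K s ⧸ P.asIdeal)
    rw [h1, one_mul] at h2
    exact h2.symm
  · haveI : Module.Finite K (K[X] ⧸ Ideal.span {(X : K[X])}) :=
      Module.finite_of_finrank_pos (by rw [h1]; exact one_pos)
    haveI : Module.Finite (K[X] ⧸ Ideal.span {(X : K[X])}) (IC K s ⧸ P.asIdeal) :=
      Module.Finite.of_restrictScalars_finite K[X] _ _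
    haveI : Module.Finite K (IC K s ⧸ P.asIdeal) :=
      Module.Finite.trans (K[X] ⧸ Ideal.span {(X : K[X])}) _
    exact Module.Finite.equiv e1.toLinearEquiv

theorem map_span_X (s : N) :
    letI := algX K s
    (Ideal.span {(X : K[X])}).map (algebraMap K[X] (IC K s)) = Ideal.span {sIC K s} := by
  letI := algX K s
  rw [Ideal.map_span, Set.image_singleton, algebraMap_X_IC]

theorem sIC_ne_zero {s : N} (hs : Transcendental K s) : sIC K s ≠ 0 := by
  intro h
  exact transcendental_ne_zero hs (congrArg Subtype.val h)

theorem ord_placeOfPrime (s : N) (hs : Transcendental K s) [FiniteDimensional K⟮s⟯ N]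
    (P : HeightOneSpectrum (IC K s)) (h : sIC K s ∈ P.asIdeal) :
    letI := algX K s
    (placeOfPrime s hs P).ord s = (P.asIdeal.ramificationIdx K[X] : ℤ) := by
  letI := algX K s
  haveI := towerX (K := K) s
  haveI := isDedekindDomain_IC s hs
  haveI := isFractionRing_IC s hs
  haveI := liesOver_of_mem s P h
  haveI := P.isPrime
  have hmap := map_span_X (K := K) s
  have hne : (Ideal.span {(X : K[X])}).map (algebraMap K[X] (IC K s)) ≠ ⊥ := by
    rw [hmap]
    simpa using sIC_ne_zero hs
  rw [Ideal.IsDedekindDomain.ramificationIdx_eq_multiplicity (Ideal.span {(X : K[X])}) P.asIdeal hne,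
    hmap]
  have h1 := P.valuation_of_algebraMap (K := N) (sIC K s)
  rw [P.intValuation_eq_exp_neg_multiplicity (sIC_ne_zero hs)] at h1
  have h2 : (placeOfPrime s hs P).val s = WithZero.exp (-(multiplicity P.asIdeal (Ideal.span {sIC K s}) : ℤ)) := h1
  rw [Place.ord, h2, WithZero.log_exp, neg_neg]

/-- The zeros of `s`, and the formula `∑ ord_v(s) deg(v) = [N : K(s)]`. -/
theorem sum_zeros (s : N) (hs : Transcendental K s) [FiniteDimensional K⟮s⟯ N] :
    ∃ S : Finset (Place K N), (∀ v, v ∈ S ↔ v.val s < 1) ∧
      ∑ v ∈ S, v.ord s * (v.deg : ℤ) = (Module.finrank K⟮s⟯ N : ℤ) := by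
  classical
  letI := algX K s
  letI := algXF K s
  haveI := towerXF (K := K) s
  haveI := towerX (K := K) s
  haveI := isFractionRing_algXF s hs
  haveI := faithfulX s hs
  haveI := isDedekindDomain_IC s hs
  haveI := isFractionRing_IC s hs
  haveI := finite_integralClosure s hs
  have hmax : (Ideal.span {(X : K[X])}).IsMaximal :=
    PrincipalIdealRing.isMaximal_of_irreducible irreducible_X
  haveI : (Ideal.span {(X : K[X])}).IsPrime := hmax.isPrime
  let p := Ideal.span {(X : K[X])}
  letI : Fintype (p.primesOver (IC K s)) := Fintype.ofFinite _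
  have hp0 : p ≠ ⊥ := by
    simp [p]
  let F : p.primesOver (IC K s) → HeightOneSpectrum (IC K s) := fun q =>
    ⟨q.1, q.2.1, Ideal.ne_bot_of_mem_primesOver hp0 q.2⟩
  have hF : ∀ q, sIC K s ∈ (F q).asIdeal := by
    intro q
    have h1 : p ≤ q.1.under K[X] := by
      rw [← q.2.2.over]
    have h2 : (X : K[X]) ∈ q.1.under K[X] := h1 (Ideal.mem_span_singleton_self X)
    have h3 : algebraMap K[X] (IC K s) X ∈ q.1 := h2
    rw [algebraMap_X_IC] at h3
    exact h3
  have hFinj : Function.Injective F := by
    intro q r h
    apply Subtype.ext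
    exact congrArg HeightOneSpectrum.asIdeal h
  refine ⟨Finset.univ.image (fun q => placeOfPrime s hs (F q)), ?_, ?_⟩
  · intro v
    rw [Finset.mem_image]
    constructor
    · rintro ⟨q, -, rfl⟩
      exact (placeOfPrime_val_lt s hs (F q) (sIC K s)).2 (hF q)
    · intro hv
      obtain ⟨P, rfl⟩ := exists_placeOfPrime s hs v hv.le
      have h1 : sIC K s ∈ P.asIdeal := (placeOfPrime_val_lt s hs P (sIC K s)).1 hv
      refine ⟨⟨P.asIdeal, P.isPrime, liesOver_of_mem s P h1⟩, Finset.mem_univ _, rfl⟩
  · rw [Finset.sum_image (fun a _ b _ h => hFinj (placeOfPrime_injective s hs h))]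
    have h1 := Ideal.sum_ramification_inertia_eq_finrank p (IC K s)
    have h2 := IsFractionRing.finrank_eq K[X] K⟮s⟯ (IC K s) N
    rw [h2, ← h1]
    push_cast
    refine Finset.sum_congr rfl fun q _ => ?_
    rw [ord_placeOfPrime s hs (F q) (hF q), (deg_placeOfPrime s hs (F q) (hF q)).1]

end Ded

end Pool.Agent.Helper16

end
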