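import Mathlib

section

/-!
# Iterating a homogeneous polynomial map on vectors in an algebra: norms and degrees
-/

set_option autoImplicit false

namespace Pool.Agent.Helper36

open Polynomial

variable {O A B : Type*} [CommRing O] [CommRing A] [Algebra O A] [CommRing B] [Algebra O B]

variable {ι : Type*}

/-- one application of the polynomial map `F` to a vector with entries in an algebra -/
noncomputable def step (F : ι → MvPolynomial ι O) (u : ι → A) : ι → A :=
  fun i => MvPolynomial.aeval u (F i)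

/-- the iterates -/
noncomputable def iter (F : ι → MvPolynomial ι O) (w : ι → A) (k : ℕ) : ι → A := (step F)^[k] w

lemma iter_zero (F : ι → MvPolynomial ι O) (w : ι → A) : iter F w 0 = w := rfl

lemma iter_succ (F : ι → MvPolynomial ι O) (w : ι → A) (k : ℕ) :
    iter F w (k + 1) = step F (iter F w k) := Function.iterate_succ_apply' _ _ _

lemma iter_succ' (F : ι → MvPolynomial ι O) (w : ι → A) (k : ℕ) :
    iter F w (k + 1) = iter F (step F w) k := rfl

lemma iter_add (F : ι → MvPolynomial ι O) (w : ι → A) (j k : ℕ) :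
    iter F w (j + k) = iter F (iter F w k) j := Function.iterate_add_apply _ _ _ _

/-- iteration commutes with algebra homomorphisms -/
lemma step_map (F : ι → MvPolynomial ι O) (ψ : A →ₐ[O] B) (u : ι → A) :
    step F (fun i => ψ (u i)) = fun i => ψ (step F u i) := by
  funext i
  simp only [step]
  rw [← MvPolynomial.comp_aeval_apply]

lemma iter_map (F : ι → MvPolynomial ι O) (ψ : A →ₐ[O] B) (w : ι → A) (k : ℕ) :
    iter F (fun i => ψ (w i)) k = fun i => ψ (iter F w k i) := by
  induction k with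
  | zero => rfl
  | succ k ih => rw [iter_succ, ih, step_map, iter_succ]

/-- homogeneity -/
lemma aeval_smul_homogeneous {d : ℕ} {G : MvPolynomial ι O} (hG : G.IsHomogeneous d) (c : A)
    (u : ι → A) : MvPolynomial.aeval (fun i => c * u i) G = c ^ d * MvPolynomial.aeval u G := by
  rw [MvPolynomial.aeval_def, MvPolynomial.aeval_def, MvPolynomial.eval₂_eq, MvPolynomial.eval₂_eq,
    Finset.mul_sum]
  refine Finset.sum_congr rfl fun m hm => ?_
  have hd : ∑ i ∈ m.support, m i = d := by
    have := hG (MvPolynomial.mem_support_iff.1 hm)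
    rw [Finsupp.weight_apply] at this
    simpa [Finsupp.sum] using this
  have h1 : ∏ i ∈ m.support, (c * u i) ^ m i = c ^ d * ∏ i ∈ m.support, u i ^ m i := by
    rw [← hd, ← Finset.prod_pow_eq_pow_sum, ← Finset.prod_mul_distrib]
    exact Finset.prod_congr rfl fun i _ => mul_pow _ _ _
  rw [h1]; ring

end Pool.Agent.Helper36

end

section

/-!
# Growth of heights along an orbit
-/

set_option autoImplicit false

namespace Pool.Agent.Helper36

open Height Function

section null

variable {K L : Type*} [Field K] [Field L] [Algebra K L] [IsAlgClosed L]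

variable {ι : Type*} [Fintype ι]

lemma homogeneousComponent_mul_of_homogeneous {R σ : Type*} [CommRing R] {d : ℕ}
    {F : MvPolynomial σ R}
    (hF : F.IsHomogeneous d) (a : MvPolynomial σ R) (M : ℕ) :
    MvPolynomial.homogeneousComponent (M + d) (a * F) =
      MvPolynomial.homogeneousComponent M a * F := by
  classical
  conv_lhs => rw [← MvPolynomial.sum_homogeneousComponent (φ := a), Finset.sum_mul, map_sum]
  have h1 : ∀ i, MvPolynomial.homogeneousComponent (M + d)
      (MvPolynomial.homogeneousComponent i a * F) =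
      if i = M then MvPolynomial.homogeneousComponent i a * F else 0 := by
    intro i
    have h2 : (MvPolynomial.homogeneousComponent i a * F).IsHomogeneous (i + d) :=
      (MvPolynomial.homogeneousComponent_isHomogeneous i a).mul hF
    rw [MvPolynomial.homogeneousComponent_of_mem (h2 : _ ∈ MvPolynomial.homogeneousSubmodule σ R _)]
    have : (M + d = i + d) ↔ (i = M) := by omega
    simp only [this]
  simp only [h1]
  rw [Finset.sum_ite_eq']
  split_ifs with h
  · rfl
  · rw [MvPolynomial.homogeneousComponent_eq_zero, zero_mul]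
    rw [Finset.mem_range] at h
    omega

/-- homogeneous polynomials over `K` without common zeros over an algebraically closed extension
generate a power of the irrelevant ideal -/
theorem exists_nullstellensatz {d : ℕ} (F : ι → MvPolynomial ι K)
    (hF : ∀ i, (F i).IsHomogeneous d)
    (hnz : ∀ x : ι → L, (∀ i, MvPolynomial.aeval x (F i) = 0) → x = 0) :
    ∃ (M : ℕ) (q : ι × ι → MvPolynomial ι K), (∀ a, (q a).IsHomogeneous M) ∧
      ∀ k, ∑ j, q (k, j) * F j = MvPolynomial.X k ^ (M + d) := by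
  classical
  have h1 : ∀ k : ι, ∃ r : ℕ, (MvPolynomial.X k : MvPolynomial ι K) ^ r ∈
      Ideal.span (Set.range F) := by
    intro k
    have h2 : (MvPolynomial.X k : MvPolynomial ι K) ∈ (Ideal.span (Set.range F)).radical := by
      rw [← MvPolynomial.vanishingIdeal_zeroLocus_eq_radical (K := L)]
      rw [MvPolynomial.mem_vanishingIdeal_iff]
      intro x hx
      rw [MvPolynomial.mem_zeroLocus_iff] at hx
      have : x = 0 := hnz x fun i => hx _ (Ideal.subset_span ⟨i, rfl⟩)
      rw [this]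
      simp
    exact h2
  choose r hr using h1
  set M : ℕ := ∑ k, r k with hM
  have h3 : ∀ k : ι, (MvPolynomial.X k : MvPolynomial ι K) ^ (M + d) ∈
      Ideal.span (Set.range F) := by
    intro k
    refine Ideal.mem_of_dvd _ (pow_dvd_pow _ ?_) (hr k)
    have : r k ≤ M := Finset.single_le_sum (f := r) (fun _ _ => Nat.zero_le _) (Finset.mem_univ k)
    omega
  have h4 : ∀ k : ι, ∃ c : ι → MvPolynomial ι K, ∑ j, c j * F j = MvPolynomial.X k ^ (M + d) := by
    intro k
    have := h3 k
    rw [Ideal.mem_span_range_iff_exists_fun] at this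
    exact this
  choose c hc using h4
  refine ⟨M, fun a => MvPolynomial.homogeneousComponent M (c a.1 a.2),
    fun a => MvPolynomial.homogeneousComponent_isHomogeneous _ _, fun k => ?_⟩
  have h5 := congrArg (MvPolynomial.homogeneousComponent (M + d)) (hc k)
  rw [map_sum] at h5
  simp only [homogeneousComponent_mul_of_homogeneous (hF _)] at h5
  rw [h5]
  exact MvPolynomial.homogeneousComponent_eq_self (MvPolynomial.isHomogeneous_X_pow k _)

end null

section growth

variable {K : Type*} [Field K] [AdmissibleAbsValues K]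

variable {ι : Type*} [Fintype ι]

omit [AdmissibleAbsValues K] [Fintype ι] in
lemma step_eq_eval (F : ι → MvPolynomial ι K) (x : ι → K) :
    step F x = fun i => MvPolynomial.eval x (F i) := by
  funext i
  exact congrArg (fun φ => φ (F i)) (MvPolynomial.coe_aeval_eq_eval x)

theorem exists_logHeight_step_ge {L : Type*} [Field L] [Algebra K L] [IsAlgClosed L] {d : ℕ}
    (F : ι → MvPolynomial ι K) (hF : ∀ i, (F i).IsHomogeneous d)
    (hnz : ∀ x : ι → L, (∀ i, MvPolynomial.aeval x (F i) = 0) → x = 0) :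
    ∃ C : ℝ, ∀ x : ι → K, C + d * logHeight x ≤ logHeight (step F x) := by
  obtain ⟨M, q, hq, h⟩ := exists_nullstellensatz F hF hnz
  obtain ⟨C, hC⟩ := logHeight_eval_ge' (N := d) hq
  refine ⟨C, fun x => ?_⟩
  rw [step_eq_eval]
  apply hC F
  intro k
  have := congrArg (MvPolynomial.eval x) (h k)
  rw [map_sum] at this
  simpa using this

/-- two vectors represent the same projective point -/
def PEq {ι : Type*} (x y : ι → K) : Prop := ∃ c : K, c ≠ 0 ∧ y = c • x

omit [AdmissibleAbsValues K] [Fintype ι] in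
lemma PEq.step {d : ℕ} {F : ι → MvPolynomial ι K} (hF : ∀ i, (F i).IsHomogeneous d)
    {x y : ι → K} (h : PEq x y) : PEq (step F x) (step F y) := by
  obtain ⟨c, hc, rfl⟩ := h
  refine ⟨c ^ d, pow_ne_zero _ hc, ?_⟩
  funext i
  rw [Pi.smul_apply, smul_eq_mul]
  exact aeval_smul_homogeneous (hF i) c x

omit [AdmissibleAbsValues K] [Fintype ι] in
lemma PEq.iter {d : ℕ} {F : ι → MvPolynomial ι K} (hF : ∀ i, (F i).IsHomogeneous d)
    {x y : ι → K} (h : PEq x y) (k : ℕ) : PEq (iter F x k) (iter F y k) := by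
  induction k with
  | zero => exact h
  | succ k ih => rw [iter_succ, iter_succ]; exact ih.step hF

/-- Northcott for projective points: an infinite sequence of nonzero vectors of bounded height
contains two proportional ones. -/
theorem exists_PEq_of_bounded [Northcott (mulHeight₁ (K := K))] (P : ℕ → ι → K)
    (hP : ∀ n, P n ≠ 0) (B : ℝ) (hB : ∀ n, mulHeight (P n) ≤ B) :
    ∃ n m, n < m ∧ PEq (P n) (P m) := by
  classical
  have h1 : ∀ n, ∃ i, P n i ≠ 0 := fun n => Function.ne_iff.1 (hP n)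
  choose j hj using h1
  set Q : ℕ → ι → K := fun n i => P n i / P n (j n) with hQ
  have hfin : {x : K | mulHeight₁ x ≤ B}.Finite := Northcott.finite_le B
  have hmem : ∀ n, Q n ∈ Set.pi Set.univ fun _ : ι => {x : K | mulHeight₁ x ≤ B} := by
    intro n i _
    change mulHeight₁ (P n i / P n (j n)) ≤ B
    rw [mulHeight₁_div_eq_mulHeight]
    refine le_trans ?_ (hB n)
    have := mulHeight_comp_le ![i, j n] (P n)
    refine le_trans (le_of_eq ?_) this
    congr 1
    funext l
    fin_cases l <;> rfl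
  have hfin2 : (Set.pi Set.univ fun _ : ι => {x : K | mulHeight₁ x ≤ B}).Finite :=
    Set.Finite.pi fun _ => hfin
  obtain ⟨n, -, m, -, hnm, heq⟩ := Set.infinite_univ.exists_ne_map_eq_of_mapsTo
    (fun n _ => hmem n) hfin2
  have key : ∀ n m, Q n = Q m → PEq (P n) (P m) := by
    intro n m h
    refine ⟨P m (j m) / P n (j n), div_ne_zero (hj m) (hj n), ?_⟩
    funext i
    have h2 := congrFun h i
    simp only [hQ] at h2
    rw [Pi.smul_apply, smul_eq_mul]
    have h3 := hj n
    have h4 := hj m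
    field_simp at h2 ⊢
    linear_combination -h2
  rcases lt_or_gt_of_ne hnm with h | h
  · exact ⟨n, m, h, key n m heq⟩
  · exact ⟨m, n, h, key m n heq.symm⟩

/-- Heights grow exponentially along an orbit that is not preperiodic. -/
theorem growth [Northcott (mulHeight₁ (K := K))] {L : Type*} [Field L] [Algebra K L]
    [IsAlgClosed L] {d : ℕ} (hd : 2 ≤ d)
    (F : ι → MvPolynomial ι K) (hF : ∀ i, (F i).IsHomogeneous d)
    (hnz : ∀ x : ι → L, (∀ i, MvPolynomial.aeval x (F i) = 0) → x = 0)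
    (P : ℕ → ι → K) (hP : ∀ n, P n ≠ 0) (hstep : ∀ n, P (n + 1) = step F (P n)) :
    (∃ n m, n < m ∧ PEq (P n) (P m)) ∨
      ∃ n₀, ∀ n, n₀ ≤ n → (d : ℝ) ^ (n - n₀) ≤ logHeight (P n) := by
  obtain ⟨C, hC⟩ := exists_logHeight_step_ge F hF hnz
  set c : ℝ := max 0 (-C) with hc
  have hc0 : 0 ≤ c := le_max_left _ _
  have hcC : -c ≤ C := by
    have : -C ≤ c := le_max_right _ _
    linarith
  by_cases h : ∀ n, logHeight (P n) ≤ c + 1
  · left
    apply exists_PEq_of_bounded P hP (Real.exp (c + 1))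
    intro n
    have := h n
    rw [logHeight_eq_log_mulHeight] at this
    exact (Real.log_le_iff_le_exp (mulHeight_pos _)).1 this
  · right
    push Not at h
    obtain ⟨n₀, hn₀⟩ := h
    refine ⟨n₀, ?_⟩
    have hd2 : (2 : ℝ) ≤ d := by exact_mod_cast hd
    have key : ∀ j : ℕ, (d : ℝ) ^ j + c ≤ logHeight (P (n₀ + j)) := by
      intro j
      induction j with
      | zero => simp only [pow_zero, add_zero]; linarith
      | succ j ih =>
        have h1 := hC (P (n₀ + j))
        rw [← hstep] at h1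
        have h2 : (d : ℝ) * ((d : ℝ) ^ j + c) ≤ d * logHeight (P (n₀ + j)) :=
          mul_le_mul_of_nonneg_left ih (by linarith)
        have h3 : 2 * c ≤ d * c := mul_le_mul_of_nonneg_right hd2 hc0
        rw [pow_succ]
        change (d : ℝ) ^ j * d + c ≤ logHeight (P (n₀ + j + 1))
        nlinarith
    intro n hn
    obtain ⟨j, rfl⟩ := Nat.exists_eq_add_of_le hn
    rw [Nat.add_sub_cancel_left]
    have := key j
    linarith

end growth

end Pool.Agent.Helper36

end

section

/-!
# From the Krull dimension of the coordinate ring to algebraic relations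
-/

set_option autoImplicit false

namespace Pool.Agent.Helper36

/-- Krull dimension does not drop in an injective integral extension. -/
lemma ringKrullDim_le_of_integral {R S : Type*} [CommRing R] [CommRing S] [Algebra R S]
    [FaithfulSMul R S] [Algebra.IsIntegral R S] : ringKrullDim R ≤ ringKrullDim S := by
  unfold ringKrullDim Order.krullDim
  apply iSup_le
  intro l
  have hinj : Function.Injective (algebraMap R S) := FaithfulSMul.algebraMap_injective R S
  obtain ⟨Q, -, hQ, hQl⟩ := Ideal.exists_ideal_over_prime_of_isIntegral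
    (S := S) (RelSeries.head l).asIdeal (⊥ : Ideal S) (by
      intro x hx
      have : algebraMap R S x = 0 := hx
      rw [hinj (this.trans (map_zero _).symm)]
      exact Ideal.zero_mem _)
  have : Q.LiesOver (RelSeries.head l).asIdeal := ⟨hQl.symm⟩
  obtain ⟨L, hL, -, -⟩ := Ideal.exists_ltSeries_of_hasGoingUp (S := S) l Q
  rw [← hL]
  exact le_iSup (fun L : LTSeries (PrimeSpectrum S) => ((L.length : ℕ∞) : WithBot ℕ∞)) L

/-- In a domain of finite type of Krull dimension at most two, any three elements are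
algebraically dependent. -/
lemma exists_relation_of_krullDim {k D : Type} [Field k] [CommRing D] [IsDomain D] [Algebra k D]
    [Algebra.FiniteType k D] (hdim : ringKrullDim D ≤ 2) (v : Fin 3 → D) :
    ∃ Q : MvPolynomial (Fin 3) k, Q ≠ 0 ∧ MvPolynomial.aeval v Q = 0 := by
  obtain ⟨s, g, hginj, hgint⟩ := exists_integral_inj_algHom_of_fg k D
  let _ : Algebra (MvPolynomial (Fin s) k) D := g.toRingHom.toAlgebra
  have hmap : algebraMap (MvPolynomial (Fin s) k) D = g.toRingHom := rfl
  have : IsScalarTower k (MvPolynomial (Fin s) k) D := by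
    apply IsScalarTower.of_algebraMap_eq
    intro x
    rw [hmap]
    exact (g.commutes x).symm
  have : FaithfulSMul (MvPolynomial (Fin s) k) D := by
    rw [faithfulSMul_iff_algebraMap_injective]
    exact hginj
  have hint : Algebra.IsIntegral (MvPolynomial (Fin s) k) D := ⟨hgint⟩
  have h1 : ringKrullDim (MvPolynomial (Fin s) k) ≤ ringKrullDim D := ringKrullDim_le_of_integral
  rw [MvPolynomial.ringKrullDim_of_isNoetherianRing, ringKrullDim_eq_zero_of_field, zero_add,
    Nat.card_fin] at h1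
  have hs : s ≤ 2 := by
    have := h1.trans hdim
    exact_mod_cast this
  by_contra hcon
  push Not at hcon
  have hv : AlgebraicIndependent k v := by
    rw [algebraicIndependent_iff]
    intro p hp
    by_contra hne
    exact hcon p hne hp
  have h2 := hv.cardinalMk_le_trdeg
  have h3 : Algebra.trdeg k (MvPolynomial (Fin s) k) + Algebra.trdeg (MvPolynomial (Fin s) k) D =
      Algebra.trdeg k D := trdeg_add_eq k (MvPolynomial (Fin s) k)
  have h4 : Algebra.trdeg (MvPolynomial (Fin s) k) D = 0 := trdeg_eq_zero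
  rw [h4, add_zero, MvPolynomial.trdeg_of_isDomain] at h3
  rw [← h3] at h2
  simp only [Cardinal.mk_fintype, Fintype.card_fin, Cardinal.lift_natCast, Nat.cast_le] at h2
  omega

/-- Any three coordinates satisfy a nontrivial relation modulo the radical. -/
lemma exists_relation_radical {k ι : Type} [Field k] [Finite ι] (I : Ideal (MvPolynomial ι k))
    (hdim : ringKrullDim (MvPolynomial ι k ⧸ I) ≤ 2) (v : Fin 3 → MvPolynomial ι k) :
    ∃ Q : MvPolynomial (Fin 3) k, Q ≠ 0 ∧ MvPolynomial.aeval v Q ∈ I.radical := by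
  classical
  have hfin : I.minimalPrimes.Finite := Ideal.finite_minimalPrimes_of_isNoetherianRing _ I
  have h1 : ∀ 𝔮 ∈ I.minimalPrimes, ∃ Q : MvPolynomial (Fin 3) k, Q ≠ 0 ∧
      MvPolynomial.aeval v Q ∈ 𝔮 := by
    intro 𝔮 h𝔮
    have hprime : 𝔮.IsPrime := h𝔮.1.1
    have hle : I ≤ 𝔮 := h𝔮.1.2
    have hd : ringKrullDim (MvPolynomial ι k ⧸ 𝔮) ≤ 2 :=
      (ringKrullDim_le_of_surjective (Ideal.Quotient.factor hle)
        (Ideal.Quotient.factor_surjective hle)).trans hdim
    obtain ⟨Q, hQ0, hQ⟩ := exists_relation_of_krullDim (k := k) hd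
      (fun i => Ideal.Quotient.mk 𝔮 (v i))
    refine ⟨Q, hQ0, ?_⟩
    rw [← Ideal.Quotient.eq_zero_iff_mem]
    have h2 : Ideal.Quotient.mkₐ k 𝔮 (MvPolynomial.aeval v Q) =
        MvPolynomial.aeval (fun i => Ideal.Quotient.mk 𝔮 (v i)) Q := by
      rw [MvPolynomial.comp_aeval_apply]; rfl
    exact h2.trans hQ
  choose! Q hQ0 hQ using h1
  refine ⟨∏ 𝔮 ∈ hfin.toFinset, Q 𝔮, ?_, ?_⟩
  · rw [Finset.prod_ne_zero_iff]
    intro 𝔮 h𝔮
    exact hQ0 𝔮 (hfin.mem_toFinset.1 h𝔮)
  · rw [← Ideal.sInf_minimalPrimes, Ideal.mem_sInf]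
    intro 𝔮 h𝔮
    rw [map_prod]
    rw [← Finset.mul_prod_erase _ _ (hfin.mem_toFinset.2 h𝔮)]
    exact 𝔮.mul_mem_right _ (hQ 𝔮 h𝔮)

end Pool.Agent.Helper36

end

section

/-!
# Unions of arithmetic progressions and gap sets
-/

set_option autoImplicit false

namespace Pool.Agent.Helper36

/-- the union of the arithmetic progressions `{a * m + b : m ≥ 0}`, `(a, b) ∈ T` -/
def APSet (T : Finset (ℕ × ℕ)) : Set ℕ := {n : ℕ | ∃ p ∈ T, ∃ m : ℕ, n = p.1 * m + p.2}

lemma APSet_union (T T' : Finset (ℕ × ℕ)) : APSet (T ∪ T') = APSet T ∪ APSet T' := by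
  classical
  ext n
  simp only [APSet, Set.mem_ofPred_eq, Finset.mem_union, Set.mem_union]
  constructor
  · rintro ⟨p, hp | hp, m, hm⟩
    · exact Or.inl ⟨p, hp, m, hm⟩
    · exact Or.inr ⟨p, hp, m, hm⟩
  · rintro (⟨p, hp, m, hm⟩ | ⟨p, hp, m, hm⟩)
    · exact ⟨p, Or.inl hp, m, hm⟩
    · exact ⟨p, Or.inr hp, m, hm⟩

lemma APSet_of_finite {A : Set ℕ} (hA : A.Finite) : ∃ T, A = APSet T := by
  classical
  refine ⟨hA.toFinset.image fun n => (0, n), ?_⟩
  ext n
  simp only [APSet, Finset.mem_image, Set.Finite.mem_toFinset, Set.mem_ofPred_eq]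
  constructor
  · intro h
    exact ⟨(0, n), ⟨n, h, rfl⟩, 0, by simp⟩
  · rintro ⟨_, ⟨n', hn', rfl⟩, m, hm⟩
    simp only [zero_mul, zero_add] at hm
    rw [hm]; exact hn'

lemma APSet_univ : ∃ T, (Set.univ : Set ℕ) = APSet T := by
  refine ⟨{(1, 0)}, ?_⟩
  ext n
  simp [APSet]

/-- A set closed under adding `k`, up to finitely many exceptions, is a finite union of
arithmetic progressions. -/
lemma APSet_of_evClosed {A : Set ℕ} {k : ℕ} (hk : 0 < k) (h : {n ∈ A | n + k ∉ A}.Finite) :
    ∃ T, A = APSet T := by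
  classical
  obtain ⟨b, hb⟩ := h.bddAbove
  have hcl : ∀ n ∈ A, b < n → n + k ∈ A := by
    intro n hn hbn
    by_contra hc
    have := hb (show n ∈ {n ∈ A | n + k ∉ A} from ⟨hn, hc⟩)
    omega
  have hcl' : ∀ m n, n ∈ A → b < n → n + k * m ∈ A := by
    intro m
    induction m with
    | zero => intro n hn _; simpa using hn
    | succ m ih =>
      intro n hn hbn
      have := hcl _ (ih n hn hbn) (by omega)
      rwa [Nat.mul_succ, ← add_assoc]
  -- the elements beyond `b`, in each residue class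
  have hex : ∀ r : ℕ, (∃ n, n ∈ A ∧ b < n ∧ n % k = r) → ∃ n₀, (n₀ ∈ A ∧ b < n₀ ∧ n₀ % k = r) ∧
      ∀ n, n ∈ A ∧ b < n ∧ n % k = r → n₀ ≤ n := by
    intro r hr
    exact ⟨Nat.find hr, Nat.find_spec hr, fun n hn => Nat.find_min' hr hn⟩
  choose! f hf using hex
  obtain ⟨T₀, hT₀⟩ := APSet_of_finite (A := A ∩ Set.Iic b) ((Set.finite_Iic b).inter_of_right A)
  refine ⟨T₀ ∪ ((Finset.range k).filter
    (fun r => ∃ n, n ∈ A ∧ b < n ∧ n % k = r)).image (fun r => (k, f r)), ?_⟩
  rw [APSet_union, ← hT₀]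
  ext n
  simp only [Set.mem_union, Set.mem_inter_iff, Set.mem_Iic, APSet, Finset.mem_image,
    Finset.mem_filter, Finset.mem_range, Set.mem_ofPred_eq]
  constructor
  · intro hn
    rcases Nat.lt_or_ge b n with hbn | hbn
    · right
      have hr : ∃ n', n' ∈ A ∧ b < n' ∧ n' % k = n % k := ⟨n, hn, hbn, rfl⟩
      obtain ⟨⟨h1, h2, h3⟩, h4⟩ := hf (n % k) hr
      have h5 := h4 n ⟨hn, hbn, rfl⟩
      refine ⟨(k, f (n % k)), ⟨n % k, ⟨Nat.mod_lt _ hk, hr⟩, rfl⟩, (n - f (n % k)) / k, ?_⟩
      have h6 : k ∣ n - f (n % k) := (Nat.modEq_iff_dvd' h5).1 h3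
      simp only
      rw [Nat.mul_div_cancel' h6]
      omega
    · exact Or.inl ⟨hn, hbn⟩
  · rintro (⟨hn, -⟩ | ⟨_, ⟨r, ⟨_, hr⟩, rfl⟩, m, rfl⟩)
    · exact hn
    · obtain ⟨⟨h1, h2, h3⟩, h4⟩ := hf r hr
      simp only
      rw [add_comm]
      exact hcl' m _ h1 h2

end Pool.Agent.Helper36

end

section

/-!
# Clearing denominators and descent of coefficients
-/

set_option autoImplicit false

namespace Pool.Agent.Helper36

open Polynomial Height Height.AdmissibleAbsValues Function

section functional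

variable {K L : Type*} [Field K] [Field L] [Algebra K L] {σ : Type*}

/-- apply a linear functional to the coefficients -/
noncomputable def mapLin (ρ : L →ₗ[K] K) (g : MvPolynomial σ L) : MvPolynomial σ K :=
  ∑ m ∈ g.support, MvPolynomial.monomial m (ρ (g.coeff m))

lemma coeff_mapLin (ρ : L →ₗ[K] K) (g : MvPolynomial σ L) (m : σ →₀ ℕ) :
    (mapLin ρ g).coeff m = ρ (g.coeff m) := by
  classical
  rw [mapLin, MvPolynomial.coeff_sum]
  simp only [MvPolynomial.coeff_monomial]
  rw [Finset.sum_ite_eq']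
  split_ifs with h
  · rfl
  · rw [MvPolynomial.notMem_support_iff.1 h, map_zero]

lemma eval_mapLin (ρ : L →ₗ[K] K) (g : MvPolynomial σ L) (x : σ → K) :
    MvPolynomial.eval x (mapLin ρ g) =
      ρ (MvPolynomial.eval (fun i => algebraMap K L (x i)) g) := by
  rw [mapLin, map_sum, MvPolynomial.eval_eq (fun i => algebraMap K L (x i)) g, map_sum]
  refine Finset.sum_congr rfl fun m _ => ?_
  have h1 : g.coeff m * ∏ i ∈ m.support, (algebraMap K L (x i)) ^ m i =
      (∏ i ∈ m.support, x i ^ m i) • g.coeff m := by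
    rw [Algebra.smul_def, map_prod, mul_comm]
    simp only [map_pow]
  rw [h1, map_smul, MvPolynomial.eval_monomial, smul_eq_mul, mul_comm, Finsupp.prod]

lemma mapLin_isHomogeneous (ρ : L →ₗ[K] K) {g : MvPolynomial σ L} {e : ℕ}
    (hg : g.IsHomogeneous e) : (mapLin ρ g).IsHomogeneous e := by
  intro m hm
  apply hg
  intro h
  apply hm
  rw [coeff_mapLin, h, map_zero]

lemma exists_functional {c : L} (hc : c ≠ 0) : ∃ ρ : L →ₗ[K] K, ρ c ≠ 0 := by
  by_contra h
  push Not at h
  exact hc ((Module.forall_dual_apply_eq_zero_iff K c).1 h)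

lemma exists_mapLin_ne_zero {g : MvPolynomial σ L} (hg : g ≠ 0) :
    ∃ ρ : L →ₗ[K] K, mapLin ρ g ≠ 0 := by
  obtain ⟨m, hm⟩ := MvPolynomial.ne_zero_iff.1 hg
  obtain ⟨ρ, hρ⟩ := exists_functional (K := K) hm
  refine ⟨ρ, MvPolynomial.ne_zero_iff.2 ⟨m, ?_⟩⟩
  rwa [coeff_mapLin]

lemma eval_eq_zero_iff_mapLin (g : MvPolynomial σ L) (x : σ → K) :
    MvPolynomial.eval (fun i => algebraMap K L (x i)) g = 0 ↔
      ∀ ρ : L →ₗ[K] K, MvPolynomial.eval x (mapLin ρ g) = 0 := by
  simp only [eval_mapLin]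
  constructor
  · intro h ρ; rw [h, map_zero]
  · intro h; exact (Module.forall_dual_apply_eq_zero_iff K _).1 h

end functional

section denominators

variable {O K : Type*} [CommRing O] [IsDomain O] [Field K] [Algebra O K] [IsFractionRing O K]

end denominators

section overField

variable {K : Type*} [Field K] [AdmissibleAbsValues K]

variable {ι : Type*} [Fintype ι]

end overField

end Pool.Agent.Helper36

end

section

/-!
# Project TG: places with a product formula, contact of points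

`K` is a field with an admissible family of absolute values (Mathlib: heights), for instance a
number field. `ls f` is the sum of a function over all absolute values of the family (with
multiplicity); `FS f` says that `f` vanishes at almost all non-archimedean absolute values.
-/

set_option autoImplicit false

namespace Pool.Agent.Helper29.TG

open Height AdmissibleAbsValues

variable {K : Type} [Field K]

/-- The maximum norm of a vector. -/
noncomputable def nm {ι : Type} (v : AbsoluteValue K ℝ) (x : ι → K) : ℝ := ⨆ i, v (x i)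

/-- The vector of the `2 × 2` minors. -/
def cr {ι : Type} (x y : ι → K) : ι × ι → K := fun q => x q.1 * y q.2 - x q.2 * y q.1

/-- The contact of two points at an absolute value. -/
noncomputable def ct {ι : Type} (v : AbsoluteValue K ℝ) (x y : ι → K) : ℝ :=
  Real.log (nm v x) + Real.log (nm v y) - Real.log (nm v (cr x y))

/-- The value of a linear form. -/
def lin {ι : Type} [Fintype ι] (a x : ι → K) : K := ∑ i, a i * x i

/-- The defect `D log |x| - log |Q(x)|` of a form `Q` of degree `D` at a point. -/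
noncomputable def df {ι : Type} (v : AbsoluteValue K ℝ) (Q : MvPolynomial ι K) (D : ℕ)
    (x : ι → K) : ℝ := D * Real.log (nm v x) - Real.log (v (MvPolynomial.eval x Q))

variable [AdmissibleAbsValues K]

/-- The sum over all absolute values of the family. -/
noncomputable def ls (f : AbsoluteValue K ℝ → ℝ) : ℝ :=
  ((archAbsVal (K := K)).map f).sum + ∑ᶠ v : nonarchAbsVal (K := K), f v.val

/-- The function vanishes at almost all non-archimedean absolute values. -/
def FS (f : AbsoluteValue K ℝ → ℝ) : Prop :=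
  (Function.support fun v : nonarchAbsVal (K := K) => f v.val).Finite

/-- An absolute value of the family. -/
def Mem (v : AbsoluteValue K ℝ) : Prop :=
  v ∈ archAbsVal (K := K) ∨ v ∈ nonarchAbsVal (K := K)

end Pool.Agent.Helper29.TG

end

section

/-!
# Project TG: the sum over all absolute values
-/

set_option autoImplicit false

namespace Pool.Agent.Helper29.TG

open Height AdmissibleAbsValues

variable {K : Type} [Field K] [AdmissibleAbsValues K]

theorem FS.add {f g : AbsoluteValue K ℝ → ℝ} (hf : FS f) (hg : FS g) : FS (fun v => f v + g v) :=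
  (Set.Finite.union hf hg).subset (Function.support_add _ _)

theorem FS.sub {f g : AbsoluteValue K ℝ → ℝ} (hf : FS f) (hg : FS g) : FS (fun v => f v - g v) :=
  (Set.Finite.union hf hg).subset (Function.support_sub _ _)

theorem FS.mul_left (c : ℝ) {f : AbsoluteValue K ℝ → ℝ} (hf : FS f) : FS (fun v => c * f v) := by
  refine Set.Finite.subset hf fun v hv => ?_
  rw [Function.mem_support] at hv ⊢
  exact right_ne_zero_of_mul hv

theorem FS.zero : FS (fun _ : AbsoluteValue K ℝ => (0 : ℝ)) := by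
  unfold FS
  simp

theorem FS.mono {f g : AbsoluteValue K ℝ → ℝ} (hg : FS g)
    (h : ∀ v ∈ nonarchAbsVal (K := K), g v = 0 → f v = 0) : FS f := by
  refine Set.Finite.subset hg fun v hv => ?_
  rw [Function.mem_support] at hv ⊢
  exact fun h0 => hv (h v.val v.2 h0)

theorem FS.congr {f g : AbsoluteValue K ℝ → ℝ} (hg : FS g)
    (h : ∀ v ∈ nonarchAbsVal (K := K), f v = g v) : FS f :=
  hg.mono fun v hv h0 => by rw [h v hv, h0]

theorem FS.sum {α : Type*} (s : Finset α) {f : α → AbsoluteValue K ℝ → ℝ}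
    (hf : ∀ a ∈ s, FS (f a)) : FS (fun v => ∑ a ∈ s, f a v) := by
  classical
  induction s using Finset.induction_on with
  | empty => simpa using FS.zero
  | insert a s ha ih =>
    simp only [Finset.sum_insert ha]
    exact (hf a (Finset.mem_insert_self _ _)).add
      (ih fun b hb => hf b (Finset.mem_insert_of_mem hb))

theorem FS.of_finite {f : AbsoluteValue K ℝ → ℝ} {B : Set (AbsoluteValue K ℝ)} (hB : B.Finite)
    (h : ∀ v ∈ nonarchAbsVal (K := K), v ∉ B → f v = 0) : FS f := by
  refine (hB.preimage (f := fun v : nonarchAbsVal (K := K) => v.val)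
    Subtype.val_injective.injOn).subset fun v hv => ?_
  rw [Function.mem_support] at hv
  by_contra hcon
  exact hv (h v.val v.2 hcon)

theorem ls_add {f g : AbsoluteValue K ℝ → ℝ} (hf : FS f) (hg : FS g) :
    ls (fun v => f v + g v) = ls f + ls g := by
  unfold ls
  rw [Multiset.sum_map_add, finsum_add_distrib hf hg]
  ring

theorem ls_mul_left (c : ℝ) (f : AbsoluteValue K ℝ → ℝ) :
    ls (fun v => c * f v) = c * ls f := by
  unfold ls
  rw [Multiset.sum_map_mul_left, ← mul_finsum, mul_add]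

theorem ls_sub {f g : AbsoluteValue K ℝ → ℝ} (hf : FS f) (hg : FS g) :
    ls (fun v => f v - g v) = ls f - ls g := by
  have h1 : (fun v => f v - g v) = fun v => f v + (-1) * g v := by
    funext v
    ring
  rw [h1, ls_add hf (hg.mul_left _), ls_mul_left]
  ring

theorem ls_zero : ls (fun _ : AbsoluteValue K ℝ => (0 : ℝ)) = 0 := by
  unfold ls
  simp

theorem ls_sum {α : Type*} (s : Finset α) {f : α → AbsoluteValue K ℝ → ℝ}
    (hf : ∀ a ∈ s, FS (f a)) : ls (fun v => ∑ a ∈ s, f a v) = ∑ a ∈ s, ls (f a) := by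
  classical
  induction s using Finset.induction_on with
  | empty => simpa using ls_zero
  | insert a s ha ih =>
    simp only [Finset.sum_insert ha]
    rw [ls_add (hf a (Finset.mem_insert_self _ _))
      (FS.sum s fun b hb => hf b (Finset.mem_insert_of_mem hb)),
      ih fun b hb => hf b (Finset.mem_insert_of_mem hb)]

theorem ls_mono {f g : AbsoluteValue K ℝ → ℝ} (hf : FS f) (hg : FS g)
    (h : ∀ v, Mem v → f v ≤ g v) : ls f ≤ ls g := by
  unfold ls
  refine add_le_add ?_ ?_
  · exact Multiset.sum_map_le_sum_map _ _ fun v hv => h v (Or.inl hv)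
  · classical
    set s : Finset (nonarchAbsVal (K := K)) := hf.toFinset ∪ hg.toFinset with hs
    rw [finsum_eq_sum_of_support_subset (s := s) _ (by
        intro v hv
        rw [hs, Finset.coe_union, Set.mem_union]
        exact Or.inl (hf.mem_toFinset.2 hv)),
      finsum_eq_sum_of_support_subset (s := s) _ (by
        intro v hv
        rw [hs, Finset.coe_union, Set.mem_union]
        exact Or.inr (hg.mem_toFinset.2 hv))]
    exact Finset.sum_le_sum fun v _ => h v.val (Or.inr v.2)

theorem ls_nonneg {f : AbsoluteValue K ℝ → ℝ} (hf : FS f) (h : ∀ v, Mem v → 0 ≤ f v) :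
    0 ≤ ls f := by
  have := ls_mono FS.zero hf h
  rwa [ls_zero] at this

theorem FS_log {x : K} (hx : x ≠ 0) : FS (fun v => Real.log (v x)) := by
  have h := hasFiniteMulSupport (K := K) hx
  refine Set.Finite.subset h fun v hv => ?_
  rw [Function.mem_support] at hv
  rw [Function.mem_mulSupport]
  intro h1
  refine hv ?_
  change Real.log (v.val x) = 0
  rw [h1, Real.log_one]

theorem ls_log {x : K} (hx : x ≠ 0) : ls (fun v => Real.log (v x)) = 0 := by
  have h := product_formula (K := K) hx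
  have hpos : ∀ v : AbsoluteValue K ℝ, 0 < v x := fun v => v.pos hx
  have h1 : ((archAbsVal (K := K)).map (· x)).prod ≠ 0 := by
    intro h0
    rw [h0, zero_mul] at h
    exact zero_ne_one h
  have h2 : (∏ᶠ v : nonarchAbsVal (K := K), v.val x) ≠ 0 := by
    intro h0
    rw [h0, mul_zero] at h
    exact zero_ne_one h
  have h3 := congrArg Real.log h
  rw [Real.log_one, Real.log_mul h1 h2] at h3
  unfold ls
  rw [← h3]
  congr 1
  · rw [Real.log_multiset_prod]
    · rw [Multiset.map_map]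
      rfl
    · intro a ha
      obtain ⟨v, -, rfl⟩ := Multiset.mem_map.1 ha
      exact (hpos v).ne'
  · exact (Real.log_finprod (f := fun v : nonarchAbsVal (K := K) => v.val x)
      (fun v => hpos v.val)).symm

end Pool.Agent.Helper29.TG

end

section

/-!
# Project TG: contact of two points (module of helper45)
-/

set_option autoImplicit false

namespace Pool.Agent.Helper29.TG

open Height AdmissibleAbsValues

variable {K : Type} [Field K]

section one

variable {ι : Type} [Finite ι]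

theorem le_nm (v : AbsoluteValue K ℝ) (x : ι → K) (i : ι) : v (x i) ≤ nm v x :=
  le_ciSup (f := fun i => v (x i)) (Set.finite_range _).bddAbove i

omit [Finite ι] in
theorem nm_nonneg (v : AbsoluteValue K ℝ) (x : ι → K) : 0 ≤ nm v x :=
  Real.iSup_nonneg fun i => v.nonneg _

omit [Finite ι] in
theorem nm_le {v : AbsoluteValue K ℝ} {x : ι → K} {c : ℝ} (hc : 0 ≤ c) (h : ∀ i, v (x i) ≤ c) :
    nm v x ≤ c :=
  Real.iSup_le h hc

theorem exists_nm_eq (v : AbsoluteValue K ℝ) {x : ι → K} (hx : x ≠ 0) :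
    ∃ i, x i ≠ 0 ∧ nm v x = v (x i) := by
  obtain ⟨i₁, hi₁⟩ := Function.ne_iff.1 hx
  have : Nonempty ι := ⟨i₁⟩
  obtain ⟨i, hi⟩ := Finite.exists_max fun i => v (x i)
  refine ⟨i, ?_, le_antisymm (nm_le (v.nonneg _) hi) (le_nm v x i)⟩
  intro h0
  have h1 := hi i₁
  rw [h0, map_zero] at h1
  exact absurd (v.pos hi₁) (not_lt.2 h1)

theorem nm_pos (v : AbsoluteValue K ℝ) {x : ι → K} (hx : x ≠ 0) : 0 < nm v x := by
  obtain ⟨i, hi, h⟩ := exists_nm_eq v hx
  rw [h]
  exact v.pos hi

omit [Finite ι] in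
theorem nm_smul (v : AbsoluteValue K ℝ) (c : K) (x : ι → K) : nm v (c • x) = v c * nm v x := by
  unfold nm
  rw [Real.mul_iSup_of_nonneg (v.nonneg c)]
  simp only [Pi.smul_apply, smul_eq_mul, map_mul]

omit [Finite ι] in
theorem left_ne_zero {x y : ι → K} (h : cr x y ≠ 0) : x ≠ 0 := by
  rintro rfl
  apply h
  funext q
  simp [cr]

omit [Finite ι] in
theorem right_ne_zero {x y : ι → K} (h : cr x y ≠ 0) : y ≠ 0 := by
  rintro rfl
  apply h
  funext q
  simp [cr]

omit [Finite ι] in
theorem contact_cr_comm (x y : ι → K) : cr y x = -cr x y := by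
  funext q
  simp only [cr, Pi.neg_apply]
  ring

omit [Finite ι] in
theorem contact_nm_neg (v : AbsoluteValue K ℝ) (x : ι → K) : nm v (-x) = nm v x := by
  unfold nm
  simp only [Pi.neg_apply, map_neg_eq_map]

omit [Finite ι] in
theorem ct_comm (v : AbsoluteValue K ℝ) (x y : ι → K) : ct v x y = ct v y x := by
  unfold ct
  rw [contact_cr_comm x y, contact_nm_neg]
  ring

end one

end Pool.Agent.Helper29.TG

end

section

/-!
# Project TG: sums of contacts over all places (module of helper10)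
-/

set_option autoImplicit false

namespace Pool.Agent.Helper29.TG

open Height AdmissibleAbsValues

variable {K : Type} [Field K]

section two

variable {ι : Type} [Finite ι] [AdmissibleAbsValues K]

theorem FS_nm {x : ι → K} (hx : x ≠ 0) : FS (fun v => Real.log (nm v x)) := by
  classical
  have h1 : ∀ i : ι, FS (fun v : AbsoluteValue K ℝ =>
      if x i = 0 then (0 : ℝ) else Real.log (v (x i))) := by
    intro i
    by_cases hi : x i = 0
    · simpa only [hi, if_true] using FS.zero
    · simpa only [hi, if_false] using FS_log hi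
  refine Set.Finite.subset (Set.finite_iUnion h1) fun v hv => ?_
  rw [Function.mem_support] at hv
  obtain ⟨i, hi, hvi⟩ := exists_nm_eq v.val hx
  refine Set.mem_iUnion.2 ⟨i, ?_⟩
  rw [Function.mem_support]
  simp only [hi, if_false]
  rwa [← hvi]

theorem ls_nm {x : ι → K} (hx : x ≠ 0) : ls (fun v => Real.log (nm v x)) = logHeight x := by
  have hpos : ∀ v : AbsoluteValue K ℝ, 0 < nm v x := fun v => nm_pos v hx
  have h0 : 0 < mulHeight x := mulHeight_pos x
  rw [logHeight_eq_log_mulHeight]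
  rw [mulHeight_eq hx] at h0 ⊢
  have h1 : ((archAbsVal (K := K)).map fun v => ⨆ i, v (x i)).prod ≠ 0 := by
    intro h
    rw [h, zero_mul] at h0
    exact lt_irrefl _ h0
  have h2 : (∏ᶠ v : nonarchAbsVal (K := K), ⨆ i, v.val (x i)) ≠ 0 := by
    intro h
    rw [h, mul_zero] at h0
    exact lt_irrefl _ h0
  rw [Real.log_mul h1 h2]
  unfold ls
  congr 1
  · rw [Real.log_multiset_prod]
    · rw [Multiset.map_map]
      rfl
    · intro a ha
      obtain ⟨v, -, rfl⟩ := Multiset.mem_map.1 ha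
      exact (hpos v).ne'
  · exact (Real.log_finprod (f := fun v : nonarchAbsVal (K := K) => ⨆ i, v.val (x i))
      (fun v => hpos v.val)).symm

theorem FS_ct {x y : ι → K} (h : cr x y ≠ 0) : FS (fun v => ct v x y) :=
  ((FS_nm (left_ne_zero h)).add (FS_nm (right_ne_zero h))).sub (FS_nm h)

end two

end Pool.Agent.Helper29.TG

end

section

/-!
# Project TG: defects of forms (module of helper65)
-/

set_option autoImplicit false

namespace Pool.Agent.Helper29.TG

open Height AdmissibleAbsValues MvPolynomial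

variable {K : Type} [Field K] {ι : Type} [Finite ι]

omit [Finite ι] in
theorem Df_degree {Q : MvPolynomial ι K} {D : ℕ} (hQ : Q.IsHomogeneous D) {m : ι →₀ ℕ}
    (hm : m ∈ Q.support) : ∑ i ∈ m.support, m i = D := by
  have := hQ (MvPolynomial.mem_support_iff.1 hm)
  rw [Finsupp.weight_apply] at this
  simpa [Finsupp.sum] using this

theorem Df_term_le (v : AbsoluteValue K ℝ) {Q : MvPolynomial ι K} {D : ℕ}
    (hQ : Q.IsHomogeneous D) (x : ι → K) {m : ι →₀ ℕ} (hm : m ∈ Q.support) {B : ℝ}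
    (hB : v (Q.coeff m) ≤ B) :
    v (coeff m Q * ∏ i ∈ m.support, x i ^ m i) ≤ B * nm v x ^ D := by
  have h1 : ∏ i ∈ m.support, v (x i ^ m i) ≤ nm v x ^ D := by
    rw [← Df_degree hQ hm, ← Finset.prod_pow_eq_pow_sum]
    refine Finset.prod_le_prod (fun i _ => v.nonneg _) fun i _ => ?_
    rw [map_pow]
    exact pow_le_pow_left₀ (v.nonneg _) (le_nm v x i) _
  rw [map_mul, map_prod]
  exact mul_le_mul hB h1 (Finset.prod_nonneg fun i _ => v.nonneg _) ((v.nonneg _).trans hB)

theorem Df_eval_le_na {v : AbsoluteValue K ℝ} (hv : IsNonarchimedean v) {Q : MvPolynomial ι K}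
    {D : ℕ} (hQ : Q.IsHomogeneous D) {B : ℝ} (hB : 0 ≤ B)
    (hc : ∀ m ∈ Q.support, v (Q.coeff m) ≤ B) (x : ι → K) :
    v (eval x Q) ≤ B * nm v x ^ D := by
  rw [eval_eq]
  rcases Q.support.eq_empty_or_nonempty with h0 | hs
  · rw [h0, Finset.sum_empty, map_zero]
    exact mul_nonneg hB (pow_nonneg (nm_nonneg v x) _)
  · obtain ⟨m, hm, h1⟩ := IsNonarchimedean.finset_image_add_of_nonempty hv
      (fun m => coeff m Q * ∏ i ∈ m.support, x i ^ m i) hs
    exact h1.trans (Df_term_le v hQ x hm (hc m hm))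

theorem Df_eval_le (v : AbsoluteValue K ℝ) {Q : MvPolynomial ι K}
    {D : ℕ} (hQ : Q.IsHomogeneous D) {B : ℝ}
    (hc : ∀ m ∈ Q.support, v (Q.coeff m) ≤ B) (x : ι → K) :
    v (eval x Q) ≤ Q.support.card * (B * nm v x ^ D) := by
  rw [eval_eq]
  refine (v.sum_le _ _).trans ?_
  rw [← nsmul_eq_mul]
  exact Finset.sum_le_card_nsmul _ _ _ fun m hm => Df_term_le v hQ x hm (hc m hm)

open Classical in
/-- `log |Q(x)| ≤ D log |x| + c_v` with `c_v = 0` for almost all `v`; all places -/
theorem exists_log_eval_le [AdmissibleAbsValues K] {Q : MvPolynomial ι K} {D : ℕ}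
    (hQ : Q.IsHomogeneous D) : ∃ c : AbsoluteValue K ℝ → ℝ, FS c ∧ (∀ v, Mem v → 0 ≤ c v) ∧
      ∀ v, Mem v → ∀ x : ι → K, eval x Q ≠ 0 →
        Real.log (v (eval x Q)) ≤ D * Real.log (nm v x) + c v := by
  set c₁ : AbsoluteValue K ℝ → ℝ := fun v =>
    ∑ m ∈ Q.support, max 0 (Real.log (v (Q.coeff m))) with hc₁
  set c₂ : AbsoluteValue K ℝ → ℝ := fun v =>
    if v ∈ nonarchAbsVal (K := K) then 0 else Real.log (Q.support.card + 1) with hc₂
  have h1n : ∀ v, 0 ≤ c₁ v := fun v => Finset.sum_nonneg fun m _ => le_max_left _ _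
  have h2n : ∀ v, 0 ≤ c₂ v := by
    intro v
    simp only [hc₂]
    split_ifs
    · exact le_rfl
    · refine Real.log_nonneg ?_
      have : (0 : ℝ) ≤ Q.support.card := Nat.cast_nonneg _
      linarith
  have hFS1 : FS c₁ := by
    refine FS.sum _ fun m hm => (FS_log (mem_support_iff.1 hm)).mono fun v _ h0 => ?_
    rw [h0, max_self]
  have hFS2 : FS c₂ := by
    refine FS.zero.congr fun v hv => ?_
    simp only [hc₂]
    rw [if_pos hv]
  have hcoeff : ∀ v : AbsoluteValue K ℝ, ∀ m ∈ Q.support,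
      v (Q.coeff m) ≤ Real.exp (c₁ v) := by
    intro v m hm
    have hpos : 0 < v (Q.coeff m) := v.pos (mem_support_iff.1 hm)
    rw [← Real.log_le_iff_le_exp hpos]
    refine (le_max_right 0 _).trans ?_
    exact Finset.single_le_sum (f := fun m => max 0 (Real.log (v (Q.coeff m))))
      (fun m _ => le_max_left _ _) hm
  refine ⟨fun v => c₁ v + c₂ v, hFS1.add hFS2, fun v _ => add_nonneg (h1n v) (h2n v),
    fun v _ x hx => ?_⟩
  have hpos : 0 < v (eval x Q) := v.pos hx
  by_cases hv : v ∈ nonarchAbsVal (K := K)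
  · have h1 := Df_eval_le_na (isNonarchimedean v hv) hQ (Real.exp_pos _).le (hcoeff v) x
    have h3 : nm v x ^ D ≠ 0 := by
      intro h0
      rw [h0, mul_zero] at h1
      linarith
    have h2 := Real.log_le_log hpos h1
    rw [Real.log_mul (Real.exp_pos _).ne' h3, Real.log_exp, Real.log_pow] at h2
    have := h2n v
    linarith
  · have h1 := Df_eval_le v hQ (hcoeff v) x
    have h4 : v (eval x Q) ≤
        ((Q.support.card : ℝ) + 1) * (Real.exp (c₁ v) * nm v x ^ D) := by
      refine h1.trans (mul_le_mul_of_nonneg_right (by linarith) ?_)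
      exact mul_nonneg (Real.exp_pos _).le (pow_nonneg (nm_nonneg v x) _)
    have hcard : (0 : ℝ) < (Q.support.card : ℝ) + 1 := by positivity
    have h3 : nm v x ^ D ≠ 0 := by
      intro h0
      rw [h0, mul_zero, mul_zero] at h4
      linarith
    have h2 := Real.log_le_log hpos h4
    rw [Real.log_mul hcard.ne' (mul_ne_zero (Real.exp_pos _).ne' h3),
      Real.log_mul (Real.exp_pos _).ne' h3, Real.log_exp, Real.log_pow] at h2
    have h5 : c₂ v = Real.log (Q.support.card + 1) := by
      simp only [hc₂]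
      rw [if_neg hv]
    change _ ≤ (D : ℝ) * Real.log (nm v x) + (c₁ v + c₂ v)
    rw [h5]
    linarith

theorem finite_arch [AdmissibleAbsValues K] :
    {v : AbsoluteValue K ℝ | v ∈ archAbsVal (K := K)}.Finite := by
  classical
  refine ((archAbsVal (K := K)).toFinset.finite_toSet).subset fun v hv => ?_
  rw [Finset.mem_coe, Multiset.mem_toFinset]
  exact hv

theorem FS_df [AdmissibleAbsValues K] {Q : MvPolynomial ι K} {D : ℕ} {x : ι → K}
    (hx : eval x Q ≠ 0) (hx0 : x ≠ 0) : FS (fun v => df v Q D x) :=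
  ((FS_nm hx0).mul_left (D : ℝ)).sub (FS_log hx)

theorem ls_df [AdmissibleAbsValues K] {Q : MvPolynomial ι K} {D : ℕ} {x : ι → K}
    (hx : eval x Q ≠ 0) (hx0 : x ≠ 0) : ls (fun v => df v Q D x) = D * logHeight x := by
  unfold df
  rw [ls_sub ((FS_nm hx0).mul_left (D : ℝ)) (FS_log hx), ls_mul_left, ls_nm hx0, ls_log hx,
    sub_zero]

end Pool.Agent.Helper29.TG

end

section

/-!
# Dynamical Mordell-Lang for curves and regular polynomial maps: definitions
-/

set_option autoImplicit false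

namespace Pool.Agent.Helper65.RP

open MvPolynomial Filter Topology

section ord

variable {Ω : Type} [NormedField Ω]

end ord

section pol

variable {K Kb Ω : Type} [Field K] [Field Kb] [Algebra K Kb] [NormedField Ω] [Algebra K Ω]
  [Algebra Kb Ω] {N : ℕ}

end pol

/-- One distinguished absolute value of `K` (given by the embedding in `Ω`, with multiplicity `n`),
the other ones `abv`, the product inequality on a ring `O` of integers, and the Subspace theorem
with algebraic coefficients at the distinguished place. -/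
structure PD (K Ω : Type) [Field K] [NormedField Ω] [Algebra K Ω] (Λ : Type) [Fintype Λ] where
  n : ℕ
  hn : 0 < n
  abv : Λ → AbsoluteValue K ℝ
  O : Subring K
  frac : ∀ x : K, ∃ y ∈ O, y ≠ 0 ∧ x * y ∈ O
  one_le : ∀ x ∈ O, x ≠ 0 → 1 ≤ ‖algebraMap K Ω x‖ ^ n * ∏ l, abv l x
  sub : ∀ (M : ℕ) (A : Matrix (Fin M) (Fin M) Ω), 2 ≤ M → (∀ i j, IsAlgebraic K (A i j)) →
    A.det ≠ 0 → ∀ δ B : ℝ, 0 < δ →
    ∃ 𝒲 : Finset (Submodule K (Fin M → K)), (∀ W ∈ 𝒲, W ≠ ⊤) ∧
      ∀ (Q : ℝ) (a : Fin M → ℝ) (b : Λ → ℝ) (y : Fin M → K), 1 ≤ Q → (∀ i, y i ∈ O) →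
        (∀ i, Q ^ (-B) ≤ a i ∧ a i ≤ Q ^ B) → (∀ l, Q ^ (-B) ≤ b l ∧ b l ≤ Q ^ B) →
        (∀ i, ‖∑ j, A i j * algebraMap K Ω (y j)‖ ≤ a i) → (∀ l i, abv l (y i) ≤ b l) →
        (∏ i, a i) ^ n * ∏ l, b l ^ M ≤ Q ^ (-δ) → ∃ W ∈ 𝒲, y ∈ W

/-- `f` is a regular polynomial map of degree `d`: the leading forms have no common zero. -/
def Regular {K : Type} [Field K] {N : ℕ} (Kb : Type) [Field Kb] [Algebra K Kb] (d : ℕ)
    (f : Fin N → MvPolynomial (Fin N) K) : Prop :=
  (∀ i, (f i).totalDegree ≤ d) ∧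
    ∀ y : Fin N → Kb, (∀ i, aeval y (homogeneousComponent d (f i)) = 0) → y = 0

end Pool.Agent.Helper65.RP

end

section

/-!
# Project TG: contact of the points of the plane curve and of the given points
(module of helper99)
-/

set_option autoImplicit false

namespace Pool.Agent.Helper29.TG

open Height AdmissibleAbsValues MvPolynomial

variable {K : Type} [Field K] {ν : ℕ}

/-- The point of the plane with coordinates the values of three linear forms. -/
def pl (a : Fin 3 → Fin (ν + 1) → K) (x : Fin (ν + 1) → K) : Fin 3 → K := fun j => lin (a j) x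

end Pool.Agent.Helper29.TG

end

section

namespace Pool.Agent.Helper36
end Pool.Agent.Helper36

/-!
# Project TB (contact with an algebraic point at a fixed place): definitions
-/

set_option autoImplicit false

namespace Pool.Agent.Helper65.TB

open MvPolynomial Filter Topology

open Pool.Agent.Helper36 (step iter)

variable {K Ω : Type} [Field K] [NormedField Ω] [Algebra K Ω] {N : ℕ}

/-- The vectors `u n` tend to `q` along `𝒰` with rate at least `κ` (scale `s`). -/
def App (𝒰 : Ultrafilter ℕ) (s : ℕ → ℝ) (u : ℕ → Fin N → Ω) (q : Fin N → Ω) (κ : ℝ) : Prop :=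
  ∃ C : ℝ, ∀ᶠ n in (𝒰 : Filter ℕ), ‖u n - q‖ ≤ C * Real.exp (-κ * s n)

/-- The coordinates are integral over `K[F]`, of degree at most `t`. -/
def IntBy (F : Fin N → MvPolynomial (Fin N) K) (t : ℕ) : Prop :=
  ∀ i : Fin N, ∃ R : Polynomial (MvPolynomial (Fin N) K), R.Monic ∧ R.natDegree ≤ t ∧
    (R.map ((bind₁ F : MvPolynomial (Fin N) K →ₐ[K] MvPolynomial (Fin N) K) :
      MvPolynomial (Fin N) K →+* MvPolynomial (Fin N) K)).eval (X i) = 0

/-- The Jacobian determinant. -/
noncomputable def jd (F : Fin N → MvPolynomial (Fin N) K) : MvPolynomial (Fin N) K :=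
  (Matrix.of fun i j => pderiv j (F i)).det

open scoped Classical in
/-- The set has positive upper density. -/
def PosUD (A : Set ℕ) : Prop :=
  ∃ ε : ℝ, 0 < ε ∧ ∀ M : ℕ, ∃ n, M ≤ n ∧ 0 < n ∧ ε * n ≤ ((Finset.range n).filter (· ∈ A)).card

/-- The vector over `Ω` of a vector over `K`. -/
def vec (Ω : Type) [NormedField Ω] [Algebra K Ω] (x : Fin N → K) : Fin N → Ω :=
  fun i => algebraMap K Ω (x i)

end Pool.Agent.Helper65.TB

end

section

namespace Pool.Agent.Helper36
end Pool.Agent.Helper36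

/-!
# Project TB: no loss at the points outside the critical set
-/

set_option autoImplicit false

namespace Pool.Agent.Helper65.TB

open MvPolynomial Filter Topology

open Pool.Agent.Helper36 (step iter)

variable {K Ω : Type} [Field K] [NormedField Ω] [Algebra K Ω] {N : ℕ}

/-- Taylor's formula to first order. -/
theorem StepB_taylor (p : MvPolynomial (Fin N) K) (q : Fin N → Ω) :
    ∃ C : ℝ, 0 ≤ C ∧ ∀ x : Fin N → Ω, ‖x - q‖ ≤ 1 →
      ‖aeval x p - aeval q p - ∑ j, aeval q (pderiv j p) * (x j - q j)‖ ≤ C * ‖x - q‖ ^ 2 := by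
  classical
  induction p using MvPolynomial.induction_on with
  | C a =>
    refine ⟨0, le_refl 0, fun x _ => ?_⟩
    simp [MvPolynomial.algHom_C]
  | add f g hf hg =>
    obtain ⟨C1, h1, H1⟩ := hf
    obtain ⟨C2, h2, H2⟩ := hg
    refine ⟨C1 + C2, by positivity, fun x hx => ?_⟩
    have h3 : aeval x (f + g) - aeval q (f + g)
        - ∑ j, aeval q (pderiv j (f + g)) * (x j - q j)
        = (aeval x f - aeval q f - ∑ j, aeval q (pderiv j f) * (x j - q j))
          + (aeval x g - aeval q g - ∑ j, aeval q (pderiv j g) * (x j - q j)) := by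
      simp only [map_add, add_mul, Finset.sum_add_distrib]
      ring
    rw [h3]
    refine (norm_add_le _ _).trans ?_
    have := add_le_add (H1 x hx) (H2 x hx)
    linarith
  | mul_X f i hf =>
    obtain ⟨C1, h1, H1⟩ := hf
    set S : ℝ := ∑ j, ‖aeval q (pderiv j f)‖ with hS
    have hS0 : 0 ≤ S := Finset.sum_nonneg fun j _ => norm_nonneg _
    refine ⟨C1 * (‖q‖ + 1) + S, by positivity, fun x hx => ?_⟩
    set D : Ω := ∑ j, aeval q (pderiv j f) * (x j - q j) with hD
    have h3 : aeval x (f * X i) - aeval q (f * X i)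
        - ∑ j, aeval q (pderiv j (f * X i)) * (x j - q j)
        = (aeval x f - aeval q f - D) * x i + D * (x i - q i) := by
      have h4 : ∑ j, aeval q (pderiv j (f * X i)) * (x j - q j)
          = D * q i + aeval q f * (x i - q i) := by
        have h5 : ∀ j, aeval q (pderiv j (f * X i)) * (x j - q j)
            = aeval q (pderiv j f) * (x j - q j) * q i
              + (if j = i then aeval q f * (x j - q j) else 0) := by
          intro j
          rw [pderiv_mul, map_add, map_mul, map_mul, aeval_X, pderiv_X]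
          by_cases hji : j = i
          · subst hji
            simp
            ring
          · rw [Pi.single_eq_of_ne (fun h => hji h.symm), if_neg hji]
            simp
            ring
        rw [Finset.sum_congr rfl fun j _ => h5 j, Finset.sum_add_distrib, ← Finset.sum_mul,
          Finset.sum_ite_eq' Finset.univ i, if_pos (Finset.mem_univ i)]
      rw [h4, map_mul, map_mul, aeval_X, aeval_X]
      ring
    rw [h3]
    refine (norm_add_le _ _).trans ?_
    rw [norm_mul, norm_mul]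
    have hxi : ‖x i - q i‖ ≤ ‖x - q‖ := norm_le_pi_norm (x - q) i
    have hx1 : ‖x i‖ ≤ ‖q‖ + 1 := by
      have h5 : x i = q i + (x i - q i) := by ring
      have h6 : ‖q i‖ ≤ ‖q‖ := norm_le_pi_norm q i
      rw [h5]
      exact (norm_add_le _ _).trans (by linarith)
    have hDn : ‖D‖ ≤ S * ‖x - q‖ := by
      rw [hD, hS, Finset.sum_mul]
      refine (norm_sum_le _ _).trans (Finset.sum_le_sum fun j _ => ?_)
      rw [norm_mul]
      exact mul_le_mul_of_nonneg_left (norm_le_pi_norm (x - q) j) (norm_nonneg _)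
    have hA := H1 x hx
    have hn := norm_nonneg (x - q)
    have e1 : ‖aeval x f - aeval q f - D‖ * ‖x i‖ ≤ C1 * ‖x - q‖ ^ 2 * (‖q‖ + 1) :=
      mul_le_mul hA hx1 (norm_nonneg _) (by positivity)
    have e2 : ‖D‖ * ‖x i - q i‖ ≤ S * ‖x - q‖ * ‖x - q‖ :=
      mul_le_mul hDn hxi (norm_nonneg _) (by positivity)
    nlinarith [e1, e2]

/-- A point near `q` is controlled by its image. -/
theorem StepB_lower {F : Fin N → MvPolynomial (Fin N) K} {q : Fin N → Ω}
    (hdet : aeval q (jd F) ≠ 0) :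
    ∃ C0 C1 : ℝ, 0 ≤ C0 ∧ 0 ≤ C1 ∧ ∀ x : Fin N → Ω, ‖x - q‖ ≤ 1 →
      ‖x - q‖ ≤ C0 * (‖step F x - step F q‖ + C1 * ‖x - q‖ ^ 2) := by
  classical
  choose C hC0 hC using fun i => StepB_taylor (F i) q
  set J : Matrix (Fin N) (Fin N) Ω := Matrix.of fun i j => aeval q (pderiv j (F i)) with hJ
  have hJd : J.det = aeval q (jd F) := by
    rw [jd, AlgHom.map_det]
    rfl
  have hJu : IsUnit J.det := by
    rw [hJd]
    exact isUnit_iff_ne_zero.2 hdet
  have hinv : J⁻¹ * J = 1 := Matrix.nonsing_inv_mul J hJu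
  set C1 : ℝ := ∑ i, C i with hC1
  have hC1' : ∀ i, C i ≤ C1 := fun i =>
    Finset.single_le_sum (fun j _ => hC0 j) (Finset.mem_univ i)
  have hC1n : 0 ≤ C1 := Finset.sum_nonneg fun j _ => hC0 j
  set B : ℝ := ∑ i, ∑ j, ‖J⁻¹ i j‖ with hB
  have hBn : 0 ≤ B := Finset.sum_nonneg fun i _ => Finset.sum_nonneg fun j _ => norm_nonneg _
  refine ⟨B, C1, hBn, hC1n, fun x hx => ?_⟩
  set y : Fin N → Ω := J.mulVec (x - q) with hy
  have hxy : x - q = J⁻¹.mulVec y := by
    rw [hy, Matrix.mulVec_mulVec, hinv, Matrix.one_mulVec]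
  have hyn : ∀ i, ‖y i‖ ≤ ‖step F x - step F q‖ + C1 * ‖x - q‖ ^ 2 := by
    intro i
    have h1 : y i = ∑ j, aeval q (pderiv j (F i)) * (x j - q j) := by
      rw [hy]
      rfl
    have h2 : y i = (step F x - step F q) i - (aeval x (F i) - aeval q (F i)
        - ∑ j, aeval q (pderiv j (F i)) * (x j - q j)) := by
      rw [h1, Pi.sub_apply, step, step]
      ring
    rw [h2]
    refine (norm_sub_le _ _).trans ?_
    have h3 : ‖(step F x - step F q) i‖ ≤ ‖step F x - step F q‖ := norm_le_pi_norm _ i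
    have h4 := hC i x hx
    have h5 : C i * ‖x - q‖ ^ 2 ≤ C1 * ‖x - q‖ ^ 2 :=
      mul_le_mul_of_nonneg_right (hC1' i) (by positivity)
    linarith
  have hE : 0 ≤ ‖step F x - step F q‖ + C1 * ‖x - q‖ ^ 2 := by positivity
  rw [pi_norm_le_iff_of_nonneg (mul_nonneg hBn hE)]
  intro i
  have hxi : (x - q) i = ∑ j, J⁻¹ i j * y j := congrFun hxy i
  rw [hxi]
  refine (norm_sum_le _ _).trans ?_
  have h6 : ∀ j ∈ Finset.univ, ‖J⁻¹ i j * y j‖
      ≤ ‖J⁻¹ i j‖ * (‖step F x - step F q‖ + C1 * ‖x - q‖ ^ 2) := by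
    intro j _
    rw [norm_mul]
    exact mul_le_mul_of_nonneg_left (hyn j) (norm_nonneg _)
  refine (Finset.sum_le_sum h6).trans ?_
  rw [← Finset.sum_mul]
  refine mul_le_mul_of_nonneg_right ?_ hE
  exact Finset.single_le_sum (f := fun i => ∑ j, ‖J⁻¹ i j‖)
    (fun k _ => Finset.sum_nonneg fun j _ => norm_nonneg _) (Finset.mem_univ i)

/-- Near a point where the Jacobian determinant does not vanish the map is bi-Lipschitz. -/
theorem app_of_det {F : Fin N → MvPolynomial (Fin N) K} {q : Fin N → Ω}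
    (hdet : aeval q (jd F) ≠ 0) {𝒰 : Ultrafilter ℕ} {s : ℕ → ℝ}
    (hs : Tendsto s (𝒰 : Filter ℕ) atTop) {u : ℕ → Fin N → Ω} {κ κ' : ℝ} (hκ' : 0 < κ')
    (h' : App 𝒰 s u q κ') (h : App 𝒰 s (fun n => step F (u n)) (step F q) κ) :
    App 𝒰 s u q κ := by
  obtain ⟨C0, C1, h0, h1, H⟩ := StepB_lower hdet
  obtain ⟨A, hA⟩ := h'
  obtain ⟨B, hB⟩ := h
  have ht : Tendsto (fun n => A * Real.exp (-κ' * s n)) (𝒰 : Filter ℕ) (𝓝 0) := by
    have e1 : Tendsto (fun n => -κ' * s n) (𝒰 : Filter ℕ) atBot :=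
      hs.const_mul_atTop_of_neg (neg_lt_zero.2 hκ')
    have e2 := Real.tendsto_exp_atBot.comp e1
    have e3 := e2.const_mul A
    rw [mul_zero] at e3
    exact e3
  have ht2 : Tendsto (fun n => ‖u n - q‖) (𝒰 : Filter ℕ) (𝓝 0) :=
    squeeze_zero' (Eventually.of_forall fun n => norm_nonneg _) hA ht
  have hpos : (0 : ℝ) < 1 / (2 * (C0 * C1) + 1) := by positivity
  have hev : ∀ᶠ n in (𝒰 : Filter ℕ), ‖u n - q‖ < 1 / (2 * (C0 * C1) + 1) :=
    ht2.eventually_lt_const hpos
  have hev1 : ∀ᶠ n in (𝒰 : Filter ℕ), ‖u n - q‖ < 1 := ht2.eventually_lt_const one_pos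
  refine ⟨2 * C0 * B, ?_⟩
  filter_upwards [hev, hev1, hB] with n hn1 hn2 hn3
  have hw := H (u n) hn2.le
  have hwn := norm_nonneg (u n - q)
  have h5 : C0 * C1 * ‖u n - q‖ ^ 2 ≤ ‖u n - q‖ / 2 := by
    have h6 : (2 * (C0 * C1) + 1) * ‖u n - q‖ ≤ 1 := by
      have h7 : 0 < 2 * (C0 * C1) + 1 := by positivity
      rw [lt_div_iff₀ h7] at hn1
      linarith [hn1]
    have h8 : C0 * C1 * ‖u n - q‖ ≤ 1 / 2 := by
      have : 0 ≤ C0 * C1 := by positivity
      nlinarith
    calc C0 * C1 * ‖u n - q‖ ^ 2 = C0 * C1 * ‖u n - q‖ * ‖u n - q‖ := by ring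
      _ ≤ 1 / 2 * ‖u n - q‖ := mul_le_mul_of_nonneg_right h8 hwn
      _ = ‖u n - q‖ / 2 := by ring
  have h9 : ‖u n - q‖ ≤ 2 * C0 * ‖step F (u n) - step F q‖ := by
    have h10 : C0 * (‖step F (u n) - step F q‖ + C1 * ‖u n - q‖ ^ 2)
        = C0 * ‖step F (u n) - step F q‖ + C0 * C1 * ‖u n - q‖ ^ 2 := by ring
    rw [h10] at hw
    linarith
  calc ‖u n - q‖ ≤ 2 * C0 * ‖step F (u n) - step F q‖ := h9
    _ ≤ 2 * C0 * (B * Real.exp (-κ * s n)) :=
        mul_le_mul_of_nonneg_left hn3 (by positivity)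
    _ = 2 * C0 * B * Real.exp (-κ * s n) := by ring

end Pool.Agent.Helper65.TB

end

section

/-!
# Subspace theorem project: basic definitions
-/

set_option autoImplicit false

namespace Pool.Agent.Helper10.Sub

open MvPolynomial

section hasse

variable {σ : Type*} {R : Type*} [CommRing R]

/-- Translation `P(X + ξ)`. -/
noncomputable def shift (ξ : σ → R) : MvPolynomial σ R →ₐ[R] MvPolynomial σ R :=
  aeval (fun i => X i + C (ξ i))

/-- `P(X + Y)` as a polynomial in `X` whose coefficients are polynomials in `Y`. -/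
noncomputable def taylor : MvPolynomial σ R →ₐ[R] MvPolynomial σ (MvPolynomial σ R) :=
  aeval (fun i => X i + C (X i))

/-- The Hasse derivative of order `k`: the coefficient of `Y ^ k` in `P(X + Y)`. -/
noncomputable def hd (k : σ →₀ ℕ) (P : MvPolynomial σ R) : MvPolynomial σ R :=
  coeff k (taylor P)

end hasse

/-- Weight of an exponent vector with respect to degrees `r`. -/
noncomputable def wt {b : ℕ} (r : Fin b → ℕ) (k : Fin b →₀ ℕ) : ℝ := ∑ h, (k h : ℝ) / (r h : ℝ)

/-- Block weight of an exponent vector. -/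
noncomputable def wtB {b : ℕ} {ι : Type*} [Fintype ι] (r : Fin b → ℕ) (k : (Fin b × ι) →₀ ℕ) : ℝ :=
  ∑ h, ((∑ i, k (h, i) : ℕ) : ℝ) / (r h : ℝ)

/-- Height of a rational number. -/
noncomputable def ht (x : ℚ) : ℝ := max (x.num.natAbs : ℝ) (x.den : ℝ)

/-- Height (maximum of the absolute values) of an integer vector. -/
noncomputable def htv {ι : Type*} [Fintype ι] (m : ι → ℤ) : ℝ :=
  ((Finset.univ.sup fun i => (m i).natAbs : ℕ) : ℝ)

/-- Primitive integer vectors. -/
def Prim {ι : Type*} [Fintype ι] (m : ι → ℤ) : Prop :=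
  ∀ d : ℤ, (∀ i, d ∣ m i) → IsUnit d

/-- The rational number `x` lies in `ℤ[1/P]`. -/
def PInt (P : ℕ) (x : ℚ) : Prop := ∃ k : ℕ, ∃ z : ℤ, x * (P : ℚ) ^ k = z

/-- The vector `x` has coordinates in `ℤ[1/P]`. -/
def PVec {ι : Type*} (P : ℕ) (x : ι → ℚ) : Prop := ∀ i, PInt P (x i)

/-- A system of `card ι` independent real linear forms and, for each `t`, of `card ι` independent
`p t`-adic linear forms, with algebraic coefficients. -/
structure Sys (ι : Type*) [Fintype ι] [DecidableEq ι] (T : Type*) (p : T → ℕ)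
    [∀ t, Fact (p t).Prime] where
  A : Matrix ι ι ℝ
  A' : ∀ t, Matrix ι ι ℚ_[p t]
  algA : ∀ i j, IsAlgebraic ℚ (A i j)
  algA' : ∀ t i j, IsAlgebraic ℚ (A' t i j)
  detA : A.det ≠ 0
  detA' : ∀ t, (A' t).det ≠ 0

variable {ι : Type*} [Fintype ι] [DecidableEq ι] {T : Type*} [Fintype T] {p : T → ℕ}
  [∀ t, Fact (p t).Prime]

/-- The real forms at a rational vector. -/
noncomputable def Sys.L (S : Sys ι T p) (x : ι → ℚ) : ι → ℝ := fun i => ∑ j, S.A i j * (x j : ℝ)

/-- The `p t`-adic forms at a rational vector. -/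
noncomputable def Sys.L' (S : Sys ι T p) (t : T) (x : ι → ℚ) : ι → ℚ_[p t] :=
  fun i => ∑ j, S.A' t i j * (x j : ℚ_[p t])

/-- Size at infinity: `max |L_i(x)| / a_i`. -/
noncomputable def Sys.Ninf (S : Sys ι T p) (a : ι → ℝ) (x : ι → ℚ) : ℝ := ‖fun i => S.L x i / a i‖

/-- Size at `p t`: `max |L'_i(x)|_p / a'_i`. -/
noncomputable def Sys.Np (S : Sys ι T p) (t : T) (a' : ι → ℝ) (x : ι → ℚ) : ℝ :=
  ‖fun i => ‖S.L' t x i‖ / a' i‖

/-- Total size. -/
noncomputable def Sys.N (S : Sys ι T p) (a : ι → ℝ) (a' : T → ι → ℝ) (x : ι → ℚ) : ℝ :=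
  S.Ninf a x * ∏ t, S.Np t (a' t) x

/-- Product of all weights. -/
noncomputable def wprod (a : ι → ℝ) (a' : T → ι → ℝ) : ℝ := (∏ i, a i) * ∏ t, ∏ i, a' t i

/-- The product of the primes `p t`. -/
def pprod (p : T → ℕ) : ℕ := ∏ t, p t

/-- Linear change of variables, the same in every block: `P(M Y_1, ..., M Y_b)`. -/
noncomputable def linSub {b : ℕ} {ι : Type*} [Fintype ι] {F : Type*} [CommRing F]
    (M : Matrix ι ι F) (P : MvPolynomial (Fin b × ι) ℤ) : MvPolynomial (Fin b × ι) F :=
  aeval (fun q : Fin b × ι => ∑ j, C (M q.2 j) * X (q.1, j)) P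

section alg

variable {κ : Type*} [Fintype κ] [DecidableEq κ] {F : Type*} [Field F] (K0 : Subfield F)

lemma det_mem {A : Matrix κ κ F} (h : ∀ i j, A i j ∈ K0) : A.det ∈ K0 := by
  rw [Matrix.det_apply]
  refine K0.sum_mem fun σ _ => ?_
  rw [Units.smul_def]
  exact K0.zsmul_mem (K0.prod_mem fun i _ => h _ _) _

lemma inv_mem {A : Matrix κ κ F} (h : ∀ i j, A i j ∈ K0) (i j : κ) : A⁻¹ i j ∈ K0 := by
  rw [Matrix.inv_def, Matrix.smul_apply, smul_eq_mul]
  refine K0.mul_mem ?_ ?_
  · rw [Ring.inverse_eq_inv']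
    exact K0.inv_mem (det_mem K0 h)
  · rw [Matrix.adjugate_apply]
    apply det_mem
    intro a b
    rw [Matrix.updateRow_apply]
    split_ifs
    · rw [Pi.single_apply]
      split_ifs
      · exact K0.one_mem
      · exact K0.zero_mem
    · exact h a b

lemma isAlgebraic_iff_mem {F : Type*} [Field F] [Algebra ℚ F] (x : F) :
    IsAlgebraic ℚ x ↔ x ∈ (algebraicClosure ℚ F).toSubfield := by
  rw [IntermediateField.mem_toSubfield, mem_algebraicClosure_iff]

lemma inv_isAlgebraic {F : Type*} [Field F] [Algebra ℚ F] {A : Matrix κ κ F}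
    (h : ∀ i j, IsAlgebraic ℚ (A i j)) (i j : κ) : IsAlgebraic ℚ (A⁻¹ i j) := by
  rw [isAlgebraic_iff_mem]
  exact inv_mem _ (fun a b => (isAlgebraic_iff_mem _).mp (h a b)) i j

lemma det_isAlgebraic {F : Type*} [Field F] [Algebra ℚ F] {A : Matrix κ κ F}
    (h : ∀ i j, IsAlgebraic ℚ (A i j)) : IsAlgebraic ℚ A.det := by
  rw [isAlgebraic_iff_mem]
  exact det_mem _ (fun a b => (isAlgebraic_iff_mem _).mp (h a b))

end alg

/-- The dual system (inverse transposed matrices). -/
noncomputable def Sys.dual (S : Sys ι T p) : Sys ι T p where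
  A := (S.A⁻¹).transpose
  A' := fun t => ((S.A' t)⁻¹).transpose
  algA := fun i j => inv_isAlgebraic S.algA j i
  algA' := fun t i j => inv_isAlgebraic (S.algA' t) j i
  detA := by
    rw [Matrix.det_transpose, Matrix.det_nonsing_inv, Ring.inverse_eq_inv']
    exact inv_ne_zero S.detA
  detA' := fun t => by
    rw [Matrix.det_transpose, Matrix.det_nonsing_inv, Ring.inverse_eq_inv']
    exact inv_ne_zero (S.detA' t)

end Pool.Agent.Helper10.Sub

end

section

/-!
# Subspace theorem project: compound matrices, definitions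
-/

set_option autoImplicit false

namespace Pool.Agent.Helper10.Sub

/-- `k`-element subsets. -/
abbrev Ik (ι : Type*) (k : ℕ) : Type _ := {s : Finset ι // s.card = k}

variable {ι : Type*} [LinearOrder ι] {R : Type*} [CommRing R]

/-- The compound matrix of `k × k` minors. -/
noncomputable def compM (k : ℕ) (A : Matrix ι ι R) : Matrix (Ik ι k) (Ik ι k) R :=
  fun s t => (A.submatrix (s.1.orderEmbOfFin s.2) (t.1.orderEmbOfFin t.2)).det

/-- Coordinates of `x 0 ∧ ... ∧ x (k-1)`. -/
noncomputable def wedge {k : ℕ} (x : Fin k → ι → R) : Ik ι k → R :=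
  fun s => (Matrix.of fun i j => x i (s.1.orderEmbOfFin s.2 j)).det

end Pool.Agent.Helper10.Sub

end

section

namespace Pool.Agent.Helper10.Sub
end Pool.Agent.Helper10.Sub

/-!
# Subspace theorem project: elementary properties of the size `N`
-/

set_option autoImplicit false

set_option linter.unusedSectionVars false

namespace Pool.Agent.Helper94.Sub

open Pool.Agent.Helper10.Sub

variable {ι : Type} [Fintype ι] [DecidableEq ι] {T : Type} [Fintype T] {p : T → ℕ}
  [∀ t, Fact (p t).Prime]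

theorem L_smul (S : Sys ι T p) (c : ℚ) (x : ι → ℚ) : S.L (c • x) = fun i => (c : ℝ) * S.L x i := by
  funext i
  simp only [Sys.L, Pi.smul_apply, smul_eq_mul, Finset.mul_sum]
  refine Finset.sum_congr rfl fun j _ => ?_
  push_cast
  ring

theorem L'_smul (S : Sys ι T p) (t : T) (c : ℚ) (x : ι → ℚ) :
    S.L' t (c • x) = fun i => (c : ℚ_[p t]) * S.L' t x i := by
  funext i
  simp only [Sys.L', Pi.smul_apply, smul_eq_mul, Finset.mul_sum]
  refine Finset.sum_congr rfl fun j _ => ?_
  push_cast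
  ring

theorem Ninf_smul (S : Sys ι T p) (a : ι → ℝ) (c : ℚ) (x : ι → ℚ) :
    S.Ninf a (c • x) = |(c : ℝ)| * S.Ninf a x := by
  unfold Sys.Ninf
  rw [L_smul]
  have h : (fun i => (c : ℝ) * S.L x i / a i) = (c : ℝ) • (fun i => S.L x i / a i) := by
    funext i
    simp only [Pi.smul_apply, smul_eq_mul]
    ring
  rw [h, norm_smul, Real.norm_eq_abs]

theorem Np_smul (S : Sys ι T p) (t : T) (a' : ι → ℝ) (c : ℚ) (x : ι → ℚ) :
    S.Np t a' (c • x) = ‖(c : ℚ_[p t])‖ * S.Np t a' x := by
  unfold Sys.Np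
  rw [L'_smul]
  have h : (fun i => ‖(c : ℚ_[p t]) * S.L' t x i‖ / a' i) =
      ‖(c : ℚ_[p t])‖ • (fun i => ‖S.L' t x i‖ / a' i) := by
    funext i
    simp only [Pi.smul_apply, smul_eq_mul, norm_mul]
    ring
  rw [h, norm_smul, norm_norm]

/-- The factor by which `N` is multiplied. -/
noncomputable def fac (p : T → ℕ) [∀ t, Fact (p t).Prime] (c : ℚ) : ℝ :=
  |(c : ℝ)| * ∏ t, ‖(c : ℚ_[p t])‖

theorem N_smul (S : Sys ι T p) (a : ι → ℝ) (a' : T → ι → ℝ) (c : ℚ) (x : ι → ℚ) :
    S.N a a' (c • x) = fac p c * S.N a a' x := by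
  unfold Sys.N fac
  rw [Ninf_smul]
  simp only [Np_smul, Finset.prod_mul_distrib]
  ring

theorem Ninf_nonneg (S : Sys ι T p) (a : ι → ℝ) (x : ι → ℚ) : 0 ≤ S.Ninf a x := norm_nonneg _

theorem Np_nonneg (S : Sys ι T p) (t : T) (a' : ι → ℝ) (x : ι → ℚ) : 0 ≤ S.Np t a' x :=
  norm_nonneg _

theorem N_nonneg (S : Sys ι T p) (a : ι → ℝ) (a' : T → ι → ℝ) (x : ι → ℚ) : 0 ≤ S.N a a' x :=
  mul_nonneg (Ninf_nonneg _ _ _) (Finset.prod_nonneg fun _ _ => Np_nonneg _ _ _ _)

theorem fac_mul (c d : ℚ) : fac p (c * d) = fac p c * fac p d := by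
  unfold fac
  push_cast
  simp only [abs_mul, norm_mul, Finset.prod_mul_distrib]
  ring

theorem sum_inv_L (S : Sys ι T p) (x : ι → ℚ) (j : ι) :
    (x j : ℝ) = ∑ i, S.A⁻¹ j i * S.L x i := by
  have h0 : IsUnit S.A.det := S.detA.isUnit
  have h1 : S.L x = S.A.mulVec (fun j => (x j : ℝ)) := by
    funext i
    rfl
  have h2 : S.A⁻¹.mulVec (S.L x) = fun j => (x j : ℝ) := by
    rw [h1, Matrix.mulVec_mulVec, Matrix.nonsing_inv_mul _ h0, Matrix.one_mulVec]
  exact (congrFun h2 j).symm

theorem sum_inv_L' (S : Sys ι T p) (t : T) (x : ι → ℚ) (j : ι) :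
    (x j : ℚ_[p t]) = ∑ i, (S.A' t)⁻¹ j i * S.L' t x i := by
  have h0 : IsUnit (S.A' t).det := (S.detA' t).isUnit
  have h1 : S.L' t x = (S.A' t).mulVec (fun j => (x j : ℚ_[p t])) := by
    funext i
    rfl
  have h2 : (S.A' t)⁻¹.mulVec (S.L' t x) = fun j => (x j : ℚ_[p t]) := by
    rw [h1, Matrix.mulVec_mulVec, Matrix.nonsing_inv_mul _ h0, Matrix.one_mulVec]
  exact (congrFun h2 j).symm

/-- A constant bounding the entries of the inverse matrix at infinity. -/
noncomputable def cA (S : Sys ι T p) : ℝ := 1 + ∑ j, ∑ i, |S.A⁻¹ j i|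

noncomputable def cA' (S : Sys ι T p) (t : T) : ℝ := 1 + ∑ j, ∑ i, ‖(S.A' t)⁻¹ j i‖

theorem one_le_cA (S : Sys ι T p) : 1 ≤ cA S := by
  have : 0 ≤ ∑ j, ∑ i, |S.A⁻¹ j i| :=
    Finset.sum_nonneg fun _ _ => Finset.sum_nonneg fun _ _ => abs_nonneg _
  unfold cA
  linarith

theorem one_le_cA' (S : Sys ι T p) (t : T) : 1 ≤ cA' S t := by
  have : 0 ≤ ∑ j, ∑ i, ‖(S.A' t)⁻¹ j i‖ :=
    Finset.sum_nonneg fun _ _ => Finset.sum_nonneg fun _ _ => norm_nonneg _
  unfold cA'
  linarith

theorem abs_L_le (S : Sys ι T p) (a : ι → ℝ) (ha : ∀ i, 0 < a i) (x : ι → ℚ) (i : ι) :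
    |S.L x i| ≤ a i * S.Ninf a x := by
  have h1 : ‖S.L x i / a i‖ ≤ S.Ninf a x := norm_le_pi_norm (fun i => S.L x i / a i) i
  rw [norm_div, Real.norm_eq_abs, Real.norm_eq_abs, abs_of_pos (ha i), div_le_iff₀ (ha i)] at h1
  linarith

theorem norm_L'_le (S : Sys ι T p) (t : T) (a' : ι → ℝ) (ha : ∀ i, 0 < a' i) (x : ι → ℚ) (i : ι) :
    ‖S.L' t x i‖ ≤ a' i * S.Np t a' x := by
  have h1 : ‖‖S.L' t x i‖ / a' i‖ ≤ S.Np t a' x :=
    norm_le_pi_norm (fun i => ‖S.L' t x i‖ / a' i) i
  rw [norm_div, norm_norm, Real.norm_eq_abs, abs_of_pos (ha i), div_le_iff₀ (ha i)] at h1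
  linarith

theorem abs_coord_le (S : Sys ι T p) (a : ι → ℝ) (M : ℝ) (ha : ∀ i, 0 < a i) (haM : ∀ i, a i ≤ M)
    (x : ι → ℚ) (j : ι) : |(x j : ℝ)| ≤ cA S * M * S.Ninf a x := by
  have hN := Ninf_nonneg S a x
  have hM : 0 ≤ M := (ha j).le.trans (haM j)
  have hb : ∀ i, |S.L x i| ≤ M * S.Ninf a x := fun i =>
    (abs_L_le S a ha x i).trans (mul_le_mul_of_nonneg_right (haM i) hN)
  have hMN : 0 ≤ M * S.Ninf a x := mul_nonneg hM hN
  rw [sum_inv_L S x j]
  calc |∑ i, S.A⁻¹ j i * S.L x i| ≤ ∑ i, |S.A⁻¹ j i * S.L x i| := Finset.abs_sum_le_sum_abs _ _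
    _ = ∑ i, |S.A⁻¹ j i| * |S.L x i| := by simp only [abs_mul]
    _ ≤ ∑ i, |S.A⁻¹ j i| * (M * S.Ninf a x) :=
        Finset.sum_le_sum fun i _ => mul_le_mul_of_nonneg_left (hb i) (abs_nonneg _)
    _ = (∑ i, |S.A⁻¹ j i|) * (M * S.Ninf a x) := by rw [Finset.sum_mul]
    _ ≤ cA S * (M * S.Ninf a x) := by
        refine mul_le_mul_of_nonneg_right ?_ hMN
        have h1 : (∑ i, |S.A⁻¹ j i|) ≤ ∑ j, ∑ i, |S.A⁻¹ j i| :=
          Finset.single_le_sum (f := fun j => ∑ i, |S.A⁻¹ j i|)
            (fun j _ => Finset.sum_nonneg fun _ _ => abs_nonneg _) (Finset.mem_univ j)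
        unfold cA
        linarith
    _ = cA S * M * S.Ninf a x := by ring

theorem norm_coord_le (S : Sys ι T p) (t : T) (a' : ι → ℝ) (M : ℝ) (ha : ∀ i, 0 < a' i)
    (haM : ∀ i, a' i ≤ M) (x : ι → ℚ) (j : ι) :
    ‖(x j : ℚ_[p t])‖ ≤ cA' S t * M * S.Np t a' x := by
  have hN := Np_nonneg S t a' x
  have hM : 0 ≤ M := (ha j).le.trans (haM j)
  have hb : ∀ i, ‖S.L' t x i‖ ≤ M * S.Np t a' x := fun i =>
    (norm_L'_le S t a' ha x i).trans (mul_le_mul_of_nonneg_right (haM i) hN)
  have hMN : 0 ≤ M * S.Np t a' x := mul_nonneg hM hN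
  rw [sum_inv_L' S t x j]
  calc ‖∑ i, (S.A' t)⁻¹ j i * S.L' t x i‖ ≤ ∑ i, ‖(S.A' t)⁻¹ j i * S.L' t x i‖ := norm_sum_le _ _
    _ = ∑ i, ‖(S.A' t)⁻¹ j i‖ * ‖S.L' t x i‖ := by simp only [norm_mul]
    _ ≤ ∑ i, ‖(S.A' t)⁻¹ j i‖ * (M * S.Np t a' x) :=
        Finset.sum_le_sum fun i _ => mul_le_mul_of_nonneg_left (hb i) (norm_nonneg _)
    _ = (∑ i, ‖(S.A' t)⁻¹ j i‖) * (M * S.Np t a' x) := by rw [Finset.sum_mul]
    _ ≤ cA' S t * (M * S.Np t a' x) := by
        refine mul_le_mul_of_nonneg_right ?_ hMN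
        have h1 : (∑ i, ‖(S.A' t)⁻¹ j i‖) ≤ ∑ j, ∑ i, ‖(S.A' t)⁻¹ j i‖ :=
          Finset.single_le_sum (f := fun j => ∑ i, ‖(S.A' t)⁻¹ j i‖)
            (fun j _ => Finset.sum_nonneg fun _ _ => norm_nonneg _) (Finset.mem_univ j)
        unfold cA'
        linarith
    _ = cA' S t * M * S.Np t a' x := by ring

theorem Ninf_pos (S : Sys ι T p) (a : ι → ℝ) (ha : ∀ i, 0 < a i) (x : ι → ℚ) (hx : x ≠ 0) :
    0 < S.Ninf a x := by
  obtain ⟨j, hj⟩ := Function.ne_iff.1 hx
  rcases (Ninf_nonneg S a x).lt_or_eq with h | h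
  · exact h
  · exfalso
    have h1 := abs_coord_le S a (∑ i, a i) ha
      (fun i => Finset.single_le_sum (fun i _ => (ha i).le) (Finset.mem_univ i)) x j
    rw [← h, mul_zero] at h1
    have h2 : (x j : ℝ) = 0 := abs_eq_zero.1 (le_antisymm h1 (abs_nonneg _))
    exact hj (by simpa using h2)

theorem Np_pos (S : Sys ι T p) (t : T) (a' : ι → ℝ) (ha : ∀ i, 0 < a' i) (x : ι → ℚ)
    (hx : x ≠ 0) : 0 < S.Np t a' x := by
  obtain ⟨j, hj⟩ := Function.ne_iff.1 hx
  rcases (Np_nonneg S t a' x).lt_or_eq with h | h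
  · exact h
  · exfalso
    have h1 := norm_coord_le S t a' (∑ i, a' i) ha
      (fun i => Finset.single_le_sum (fun i _ => (ha i).le) (Finset.mem_univ i)) x j
    rw [← h, mul_zero] at h1
    have h2 : (x j : ℚ_[p t]) = 0 := norm_eq_zero.1 (le_antisymm h1 (norm_nonneg _))
    exact hj (by simpa using h2)

theorem N_pos (S : Sys ι T p) (a : ι → ℝ) (a' : T → ι → ℝ) (ha : ∀ i, 0 < a i)
    (ha' : ∀ t i, 0 < a' t i) (x : ι → ℚ) (hx : x ≠ 0) : 0 < S.N a a' x :=
  mul_pos (Ninf_pos S a ha x hx) (Finset.prod_pos fun t _ => Np_pos S t _ (ha' t) x hx)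

theorem norm_int_zpow (t : T) (z : ℤ) (hz : z ≠ 0) :
    ‖((z : ℚ) : ℚ_[p t])‖ = ((p t : ℝ) ^ (padicValNat (p t) z.natAbs))⁻¹ := by
  have hz' : (z : ℚ) ≠ 0 := by exact_mod_cast hz
  rw [Padic.eq_padicNorm, padicNorm.eq_zpow_of_nonzero hz', padicValRat.of_int]
  push_cast
  rw [zpow_neg]
  congr 1

theorem one_le_fac_int (hp : Function.Injective p) (z : ℤ) (hz : z ≠ 0) : 1 ≤ fac p (z : ℚ) := by
  classical
  have h1 : (∏ t, p t ^ padicValNat (p t) z.natAbs) ∣ z.natAbs := by
    refine Fintype.prod_dvd_of_isRelPrime ?_ ?_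
    · intro t t' htt'
      rw [Function.onFun, ← Nat.coprime_iff_isRelPrime]
      refine Nat.Coprime.pow _ _ ?_
      rw [Nat.coprime_primes (Fact.out : (p t).Prime) (Fact.out : (p t').Prime)]
      exact fun h => htt' (hp h)
    · intro t
      exact pow_padicValNat_dvd
  have h2 : (∏ t, p t ^ padicValNat (p t) z.natAbs) ≤ z.natAbs :=
    Nat.le_of_dvd (Int.natAbs_pos.2 hz) h1
  have h3 : (0 : ℝ) < ∏ t, (p t : ℝ) ^ padicValNat (p t) z.natAbs :=
    Finset.prod_pos fun t _ => pow_pos (by exact_mod_cast (Fact.out : (p t).Prime).pos) _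
  unfold fac
  have h4 : ∏ t, ‖((z : ℚ) : ℚ_[p t])‖ = (∏ t, (p t : ℝ) ^ padicValNat (p t) z.natAbs)⁻¹ := by
    rw [← Finset.prod_inv_distrib]
    exact Finset.prod_congr rfl fun t _ => norm_int_zpow t z hz
  rw [h4, ← div_eq_mul_inv, le_div_iff₀ h3, one_mul]
  have h5 : |(((z : ℤ) : ℚ) : ℝ)| = ((z.natAbs : ℕ) : ℝ) := by
    rw [Nat.cast_natAbs]
    push_cast
    rfl
  rw [h5]
  exact_mod_cast h2

theorem fac_one : fac p 1 = 1 := by
  simp [fac]

theorem fac_prime (hp : Function.Injective p) (s : T) : fac p (p s : ℚ) = 1 := by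
  classical
  have hps : (p s).Prime := Fact.out
  unfold fac
  have h1 : ∏ t, ‖((p s : ℚ) : ℚ_[p t])‖ = (p s : ℝ)⁻¹ := by
    rw [Finset.prod_eq_single s]
    · have h : ((p s : ℚ) : ℚ_[p s]) = (p s : ℚ_[p s]) := by norm_cast
      rw [h, Padic.norm_p]
    · intro t _ hts
      have h : ((p s : ℚ) : ℚ_[p t]) = (p s : ℚ_[p t]) := by norm_cast
      rw [h, Padic.norm_natCast_eq_one_iff, Nat.coprime_primes (Fact.out : (p t).Prime) hps]
      exact fun h => hts (hp h)
    · intro h
      exact absurd (Finset.mem_univ s) h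
  rw [h1]
  have h2 : (0 : ℝ) < p s := by exact_mod_cast hps.pos
  have h3 : |((p s : ℚ) : ℝ)| = p s := by
    push_cast
    exact abs_of_pos h2
  rw [h3, mul_inv_cancel₀ h2.ne']

theorem fac_prod {κ : Type} (s : Finset κ) (f : κ → ℚ) : fac p (∏ i ∈ s, f i) = ∏ i ∈ s, fac p (f i) := by
  classical
  induction s using Finset.induction_on with
  | empty => simp [fac_one]
  | insert i s hi ih => rw [Finset.prod_insert hi, Finset.prod_insert hi, fac_mul, ih]

theorem fac_pprod (hp : Function.Injective p) : fac p (pprod p : ℚ) = 1 := by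
  unfold pprod
  push_cast
  rw [fac_prod]
  exact Finset.prod_eq_one fun t _ => fac_prime hp t

theorem fac_pow (c : ℚ) (k : ℕ) : fac p (c ^ k) = fac p c ^ k := by
  induction k with
  | zero => simp [fac_one]
  | succ k ih => rw [pow_succ, fac_mul, ih, pow_succ]

theorem pprod_ne_zero : (pprod p : ℚ) ≠ 0 := by
  unfold pprod
  push_cast
  exact Finset.prod_ne_zero_iff.2 fun t _ => by exact_mod_cast (Fact.out : (p t).Prime).ne_zero

/-- The product formula. -/
theorem one_le_fac (hp : Function.Injective p) (c : ℚ) (hc : PInt (pprod p) c) (hc0 : c ≠ 0) :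
    1 ≤ fac p c := by
  obtain ⟨k, z, hz⟩ := hc
  have h1 : fac p (c * (pprod p : ℚ) ^ k) = fac p c := by
    rw [fac_mul, fac_pow, fac_pprod hp, one_pow, mul_one]
  rw [← h1, hz]
  apply one_le_fac_int hp
  rintro rfl
  rw [Int.cast_zero] at hz
  exact (mul_ne_zero hc0 (pow_ne_zero _ pprod_ne_zero)) hz

theorem exists_common_pow {P : ℕ} {x : ι → ℚ} (hx : PVec P x) :
    ∃ (k : ℕ) (z : ι → ℤ), ∀ i, x i * (P : ℚ) ^ k = z i := by
  choose k z hz using hx
  refine ⟨∑ i, k i, fun i => z i * (P : ℤ) ^ ((∑ i, k i) - k i), fun i => ?_⟩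
  have h1 : k i ≤ ∑ i, k i := Finset.single_le_sum (fun _ _ => Nat.zero_le _) (Finset.mem_univ i)
  push_cast
  rw [← hz i, mul_assoc, ← pow_add, Nat.add_sub_cancel' h1]

/-- Every nonzero `P`-integral vector is a `P`-integral multiple of a primitive vector. -/
theorem exists_prim (x : ι → ℚ) (hx : PVec (pprod p) x) (hx0 : x ≠ 0) :
    ∃ (m : ι → ℤ) (c : ℚ), Prim m ∧ PInt (pprod p) c ∧ c ≠ 0 ∧ x = c • (fun i => (m i : ℚ)) := by
  obtain ⟨k, z, hz⟩ := exists_common_pow hx
  have hP : (pprod p : ℚ) ^ k ≠ 0 := pow_ne_zero _ pprod_ne_zero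
  have hz0 : ∃ i ∈ Finset.univ, z i ≠ 0 := by
    obtain ⟨i, hi⟩ := Function.ne_iff.1 hx0
    refine ⟨i, Finset.mem_univ i, fun h => ?_⟩
    have h1 := hz i
    rw [h, Int.cast_zero] at h1
    exact (mul_ne_zero hi hP) h1
  obtain ⟨g, hg1, hg2⟩ := Finset.extract_gcd z (Finset.univ_nonempty_iff.2 ⟨hz0.choose⟩)
  set d := Finset.univ.gcd z with hd
  have hd0 : d ≠ 0 := by
    intro h
    obtain ⟨i, -, hi⟩ := hz0
    apply hi
    rw [hg1 i (Finset.mem_univ i), h, zero_mul]
  refine ⟨g, (d : ℚ) / (pprod p : ℚ) ^ k, ?_, ?_, ?_, ?_⟩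
  · intro e he
    have h1 : e ∣ Finset.univ.gcd g := Finset.dvd_gcd fun i _ => he i
    rw [hg2] at h1
    exact isUnit_of_dvd_one h1
  · exact ⟨k, d, by field_simp⟩
  · exact div_ne_zero (by exact_mod_cast hd0) hP
  · funext i
    have h1 := hz i
    rw [hg1 i (Finset.mem_univ i)] at h1
    simp only [Pi.smul_apply, smul_eq_mul]
    push_cast at h1
    field_simp
    linarith

/-- A primitive vector has `p`-adic norm one. -/
theorem exists_norm_eq_one (t : T) (m : ι → ℤ) (hm : Prim m) :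
    ∃ i, ‖(((m i : ℤ) : ℚ) : ℚ_[p t])‖ = 1 := by
  by_contra h
  push Not at h
  have h1 : ∀ i, ((p t : ℕ) : ℤ) ∣ m i := by
    intro i
    have h2 : ((((m i : ℤ) : ℚ)) : ℚ_[p t]) = ((m i : ℤ) : ℚ_[p t]) := by norm_cast
    have h3 := h i
    rw [h2] at h3
    exact Padic.norm_intCast_lt_one_iff.1 (lt_of_le_of_ne (Padic.norm_int_le_one _) h3)
  have h2 := hm _ h1
  rw [Int.ofNat_isUnit, Nat.isUnit_iff] at h2
  exact (Fact.out : (p t).Prime).one_lt.ne' h2

/-- Finitely many primitive vectors have bounded size for bounded weights. -/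
theorem finite_prim (S : Sys ι T p) (K M : ℝ) :
    {m : ι → ℤ | Prim m ∧ ∃ (a : ι → ℝ) (a' : T → ι → ℝ), (∀ i, 0 < a i ∧ a i ≤ M) ∧
      (∀ t i, 0 < a' t i ∧ a' t i ≤ M) ∧ S.N a a' (fun i => (m i : ℚ)) ≤ K}.Finite := by
  set R : ℝ := cA S * M * (∏ t, (cA' S t * M)) * K with hR
  have hsub : {m : ι → ℤ | Prim m ∧ ∃ (a : ι → ℝ) (a' : T → ι → ℝ), (∀ i, 0 < a i ∧ a i ≤ M) ∧
      (∀ t i, 0 < a' t i ∧ a' t i ≤ M) ∧ S.N a a' (fun i => (m i : ℚ)) ≤ K} ⊆
      Set.univ.pi fun _ : ι => Set.Icc (-⌈R⌉) ⌈R⌉ := by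
    rintro m ⟨hm, a, a', ha, ha', hN⟩ j -
    have hMpos : 0 < M := (ha j).1.trans_le (ha j).2
    have h1 := abs_coord_le S a M (fun i => (ha i).1) (fun i => (ha i).2) (fun i => (m i : ℚ)) j
    have h2 : ∀ t, 1 ≤ cA' S t * M * S.Np t (a' t) (fun i => (m i : ℚ)) := by
      intro t
      obtain ⟨i, hi⟩ := exists_norm_eq_one (p := p) t m hm
      have h := norm_coord_le S t (a' t) M (fun i => (ha' t i).1) (fun i => (ha' t i).2)
        (fun i => (m i : ℚ)) i
      exact hi.symm.le.trans h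
    have h3 : 1 ≤ ∏ t, (cA' S t * M * S.Np t (a' t) (fun i => (m i : ℚ))) := by
      have := Finset.prod_le_prod (s := Finset.univ) (f := fun _ : T => (1 : ℝ))
        (g := fun t => cA' S t * M * S.Np t (a' t) (fun i => (m i : ℚ)))
        (fun _ _ => zero_le_one) (fun t _ => h2 t)
      simpa using this
    have h4 : |((m j : ℚ) : ℝ)| ≤ R := by
      have hpos : 0 ≤ cA S * M * S.Ninf a (fun i => (m i : ℚ)) :=
        mul_nonneg (mul_nonneg (zero_le_one.trans (one_le_cA S)) hMpos.le) (Ninf_nonneg _ _ _)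
      calc |((m j : ℚ) : ℝ)| ≤ cA S * M * S.Ninf a (fun i => (m i : ℚ)) := h1
        _ ≤ cA S * M * S.Ninf a (fun i => (m i : ℚ)) *
            ∏ t, (cA' S t * M * S.Np t (a' t) (fun i => (m i : ℚ))) :=
            le_mul_of_one_le_right hpos h3
        _ = cA S * M * (∏ t, (cA' S t * M)) * S.N a a' (fun i => (m i : ℚ)) := by
            rw [Finset.prod_mul_distrib, Sys.N]
            ring
        _ ≤ R := by
            rw [hR]
            refine mul_le_mul_of_nonneg_left hN ?_
            refine mul_nonneg (mul_nonneg (zero_le_one.trans (one_le_cA S)) hMpos.le) ?_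
            exact Finset.prod_nonneg fun t _ =>
              mul_nonneg (zero_le_one.trans (one_le_cA' S t)) hMpos.le
    have h5 : |((m j : ℤ) : ℝ)| ≤ (⌈R⌉ : ℝ) := by
      have : |((m j : ℚ) : ℝ)| = |((m j : ℤ) : ℝ)| := by push_cast; rfl
      rw [← this]
      exact h4.trans (Int.le_ceil R)
    rw [abs_le] at h5
    rw [Set.mem_Icc]
    constructor
    · exact_mod_cast h5.1
    · exact_mod_cast h5.2
  exact (Set.Finite.pi' fun _ => Set.finite_Icc _ _).subset (by
    intro m hm
    exact fun i => hsub hm i (Set.mem_univ i))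

/-- Finitely many lines contain the vectors of bounded size for bounded weights. -/
theorem finite_lines (S : Sys ι T p) (hp : Function.Injective p) (K M : ℝ) :
    ∃ F : Finset (Submodule ℚ (ι → ℚ)), (∀ W ∈ F, ∃ m : ι → ℚ, W = Submodule.span ℚ {m}) ∧
      ∀ (a : ι → ℝ) (a' : T → ι → ℝ), (∀ i, 0 < a i ∧ a i ≤ M) → (∀ t i, 0 < a' t i ∧ a' t i ≤ M) →
      ∀ x : ι → ℚ, PVec (pprod p) x → x ≠ 0 → S.N a a' x ≤ K → Submodule.span ℚ {x} ∈ F := by
  classical
  have hfin := finite_prim S K M
  refine ⟨hfin.toFinset.image fun m => Submodule.span ℚ {fun i => (m i : ℚ)}, ?_, ?_⟩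
  · intro W hW
    obtain ⟨m, -, rfl⟩ := Finset.mem_image.1 hW
    exact ⟨_, rfl⟩
  · intro a a' ha ha' x hx hx0 hN
    obtain ⟨m, c, hm, hc, hc0, rfl⟩ := exists_prim (p := p) x hx hx0
    refine Finset.mem_image.2 ⟨m, ?_, ?_⟩
    · rw [Set.Finite.mem_toFinset]
      refine ⟨hm, a, a', ha, ha', ?_⟩
      rw [N_smul] at hN
      exact (le_mul_of_one_le_left (N_nonneg _ _ _ _) (one_le_fac hp c hc hc0)).trans hN
    · exact (Submodule.span_singleton_smul_eq (IsUnit.mk0 c hc0) _).symm

end Pool.Agent.Helper94.Sub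

end

section

namespace Pool.Agent.Helper10.Sub
end Pool.Agent.Helper10.Sub

set_option autoImplicit false

namespace Pool.Agent.Helper1.Sub

open Pool.Agent.Helper10.Sub Module

section algebra

variable {n k : ℕ} {R : Type*} [CommRing R]

/-- `ιMulti` of a family expressed in the standard basis of the exterior power. -/
theorem iota_eq_sum (x : Fin k → Fin n → R) :
    exteriorPower.ιMulti R k x = ∑ s : Ik (Fin n) k, wedge x s •
      exteriorPower.ιMulti R k (fun j => Pi.basisFun R (Fin n) (s.1.orderEmbOfFin s.2 j)) := by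
  classical
  let B : Basis (Set.powersetCard (Fin n) k) R (⋀[R]^k (Fin n → R)) :=
    (Pi.basisFun R (Fin n)).exteriorPower k
  have h1 := B.sum_repr (exteriorPower.ιMulti R k x)
  rw [← h1]
  let e : Set.powersetCard (Fin n) k ≃ Ik (Fin n) k := Equiv.refl _
  rw [← Equiv.sum_comp e.symm]
  refine Finset.sum_congr rfl fun s _ => ?_
  have h2 : B (e.symm s) = exteriorPower.ιMulti R k
      (fun j => Pi.basisFun R (Fin n) (s.1.orderEmbOfFin s.2 j)) := by
    rw [show B (e.symm s) = exteriorPower.ιMulti_family R k (Pi.basisFun R (Fin n)) (e.symm s)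
      from exteriorPower.basis_apply R k _ _]
    rfl
  have h3 : B.repr (exteriorPower.ιMulti R k x) (e.symm s) = wedge x s := by
    rw [show B.repr (exteriorPower.ιMulti R k x) (e.symm s) =
      exteriorPower.ιMultiDual R k (Pi.basisFun R (Fin n)) (e.symm s)
        (exteriorPower.ιMulti R k x) from exteriorPower.basis_repr_apply R k _ _ _]
    rw [exteriorPower.ιMultiDual_apply_ιMulti]
    unfold wedge
    congr 1
  rw [h2, h3]

/-- Cauchy-Binet formula. -/
theorem cauchyBinet (x y : Fin k → Fin n → R) :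
    (Matrix.of fun i j => ∑ l, x i l * y j l).det = ∑ s : Ik (Fin n) k, wedge x s * wedge y s := by
  classical
  let f : Fin k → Module.Dual R (Fin n → R) := fun j => Fintype.linearCombination R (y j)
  have hf : ∀ j v, f j v = ∑ l, v l * y j l := fun j v => by
    simp [f, Fintype.linearCombination_apply, smul_eq_mul]
  have h := exteriorPower.pairingDual_ιMulti_ιMulti f x
  rw [iota_eq_sum x, map_sum] at h
  have h4 : (Matrix.of fun i j => f j (x i)) = Matrix.of fun i j => ∑ l, x i l * y j l := by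
    ext i j
    simp [hf]
  rw [h4] at h
  rw [← h]
  refine Finset.sum_congr rfl fun s _ => ?_
  rw [map_smul, smul_eq_mul, exteriorPower.pairingDual_ιMulti_ιMulti]
  congr 1
  rw [wedge, ← Matrix.det_transpose]
  congr 1
  ext i j
  simp [hf, Pi.single_apply]

theorem compM_eq_wedge (A : Matrix (Fin n) (Fin n) R) (s t : Ik (Fin n) k) :
    compM k A s t = wedge (fun i => A (s.1.orderEmbOfFin s.2 i)) t := rfl

theorem compM_mul (A B : Matrix (Fin n) (Fin n) R) :
    compM k (A * B) = compM k A * compM k B := by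
  ext s t
  rw [Matrix.mul_apply]
  have h := cauchyBinet (R := R) (fun i => A (s.1.orderEmbOfFin s.2 i))
    (fun i l => B l (t.1.orderEmbOfFin t.2 i))
  have h1 : compM k (A * B) s t = (Matrix.of fun i j => ∑ l, A (s.1.orderEmbOfFin s.2 i) l *
      B l (t.1.orderEmbOfFin t.2 j)).det := by
    unfold compM
    congr 1
  rw [h1, h]
  refine Finset.sum_congr rfl fun u _ => ?_
  rw [compM_eq_wedge]
  congr 1
  rw [wedge, compM, ← Matrix.det_transpose]
  congr 1

theorem wedge_single (s t : Ik (Fin n) k) :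
    wedge (R := R) (fun i => Pi.single (s.1.orderEmbOfFin s.2 i) 1) t = if s = t then 1 else 0 := by
  classical
  have h3 : exteriorPower.ιMultiDual R k (Pi.basisFun R (Fin n)) (t : Set.powersetCard (Fin n) k)
      (exteriorPower.ιMulti_family R k (Pi.basisFun R (Fin n)) (s : Set.powersetCard (Fin n) k)) =
      wedge (R := R) (fun i => Pi.single (s.1.orderEmbOfFin s.2 i) 1) t := by
    rw [exteriorPower.ιMulti_family, exteriorPower.ιMultiDual_apply_ιMulti]
    unfold wedge
    congr 1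
    ext i j
    simp
    rfl
  rw [← h3]
  split_ifs with h
  · subst h
    exact exteriorPower.ιMultiDual_apply_diag R k _ _
  · exact exteriorPower.ιMultiDual_apply_nondiag R k _ _ _ (Ne.symm h)

theorem compM_one : compM k (1 : Matrix (Fin n) (Fin n) R) = 1 := by
  ext s t
  rw [compM_eq_wedge, Matrix.one_apply]
  rw [← wedge_single (R := R) s t]
  congr 1
  ext i j
  rw [Matrix.one_apply, Pi.single_apply]
  congr 1
  exact propext eq_comm

theorem compM_det_ne_zero {F : Type*} [Field F] {A : Matrix (Fin n) (Fin n) F} (h : A.det ≠ 0) :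
    (compM k A).det ≠ 0 := by
  intro h0
  have h1 : compM k A * compM k A⁻¹ = 1 := by
    rw [← compM_mul, Matrix.mul_nonsing_inv _ (isUnit_iff_ne_zero.mpr h), compM_one]
  have h2 := congrArg Matrix.det h1
  rw [Matrix.det_mul, h0, zero_mul, Matrix.det_one] at h2
  exact zero_ne_one h2

theorem card_Ik : Fintype.card (Ik (Fin n) k) = n.choose k := by
  simp [Ik]

end algebra

end Pool.Agent.Helper1.Sub

end

section

namespace Pool.Agent.Helper10.Sub
end Pool.Agent.Helper10.Sub

set_option autoImplicit false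

namespace Pool.Agent.Helper1.Sub

open Pool.Agent.Helper10.Sub Module

section field

variable {n k : ℕ} {F : Type*} [Field F]

theorem iota_ne_zero_iff (x : Fin k → Fin n → F) :
    exteriorPower.ιMulti F k x ≠ 0 ↔ LinearIndependent F x := by
  constructor
  · intro h
    by_contra hx
    exact h (AlternatingMap.map_linearDependent _ x hx)
  · intro hx h0
    have h1 := (exteriorPower.ιMulti_family_linearIndependent_field k hx).ne_zero
      (Set.powersetCard.ofCard (s := (Finset.univ : Finset (Fin k))) (by simp))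
    apply h1
    rw [exteriorPower.ιMulti_family]
    rw [← h0]
    congr 1
    funext j
    simp only [Function.comp_apply]
    congr 1
    rw [Set.powersetCard.ofFinEmbEquiv_symm_apply]
    have : (Finset.univ : Finset (Fin k)).orderEmbOfFin (by simp) = OrderEmbedding.ofStrictMono id strictMono_id := by
      symm
      apply Finset.orderEmbOfFin_unique'
      intro x; simp
    exact DFunLike.congr_fun this j

theorem wedge_ne_zero (x : Fin k → Fin n → F) (hx : LinearIndependent F x) : wedge x ≠ 0 := by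
  intro h0
  have := (iota_ne_zero_iff x).mpr hx
  apply this
  rw [iota_eq_sum, h0]
  simp

theorem wedge_indep (x : Fin n → Fin n → F) (hx : LinearIndependent F x) :
    LinearIndependent F
      (fun J : Ik (Fin n) k => wedge (fun i => x (J.1.orderEmbOfFin J.2 i))) := by
  have h1 : (Matrix.of x).det ≠ 0 := by
    intro h0
    have h2 := Matrix.linearIndependent_rows_iff_isUnit (A := Matrix.of x)
    have h3 : LinearIndependent F (Matrix.of x).row := hx
    rw [h2, Matrix.isUnit_iff_isUnit_det, h0] at h3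
    exact not_isUnit_zero h3
  have h2 := compM_det_ne_zero (k := k) h1
  have h3 : LinearIndependent F (compM k (Matrix.of x)).row := by
    rw [Matrix.linearIndependent_rows_iff_isUnit, Matrix.isUnit_iff_isUnit_det]
    exact isUnit_iff_ne_zero.mpr h2
  exact h3

theorem span_le_of_wedge (x x' : Fin k → Fin n → F) (hx' : LinearIndependent F x') (c : F)
    (hc : c ≠ 0) (h : wedge x = c • wedge x') :
    Submodule.span F (Set.range x) ≤ Submodule.span F (Set.range x') := by
  intro v hv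
  by_contra hv'
  have h1 : exteriorPower.ιMulti F k x = c • exteriorPower.ιMulti F k x' := by
    rw [iota_eq_sum x, iota_eq_sum x', h, Finset.smul_sum]
    refine Finset.sum_congr rfl fun s _ => ?_
    rw [Pi.smul_apply, smul_eq_mul, mul_smul]
  have h2 : ExteriorAlgebra.ιMulti F k x = c • ExteriorAlgebra.ιMulti F k x' := by
    have := congrArg (fun z : ⋀[F]^k (Fin n → F) => (z : ExteriorAlgebra F (Fin n → F))) h1
    simpa using this
  have h3 : ExteriorAlgebra.ιMulti F (k + 1) (Fin.cons v x : Fin (k + 1) → Fin n → F) =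
      c • ExteriorAlgebra.ιMulti F (k + 1) (Fin.cons v x' : Fin (k + 1) → Fin n → F) := by
    rw [ExteriorAlgebra.ιMulti_succ_apply, ExteriorAlgebra.ιMulti_succ_apply]
    have e1 : Matrix.vecTail (Fin.cons v x : Fin (k + 1) → Fin n → F) = x := rfl
    have e2 : Matrix.vecTail (Fin.cons v x' : Fin (k + 1) → Fin n → F) = x' := rfl
    rw [e1, e2, Fin.cons_zero, Fin.cons_zero, h2, mul_smul_comm]
  have h4 : ¬ LinearIndependent F (Fin.cons v x : Fin (k + 1) → Fin n → F) := by
    intro hli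
    rw [linearIndependent_finCons] at hli
    exact hli.2 hv
  have h5 : LinearIndependent F (Fin.cons v x' : Fin (k + 1) → Fin n → F) := by
    rw [linearIndependent_finCons]
    exact ⟨hx', hv'⟩
  have h6 := (iota_ne_zero_iff _).mpr h5
  have h7 : ExteriorAlgebra.ιMulti F (k + 1) (Fin.cons v x : Fin (k + 1) → Fin n → F) = 0 :=
    AlternatingMap.map_linearDependent _ _ h4
  rw [h7] at h3
  apply h6
  apply Subtype.ext
  have h8 := h3.symm
  rw [smul_eq_zero] at h8
  rcases h8 with h8 | h8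
  · exact absurd h8 hc
  · simpa using h8

theorem span_eq_of_wedge (x x' : Fin k → Fin n → F) (hx : LinearIndependent F x)
    (hx' : LinearIndependent F x') (c : F) (h : wedge x = c • wedge x') :
    Submodule.span F (Set.range x) = Submodule.span F (Set.range x') := by
  have hc : c ≠ 0 := by
    rintro rfl
    exact wedge_ne_zero x hx (by simpa using h)
  refine le_antisymm (span_le_of_wedge x x' hx' c hc h) ?_
  refine span_le_of_wedge x' x hx c⁻¹ (inv_ne_zero hc) ?_
  rw [h, smul_smul, inv_mul_cancel₀ hc, one_smul]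

end field

end Pool.Agent.Helper1.Sub

end

section

namespace Pool.Agent.Helper10.Sub
end Pool.Agent.Helper10.Sub

set_option autoImplicit false

namespace Pool.Agent.Helper1.Sub

open Pool.Agent.Helper10.Sub Module

/-- `ℤ[1/P]` as a subring of `ℚ`. -/
def pSub (P : ℕ) : Subring ℚ where
  carrier := {x | PInt P x}
  mul_mem' := by
    rintro x y ⟨k, z, hz⟩ ⟨l, w, hw⟩
    refine ⟨k + l, z * w, ?_⟩
    rw [pow_add]
    push_cast
    rw [← hz, ← hw]
    ring
  one_mem' := ⟨0, 1, by simp⟩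
  add_mem' := by
    rintro x y ⟨k, z, hz⟩ ⟨l, w, hw⟩
    refine ⟨k + l, z * P ^ l + w * P ^ k, ?_⟩
    rw [pow_add]
    push_cast
    rw [← hz, ← hw]
    ring
  zero_mem' := ⟨0, 0, by simp⟩
  neg_mem' := by
    rintro x ⟨k, z, hz⟩
    refine ⟨k, -z, ?_⟩
    push_cast
    rw [← hz]
    ring

theorem mem_pSub {P : ℕ} {x : ℚ} : x ∈ pSub P ↔ PInt P x := Iff.rfl

theorem det_PInt {κ : Type*} [Fintype κ] [DecidableEq κ] {P : ℕ} {A : Matrix κ κ ℚ}
    (h : ∀ i j, PInt P (A i j)) : PInt P A.det := by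
  rw [← mem_pSub, Matrix.det_apply]
  refine (pSub P).sum_mem fun σ _ => ?_
  rw [Units.smul_def]
  exact (pSub P).zsmul_mem ((pSub P).prod_mem fun i _ => h _ _) _

theorem PVec_wedge {n k : ℕ} {P : ℕ} (x : Fin k → Fin n → ℚ) (h : ∀ i, PVec P (x i)) :
    PVec P (wedge (ι := Fin n) x) := fun _ => det_PInt fun i _ => h i _

/-- Trivial bound for a determinant over a normed field. -/
theorem norm_det_le {κ : Type*} [Fintype κ] [DecidableEq κ] {F : Type*} [NormedField F]
    (M : Matrix κ κ F) (r : κ → ℝ) (c : κ → ℝ)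
    (hM : ∀ i j, ‖M i j‖ ≤ r i * c j) :
    ‖M.det‖ ≤ (Fintype.card κ).factorial * ((∏ i, r i) * ∏ j, c j) := by
  rw [Matrix.det_apply]
  refine (norm_sum_le _ _).trans ?_
  have h1 : ∀ σ : Equiv.Perm κ, ‖Equiv.Perm.sign σ • ∏ i, M (σ i) i‖ ≤ (∏ i, r i) * ∏ j, c j := by
    intro σ
    have h2 : ‖Equiv.Perm.sign σ • ∏ i, M (σ i) i‖ = ∏ i, ‖M (σ i) i‖ := by
      rcases Int.units_eq_one_or (Equiv.Perm.sign σ) with h | h <;> rw [h] <;>
        simp [norm_prod]
    rw [h2]
    calc ∏ i, ‖M (σ i) i‖ ≤ ∏ i, (r (σ i) * c i) :=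
          Finset.prod_le_prod (fun i _ => norm_nonneg _) fun i _ => hM _ _
      _ = (∏ i, r (σ i)) * ∏ i, c i := Finset.prod_mul_distrib
      _ = (∏ i, r i) * ∏ j, c j := by rw [Equiv.prod_comp σ r]
  calc ∑ σ : Equiv.Perm κ, ‖Equiv.Perm.sign σ • ∏ i, M (σ i) i‖
      ≤ ∑ _σ : Equiv.Perm κ, ((∏ i, r i) * ∏ j, c j) := Finset.sum_le_sum fun σ _ => h1 σ
    _ = _ := by
      rw [Finset.sum_const, Finset.card_univ, Fintype.card_perm, nsmul_eq_mul]

variable {n k : ℕ} {T : Type} [Fintype T] {p : T → ℕ} [∀ t, Fact (p t).Prime]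

/-- The compound system. -/
noncomputable def comp (S : Sys (Fin n) T p) (k : ℕ) : Sys (Ik (Fin n) k) T p where
  A := compM k S.A
  A' := fun t => compM k (S.A' t)
  algA := fun s t => det_isAlgebraic fun _ _ => S.algA _ _
  algA' := fun t s u => det_isAlgebraic fun _ _ => S.algA' t _ _
  detA := compM_det_ne_zero S.detA
  detA' := fun t => compM_det_ne_zero (S.detA' t)

/-- Product weights. -/
noncomputable def cw (a : Fin n → ℝ) (s : Ik (Fin n) k) : ℝ := ∏ i ∈ s.1, a i

theorem map_wedge {R R' : Type*} [CommRing R] [CommRing R'] (f : R →+* R')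
    (x : Fin k → Fin n → R) (s : Ik (Fin n) k) :
    f (wedge x s) = wedge (fun i j => f (x i j)) s := by
  unfold wedge
  rw [RingHom.map_det]
  congr 1

theorem compM_mulVec_wedge {R : Type*} [CommRing R] (A : Matrix (Fin n) (Fin n) R)
    (x : Fin k → Fin n → R) (s : Ik (Fin n) k) :
    ∑ t, compM k A s t * wedge x t =
      (Matrix.of fun i j => ∑ l, A (s.1.orderEmbOfFin s.2 j) l * x i l).det := by
  have h := cauchyBinet x (fun i => A (s.1.orderEmbOfFin s.2 i))
  rw [show (Matrix.of fun i j => ∑ l, A (s.1.orderEmbOfFin s.2 j) l * x i l) =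
    Matrix.of fun i j => ∑ l, x i l * A (s.1.orderEmbOfFin s.2 j) l from ?_, h]
  · refine Finset.sum_congr rfl fun t _ => ?_
    rw [compM_eq_wedge, mul_comm]
  · ext i j
    simp [mul_comm]

theorem L_wedge (S : Sys (Fin n) T p) (x : Fin k → Fin n → ℚ) (s : Ik (Fin n) k) :
    (comp S k).L (wedge x) s =
      (Matrix.of fun i j => S.L (x i) (s.1.orderEmbOfFin s.2 j)).det := by
  unfold Sys.L
  rw [← compM_mulVec_wedge]
  refine Finset.sum_congr rfl fun t _ => ?_
  congr 1
  exact map_wedge (Rat.castHom ℝ) x t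

theorem L'_wedge (S : Sys (Fin n) T p) (t : T) (x : Fin k → Fin n → ℚ) (s : Ik (Fin n) k) :
    (comp S k).L' t (wedge x) s =
      (Matrix.of fun i j => S.L' t (x i) (s.1.orderEmbOfFin s.2 j)).det := by
  unfold Sys.L'
  rw [← compM_mulVec_wedge]
  refine Finset.sum_congr rfl fun u _ => ?_
  congr 1
  exact map_wedge (Rat.castHom ℚ_[p t]) x u

theorem prod_orderEmb (a : Fin n → ℝ) (s : Ik (Fin n) k) :
    ∏ j, a (s.1.orderEmbOfFin s.2 j) = cw a s := by
  unfold cw
  rw [← Finset.prod_coe_sort s.1 a]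
  exact Fintype.prod_equiv (s.1.orderIsoOfFin s.2).toEquiv _ _ fun j => rfl

theorem wedge_det_bound {F : Type*} [NormedField F] (a : Fin n → ℝ) (ha : ∀ i, 0 < a i)
    (L : Fin k → Fin n → F) (N : Fin k → ℝ) (hN : ∀ i j, ‖L i j‖ / a j ≤ N i)
    (s : Ik (Fin n) k) :
    ‖(Matrix.of fun i j => L i (s.1.orderEmbOfFin s.2 j)).det‖ / cw a s ≤
      k.factorial * ∏ i, N i := by
  have hcw : 0 < cw a s := Finset.prod_pos fun i _ => ha i
  rw [div_le_iff₀ hcw]
  have h := norm_det_le (Matrix.of fun i j => L i (s.1.orderEmbOfFin s.2 j)) N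
    (fun j => a (s.1.orderEmbOfFin s.2 j)) (fun i j => by
      rw [Matrix.of_apply, ← div_le_iff₀ (ha _)]
      exact hN _ _)
  rw [Fintype.card_fin, prod_orderEmb] at h
  linarith [h, mul_assoc (k.factorial : ℝ) (∏ i, N i) (cw a s)]

theorem Ninf_wedge (S : Sys (Fin n) T p) (a : Fin n → ℝ) (ha : ∀ i, 0 < a i)
    (x : Fin k → Fin n → ℚ) :
    (comp S k).Ninf (cw a) (wedge x) ≤ k.factorial * ∏ i, S.Ninf a (x i) := by
  have h0 : 0 ≤ (k.factorial : ℝ) * ∏ i, S.Ninf a (x i) :=
    mul_nonneg (Nat.cast_nonneg _) (Finset.prod_nonneg fun i _ => norm_nonneg _)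
  unfold Sys.Ninf at *
  rw [pi_norm_le_iff_of_nonneg h0]
  intro s
  rw [L_wedge, norm_div, Real.norm_of_nonneg (le_of_lt (Finset.prod_pos fun i _ => ha i) :
    0 ≤ cw a s)]
  refine wedge_det_bound a ha (fun i j => S.L (x i) j) _ (fun i j => ?_) s
  have h1 := norm_le_pi_norm (fun j => S.L (x i) j / a j) j
  rw [norm_div, Real.norm_of_nonneg (ha j).le] at h1
  exact h1

theorem Np_wedge (S : Sys (Fin n) T p) (t : T) (a : Fin n → ℝ) (ha : ∀ i, 0 < a i)
    (x : Fin k → Fin n → ℚ) :
    (comp S k).Np t (cw a) (wedge x) ≤ k.factorial * ∏ i, S.Np t a (x i) := by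
  have h0 : 0 ≤ (k.factorial : ℝ) * ∏ i, S.Np t a (x i) :=
    mul_nonneg (Nat.cast_nonneg _) (Finset.prod_nonneg fun i _ => norm_nonneg _)
  unfold Sys.Np at *
  rw [pi_norm_le_iff_of_nonneg h0]
  intro s
  have hcw : 0 ≤ cw a s := (Finset.prod_pos fun i _ => ha i).le
  rw [L'_wedge, Real.norm_of_nonneg (div_nonneg (norm_nonneg _) hcw)]
  refine wedge_det_bound a ha (fun i j => S.L' t (x i) j) _ (fun i j => ?_) s
  have h1 := norm_le_pi_norm (fun j => ‖S.L' t (x i) j‖ / a j) j
  rw [Real.norm_of_nonneg (div_nonneg (norm_nonneg _) (ha j).le)] at h1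
  exact h1

theorem N_wedge (S : Sys (Fin n) T p) (k : ℕ) : ∃ C : ℝ, 0 < C ∧ ∀ (a : Fin n → ℝ)
    (a' : T → Fin n → ℝ), (∀ i, 0 < a i) → (∀ t i, 0 < a' t i) → ∀ x : Fin k → Fin n → ℚ,
    (comp S k).N (cw a) (fun t => cw (a' t)) (wedge x) ≤ C * ∏ i, S.N a a' (x i) := by
  refine ⟨(k.factorial : ℝ) * ∏ _t : T, (k.factorial : ℝ),
    mul_pos (Nat.cast_pos.mpr k.factorial_pos)
      (Finset.prod_pos fun _ _ => Nat.cast_pos.mpr k.factorial_pos), ?_⟩
  intro a a' ha ha' x
  unfold Sys.N
  have h1 := Ninf_wedge S a ha x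
  have h2 : ∏ t, (comp S k).Np t (cw (a' t)) (wedge x) ≤
      ∏ t, ((k.factorial : ℝ) * ∏ i, S.Np t (a' t) (x i)) :=
    Finset.prod_le_prod (fun t _ => norm_nonneg _) fun t _ => Np_wedge S t (a' t) (ha' t) x
  calc (comp S k).Ninf (cw a) (wedge x) * ∏ t, (comp S k).Np t (cw (a' t)) (wedge x)
      ≤ (k.factorial * ∏ i, S.Ninf a (x i)) *
        ∏ t, ((k.factorial : ℝ) * ∏ i, S.Np t (a' t) (x i)) := by
        refine mul_le_mul h1 h2 (Finset.prod_nonneg fun t _ => norm_nonneg _) ?_
        exact mul_nonneg (Nat.cast_nonneg _) (Finset.prod_nonneg fun i _ => norm_nonneg _)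
    _ = _ := by
        rw [Finset.prod_mul_distrib, Finset.prod_comm, Finset.prod_mul_distrib]
        ring

theorem card_filter_mem (hk : 1 ≤ k) (i : Fin n) :
    (Finset.univ.filter fun s : Ik (Fin n) k => i ∈ s.1).card = (n - 1).choose (k - 1) := by
  classical
  have h1 : (Finset.univ.filter fun s : Ik (Fin n) k => i ∈ s.1).card =
      ((Finset.univ.erase i).powersetCard (k - 1)).card := by
    refine Finset.card_bij (fun s _ => s.1.erase i) ?_ ?_ ?_
    · intro s hs
      rw [Finset.mem_filter] at hs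
      rw [Finset.mem_powersetCard]
      refine ⟨Finset.erase_subset_erase _ (Finset.subset_univ _), ?_⟩
      rw [Finset.card_erase_of_mem hs.2, s.2]
    · intro s hs t ht h
      rw [Finset.mem_filter] at hs ht
      apply Subtype.ext
      rw [← Finset.insert_erase hs.2, ← Finset.insert_erase ht.2, h]
    · intro u hu
      rw [Finset.mem_powersetCard] at hu
      have hi : i ∉ u := fun h => by simpa using hu.1 h
      refine ⟨⟨insert i u, by rw [Finset.card_insert_of_notMem hi, hu.2]; omega⟩, ?_, ?_⟩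
      · rw [Finset.mem_filter]
        exact ⟨Finset.mem_univ _, Finset.mem_insert_self _ _⟩
      · exact Finset.erase_insert hi
  rw [h1, Finset.card_powersetCard, Finset.card_erase_of_mem (Finset.mem_univ _),
    Finset.card_univ, Fintype.card_fin]

theorem prod_cw (hk : 1 ≤ k) (a : Fin n → ℝ) :
    ∏ s : Ik (Fin n) k, cw a s = (∏ i, a i) ^ ((n - 1).choose (k - 1)) := by
  classical
  unfold cw
  have h1 : ∀ s : Ik (Fin n) k, ∏ i ∈ s.1, a i = ∏ i, if i ∈ s.1 then a i else 1 := by
    intro s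
    rw [Finset.prod_ite_mem, Finset.univ_inter]
  simp_rw [h1]
  rw [Finset.prod_comm, ← Finset.prod_pow]
  refine Finset.prod_congr rfl fun i _ => ?_
  rw [Finset.prod_ite, Finset.prod_const, Finset.prod_const_one, mul_one, card_filter_mem hk]

theorem wprod_cw (hk : 1 ≤ k) (_hkn : k ≤ n) (a : Fin n → ℝ) (a' : T → Fin n → ℝ) :
    wprod (cw a : Ik (Fin n) k → ℝ) (fun t => cw (a' t)) =
      (wprod a a') ^ ((n - 1).choose (k - 1)) := by
  unfold wprod
  rw [prod_cw hk, mul_pow, ← Finset.prod_pow Finset.univ _ (fun t => ∏ i, a' t i)]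
  congr 1
  exact Finset.prod_congr rfl fun t _ => prod_cw hk (a' t)

end Pool.Agent.Helper1.Sub

end

section

/-!
# Multivariate Hasse derivatives
-/

set_option autoImplicit false

set_option linter.unusedSimpArgs false

namespace Pool.Agent.Helper10.Sub

open MvPolynomial Finset

section general

variable {σ : Type*} {R S : Type*} [CommRing R] [CommRing S]

lemma taylor_X (i : σ) : taylor (X i : MvPolynomial σ R) = X i + C (X i) := by
  simp [taylor]

lemma taylor_C (a : R) : taylor (C a : MvPolynomial σ R) = C (C a) := by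
  rw [taylor, aeval_C]
  rfl

lemma hd_add (k : σ →₀ ℕ) (P Q : MvPolynomial σ R) : hd k (P + Q) = hd k P + hd k Q := by
  simp [hd]

lemma hd_zero (k : σ →₀ ℕ) : hd k (0 : MvPolynomial σ R) = 0 := by simp [hd]

lemma hd_sum {α : Type*} (k : σ →₀ ℕ) (s : Finset α) (P : α → MvPolynomial σ R) :
    hd k (∑ a ∈ s, P a) = ∑ a ∈ s, hd k (P a) := by
  classical
  induction s using Finset.induction_on with
  | empty => simp [hd_zero]
  | insert a s ha ih => rw [Finset.sum_insert ha, Finset.sum_insert ha, hd_add, ih]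

lemma hd_C_mul (k : σ →₀ ℕ) (a : R) (P : MvPolynomial σ R) : hd k (C a * P) = C a * hd k P := by
  simp only [hd, map_mul, taylor_C, coeff_C_mul]

lemma hd_smul (k : σ →₀ ℕ) (a : R) (P : MvPolynomial σ R) : hd k (a • P) = a • hd k P := by
  rw [smul_eq_C_mul, smul_eq_C_mul, hd_C_mul]

lemma map_taylor (f : R →+* S) (P : MvPolynomial σ R) :
    MvPolynomial.map (MvPolynomial.map f) (taylor P) = taylor (MvPolynomial.map f P) := by
  induction P using MvPolynomial.induction_on with
  | C a => simp [taylor_C]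
  | add p q hp hq => simp only [map_add, hp, hq]
  | mul_X p i hp => simp only [map_mul, hp, taylor_X, map_add, map_X, map_C]

lemma map_hd (f : R →+* S) (k : σ →₀ ℕ) (P : MvPolynomial σ R) :
    MvPolynomial.map f (hd k P) = hd k (MvPolynomial.map f P) := by
  simp only [hd, ← map_taylor, coeff_map]

lemma map_eval_taylor (ξ : σ → R) (P : MvPolynomial σ R) :
    MvPolynomial.map (eval ξ) (taylor P) = shift ξ P := by
  induction P using MvPolynomial.induction_on with
  | C a => simp [taylor_C, shift]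
  | add p q hp hq => simp only [map_add, hp, hq]
  | mul_X p i hp =>
    simp only [map_mul, hp, taylor_X, map_add, map_X, map_C]
    simp [shift]

/-- Taylor coefficients at `ξ` are the values of the Hasse derivatives. -/
theorem coeff_shift (ξ : σ → R) (k : σ →₀ ℕ) (P : MvPolynomial σ R) :
    coeff k (shift ξ P) = eval ξ (hd k P) := by
  rw [← map_eval_taylor, coeff_map, hd]

lemma shift_X (ξ : σ → R) (i : σ) : shift ξ (X i) = X i + C (ξ i) := by simp [shift]

lemma shift_C (ξ : σ → R) (a : R) : shift ξ (C a) = C a := by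
  simp [shift]

lemma shift_shift (ξ η : σ → R) (P : MvPolynomial σ R) :
    shift ξ (shift η P) = shift (ξ + η) P := by
  induction P using MvPolynomial.induction_on with
  | C a => simp [shift_C]
  | add p q hp hq => simp only [map_add, hp, hq]
  | mul_X p i hp =>
    simp only [map_mul, hp, shift_X, map_add, shift_C, Pi.add_apply]
    ring

lemma shift_zero (P : MvPolynomial σ R) : shift (0 : σ → R) P = P := by
  induction P using MvPolynomial.induction_on with
  | C a => simp [shift_C]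
  | add p q hp hq => simp only [map_add, hp, hq]
  | mul_X p i hp => simp [map_mul, hp, shift_X]

end general

section fin

variable {σ : Type*} [Fintype σ] {R : Type*} [CommRing R]

/-- Hasse derivatives of monomials. -/
theorem hd_monomial (k e : σ →₀ ℕ) (a : R) :
    hd k (monomial e a) = monomial (e - k) (a * ((∏ i, (e i).choose (k i) : ℕ) : R)) := by
  classical
  have h1 : taylor (monomial e a : MvPolynomial σ R) =
      C (C a) * ∏ i : σ, (X i + C (X i)) ^ (e i) := by
    rw [monomial_eq, map_mul, taylor_C, Finsupp.prod_fintype _ _ (by simp), map_prod]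
    congr 1
    apply Finset.prod_congr rfl
    intro i _
    rw [map_pow, taylor_X]
  have h2 : ∀ i : σ, (X i + C (X i) : MvPolynomial σ (MvPolynomial σ R)) ^ (e i) =
      ∑ j ∈ range (e i + 1), monomial (Finsupp.single i j)
        (X i ^ (e i - j) * (((e i).choose j : ℕ) : MvPolynomial σ R)) := by
    intro i
    rw [add_pow]
    apply Finset.sum_congr rfl
    intro j _
    rw [monomial_eq, Finsupp.prod_single_index (by simp)]
    simp only [map_mul, map_pow, map_natCast]
    ring
  have h3 : ∏ i : σ, (X i + C (X i) : MvPolynomial σ (MvPolynomial σ R)) ^ (e i) =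
      ∑ f ∈ Fintype.piFinset (fun i => range (e i + 1)),
        monomial (Finsupp.equivFunOnFinite.symm f)
          (∏ i, (X i ^ (e i - f i) * (((e i).choose (f i) : ℕ) : MvPolynomial σ R))) := by
    rw [Finset.prod_congr rfl (fun i _ => h2 i), Finset.prod_univ_sum]
    apply Finset.sum_congr rfl
    intro f _
    have : ∀ s : Finset σ, ∏ i ∈ s, (monomial (Finsupp.single i (f i))
        (X i ^ (e i - f i) * (((e i).choose (f i) : ℕ) : MvPolynomial σ R)) :
          MvPolynomial σ (MvPolynomial σ R)) =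
        monomial (∑ i ∈ s, Finsupp.single i (f i))
          (∏ i ∈ s, (X i ^ (e i - f i) * (((e i).choose (f i) : ℕ) : MvPolynomial σ R))) := by
      intro s
      induction s using Finset.induction_on with
      | empty => simp
      | insert a s ha ih =>
        rw [Finset.prod_insert ha, ih, monomial_mul, Finset.sum_insert ha, Finset.prod_insert ha]
    rw [this]
    congr 2
    ext i
    simp [Finsupp.finsetSum_apply, Finsupp.single_apply]
  rw [hd, h1, coeff_C_mul, h3, coeff_sum]
  simp only [coeff_monomial]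
  by_cases hk : k ≤ e
  · rw [Finset.sum_eq_single (fun i => k i)]
    · have : Finsupp.equivFunOnFinite.symm (fun i => k i) = k := by
        ext i; simp
      rw [if_pos this, Finset.prod_mul_distrib, monomial_eq, Finsupp.prod_fintype _ _ (by simp)]
      simp only [Finsupp.coe_tsub, Pi.sub_apply, map_mul, map_natCast, Nat.cast_prod, map_prod]
      ring
    · intro f _ hf
      rw [if_neg]
      intro h
      apply hf
      ext i
      rw [← h]; simp
    · intro h
      exfalso
      apply h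
      rw [Fintype.mem_piFinset]
      intro i
      rw [Finset.mem_range]
      exact Nat.lt_succ_of_le (hk i)
  · have hz : ∏ i, (e i).choose (k i) = 0 := by
      rw [Finsupp.le_def] at hk
      push Not at hk
      obtain ⟨i, hi⟩ := hk
      exact Finset.prod_eq_zero (Finset.mem_univ i) (Nat.choose_eq_zero_of_lt hi)
    rw [hz]
    simp only [Nat.cast_zero, mul_zero, map_zero]
    rw [Finset.sum_eq_zero, mul_zero]
    intro f hf
    rw [if_neg]
    intro h
    apply hk
    intro i
    rw [← h]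
    rw [Fintype.mem_piFinset] at hf
    have := hf i
    rw [Finset.mem_range] at this
    simpa using Nat.le_of_lt_succ this

lemma hd_eq_sum (k : σ →₀ ℕ) (P : MvPolynomial σ R) :
    hd k P = ∑ e ∈ P.support, monomial (e - k)
      (coeff e P * ((∏ i, (e i).choose (k i) : ℕ) : R)) := by
  conv_lhs => rw [P.as_sum, hd_sum]
  exact Finset.sum_congr rfl fun e _ => hd_monomial k e _

/-- Coefficients of Hasse derivatives. -/
theorem coeff_hd (k e : σ →₀ ℕ) (P : MvPolynomial σ R) :
    coeff e (hd k P) = coeff (e + k) P * ((∏ i, ((e + k) i).choose (k i) : ℕ) : R) := by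
  classical
  rw [hd_eq_sum, coeff_sum]
  simp only [coeff_monomial]
  by_cases h : e + k ∈ P.support
  · rw [Finset.sum_eq_single (e + k)]
    · rw [if_pos (by simp)]
    · intro e' _ hne
      by_cases h2 : e' - k = e
      · rw [if_pos h2]
        have h3 : ¬ k ≤ e' := by
          intro h4
          apply hne
          rw [← h2, tsub_add_cancel_of_le h4]
        rw [Finsupp.le_def] at h3
        push Not at h3
        obtain ⟨i, hi⟩ := h3
        rw [Finset.prod_eq_zero (Finset.mem_univ i) (Nat.choose_eq_zero_of_lt hi)]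
        simp
      · rw [if_neg h2]
    · intro h5; exact absurd h h5
  · rw [notMem_support_iff.mp h, zero_mul]
    apply Finset.sum_eq_zero
    intro e' he'
    by_cases h2 : e' - k = e
    · rw [if_pos h2]
      have h3 : ¬ k ≤ e' := by
        intro h4
        apply h
        rw [← h2, tsub_add_cancel_of_le h4]
        exact he'
      rw [Finsupp.le_def] at h3
      push Not at h3
      obtain ⟨i, hi⟩ := h3
      rw [Finset.prod_eq_zero (Finset.mem_univ i) (Nat.choose_eq_zero_of_lt hi)]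
      simp
    · rw [if_neg h2]

/-- Composition of Hasse derivatives. -/
theorem hd_hd (j k : σ →₀ ℕ) (P : MvPolynomial σ R) :
    hd j (hd k P) = ((∏ i, ((j + k) i).choose (k i) : ℕ) : MvPolynomial σ R) * hd (j + k) P := by
  ext e
  rw [← map_natCast (C : R →+* MvPolynomial σ R), coeff_C_mul, coeff_hd, coeff_hd, coeff_hd]
  have h1 : ∀ i, ((e + j + k) i).choose (k i) * ((e + j) i).choose (j i) =
      ((j + k) i).choose (k i) * ((e + (j + k)) i).choose ((j + k) i) := by
    intro i
    simp only [Finsupp.coe_add, Pi.add_apply]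
    have h2 := Nat.choose_mul (n := e i + j i + k i) (k := j i + k i) (s := k i) (by omega)
    have e1 : e i + j i + k i - k i = e i + j i := by omega
    have e2 : j i + k i - k i = j i := by omega
    rw [e1, e2] at h2
    rw [show e i + (j i + k i) = e i + j i + k i by ring, ← h2, mul_comm]
  have h3 : ((∏ i, ((e + j + k) i).choose (k i) : ℕ) : R) * ((∏ i, ((e + j) i).choose (j i) : ℕ) : R)
      = ((∏ i, ((j + k) i).choose (k i) : ℕ) : R) *
        ((∏ i, ((e + (j + k)) i).choose ((j + k) i) : ℕ) : R) := by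
    rw [← Nat.cast_mul, ← Nat.cast_mul, ← Finset.prod_mul_distrib, ← Finset.prod_mul_distrib]
    congr 1
    exact Finset.prod_congr rfl fun i _ => h1 i
  rw [mul_assoc, h3, add_assoc]
  ring

lemma support_hd (k : σ →₀ ℕ) (P : MvPolynomial σ R) {e : σ →₀ ℕ} (he : e ∈ (hd k P).support) :
    e + k ∈ P.support := by
  rw [mem_support_iff, coeff_hd] at he
  rw [mem_support_iff]
  intro h
  apply he
  rw [h, zero_mul]

/-- Hasse derivatives commute with translation. -/
theorem shift_hd (ξ : σ → R) (k : σ →₀ ℕ) (P : MvPolynomial σ R) :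
    shift ξ (hd k P) = hd k (shift ξ P) := by
  ext e
  rw [coeff_shift, coeff_hd, coeff_shift, hd_hd, map_mul, map_natCast]
  ring

lemma prod_choose_le (e k : σ →₀ ℕ) : ∏ i, (e i).choose (k i) ≤ 2 ^ (∑ i, e i) := by
  rw [← Finset.prod_pow_eq_pow_sum]
  exact Finset.prod_le_prod' fun i _ => Nat.choose_le_two_pow _ _

end fin

end Pool.Agent.Helper10.Sub

end

section

/-!
# The primary part of a quotient at a maximal ideal
-/

set_option autoImplicit false

namespace Pool.Agent.Helper30.TY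

variable {K S : Type} [Field K] [CommRing S] [Algebra K S]

/-- The elements killed by a power of `M`. -/
def Nsp (M I : Ideal S) (k : ℕ) : Submodule K (S ⧸ I) :=
  (Submodule.torsionBySet S (S ⧸ I) ((M ^ k : Ideal S) : Set S)).restrictScalars K

theorem mem_Nsp {M I : Ideal S} {k : ℕ} {z : S ⧸ I} :
    z ∈ Nsp (K := K) M I k ↔ ∀ w ∈ M ^ k, w • z = 0 := by
  unfold Nsp
  rw [Submodule.restrictScalars_mem, Submodule.mem_torsionBySet_iff]
  exact ⟨fun h w hw => h ⟨w, hw⟩, fun h w => h w.1 w.2⟩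

theorem Nsp_mono {M I : Ideal S} {k k' : ℕ} (h : k ≤ k') :
    Nsp (K := K) M I k ≤ Nsp M I k' := by
  intro z hz
  rw [mem_Nsp] at hz ⊢
  exact fun w hw => hz w (Ideal.pow_le_pow_right h hw)

/-- There is an element killed by a power of `M` which is congruent to `1` modulo `M`. -/
theorem exists_unit {M I : Ideal S} [FiniteDimensional K (S ⧸ I)] :
    ∃ (k : ℕ) (r : S), r - 1 ∈ M ∧ Ideal.Quotient.mk I r ∈ Nsp (K := K) M I k := by
  haveI : IsArtinian S (S ⧸ I) := isArtinian_of_tower K inferInstance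
  haveI : IsNoetherian S (S ⧸ I) := isNoetherian_of_tower K inferInstance
  let f : ℕ →o (Submodule S (S ⧸ I))ᵒᵈ :=
    { toFun := fun k => OrderDual.toDual (M ^ k • (⊤ : Submodule S (S ⧸ I)))
      monotone' := by
        intro k k' h
        exact Submodule.smul_mono_left (Ideal.pow_le_pow_right h) }
  obtain ⟨k, hk⟩ := IsArtinian.monotone_stabilizes f
  have h1 : M ^ k • (⊤ : Submodule S (S ⧸ I)) = M ^ (k + 1) • (⊤ : Submodule S (S ⧸ I)) :=
    hk (k + 1) (Nat.le_succ k)
  have h2 : M ^ k • (⊤ : Submodule S (S ⧸ I)) ≤ M • (M ^ k • (⊤ : Submodule S (S ⧸ I))) := by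
    conv_lhs => rw [h1, pow_succ', mul_smul]
  obtain ⟨r, hr, hr0⟩ := Submodule.exists_sub_one_mem_and_smul_eq_zero_of_fg_of_le_smul M _
    (IsNoetherian.noetherian _) h2
  refine ⟨k, r, hr, ?_⟩
  rw [mem_Nsp]
  intro w hw
  have h3 : r • (w • (1 : S ⧸ I)) = 0 := hr0 _ (Submodule.smul_mem_smul hw trivial)
  rw [smul_comm] at h3
  have h4 : Ideal.Quotient.mk I r = r • (1 : S ⧸ I) := by
    rw [Algebra.smul_def, mul_one]
    rfl
  rw [h4]
  exact h3

/-- The step of the induction. -/
theorem step {I I' I₁ M : Ideal S} {L : S} (hI : ∀ z ∈ I, L * z ∈ I') (hI' : I' ≤ I₁)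
    (h1 : ∀ z ∈ I₁, ∃ u, z - L * u ∈ I') (hL : L ∈ I₁) (h1M : I₁ ≤ M) (hM : M ≠ ⊤)
    [FiniteDimensional K (S ⧸ I)] [FiniteDimensional K (S ⧸ I')] [FiniteDimensional K (S ⧸ I₁)]
    (hdim : Module.finrank K (S ⧸ I') = Module.finrank K (S ⧸ I) + Module.finrank K (S ⧸ I₁))
    {a k : ℕ} (hak : a ≤ Module.finrank K (Nsp (K := K) M I k)) :
    ∃ k', a + 1 ≤ Module.finrank K (Nsp (K := K) M I' k') := by
  -- the multiplication by `L`
  let μS : (S ⧸ I) →ₗ[S] (S ⧸ I') := Submodule.mapQ I I' (LinearMap.mulLeft S L) (by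
    intro z hz
    exact hI z hz)
  have hμ : ∀ z : S, μS (Ideal.Quotient.mk I z) = Ideal.Quotient.mk I' (L * z) := fun z => rfl
  let μ : (S ⧸ I) →ₗ[K] (S ⧸ I') := μS.restrictScalars K
  let π : (S ⧸ I') →ₗ[K] (S ⧸ I₁) := (Ideal.Quotient.factorₐ K hI').toLinearMap
  have hπ : ∀ z : S, π (Ideal.Quotient.mk I' z) = Ideal.Quotient.mk I₁ z := fun z => rfl
  have hπs : Function.Surjective π := by
    intro x
    obtain ⟨z, rfl⟩ := Ideal.Quotient.mk_surjective x
    exact ⟨Ideal.Quotient.mk I' z, rfl⟩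
  have hker : LinearMap.ker π ≤ LinearMap.range μ := by
    intro x hx
    obtain ⟨z, rfl⟩ := Ideal.Quotient.mk_surjective x
    rw [LinearMap.mem_ker, hπ, Ideal.Quotient.eq_zero_iff_mem] at hx
    obtain ⟨u, hu⟩ := h1 z hx
    exact ⟨Ideal.Quotient.mk I u, ((Ideal.Quotient.eq).2 hu).symm⟩
  have hr1 := LinearMap.finrank_range_add_finrank_ker π
  rw [LinearMap.range_eq_top.2 hπs, finrank_top] at hr1
  have hr2 := LinearMap.finrank_range_add_finrank_ker μ
  have hr3 := Submodule.finrank_mono hker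
  have hinj : Function.Injective μ := by
    rw [← LinearMap.ker_eq_bot, ← Submodule.finrank_eq_zero]
    omega
  obtain ⟨k', r, hr, hrN⟩ := exists_unit (K := K) (M := M) (I := I')
  refine ⟨max k k', ?_⟩
  have hle : (Nsp (K := K) M I k).map μ ≤ Nsp M I' (max k k') := by
    rintro x ⟨z, hz, rfl⟩
    refine Nsp_mono (le_max_left k k') ?_
    rw [mem_Nsp]
    intro w hw
    have h2 := mem_Nsp.1 hz w hw
    change w • μS z = 0
    rw [← map_smul, h2, map_zero]
  have hrN' : Ideal.Quotient.mk I' r ∈ Nsp (K := K) M I' (max k k') :=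
    Nsp_mono (le_max_right k k') hrN
  have hlt : (Nsp (K := K) M I k).map μ < Nsp M I' (max k k') := by
    refine lt_of_le_of_ne hle fun h => ?_
    rw [← h] at hrN'
    obtain ⟨z, -, hz⟩ := hrN'
    obtain ⟨z, rfl⟩ := Ideal.Quotient.mk_surjective z
    have h2 : Ideal.Quotient.mk I' (L * z) = Ideal.Quotient.mk I' r := hz
    have h3 : L * z - r ∈ M := h1M (hI' ((Ideal.Quotient.eq).1 h2))
    apply hM
    rw [Ideal.eq_top_iff_one]
    have h4 : L * z ∈ M := M.mul_mem_right _ (h1M hL)
    have h5 : (1 : S) = L * z - (L * z - r) - (r - 1) := by ring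
    rw [h5]
    exact M.sub_mem (M.sub_mem h4 h3) hr
  have h2 := Submodule.finrank_lt_finrank_of_lt hlt
  have h3 := (Submodule.equivMapOfInjective μ hinj (Nsp (K := K) M I k)).finrank_eq
  omega

theorem mem_three {J : Ideal S} {L c z : S}
    (hz : z ∈ (J ⊔ Ideal.span {L}) ⊔ Ideal.span {c}) :
    ∃ j ∈ J, ∃ u v, z = j + u * L + v * c := by
  obtain ⟨z₁, hz₁, z₂, hz₂, rfl⟩ := Submodule.mem_sup.1 hz
  obtain ⟨j, hj, z₃, hz₃, rfl⟩ := Submodule.mem_sup.1 hz₁
  obtain ⟨v, rfl⟩ := Ideal.mem_span_singleton'.1 hz₂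
  obtain ⟨u, rfl⟩ := Ideal.mem_span_singleton'.1 hz₃
  exact ⟨j, hj, u, v, rfl⟩

theorem three_mem {J : Ideal S} {L c j : S} (hj : j ∈ J) (u v : S) :
    j + u * L + v * c ∈ (J ⊔ Ideal.span {L}) ⊔ Ideal.span {c} := by
  refine Ideal.add_mem _ (Ideal.mem_sup_left (Ideal.add_mem _ (Ideal.mem_sup_left hj)
    (Ideal.mem_sup_right ?_))) (Ideal.mem_sup_right ?_)
  · exact Ideal.mul_mem_left _ _ (Ideal.mem_span_singleton_self _)
  · exact Ideal.mul_mem_left _ _ (Ideal.mem_span_singleton_self _)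

/-- The primary part at `M` of `L ^ a` has length at least `a`. -/
theorem exists_large {J M : Ideal S} {L c : S} {D : ℕ}
    (hfin : ∀ a : ℕ, FiniteDimensional K (S ⧸ ((J ⊔ Ideal.span {L ^ a}) ⊔ Ideal.span {c})))
    (hdim : ∀ a : ℕ,
      Module.finrank K (S ⧸ ((J ⊔ Ideal.span {L ^ a}) ⊔ Ideal.span {c})) = a * D)
    (hM : M ≠ ⊤) (hJM : J ≤ M) (hL : L ∈ M) (hc : c ∈ M) (a : ℕ) :
    ∃ k, a ≤ Module.finrank K
      (Nsp (K := K) M ((J ⊔ Ideal.span {L ^ a}) ⊔ Ideal.span {c}) k) := by
  induction a with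
  | zero => exact ⟨0, Nat.zero_le _⟩
  | succ a ih =>
    obtain ⟨k, hk⟩ := ih
    haveI := hfin a
    haveI := hfin (a + 1)
    haveI := hfin 1
    refine step (K := K) (I := (J ⊔ Ideal.span {L ^ a}) ⊔ Ideal.span {c})
      (I₁ := (J ⊔ Ideal.span {L ^ 1}) ⊔ Ideal.span {c}) (M := M) (L := L)
      ?_ ?_ ?_ ?_ ?_ hM ?_ hk
    · intro z hz
      obtain ⟨j, hj, u, v, rfl⟩ := mem_three hz
      have h1 : L * (j + u * L ^ a + v * c) =
          L * j + u * L ^ (a + 1) + (L * v) * c := by ring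
      rw [h1]
      exact three_mem (J.mul_mem_left _ hj) _ _
    · intro z hz
      obtain ⟨j, hj, u, v, rfl⟩ := mem_three hz
      have h1 : j + u * L ^ (a + 1) + v * c =
          j + (u * L ^ a) * L ^ 1 + v * c := by ring
      rw [h1]
      exact three_mem hj _ _
    · intro z hz
      obtain ⟨j, hj, u, v, rfl⟩ := mem_three hz
      refine ⟨u, ?_⟩
      have h1 : j + u * L ^ 1 + v * c - L * u = j + 0 * L ^ (a + 1) + v * c := by ring
      rw [h1]
      exact three_mem hj _ _
    · have h1 : L = 0 + 1 * L ^ 1 + 0 * c := by ring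
      have h2 := three_mem (L := L ^ 1) (c := c) J.zero_mem 1 0
      rwa [← h1] at h2
    · intro z hz
      obtain ⟨j, hj, u, v, rfl⟩ := mem_three hz
      refine M.add_mem (M.add_mem (hJM hj) (M.mul_mem_left _ ?_)) (M.mul_mem_left _ hc)
      rwa [pow_one]
    · rw [hdim, hdim, hdim]
      ring

end Pool.Agent.Helper30.TY

end
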