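import Mathlib
import Pool.Agent.Helper72.TM2.T03
import Pool.Agent.Helper72.TM2.T04

section

set_option autoImplicit false

set_option linter.style.haveILetI false

namespace Pool.Agent.Helper16

open Polynomial IntermediateField IsDedekindDomain

section

variable {K N : Type} [Field K] [Field N] [Algebra K N]

theorem finiteDimensional_of_fg_of_isAlgebraic (F E : Type) [Field F] [Field E] [Algebra F E]
    [Algebra.EssFiniteType F E] [Algebra.IsAlgebraic F E] : FiniteDimensional F E := by
  obtain ⟨S, hS⟩ := IntermediateField.fg_top F E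
  haveI : FiniteDimensional F (IntermediateField.adjoin F (S : Set E)) :=
    IntermediateField.finiteDimensional_adjoin (fun x _ => (Algebra.IsAlgebraic.isAlgebraic x).isIntegral)
  rw [hS] at this
  exact (IntermediateField.topEquiv (F := F) (E := E)).toLinearEquiv.finiteDimensional

theorem IsFunctionField.finiteDimensional (h : IsFunctionField K N) (f : N)
    (hf : Transcendental K f) : FiniteDimensional K⟮f⟯ N := by
  haveI := h.1
  have h1 : AlgebraicIndependent K (fun _ : Unit => f) :=
    algebraicIndependent_unique_type_iff.2 hf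
  have h2 : IsTranscendenceBasis K (fun _ : Unit => f) :=
    h1.isTranscendenceBasis_of_trdeg_le_of_finite (by rw [h.2]; simp)
  have h3 := h2.isAlgebraic_field
  have h4 : Set.range (fun _ : Unit => f) = {f} := Set.range_const
  rw [h4] at h3
  haveI : Algebra.EssFiniteType K⟮f⟯ N := Algebra.EssFiniteType.of_comp K K⟮f⟯ N
  exact finiteDimensional_of_fg_of_isAlgebraic K⟮f⟯ N

theorem Place.val_eq_one_of_algebraic (v : Place K N) {f : N} (hf : IsAlgebraic K f) (hf0 : f ≠ 0) :
    v.val f = 1 := by
  have h1 : ∀ g : N, IsAlgebraic K g → v.val g ≤ 1 := by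
    intro g hg
    have h2 : IntOver K (0 : N) g := IntOver.of_isIntegral hg.isIntegral
    exact h2.mem_ring v (by simp)
  refine le_antisymm (h1 f hf) ?_
  have := h1 f⁻¹ hf.inv
  rw [map_inv₀] at this
  exact (inv_le_one₀ (zero_lt_iff.2 (by simpa using hf0))).1 this

theorem Place.transcendental_of_val_ne_one (v : Place K N) {f : N} (hf0 : f ≠ 0)
    (hv : v.val f ≠ 1) : Transcendental K f :=
  fun hf => hv (v.val_eq_one_of_algebraic hf hf0)

theorem Place.exists_uniformizer (v : Place K N) : ∃ f : N, f ≠ 0 ∧ v.val f = WithZero.exp (-1 : ℤ) := by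
  obtain ⟨f, hf⟩ := v.surj (WithZero.exp (-1 : ℤ))
  refine ⟨f, ?_, hf⟩
  rintro rfl
  rw [map_zero] at hf
  exact WithZero.exp_ne_zero hf.symm

theorem exp_neg_one_lt : WithZero.exp (-1 : ℤ) < 1 := by
  rw [← WithZero.exp_zero, WithZero.exp_lt_exp]; norm_num

theorem Place.finite_resField (hN : IsFunctionField K N) (v : Place K N) :
    Module.Finite K v.resField := by
  obtain ⟨f, hf0, hf⟩ := v.exists_uniformizer
  have hlt : v.val f < 1 := by rw [hf]; exact exp_neg_one_lt
  have htr := v.transcendental_of_val_ne_one hf0 hlt.ne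
  haveI := hN.finiteDimensional f htr
  obtain ⟨P, rfl⟩ := exists_placeOfPrime f htr v hlt.le
  exact (deg_placeOfPrime f htr P ((placeOfPrime_val_lt f htr P (sIC K f)).1 hlt)).2

/-- Zeros of a transcendental element. -/
theorem IsFunctionField.zeros (hN : IsFunctionField K N) (f : N) (hf : Transcendental K f) :
    ∃ S : Finset (Place K N), (∀ v, v ∈ S ↔ v.val f < 1) ∧
      ∑ v ∈ S, v.ord f * (v.deg : ℤ) = (Module.finrank K⟮f⟯ N : ℤ) ∧
      0 < Module.finrank K⟮f⟯ N := by
  haveI := hN.finiteDimensional f hf
  obtain ⟨S, h1, h2⟩ := sum_zeros f hf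
  exact ⟨S, h1, h2, Module.finrank_pos⟩

/-- The product formula. -/
theorem IsFunctionField.product_formula (hN : IsFunctionField K N) (f : N) :
    ∃ S : Finset (Place K N), (∀ v, v ∈ S ↔ v.ord f ≠ 0) ∧
      ∑ v ∈ S, v.ord f * (v.deg : ℤ) = 0 := by
  classical
  by_cases hf0 : f = 0
  · subst hf0
    exact ⟨∅, fun v => by simp [v.ord_zero], by simp⟩
  by_cases hf : IsAlgebraic K f
  · refine ⟨∅, fun v => ?_, by simp⟩
    simp [(v.ord_eq_zero_iff hf0).2 (v.val_eq_one_of_algebraic hf hf0)]
  · obtain ⟨S, h1, h2, -⟩ := hN.zeros f hf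
    obtain ⟨T, h3, h4, -⟩ := hN.zeros f⁻¹ (transcendental_inv hf)
    rw [finrank_inv] at h4
    have hT : ∀ v : Place K N, v ∈ T ↔ 1 < v.val f := by
      intro v
      rw [h3, map_inv₀, inv_lt_one₀ (zero_lt_iff.2 (by simpa using hf0))]
    have hdisj : Disjoint S T := by
      rw [Finset.disjoint_left]
      intro v hv hv'
      rw [h1] at hv
      rw [hT] at hv'
      exact lt_asymm hv hv'
    refine ⟨S ∪ T, fun v => ?_, ?_⟩
    · rw [Finset.mem_union, h1, hT, Ne, v.ord_eq_zero_iff hf0]
      constructor
      · rintro (h | h)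
        · exact h.ne
        · exact h.ne'
      · intro h
        exact lt_or_gt_of_ne h
    · rw [Finset.sum_union hdisj, h2]
      have h5 : ∑ v ∈ T, v.ord f * (v.deg : ℤ) = - ∑ v ∈ T, v.ord f⁻¹ * (v.deg : ℤ) := by
        rw [← Finset.sum_neg_distrib]
        refine Finset.sum_congr rfl fun v _ => ?_
        rw [v.ord_inv]
        ring
      rw [h5, h4]
      ring

end

end Pool.Agent.Helper16

end

section

namespace Pool.Agent.Helper16
end Pool.Agent.Helper16
namespace Pool.Agent.Helper36
end Pool.Agent.Helper36

/-!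
# Orbits of points of the projective plane over a function field: definitions

`k` is an algebraically closed field, `K` a function field of one variable over `k`,
`F : Fin 3 → k[X_0, X_1, X_2]` an endomorphism of the projective plane. Points are nonzero vectors.
-/

set_option autoImplicit false

namespace Pool.Agent.Helper30.TP

open MvPolynomial

open Pool.Agent.Helper16 (Place IsFunctionField)

open Pool.Agent.Helper36 (step iter)

/-- Proportional vectors. -/
def PEq {L : Type} [Field L] (x y : Fin 3 → L) : Prop := ∃ c : L, c ≠ 0 ∧ y = c • x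

section

variable {k K : Type} [Field k] [Field K] [Algebra k K]

/-- The maximum norm of a vector at a place. -/
noncomputable def nrm (b : Place k K) (x : Fin 3 → K) : WithZero (Multiplicative ℤ) :=
  Finset.univ.sup fun i => b.val (x i)

/-- The maximum norm of a polynomial at a place. -/
noncomputable def gs (b : Place k K) (P : MvPolynomial (Fin 3) K) : WithZero (Multiplicative ℤ) :=
  P.support.sup fun m => b.val (P.coeff m)

/-- The height of a point. -/
noncomputable def ht (k : Type) {K : Type} [Field k] [Field K] [Algebra k K] (x : Fin 3 → K) : ℤ :=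
  ∑ᶠ b : Place k K, WithZero.log (nrm b x)

/-- Application of a linear form to the coefficients. -/
noncomputable def lam (ℓ : K →ₗ[k] k) (g : MvPolynomial (Fin 3) K) : MvPolynomial (Fin 3) k :=
  ∑ m ∈ g.support, monomial m (ℓ (g.coeff m))

/-- A free ultrafilter on the natural numbers. -/
def Free (U : Ultrafilter ℕ) : Prop := ∀ m : ℕ, ∀ᶠ n in (U : Filter ℕ), m ≤ n

end

end Pool.Agent.Helper30.TP

end

section

namespace Pool.Agent.Helper16
end Pool.Agent.Helper16
namespace Pool.Agent.Helper36
end Pool.Agent.Helper36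

/-!
# Common zeros of coprime forms
-/

set_option autoImplicit false

namespace Pool.Agent.Helper30.TP

open MvPolynomial

open Pool.Agent.Helper16 (Place IsFunctionField)

open Pool.Agent.Helper36 (step iter)

section LFin

variable {L : Type} [Field L]

/-- the restriction of polynomials to the line through `y` -/
noncomputable def LFin_hom (y : Fin 3 → L) : MvPolynomial (Fin 3) L →+* Polynomial L :=
  eval₂Hom Polynomial.C fun j => Polynomial.C (y j) * Polynomial.X

/-- the prime ideal of the line through `y` -/
noncomputable def LFin_P (y : Fin 3 → L) : Ideal (MvPolynomial (Fin 3) L) :=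
  RingHom.ker (LFin_hom y)

theorem LFin_C (y : Fin 3 → L) (c : L) : LFin_hom y (C c) = Polynomial.C c := by
  simp [LFin_hom]

theorem LFin_X (y : Fin 3 → L) (j : Fin 3) :
    LFin_hom y (X j) = Polynomial.C (y j) * Polynomial.X := by
  simp [LFin_hom]

theorem LFin_mem (y : Fin 3 → L) {a b : Fin 3} :
    C (y a) * X b - C (y b) * X a ∈ LFin_P y := by
  rw [LFin_P, RingHom.mem_ker, map_sub, map_mul, map_mul, LFin_C, LFin_C, LFin_X, LFin_X]
  ring

theorem LFin_of_eval {P : MvPolynomial (Fin 3) L} {e : ℕ} (hP : P.IsHomogeneous e)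
    {y : Fin 3 → L} (h : eval y P = 0) : P ∈ LFin_P y := by
  have key : LFin_hom y P = Polynomial.C (eval y P) * Polynomial.X ^ e := by
    rw [LFin_hom, coe_eval₂Hom, eval₂_eq, eval_eq, map_sum, Finset.sum_mul]
    apply Finset.sum_congr rfl
    intro m hm
    have hdeg : ∑ i ∈ m.support, m i = e := by
      have := hP (mem_support_iff.1 hm)
      rw [Finsupp.weight_apply, Finsupp.sum] at this
      simpa using this
    simp only [mul_pow]
    rw [Finset.prod_mul_distrib, map_mul, map_prod, Finset.prod_pow_eq_pow_sum, hdeg]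
    simp only [map_pow]
    ring
  rw [LFin_P, RingHom.mem_ker, key, h, map_zero, zero_mul]

instance LFin_prime (y : Fin 3 → L) : (LFin_P y).IsPrime := RingHom.ker_isPrime _

theorem LFin_span {y : Fin 3 → L} {a b c : Fin 3} (ha : y a ≠ 0)
    (habc : ∀ j, j = a ∨ j = b ∨ j = c) :
    LFin_P y = Ideal.span {C (y a) * X b - C (y b) * X a, C (y a) * X c - C (y c) * X a} := by
  apply le_antisymm
  · intro P hP
    set I := Ideal.span {C (y a) * X b - C (y b) * X a, C (y a) * X c - C (y c) * X a} with hI
    -- the inverse map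
    let g : Polynomial L →+* MvPolynomial (Fin 3) L ⧸ I :=
      Polynomial.eval₂RingHom ((Ideal.Quotient.mk I).comp C)
        (Ideal.Quotient.mk I (C (y a)⁻¹ * X a))
    have hg : g.comp (LFin_hom y) = Ideal.Quotient.mk I := by
      apply MvPolynomial.ringHom_ext
      · intro r
        rw [RingHom.comp_apply, LFin_C]
        simp [g]
      · intro j
        rw [RingHom.comp_apply, LFin_X, map_mul]
        have h1 : g (Polynomial.C (y j)) = Ideal.Quotient.mk I (C (y j)) := by simp [g]
        have h2 : g Polynomial.X = Ideal.Quotient.mk I (C (y a)⁻¹ * X a) := by simp [g]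
        rw [h1, h2, ← map_mul, Ideal.Quotient.eq]
        have h3 : (C (y j) * (C (y a)⁻¹ * X a) - X j : MvPolynomial (Fin 3) L) =
            -C (y a)⁻¹ * (C (y a) * X j - C (y j) * X a) := by
          have h4 : (C (y a)⁻¹ * C (y a) : MvPolynomial (Fin 3) L) = 1 := by
            rw [← C_mul, inv_mul_cancel₀ ha, C_1]
          linear_combination (X j : MvPolynomial (Fin 3) L) * h4
        rw [h3]
        apply Ideal.mul_mem_left
        rcases habc j with rfl | rfl | rfl
        · rw [sub_self]
          exact I.zero_mem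
        · exact Ideal.subset_span (Set.mem_insert _ _)
        · exact Ideal.subset_span (Set.mem_insert_of_mem _ rfl)
    have h5 := congrArg (fun φ => φ P) hg
    simp only [RingHom.comp_apply] at h5
    have h6 : LFin_hom y P = 0 := hP
    rw [h6, map_zero] at h5
    exact Ideal.Quotient.eq_zero_iff_mem.1 h5.symm
  · rw [Ideal.span_le]
    rintro x (rfl | rfl)
    · exact LFin_mem y
    · exact LFin_mem y

theorem LFin_height {y : Fin 3 → L} (hy : y ≠ 0) : (LFin_P y).height ≤ 2 := by
  obtain ⟨a, ha⟩ := Function.ne_iff.1 hy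
  have hall : ∀ a : Fin 3, ∃ b c : Fin 3, ∀ j, j = a ∨ j = b ∨ j = c := by decide
  obtain ⟨b, c, habc⟩ := hall a
  have h1 := Ideal.height_le_spanFinrank (LFin_P y) (LFin_prime y).ne_top
  refine h1.trans ?_
  have h2 : (LFin_P y).spanFinrank ≤ 2 := by
    rw [LFin_span ha habc]
    refine (Submodule.spanFinrank_span_le_ncard_of_finite (Set.toFinite _)).trans ?_
    exact (Set.ncard_insert_le _ _).trans (by rw [Set.ncard_singleton])
  exact_mod_cast h2

theorem LFin_minimal {φ ψ : MvPolynomial (Fin 3) L} {e t : ℕ}
    (hφ : φ.IsHomogeneous e) (hψ : ψ.IsHomogeneous t) (hirr : Irreducible φ) (hnd : ¬ φ ∣ ψ)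
    {y : Fin 3 → L} (hy : y ≠ 0) (h1 : eval y φ = 0) (h2 : eval y ψ = 0) :
    LFin_P y ∈ (Ideal.span {φ, ψ}).minimalPrimes := by
  refine ⟨⟨inferInstance, ?_⟩, ?_⟩
  · rw [Ideal.span_le]
    rintro x (rfl | rfl)
    · exact LFin_of_eval hφ h1
    · exact LFin_of_eval hψ h2
  · rintro Q ⟨hQ, hIQ⟩ hQP
    by_contra hPQ
    have hlt : Q < LFin_P y := lt_of_le_of_ne hQP fun h => hPQ h.ge
    have hφQ : φ ∈ Q := hIQ (Ideal.subset_span (Set.mem_insert _ _))
    have hψQ : ψ ∈ Q := hIQ (Ideal.subset_span (Set.mem_insert_of_mem _ rfl))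
    have hpr : (Ideal.span {φ} : Ideal (MvPolynomial (Fin 3) L)).IsPrime :=
      (Ideal.span_singleton_prime hirr.ne_zero).2 hirr.prime
    have hlt1 : (Ideal.span {φ} : Ideal (MvPolynomial (Fin 3) L)) < Q := by
      refine lt_of_le_of_ne ((Ideal.span_singleton_le_iff_mem _).2 hφQ) ?_
      intro h
      rw [← h, Ideal.mem_span_singleton] at hψQ
      exact hnd hψQ
    have hlt0 : (⊥ : Ideal (MvPolynomial (Fin 3) L)) < Ideal.span {φ} := by
      rw [bot_lt_iff_ne_bot, Ne, Ideal.span_singleton_eq_bot]
      exact hirr.ne_zero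
    have k0 := Ideal.height_strict_mono_of_isPrime hlt0
    have k1 := Ideal.height_strict_mono_of_isPrime hlt1
    have k2 := Ideal.height_strict_mono_of_isPrime hlt
    have k3 := LFin_height hy
    have e0 : 1 ≤ (Ideal.span {φ} : Ideal (MvPolynomial (Fin 3) L)).height :=
      Order.one_le_iff_ne_zero.2 (fun h => by rw [h] at k0; exact absurd k0 not_lt_zero)
    have e1 : 2 ≤ Q.height := by
      have := Order.add_one_le_of_lt (lt_of_le_of_lt e0 k1)
      calc (2 : ℕ∞) = 1 + 1 := by norm_num
        _ ≤ Q.height := this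
    exact absurd (lt_of_le_of_lt e1 k2) (not_lt.2 k3)

theorem LFin_inj {y z : Fin 3 → L} (hy : y ≠ 0) (hz : z ≠ 0) (h : LFin_P y = LFin_P z) :
    PEq y z := by
  have key : ∀ a b : Fin 3, y a * z b = y b * z a := by
    intro a b
    have h1 : C (y a) * X b - C (y b) * X a ∈ LFin_P z := h ▸ LFin_mem y
    rw [LFin_P, RingHom.mem_ker, map_sub, map_mul, map_mul, LFin_C, LFin_C, LFin_X, LFin_X] at h1
    have h2 := congrArg (fun p => Polynomial.coeff p 1) h1
    simp only [Polynomial.coeff_sub, ← mul_assoc, ← Polynomial.C_mul, Polynomial.coeff_mul_X,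
      Polynomial.coeff_C_zero, Polynomial.coeff_zero] at h2
    linear_combination h2
  obtain ⟨a, ha⟩ := Function.ne_iff.1 hy
  have ha' : y a ≠ 0 := ha
  have hza : z a ≠ 0 := by
    intro h0
    apply hz
    funext b
    have := key a b
    rw [h0, mul_zero] at this
    exact (mul_eq_zero.1 this).resolve_left ha'
  refine ⟨z a / y a, div_ne_zero hza ha', ?_⟩
  funext b
  have := key a b
  simp only [Pi.smul_apply, smul_eq_mul]
  field_simp
  linear_combination this

end LFin

theorem finite_common_zeros {L : Type} [Field L] {φ ψ : MvPolynomial (Fin 3) L} {e t : ℕ}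
    (hφ : φ.IsHomogeneous e) (hψ : ψ.IsHomogeneous t) (hirr : Irreducible φ) (hnd : ¬ φ ∣ ψ)
    {ι : Type*} (y : ι → Fin 3 → L) (hy0 : ∀ i, y i ≠ 0)
    (hdist : ∀ i j, i ≠ j → ¬ PEq (y i) (y j)) :
    {i | eval (y i) φ = 0 ∧ eval (y i) ψ = 0}.Finite := by
  have hfin := Ideal.finite_minimalPrimes_of_isNoetherianRing (MvPolynomial (Fin 3) L)
    (Ideal.span {φ, ψ})
  apply Set.Finite.of_finite_image (f := fun i => LFin_P (y i))
  · apply hfin.subset
    rintro P ⟨i, ⟨h1, h2⟩, rfl⟩
    exact LFin_minimal hφ hψ hirr hnd (hy0 i) h1 h2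
  · intro i _ j _ hij
    by_contra hne
    exact hdist i j hne (LFin_inj (hy0 i) (hy0 j) hij)

end Pool.Agent.Helper30.TP

end

section

/-!
# Divisors of forms are forms
-/

set_option autoImplicit false

open MvPolynomial

namespace Pool.Agent.Helper30.TP

section forms

variable {σ : Type} {K : Type*} [CommRing K]

/-- the homomorphism `f(x) ↦ f(λ x)` -/
noncomputable def Gam : MvPolynomial σ K →ₐ[K] Polynomial (MvPolynomial σ K) :=
  aeval (fun i => Polynomial.X * Polynomial.C (X i))

lemma Gam_monomial (u : σ →₀ ℕ) (a : K) :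
    Gam (monomial u a) = Polynomial.monomial u.degree (monomial u a) := by
  induction u using Finsupp.induction_linear generalizing a with
  | zero =>
    have h1 : (monomial 0 a : MvPolynomial σ K) = algebraMap K _ a := rfl
    rw [h1, AlgHom.commutes, map_zero]
    rfl
  | add f g hf hg =>
    have h1 : (monomial (f + g) a : MvPolynomial σ K) = monomial f a * monomial g 1 := by
      rw [monomial_mul, mul_one]
    rw [h1, map_mul, hf, hg, Polynomial.monomial_mul_monomial, map_add]
  | single i n =>
    have h1 : (monomial (Finsupp.single i n) a : MvPolynomial σ K) = C a * X i ^ n := by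
      rw [X_pow_eq_monomial, C_mul_monomial, mul_one]
    have h2 : Gam (C a : MvPolynomial σ K) = Polynomial.C (C a) := by
      rw [← algebraMap_eq, AlgHom.commutes]; rfl
    rw [h1, map_mul, map_pow, h2, Finsupp.degree_single]
    have h3 : Gam (X i : MvPolynomial σ K) = Polynomial.X * Polynomial.C (X i) := by simp [Gam]
    rw [h3, mul_pow, ← Polynomial.C_mul_X_pow_eq_monomial, Polynomial.C_mul, Polynomial.C_pow]
    ring

lemma Gam_coeff (f : MvPolynomial σ K) (n : ℕ) :
    (Gam f).coeff n = homogeneousComponent n f := by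
  classical
  induction f using MvPolynomial.induction_on' with
  | monomial u a =>
    rw [Gam_monomial, Polynomial.coeff_monomial,
      homogeneousComponent_of_mem (isHomogeneous_monomial a rfl)]
    by_cases h : u.degree = n
    · rw [if_pos h, if_pos h.symm]
    · rw [if_neg h, if_neg (Ne.symm h)]
  | add f g hf hg => rw [map_add, Polynomial.coeff_add, hf, hg, map_add]

lemma Gam_form {f : MvPolynomial σ K} {d : ℕ} (hf : f.IsHomogeneous d) :
    Gam f = Polynomial.C f * Polynomial.X ^ d := by
  ext1 n
  rw [Gam_coeff, Polynomial.coeff_C_mul_X_pow, homogeneousComponent_of_mem hf]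

/-- divisors of forms are forms -/
lemma form_of_mul [IsDomain K] {f a b : MvPolynomial σ K} {d : ℕ} (hf : f.IsHomogeneous d)
    (h0 : f ≠ 0) (hab : f = a * b) :
    ∃ i j : ℕ, a.IsHomogeneous i ∧ b.IsHomogeneous j ∧ i + j = d := by
  have ha0 : a ≠ 0 := by rintro rfl; exact h0 (by rw [hab, zero_mul])
  have hb0 : b ≠ 0 := by rintro rfl; exact h0 (by rw [hab, mul_zero])
  have hinj : Function.Injective (Gam : MvPolynomial σ K →ₐ[K] _) := by
    intro u v huv
    ext m
    have h1 := congrArg (fun q => coeff m (Polynomial.coeff q m.degree)) huv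
    simp only [Gam_coeff, coeff_homogeneousComponent, if_pos] at h1
    exact h1
  have hGa : Gam a ≠ 0 := fun h => ha0 (hinj (by rw [h, map_zero]))
  have hGb : Gam b ≠ 0 := fun h => hb0 (hinj (by rw [h, map_zero]))
  have h1 : Gam a * Gam b = Polynomial.C f * Polynomial.X ^ d := by
    rw [← map_mul, ← hab, Gam_form hf]
  have h2 : (Gam a).natDegree + (Gam b).natDegree = d := by
    rw [← Polynomial.natDegree_mul hGa hGb, h1, Polynomial.natDegree_C_mul_X_pow _ _ h0]
  have h3 : (Gam a).natTrailingDegree + (Gam b).natTrailingDegree = d := by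
    rw [← Polynomial.natTrailingDegree_mul hGa hGb, h1, Polynomial.C_mul_X_pow_eq_monomial,
      Polynomial.natTrailingDegree_monomial h0]
  have h4 := Polynomial.natTrailingDegree_le_natDegree (Gam a)
  have h5 := Polynomial.natTrailingDegree_le_natDegree (Gam b)
  have key : ∀ c : MvPolynomial σ K, (Gam c).natTrailingDegree = (Gam c).natDegree →
      c.IsHomogeneous (Gam c).natDegree := by
    intro c hc
    have h6 : ∀ n, n ≠ (Gam c).natDegree → homogeneousComponent n c = 0 := by
      intro n hn
      rw [← Gam_coeff]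
      rcases lt_or_gt_of_ne hn with h | h
      · exact Polynomial.coeff_eq_zero_of_lt_natTrailingDegree (by omega)
      · exact Polynomial.coeff_eq_zero_of_natDegree_lt h
    rw [← sum_homogeneousComponent c]
    have h7 : ∀ i ∈ Finset.range (c.totalDegree + 1), (homogeneousComponent i c).IsHomogeneous
        (Gam c).natDegree := by
      intro i _
      by_cases hi : i = (Gam c).natDegree
      · rw [← hi]; exact homogeneousComponent_isHomogeneous _ _
      · rw [h6 i hi]; exact isHomogeneous_zero _ _ _
    have h8 := IsHomogeneous.sum (Finset.range (c.totalDegree + 1))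
      (fun i => homogeneousComponent i c) _ h7
    rwa [sum_homogeneousComponent c] at h8 ⊢
  refine ⟨_, _, key a (by omega), key b (by omega), h2⟩

end forms

end Pool.Agent.Helper30.TP

end

section

/-!
# Points of a plane curve which impose independent conditions
-/

set_option autoImplicit false

namespace Pool.Agent.Helper30.TP

open MvPolynomial

variable {K : Type} [Field K]

theorem finrank_forms (K : Type) [Field K] (m : ℕ) :
    FiniteDimensional K (homogeneousSubmodule (Fin 3) K m) ∧
      Module.finrank K (homogeneousSubmodule (Fin 3) K m) = (m + 2).choose 2 := by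
  classical
  let b : (Finset.finsuppAntidiag (Finset.univ : Finset (Fin 3)) m) → MvPolynomial (Fin 3) K :=
    fun e => monomial e.1 1
  have hb : LinearIndependent K b :=
    (basisMonomials (Fin 3) K).linearIndependent.comp _ Subtype.val_injective
  have hs : Submodule.span K (Set.range b) = homogeneousSubmodule (Fin 3) K m := by
    apply le_antisymm
    · rw [Submodule.span_le]
      rintro _ ⟨e, rfl⟩
      refine (mem_homogeneousSubmodule _ _).2 (isHomogeneous_monomial _ ?_)
      have := (Finset.mem_finsuppAntidiag.1 e.2).1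
      rw [Finsupp.degree_eq_sum]
      exact this
    · intro p hp
      rw [p.as_sum]
      refine Submodule.sum_mem _ fun e he => ?_
      have h1 : (monomial e (coeff e p) : MvPolynomial (Fin 3) K) =
          coeff e p • monomial e 1 := by
        rw [smul_monomial, smul_eq_mul, mul_one]
      rw [h1]
      refine Submodule.smul_mem _ _ (Submodule.subset_span ⟨⟨e, ?_⟩, rfl⟩)
      rw [Finset.mem_finsuppAntidiag]
      refine ⟨?_, Finset.subset_univ _⟩
      have h2 : e.degree = m := by
        by_contra hc
        exact (mem_support_iff.1 he) (((mem_homogeneousSubmodule _ _).1 hp).coeff_eq_zero hc)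
      rw [← h2, Finsupp.degree_eq_sum]
  refine ⟨?_, ?_⟩
  · rw [← hs]
    exact FiniteDimensional.span_of_finite K (Set.finite_range b)
  · rw [← hs, finrank_span_eq_card hb, Fintype.card_coe,
      Finset.card_finsuppAntidiag_nat_eq_choose, Finset.card_univ, Fintype.card_fin,
      show 3 + m - 1 = m + 2 by omega]
    exact Nat.choose_symm_add

/-- evaluation of forms at a point -/
noncomputable def dimEv (x : Fin 3 → K) (m : ℕ) :
    Module.Dual K (homogeneousSubmodule (Fin 3) K m) :=
  (aeval x : MvPolynomial (Fin 3) K →ₐ[K] K).toLinearMap ∘ₗ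
    (homogeneousSubmodule (Fin 3) K m).subtype

theorem dimEv_apply (x : Fin 3 → K) (m : ℕ) (P : homogeneousSubmodule (Fin 3) K m) :
    dimEv x m P = eval x (P : MvPolynomial (Fin 3) K) := by
  show aeval x (P : MvPolynomial (Fin 3) K) = _
  rw [← MvPolynomial.coe_aeval_eq_eval]
  rfl

/-- independent functionals take arbitrary values -/
theorem dim_surj {V κ : Type*} [AddCommGroup V] [Module K V] [Fintype κ]
    (f : κ → Module.Dual K V) (hf : LinearIndependent K f) :
    Function.Surjective (LinearMap.pi f : V →ₗ[K] κ → K) := by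
  classical
  rw [← LinearMap.range_eq_top]
  by_contra hne
  obtain ⟨g, hg0, hg⟩ := Submodule.exists_le_ker_of_lt_top _ (lt_top_iff_ne_top.2 hne)
  apply hg0
  have h1 : ∑ j, g (Pi.single j 1) • f j = 0 := by
    ext P
    have h2 : g (LinearMap.pi f P) = 0 := hg ⟨P, rfl⟩
    have h3 : (LinearMap.pi f P : κ → K) = ∑ j, f j P • (Pi.single j (1 : K) : κ → K) := by
      ext i
      simp [Finset.sum_apply, Pi.single_apply]
    rw [h3, map_sum] at h2
    simp only [map_smul, smul_eq_mul] at h2
    rw [LinearMap.sum_apply, LinearMap.zero_apply]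
    simp only [LinearMap.smul_apply, smul_eq_mul]
    rw [← h2]
    exact Finset.sum_congr rfl fun j _ => mul_comm _ _
  have h4 := Fintype.linearIndependent_iff.1 hf _ h1
  apply LinearMap.pi_ext'
  intro j
  ext
  simpa using h4 j

/-- The infinitely many points `x n`, `n ∈ S`, lie on the irreducible curve `g = 0` of degree `D`.
There are finitely many of them which impose the same conditions as all of them on the forms of
degree `m`, and impose independent conditions. -/
theorem exists_basis_points {x : ℕ → Fin 3 → K} {S : Set ℕ} (hS : S.Infinite)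
    (hx : ∀ n ∈ S, x n ≠ 0) (hnp : ∀ n ∈ S, ∀ n' ∈ S, n ≠ n' → ¬ PEq (x n) (x n'))
    {g : MvPolynomial (Fin 3) K} {D : ℕ} (hg : g.IsHomogeneous D) (hirr : Irreducible g)
    (hgx : ∀ n ∈ S, eval (x n) g = 0) (m : ℕ) :
    ∃ Γ : Finset ℕ, (↑Γ ⊆ S) ∧
      (∀ P : MvPolynomial (Fin 3) K, P.IsHomogeneous m → (∀ i ∈ Γ, eval (x i) P = 0) → g ∣ P) ∧
      (∀ v : ℕ → K, ∃ P : MvPolynomial (Fin 3) K, P.IsHomogeneous m ∧
        ∀ i ∈ Γ, eval (x i) P = v i) ∧
      (D ≤ m → Γ.card + (m - D + 2).choose 2 = (m + 2).choose 2) := by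
  classical
  obtain ⟨hfin, hdim⟩ := finrank_forms K m
  obtain ⟨κ, a, hainj, haspan, hali⟩ :=
    exists_linearIndependent' K (fun n : S => dimEv (x n) m)
  have hκ : Finite κ := hali.finite
  have : Fintype κ := Fintype.ofFinite κ
  have hinj : Function.Injective fun j => (a j : ℕ) := Subtype.val_injective.comp hainj
  -- vanishing at the chosen points
  have key : ∀ P : MvPolynomial (Fin 3) K, P.IsHomogeneous m →
      (∀ j, eval (x (a j)) P = 0) → g ∣ P := by
    intro P hP h0
    by_contra hnd
    have h1 : ∀ n ∈ S, eval (x n) P = 0 := by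
      intro n hn
      have h2 : dimEv (x n) m ∈ Submodule.span K
          (Set.range ((fun n : S => dimEv (x n) m) ∘ a)) := by
        rw [haspan]
        exact Submodule.subset_span ⟨⟨n, hn⟩, rfl⟩
      have h3 : ∀ f ∈ Submodule.span K (Set.range ((fun n : S => dimEv (x n) m) ∘ a)),
          f ⟨P, (mem_homogeneousSubmodule _ _).2 hP⟩ = 0 := by
        intro f hf
        induction hf using Submodule.span_induction with
        | mem f hf =>
          obtain ⟨j, rfl⟩ := hf
          rw [Function.comp_apply, dimEv_apply]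
          exact h0 j
        | zero => rfl
        | add f f' _ _ h h' => rw [LinearMap.add_apply, h, h', add_zero]
        | smul c f _ h => rw [LinearMap.smul_apply, h, smul_zero]
      have h4 := h3 _ h2
      rwa [dimEv_apply] at h4
    have h5 := finite_common_zeros hg hP hirr hnd (fun n : S => x n) (fun n => hx n n.2)
      (fun i j hij => hnp i i.2 j j.2 fun h => hij (Subtype.ext h))
    have h6 : {i : S | eval (x i) g = 0 ∧ eval (x i) P = 0} = Set.univ := by
      ext i
      simp only [Set.mem_ofPred_eq, Set.mem_univ, iff_true]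
      exact ⟨hgx i i.2, h1 i i.2⟩
    rw [h6] at h5
    exact hS (Set.finite_coe_iff.1 (Set.finite_univ_iff.1 h5))
  have hsurj := dim_surj _ hali
  refine ⟨Finset.univ.image fun j => (a j : ℕ), ?_, ?_, ?_, ?_⟩
  · intro n hn
    simp only [Finset.coe_image, Finset.coe_univ, Set.image_univ, Set.mem_range] at hn
    obtain ⟨j, rfl⟩ := hn
    exact (a j).2
  · intro P hP h0
    exact key P hP fun j => h0 _ (Finset.mem_image_of_mem _ (Finset.mem_univ j))
  · intro v
    obtain ⟨P, hP⟩ := hsurj fun j => v (a j)
    refine ⟨P, (mem_homogeneousSubmodule _ _).1 P.2, ?_⟩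
    intro i hi
    obtain ⟨j, -, rfl⟩ := Finset.mem_image.1 hi
    have h1 := congrFun hP j
    rwa [LinearMap.pi_apply, Function.comp_apply, dimEv_apply] at h1
  · intro hDm
    rw [Finset.card_image_of_injective _ hinj, Finset.card_univ]
    obtain ⟨hfin', hdim'⟩ := finrank_forms K (m - D)
    -- multiplication by `g`
    let ψ : homogeneousSubmodule (Fin 3) K (m - D) →ₗ[K] homogeneousSubmodule (Fin 3) K m :=
      { toFun := fun Q => ⟨g * Q, (mem_homogeneousSubmodule _ _).2 (by
          have := hg.mul ((mem_homogeneousSubmodule _ _).1 Q.2)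
          rwa [show D + (m - D) = m by omega] at this)⟩
        map_add' := fun Q Q' => Subtype.ext (by
          simp only [Submodule.coe_add]
          ring)
        map_smul' := fun c Q => Subtype.ext (by
          simp only [Submodule.coe_smul, RingHom.id_apply, mul_smul_comm]) }
    have hψ : Function.Injective ψ := by
      intro Q Q' h
      have h1 : g * (Q : MvPolynomial (Fin 3) K) = g * Q' := congrArg Subtype.val h
      exact Subtype.ext (mul_left_cancel₀ hirr.ne_zero h1)
    have hker : LinearMap.ker (LinearMap.pi ((fun n : S => dimEv (x n) m) ∘ a)) =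
        LinearMap.range ψ := by
      apply le_antisymm
      · intro P hP
        rw [LinearMap.mem_ker] at hP
        obtain ⟨q, hq⟩ := key P ((mem_homogeneousSubmodule _ _).1 P.2) (by
          intro j
          have h1 := congrFun hP j
          rwa [LinearMap.pi_apply, Function.comp_apply, dimEv_apply] at h1)
        by_cases hP0 : (P : MvPolynomial (Fin 3) K) = 0
        · have : P = 0 := Subtype.ext hP0
          rw [this]
          exact Submodule.zero_mem _
        · obtain ⟨i, j, hi, hj, hij⟩ := form_of_mul ((mem_homogeneousSubmodule _ _).1 P.2) hP0 hq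
          have h2 : i = D := hi.inj_right hg hirr.ne_zero
          refine ⟨⟨q, (mem_homogeneousSubmodule _ _).2 ?_⟩, Subtype.ext hq.symm⟩
          rwa [show m - D = j by omega]
      · rintro _ ⟨Q, rfl⟩
        rw [LinearMap.mem_ker]
        funext j
        rw [LinearMap.pi_apply, Function.comp_apply, dimEv_apply]
        show eval (x (a j)) (g * (Q : MvPolynomial (Fin 3) K)) = 0
        rw [map_mul, hgx _ (a j).2, zero_mul]
    have h1 := LinearMap.finrank_range_add_finrank_ker
      (LinearMap.pi ((fun n : S => dimEv (x n) m) ∘ a))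
    rw [hker, LinearMap.finrank_range_of_inj hψ, LinearMap.range_eq_top.2 hsurj, finrank_top,
      Module.finrank_fintype_fun_eq_card, hdim, hdim'] at h1
    exact h1

end Pool.Agent.Helper30.TP

end
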