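import Mathlib.LinearAlgebra.CrossProduct
import Mathlib
import Pool.Agent.Helper72.TM2.T05

section

namespace Pool.Agent.Helper16
end Pool.Agent.Helper16
namespace Pool.Agent.Helper36
end Pool.Agent.Helper36

/-!
# Basic facts
-/

set_option autoImplicit false

namespace Pool.Agent.Helper30.TP

open MvPolynomial

open Pool.Agent.Helper16 (Place IsFunctionField)

open Pool.Agent.Helper36 (step iter iter_zero iter_succ iter_succ' iter_add iter_map aeval_smul_homogeneous exists_nullstellensatz)

section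

variable {k L : Type} [Field k] [Field L] [Algebra k L]

omit [Algebra k L] in
theorem PEq.refl (x : Fin 3 → L) : PEq x x := ⟨1, one_ne_zero, by simp⟩

theorem eval_smul_hom {P : MvPolynomial (Fin 3) L} {e : ℕ} (hP : P.IsHomogeneous e) (c : L)
    (x : Fin 3 → L) : eval (c • x) P = c ^ e * eval x P := by
  have h := aeval_smul_homogeneous hP c x
  have h1 := congrArg (fun φ => φ P) (coe_aeval_eq_eval (c • x))
  have h2 := congrArg (fun φ => φ P) (coe_aeval_eq_eval x)
  exact h1.symm.trans (h.trans (congrArg (fun a => c ^ e * a) h2))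

end

section

variable {k K : Type} [Field k] [Field K] [Algebra k K]

end

end Pool.Agent.Helper30.TP

end

section

namespace Pool.Agent.Helper16
end Pool.Agent.Helper16
namespace Pool.Agent.Helper36
end Pool.Agent.Helper36

/-!
# Function fields generated by complex points
-/

set_option autoImplicit false

namespace Pool.Agent.Helper30.TP

open MvPolynomial

open Pool.Agent.Helper16 (Place IsFunctionField)

open Pool.Agent.Helper36 (step iter)

/-- Algebraic elements over an algebraically closed field are constants. -/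
theorem emb_mem_range {k L : Type} [Field k] [IsAlgClosed k] [Field L] [Algebra k L] {t : L}
    (ht : IsAlgebraic k t) : ∃ c : k, algebraMap k L c = t :=
  minpoly.mem_range_of_degree_eq_one k t
    (IsAlgClosed.degree_eq_one_of_irreducible k (minpoly.irreducible ht.isIntegral))

theorem emb_adjoin_top {k L : Type} [Field k] [Field L] [Algebra k L] (s : Set L) :
    IntermediateField.adjoin k (Subtype.val ⁻¹' s : Set (IntermediateField.adjoin k s)) = ⊤ := by
  apply IntermediateField.lift_injective
  rw [IntermediateField.lift_adjoin, IntermediateField.lift_top, Set.image_preimage_eq_of_subset]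
  intro a ha
  exact ⟨⟨a, IntermediateField.subset_adjoin k s ha⟩, rfl⟩

theorem emb_isAlgebraic {k L : Type} [Field k] [Field L] [Algebra k L] (s : Set L) :
    Algebra.IsAlgebraic
      (Algebra.adjoin k (Subtype.val ⁻¹' s : Set (IntermediateField.adjoin k s)))
      (IntermediateField.adjoin k s) := by
  rw [← IntermediateField.isAlgebraic_adjoin_iff_top, emb_adjoin_top]
  refine ⟨fun a => ?_⟩
  exact isAlgebraic_algebraMap (R := (⊤ : IntermediateField k (IntermediateField.adjoin k s)))
    (A := IntermediateField.adjoin k s) ⟨a, trivial⟩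

theorem emb_trdeg_le {k L : Type} [Field k] [Field L] [Algebra k L] (s : Set L) :
    Algebra.trdeg k (IntermediateField.adjoin k s) ≤ Cardinal.mk s := by
  have := emb_isAlgebraic (k := k) s
  refine (Algebra.IsAlgebraic.trdeg_le_cardinalMk k
    (Subtype.val ⁻¹' s : Set (IntermediateField.adjoin k s))).trans ?_
  exact Cardinal.mk_preimage_of_injective _ _ Subtype.val_injective

end Pool.Agent.Helper30.TP

end

section

namespace Pool.Agent.Helper16
end Pool.Agent.Helper16
namespace Pool.Agent.Helper36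
end Pool.Agent.Helper36

/-!
# Heights and reduction of points
-/

set_option autoImplicit false

namespace Pool.Agent.Helper30.TP

open MvPolynomial

open Pool.Agent.Helper16 (Place IsFunctionField)

open Pool.Agent.Helper36 (step iter)

theorem exists_residue {k K : Type} [Field k] [IsAlgClosed k] [Field K] [Algebra k K]
    (hK : IsFunctionField k K) (b : Place k K) (u : K) (hu : b.val u ≤ 1) :
    ∃ c : k, b.val (u - algebraMap k K c) < 1 := by
  haveI := b.finite_resField hK
  obtain ⟨c, hc⟩ := (IsAlgClosed.algebraMap_bijective_of_isIntegral (k := k)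
    (K := b.resField)).2 (b.res u)
  refine ⟨c, ?_⟩
  have h1 : u ∈ b.ring := hu
  have h2 : algebraMap k K c ∈ b.ring := b.ring.algebraMap_mem c
  rw [← b.res_eq_zero_iff (sub_mem h1 h2), b.res_sub h1 h2, b.res_algebraMap, hc, sub_self]

theorem deg_eq_one {k K : Type} [Field k] [IsAlgClosed k] [Field K] [Algebra k K]
    (hK : IsFunctionField k K) (b : Place k K) : b.deg = 1 := by
  haveI := b.finite_resField hK
  have h := IsAlgClosed.algebraMap_bijective_of_isIntegral (k := k) (K := b.resField)
  have e : k ≃ₗ[k] b.resField :=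
    LinearEquiv.ofBijective (Algebra.linearMap k b.resField) h
  have := e.finrank_eq
  rw [Module.finrank_self] at this
  exact this.symm

theorem finsum_log {k K : Type} [Field k] [IsAlgClosed k] [Field K] [Algebra k K]
    (hK : IsFunctionField k K) (f : K) (hf : f ≠ 0) :
    (Function.support fun b : Place k K => WithZero.log (b.val f)).Finite ∧
      ∑ᶠ b : Place k K, WithZero.log (b.val f) = 0 := by
  obtain ⟨S, h1, h2⟩ := hK.product_formula f
  have h3 : Function.support (fun b : Place k K => WithZero.log (b.val f)) ⊆ (S : Set (Place k K)) := by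
    intro b hb
    rw [Finset.mem_coe, h1]
    intro h
    apply hb
    have : -WithZero.log (b.val f) = 0 := h
    show WithZero.log (b.val f) = 0
    omega
  refine ⟨S.finite_toSet.subset h3, ?_⟩
  rw [finsum_eq_sum_of_support_subset _ h3]
  have h4 : ∀ v ∈ S, v.ord f * (v.deg : ℤ) = - WithZero.log (v.val f) := by
    intro v _
    rw [deg_eq_one hK v]
    show -WithZero.log (v.val f) * _ = _
    simp
  rw [Finset.sum_congr rfl h4, Finset.sum_neg_distrib] at h2
  omega

section nrm

variable {k K : Type} [Field k] [Field K] [Algebra k K]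

theorem val_le_nrm (b : Place k K) (x : Fin 3 → K) (i : Fin 3) : b.val (x i) ≤ nrm b x :=
  Finset.le_sup (f := fun i => b.val (x i)) (Finset.mem_univ i)

theorem nrm_le {b : Place k K} {x : Fin 3 → K} {a : WithZero (Multiplicative ℤ)}
    (h : ∀ i, b.val (x i) ≤ a) : nrm b x ≤ a :=
  Finset.sup_le fun i _ => h i

theorem exists_val_eq_nrm (b : Place k K) (x : Fin 3 → K) : ∃ i, b.val (x i) = nrm b x := by
  obtain ⟨i, -, hi⟩ := Finset.exists_mem_eq_sup (Finset.univ : Finset (Fin 3))
    Finset.univ_nonempty (fun i => b.val (x i))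
  exact ⟨i, hi.symm⟩

theorem nrm_ne_zero {b : Place k K} {x : Fin 3 → K} (hx : x ≠ 0) : nrm b x ≠ 0 := by
  intro h
  apply hx
  funext i
  have := val_le_nrm b x i
  rw [h, le_zero_iff] at this
  simpa using this

theorem nrm_smul (b : Place k K) (c : K) (x : Fin 3 → K) : nrm b (c • x) = b.val c * nrm b x := by
  refine le_antisymm (nrm_le fun i => ?_) ?_
  · rw [Pi.smul_apply, smul_eq_mul, map_mul]
    exact mul_le_mul_right (val_le_nrm b x i) _
  · obtain ⟨i, hi⟩ := exists_val_eq_nrm b x
    rw [← hi, ← map_mul]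
    exact val_le_nrm b (c • x) i

theorem log_nrm_smul (b : Place k K) {c : K} (hc : c ≠ 0) {x : Fin 3 → K} (hx : x ≠ 0) :
    WithZero.log (nrm b (c • x)) = WithZero.log (b.val c) + WithZero.log (nrm b x) := by
  rw [nrm_smul, WithZero.log_mul (by simpa using hc) (nrm_ne_zero hx)]

end nrm

theorem nrm_support {k K : Type} [Field k] [IsAlgClosed k] [Field K] [Algebra k K]
    (hK : IsFunctionField k K) (x : Fin 3 → K) (hx : x ≠ 0) :
    (Function.support fun b : Place k K => WithZero.log (nrm b x)).Finite := by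
  classical
  have h1 : ∀ i : Fin 3, x i ≠ 0 →
      (Function.support fun b : Place k K => WithZero.log (b.val (x i))).Finite :=
    fun i hi => (finsum_log hK (x i) hi).1
  have h2 : (⋃ i ∈ (Finset.univ.filter fun i => x i ≠ 0),
      Function.support fun b : Place k K => WithZero.log (b.val (x i))).Finite := by
    refine Set.Finite.biUnion (Finset.finite_toSet _) fun i hi => h1 i ?_
    simpa using hi
  refine h2.subset ?_
  intro b hb
  by_contra h3
  apply hb
  obtain ⟨i, hi⟩ := exists_val_eq_nrm b x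
  show WithZero.log (nrm b x) = 0
  by_contra h4
  apply h3
  simp only [Finset.mem_filter, Finset.mem_univ, true_and, Set.mem_iUnion,
    Function.mem_support]
  refine ⟨i, ?_, ?_⟩
  · intro h0
    apply nrm_ne_zero (b := b) hx
    rw [← hi, h0, map_zero]
  · rw [hi]; exact h4

theorem ht_smul {k K : Type} [Field k] [IsAlgClosed k] [Field K] [Algebra k K]
    (hK : IsFunctionField k K) {c : K} (hc : c ≠ 0) {x : Fin 3 → K} (hx : x ≠ 0) :
    ht k (c • x) = ht k x := by
  unfold ht
  rw [finsum_congr fun b : Place k K => log_nrm_smul b hc hx,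
    finsum_add_distrib (finsum_log hK c hc).1 (nrm_support hK x hx), (finsum_log hK c hc).2,
    zero_add]

end Pool.Agent.Helper30.TP

end

section

namespace Pool.Agent.Helper16
end Pool.Agent.Helper16
namespace Pool.Agent.Helper36
end Pool.Agent.Helper36

/-!
# Heights of forms
-/

set_option autoImplicit false

namespace Pool.Agent.Helper30.TP

open MvPolynomial

open Pool.Agent.Helper16 (Place IsFunctionField)

open Pool.Agent.Helper36 (step iter)

section

variable {k K : Type} [Field k] [Field K] [Algebra k K]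

theorem formHeight_le (b : Place k K) (P : MvPolynomial (Fin 3) K) (m : Fin 3 →₀ ℕ) :
    b.val (P.coeff m) ≤ gs b P := by
  by_cases h : m ∈ P.support
  · exact Finset.le_sup (f := fun m => b.val (P.coeff m)) h
  · rw [notMem_support_iff.1 h, map_zero]
    exact zero_le

theorem formHeight_gs_le {b : Place k K} {P : MvPolynomial (Fin 3) K}
    {c : WithZero (Multiplicative ℤ)} (h : ∀ m, b.val (P.coeff m) ≤ c) : gs b P ≤ c :=
  Finset.sup_le fun m _ => h m

theorem formHeight_exists {b : Place k K} {P : MvPolynomial (Fin 3) K} (hP : P ≠ 0) :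
    ∃ m, P.coeff m ≠ 0 ∧ gs b P = b.val (P.coeff m) := by
  obtain ⟨m, hm, h⟩ := Finset.exists_mem_eq_sup P.support (support_nonempty.2 hP)
    (fun m => b.val (P.coeff m))
  exact ⟨m, mem_support_iff.1 hm, h⟩

theorem formHeight_pos {b : Place k K} {P : MvPolynomial (Fin 3) K} (hP : P ≠ 0) :
    0 < gs b P := by
  obtain ⟨m, hm, h⟩ := formHeight_exists (b := b) hP
  rw [h]
  exact zero_lt_iff.2 (by simpa using hm)

theorem formHeight_zero (b : Place k K) : gs b (0 : MvPolynomial (Fin 3) K) = 0 := by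
  unfold gs
  rw [support_zero, Finset.sup_empty]
  rfl

theorem formHeight_mul_le (b : Place k K) (P Q : MvPolynomial (Fin 3) K) :
    gs b (P * Q) ≤ gs b P * gs b Q := by
  classical
  refine formHeight_gs_le fun m => ?_
  rw [coeff_mul]
  refine b.val.map_sum_le fun x _ => ?_
  rw [map_mul]
  exact mul_le_mul' (formHeight_le b P _) (formHeight_le b Q _)

end

theorem formHeight_support {k K : Type} [Field k] [IsAlgClosed k] [Field K] [Algebra k K]
    (hK : IsFunctionField k K) {P : MvPolynomial (Fin 3) K} (hP : P ≠ 0) :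
    (Function.support fun b : Place k K => WithZero.log (gs b P)).Finite := by
  classical
  have h1 : (⋃ m ∈ P.support,
      Function.support fun b : Place k K => WithZero.log (b.val (P.coeff m))).Finite :=
    Set.Finite.biUnion (Finset.finite_toSet _)
      fun m hm => (finsum_log hK _ (mem_support_iff.1 hm)).1
  refine h1.subset fun b hb => ?_
  obtain ⟨m, hm, h⟩ := formHeight_exists (b := b) hP
  simp only [Set.mem_iUnion]
  refine ⟨m, mem_support_iff.2 hm, ?_⟩
  rw [Function.mem_support] at hb ⊢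
  rwa [← h]

end Pool.Agent.Helper30.TP

end

section

/-!
# Castelnuovo's lemma
-/

set_option autoImplicit false

namespace Pool.Agent.Helper30.TP

open MvPolynomial

variable {K : Type} [Field K]

/-- The points `x i`, `i ∈ Γ`, impose independent conditions on the forms of degree `m`. -/
def Indep (x : ℕ → Fin 3 → K) (Γ : Finset ℕ) (m : ℕ) : Prop :=
  ∀ v : ℕ → K, ∃ P : MvPolynomial (Fin 3) K, P.IsHomogeneous m ∧ ∀ i ∈ Γ, eval (x i) P = v i

theorem exists_linear_ne [Infinite K] {x : ℕ → Fin 3 → K} {Γ : Finset ℕ}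
    (hx : ∀ i ∈ Γ, x i ≠ 0) :
    ∃ ℓ : MvPolynomial (Fin 3) K, ℓ.IsHomogeneous 1 ∧ ∀ i ∈ Γ, eval (x i) ℓ ≠ 0 := by
  classical
  set p : ℕ → Polynomial K := fun i => Polynomial.C (x i 0) + Polynomial.C (x i 1) * Polynomial.X +
    Polynomial.C (x i 2) * Polynomial.X ^ 2 with hp
  have h1 : ∏ i ∈ Γ, p i ≠ 0 := by
    rw [Finset.prod_ne_zero_iff]
    intro i hi h
    apply hx i hi
    have h0 := congrArg (fun q => Polynomial.coeff q 0) h
    have h1 := congrArg (fun q => Polynomial.coeff q 1) h
    have h2 := congrArg (fun q => Polynomial.coeff q 2) h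
    simp [hp, Polynomial.coeff_X, Polynomial.coeff_C, Polynomial.coeff_X_pow] at h0 h1 h2
    funext j
    fin_cases j
    · simpa using h0
    · simpa using h1
    · simpa using h2
  obtain ⟨t, ht⟩ : ∃ t : K, Polynomial.eval t (∏ i ∈ Γ, p i) ≠ 0 := by
    by_contra h
    push Not at h
    exact h1 (Polynomial.funext fun t => by rw [h t, Polynomial.eval_zero])
  rw [Polynomial.eval_prod, Finset.prod_ne_zero_iff] at ht
  refine ⟨X 0 + C t * X 1 + C (t ^ 2) * X 2, ?_, fun i hi => ?_⟩
  · exact ((isHomogeneous_X _ _).add (isHomogeneous_C_mul_X _ _)).add (isHomogeneous_C_mul_X _ _)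
  · have h3 := ht i hi
    intro h4
    apply h3
    simp only [hp, Polynomial.eval_add, Polynomial.eval_mul, Polynomial.eval_C, Polynomial.eval_X,
      Polynomial.eval_pow]
    simp only [map_add, map_mul, eval_X, eval_C] at h4
    linear_combination h4

theorem Indep.mono [Infinite K] {x : ℕ → Fin 3 → K} {Γ : Finset ℕ} (hx : ∀ i ∈ Γ, x i ≠ 0)
    {m m' : ℕ} (h : Indep x Γ m) (hm : m ≤ m') : Indep x Γ m' := by
  obtain ⟨ℓ, h1, h2⟩ := exists_linear_ne hx
  intro v
  obtain ⟨P, h3, h4⟩ := h fun i => v i / (eval (x i) ℓ) ^ (m' - m)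
  refine ⟨P * ℓ ^ (m' - m), ?_, fun i hi => ?_⟩
  · have h5 := h3.mul (h1.pow (m' - m))
    rwa [one_mul, Nat.add_sub_of_le hm] at h5
  · rw [map_mul, map_pow, h4 i hi, div_mul_cancel₀ _ (pow_ne_zero _ (h2 i hi))]

/-- a form of positive degree is a combination of the variables -/
private theorem form_decomp {n : ℕ} {T : MvPolynomial (Fin 3) K} (hT : T.IsHomogeneous (n + 1)) :
    ∃ S : Fin 3 → MvPolynomial (Fin 3) K, (∀ j, (S j).IsHomogeneous n) ∧ T = ∑ j, X j * S j := by
  classical
  have hmain : ∀ d ∈ T.support, ∃ j : Fin 3, d j ≠ 0 := by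
    intro d hd
    by_contra h
    push Not at h
    have h1 := hT.coeff_eq_zero (d := d) (by
      have : d = 0 := Finsupp.ext h
      rw [this]
      simp)
    exact (mem_support_iff.1 hd) h1
  choose! J hJ using hmain
  refine ⟨fun j => ∑ d ∈ T.support with J d = j, monomial (d - Finsupp.single j 1) (coeff d T),
    fun j => ?_, ?_⟩
  · refine IsHomogeneous.sum _ _ _ fun d hd => ?_
    rw [Finset.mem_filter] at hd
    have h2 := hJ d hd.1
    rw [hd.2] at h2
    refine isHomogeneous_monomial _ ?_
    have h3 : d.degree = n + 1 := by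
      by_contra h4
      exact (mem_support_iff.1 hd.1) (hT.coeff_eq_zero h4)
    have h5 : d - Finsupp.single j 1 + Finsupp.single j 1 = d := by
      refine tsub_add_cancel_of_le ?_
      rw [Finsupp.single_le_iff]
      omega
    have h6 := congrArg Finsupp.degree h5
    rw [map_add, Finsupp.degree_single, h3] at h6
    omega
  · have h7 : ∀ j : Fin 3, X j * ∑ d ∈ T.support with J d = j,
        monomial (d - Finsupp.single j 1) (coeff d T) =
        ∑ d ∈ T.support with J d = j, monomial d (coeff d T) := by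
      intro j
      rw [Finset.mul_sum]
      refine Finset.sum_congr rfl fun d hd => ?_
      rw [Finset.mem_filter] at hd
      have h2 := hJ d hd.1
      rw [hd.2] at h2
      rw [show (X j : MvPolynomial (Fin 3) K) = monomial (Finsupp.single j 1) 1 from rfl,
        monomial_mul, one_mul, add_tsub_cancel_of_le]
      rw [Finsupp.single_le_iff]
      omega
    simp only [h7]
    rw [Finset.sum_fiberwise_of_maps_to (fun _ _ => Finset.mem_univ _)]
    exact T.as_sum

/-- Castelnuovo's lemma. -/
theorem castelnuovo [Infinite K] {x : ℕ → Fin 3 → K} {Γ : Finset ℕ} (hx : ∀ i ∈ Γ, x i ≠ 0)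
    {m : ℕ} (h : Indep x Γ m) (t : ℕ) (T : MvPolynomial (Fin 3) K)
    (hT : T.IsHomogeneous (m + 1 + t)) (hTΓ : ∀ i ∈ Γ, eval (x i) T = 0) :
    T ∈ Ideal.span {G : MvPolynomial (Fin 3) K | G.IsHomogeneous (m + 1) ∧
      ∀ i ∈ Γ, eval (x i) G = 0} := by
  induction t generalizing T with
  | zero => exact Ideal.subset_span ⟨hT, hTΓ⟩
  | succ t ih =>
    obtain ⟨ℓ, h1, h2⟩ := exists_linear_ne hx
    obtain ⟨S, h3, h4⟩ := form_decomp (n := m + 1 + t) hT
    have h5 : ∀ j : Fin 3, ∃ q : MvPolynomial (Fin 3) K, q.IsHomogeneous (m + t) ∧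
        ∀ i ∈ Γ, eval (x i) q = eval (x i) (S j) / eval (x i) ℓ := fun j =>
      Indep.mono hx h (Nat.le_add_right m t) fun i => eval (x i) (S j) / eval (x i) ℓ
    choose q h6 h7 using h5
    have h8 : ∀ j, S j - ℓ * q j ∈ Ideal.span {G : MvPolynomial (Fin 3) K |
        G.IsHomogeneous (m + 1) ∧ ∀ i ∈ Γ, eval (x i) G = 0} := by
      intro j
      refine ih _ ?_ fun i hi => ?_
      · refine (h3 j).sub ?_
        have h9 := h1.mul (h6 j)
        rwa [show 1 + (m + t) = m + 1 + t by omega] at h9
      · rw [map_sub, map_mul, h7 j i hi, mul_div_cancel₀ _ (h2 i hi), sub_self]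
    have h10 : ∑ j, X j * q j ∈ Ideal.span {G : MvPolynomial (Fin 3) K |
        G.IsHomogeneous (m + 1) ∧ ∀ i ∈ Γ, eval (x i) G = 0} := by
      refine ih _ ?_ fun i hi => ?_
      · refine IsHomogeneous.sum _ _ _ fun j _ => ?_
        have h9 := (isHomogeneous_X K j).mul (h6 j)
        rwa [show 1 + (m + t) = m + 1 + t by omega] at h9
      · have h11 := hTΓ i hi
        rw [h4, map_sum] at h11
        rw [map_sum]
        have h12 : ∀ j : Fin 3, eval (x i) (X j * q j) =
            eval (x i) (X j * S j) / eval (x i) ℓ := by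
          intro j
          rw [map_mul, map_mul, h7 j i hi, mul_div_assoc]
        simp only [h12]
        rw [← Finset.sum_div, h11, zero_div]
    have h13 : T = ∑ j, X j * (S j - ℓ * q j) + ℓ * ∑ j, X j * q j := by
      rw [h4, Finset.mul_sum, ← Finset.sum_add_distrib]
      refine Finset.sum_congr rfl fun j _ => ?_
      ring
    rw [h13]
    exact Ideal.add_mem _ (Ideal.sum_mem _ fun j _ => Ideal.mul_mem_left _ _ (h8 j))
      (Ideal.mul_mem_left _ _ h10)

end Pool.Agent.Helper30.TP

end

section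

namespace Pool.Agent.Helper16
end Pool.Agent.Helper16
namespace Pool.Agent.Helper36
end Pool.Agent.Helper36

/-!
# The contact of two points at a place
-/

set_option autoImplicit false

namespace Pool.Agent.Helper30.TP

open MvPolynomial

open Pool.Agent.Helper16 (Place IsFunctionField)

open Pool.Agent.Helper36 (step iter)

variable {k K : Type} [Field k] [Field K] [Algebra k K]

/-- The contact of the points `x` and `y` at the place `b`. -/
noncomputable def cl (b : Place k K) (x y : Fin 3 → K) : ℤ :=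
  WithZero.log (nrm b x) + WithZero.log (nrm b y) - WithZero.log (nrm b (crossProduct x y))

theorem Cl_cross_apply {L : Type} [Field L] (x y : Fin 3 → L) :
    crossProduct x y 0 = x 1 * y 2 - x 2 * y 1 ∧ crossProduct x y 1 = x 2 * y 0 - x 0 * y 2 ∧
      crossProduct x y 2 = x 0 * y 1 - x 1 * y 0 := by
  rw [cross_apply]
  exact ⟨rfl, rfl, rfl⟩

theorem Cl_pq {L : Type} [Field L] (x y : Fin 3 → L) (p q : Fin 3) :
    x p * y q - x q * y p = 0 ∨ ∃ i, x p * y q - x q * y p = crossProduct x y i ∨
      x p * y q - x q * y p = - crossProduct x y i := by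
  obtain ⟨h0, h1, h2⟩ := Cl_cross_apply x y
  fin_cases p <;> fin_cases q <;> simp only [Fin.zero_eta, Fin.mk_one, Fin.reduceFinMk]
  · left; ring
  · exact Or.inr ⟨2, Or.inl h2.symm⟩
  · exact Or.inr ⟨1, Or.inr (by rw [h1]; ring)⟩
  · exact Or.inr ⟨2, Or.inr (by rw [h2]; ring)⟩
  · left; ring
  · exact Or.inr ⟨0, Or.inl h0.symm⟩
  · exact Or.inr ⟨1, Or.inl h1.symm⟩
  · exact Or.inr ⟨0, Or.inr (by rw [h0]; ring)⟩
  · left; ring

theorem Cl_cross_eq_zero {L : Type} [Field L] {x y : Fin 3 → L} (h : crossProduct x y = 0)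
    (p q : Fin 3) : x p * y q - x q * y p = 0 := by
  rcases Cl_pq x y p q with h1 | ⟨i, h1 | h1⟩
  · exact h1
  · rw [h1, h]; rfl
  · rw [h1, h]; simp

theorem Cl_peq {L : Type} [Field L] {x y : Fin 3 → L} (hx : x ≠ 0) (hy : y ≠ 0)
    (h : crossProduct x y = 0) : PEq x y := by
  obtain ⟨i0, hi0⟩ : ∃ i, x i ≠ 0 := by
    by_contra hc
    push Not at hc
    exact hx (funext hc)
  have h1 : ∀ j, y j = y i0 / x i0 * x j := by
    intro j
    have h2 := Cl_cross_eq_zero h i0 j
    field_simp
    linear_combination h2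
  refine ⟨y i0 / x i0, ?_, funext h1⟩
  intro h0
  apply hy
  funext j
  rw [h1 j, h0, zero_mul]
  rfl

theorem Cl_symm {L : Type} [Field L] {x y : Fin 3 → L} (h : PEq x y) : PEq y x := by
  obtain ⟨c, hc, rfl⟩ := h
  exact ⟨c⁻¹, inv_ne_zero hc, by rw [smul_smul, inv_mul_cancel₀ hc, one_smul]⟩

omit [Algebra k K] [Field k] in
theorem cross_ne_zero {x y : Fin 3 → K} (hx : x ≠ 0) (hy : y ≠ 0) (h : ¬ PEq x y) :
    crossProduct x y ≠ 0 := fun h0 => h (Cl_peq hx hy h0)

theorem Cl_val_pq (b : Place k K) (x y : Fin 3 → K) (p q : Fin 3) :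
    b.val (x p * y q - x q * y p) ≤ nrm b (crossProduct x y) := by
  rcases Cl_pq x y p q with h1 | ⟨i, h1 | h1⟩
  · rw [h1, map_zero]; exact zero_le
  · rw [h1]; exact val_le_nrm b _ i
  · rw [h1, Valuation.map_neg]; exact val_le_nrm b _ i

theorem Cl_nrm_cross_le (b : Place k K) (x y : Fin 3 → K) :
    nrm b (crossProduct x y) ≤ nrm b x * nrm b y := by
  have key : ∀ p q : Fin 3, b.val (x p * y q - x q * y p) ≤ nrm b x * nrm b y := by
    intro p q
    refine (b.val.map_sub _ _).trans (max_le ?_ ?_)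
    · rw [map_mul]; exact mul_le_mul' (val_le_nrm b x p) (val_le_nrm b y q)
    · rw [map_mul]; exact mul_le_mul' (val_le_nrm b x q) (val_le_nrm b y p)
  obtain ⟨h0, h1, h2⟩ := Cl_cross_apply x y
  refine nrm_le fun i => ?_
  fin_cases i <;> simp only [Fin.zero_eta, Fin.mk_one, Fin.reduceFinMk]
  · rw [h0]; exact key 1 2
  · rw [h1]; exact key 2 0
  · rw [h2]; exact key 0 1

theorem Cl_nrm_neg (b : Place k K) (x : Fin 3 → K) : nrm b (-x) = nrm b x := by
  unfold nrm
  congr 1
  funext i
  rw [Pi.neg_apply, Valuation.map_neg]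

theorem cl_comm (b : Place k K) (x y : Fin 3 → K) : cl b x y = cl b y x := by
  unfold cl
  rw [← cross_anticomm, Cl_nrm_neg]
  ring

theorem cl_nonneg (b : Place k K) {x y : Fin 3 → K} (hx : x ≠ 0) (hy : y ≠ 0) (h : ¬ PEq x y) :
    0 ≤ cl b x y := by
  unfold cl
  have h1 : WithZero.log (nrm b (crossProduct x y)) ≤ WithZero.log (nrm b x * nrm b y) := by
    rw [WithZero.log_le_log (nrm_ne_zero (cross_ne_zero hx hy h))
      (mul_ne_zero (nrm_ne_zero hx) (nrm_ne_zero hy))]
    exact Cl_nrm_cross_le b x y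
  rw [WithZero.log_mul (nrm_ne_zero hx) (nrm_ne_zero hy)] at h1
  omega

theorem Cl_plucker (b : Place k K) (x y z : Fin 3 → K) :
    nrm b y * nrm b (crossProduct x z) ≤
      max (nrm b x * nrm b (crossProduct y z)) (nrm b z * nrm b (crossProduct x y)) := by
  obtain ⟨l, hl⟩ := exists_val_eq_nrm b y
  have key : ∀ p q : Fin 3, b.val (y l * (x p * z q - x q * z p)) ≤
      max (nrm b x * nrm b (crossProduct y z)) (nrm b z * nrm b (crossProduct x y)) := by
    intro p q
    have h1 : y l * (x p * z q - x q * z p) = x l * (y p * z q - y q * z p) +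
        (z q * (x p * y l - x l * y p) - z p * (x q * y l - x l * y q)) := by ring
    rw [h1]
    refine (b.val.map_add _ _).trans (max_le ?_ ?_)
    · refine le_max_of_le_left ?_
      rw [map_mul]
      exact mul_le_mul' (val_le_nrm b x l) (Cl_val_pq b y z p q)
    · refine le_max_of_le_right ?_
      refine (b.val.map_sub _ _).trans (max_le ?_ ?_)
      · rw [map_mul]
        exact mul_le_mul' (val_le_nrm b z q) (Cl_val_pq b x y p l)
      · rw [map_mul]
        exact mul_le_mul' (val_le_nrm b z p) (Cl_val_pq b x y q l)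
  obtain ⟨i, hi⟩ := exists_val_eq_nrm b (crossProduct x z)
  rw [← hl, ← hi, ← map_mul]
  obtain ⟨e0, e1, e2⟩ := Cl_cross_apply x z
  fin_cases i <;> simp only [Fin.zero_eta, Fin.mk_one, Fin.reduceFinMk]
  · rw [e0]; exact key 1 2
  · rw [e1]; exact key 2 0
  · rw [e2]; exact key 0 1

theorem cl_ultra (b : Place k K) {x y z : Fin 3 → K} (hx : x ≠ 0) (hy : y ≠ 0) (hz : z ≠ 0)
    (hxy : ¬ PEq x y) (hyz : ¬ PEq y z) (hxz : ¬ PEq x z) :
    min (cl b x y) (cl b y z) ≤ cl b x z := by
  have h := Cl_plucker b x y z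
  have nx := nrm_ne_zero (b := b) hx
  have ny := nrm_ne_zero (b := b) hy
  have nz := nrm_ne_zero (b := b) hz
  have nxy := nrm_ne_zero (b := b) (cross_ne_zero hx hy hxy)
  have nyz := nrm_ne_zero (b := b) (cross_ne_zero hy hz hyz)
  have nxz := nrm_ne_zero (b := b) (cross_ne_zero hx hz hxz)
  unfold cl
  rcases le_max_iff.1 h with h1 | h1
  · rw [← WithZero.log_le_log (mul_ne_zero ny nxz) (mul_ne_zero nx nyz),
      WithZero.log_mul ny nxz, WithZero.log_mul nx nyz] at h1
    refine (min_le_right _ _).trans ?_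
    omega
  · rw [← WithZero.log_le_log (mul_ne_zero ny nxz) (mul_ne_zero nz nxy),
      WithZero.log_mul ny nxz, WithZero.log_mul nz nxy] at h1
    refine (min_le_left _ _).trans ?_
    omega

theorem cl_support [IsAlgClosed k] (hK : IsFunctionField k K) {x y : Fin 3 → K} (hx : x ≠ 0)
    (hy : y ≠ 0) (h : ¬ PEq x y) :
    (Function.support fun b : Place k K => cl b x y).Finite := by
  refine (((nrm_support hK x hx).union (nrm_support hK y hy)).union
    (nrm_support hK _ (cross_ne_zero hx hy h))).subset ?_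
  intro b hb
  by_contra hc
  apply hb
  simp only [Set.mem_union, Function.mem_support, not_or, not_not] at hc
  show cl b x y = 0
  unfold cl
  rw [hc.1.1, hc.1.2, hc.2]
  ring

theorem finsum_cl [IsAlgClosed k] (hK : IsFunctionField k K) {x y : Fin 3 → K} (hx : x ≠ 0)
    (hy : y ≠ 0) (h : ¬ PEq x y) :
    ∑ᶠ b : Place k K, cl b x y = ht k x + ht k y - ht k (crossProduct x y) := by
  have sx := nrm_support hK x hx
  have sy := nrm_support hK y hy
  have sxy := nrm_support hK _ (cross_ne_zero hx hy h)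
  unfold cl ht
  rw [finsum_sub_distrib _ sxy, finsum_add_distrib sx sy]
  refine ((sx.union sy)).subset ?_
  intro b hb
  by_contra hc
  apply hb
  simp only [Set.mem_union, Function.mem_support, not_or, not_not] at hc
  show WithZero.log (nrm b x) + WithZero.log (nrm b y) = 0
  rw [hc.1, hc.2]
  ring

/-- A point has positive contact (up to a constant) with at most one of the points `P i`. -/
theorem sum_cl_le (b : Place k K) (Γ : Finset ℕ) (P : ℕ → Fin 3 → K) (Q : Fin 3 → K)
    (hP : ∀ i ∈ Γ, P i ≠ 0) (hQ : Q ≠ 0) (hPQ : ∀ i ∈ Γ, ¬ PEq (P i) Q)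
    (hPP : ∀ i ∈ Γ, ∀ j ∈ Γ, i ≠ j → ¬ PEq (P i) (P j)) {M : ℤ} (hM0 : 0 ≤ M)
    (hM : ∀ i ∈ Γ, cl b (P i) Q ≤ M) :
    ∑ i ∈ Γ, cl b (P i) Q ≤ M + ∑ i ∈ Γ, ∑ j ∈ Γ.erase i, cl b (P i) (P j) := by
  have hnn : ∀ i ∈ Γ, 0 ≤ ∑ j ∈ Γ.erase i, cl b (P i) (P j) := by
    intro i hi
    refine Finset.sum_nonneg fun j hj => ?_
    have hj1 := Finset.mem_of_mem_erase hj
    have hj2 := Finset.ne_of_mem_erase hj
    exact cl_nonneg b (hP i hi) (hP j hj1) (hPP i hi j hj1 (Ne.symm hj2))
  rcases Γ.eq_empty_or_nonempty with rfl | hne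
  · simpa using hM0
  obtain ⟨i0, hi0, hmax⟩ := Finset.exists_max_image Γ (fun i => cl b (P i) Q) hne
  rw [← Finset.add_sum_erase _ _ hi0, ← Finset.add_sum_erase (a := i0) (s := Γ)
    (fun i => ∑ j ∈ Γ.erase i, cl b (P i) (P j)) hi0]
  have h1 : ∑ i ∈ Γ.erase i0, cl b (P i) Q ≤
      ∑ i ∈ Γ.erase i0, ∑ j ∈ Γ.erase i, cl b (P i) (P j) := by
    refine Finset.sum_le_sum fun i hi => ?_
    have hi1 := Finset.mem_of_mem_erase hi
    have hi2 := Finset.ne_of_mem_erase hi
    have h2 := cl_ultra b (hP i hi1) hQ (hP i0 hi0) (hPQ i hi1)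
      (fun h => hPQ i0 hi0 (Cl_symm h)) (hPP i hi1 i0 hi0 hi2)
    rw [cl_comm b Q (P i0), min_eq_left (hmax i hi1)] at h2
    refine h2.trans ?_
    refine Finset.single_le_sum (f := fun j => cl b (P i) (P j)) (fun j hj => ?_)
      (Finset.mem_erase.2 ⟨Ne.symm hi2, hi0⟩)
    have hj1 := Finset.mem_of_mem_erase hj
    have hj2 := Finset.ne_of_mem_erase hj
    exact cl_nonneg b (hP i hi1) (hP j hj1) (hPP i hi1 j hj1 (Ne.symm hj2))
  have h3 := hM i0 hi0
  have h4 := hnn i0 hi0
  omega

end Pool.Agent.Helper30.TP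

end
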