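import Pool.Agent.Helper72.TM2.T06
import Pool.Agent.Helper72.TM2.T07

section

namespace Pool.Agent.Helper16
end Pool.Agent.Helper16
namespace Pool.Agent.Helper36
end Pool.Agent.Helper36

set_option autoImplicit false

namespace Pool.Agent.Helper38.TQ

open MvPolynomial

open Pool.Agent.Helper16 (Place IsFunctionField)

open Pool.Agent.Helper36 (step iter iter_zero iter_succ iter_succ' iter_add iter_map)

variable {ν : ℕ}

theorem peq_of_minors {L : Type} [Field L] {x y : Fin (ν + 1) → L} (hx : x ≠ 0) (hy : y ≠ 0)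
    (h : ∀ p q, x p * y q - x q * y p = 0) : PEq x y := by
  obtain ⟨i0, hi0⟩ : ∃ i, x i ≠ 0 := by
    by_contra hc
    push Not at hc
    exact hx (funext hc)
  have h1 : ∀ j, y j = y i0 / x i0 * x j := by
    intro j
    have h2 := h i0 j
    field_simp
    linear_combination h2
  refine ⟨y i0 / x i0, ?_, funext h1⟩
  intro h0
  apply hy
  funext j
  rw [h1 j, h0, zero_mul]
  rfl

theorem nrm_red {k K : Type} [Field k] [Field K] [Algebra k K] {b : Place k K}
    {u : Fin (ν + 1) → K} {z : Fin (ν + 1) → k} (hz : z ≠ 0)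
    (h : ∀ i, b.val (u i - algebraMap k K (z i)) < 1) : nrm b u = 1 := by
  have h1 : ∀ i, b.val (u i) ≤ 1 := by
    intro i
    have h3 : u i = (u i - algebraMap k K (z i)) + algebraMap k K (z i) := by ring
    rw [h3]
    exact (b.val.map_add _ _).trans (max_le (h i).le (b.val_algebraMap_le _))
  obtain ⟨i0, hi0⟩ : ∃ i, z i ≠ 0 := by
    by_contra hc
    push Not at hc
    exact hz (funext hc)
  have h2 : b.val (u i0) = 1 := by
    refine le_antisymm (h1 i0) ?_
    by_contra hlt
    rw [not_le] at hlt
    have h3 : algebraMap k K (z i0) = u i0 - (u i0 - algebraMap k K (z i0)) := by ring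
    have h4 : b.val (algebraMap k K (z i0)) < 1 := by
      rw [h3]
      exact (b.val.map_sub _ _).trans_lt (max_lt hlt (h i0))
    rw [b.triv (z i0) hi0] at h4
    exact lt_irrefl _ h4
  refine le_antisymm (nrm_le h1) ?_
  rw [← h2]
  exact val_le_nrm b u i0

theorem val_lin_le {k K : Type} [Field k] [Field K] [Algebra k K] (b : Place k K)
    (a : Fin (ν + 1) → k) (x : Fin (ν + 1) → K) : b.val (lin a x) ≤ nrm b x := by
  unfold lin
  refine b.val.map_sum_le fun i _ => ?_
  rw [map_mul]
  calc b.val (algebraMap k K (a i)) * b.val (x i) ≤ 1 * nrm b x :=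
        mul_le_mul' (b.val_algebraMap_le _) (val_le_nrm b x i)
    _ = _ := one_mul _

/-- A binary form vanishing on an affine chart is zero. -/
theorem form_two_eq_zero {K : Type} [Field K] [Infinite K] {P : MvPolynomial (Fin 2) K} {e : ℕ}
    (hP : P.IsHomogeneous e) (h : ∀ t : K, eval ![1, t] P = 0) : P = 0 := by
  have h1 : X 0 * P = 0 := by
    apply MvPolynomial.funext
    intro z
    rw [map_mul, eval_X, map_zero]
    by_cases hz : z 0 = 0
    · rw [hz, zero_mul]
    · have h2 := h (z 1 / z 0)
      have h3 : (![1, z 1 / z 0] : Fin 2 → K) = (z 0)⁻¹ • z := by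
        funext i
        fin_cases i
        · simp [hz]
        · simp [div_eq_inv_mul]
      rw [h3, eval_smul_hom (ν := 1) hP] at h2
      rcases mul_eq_zero.1 h2 with h4 | h4
      · exact absurd h4 (pow_ne_zero _ (inv_ne_zero hz))
      · rw [h4, mul_zero]
  rcases mul_eq_zero.1 h1 with h2 | h2
  · exact absurd h2 (X_ne_zero _)
  · exact h2

/-- If a binary form vanishes at `U`-many points then `U`-many points are equal. -/
theorem exists_point_of_binary {K : Type} [Field K] [Infinite K] {U : Ultrafilter ℕ}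
    {u v : ℕ → K} {P : MvPolynomial (Fin 2) K} {e : ℕ} (hP : P.IsHomogeneous e) (hP0 : P ≠ 0)
    (h : ∀ᶠ n in (U : Filter ℕ), eval ![u n, v n] P = 0) :
    ∃ ρ : Fin 2 → K, ρ ≠ 0 ∧ ∀ᶠ n in (U : Filter ℕ), ∃ c : K, u n = c * ρ 0 ∧ v n = c * ρ 1 := by
  classical
  by_cases hu : ∀ᶠ n in (U : Filter ℕ), u n = 0
  · refine ⟨![0, 1], ?_, ?_⟩
    · intro h0
      have := congrFun h0 1
      simp at this
    · filter_upwards [hu] with n hn
      exact ⟨v n, by simp [hn], by simp⟩
  rw [← Ultrafilter.eventually_not] at hu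
  obtain ⟨p, hp⟩ : ∃ p : Polynomial K, ∀ t, Polynomial.eval t p = eval ![1, t] P := by
    refine ⟨aeval (![1, Polynomial.X] : Fin 2 → Polynomial K) P, fun t => ?_⟩
    have h1 : (Polynomial.evalRingHom t).comp
        (aeval (![1, Polynomial.X] : Fin 2 → Polynomial K)).toRingHom = eval ![1, t] := by
      apply MvPolynomial.ringHom_ext
      · intro c
        simp
      · intro i
        fin_cases i <;> simp
    exact congrArg (fun φ => φ P) h1
  have hp0 : p ≠ 0 := by
    intro h0
    apply hP0
    apply form_two_eq_zero hP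
    intro t
    rw [← hp, h0, Polynomial.eval_zero]
  have hroot : ∀ᶠ n in (U : Filter ℕ), v n / u n ∈ p.roots.toFinset := by
    filter_upwards [hu, h] with n h1 h2
    rw [Multiset.mem_toFinset, Polynomial.mem_roots hp0, Polynomial.IsRoot.def, hp]
    have h3 : (![1, v n / u n] : Fin 2 → K) = (u n)⁻¹ • ![u n, v n] := by
      funext i
      fin_cases i
      · simp [h1]
      · simp [div_eq_inv_mul]
    rw [h3, eval_smul_hom (ν := 1) hP, h2, mul_zero]
  have hex : ∃ r, ∀ᶠ n in (U : Filter ℕ), v n / u n = r := by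
    by_contra hcon
    push Not at hcon
    have h4 : ∀ r ∈ p.roots.toFinset, ∀ᶠ n in (U : Filter ℕ), v n / u n ≠ r := by
      intro r _
      exact hcon r
    have h5 := (Filter.eventually_all_finset p.roots.toFinset).2 h4
    obtain ⟨n, hn1, hn2⟩ := (hroot.and h5).exists
    exact hn2 _ hn1 rfl
  obtain ⟨r, hr⟩ := hex
  refine ⟨![1, r], ?_, ?_⟩
  · intro h0
    have := congrFun h0 0
    simp at this
  · filter_upwards [hr, hu] with n h1 h2
    refine ⟨u n, by simp, ?_⟩
    have : v n = u n * r := by
      rw [← h1]; field_simp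
    simpa using this

/-- An irreducible form vanishing at `U`-many points. -/
theorem exists_irreducible_form {K : Type} [Field K] {U : Ultrafilter ℕ} {y : ℕ → Fin 3 → K}
    {P : MvPolynomial (Fin 3) K} {e : ℕ} (hP : P.IsHomogeneous e) (hP0 : P ≠ 0)
    (hv : ∀ᶠ n in (U : Filter ℕ), eval (y n) P = 0) :
    ∃ (D : ℕ) (g : MvPolynomial (Fin 3) K), g.IsHomogeneous D ∧ Irreducible g ∧
      ∀ᶠ n in (U : Filter ℕ), eval (y n) g = 0 := by
  classical
  have hex : ∃ D : ℕ, ∃ g : MvPolynomial (Fin 3) K, g.IsHomogeneous D ∧ g ≠ 0 ∧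
      ∀ᶠ n in (U : Filter ℕ), eval (y n) g = 0 := ⟨e, P, hP, hP0, hv⟩
  obtain ⟨D, hD, hmin⟩ : ∃ D : ℕ, (∃ g : MvPolynomial (Fin 3) K, g.IsHomogeneous D ∧ g ≠ 0 ∧
      ∀ᶠ n in (U : Filter ℕ), eval (y n) g = 0) ∧ ∀ D' < D,
      ¬ ∃ g : MvPolynomial (Fin 3) K, g.IsHomogeneous D' ∧ g ≠ 0 ∧
      ∀ᶠ n in (U : Filter ℕ), eval (y n) g = 0 :=
    ⟨Nat.find hex, Nat.find_spec hex, fun D' h => Nat.find_min hex h⟩
  obtain ⟨g, hg, hg0, hgv⟩ := hD
  have hconst : ∀ (a : MvPolynomial (Fin 3) K), a.IsHomogeneous 0 → a = C (coeff 0 a) := by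
    intro a ha
    exact (totalDegree_eq_zero_iff_eq_C).1 (Nat.le_zero.1 ha.totalDegree_le)
  have hunit : ∀ (a : MvPolynomial (Fin 3) K), a.IsHomogeneous 0 → a ≠ 0 → IsUnit a := by
    intro a ha h0
    have h1 := hconst a ha
    rw [h1]
    refine IsUnit.map C (isUnit_iff_ne_zero.2 fun h => h0 ?_)
    rw [h1, h, map_zero]
  refine ⟨D, g, hg, ?_, hgv⟩
  refine ⟨?_, fun a b hab => ?_⟩
  · intro h
    obtain ⟨n, hn⟩ := hgv.exists
    have := h.map (eval (y n))
    rw [hn] at this
    exact not_isUnit_zero this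
  · obtain ⟨i, j, hi, hj, hij⟩ := Pool.Agent.Helper30.TP.ultra_form_of_mul hg hg0 hab
    have ha0 : a ≠ 0 := by rintro rfl; exact hg0 (by rw [hab, zero_mul])
    have hb0 : b ≠ 0 := by rintro rfl; exact hg0 (by rw [hab, mul_zero])
    rw [hab] at hgv
    rcases Pool.Agent.Helper30.TP.ultra_or hgv with h | h
    · right
      have h1 : ¬ i < D := fun h2 => hmin i h2 ⟨a, hi, ha0, h⟩
      have h3 : j = 0 := by omega
      subst h3
      exact hunit b hj hb0
    · left
      have h1 : ¬ j < D := fun h2 => hmin j h2 ⟨b, hj, hb0, h⟩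
      have h3 : i = 0 := by omega
      subst h3
      exact hunit a hi ha0

end Pool.Agent.Helper38.TQ

end

section

namespace Pool.Agent.Helper16
end Pool.Agent.Helper16
namespace Pool.Agent.Helper36
end Pool.Agent.Helper36
namespace Pool.Agent.Helper38.TQ
end Pool.Agent.Helper38.TQ

/-!
# Orbits of endomorphisms of projective space over a function field: definitions

`k` is an algebraically closed field, `K` a function field of one variable over `k`, and the
endomorphism `F` of projective space is defined over `K`.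
-/

set_option autoImplicit false

namespace Pool.Agent.Helper30.TKN

open MvPolynomial

open Pool.Agent.Helper16 (Place IsFunctionField)

open Pool.Agent.Helper36 (step iter)

open Pool.Agent.Helper38.TQ

variable {ν : ℕ} {k K : Type} [Field k] [Field K] [Algebra k K]

/-- The polynomial `P` over `K` specialises at `b` to the polynomial `p` over `k`. -/
def RedP (b : Place k K) (P : MvPolynomial (Fin (ν + 1)) K) (p : MvPolynomial (Fin (ν + 1)) k) :
    Prop :=
  ∀ m, b.val (P.coeff m - algebraMap k K (p.coeff m)) < 1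

/-- The polynomials `F` over `K` specialise at `b` to an endomorphism `f` of projective space
over `k`, of the same degree. -/
structure GoodRed (d : ℕ) (b : Place k K) (F : Fin (ν + 1) → MvPolynomial (Fin (ν + 1)) K)
    (f : Fin (ν + 1) → MvPolynomial (Fin (ν + 1)) k) : Prop where
  endo : IsEndo d f
  red : ∀ i, RedP b (F i) (f i)

/-- The place `b` has good reduction. -/
def Good (d : ℕ) (b : Place k K) (F : Fin (ν + 1) → MvPolynomial (Fin (ν + 1)) K) : Prop :=
  ∃ f, GoodRed d b F f

/-- The Jacobian determinant. -/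
noncomputable def jf {k : Type} [Field k] (F : Fin (ν + 1) → MvPolynomial (Fin (ν + 1)) k) :
    MvPolynomial (Fin (ν + 1)) k :=
  (Matrix.of fun i j => pderiv j (F i)).det

/-- The points `x` and `y` have the same reduction at `b`: all the minors are small. -/
def Same (b : Place k K) (x y : Fin (ν + 1) → K) : Prop :=
  ∀ p q, b.val (x p * y q - x q * y p) < nrm b x * nrm b y

end Pool.Agent.Helper30.TKN

end

section

namespace Pool.Agent.Helper16
end Pool.Agent.Helper16
namespace Pool.Agent.Helper36
end Pool.Agent.Helper36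
namespace Pool.Agent.Helper38.TQ
end Pool.Agent.Helper38.TQ

/-!
# Heights of forms in several variables, and the Jacobian determinant
-/

set_option autoImplicit false

namespace Pool.Agent.Helper30.TKN

open MvPolynomial

open Pool.Agent.Helper16 (Place IsFunctionField)

open Pool.Agent.Helper36 (step iter)

open Pool.Agent.Helper38.TQ

variable {ν : ℕ}

section

variable {k K : Type} [Field k] [Field K] [Algebra k K]

/-- The maximum norm of a polynomial at a place. -/
noncomputable def gs (b : Place k K) (P : MvPolynomial (Fin (ν + 1)) K) :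
    WithZero (Multiplicative ℤ) :=
  P.support.sup fun m => b.val (P.coeff m)

theorem formHeight_le (b : Place k K) (P : MvPolynomial (Fin (ν + 1)) K)
    (m : Fin (ν + 1) →₀ ℕ) : b.val (P.coeff m) ≤ gs b P := by
  by_cases h : m ∈ P.support
  · exact Finset.le_sup (f := fun m => b.val (P.coeff m)) h
  · rw [notMem_support_iff.1 h, map_zero]
    exact zero_le

theorem formHeight_gs_le {b : Place k K} {P : MvPolynomial (Fin (ν + 1)) K}
    {c : WithZero (Multiplicative ℤ)} (h : ∀ m, b.val (P.coeff m) ≤ c) : gs b P ≤ c :=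
  Finset.sup_le fun m _ => h m

theorem formHeight_exists {b : Place k K} {P : MvPolynomial (Fin (ν + 1)) K} (hP : P ≠ 0) :
    ∃ m, P.coeff m ≠ 0 ∧ gs b P = b.val (P.coeff m) := by
  obtain ⟨m, hm, h⟩ := Finset.exists_mem_eq_sup P.support (support_nonempty.2 hP)
    (fun m => b.val (P.coeff m))
  exact ⟨m, mem_support_iff.1 hm, h⟩

theorem formHeight_pos {b : Place k K} {P : MvPolynomial (Fin (ν + 1)) K} (hP : P ≠ 0) :
    0 < gs b P := by
  obtain ⟨m, hm, h⟩ := formHeight_exists (b := b) hP
  rw [h]
  exact zero_lt_iff.2 (by simpa using hm)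

theorem formHeight_zero (b : Place k K) : gs b (0 : MvPolynomial (Fin (ν + 1)) K) = 0 := by
  unfold gs
  rw [support_zero, Finset.sup_empty]
  rfl

theorem formHeight_support [IsAlgClosed k] (hK : IsFunctionField k K)
    {P : MvPolynomial (Fin (ν + 1)) K} (hP : P ≠ 0) :
    (Function.support fun b : Place k K => WithZero.log (gs b P)).Finite := by
  classical
  have h1 : (⋃ m ∈ P.support,
      Function.support fun b : Place k K => WithZero.log (b.val (P.coeff m))).Finite :=
    Set.Finite.biUnion (Finset.finite_toSet _)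
      fun m hm => (finsum_log hK _ (mem_support_iff.1 hm)).1
  refine h1.subset fun b hb => ?_
  obtain ⟨m, hm, h⟩ := formHeight_exists (b := b) hP
  simp only [Set.mem_iUnion]
  refine ⟨m, mem_support_iff.2 hm, ?_⟩
  rw [Function.mem_support] at hb ⊢
  rwa [← h]

/-- The size of the value of a form. -/
theorem low_val_eval_le (b : Place k K) {P : MvPolynomial (Fin (ν + 1)) K} {e : ℕ}
    (hP : P.IsHomogeneous e) (y : Fin (ν + 1) → K) :
    b.val (eval y P) ≤ gs b P * nrm b y ^ e := by
  rw [eval_eq]
  refine b.val.map_sum_le fun m hm => ?_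
  have hd : ∑ i ∈ m.support, m i = e := by
    have := hP (MvPolynomial.mem_support_iff.1 hm)
    rw [Finsupp.weight_apply] at this
    simpa [Finsupp.sum] using this
  rw [map_mul, map_prod]
  refine mul_le_mul' (formHeight_le b P m) ?_
  rw [← hd, ← Finset.prod_pow_eq_pow_sum]
  refine Finset.prod_le_prod' fun i _ => ?_
  rw [map_pow]
  exact pow_le_pow_left' (val_le_nrm b y i) _

/-- The height is nonnegative. -/
theorem low_ht_nonneg [IsAlgClosed k] (hK : IsFunctionField k K) {x : Fin (ν + 1) → K}
    (hx : x ≠ 0) : 0 ≤ ht k x := by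
  obtain ⟨i0, hi0⟩ : ∃ i, x i ≠ 0 := by
    by_contra h
    push Not at h
    exact hx (funext h)
  rw [← ht_smul hK (inv_ne_zero hi0) hx]
  unfold ht
  refine finsum_nonneg fun b => ?_
  have h1 : (1 : WithZero (Multiplicative ℤ)) ≤ nrm b ((x i0)⁻¹ • x) := by
    have := val_le_nrm b ((x i0)⁻¹ • x) i0
    rwa [Pi.smul_apply, smul_eq_mul, inv_mul_cancel₀ hi0, map_one] at this
  rw [← WithZero.log_one, WithZero.log_le_log one_ne_zero (lt_of_lt_of_le zero_lt_one h1).ne']
  exact h1

end

theorem eval_jf {k : Type} [Field k] (F : Fin (ν + 1) → MvPolynomial (Fin (ν + 1)) k)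
    (z : Fin (ν + 1) → k) : eval z (jf F) = (jac F z).det := by
  unfold jf jac
  rw [RingHom.map_det]
  rfl

theorem jf_hom {k : Type} [Field k] {d : ℕ} {F : Fin (ν + 1) → MvPolynomial (Fin (ν + 1)) k}
    (hF : ∀ i, (F i).IsHomogeneous d) : (jf F).IsHomogeneous ((ν + 1) * (d - 1)) := by
  unfold jf
  rw [Matrix.det_apply]
  refine IsHomogeneous.sum _ _ _ fun σ _ => ?_
  have h1 : (∏ i, (Matrix.of fun i j => pderiv j (F i)) (σ i) i).IsHomogeneous
      ((ν + 1) * (d - 1)) := by
    have h2 := IsHomogeneous.prod Finset.univ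
      (fun i => (Matrix.of fun i j => pderiv j (F i)) (σ i) i) (fun _ => d - 1)
      (fun i _ => (hF (σ i)).pderiv)
    simpa [Finset.sum_const, Finset.card_univ] using h2
  rcases Int.units_eq_one_or (Equiv.Perm.sign σ) with h | h
  · rw [h, one_smul]
    exact h1
  · rw [h, Units.neg_smul, one_smul]
    exact h1.neg

end Pool.Agent.Helper30.TKN

end

section

namespace Pool.Agent.Helper16
end Pool.Agent.Helper16
namespace Pool.Agent.Helper36
end Pool.Agent.Helper36
namespace Pool.Agent.Helper38.TQ
end Pool.Agent.Helper38.TQ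

/-!
# Good reduction
-/

set_option autoImplicit false

namespace Pool.Agent.Helper30.TKN

open MvPolynomial

open Pool.Agent.Helper16 (Place IsFunctionField)

open Pool.Agent.Helper36 (step iter iter_zero iter_succ iter_succ' iter_add iter_map exists_nullstellensatz)

open Pool.Agent.Helper38.TQ

variable {ν : ℕ}

variable {k K : Type} [Field k] [Field K] [Algebra k K]

theorem RedP.unique {b : Place k K} {P : MvPolynomial (Fin (ν + 1)) K}
    {p q : MvPolynomial (Fin (ν + 1)) k}
    (hp : RedP b P p) (hq : RedP b P q) : p = q := by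
  ext m
  by_contra hne
  have h1 : p.coeff m - q.coeff m ≠ 0 := sub_ne_zero.2 hne
  have h2 := b.triv _ h1
  have h3 : algebraMap k K (p.coeff m - q.coeff m) =
      (P.coeff m - algebraMap k K (q.coeff m)) - (P.coeff m - algebraMap k K (p.coeff m)) := by
    rw [map_sub]; ring
  rw [h3] at h2
  have h4 := b.val.map_sub_lt (hq m) (hp m)
  rw [h2] at h4
  exact lt_irrefl _ h4

theorem RedP.integral {b : Place k K} {P : MvPolynomial (Fin (ν + 1)) K}
    {p : MvPolynomial (Fin (ν + 1)) k}
    (hp : RedP b P p) (m : Fin (ν + 1) →₀ ℕ) : b.val (P.coeff m) ≤ 1 := by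
  have h1 : P.coeff m = (P.coeff m - algebraMap k K (p.coeff m)) + algebraMap k K (p.coeff m) := by
    ring
  rw [h1]
  exact (b.val.map_add _ _).trans (max_le (hp m).le (b.val_algebraMap_le _))

theorem redP_map (b : Place k K) (p : MvPolynomial (Fin (ν + 1)) k) :
    RedP b (map (algebraMap k K) p) p := by
  intro m
  rw [coeff_map, sub_self, map_zero]
  exact zero_lt_one

theorem redP_C_X (b : Place k K) (i : Fin (ν + 1)) : RedP b (X i) (X i) := by
  have h := redP_map b (X i : MvPolynomial (Fin (ν + 1)) k)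
  rwa [map_X] at h

theorem RedP.add {b : Place k K} {P Q : MvPolynomial (Fin (ν + 1)) K}
    {p q : MvPolynomial (Fin (ν + 1)) k}
    (hp : RedP b P p) (hq : RedP b Q q) : RedP b (P + Q) (p + q) := by
  intro m
  have h1 : (P + Q).coeff m - algebraMap k K ((p + q).coeff m) =
      (P.coeff m - algebraMap k K (p.coeff m)) + (Q.coeff m - algebraMap k K (q.coeff m)) := by
    rw [coeff_add, coeff_add, map_add]; ring
  rw [h1]
  exact b.val.map_add_lt (hp m) (hq m)

theorem RedP.neg {b : Place k K} {P : MvPolynomial (Fin (ν + 1)) K}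
    {p : MvPolynomial (Fin (ν + 1)) k}
    (hp : RedP b P p) : RedP b (-P) (-p) := by
  intro m
  have h1 : (-P).coeff m - algebraMap k K ((-p).coeff m) =
      -(P.coeff m - algebraMap k K (p.coeff m)) := by
    rw [coeff_neg, coeff_neg, map_neg]; ring
  rw [h1, Valuation.map_neg]
  exact hp m

theorem redP_zero (b : Place k K) : RedP b (0 : MvPolynomial (Fin (ν + 1)) K) 0 := by
  intro m
  rw [coeff_zero, coeff_zero, map_zero, sub_zero, map_zero]
  exact zero_lt_one

theorem redP_one (b : Place k K) : RedP b (1 : MvPolynomial (Fin (ν + 1)) K) 1 := by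
  have h := redP_map b (1 : MvPolynomial (Fin (ν + 1)) k)
  rwa [map_one] at h

theorem RedP.mul {b : Place k K} {P Q : MvPolynomial (Fin (ν + 1)) K}
    {p q : MvPolynomial (Fin (ν + 1)) k}
    (hp : RedP b P p) (hq : RedP b Q q) : RedP b (P * Q) (p * q) := by
  classical
  intro m
  have h1 : (P * Q).coeff m - algebraMap k K ((p * q).coeff m) =
      ∑ x ∈ Finset.HasAntidiagonal.antidiagonal m, ((P.coeff x.1 - algebraMap k K (p.coeff x.1)) * Q.coeff x.2 +
        (Q.coeff x.2 - algebraMap k K (q.coeff x.2)) * algebraMap k K (p.coeff x.1)) := by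
    rw [coeff_mul, coeff_mul, map_sum, ← Finset.sum_sub_distrib]
    refine Finset.sum_congr rfl fun x _ => ?_
    rw [map_mul]; ring
  rw [h1]
  refine b.val.map_sum_lt one_ne_zero fun x _ => ?_
  refine b.val.map_add_lt ?_ ?_
  · rw [map_mul]
    exact mul_lt_one_of_lt_of_le (hp _) (hq.integral _)
  · rw [map_mul]
    exact mul_lt_one_of_lt_of_le (hq _) (b.val_algebraMap_le _)

theorem RedP.sum {b : Place k K} {ι : Type} (s : Finset ι)
    {P : ι → MvPolynomial (Fin (ν + 1)) K}
    {p : ι → MvPolynomial (Fin (ν + 1)) k} (h : ∀ i ∈ s, RedP b (P i) (p i)) :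
    RedP b (∑ i ∈ s, P i) (∑ i ∈ s, p i) := by
  classical
  induction s using Finset.induction_on with
  | empty => rw [Finset.sum_empty, Finset.sum_empty]; exact redP_zero b
  | insert a s ha ih =>
    rw [Finset.sum_insert ha, Finset.sum_insert ha]
    exact (h a (Finset.mem_insert_self _ _)).add (ih fun i hi => h i (Finset.mem_insert_of_mem hi))

theorem RedP.prod {b : Place k K} {ι : Type} (s : Finset ι)
    {P : ι → MvPolynomial (Fin (ν + 1)) K}
    {p : ι → MvPolynomial (Fin (ν + 1)) k} (h : ∀ i ∈ s, RedP b (P i) (p i)) :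
    RedP b (∏ i ∈ s, P i) (∏ i ∈ s, p i) := by
  classical
  induction s using Finset.induction_on with
  | empty => rw [Finset.prod_empty, Finset.prod_empty]; exact redP_one b
  | insert a s ha ih =>
    rw [Finset.prod_insert ha, Finset.prod_insert ha]
    exact (h a (Finset.mem_insert_self _ _)).mul (ih fun i hi => h i (Finset.mem_insert_of_mem hi))

theorem RedP.pow {b : Place k K} {P : MvPolynomial (Fin (ν + 1)) K}
    {p : MvPolynomial (Fin (ν + 1)) k}
    (hp : RedP b P p) (n : ℕ) : RedP b (P ^ n) (p ^ n) := by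
  induction n with
  | zero => rw [pow_zero, pow_zero]; exact redP_one b
  | succ n ih => rw [pow_succ, pow_succ]; exact ih.mul hp

theorem RedP.pderiv {b : Place k K} {P : MvPolynomial (Fin (ν + 1)) K}
    {p : MvPolynomial (Fin (ν + 1)) k}
    (hp : RedP b P p) (j : Fin (ν + 1)) :
    RedP b (MvPolynomial.pderiv j P) (MvPolynomial.pderiv j p) := by
  intro m
  rw [coeff_pderiv, coeff_pderiv]
  have h1 : ∀ (c : k), algebraMap k K (c * ((m j : k) + 1)) =
      algebraMap k K c * algebraMap k K ((m j : k) + 1) := fun c => map_mul _ _ _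
  have h2 : ((m j : K) + 1) = algebraMap k K ((m j : k) + 1) := by simp
  rw [h1, h2, ← sub_mul, map_mul]
  exact mul_lt_one_of_lt_of_le (hp _) (b.val_algebraMap_le _)

/-- The Jacobian determinant specialises. -/
theorem redP_jf {b : Place k K} {F : Fin (ν + 1) → MvPolynomial (Fin (ν + 1)) K}
    {f : Fin (ν + 1) → MvPolynomial (Fin (ν + 1)) k} (h : ∀ i, RedP b (F i) (f i)) :
    RedP b (jf F) (jf f) := by
  unfold jf
  rw [Matrix.det_apply, Matrix.det_apply]
  refine RedP.sum _ fun σ _ => ?_
  have h1 : RedP b (∏ i, (Matrix.of fun i j => MvPolynomial.pderiv j (F i)) (σ i) i)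
      (∏ i, (Matrix.of fun i j => MvPolynomial.pderiv j (f i)) (σ i) i) :=
    RedP.prod _ fun i _ => (h (σ i)).pderiv i
  rcases Int.units_eq_one_or (Equiv.Perm.sign σ) with h2 | h2
  · rw [h2, one_smul, one_smul]
    exact h1
  · rw [h2, Units.neg_smul, one_smul, Units.neg_smul, one_smul]
    exact h1.neg

/-- Specialisation of values. -/
theorem RedP.eval {b : Place k K} {P : MvPolynomial (Fin (ν + 1)) K}
    {p : MvPolynomial (Fin (ν + 1)) k}
    (hp : RedP b P p) {u : Fin (ν + 1) → K} {z : Fin (ν + 1) → k}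
    (hu : ∀ i, b.val (u i - algebraMap k K (z i)) < 1) :
    b.val (MvPolynomial.eval u P - algebraMap k K (MvPolynomial.eval z p)) < 1 := by
  have hu1 : ∀ i, b.val (u i) ≤ 1 := by
    intro i
    have h1 : u i = (u i - algebraMap k K (z i)) + algebraMap k K (z i) := by ring
    rw [h1]
    exact (b.val.map_add _ _).trans (max_le (hu i).le (b.val_algebraMap_le _))
  have h1 := (val_aeval_sub_lt b u z hu p).2
  have h2 : aeval u p = MvPolynomial.eval u (map (algebraMap k K) p) := (eval_map_k p u).symm
  have h3 : aeval z p = MvPolynomial.eval z p :=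
    congrArg (fun φ => φ p) (coe_aeval_eq_eval z)
  rw [h2, h3] at h1
  have h4 : MvPolynomial.eval u P - algebraMap k K (MvPolynomial.eval z p) =
      MvPolynomial.eval u (P - map (algebraMap k K) p) +
        (MvPolynomial.eval u (map (algebraMap k K) p) -
          algebraMap k K (MvPolynomial.eval z p)) := by
    rw [map_sub]; ring
  rw [h4]
  refine b.val.map_add_lt ?_ h1
  rw [eval_eq]
  refine b.val.map_sum_lt one_ne_zero fun m _ => ?_
  rw [map_mul, map_prod]
  refine mul_lt_one_of_lt_of_le ?_ ?_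
  · rw [coeff_sub, coeff_map]
    exact hp m
  · refine Finset.prod_le_one' fun i _ => ?_
    rw [map_pow]
    exact pow_le_one' (hu1 i) _

theorem redP_exists [IsAlgClosed k] (hK : IsFunctionField k K) (b : Place k K)
    {P : MvPolynomial (Fin (ν + 1)) K} {e : ℕ} (hP : P.IsHomogeneous e)
    (h : ∀ m, b.val (P.coeff m) ≤ 1) : ∃ p, RedP b P p ∧ p.IsHomogeneous e := by
  classical
  have h1 : ∀ m, ∃ c : k, b.val (P.coeff m - algebraMap k K c) < 1 ∧
      (P.coeff m = 0 → c = 0) := by
    intro m
    by_cases h0 : P.coeff m = 0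
    · exact ⟨0, by simp [h0], fun _ => rfl⟩
    · obtain ⟨c, hc⟩ := exists_residue hK b (P.coeff m) (h m)
      exact ⟨c, hc, fun h => absurd h h0⟩
  choose c hc hc0 using h1
  have h2 : ∀ m, (∑ n ∈ P.support, monomial n (c n)).coeff m = c m := by
    intro m
    rw [coeff_sum]
    simp only [coeff_monomial]
    rw [Finset.sum_ite_eq']
    split_ifs with h
    · rfl
    · exact (hc0 m (notMem_support_iff.1 h)).symm
  refine ⟨∑ n ∈ P.support, monomial n (c n), fun m => ?_, ?_⟩
  · rw [h2]
    exact hc m
  · refine IsHomogeneous.sum _ _ _ fun n hn => ?_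
    refine isHomogeneous_monomial _ ?_
    have := hP (mem_support_iff.1 hn)
    rw [← this, Finsupp.degree_eq_weight_one]
    rfl

end Pool.Agent.Helper30.TKN

end

section

namespace Pool.Agent.Helper16
end Pool.Agent.Helper16
namespace Pool.Agent.Helper36
end Pool.Agent.Helper36
namespace Pool.Agent.Helper38.TQ
end Pool.Agent.Helper38.TQ

/-!
# Good reduction: finiteness and orbits
-/

set_option autoImplicit false

namespace Pool.Agent.Helper30.TKN

open MvPolynomial

open Pool.Agent.Helper16 (Place IsFunctionField)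

open Pool.Agent.Helper36 (step iter iter_zero iter_succ iter_succ' iter_add iter_map exists_nullstellensatz)

open Pool.Agent.Helper38.TQ

variable {ν : ℕ}

variable {k K : Type} [Field k] [Field K] [Algebra k K]

theorem Good2_fin [IsAlgClosed k] (hK : IsFunctionField k K) (P : MvPolynomial (Fin (ν + 1)) K) :
    {b : Place k K | ¬ ∀ m, b.val (P.coeff m) ≤ 1}.Finite := by
  by_cases hP : P = 0
  · refine (Set.finite_empty).subset ?_
    intro b hb
    refine hb fun m => ?_
    rw [hP, coeff_zero, map_zero]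
    exact zero_le_one
  · refine (formHeight_support hK hP).subset ?_
    intro b hb h0
    refine hb fun m => ?_
    have h1 : 0 < gs b P := formHeight_pos hP
    have h2 : WithZero.log (gs b P) = 0 := h0
    have h3 : gs b P ≤ 1 := by
      by_contra hcon
      rw [not_le] at hcon
      have h4 := (WithZero.log_lt_log one_ne_zero h1.ne').2 hcon
      rw [WithZero.log_one, h2] at h4
      exact lt_irrefl _ h4
    exact (formHeight_le b P m).trans h3

/-- Almost all places have good reduction. -/
theorem good_finite [IsAlgClosed k] [Algebra K ℂ] (hK : IsFunctionField k K) {d : ℕ}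
    {F : Fin (ν + 1) → MvPolynomial (Fin (ν + 1)) K}
    (hF : IsEndo d fun i => map (algebraMap K ℂ) (F i)) : {b : Place k K | ¬ Good d b F}.Finite := by
  have hhom : ∀ i, (F i).IsHomogeneous d := by
    intro i m hm
    refine hF.hom i ?_
    rw [coeff_map]
    simpa using hm
  obtain ⟨M, q, hq1, hq2⟩ := exists_nullstellensatz (L := ℂ) F hhom (by
    intro x hx
    refine hF.nz x fun i => ?_
    have h := hx i
    rw [eval_map]
    exact h)
  have hfin : ((⋃ i : Fin (ν + 1), {b : Place k K | ¬ ∀ m, b.val ((F i).coeff m) ≤ 1}) ∪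
      ⋃ a : Fin (ν + 1) × Fin (ν + 1), {b : Place k K | ¬ ∀ m, b.val ((q a).coeff m) ≤ 1}).Finite :=
    (Set.finite_iUnion fun i => Good2_fin hK (F i)).union
      (Set.finite_iUnion fun a => Good2_fin hK (q a))
  refine hfin.subset ?_
  intro b hb
  by_contra hcon
  apply hb
  rw [Set.mem_union, not_or, Set.mem_iUnion, Set.mem_iUnion, not_exists, not_exists] at hcon
  have h1 : ∀ i m, b.val ((F i).coeff m) ≤ 1 := fun i => not_not.1 (hcon.1 i)
  have h2 : ∀ a m, b.val ((q a).coeff m) ≤ 1 := fun a => not_not.1 (hcon.2 a)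
  choose f hf1 hf2 using fun i => redP_exists hK b (hhom i) (h1 i)
  choose r hr1 hr2 using fun a => redP_exists hK b (hq1 a) (h2 a)
  refine ⟨f, ⟨hF.two_le, hf2, ?_⟩, hf1⟩
  intro x hx
  funext j
  have h3 : ∑ i, r (j, i) * f i = X j ^ (M + d) := by
    refine RedP.unique (P := X j ^ (M + d)) ?_ ((redP_C_X b j).pow _)
    rw [← hq2 j]
    exact RedP.sum _ fun i _ => (hr1 (j, i)).mul (hf1 i)
  have h4 := congrArg (eval x) h3
  rw [map_sum, map_pow, eval_X] at h4
  simp only [map_mul, hx, mul_zero, Finset.sum_const_zero] at h4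
  exact eq_zero_of_pow_eq_zero h4.symm

theorem GoodRed.step [IsAlgClosed k] {d : ℕ} {b : Place k K} {F : Fin (ν + 1) → MvPolynomial (Fin (ν + 1)) K}
    {f : Fin (ν + 1) → MvPolynomial (Fin (ν + 1)) k} (hF : ∀ i, (F i).IsHomogeneous d) (h : GoodRed d b F f)
    {x : Fin (ν + 1) → K} {z : Fin (ν + 1) → k} (hx : Red b x z) :
    Red b (Pool.Agent.Helper36.step F x) (Pool.Agent.Helper36.step f z) := by
  obtain ⟨hz, c, hc, h1⟩ := hx
  refine ⟨step_ne_zero h.endo hz, c ^ d, pow_ne_zero _ hc, fun i => ?_⟩
  have h2 := (h.red i).eval (u := c • x) (z := z) h1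
  rw [eval_smul_hom (hF i)] at h2
  have h3 : Pool.Agent.Helper36.step F x i = eval x (F i) :=
    congrArg (fun φ => φ (F i)) (coe_aeval_eq_eval x)
  have h4 : Pool.Agent.Helper36.step f z i = eval z (f i) :=
    congrArg (fun φ => φ (f i)) (coe_aeval_eq_eval z)
  rw [h3, h4]
  exact h2

theorem GoodRed.iter [IsAlgClosed k] {d : ℕ} {b : Place k K} {F : Fin (ν + 1) → MvPolynomial (Fin (ν + 1)) K}
    {f : Fin (ν + 1) → MvPolynomial (Fin (ν + 1)) k} (hF : ∀ i, (F i).IsHomogeneous d) (h : GoodRed d b F f)
    {x : Fin (ν + 1) → K} {z : Fin (ν + 1) → k} (hx : Red b x z) (n : ℕ) :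
    Red b (Pool.Agent.Helper36.iter F x n) (Pool.Agent.Helper36.iter f z n) := by
  induction n with
  | zero => exact hx
  | succ n ih =>
    rw [iter_succ, iter_succ]
    exact h.step hF ih

end Pool.Agent.Helper30.TKN

end

section

namespace Pool.Agent.Helper16
end Pool.Agent.Helper16
namespace Pool.Agent.Helper36
end Pool.Agent.Helper36
namespace Pool.Agent.Helper38.TQ
end Pool.Agent.Helper38.TQ
namespace Pool.Agent.Helper30.TKN
end Pool.Agent.Helper30.TKN

/-!
# Orbits of bounded height over a function field: reduction to specialisations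
-/

set_option autoImplicit false

namespace Pool.Agent.Helper30.RED

open MvPolynomial

open Pool.Agent.Helper16 (Place IsFunctionField)

open Pool.Agent.Helper36 (step iter iter_zero iter_succ iter_succ' iter_add iter_map)

open Pool.Agent.Helper38.TQ

open Pool.Agent.Helper30.TKN

variable {ν : ℕ} {k K : Type} [Field k] [IsAlgClosed k] [Field K] [Algebra k K]

/-- A function field has infinitely many places. -/
theorem infinite_places (hK : IsFunctionField k K) : Infinite (Place k K) := by
  obtain ⟨t, ht⟩ : ∃ t : K, Transcendental k t := by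
    have h1 : Algebra.trdeg k K ≠ 0 := by rw [hK.2]; exact one_ne_zero
    rw [trdeg_ne_zero_iff] at h1
    exact h1.transcendental
  have h1 : ∀ c : k, ∃ b : Place k K, b.val (t - algebraMap k K c) < 1 := by
    intro c
    have h2 : Transcendental k (t - algebraMap k K c) := by
      intro h
      apply ht
      have h3 := h.add (isAlgebraic_algebraMap (R := k) (A := K) c)
      rwa [sub_add_cancel] at h3
    obtain ⟨S, hS, hsum, hpos⟩ := hK.zeros _ h2
    have hne : S.Nonempty := by
      rw [Finset.nonempty_iff_ne_empty]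
      rintro rfl
      rw [Finset.sum_empty] at hsum
      omega
    obtain ⟨b, hb⟩ := hne
    exact ⟨b, (hS b).1 hb⟩
  choose b hb using h1
  have hinj : Function.Injective b := by
    intro c c' hcc
    by_contra hne
    have h3 := hb c'
    rw [← hcc] at h3
    have h4 : (b c).val (algebraMap k K (c' - c)) < 1 := by
      have h5 : algebraMap k K (c' - c) = (t - algebraMap k K c) - (t - algebraMap k K c') := by
        rw [map_sub]; ring
      rw [h5]
      exact ((b c).val.map_sub _ _).trans_lt (max_lt (hb c) h3)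
    rw [(b c).triv _ (sub_ne_zero.2 (Ne.symm hne))] at h4
    exact lt_irrefl _ h4
  haveI : Infinite k := IsAlgClosed.instInfinite
  exact Infinite.of_injective b hinj

/-- A nonzero value of a form vanishes at few places. -/
theorem card_zeros_le (hK : IsFunctionField k K) {g : MvPolynomial (Fin (ν + 1)) K} {e : ℕ}
    (hg : g.IsHomogeneous e) (hg0 : g ≠ 0) {y : Fin (ν + 1) → K} (hy0 : y ≠ 0)
    (hy : eval y g ≠ 0) (T : Finset (Place k K))
    (hT : ∀ b ∈ T, b.val (eval y g) < nrm b y ^ e ∧ WithZero.log (gs b g) = 0) :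
    (T.card : ℤ) ≤ e * ht k y + ∑ᶠ b : Place k K, WithZero.log (gs b g) := by
  classical
  have h1 := nrm_support hK y hy0
  obtain ⟨h2, h3⟩ := finsum_log hK _ hy
  have h5 := formHeight_support hK hg0
  have h4 : (Function.support fun b : Place k K =>
      (e : ℤ) * WithZero.log (nrm b y)).Finite := by
    refine h1.subset ?_
    intro b hb h
    apply hb
    have h' : WithZero.log (nrm b y) = 0 := h
    show (e : ℤ) * WithZero.log (nrm b y) = 0
    rw [h', mul_zero]
  have h6 : (Function.support fun b : Place k K =>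
      (e : ℤ) * WithZero.log (nrm b y) + WithZero.log (gs b g)).Finite :=
    (h4.union h5).subset (Function.support_add _ _)
  have h7 : (Function.support fun b : Place k K =>
      (e : ℤ) * WithZero.log (nrm b y) + WithZero.log (gs b g) -
        WithZero.log (b.val (eval y g))).Finite :=
    (h6.union h2).subset (Function.support_sub _ _)
  have hsum : ∑ᶠ b : Place k K, ((e : ℤ) * WithZero.log (nrm b y) + WithZero.log (gs b g) -
      WithZero.log (b.val (eval y g))) = e * ht k y +
        ∑ᶠ b : Place k K, WithZero.log (gs b g) := by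
    unfold ht
    rw [finsum_sub_distrib h6 h2, h3, sub_zero, finsum_add_distrib h4 h5, mul_finsum]
  have hnn : ∀ b : Place k K, 0 ≤ (e : ℤ) * WithZero.log (nrm b y) + WithZero.log (gs b g) -
      WithZero.log (b.val (eval y g)) := by
    intro b
    have h0 : b.val (eval y g) ≠ 0 := (map_ne_zero b.val).2 hy
    have h1 := low_val_eval_le b hg y
    have h3 : gs b g * nrm b y ^ e ≠ 0 := by
      intro h
      rw [h, le_zero_iff] at h1
      exact h0 h1
    have h2 := (WithZero.log_le_log h0 h3).2 h1
    rw [WithZero.log_mul (left_ne_zero_of_mul h3) (right_ne_zero_of_mul h3), WithZero.log_pow,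
      nsmul_eq_mul] at h2
    linarith
  have hone : ∀ b ∈ T, 1 ≤ (e : ℤ) * WithZero.log (nrm b y) + WithZero.log (gs b g) -
      WithZero.log (b.val (eval y g)) := by
    intro b hb
    obtain ⟨hb1, hb2⟩ := hT b hb
    have h0 : b.val (eval y g) ≠ 0 := (map_ne_zero b.val).2 hy
    have hn : nrm b y ≠ 0 := nrm_ne_zero hy0
    have h3 := (WithZero.log_lt_log h0 (pow_ne_zero e hn)).2 hb1
    rw [WithZero.log_pow, nsmul_eq_mul] at h3
    rw [hb2]
    omega
  rw [← hsum, finsum_eq_sum_of_support_subset (s := h7.toFinset ∪ T) _ (by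
    rw [Finset.coe_union, Set.Finite.coe_toFinset]
    exact Set.subset_union_left)]
  calc (T.card : ℤ) = ∑ b ∈ T, (1 : ℤ) := by simp
    _ ≤ ∑ b ∈ T, ((e : ℤ) * WithZero.log (nrm b y) + WithZero.log (gs b g) -
          WithZero.log (b.val (eval y g))) := Finset.sum_le_sum hone
    _ ≤ _ := Finset.sum_le_sum_of_subset_of_nonneg Finset.subset_union_right
        fun b _ _ => hnn b

/-- The reduction of the value vanishes exactly if the value is small. -/
theorem red_eval_iff {b : Place k K} {g : MvPolynomial (Fin (ν + 1)) K} {e : ℕ}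
    (hg : g.IsHomogeneous e) {γ : MvPolynomial (Fin (ν + 1)) k} (hγ : RedP b g γ)
    {y : Fin (ν + 1) → K} {w : Fin (ν + 1) → k} (hy : Red b y w) :
    eval w γ = 0 ↔ b.val (eval y g) < nrm b y ^ e := by
  obtain ⟨hw, c, hc, h1⟩ := hy
  have hy0 : y ≠ 0 := by
    rintro rfl
    apply hw
    funext i
    by_contra h
    have h2 := h1 i
    rw [Pi.zero_apply, mul_zero, zero_sub, Valuation.map_neg, b.triv _ h] at h2
    exact lt_irrefl _ h2
  have hn : nrm b (c • y) = 1 := nrm_red hw h1
  have h2 := hγ.eval (u := c • y) (z := w) h1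
  rw [eval_smul_hom hg] at h2
  have hc' : b.val c ≠ 0 := (map_ne_zero b.val).2 hc
  have hn' : b.val c * nrm b y = 1 := by rw [← nrm_smul, hn]
  have hny : nrm b y = (b.val c)⁻¹ := eq_inv_of_mul_eq_one_right hn'
  have hiff : b.val (eval y g) < nrm b y ^ e ↔ b.val (c ^ e * eval y g) < 1 := by
    rw [hny, map_mul, map_pow, inv_pow, mul_comm, ← lt_mul_inv_iff₀ (zero_lt_iff.2
      (pow_ne_zero e hc')), one_mul]
  rw [hiff]
  constructor
  · intro h
    rwa [h, map_zero, sub_zero] at h2
  · intro h
    by_contra hne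
    have h3 : b.val (algebraMap k K (eval w γ)) < 1 := by
      have h4 : algebraMap k K (eval w γ) = c ^ e * eval y g -
          (c ^ e * eval y g - algebraMap k K (eval w γ)) := by ring
      rw [h4]
      exact (b.val.map_sub _ _).trans_lt (max_lt h h2)
    rw [b.triv _ hne] at h3
    exact lt_irrefl _ h3

/-- If the heights of the points of an orbit are bounded, then the return set to a hypersurface is
a finite intersection of return sets of specialisations. -/
theorem exists_specialisations [Algebra K ℂ] (hK : IsFunctionField k K) {d : ℕ}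
    {F : Fin (ν + 1) → MvPolynomial (Fin (ν + 1)) K}
    (hF : IsEndo d fun i => map (algebraMap K ℂ) (F i)) {x : Fin (ν + 1) → K} (hx : x ≠ 0)
    (B : ℤ) (hB : ∀ n, ht k (iter F x n) ≤ B) {g : MvPolynomial (Fin (ν + 1)) K} {e : ℕ}
    (hg : g.IsHomogeneous e) (hg0 : g ≠ 0) (A : Set (Place k K)) (hA : A.Finite) :
    ∃ (r : ℕ) (b : Fin r → Place k K) (f : Fin r → Fin (ν + 1) → MvPolynomial (Fin (ν + 1)) k)
      (z : Fin r → Fin (ν + 1) → k) (γ : Fin r → MvPolynomial (Fin (ν + 1)) k),
      (∀ s, b s ∉ A ∧ GoodRed d (b s) F (f s) ∧ Red (b s) x (z s) ∧ RedP (b s) g (γ s) ∧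
        (γ s).IsHomogeneous e) ∧
      ∀ n, eval (iter F x n) g = 0 ↔ ∀ s, eval (iter (f s) (z s) n) (γ s) = 0 := by
  classical
  have hhom : ∀ i, (F i).IsHomogeneous d := by
    intro i m hm
    refine hF.hom i ?_
    rw [coeff_map]
    simpa using hm
  haveI := infinite_places hK
  set H : ℤ := ∑ᶠ b : Place k K, WithZero.log (gs b g) with hH
  set bad : Set (Place k K) := A ∪ {b | ¬ Good d b F} ∪
    {b | WithZero.log (gs b g) ≠ 0} with hbad
  have hbadfin : bad.Finite := (hA.union (good_finite hK hF)).union (formHeight_support hK hg0)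
  have hinf : (badᶜ).Infinite := hbadfin.infinite_compl
  set r : ℕ := (e * B + H).toNat + 1 with hr
  obtain ⟨T, hT, hTc⟩ := hinf.exists_subset_card_eq r
  let ι := T.equivFin
  have hTr : T.card = r := hTc
  let b : Fin r → Place k K := fun s => ((T.equivFinOfCardEq hTr).symm s : Place k K)
  have hbT : ∀ s, b s ∈ T := fun s => ((T.equivFinOfCardEq hTr).symm s).2
  have hbinj : Function.Injective b := by
    intro s s' h
    exact (T.equivFinOfCardEq hTr).symm.injective (Subtype.ext h)
  have hnb : ∀ s, b s ∉ bad := fun s => hT (hbT s)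
  have hgood : ∀ s, Good d (b s) F := by
    intro s
    by_contra h
    exact hnb s (Or.inl (Or.inr h))
  have hlog : ∀ s, WithZero.log (gs (b s) g) = 0 := by
    intro s
    by_contra h
    exact hnb s (Or.inr h)
  have hint : ∀ s m, (b s).val (g.coeff m) ≤ 1 := by
    intro s m
    have h1 : 0 < gs (b s) g := formHeight_pos hg0
    have h3 : gs (b s) g ≤ 1 := by
      by_contra hcon
      rw [not_le] at hcon
      have h4 := (WithZero.log_lt_log one_ne_zero h1.ne').2 hcon
      rw [WithZero.log_one, hlog s] at h4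
      exact lt_irrefl _ h4
    exact (formHeight_le (b s) g m).trans h3
  choose f hf using hgood
  choose z hz using fun s => exists_red hK (b s) x hx
  choose γ hγ1 hγ2 using fun s => redP_exists hK (b s) hg (hint s)
  refine ⟨r, b, f, z, γ, fun s => ⟨fun h => hnb s (Or.inl (Or.inl h)), hf s, hz s, hγ1 s,
    hγ2 s⟩, fun n => ?_⟩
  have hred : ∀ s, Red (b s) (iter F x n) (iter (f s) (z s) n) := fun s =>
    (hf s).iter hhom (hz s) n
  have hne : iter F x n ≠ 0 := by
    intro h0
    have hr0 : 0 < r := by omega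
    obtain ⟨hw, c, hc, h1⟩ := hred ⟨0, hr0⟩
    apply hw
    funext i
    by_contra h
    have h2 := h1 i
    rw [h0, Pi.zero_apply, mul_zero, zero_sub, Valuation.map_neg, (b ⟨0, hr0⟩).triv _ h] at h2
    exact lt_irrefl _ h2
  constructor
  · intro h0 s
    rw [red_eval_iff hg (hγ1 s) (hred s), h0, map_zero]
    exact zero_lt_iff.2 (pow_ne_zero e (nrm_ne_zero hne))
  · intro hall
    by_contra h0
    have h1 := card_zeros_le hK hg hg0 hne h0 T (by
      intro b' hb'
      obtain ⟨s, rfl⟩ : ∃ s, b s = b' := by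
        refine ⟨T.equivFinOfCardEq hTr ⟨b', hb'⟩, ?_⟩
        change (((T.equivFinOfCardEq hTr).symm (T.equivFinOfCardEq hTr ⟨b', hb'⟩) : T) :
          Place k K) = b'
        rw [Equiv.symm_apply_apply]
      exact ⟨(red_eval_iff hg (hγ1 s) (hred s)).1 (hall s), hlog s⟩)
    rw [hTr, ← hH] at h1
    have h2 : (e : ℤ) * ht k (iter F x n) ≤ e * B :=
      mul_le_mul_of_nonneg_left (hB n) (Int.natCast_nonneg e)
    have h3 := Int.self_le_toNat (e * B + H)
    have h4 : (r : ℤ) = ((e * B + H).toNat : ℤ) + 1 := by rw [hr]; push_cast; ring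
    omega

end Pool.Agent.Helper30.RED

end
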