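import Pool.Agent.Helper72.TM2.T06
import Pool.Agent.Helper72.TM2.T07

section

namespace Pool.Agent.Helper16
end Pool.Agent.Helper16
namespace Pool.Agent.Helper30.TP
end Pool.Agent.Helper30.TP

/-!
# Function fields generated by complex points
-/

set_option autoImplicit false

namespace Pool.Agent.Helper38.TQ

open MvPolynomial

open Pool.Agent.Helper16 (Place IsFunctionField)

open Pool.Agent.Helper30.TP (emb_mem_range emb_isAlgebraic emb_trdeg_le)

variable {ν : ℕ}

theorem emb_alg_map {R S L : Type} [CommRing R] [CommRing S] [Field L] [Algebra R L] [Algebra S L]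
    (f : R →+* S) (hf : Function.Injective f) (hfc : ∀ r, algebraMap S L (f r) = algebraMap R L r)
    {x : L} (h : IsAlgebraic R x) : IsAlgebraic S x := by
  obtain ⟨p, hp0, hp⟩ := h
  refine ⟨p.map f, (Polynomial.map_ne_zero_iff hf).2 hp0, ?_⟩
  rw [Polynomial.aeval_def, Polynomial.eval₂_map]
  have h1 : (algebraMap S L).comp f = algebraMap R L := RingHom.ext hfc
  rw [h1, ← Polynomial.aeval_def, hp]

theorem emb_const_of_range {k : Type} [Field k] [Algebra k ℂ] {v : Fin (ν + 1) → ℂ}
    (h : ∀ j, ∃ c : k, algebraMap k ℂ c = v j) : IsConst k v := by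
  choose z hz using h
  refine ⟨z, 1, one_ne_zero, ?_⟩
  funext i
  rw [hz, one_mul]

theorem emb_range_of_const {k : Type} [Field k] [Algebra k ℂ] {v : Fin (ν + 1) → ℂ}
    {i₀ : Fin (ν + 1)} (hv : v i₀ = 1) (h : IsConst k v) (j : Fin (ν + 1)) :
    ∃ c : k, algebraMap k ℂ c = v j := by
  obtain ⟨z, c, hc, hx⟩ := h
  have h1 : c * algebraMap k ℂ (z i₀) = 1 := by rw [← hv, hx]
  have h2 : c = (algebraMap k ℂ (z i₀))⁻¹ := eq_inv_of_mul_eq_one_left h1
  refine ⟨(z i₀)⁻¹ * z j, ?_⟩
  rw [map_mul, map_inv₀, ← h2, hx]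

open IntermediateField.algebraAdjoinAdjoin in
theorem emb_transc_adjoin {k : Type} [Field k] [Algebra k ℂ] {T : Set ℂ}
    (hT : AlgebraicIndependent k ((↑) : T → ℂ)) {t : ℂ} (ht : t ∈ T) :
    Transcendental (IntermediateField.adjoin k (T \ {t})) t := by
  have h1 : Transcendental (Algebra.adjoin k (((↑) : T → ℂ) '' {y | y ≠ ⟨t, ht⟩})) t := by
    have := hT.transcendental_adjoin (s := {y | y ≠ ⟨t, ht⟩}) (i := ⟨t, ht⟩) (fun h => h rfl)
    exact this
  have h2 : ((↑) : T → ℂ) '' {y | y ≠ ⟨t, ht⟩} = T \ {t} := by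
    ext y
    constructor
    · rintro ⟨z, hz, rfl⟩
      refine ⟨z.2, fun h => hz (Subtype.ext h)⟩
    · rintro ⟨h3, h4⟩
      exact ⟨⟨y, h3⟩, fun h => h4 (congrArg Subtype.val h), rfl⟩
  rw [h2] at h1
  intro h
  apply h1
  exact (IsFractionRing.isAlgebraic_iff (Algebra.adjoin k (T \ {t}))
    (IntermediateField.adjoin k (T \ {t})) ℂ).2 h

/-- A maximal algebraically independent family of coordinates. -/
theorem emb_basis {k : Type} [Field k] [Algebra k ℂ] (s : Set ℂ) :
    ∃ T : Set ℂ, T ⊆ s ∧ AlgebraicIndependent k ((↑) : T → ℂ) ∧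
      ∀ x ∈ s, IsAlgebraic (Algebra.adjoin k T) x := by
  obtain ⟨T, -, hT⟩ := exists_maximal_algebraicIndependent (R := k) (A := ℂ) ∅ s
    (Set.empty_subset _)
    ((algebraicIndependent_empty_iff ..).mpr <| FaithfulSMul.algebraMap_injective k ℂ)
  refine ⟨T, hT.1.2, hT.1.1, ?_⟩
  intro x hx
  by_contra hno
  have h1 : AlgebraicIndepOn k id (insert x T) := by
    apply hT.1.1.insert
    rw [Set.image_id]
    exact hno
  have h2 : insert x T ⊆ T := hT.2 ⟨h1, Set.insert_subset hx hT.1.2⟩ (Set.subset_insert _ _)
  apply hno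
  exact isAlgebraic_algebraMap (⟨x, Algebra.subset_adjoin (h2 (Set.mem_insert _ _))⟩ :
    Algebra.adjoin k T)

/-- Over a suitable algebraically closed extension of `k` the coordinates of the point generate a
function field of one variable. -/
theorem exists_function_field {k : Type} [Field k] [IsAlgClosed k] [Algebra k ℂ]
    (v : Fin (ν + 1) → ℂ) (i₀ : Fin (ν + 1)) (hv : v i₀ = 1) (hvc : ¬ IsConst k v) :
    ∃ (k' : Type) (_ : Field k') (_ : IsAlgClosed k') (_ : Algebra k k') (_ : Algebra k' ℂ),
      IsScalarTower k k' ℂ ∧ ¬ IsConst k' v ∧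
        IsFunctionField k' (IntermediateField.adjoin k' (Set.range v)) := by
  obtain ⟨T, hTs, hTi, hTa⟩ := emb_basis (k := k) (Set.range v)
  have hne : T.Nonempty := by
    by_contra hempty
    rw [Set.not_nonempty_iff_eq_empty] at hempty
    apply hvc
    apply emb_const_of_range
    intro j
    apply emb_mem_range
    have h1 := hTa (v j) ⟨j, rfl⟩
    rw [hempty, Algebra.adjoin_empty] at h1
    exact h1.restrictScalars k
  obtain ⟨t, ht⟩ := hne
  obtain ⟨j₁, hj₁⟩ := hTs ht
  let K0 := IntermediateField.adjoin k (T \ {t})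
  let K' := algebraicClosure K0 ℂ
  have : IsAlgClosed K' := IsAlgClosure.isAlgClosed K0
  have htow : IsScalarTower k K' ℂ := IsScalarTower.of_algebraMap_eq (fun _ => rfl)
  have htr : Transcendental K' t := by
    intro h
    exact emb_transc_adjoin hTi ht (h.restrictScalars K0)
  refine ⟨K', inferInstance, inferInstance, inferInstance, inferInstance, htow, ?_, ?_, ?_⟩
  · intro h
    obtain ⟨c, hc⟩ := emb_range_of_const hv h j₁
    apply htr
    rw [← hj₁, ← hc]
    exact isAlgebraic_algebraMap c
  · exact IntermediateField.essFiniteType_iff.2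
      (IntermediateField.fg_adjoin_of_finite (Set.finite_range v))
  · apply le_antisymm
    · let A1 := IntermediateField.adjoin K' ({t} : Set ℂ)
      let A2 := algebraicClosure A1 ℂ
      have htow2 : IsScalarTower K' A1 A2 := IsScalarTower.of_algebraMap_eq (fun _ => rfl)
      have htr2 : Algebra.trdeg K' A2 ≤ 1 := by
        rw [← trdeg_add_eq K' A1 (A := A2), trdeg_eq_zero (R := A1) (A := A2), add_zero]
        have h1 := emb_trdeg_le (k := K') ({t} : Set ℂ)
        rwa [Cardinal.mk_singleton] at h1
      have hsub : ∀ x ∈ Algebra.adjoin k T, x ∈ A1 := by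
        intro x hx
        induction hx using Algebra.adjoin_induction with
        | mem x hx =>
          by_cases hxt : x = t
          · rw [hxt]
            exact IntermediateField.subset_adjoin _ _ rfl
          · have h2 : x ∈ K0 := IntermediateField.subset_adjoin _ _ ⟨hx, hxt⟩
            have h3 : x ∈ K' := mem_algebraicClosure_iff.2
              (isAlgebraic_algebraMap (⟨x, h2⟩ : K0))
            exact A1.algebraMap_mem ⟨x, h3⟩
        | algebraMap r => exact A1.algebraMap_mem (algebraMap k K' r)
        | add x y _ _ hx hy => exact add_mem hx hy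
        | mul x y _ _ hx hy => exact mul_mem hx hy
      have hle : IntermediateField.adjoin K' (Set.range v) ≤
          IntermediateField.restrictScalars K' A2 := by
        rw [IntermediateField.adjoin_le_iff]
        rintro _ ⟨j, rfl⟩
        have h2 : v j ∈ A2 := by
          rw [mem_algebraicClosure_iff]
          let f : Algebra.adjoin k T →+* A1 :=
            { toFun := fun r => ⟨r, hsub r r.2⟩
              map_one' := rfl
              map_mul' := fun _ _ => rfl
              map_zero' := rfl
              map_add' := fun _ _ => rfl }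
          exact emb_alg_map f (fun a b hab => Subtype.ext (congrArg (Subtype.val : A1 → ℂ) hab))
            (fun _ => rfl) (hTa (v j) ⟨j, rfl⟩)
        exact h2
      exact (trdeg_le_of_injective (IntermediateField.inclusion hle)
        (IntermediateField.inclusion_injective hle)).trans htr2
    · rw [Cardinal.one_le_iff_ne_zero, trdeg_ne_zero_iff]
      refine ⟨⟨t, IntermediateField.subset_adjoin _ _ ⟨j₁, hj₁⟩⟩, fun h => htr ?_⟩
      exact h.algHom (IntermediateField.adjoin K' (Set.range v)).val

end Pool.Agent.Helper38.TQ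

end
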