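import Pool.Agent.Helper72.TM2.T06
import Pool.Agent.Helper72.TM2.T07

section

/-!
# A third linear form which makes the projection to the plane birational
-/

set_option autoImplicit false

namespace Pool.Agent.Helper38.TQ

open MvPolynomial

variable {ν : ℕ}

/-- Homogenisation with the variable `0`. -/
noncomputable def prim_hom {K : Type} [Field K] {n : ℕ} (e : ℕ) (q : MvPolynomial (Fin n) K) :
    MvPolynomial (Fin (n + 1)) K :=
  ∑ i ∈ Finset.range (e + 1), rename Fin.succ (homogeneousComponent i q) * X 0 ^ (e - i)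

theorem prim_hom_hom {K : Type} [Field K] {n : ℕ} (e : ℕ) (q : MvPolynomial (Fin n) K) :
    (prim_hom e q).IsHomogeneous e := by
  unfold prim_hom
  apply IsHomogeneous.sum
  intro i hi
  have h1 : i ≤ e := Nat.lt_succ_iff.1 (Finset.mem_range.1 hi)
  have h2 : (rename (Fin.succ : Fin n → Fin (n + 1)) (homogeneousComponent i q)).IsHomogeneous i :=
    (homogeneousComponent_isHomogeneous i q).rename_isHomogeneous
  have h3 : (X 0 ^ (e - i) : MvPolynomial (Fin (n + 1)) K).IsHomogeneous (e - i) :=
    isHomogeneous_X_pow _ _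
  have h4 := h2.mul h3
  rwa [Nat.add_sub_cancel' h1] at h4

theorem prim_sum {K : Type} [Field K] {n : ℕ} {e : ℕ} {q : MvPolynomial (Fin n) K}
    (h : q.totalDegree ≤ e) : ∑ i ∈ Finset.range (e + 1), homogeneousComponent i q = q := by
  conv_rhs => rw [← sum_homogeneousComponent q]
  symm
  apply Finset.sum_subset
  · intro i hi
    rw [Finset.mem_range] at hi ⊢
    omega
  · intro i _ hi
    rw [Finset.mem_range, not_lt] at hi
    exact homogeneousComponent_eq_zero _ _ (by omega)

theorem prim_hom_aeval {K L : Type} [Field K] [Field L] [Algebra K L] {n : ℕ} {e : ℕ}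
    {q : MvPolynomial (Fin n) K} (hq : q.totalDegree ≤ e) (c : L) (u : Fin n → L) :
    aeval (Fin.cons c fun j => c * u j : Fin (n + 1) → L) (prim_hom e q) = c ^ e * aeval u q := by
  have hs : aeval u q = ∑ i ∈ Finset.range (e + 1), aeval u (homogeneousComponent i q) := by
    conv_lhs => rw [← prim_sum hq]
    rw [map_sum]
  unfold prim_hom
  rw [map_sum, hs, Finset.mul_sum]
  apply Finset.sum_congr rfl
  intro i hi
  have h1 : i ≤ e := Nat.lt_succ_iff.1 (Finset.mem_range.1 hi)
  rw [map_mul, map_pow, aeval_X, aeval_rename]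
  have h2 : ((Fin.cons c fun j => c * u j : Fin (n + 1) → L) ∘ Fin.succ) = fun j => c * u j := by
    funext j
    rfl
  rw [h2, Pool.Agent.Helper36.aeval_smul_homogeneous (homogeneousComponent_isHomogeneous i q)]
  have h3 : (Fin.cons c fun j => c * u j : Fin (n + 1) → L) 0 = c := rfl
  rw [h3, mul_right_comm, ← pow_add, Nat.add_sub_cancel' h1]

theorem prim_hom_ne_zero {K : Type} [Field K] {n : ℕ} {e : ℕ} {q : MvPolynomial (Fin n) K}
    (hq : q.totalDegree ≤ e) (hq0 : q ≠ 0) : prim_hom e q ≠ 0 := by
  intro h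
  apply hq0
  let g : Fin (n + 1) → MvPolynomial (Fin n) K := Fin.cons 1 X
  have h1 : aeval g (prim_hom e q) = q := by
    unfold prim_hom
    rw [map_sum]
    conv_rhs => rw [← prim_sum hq]
    apply Finset.sum_congr rfl
    intro i _
    rw [map_mul, map_pow, aeval_X, aeval_rename]
    have h2 : g 0 = 1 := rfl
    have h3 : (g ∘ Fin.succ) = (X : Fin n → MvPolynomial (Fin n) K) := by
      funext j
      rfl
    rw [h2, one_pow, mul_one, h3, aeval_X_left_apply]
  rw [← h1, h, map_zero]

/-- A form vanishing at all points of the affine chart is zero. -/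
theorem prim_form_eq_zero {K : Type} [Field K] [Infinite K] {P : MvPolynomial (Fin 3) K} {e : ℕ}
    (hP : P.IsHomogeneous e) (h : ∀ s z : K, eval ![1, s, z] P = 0) : P = 0 := by
  have h1 : X 0 * P = 0 := by
    apply MvPolynomial.funext
    intro z
    rw [map_mul, eval_X, map_zero]
    by_cases hz : z 0 = 0
    · rw [hz, zero_mul]
    · have h2 := h ((z 0)⁻¹ * z 1) ((z 0)⁻¹ * z 2)
      have h4 : (![1, (z 0)⁻¹ * z 1, (z 0)⁻¹ * z 2] : Fin 3 → K) = (z 0)⁻¹ • z := by
        funext i
        fin_cases i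
        · simp [hz]
        · rfl
        · rfl
      rw [h4, eval_smul_hom hP] at h2
      rcases mul_eq_zero.1 h2 with h3 | h3
      · exact absurd h3 (pow_ne_zero _ (inv_ne_zero hz))
      · rw [h3, mul_zero]
  rcases mul_eq_zero.1 h1 with h2 | h2
  · exact absurd h2 (X_ne_zero _)
  · exact h2

/-- The choice of a primitive element which is a combination of the generators with coefficients
in a subfield. -/
theorem prim_elem {k F E : Type} [Field k] [Infinite k] [Field F] [CharZero F] [Field E]
    [Algebra F E] (ι : k →+* F) {m : ℕ} (ξ : Fin m → E) (hξ : ∀ j, IsAlgebraic F (ξ j)) :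
    ∃ c : Fin m → k, ∀ j, ξ j ∈
      IntermediateField.adjoin F {∑ i, algebraMap F E (ι (c i)) * ξ i} := by
  classical
  set E₁ : IntermediateField F E := IntermediateField.adjoin F (Set.range ξ) with hE₁
  have hfin : FiniteDimensional F E₁ := by
    refine IntermediateField.finiteDimensional_adjoin ?_
    rintro _ ⟨j, rfl⟩
    exact (hξ j).isIntegral
  have hmem : ∀ j, ξ j ∈ E₁ := fun j => IntermediateField.subset_adjoin F _ ⟨j, rfl⟩
  let ξ' : Fin m → E₁ := fun j => ⟨ξ j, hmem j⟩
  let A := AlgebraicClosure E₁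
  let δ : (E₁ →ₐ[F] A) × (E₁ →ₐ[F] A) → Fin m → A := fun p j => p.1 (ξ' j) - p.2 (ξ' j)
  have hδ : ∀ p : (E₁ →ₐ[F] A) × (E₁ →ₐ[F] A), p.1 ≠ p.2 → ∃ j, δ p j ≠ 0 := by
    intro p hp
    by_contra hcon
    push Not at hcon
    apply hp
    refine IntermediateField.algHom_ext_of_eq_adjoin F hE₁ ?_
    rintro _ ⟨j, rfl⟩
    exact sub_eq_zero.1 (hcon j)
  let τ : k →+* A := (algebraMap F A).comp ι
  let S : (E₁ →ₐ[F] A) × (E₁ →ₐ[F] A) → Subspace k (Fin m → k) := fun p =>
    { carrier := {c | ∑ j, τ (c j) * δ p j = 0}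
      add_mem' := by
        intro a b ha hb
        change ∑ j, τ ((a + b) j) * δ p j = 0
        have ha' : ∑ j, τ (a j) * δ p j = 0 := ha
        have hb' : ∑ j, τ (b j) * δ p j = 0 := hb
        simp only [Pi.add_apply, map_add, add_mul, Finset.sum_add_distrib, ha', hb', add_zero]
      zero_mem' := by
        change ∑ j, τ ((0 : Fin m → k) j) * δ p j = 0
        simp
      smul_mem' := by
        intro r a ha
        change ∑ j, τ ((r • a) j) * δ p j = 0
        have ha' : ∑ j, τ (a j) * δ p j = 0 := ha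
        simp only [Pi.smul_apply, smul_eq_mul, map_mul, mul_assoc, ← Finset.mul_sum, ha',
          mul_zero] }
  let T : Finset (Subspace k (Fin m → k)) :=
    ((Finset.univ : Finset ((E₁ →ₐ[F] A) × (E₁ →ₐ[F] A))).filter fun p => p.1 ≠ p.2).image S
  have hT : ⊤ ∉ T := by
    intro h
    obtain ⟨p, hp, hpS⟩ := Finset.mem_image.1 h
    have hp' := (Finset.mem_filter.1 hp).2
    obtain ⟨j, hj⟩ := hδ p hp'
    have h1 : (Pi.single j 1 : Fin m → k) ∈ S p := by
      rw [hpS]
      exact Submodule.mem_top
    have h2 : ∑ i, τ ((Pi.single j 1 : Fin m → k) i) * δ p i = 0 := h1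
    rw [Finset.sum_eq_single j] at h2
    · rw [Pi.single_eq_same, map_one, one_mul] at h2
      exact hj h2
    · intro i _ hij
      rw [Pi.single_eq_of_ne hij, map_zero, zero_mul]
    · intro h3
      exact absurd (Finset.mem_univ j) h3
  have hcov := Subspace.biUnion_ne_univ_of_top_notMem hT
  obtain ⟨c, hc⟩ := (Set.ne_univ_iff_exists_notMem _).1 hcov
  refine ⟨c, fun j => ?_⟩
  set γ : E₁ := ∑ i, algebraMap F E₁ (ι (c i)) * ξ' i with hγ
  have hinj : Function.Injective fun φ : E₁ →ₐ[F] A => φ γ := by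
    intro φ ψ hφψ
    by_contra hne
    apply hc
    rw [Set.mem_iUnion₂]
    refine ⟨S (φ, ψ), Finset.mem_image.2 ⟨(φ, ψ), Finset.mem_filter.2 ⟨Finset.mem_univ _, hne⟩,
      rfl⟩, ?_⟩
    change ∑ j, τ (c j) * (φ (ξ' j) - ψ (ξ' j)) = 0
    have h1 : φ γ = ψ γ := hφψ
    rw [hγ, map_sum, map_sum] at h1
    simp only [map_mul, AlgHom.commutes] at h1
    simp only [mul_sub, Finset.sum_sub_distrib]
    exact sub_eq_zero.2 h1
  have htop : IntermediateField.adjoin F {γ} = ⊤ :=
    (Field.primitive_element_iff_algHom_eq_of_eval' F A (fun x => IsAlgClosed.splits _) γ).2 hinj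
  have h1 : ξ' j ∈ IntermediateField.adjoin F {γ} := by
    rw [htop]
    exact IntermediateField.mem_top
  have h2 : (IntermediateField.adjoin F {γ}).map E₁.val =
      IntermediateField.adjoin F {∑ i, algebraMap F E (ι (c i)) * ξ i} := by
    rw [IntermediateField.adjoin_map, Set.image_singleton]
    congr 2
    rw [hγ, map_sum]
    refine Finset.sum_congr rfl fun i _ => ?_
    rw [map_mul]
    rfl
  rw [← h2]
  exact ⟨ξ' j, h1, rfl⟩

/-- The statement over an extension field. -/
theorem prim_main {k K E : Type} [Field k] [Infinite k] [Field K] [CharZero K] [Algebra k K]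
    [Field E] [Algebra K E] (x : Fin (ν + 1) → E) (l : (Fin (ν + 1) → k) → E)
    (hl : ∀ a, l a = ∑ i, algebraMap K E (algebraMap k K (a i)) * x i) (a₀ a₁ : Fin (ν + 1) → k)
    (htr : ∀ (P : MvPolynomial (Fin 2) K) (e : ℕ), P.IsHomogeneous e → P ≠ 0 →
      aeval ![l a₀, l a₁] P ≠ 0)
    (hx : ∀ j, ∃ (P : MvPolynomial (Fin 3) K) (e : ℕ), P.IsHomogeneous e ∧ P ≠ 0 ∧
      aeval ![l a₀, l a₁, x j] P = 0) :
    ∃ (a₂ : Fin (ν + 1) → k) (e : ℕ) (V : MvPolynomial (Fin 3) K)
      (P : Fin (ν + 1) → MvPolynomial (Fin 3) K), V.IsHomogeneous e ∧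
      (∀ j, (P j).IsHomogeneous (e + 1)) ∧ aeval ![l a₀, l a₁, l a₂] V ≠ 0 ∧
      ∀ j, x j * aeval ![l a₀, l a₁, l a₂] V = aeval ![l a₀, l a₁, l a₂] (P j) := by
  classical
  have : Infinite K := Infinite.of_injective (algebraMap k K) (algebraMap k K).injective
  -- the first form is not zero
  have hl0 : l a₀ ≠ 0 := by
    have h1 := htr (X 0) 1 (isHomogeneous_X _ _) (X_ne_zero _)
    rwa [aeval_X] at h1
  set t : E := l a₁ / l a₀ with ht
  set ξ : Fin (ν + 1) → E := fun j => x j / l a₀ with hξ
  have hlt : l a₁ = l a₀ * t := by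
    rw [ht]
    field_simp
  have hxξ : ∀ j, x j = l a₀ * ξ j := by
    intro j
    simp only [hξ]
    field_simp
  -- `t` is transcendental
  have htt : Transcendental K t := by
    rw [transcendental_iff]
    intro p hp
    by_contra hp0
    set q : MvPolynomial (Fin 1) K := Polynomial.aeval (X 0) p with hq
    have hq0 : q ≠ 0 := by
      intro h
      apply hp0
      have h1 : aeval (fun _ : Fin 1 => (Polynomial.X : Polynomial K)) q = p := by
        rw [hq, ← Polynomial.aeval_algHom_apply, aeval_X, Polynomial.aeval_X_left_apply]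
      rw [← h1, h, map_zero]
    apply htr (prim_hom q.totalDegree q) _ (prim_hom_hom _ _) (prim_hom_ne_zero le_rfl hq0)
    have h1 := prim_hom_aeval (L := E) (q := q) le_rfl (l a₀) (fun _ => t)
    have h2 : (Fin.cons (l a₀) fun _ => l a₀ * t : Fin 2 → E) = ![l a₀, l a₁] := by
      funext i
      fin_cases i
      · rfl
      · exact hlt.symm
    rw [h2] at h1
    rw [h1]
    have h3 : aeval (fun _ : Fin 1 => t) q = Polynomial.aeval t p := by
      rw [hq, ← Polynomial.aeval_algHom_apply, aeval_X]
    rw [h3, hp, mul_zero]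
  -- the field generated by `t`
  set F₁ : IntermediateField K E := IntermediateField.adjoin K {t} with hF₁
  have htF : t ∈ F₁ := IntermediateField.subset_adjoin K _ rfl
  have halg : ∀ j, IsAlgebraic F₁ (ξ j) := by
    intro j
    obtain ⟨P, e, hP, hP0, hPx⟩ := hx j
    set g : Polynomial F₁ :=
      aeval (![1, Polynomial.C ⟨t, htF⟩, Polynomial.X] : Fin 3 → Polynomial F₁) P with hg
    have hge : ∀ z : E, Polynomial.aeval z g = aeval (![1, t, z] : Fin 3 → E) P := by
      intro z
      have h1 : ((Polynomial.aeval z : Polynomial F₁ →ₐ[F₁] E).restrictScalars K).comp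
          (aeval (![1, Polynomial.C ⟨t, htF⟩, Polynomial.X] : Fin 3 → Polynomial F₁)) =
          (aeval (![1, t, z] : Fin 3 → E)) := by
        apply MvPolynomial.algHom_ext
        intro i
        rw [AlgHom.comp_apply, aeval_X, aeval_X]
        fin_cases i
        · exact map_one _
        · change Polynomial.aeval z (Polynomial.C (⟨t, htF⟩ : F₁)) = t
          rw [Polynomial.aeval_C]
          rfl
        · change Polynomial.aeval z (Polynomial.X : Polynomial F₁) = z
          rw [Polynomial.aeval_X]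
      exact congrArg (fun φ => φ P) h1
    refine ⟨g, ?_, ?_⟩
    · intro hg0
      apply hP0
      apply prim_form_eq_zero hP
      intro s z
      -- a polynomial in one variable which vanishes at `t`
      set p : Polynomial K := aeval (![1, Polynomial.X, Polynomial.C z] : Fin 3 → Polynomial K) P
        with hp
      have h1 : Polynomial.aeval t p = 0 := by
        have h2 : (Polynomial.aeval t : Polynomial K →ₐ[K] E).comp
            (aeval (![1, Polynomial.X, Polynomial.C z] : Fin 3 → Polynomial K)) =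
            (aeval (![1, t, algebraMap K E z] : Fin 3 → E)) := by
          apply MvPolynomial.algHom_ext
          intro i
          rw [AlgHom.comp_apply, aeval_X, aeval_X]
          fin_cases i
          · exact map_one _
          · change Polynomial.aeval t (Polynomial.X : Polynomial K) = t
            rw [Polynomial.aeval_X]
          · change Polynomial.aeval t (Polynomial.C z) = algebraMap K E z
            rw [Polynomial.aeval_C]
        have h3 : Polynomial.aeval t p = aeval (![1, t, algebraMap K E z] : Fin 3 → E) P :=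
          congrArg (fun φ => φ P) h2
        rw [h3, ← hge, hg0, map_zero]
      have h2 : p = 0 := (transcendental_iff.1 htt) p h1
      have h3 : (Polynomial.aeval s : Polynomial K →ₐ[K] K).comp
          (aeval (![1, Polynomial.X, Polynomial.C z] : Fin 3 → Polynomial K)) =
          (aeval (![1, s, z] : Fin 3 → K)) := by
        apply MvPolynomial.algHom_ext
        intro i
        rw [AlgHom.comp_apply, aeval_X, aeval_X]
        fin_cases i
        · exact map_one _
        · change Polynomial.aeval s (Polynomial.X : Polynomial K) = s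
          rw [Polynomial.aeval_X]
        · change Polynomial.aeval s (Polynomial.C z) = z
          rw [Polynomial.aeval_C]
          rfl
      have h4 : Polynomial.aeval s p = aeval (![1, s, z] : Fin 3 → K) P :=
        congrArg (fun φ => φ P) h3
      rw [h2, map_zero] at h4
      rw [← coe_aeval_eq_eval]
      exact h4.symm
    · rw [hge]
      have h1 := Pool.Agent.Helper36.aeval_smul_homogeneous hP (l a₀) (![1, t, ξ j] : Fin 3 → E)
      have h2 : (fun i => l a₀ * (![1, t, ξ j] : Fin 3 → E) i) = ![l a₀, l a₁, x j] := by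
        funext i
        fin_cases i
        · exact mul_one _
        · exact hlt.symm
        · exact (hxξ j).symm
      rw [h2, hPx] at h1
      rcases mul_eq_zero.1 h1.symm with h3 | h3
      · exact absurd h3 (pow_ne_zero _ hl0)
      · exact h3
  -- the primitive element
  obtain ⟨c, hc⟩ := prim_elem (k := k) ((algebraMap K F₁).comp (algebraMap k K)) ξ halg
  set γ : E := ∑ i, algebraMap F₁ E (((algebraMap K F₁).comp (algebraMap k K)) (c i)) * ξ i
    with hγ
  have hlγ : l c = l a₀ * γ := by
    rw [hl, hγ, Finset.mul_sum]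
    refine Finset.sum_congr rfl fun i _ => ?_
    rw [hxξ i]
    have h1 : algebraMap F₁ E (((algebraMap K F₁).comp (algebraMap k K)) (c i)) =
        algebraMap K E (algebraMap k K (c i)) := rfl
    rw [h1]
    ring
  have hrat : ∀ j, ∃ r s : MvPolynomial (Fin 2) K, aeval ![t, γ] s ≠ 0 ∧
      ξ j * aeval ![t, γ] s = aeval ![t, γ] r := by
    intro j
    have h1 : ξ j ∈ (IntermediateField.adjoin F₁ {γ}).restrictScalars K := hc j
    rw [hF₁, IntermediateField.adjoin_adjoin_left] at h1
    have h2 : ({t} ∪ {γ} : Set E) = Set.range (![t, γ] : Fin 2 → E) := by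
      rw [Matrix.range_cons, Matrix.range_cons, Matrix.range_empty, Set.union_empty]
    rw [h2, IntermediateField.mem_adjoin_range_iff] at h1
    obtain ⟨r, s, h3⟩ := h1
    by_cases hs : aeval ![t, γ] s = 0
    · refine ⟨0, 1, by simp, ?_⟩
      rw [h3, hs, div_zero]
      simp
    · refine ⟨r, s, hs, ?_⟩
      rw [h3, div_mul_cancel₀ _ hs]
  choose r s hs hrs using hrat
  set V₀ : MvPolynomial (Fin 2) K := ∏ i, s i with hV₀
  set P₀ : Fin (ν + 1) → MvPolynomial (Fin 2) K := fun j => r j * ∏ i ∈ Finset.univ.erase j, s i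
    with hP₀
  have hV₀t : aeval ![t, γ] V₀ ≠ 0 := by
    rw [hV₀, map_prod]
    exact Finset.prod_ne_zero_iff.2 fun i _ => hs i
  have hP₀t : ∀ j, ξ j * aeval ![t, γ] V₀ = aeval ![t, γ] (P₀ j) := by
    intro j
    simp only [hP₀, hV₀]
    rw [← Finset.mul_prod_erase Finset.univ s (Finset.mem_univ j), map_mul, map_mul, ← mul_assoc,
      hrs j]
  set e : ℕ := V₀.totalDegree + ∑ j, (P₀ j).totalDegree with he
  have hVe : V₀.totalDegree ≤ e := Nat.le_add_right _ _
  have hPe : ∀ j, (P₀ j).totalDegree ≤ e + 1 := by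
    intro j
    have h1 : (P₀ j).totalDegree ≤ ∑ j, (P₀ j).totalDegree :=
      Finset.single_le_sum (f := fun j => (P₀ j).totalDegree) (fun _ _ => Nat.zero_le _)
        (Finset.mem_univ j)
    omega
  have hvec : (Fin.cons (l a₀) fun j => l a₀ * (![t, γ] : Fin 2 → E) j : Fin 3 → E) =
      ![l a₀, l a₁, l c] := by
    funext i
    fin_cases i
    · rfl
    · exact hlt.symm
    · exact hlγ.symm
  have hVev : aeval ![l a₀, l a₁, l c] (prim_hom e V₀) = l a₀ ^ e * aeval ![t, γ] V₀ := by
    rw [← hvec]
    exact prim_hom_aeval hVe _ _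
  have hPev : ∀ j, aeval ![l a₀, l a₁, l c] (prim_hom (e + 1) (P₀ j)) =
      l a₀ ^ (e + 1) * aeval ![t, γ] (P₀ j) := by
    intro j
    rw [← hvec]
    exact prim_hom_aeval (hPe j) _ _
  refine ⟨c, e, prim_hom e V₀, fun j => prim_hom (e + 1) (P₀ j), prim_hom_hom _ _,
    fun j => prim_hom_hom _ _, ?_, ?_⟩
  · rw [hVev]
    exact mul_ne_zero (pow_ne_zero _ hl0) hV₀t
  · intro j
    rw [hVev, hPev, ← hP₀t j, hxξ j, pow_succ]
    ring

theorem prim_germ {K : Type} [Field K] {U : Ultrafilter ℕ} [Algebra K (Filter.Germ (U : Filter ℕ) K)]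
    (hA : ∀ a : K, algebraMap K (Filter.Germ (U : Filter ℕ) K) a =
      ((fun _ => a : ℕ → K) : Filter.Germ (U : Filter ℕ) K))
    {m : ℕ} (f : Fin m → ℕ → K) (P : MvPolynomial (Fin m) K) :
    aeval (fun j => ((f j : ℕ → K) : Filter.Germ (U : Filter ℕ) K)) P =
      ((fun n => eval (fun j => f j n) P : ℕ → K) : Filter.Germ (U : Filter ℕ) K) := by
  have h1 : (aeval (fun j => ((f j : ℕ → K) : Filter.Germ (U : Filter ℕ) K)) :
      MvPolynomial (Fin m) K →ₐ[K] Filter.Germ (U : Filter ℕ) K).toRingHom =
      (Filter.Germ.coeRingHom (U : Filter ℕ)).comp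
        (RingHom.pi fun n => (eval fun j => f j n)) := by
    apply MvPolynomial.ringHom_ext
    · intro a
      change aeval _ (C a) = _
      rw [aeval_C, hA]
      change _ = ((fun n => eval (fun j => f j n) (C a) : ℕ → K) : Filter.Germ (U : Filter ℕ) K)
      congr 1
      funext n
      rw [eval_C]
    · intro i
      change aeval _ (X i) = _
      rw [aeval_X]
      change _ = ((fun n => eval (fun j => f j n) (X i) : ℕ → K) : Filter.Germ (U : Filter ℕ) K)
      congr 1
      funext n
      rw [eval_X]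
  exact congrArg (fun φ => φ P) h1

theorem exists_third_form {k K : Type} [Field k] [Infinite k] [Field K] [CharZero K] [Algebra k K]
    {x : ℕ → Fin (ν + 1) → K} {U : Ultrafilter ℕ} (hx : OnCurve U x) (a₀ a₁ : Fin (ν + 1) → k)
    (htr : ∀ (P : MvPolynomial (Fin 2) K) (e : ℕ), P.IsHomogeneous e → P ≠ 0 →
      ¬ ∀ᶠ n in (U : Filter ℕ), eval ![lin a₀ (x n), lin a₁ (x n)] P = 0) :
    ∃ (a₂ : Fin (ν + 1) → k) (e : ℕ) (V : MvPolynomial (Fin 3) K)
      (P : Fin (ν + 1) → MvPolynomial (Fin 3) K), V.IsHomogeneous e ∧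
      (∀ j, (P j).IsHomogeneous (e + 1)) ∧
      ∀ᶠ n in (U : Filter ℕ), eval ![lin a₀ (x n), lin a₁ (x n), lin a₂ (x n)] V ≠ 0 ∧
        ∀ j, x n j * eval ![lin a₀ (x n), lin a₁ (x n), lin a₂ (x n)] V =
          eval ![lin a₀ (x n), lin a₁ (x n), lin a₂ (x n)] (P j) := by
  let E := Filter.Germ (U : Filter ℕ) K
  let instA : Algebra K E :=
    ((Filter.Germ.coeRingHom (U : Filter ℕ)).comp (Pi.constRingHom ℕ K)).toAlgebra
  have hA : ∀ a : K, algebraMap K E a = ((fun _ => a : ℕ → K) : E) := fun a => rfl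
  let xs : Fin (ν + 1) → E := fun j => ((fun n => x n j : ℕ → K) : E)
  let l : (Fin (ν + 1) → k) → E := fun a => ((fun n => lin a (x n) : ℕ → K) : E)
  have hl : ∀ a, l a = ∑ i, algebraMap K E (algebraMap k K (a i)) * xs i := by
    intro a
    have h1 : l a = Filter.Germ.coeRingHom (U : Filter ℕ)
        (∑ i, (fun n => algebraMap k K (a i) * x n i : ℕ → K)) := by
      change ((fun n => lin a (x n) : ℕ → K) : E) = ((_ : ℕ → K) : E)
      congr 1
      funext n
      rw [Finset.sum_apply]
      rfl
    rw [h1, map_sum]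
    refine Finset.sum_congr rfl fun i _ => ?_
    rw [hA]
    rfl
  have hev2 : ∀ (f g : ℕ → K) (P : MvPolynomial (Fin 2) K),
      aeval (![(f : E), (g : E)] : Fin 2 → E) P =
        ((fun n => eval ![f n, g n] P : ℕ → K) : E) := by
    intro f g P
    have h1 := prim_germ hA (![f, g] : Fin 2 → ℕ → K) P
    have h2 : (fun j => ((![f, g] : Fin 2 → ℕ → K) j : E)) = ![(f : E), (g : E)] := by
      funext j
      fin_cases j <;> rfl
    have h3 : (fun n => eval (fun j => (![f, g] : Fin 2 → ℕ → K) j n) P : ℕ → K) =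
        fun n => eval ![f n, g n] P := by
      funext n
      congr 2
      funext j
      fin_cases j <;> rfl
    rw [h2, h3] at h1
    exact h1
  have hev3 : ∀ (f g h : ℕ → K) (P : MvPolynomial (Fin 3) K),
      aeval (![(f : E), (g : E), (h : E)] : Fin 3 → E) P =
        ((fun n => eval ![f n, g n, h n] P : ℕ → K) : E) := by
    intro f g h P
    have h1 := prim_germ hA (![f, g, h] : Fin 3 → ℕ → K) P
    have h2 : (fun j => ((![f, g, h] : Fin 3 → ℕ → K) j : E)) = ![(f : E), (g : E), (h : E)] := by
      funext j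
      fin_cases j <;> rfl
    have h3 : (fun n => eval (fun j => (![f, g, h] : Fin 3 → ℕ → K) j n) P : ℕ → K) =
        fun n => eval ![f n, g n, h n] P := by
      funext n
      congr 2
      funext j
      fin_cases j <;> rfl
    rw [h2, h3] at h1
    exact h1
  have hzero : ∀ f : ℕ → K, ((f : E) = 0) ↔ ∀ᶠ n in (U : Filter ℕ), f n = 0 := by
    intro f
    exact Filter.Germ.coe_eq
  obtain ⟨a₂, e, V, P, hV, hP, hne, heq⟩ := prim_main (E := E) xs l hl a₀ a₁ (by
    intro P e hP hP0 h
    apply htr P e hP hP0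
    have h1 := hev2 (fun n => lin a₀ (x n)) (fun n => lin a₁ (x n)) P
    rw [← hzero, ← h1]
    exact h) (by
    intro j
    obtain ⟨P, e, hP, hP0, h⟩ := hx ![fun i => algebraMap k K (a₀ i),
      fun i => algebraMap k K (a₁ i), Pi.single j 1]
    refine ⟨P, e, hP, hP0, ?_⟩
    have h1 := hev3 (fun n => lin a₀ (x n)) (fun n => lin a₁ (x n)) (fun n => x n j) P
    refine h1.trans ((hzero _).2 ?_)
    filter_upwards [h] with n hn
    rw [← hn]
    congr 2
    funext i
    fin_cases i
    · rfl
    · rfl
    · change x n j = ∑ i, (Pi.single j 1 : Fin (ν + 1) → K) i * x n i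
      rw [Finset.sum_eq_single j]
      · rw [Pi.single_eq_same, one_mul]
      · intro i _ hij
        rw [Pi.single_eq_of_ne hij, zero_mul]
      · intro h3
        exact absurd (Finset.mem_univ j) h3)
  refine ⟨a₂, e, V, P, hV, hP, ?_⟩
  have h1 := hev3 (fun n => lin a₀ (x n)) (fun n => lin a₁ (x n)) (fun n => lin a₂ (x n)) V
  have hVn : ∀ᶠ n in (U : Filter ℕ),
      eval ![lin a₀ (x n), lin a₁ (x n), lin a₂ (x n)] V ≠ 0 := by
    refine Ultrafilter.eventually_not.2 ?_
    intro hcon
    apply hne
    exact h1.trans ((hzero _).2 hcon)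
  have hPn : ∀ᶠ n in (U : Filter ℕ), ∀ j, x n j *
      eval ![lin a₀ (x n), lin a₁ (x n), lin a₂ (x n)] V =
        eval ![lin a₀ (x n), lin a₁ (x n), lin a₂ (x n)] (P j) := by
    rw [Filter.eventually_all]
    intro j
    have h2 := hev3 (fun n => lin a₀ (x n)) (fun n => lin a₁ (x n)) (fun n => lin a₂ (x n)) (P j)
    have h3 := heq j
    have h4 : xs j * aeval ![l a₀, l a₁, l a₂] V =
        ((fun n => x n j * eval ![lin a₀ (x n), lin a₁ (x n), lin a₂ (x n)] V : ℕ → K) : E) := by
      have h5 : aeval ![l a₀, l a₁, l a₂] V =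
        ((fun n => eval ![lin a₀ (x n), lin a₁ (x n), lin a₂ (x n)] V : ℕ → K) : E) := h1
      rw [h5]
      rfl
    have h6 : aeval ![l a₀, l a₁, l a₂] (P j) =
        ((fun n => eval ![lin a₀ (x n), lin a₁ (x n), lin a₂ (x n)] (P j) : ℕ → K) : E) := h2
    rw [h4, h6] at h3
    exact Filter.Germ.coe_eq.1 h3
  exact hVn.and hPn

end Pool.Agent.Helper38.TQ

end

section

namespace Pool.Agent.Helper16
end Pool.Agent.Helper16
namespace Pool.Agent.Helper30.TP
end Pool.Agent.Helper30.TP

/-!
# The cross product of two points dominates the minors of two forms of the same degree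
-/

set_option autoImplicit false

namespace Pool.Agent.Helper38.TQ

open MvPolynomial

open Pool.Agent.Helper16 (Place IsFunctionField)

open Pool.Agent.Helper30.TP (gs nrm)

/-- A monomial of positive degree has a variable. -/
theorem exists_single {m : Fin 3 →₀ ℕ} {e : ℕ} (hm : m.degree = e + 1) :
    ∃ (i : Fin 3) (m' : Fin 3 →₀ ℕ), m = m' + Finsupp.single i 1 ∧ m'.degree = e := by
  obtain ⟨i, hi⟩ : ∃ i, m i ≠ 0 := by
    by_contra hcon
    push Not at hcon
    have : m = 0 := Finsupp.ext hcon
    rw [this] at hm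
    simp at hm
  have h1 : Finsupp.single i 1 ≤ m := by
    rw [Finsupp.single_le_iff]
    omega
  refine ⟨i, m - Finsupp.single i 1, (tsub_add_cancel_of_le h1).symm, ?_⟩
  have h2 : m.degree = (m - Finsupp.single i 1).degree + 1 := by
    conv_lhs => rw [← tsub_add_cancel_of_le h1]
    rw [map_add, Finsupp.degree_single]
  omega

/-- The value of a monomial. -/
def wmon {K : Type} [Field K] (y : Fin 3 → K) (m : Fin 3 →₀ ℕ) : K := ∏ i, y i ^ m i

theorem wmon_add_single {K : Type} [Field K] (y : Fin 3 → K) (m : Fin 3 →₀ ℕ) (i : Fin 3) :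
    wmon y (m + Finsupp.single i 1) = wmon y m * y i := by
  classical
  unfold wmon
  simp only [Finsupp.add_apply, pow_add, Finset.prod_mul_distrib]
  congr 1
  rw [Finset.prod_eq_single i]
  · simp
  · intro j _ hj
    rw [Finsupp.single_apply, if_neg (Ne.symm hj), pow_zero]
  · intro h
    exact absurd (Finset.mem_univ _) h

theorem val_wmon_le {k K : Type} [Field k] [Field K] [Algebra k K] (b : Place k K)
    (y : Fin 3 → K) : ∀ (e : ℕ) (m : Fin 3 →₀ ℕ), m.degree = e →
      b.val (wmon y m) ≤ nrm b y ^ e := by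
  intro e
  induction e with
  | zero =>
    intro m hm
    have h0 : m = 0 := by
      rwa [Finsupp.degree_eq_zero_iff] at hm
    rw [h0]
    simp [wmon]
  | succ e ih =>
    intro m hm
    obtain ⟨i, m', rfl, hm'⟩ := exists_single hm
    rw [wmon_add_single, map_mul, pow_succ]
    exact mul_le_mul' (ih m' hm') (Pool.Agent.Helper30.TP.val_le_nrm b y i)

theorem wmon_wedge {k K : Type} [Field k] [Field K] [Algebra k K] (b : Place k K)
    (y y' : Fin 3 → K) : ∀ (e : ℕ) (m n : Fin 3 →₀ ℕ), m.degree = e + 1 → n.degree = e + 1 →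
      b.val (wmon y m * wmon y' n - wmon y n * wmon y' m) ≤
        nrm b (crossProduct y y') * nrm b y ^ e * nrm b y' ^ e := by
  intro e
  induction e with
  | zero =>
    intro m n hm hn
    obtain ⟨i, m', rfl, hm'⟩ := exists_single hm
    obtain ⟨j, n', rfl, hn'⟩ := exists_single hn
    have h1 : m' = 0 := by rwa [Finsupp.degree_eq_zero_iff] at hm'
    have h2 : n' = 0 := by rwa [Finsupp.degree_eq_zero_iff] at hn'
    subst h1
    subst h2
    rw [wmon_add_single, wmon_add_single, wmon_add_single, wmon_add_single]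
    have h3 : ∀ z : Fin 3 → K, wmon z 0 = 1 := fun z => by simp [wmon]
    rw [h3, h3, one_mul, one_mul, one_mul, one_mul, pow_zero, pow_zero, mul_one, mul_one]
    exact Pool.Agent.Helper30.TP.Cl_val_pq b y y' i j
  | succ e ih =>
    intro m n hm hn
    obtain ⟨i, m', rfl, hm'⟩ := exists_single hm
    obtain ⟨j, n', rfl, hn'⟩ := exists_single hn
    rw [wmon_add_single, wmon_add_single, wmon_add_single, wmon_add_single]
    have h1 : wmon y m' * y i * (wmon y' n' * y' j) - wmon y n' * y j * (wmon y' m' * y' i) =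
        wmon y m' * wmon y' n' * (y i * y' j - y j * y' i) +
          y j * y' i * (wmon y m' * wmon y' n' - wmon y n' * wmon y' m') := by ring
    rw [h1]
    refine (b.val.map_add _ _).trans (max_le ?_ ?_)
    · rw [map_mul, map_mul]
      calc b.val (wmon y m') * b.val (wmon y' n') * b.val (y i * y' j - y j * y' i)
          ≤ nrm b y ^ (e + 1) * nrm b y' ^ (e + 1) * nrm b (crossProduct y y') :=
            mul_le_mul' (mul_le_mul' (val_wmon_le b y _ _ hm') (val_wmon_le b y' _ _ hn'))
              (Pool.Agent.Helper30.TP.Cl_val_pq b y y' i j)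
        _ = _ := by rw [mul_comm, mul_assoc]
    · rw [map_mul, map_mul]
      calc b.val (y j) * b.val (y' i) * b.val (wmon y m' * wmon y' n' - wmon y n' * wmon y' m')
          ≤ nrm b y * nrm b y' * (nrm b (crossProduct y y') * nrm b y ^ e * nrm b y' ^ e) :=
            mul_le_mul' (mul_le_mul' (Pool.Agent.Helper30.TP.val_le_nrm b y j)
              (Pool.Agent.Helper30.TP.val_le_nrm b y' i)) (ih m' n' hm' hn')
        _ = _ := by
          rw [pow_succ, pow_succ]
          ac_rfl

theorem wedge_le {k K : Type} [Field k] [Field K] [Algebra k K] (b : Place k K) {e : ℕ}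
    {P Q : MvPolynomial (Fin 3) K} (hP : P.IsHomogeneous (e + 1)) (hQ : Q.IsHomogeneous (e + 1))
    (y y' : Fin 3 → K) :
    b.val (eval y P * eval y' Q - eval y Q * eval y' P) ≤
      gs b P * gs b Q * (nrm b (crossProduct y y') * nrm b y ^ e * nrm b y' ^ e) := by
  classical
  have hev : ∀ (R : MvPolynomial (Fin 3) K) (z : Fin 3 → K),
      eval z R = ∑ m ∈ R.support, R.coeff m * wmon z m := by
    intro R z
    rw [eval_eq']
    rfl
  have h1 : eval y P * eval y' Q - eval y Q * eval y' P =
      ∑ m ∈ P.support, ∑ n ∈ Q.support,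
        P.coeff m * Q.coeff n * (wmon y m * wmon y' n - wmon y n * wmon y' m) := by
    rw [hev, hev, hev, hev, Finset.sum_mul_sum, Finset.sum_mul_sum, Finset.sum_comm (s := Q.support),
      ← Finset.sum_sub_distrib]
    refine Finset.sum_congr rfl fun m _ => ?_
    rw [← Finset.sum_sub_distrib]
    refine Finset.sum_congr rfl fun n _ => ?_
    ring
  rw [h1]
  refine b.val.map_sum_le fun m hm => b.val.map_sum_le fun n hn => ?_
  rw [map_mul, map_mul]
  have hdm : m.degree = e + 1 := by
    have := hP (mem_support_iff.1 hm)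
    rw [← this, Finsupp.degree_eq_weight_one]
    rfl
  have hdn : n.degree = e + 1 := by
    have := hQ (mem_support_iff.1 hn)
    rw [← this, Finsupp.degree_eq_weight_one]
    rfl
  exact mul_le_mul' (mul_le_mul' (Pool.Agent.Helper30.TP.formHeight_le b P m)
    (Pool.Agent.Helper30.TP.formHeight_le b Q n)) (wmon_wedge b y y' e m n hdm hdn)

end Pool.Agent.Helper38.TQ

end
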