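import Pool.Agent.Helper72.TM2.T07

section

namespace Pool.Agent.Helper16
end Pool.Agent.Helper16
namespace Pool.Agent.Helper36
end Pool.Agent.Helper36

/-!
# Places over a given point; unions of progressions
-/

set_option autoImplicit false

namespace Pool.Agent.Helper30.TP

open MvPolynomial

open Pool.Agent.Helper16 (Place IsFunctionField)

open Pool.Agent.Helper36 (step iter)

/-- The progression with difference `q` which starts at `r`. -/
def Plc_ap (p : ℕ × ℕ) : Set ℕ := {n | ∃ m, n = p.1 * m + p.2}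

theorem union_of_ultra (S : Set ℕ)
    (h : ∀ U : Ultrafilter ℕ, Free U → S ∈ U → ∃ q r : ℕ, {n | ∃ m, n = q * m + r} ∈ U ∧
      {n | ∃ m, n = q * m + r} ⊆ S) :
    ∃ T : Finset (ℕ × ℕ), S = {n : ℕ | ∃ p ∈ T, ∃ m : ℕ, n = p.1 * m + p.2} := by
  classical
  by_cases hcov : ∃ T : Finset (ℕ × ℕ), (∀ p ∈ T, Plc_ap p ⊆ S) ∧
      (S \ ⋃ p ∈ T, Plc_ap p).Finite
  · obtain ⟨T, hT, hfin⟩ := hcov
    refine ⟨T ∪ hfin.toFinset.image fun n => ((0 : ℕ), n), ?_⟩
    ext n
    simp only [Set.mem_ofPred_eq, Finset.mem_union, Finset.mem_image, Set.Finite.mem_toFinset]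
    constructor
    · intro hn
      by_cases hn1 : n ∈ ⋃ p ∈ T, Plc_ap p
      · rw [Set.mem_iUnion₂] at hn1
        obtain ⟨p, hp, hn2⟩ := hn1
        exact ⟨p, Or.inl hp, hn2⟩
      · exact ⟨(0, n), Or.inr ⟨n, ⟨hn, hn1⟩, rfl⟩, 0, by simp⟩
    · rintro ⟨p, hp | ⟨n', hn', rfl⟩, m, hm⟩
      · exact hT p hp ⟨m, hm⟩
      · have : n = n' := by simpa using hm
        rw [this]
        exact hn'.1
  · exfalso
    push Not at hcov
    -- the filter
    let F : Filter ℕ :=
      { sets := {A | ∃ (T : Finset (ℕ × ℕ)) (E : Finset ℕ), (∀ p ∈ T, Plc_ap p ⊆ S) ∧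
          (S \ ⋃ p ∈ T, Plc_ap p) \ (E : Set ℕ) ⊆ A}
        univ_sets := ⟨∅, ∅, by simp, Set.subset_univ _⟩
        sets_of_superset := by
          rintro A A' ⟨T, E, hT, hA⟩ hAA'
          exact ⟨T, E, hT, hA.trans hAA'⟩
        inter_sets := by
          rintro A A' ⟨T, E, hT, hA⟩ ⟨T', E', hT', hA'⟩
          refine ⟨T ∪ T', E ∪ E', ?_, ?_⟩
          · intro p hp
            rcases Finset.mem_union.1 hp with hp | hp
            · exact hT p hp
            · exact hT' p hp
          · rintro n ⟨⟨hn1, hn2⟩, hn3⟩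
            rw [Set.mem_iUnion₂] at hn2
            rw [Finset.coe_union] at hn3
            refine ⟨hA ⟨⟨hn1, ?_⟩, fun h0 => hn3 (Or.inl h0)⟩,
              hA' ⟨⟨hn1, ?_⟩, fun h0 => hn3 (Or.inr h0)⟩⟩
            · rw [Set.mem_iUnion₂]
              rintro ⟨p, hp, hn4⟩
              exact hn2 ⟨p, Finset.mem_union_left _ hp, hn4⟩
            · rw [Set.mem_iUnion₂]
              rintro ⟨p, hp, hn4⟩
              exact hn2 ⟨p, Finset.mem_union_right _ hp, hn4⟩ }
    have hmemF : ∀ A : Set ℕ, A ∈ F ↔ ∃ (T : Finset (ℕ × ℕ)) (E : Finset ℕ),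
        (∀ p ∈ T, Plc_ap p ⊆ S) ∧ (S \ ⋃ p ∈ T, Plc_ap p) \ (E : Set ℕ) ⊆ A := fun A => Iff.rfl
    have : F.NeBot := by
      rw [Filter.neBot_iff]
      intro hbot
      have h1 : (∅ : Set ℕ) ∈ F := by rw [hbot]; exact Filter.mem_bot
      obtain ⟨T, E, hT, hE⟩ := (hmemF _).1 h1
      apply hcov T hT
      refine (Finset.finite_toSet E).subset ?_
      intro n hn
      by_contra hn1
      exact hE ⟨hn, hn1⟩
    have hle : (Ultrafilter.of F : Filter ℕ) ≤ F := Ultrafilter.of_le F
    have hfree : Free (Ultrafilter.of F) := by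
      intro m
      apply hle
      refine ⟨∅, Finset.range m, by simp, ?_⟩
      rintro n ⟨-, hn⟩
      rw [Finset.coe_range] at hn
      exact not_lt.1 (fun h0 => hn (Set.mem_Iio.2 h0))
    have hS : S ∈ Ultrafilter.of F := by
      apply hle
      refine ⟨∅, ∅, by simp, ?_⟩
      rintro n ⟨⟨hn, -⟩, -⟩
      exact hn
    obtain ⟨q, r, h1, h2⟩ := h _ hfree hS
    have h3 : ({n | ∃ m, n = q * m + r}ᶜ : Set ℕ) ∈ Ultrafilter.of F := by
      apply hle
      refine ⟨{(q, r)}, ∅, ?_, ?_⟩
      · intro p hp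
        rw [Finset.mem_singleton.1 hp]
        exact h2
      · rintro n ⟨⟨-, hn⟩, -⟩ hn1
        apply hn
        rw [Set.mem_iUnion₂]
        exact ⟨(q, r), Finset.mem_singleton_self _, hn1⟩
    exact (Ultrafilter.compl_mem_iff_notMem.1 h3) h1

end Pool.Agent.Helper30.TP

end

section

namespace Pool.Agent.Helper16
end Pool.Agent.Helper16

/-!
# Orders of polynomials in a uniformizer
-/

set_option autoImplicit false

namespace Pool.Agent.Helper38.TPN

open Polynomial

open Pool.Agent.Helper16 (Place IsFunctionField)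

section ev

variable {A B L M : Type} [CommRing A] [CommRing B] [CommRing L] [CommRing M]

/-- The evaluation of polynomials in two variables. -/
noncomputable def ev2 (f : A →+* L) (s y : L) : A[X][X] →+* L :=
  eval₂RingHom (eval₂RingHom f s) y

theorem ev2_apply (f : A →+* L) (s y : L) (P : A[X][X]) :
    ev2 f s y P = P.eval₂ (eval₂RingHom f s) y := rfl

theorem ev2_C (f : A →+* L) (s y : L) (g : A[X]) : ev2 f s y (C g) = g.eval₂ f s := by
  rw [ev2_apply, eval₂_C]; rfl

theorem ev2_eval (f : A →+* L) (s : L) (a : A[X]) (P : A[X][X]) :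
    ev2 f s (a.eval₂ f s) P = (P.eval a).eval₂ f s :=
  eval₂_at_apply (eval₂RingHom f s) a

theorem ev2_comp (f : A →+* L) (g : L →+* M) (s y : L) (P : A[X][X]) :
    ev2 (g.comp f) (g s) (g y) P = g (ev2 f s y P) := by
  have h : ev2 (g.comp f) (g s) (g y) = g.comp (ev2 f s y) := by
    apply Polynomial.ringHom_ext'
    · apply Polynomial.ringHom_ext'
      · ext x
        simp [ev2]
      · simp [ev2]
    · simp [ev2]
  rw [h]; rfl

theorem ev2_map (j : B →+* A) (f : A →+* L) (s y : L) (P : B[X][X]) :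
    ev2 f s y (P.map (mapRingHom j)) = ev2 (f.comp j) s y P := by
  have h : (ev2 f s y).comp (mapRingHom (mapRingHom j)) = ev2 (f.comp j) s y := by
    apply Polynomial.ringHom_ext'
    · apply Polynomial.ringHom_ext'
      · ext x
        simp [ev2]
      · simp [ev2]
    · simp [ev2]
  rw [← h]; rfl

theorem sub_dvd_ev2 (f : A →+* L) (s y a : L) (P : A[X][X]) :
    y - a ∣ ev2 f s y P - ev2 f s a P := by
  rw [ev2_apply, ev2_apply, eval₂_eq_eval_map, eval₂_eq_eval_map]
  exact sub_dvd_eval_sub y a _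

end ev

section val

variable {k K : Type} [Field k] [Field K] [Algebra k K]

theorem le_exp_of_lt_one {x : WithZero (Multiplicative ℤ)} (h : x < 1) :
    x ≤ WithZero.exp (-1 : ℤ) := by
  by_cases hx : x = 0
  · rw [hx]; exact zero_le
  · obtain ⟨n, rfl⟩ : ∃ n : ℤ, x = WithZero.exp n := ⟨WithZero.log x, (WithZero.exp_log hx).symm⟩
    rw [← WithZero.exp_zero, WithZero.exp_lt_exp] at h
    rw [WithZero.exp_le_exp]
    omega

theorem val_ev2_le (b : Place k K) {s y : K} (hs : b.val s ≤ 1) (hy : b.val y ≤ 1)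
    (P : k[X][X]) : b.val (ev2 (algebraMap k K) s y P) ≤ 1 := by
  have h := ev2_comp (algebraMap k b.ring) (b.ring.val : b.ring →+* K) ⟨s, hs⟩ ⟨y, hy⟩ P
  have h1 : (b.ring.val : b.ring →+* K).comp (algebraMap k b.ring) = algebraMap k K := rfl
  rw [h1] at h
  change ev2 (algebraMap k K) s y P = _ at h
  rw [h]
  exact (ev2 (algebraMap k b.ring) ⟨s, hs⟩ ⟨y, hy⟩ P).2

theorem val_eval_le (b : Place k K) {s : K} (hs : b.val s ≤ 1) (g : k[X]) :
    b.val (aeval s g) ≤ 1 := by
  have h := val_ev2_le b hs (y := 0) (by simp) (C g)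
  rwa [ev2_C] at h

theorem val_ev2_sub_le (b : Place k K) {s y a : K} (hs : b.val s ≤ 1) (hy : b.val y ≤ 1)
    (ha : b.val a ≤ 1) (P : k[X][X]) :
    b.val (ev2 (algebraMap k K) s y P - ev2 (algebraMap k K) s a P) ≤ b.val (y - a) := by
  have h := ev2_comp (algebraMap k b.ring) (b.ring.val : b.ring →+* K) ⟨s, hs⟩ ⟨y, hy⟩ P
  have h' := ev2_comp (algebraMap k b.ring) (b.ring.val : b.ring →+* K) ⟨s, hs⟩ ⟨a, ha⟩ P
  have h1 : (b.ring.val : b.ring →+* K).comp (algebraMap k b.ring) = algebraMap k K := rfl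
  rw [h1] at h h'
  change ev2 (algebraMap k K) s y P = _ at h
  change ev2 (algebraMap k K) s a P = _ at h'
  obtain ⟨c, hc⟩ := sub_dvd_ev2 (algebraMap k b.ring) ⟨s, hs⟩ ⟨y, hy⟩ ⟨a, ha⟩ P
  have h2 : ev2 (algebraMap k K) s y P - ev2 (algebraMap k K) s a P = (y - a) * (c : K) := by
    rw [h, h', ← map_sub, hc, map_mul]
    rfl
  rw [h2, map_mul]
  exact mul_le_of_le_one_right' c.2

theorem val_aeval_eq_one (b : Place k K) {s : K} (hs : b.val s < 1) (g : k[X])
    (hg : g.coeff 0 ≠ 0) : b.val (aeval s g) = 1 := by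
  have h1 : aeval s g = aeval s (divX g) * s + algebraMap k K (g.coeff 0) := by
    conv_lhs => rw [← divX_mul_X_add g]
    simp
  have h2 : b.val (aeval s (divX g) * s) < 1 := by
    rw [map_mul]
    exact lt_of_le_of_lt (mul_le_of_le_one_left' (val_eval_le b hs.le _)) hs
  have h3 : b.val (algebraMap k K (g.coeff 0)) = 1 := b.triv _ hg
  rw [h1, Valuation.map_add_eq_of_lt_right _ (by rwa [h3]), h3]

theorem X_pow_dvd (b : Place k K) {s : K} (hs : b.val s = WithZero.exp (-1 : ℤ)) (m : ℕ)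
    (g : k[X]) (h : b.val (aeval s g) ≤ WithZero.exp (-(m : ℤ))) : X ^ m ∣ g := by
  have hs1 : b.val s < 1 := by rw [hs]; exact Pool.Agent.Helper16.exp_neg_one_lt
  induction m with
  | zero => simp
  | succ m ih =>
    obtain ⟨g', rfl⟩ := ih (h.trans (by rw [WithZero.exp_le_exp]; push_cast; omega))
    rw [pow_succ]
    apply mul_dvd_mul_left
    rw [X_dvd_iff]
    by_contra hne
    rw [map_mul, map_pow, aeval_X, map_mul, map_pow, val_aeval_eq_one b hs1 g' hne, mul_one, hs,
      ← WithZero.exp_nsmul, WithZero.exp_le_exp] at h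
    simp at h

theorem val_X_pow_mul (b : Place k K) {s : K} (hs : b.val s = WithZero.exp (-1 : ℤ)) (m : ℕ)
    (g : k[X]) : b.val (aeval s (X ^ m * g)) = WithZero.exp (-(m : ℤ)) * b.val (aeval s g) := by
  rw [map_mul, map_pow, aeval_X, map_mul, map_pow, hs, ← WithZero.exp_nsmul]
  simp

theorem exists_approx [IsAlgClosed k] (hK : IsFunctionField k K) (b : Place k K) {s : K}
    (hs : b.val s = WithZero.exp (-1 : ℤ)) (y : K) (hy : b.val y ≤ 1) (N : ℕ) :
    ∃ a : k[X], b.val (y - aeval s a) ≤ WithZero.exp (-(N : ℤ)) := by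
  have hs0 : s ≠ 0 := by
    rintro rfl
    rw [map_zero] at hs
    exact WithZero.exp_ne_zero hs.symm
  induction N with
  | zero => exact ⟨0, by simpa using hy⟩
  | succ N ih =>
    obtain ⟨a, ha⟩ := ih
    have hu : b.val ((y - aeval s a) / s ^ N) ≤ 1 := by
      rw [map_div₀, map_pow, hs, ← WithZero.exp_nsmul]
      rw [div_le_one₀ (by exact WithZero.exp_pos)]
      simpa using ha
    obtain ⟨c, hc⟩ := Pool.Agent.Helper30.TP.exists_residue hK b _ hu
    refine ⟨a + C c * X ^ N, ?_⟩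
    have h1 : y - aeval s (a + C c * X ^ N)
        = s ^ N * ((y - aeval s a) / s ^ N - algebraMap k K c) := by
      rw [mul_sub, mul_div_cancel₀ _ (pow_ne_zero _ hs0)]
      simp only [map_add, map_mul, aeval_C, map_pow, aeval_X]
      ring
    rw [h1, map_mul, map_pow, hs, ← WithZero.exp_nsmul]
    calc WithZero.exp (N • (-1 : ℤ)) * b.val ((y - aeval s a) / s ^ N - algebraMap k K c)
        ≤ WithZero.exp (N • (-1 : ℤ)) * WithZero.exp (-1 : ℤ) :=
          mul_le_mul_right (le_exp_of_lt_one hc) _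
      _ = WithZero.exp (-((N + 1 : ℕ) : ℤ)) := by
          rw [← WithZero.exp_add]
          congr 1
          push_cast
          simp
          ring

end val

end Pool.Agent.Helper38.TPN

end

section

namespace Pool.Agent.Helper16
end Pool.Agent.Helper16

/-!
# A plane model near a place
-/

set_option autoImplicit false

namespace Pool.Agent.Helper38.TPN

open Polynomial IntermediateField

open Pool.Agent.Helper16 (Place IsFunctionField algX algXF algXF_apply isFractionRing_algXF)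

variable {k K : Type} [Field k] [Field K] [Algebra k K]

theorem exists_num (s y : K) (hs : Transcendental k s) [FiniteDimensional k⟮s⟯ K]
    (hy : k⟮s⟯⟮y⟯ = ⊤) (f : K) :
    ∃ (P : k[X][X]) (q : k[X]), q ≠ 0 ∧
      ev2 (algebraMap k K) s y P = aeval s q * f := by
  let _ := algXF k s
  have := isFractionRing_algXF s hs
  have h1 : f ∈ k⟮s⟯⟮y⟯.toSubalgebra := by rw [hy]; trivial
  rw [adjoin_simple_toSubalgebra_of_isAlgebraic (Algebra.IsAlgebraic.isAlgebraic y),
    Algebra.adjoin_singleton_eq_range_aeval] at h1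
  obtain ⟨g, rfl⟩ := h1
  obtain ⟨b, hb, hg⟩ := IsLocalization.integerNormalization_spec (nonZeroDivisors k[X]) g
  refine ⟨IsLocalization.integerNormalization (nonZeroDivisors k[X]) g, b,
    nonZeroDivisors.ne_zero hb, ?_⟩
  have h2 : (eval₂RingHom (algebraMap k K) s : k[X] →+* K)
      = (algebraMap k⟮s⟯ K).comp (algebraMap k[X] k⟮s⟯) := by
    apply RingHom.ext
    intro p
    exact (algXF_apply s p).symm
  rw [ev2_apply, h2, ← eval₂_map, hg]
  change aeval y (b • g) = _
  rw [← algebraMap_smul k⟮s⟯ b g, map_smul, Algebra.smul_def]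
  congr 1
  exact algXF_apply s b

theorem exists_vanishing (s y : K) (hs : Transcendental k s) [FiniteDimensional k⟮s⟯ K] :
    ∃ P : k[X][X], P ≠ 0 ∧ ev2 (algebraMap k K) s y P = 0 := by
  let _ := algXF k s
  have := isFractionRing_algXF s hs
  have hint : IsIntegral k⟮s⟯ y := Algebra.IsIntegral.isIntegral y
  obtain ⟨b, hb, hg⟩ := IsLocalization.integerNormalization_spec (nonZeroDivisors k[X])
    (minpoly k⟮s⟯ y)
  refine ⟨IsLocalization.integerNormalization (nonZeroDivisors k[X]) (minpoly k⟮s⟯ y), ?_, ?_⟩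
  · intro h
    rw [IsLocalization.integerNormalization_eq_zero_iff le_rfl] at h
    exact minpoly.ne_zero hint h
  · have h2 : (eval₂RingHom (algebraMap k K) s : k[X] →+* K)
        = (algebraMap k⟮s⟯ K).comp (algebraMap k[X] k⟮s⟯) := by
      apply RingHom.ext
      intro p
      exact (algXF_apply s p).symm
    rw [ev2_apply, h2, ← eval₂_map, hg]
    change aeval y (b • minpoly k⟮s⟯ y) = _
    rw [← algebraMap_smul k⟮s⟯ b (minpoly k⟮s⟯ y), map_smul, minpoly.aeval, smul_zero]

theorem exists_exp_neg {x : WithZero (Multiplicative ℤ)} (h0 : x ≠ 0) (h : x ≤ 1) :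
    ∃ n : ℕ, x = WithZero.exp (-(n : ℤ)) := by
  obtain ⟨n, rfl⟩ : ∃ n : ℤ, x = WithZero.exp n := ⟨WithZero.log x, (WithZero.exp_log h0).symm⟩
  rw [← WithZero.exp_zero, WithZero.exp_le_exp] at h
  exact ⟨(-n).toNat, by rw [Int.toNat_of_nonneg (by omega), neg_neg]⟩

theorem exists_gen (s : K) (hs : Transcendental k s) [CharZero k] [FiniteDimensional k⟮s⟯ K]
    (b : Place k K) (hbs : b.val s = WithZero.exp (-1 : ℤ)) :
    ∃ y : K, k⟮s⟯⟮y⟯ = ⊤ ∧ b.val y ≤ 1 := by
  have : CharZero k⟮s⟯ := charZero_of_injective_algebraMap (algebraMap k k⟮s⟯).injective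
  obtain ⟨y, hy⟩ := Field.exists_primitive_element k⟮s⟯ K
  by_cases h0 : y = 0
  · exact ⟨y, hy, by rw [h0]; simp⟩
  have hv : b.val y ≠ 0 := by simpa using h0
  set n := WithZero.log (b.val y) with hn
  have hvy : b.val y = WithZero.exp n := (WithZero.exp_log hv).symm
  have hs0 : s ≠ 0 := by
    rintro rfl
    rw [map_zero] at hbs
    exact WithZero.exp_ne_zero hbs.symm
  refine ⟨s ^ n.toNat * y, ?_, ?_⟩
  · rw [eq_top_iff, ← hy, adjoin_simple_le_iff]
    have h1 : s ∈ k⟮s⟯⟮s ^ n.toNat * y⟯ :=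
      (k⟮s⟯⟮s ^ n.toNat * y⟯).algebraMap_mem (AdjoinSimple.gen k s)
    have h2 : s ^ n.toNat * y ∈ k⟮s⟯⟮s ^ n.toNat * y⟯ := mem_adjoin_simple_self _ _
    have h3 : (s ^ n.toNat)⁻¹ * (s ^ n.toNat * y) = y :=
      inv_mul_cancel_left₀ (pow_ne_zero _ hs0) y
    have h4 := mul_mem (inv_mem (pow_mem h1 n.toNat)) h2
    rwa [h3] at h4
  · rw [map_mul, map_pow, hbs, hvy, ← WithZero.exp_nsmul, ← WithZero.exp_add,
      ← WithZero.exp_zero, WithZero.exp_le_exp]
    have := Int.self_le_toNat n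
    simp

theorem exists_common (s y : K) (hs : Transcendental k s) [FiniteDimensional k⟮s⟯ K]
    (hy : k⟮s⟯⟮y⟯ = ⊤) {ι : Type} [Fintype ι] (f : ι → K) :
    ∃ (q : k[X]), q ≠ 0 ∧ ∀ i, ∃ P : k[X][X],
      ev2 (algebraMap k K) s y P = aeval s q * f i := by
  classical
  choose P q hq hP using fun i => exists_num s y hs hy (f i)
  refine ⟨∏ i, q i, Finset.prod_ne_zero_iff.2 fun i _ => hq i, fun i => ?_⟩
  refine ⟨P i * C (∏ j ∈ Finset.univ.erase i, q j), ?_⟩
  rw [map_mul, hP, ev2_C, ← Finset.mul_prod_erase Finset.univ q (Finset.mem_univ i), map_mul]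
  change _ * aeval s _ = _
  ring

/-- The data of a plane model adapted to a place. -/
structure Model {k : Type} [Field k] {ι : Type} (Q : k[X][X]) (a q r e : k[X])
    (P : ι → k[X][X]) (u : ι → k[X]) (ρ m N : ℕ) : Prop where
  le₁ : 2 * ρ + 1 ≤ N
  le₂ : ρ + m + 1 ≤ N
  evQ : Q.eval a = X ^ N * r
  evD : (derivative Q).eval a = X ^ ρ * e
  e0 : e.coeff 0 ≠ 0
  q0 : q.coeff 0 ≠ 0
  evP : ∀ i, (P i).eval a = X ^ (m + 1) * u i

theorem exists_model [IsAlgClosed k] [CharZero k] (hK : IsFunctionField k K) (b : Place k K)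
    {ι : Type} [Fintype ι] (f : ι → K) (hf : ∀ i, b.val (f i) < 1) :
    ∃ (s y : K) (Q : k[X][X]) (a q r e : k[X]) (P : ι → k[X][X]) (u : ι → k[X]) (ρ m N : ℕ),
      Transcendental k s ∧ 0 < Q.natDegree ∧ ev2 (algebraMap k K) s y Q = 0 ∧
      (∀ R : k[X][X], R ≠ 0 → ev2 (algebraMap k K) s y R = 0 → Q.natDegree ≤ R.natDegree) ∧
      (∀ i, ev2 (algebraMap k K) s y (P i) = aeval s (X ^ m * q) * f i) ∧
      Model Q a q r e P u ρ m N := by
  classical
  obtain ⟨s, hs0, hs⟩ := b.exists_uniformizer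
  have hs1 : b.val s < 1 := by rw [hs]; exact Pool.Agent.Helper16.exp_neg_one_lt
  have htr := b.transcendental_of_val_ne_one hs0 hs1.ne
  have := hK.finiteDimensional s htr
  obtain ⟨y, hytop, hy⟩ := exists_gen s htr b hs
  -- the minimal polynomial
  have hex : ∃ n : ℕ, ∃ R : k[X][X], R ≠ 0 ∧ ev2 (algebraMap k K) s y R = 0 ∧ R.natDegree = n := by
    obtain ⟨R, h0, h1⟩ := exists_vanishing s y htr
    exact ⟨_, R, h0, h1, rfl⟩
  obtain ⟨Q, hQ0, hQ, hQn⟩ := Nat.find_spec hex
  have hmin : ∀ R : k[X][X], R ≠ 0 → ev2 (algebraMap k K) s y R = 0 →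
      Q.natDegree ≤ R.natDegree := by
    intro R h0 h1
    rw [hQn]
    exact Nat.find_min' hex ⟨R, h0, h1, rfl⟩
  have hpos : 0 < Q.natDegree := by
    rw [Nat.pos_iff_ne_zero]
    intro h
    rw [natDegree_eq_zero] at h
    obtain ⟨g, rfl⟩ := h
    rw [ev2_C] at hQ
    have h2 : aeval s g = 0 := hQ
    have h3 := (transcendental_iff.1 htr) g h2
    rw [h3, map_zero] at hQ0
    exact hQ0 rfl
  have hD : ev2 (algebraMap k K) s y (derivative Q) ≠ 0 := by
    intro h
    have h1 : derivative Q ≠ 0 := by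
      intro h2
      rw [derivative_eq_zero] at h2
      omega
    have h2 := hmin _ h1 h
    have h3 := natDegree_derivative_lt (p := Q) (by omega)
    omega
  obtain ⟨ρ, hρ⟩ := exists_exp_neg (by simpa using hD) (val_ev2_le b hs1.le hy (derivative Q))
  obtain ⟨q₀, hq₀, hP⟩ := exists_common s y htr hytop f
  choose P hP using hP
  obtain ⟨q, hq, hqX⟩ := exists_eq_pow_rootMultiplicity_mul_and_not_dvd q₀ hq₀ 0
  rw [map_zero, sub_zero] at hq hqX
  set m := rootMultiplicity 0 q₀ with hm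
  have hqc : q.coeff 0 ≠ 0 := by
    intro h
    exact hqX (X_dvd_iff.2 h)
  set N := 2 * ρ + m + 1 with hN
  obtain ⟨a, ha⟩ := exists_approx hK b hs y hy N
  have has : b.val (aeval s a) ≤ 1 := val_eval_le b hs1.le a
  have ha' : b.val (aeval s a - y) ≤ WithZero.exp (-(N : ℤ)) := by
    rwa [← Valuation.map_neg, neg_sub]
  have hcmp : ∀ R : k[X][X], b.val (aeval s (R.eval a) - ev2 (algebraMap k K) s y R)
      ≤ WithZero.exp (-(N : ℤ)) := by
    intro R
    have h1 : aeval s (R.eval a) = ev2 (algebraMap k K) s (aeval s a) R :=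
      (ev2_eval (algebraMap k K) s a R).symm
    rw [h1]
    exact (val_ev2_sub_le b hs1.le has hy R).trans ha'
  -- the values
  obtain ⟨r, hr⟩ := X_pow_dvd b hs N (Q.eval a) (by
    have h1 := hcmp Q
    rwa [hQ, sub_zero] at h1)
  have hDv : b.val (aeval s ((derivative Q).eval a)) = WithZero.exp (-(ρ : ℤ)) := by
    have h1 := hcmp (derivative Q)
    have h2 : b.val (aeval s ((derivative Q).eval a) - ev2 (algebraMap k K) s y (derivative Q))
        < b.val (ev2 (algebraMap k K) s y (derivative Q)) := by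
      rw [hρ]
      refine lt_of_le_of_lt h1 ?_
      rw [WithZero.exp_lt_exp]
      omega
    have h3 := Valuation.map_add_eq_of_lt_right b.val h2
    rw [sub_add_cancel] at h3
    rw [h3, hρ]
  obtain ⟨e, he⟩ := X_pow_dvd b hs ρ ((derivative Q).eval a) hDv.le
  have he0 : e.coeff 0 ≠ 0 := by
    intro h
    obtain ⟨e', rfl⟩ := X_dvd_iff.2 h
    have h1 : b.val (aeval s ((derivative Q).eval a)) ≤ WithZero.exp (-((ρ + 1 : ℕ) : ℤ)) := by
      rw [he, ← mul_assoc, ← pow_succ, val_X_pow_mul b hs]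
      exact mul_le_of_le_one_right' (val_eval_le b hs1.le e')
    rw [hDv, WithZero.exp_le_exp] at h1
    push_cast at h1
    omega
  have hq0s : aeval s q₀ = aeval s (X ^ m * q) := by rw [← hq]
  have hPd : ∀ i, ∃ u : k[X], (P i).eval a = X ^ (m + 1) * u := by
    intro i
    apply X_pow_dvd b hs (m + 1)
    have h1 := hcmp (P i)
    have h2 : b.val (ev2 (algebraMap k K) s y (P i)) ≤ WithZero.exp (-((m + 1 : ℕ) : ℤ)) := by
      rw [hP, hq0s, map_mul, val_X_pow_mul b hs]
      calc WithZero.exp (-(m : ℤ)) * b.val (aeval s q) * b.val (f i)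
          ≤ WithZero.exp (-(m : ℤ)) * 1 * WithZero.exp (-1 : ℤ) :=
            mul_le_mul' (mul_le_mul' le_rfl (val_eval_le b hs1.le q)) (le_exp_of_lt_one (hf i))
        _ = WithZero.exp (-((m + 1 : ℕ) : ℤ)) := by
            rw [mul_one, ← WithZero.exp_add]
            congr 1
            push_cast
            ring
    have h3 : aeval s ((P i).eval a) = (aeval s ((P i).eval a)
        - ev2 (algebraMap k K) s y (P i)) + ev2 (algebraMap k K) s y (P i) := by ring
    rw [h3]
    refine (b.val.map_add _ _).trans (max_le (h1.trans ?_) h2)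
    rw [WithZero.exp_le_exp]
    push_cast
    omega
  choose u hu using hPd
  exact ⟨s, y, Q, a, q, r, e, P, u, ρ, m, N, htr, hpos, hQ, hmin,
    fun i => by rw [hP, hq0s], ⟨by omega, by omega, hr, he, he0, hqc, hu⟩⟩

end Pool.Agent.Helper38.TPN

end

section

/-!
# A field with embeddings into the function field and into the `p`-adic numbers
-/

set_option autoImplicit false

namespace Pool.Agent.Helper38.TPN

open Polynomial IntermediateField

theorem exists_hom {k K : Type} [Field k] [Field K] [Algebra k K] (p : ℕ) [hp : Fact p.Prime]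
    {A : Type} [CommRing A] [IsDomain A] (j : A →+* k) (hj : Function.Injective j)
    (θ : A →+* ℤ_[p]) (s y : K) (hs : Transcendental k s) (t w : ℤ_[p])
    (ht : ∀ g : A[X], g ≠ 0 → g.eval₂ θ t ≠ 0) (Q : A[X][X])
    (hQ : 0 < Q.natDegree)
    (hQy : ev2 ((algebraMap k K).comp j) s y Q = 0)
    (hmin : ∀ R : k[X][X], R ≠ 0 → ev2 (algebraMap k K) s y R = 0 →
      Q.natDegree ≤ R.natDegree)
    (hQw : ev2 θ t w Q = 0) :
    ∃ (K₁ : Type) (_ : Field K₁) (κ : K₁ →+* K) (ι : K₁ →+* ℚ_[p]) (γ : A[X] →+* K₁) (η : K₁),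
      (∀ g, κ (γ g) = g.eval₂ ((algebraMap k K).comp j) s) ∧
      (∀ g, ι (γ g) = ((g.eval₂ θ t : ℤ_[p]) : ℚ_[p])) ∧ κ η = y ∧ ι η = (w : ℚ_[p]) := by
  classical
  let σ : A[X] →+* K := eval₂RingHom ((algebraMap k K).comp j) s
  have hσ : Function.Injective σ := by
    rw [injective_iff_map_eq_zero]
    intro g hg
    have h1 : aeval s (g.map j) = 0 := by
      have h2 : g.eval₂ ((algebraMap k K).comp j) s = 0 := hg
      rw [← eval₂_map] at h2
      exact h2
    have h2 := (transcendental_iff.1 hs) _ h1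
    exact map_injective j hj (by rw [h2, Polynomial.map_zero])
  let τ : A[X] →+* ℚ_[p] := (PadicInt.Coe.ringHom (p := p)).comp (eval₂RingHom θ t)
  have hτ : Function.Injective τ := by
    rw [injective_iff_map_eq_zero]
    intro g hg
    by_contra h0
    apply ht g h0
    have h2 : ((g.eval₂ θ t : ℤ_[p]) : ℚ_[p]) = 0 := hg
    exact Subtype.ext h2
  let E := FractionRing A[X]
  let _ : Algebra E K := (IsFractionRing.lift hσ : E →+* K).toAlgebra
  let _ : Algebra E ℚ_[p] := (IsFractionRing.lift hτ : E →+* ℚ_[p]).toAlgebra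
  have hσE : ∀ g : A[X], algebraMap E K (algebraMap A[X] E g) = σ g := fun g =>
    IsFractionRing.lift_algebraMap hσ g
  have hτE : ∀ g : A[X], algebraMap E ℚ_[p] (algebraMap A[X] E g) = τ g := fun g =>
    IsFractionRing.lift_algebraMap hτ g
  -- the polynomial over `E`
  set QE : E[X] := Q.map (algebraMap A[X] E) with hQE
  have hQEd : QE.natDegree = Q.natDegree :=
    natDegree_map_eq_of_injective (IsFractionRing.injective A[X] E) Q
  have hQE0 : QE ≠ 0 := by
    intro h
    rw [h, natDegree_zero] at hQEd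
    omega
  have hyQE : aeval y QE = 0 := by
    have h1 : (algebraMap E K).comp (algebraMap A[X] E) = σ := RingHom.ext hσE
    rw [aeval_def, hQE, eval₂_map, h1]
    exact hQy
  have hwQE : aeval (w : ℚ_[p]) QE = 0 := by
    have h1 : (algebraMap E ℚ_[p]).comp (algebraMap A[X] E) = τ := RingHom.ext hτE
    rw [aeval_def, hQE, eval₂_map, h1]
    have h2 := hom_eval₂ Q (eval₂RingHom θ t) (PadicInt.Coe.ringHom (p := p)) w
    have h3 : Q.eval₂ (eval₂RingHom θ t) w = 0 := hQw
    rw [h3, map_zero] at h2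
    exact h2.symm
  have halg : IsAlgebraic E y := ⟨QE, hQE0, hyQE⟩
  have hint : IsIntegral E y := halg.isIntegral
  -- the degree of the minimal polynomial
  have hdeg : Q.natDegree ≤ (minpoly E y).natDegree := by
    obtain ⟨b, hb, hg⟩ := IsLocalization.integerNormalization_spec (nonZeroDivisors A[X])
      (minpoly E y)
    set R := IsLocalization.integerNormalization (nonZeroDivisors A[X]) (minpoly E y) with hR
    have hb0 : b ≠ 0 := nonZeroDivisors.ne_zero hb
    have hR0 : R ≠ 0 := by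
      intro h
      rw [hR, IsLocalization.integerNormalization_eq_zero_iff le_rfl] at h
      exact minpoly.ne_zero hint h
    have hRd : R.natDegree = (minpoly E y).natDegree := by
      rw [← natDegree_map_eq_of_injective (IsFractionRing.injective A[X] E) R, hg,
        ← algebraMap_smul E b (minpoly E y)]
      exact natDegree_smul _ (by
        intro h
        exact hb0 (IsFractionRing.injective A[X] E (by rw [h, map_zero])))
    have hRy : ev2 ((algebraMap k K).comp j) s y R = 0 := by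
      have h1 : (algebraMap E K).comp (algebraMap A[X] E) = σ := RingHom.ext hσE
      have h2 : (R.map (algebraMap A[X] E)).eval₂ (algebraMap E K) y = 0 := by
        rw [hg, ← algebraMap_smul E b (minpoly E y)]
        change aeval y _ = 0
        rw [map_smul, minpoly.aeval, smul_zero]
      rw [eval₂_map, h1] at h2
      exact h2
    rw [← ev2_map] at hRy
    have hinj : Function.Injective (mapRingHom j : A[X] →+* k[X]) := map_injective j hj
    have h3 := hmin (R.map (mapRingHom j)) (by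
      intro h
      exact hR0 (map_injective _ hinj (by rw [h, Polynomial.map_zero]))) hRy
    rwa [natDegree_map_eq_of_injective hinj, hRd] at h3
  have hroot : aeval (w : ℚ_[p]) (minpoly E y) = 0 := by
    obtain ⟨D, hD⟩ := minpoly.dvd E y hyQE
    have hD0 : D ≠ 0 := by
      rintro rfl
      rw [mul_zero] at hD
      exact hQE0 hD
    have h1 : D.natDegree = 0 := by
      have h2 := congrArg natDegree hD
      rw [natDegree_mul (minpoly.ne_zero hint) hD0, hQEd] at h2
      omega
    obtain ⟨c, rfl⟩ := natDegree_eq_zero.1 h1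
    rw [hD, map_mul, aeval_C] at hwQE
    refine (mul_eq_zero.1 hwQE).resolve_right ?_
    intro h
    apply hD0
    rw [(map_eq_zero _).1 h, map_zero]
  have hmem : (w : ℚ_[p]) ∈ (minpoly E y).aroots ℚ_[p] := by
    rw [mem_aroots]
    exact ⟨minpoly.ne_zero hint, hroot⟩
  let φ : E⟮y⟯ →ₐ[E] ℚ_[p] := (algHomAdjoinIntegralEquiv E hint).symm ⟨_, hmem⟩
  refine ⟨E⟮y⟯, inferInstance, E⟮y⟯.val.toRingHom, φ.toRingHom,
    (algebraMap E E⟮y⟯).comp (algebraMap A[X] E), AdjoinSimple.gen E y, ?_, ?_, ?_, ?_⟩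
  · intro g
    exact hσE g
  · intro g
    have h1 : φ (algebraMap E E⟮y⟯ (algebraMap A[X] E g)) = _ := φ.commutes _
    exact h1.trans (hτE g)
  · rfl
  · exact algHomAdjoinIntegralEquiv_symm_apply_gen E hint ⟨_, hmem⟩

end Pool.Agent.Helper38.TPN

end
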