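import Pool.Agent.Helper72.TM2.T06
import Pool.Agent.Helper72.TM2.T12
import Pool.Agent.Helper72.TM2.T05
import Pool.Agent.Helper72.TM2.T04

section

namespace Pool.Agent.Helper16
end Pool.Agent.Helper16

/-!
# Noether normalisation: two linear forms which dominate all coordinates
-/

set_option autoImplicit false

namespace Pool.Agent.Helper38.TQ

open MvPolynomial

open Pool.Agent.Helper16 (Place IsFunctionField)

variable {ν : ℕ}

namespace Noe

theorem exists_cc {k K : Type} [Field k] [Infinite k] [Field K] [Algebra k K]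
    {P : MvPolynomial (Fin 3) K} {e : ℕ} (hP : P.IsHomogeneous e) (h0 : P ≠ 0) :
    ∃ c c' : k, eval ![algebraMap k K c, algebraMap k K c', 1] P ≠ 0 := by
  by_contra hcon
  push Not at hcon
  apply h0
  have hinj : Function.Injective (algebraMap k K) := (algebraMap k K).injective
  have h1 : X 2 * P = 0 := by
    refine MvPolynomial.funext_set (fun _ : Fin 3 => Set.range (algebraMap k K))
      (fun _ => Set.infinite_range_of_injective hinj) fun y hy => ?_
    rw [map_zero, map_mul, eval_X]
    by_cases h2 : y 2 = 0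
    · rw [h2, zero_mul]
    · obtain ⟨z0, hz0⟩ := hy 0 (Set.mem_univ _)
      obtain ⟨z1, hz1⟩ := hy 1 (Set.mem_univ _)
      obtain ⟨z2, hz2⟩ := hy 2 (Set.mem_univ _)
      have hz2' : z2 ≠ 0 := by
        rintro rfl
        rw [map_zero] at hz2
        exact h2 hz2.symm
      have h3 : y = y 2 • ![algebraMap k K (z0 / z2), algebraMap k K (z1 / z2), 1] := by
        funext i
        fin_cases i
        · simp [map_div₀, hz0, hz2]
          field_simp
        · simp [map_div₀, hz1, hz2]
          field_simp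
        · simp
      rw [h3, eval_smul_hom (ν := 2) hP, hcon, mul_zero, mul_zero]
  rcases mul_eq_zero.1 h1 with h | h
  · exact absurd h (X_ne_zero _)
  · exact h

section

variable {K : Type} [Field K] (v : Valuation K (WithZero (Multiplicative ℤ)))

theorem rel_mul {R D : WithZero (Multiplicative ℤ)} {X Y X' Y' : K} {s s' : ℕ}
    (hX : v X ≤ R ^ s) (hY' : v Y' ≤ R ^ s')
    (h : R * v (X - Y) ≤ D * R ^ s) (h' : R * v (X' - Y') ≤ D * R ^ s') :
    R * v (X * X' - Y * Y') ≤ D * R ^ (s + s') := by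
  have h1 : X * X' - Y * Y' = X * (X' - Y') + (X - Y) * Y' := by ring
  rw [h1]
  have h2 : v (X * (X' - Y') + (X - Y) * Y') ≤ max (v X * v (X' - Y')) (v (X - Y) * v Y') := by
    rw [← map_mul, ← map_mul]
    exact v.map_add _ _
  calc R * v (X * (X' - Y') + (X - Y) * Y') ≤
        R * max (v X * v (X' - Y')) (v (X - Y) * v Y') := mul_le_mul_right h2 _
    _ ≤ D * R ^ (s + s') := by
      rcases max_choice (v X * v (X' - Y')) (v (X - Y) * v Y') with h3 | h3
      · rw [h3]
        calc R * (v X * v (X' - Y')) = v X * (R * v (X' - Y')) := mul_left_comm _ _ _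
          _ ≤ R ^ s * (D * R ^ s') := mul_le_mul' hX h'
          _ = D * R ^ (s + s') := by rw [pow_add, mul_left_comm]
      · rw [h3]
        calc R * (v (X - Y) * v Y') = (R * v (X - Y)) * v Y' := (mul_assoc _ _ _).symm
          _ ≤ (D * R ^ s) * R ^ s' := mul_le_mul' h hY'
          _ = D * R ^ (s + s') := by rw [pow_add, mul_assoc]

theorem rel_pow {R D : WithZero (Multiplicative ℤ)} {X Y : K}
    (hX : v X ≤ R) (hY : v Y ≤ R) (h : v (X - Y) ≤ D) (s : ℕ) :
    R * v (X ^ s - Y ^ s) ≤ D * R ^ s := by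
  induction s with
  | zero => simp
  | succ s ih =>
    rw [pow_succ X, pow_succ Y]
    refine rel_mul v ?_ (s' := 1) ?_ ih ?_
    · rw [map_pow]
      exact pow_le_pow_left' hX s
    · rwa [pow_one]
    · rw [pow_one, mul_comm]
      exact mul_le_mul_left h R

theorem rel_mono {R D : WithZero (Multiplicative ℤ)} {a b : Fin 3 → K}
    (ha : ∀ i, v (a i) ≤ R) (hb : ∀ i, v (b i) ≤ R) (h : ∀ i, v (a i - b i) ≤ D)
    (m : Fin 3 →₀ ℕ) :
    R * v ((∏ i, a i ^ m i) - ∏ i, b i ^ m i) ≤ D * R ^ (∑ i, m i) := by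
  rw [Fin.prod_univ_three, Fin.prod_univ_three, Fin.sum_univ_three]
  have hp : ∀ i, v (a i ^ m i) ≤ R ^ m i := fun i => by
    rw [map_pow]; exact pow_le_pow_left' (ha i) _
  have hq : ∀ i, v (b i ^ m i) ≤ R ^ m i := fun i => by
    rw [map_pow]; exact pow_le_pow_left' (hb i) _
  refine rel_mul v ?_ (hq 2) (rel_mul v (hp 0) (hq 1) (rel_pow v (ha 0) (hb 0) (h 0) _)
    (rel_pow v (ha 1) (hb 1) (h 1) _)) (rel_pow v (ha 2) (hb 2) (h 2) _)
  rw [map_mul, pow_add]
  exact mul_le_mul' (hp 0) (hp 1)

theorem rel_eval {R D G : WithZero (Multiplicative ℤ)} {a b : Fin 3 → K}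
    (ha : ∀ i, v (a i) ≤ R) (hb : ∀ i, v (b i) ≤ R) (h : ∀ i, v (a i - b i) ≤ D)
    {P : MvPolynomial (Fin 3) K} {e : ℕ} (hP : P.IsHomogeneous e)
    (hG : ∀ m, v (coeff m P) ≤ G) :
    R * v (eval a P - eval b P) ≤ G * (D * R ^ e) := by
  rw [eval_eq', eval_eq', ← Finset.sum_sub_distrib]
  by_cases hR : R = 0
  · rw [hR, zero_mul]
    exact zero_le
  have h1 : v (∑ m ∈ P.support, (coeff m P * ∏ i, a i ^ m i - coeff m P * ∏ i, b i ^ m i)) ≤
      R⁻¹ * (G * (D * R ^ e)) := by
    refine v.map_sum_le fun m hm => ?_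
    rw [← mul_sub, map_mul]
    have hd : ∑ i, m i = e := by
      have := hP (MvPolynomial.mem_support_iff.1 hm)
      rw [Finsupp.weight_apply] at this
      rw [← this, Finsupp.sum_fintype _ _ (by simp)]
      simp
    have h2 := rel_mono v ha hb h m
    rw [hd] at h2
    have h3 : v (∏ i, a i ^ m i - ∏ i, b i ^ m i) ≤ R⁻¹ * (D * R ^ e) := by
      rwa [le_inv_mul_iff₀ (zero_lt_iff.2 hR)]
    calc v (coeff m P) * v (∏ i, a i ^ m i - ∏ i, b i ^ m i) ≤ G * (R⁻¹ * (D * R ^ e)) :=
          mul_le_mul' (hG m) h3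
      _ = R⁻¹ * (G * (D * R ^ e)) := mul_left_comm _ _ _
  rwa [le_inv_mul_iff₀ (zero_lt_iff.2 hR)] at h1

end

theorem exists_bound {k K : Type} [Field k] [IsAlgClosed k] [Field K] [Algebra k K]
    (hK : IsFunctionField k K) (P : MvPolynomial (Fin 3) K) (γ : K) (hγ : γ ≠ 0) :
    ∃ C : Place k K → ℤ, (∀ b, 0 ≤ C b) ∧ (Function.support C).Finite ∧
      ∀ (b : Place k K) (m : Fin 3 →₀ ℕ), b.val (coeff m P) ≤ b.val γ * WithZero.exp (C b) := by
  classical
  refine ⟨fun b => |WithZero.log (b.val γ)| +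
    ∑ m ∈ P.support, |WithZero.log (b.val (coeff m P))|, ?_, ?_, ?_⟩
  · intro b
    exact add_nonneg (abs_nonneg _) (Finset.sum_nonneg fun _ _ => abs_nonneg _)
  · have h1 : (Function.support fun b : Place k K => WithZero.log (b.val γ)).Finite :=
      (finsum_log hK γ hγ).1
    have h2 : (⋃ m ∈ P.support,
        Function.support fun b : Place k K => WithZero.log (b.val (coeff m P))).Finite :=
      Set.Finite.biUnion (Finset.finite_toSet _) fun m hm =>
        (finsum_log hK _ (MvPolynomial.mem_support_iff.1 hm)).1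
    refine (h1.union h2).subset ?_
    intro b hb
    by_contra h3
    apply hb
    rw [Set.mem_union, not_or] at h3
    have h4 : WithZero.log (b.val γ) = 0 := by
      by_contra h; exact h3.1 h
    have h5 : ∀ m ∈ P.support, |WithZero.log (b.val (coeff m P))| = 0 := by
      intro m hm
      rw [abs_eq_zero]
      by_contra h
      apply h3.2
      rw [Set.mem_iUnion₂]
      exact ⟨m, hm, h⟩
    show |WithZero.log (b.val γ)| + ∑ m ∈ P.support, |WithZero.log (b.val (coeff m P))| = 0
    rw [h4, Finset.sum_eq_zero h5, abs_zero, add_zero]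
  · intro b m
    by_cases hm : coeff m P = 0
    · rw [hm, map_zero]
      exact zero_le
    have hg : b.val γ ≠ 0 := by simpa using hγ
    have hc : b.val (coeff m P) ≠ 0 := by simpa using hm
    rw [← WithZero.exp_log hc, ← WithZero.exp_log hg, ← WithZero.exp_add, WithZero.exp_le_exp]
    have h1 : |WithZero.log (b.val (coeff m P))| ≤
        ∑ m ∈ P.support, |WithZero.log (b.val (coeff m P))| :=
      Finset.single_le_sum (f := fun m => |WithZero.log (b.val (coeff m P))|)
        (fun _ _ => abs_nonneg _) (MvPolynomial.mem_support_iff.2 hm)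
    have h2 := le_abs_self (WithZero.log (b.val (coeff m P)))
    have h3 := neg_abs_le (WithZero.log (b.val γ))
    show WithZero.log (b.val (coeff m P)) ≤ WithZero.log (b.val γ) +
      (|WithZero.log (b.val γ)| + ∑ m ∈ P.support, |WithZero.log (b.val (coeff m P))|)
    linarith

theorem key {k K : Type} [Field k] [IsAlgClosed k] [Field K] [Algebra k K]
    (hK : IsFunctionField k K) {P : MvPolynomial (Fin 3) K} {e : ℕ} (hP : P.IsHomogeneous e)
    (h0 : P ≠ 0) :
    ∃ (c c' : k) (C : Place k K → ℤ), (∀ b, 0 ≤ C b) ∧ (Function.support C).Finite ∧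
      ∀ (y : Fin 3 → K), eval y P = 0 → ∀ b : Place k K,
        b.val (y 2) ≤ WithZero.exp (C b) *
          max (b.val (y 0 - algebraMap k K c * y 2)) (b.val (y 1 - algebraMap k K c' * y 2)) := by
  have : Infinite k := inferInstance
  obtain ⟨c, c', hcc⟩ := exists_cc (k := k) hP h0
  set γ : K := eval ![algebraMap k K c, algebraMap k K c', 1] P with hγ
  obtain ⟨C, hC0, hCf, hC⟩ := exists_bound hK P γ hcc
  refine ⟨c, c', C, hC0, hCf, ?_⟩
  intro y hy b
  set u : K := y 0 - algebraMap k K c * y 2 with hu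
  set u' : K := y 1 - algebraMap k K c' * y 2 with hu'
  set M := max (b.val u) (b.val u') with hM
  have hexp : (1 : WithZero (Multiplicative ℤ)) ≤ WithZero.exp (C b) := by
    rw [← WithZero.exp_zero, WithZero.exp_le_exp]
    exact hC0 b
  by_cases hv : b.val (y 2) ≤ M
  · calc b.val (y 2) ≤ M := hv
      _ = 1 * M := (one_mul _).symm
      _ ≤ _ := mul_le_mul_left hexp M
  rw [not_le] at hv
  have hcv : ∀ a : k, b.val (algebraMap k K a * y 2) ≤ b.val (y 2) := by
    intro a
    rw [map_mul]
    calc b.val (algebraMap k K a) * b.val (y 2) ≤ 1 * b.val (y 2) :=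
          mul_le_mul_left (b.val_algebraMap_le a) _
      _ = _ := one_mul _
  have hy0 : y 0 = u + algebraMap k K c * y 2 := by rw [hu]; ring
  have hy1 : y 1 = u' + algebraMap k K c' * y 2 := by rw [hu']; ring
  have h1 := rel_eval b.val (R := b.val (y 2)) (D := M) (G := b.val γ * WithZero.exp (C b))
    (a := y 2 • ![algebraMap k K c, algebraMap k K c', 1]) (b := y) ?_ ?_ ?_ hP (hC b)
  · rw [eval_smul_hom (ν := 2) hP, hy, sub_zero, ← hγ, map_mul, map_pow] at h1
    have hvpos : 0 < b.val (y 2) := lt_of_le_of_lt zero_le hv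
    have hγv : 0 < b.val γ := zero_lt_iff.2 (by simpa using hcc)
    have h2 : (b.val (y 2) ^ e * b.val γ) * b.val (y 2) ≤
        (b.val (y 2) ^ e * b.val γ) * (WithZero.exp (C b) * M) := by
      calc (b.val (y 2) ^ e * b.val γ) * b.val (y 2) =
            b.val (y 2) * (b.val (y 2) ^ e * b.val γ) := mul_comm _ _
        _ ≤ _ := h1
        _ = _ := by ac_rfl
    exact le_of_mul_le_mul_left h2 (mul_pos (pow_pos hvpos e) hγv)
  · intro i
    fin_cases i
    · show b.val (y 2 * algebraMap k K c) ≤ _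
      rw [mul_comm]; exact hcv c
    · show b.val (y 2 * algebraMap k K c') ≤ _
      rw [mul_comm]; exact hcv c'
    · show b.val (y 2 * 1) ≤ _
      rw [mul_one]
  · intro i
    fin_cases i
    · show b.val (y 0) ≤ _
      rw [hy0]
      exact (b.val.map_add _ _).trans (max_le ((le_max_left _ _).trans hv.le) (hcv c))
    · show b.val (y 1) ≤ _
      rw [hy1]
      exact (b.val.map_add _ _).trans (max_le ((le_max_right _ _).trans hv.le) (hcv c'))
    · exact le_rfl
  · intro i
    fin_cases i
    · show b.val (y 2 * algebraMap k K c - y 0) ≤ M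
      have : y 2 * algebraMap k K c - y 0 = -u := by rw [hu]; ring
      rw [this, Valuation.map_neg]
      exact le_max_left _ _
    · show b.val (y 2 * algebraMap k K c' - y 1) ≤ M
      have : y 2 * algebraMap k K c' - y 1 = -u' := by rw [hu']; ring
      rw [this, Valuation.map_neg]
      exact le_max_right _ _
    · show b.val (y 2 * 1 - y 2) ≤ M
      rw [mul_one, sub_self, map_zero]
      exact zero_le

theorem lin_sub_smul {k K : Type} [Field k] [Field K] [Algebra k K] (a v : Fin (ν + 1) → k)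
    (c : k) (x : Fin (ν + 1) → K) :
    lin (a - c • v) x = lin a x - algebraMap k K c * lin v x := by
  unfold lin
  rw [Finset.mul_sum, ← Finset.sum_sub_distrib]
  refine Finset.sum_congr rfl fun i _ => ?_
  rw [Pi.sub_apply, Pi.smul_apply, smul_eq_mul, map_sub, map_mul]
  ring

theorem lin_single {k K : Type} [Field k] [Field K] [Algebra k K] (i : Fin (ν + 1))
    (x : Fin (ν + 1) → K) : lin (Pi.single i (1 : k)) x = x i := by
  classical
  unfold lin
  rw [Finset.sum_eq_single i]
  · simp
  · intro j _ hj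
    rw [Pi.single_eq_of_ne hj, map_zero, zero_mul]
  · intro h
    exact absurd (Finset.mem_univ i) h

theorem main {k K : Type} [Field k] [IsAlgClosed k] [Field K] [Algebra k K]
    (hK : IsFunctionField k K) {x : ℕ → Fin (ν + 1) → K} {U : Ultrafilter ℕ}
    (hx : OnCurve U x) (l : List (Fin (ν + 1) → k)) :
    ∀ p q : Fin (ν + 1) → k,
    ∃ (a₀ a₁ : Fin (ν + 1) → k) (C : Place k K → ℤ), (∀ b, 0 ≤ C b) ∧
      (Function.support C).Finite ∧
      ∀ᶠ n in (U : Filter ℕ), ∀ (b : Place k K), ∀ w ∈ p :: q :: l,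
        b.val (lin w (x n)) ≤
          WithZero.exp (C b) * max (b.val (lin a₀ (x n))) (b.val (lin a₁ (x n))) := by
  induction l with
  | nil =>
    intro p q
    refine ⟨p, q, fun _ => 0, fun _ => le_rfl, by simp, Filter.Eventually.of_forall ?_⟩
    intro n b w hw
    rw [WithZero.exp_zero, one_mul]
    rcases List.mem_cons.1 hw with rfl | hw
    · exact le_max_left _ _
    · rcases List.mem_cons.1 hw with rfl | hw
      · exact le_max_right _ _
      · exact absurd hw List.not_mem_nil
  | cons v l ih =>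
    intro p q
    obtain ⟨P, e, hPh, hP0, hP⟩ := hx ![fun i => algebraMap k K (p i),
      fun i => algebraMap k K (q i), fun i => algebraMap k K (v i)]
    obtain ⟨c, c', C1, hC1, hC1f, hkey⟩ := key hK hPh hP0
    obtain ⟨a₀, a₁, C2, hC2, hC2f, hev⟩ := ih (p - c • v) (q - c' • v)
    refine ⟨a₀, a₁, fun b => C1 b + C2 b, fun b => add_nonneg (hC1 b) (hC2 b),
      (hC1f.union hC2f).subset (Function.support_add _ _), ?_⟩
    filter_upwards [hP, hev] with n hn1 hn2
    intro b
    have h1 := hkey _ hn1 b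
    have h1' : b.val (lin v (x n)) ≤ WithZero.exp (C1 b) *
        max (b.val (lin p (x n) - algebraMap k K c * lin v (x n)))
          (b.val (lin q (x n) - algebraMap k K c' * lin v (x n))) := h1
    rw [← lin_sub_smul, ← lin_sub_smul] at h1'
    set N := max (b.val (lin a₀ (x n))) (b.val (lin a₁ (x n))) with hN
    have hp := hn2 b (p - c • v) (by simp)
    have hq := hn2 b (q - c' • v) (by simp)
    have hle : WithZero.exp (C2 b) * N ≤ WithZero.exp (C1 b + C2 b) * N := by
      refine mul_le_mul_left ?_ N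
      rw [WithZero.exp_le_exp]
      have := hC1 b
      omega
    have hv : b.val (lin v (x n)) ≤ WithZero.exp (C1 b + C2 b) * N := by
      calc _ ≤ _ := h1'
        _ ≤ WithZero.exp (C1 b) * (WithZero.exp (C2 b) * N) :=
            mul_le_mul_right (max_le hp hq) _
        _ = _ := by rw [WithZero.exp_add, mul_assoc]
    have hcv : ∀ a : k, b.val (algebraMap k K a * lin v (x n)) ≤
        WithZero.exp (C1 b + C2 b) * N := by
      intro a
      rw [map_mul]
      calc b.val (algebraMap k K a) * b.val (lin v (x n)) ≤ 1 * b.val (lin v (x n)) :=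
            mul_le_mul_left (b.val_algebraMap_le a) _
        _ = b.val (lin v (x n)) := one_mul _
        _ ≤ _ := hv
    intro w hw
    rcases List.mem_cons.1 hw with rfl | hw
    · have h2 : lin w (x n) = lin (w - c • v) (x n) + algebraMap k K c * lin v (x n) := by
        rw [lin_sub_smul]; ring
      rw [h2]
      exact (b.val.map_add _ _).trans (max_le (hp.trans hle) (hcv c))
    · rcases List.mem_cons.1 hw with rfl | hw
      · have h2 : lin w (x n) = lin (w - c' • v) (x n) + algebraMap k K c' * lin v (x n) := by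
          rw [lin_sub_smul]; ring
        rw [h2]
        exact (b.val.map_add _ _).trans (max_le (hq.trans hle) (hcv c'))
      · rcases List.mem_cons.1 hw with rfl | hw
        · exact hv
        · exact (hn2 b w (List.mem_cons_of_mem _ (List.mem_cons_of_mem _ hw))).trans hle

end Noe

theorem exists_two_forms {k K : Type} [Field k] [IsAlgClosed k] [Field K] [Algebra k K]
    (hK : IsFunctionField k K) {x : ℕ → Fin (ν + 1) → K} {U : Ultrafilter ℕ}
    (hx : OnCurve U x) :
    ∃ (a₀ a₁ : Fin (ν + 1) → k) (C : Place k K → ℤ), (∀ b, 0 ≤ C b) ∧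
      (Function.support C).Finite ∧
      ∀ᶠ n in (U : Filter ℕ), ∀ (b : Place k K) (i : Fin (ν + 1)),
        b.val (x n i) ≤
          WithZero.exp (C b) * max (b.val (lin a₀ (x n))) (b.val (lin a₁ (x n))) := by
  classical
  obtain ⟨a₀, a₁, C, h1, h2, h3⟩ := Noe.main hK hx
    ((List.finRange (ν + 1)).map fun i => (Pi.single i 1 : Fin (ν + 1) → k)) 0 0
  refine ⟨a₀, a₁, C, h1, h2, ?_⟩
  filter_upwards [h3] with n hn b i
  have h4 := hn b (Pi.single i 1) (List.mem_cons_of_mem _ (List.mem_cons_of_mem _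
    (List.mem_map.2 ⟨i, List.mem_finRange i, rfl⟩)))
  rwa [Noe.lin_single] at h4

end Pool.Agent.Helper38.TQ

end

section

namespace Pool.Agent.Helper38.Dml
end Pool.Agent.Helper38.Dml
namespace Pool.Agent.Helper38.Sym
end Pool.Agent.Helper38.Sym
namespace Pool.Agent.Helper36
end Pool.Agent.Helper36

/-!
# Good reduction of a preperiodic point with a noncritical cycle
-/

set_option autoImplicit false

namespace Pool.Agent.Helper38.TQ

open MvPolynomial Function

open Pool.Agent.Helper38.Dml (pmap pjac pmap_smul GoodAt)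

open Pool.Agent.Helper38.Sym (map_eval_gen)

open Pool.Agent.Helper36 (step iter)

variable {ν : ℕ}

theorem isUnit_of_inv_mem {k A : Type} [Field k] [CommRing A] (j : A →+* k)
    (hj : Injective j) (a : A) (ha : j a ≠ 0) (h : (j a)⁻¹ ∈ Set.range j) : IsUnit a := by
  obtain ⟨b, hb⟩ := h
  refine IsUnit.of_mul_eq_one b (hj ?_)
  rw [map_mul, hb, map_one, mul_inv_cancel₀ ha]

theorem map_pmap_iterate {R S : Type} [CommRing R] [CommRing S] (φ : R →+* S)
    (f : Fin (ν + 1) → MvPolynomial (Fin (ν + 1)) R) (y : Fin (ν + 1) → R) (n : ℕ) :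
    (fun i => φ ((pmap f)^[n] y i)) = (pmap fun i => map φ (f i))^[n] (fun i => φ (y i)) := by
  induction n with
  | zero => rfl
  | succ n ih =>
    rw [iterate_succ_apply', iterate_succ_apply', ← ih]
    funext i
    exact map_eval_gen φ _ _

theorem iter_eq_pmap {k : Type} [Field k] (F : Fin (ν + 1) → MvPolynomial (Fin (ν + 1)) k) (z : Fin (ν + 1) → k)
    (n : ℕ) : iter F z n = (pmap F)^[n] z := by
  induction n with
  | zero => rfl
  | succ n ih =>
    rw [iterate_succ_apply', ← ih, Pool.Agent.Helper36.iter_succ]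
    rfl

end Pool.Agent.Helper38.TQ

end

section

/-!
# Points on a complex curve: any three linear forms are dependent
-/

set_option autoImplicit false

namespace Pool.Agent.Helper38.TQ

open MvPolynomial

variable {ν : ℕ}

/-- the Nullstellensatz for a curve -/
theorem dim_null {S : Set (MvPolynomial (Fin (ν + 1)) ℂ)} (hS : ∀ g ∈ S, ∃ e, g.IsHomogeneous e)
    {l₀ l₁ : MvPolynomial (Fin (ν + 1)) ℂ} (h0 : l₀.IsHomogeneous 1) (h1 : l₁.IsHomogeneous 1)
    (hno : ∀ z : Fin (ν + 1) → ℂ, (∀ g ∈ S, eval z g = 0) → eval z l₀ = 0 → eval z l₁ = 0 →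
      z = 0) :
    ∃ (s : ℕ) (A B : Fin (ν + 1) → MvPolynomial (Fin (ν + 1)) ℂ),
      (∀ j, (A j).IsHomogeneous s) ∧ (∀ j, (B j).IsHomogeneous s) ∧
      ∀ j, ∀ z : Fin (ν + 1) → ℂ, (∀ g ∈ S, eval z g = 0) →
        z j ^ (s + 1) = eval z (A j) * eval z l₀ + eval z (B j) * eval z l₁ := by
  classical
  have h2 : ∀ j : Fin (ν + 1), ∃ r : ℕ, (X j : MvPolynomial (Fin (ν + 1)) ℂ) ^ r ∈
      Ideal.span (insert l₀ (insert l₁ S)) := by
    intro j
    have h3 : (X j : MvPolynomial (Fin (ν + 1)) ℂ) ∈
        (Ideal.span (insert l₀ (insert l₁ S))).radical := by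
      rw [← vanishingIdeal_zeroLocus_eq_radical (K := ℂ)]
      rw [mem_vanishingIdeal_iff]
      intro z hz
      rw [mem_zeroLocus_iff] at hz
      have h4 : z = 0 := by
        refine hno z (fun g hg => ?_) ?_ ?_
        · have := hz g (Ideal.subset_span (Set.mem_insert_of_mem _ (Set.mem_insert_of_mem _ hg)))
          exact this
        · have := hz l₀ (Ideal.subset_span (Set.mem_insert _ _))
          exact this
        · have := hz l₁ (Ideal.subset_span (Set.mem_insert_of_mem _ (Set.mem_insert _ _)))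
          exact this
      rw [h4]
      simp
    exact h3
  choose r hr using h2
  set s : ℕ := ∑ k, r k with hs
  have h3 : ∀ j, (X j : MvPolynomial (Fin (ν + 1)) ℂ) ^ (s + 1) ∈
      Ideal.span (insert l₀ (insert l₁ S)) := by
    intro j
    refine Ideal.mem_of_dvd _ (pow_dvd_pow _ ?_) (hr j)
    have : r j ≤ s := Finset.single_le_sum (f := r) (fun _ _ => Nat.zero_le _) (Finset.mem_univ j)
    omega
  have h4 : ∀ j, ∃ (A B : MvPolynomial (Fin (ν + 1)) ℂ), A.IsHomogeneous s ∧ B.IsHomogeneous s ∧
      ∀ z : Fin (ν + 1) → ℂ, (∀ g ∈ S, eval z g = 0) →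
        z j ^ (s + 1) = eval z A * eval z l₀ + eval z B * eval z l₁ := by
    intro j
    obtain ⟨A, w, hw, hAw⟩ := Ideal.mem_span_insert.1 (h3 j)
    obtain ⟨B, v, hv, hBv⟩ := Ideal.mem_span_insert.1 hw
    refine ⟨homogeneousComponent s A, homogeneousComponent s B,
      homogeneousComponent_isHomogeneous _ _, homogeneousComponent_isHomogeneous _ _, ?_⟩
    intro z hz
    have h5 := congrArg (homogeneousComponent (s + 1)) hAw
    rw [hBv, map_add, map_add, Pool.Agent.Helper36.homogeneousComponent_mul_of_homogeneous h0,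
      Pool.Agent.Helper36.homogeneousComponent_mul_of_homogeneous h1,
      homogeneousComponent_eq_self (isHomogeneous_X_pow j _)] at h5
    have h6 : ∀ v ∈ Ideal.span S, ∀ n, eval z (homogeneousComponent n v) = 0 := by
      intro v hv
      refine Submodule.span_induction (p := fun v _ => ∀ n, eval z (homogeneousComponent n v) = 0)
        ?_ ?_ ?_ ?_ hv
      · intro g hg n
        obtain ⟨e, he⟩ := hS g hg
        rw [homogeneousComponent_of_mem he]
        split_ifs
        · exact hz g hg
        · exact map_zero _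
      · intro n
        rw [map_zero, map_zero]
      · intro a b _ _ ha hb n
        rw [map_add, map_add, ha, hb, add_zero]
      · intro a b _ hb n
        rw [smul_eq_mul]
        have h7 : homogeneousComponent n (a * b) =
            ∑ p ∈ Finset.range (b.totalDegree + 1), homogeneousComponent n
              (a * homogeneousComponent p b) := by
          rw [← map_sum, ← Finset.mul_sum, sum_homogeneousComponent]
        rw [h7, map_sum]
        refine Finset.sum_eq_zero fun p _ => ?_
        by_cases hp : p ≤ n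
        · obtain ⟨t, rfl⟩ := Nat.exists_eq_add_of_le' hp
          rw [Pool.Agent.Helper36.homogeneousComponent_mul_of_homogeneous
            (homogeneousComponent_isHomogeneous p b), map_mul, hb, mul_zero]
        · have h8 : homogeneousComponent n (a * homogeneousComponent p b) = 0 := by
            have h9 : a * homogeneousComponent p b =
                ∑ q ∈ Finset.range (a.totalDegree + 1),
                  homogeneousComponent q a * homogeneousComponent p b := by
              rw [← Finset.sum_mul, sum_homogeneousComponent]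
            rw [h9, map_sum]
            refine Finset.sum_eq_zero fun q _ => ?_
            rw [homogeneousComponent_of_mem ((homogeneousComponent_isHomogeneous q a).mul
              (homogeneousComponent_isHomogeneous p b)), if_neg (by omega)]
          rw [h8, map_zero]
    have h7 := congrArg (eval z) h5
    rw [map_add, map_add, map_mul, map_mul, h6 v hv, add_zero, map_pow, eval_X] at h7
    exact h7
  choose A B hA hB h using h4
  exact ⟨s, A, B, hA, hB, h⟩

/-- forms of large degree on a curve -/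
theorem dim_reduce {S : Set (MvPolynomial (Fin (ν + 1)) ℂ)} {l₀ l₁ : MvPolynomial (Fin (ν + 1)) ℂ}
    {s : ℕ} {A B : Fin (ν + 1) → MvPolynomial (Fin (ν + 1)) ℂ}
    (hA : ∀ j, (A j).IsHomogeneous s) (hB : ∀ j, (B j).IsHomogeneous s)
    (h : ∀ j, ∀ z : Fin (ν + 1) → ℂ, (∀ g ∈ S, eval z g = 0) →
        z j ^ (s + 1) = eval z (A j) * eval z l₀ + eval z (B j) * eval z l₁)
    {M : ℕ} (hM : (ν + 1) * (s + 1) ≤ M + 1) (P : MvPolynomial (Fin (ν + 1)) ℂ)
    (hP : P.IsHomogeneous (M + 1)) :
    ∃ Q₀ Q₁ : MvPolynomial (Fin (ν + 1)) ℂ, Q₀.IsHomogeneous M ∧ Q₁.IsHomogeneous M ∧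
      ∀ z : Fin (ν + 1) → ℂ, (∀ g ∈ S, eval z g = 0) →
        eval z P = eval z l₀ * eval z Q₀ + eval z l₁ * eval z Q₁ := by
  classical
  -- monomials
  have key : ∀ u : Fin (ν + 1) →₀ ℕ, u.degree = M + 1 →
      ∃ Q₀ Q₁ : MvPolynomial (Fin (ν + 1)) ℂ, Q₀.IsHomogeneous M ∧ Q₁.IsHomogeneous M ∧
      ∀ z : Fin (ν + 1) → ℂ, (∀ g ∈ S, eval z g = 0) →
        eval z (monomial u (1 : ℂ)) = eval z l₀ * eval z Q₀ + eval z l₁ * eval z Q₁ := by
    intro u hu
    obtain ⟨j, hj⟩ : ∃ j, s + 1 ≤ u j := by
      by_contra hcon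
      push Not at hcon
      have h1 : u.degree = ∑ j, u j := Finsupp.degree_eq_sum u
      have h2 : ∑ j, u j < ∑ _j : Fin (ν + 1), (s + 1) :=
        Finset.sum_lt_sum_of_nonempty Finset.univ_nonempty fun j _ => hcon j
      rw [Finset.sum_const, Finset.card_univ, Fintype.card_fin, smul_eq_mul] at h2
      omega
    set w : Fin (ν + 1) →₀ ℕ := u - Finsupp.single j (s + 1) with hw
    have hle : Finsupp.single j (s + 1) ≤ u := by
      rw [Finsupp.single_le_iff]; exact hj
    have huw : u = w + Finsupp.single j (s + 1) := (tsub_add_cancel_of_le hle).symm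
    have hwd : w.degree + s = M := by
      have := congrArg Finsupp.degree huw
      rw [map_add, Finsupp.degree_single, hu] at this
      omega
    have hwh : (monomial w (1 : ℂ)).IsHomogeneous w.degree := isHomogeneous_monomial _ rfl
    refine ⟨monomial w 1 * A j, monomial w 1 * B j, ?_, ?_, ?_⟩
    · have := hwh.mul (hA j)
      rwa [hwd] at this
    · have := hwh.mul (hB j)
      rwa [hwd] at this
    · intro z hz
      have h1 : (monomial u (1 : ℂ)) = monomial w 1 * X j ^ (s + 1) := by
        rw [X_pow_eq_monomial, monomial_mul, one_mul, ← huw]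
      rw [h1, map_mul, map_pow, eval_X, h j z hz, map_mul, map_mul]
      ring
  choose! Q₀ Q₁ hQ₀ hQ₁ hQ using key
  refine ⟨∑ u ∈ P.support, C (coeff u P) * Q₀ u, ∑ u ∈ P.support, C (coeff u P) * Q₁ u, ?_, ?_, ?_⟩
  · refine IsHomogeneous.sum _ _ _ fun u hu => ?_
    have hud : u.degree = M + 1 := by
      by_contra hc
      exact (mem_support_iff.1 hu) (hP.coeff_eq_zero hc)
    have := (isHomogeneous_C (Fin (ν + 1)) (coeff u P)).mul (hQ₀ u hud)
    rwa [zero_add] at this
  · refine IsHomogeneous.sum _ _ _ fun u hu => ?_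
    have hud : u.degree = M + 1 := by
      by_contra hc
      exact (mem_support_iff.1 hu) (hP.coeff_eq_zero hc)
    have := (isHomogeneous_C (Fin (ν + 1)) (coeff u P)).mul (hQ₁ u hud)
    rwa [zero_add] at this
  · intro z hz
    conv_lhs => rw [P.as_sum]
    rw [map_sum, map_sum, map_sum, Finset.mul_sum, Finset.mul_sum, ← Finset.sum_add_distrib]
    refine Finset.sum_congr rfl fun u hu => ?_
    have hud : u.degree = M + 1 := by
      by_contra hc
      exact (mem_support_iff.1 hu) (hP.coeff_eq_zero hc)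
    have h1 : (monomial u (coeff u P)) = C (coeff u P) * monomial u (1 : ℂ) := by
      rw [C_mul_monomial, mul_one]
    rw [h1, map_mul, hQ u hud z hz, map_mul, map_mul, eval_C]
    ring

/-- iterated reduction -/
theorem dim_expand {S : Set (MvPolynomial (Fin (ν + 1)) ℂ)} {l₀ l₁ : MvPolynomial (Fin (ν + 1)) ℂ}
    {s : ℕ} {A B : Fin (ν + 1) → MvPolynomial (Fin (ν + 1)) ℂ}
    (hA : ∀ j, (A j).IsHomogeneous s) (hB : ∀ j, (B j).IsHomogeneous s)
    (h : ∀ j, ∀ z : Fin (ν + 1) → ℂ, (∀ g ∈ S, eval z g = 0) →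
        z j ^ (s + 1) = eval z (A j) * eval z l₀ + eval z (B j) * eval z l₁)
    (r : ℕ) : ∀ P : MvPolynomial (Fin (ν + 1)) ℂ, P.IsHomogeneous ((ν + 1) * (s + 1) + r) →
    ∃ G : ℕ → MvPolynomial (Fin (ν + 1)) ℂ, (∀ i, (G i).IsHomogeneous ((ν + 1) * (s + 1))) ∧
      ∀ z : Fin (ν + 1) → ℂ, (∀ g ∈ S, eval z g = 0) →
        eval z P = ∑ i ∈ Finset.range (r + 1),
          eval z l₀ ^ i * eval z l₁ ^ (r - i) * eval z (G i) := by
  induction r with
  | zero =>
    intro P hP
    exact ⟨fun _ => P, fun _ => hP, fun z _ => by simp⟩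
  | succ r ih =>
    intro P hP
    obtain ⟨Q₀, Q₁, hQ₀, hQ₁, hQ⟩ := dim_reduce hA hB h
      (M := (ν + 1) * (s + 1) + r) (by omega) P hP
    obtain ⟨G, hG, hG'⟩ := ih Q₀ hQ₀
    obtain ⟨G₁, hG₁, hG₁'⟩ := ih Q₁ hQ₁
    refine ⟨fun i => (if i = 0 then 0 else G (i - 1)) + (if i ≤ r then G₁ i else 0), ?_, ?_⟩
    · intro i
      refine IsHomogeneous.add ?_ ?_
      · split_ifs
        · exact isHomogeneous_zero _ _ _
        · exact hG _
      · split_ifs
        · exact hG₁ _
        · exact isHomogeneous_zero _ _ _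
    · intro z hz
      rw [hQ z hz, hG' z hz, hG₁' z hz]
      simp only [map_add, mul_add, Finset.sum_add_distrib]
      congr 1
      · rw [Finset.sum_range_succ' _ (r + 1)]
        simp only [if_true, map_zero, mul_zero, add_zero]
        rw [Finset.mul_sum]
        refine Finset.sum_congr rfl fun i hi => ?_
        rw [if_neg (Nat.succ_ne_zero i), Nat.add_sub_cancel, Nat.add_sub_add_right]
        ring
      · rw [Finset.sum_range_succ _ (r + 1)]
        rw [if_neg (by omega), map_zero, mul_zero, add_zero, Finset.mul_sum]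
        refine Finset.sum_congr rfl fun i hi => ?_
        have hi' : i ≤ r := by
          have := Finset.mem_range.1 hi; omega
        rw [if_pos hi', Nat.succ_sub hi', pow_succ]
        ring

theorem onCurve {K : Type} [Field K] [Algebra K ℂ] {x : ℕ → Fin (ν + 1) → K} {U : Ultrafilter ℕ}
    {S : Set (MvPolynomial (Fin (ν + 1)) ℂ)} (hS : ∀ g ∈ S, ∃ e, g.IsHomogeneous e)
    {l₀ l₁ : MvPolynomial (Fin (ν + 1)) ℂ} (h0 : l₀.IsHomogeneous 1) (h1 : l₁.IsHomogeneous 1)
    (hno : ∀ z : Fin (ν + 1) → ℂ, (∀ g ∈ S, eval z g = 0) → eval z l₀ = 0 → eval z l₁ = 0 →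
      z = 0)
    (hU : ∀ᶠ n in (U : Filter ℕ), ∀ g ∈ S, eval (fun i => algebraMap K ℂ (x n i)) g = 0) :
    OnCurve U x := by
  classical
  intro m
  obtain ⟨s, A, B, hA, hB, h⟩ := dim_null hS h0 h1 hno
  set M0 : ℕ := (ν + 1) * (s + 1) with hM0
  -- forms of degree `M0`
  have hfin : FiniteDimensional ℂ (homogeneousSubmodule (Fin (ν + 1)) ℂ M0) := by
    have hle : homogeneousSubmodule (Fin (ν + 1)) ℂ M0 ≤ restrictTotalDegree (Fin (ν + 1)) ℂ M0 := by
      intro p hp
      rw [mem_restrictTotalDegree]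
      exact ((mem_homogeneousSubmodule _ _).1 hp).totalDegree_le
    have hf : FiniteDimensional ℂ (restrictTotalDegree (Fin (ν + 1)) ℂ M0) := by
      infer_instance
    exact Submodule.finiteDimensional_of_le hle
  set D : ℕ := Module.finrank ℂ (homogeneousSubmodule (Fin (ν + 1)) ℂ M0) with hD
  set r : ℕ := 2 * D with hr
  -- the points of the curve
  let Z : Type := {z : Fin (ν + 1) → ℂ // ∀ g ∈ S, eval z g = 0}
  let Φ : (Fin (r + 1) → homogeneousSubmodule (Fin (ν + 1)) ℂ M0) →ₗ[ℂ] (Z → ℂ) :=
    { toFun := fun G z => ∑ i : Fin (r + 1), eval z.1 l₀ ^ (i : ℕ) * eval z.1 l₁ ^ (r - i) *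
        eval z.1 (G i).1
      map_add' := by
        intro G G'
        funext z
        simp only [Pi.add_apply, Submodule.coe_add, map_add, mul_add, Finset.sum_add_distrib]
      map_smul' := by
        intro c G
        funext z
        simp only [Pi.smul_apply, Submodule.coe_smul, smul_eval, RingHom.id_apply, smul_eq_mul,
          Finset.mul_sum]
        refine Finset.sum_congr rfl fun i _ => ?_
        ring }
  let mf : Fin 3 → MvPolynomial (Fin (ν + 1)) ℂ := fun j => ∑ i, C (algebraMap K ℂ (m j i)) * X i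
  have hmf : ∀ j, (mf j).IsHomogeneous 1 := by
    intro j
    refine IsHomogeneous.sum _ _ _ fun i _ => ?_
    have := (isHomogeneous_C (Fin (ν + 1)) (algebraMap K ℂ (m j i))).mul
      (isHomogeneous_X ℂ i)
    rwa [zero_add] at this
  let Ψ : homogeneousSubmodule (Fin 3) ℂ (M0 + r) →ₗ[ℂ] (Z → ℂ) :=
    { toFun := fun G z => eval (fun j => eval z.1 (mf j)) G.1
      map_add' := by
        intro G G'
        funext z
        simp only [Pi.add_apply, Submodule.coe_add, map_add]
      map_smul' := by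
        intro c G
        funext z
        simp only [Pi.smul_apply, Submodule.coe_smul, smul_eval, RingHom.id_apply, smul_eq_mul] }
  have hrange : ∀ G, Ψ G ∈ LinearMap.range Φ := by
    intro G
    have hhom : (bind₁ mf G.1).IsHomogeneous (M0 + r) := by
      have h1 := ((mem_homogeneousSubmodule _ _).1 G.2).aeval mf hmf
      rw [one_mul] at h1
      exact h1
    obtain ⟨Q, hQ, hQ'⟩ := dim_expand hA hB h r (bind₁ mf G.1) hhom
    refine ⟨fun i => ⟨Q i, (mem_homogeneousSubmodule _ _).2 (hQ i)⟩, ?_⟩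
    funext z
    have h2 := hQ' z.1 z.2
    change ∑ i : Fin (r + 1), eval z.1 l₀ ^ (i : ℕ) * eval z.1 l₁ ^ (r - i) *
        eval z.1 (Q i) = eval (fun j => eval z.1 (mf j)) G.1
    rw [← Fin.sum_univ_eq_sum_range (fun i => eval z.1 l₀ ^ i * eval z.1 l₁ ^ (r - i) *
        eval z.1 (Q i)) (r + 1)] at h2
    rw [← h2]
    have h3 : eval z.1 (bind₁ mf G.1) = eval (fun j => eval z.1 (mf j)) G.1 := by
      have := eval₂Hom_bind₁ (RingHom.id ℂ) z.1 mf G.1
      exact this
    exact h3
  obtain ⟨hfin3, hdim3⟩ := Pool.Agent.Helper30.TP.finrank_forms ℂ (M0 + r)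
  have hninj : ¬ Function.Injective Ψ := by
    intro hinj
    have h1 : Function.Injective (Ψ.codRestrict (LinearMap.range Φ) hrange) := by
      intro a b hab
      apply hinj
      exact congrArg Subtype.val hab
    have hfr : FiniteDimensional ℂ (LinearMap.range Φ) := by infer_instance
    have h2 := LinearMap.finrank_le_finrank_of_injective h1
    have h3 : Module.finrank ℂ (LinearMap.range Φ) ≤ (r + 1) * D := by
      refine (LinearMap.finrank_range_le Φ).trans ?_
      rw [Module.finrank_pi_fintype]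
      simp [hD]
    rw [hdim3] at h2
    have h4 : (r + 2).choose 2 ≤ (M0 + r + 2).choose 2 := Nat.choose_le_choose 2 (by omega)
    have h5 : (r + 2).choose 2 * 2 = (r + 2) * (r + 1) := by
      rw [Nat.choose_two_right, Nat.div_mul_cancel]
      · rfl
      · exact (Nat.even_mul_pred_self (r + 2)).two_dvd
    have h6 : (r + 2) * (r + 1) ≤ 2 * ((r + 1) * D) := by
      calc (r + 2) * (r + 1) = (r + 2).choose 2 * 2 := h5.symm
        _ ≤ ((r + 1) * D) * 2 := by
            apply Nat.mul_le_mul_right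
            omega
        _ = _ := by ring
    have h7 : (r + 2) * (r + 1) = 2 * ((r + 1) * D) + 2 * (r + 1) := by
      rw [hr]; ring
    omega
  obtain ⟨G, hG, hG0⟩ : ∃ G, Ψ G = 0 ∧ G ≠ 0 := by
    rw [← LinearMap.ker_eq_bot, Submodule.eq_bot_iff] at hninj
    push Not at hninj
    obtain ⟨G, hG, hG0⟩ := hninj
    exact ⟨G, LinearMap.mem_ker.1 hG, hG0⟩
  obtain ⟨g, hg⟩ := G
  have hg0 : g ≠ 0 := by
    rintro rfl
    exact hG0 rfl
  have hgh : g.IsHomogeneous (M0 + r) := (mem_homogeneousSubmodule _ _).1 hg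
  -- a form over `K`
  obtain ⟨ℓ, hℓ⟩ : ∃ ℓ : ℂ →ₗ[K] K, Pool.Agent.Helper30.TP.lam ℓ g ≠ 0 := by
    obtain ⟨t, ht⟩ := Pool.Agent.Helper30.TP.ultra_expand (Module.Basis.ofVectorSpace K ℂ) g
    by_contra hcon
    push Not at hcon
    apply hg0
    rw [ht]
    apply Finset.sum_eq_zero
    intro l _
    rw [hcon, map_zero, mul_zero]
  refine ⟨Pool.Agent.Helper30.TP.lam ℓ g, M0 + r, Pool.Agent.Helper30.TP.ultra_lam_hom ℓ hgh, hℓ, ?_⟩
  filter_upwards [hU] with n hn
  rw [Pool.Agent.Helper30.TP.ultra_eval_lam]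
  have h2 : eval (fun j => eval (fun i => algebraMap K ℂ (x n i)) (mf j)) g = 0 :=
    congrFun hG ⟨fun i => algebraMap K ℂ (x n i), hn⟩
  have h3 : (fun j => algebraMap K ℂ (∑ i, m j i * x n i)) =
      fun j => eval (fun i => algebraMap K ℂ (x n i)) (mf j) := by
    funext j
    simp only [mf, map_sum, map_mul, eval_C, eval_X]
  rw [h3, h2, map_zero]

end Pool.Agent.Helper38.TQ

end

section

/-!
# Closed sets of dimension at most one
-/

set_option autoImplicit false

namespace Pool.Agent.Helper38.TQ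

open MvPolynomial

variable {ν : ℕ}

/-- The sequences of points over subfields of `ℂ` in the closed set lie on curves. -/
def CurveSet (S : Set (MvPolynomial (Fin (ν + 1)) ℂ)) : Prop :=
  ∀ (K : Type) [Field K] [Algebra K ℂ] (y : ℕ → Fin (ν + 1) → K) (U : Ultrafilter ℕ),
    (∀ᶠ n in (U : Filter ℕ), ∀ g ∈ S, eval (fun i => algebraMap K ℂ (y n i)) g = 0) →
      OnCurve U y

theorem curveSet_of_forms {S : Set (MvPolynomial (Fin (ν + 1)) ℂ)}
    (hS : ∀ g ∈ S, ∃ e, g.IsHomogeneous e)
    {l₀ l₁ : MvPolynomial (Fin (ν + 1)) ℂ} (h0 : l₀.IsHomogeneous 1) (h1 : l₁.IsHomogeneous 1)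
    (hno : ∀ z : Fin (ν + 1) → ℂ, (∀ g ∈ S, eval z g = 0) → eval z l₀ = 0 → eval z l₁ = 0 →
      z = 0) : CurveSet S :=
  fun _ _ _ _ _ hU => onCurve hS h0 h1 hno hU

/-- Homogeneous relations between three linear forms on a cone of dimension at most two. -/
theorem exists_relation_linear {S : Set (MvPolynomial (Fin (ν + 1)) ℂ)}
    (hS : ∀ g ∈ S, ∃ e, g.IsHomogeneous e)
    (hdim : ringKrullDim (MvPolynomial (Fin (ν + 1)) ℂ ⧸ Ideal.span S) ≤ 2)
    (c : Fin 3 → Fin (ν + 1) → ℂ) :
    ∃ (e : ℕ) (Q : MvPolynomial (Fin 3) ℂ), Q.IsHomogeneous e ∧ Q ≠ 0 ∧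
      ∀ x : Fin (ν + 1) → ℂ, (∀ g ∈ S, eval x g = 0) →
        eval (fun j => ∑ i, c j i * x i) Q = 0 := by
  classical
  obtain ⟨Q, hQ0, hQ⟩ := Pool.Agent.Helper36.exists_relation_radical (Ideal.span S) hdim
    (fun j => ∑ i, C (c j i) * X i)
  have hvan : ∀ x : Fin (ν + 1) → ℂ, (∀ g ∈ S, eval x g = 0) →
      eval (fun j => ∑ i, c j i * x i) Q = 0 := by
    intro x hx
    obtain ⟨n, hn⟩ := hQ
    have hspan : ∀ g ∈ Ideal.span S, eval x g = 0 := by
      intro g hg
      induction hg using Submodule.span_induction with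
      | mem g hg => exact hx g hg
      | zero => rw [map_zero]
      | add a b _ _ ha hb => rw [map_add, ha, hb, add_zero]
      | smul a b _ hb => rw [smul_eq_mul, map_mul, hb, mul_zero]
    have h1 := hspan _ hn
    rw [map_pow] at h1
    have h2 := eq_zero_of_pow_eq_zero h1
    have h3 : ∀ Q : MvPolynomial (Fin 3) ℂ, eval x (aeval
        (fun j => (∑ i, C (c j i) * X i : MvPolynomial (Fin (ν + 1)) ℂ)) Q) =
        eval (fun j => ∑ i, c j i * x i) Q := by
      intro Q
      induction Q using MvPolynomial.induction_on with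
      | C a => simp
      | add p q hp hq => simp only [map_add, hp, hq]
      | mul_X p i hp =>
        rw [map_mul, map_mul, map_mul, hp, aeval_X, eval_X]
        congr 1
        simp
    rwa [h3] at h2
  obtain ⟨e, he⟩ : ∃ e, homogeneousComponent e Q ≠ 0 := by
    by_contra hcon
    push Not at hcon
    apply hQ0
    rw [← sum_homogeneousComponent Q]
    exact Finset.sum_eq_zero fun i _ => hcon i
  refine ⟨e, _, homogeneousComponent_isHomogeneous e Q, he, fun x hx => ?_⟩
  set v : Fin 3 → ℂ := fun j => ∑ i, c j i * x i with hv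
  set R : Polynomial ℂ := ∑ i ∈ Finset.range (Q.totalDegree + 1),
    Polynomial.C (eval v (homogeneousComponent i Q)) * Polynomial.X ^ i with hR
  have hR0 : R = 0 := by
    apply Polynomial.zero_of_eval_zero
    intro l
    have h1 : eval (fun i => l * v i) Q = 0 := by
      have h2 := hvan (fun i => l * x i) (by
        intro g hg
        obtain ⟨n, hn⟩ := hS g hg
        have h3 := eval_smul_hom hn l x
        rw [hx g hg, mul_zero] at h3
        exact h3)
      rw [← h2]
      congr 2
      funext j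
      rw [hv]
      simp only [Finset.mul_sum]
      refine Finset.sum_congr rfl fun i _ => ?_
      ring
    rw [← sum_homogeneousComponent Q, map_sum] at h1
    rw [hR, Polynomial.eval_finsetSum, ← h1]
    refine Finset.sum_congr rfl fun i _ => ?_
    have h4 : eval (fun i => l * v i) (homogeneousComponent i Q) =
        l ^ i * eval v (homogeneousComponent i Q) :=
      eval_smul_hom (ν := 2) (homogeneousComponent_isHomogeneous i Q) l v
    rw [h4, Polynomial.eval_mul, Polynomial.eval_C, Polynomial.eval_pow, Polynomial.eval_X,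
      mul_comm]
  have hcoef := congrArg (fun p => p.coeff e) hR0
  simp only [hR, Polynomial.finsetSum_coeff, Polynomial.coeff_C_mul_X_pow,
    Polynomial.coeff_zero] at hcoef
  rw [Finset.sum_ite_eq] at hcoef
  split_ifs at hcoef with h
  · exact hcoef
  · rw [homogeneousComponent_eq_zero, map_zero]
    rw [Finset.mem_range] at h
    omega

/-- Closed sets of dimension at most one (Krull dimension of the cone at most two). -/
theorem curveSet_of_krull {S : Set (MvPolynomial (Fin (ν + 1)) ℂ)}
    (hS : ∀ g ∈ S, ∃ e, g.IsHomogeneous e)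
    (hdim : ringKrullDim (MvPolynomial (Fin (ν + 1)) ℂ ⧸ Ideal.span S) ≤ 2) : CurveSet S := by
  intro K _ _ y U hU m
  obtain ⟨e, Q, hQ, hQ0, hQv⟩ := exists_relation_linear hS hdim
    (fun j i => algebraMap K ℂ (m j i))
  obtain ⟨ρ, hρ⟩ := Pool.Agent.Helper36.exists_mapLin_ne_zero (K := K) hQ0
  refine ⟨_, e, Pool.Agent.Helper36.mapLin_isHomogeneous ρ hQ, hρ, ?_⟩
  filter_upwards [hU] with n hn
  rw [Pool.Agent.Helper36.eval_mapLin]
  have h1 := hQv _ hn
  have h2 : (fun j => algebraMap K ℂ (∑ i, m j i * y n i)) =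
      fun j => ∑ i, algebraMap K ℂ (m j i) * algebraMap K ℂ (y n i) := by
    funext j
    rw [map_sum]
    exact Finset.sum_congr rfl fun i _ => map_mul _ _ _
  rw [h2, h1, map_zero]

end Pool.Agent.Helper38.TQ

end
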