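import Pool.Agent.Helper72.TM2.T08
import Pool.Agent.Helper72.TM2.T11
import Pool.Agent.Helper72.TM2.T06
import Pool.Agent.Helper72.TM2.T13
import Pool.Agent.Helper72.TM2.T12

section

namespace Pool.Agent.Helper16
end Pool.Agent.Helper16
namespace Pool.Agent.Helper36
end Pool.Agent.Helper36
namespace Pool.Agent.Helper38.TQ
end Pool.Agent.Helper38.TQ

/-!
# Growth of the heights
-/

set_option autoImplicit false

namespace Pool.Agent.Helper30.TKN

open MvPolynomial

open Pool.Agent.Helper16 (Place IsFunctionField)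

open Pool.Agent.Helper36 (step iter iter_zero iter_succ iter_succ' iter_add iter_map exists_nullstellensatz)

open Pool.Agent.Helper38.TQ

variable {ν : ℕ}

variable {k K : Type} [Field k] [IsAlgClosed k] [Field K] [Algebra k K] [Algebra K ℂ]

theorem homog_of_endo {d : ℕ} {F : Fin (ν + 1) → MvPolynomial (Fin (ν + 1)) K}
    (hF : IsEndo d fun i => map (algebraMap K ℂ) (F i)) (i : Fin (ν + 1)) : (F i).IsHomogeneous d :=
  IsHomogeneous.of_map (algebraMap K ℂ).injective (hF.hom i)

theorem growth_aeval_zero {d : ℕ} {F : Fin (ν + 1) → MvPolynomial (Fin (ν + 1)) K}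
    (hF : IsEndo d fun i => map (algebraMap K ℂ) (F i)) (y : Fin (ν + 1) → ℂ)
    (hy : ∀ i, aeval y (F i) = 0) : y = 0 := by
  refine hF.nz y fun i => ?_
  have h := hy i
  rw [eval_map]
  rw [aeval_def] at h
  exact h

theorem step_ne_zeroK {d : ℕ} {F : Fin (ν + 1) → MvPolynomial (Fin (ν + 1)) K}
    (hF : IsEndo d fun i => map (algebraMap K ℂ) (F i)) {x : Fin (ν + 1) → K} (hx : x ≠ 0) :
    step F x ≠ 0 := by
  intro h
  apply hx
  have h1 : (fun i => algebraMap K ℂ (x i)) = 0 := by
    apply growth_aeval_zero hF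
    intro i
    have h2 := congrFun h i
    have h3 : aeval x (F i) = 0 := h2
    have h4 : aeval (fun i => algebraMap K ℂ (x i)) (F i) = algebraMap K ℂ (aeval x (F i)) := by
      have h5 : (fun i => algebraMap K ℂ (x i)) = fun i => (Algebra.ofId K ℂ) (x i) := rfl
      rw [h5, ← comp_aeval_apply]
      rfl
    rw [h4, h3, map_zero]
  funext i
  have h2 := congrFun h1 i
  exact (map_eq_zero (algebraMap K ℂ)).1 h2

theorem iter_ne_zeroK {d : ℕ} {F : Fin (ν + 1) → MvPolynomial (Fin (ν + 1)) K}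
    (hF : IsEndo d fun i => map (algebraMap K ℂ) (F i)) {x : Fin (ν + 1) → K} (hx : x ≠ 0) (n : ℕ) :
    iter F x n ≠ 0 := by
  induction n with
  | zero => exact hx
  | succ n ih =>
    rw [iter_succ]
    exact step_ne_zeroK hF ih

theorem growth_loc (hK : IsFunctionField k K) {d : ℕ} {F : Fin (ν + 1) → MvPolynomial (Fin (ν + 1)) K}
    (hF : IsEndo d fun i => map (algebraMap K ℂ) (F i)) :
    ∃ c : Place k K → ℤ, (Function.support c).Finite ∧ (∀ b, 0 ≤ c b) ∧
      ∀ (b : Place k K) (y : Fin (ν + 1) → K), y ≠ 0 →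
        |WithZero.log (nrm b (step F y)) - d * WithZero.log (nrm b y)| ≤ c b := by
  classical
  have hhom := fun i => homog_of_endo hF i
  obtain ⟨M, q, hq, h⟩ := exists_nullstellensatz (L := ℂ) F hhom (growth_aeval_zero hF)
  have hsup : ∀ P : MvPolynomial (Fin (ν + 1)) K,
      (Function.support fun b : Place k K => max 0 (WithZero.log (gs b P))).Finite := by
    intro P
    by_cases h0 : P = 0
    · rw [h0]
      simp [formHeight_zero]
    · refine (formHeight_support hK h0).subset fun b hb => ?_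
      rw [Function.mem_support] at hb ⊢
      intro h1
      apply hb
      rw [h1, max_self]
  set c : Place k K → ℤ := fun b => ∑ i : Fin (ν + 1), max 0 (WithZero.log (gs b (F i))) +
    ∑ a : Fin (ν + 1) × Fin (ν + 1), max 0 (WithZero.log (gs b (q a))) with hc
  have hc1 : ∀ b : Place k K, 0 ≤ ∑ i : Fin (ν + 1), max 0 (WithZero.log (gs b (F i))) := fun b =>
    Finset.sum_nonneg fun i _ => le_max_left _ _
  have hc2 : ∀ b : Place k K, 0 ≤ ∑ a : Fin (ν + 1) × Fin (ν + 1), max 0 (WithZero.log (gs b (q a))) := fun b =>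
    Finset.sum_nonneg fun i _ => le_max_left _ _
  have hcF : ∀ (b : Place k K) i, gs b (F i) ≤ WithZero.exp (c b) := by
    intro b i
    apply WithZero.le_exp_of_log_le
    have h1 : max 0 (WithZero.log (gs b (F i))) ≤ ∑ i : Fin (ν + 1), max 0 (WithZero.log (gs b (F i))) :=
      Finset.single_le_sum (f := fun i => max 0 (WithZero.log (gs b (F i))))
        (fun i _ => le_max_left _ _) (Finset.mem_univ i)
    have h2 := le_max_right 0 (WithZero.log (gs b (F i)))
    have h3 := hc2 b
    simp only [hc]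
    linarith
  have hcq : ∀ (b : Place k K) a, gs b (q a) ≤ WithZero.exp (c b) := by
    intro b a
    apply WithZero.le_exp_of_log_le
    have h1 : max 0 (WithZero.log (gs b (q a))) ≤
        ∑ a : Fin (ν + 1) × Fin (ν + 1), max 0 (WithZero.log (gs b (q a))) :=
      Finset.single_le_sum (f := fun a => max 0 (WithZero.log (gs b (q a))))
        (fun i _ => le_max_left _ _) (Finset.mem_univ a)
    have h2 := le_max_right 0 (WithZero.log (gs b (q a)))
    have h3 := hc1 b
    simp only [hc]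
    linarith
  refine ⟨c, ?_, fun b => add_nonneg (hc1 b) (hc2 b), fun b y hy => ?_⟩
  · have h1 : ((⋃ i : Fin (ν + 1), Function.support fun b : Place k K =>
        max 0 (WithZero.log (gs b (F i)))) ∪ (⋃ a : Fin (ν + 1) × Fin (ν + 1),
        Function.support fun b : Place k K => max 0 (WithZero.log (gs b (q a))))).Finite :=
      (Set.finite_iUnion fun i => hsup _).union (Set.finite_iUnion fun a => hsup _)
    refine h1.subset fun b hb => ?_
    rw [Function.mem_support] at hb
    by_contra hcon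
    apply hb
    simp only [Set.mem_union, Set.mem_iUnion, Function.mem_support, not_or, not_exists,
      not_not] at hcon
    simp only [hc]
    rw [Finset.sum_eq_zero fun i _ => hcon.1 i, Finset.sum_eq_zero fun a _ => hcon.2 a, add_zero]
  · have hn0 := nrm_ne_zero (b := b) hy
    have hs0 := nrm_ne_zero (b := b) (step_ne_zeroK hF hy)
    have he0 : WithZero.exp (c b) ≠ 0 := WithZero.exp_ne_zero
    rw [abs_le]
    constructor
    · -- the lower bound
      obtain ⟨i, hi⟩ := exists_val_eq_nrm b y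
      have h1 : b.val (y i ^ (M + d)) ≤
          WithZero.exp (c b) * nrm b y ^ M * nrm b (step F y) := by
        have h2 := congrArg (eval y) (h i)
        rw [map_pow, eval_X, map_sum] at h2
        rw [← h2]
        refine b.val.map_sum_le fun j _ => ?_
        rw [map_mul, map_mul]
        refine mul_le_mul' ((low_val_eval_le b (hq _) y).trans (mul_le_mul' (hcq b _) le_rfl)) ?_
        have h3 : eval y (F j) = step F y j := by
          rw [← coe_aeval_eq_eval]
          rfl
        rw [h3]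
        exact val_le_nrm b (step F y) j
      rw [map_pow, hi, ← WithZero.log_le_log (pow_ne_zero _ hn0)
        (mul_ne_zero (mul_ne_zero he0 (pow_ne_zero _ hn0)) hs0),
        WithZero.log_mul (mul_ne_zero he0 (pow_ne_zero _ hn0)) hs0,
        WithZero.log_mul he0 (pow_ne_zero _ hn0), WithZero.log_exp, WithZero.log_pow,
        WithZero.log_pow, nsmul_eq_mul, nsmul_eq_mul] at h1
      push_cast at h1
      linarith
    · -- the upper bound
      have h1 : nrm b (step F y) ≤ WithZero.exp (c b) * nrm b y ^ d := by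
        refine nrm_le fun i => ?_
        have h3 : eval y (F i) = step F y i := by
          rw [← coe_aeval_eq_eval]
          rfl
        rw [← h3]
        exact (low_val_eval_le b (hhom i) y).trans (mul_le_mul' (hcF b i) le_rfl)
      rw [← WithZero.log_le_log hs0 (mul_ne_zero he0 (pow_ne_zero _ hn0)),
        WithZero.log_mul he0 (pow_ne_zero _ hn0), WithZero.log_exp, WithZero.log_pow,
        nsmul_eq_mul] at h1
      linarith

theorem growth (hK : IsFunctionField k K) {d : ℕ} {F : Fin (ν + 1) → MvPolynomial (Fin (ν + 1)) K}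
    (hF : IsEndo d fun i => map (algebraMap K ℂ) (F i)) :
    ∃ C : ℤ, 0 ≤ C ∧ ∀ y : Fin (ν + 1) → K, y ≠ 0 → |ht k (step F y) - d * ht k y| ≤ C := by
  obtain ⟨c, hcs, hc0, hc⟩ := growth_loc hK hF
  refine ⟨∑ᶠ b : Place k K, c b, finsum_nonneg hc0, fun y hy => ?_⟩
  have h1 := nrm_support hK y hy
  have h2 := nrm_support hK _ (step_ne_zeroK hF hy)
  have h3 : (Function.support fun b : Place k K => (d : ℤ) * WithZero.log (nrm b y)).Finite := by
    refine h1.subset fun b hb => ?_
    rw [Function.mem_support] at hb ⊢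
    exact right_ne_zero_of_mul hb
  unfold ht
  rw [mul_finsum, abs_le]
  constructor
  · have h4 : ∑ᶠ b : Place k K, (d : ℤ) * WithZero.log (nrm b y) ≤
        ∑ᶠ b : Place k K, (WithZero.log (nrm b (step F y)) + c b) := by
      refine finsum_le_finsum' h3 ((h2.union hcs).subset (Function.support_add _ _)) fun b => ?_
      have := (abs_le.1 (hc b y hy)).1
      linarith
    rw [finsum_add_distrib h2 hcs] at h4
    linarith
  · have h4 : ∑ᶠ b : Place k K, WithZero.log (nrm b (step F y)) ≤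
        ∑ᶠ b : Place k K, ((d : ℤ) * WithZero.log (nrm b y) + c b) := by
      refine finsum_le_finsum' h2 ((h3.union hcs).subset (Function.support_add _ _)) fun b => ?_
      have := (abs_le.1 (hc b y hy)).2
      linarith
    rw [finsum_add_distrib h3 hcs] at h4
    linarith

theorem growth_pow (c m : ℕ) : ∀ n, m + 2 * (c * (m + 4) + 1) ≤ n →
    c * (n + 1) < 2 ^ (n - m) := by
  intro n hn
  obtain ⟨j, rfl⟩ := Nat.exists_eq_add_of_le (show m ≤ n by omega)
  have h1 : m + j - m = j := by omega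
  rw [h1]
  set s := j / 2 with hs
  have hs1 : c * (m + 4) + 1 ≤ s := by omega
  have h2 : s + 1 ≤ 2 ^ s := Nat.lt_two_pow_self
  have h3 : (2 : ℕ) ^ (2 * s) ≤ 2 ^ j := Nat.pow_le_pow_right (by norm_num) (by omega)
  have h4 : (s + 1) * (s + 1) ≤ 2 ^ (2 * s) := by
    rw [two_mul, pow_add]
    exact Nat.mul_le_mul h2 h2
  have h5 : m + j + 1 ≤ (m + 4) * (s + 1) := by
    have : j ≤ 2 * s + 1 := by omega
    nlinarith
  calc c * (m + j + 1) ≤ c * ((m + 4) * (s + 1)) := Nat.mul_le_mul le_rfl h5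
    _ = (c * (m + 4)) * (s + 1) := by ring
    _ < (s + 1) * (s + 1) := Nat.mul_lt_mul_of_pos_right (by omega) (by omega)
    _ ≤ 2 ^ j := h4.trans h3

/-- Exponential growth. -/
theorem ht_growth (hK : IsFunctionField k K) {d : ℕ} {F : Fin (ν + 1) → MvPolynomial (Fin (ν + 1)) K}
    (hF : IsEndo d fun i => map (algebraMap K ℂ) (F i)) {x : Fin (ν + 1) → K} (hx : x ≠ 0)
    (hunb : ∀ B : ℤ, ∃ n, B < ht k (iter F x n)) (C : ℤ) :
    ∃ n₁ : ℕ, ∀ n, n₁ ≤ n → C * (n + 1) < ht k (iter F x n) := by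
  obtain ⟨C₀, hC₀, hC⟩ := growth hK hF
  obtain ⟨m, hm⟩ := hunb C₀
  have hd : (2 : ℤ) ≤ d := by exact_mod_cast hF.two_le
  have key : ∀ j : ℕ, (2 : ℤ) ^ j + C₀ ≤ ht k (iter F x (m + j)) := by
    intro j
    induction j with
    | zero => simp; omega
    | succ j ih =>
      have h1 := (abs_le.1 (hC _ (iter_ne_zeroK hF hx (m + j)))).1
      rw [← iter_succ] at h1
      have h2 : (0 : ℤ) ≤ 2 ^ j := by positivity
      have h3 : 0 ≤ ht k (iter F x (m + j)) := by linarith
      have h4 : 2 * ht k (iter F x (m + j)) ≤ d * ht k (iter F x (m + j)) :=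
        mul_le_mul_of_nonneg_right hd h3
      rw [show m + (j + 1) = m + j + 1 by omega, pow_succ]
      linarith
  refine ⟨m + 2 * (C.toNat * (m + 4) + 1), fun n hn => ?_⟩
  have h1 := growth_pow C.toNat m n hn
  have h2 := key (n - m)
  rw [show m + (n - m) = n by omega] at h2
  have h3 : ((C.toNat * (n + 1) : ℕ) : ℤ) < ((2 ^ (n - m) : ℕ) : ℤ) := by exact_mod_cast h1
  push_cast at h3
  have h4 : C ≤ (C.toNat : ℤ) := Int.self_le_toNat C
  have h5 : C * ((n : ℤ) + 1) ≤ (C.toNat : ℤ) * ((n : ℤ) + 1) :=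
    mul_le_mul_of_nonneg_right h4 (by positivity)
  linarith

/-- The points of the orbit are distinct. -/
theorem distinct_of_unbounded (hK : IsFunctionField k K) {d : ℕ}
    {F : Fin (ν + 1) → MvPolynomial (Fin (ν + 1)) K}
    (hF : IsEndo d fun i => map (algebraMap K ℂ) (F i)) {x : Fin (ν + 1) → K} (hx : x ≠ 0)
    (hunb : ∀ B : ℤ, ∃ n, B < ht k (iter F x n)) (n n' : ℕ) (h : n ≠ n') :
    ¬ PEq (iter F x n) (iter F x n') := by
  have key : ∀ n p : ℕ, 0 < p → ¬ PEq (iter F x n) (iter F x (n + p)) := by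
    intro n p hp hP
    have hhom := fun i => homog_of_endo hF i
    -- the heights along the progression
    have h1 : ∀ j, ht k (iter F x (n + j + p)) = ht k (iter F x (n + j)) := by
      intro j
      have h2 : PEq (iter F (iter F x n) j) (iter F (iter F x (n + p)) j) :=
        Pool.Agent.Helper36.PEq.iter hhom hP j
      obtain ⟨c, hc, h3⟩ := h2
      rw [← iter_add, ← iter_add] at h3
      rw [show n + j + p = j + (n + p) by omega, h3, show j + n = n + j by omega]
      exact ht_smul hK hc (iter_ne_zeroK hF hx _)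
    have h2 : ∀ t : ℕ, ht k (iter F x (n + t * p)) = ht k (iter F x n) := by
      intro t
      induction t with
      | zero => simp
      | succ t ih =>
        rw [show n + (t + 1) * p = n + t * p + p by ring, h1, ih]
    obtain ⟨n₁, hn₁⟩ := ht_growth hK hF hx hunb (ht k (iter F x n) + 1)
    have h3 : n₁ ≤ n + n₁ * p := by
      have : n₁ * 1 ≤ n₁ * p := Nat.mul_le_mul le_rfl hp
      omega
    have h4 := hn₁ _ h3
    rw [h2] at h4
    have h5 := low_ht_nonneg hK (iter_ne_zeroK hF hx n)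
    have h6 : (0 : ℤ) ≤ ((n + n₁ * p : ℕ) : ℤ) := by positivity
    nlinarith
  rcases Nat.lt_or_gt_of_ne h with h1 | h1
  · obtain ⟨p, rfl⟩ := Nat.exists_eq_add_of_le h1.le
    exact key n p (by omega)
  · obtain ⟨p, rfl⟩ := Nat.exists_eq_add_of_le h1.le
    intro h2
    obtain ⟨c, hc, h3⟩ := h2
    apply key n' p (by omega)
    refine ⟨c⁻¹, inv_ne_zero hc, ?_⟩
    rw [h3, smul_smul, inv_mul_cancel₀ hc, one_smul]

end Pool.Agent.Helper30.TKN

end

section

/-!
# Hensel's lemma for the plane model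
-/

set_option autoImplicit false

namespace Pool.Agent.Helper38.TPN

open Polynomial

variable (p : ℕ) [hp : Fact p.Prime] {A : Type} [CommRing A] (θ : A →+* ℤ_[p])

omit hp in
theorem eval₂_divX {L : Type} [CommRing L] (f : A →+* L) (t : L) (g : A[X]) :
    g.eval₂ f t = (divX g).eval₂ f t * t + f (g.coeff 0) := by
  conv_lhs => rw [← divX_mul_X_add g]
  simp

theorem norm_eval₂_eq_one (g : A[X]) (hg : IsUnit (g.coeff 0)) (t : ℤ_[p]) (ht : ‖t‖ < 1) :
    ‖g.eval₂ θ t‖ = 1 := by
  rw [eval₂_divX]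
  have h1 : ‖θ (g.coeff 0)‖ = 1 := PadicInt.isUnit_iff.1 (hg.map θ)
  have h2 : ‖(divX g).eval₂ θ t * t‖ < 1 := by
    rw [norm_mul]
    calc ‖(divX g).eval₂ θ t‖ * ‖t‖ ≤ 1 * ‖t‖ :=
          mul_le_mul_of_nonneg_right (PadicInt.norm_le_one _) (norm_nonneg _)
      _ < 1 := by rwa [one_mul]
  rw [PadicInt.norm_add_eq_max_of_ne (by rw [h1]; exact h2.ne), h1, max_eq_right h2.le]

theorem hensel_model {ι : Type} (Q : A[X][X]) (a q r e : A[X]) (P : ι → A[X][X]) (u : ι → A[X])
    (ρ m N : ℕ) (h₁ : 2 * ρ + 1 ≤ N) (h₂ : ρ + m + 1 ≤ N) (hQ : Q.eval a = X ^ N * r)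
    (hD : (derivative Q).eval a = X ^ ρ * e) (he : IsUnit (e.coeff 0)) (hq : IsUnit (q.coeff 0))
    (hP : ∀ i, (P i).eval a = X ^ (m + 1) * u i) (t : ℤ_[p]) (ht : ‖t‖ < 1) (ht0 : t ≠ 0) :
    ∃ y : ℤ_[p], ev2 θ t y Q = 0 ∧ (∀ i, ‖ev2 θ t y (P i)‖ ≤ ‖t‖ ^ (m + 1)) ∧
      ‖(X ^ m * q).eval₂ θ t‖ = ‖t‖ ^ m := by
  have htpos : 0 < ‖t‖ := norm_pos_iff.2 ht0
  set F : ℤ_[p][X] := Q.map (eval₂RingHom θ t) with hF
  set α : ℤ_[p] := a.eval₂ θ t with hα
  have hFα : F.eval α = t ^ N * r.eval₂ θ t := by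
    have h1 := ev2_eval θ t a Q
    rw [hQ, eval₂_mul, eval₂_pow, eval₂_X, ev2_apply, eval₂_eq_eval_map] at h1
    exact h1
  have hF'α : (derivative F).eval α = t ^ ρ * e.eval₂ θ t := by
    have h1 := ev2_eval θ t a (derivative Q)
    rw [hD, eval₂_mul, eval₂_pow, eval₂_X, ev2_apply, eval₂_eq_eval_map, ← derivative_map] at h1
    exact h1
  have hnF : ‖F.eval α‖ ≤ ‖t‖ ^ N := by
    rw [hFα, norm_mul, norm_pow]
    exact mul_le_of_le_one_right (by positivity) (PadicInt.norm_le_one _)
  have hnF' : ‖(derivative F).eval α‖ = ‖t‖ ^ ρ := by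
    rw [hF'α, norm_mul, norm_pow, norm_eval₂_eq_one p θ e he t ht, mul_one]
  obtain ⟨y, hy, hyα, -, -⟩ := hensels_lemma (F := F) (a := α) (by
    rw [coe_aeval_eq_eval, hnF']
    refine lt_of_le_of_lt hnF ?_
    rw [← pow_mul]
    exact pow_lt_pow_right_of_lt_one₀ htpos ht (by omega))
  rw [coe_aeval_eq_eval] at hy hyα
  rw [hnF'] at hyα
  -- the refined bound
  have hdist : ‖y - α‖ ≤ ‖t‖ ^ (m + 1) := by
    obtain ⟨c, hc⟩ := binomExpansion F α (y - α)
    rw [add_sub_cancel, hy] at hc
    have h1 : F.eval α = -((y - α) * ((derivative F).eval α + c * (y - α))) := by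
      linear_combination -hc
    have h2 : ‖c * (y - α)‖ < ‖(derivative F).eval α‖ := by
      rw [norm_mul, hnF']
      calc ‖c‖ * ‖y - α‖ ≤ 1 * ‖y - α‖ :=
            mul_le_mul_of_nonneg_right (PadicInt.norm_le_one _) (norm_nonneg _)
        _ < ‖t‖ ^ ρ := by rwa [one_mul]
    have h3 : ‖(derivative F).eval α + c * (y - α)‖ = ‖t‖ ^ ρ := by
      rw [PadicInt.norm_add_eq_max_of_ne h2.ne', max_eq_left h2.le, hnF']
    have h4 : ‖y - α‖ * ‖t‖ ^ ρ ≤ ‖t‖ ^ (m + 1) * ‖t‖ ^ ρ := by
      rw [← h3, ← norm_mul, ← norm_neg, ← h1, h3, ← pow_add]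
      exact hnF.trans (pow_le_pow_of_le_one htpos.le ht.le (by omega))
    exact le_of_mul_le_mul_right h4 (by positivity)
  refine ⟨y, ?_, ?_, ?_⟩
  · rw [ev2_apply, eval₂_eq_eval_map]
    exact hy
  · intro i
    obtain ⟨c, hc⟩ := sub_dvd_ev2 θ t y α (P i)
    have h1 : ev2 θ t α (P i) = t ^ (m + 1) * (u i).eval₂ θ t := by
      rw [hα, ev2_eval, hP, eval₂_mul, eval₂_pow, eval₂_X]
    have h2 : ev2 θ t y (P i) = (y - α) * c + t ^ (m + 1) * (u i).eval₂ θ t := by
      rw [← h1, ← hc]; ring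
    rw [h2]
    refine (PadicInt.nonarchimedean _ _).trans (max_le ?_ ?_)
    · rw [norm_mul]
      exact (mul_le_of_le_one_right (norm_nonneg _) (PadicInt.norm_le_one _)).trans hdist
    · rw [norm_mul, norm_pow]
      exact mul_le_of_le_one_right (by positivity) (PadicInt.norm_le_one _)
  · rw [eval₂_mul, eval₂_pow, eval₂_X, norm_mul, norm_pow, norm_eval₂_eq_one p θ q hq t ht, mul_one]

end Pool.Agent.Helper38.TPN

end

section

namespace Pool.Agent.Helper16
end Pool.Agent.Helper16
namespace Pool.Agent.Helper36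
end Pool.Agent.Helper36
namespace Pool.Agent.Helper38.TPN
end Pool.Agent.Helper38.TPN
namespace Pool.Agent.Helper37
end Pool.Agent.Helper37

set_option autoImplicit false

namespace Pool.Agent.Helper38.TQ

open MvPolynomial

open Pool.Agent.Helper16 (Place IsFunctionField)

open Pool.Agent.Helper36 (step iter)

variable {ν : ℕ}

section NonCritAux

open Pool.Agent.Helper38.TPN Pool.Agent.Helper37

/-- The coefficients of a polynomial. -/
noncomputable def NonCrit_cf {k : Type} [Field k] (g : Polynomial k) : Finset k := by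
  classical exact insert 0 (g.support.image g.coeff)

theorem NonCrit_lift {k A : Type} [Field k] [CommRing A] (j : A →+* k) (g : Polynomial k)
    (h : ∀ c ∈ NonCrit_cf g, c ∈ Set.range j) : ∃ gA : Polynomial A, gA.map j = g := by
  classical
  have h1 : g ∈ Polynomial.lifts j := by
    rw [Polynomial.lifts_iff_coeff_lifts]
    intro n
    apply h
    by_cases hn : g.coeff n = 0
    · rw [hn]; exact Finset.mem_insert_self _ _
    · exact Finset.mem_insert_of_mem (Finset.mem_image_of_mem _ (Polynomial.mem_support_iff.2 hn))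
  exact (Polynomial.mem_lifts _).1 h1

/-- The coefficients of a polynomial in two variables. -/
noncomputable def NonCrit_cf2 {k : Type} [Field k] (P : Polynomial (Polynomial k)) : Finset k := by
  classical exact insert 0 (P.support.biUnion fun n => NonCrit_cf (P.coeff n))

theorem NonCrit_lift2 {k A : Type} [Field k] [CommRing A] (j : A →+* k)
    (P : Polynomial (Polynomial k)) (h : ∀ c ∈ NonCrit_cf2 P, c ∈ Set.range j) :
    ∃ PA : Polynomial (Polynomial A), PA.map (Polynomial.mapRingHom j) = P := by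
  classical
  have h1 : P ∈ Polynomial.lifts (Polynomial.mapRingHom j) := by
    rw [Polynomial.lifts_iff_coeff_lifts]
    intro n
    have h2 : ∃ gA : Polynomial A, gA.map j = P.coeff n := by
      apply NonCrit_lift
      intro c hc
      apply h
      by_cases hn : P.coeff n = 0
      · rw [hn] at hc
        have h3 : c = 0 := by
          simpa [NonCrit_cf] using hc
        rw [h3]
        exact Finset.mem_insert_self _ _
      · exact Finset.mem_insert_of_mem (Finset.mem_biUnion.2
          ⟨n, Polynomial.mem_support_iff.2 hn, hc⟩)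
    obtain ⟨gA, hg⟩ := h2
    exact ⟨gA, hg⟩
  exact (Polynomial.mem_lifts _).1 h1

theorem NonCrit_liftMv {k A : Type} [Field k] [CommRing A] (j : A →+* k)
    (P : MvPolynomial (Fin (ν + 1)) k) (h : ∀ c ∈ P.coeffs, c ∈ Set.range j) :
    ∃ PA : MvPolynomial (Fin (ν + 1)) A, map j PA = P := by
  have h1 := (MvPolynomial.mem_range_map_iff_coeffs_subset (f := j) (x := P)).2 (by
    intro c hc
    exact h c hc)
  exact h1

end NonCritAux

end Pool.Agent.Helper38.TQ

end

section

namespace Pool.Agent.Helper16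
end Pool.Agent.Helper16
namespace Pool.Agent.Helper36
end Pool.Agent.Helper36
namespace Pool.Agent.Helper38.TQ
end Pool.Agent.Helper38.TQ
namespace Pool.Agent.Helper37
end Pool.Agent.Helper37
namespace Pool.Agent.Helper38.TPN
end Pool.Agent.Helper38.TPN

/-!
# Points specialising to a noncritical cycle, the map being defined over the function field
-/

set_option autoImplicit false

namespace Pool.Agent.Helper30.TKN

open MvPolynomial

open Pool.Agent.Helper16 (Place IsFunctionField)

open Pool.Agent.Helper36 (step iter)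

open Pool.Agent.Helper38.TQ

variable {ν : ℕ}

section EtaleAux

open Pool.Agent.Helper37

open Pool.Agent.Helper38.TPN

open Pool.Agent.Helper38.Dml (pmap pjac) in
/-- The final step. -/
theorem Etale_final {k K : Type} [Field k] [Field K] [Algebra k K] [Algebra k ℂ]
    [Algebra K ℂ] [IsScalarTower k K ℂ] (p : ℕ) [hp : Fact p.Prime] {A : Type} [CommRing A]
    (θ : A →+* ℤ_[p]) {d : ℕ}
    (FA : Fin (ν + 1) → MvPolynomial (Fin (ν + 1)) A) (zA : Fin (ν + 1) → A)
    (hG : Pool.Agent.Helper38.Dml.GoodAt (fun i => map (PadicInt.toZMod.comp θ) (FA i))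
      (fun i => (PadicInt.toZMod.comp θ) (zA i)))
    (K₁ : Type) [Field K₁] (κ : K₁ →+* K) (ι : K₁ →+* ℚ_[p])
    (Φ : Fin (ν + 1) → MvPolynomial (Fin (ν + 1)) K₁) (hΦh : ∀ i, (Φ i).IsHomogeneous d)
    (hΦ : ∀ i m, ‖ι ((Φ i).coeff m) - ((θ ((FA i).coeff m) : ℤ_[p]) : ℚ_[p])‖ < 1)
    (ξ : Fin (ν + 1) → K₁) (hξ : ∀ i, ‖ι (ξ i) - ((θ (zA i) : ℤ_[p]) : ℚ_[p])‖ < 1)
    (c : ℂ) (hc : c ≠ 0) :
    Pool.Agent.Helper38.Sym.DMLgen (fun i => map ((algebraMap K ℂ).comp κ) (Φ i))
      (fun i => c * algebraMap K ℂ (κ (ξ i))) := by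
  classical
  have hfin : Finite (IsLocalRing.ResidueField (padicRing p ι)) := Nat.finite_of_card_ne_zero (by
    rw [card_residueField_padicRing]; exact hp.out.ne_zero)
  let _ : Algebra (padicRing p ι) ℂ :=
    (((algebraMap K ℂ).comp κ).comp (padicRing p ι).subtype).toAlgebra
  have hRL : Function.Injective (algebraMap (padicRing p ι) ℂ) := by
    intro x y h
    have h1 : algebraMap K ℂ (κ (x : K₁)) = algebraMap K ℂ (κ (y : K₁)) := h
    exact Subtype.ext (κ.injective ((algebraMap K ℂ).injective h1))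
  have hmemg : ∀ (v : K₁) (a : A), ‖ι v - ((θ a : ℤ_[p]) : ℚ_[p])‖ < 1 → v ∈ padicRing p ι := by
    intro v a hv
    rw [mem_padicRing]
    have h1 : ι v = (ι v - ((θ a : ℤ_[p]) : ℚ_[p])) + ((θ a : ℤ_[p]) : ℚ_[p]) := by
      ring
    rw [h1]
    exact (Padic.nonarchimedean _ _).trans (max_le hv.le (θ a).2)
  have hmem : ∀ i, ξ i ∈ padicRing p ι := fun i => hmemg _ _ (hξ i)
  let χ : padicRing p ι →+* ZMod p := PadicInt.toZMod.comp (padicRingHom p ι)
  have hχ : ∀ r, χ r ≠ 0 → IsUnit r := by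
    intro r hr
    rw [isUnit_padicRing_iff]
    have h1 : padicRingHom p ι r ∉ IsLocalRing.maximalIdeal ℤ_[p] := by
      intro h
      rw [← PadicInt.ker_toZMod, RingHom.mem_ker] at h
      exact hr h
    rw [IsLocalRing.mem_maximalIdeal, mem_nonunits_iff, not_not, PadicInt.isUnit_iff] at h1
    exact h1
  have hχg : ∀ (v : K₁) (hv : v ∈ padicRing p ι) (a : A),
      ‖ι v - ((θ a : ℤ_[p]) : ℚ_[p])‖ < 1 → χ ⟨v, hv⟩ = (PadicInt.toZMod.comp θ) a := by
    intro v hv a hva
    change PadicInt.toZMod (padicRingHom p ι ⟨v, hv⟩) = PadicInt.toZMod (θ a)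
    rw [← sub_eq_zero, ← map_sub, ← RingHom.mem_ker, PadicInt.ker_toZMod,
      IsLocalRing.mem_maximalIdeal, mem_nonunits_iff, PadicInt.isUnit_iff]
    have h1 : ‖padicRingHom p ι ⟨v, hv⟩ - θ a‖ < 1 := hva
    exact h1.ne
  have hlift : ∀ i, ∃ G : MvPolynomial (Fin (ν + 1)) (padicRing p ι),
      map (padicRing p ι).subtype G = Φ i := by
    intro i
    have h1 := (MvPolynomial.mem_range_map_iff_coeffs_subset
      (f := (padicRing p ι).subtype) (x := Φ i)).2 (by
      intro v hv
      rw [Finset.mem_coe, MvPolynomial.mem_coeffs_iff] at hv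
      obtain ⟨m, -, rfl⟩ := hv
      exact ⟨⟨_, hmemg _ _ (hΦ i m)⟩, rfl⟩)
    exact h1
  choose G hG' using hlift
  have hGc : ∀ i m, (padicRing p ι).subtype ((G i).coeff m) = (Φ i).coeff m := by
    intro i m
    rw [← hG' i, coeff_map]
  have hGh : ∀ i, (G i).IsHomogeneous d := by
    intro i v hv
    refine hΦh i ?_
    rw [← hGc]
    intro h0
    exact hv (Subtype.ext h0)
  have hχG : ∀ i, map χ (G i) = map (PadicInt.toZMod.comp θ) (FA i) := by
    intro i
    ext m
    rw [coeff_map, coeff_map]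
    have h3 : ‖ι ((padicRing p ι).subtype ((G i).coeff m))
        - ((θ ((FA i).coeff m) : ℤ_[p]) : ℚ_[p])‖ < 1 := by
      rw [hGc]
      exact hΦ i m
    exact hχg _ ((G i).coeff m).2 _ h3
  have h := Pool.Agent.Helper38.Sym.dml_dvr_general (d := d) p hp.out (p_mem_maximalIdeal p ι) χ hχ
    G hGh (fun i => ⟨ξ i, hmem i⟩) (by
      have h2 : ∀ i, χ ⟨ξ i, hmem i⟩ = (PadicInt.toZMod.comp θ) (zA i) := fun i =>
        hχg _ _ _ (hξ i)
      simp only [hχG, h2]
      exact hG) hRL c hc
  have h1 : ∀ i, map (algebraMap (padicRing p ι) ℂ) (G i)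
      = map ((algebraMap K ℂ).comp κ) (Φ i) := by
    intro i
    rw [← hG' i, map_map]
    rfl
  simp only [h1] at h
  exact h

/-- The monomials of the two systems. -/
noncomputable def Etale_mon {k K : Type} [Field k] [Field K]
    (F : Fin (ν + 1) → MvPolynomial (Fin (ν + 1)) K) (f : Fin (ν + 1) → MvPolynomial (Fin (ν + 1)) k) :
    Finset (Fin (ν + 1) →₀ ℕ) := by
  classical exact Finset.univ.biUnion fun i => (F i).support ∪ (f i).support

end EtaleAux

end Pool.Agent.Helper30.TKN

end
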