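import Mathlib
import Pool.Agent.Helper72.TM2.T05

section

/-!
# Place systems

An abstract one-variable function field `K` over a constant field `k` in characteristic `p`:
a family of discrete valuations `ord v : K → ℤ` (junk value at `0`), with the product formula
(all places have degree one), a derivation `D` of `K` whose kernel consists of `p`-th powers,
and the (weak) compatibility of `D` with the valuations up to a finitely supported error `e`.
-/

set_option autoImplicit false

namespace Pool.Agent.Helper33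

/-- An abstract discrete valuation, additive notation, with junk value at `0`. -/
structure DV (K : Type*) [Field K] where
  /-- the order function (junk value at `0`) -/
  o : K → ℤ
  mul : ∀ x y : K, x ≠ 0 → y ≠ 0 → o (x * y) = o x + o y
  add : ∀ x y : K, x ≠ 0 → y ≠ 0 → x + y ≠ 0 → min (o x) (o y) ≤ o (x + y)

end Pool.Agent.Helper33

end

section

namespace Pool.Agent.Helper16
end Pool.Agent.Helper16

/-!
# One-variable function fields over an algebraically closed field of characteristic `p`
give place systems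
-/

set_option autoImplicit false

set_option linter.style.haveILetI false

namespace Pool.Agent.Helper45.FF

open Polynomial IntermediateField Pool.Agent.Helper16 TensorProduct IsDedekindDomain

section deriv

variable {k K : Type} [Field k] [Field K] [Algebra k K]

theorem exists_deriv (t : K) (ht : Transcendental k t) [Algebra.IsSeparable k⟮t⟯ K] :
    ∃ D : Derivation k K K, D t = 1 := by
  letI := algX k t
  letI := algXF k t
  haveI := towerXF (K := k) t
  haveI := towerX (K := k) t
  haveI := isFractionRing_algXF t ht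
  haveI : Algebra.FormallyEtale k[X] k⟮t⟯ :=
    Algebra.FormallyEtale.of_isLocalization (nonZeroDivisors k[X])
  haveI : Algebra.FormallyEtale k⟮t⟯ K := Algebra.FormallyEtale.of_isSeparable _ _
  haveI : Algebra.FormallyEtale k[X] K := Algebra.FormallyEtale.comp k[X] k⟮t⟯ K
  let e1 := (KaehlerDifferential.tensorKaehlerEquivOfFormallyEtale k k[X] K).symm
  let e2 : K ⊗[k[X]] (Ω[k[X]⁄k]) ≃ₗ[K] K ⊗[k[X]] k[X] :=
    (KaehlerDifferential.polynomialEquiv k).baseChange k[X] K _ _
  let e3 : K ⊗[k[X]] k[X] ≃ₗ[K] K := AlgebraTensorModule.rid k[X] K K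
  let f : Ω[K⁄k] →ₗ[K] K := (e3.toLinearMap ∘ₗ e2.toLinearMap) ∘ₗ e1.toLinearMap
  refine ⟨f.compDer (KaehlerDifferential.D k K), ?_⟩
  have h1 : t = algebraMap k[X] K X := by
    change t = aeval t X
    simp
  change e3 (e2 (e1 (KaehlerDifferential.D k K t))) = 1
  conv_lhs => rw [h1]
  have h2 : e1 (KaehlerDifferential.D k K (algebraMap k[X] K X)) =
      1 ⊗ₜ KaehlerDifferential.D k k[X] X :=
    KaehlerDifferential.tensorKaehlerEquivOfFormallyEtale_symm_D_algebraMap k k[X] K X
  rw [h2]
  have h3 : e2 ((1 : K) ⊗ₜ[k[X]] KaehlerDifferential.D k k[X] X) = (1 : K) ⊗ₜ[k[X]] (1 : k[X]) := by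
    simp [e2]
  rw [h3]
  simp [e3]

end deriv

section kernel

variable {k K : Type} [Field k] [Field K] [Algebra k K]

end kernel

section bound

variable {k K : Type} [Field k] [Field K] [Algebra k K]

/-- the error denominator for `D` over `k[s]` -/
theorem exists_denominator (s : K) (hs : Transcendental k s) [FiniteDimensional k⟮s⟯ K]
    (D : Derivation k K K) (q : k[X]) (hD : D s = aeval s q) :
    ∃ g : K, g ≠ 0 ∧ IntOver k s g ∧ ∀ x, IntOver k s x → IntOver k s (g * D x) := by
  classical
  letI := algX k s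
  letI := algXF k s
  haveI := towerXF (K := k) s
  haveI := towerX (K := k) s
  haveI := isFractionRing_algXF s hs
  haveI := faithfulX s hs
  haveI : Algebra.IsAlgebraic k⟮s⟯ K := inferInstance
  haveI : Algebra.IsAlgebraic k[X] K := by
    haveI : Algebra.IsAlgebraic k[X] k⟮s⟯ := IsLocalization.isAlgebraic k⟮s⟯ (nonZeroDivisors k[X])
    exact Algebra.IsAlgebraic.trans k[X] k⟮s⟯ K
  obtain ⟨S, hS⟩ := (finite_integralClosure s hs).fg_top
  obtain ⟨c, hc0, hc⟩ := Algebra.IsAlgebraic.exists_integral_multiples (R := k[X]) (A := K)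
    (S.image (fun b : IC k s => D (b : K)))
  have hg0 : aeval s c ≠ 0 := by
    intro h
    exact hs ⟨c, hc0, h⟩
  refine ⟨aeval s c, hg0, IntOver.aeval_mem s c, ?_⟩
  intro x hx
  have key : ∀ y : integralClosure k[X] K, y ∈ Submodule.span k[X] (S : Set (integralClosure k[X] K)) →
      IntOver k s (aeval s c * D (y : K)) := by
    intro y hy
    induction hy using Submodule.span_induction with
    | mem b hb =>
      have h1 := hc (D (b : K)) (Finset.mem_image_of_mem _ hb)
      rw [Algebra.smul_def, algX_apply] at h1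
      exact h1
    | zero => simpa using IntOver.zero (K := k) s
    | add a b _ _ ha hb =>
      have h1 : aeval s c * D ((a + b : integralClosure k[X] K) : K) =
          aeval s c * D (a : K) + aeval s c * D (b : K) := by
        rw [Subalgebra.coe_add, map_add, mul_add]
      rw [h1]
      exact ha.add hb
    | smul f b _ hb =>
      have h1 : aeval s c * D ((f • b : integralClosure k[X] K) : K) =
          aeval s f * (aeval s c * D (b : K)) + aeval s c * (b : K) * (aeval s (derivative f) * aeval s q) := by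
        rw [Subalgebra.coe_smul, Algebra.smul_def, algX_apply, Derivation.leibniz, Derivation.map_aeval, hD]
        simp only [smul_eq_mul]
        ring
      rw [h1]
      have hb' : IntOver k s (b : K) := b.2
      exact ((IntOver.aeval_mem s f).mul hb).add
        (((IntOver.aeval_mem s c).mul hb').mul ((IntOver.aeval_mem s _).mul (IntOver.aeval_mem s q)))
  have := key ⟨x, hx⟩ (by rw [hS]; exact Submodule.mem_top)
  exact this

theorem exists_frac (s : K) (hs : Transcendental k s) [FiniteDimensional k⟮s⟯ K]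
    (v : Place k K) (hv : v.val s ≤ 1) (x : K) (hx : v.val x ≤ 1) :
    ∃ a b : K, IntOver k s a ∧ IntOver k s b ∧ v.val b = 1 ∧ x * b = a := by
  obtain ⟨P, rfl⟩ := exists_placeOfPrime s hs v hv
  haveI := isDedekindDomain_IC s hs
  haveI := isFractionRing_IC s hs
  obtain ⟨n, d, h⟩ := P.exists_primeCompl_mul_eq_of_integer (K := K) x hx
  refine ⟨n, (d : IC k s), n.2, (d : IC k s).2, ?_, h⟩
  exact (P.valuation_eq_one_iff_notMem (K := K)).2 d.2

theorem val_D_le (s : K) (hs : Transcendental k s) [FiniteDimensional k⟮s⟯ K]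
    (D : Derivation k K K) (g : K) (hg : ∀ x, IntOver k s x → IntOver k s (g * D x))
    (v : Place k K) (hv : v.val s ≤ 1) (x : K) (hx : v.val x ≤ 1) :
    v.val g * v.val (D x) ≤ 1 := by
  obtain ⟨a, b, ha, hb, hb1, hab⟩ := exists_frac s hs v hv x hx
  have hDa : v.val (g * D a) ≤ 1 := (hg a ha).mem_ring v hv
  have hDb : v.val (g * D b) ≤ 1 := (hg b hb).mem_ring v hv
  have h1 : g * D x * b = g * D a - x * (g * D b) := by
    rw [← hab, Derivation.leibniz]
    simp only [smul_eq_mul]
    ring
  have h2 : v.val (g * D x * b) ≤ 1 := by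
    rw [h1]
    refine (v.val.map_sub _ _).trans (max_le hDa ?_)
    rw [map_mul]
    exact mul_le_one' hx hDb
  rwa [map_mul, map_mul, hb1, mul_one] at h2

end bound

section final

variable {k K : Type} [Field k] [Field K] [Algebra k K]

theorem ord_D_ge (v : Place k K) (D : Derivation k K K) (g : K) (hg0 : g ≠ 0) (e : ℕ)
    (he : v.ord g ≤ e) (x : K) (hx : v.val g * v.val (D x) ≤ 1) (hDx : D x ≠ 0) :
    -(e : ℤ) ≤ v.ord (D x) := by
  rw [← map_mul, ← v.ord_nonneg_iff (mul_ne_zero hg0 hDx), v.ord_mul hg0 hDx] at hx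
  omega

theorem val_le_exp_iff (v : Place k K) (x : K) (hx : x ≠ 0) (n : ℤ) :
    v.val x ≤ WithZero.exp n ↔ -n ≤ v.ord x := by
  have h0 : v.val x ≠ 0 := by simpa using hx
  rw [Place.ord, ← WithZero.log_le_log h0 WithZero.exp_ne_zero, WithZero.log_exp]
  omega

theorem val_D_mul (v : Place k K) (D : Derivation k K K) (E : WithZero (Multiplicative ℤ))
    (x y : K) (hx : v.val (D x) ≤ E * v.val x) (hy : v.val (D y) ≤ E * v.val y) :
    v.val (D (x * y)) ≤ E * v.val (x * y) := by
  rw [Derivation.leibniz]
  refine (v.val.map_add _ _).trans (max_le ?_ ?_)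
  · rw [smul_eq_mul, map_mul, map_mul, mul_left_comm]
    exact mul_le_mul_right hy _
  · rw [smul_eq_mul, map_mul, map_mul, mul_comm (v.val x), mul_left_comm]
    exact mul_le_mul_right hx _

theorem val_D_inv (v : Place k K) (D : Derivation k K K) (E : WithZero (Multiplicative ℤ))
    (x : K) (hx : v.val (D x) ≤ E * v.val x) : v.val (D x⁻¹) ≤ E * v.val x⁻¹ := by
  by_cases h0 : x = 0
  · subst h0; simp
  have hv0 : v.val x ≠ 0 := by simpa using h0
  rw [Derivation.leibniz_inv, smul_eq_mul, map_mul, Valuation.map_neg, map_pow, map_inv₀]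
  calc (v.val x)⁻¹ ^ 2 * v.val (D x) ≤ (v.val x)⁻¹ ^ 2 * (E * v.val x) := mul_le_mul_right hx _
    _ = E * (v.val x)⁻¹ := by
      field_simp

theorem val_D_pow (v : Place k K) (D : Derivation k K K) (E : WithZero (Multiplicative ℤ))
    (x : K) (hx : v.val (D x) ≤ E * v.val x) (n : ℕ) : v.val (D (x ^ n)) ≤ E * v.val (x ^ n) := by
  induction n with
  | zero => simp
  | succ n ih =>
    rw [pow_succ]
    exact val_D_mul v D E _ _ ih hx

theorem val_D_zpow (v : Place k K) (D : Derivation k K K) (E : WithZero (Multiplicative ℤ))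
    (x : K) (hx : v.val (D x) ≤ E * v.val x) (n : ℤ) : v.val (D (x ^ n)) ≤ E * v.val (x ^ n) := by
  cases n with
  | ofNat n => simpa using val_D_pow v D E x hx n
  | negSucc n =>
    rw [zpow_negSucc]
    exact val_D_inv v D E _ (val_D_pow v D E x hx (n + 1))

theorem ord_D_ge_gen (v : Place k K) (D : Derivation k K K) (e : ℕ)
    (he : ∀ x, v.val x ≤ 1 → v.val (D x) ≤ WithZero.exp (e : ℤ)) (x : K) (hx : x ≠ 0)
    (hDx : D x ≠ 0) : v.ord x - 1 - (e : ℤ) ≤ v.ord (D x) := by
  obtain ⟨π, hπ0, hπ⟩ := v.exists_uniformizer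
  let E : WithZero (Multiplicative ℤ) := WithZero.exp ((e : ℤ) + 1)
  have h1 : v.val (D π) ≤ E * v.val π := by
    rw [hπ, ← WithZero.exp_add]
    refine (he π ?_).trans (by simp)
    rw [hπ]; exact exp_neg_one_lt.le
  let n : ℤ := v.ord x
  have hx0 : v.val x ≠ 0 := by simpa using hx
  have hvx : v.val x = WithZero.exp (-n) := by
    change v.val x = WithZero.exp (-(-WithZero.log (v.val x)))
    rw [neg_neg, WithZero.exp_log hx0]
  let u : K := x * π ^ (-n)
  have hu : v.val u = 1 := by
    rw [map_mul, map_zpow₀, hπ, hvx, ← WithZero.exp_zsmul, ← WithZero.exp_add]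
    simp
  have hxu : x = π ^ n * u := by
    change x = π ^ n * (x * π ^ (-n))
    rw [zpow_neg]
    field_simp
  have h2 : v.val (D u) ≤ E * v.val u := by
    rw [hu, mul_one]
    refine (he u hu.le).trans ?_
    rw [WithZero.exp_le_exp]
    omega
  have h3 := val_D_mul v D E _ _ (val_D_zpow v D E π h1 n) h2
  rw [← hxu, hvx, ← WithZero.exp_add, val_le_exp_iff v _ hDx] at h3
  change n - 1 - (e : ℤ) ≤ _
  omega

theorem deg_eq_one [IsAlgClosed k] (hN : IsFunctionField k K) (v : Place k K) : v.deg = 1 := by
  haveI := v.finite_resField hN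
  have h1 : Function.Bijective (algebraMap k v.resField) :=
    IsAlgClosed.algebraMap_bijective_of_isIntegral
  unfold Place.deg
  have := (LinearEquiv.ofBijective (Algebra.linearMap k v.resField) h1).finrank_eq
  rw [← this]
  exact Module.finrank_self k

theorem exists_const [IsAlgClosed k] (hN : IsFunctionField k K) (x : K) (hx : x ≠ 0)
    (h : ∀ v : Place k K, v.ord x = 0) : ∃ c : k, algebraMap k K c = x := by
  by_cases hxa : IsAlgebraic k x
  · have : IsIntegral k x := hxa.isIntegral
    haveI : FiniteDimensional k k⟮x⟯ := adjoin.finiteDimensional this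
    obtain ⟨c, hc⟩ := (IsAlgClosed.algebraMap_bijective_of_isIntegral (k := k) (K := k⟮x⟯)).2
      (⟨x, mem_adjoin_simple_self k x⟩)
    exact ⟨c, congrArg Subtype.val hc⟩
  · exfalso
    obtain ⟨S, h1, h2, h3⟩ := hN.zeros x hxa
    have hS : S = ∅ := by
      rw [Finset.eq_empty_iff_forall_notMem]
      intro v hv
      rw [h1, ← v.ord_pos_iff hx, h v] at hv
      exact lt_irrefl _ hv
    rw [hS, Finset.sum_empty] at h2
    omega

end final

end Pool.Agent.Helper45.FF

end

section

/-!
# Place systems (any characteristic)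

Same as `PlaceSys`, without any hypothesis on the characteristic and on the kernel of the derivation.
-/

set_option autoImplicit false

namespace Pool.Agent.Helper33

/-- A place system: an abstract function field of one variable `K` over `k`, any characteristic. -/
structure PSys (k K V : Type*) [Field k] [Field K] [Algebra k K] where
  /-- the valuation attached to a place -/
  pl : V → DV K
  /-- every nonzero element has finitely many zeros and poles -/
  ord_finite : ∀ x : K, x ≠ 0 → {v : V | (pl v).o x ≠ 0}.Finite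
  /-- the product formula -/
  sum_ord : ∀ x : K, x ≠ 0 → ∑ᶠ v, (pl v).o x = 0
  /-- the derivation -/
  D : K → K
  D_add : ∀ x y : K, D (x + y) = D x + D y
  D_mul : ∀ x y : K, D (x * y) = x * D y + y * D x
  /-- the error term -/
  e : V → ℕ
  e_finite : {v : V | e v ≠ 0}.Finite
  ord_D : ∀ (v : V) (x : K), x ≠ 0 → D x ≠ 0 → (pl v).o x - 1 - (e v : ℤ) ≤ (pl v).o (D x)
  ord_D' : ∀ (v : V) (x : K), x ≠ 0 → D x ≠ 0 → 0 ≤ (pl v).o x → -(e v : ℤ) ≤ (pl v).o (D x)
  /-- an element without zeros and poles is constant -/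
  const : ∀ x : K, x ≠ 0 → (∀ v, (pl v).o x = 0) → ∃ c : k, algebraMap k K c = x

end Pool.Agent.Helper33

end

section

namespace Pool.Agent.Helper16
end Pool.Agent.Helper16
namespace Pool.Agent.Helper33
end Pool.Agent.Helper33

/-!
# One-variable function fields over an algebraically closed field (any characteristic)
give place systems `PSys`
-/

set_option autoImplicit false

set_option linter.style.haveILetI false

namespace Pool.Agent.Helper45.FF

open Polynomial IntermediateField Pool.Agent.Helper16 TensorProduct IsDedekindDomain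

open Pool.Agent.Helper33

section common

variable {k K : Type} [Field k] [Field K] [Algebra k K]

/-- the abstract discrete valuation of a place -/
noncomputable def plDV (v : Place k K) : DV K where
  o := v.ord
  mul := fun _ _ hx hy => v.ord_mul hx hy
  add := fun x y hx hy hxy => by
    have h1 := v.val.map_add x y
    have hx0 : v.val x ≠ 0 := by simpa using hx
    have hy0 : v.val y ≠ 0 := by simpa using hy
    have hxy0 : v.val (x + y) ≠ 0 := by simpa using hxy
    simp only [Place.ord]
    rcases le_max_iff.1 h1 with h2 | h2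
    · rw [← WithZero.log_le_log hxy0 hx0] at h2
      exact (min_le_left _ _).trans (by omega)
    · rw [← WithZero.log_le_log hxy0 hy0] at h2
      exact (min_le_right _ _).trans (by omega)

/-- The place system attached to a function field of one variable over an algebraically closed
field and a derivation with `D t = 1`. -/
theorem exists_psys_aux [IsAlgClosed k] (hN : IsFunctionField k K) (t : K)
    (ht : Transcendental k t) (D : Derivation k K K) (hD : D t = 1) :
    ∃ P : PSys k K (Place k K), (∀ x, P.D x = D x) ∧ (∀ v, P.pl v = plDV v) := by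
  classical
  haveI := hN.finiteDimensional t ht
  obtain ⟨g1, hg10, -, hg1⟩ := exists_denominator t ht D 1 (by rw [hD]; simp)
  haveI := finiteDimensional_inv (K := k) t
  obtain ⟨g2, hg20, -, hg2⟩ := exists_denominator t⁻¹ (transcendental_inv ht) D (-X ^ 2) (by
    rw [Derivation.leibniz_inv, hD]; simp)
  let e : Place k K → ℕ := fun v => (v.ord g1).toNat + (v.ord g2).toNat
  have hfin : ∀ x : K, {v : Place k K | v.ord x ≠ 0}.Finite := by
    intro x
    obtain ⟨S, h1, -⟩ := hN.product_formula x
    refine S.finite_toSet.subset ?_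
    intro v hv
    exact (h1 v).2 hv
  have hval : ∀ (v : Place k K) (x : K), v.val x ≤ 1 → D x ≠ 0 → -(e v : ℤ) ≤ v.ord (D x) := by
    intro v x hx hDx
    rcases le_total (v.val t) 1 with h | h
    · refine ord_D_ge v D g1 hg10 (e v) ?_ x (val_D_le t ht D g1 hg1 v h x hx) hDx
      have := Int.self_le_toNat (v.ord g1)
      simp only [e]
      push_cast
      omega
    · have h' : v.val t⁻¹ ≤ 1 := by
        rw [map_inv₀]
        exact inv_le_one_of_one_le₀ h
      refine ord_D_ge v D g2 hg20 (e v) ?_ x (val_D_le t⁻¹ (transcendental_inv ht) D g2 hg2 v h' x hx) hDx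
      have := Int.self_le_toNat (v.ord g2)
      simp only [e]
      push_cast
      omega
  refine ⟨
    { pl := fun v => plDV v
      ord_finite := fun x _ => hfin x
      sum_ord := ?_
      D := D
      D_add := fun x y => map_add D x y
      D_mul := fun x y => by rw [Derivation.leibniz]; rfl
      e := e
      e_finite := ?_
      ord_D := ?_
      ord_D' := ?_
      const := fun x hx h => exists_const hN x hx h }, fun _ => rfl, fun _ => rfl⟩
  · intro x hx
    obtain ⟨S, h1, h2⟩ := hN.product_formula x
    simp only [deg_eq_one hN, Nat.cast_one, mul_one] at h2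
    rw [finsum_eq_sum_of_support_subset _ (s := S)]
    · exact h2
    · intro v hv
      exact (h1 v).2 hv
  · refine ((hfin g1).union (hfin g2)).subset ?_
    intro v hv
    by_contra hcon
    simp only [Set.mem_union, Set.mem_ofPred_eq, not_or, not_not] at hcon
    apply hv
    simp only [e]
    rw [hcon.1, hcon.2]
    simp
  · intro v x hx hDx
    refine ord_D_ge_gen v D (e v) ?_ x hx hDx
    intro y hy
    by_cases hDy : D y = 0
    · rw [hDy, map_zero]; exact zero_le
    · rw [val_le_exp_iff v _ hDy]
      exact hval v y hy hDy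
  · intro v x hx hDx h0
    refine hval v x ?_ hDx
    exact (v.ord_nonneg_iff hx).1 h0

end common

section char0

variable {k K : Type} [Field k] [Field K] [Algebra k K]

end char0

end Pool.Agent.Helper45.FF

end

section

namespace Pool.Agent.Helper16
end Pool.Agent.Helper16
namespace Pool.Agent.Helper33
end Pool.Agent.Helper33
namespace Pool.Agent.Helper45.FF
end Pool.Agent.Helper45.FF

/-!
# The place system of `d/dt` with exact error terms (characteristic zero)
-/

set_option autoImplicit false

set_option linter.style.haveILetI false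

namespace Pool.Agent.Helper45.S4

open Polynomial IntermediateField Pool.Agent.Helper16 Pool.Agent.Helper33 Pool.Agent.Helper45.FF

variable {k L : Type} [Field k] [Field L] [Algebra k L]

/-- The residue field of a place is `k`. -/
theorem exists_res_val [IsAlgClosed k] (hN : IsFunctionField k L) (v : Place k L) (x : L)
    (hx : v.val x ≤ 1) : ∃ c : k, v.val (x - algebraMap k L c) < 1 := by
  haveI := v.finite_resField hN
  have h1 : Function.Bijective (algebraMap k v.resField) :=
    IsAlgClosed.algebraMap_bijective_of_isIntegral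
  have hx' : x ∈ v.ring := hx
  obtain ⟨c, hc⟩ := h1.2 (v.res x)
  refine ⟨c, ?_⟩
  have hc' : algebraMap k L c ∈ v.ring := v.ring.algebraMap_mem c
  rw [← v.res_eq_zero_iff (sub_mem hx' hc'), v.res_sub hx' hc', v.res_algebraMap, hc, sub_self]

section der

variable (v : Place k L) (D : Derivation k L L)

/-- iterated estimate -/
theorem val_D_le_max [IsAlgClosed k] (hN : IsFunctionField k L) (B : ℤ)
    (hB : ∀ x, v.val x ≤ 1 → v.val (D x) ≤ WithZero.exp B) (π : L)
    (hπ : v.val π = WithZero.exp (-1 : ℤ)) (n : ℕ) :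
    ∀ x, v.val x ≤ 1 → v.val (D x) ≤ max (v.val (D π)) (WithZero.exp (B - n)) := by
  have hπ0 : π ≠ 0 := by
    rintro rfl
    rw [map_zero] at hπ
    exact WithZero.exp_ne_zero hπ.symm
  induction n with
  | zero =>
    intro x hx
    refine (hB x hx).trans (le_max_of_le_right ?_)
    simp
  | succ n ih =>
    intro x hx
    obtain ⟨c, hc⟩ := exists_res_val hN v x hx
    set y := (x - algebraMap k L c) * π⁻¹ with hy
    have hxy : x = algebraMap k L c + π * y := by
      rw [hy]; field_simp; ring
    have hy1 : v.val y ≤ 1 := by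
      rw [hy, map_mul, map_inv₀, hπ]
      by_cases h0 : x - algebraMap k L c = 0
      · rw [h0, map_zero, zero_mul]; exact zero_le
      · have h1 := (v.ord_pos_iff h0).2 hc
        have h2 : v.val (x - algebraMap k L c) ≤ WithZero.exp (-1 : ℤ) := by
          rw [val_le_exp_iff v _ h0]; omega
        calc v.val (x - algebraMap k L c) * (WithZero.exp (-1 : ℤ))⁻¹
            ≤ WithZero.exp (-1 : ℤ) * (WithZero.exp (-1 : ℤ))⁻¹ := mul_le_mul_left h2 _
          _ = 1 := mul_inv_cancel₀ WithZero.exp_ne_zero
    have hD : D x = π * D y + y * D π := by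
      conv_lhs => rw [hxy]
      rw [map_add, Derivation.map_algebraMap, zero_add, Derivation.leibniz, smul_eq_mul, smul_eq_mul]
    rw [hD]
    refine (v.val.map_add _ _).trans (max_le ?_ ?_)
    · rw [map_mul, hπ]
      rcases le_max_iff.1 (ih y hy1) with h | h
      · refine le_max_of_le_left ?_
        calc WithZero.exp (-1 : ℤ) * v.val (D y) ≤ 1 * v.val (D y) :=
              mul_le_mul_left exp_neg_one_lt.le _
          _ ≤ v.val (D π) := by rw [one_mul]; exact h
      · refine le_max_of_le_right ?_
        calc WithZero.exp (-1 : ℤ) * v.val (D y) ≤ WithZero.exp (-1 : ℤ) * WithZero.exp (B - n) :=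
              mul_le_mul_right h _
          _ = WithZero.exp (B - (n + 1 : ℕ)) := by
              rw [← WithZero.exp_add]; congr 1; push_cast; ring
    · refine le_max_of_le_left ?_
      rw [map_mul]
      calc v.val y * v.val (D π) ≤ 1 * v.val (D π) := mul_le_mul_left hy1 _
        _ = v.val (D π) := one_mul _

theorem val_D_le_pi [IsAlgClosed k] (hN : IsFunctionField k L) (B : ℤ)
    (hB : ∀ x, v.val x ≤ 1 → v.val (D x) ≤ WithZero.exp B) (π : L)
    (hπ : v.val π = WithZero.exp (-1 : ℤ)) (x : L) (hx : v.val x ≤ 1) :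
    v.val (D x) ≤ v.val (D π) := by
  by_contra hlt
  rw [not_le] at hlt
  have hDx : D x ≠ 0 := by
    intro h0
    rw [h0, map_zero] at hlt
    exact absurd hlt (not_lt.2 zero_le)
  have h1 : ∀ n : ℕ, v.val (D x) ≤ WithZero.exp (B - n) := by
    intro n
    rcases le_max_iff.1 (val_D_le_max v D hN B hB π hπ n x hx) with h | h
    · exact absurd h (not_le.2 hlt)
    · exact h
  have h2 := h1 (B + v.ord (D x) + 1).toNat
  rw [val_le_exp_iff v _ hDx] at h2
  have h3 := Int.self_le_toNat (B + v.ord (D x) + 1)
  omega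

end der

end Pool.Agent.Helper45.S4

end

section

namespace Pool.Agent.Helper16
end Pool.Agent.Helper16
namespace Pool.Agent.Helper33
end Pool.Agent.Helper33
namespace Pool.Agent.Helper45.FF
end Pool.Agent.Helper45.FF
namespace Pool.Agent.Helper45.S4
end Pool.Agent.Helper45.S4
namespace Pool.Agent.Helper47.RR
end Pool.Agent.Helper47.RR

/-!
# Derivations of one-variable function fields: the order of a derivation at a place, the degree
of the canonical divisor (Kaehler version) and the Hurwitz formula
-/

set_option autoImplicit false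

set_option linter.style.haveILetI false

namespace Pool.Agent.Helper31.RRK

open Polynomial IntermediateField Pool.Agent.Helper16 Pool.Agent.Helper33 Pool.Agent.Helper45.FF

open Pool.Agent.Helper45.S4 Pool.Agent.Helper47.RR

section unique

variable {k L M : Type} [Field k] [Field L] [Field M] [Algebra k L] [Algebra k M] [Algebra L M]
  [IsScalarTower k L M]

omit [IsScalarTower k L M] in
/-- A derivation which kills a separating element is zero. -/
theorem deriv_eq_zero (t : L) [Algebra.IsSeparable k⟮t⟯ L] (D : Derivation k L M)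
    (h : D t = 0) : D = 0 := by
  have h0 : ∀ y ∈ k⟮t⟯, D y = 0 := by
    intro y hy
    induction hy using IntermediateField.adjoin_induction with
    | mem z hz => rw [Set.mem_singleton_iff.1 hz, h]
    | algebraMap c => simp
    | add a b _ _ ha hb => rw [map_add, ha, hb, add_zero]
    | inv a _ ha => rw [Derivation.leibniz_inv, ha, smul_zero]
    | mul a b _ _ ha hb => rw [Derivation.leibniz, ha, hb, smul_zero, smul_zero, add_zero]
  let D' : Derivation k⟮t⟯ L M := Derivation.mk'
    { toFun := D
      map_add' := fun a b => map_add D a b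
      map_smul' := by
        rintro ⟨y, hy⟩ b
        change D (y * b) = y • D b
        rw [Derivation.leibniz, h0 y hy, smul_zero, add_zero] }
    (fun a b => by
      change D (a * b) = _
      rw [Derivation.leibniz]
      rfl)
  haveI : Algebra.FormallyEtale k⟮t⟯ L := Algebra.FormallyEtale.of_isSeparable _ _
  haveI : Algebra.FormallyUnramified k⟮t⟯ L := inferInstance
  haveI : Subsingleton (Ω[L⁄k⟮t⟯]) := inferInstance
  have h1 : D' = 0 := by
    have := (D'.liftKaehlerDifferential_comp)
    rw [← this]
    ext a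
    have h2 : KaehlerDifferential.D k⟮t⟯ L a = 0 := Subsingleton.elim _ _
    simp [h2]
  ext a
  exact congrArg (fun E : Derivation k⟮t⟯ L M => E a) h1

omit [Algebra L M] [IsScalarTower k L M] in
theorem exists_separating [IsAlgClosed k] (hN : IsFunctionField k L) :
    ∃ t : L, Transcendental k t ∧ Algebra.IsSeparable k⟮t⟯ L := by
  classical
  haveI := hN.1
  obtain ⟨S, hS1, hS2⟩ := exists_isTranscendenceBasis_and_isSeparable_of_perfectField k L
  have hcard : S.card = 1 := by
    have h3 := hS1.lift_cardinalMk_eq_trdeg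
    rw [hN.2] at h3
    simpa using h3
  obtain ⟨t, rfl⟩ := Finset.card_eq_one.1 hcard
  refine ⟨t, ?_, ?_⟩
  · have := hS1.1
    have h2 := this.transcendental ⟨t, by simp⟩
    exact h2
  · rw [Finset.coe_singleton] at hS2
    exact hS2

/-- There is a nonzero derivation. -/
theorem exists_ne_zero [IsAlgClosed k] (hN : IsFunctionField k L) :
    ∃ D : Derivation k L L, D ≠ 0 := by
  obtain ⟨t, ht, hs⟩ := exists_separating hN
  obtain ⟨D, hD⟩ := exists_deriv t ht
  refine ⟨D, ?_⟩
  rintro rfl
  simp at hD

/-- The space of derivations is one-dimensional. -/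
theorem exists_eq_smul [IsAlgClosed k] (hN : IsFunctionField k L) {D : Derivation k L L}
    (hD : D ≠ 0) (D' : Derivation k L L) : ∃ h : L, D' = h • D := by
  obtain ⟨t, ht, hs⟩ := exists_separating hN
  have hDt : D t ≠ 0 := fun h => hD (deriv_eq_zero t D h)
  refine ⟨D' t / D t, ?_⟩
  rw [← sub_eq_zero]
  apply deriv_eq_zero t
  simp only [Derivation.coe_sub, Derivation.coe_smul, Pi.sub_apply, Pi.smul_apply, smul_eq_mul]
  field_simp
  ring

end unique

section ord

variable {k L : Type} [Field k] [Field L] [Algebra k L]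

theorem exists_bound [IsAlgClosed k] (hN : IsFunctionField k L) (D : Derivation k L L)
    (v : Place k L) : ∃ B : ℤ, ∀ x, v.val x ≤ 1 → v.val (D x) ≤ WithZero.exp B := by
  obtain ⟨t, ht, hs⟩ := exists_separating hN
  obtain ⟨D0, hD0⟩ := exists_deriv t ht
  have hne : D0 ≠ 0 := by
    rintro rfl
    simp at hD0
  obtain ⟨h, rfl⟩ := exists_eq_smul hN hne D
  obtain ⟨P, hP1, hP2⟩ := exists_psys_aux hN t ht D0 hD0
  have hB : ∀ x, v.val x ≤ 1 → v.val (D0 x) ≤ WithZero.exp (P.e v : ℤ) := by
    intro x hx
    by_cases hDx : D0 x = 0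
    · rw [hDx, map_zero]; exact zero_le
    · have hx0 : x ≠ 0 := by rintro rfl; exact hDx (map_zero D0)
      rw [val_le_exp_iff v _ hDx]
      have := P.ord_D' v x hx0 (by rw [hP1]; exact hDx) (by
        rw [hP2]; exact (v.ord_nonneg_iff hx0).2 hx)
      rw [hP1, hP2] at this
      exact this
  by_cases h0 : h = 0
  · refine ⟨0, fun x _ => ?_⟩
    rw [h0, zero_smul]
    simp
  refine ⟨P.e v - v.ord h, fun x hx => ?_⟩
  have hv : v.val h = WithZero.exp (-(v.ord h)) := by
    have h00 : v.val h ≠ 0 := by simpa using h0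
    rw [Place.ord, neg_neg, WithZero.exp_log h00]
  rw [Derivation.coe_smul, Pi.smul_apply, smul_eq_mul, map_mul, hv, sub_eq_neg_add,
    WithZero.exp_add]
  exact mul_le_mul_right (hB x hx) _

variable (v : Place k L) (D : Derivation k L L)

/-- The order of a derivation at a place: the order of `D π`, for any uniformiser `π`. -/
noncomputable def ordDer : ℤ := v.ord (D v.exists_uniformizer.choose)

theorem val_D_le_pi' [IsAlgClosed k] (hN : IsFunctionField k L) {π : L}
    (hπ : v.val π = WithZero.exp (-1 : ℤ)) {x : L} (hx : v.val x ≤ 1) :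
    v.val (D x) ≤ v.val (D π) := by
  obtain ⟨B, hB⟩ := exists_bound hN D v
  exact val_D_le_pi v D hN B hB π hπ x hx

theorem exists_frac_ring (x : L) : ∃ a b : L, v.val a ≤ 1 ∧ v.val b ≤ 1 ∧ b ≠ 0 ∧ x = a * b⁻¹ := by
  rcases le_total (v.val x) 1 with h | h
  · exact ⟨x, 1, h, by simp, one_ne_zero, by simp⟩
  · by_cases hx : x = 0
    · exact ⟨0, 1, by simp, by simp, one_ne_zero, by simp [hx]⟩
    refine ⟨1, x⁻¹, by simp, ?_, inv_ne_zero hx, by simp⟩
    rw [map_inv₀]
    exact inv_le_one_of_one_le₀ h

theorem D_pi_ne_zero [IsAlgClosed k] (hN : IsFunctionField k L) (hD : D ≠ 0) {π : L}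
    (hπ : v.val π = WithZero.exp (-1 : ℤ)) : D π ≠ 0 := by
  intro h0
  apply hD
  have h1 : ∀ x, v.val x ≤ 1 → D x = 0 := by
    intro x hx
    have h2 := val_D_le_pi' v D hN hπ hx
    rw [h0, map_zero] at h2
    have h3 : v.val (D x) = 0 := le_antisymm h2 zero_le
    simpa using h3
  ext x
  obtain ⟨a, b, ha, hb, -, rfl⟩ := exists_frac_ring v x
  rw [Derivation.leibniz, Derivation.leibniz_inv, h1 a ha, h1 b hb]
  simp

theorem ord_D_pi [IsAlgClosed k] (hN : IsFunctionField k L) {π : L}
    (hπ : v.val π = WithZero.exp (-1 : ℤ)) : v.ord (D π) = ordDer v D := by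
  have h1 := v.exists_uniformizer.choose_spec
  have h2 := val_D_le_pi' v D hN hπ (x := v.exists_uniformizer.choose)
    (by rw [h1.2]; exact exp_neg_one_lt.le)
  have h3 := val_D_le_pi' v D hN h1.2 (x := π) (by rw [hπ]; exact exp_neg_one_lt.le)
  rw [ordDer, Place.ord, Place.ord, le_antisymm h2 h3]

variable {D}

theorem ordDer_le [IsAlgClosed k] (hN : IsFunctionField k L) {x : L} (hx : v.val x ≤ 1)
    (hDx : D x ≠ 0) : ordDer v D ≤ v.ord (D x) := by
  obtain ⟨π, -, hπ⟩ := v.exists_uniformizer
  have hD : D ≠ 0 := by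
    rintro rfl
    exact hDx rfl
  rw [← ord_D_pi v D hN hπ, Place.ord, Place.ord, neg_le_neg_iff,
    WithZero.log_le_log (by simpa using hDx) (by simpa using D_pi_ne_zero v D hN hD hπ)]
  exact val_D_le_pi' v D hN hπ hx

theorem ordDer_smul [IsAlgClosed k] (hN : IsFunctionField k L) (hD : D ≠ 0) {h : L}
    (h0 : h ≠ 0) : ordDer v (h • D) = v.ord h + ordDer v D := by
  obtain ⟨π, -, hπ⟩ := v.exists_uniformizer
  rw [← ord_D_pi v _ hN hπ, ← ord_D_pi v _ hN hπ, Derivation.coe_smul, Pi.smul_apply,
    smul_eq_mul, v.ord_mul h0 (D_pi_ne_zero v D hN hD hπ)]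

/-- the values of a function and of its derivative -/
theorem le_ord_D [IsAlgClosed k] (hN : IsFunctionField k L) {x : L} (hDx : D x ≠ 0) :
    v.ord x - 1 + ordDer v D ≤ v.ord (D x) := by
  obtain ⟨π, hπ0, hπ⟩ := v.exists_uniformizer
  have hD : D ≠ 0 := by
    rintro rfl
    exact hDx rfl
  have hDπ := D_pi_ne_zero v D hN hD hπ
  let E : WithZero (Multiplicative ℤ) := v.val (D π) * WithZero.exp 1
  have h1 : v.val (D π) ≤ E * v.val π := by
    simp only [E]
    rw [hπ, mul_assoc, ← WithZero.exp_add]
    simp
  let n : ℤ := v.ord x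
  have hx : x ≠ 0 := by
    rintro rfl
    exact hDx (map_zero D)
  have hx0 : v.val x ≠ 0 := by simpa using hx
  have hvx : v.val x = WithZero.exp (-n) := by
    change v.val x = WithZero.exp (-(-WithZero.log (v.val x)))
    rw [neg_neg, WithZero.exp_log hx0]
  let u : L := x * π ^ (-n)
  have hu : v.val u = 1 := by
    rw [map_mul, map_zpow₀, hπ, hvx, ← WithZero.exp_zsmul, ← WithZero.exp_add]
    simp
  have hxu : x = π ^ n * u := by
    change x = π ^ n * (x * π ^ (-n))
    rw [zpow_neg]
    field_simp
  have h2 : v.val (D u) ≤ E * v.val u := by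
    rw [hu, mul_one]
    refine (val_D_le_pi' v D hN hπ hu.le).trans ?_
    simp only [E]
    refine le_mul_of_one_le_right' ?_
    rw [← WithZero.exp_zero, WithZero.exp_le_exp]
    norm_num
  have h3 := val_D_mul v D E _ _ (val_D_zpow v D E π h1 n) h2
  have hval : v.val (D π) = WithZero.exp (-(ordDer v D)) := by
    have h0 : v.val (D π) ≠ 0 := by simpa using hDπ
    rw [← ord_D_pi v D hN hπ, Place.ord, neg_neg, WithZero.exp_log h0]
  simp only [E] at h3
  rw [← hxu, hvx, hval, ← WithZero.exp_add, ← WithZero.exp_add, val_le_exp_iff v _ hDx] at h3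
  change n - 1 + _ ≤ _
  omega

/-- tame case: the exact order of the derivative -/
theorem ord_D_eq [IsAlgClosed k] (hN : IsFunctionField k L) (hD : D ≠ 0) {x : L}
    (hx : ((v.ord x : ℤ) : k) ≠ 0) :
    D x ≠ 0 ∧ v.ord (D x) = v.ord x - 1 + ordDer v D := by
  obtain ⟨π, hπ0, hπ⟩ := v.exists_uniformizer
  have hDπ := D_pi_ne_zero v D hN hD hπ
  have hDπv : v.val (D π) ≠ 0 := by simpa using hDπ
  have hx' : x ≠ 0 := by
    rintro rfl
    rw [v.ord_zero] at hx
    simp at hx
  obtain ⟨n, hn⟩ : ∃ n : ℤ, v.ord x = n := ⟨_, rfl⟩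
  rw [hn] at hx
  have hx0 : v.val x ≠ 0 := by simpa using hx'
  have hvx : v.val x = WithZero.exp (-n) := by
    rw [← hn, Place.ord, neg_neg, WithZero.exp_log hx0]
  obtain ⟨u, hu'⟩ : ∃ u, u = x * π ^ (-n) := ⟨_, rfl⟩
  have hu : v.val u = 1 := by
    rw [hu', map_mul, map_zpow₀, hπ, hvx, ← WithZero.exp_zsmul, ← WithZero.exp_add]
    simp
  have hxu : x = π ^ n * u := by
    rw [hu', zpow_neg]
    field_simp
  have hDx : D x = ((n : ℤ) : L) * π ^ (n - 1) * u * D π + π ^ n * D u := by
    conv_lhs => rw [hxu]
    rw [Derivation.leibniz, Derivation.leibniz_zpow]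
    simp only [smul_eq_mul, zsmul_eq_mul]
    ring
  have hcast : v.val ((n : ℤ) : L) = 1 := by
    have := v.triv ((n : ℤ) : k) hx
    rwa [map_intCast] at this
  have h1 : v.val (((n : ℤ) : L) * π ^ (n - 1) * u * D π) =
      WithZero.exp (-(n - 1)) * v.val (D π) := by
    rw [map_mul, map_mul, map_mul, hcast, hu, map_zpow₀, hπ, one_mul, mul_one,
      ← WithZero.exp_zsmul]
    congr 2
    simp
  have h2 : v.val (π ^ n * D u) < v.val (((n : ℤ) : L) * π ^ (n - 1) * u * D π) := by
    rw [h1, map_mul, map_zpow₀, hπ, ← WithZero.exp_zsmul]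
    have h3 := val_D_le_pi' v D hN hπ hu.le
    calc WithZero.exp (n • (-1 : ℤ)) * v.val (D u)
        ≤ WithZero.exp (n • (-1 : ℤ)) * v.val (D π) := mul_le_mul_right h3 _
      _ < WithZero.exp (-(n - 1)) * v.val (D π) := by
          refine mul_lt_mul_of_pos_right ?_ (zero_lt_iff.2 hDπv)
          rw [WithZero.exp_lt_exp]
          simp
  have h4 : v.val (D x) = WithZero.exp (-(n - 1)) * v.val (D π) := by
    rw [hDx, Valuation.map_add_eq_of_lt_left _ h2, h1]
  have h5 : v.val (D x) ≠ 0 := by
    rw [h4]
    exact mul_ne_zero WithZero.exp_ne_zero hDπv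
  refine ⟨by simpa using h5, ?_⟩
  rw [hn, ← ord_D_pi v D hN hπ, Place.ord, Place.ord, h4,
    WithZero.log_mul WithZero.exp_ne_zero hDπv, WithZero.log_exp]
  ring

theorem ordDer_finite [IsAlgClosed k] (hN : IsFunctionField k L) (hD : D ≠ 0) :
    {v : Place k L | ordDer v D ≠ 0}.Finite := by
  obtain ⟨t, ht, hs⟩ := exists_separating hN
  obtain ⟨D0, hD0⟩ := exists_deriv t ht
  have hne : D0 ≠ 0 := by
    rintro rfl
    simp at hD0
  obtain ⟨P, hP1, hP2⟩ := exists_psys_aux hN t ht D0 hD0
  have hfin : ∀ x : L, {v : Place k L | v.ord x ≠ 0}.Finite := by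
    intro x
    obtain ⟨S, h1, -⟩ := hN.product_formula x
    refine S.finite_toSet.subset ?_
    intro v hv
    exact (h1 v).2 hv
  obtain ⟨h, rfl⟩ := exists_eq_smul hN hne D
  have h0 : h ≠ 0 := by
    rintro rfl
    exact hD (zero_smul _ _)
  have h1 : {v : Place k L | ordDer v D0 ≠ 0} ⊆ {v | P.e v ≠ 0} ∪ {v | v.ord t ≠ 0} := by
    intro v hv
    by_contra hcon
    simp only [Set.mem_union, Set.mem_ofPred_eq, not_or, not_not] at hcon
    apply hv
    apply le_antisymm
    · have h2 : v.val t ≤ 1 := (v.ord_nonneg_iff (transcendental_ne_zero ht)).1 hcon.2.ge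
      have h3 := ordDer_le v hN (D := D0) h2 (by rw [hD0]; exact one_ne_zero)
      rw [hD0, v.ord_one] at h3
      exact h3
    · obtain ⟨π, hπ0, hπ⟩ := v.exists_uniformizer
      have h4 := P.ord_D' v π hπ0 (by rw [hP1]; exact D_pi_ne_zero v D0 hN hne hπ) (by
        rw [hP2]; exact (v.ord_nonneg_iff hπ0).2 (by rw [hπ]; exact exp_neg_one_lt.le))
      rw [hP1, hP2, hcon.1] at h4
      rw [← ord_D_pi v D0 hN hπ]
      change -((0 : ℕ) : ℤ) ≤ v.ord (D0 π) at h4
      simpa using h4
  refine (((P.e_finite.union (hfin t)).subset h1).union (hfin h)).subset ?_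
  intro v hv
  by_contra hcon
  simp only [Set.mem_union, Set.mem_ofPred_eq, not_or, not_not] at hcon
  apply hv
  rw [ordDer_smul v hN hne h0, hcon.1, hcon.2, add_zero]

end ord

end Pool.Agent.Helper31.RRK

end
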