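import Pool.Agent.Helper72.TM2.T07
import Pool.Agent.Helper72.TM2.T15
import Pool.Agent.Helper72.TM2.T05

section

namespace Pool.Agent.Helper16
end Pool.Agent.Helper16
namespace Pool.Agent.Helper36
end Pool.Agent.Helper36
namespace Pool.Agent.Helper30.TP
end Pool.Agent.Helper30.TP

set_option autoImplicit false

namespace Pool.Agent.Helper63.TK

open MvPolynomial

open Pool.Agent.Helper16 (Place IsFunctionField)

open Pool.Agent.Helper36 (step iter)

open Pool.Agent.Helper30.TP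

variable {k K : Type} [Field k] [Field K] [Algebra k K]

/-- The Wronskians of the coordinates. -/
def wr (δ : Derivation k K K) (i j : Fin 3) (x : Fin 3 → K) : K :=
  x i * δ (x j) - x j * δ (x i)

end Pool.Agent.Helper63.TK

end

section

namespace Pool.Agent.Helper30.TP
end Pool.Agent.Helper30.TP

/-!
# The differential equation near a point: algebra
-/

set_option autoImplicit false

namespace Pool.Agent.Helper63.TK

open MvPolynomial

open Pool.Agent.Helper30.TP

variable {k K : Type} [Field k] [Field K] [Algebra k K]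

/-- The form of the differential equation near the point `P`, which is used in the local analysis.
The affine coordinates are the quotients by the coordinate `p`. -/
structure Ode (δ : Derivation k K K) (P : Fin 3 → K) (p j₁ j₂ : Fin 3) (e r : ℕ)
    (α β E H : MvPolynomial (Fin 3) K) (T : Set (Fin 3 → K)) : Prop where
  cover : ∀ i : Fin 3, i = p ∨ i = j₁ ∨ i = j₂
  ne1 : j₁ ≠ p
  ne2 : j₂ ≠ p
  hP : P p ≠ 0
  hα : α.IsHomogeneous e
  hβ : β.IsHomogeneous e
  hE : E.IsHomogeneous r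
  hH : H.IsHomogeneous r
  β0 : eval P β ≠ 0
  H0 : eval P H ≠ 0
  eq1 : ∀ Q ∈ T, Q p ≠ 0 → eval Q H * δ (Q j₁ / Q p - P j₁ / P p) =
    eval Q E * (Q j₁ / Q p - P j₁ / P p)
  eq2 : ∀ Q ∈ T, Q p ≠ 0 → (Q j₂ / Q p - P j₂ / P p) * eval Q β =
    - (Q j₁ / Q p - P j₁ / P p) * eval Q α

theorem OdeA_comp_mul {G B : MvPolynomial (Fin 3) K} {m : ℕ} (hG : G.IsHomogeneous m) (n : ℕ) :
    homogeneousComponent (n + m) (G * B) = G * homogeneousComponent n B := by
  rw [← Gam_coeff, ← Gam_coeff, map_mul, Gam_form hG, mul_assoc, Polynomial.coeff_C_mul,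
    mul_comm (Polynomial.X ^ m), Polynomial.coeff_mul_X_pow]

/-- A form which vanishes at `P` is a combination of the two linear forms. -/
theorem OdeA_cof {P : Fin 3 → K} {p j₁ j₂ : Fin 3} (hp : P p ≠ 0)
    (hc : ∀ j, j = p ∨ j = j₁ ∨ j = j₂) {n : ℕ} {φ : MvPolynomial (Fin 3) K}
    (hφ : φ.IsHomogeneous (n + 1)) (h0 : eval P φ = 0) :
    ∃ a b : MvPolynomial (Fin 3) K, a.IsHomogeneous n ∧ b.IsHomogeneous n ∧
      φ = (C (P p) * X j₁ - C (P j₁) * X p) * a + (C (P p) * X j₂ - C (P j₂) * X p) * b := by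
  have h1 := LFin_of_eval hφ h0
  rw [LFin_span hp hc, Ideal.mem_span_pair] at h1
  obtain ⟨a, b, hab⟩ := h1
  have hL : ∀ j, (C (P p) * X j - C (P j) * X p : MvPolynomial (Fin 3) K).IsHomogeneous 1 := by
    intro j
    have h2 := (isHomogeneous_C (Fin 3) (P p)).mul (isHomogeneous_X K j)
    have h3 := (isHomogeneous_C (Fin 3) (P j)).mul (isHomogeneous_X K p)
    rw [zero_add] at h2 h3
    exact h2.sub h3
  refine ⟨homogeneousComponent n a, homogeneousComponent n b,
    homogeneousComponent_isHomogeneous _ _, homogeneousComponent_isHomogeneous _ _, ?_⟩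
  rw [← OdeA_comp_mul (hL j₁), ← OdeA_comp_mul (hL j₂), ← map_add]
  have h2 : (C (P p) * X j₁ - C (P j₁) * X p) * a + (C (P p) * X j₂ - C (P j₂) * X p) * b = φ := by
    rw [← hab]
    ring
  rw [h2, homogeneousComponent_of_mem hφ, if_pos rfl]

theorem exists_ode [CharZero K] (δ : Derivation k K K) {P : Fin 3 → K} (hP : P ≠ 0)
    {g : MvPolynomial (Fin 3) K} {D : ℕ} (hg : g.IsHomogeneous D) (hgP : eval P g = 0)
    (hsm : ∃ j, eval P (pderiv j g) ≠ 0) {u : ℕ} {U : MvPolynomial (Fin 3) K}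
    (hU : U.IsHomogeneous u) {A : Fin 3 → Fin 3 → MvPolynomial (Fin 3) K}
    (hA : ∀ i j, (A i j).IsHomogeneous (u + 2)) (hUP : eval P U ≠ 0)
    (hPW : ∀ i j, eval P U * wr δ i j P = eval P (A i j)) :
    ∃ (p j₁ j₂ : Fin 3) (e r : ℕ) (α β E H : MvPolynomial (Fin 3) K),
      Ode δ P p j₁ j₂ e r α β E H
        {Q | eval Q g = 0 ∧ eval Q U ≠ 0 ∧ ∀ i j, eval Q U * wr δ i j Q = eval Q (A i j)} := by
  classical
  obtain ⟨p, hp⟩ := Function.ne_iff.1 hP
  rw [Pi.zero_apply] at hp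
  have hall : ∀ a : Fin 3, ∃ b c : Fin 3, b ≠ a ∧ c ≠ a ∧ ∀ j, j = a ∨ j = b ∨ j = c := by decide
  obtain ⟨b, c, hb, hc, habc⟩ := hall p
  have hD : D ≠ 0 := by
    rintro rfl
    obtain ⟨j, hj⟩ := hsm
    apply hj
    have h1 : g.totalDegree = 0 := Nat.le_zero.1 hg.totalDegree_le
    rw [totalDegree_eq_zero_iff_eq_C] at h1
    rw [h1, pderiv_C, map_zero]
  obtain ⟨e, rfl⟩ := Nat.exists_eq_succ_of_ne_zero hD
  obtain ⟨α₀, β₀, hα₀, hβ₀, hgab₀⟩ := OdeA_cof hp habc hg hgP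
  have hne : eval P α₀ ≠ 0 ∨ eval P β₀ ≠ 0 := by
    by_contra hcon
    push Not at hcon
    obtain ⟨j, hj⟩ := hsm
    apply hj
    rw [hgab₀, map_add, pderiv_mul, pderiv_mul]
    simp only [map_add, map_mul, map_sub, eval_C, eval_X, hcon.1, hcon.2]
    ring
  obtain ⟨j₁, j₂, α, β, n1, n2, cover, hα, hβ, hgab, hβP⟩ : ∃ (j₁ j₂ : Fin 3)
      (α β : MvPolynomial (Fin 3) K), j₁ ≠ p ∧ j₂ ≠ p ∧ (∀ j, j = p ∨ j = j₁ ∨ j = j₂) ∧
      α.IsHomogeneous e ∧ β.IsHomogeneous e ∧
      g = (C (P p) * X j₁ - C (P j₁) * X p) * α + (C (P p) * X j₂ - C (P j₂) * X p) * β ∧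
      eval P β ≠ 0 := by
    rcases hne with h | h
    · refine ⟨c, b, β₀, α₀, hc, hb, fun j => ?_, hβ₀, hα₀, ?_, h⟩
      · rcases habc j with h | h | h
        · exact Or.inl h
        · exact Or.inr (Or.inr h)
        · exact Or.inr (Or.inl h)
      · rw [hgab₀]
        ring
    · exact ⟨b, c, α₀, β₀, hb, hc, habc, hα₀, hβ₀, hgab₀, h⟩
  -- the form `N`
  have hN : (C (P p ^ 2 * eval P U) * A p j₁ - C (eval P (A p j₁)) * (X p ^ 2 * U) :
      MvPolynomial (Fin 3) K).IsHomogeneous (u + 1 + 1) := by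
    have h2 := (isHomogeneous_C (Fin 3) (P p ^ 2 * eval P U)).mul (hA p j₁)
    have h3 := (isHomogeneous_C (Fin 3) (eval P (A p j₁))).mul (((isHomogeneous_X K p).pow 2).mul hU)
    rw [zero_add] at h2 h3
    have h4 : 1 * 2 + u = u + 2 := by omega
    rw [h4] at h3
    exact h2.sub h3
  have hN0 : eval P (C (P p ^ 2 * eval P U) * A p j₁ - C (eval P (A p j₁)) * (X p ^ 2 * U) :
      MvPolynomial (Fin 3) K) = 0 := by
    simp only [map_mul, map_sub, map_pow, eval_C, eval_X]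
    ring
  obtain ⟨a, a', ha, ha', hNa⟩ := OdeA_cof hp cover hN hN0
  refine ⟨p, j₁, j₂, e, u + 1 + e, α, β, a * β - α * a', C (eval P U * P p) * (β * (U * X p)), ?_⟩
  have hrel : ∀ Q : Fin 3 → K, eval Q g = 0 → Q p ≠ 0 →
      P p * Q p * ((Q j₁ / Q p - P j₁ / P p) * eval Q α + (Q j₂ / Q p - P j₂ / P p) * eval Q β) =
        0 := by
    intro Q hQ hQp
    rw [hgab] at hQ
    simp only [map_add, map_mul, map_sub, eval_C, eval_X] at hQ
    rw [← hQ]
    field_simp
  refine ⟨cover, n1, n2, hp, hα, hβ, ?_, ?_, hβP, ?_, ?_, ?_⟩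
  · have h1 := hα.mul ha'
    rw [add_comm e (u + 1)] at h1
    exact (ha.mul hβ).sub h1
  · have h1 := (isHomogeneous_C (Fin 3) (eval P U * P p)).mul
      (hβ.mul (hU.mul (isHomogeneous_X K p)))
    have h2 : 0 + (e + (u + 1)) = u + 1 + e := by omega
    rwa [h2] at h1
  · simp only [map_mul, eval_C, eval_X]
    exact mul_ne_zero (mul_ne_zero hUP hp) (mul_ne_zero hβP (mul_ne_zero hUP hp))
  · rintro Q ⟨hQg, hQU, hQW⟩ hQp
    have hr := hrel Q hQg hQp
    have hr2 := (mul_eq_zero.1 hr).resolve_left (mul_ne_zero hp hQp)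
    have hw := hQW p j₁
    have hw0 := hPW p j₁
    -- the derivative
    have hd : ∀ R : Fin 3 → K, R p ≠ 0 → δ (R j₁ / R p) = wr δ p j₁ R / R p ^ 2 := by
      intro R hR
      have h1 := δ.leibniz (R j₁ / R p) (R p)
      rw [div_mul_cancel₀ _ hR, smul_eq_mul, smul_eq_mul] at h1
      rw [eq_div_iff (pow_ne_zero 2 hR), wr, h1]
      field_simp
      ring
    have hNQ := congrArg (eval Q) hNa
    simp only [map_add, map_mul, map_sub, map_pow, eval_C, eval_X] at hNQ
    simp only [map_mul, map_sub, eval_C, eval_X]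
    rw [hd Q hQp, hd P hp]
    have hc1 : P p ≠ 0 := hp
    have e1 : wr δ p j₁ Q = eval Q (A p j₁) / eval Q U := by
      rw [eq_div_iff hQU, mul_comm]
      exact hw
    have e2 : wr δ p j₁ P = eval P (A p j₁) / eval P U := by
      rw [eq_div_iff hUP, mul_comm]
      exact hw0
    have hl1 : P p * Q j₁ - P j₁ * Q p = P p * Q p * (Q j₁ / Q p - P j₁ / P p) := by
      field_simp
    have hl2 : P p * Q j₂ - P j₂ * Q p = P p * Q p * (Q j₂ / Q p - P j₂ / P p) := by
      field_simp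
    rw [hl1, hl2] at hNQ
    rw [e1, e2]
    set q := Q j₁ / Q p - P j₁ / P p with hq
    set q' := Q j₂ / Q p - P j₂ / P p with hq'
    clear_value q q'
    have h1 : eval P U * P p * (eval Q β * (eval Q U * Q p)) *
        (eval Q (A p j₁) / eval Q U / Q p ^ 2 - eval P (A p j₁) / eval P U / P p ^ 2) =
        eval Q β * (P p ^ 2 * eval P U * eval Q (A p j₁) -
          eval P (A p j₁) * (Q p ^ 2 * eval Q U)) / (P p * Q p) := by
      field_simp
    have h2 : eval Q β * (P p * Q p * q * eval Q a + P p * Q p * q' * eval Q a') / (P p * Q p) =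
        eval Q β * (q * eval Q a + q' * eval Q a') := by
      field_simp
    rw [h1, hNQ, h2]
    linear_combination (eval Q a') * hr2
  · rintro Q ⟨hQg, hQU, hQW⟩ hQp
    have hr := hrel Q hQg hQp
    have hr2 := (mul_eq_zero.1 hr).resolve_left (mul_ne_zero hp hQp)
    linear_combination hr2

/-- Almost all the points are smooth points outside `U = 0`. -/
theorem finite_singular [CharZero K] {x : ℕ → Fin 3 → K} {S : Set ℕ}
    (hx : ∀ n ∈ S, x n ≠ 0) (hnp : ∀ n ∈ S, ∀ n' ∈ S, n ≠ n' → ¬ PEq (x n) (x n'))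
    {g : MvPolynomial (Fin 3) K} {D : ℕ} (hg : g.IsHomogeneous D) (hirr : Irreducible g)
    (hgx : ∀ n ∈ S, eval (x n) g = 0) {U : MvPolynomial (Fin 3) K} {u : ℕ}
    (hU : U.IsHomogeneous u) (hgU : ¬ g ∣ U) :
    {n | n ∈ S ∧ (eval (x n) U = 0 ∨ ∀ j, eval (x n) (pderiv j g) = 0)}.Finite := by
  classical
  have key : ∀ (ψ : MvPolynomial (Fin 3) K) (t : ℕ), ψ.IsHomogeneous t → ¬ g ∣ ψ →
      {n | n ∈ S ∧ eval (x n) ψ = 0}.Finite := by
    intro ψ t hψ hnd
    have h1 := finite_common_zeros hg hψ hirr hnd (fun n : S => x n) (fun n => hx n n.2)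
      (fun i j hij => hnp i i.2 j j.2 fun h => hij (Subtype.ext h))
    refine (h1.image (Subtype.val : S → ℕ)).subset ?_
    rintro n ⟨hn, h0⟩
    exact ⟨⟨n, hn⟩, ⟨hgx n hn, h0⟩, rfl⟩
  have hD : D ≠ 0 := by
    rintro rfl
    have h1 : g.totalDegree = 0 := Nat.le_zero.1 hg.totalDegree_le
    rw [totalDegree_eq_zero_iff_eq_C] at h1
    have h2 : coeff 0 g ≠ 0 := by
      intro h
      rw [h, C_0] at h1
      exact hirr.ne_zero h1
    apply hirr.not_isUnit
    rw [h1]
    exact (isUnit_iff_ne_zero.2 h2).map C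
  obtain ⟨j, hj⟩ : ∃ j, pderiv j g ≠ 0 := by
    by_contra hcon
    push Not at hcon
    have h1 := hg.sum_X_mul_pderiv
    simp only [hcon, mul_zero, Finset.sum_const_zero] at h1
    have h2 : ((D : ℕ) : MvPolynomial (Fin 3) K) * g = 0 := by
      rw [← nsmul_eq_mul]
      exact h1.symm
    rcases mul_eq_zero.1 h2 with h3 | h3
    · exact hD (by exact_mod_cast h3)
    · exact hirr.ne_zero h3
  have hnd : ¬ g ∣ pderiv j g := by
    rintro ⟨r, hr⟩
    have hr0 : r ≠ 0 := by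
      rintro rfl
      exact hj (by rw [hr, mul_zero])
    have h1 := (hg.pderiv (i := j)).totalDegree hj
    have h2 := hg.totalDegree hirr.ne_zero
    rw [hr, totalDegree_mul_of_isDomain hirr.ne_zero hr0, h2] at h1
    omega
  refine ((key U u hU hgU).union (key _ _ hg.pderiv hnd)).subset ?_
  rintro n ⟨hn, h | h⟩
  · exact Or.inl ⟨hn, h⟩
  · exact Or.inr ⟨hn, h j⟩

end Pool.Agent.Helper63.TK

end
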