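import Pool.Agent.Helper72.TM2.T06
import Pool.Agent.Helper72.TM2.T09
import Pool.Agent.Helper72.TM2.T08
import Pool.Agent.Helper72.TM2.T12
import Pool.Agent.Helper72.TM2.T13
import Pool.Agent.Helper72.TM2.T10
import Pool.Agent.Helper72.TM2.T18
import Pool.Agent.Helper72.TM2.T14

section

namespace Pool.Agent.Helper16
end Pool.Agent.Helper16
namespace Pool.Agent.Helper36
end Pool.Agent.Helper36

/-!
# Preperiodic complex points are defined over the field of definition of the map
-/

set_option autoImplicit false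

namespace Pool.Agent.Helper38.TQ

open MvPolynomial

open Pool.Agent.Helper16 (Place IsFunctionField)

open Pool.Agent.Helper36 (step iter iter_zero iter_succ iter_succ' iter_add iter_map)

variable {ν : ℕ}

/-- Base change of an endomorphism. -/
theorem IsEndo.map {k k' : Type} [Field k] [IsAlgClosed k] [Field k'] [Algebra k k'] {d : ℕ}
    {F : Fin (ν + 1) → MvPolynomial (Fin (ν + 1)) k} (hF : IsEndo d F) :
    IsEndo d (fun i => MvPolynomial.map (algebraMap k k') (F i)) := by
  refine ⟨hF.two_le, fun i => (hF.hom i).map _, fun w hw => ?_⟩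
  by_contra hne
  apply step_ne_zero hF (L := k') hne
  funext i
  have h1 := hw i
  rw [eval_map] at h1
  exact h1

theorem iter_map_base {k k' L : Type} [Field k] [Field k'] [Field L] [Algebra k k'] [Algebra k L]
    [Algebra k' L] [IsScalarTower k k' L] (F : Fin (ν + 1) → MvPolynomial (Fin (ν + 1)) k)
    (x : Fin (ν + 1) → L) (n : ℕ) :
    iter (fun i => MvPolynomial.map (algebraMap k k') (F i)) x n = iter F x n := by
  induction n with
  | zero => rfl
  | succ n ih =>
    rw [iter_succ, iter_succ, ih]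
    funext i
    exact MvPolynomial.aeval_map_algebraMap k' (iter F x n) (F i)

theorem PEq.descend {K L : Type} [Field K] [Field L] (φ : K →+* L) {x y : Fin (ν + 1) → K}
    (hx : x ≠ 0) (hy : y ≠ 0) (h : PEq (fun i => φ (x i)) (fun i => φ (y i))) : PEq x y := by
  obtain ⟨c, hc, h⟩ := h
  obtain ⟨i, hi⟩ := Function.ne_iff.1 hx
  have hi' : x i ≠ 0 := hi
  have h1 : ∀ j, φ (y j) = c * φ (x j) := fun j => congrFun h j
  have h2 : ∀ j, y j = y i / x i * x j := by
    intro j
    apply φ.injective
    rw [map_mul, map_div₀, h1, h1, mul_div_assoc, div_self (by simpa using hi'), mul_one]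
  refine ⟨y i / x i, ?_, funext h2⟩
  intro h0
  apply hy
  funext j
  rw [h2 j, h0, zero_mul]
  rfl

theorem isConst_smul {k L : Type} [Field k] [Field L] [Algebra k L] {x : Fin (ν + 1) → L}
    {c : L} (hc : c ≠ 0) : IsConst k (c • x) ↔ IsConst k x := by
  constructor
  · rintro ⟨z, s, hs, h⟩
    refine ⟨z, c⁻¹ * s, mul_ne_zero (inv_ne_zero hc) hs, ?_⟩
    funext i
    have h1 := congrFun h i
    rw [Pi.smul_apply, smul_eq_mul] at h1
    rw [mul_assoc, ← h1, ← mul_assoc, inv_mul_cancel₀ hc, one_mul]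
  · rintro ⟨z, s, hs, h⟩
    refine ⟨z, c * s, mul_ne_zero hc hs, ?_⟩
    funext i
    rw [Pi.smul_apply, smul_eq_mul, h, mul_assoc]

theorem isConst_of_preper_complex {k : Type} [Field k] [IsAlgClosed k] [Algebra k ℂ] {d : ℕ}
    {F : Fin (ν + 1) → MvPolynomial (Fin (ν + 1)) k} (hF : IsEndo d F) {z : Fin (ν + 1) → ℂ}
    (hz : z ≠ 0) (h : Preper F z) : IsConst k z := by
  by_contra hc
  obtain ⟨i₀, hi₀⟩ := Function.ne_iff.1 hz
  have hi₀' : z i₀ ≠ 0 := hi₀
  set v : Fin (ν + 1) → ℂ := (z i₀)⁻¹ • z with hv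
  have hv1 : v i₀ = 1 := by
    rw [hv, Pi.smul_apply, smul_eq_mul, inv_mul_cancel₀ hi₀']
  have hvc : ¬ IsConst k v := by rwa [hv, isConst_smul (inv_ne_zero hi₀')]
  obtain ⟨k', _, _, _, _, _, hvc', hK⟩ := exists_function_field v i₀ hv1 hvc
  set K := IntermediateField.adjoin k' (Set.range v)
  let y : Fin (ν + 1) → K := fun i => ⟨v i, IntermediateField.subset_adjoin _ _ ⟨i, rfl⟩⟩
  have hyv : (fun i => algebraMap K ℂ (y i)) = v := rfl
  have hy0 : y ≠ 0 := by
    intro h
    have h1 := congrArg (fun w : Fin (ν + 1) → K => algebraMap K ℂ (w i₀)) h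
    simp only [Pi.zero_apply, map_zero] at h1
    have h2 : algebraMap K ℂ (y i₀) = v i₀ := rfl
    rw [h2, hv1] at h1
    exact one_ne_zero h1
  have hF' := hF.map (k' := k')
  obtain ⟨n, m, hnm, hp⟩ := h
  have hp' : PEq (iter (fun i => MvPolynomial.map (algebraMap k k') (F i)) y n)
      (iter (fun i => MvPolynomial.map (algebraMap k k') (F i)) y m) := by
    refine PEq.descend (algebraMap K ℂ) (iter_ne_zero hF' hy0 n) (iter_ne_zero hF' hy0 m) ?_
    have key : ∀ n, (fun i => algebraMap K ℂ
        (iter (fun i => MvPolynomial.map (algebraMap k k') (F i)) y n i)) =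
        ((z i₀)⁻¹ ^ d ^ n) • iter F z n := by
      intro n
      have h1 := iter_map (fun i => MvPolynomial.map (algebraMap k k') (F i))
        (IsScalarTower.toAlgHom k' K ℂ) y n
      have h2 : (fun i => (IsScalarTower.toAlgHom k' K ℂ) (y i)) = v := rfl
      rw [h2, iter_map_base, hv, iter_smul hF] at h1
      exact h1.symm
    rw [key, key]
    obtain ⟨c, hc, hcc⟩ := hp
    rw [hcc]
    have hz0 : (z i₀)⁻¹ ≠ 0 := inv_ne_zero hi₀'
    refine ⟨(z i₀)⁻¹ ^ d ^ m * c * ((z i₀)⁻¹ ^ d ^ n)⁻¹, ?_, ?_⟩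
    · exact mul_ne_zero (mul_ne_zero (pow_ne_zero _ hz0) hc) (inv_ne_zero (pow_ne_zero _ hz0))
    · rw [smul_smul, smul_smul, mul_assoc, mul_assoc, inv_mul_cancel₀ (pow_ne_zero _ hz0), mul_one]
  have h3 := isConst_of_preper hK hF' y hy0 ⟨n, m, hnm, hp'⟩
  apply hvc'
  obtain ⟨w, c, hc0, hw⟩ := h3
  refine ⟨w, algebraMap K ℂ c, by simpa using hc0, ?_⟩
  rw [← hyv, hw]
  funext i
  rw [map_mul, ← IsScalarTower.algebraMap_apply]

end Pool.Agent.Helper38.TQ

end

section

namespace Pool.Agent.Helper16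
end Pool.Agent.Helper16
namespace Pool.Agent.Helper36
end Pool.Agent.Helper36
namespace Pool.Agent.Helper38.TQ
end Pool.Agent.Helper38.TQ
namespace Pool.Agent.Helper30.TKN
end Pool.Agent.Helper30.TKN
namespace Pool.Agent.Helper30.TP
end Pool.Agent.Helper30.TP

set_option autoImplicit false

namespace Pool.Agent.Helper30.RED

open MvPolynomial

open Pool.Agent.Helper16 (Place IsFunctionField)

open Pool.Agent.Helper36 (step iter iter_zero iter_succ iter_succ' iter_add iter_map)

open Pool.Agent.Helper38.TQ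

open Pool.Agent.Helper30.TKN

open Pool.Agent.Helper30.TP (emb_mem_range emb_trdeg_le)

variable {ν : ℕ}

theorem alg_mono {F E : Type} [Field F] [Field E] [Algebra F ℂ] [Algebra E ℂ]
    (h : ∀ a : F, algebraMap F ℂ a ∈ Set.range (algebraMap E ℂ)) {c : ℂ}
    (hc : IsAlgebraic F c) : IsAlgebraic E c := by
  choose φ hφ using h
  let ψ : F →+* E :=
    { toFun := φ
      map_zero' := (algebraMap E ℂ).injective (by rw [hφ, map_zero, map_zero])
      map_one' := (algebraMap E ℂ).injective (by rw [hφ, map_one, map_one])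
      map_add' := fun a b => (algebraMap E ℂ).injective (by
        rw [hφ, map_add, map_add, hφ, hφ])
      map_mul' := fun a b => (algebraMap E ℂ).injective (by
        rw [hφ, map_mul, map_mul, hφ, hφ]) }
  obtain ⟨p, hp0, hp⟩ := hc
  refine ⟨p.map ψ, ?_, ?_⟩
  · intro h0
    exact hp0 ((Polynomial.map_eq_zero ψ).1 h0)
  · rw [Polynomial.aeval_def, Polynomial.eval₂_map]
    have h1 : (algebraMap E ℂ).comp ψ = algebraMap F ℂ := RingHom.ext fun a => hφ a
    rw [h1]
    exact hp

/-- Finitely many numbers which are algebraic over `k(t)` lie in a function field of one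
variable. -/
theorem isFunctionField_adjoin {k : Type} [Field k] [IsAlgClosed k] [Algebra k ℂ] {t : ℂ}
    (ht : t ∉ Set.range (algebraMap k ℂ)) {s : Set ℂ} (hs : s.Finite)
    (hsa : ∀ c ∈ s, IsAlgebraic (IntermediateField.adjoin k {t}) c) :
    IsFunctionField k (IntermediateField.adjoin k (insert t s)) := by
  have htr : Transcendental k t := by
    intro h
    obtain ⟨c, hc⟩ := emb_mem_range h
    exact ht ⟨c, hc⟩
  set K := IntermediateField.adjoin k (insert t s) with hK
  refine ⟨IntermediateField.essFiniteType_iff.2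
    (IntermediateField.fg_adjoin_of_finite (hs.insert t)), ?_⟩
  apply le_antisymm
  · set F₁ := IntermediateField.adjoin k {t} with hF₁
    let A : IntermediateField F₁ ℂ := algebraicClosure F₁ ℂ
    have h1 : Algebra.trdeg k A ≤ 1 := by
      have h2 := trdeg_add_eq k F₁ (A := A)
      have h3 : Algebra.trdeg F₁ A = 0 := trdeg_eq_zero
      rw [h3, add_zero] at h2
      rw [← h2]
      have h4 := emb_trdeg_le (k := k) ({t} : Set ℂ)
      rwa [Cardinal.mk_singleton] at h4
    have hle : K ≤ A.restrictScalars k := by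
      rw [hK, IntermediateField.adjoin_le_iff]
      intro c hc
      change c ∈ A
      rw [mem_algebraicClosure_iff]
      rcases hc with rfl | hc
      · exact isAlgebraic_algebraMap (R := F₁) (A := ℂ)
          (⟨c, IntermediateField.subset_adjoin k {c} rfl⟩ : F₁)
      · exact hsa c hc
    exact (trdeg_le_of_injective (IntermediateField.inclusion hle)
      (IntermediateField.inclusion_injective hle)).trans h1
  · rw [Cardinal.one_le_iff_ne_zero, trdeg_ne_zero_iff]
    refine ⟨⟨⟨t, IntermediateField.subset_adjoin k _ (Set.mem_insert _ _)⟩, ?_⟩⟩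
    intro h
    exact htr (IsAlgebraic.algHom K.val h)

theorem exists_lift {k : Type} [Field k] [Algebra k ℂ] (K : IntermediateField k ℂ)
    {σ : Type} {p : MvPolynomial σ ℂ} (h : ∀ c ∈ p.coeffs, c ∈ K) :
    ∃ P : MvPolynomial σ K, map (algebraMap K ℂ) P = p := by
  have h1 : p ∈ Set.range (map (σ := σ) (algebraMap K ℂ)) := by
    rw [mem_range_map_iff_coeffs_subset]
    intro c hc
    exact ⟨⟨c, h c hc⟩, rfl⟩
  exact h1

/-- The specialisation of an integral polynomial. -/
theorem redP_exists' {k K : Type} [Field k] [IsAlgClosed k] [Field K] [Algebra k K]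
    (hK : IsFunctionField k K) (b : Place k K)
    {P : MvPolynomial (Fin (ν + 1)) K} (h : ∀ m, b.val (P.coeff m) ≤ 1) : ∃ p, RedP b P p := by
  classical
  have h1 : ∀ m, ∃ c : k, b.val (P.coeff m - algebraMap k K c) < 1 ∧
      (P.coeff m = 0 → c = 0) := by
    intro m
    by_cases h0 : P.coeff m = 0
    · exact ⟨0, by simp [h0], fun _ => rfl⟩
    · obtain ⟨c, hc⟩ := exists_residue hK b (P.coeff m) (h m)
      exact ⟨c, hc, fun h => absurd h h0⟩
  choose c hc hc0 using h1
  refine ⟨∑ n ∈ P.support, monomial n (c n), fun m => ?_⟩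
  have h2 : (∑ n ∈ P.support, monomial n (c n)).coeff m = c m := by
    rw [coeff_sum]
    simp only [coeff_monomial]
    rw [Finset.sum_ite_eq']
    split_ifs with h
    · rfl
    · exact (hc0 m (notMem_support_iff.1 h)).symm
  rw [h2]
  exact hc m

/-- The values of the forms at the points of the orbit, over `K` and over `ℂ`. -/
theorem eval_iter_map {K : Type} [Field K] [Algebra K ℂ]
    (F : Fin (ν + 1) → MvPolynomial (Fin (ν + 1)) K) (x : Fin (ν + 1) → K)
    (g : MvPolynomial (Fin (ν + 1)) K) (n : ℕ) :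
    eval (iter (fun i => map (algebraMap K ℂ) (F i)) (fun i => algebraMap K ℂ (x i)) n)
      (map (algebraMap K ℂ) g) = 0 ↔ eval (iter F x n) g = 0 := by
  have h1 : ∀ n, iter (fun i => map (algebraMap K ℂ) (F i)) (fun i => algebraMap K ℂ (x i)) n =
      fun i => algebraMap K ℂ (iter F x n i) := by
    intro n
    induction n with
    | zero => rfl
    | succ n ih =>
      rw [iter_succ, ih, iter_succ]
      funext i
      change eval _ (map (algebraMap K ℂ) (F i)) = algebraMap K ℂ (eval (iter F x n) (F i))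
      exact (Pool.Agent.Helper38.Sym.map_eval_gen (algebraMap K ℂ) _ _).symm
  rw [h1, ← Pool.Agent.Helper38.Sym.map_eval_gen, map_eq_zero_iff _ (algebraMap K ℂ).injective]

/-- Finitely many of the forms define the same closed set. -/
theorem exists_finite_subfamily {σ : Type} [Finite σ] (S : Set (MvPolynomial σ ℂ)) :
    ∃ S₀ : Finset (MvPolynomial σ ℂ), (S₀ : Set (MvPolynomial σ ℂ)) ⊆ S ∧
      ∀ y : σ → ℂ, (∀ g ∈ S₀, eval y g = 0) → ∀ g ∈ S, eval y g = 0 := by
  obtain ⟨S₀, h1, h2⟩ := (Submodule.fg_span_iff_fg_span_finset_subset (R := MvPolynomial σ ℂ) S).1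
    (IsNoetherian.noetherian _)
  refine ⟨S₀, h1, fun y hy g hg => ?_⟩
  have h3 : g ∈ Ideal.span (S₀ : Set (MvPolynomial σ ℂ)) := by
    have h4 : g ∈ Submodule.span (MvPolynomial σ ℂ) S := Submodule.subset_span hg
    rw [h2] at h4
    exact h4
  have h5 : Ideal.span (S₀ : Set (MvPolynomial σ ℂ)) ≤ RingHom.ker (eval y) := by
    rw [Ideal.span_le]
    intro p hp
    exact hy p hp
  exact h5 h3

end Pool.Agent.Helper30.RED

end

section

namespace Pool.Agent.Helper16
end Pool.Agent.Helper16
namespace Pool.Agent.Helper36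
end Pool.Agent.Helper36

set_option autoImplicit false

namespace Pool.Agent.Helper38.TQ

open MvPolynomial

open Pool.Agent.Helper16 (Place IsFunctionField)

open Pool.Agent.Helper36 (step iter iter_zero iter_succ iter_succ' iter_add iter_map)

variable {ν : ℕ}

section

variable {k K : Type} [Field k] [IsAlgClosed k] [Field K] [Algebra k K]

theorem ht_iter_large (hK : IsFunctionField k K) {d : ℕ}
    {F : Fin (ν + 1) → MvPolynomial (Fin (ν + 1)) k} (hF : IsEndo d F) {x : Fin (ν + 1) → K}
    (hx : x ≠ 0) (hxc : ¬ IsConst k x) (n : ℕ) : (n : ℤ) < ht k (iter F x n) := by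
  rw [ht_iter hK hF x hx]
  have h1 := one_le_ht hK x hx hxc
  have h2 : (n : ℤ) < d ^ n := by
    have h3 : n < 2 ^ n := Nat.lt_two_pow_self
    have h4 : 2 ^ n ≤ d ^ n := Nat.pow_le_pow_left hF.two_le n
    exact_mod_cast h3.trans_le h4
  have h3 : (d : ℤ) ^ n ≤ d ^ n * ht k x := le_mul_of_one_le_right (by positivity) h1
  omega

end

end Pool.Agent.Helper38.TQ

end

section

namespace Pool.Agent.Helper16
end Pool.Agent.Helper16
namespace Pool.Agent.Helper36
end Pool.Agent.Helper36

set_option autoImplicit false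

namespace Pool.Agent.Helper38.TQ

open MvPolynomial

open Pool.Agent.Helper16 (Place IsFunctionField)

open Pool.Agent.Helper36 (step iter iter_zero iter_succ iter_succ' iter_add iter_map)

variable {ν : ℕ}

/-- The orbit of a point with coordinates in a subfield `K`, over `ℂ`. -/
theorem orbit_eq {k k' : Type} [Field k] [Field k'] [Algebra k k'] [Algebra k ℂ]
    [Algebra k' ℂ] [IsScalarTower k k' ℂ] {K : Type} [Field K] [Algebra k' K] [Algebra K ℂ]
    [IsScalarTower k' K ℂ] {d : ℕ}
    {F : Fin (ν + 1) → MvPolynomial (Fin (ν + 1)) k} (hF : IsEndo d F) (y : Fin (ν + 1) → K)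
    (c : ℂ) (n : ℕ) :
    iter F (fun i => c * algebraMap K ℂ (y i)) n =
      c ^ d ^ n • fun i => algebraMap K ℂ
        (iter (fun i => MvPolynomial.map (algebraMap k k') (F i)) y n i) := by
  have h2 : (fun i => c * algebraMap K ℂ (y i)) = c • fun i => algebraMap K ℂ (y i) := rfl
  rw [h2, iter_smul hF]
  congr 1
  have h1 := iter_map (fun i => MvPolynomial.map (algebraMap k k') (F i))
    (IsScalarTower.toAlgHom k' K ℂ) y n
  rw [iter_map_base] at h1
  exact h1

end Pool.Agent.Helper38.TQ

end
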