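import Pool.Agent.Helper72.TM2.T17
import Pool.Agent.Helper72.TM2.T16
import Pool.Agent.Helper72.TM2.T08

section

namespace Pool.Agent.Helper16
end Pool.Agent.Helper16
namespace Pool.Agent.Helper30.TP
end Pool.Agent.Helper30.TP

/-!
# Points of large height, with control of the number of given points

Copy of `Helper30.TP.exists_denominator` and `Helper30.TP.sum_ht_cross_le` with one more conclusion.
-/

set_option autoImplicit false

namespace Pool.Agent.Helper63.TK

open MvPolynomial

open Pool.Agent.Helper16 (Place IsFunctionField)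

open Pool.Agent.Helper30.TP

section den

variable {K : Type} [Field K]

theorem exists_denominator_card [Infinite K] {x : ℕ → Fin 3 → K} {S : Set ℕ} (hS : S.Infinite)
    (hx : ∀ n ∈ S, x n ≠ 0) (hnp : ∀ n ∈ S, ∀ n' ∈ S, n ≠ n' → ¬ PEq (x n) (x n'))
    {g : MvPolynomial (Fin 3) K} {D : ℕ} (hg : g.IsHomogeneous D) (hirr : Irreducible g)
    (hgx : ∀ n ∈ S, eval (x n) g = 0) (N : ℕ) :
    ∃ (Γ : Finset ℕ) (δ e : ℕ) (G U : MvPolynomial (Fin 3) K), (↑Γ ⊆ S) ∧ G.IsHomogeneous δ ∧
      U.IsHomogeneous e ∧ e + N ≤ δ ∧ δ ≤ Γ.card ∧ ¬ g ∣ G ∧ ¬ g ∣ U ∧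
      (Γ.card + (D ^ 2 + N - D + 2).choose 2 = (D ^ 2 + N + 2).choose 2) ∧
      ∀ T : MvPolynomial (Fin 3) K, T.IsHomogeneous Γ.card → (∀ i ∈ Γ, eval (x i) T = 0) →
        ∃ B : MvPolynomial (Fin 3) K, B.IsHomogeneous (Γ.card + e - δ) ∧
          g ∣ T * U - G * B := by
  classical
  have hD : 0 < D := by
    rcases Nat.eq_zero_or_pos D with h0 | h0
    · subst h0
      exfalso
      have h1 : g.totalDegree = 0 := Nat.le_zero.1 hg.totalDegree_le
      rw [totalDegree_eq_zero_iff_eq_C] at h1
      have h2 : coeff 0 g ≠ 0 := by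
        intro h
        rw [h, C_0] at h1
        exact hirr.ne_zero h1
      apply hirr.not_isUnit
      rw [h1]
      exact (isUnit_iff_ne_zero.2 h2).map C
    · exact h0
  set m := D + D * (D - 1) + N with hm
  obtain ⟨Γ, hΓS, -, hind, hcard⟩ := exists_basis_points hS hx hnp hg hirr hgx m
  have hDm : D ≤ m := by omega
  have hcard' := hcard hDm
  have hxΓ : ∀ i ∈ Γ, x i ≠ 0 := fun i hi => hx i (hΓS hi)
  have hgΓ : ∀ i ∈ Γ, eval (x i) g = 0 := fun i hi => hgx i (hΓS hi)
  obtain ⟨G, hGh, hGx, hGn, hGgen⟩ := exists_generators hxΓ hg hirr hD hgΓ hDm hind hcard'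
  have hpair : ∀ j, ∃ A A' : MvPolynomial (Fin 3) K, A.IsHomogeneous (D - 1) ∧
      A'.IsHomogeneous (D - 1) ∧ A ≠ 0 ∧ g ∣ G ⟨0, hD⟩ * A' - G j * A := fun j =>
    exists_pair hxΓ hg hirr hD hgΓ hDm hind hcard' (hGh ⟨0, hD⟩) (hGh j) (hGx ⟨0, hD⟩) (hGx j)
      (hGn ⟨0, hD⟩)
  choose A A' hA hA' hA0 hAA using hpair
  have hcardΓ : m + 1 ≤ Γ.card := Dim3_arith3 hD hDm hcard'
  have hmD : m = D ^ 2 + N := by
    obtain ⟨E, rfl⟩ := Nat.exists_eq_add_of_le' hD
    rw [hm, show E + Nat.succ 0 - 1 = E by omega]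
    ring
  refine ⟨Γ, m + 1, D * (D - 1), G ⟨0, hD⟩, ∏ j, A j, hΓS, hGh _, ?_, by omega, hcardΓ, hGn _,
    ?_, hmD ▸ hcard', fun T hT hTx => ?_⟩
  · have h1 := IsHomogeneous.prod Finset.univ A (fun _ => D - 1) (fun j _ => hA j)
    simpa using h1
  · intro h
    rw [Prime.dvd_finsetProd_iff hirr.prime] at h
    obtain ⟨j, -, hj⟩ := h
    exact Dim3_not_dvd hg hirr.ne_zero (hA j) (hA0 j) (by omega) hj
  · obtain ⟨t, ht⟩ := Nat.exists_eq_add_of_le hcardΓ
    have hTJ : T ∈ Ideal.span (Set.range G) ⊔ Ideal.span {g} := by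
      have h1 := castelnuovo hxΓ hind t T (by rw [← ht]; exact hT) hTx
      refine Ideal.span_le.2 ?_ h1
      rintro P ⟨hP, hPx⟩
      obtain ⟨c, Q, hQ⟩ := hGgen P hP hPx
      have h2 : P = ∑ j, C (c j) * G j + Q * g := by linear_combination hQ
      rw [h2]
      refine Submodule.add_mem_sup ?_ (Ideal.mul_mem_left _ _ (Ideal.mem_span_singleton_self g))
      exact Ideal.sum_mem _ fun j _ => Ideal.mul_mem_left _ _ (Ideal.subset_span ⟨j, rfl⟩)
    obtain ⟨P, hP, R, hR, hPR⟩ := Submodule.mem_sup.1 hTJ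
    obtain ⟨B, hB⟩ := (Ideal.mem_span_range_iff_exists_fun).1 hP
    rw [Ideal.mem_span_singleton] at hR
    set B' : MvPolynomial (Fin 3) K := ∑ j, B j * (A' j * ∏ i ∈ Finset.univ.erase j, A i) with hB'
    have hmain : g ∣ T * (∏ j, A j) - G ⟨0, hD⟩ * B' := by
      have h1 : T * (∏ j, A j) - G ⟨0, hD⟩ * B' = R * (∏ j, A j) -
          ∑ j, B j * (∏ i ∈ Finset.univ.erase j, A i) * (G ⟨0, hD⟩ * A' j - G j * A j) := by
        rw [← hPR, ← hB, hB', add_mul, Finset.sum_mul, Finset.mul_sum]
        have h2 : ∀ j, B j * G j * ∏ i, A i =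
            B j * (∏ i ∈ Finset.univ.erase j, A i) * (G j * A j) := by
          intro j
          rw [← Finset.mul_prod_erase Finset.univ A (Finset.mem_univ j)]
          ring
        rw [Finset.sum_congr rfl fun j _ => h2 j]
        simp only [mul_sub, Finset.sum_sub_distrib]
        have h3 : ∑ j, G ⟨0, hD⟩ * (B j * (A' j * ∏ i ∈ Finset.univ.erase j, A i)) =
            ∑ j, B j * (∏ i ∈ Finset.univ.erase j, A i) * (G ⟨0, hD⟩ * A' j) :=
          Finset.sum_congr rfl fun j _ => by ring
        rw [h3]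
        ring
      rw [h1]
      refine dvd_sub (hR.mul_right _) (Finset.dvd_sum fun j _ => (hAA j).mul_left _)
    have hUh : (∏ j, A j).IsHomogeneous (D * (D - 1)) := by
      have h1 := IsHomogeneous.prod Finset.univ A (fun _ => D - 1) (fun j _ => hA j)
      simpa using h1
    refine ⟨homogeneousComponent (Γ.card + D * (D - 1) - (m + 1)) B',
      homogeneousComponent_isHomogeneous _ _, ?_⟩
    have h5 := Dim3_dvd_comp hg (Γ.card + D * (D - 1)) hmain
    rw [map_sub, homogeneousComponent_of_mem (hT.mul hUh), if_pos rfl] at h5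
    have h6 := Dim3_comp_mul (B := B') (hGh ⟨0, hD⟩) (Γ.card + D * (D - 1) - (m + 1))
    rw [show Γ.card + D * (D - 1) - (m + 1) + (m + 1) = Γ.card + D * (D - 1) by omega] at h6
    rwa [h6] at h5

end den

variable {k K : Type} [Field k] [IsAlgClosed k] [Field K] [Algebra k K]

theorem sum_ht_cross_le_card (hK : IsFunctionField k K) {x : ℕ → Fin 3 → K} {S : Set ℕ}
    (hS : S.Infinite) (hx : ∀ n ∈ S, x n ≠ 0)
    (hnp : ∀ n ∈ S, ∀ n' ∈ S, n ≠ n' → ¬ PEq (x n) (x n'))
    {g : MvPolynomial (Fin 3) K} {D : ℕ} (hg : g.IsHomogeneous D) (hirr : Irreducible g)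
    (hgx : ∀ n ∈ S, eval (x n) g = 0) (N : ℕ) :
    ∃ (Γ : Finset ℕ) (C : ℤ) (E : Set ℕ), (↑Γ ⊆ S) ∧ E.Finite ∧
      (Γ.card + (D ^ 2 + N - D + 2).choose 2 = (D ^ 2 + N + 2).choose 2) ∧
      ∀ n ∈ S, n ∉ E → ∑ i ∈ Γ, ht k (crossProduct (x i) (x n)) ≤
        ((Γ.card : ℤ) - N) * ht k (x n) + C := by
  classical
  have : Infinite k := IsAlgClosed.instInfinite
  have : Infinite K := Infinite.of_injective (algebraMap k K) (algebraMap k K).injective
  obtain ⟨Γ, δ, e, G, U, hΓS, hG, hU, heN, hδ, hgG, hgU, hcardD, hT⟩ :=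
    exists_denominator_card hS hx hnp hg hirr hgx N
  -- the products of linear forms
  have hTh : ∀ a : Γ → Fin 3, (∏ i : Γ, lowL (x i) (a i)).IsHomogeneous Γ.card := by
    intro a
    have := IsHomogeneous.prod (Finset.univ : Finset Γ) (fun i : Γ => lowL (x i) (a i))
      (fun _ => 1) (fun i _ => lowL_hom _ _)
    simpa using this
  have hT0 : ∀ a : Γ → Fin 3, ∀ i ∈ Γ, eval (x i) (∏ i : Γ, lowL (x i) (a i)) = 0 := by
    intro a i hi
    rw [map_prod]
    refine Finset.prod_eq_zero (Finset.mem_univ (⟨i, hi⟩ : Γ)) ?_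
    rw [lowL_eval, cross_self]
    rfl
  choose B hB hBd using fun a => hT _ (hTh a) (hT0 a)
  -- the constant
  set c : Place k K → ℤ := fun b => ∑ a : Γ → Fin 3, max 0 (WithZero.log (gs b (B a))) with hc
  have hcs : (Function.support c).Finite := by
    have h1 : (⋃ a : Γ → Fin 3,
        Function.support fun b : Place k K => WithZero.log (gs b (B a))).Finite := by
      refine Set.finite_iUnion fun a => ?_
      by_cases h0 : B a = 0
      · rw [h0]
        simp [formHeight_zero]
      · exact formHeight_support hK h0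
    refine h1.subset fun b hb => ?_
    rw [Function.mem_support] at hb
    simp only [Set.mem_iUnion, Function.mem_support]
    by_contra hcon
    push Not at hcon
    apply hb
    rw [hc]
    exact Finset.sum_eq_zero fun a _ => by rw [hcon a, max_self]
  have hcle : ∀ b (a : Γ → Fin 3), WithZero.log (gs b (B a)) ≤ c b := by
    intro b a
    refine (le_max_right 0 _).trans ?_
    exact Finset.single_le_sum (f := fun a => max 0 (WithZero.log (gs b (B a))))
      (fun a _ => le_max_left _ _) (Finset.mem_univ a)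
  -- the exceptional set
  have hfin : ∀ {V : MvPolynomial (Fin 3) K} {t : ℕ}, V.IsHomogeneous t → ¬ g ∣ V →
      {n | n ∈ S ∧ eval (x n) V = 0}.Finite := by
    intro V t hV hgV
    have h1 := finite_common_zeros hg hV hirr hgV (fun n : S => x n) (fun n => hx n n.2)
      (fun i j hij => hnp i i.2 j j.2 fun h => hij (Subtype.ext h))
    refine (h1.image Subtype.val).subset ?_
    rintro n ⟨hn, h0⟩
    exact ⟨⟨n, hn⟩, ⟨hgx n hn, h0⟩, rfl⟩
  refine ⟨Γ, ∑ᶠ b : Place k K, c b, {n | n ∈ S ∧ eval (x n) G = 0} ∪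
    {n | n ∈ S ∧ eval (x n) U = 0} ∪ (Γ : Set ℕ), hΓS,
    ((hfin hG hgG).union (hfin hU hgU)).union (Finset.finite_toSet _), hcardD,
    fun n hn hnE => ?_⟩
  have hGn : eval (x n) G ≠ 0 := fun h => hnE (Or.inl (Or.inl ⟨hn, h⟩))
  have hUn : eval (x n) U ≠ 0 := fun h => hnE (Or.inl (Or.inr ⟨hn, h⟩))
  have hnΓ : n ∉ Γ := fun h => hnE (Or.inr h)
  have hcr : ∀ i ∈ Γ, crossProduct (x i) (x n) ≠ 0 := fun i hi =>
    cross_ne_zero (hx i (hΓS hi)) (hx n hn)
      (hnp i (hΓS hi) n hn fun h => hnΓ (h ▸ hi))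
  -- the relation at the point
  have hrel : ∀ a : Γ → Fin 3, (∏ i : Γ, crossProduct (x i) (x n) (a i)) * eval (x n) U =
      eval (x n) G * eval (x n) (B a) := by
    intro a
    obtain ⟨q, hq⟩ := hBd a
    have h1 := congrArg (eval (x n)) hq
    rw [map_sub, map_mul, map_mul, map_mul, hgx n hn, zero_mul, sub_eq_zero, map_prod] at h1
    simp only [lowL_eval] at h1
    exact h1
  -- the local estimate
  have hloc : ∀ b : Place k K, ∑ i : Γ, WithZero.log (nrm b (crossProduct (x i) (x n))) +
      WithZero.log (b.val (eval (x n) U)) ≤ WithZero.log (b.val (eval (x n) G)) + c b +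
        ((Γ.card + e - δ : ℕ) : ℤ) * WithZero.log (nrm b (x n)) := by
    intro b
    choose a ha using fun i : Γ => exists_val_eq_nrm b (crossProduct (x i) (x n))
    have hne : ∀ i : Γ, nrm b (crossProduct (x i) (x n)) ≠ 0 := fun i =>
      nrm_ne_zero (hcr i i.2)
    have h1 := congrArg b.val (hrel a)
    rw [map_mul, map_mul, map_prod] at h1
    simp only [ha] at h1
    have hU0 : b.val (eval (x n) U) ≠ 0 := by simpa using hUn
    have hG0 : b.val (eval (x n) G) ≠ 0 := by simpa using hGn
    have hP0 : ∏ i : Γ, nrm b (crossProduct (x i) (x n)) ≠ 0 :=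
      Finset.prod_ne_zero_iff.2 fun i _ => hne i
    have hB0 : b.val (eval (x n) (B a)) ≠ 0 := by
      intro h
      rw [h, mul_zero] at h1
      exact mul_ne_zero hP0 hU0 h1
    have h2 := low_val_eval_le b (hB a) (x n)
    have h3 : gs b (B a) * nrm b (x n) ^ (Γ.card + e - δ) ≠ 0 := by
      intro h
      rw [h, le_zero_iff] at h2
      exact hB0 h2
    have h4 : gs b (B a) ≠ 0 := left_ne_zero_of_mul h3
    have h5 : nrm b (x n) ^ (Γ.card + e - δ) ≠ 0 := right_ne_zero_of_mul h3
    rw [← WithZero.log_le_log hB0 h3, WithZero.log_mul h4 h5, WithZero.log_pow] at h2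
    have h6 := congrArg WithZero.log h1
    rw [WithZero.log_mul hP0 hU0, WithZero.log_mul hG0 hB0] at h6
    have h7 : WithZero.log (∏ i : Γ, nrm b (crossProduct (x i) (x n))) =
        ∑ i : Γ, WithZero.log (nrm b (crossProduct (x i) (x n))) := by
      have key : ∀ s : Finset Γ, WithZero.log (∏ i ∈ s, nrm b (crossProduct (x i) (x n))) =
          ∑ i ∈ s, WithZero.log (nrm b (crossProduct (x i) (x n))) := by
        intro s
        induction s using Finset.induction_on with
        | empty => simp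
        | insert i s hi ih =>
          rw [Finset.prod_insert hi, Finset.sum_insert hi, WithZero.log_mul (hne i)
            (Finset.prod_ne_zero_iff.2 fun j _ => hne j), ih]
      exact key _
    have h8 := hcle b a
    rw [← h7, h6]
    rw [nsmul_eq_mul] at h2
    linarith
  -- the sum over the places
  have hs1 : ∀ i : Γ, (Function.support fun b : Place k K =>
      WithZero.log (nrm b (crossProduct (x i) (x n)))).Finite := fun i =>
    nrm_support hK _ (hcr i i.2)
  have hs2 := finsum_log hK _ hUn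
  have hs3 := finsum_log hK _ hGn
  have hs4 := nrm_support hK _ (hx n hn)
  have hs1' : (Function.support fun b : Place k K =>
      ∑ i : Γ, WithZero.log (nrm b (crossProduct (x i) (x n)))).Finite := by
    refine (Set.finite_iUnion hs1).subset fun b hb => ?_
    rw [Function.mem_support] at hb
    simp only [Set.mem_iUnion, Function.mem_support]
    by_contra hcon
    push Not at hcon
    exact hb (Finset.sum_eq_zero fun i _ => hcon i)
  have hs4' : (Function.support fun b : Place k K =>
      ((Γ.card + e - δ : ℕ) : ℤ) * WithZero.log (nrm b (x n))).Finite := by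
    refine hs4.subset fun b hb => ?_
    rw [Function.mem_support] at hb ⊢
    exact right_ne_zero_of_mul hb
  have hs5 : (Function.support fun b : Place k K =>
      WithZero.log (b.val (eval (x n) G)) + c b).Finite :=
    (hs3.1.union hcs).subset (Function.support_add _ _)
  have hsum := finsum_le_finsum' ((hs1'.union hs2.1).subset (Function.support_add _ _))
    ((hs5.union hs4').subset (Function.support_add _ _)) hloc
  rw [finsum_add_distrib hs1' hs2.1, finsum_add_distrib hs5 hs4',
    finsum_add_distrib hs3.1 hcs, hs2.2, hs3.2, add_zero, zero_add, ← mul_finsum,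
    finsum_sum_comm] at hsum
  · have h9 : ∑ i ∈ Γ, ht k (crossProduct (x i) (x n)) =
        ∑ i : Γ, ht k (crossProduct (x i) (x n)) :=
      (Finset.sum_coe_sort Γ fun i => ht k (crossProduct (x i) (x n))).symm
    rw [h9]
    have h10 := low_ht_nonneg hK (hx n hn)
    have h11 : ((Γ.card + e - δ : ℕ) : ℤ) ≤ (Γ.card : ℤ) - N := by omega
    have h12 := mul_le_mul_of_nonneg_right h11 h10
    unfold ht at h12 ⊢
    linarith
  · exact fun i _ => hs1 i

end Pool.Agent.Helper63.TK

end

section

namespace Pool.Agent.Helper16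
end Pool.Agent.Helper16
namespace Pool.Agent.Helper36
end Pool.Agent.Helper36
namespace Pool.Agent.Helper30.TP
end Pool.Agent.Helper30.TP
namespace Pool.Agent.Helper63.TK
end Pool.Agent.Helper63.TK

/-!
# Orbits which meet the critical curve infinitely often: definitions
-/

set_option autoImplicit false

namespace Pool.Agent.Helper63.TS

open MvPolynomial

open Pool.Agent.Helper16 (Place IsFunctionField)

open Pool.Agent.Helper36 (step iter)

open Pool.Agent.Helper30.TP

open Pool.Agent.Helper63.TK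

section forms

variable {K : Type} [Field K]

end forms

section places

variable {k K : Type} [Field k] [Field K] [Algebra k K]

end places

section ring

variable {R : Type} [CommRing R]

/-- `π` is a uniformizer of the discrete valuation ring `R`. -/
structure Unif (π : R) : Prop where
  prime : Prime π
  unit : ∀ u : R, ¬ π ∣ u → IsUnit u
  fact : ∀ r : R, r ≠ 0 → ∃ (e : ℕ) (u : R), ¬ π ∣ u ∧ r = π ^ e * u

end ring

section chart

variable {S : Type} [CommRing S]

end chart

end Pool.Agent.Helper63.TS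

end

section

namespace Pool.Agent.Helper63.TS
end Pool.Agent.Helper63.TS
namespace Pool.Agent.Helper16
end Pool.Agent.Helper16

/-!
# Local dynamics at a place of good reduction, any dimension: definitions
-/

set_option autoImplicit false

namespace Pool.Agent.Helper89.TNL

open MvPolynomial

open Pool.Agent.Helper63.TS (Unif)

open Pool.Agent.Helper16 (Place IsFunctionField)

section ring

variable {R k : Type} [CommRing R] [Field k]

/-- `χ` is the residue map of the discrete valuation ring `R` with the uniformizer `π` and the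
coefficient field `k`. -/
structure Res [Algebra k R] (π : R) (χ : R →+* k) : Prop where
  unif : Unif π
  sec : ∀ c : k, χ (algebraMap k R c) = c
  ker : ∀ r, χ r = 0 ↔ π ∣ r

variable {ι : Type}

/-- The map `q ↦ (A i (q) / A0 (q))` maps the open polydisc to itself. -/
structure GermN (π : R) (A0 : MvPolynomial ι R) (A : ι → MvPolynomial ι R) : Prop where
  c0 : ¬ π ∣ A0.coeff 0
  c1 : ∀ i, π ∣ (A i).coeff 0

/-- An orbit of the germ in the open polydisc. -/
structure OrbN (π : R) (A0 : MvPolynomial ι R) (A : ι → MvPolynomial ι R) (p : ℕ → ι → R) :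
    Prop where
  small : ∀ j i, π ∣ p j i
  step : ∀ j i, p (j + 1) i * eval (p j) A0 = eval (p j) (A i)

/-- The linear part of the germ modulo `π` is the matrix `M`. -/
def LinN (χ : R →+* k) (A0 : MvPolynomial ι R) (A : ι → MvPolynomial ι R) (M : Matrix ι ι k) :
    Prop :=
  ∀ i j, χ ((A i).coeff (Finsupp.single j 1)) = χ (A0.coeff 0) * M i j

/-- The differences of two sequences of points tend to zero. -/
def Conv (π : R) (p q : ℕ → ι → R) : Prop :=
  ∀ I : ℕ, ∃ s₀, ∀ s, s₀ ≤ s → ∀ i, π ^ I ∣ p s i - q s i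

end ring

section exppol

variable (k : Type) [Field k]

/-- The exponential polynomials with roots in the group `G`. -/
noncomputable def EPol (G : Subgroup kˣ) : Subalgebra k (ℕ → k) :=
  Algebra.adjoin k ({fun t : ℕ => (t : k)} ∪ {f | ∃ μ ∈ G, f = fun t : ℕ => ((μ : kˣ) : k) ^ t})

variable {k}

/-- The group has no elements of finite order. -/
def TorsFree (G : Subgroup kˣ) : Prop := ∀ μ ∈ G, ∀ n : ℕ, 0 < n → μ ^ n = 1 → μ = 1

/-- The eigenvalues of the matrix belong to the group `G`. -/
def EigIn {α : Type} [Fintype α] [DecidableEq α] (G : Subgroup kˣ) (M : Matrix α α k) : Prop :=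
  ∀ μ : k, M.charpoly.IsRoot μ → ∃ u ∈ G, ((u : kˣ) : k) = μ

/-- The sequence `f` is, modulo `π ^ I` and from some time on, a polynomial in `π` whose
coefficients are exponential polynomials. -/
def EPR {R : Type} [CommRing R] [Algebra k R] (G : Subgroup kˣ) (π : R) (I : ℕ) (f : ℕ → R) :
    Prop :=
  ∃ (T : ℕ) (φ : ℕ → ℕ → k), (∀ i, φ i ∈ EPol k G) ∧
    ∀ t, T ≤ t → π ^ I ∣ f t - ∑ i ∈ Finset.range I, π ^ i * algebraMap k R (φ i t)

end exppol

section chart

variable {ν : ℕ} {S : Type} [CommRing S] {ι : Type} [Fintype ι]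

/-- The point with the coordinates `1, q i` with respect to the vectors `e none`,
`e (some i)`. -/
def ptN (e : Option ι → Fin (ν + 1) → S) (q : ι → S) : Fin (ν + 1) → S :=
  fun a => e none a + ∑ i, q i * e (some i) a

/-- The restriction of a polynomial to the chart given by the vectors `e`. -/
noncomputable def chN (e : Option ι → Fin (ν + 1) → S) (P : MvPolynomial (Fin (ν + 1)) S) :
    MvPolynomial ι S :=
  aeval (fun a => C (e none a) + ∑ i, X i * C (e (some i) a)) P

end chart

section place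

variable {ν : ℕ} {k K : Type} [Field k] [Field K] [Algebra k K]

/-- The polynomials which define the iterates of `F`. -/
noncomputable def itN (F : Fin (ν + 1) → MvPolynomial (Fin (ν + 1)) K) (N : ℕ)
    (i : Fin (ν + 1)) : MvPolynomial (Fin (ν + 1)) K :=
  (fun P => aeval F P)^[N] (X i)

end place

end Pool.Agent.Helper89.TNL

end
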