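import Pool.Agent.Helper72.TM2.T16
import Pool.Agent.Helper72.TM2.T17

section

namespace Pool.Agent.Helper16
end Pool.Agent.Helper16
namespace Pool.Agent.Helper30.TP
end Pool.Agent.Helper30.TP
namespace Pool.Agent.Helper31.RRK
end Pool.Agent.Helper31.RRK

/-!
# The differential equation near a point: contacts are bounded
-/

set_option autoImplicit false

namespace Pool.Agent.Helper63.TK

open MvPolynomial

open Pool.Agent.Helper16 (Place IsFunctionField)

open Pool.Agent.Helper30.TP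

open Pool.Agent.Helper31.RRK (ordDer)

section OdeB_aux

variable {k K : Type} [Field k] [Field K] [Algebra k K]

/-- Congruence of integral elements. -/
def OdeB_R (b : Place k K) (x y : K) : Prop := b.val x ≤ 1 ∧ b.val y ≤ 1 ∧ b.val (x - y) < 1

theorem OdeB_mul {b : Place k K} {x y x' y' : K} (h : OdeB_R b x y) (h' : OdeB_R b x' y') :
    OdeB_R b (x * x') (y * y') := by
  obtain ⟨h1, h2, h3⟩ := h
  obtain ⟨h1', h2', h3'⟩ := h'
  refine ⟨by rw [map_mul]; exact mul_le_one' h1 h1', by rw [map_mul]; exact mul_le_one' h2 h2', ?_⟩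
  have e : x * x' - y * y' = (x - y) * x' + (x' - y') * y := by ring
  rw [e]
  refine b.val.map_add_lt ?_ ?_
  · rw [map_mul]; exact mul_lt_one_of_lt_of_le h3 h1'
  · rw [map_mul]; exact mul_lt_one_of_lt_of_le h3' h2

theorem OdeB_refl {b : Place k K} {x : K} (h : b.val x ≤ 1) : OdeB_R b x x :=
  ⟨h, h, by rw [sub_self, map_zero]; exact zero_lt_one⟩

theorem OdeB_pow {b : Place k K} {x y : K} (h : OdeB_R b x y) (n : ℕ) :
    OdeB_R b (x ^ n) (y ^ n) := by
  induction n with
  | zero =>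
    rw [pow_zero, pow_zero]
    exact OdeB_refl (by rw [map_one])
  | succ n ih =>
    rw [pow_succ, pow_succ]
    exact OdeB_mul ih h

theorem OdeB_prod {ι : Type} {b : Place k K} (s : Finset ι) {f g : ι → K}
    (h : ∀ i ∈ s, OdeB_R b (f i) (g i)) : OdeB_R b (∏ i ∈ s, f i) (∏ i ∈ s, g i) := by
  classical
  induction s using Finset.induction_on with
  | empty =>
    rw [Finset.prod_empty, Finset.prod_empty]
    exact OdeB_refl (by rw [map_one])
  | insert a s ha ih =>
    rw [Finset.prod_insert ha, Finset.prod_insert ha]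
    exact OdeB_mul (h a (Finset.mem_insert_self a s))
      (ih fun i hi => h i (Finset.mem_insert_of_mem hi))

theorem OdeB_sum {ι : Type} {b : Place k K} (s : Finset ι) {f g : ι → K}
    (h : ∀ i ∈ s, OdeB_R b (f i) (g i)) : OdeB_R b (∑ i ∈ s, f i) (∑ i ∈ s, g i) := by
  refine ⟨b.val.map_sum_le fun i hi => (h i hi).1, b.val.map_sum_le fun i hi => (h i hi).2.1, ?_⟩
  rw [← Finset.sum_sub_distrib]
  exact b.val.map_sum_lt one_ne_zero fun i hi => (h i hi).2.2

/-- Values of a polynomial with integral coefficients. -/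
theorem OdeB_eval {b : Place k K} {A : MvPolynomial (Fin 3) K} (hA : gs b A ≤ 1)
    {u v : Fin 3 → K} (h : ∀ i, OdeB_R b (u i) (v i)) : OdeB_R b (eval u A) (eval v A) := by
  rw [eval_eq, eval_eq]
  refine OdeB_sum _ fun m _ => OdeB_mul (OdeB_refl ((formHeight_le b A m).trans hA)) ?_
  exact OdeB_prod _ fun i _ => OdeB_pow (h i) _

theorem OdeB_eval_unit {b : Place k K} {A : MvPolynomial (Fin 3) K} (hA : gs b A ≤ 1)
    {u v : Fin 3 → K} (h : ∀ i, OdeB_R b (u i) (v i)) (h1 : b.val (eval u A) = 1) :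
    b.val (eval v A) = 1 := by
  have h2 := (OdeB_eval hA h).2.2
  have e : eval v A = eval u A - (eval u A - eval v A) := by ring
  rw [e]
  rw [← h1] at h2
  rw [Valuation.map_sub_eq_of_lt_left _ h2, h1]

end OdeB_aux

variable {k K : Type} [Field k] [IsAlgClosed k] [Field K] [Algebra k K]

theorem OdeB_fin_gs (hK : IsFunctionField k K) (A : MvPolynomial (Fin 3) K) :
    {b : Place k K | ¬ gs b A ≤ 1}.Finite := by
  by_cases h0 : A = 0
  · subst h0
    refine Set.Finite.subset Set.finite_empty ?_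
    intro b hb
    apply hb
    rw [formHeight_zero]
    exact zero_le
  · refine (formHeight_support hK h0).subset ?_
    intro b hb h1
    apply hb
    have h2 : WithZero.log (gs b A) = 0 := h1
    have h3 : gs b A ≠ 0 := (formHeight_pos h0).ne'
    rw [← WithZero.exp_log h3, h2, WithZero.exp_zero]

theorem OdeB_fin_val (hK : IsFunctionField k K) {f : K} (hf : f ≠ 0) :
    {b : Place k K | b.val f ≠ 1}.Finite := by
  refine (finsum_log hK f hf).1.subset ?_
  intro b hb h1
  apply hb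
  have h2 : WithZero.log (b.val f) = 0 := h1
  have h3 : b.val f ≠ 0 := by simpa using hf
  rw [← WithZero.exp_log h3, h2, WithZero.exp_zero]

/-- At almost all places there are no contacts. -/
theorem ode_almost [CharZero k] (hK : IsFunctionField k K) {δ : Derivation k K K} (hδ : δ ≠ 0)
    {P : Fin 3 → K} {p j₁ j₂ : Fin 3} {e r : ℕ} {α β E H : MvPolynomial (Fin 3) K}
    {T : Set (Fin 3 → K)} (hode : Ode δ P p j₁ j₂ e r α β E H T) :
    {b : Place k K | ∃ Q ∈ T, Q ≠ 0 ∧ ¬ PEq P Q ∧ 0 < cl b P Q}.Finite := by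
  obtain ⟨cover, ne1, ne2, hP, hα, hβ, hE, hH, β0, H0, eq1, eq2⟩ := hode
  set P' : Fin 3 → K := (P p)⁻¹ • P with hP'
  have hPi : ∀ i, P' i = P i / P p := fun i => by
    rw [hP', Pi.smul_apply, smul_eq_mul, div_eq_inv_mul]
  have hP'p : P' p = 1 := by rw [hPi, div_self hP]
  have hP'0 : P' ≠ 0 := by
    intro h
    rw [h] at hP'p
    exact zero_ne_one hP'p
  have hP0 : P ≠ 0 := by
    rintro rfl
    exact hP rfl
  have hβ' : eval P' β ≠ 0 := by
    rw [hP', eval_smul_hom hβ]
    exact mul_ne_zero (pow_ne_zero _ (inv_ne_zero hP)) β0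
  have hH' : eval P' H ≠ 0 := by
    rw [hP', eval_smul_hom hH]
    exact mul_ne_zero (pow_ne_zero _ (inv_ne_zero hP)) H0
  have hfin : ({b : Place k K | nrm b P' ≠ 1} ∪ {b : Place k K | ordDer b δ ≠ 0} ∪
      {b : Place k K | ¬ gs b α ≤ 1} ∪ {b : Place k K | ¬ gs b β ≤ 1} ∪
      {b : Place k K | ¬ gs b E ≤ 1} ∪ {b : Place k K | ¬ gs b H ≤ 1} ∪
      {b : Place k K | b.val (eval P' β) ≠ 1} ∪ {b : Place k K | b.val (eval P' H) ≠ 1}).Finite := by
    refine ((((((Set.Finite.union ?_ ?_).union ?_).union ?_).union ?_).union ?_).union ?_).union ?_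
    · refine (nrm_support hK P' hP'0).subset ?_
      intro b hb h1
      apply hb
      have h2 : WithZero.log (nrm b P') = 0 := h1
      rw [← WithZero.exp_log (nrm_ne_zero hP'0), h2, WithZero.exp_zero]
    · exact Pool.Agent.Helper31.RRK.ordDer_finite hK hδ
    · exact OdeB_fin_gs hK α
    · exact OdeB_fin_gs hK β
    · exact OdeB_fin_gs hK E
    · exact OdeB_fin_gs hK H
    · exact OdeB_fin_val hK hβ'
    · exact OdeB_fin_val hK hH'
  refine hfin.subset ?_
  rintro b ⟨Q, hQT, hQ0, hPQ, hcl⟩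
  by_contra hcon
  simp only [Set.mem_union, Set.mem_ofPred_eq, not_or, not_not] at hcon
  obtain ⟨⟨⟨⟨⟨⟨⟨hn, hor⟩, hgα⟩, hgβ⟩, hgE⟩, hgH⟩, hvβ⟩, hvH⟩ := hcon
  -- the norm of `P`
  have hPn : nrm b P = b.val (P p) := by
    have h1 := nrm_smul b (P p) P'
    rw [hn, mul_one, hP', smul_smul, mul_inv_cancel₀ hP, one_smul] at h1
    exact h1
  have hcr0 := cross_ne_zero hP0 hQ0 hPQ
  have hcr : nrm b (crossProduct P Q) < nrm b P * nrm b Q := by
    rw [← WithZero.log_lt_log (nrm_ne_zero hcr0) (mul_ne_zero (nrm_ne_zero hP0) (nrm_ne_zero hQ0)),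
      WithZero.log_mul (nrm_ne_zero hP0) (nrm_ne_zero hQ0)]
    unfold cl at hcl
    omega
  have hPv : 0 < b.val (P p) := zero_lt_iff.2 (by simpa using hP)
  -- the norm of `Q`
  have hQn : nrm b Q = b.val (Q p) := by
    refine le_antisymm ?_ (val_le_nrm b Q p)
    by_contra hlt
    rw [not_le] at hlt
    obtain ⟨i, hi⟩ := exists_val_eq_nrm b Q
    have h1 : b.val (P p * Q i - P i * Q p) = b.val (P p) * nrm b Q := by
      have h2 : b.val (P i * Q p) < b.val (P p * Q i) := by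
        rw [map_mul, map_mul, hi]
        calc b.val (P i) * b.val (Q p) ≤ b.val (P p) * b.val (Q p) :=
              mul_le_mul' ((val_le_nrm b P i).trans hPn.le) le_rfl
          _ < b.val (P p) * nrm b Q := mul_lt_mul_of_pos_left hlt hPv
      rw [Valuation.map_sub_eq_of_lt_left _ h2, map_mul, hi]
    have h3 := Cl_val_pq b P Q p i
    rw [h1, ← hPn] at h3
    exact absurd h3 (not_le.2 hcr)
  have hQp : Q p ≠ 0 := by
    intro h
    apply nrm_ne_zero (b := b) hQ0
    rw [hQn, h, map_zero]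
  have hQv : 0 < b.val (Q p) := zero_lt_iff.2 (by simpa using hQp)
  set Q' : Fin 3 → K := (Q p)⁻¹ • Q with hQ'
  have hQi : ∀ i, Q' i = Q i / Q p := fun i => by
    rw [hQ', Pi.smul_apply, smul_eq_mul, div_eq_inv_mul]
  have hQ'n : nrm b Q' = 1 := by
    rw [hQ', nrm_smul, hQn, map_inv₀, inv_mul_cancel₀ hQv.ne']
  have hclose : ∀ i, b.val (Q' i - P' i) < 1 := by
    intro i
    have e : Q' i - P' i = (P p * Q i - P i * Q p) / (P p * Q p) := by
      rw [hQi, hPi]
      field_simp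
    rw [e, map_div₀, map_mul, ← hPn, ← hQn]
    have h1 := (Cl_val_pq b P Q p i).trans_lt hcr
    have h2 : 0 < nrm b P * nrm b Q :=
      mul_pos (zero_lt_iff.2 (nrm_ne_zero hP0)) (zero_lt_iff.2 (nrm_ne_zero hQ0))
    exact (div_lt_one₀ h2).2 h1
  have hR : ∀ i, OdeB_R b (P' i) (Q' i) := by
    intro i
    refine ⟨(val_le_nrm b P' i).trans hn.le, (val_le_nrm b Q' i).trans hQ'n.le, ?_⟩
    rw [Valuation.map_sub_swap]
    exact hclose i
  have hβQ : b.val (eval Q' β) = 1 := OdeB_eval_unit hgβ hR hvβ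
  have hHQ : b.val (eval Q' H) = 1 := OdeB_eval_unit hgH hR hvH
  have hαQ : b.val (eval Q' α) ≤ 1 := (OdeB_eval hgα hR).2.1
  have hEQ : b.val (eval Q' E) ≤ 1 := (OdeB_eval hgE hR).2.1
  have hQs : Q = Q p • Q' := by
    rw [hQ', smul_smul, mul_inv_cancel₀ hQp, one_smul]
  have e1 := eq1 Q hQT hQp
  have e2 := eq2 Q hQT hQp
  rw [← hQi, ← hQi, ← hPi, ← hPi] at e2
  rw [← hQi, ← hPi] at e1
  have sH : eval Q H = Q p ^ r * eval Q' H := by
    conv_lhs => rw [hQs]
    exact eval_smul_hom hH _ _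
  have sE : eval Q E = Q p ^ r * eval Q' E := by
    conv_lhs => rw [hQs]
    exact eval_smul_hom hE _ _
  have sα : eval Q α = Q p ^ e * eval Q' α := by
    conv_lhs => rw [hQs]
    exact eval_smul_hom hα _ _
  have sβ : eval Q β = Q p ^ e * eval Q' β := by
    conv_lhs => rw [hQs]
    exact eval_smul_hom hβ _ _
  have hqe : Q p ^ e ≠ 0 := pow_ne_zero _ hQp
  have hqr : Q p ^ r ≠ 0 := pow_ne_zero _ hQp
  have f1 : eval Q' H * δ (Q' j₁ - P' j₁) = eval Q' E * (Q' j₁ - P' j₁) := by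
    rw [sH, sE] at e1
    apply mul_left_cancel₀ hqr
    linear_combination e1
  have f2 : (Q' j₂ - P' j₂) * eval Q' β = - (Q' j₁ - P' j₁) * eval Q' α := by
    rw [sα, sβ] at e2
    apply mul_left_cancel₀ hqe
    linear_combination e2
  have hβQ0 : eval Q' β ≠ 0 := by
    intro h
    rw [h, map_zero] at hβQ
    exact zero_ne_one hβQ
  -- `q ≠ 0`
  have hq : Q' j₁ - P' j₁ ≠ 0 := by
    intro h
    rw [h, neg_zero, zero_mul] at f2
    have h2 : Q' j₂ - P' j₂ = 0 := (mul_eq_zero.1 f2).resolve_right hβQ0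
    apply hPQ
    have h3 : Q' = P' := by
      funext i
      rcases cover i with rfl | rfl | rfl
      · rw [hP'p, hQi, div_self hQp]
      · exact sub_eq_zero.1 h
      · exact sub_eq_zero.1 h2
    refine ⟨Q p * (P p)⁻¹, mul_ne_zero hQp (inv_ne_zero hP), ?_⟩
    rw [← smul_smul, ← hP', ← h3]
    exact hQs
  have hqlt := hclose j₁
  set q : K := Q' j₁ - P' j₁ with hqdef
  have hord : 0 < b.ord q := (b.ord_pos_iff hq).2 hqlt
  have hk : ((b.ord q : ℤ) : k) ≠ 0 := Int.cast_ne_zero.2 hord.ne'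
  obtain ⟨hδq, hoq⟩ := Pool.Agent.Helper31.RRK.ord_D_eq b hK hδ hk
  rw [hor, add_zero] at hoq
  -- the contradiction
  have h1 : b.val (δ q) ≤ b.val q := by
    have h2 := congrArg b.val f1
    rw [map_mul, map_mul, hHQ, one_mul] at h2
    rw [h2]
    calc b.val (eval Q' E) * b.val q ≤ 1 * b.val q := mul_le_mul' hEQ le_rfl
      _ = b.val q := one_mul _
  have h2 : b.ord q ≤ b.ord (δ q) := by
    rw [Place.ord, Place.ord, neg_le_neg_iff]
    exact (WithZero.log_le_log (by simpa using hδq) (by simpa using hq)).2 h1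
  omega

end Pool.Agent.Helper63.TK

end

section

namespace Pool.Agent.Helper16
end Pool.Agent.Helper16
namespace Pool.Agent.Helper30.TP
end Pool.Agent.Helper30.TP
namespace Pool.Agent.Helper31.RRK
end Pool.Agent.Helper31.RRK

/-!
# The differential equation near a point: contacts at one place are bounded
-/

set_option autoImplicit false

namespace Pool.Agent.Helper63.TK

open MvPolynomial

open Pool.Agent.Helper16 (Place IsFunctionField)

open Pool.Agent.Helper30.TP

open Pool.Agent.Helper31.RRK (ordDer)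

section aux

variable {k K : Type} [Field k] [Field K] [Algebra k K]

/-- Polynomials are Lipschitz near a point. -/
theorem odeC_lip (b : Place k K) (P : Fin 3 → K) (G : MvPolynomial (Fin 3) K) :
    ∃ c : WithZero (Multiplicative ℤ), ∀ Q : Fin 3 → K, (∀ i, b.val (Q i - P i) ≤ 1) →
      ∀ θ : WithZero (Multiplicative ℤ), (∀ i, b.val (Q i - P i) ≤ θ) →
        b.val (eval Q G - eval P G) ≤ c * θ := by
  induction G using MvPolynomial.induction_on with
  | C a => exact ⟨0, fun Q _ θ _ => by simp⟩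
  | add p q hp hq =>
    obtain ⟨c1, h1⟩ := hp
    obtain ⟨c2, h2⟩ := hq
    refine ⟨max c1 c2, fun Q hQ θ hθ => ?_⟩
    rw [map_add, map_add, add_sub_add_comm]
    refine (b.val.map_add _ _).trans (max_le ?_ ?_)
    · exact (h1 Q hQ θ hθ).trans (mul_le_mul' (le_max_left _ _) le_rfl)
    · exact (h2 Q hQ θ hθ).trans (mul_le_mul' (le_max_right _ _) le_rfl)
  | mul_X p i hp =>
    obtain ⟨c, h⟩ := hp
    refine ⟨max (c * max (b.val (P i)) 1) (b.val (eval P p)), fun Q hQ θ hθ => ?_⟩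
    have e1 : eval Q (p * X i) - eval P (p * X i) =
        (eval Q p - eval P p) * Q i + eval P p * (Q i - P i) := by
      simp only [map_mul, eval_X]
      ring
    rw [e1]
    refine (b.val.map_add _ _).trans (max_le ?_ ?_)
    · rw [map_mul]
      have h1 : b.val (Q i) ≤ max (b.val (P i)) 1 := by
        have h2 : Q i = P i + (Q i - P i) := by ring
        rw [h2]
        exact (b.val.map_add _ _).trans (max_le_max le_rfl (hQ i))
      calc b.val (eval Q p - eval P p) * b.val (Q i)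
          ≤ (c * θ) * max (b.val (P i)) 1 := mul_le_mul' (h Q hQ θ hθ) h1
        _ = (c * max (b.val (P i)) 1) * θ := mul_right_comm _ _ _
        _ ≤ _ := mul_le_mul' (le_max_left _ _) le_rfl
    · rw [map_mul]
      exact mul_le_mul' (le_max_right _ _) (hθ i)

theorem odeC_small (a t : WithZero (Multiplicative ℤ)) (ht : t ≠ 0) :
    ∃ θ : WithZero (Multiplicative ℤ), θ ≠ 0 ∧ ∀ θ' ≤ θ, a * θ' < t := by
  by_cases ha : a = 0
  · exact ⟨1, one_ne_zero, fun θ' _ => by rw [ha, zero_mul]; exact zero_lt_iff.2 ht⟩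
  · refine ⟨WithZero.exp (WithZero.log t - WithZero.log a - 1), WithZero.exp_ne_zero,
      fun θ' h => ?_⟩
    refine lt_of_le_of_lt (mul_le_mul' le_rfl h) ?_
    have h1 : a * WithZero.exp (WithZero.log t - WithZero.log a - 1) =
        WithZero.exp (WithZero.log t - 1) := by
      conv_lhs => rw [← WithZero.exp_log ha]
      rw [← WithZero.exp_add, WithZero.log_exp]
      congr 1
      ring
    rw [h1]
    conv_rhs => rw [← WithZero.exp_log ht]
    rw [WithZero.exp_lt_exp]
    omega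

theorem odeC_cl_smul (b : Place k K) {x y : Fin 3 → K} (hx : x ≠ 0) (hy : y ≠ 0)
    (h : ¬ PEq x y) {c d : K} (hc : c ≠ 0) (hd : d ≠ 0) : cl b (c • x) (d • y) = cl b x y := by
  have hxy := cross_ne_zero hx hy h
  have l1 := log_nrm_smul b hc hx
  have l2 := log_nrm_smul b hd hy
  have h3 : crossProduct (c • x) (d • y) = (c * d) • crossProduct x y := by
    rw [map_smul (crossProduct (c • x)) d y, map_smul crossProduct c x, LinearMap.smul_apply,
      smul_smul, mul_comm]
  have l3 := log_nrm_smul b (mul_ne_zero hc hd) hxy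
  rw [map_mul, WithZero.log_mul (by simpa using hc) (by simpa using hd)] at l3
  unfold cl
  rw [h3, l1, l2, l3]
  ring

theorem odeC_peq_smul {x y : Fin 3 → K} (h : ¬ PEq x y) {c d : K} (hc : c ≠ 0) (hd : d ≠ 0) :
    ¬ PEq (c • x) (d • y) := by
  rintro ⟨a, ha, h1⟩
  apply h
  refine ⟨d⁻¹ * a * c, mul_ne_zero (mul_ne_zero (inv_ne_zero hd) ha) hc, ?_⟩
  have h2 := congrArg (fun z => d⁻¹ • z) h1
  simp only [smul_smul] at h2
  rw [inv_mul_cancel₀ hd, one_smul] at h2
  rw [h2, mul_assoc]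

theorem odeC_one_le {b : Place k K} {P : Fin 3 → K} {p : Fin 3} (hP : P p = 1) :
    0 ≤ WithZero.log (nrm b P) := by
  have h1 : (1 : WithZero (Multiplicative ℤ)) ≤ nrm b P := by
    have := val_le_nrm b P p
    rwa [hP, map_one] at this
  rw [← WithZero.log_one, WithZero.log_le_log one_ne_zero (lt_of_lt_of_le zero_lt_one h1).ne']
  exact h1

/-- The case of a vanishing coordinate. -/
theorem odeC_inf (b : Place k K) {P Q : Fin 3 → K} {p : Fin 3} (hP : P p = 1) (hQ : Q p = 0)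
    (hQ0 : Q ≠ 0) (h : ¬ PEq P Q) : cl b P Q ≤ WithZero.log (nrm b P) := by
  have hP0 : P ≠ 0 := by
    rintro rfl
    exact zero_ne_one hP
  have h1 : nrm b Q ≤ nrm b (crossProduct P Q) := by
    refine nrm_le fun i => ?_
    have := Cl_val_pq b P Q p i
    rwa [hP, hQ, one_mul, mul_zero, sub_zero] at this
  have h2 : WithZero.log (nrm b Q) ≤ WithZero.log (nrm b (crossProduct P Q)) := by
    rwa [WithZero.log_le_log (nrm_ne_zero hQ0) (nrm_ne_zero (cross_ne_zero hP0 hQ0 h))]
  unfold cl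
  omega

/-- Points with a large contact are close. -/
theorem odeC_bd (b : Place k K) {P Q : Fin 3 → K} {p : Fin 3} (hP : P p = 1) (hQ : Q p = 1)
    (h : ¬ PEq P Q) {θ : WithZero (Multiplicative ℤ)} (hθ0 : θ ≠ 0) (hθ1 : θ ≤ 1)
    (hm : 2 * WithZero.log (nrm b P) - WithZero.log θ < cl b P Q) :
    (∀ i, b.val (Q i - P i) ≤ θ) ∧ ∀ i, Q i - P i ≠ 0 →
      cl b P Q ≤ 2 * WithZero.log (nrm b P) - WithZero.log (b.val (Q i - P i)) := by
  have hP0 : P ≠ 0 := by
    rintro rfl
    exact zero_ne_one hP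
  have hQ0 : Q ≠ 0 := by
    rintro rfl
    exact zero_ne_one hQ
  have hx := cross_ne_zero hP0 hQ0 h
  have hsub : Q - P ≠ 0 := by
    intro h0
    apply h
    have : Q = P := sub_eq_zero.1 h0
    rw [this]
    exact PEq.refl P
  have e0 := nrm_ne_zero (b := b) hsub
  have hρ := odeC_one_le (b := b) hP
  have hθl : WithZero.log θ ≤ 0 := by
    rw [← WithZero.log_one, WithZero.log_le_log hθ0 one_ne_zero]
    exact hθ1
  -- the cross product is at least the difference
  have h1 : nrm b (Q - P) ≤ nrm b (crossProduct P Q) := by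
    refine nrm_le fun i => ?_
    have := Cl_val_pq b P Q p i
    rwa [hP, hQ, one_mul, mul_one] at this
  have h2 : WithZero.log (nrm b (Q - P)) ≤ WithZero.log (nrm b (crossProduct P Q)) := by
    rwa [WithZero.log_le_log e0 (nrm_ne_zero hx)]
  have h3 : nrm b Q ≤ max (nrm b P) (nrm b (Q - P)) := by
    refine nrm_le fun i => ?_
    have h4 : Q i = P i + (Q - P) i := by
      rw [Pi.sub_apply]
      ring
    rw [h4]
    exact (b.val.map_add _ _).trans (max_le_max (val_le_nrm b P i) (val_le_nrm b (Q - P) i))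
  have h5 : cl b P Q ≤ WithZero.log (nrm b P) + WithZero.log (nrm b Q) -
      WithZero.log (nrm b (Q - P)) := by
    unfold cl
    omega
  have h6 : WithZero.log (nrm b (Q - P)) ≤ WithZero.log θ := by
    by_contra hc
    rw [not_le] at hc
    rcases le_max_iff.1 h3 with h7 | h7
    · have h8 : WithZero.log (nrm b Q) ≤ WithZero.log (nrm b P) := by
        rwa [WithZero.log_le_log (nrm_ne_zero hQ0) (nrm_ne_zero hP0)]
      omega
    · have h8 : WithZero.log (nrm b Q) ≤ WithZero.log (nrm b (Q - P)) := by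
        rwa [WithZero.log_le_log (nrm_ne_zero hQ0) e0]
      omega
  have h7 : nrm b (Q - P) ≤ θ := by
    rwa [WithZero.log_le_log e0 hθ0] at h6
  have h8 : WithZero.log (nrm b Q) ≤ WithZero.log (nrm b P) := by
    have h9 : nrm b (Q - P) ≤ nrm b P := by
      refine (h7.trans hθ1).trans ?_
      rwa [← WithZero.log_le_log one_ne_zero (nrm_ne_zero hP0), WithZero.log_one]
    rw [WithZero.log_le_log (nrm_ne_zero hQ0) (nrm_ne_zero hP0)]
    exact h3.trans (max_le le_rfl h9)
  refine ⟨fun i => (val_le_nrm b (Q - P) i).trans h7, fun i hi => ?_⟩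
  have h10 : WithZero.log (b.val (Q i - P i)) ≤ WithZero.log (nrm b (Q - P)) := by
    rw [WithZero.log_le_log (by simpa using hi) e0]
    exact val_le_nrm b (Q - P) i
  omega

/-- The logarithmic derivative of a quotient. -/
theorem odeC_logder (δ : Derivation k K K) {x y : K} (hx : x ≠ 0) (hy : y ≠ 0) :
    δ (x / y) / (x / y) = δ x / x - δ y / y := by
  rw [div_eq_mul_inv x y, Derivation.leibniz, Derivation.leibniz_inv]
  simp only [smul_eq_mul]
  field_simp
  ring

/-- A quotient near a point. -/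
theorem odeC_quot {b : Place k K} {x y x0 y0 : K} {cE cH θ : WithZero (Multiplicative ℤ)}
    (h0 : y0 ≠ 0) (hx : b.val (x - x0) ≤ cE * θ) (hy : b.val (y - y0) ≤ cH * θ)
    (hlt : cH * θ < b.val y0) :
    y ≠ 0 ∧ b.val (x / y - x0 / y0) ≤
      max (cE * b.val y0) (b.val x0 * cH) * (b.val y0 * b.val y0)⁻¹ * θ := by
  have hv : b.val y = b.val y0 := Valuation.map_eq_of_sub_lt _ (lt_of_le_of_lt hy hlt)
  have hy0 : b.val y0 ≠ 0 := by simpa using h0
  have hy1 : y ≠ 0 := by
    intro h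
    rw [h, map_zero] at hv
    exact hy0 hv.symm
  refine ⟨hy1, ?_⟩
  have e1 : x / y - x0 / y0 = ((x - x0) * y0 - x0 * (y - y0)) * (y * y0)⁻¹ := by
    field_simp
    ring
  rw [e1, map_mul, map_inv₀, map_mul, hv]
  have h1 : b.val ((x - x0) * y0 - x0 * (y - y0)) ≤
      max (cE * b.val y0) (b.val x0 * cH) * θ := by
    refine (b.val.map_sub _ _).trans (max_le ?_ ?_)
    · rw [map_mul]
      calc b.val (x - x0) * b.val y0 ≤ (cE * θ) * b.val y0 := mul_le_mul' hx le_rfl
        _ = (cE * b.val y0) * θ := mul_right_comm _ _ _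
        _ ≤ _ := mul_le_mul' (le_max_left _ _) le_rfl
    · rw [map_mul]
      calc b.val x0 * b.val (y - y0) ≤ b.val x0 * (cH * θ) := mul_le_mul' le_rfl hy
        _ = (b.val x0 * cH) * θ := (mul_assoc _ _ _).symm
        _ ≤ _ := mul_le_mul' (le_max_right _ _) le_rfl
  calc b.val ((x - x0) * y0 - x0 * (y - y0)) * (b.val y0 * b.val y0)⁻¹
      ≤ (max (cE * b.val y0) (b.val x0 * cH) * θ) * (b.val y0 * b.val y0)⁻¹ :=
        mul_le_mul' h1 le_rfl
    _ = _ := mul_right_comm _ _ _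

end aux

variable {k K : Type} [Field k] [IsAlgClosed k] [Field K] [Algebra k K]

/-- Elements with nearly the same logarithmic derivative have the same value. -/
theorem odeC_val_eq [CharZero k] (hK : IsFunctionField k K) {δ : Derivation k K K} (hδ : δ ≠ 0)
    (b : Place k K) {x y R : K} (hx : x ≠ 0) (hy : y ≠ 0)
    (h1 : b.val (δ x / x - R) < WithZero.exp (1 - ordDer b δ))
    (h2 : b.val (δ y / y - R) < WithZero.exp (1 - ordDer b δ)) : b.val x = b.val y := by
  by_contra hne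
  have hx0 : b.val x ≠ 0 := by simpa using hx
  have hy0 : b.val y ≠ 0 := by simpa using hy
  have hr : x / y ≠ 0 := div_ne_zero hx hy
  have hr0 : b.val (x / y) ≠ 0 := by simpa using hr
  have ho : b.ord (x / y) ≠ 0 := by
    intro h0
    apply hne
    have h3 : WithZero.log (b.val (x / y)) = 0 := by
      have : -WithZero.log (b.val (x / y)) = 0 := h0
      omega
    have h4 : b.val (x / y) = 1 := by
      rw [← WithZero.exp_log hr0, h3, WithZero.exp_zero]
    rw [map_div₀] at h4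
    exact (div_eq_one_iff_eq hy0).1 h4
  obtain ⟨h3, h4⟩ := Pool.Agent.Helper31.RRK.ord_D_eq b hK hδ (x := x / y)
    (by exact_mod_cast ho)
  have h5 : b.val (δ (x / y) / (x / y)) = WithZero.exp (1 - ordDer b δ) := by
    have h6 : b.val (δ (x / y) / (x / y)) ≠ 0 := by
      simpa using ⟨h3, by simpa using hr⟩
    rw [← WithZero.exp_log h6, map_div₀, WithZero.log_div (by simpa using h3) hr0]
    congr 1
    have h7 : -WithZero.log (b.val (δ (x / y))) = -WithZero.log (b.val (x / y)) - 1 +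
        ordDer b δ := h4
    omega
  have h6 : δ (x / y) / (x / y) = (δ x / x - R) - (δ y / y - R) := by
    rw [odeC_logder δ hx hy]
    ring
  have h7 : b.val (δ (x / y) / (x / y)) < WithZero.exp (1 - ordDer b δ) := by
    rw [h6]
    exact (b.val.map_sub _ _).trans_lt (max_lt h1 h2)
  rw [h5] at h7
  exact lt_irrefl _ h7

/-- At every place the contacts are bounded. -/
theorem ode_bounded [CharZero k] (hK : IsFunctionField k K) {δ : Derivation k K K} (hδ : δ ≠ 0)
    {P : Fin 3 → K} {p j₁ j₂ : Fin 3} {e r : ℕ} {α β E H : MvPolynomial (Fin 3) K}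
    {T : Set (Fin 3 → K)} (hode : Ode δ P p j₁ j₂ e r α β E H T) (b : Place k K) :
    ∃ C : ℤ, ∀ Q ∈ T, Q ≠ 0 → ¬ PEq P Q → cl b P Q ≤ C := by
  have hPp := hode.hP
  have hP0 : P ≠ 0 := by
    rintro rfl
    exact hPp rfl
  set P0 : Fin 3 → K := (P p)⁻¹ • P with hP0d
  have hP1 : P0 p = 1 := by
    rw [hP0d, Pi.smul_apply, smul_eq_mul, inv_mul_cancel₀ hPp]
  have hH0 : eval P0 H ≠ 0 := by
    rw [hP0d, eval_smul_hom hode.hH]
    exact mul_ne_zero (pow_ne_zero _ (inv_ne_zero hPp)) hode.H0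
  have hβ0 : eval P0 β ≠ 0 := by
    rw [hP0d, eval_smul_hom hode.hβ]
    exact mul_ne_zero (pow_ne_zero _ (inv_ne_zero hPp)) hode.β0
  obtain ⟨cH, hcH⟩ := odeC_lip b P0 H
  obtain ⟨cE, hcE⟩ := odeC_lip b P0 E
  obtain ⟨cβ, hcβ⟩ := odeC_lip b P0 β
  obtain ⟨θ1, t1, s1⟩ := odeC_small cH (b.val (eval P0 H)) (by simpa using hH0)
  obtain ⟨θ2, t2, s2⟩ := odeC_small cβ (b.val (eval P0 β)) (by simpa using hβ0)
  obtain ⟨θ3, t3, s3⟩ := odeC_small (max (cE * b.val (eval P0 H)) (b.val (eval P0 E) * cH) *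
    (b.val (eval P0 H) * b.val (eval P0 H))⁻¹) (WithZero.exp (1 - ordDer b δ))
    WithZero.exp_ne_zero
  obtain ⟨θ, hθ⟩ : ∃ θ, θ = min (min θ1 θ2) (min θ3 1) := ⟨_, rfl⟩
  have hθ0 : θ ≠ 0 := by
    rw [hθ]
    have : (0 : WithZero (Multiplicative ℤ)) < min (min θ1 θ2) (min θ3 1) :=
      lt_min (lt_min (zero_lt_iff.2 t1) (zero_lt_iff.2 t2))
        (lt_min (zero_lt_iff.2 t3) zero_lt_one)
    exact this.ne'
  have hθ1 : θ ≤ 1 := by
    rw [hθ]
    exact (min_le_right _ _).trans (min_le_right _ _)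
  have hs1 : cH * θ < b.val (eval P0 H) :=
    s1 θ (by rw [hθ]; exact (min_le_left _ _).trans (min_le_left _ _))
  have hs2 : cβ * θ < b.val (eval P0 β) :=
    s2 θ (by rw [hθ]; exact (min_le_left _ _).trans (min_le_right _ _))
  have hs3 := s3 θ (by rw [hθ]; exact (min_le_right _ _).trans (min_le_left _ _))
  set L : ℤ := WithZero.log (nrm b P0) with hL
  have hL0 : 0 ≤ L := odeC_one_le hP1
  have hθl : WithZero.log θ ≤ 0 := by
    rw [← WithZero.log_one, WithZero.log_le_log hθ0 one_ne_zero]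
    exact hθ1
  set M0 : ℤ := 2 * L - WithZero.log θ with hM0
  -- one point of large contact
  have key : ∀ Q ∈ T, Q ≠ 0 → ¬ PEq P Q → M0 < cl b P Q → ∃ q : K, q ≠ 0 ∧
      b.val (δ q / q - eval P0 E / eval P0 H) < WithZero.exp (1 - ordDer b δ) ∧
      cl b P Q ≤ 2 * L - WithZero.log (b.val q) := by
    intro Q hQT hQ0 hPQ hm
    have hQp : Q p ≠ 0 := by
      intro h0
      have h1 := odeC_inf b (P := P0) (Q := Q) hP1 h0 hQ0 (by
        have := odeC_peq_smul hPQ (inv_ne_zero hPp) (one_ne_zero (α := K))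
        rwa [one_smul] at this)
      have h2 := odeC_cl_smul b hP0 hQ0 hPQ (inv_ne_zero hPp) (one_ne_zero (α := K))
      rw [one_smul] at h2
      rw [← hP0d] at h2
      rw [h2] at h1
      omega
    set Q0 : Fin 3 → K := (Q p)⁻¹ • Q with hQ0d
    have hQ1 : Q0 p = 1 := by
      rw [hQ0d, Pi.smul_apply, smul_eq_mul, inv_mul_cancel₀ hQp]
    have hPQ0 : ¬ PEq P0 Q0 := odeC_peq_smul hPQ (inv_ne_zero hPp) (inv_ne_zero hQp)
    have hcl : cl b P0 Q0 = cl b P Q :=
      odeC_cl_smul b hP0 hQ0 hPQ (inv_ne_zero hPp) (inv_ne_zero hQp)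
    obtain ⟨b1, b2⟩ := odeC_bd b hP1 hQ1 hPQ0 hθ0 hθ1 (by rw [hcl]; exact hm)
    have b3 : ∀ i, b.val (Q0 i - P0 i) ≤ 1 := fun i => (b1 i).trans hθ1
    have dif : ∀ j, Q j / Q p - P j / P p = Q0 j - P0 j := by
      intro j
      rw [hQ0d, hP0d, Pi.smul_apply, Pi.smul_apply, smul_eq_mul, smul_eq_mul, div_eq_inv_mul,
        div_eq_inv_mul]
    -- the value of β
    have hβQ : eval Q0 β ≠ 0 := by
      intro h0
      have h1 := lt_of_le_of_lt (hcβ Q0 b3 θ b1) hs2
      rw [h0, zero_sub, Valuation.map_neg] at h1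
      exact lt_irrefl _ h1
    have scale : ∀ {G : MvPolynomial (Fin 3) K} {n : ℕ}, G.IsHomogeneous n →
        eval Q G = Q p ^ n * eval Q0 G := by
      intro G n hG
      rw [hQ0d, eval_smul_hom hG, inv_pow, ← mul_assoc, mul_inv_cancel₀ (pow_ne_zero _ hQp),
        one_mul]
    have eq2 : (Q0 j₂ - P0 j₂) * eval Q0 β = - (Q0 j₁ - P0 j₁) * eval Q0 α := by
      have h1 := hode.eq2 Q hQT hQp
      rw [dif, dif, scale hode.hβ, scale hode.hα] at h1
      have h2 : Q p ^ e ≠ 0 := pow_ne_zero _ hQp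
      apply mul_left_cancel₀ h2
      linear_combination h1
    have eq1 : eval Q0 H * δ (Q0 j₁ - P0 j₁) = eval Q0 E * (Q0 j₁ - P0 j₁) := by
      have h1 := hode.eq1 Q hQT hQp
      rw [dif, scale hode.hH, scale hode.hE] at h1
      have h2 : Q p ^ r ≠ 0 := pow_ne_zero _ hQp
      apply mul_left_cancel₀ h2
      linear_combination h1
    have hq : Q0 j₁ - P0 j₁ ≠ 0 := by
      intro h0
      rw [h0, neg_zero, zero_mul, mul_eq_zero, or_iff_left hβQ] at eq2
      apply hPQ0
      have : Q0 = P0 := by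
        funext i
        rcases hode.cover i with rfl | rfl | rfl
        · rw [hQ1, hP1]
        · exact sub_eq_zero.1 h0
        · exact sub_eq_zero.1 eq2
      rw [this]
      exact PEq.refl P0
    obtain ⟨hHQ, hq2⟩ := odeC_quot (b := b) (x := eval Q0 E) (y := eval Q0 H) hH0
      (hcE Q0 b3 θ b1) (hcH Q0 b3 θ b1) hs1
    refine ⟨Q0 j₁ - P0 j₁, hq, ?_, ?_⟩
    · have h1 : δ (Q0 j₁ - P0 j₁) / (Q0 j₁ - P0 j₁) = eval Q0 E / eval Q0 H := by
        rw [div_eq_div_iff hq hHQ]
        linear_combination eq1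
      rw [h1]
      exact lt_of_le_of_lt hq2 hs3
    · have h1 := b2 j₁ hq
      rw [hcl] at h1
      exact h1
  by_cases hex : ∃ Q ∈ T, Q ≠ 0 ∧ ¬ PEq P Q ∧ M0 < cl b P Q
  · obtain ⟨Q1, hQT, hQ0, hPQ, hm⟩ := hex
    obtain ⟨q1, hq1, hl1, -⟩ := key Q1 hQT hQ0 hPQ hm
    refine ⟨max M0 (2 * L - WithZero.log (b.val q1)), fun Q hQT' hQ0' hPQ' => ?_⟩
    by_cases hm' : M0 < cl b P Q
    · obtain ⟨q, hq, hl, hle⟩ := key Q hQT' hQ0' hPQ' hm'
      rw [odeC_val_eq hK hδ b hq hq1 hl hl1] at hle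
      exact hle.trans (le_max_right _ _)
    · exact (not_lt.1 hm').trans (le_max_left _ _)
  · refine ⟨M0, fun Q hQT hQ0 hPQ => ?_⟩
    by_contra hc
    exact hex ⟨Q, hQT, hQ0, hPQ, not_le.1 hc⟩

end Pool.Agent.Helper63.TK

end
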