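import Pool.Agent.Helper72.TM2.T21
import Pool.Agent.Helper72.TM2.T18
import Pool.Agent.Helper72.TM2.T20
import Pool.Agent.Helper72.TM2.T08
import Pool.Agent.Helper72.TM2.T13
import Pool.Agent.Helper72.TM2.T10

section

namespace Pool.Agent.Helper16
end Pool.Agent.Helper16
namespace Pool.Agent.Helper36
end Pool.Agent.Helper36
namespace Pool.Agent.Helper30.TP
end Pool.Agent.Helper30.TP

/-!
# The case of a differential equation
-/

set_option autoImplicit false

namespace Pool.Agent.Helper63.TK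

open MvPolynomial

open Pool.Agent.Helper16 (Place IsFunctionField)

open Pool.Agent.Helper36 (step iter iter_zero iter_succ iter_succ' iter_add iter_map)

open Pool.Agent.Helper30.TP

variable {k K : Type} [Field k] [IsAlgClosed k] [Field K] [Algebra k K]

/-- A bound for the contacts with a fixed point, when the points satisfy a regular differential
equation. -/
theorem ode_contact [CharZero k] (hK : IsFunctionField k K) {δ : Derivation k K K} (hδ : δ ≠ 0)
    {P : Fin 3 → K} (hP : P ≠ 0) {p j₁ j₂ : Fin 3} {e r : ℕ}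
    {α β E H : MvPolynomial (Fin 3) K}
    {T : Set (Fin 3 → K)} (hode : Ode δ P p j₁ j₂ e r α β E H T) :
    ∃ C : ℤ, ∀ Q ∈ T, Q ≠ 0 → ¬ PEq P Q →
      ht k P + ht k Q - ht k (crossProduct P Q) ≤ C := by
  classical
  set B : Set (Place k K) := {b : Place k K | ∃ Q ∈ T, Q ≠ 0 ∧ ¬ PEq P Q ∧ 0 < cl b P Q} with hB
  have hBfin : B.Finite := ode_almost hK hδ hode
  choose c hc using ode_bounded hK hδ hode
  set c' : Place k K → ℤ := fun b => Set.indicator B (fun b => max 0 (c b)) b with hc'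
  refine ⟨∑ᶠ b, c' b, fun Q hQT hQ hPQ => ?_⟩
  rw [← finsum_cl hK hP hQ hPQ]
  refine finsum_le_finsum' (cl_support hK hP hQ hPQ) ?_ fun b => ?_
  · refine hBfin.subset fun b hb => ?_
    by_contra hcon
    apply hb
    simp only [hc', Set.indicator_of_notMem hcon]
  · by_cases hbB : b ∈ B
    · simp only [hc', Set.indicator_of_mem hbB]
      exact (hc b Q hQT hQ hPQ).trans (le_max_right _ _)
    · simp only [hc', Set.indicator_of_notMem hbB]
      by_contra hcon
      exact hbB ⟨Q, hQT, hQ, hPQ, not_le.1 hcon⟩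

end Pool.Agent.Helper63.TK

end

section

namespace Pool.Agent.Helper16
end Pool.Agent.Helper16
namespace Pool.Agent.Helper30.TP
end Pool.Agent.Helper30.TP
namespace Pool.Agent.Helper63.TK
end Pool.Agent.Helper63.TK

set_option autoImplicit false

namespace Pool.Agent.Helper30.TK

open MvPolynomial

open Pool.Agent.Helper16 (Place IsFunctionField)

open Pool.Agent.Helper30.TP

open Pool.Agent.Helper63.TK

variable {k K : Type} [Field k] [IsAlgClosed k] [Field K] [Algebra k K]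

/-- Infinitely many solutions of a regular differential equation have bounded heights. -/
theorem ode_false [CharZero k] [CharZero K] (hK : IsFunctionField k K)
    {δ : Derivation k K K} (hδ : δ ≠ 0) {x : ℕ → Fin 3 → K} {S : Set ℕ} (hS : S.Infinite)
    (hx : ∀ n ∈ S, x n ≠ 0) (hnp : ∀ n ∈ S, ∀ n' ∈ S, n ≠ n' → ¬ PEq (x n) (x n'))
    {g : MvPolynomial (Fin 3) K} {D : ℕ} (hg : g.IsHomogeneous D) (hirr : Irreducible g)
    (hgx : ∀ n ∈ S, eval (x n) g = 0) (hht : ∀ B : ℤ, {n | n ∈ S ∧ ht k (x n) ≤ B}.Finite)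
    {u : ℕ} {U : MvPolynomial (Fin 3) K}
    (hU : U.IsHomogeneous u) {A : Fin 3 → Fin 3 → MvPolynomial (Fin 3) K}
    (hA : ∀ i j, (A i j).IsHomogeneous (u + 2)) (hgU : ¬ g ∣ U)
    (hrel : ∀ n ∈ S, ∀ i j, eval (x n) U * wr δ i j (x n) = eval (x n) (A i j)) : False := by
  classical
  have hsing := finite_singular hx hnp hg hirr hgx hU hgU
  set S' : Set ℕ := S \ {n | n ∈ S ∧ (eval (x n) U = 0 ∨
    ∀ j, eval (x n) (pderiv j g) = 0)} with hS'
  have hS'inf : S'.Infinite := hS.sdiff hsing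
  have hSS : ∀ n ∈ S', n ∈ S := fun n hn => hn.1
  obtain ⟨Γ, C, E, hΓS, hE, hlow⟩ := sum_ht_cross_le hK hS'inf (fun n hn => hx n hn.1)
    (fun n hn n' hn' h => hnp n hn.1 n' hn'.1 h) hg hirr (fun n hn => hgx n hn.1) 1
  have hmem : ∀ n ∈ S', eval (x n) U ≠ 0 ∧ ∃ j, eval (x n) (pderiv j g) ≠ 0 := by
    intro n hn
    have h1 : ¬ (eval (x n) U = 0 ∨ ∀ j, eval (x n) (pderiv j g) = 0) :=
      fun h => hn.2 ⟨hn.1, h⟩
    push Not at h1
    exact h1
  have hbd : ∀ i ∈ Γ, ∃ Ci : ℤ, ∀ n ∈ S', n ≠ i →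
      ht k (x i) + ht k (x n) - ht k (crossProduct (x i) (x n)) ≤ Ci := by
    intro i hi
    have hiS := hΓS hi
    obtain ⟨hUi, hsm⟩ := hmem i hiS
    obtain ⟨p, j₁, j₂, e, r, α, β, E', H, hode⟩ := exists_ode δ (hx i (hSS i hiS)) hg
      (hgx i (hSS i hiS)) hsm hU hA hUi (hrel i (hSS i hiS))
    obtain ⟨Ci, hCi⟩ := ode_contact hK hδ (hx i (hSS i hiS)) hode
    exact ⟨Ci, fun n hn hni => hCi _ ⟨hgx n hn.1, (hmem n hn).1, hrel n hn.1⟩ (hx n hn.1)
      (hnp i (hSS i hiS) n hn.1 hni.symm)⟩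
  choose! Ci hCi using hbd
  set M : ℤ := ∑ i ∈ Γ, Ci i + C - ∑ i ∈ Γ, ht k (x i) with hM
  obtain ⟨n, hnS, hn⟩ := (hS'inf.sdiff ((hE.union Γ.finite_toSet).union (hht M))).nonempty
  rw [Set.mem_union, Set.mem_union, not_or, not_or] at hn
  obtain ⟨⟨hnE, hnΓ⟩, hnM⟩ := hn
  apply hnM
  refine ⟨hnS.1, ?_⟩
  have h1 := hlow n hnS hnE
  have h2 : ∑ i ∈ Γ, (ht k (x i) + ht k (x n) -
      ht k (crossProduct (x i) (x n))) ≤ ∑ i ∈ Γ, Ci i :=
    Finset.sum_le_sum fun i hi => hCi i hi n hnS (fun h => hnΓ (h ▸ hi))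
  rw [Finset.sum_sub_distrib, Finset.sum_add_distrib, Finset.sum_const, nsmul_eq_mul] at h2
  push_cast at h1
  rw [hM]
  linarith

/-- The truncated count when there is no differential equation. -/
theorem trunc_alpha [CharZero k] (hK : IsFunctionField k K) {δ : Derivation k K K} (hδ : δ ≠ 0)
    {x : ℕ → Fin 3 → K} {S : Set ℕ} (hS : S.Infinite)
    (hx : ∀ n ∈ S, x n ≠ 0) (hnp : ∀ n ∈ S, ∀ n' ∈ S, n ≠ n' → ¬ PEq (x n) (x n'))
    {g : MvPolynomial (Fin 3) K} {D : ℕ} (hg : g.IsHomogeneous D) (hirr : Irreducible g)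
    (hD : 0 < D) (hgx : ∀ n ∈ S, eval (x n) g = 0) (N : ℕ) {i₀ j₀ : Fin 3}
    (halpha : ∀ A U : MvPolynomial (Fin 3) K, A.IsHomogeneous (D ^ 2 + 2 * D + N + 3) →
      U.IsHomogeneous (D ^ 2 + 2 * D + N + 3 - 2) → ¬ (g ∣ A ∧ g ∣ U) →
        {n | n ∈ S ∧ eval (x n) A - eval (x n) U * wr δ i₀ j₀ (x n) = 0}.Finite) :
    ∃ (Γ : Finset ℕ) (C : ℤ) (E : Set ℕ), (↑Γ ⊆ S) ∧ E.Finite ∧ ∀ n ∈ S, n ∉ E →
      n ∉ Γ ∧ (N : ℤ) * ht k (x n) ≤
        (({b : Place k K | ∃ i ∈ Γ, 0 < cl b (x i) (x n)}.ncard : ℕ) : ℤ) + C := by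
  classical
  set w : ℕ := D ^ 2 + 2 * D + N + 3 with hw
  obtain ⟨Γ, C, E, hΓS, hE, hcard, hlow⟩ := sum_ht_cross_le_card hK hS hx hnp hg hirr hgx
    (D ^ 2 + 2 * D + 2 * N + 4)
  obtain ⟨A, U, hA, hU, hAU, hrel⟩ := exists_aux (x := x) (Γ := Γ) hg hirr.ne_zero hD
    (m := D ^ 2 + (D ^ 2 + 2 * D + 2 * N + 4)) (w := w) (by nlinarith) hcard
    (by rw [hw]; nlinarith) (by rw [hw]; nlinarith) (fun n => wr δ i₀ j₀ (x n))
  have hE2 := halpha A U hA hU hAU
  set ψ : ℕ → K := fun n => eval (x n) A - eval (x n) U * wr δ i₀ j₀ (x n) with hψ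
  obtain ⟨c, hcs, hc0, hc1, hc2⟩ := wloc hK δ hδ i₀ j₀ (by rw [hw]; omega : 2 ≤ w) hA hU
  set Cst : ℤ := ∑ i ∈ Γ, ∑ j ∈ Γ.erase i, ∑ᶠ b : Place k K, cl b (x i) (x j) with hCst
  refine ⟨Γ, ∑ᶠ b, c b + Cst + C - ∑ i ∈ Γ, ht k (x i), E ∪ {n | n ∈ S ∧ ψ n = 0} ∪ Γ, hΓS,
    (hE.union hE2).union Γ.finite_toSet, fun n hn hnE => ?_⟩
  rw [Set.mem_union, Set.mem_union, not_or, not_or] at hnE
  obtain ⟨⟨hnE, hnψ⟩, hnΓ⟩ := hnE
  have hψn : ψ n ≠ 0 := fun h => hnψ ⟨hn, h⟩
  have hnΓ' : n ∉ Γ := fun h => hnΓ (Finset.mem_coe.2 h)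
  refine ⟨hnΓ', ?_⟩
  have hdist : ∀ i ∈ Γ, ¬ PEq (x i) (x n) := fun i hi =>
    hnp i (hΓS hi) n hn fun h => hnΓ' (h ▸ hi)
  have hne0 : ∀ i ∈ Γ, x i ≠ 0 := fun i hi => hx i (hΓS hi)
  set B : Set (Place k K) := {b : Place k K | ∃ i ∈ Γ, 0 < cl b (x i) (x n)} with hB
  have hsupp1 : ∀ i ∈ Γ, (Function.support fun b : Place k K => cl b (x i) (x n)).Finite :=
    fun i hi => cl_support hK (hne0 i hi) (hx n hn) (hdist i hi)
  have hbad : B.Finite := by
    refine ((Finset.finite_toSet Γ).biUnion hsupp1).subset ?_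
    rintro b ⟨i, hi, hpos⟩
    rw [Set.mem_iUnion₂]
    exact ⟨i, hi, hpos.ne'⟩
  set J : Place k K → ℤ := Set.indicator B (fun _ => 1) with hJ
  set M : Place k K → ℤ := fun b => w * WithZero.log (nrm b (x n)) + c b -
    WithZero.log (b.val (ψ n)) with hM
  have hJ0 : ∀ b, 0 ≤ J b := fun b => Set.indicator_nonneg (fun _ _ => by norm_num) b
  have hM0 : ∀ b, 0 ≤ M b := fun b => by
    have := hc1 b (x n) (hx n hn) hψn
    rw [hM]
    change 0 ≤ _
    linarith
  have hloc : ∀ b : Place k K, ∑ i ∈ Γ, cl b (x i) (x n) ≤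
      (M b + J b) + ∑ i ∈ Γ, ∑ j ∈ Γ.erase i, cl b (x i) (x j) := by
    intro b
    refine sum_cl_le b Γ x (x n) hne0 (hx n hn) hdist
      (fun i hi j hj hij => hnp i (hΓS hi) j (hΓS hj) hij)
      (add_nonneg (hM0 b) (hJ0 b)) ?_
    intro i hi
    by_cases hpos : 0 < cl b (x i) (x n)
    · have h1 : cl b (x i) (x n) - 1 ≤ M b := by
        have := hc2 b (x i) (x n) (hne0 i hi) (hx n hn) (hdist i hi)
          (by rw [hrel i hi, sub_self]) hψn
        rw [hM]
        change _ ≤ _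
        linarith
      have h2 : J b = 1 := Set.indicator_of_mem (f := fun _ => (1 : ℤ))
        (show b ∈ B from ⟨i, hi, hpos⟩)
      linarith
    · exact (not_lt.1 hpos).trans (add_nonneg (hM0 b) (hJ0 b))
  have hsupp3 : ∀ i ∈ Γ, ∀ j ∈ Γ.erase i, (Function.support fun b : Place k K =>
      cl b (x i) (x j)).Finite := fun i hi j hj =>
    cl_support hK (hne0 i hi) (hne0 j (Finset.mem_of_mem_erase hj))
      (hnp i (hΓS hi) j (hΓS (Finset.mem_of_mem_erase hj)) (Finset.ne_of_mem_erase hj).symm)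
  have hs3 : ∀ i ∈ Γ, (Function.support fun b : Place k K => ∑ j ∈ Γ.erase i,
      cl b (x i) (x j)).Finite := fun i hi => sum_support_finite _ _ (hsupp3 i hi)
  have hfs3 := sum_support_finite Γ (fun i (b : Place k K) => ∑ j ∈ Γ.erase i,
      cl b (x i) (x j)) hs3
  have hJs : (Function.support J).Finite :=
    hbad.subset fun b hb => by
      by_contra hcon
      exact hb (Set.indicator_of_notMem hcon _)
  have hlogψ := finsum_log hK (ψ n) hψn
  have hnrm := nrm_support hK _ (hx n hn)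
  have hnrm' : (Function.support fun b : Place k K =>
      (w : ℤ) * WithZero.log (nrm b (x n))).Finite := by
    refine hnrm.subset fun b hb => ?_
    rw [Function.mem_support] at hb ⊢
    exact right_ne_zero_of_mul hb
  have hMs1 : (Function.support fun b : Place k K =>
      (w : ℤ) * WithZero.log (nrm b (x n)) + c b).Finite :=
    (hnrm'.union hcs).subset (Function.support_add _ _)
  have hMs : (Function.support M).Finite :=
    (hMs1.union hlogψ.1).subset (Function.support_sub _ _)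
  have hMJs : (Function.support fun b => M b + J b).Finite :=
    (hMs.union hJs).subset (Function.support_add _ _)
  have hglob : ∑ᶠ b : Place k K, ∑ i ∈ Γ, cl b (x i) (x n) ≤
      ∑ᶠ b : Place k K, ((M b + J b) + ∑ i ∈ Γ, ∑ j ∈ Γ.erase i, cl b (x i) (x j)) :=
    finsum_le_finsum' (sum_support_finite Γ _ hsupp1)
      ((hMJs.union hfs3).subset (Function.support_add _ _)) hloc
  rw [finsum_sum_swap Γ _ hsupp1, finsum_add_distrib hMJs hfs3, finsum_add_distrib hMs hJs,
    finsum_sum_swap _ _ hs3] at hglob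
  have h4 : ∑ i ∈ Γ, ∑ᶠ b : Place k K, ∑ j ∈ Γ.erase i, cl b (x i) (x j) = Cst := by
    rw [hCst]
    exact Finset.sum_congr rfl fun i hi => finsum_sum_swap _ _ (hsupp3 i hi)
  have h5 : ∑ i ∈ Γ, ∑ᶠ b : Place k K, cl b (x i) (x n) =
      ∑ i ∈ Γ, ht k (x i) + Γ.card * ht k (x n) -
        ∑ i ∈ Γ, ht k (crossProduct (x i) (x n)) := by
    rw [← nsmul_eq_mul, ← Finset.sum_const, ← Finset.sum_add_distrib, ← Finset.sum_sub_distrib]
    exact Finset.sum_congr rfl fun i hi => finsum_cl hK (hne0 i hi) (hx n hn) (hdist i hi)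
  have h6 : ∑ᶠ b, M b = w * ht k (x n) + ∑ᶠ b, c b := by
    rw [hM, finsum_sub_distrib hMs1 hlogψ.1, hlogψ.2, sub_zero, finsum_add_distrib hnrm' hcs,
      ← mul_finsum]
    rfl
  have h7 : ∑ᶠ b : Place k K, J b = (B.ncard : ℤ) := by
    rw [hJ, finsum_eq_sum_of_support_subset (s := hbad.toFinset)]
    · rw [Finset.sum_congr rfl (g := fun _ => (1 : ℤ))]
      · rw [Finset.sum_const, nsmul_eq_mul, mul_one, Set.ncard_eq_toFinset_card _ hbad]
      · intro b hb
        exact Set.indicator_of_mem ((Set.Finite.mem_toFinset _).1 hb) _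
    · intro b hb
      rw [Set.Finite.coe_toFinset]
      by_contra hcon
      exact hb (Set.indicator_of_notMem hcon _)
  have h13 := hlow n hn hnE
  rw [h4, h5, h6, h7] at hglob
  have hwz : (w : ℤ) = (D : ℤ) ^ 2 + 2 * D + N + 3 := by rw [hw]; push_cast; ring
  have h0 := low_ht_nonneg hK (hx n hn)
  push_cast at h13
  rw [hwz] at hglob
  nlinarith [hglob, h13, h0]

theorem trunc [CharZero k] [CharZero K]
    (hK : IsFunctionField k K) {x : ℕ → Fin 3 → K} {S : Set ℕ} (hS : S.Infinite)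
    (hx : ∀ n ∈ S, x n ≠ 0) (hnp : ∀ n ∈ S, ∀ n' ∈ S, n ≠ n' → ¬ PEq (x n) (x n'))
    {g : MvPolynomial (Fin 3) K} {D : ℕ} (hg : g.IsHomogeneous D) (hirr : Irreducible g)
    (hgx : ∀ n ∈ S, eval (x n) g = 0) (hht : ∀ B : ℤ, {n | n ∈ S ∧ ht k (x n) ≤ B}.Finite)
    (N : ℕ) :
    ∃ (S' : Set ℕ) (Γ : Finset ℕ) (C : ℤ), S' ⊆ S ∧ S'.Infinite ∧ (↑Γ ⊆ S) ∧
      ∀ n ∈ S', n ∉ Γ ∧ (N : ℤ) * ht k (x n) ≤
        (({b : Place k K | ∃ i ∈ Γ, 0 < cl b (x i) (x n)}.ncard : ℕ) : ℤ) + C := by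
  classical
  have hD : 0 < D := by
    rcases Nat.eq_zero_or_pos D with h0 | h0
    · subst h0
      exfalso
      have h1 : g.totalDegree = 0 := Nat.le_zero.1 hg.totalDegree_le
      rw [totalDegree_eq_zero_iff_eq_C] at h1
      have h2 : coeff 0 g ≠ 0 := by
        intro h
        rw [h, C_0] at h1
        exact hirr.ne_zero h1
      apply hirr.not_isUnit
      rw [h1]
      exact (isUnit_iff_ne_zero.2 h2).map C
    · exact h0
  obtain ⟨δ, hδ⟩ := Pool.Agent.Helper31.RRK.exists_ne_zero hK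
  rcases dichotomy δ hS hx hnp hg hirr hgx (w := D ^ 2 + 2 * D + N + 3) (by omega) with
    ⟨i, j, S', hS'S, hS'inf, hal⟩ | ⟨S', u, U, A, hS'S, hS'inf, hU, hA, hgU, hrel⟩
  · obtain ⟨Γ, C, E, hΓ, hE, h⟩ := trunc_alpha hK hδ hS'inf (fun n hn => hx n (hS'S hn))
      (fun n hn n' hn' => hnp n (hS'S hn) n' (hS'S hn')) hg hirr hD
      (fun n hn => hgx n (hS'S hn)) N hal
    exact ⟨S' \ E, Γ, C, Set.sdiff_subset.trans hS'S, hS'inf.sdiff hE, hΓ.trans hS'S,
      fun n hn => h n hn.1 hn.2⟩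
  · exfalso
    refine ode_false hK hδ hS'inf (fun n hn => hx n (hS'S hn))
      (fun n hn n' hn' => hnp n (hS'S hn) n' (hS'S hn')) hg hirr
      (fun n hn => hgx n (hS'S hn)) (fun B => ?_) hU hA hgU hrel
    exact (hht B).subset fun n hn => ⟨hS'S hn.1, hn.2⟩

end Pool.Agent.Helper30.TK

end

section

namespace Pool.Agent.Helper16
end Pool.Agent.Helper16
namespace Pool.Agent.Helper38.TQ
end Pool.Agent.Helper38.TQ

set_option autoImplicit false

namespace Pool.Agent.Helper30.TKN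

open MvPolynomial

open Pool.Agent.Helper16 (Place IsFunctionField)

open Pool.Agent.Helper38.TQ

variable {ν : ℕ}

section

variable {k K : Type} [Field k] [Field K] [Algebra k K]

theorem cross_lt (b : Place k K) {y y' : Fin 3 → K} (hy : y ≠ 0) (hy' : y' ≠ 0)
    (hPE : ¬ Pool.Agent.Helper30.TP.PEq y y') (hcl : 0 < Pool.Agent.Helper30.TP.cl b y y') :
    Pool.Agent.Helper30.TP.nrm b (crossProduct y y') <
      Pool.Agent.Helper30.TP.nrm b y * Pool.Agent.Helper30.TP.nrm b y' := by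
  have hny := Pool.Agent.Helper30.TP.nrm_ne_zero (b := b) hy
  have hny' := Pool.Agent.Helper30.TP.nrm_ne_zero (b := b) hy'
  have hnc := Pool.Agent.Helper30.TP.nrm_ne_zero (b := b)
    (Pool.Agent.Helper30.TP.cross_ne_zero hy hy' hPE)
  rw [← WithZero.log_lt_log hnc (mul_ne_zero hny hny'), WithZero.log_mul hny hny']
  unfold Pool.Agent.Helper30.TP.cl at hcl
  omega

theorem gs_X_le (b : Place k K) (p : Fin 3) :
    Pool.Agent.Helper30.TP.gs b (X p : MvPolynomial (Fin 3) K) ≤ 1 := by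
  classical
  refine Pool.Agent.Helper30.TP.formHeight_gs_le fun m => ?_
  rw [coeff_X]
  split_ifs
  · rw [map_one]
  · rw [map_zero]; exact zero_le

theorem gs_X_pow_le (b : Place k K) (p : Fin 3) (n : ℕ) :
    Pool.Agent.Helper30.TP.gs b ((X p : MvPolynomial (Fin 3) K) ^ n) ≤ 1 := by
  classical
  refine Pool.Agent.Helper30.TP.formHeight_gs_le fun m => ?_
  rw [coeff_X_pow]
  split_ifs
  · rw [map_one]
  · rw [map_zero]; exact zero_le

theorem val_form_near (b : Place k K) {e : ℕ} {V : MvPolynomial (Fin 3) K}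
    (hV : V.IsHomogeneous e) {y y' : Fin 3 → K} (hy : y ≠ 0) (hy' : y' ≠ 0)
    (hPE : ¬ Pool.Agent.Helper30.TP.PEq y y') (hVint : Pool.Agent.Helper30.TP.gs b V ≤ 1)
    (hVy : b.val (eval y V) = Pool.Agent.Helper30.TP.nrm b y ^ e)
    (hcl : 0 < Pool.Agent.Helper30.TP.cl b y y') :
    b.val (eval y' V) = Pool.Agent.Helper30.TP.nrm b y' ^ e := by
  have hny := Pool.Agent.Helper30.TP.nrm_ne_zero (b := b) hy
  have hny' := Pool.Agent.Helper30.TP.nrm_ne_zero (b := b) hy'
  have hlt := cross_lt b hy hy' hPE hcl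
  obtain ⟨p, hp⟩ := Pool.Agent.Helper30.TP.exists_val_eq_nrm b y
  obtain ⟨q, hq⟩ := Pool.Agent.Helper30.TP.exists_val_eq_nrm b y'
  have hp' : b.val (y' p) = Pool.Agent.Helper30.TP.nrm b y' := by
    by_contra hne
    have h1 : b.val (y' p) < Pool.Agent.Helper30.TP.nrm b y' :=
      lt_of_le_of_ne (Pool.Agent.Helper30.TP.val_le_nrm b y' p) hne
    have h2 : b.val (y p * y' q) = Pool.Agent.Helper30.TP.nrm b y *
        Pool.Agent.Helper30.TP.nrm b y' := by rw [map_mul, hp, hq]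
    have h3 : b.val (y q * y' p) < b.val (y p * y' q) := by
      rw [h2, map_mul]
      exact mul_lt_mul_of_le_of_lt_of_nonneg_of_pos
        (Pool.Agent.Helper30.TP.val_le_nrm b y q) h1 zero_le (zero_lt_iff.2 hny)
    have h4 := Pool.Agent.Helper30.TP.Cl_val_pq b y y' p q
    rw [Valuation.map_sub_swap, Valuation.map_sub_eq_of_lt_right b.val h3, h2] at h4
    exact absurd hlt (not_lt.2 h4)
  have h1 := wedge_le b (e := e) (P := V * X p) (Q := X p ^ (e + 1))
    (hV.mul (isHomogeneous_X K p)) (by simpa using (isHomogeneous_X K p).pow (e + 1)) y y'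
  have hg : Pool.Agent.Helper30.TP.gs b (V * X p) * Pool.Agent.Helper30.TP.gs b
      ((X p : MvPolynomial (Fin 3) K) ^ (e + 1)) ≤ 1 := by
    refine mul_le_one' ((Pool.Agent.Helper30.TP.formHeight_mul_le b V (X p)).trans ?_)
      (gs_X_pow_le b p _)
    exact mul_le_one' hVint (gs_X_le b p)
  have h2 : b.val (eval y (V * X p) * eval y' (X p ^ (e + 1)) -
      eval y (X p ^ (e + 1)) * eval y' (V * X p)) <
      Pool.Agent.Helper30.TP.nrm b y ^ (e + 1) * Pool.Agent.Helper30.TP.nrm b y' ^ (e + 1) := by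
    refine (h1.trans (mul_le_of_le_one_left' hg)).trans_lt ?_
    calc _ < Pool.Agent.Helper30.TP.nrm b y * Pool.Agent.Helper30.TP.nrm b y' *
          Pool.Agent.Helper30.TP.nrm b y ^ e * Pool.Agent.Helper30.TP.nrm b y' ^ e := by
            refine mul_lt_mul_of_pos_right (mul_lt_mul_of_pos_right hlt ?_) ?_
            · exact zero_lt_iff.2 (pow_ne_zero _ hny)
            · exact zero_lt_iff.2 (pow_ne_zero _ hny')
      _ = _ := by
            rw [pow_succ, pow_succ]
            ac_rfl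
  have h3 : b.val (eval y (V * X p) * eval y' (X p ^ (e + 1))) =
      Pool.Agent.Helper30.TP.nrm b y ^ (e + 1) * Pool.Agent.Helper30.TP.nrm b y' ^ (e + 1) := by
    simp only [map_mul, map_pow, eval_X, hp, hp', hVy]
    rw [pow_succ (Pool.Agent.Helper30.TP.nrm b y) e]
  rw [Valuation.map_sub_swap] at h2
  have h4 := Valuation.map_eq_of_sub_lt b.val (h2.trans_eq h3.symm)
  rw [h3] at h4
  simp only [map_mul, map_pow, eval_X, hp, hp'] at h4
  have h5 : Pool.Agent.Helper30.TP.nrm b y ^ (e + 1) ≠ 0 := pow_ne_zero _ hny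
  have h6 := mul_left_cancel₀ h5 h4
  rw [pow_succ] at h6
  exact mul_right_cancel₀ hny' h6

theorem same_of_cl_pos (b : Place k K) {e : ℕ} {V : MvPolynomial (Fin 3) K}
    (hV : V.IsHomogeneous e)
    {P : Fin (ν + 1) → MvPolynomial (Fin 3) K} (hP : ∀ j, (P j).IsHomogeneous (e + 1))
    {x x' : Fin (ν + 1) → K} {y y' : Fin 3 → K} (hy : y ≠ 0) (hy' : y' ≠ 0)
    (hyx : Pool.Agent.Helper30.TP.nrm b y ≤ nrm b x)
    (hyx' : Pool.Agent.Helper30.TP.nrm b y' ≤ nrm b x')
    (h : ∀ j, x j * eval y V = eval y (P j)) (h' : ∀ j, x' j * eval y' V = eval y' (P j))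
    (hPE : ¬ Pool.Agent.Helper30.TP.PEq y y') (hVint : Pool.Agent.Helper30.TP.gs b V ≤ 1)
    (hPint : ∀ j, Pool.Agent.Helper30.TP.gs b (P j) ≤ 1)
    (hVy : b.val (eval y V) = Pool.Agent.Helper30.TP.nrm b y ^ e)
    (hcl : 0 < Pool.Agent.Helper30.TP.cl b y y') : Same b x x' := by
  intro p q
  have hny := Pool.Agent.Helper30.TP.nrm_ne_zero (b := b) hy
  have hny' := Pool.Agent.Helper30.TP.nrm_ne_zero (b := b) hy'
  have hlt := cross_lt b hy hy' hPE hcl
  have hVy' := val_form_near b hV hy hy' hPE hVint hVy hcl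
  have h1 := wedge_le b (hP p) (hP q) y y'
  have h2 : eval y (P p) * eval y' (P q) - eval y (P q) * eval y' (P p) =
      (eval y V * eval y' V) * (x p * x' q - x q * x' p) := by
    rw [← h, ← h, ← h', ← h']
    ring
  rw [h2, map_mul, map_mul, hVy, hVy'] at h1
  have h3 := h1.trans (mul_le_of_le_one_left' (mul_le_one' (hPint p) (hPint q)))
  have h4 : Pool.Agent.Helper30.TP.nrm b y ^ e * Pool.Agent.Helper30.TP.nrm b y' ^ e ≠ 0 :=
    mul_ne_zero (pow_ne_zero _ hny) (pow_ne_zero _ hny')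
  have h5 : b.val (x p * x' q - x q * x' p) ≤
      Pool.Agent.Helper30.TP.nrm b (crossProduct y y') := by
    refine le_of_mul_le_mul_left (h3.trans_eq ?_) (zero_lt_iff.2 h4)
    ac_rfl
  exact (h5.trans_lt hlt).trans_le (mul_le_mul' hyx hyx')

end

section

variable {k K : Type} [Field k] [IsAlgClosed k] [Field K] [Algebra k K]

/-- Points with different values have the same reduction at finitely many places only. -/
theorem same_finite (hK : IsFunctionField k K) {x x' : Fin (ν + 1) → K} (hx : x ≠ 0)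
    (hx' : x' ≠ 0) (h : ¬ PEq x x') : {b : Place k K | Same b x x'}.Finite := by
  obtain ⟨p, q, hpq⟩ : ∃ p q, x p * x' q - x q * x' p ≠ 0 := by
    by_contra hcon
    push Not at hcon
    exact h (peq_of_minors hx hx' hcon)
  refine (((nrm_support hK x hx).union (nrm_support hK x' hx')).union
    (finsum_log hK _ hpq).1).subset ?_
  intro b hb
  by_contra hcon
  rw [Set.mem_union, Set.mem_union, not_or, not_or] at hcon
  have h1 := Function.notMem_support.1 hcon.1.1
  have h2 := Function.notMem_support.1 hcon.1.2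
  have h3 := Function.notMem_support.1 hcon.2
  have h4 := hb p q
  have h0 : b.val (x p * x' q - x q * x' p) ≠ 0 := by simpa using hpq
  have n1 := nrm_ne_zero (b := b) hx
  have n2 := nrm_ne_zero (b := b) hx'
  rw [← WithZero.log_lt_log h0 (mul_ne_zero n1 n2), WithZero.log_mul n1 n2, h1, h2, h3] at h4
  exact absurd h4 (by norm_num)

theorem eventually_large {x : ℕ → Fin (ν + 1) → K} (hht : ∀ B : ℤ, {n | ht k (x n) ≤ B}.Finite)
    {U : Ultrafilter ℕ} (hU : Free U) (B : ℤ) : ∀ᶠ n in (U : Filter ℕ), B < ht k (x n) := by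
  obtain ⟨m, hm⟩ := (hht B).bddAbove
  filter_upwards [hU (m + 1)] with n hn
  by_contra hcon
  have := hm (show n ∈ {n | ht k (x n) ≤ B} from not_lt.1 hcon)
  omega

/-- No binary relation between the two dominating linear forms. -/
theorem no_binary_large (hK : IsFunctionField k K) {x : ℕ → Fin (ν + 1) → K}
    (hx : ∀ n, x n ≠ 0) (hht : ∀ B : ℤ, {n | ht k (x n) ≤ B}.Finite) {U : Ultrafilter ℕ}
    (hU : Free U) {a₀ a₁ : Fin (ν + 1) → k} {C : Place k K → ℤ}
    (hCs : (Function.support C).Finite)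
    (hdom : ∀ᶠ n in (U : Filter ℕ), ∀ (b : Place k K) (i : Fin (ν + 1)),
      b.val (x n i) ≤ WithZero.exp (C b) *
        max (b.val (lin a₀ (x n))) (b.val (lin a₁ (x n))))
    (P : MvPolynomial (Fin 2) K) (e : ℕ) (hP : P.IsHomogeneous e) (hP0 : P ≠ 0) :
    ¬ ∀ᶠ n in (U : Filter ℕ), eval ![lin a₀ (x n), lin a₁ (x n)] P = 0 := by
  intro h
  have : Infinite k := IsAlgClosed.instInfinite
  have : Infinite K := Infinite.of_injective (algebraMap k K) (algebraMap k K).injective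
  obtain ⟨ρ, hρ, hc⟩ := exists_point_of_binary hP hP0 h
  have hρs := nrm_support (ν := 1) hK ρ hρ
  set B : ℤ := ∑ᶠ b : Place k K, C b + ht k (ν := 1) ρ with hB
  obtain ⟨n, ⟨hn1, c, hn2, hn3⟩, hn4⟩ := ((hdom.and hc).and
    (eventually_large hht hU (max B 0))).exists
  have hxn := hx n
  -- the scalar is not zero
  have hb : ∀ b : Place k K, nrm b (x n) ≤
      WithZero.exp (C b) * (b.val c * nrm (ν := 1) b ρ) := by
    intro b
    refine nrm_le fun i => (hn1 b i).trans ?_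
    refine mul_le_mul_right ?_ _
    rw [hn2, hn3, map_mul, map_mul]
    refine max_le ?_ ?_
    · exact mul_le_mul_right (val_le_nrm (ν := 1) b ρ 0) _
    · exact mul_le_mul_right (val_le_nrm (ν := 1) b ρ 1) _
  by_cases hne : Nonempty (Place k K)
  · obtain ⟨b₀⟩ := hne
    have hc0 : c ≠ 0 := by
      rintro rfl
      have h1 := hb b₀
      rw [map_zero, zero_mul, mul_zero, le_zero_iff] at h1
      exact nrm_ne_zero hxn h1
    have hlog : ∀ b : Place k K, WithZero.log (nrm b (x n)) ≤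
        C b + WithZero.log (b.val c) + WithZero.log (nrm (ν := 1) b ρ) := by
      intro b
      have hvc : b.val c ≠ 0 := by simpa using hc0
      have h1 := (WithZero.log_le_log (nrm_ne_zero hxn) (mul_ne_zero WithZero.exp_ne_zero
        (mul_ne_zero hvc (nrm_ne_zero hρ)))).2 (hb b)
      rw [WithZero.log_mul WithZero.exp_ne_zero (mul_ne_zero hvc (nrm_ne_zero hρ)),
        WithZero.log_mul hvc (nrm_ne_zero hρ), WithZero.log_exp] at h1
      omega
    have hcs := finsum_log hK c hc0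
    have h5 : ht k (x n) ≤ ∑ᶠ b : Place k K,
        (C b + WithZero.log (b.val c) + WithZero.log (nrm (ν := 1) b ρ)) := by
      unfold ht
      exact finsum_le_finsum' (nrm_support hK _ hxn)
        (((hCs.union hcs.1).subset (Function.support_add _ _)).union hρs |>.subset
          (Function.support_add _ _)) hlog
    rw [finsum_add_distrib ((hCs.union hcs.1).subset (Function.support_add _ _)) hρs,
      finsum_add_distrib hCs hcs.1, hcs.2, add_zero] at h5
    have h6 : ht k (x n) ≤ B := h5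
    have h7 : B ≤ max B 0 := le_max_left _ _
    omega
  · have h8 : ht k (x n) = 0 := by
      rw [not_nonempty_iff] at hne
      exact finsum_of_isEmpty _
    have h9 : (0 : ℤ) ≤ max B 0 := le_max_right _ _
    omega

/-- The truncated count for points of a curve in projective space. -/
theorem trunc_curve [CharZero k] (hK : IsFunctionField k K) {x : ℕ → Fin (ν + 1) → K}
    (hx : ∀ n, x n ≠ 0) (hnp : ∀ n n', n ≠ n' → ¬ PEq (x n) (x n'))
    (hht : ∀ B : ℤ, {n | ht k (x n) ≤ B}.Finite) {U : Ultrafilter ℕ} (hU : Free U)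
    (hcurve : OnCurve U x) (N n₀ : ℕ) :
    ∃ (S' : Set ℕ) (Γ : Finset ℕ) (C : ℤ), S'.Infinite ∧ (∀ i ∈ Γ, n₀ ≤ i) ∧
      ∀ n ∈ S', n ∉ Γ ∧ (N : ℤ) * ht k (x n) ≤
        (({b : Place k K | ∃ i ∈ Γ, Same b (x i) (x n)}.ncard : ℕ) : ℤ) + C := by
  classical
  have : Infinite k := IsAlgClosed.instInfinite
  have hchar : CharZero K := charZero_of_injective_algebraMap (algebraMap k K).injective
  obtain ⟨a₀, a₁, C, hC0, hCs, hdom⟩ := exists_two_forms hK hcurve
  have htr := fun P e hP hP0 => no_binary_large hK hx hht hU (a₀ := a₀) (a₁ := a₁) hCs hdom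
    P e hP hP0
  obtain ⟨a₂, e, V, P, hV, hP, hVP⟩ := exists_third_form hcurve a₀ a₁ htr
  set y : ℕ → Fin 3 → K := fun n => ![lin a₀ (x n), lin a₁ (x n), lin a₂ (x n)] with hy
  obtain ⟨Q, eQ, hQ, hQ0, hQv⟩ := hcurve fun j => ![fun i => algebraMap k K (a₀ i),
    fun i => algebraMap k K (a₁ i), fun i => algebraMap k K (a₂ i)] j
  have hQv' : ∀ᶠ n in (U : Filter ℕ), eval (y n) Q = 0 := by
    filter_upwards [hQv] with n hn
    have h1 : (fun j : Fin 3 => ∑ i, (![fun i => algebraMap k K (a₀ i),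
        fun i => algebraMap k K (a₁ i), fun i => algebraMap k K (a₂ i)] :
          Fin 3 → Fin (ν + 1) → K) j i * x n i) = y n := by
      funext j
      fin_cases j <;> rfl
    rwa [h1] at hn
  obtain ⟨D, g, hg, hgi, hgv⟩ := exists_irreducible_form hQ hQ0 hQv'
  -- the set of times
  set S : Set ℕ := {n | n₀ ≤ n ∧ (∀ (b : Place k K) (i : Fin (ν + 1)),
      b.val (x n i) ≤ WithZero.exp (C b) *
        max (b.val (lin a₀ (x n))) (b.val (lin a₁ (x n)))) ∧
      (eval (y n) V ≠ 0 ∧ ∀ j, x n j * eval (y n) V = eval (y n) (P j)) ∧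
      eval (y n) g = 0} with hS
  have hSU : S ∈ U := by
    filter_upwards [hU n₀, hdom, hVP, hgv] with n h0 h1 h2 h3
    exact ⟨h0, h1, h2, h3⟩
  have hSinf : S.Infinite := by
    intro hfin
    obtain ⟨n, hn1, hn2⟩ := Pool.Agent.Helper30.TP.ultra_exists_notMem hU hfin hSU
    exact hn2 hn1
  have hy0 : ∀ n ∈ S, y n ≠ 0 := by
    intro n hn h0
    apply hx n
    funext j
    have h1 := hn.2.2.1.2 j
    rw [h0] at h1
    have h2 : eval (0 : Fin 3 → K) (P j) = 0 := by
      have h3 := Pool.Agent.Helper30.TP.eval_smul_hom (hP j) (0 : K) (0 : Fin 3 → K)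
      rwa [zero_smul, zero_pow (Nat.succ_ne_zero e), zero_mul] at h3
    rw [h2, mul_eq_zero] at h1
    refine h1.resolve_right ?_
    have := hn.2.2.1.1
    rwa [h0] at this
  have hyd : ∀ n ∈ S, ∀ n' ∈ S, n ≠ n' → ¬ Pool.Agent.Helper30.TP.PEq (y n) (y n') := by
    intro n hn n' hn' hnn h
    apply hnp n n' hnn
    obtain ⟨c, hc, h⟩ := h
    refine ⟨c, hc, funext fun j => ?_⟩
    have h1 := hn'.2.2.1.2 j
    have h2 := hn'.2.2.1.1
    rw [h, Pool.Agent.Helper30.TP.eval_smul_hom (hP j), Pool.Agent.Helper30.TP.eval_smul_hom hV,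
      ← hn.2.2.1.2 j] at h1
    have h3 := hn.2.2.1.1
    have h4 : c ^ e * eval (y n) V ≠ 0 := mul_ne_zero (pow_ne_zero _ hc) h3
    apply mul_right_cancel₀ h4
    rw [h1, Pi.smul_apply, smul_eq_mul]
    ring
  have hsy : ∀ n ∈ S, (Function.support fun b : Place k K =>
      WithZero.log (Pool.Agent.Helper30.TP.nrm b (y n))).Finite := fun n hn =>
    Pool.Agent.Helper30.TP.nrm_support hK _ (hy0 n hn)
  have hhy : ∀ n ∈ S, ht k (x n) ≤ ∑ᶠ b, C b + Pool.Agent.Helper30.TP.ht k (y n) := by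
    intro n hn
    have h1 : ∀ b : Place k K, WithZero.log (nrm b (x n)) ≤
        C b + WithZero.log (Pool.Agent.Helper30.TP.nrm b (y n)) := by
      intro b
      have hny := Pool.Agent.Helper30.TP.nrm_ne_zero (b := b) (hy0 n hn)
      have h2 : nrm b (x n) ≤ WithZero.exp (C b) * Pool.Agent.Helper30.TP.nrm b (y n) := by
        refine nrm_le fun i => (hn.2.1 b i).trans (mul_le_mul_right (max_le ?_ ?_) _)
        · exact Pool.Agent.Helper30.TP.val_le_nrm b (y n) 0
        · exact Pool.Agent.Helper30.TP.val_le_nrm b (y n) 1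
      have h3 := (WithZero.log_le_log (nrm_ne_zero (hx n))
        (mul_ne_zero WithZero.exp_ne_zero hny)).2 h2
      rwa [WithZero.log_mul WithZero.exp_ne_zero hny, WithZero.log_exp] at h3
    have h4 : ht k (x n) ≤ ∑ᶠ b : Place k K,
        (C b + WithZero.log (Pool.Agent.Helper30.TP.nrm b (y n))) := by
      unfold ht
      exact finsum_le_finsum' (nrm_support hK _ (hx n))
        ((hCs.union (hsy n hn)).subset (Function.support_add _ _)) h1
    rwa [finsum_add_distrib hCs (hsy n hn)] at h4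
  obtain ⟨S', Γ, C₁, hS'S, hS'inf, hΓS, hmain⟩ := Pool.Agent.Helper30.TK.trunc hK hSinf hy0 hyd
    hg hgi (fun n hn => hn.2.2.2) (fun B => (hht (∑ᶠ b, C b + B)).subset fun n hn => by
      have := hhy n hn.1
      have h2 : Pool.Agent.Helper30.TP.ht k (y n) ≤ B := hn.2
      show ht k (x n) ≤ _
      linarith) N
  -- the bad places
  have hgsfin : ∀ R : MvPolynomial (Fin 3) K,
      {b : Place k K | ¬ Pool.Agent.Helper30.TP.gs b R ≤ 1}.Finite := by
    intro R
    by_cases h0 : R = 0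
    · rw [h0]
      simp [Pool.Agent.Helper30.TP.formHeight_zero]
    · refine (Pool.Agent.Helper30.TP.formHeight_support hK h0).subset ?_
      intro b hb h1
      apply hb
      have h2 : WithZero.log (Pool.Agent.Helper30.TP.gs b R) = 0 := h1
      have h3 := (Pool.Agent.Helper30.TP.formHeight_pos (b := b) h0).ne'
      rw [← WithZero.log_le_log h3 one_ne_zero, h2, WithZero.log_one]
  have hvfin : ∀ i ∈ Γ, {b : Place k K |
      ¬ b.val (eval (y i) V) = Pool.Agent.Helper30.TP.nrm b (y i) ^ e}.Finite := by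
    intro i hi
    have hiS := hΓS hi
    have hVi := hiS.2.2.1.1
    refine ((hsy i hiS).union (finsum_log hK _ hVi).1).subset ?_
    intro b hb
    by_contra hcon
    rw [Set.mem_union, not_or] at hcon
    have h1 := Function.notMem_support.1 hcon.1
    have h2 := Function.notMem_support.1 hcon.2
    apply hb
    have h3 : b.val (eval (y i) V) ≠ 0 := by simpa using hVi
    have h4 := Pool.Agent.Helper30.TP.nrm_ne_zero (b := b) (hy0 i hiS)
    rw [← WithZero.exp_log h3, ← WithZero.exp_log h4, h1, h2]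
    simp
  set Bad : Set (Place k K) := {b | ¬ Pool.Agent.Helper30.TP.gs b V ≤ 1} ∪
    (⋃ j : Fin (ν + 1), {b | ¬ Pool.Agent.Helper30.TP.gs b (P j) ≤ 1}) ∪
    ⋃ i ∈ Γ, {b : Place k K |
      ¬ b.val (eval (y i) V) = Pool.Agent.Helper30.TP.nrm b (y i) ^ e} with hBad
  have hBadfin : Bad.Finite := ((hgsfin V).union (Set.finite_iUnion fun j => hgsfin (P j))).union
    (Set.Finite.biUnion Γ.finite_toSet hvfin)
  refine ⟨S', Γ, C₁ + Bad.ncard + N * ∑ᶠ b, C b, hS'inf, fun i hi => (hΓS hi).1,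
    fun n hn => ?_⟩
  obtain ⟨hnΓ, h1⟩ := hmain n hn
  refine ⟨hnΓ, ?_⟩
  have hnS := hS'S hn
  have hyx : ∀ (b : Place k K) (m : ℕ), Pool.Agent.Helper30.TP.nrm b (y m) ≤ nrm b (x m) := by
    intro b m
    refine Pool.Agent.Helper30.TP.nrm_le fun j => ?_
    fin_cases j
    · exact val_lin_le b a₀ _
    · exact val_lin_le b a₁ _
    · exact val_lin_le b a₂ _
  have hsub : {b : Place k K | ∃ i ∈ Γ, 0 < Pool.Agent.Helper30.TP.cl b (y i) (y n)} ⊆
      {b : Place k K | ∃ i ∈ Γ, Same b (x i) (x n)} ∪ Bad := by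
    rintro b ⟨i, hi, hcl⟩
    by_cases hb : b ∈ Bad
    · exact Or.inr hb
    · left
      rw [hBad, Set.mem_union, Set.mem_union, not_or, not_or] at hb
      obtain ⟨⟨hb1, hb2⟩, hb3⟩ := hb
      rw [Set.mem_iUnion, not_exists] at hb2
      simp only [Set.mem_iUnion, not_exists] at hb3
      have hin : i ≠ n := fun h => hnΓ (h ▸ hi)
      exact ⟨i, hi, same_of_cl_pos b hV hP (hy0 i (hΓS hi)) (hy0 n hnS) (hyx b i) (hyx b n)
        (hΓS hi).2.2.1.2 hnS.2.2.1.2 (hyd i (hΓS hi) n hnS hin) (not_not.1 hb1)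
        (fun j => not_not.1 (hb2 j)) (not_not.1 (hb3 i hi)) hcl⟩
  have hfin : {b : Place k K | ∃ i ∈ Γ, Same b (x i) (x n)}.Finite := by
    have h2 : {b : Place k K | ∃ i ∈ Γ, Same b (x i) (x n)} =
        ⋃ i ∈ Γ, {b : Place k K | Same b (x i) (x n)} := by
      ext b
      simp
    rw [h2]
    exact Set.Finite.biUnion Γ.finite_toSet fun i hi =>
      same_finite hK (hx i) (hx n) (hnp i n fun h => hnΓ (h ▸ hi))
  have h3 := Set.ncard_le_ncard hsub (hfin.union hBadfin)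
  have h4 := Set.ncard_union_le {b : Place k K | ∃ i ∈ Γ, Same b (x i) (x n)} Bad
  have h5 := hhy n hnS
  have h6 : (N : ℤ) * ht k (x n) ≤ N * (∑ᶠ b, C b + Pool.Agent.Helper30.TP.ht k (y n)) :=
    mul_le_mul_of_nonneg_left h5 (by positivity)
  have h7 : (({b : Place k K | ∃ i ∈ Γ,
      0 < Pool.Agent.Helper30.TP.cl b (y i) (y n)}.ncard : ℕ) : ℤ) ≤
      ({b : Place k K | ∃ i ∈ Γ, Same b (x i) (x n)}.ncard : ℕ) + (Bad.ncard : ℕ) := by
    exact_mod_cast h3.trans h4
  rw [mul_add] at h6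
  linarith

end

end Pool.Agent.Helper30.TKN

end
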