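import Pool.Agent.Helper72.TM2.T22
import Pool.Agent.Helper72.TM2.T14
import Pool.Agent.Helper72.TM2.T19
import Pool.Agent.Helper72.TM2.T04

section

namespace Pool.Agent.Helper16
end Pool.Agent.Helper16
namespace Pool.Agent.Helper36
end Pool.Agent.Helper36
namespace Pool.Agent.Helper38.TQ
end Pool.Agent.Helper38.TQ
namespace Pool.Agent.Helper30.TKN
end Pool.Agent.Helper30.TKN

/-!
# Curves in projective space over function fields
-/

set_option autoImplicit false

namespace Pool.Agent.Helper38.TQK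

open MvPolynomial

open Pool.Agent.Helper16 (Place IsFunctionField)

open Pool.Agent.Helper36 (step iter iter_zero iter_succ iter_succ' iter_add iter_map)

open Pool.Agent.Helper38.TQ

open Pool.Agent.Helper30.TKN

variable {ν : ℕ}

/-- The orbit of a point over `K`, over the complex numbers. -/
theorem orbit_complex {K : Type} [Field K] [Algebra K ℂ] {d : ℕ}
    {F : Fin (ν + 1) → MvPolynomial (Fin (ν + 1)) K}
    (hF : IsEndo d fun i => map (algebraMap K ℂ) (F i)) (x : Fin (ν + 1) → K) (c : ℂ) (n : ℕ) :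
    (fun (x : Fin (ν + 1) → ℂ) (i : Fin (ν + 1)) =>
        eval x (map (algebraMap K ℂ) (F i)))^[n] (fun i => c * algebraMap K ℂ (x i)) =
      c ^ d ^ n • fun i => algebraMap K ℂ (iter F x n i) := by
  have h1 : (fun (x : Fin (ν + 1) → ℂ) (i : Fin (ν + 1)) => eval x (map (algebraMap K ℂ) (F i))) =
      step fun i => map (algebraMap K ℂ) (F i) := by
    funext x i
    rfl
  rw [h1]
  have h2 : (fun i => c * algebraMap K ℂ (x i)) = c • fun i => algebraMap K ℂ (x i) := rfl
  rw [h2]
  change iter (fun i => map (algebraMap K ℂ) (F i)) (c • fun i => algebraMap K ℂ (x i)) n = _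
  rw [iter_smul hF]
  congr 1
  induction n with
  | zero => rfl
  | succ n ih =>
    rw [iter_succ, ih]
    funext i
    change eval _ (map (algebraMap K ℂ) (F i)) = algebraMap K ℂ (iter F x (n + 1) i)
    rw [iter_succ]
    exact (Pool.Agent.Helper38.Sym.map_eval_gen (algebraMap K ℂ) _ _).symm

end Pool.Agent.Helper38.TQK

end

section

namespace Pool.Agent.Helper16
end Pool.Agent.Helper16
namespace Pool.Agent.Helper36
end Pool.Agent.Helper36
namespace Pool.Agent.Helper38.TQ
end Pool.Agent.Helper38.TQ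
namespace Pool.Agent.Helper30.TKN
end Pool.Agent.Helper30.TKN
namespace Pool.Agent.Helper38.PC
end Pool.Agent.Helper38.PC

/-!
# Specialisation of the algebraic data of a post-critically finite map
-/

set_option autoImplicit false

namespace Pool.Agent.Helper30.RED

open MvPolynomial

open Pool.Agent.Helper16 (Place IsFunctionField)

open Pool.Agent.Helper36 (step iter iter_zero iter_succ iter_succ' iter_add iter_map)

open Pool.Agent.Helper38.TQ

open Pool.Agent.Helper30.TKN

variable {ν : ℕ} {k K : Type} [Field k] [Field K] [Algebra k K]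

theorem redP_C {b : Place k K} {A : K} {a : k} (h : b.val (A - algebraMap k K a) < 1) :
    RedP (ν := ν) b (C A) (C a) := by
  classical
  intro m
  rw [coeff_C, coeff_C]
  split_ifs with h0
  · exact h
  · rw [map_zero, sub_zero, map_zero]
    exact zero_lt_one

/-- Composition specialises. -/
theorem redP_aeval {b : Place k K} {P : MvPolynomial (Fin (ν + 1)) K}
    {p : MvPolynomial (Fin (ν + 1)) k} (hP : RedP b P p)
    {F : Fin (ν + 1) → MvPolynomial (Fin (ν + 1)) K}
    {f : Fin (ν + 1) → MvPolynomial (Fin (ν + 1)) k} (hF : ∀ i, RedP b (F i) (f i)) :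
    RedP b (MvPolynomial.aeval F P) (MvPolynomial.aeval f p) := by
  classical
  have h1 : MvPolynomial.aeval F P = ∑ m ∈ P.support ∪ p.support,
      C (P.coeff m) * ∏ i, F i ^ m i := by
    have h2 : P = ∑ m ∈ P.support ∪ p.support, monomial m (P.coeff m) := by
      conv_lhs => rw [← P.support_sum_monomial_coeff]
      refine Finset.sum_subset Finset.subset_union_left ?_
      intro m _ hm
      rw [notMem_support_iff.1 hm, monomial_zero]
    conv_lhs => rw [h2]
    rw [map_sum]
    refine Finset.sum_congr rfl fun m _ => ?_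
    rw [aeval_monomial, Finsupp.prod_fintype _ _ fun i => pow_zero _]
    rfl
  have h3 : MvPolynomial.aeval f p = ∑ m ∈ P.support ∪ p.support,
      C (p.coeff m) * ∏ i, f i ^ m i := by
    have h2 : p = ∑ m ∈ P.support ∪ p.support, monomial m (p.coeff m) := by
      conv_lhs => rw [← p.support_sum_monomial_coeff]
      refine Finset.sum_subset Finset.subset_union_right ?_
      intro m _ hm
      rw [notMem_support_iff.1 hm, monomial_zero]
    conv_lhs => rw [h2]
    rw [map_sum]
    refine Finset.sum_congr rfl fun m _ => ?_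
    rw [aeval_monomial, Finsupp.prod_fintype _ _ fun i => pow_zero _]
    rfl
  rw [h1, h3]
  refine RedP.sum _ fun m _ => (redP_C (hP m)).mul (RedP.prod _ fun i _ => (hF i).pow _)

/-- Specialisations of homogeneous polynomials are homogeneous. -/
theorem redP_hom {b : Place k K} {P : MvPolynomial (Fin (ν + 1)) K}
    {p : MvPolynomial (Fin (ν + 1)) k} (hP : RedP b P p) {e : ℕ} (he : P.IsHomogeneous e) :
    p.IsHomogeneous e := by
  intro m hm
  refine he ?_
  intro h0
  have h1 := hP m
  rw [h0, zero_sub, Valuation.map_neg, b.triv _ hm] at h1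
  exact lt_irrefl _ h1

theorem map_jf' {R S : Type} [Field R] [Field S] (φ : R →+* S)
    (F : Fin (ν + 1) → MvPolynomial (Fin (ν + 1)) R) :
    jf (fun i => map φ (F i)) = map φ (jf F) := by
  unfold jf
  rw [RingHom.map_det]
  congr 1
  ext1 i j
  rw [RingHom.mapMatrix_apply, Matrix.map_apply, Matrix.of_apply, Matrix.of_apply, pderiv_map]

theorem hom_of_map {R S : Type} [Field R] [Field S] (φ : R →+* S)
    {P : MvPolynomial (Fin (ν + 1)) R} {n : ℕ} (h : (map φ P).IsHomogeneous n) :
    P.IsHomogeneous n := by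
  intro m hm
  apply h
  rw [coeff_map]
  exact (map_ne_zero φ).2 hm

end Pool.Agent.Helper30.RED

end

section

namespace Pool.Agent.Helper36
end Pool.Agent.Helper36
namespace Pool.Agent.Helper29.TG
end Pool.Agent.Helper29.TG

/-!
# The key lemma in projective space of any dimension
-/

set_option autoImplicit false

namespace Pool.Agent.Helper72.PN

open MvPolynomial

open Pool.Agent.Helper36 (step iter)

open Pool.Agent.Helper29.TG

variable {ν : ℕ} {K : Type} [Field K]

/-- `v` is a place of good reduction of `F` for the data `g`, `q`, `c`. -/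
structure GoodV (v : AbsoluteValue K ℝ) (F : Fin (ν + 1) → MvPolynomial (Fin (ν + 1)) K) (d : ℕ)
    (g q c : MvPolynomial (Fin (ν + 1)) K) : Prop where
  na : IsNonarchimedean v
  F_int : ∀ i m, v ((F i).coeff m) ≤ 1
  F_nm : ∀ x : Fin (ν + 1) → K, nm v (step F x) = nm v x ^ d
  g_int : ∀ m, v (g.coeff m) ≤ 1
  q_int : ∀ m, v (q.coeff m) ≤ 1
  c_int : ∀ m, v (c.coeff m) ≤ 1

section aux

variable {ι : Type} [Finite ι]

theorem KeyN_eval_le {v : AbsoluteValue K ℝ} (hv : IsNonarchimedean v)
    {P : MvPolynomial ι K} {e : ℕ} (hP : P.IsHomogeneous e) (hi : ∀ m, v (P.coeff m) ≤ 1)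
    (x : ι → K) : v (eval x P) ≤ nm v x ^ e := by
  have h := Df_eval_le_na hv hP zero_le_one (fun m _ => hi m) x
  rwa [one_mul] at h

omit [Finite ι] in
theorem KeyN_smul {P : MvPolynomial ι K} {e : ℕ} (hP : P.IsHomogeneous e) (c : K) (x : ι → K) :
    eval (c • x) P = c ^ e * eval x P := by
  have h := Pool.Agent.Helper36.aeval_smul_homogeneous hP c x
  have h1 := congrArg (fun φ => φ P) (coe_aeval_eq_eval (c • x))
  have h2 := congrArg (fun φ => φ P) (coe_aeval_eq_eval x)
  exact h1.symm.trans (h.trans (congrArg (fun a => c ^ e * a) h2))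

theorem KeyN_pow_sub {v : AbsoluteValue K ℝ} (hv : IsNonarchimedean v) {a b : K} {M δ : ℝ}
    (hM : 0 ≤ M) (hδ : 0 ≤ δ) (ha : v a ≤ M) (hb : v b ≤ M) (hab : v (a - b) ≤ δ) (k : ℕ) :
    v (a ^ k - b ^ k) * M ≤ M ^ k * δ := by
  induction k with
  | zero => simpa using hδ
  | succ k ih =>
    have h1 : a ^ (k + 1) - b ^ (k + 1) = a * (a ^ k - b ^ k) + (a - b) * b ^ k := by ring
    rw [h1]
    have h2 : v (a * (a ^ k - b ^ k)) * M ≤ M ^ (k + 1) * δ := by
      rw [map_mul]
      calc v a * v (a ^ k - b ^ k) * M = v a * (v (a ^ k - b ^ k) * M) := by ring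
        _ ≤ M * (M ^ k * δ) := mul_le_mul ha ih (mul_nonneg (v.nonneg _) hM) hM
        _ = _ := by ring
    have h3 : v ((a - b) * b ^ k) * M ≤ M ^ (k + 1) * δ := by
      rw [map_mul, map_pow]
      have h4 : v b ^ k ≤ M ^ k := pow_le_pow_left₀ (v.nonneg _) hb _
      calc v (a - b) * v b ^ k * M ≤ δ * M ^ k * M :=
            mul_le_mul_of_nonneg_right (mul_le_mul hab h4 (pow_nonneg (v.nonneg _) _) hδ) hM
        _ = _ := by ring
    have h5 := mul_le_mul_of_nonneg_right (hv (a * (a ^ k - b ^ k)) ((a - b) * b ^ k)) hM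
    rw [max_mul_of_nonneg _ _ hM] at h5
    exact h5.trans (max_le h2 h3)

omit [Finite ι] in
theorem KeyN_prod_sub {v : AbsoluteValue K ℝ} (hv : IsNonarchimedean v) {u w : ι → K}
    {M δ : ℝ} (hM : 0 ≤ M) (hδ : 0 ≤ δ) (hu : ∀ i, v (u i) ≤ M) (hw : ∀ i, v (w i) ≤ M)
    (huw : ∀ i, v (u i - w i) ≤ δ) (m : ι → ℕ) (s : Finset ι) :
    v (∏ i ∈ s, u i ^ m i - ∏ i ∈ s, w i ^ m i) * M ≤ M ^ (∑ i ∈ s, m i) * δ := by
  classical
  induction s using Finset.induction_on with
  | empty => simpa using hδ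
  | insert j s hj ih =>
    rw [Finset.prod_insert hj, Finset.prod_insert hj, Finset.sum_insert hj, pow_add]
    have h1 : u j ^ m j * ∏ i ∈ s, u i ^ m i - w j ^ m j * ∏ i ∈ s, w i ^ m i =
        u j ^ m j * (∏ i ∈ s, u i ^ m i - ∏ i ∈ s, w i ^ m i) +
          (u j ^ m j - w j ^ m j) * ∏ i ∈ s, w i ^ m i := by ring
    rw [h1]
    have h2 : v (u j ^ m j * (∏ i ∈ s, u i ^ m i - ∏ i ∈ s, w i ^ m i)) * M ≤
        M ^ m j * M ^ (∑ i ∈ s, m i) * δ := by
      rw [map_mul, map_pow]
      calc v (u j) ^ m j * v (∏ i ∈ s, u i ^ m i - ∏ i ∈ s, w i ^ m i) * M =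
            v (u j) ^ m j * (v (∏ i ∈ s, u i ^ m i - ∏ i ∈ s, w i ^ m i) * M) := by ring
        _ ≤ M ^ m j * (M ^ (∑ i ∈ s, m i) * δ) :=
          mul_le_mul (pow_le_pow_left₀ (v.nonneg _) (hu j) _) ih
            (mul_nonneg (v.nonneg _) hM) (pow_nonneg hM _)
        _ = _ := by ring
    have h3 : v ((u j ^ m j - w j ^ m j) * ∏ i ∈ s, w i ^ m i) * M ≤
        M ^ m j * M ^ (∑ i ∈ s, m i) * δ := by
      rw [map_mul, map_prod]
      have h4 := KeyN_pow_sub hv hM hδ (hu j) (hw j) (huw j) (m j)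
      have h5 : ∏ i ∈ s, v (w i ^ m i) ≤ M ^ (∑ i ∈ s, m i) := by
        rw [← Finset.prod_pow_eq_pow_sum]
        refine Finset.prod_le_prod (fun i _ => v.nonneg _) fun i _ => ?_
        rw [map_pow]
        exact pow_le_pow_left₀ (v.nonneg _) (hw i) _
      calc v (u j ^ m j - w j ^ m j) * (∏ i ∈ s, v (w i ^ m i)) * M =
            (v (u j ^ m j - w j ^ m j) * M) * ∏ i ∈ s, v (w i ^ m i) := by ring
        _ ≤ (M ^ m j * δ) * M ^ (∑ i ∈ s, m i) :=
          mul_le_mul h4 h5 (Finset.prod_nonneg fun i _ => v.nonneg _)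
            (mul_nonneg (pow_nonneg hM _) hδ)
        _ = _ := by ring
    have h5 := mul_le_mul_of_nonneg_right
      (hv (u j ^ m j * (∏ i ∈ s, u i ^ m i - ∏ i ∈ s, w i ^ m i))
        ((u j ^ m j - w j ^ m j) * ∏ i ∈ s, w i ^ m i)) hM
    rw [max_mul_of_nonneg _ _ hM] at h5
    exact h5.trans (max_le h2 h3)

omit [Finite ι] in
theorem KeyN_eval_sub {v : AbsoluteValue K ℝ} (hv : IsNonarchimedean v)
    {P : MvPolynomial ι K} {e : ℕ} (hP : P.IsHomogeneous e) (hi : ∀ m, v (P.coeff m) ≤ 1)
    {u w : ι → K} {M δ : ℝ} (hM : 0 < M) (hδ : 0 ≤ δ) (hu : ∀ i, v (u i) ≤ M)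
    (hw : ∀ i, v (w i) ≤ M) (huw : ∀ i, v (u i - w i) ≤ δ) :
    v (eval u P - eval w P) * M ≤ M ^ e * δ := by
  rw [← le_div_iff₀ hM, eval_eq, eval_eq, ← Finset.sum_sub_distrib]
  rcases P.support.eq_empty_or_nonempty with h0 | hs
  · rw [h0, Finset.sum_empty, map_zero]
    positivity
  · obtain ⟨m, hm, h1⟩ := IsNonarchimedean.finset_image_add_of_nonempty hv
      (fun m => coeff m P * ∏ i ∈ m.support, u i ^ m i -
        coeff m P * ∏ i ∈ m.support, w i ^ m i) hs
    refine h1.trans ?_
    rw [← mul_sub, map_mul, le_div_iff₀ hM, ← Df_degree hP hm]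
    have h2 := KeyN_prod_sub hv hM.le hδ hu hw huw m m.support
    calc v (coeff m P) * v (∏ i ∈ m.support, u i ^ m i - ∏ i ∈ m.support, w i ^ m i) * M =
          v (coeff m P) *
            (v (∏ i ∈ m.support, u i ^ m i - ∏ i ∈ m.support, w i ^ m i) * M) := by ring
      _ ≤ 1 * (M ^ (∑ i ∈ m.support, m i) * δ) :=
          mul_le_mul (hi m) h2 (mul_nonneg (v.nonneg _) hM.le) zero_le_one
      _ = _ := one_mul _

theorem KeyN_minor (v : AbsoluteValue K ℝ) (x y : ι → K) (p i : ι) :
    v (x p * y i - y p * x i) ≤ nm v (cr x y) := by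
  have h := le_nm v (cr x y) (p, i)
  have h1 : cr x y (p, i) = x p * y i - y p * x i := by
    simp only [cr]
    ring
  rwa [h1] at h

end aux

theorem KeyN_jf_le {v : AbsoluteValue K ℝ} (hv : IsNonarchimedean v)
    {F : Fin (ν + 1) → MvPolynomial (Fin (ν + 1)) K} {d : ℕ} (hF : ∀ i, (F i).IsHomogeneous d)
    (hi : ∀ i m, v ((F i).coeff m) ≤ 1) (x : Fin (ν + 1) → K) :
    v (eval x (Pool.Agent.Helper30.TKN.jf F)) ≤ nm v x ^ ((ν + 1) * (d - 1)) := by
  rw [Pool.Agent.Helper30.TKN.eval_jf, Matrix.det_apply]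
  have hterm : ∀ σ : Equiv.Perm (Fin (ν + 1)),
      v (Equiv.Perm.sign σ • ∏ i, Pool.Agent.Helper38.TQ.jac F x (σ i) i) ≤
        nm v x ^ ((ν + 1) * (d - 1)) := by
    intro σ
    have h1 : v (∏ i, Pool.Agent.Helper38.TQ.jac F x (σ i) i) ≤
        nm v x ^ ((ν + 1) * (d - 1)) := by
      rw [map_prod]
      have h2 : ∀ i : Fin (ν + 1),
          v (Pool.Agent.Helper38.TQ.jac F x (σ i) i) ≤ nm v x ^ (d - 1) := by
        intro i
        refine KeyN_eval_le hv ((hF (σ i)).pderiv) (fun m => ?_) x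
        rw [coeff_pderiv, map_mul]
        have h3 : v ((m i : K) + 1) ≤ 1 := by
          have h4 := IsNonarchimedean.apply_natCast_le_one hv (n := m i + 1)
          rwa [Nat.cast_add, Nat.cast_one] at h4
        calc v (coeff (m + Finsupp.single i 1) (F (σ i))) * v ((m i : K) + 1) ≤ 1 * 1 :=
              mul_le_mul (hi _ _) h3 (v.nonneg _) zero_le_one
          _ = 1 := one_mul 1
      calc ∏ i, v (Pool.Agent.Helper38.TQ.jac F x (σ i) i) ≤
            ∏ _i : Fin (ν + 1), nm v x ^ (d - 1) :=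
            Finset.prod_le_prod (fun i _ => v.nonneg _) fun i _ => h2 i
        _ = _ := by
          rw [Finset.prod_const, Finset.card_univ, Fintype.card_fin, ← pow_mul, mul_comm]
    rcases Int.units_eq_one_or (Equiv.Perm.sign σ) with h | h
    · rw [h, one_smul]
      exact h1
    · rw [h, Units.neg_smul, one_smul, v.map_neg]
      exact h1
  obtain ⟨σ, -, h⟩ := IsNonarchimedean.finset_image_add_of_nonempty hv
    (fun σ : Equiv.Perm (Fin (ν + 1)) =>
      Equiv.Perm.sign σ • ∏ i, Pool.Agent.Helper38.TQ.jac F x (σ i) i)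
    (Finset.univ_nonempty)
  exact h.trans (hterm σ)

end Pool.Agent.Helper72.PN

end

section

namespace Pool.Agent.Helper36
end Pool.Agent.Helper36
namespace Pool.Agent.Helper29.TG
end Pool.Agent.Helper29.TG

/-!
# Project TH (tame invariant sets): definitions

A form is small at a point modulo `v`, two points are congruent modulo `v`, chains of closed
invariant sets over an algebraically closed field and modulo `v`.
-/

set_option autoImplicit false

namespace Pool.Agent.Helper72.TH

open MvPolynomial Height Height.AdmissibleAbsValues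

open Pool.Agent.Helper36 (step iter)

open Pool.Agent.Helper29.TG

variable {ν : ℕ} {K : Type} [Field K]

/-- The form `g` of degree `e` is small at the point `x`. -/
def Sm (v : AbsoluteValue K ℝ) (g : MvPolynomial (Fin (ν + 1)) K) (e : ℕ)
    (x : Fin (ν + 1) → K) : Prop :=
  v (eval x g) < nm v x ^ e

/-- The points `x` and `y` are congruent modulo `v`. -/
def Cong (v : AbsoluteValue K ℝ) (x y : Fin (ν + 1) → K) : Prop :=
  nm v (cr x y) < nm v x * nm v y

/-- The forms `F` of degree `d` have good reduction at `v`. -/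
structure GoodF (v : AbsoluteValue K ℝ) (F : Fin (ν + 1) → MvPolynomial (Fin (ν + 1)) K)
    (d : ℕ) : Prop where
  na : IsNonarchimedean v
  F_int : ∀ i m, v ((F i).coeff m) ≤ 1
  F_nm : ∀ x : Fin (ν + 1) → K, nm v (step F x) = nm v x ^ d

/-- The closed sets `Z_i = {W j = 0, j ∈ S i}`, `i ≤ k`, satisfy `F(Z_i) ⊆ Z_i`,
`F(Z_i ∩ {q = 0}) ⊆ Z_(i+1)` and `Z_k = ∅` (in projective space over `L`). -/
structure Chain (L : Type) [Field L] [Algebra K L]
    (F : Fin (ν + 1) → MvPolynomial (Fin (ν + 1)) K) (q : MvPolynomial (Fin (ν + 1)) K)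
    {n : ℕ} (W : Fin n → MvPolynomial (Fin (ν + 1)) K) (δ : Fin n → ℕ)
    (S : ℕ → Finset (Fin n)) (k : ℕ) : Prop where
  hom : ∀ j, (W j).IsHomogeneous (δ j)
  inv : ∀ i < k, ∀ x : Fin (ν + 1) → L, (∀ j ∈ S i, aeval x (W j) = 0) →
    ∀ j ∈ S i, aeval (fun l => aeval x (F l)) (W j) = 0
  down : ∀ i < k, ∀ x : Fin (ν + 1) → L, (∀ j ∈ S i, aeval x (W j) = 0) → aeval x q = 0 →
    ∀ j ∈ S (i + 1), aeval (fun l => aeval x (F l)) (W j) = 0
  empty : ∀ x : Fin (ν + 1) → L, (∀ j ∈ S k, aeval x (W j) = 0) → x = 0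

/-- The point lies on the closed set modulo `v`. -/
def InZ (v : AbsoluteValue K ℝ) {n : ℕ} (W : Fin n → MvPolynomial (Fin (ν + 1)) K)
    (δ : Fin n → ℕ) (T : Finset (Fin n)) (x : Fin (ν + 1) → K) : Prop :=
  ∀ j ∈ T, Sm v (W j) (δ j) x

/-- The chain modulo `v`; `t` is the degree of `q`. -/
structure ChainV (v : AbsoluteValue K ℝ) (F : Fin (ν + 1) → MvPolynomial (Fin (ν + 1)) K)
    (q : MvPolynomial (Fin (ν + 1)) K) (t : ℕ) {n : ℕ}
    (W : Fin n → MvPolynomial (Fin (ν + 1)) K) (δ : Fin n → ℕ) (S : ℕ → Finset (Fin n))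
    (k : ℕ) : Prop where
  q_int : ∀ m, v (q.coeff m) ≤ 1
  W_int : ∀ j m, v ((W j).coeff m) ≤ 1
  inv : ∀ i < k, ∀ x : Fin (ν + 1) → K, x ≠ 0 → InZ v W δ (S i) x → InZ v W δ (S i) (step F x)
  down : ∀ i < k, ∀ x : Fin (ν + 1) → K, x ≠ 0 → InZ v W δ (S i) x → Sm v q t x →
    InZ v W δ (S (i + 1)) (step F x)
  empty : ∀ x : Fin (ν + 1) → K, x ≠ 0 → ¬ InZ v W δ (S k) x

end Pool.Agent.Helper72.TH

end

section

namespace Pool.Agent.Helper36
end Pool.Agent.Helper36
namespace Pool.Agent.Helper29.TG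
end Pool.Agent.Helper29.TG

/-!
# Almost all places are good
-/

set_option autoImplicit false

namespace Pool.Agent.Helper72.PN

open MvPolynomial Height Height.AdmissibleAbsValues

open Pool.Agent.Helper36 (step iter exists_nullstellensatz)

open Pool.Agent.Helper29.TG

variable {ν : ℕ} {K : Type} [Field K]

theorem bad_sum_le {v : AbsoluteValue K ℝ} (hv : IsNonarchimedean v) {ι : Type*} (s : Finset ι)
    (f : ι → K) {r : ℝ} (hr : 0 ≤ r) (h : ∀ i ∈ s, v (f i) ≤ r) : v (∑ i ∈ s, f i) ≤ r := by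
  classical
  induction s using Finset.induction_on with
  | empty => simpa using hr
  | insert a s ha ih =>
    rw [Finset.sum_insert ha]
    refine (hv _ _).trans (max_le (h a (Finset.mem_insert_self a s)) ?_)
    exact ih fun i hi => h i (Finset.mem_insert_of_mem hi)

/-- Outside a finite set of places all nonzero elements of a finite set have value `1`. -/
theorem exists_fin_good [AdmissibleAbsValues K] (Z : Finset K) :
    ∃ B : Set (AbsoluteValue K ℝ), B.Finite ∧ ∀ v ∈ nonarchAbsVal (K := K), v ∉ B →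
      ∀ z ∈ Z, z = 0 ∨ v z = 1 := by
  classical
  induction Z using Finset.induction_on with
  | empty => exact ⟨∅, Set.finite_empty, fun v _ _ z hz => absurd hz (Finset.notMem_empty z)⟩
  | insert a s _ ih =>
    obtain ⟨B, hBf, hB⟩ := ih
    by_cases ha : a = 0
    · refine ⟨B, hBf, fun v hv hvB z hz => ?_⟩
      rcases Finset.mem_insert.1 hz with rfl | hz
      · exact Or.inl ha
      · exact hB v hv hvB z hz
    · have hfin : (Function.mulSupport fun v : nonarchAbsVal (K := K) => v.val a).Finite :=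
        hasFiniteMulSupport ha
      refine ⟨B ∪ (fun v : nonarchAbsVal (K := K) => v.val) ''
        (Function.mulSupport fun v : nonarchAbsVal (K := K) => v.val a),
        hBf.union (hfin.image _), fun v hv hvB z hz => ?_⟩
      rw [Set.mem_union, not_or] at hvB
      rcases Finset.mem_insert.1 hz with rfl | hz
      · right
        by_contra hne
        exact hvB.2 ⟨⟨v, hv⟩, hne, rfl⟩
      · exact hB v hv hvB.1 z hz

theorem exists_bad [AdmissibleAbsValues K] {L : Type} [Field L] [IsAlgClosed L] [Algebra K L]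
    {F : Fin (ν + 1) → MvPolynomial (Fin (ν + 1)) K} {d : ℕ} (hF : ∀ i, (F i).IsHomogeneous d)
    (hnz : ∀ x : Fin (ν + 1) → L, (∀ i, aeval x (F i) = 0) → x = 0)
    (g q c : MvPolynomial (Fin (ν + 1)) K) :
    ∃ B : Set (AbsoluteValue K ℝ), B.Finite ∧ ∀ v ∈ nonarchAbsVal (K := K), v ∉ B →
      GoodV v F d g q c := by
  classical
  obtain ⟨M, Q, hQ, hQF⟩ := exists_nullstellensatz (L := L) F hF hnz
  -- all coefficients
  let co : MvPolynomial (Fin (ν + 1)) K → Finset K := fun P => P.support.image fun m => P.coeff m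
  let Z : Finset K := (Finset.univ.biUnion fun i => co (F i)) ∪
    (Finset.univ.biUnion fun a => co (Q a)) ∪ (co g ∪ co q ∪ co c)
  obtain ⟨B, hBf, hB⟩ := exists_fin_good (K := K) Z
  refine ⟨B, hBf, fun v hv hvB => ?_⟩
  have hna : IsNonarchimedean v := isNonarchimedean v hv
  have key : ∀ P : MvPolynomial (Fin (ν + 1)) K, co P ⊆ Z →
      ∀ m, P.coeff m = 0 ∨ v (P.coeff m) = 1 := by
    intro P hP m
    by_cases hm : P.coeff m = 0
    · exact Or.inl hm
    · exact hB v hv hvB _ (hP (Finset.mem_image.2 ⟨m, mem_support_iff.2 hm, rfl⟩))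
  have key1 : ∀ P : MvPolynomial (Fin (ν + 1)) K, co P ⊆ Z → ∀ m, v (P.coeff m) ≤ 1 := by
    intro P hP m
    rcases key P hP m with h | h
    · rw [h, map_zero]; exact zero_le_one
    · exact h.le
  have hZF : ∀ i, co (F i) ⊆ Z := fun i => by
    refine (Finset.subset_biUnion_of_mem (fun i => co (F i)) (Finset.mem_univ i)).trans ?_
    exact Finset.subset_union_left.trans Finset.subset_union_left
  have hZQ : ∀ a, co (Q a) ⊆ Z := fun a => by
    refine (Finset.subset_biUnion_of_mem (fun a => co (Q a)) (Finset.mem_univ a)).trans ?_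
    exact Finset.subset_union_right.trans Finset.subset_union_left
  have hZg : co g ⊆ Z :=
    (Finset.subset_union_left.trans Finset.subset_union_left).trans Finset.subset_union_right
  have hZq : co q ⊆ Z :=
    (Finset.subset_union_right.trans Finset.subset_union_left).trans Finset.subset_union_right
  have hZc : co c ⊆ Z := Finset.subset_union_right.trans Finset.subset_union_right
  have hstep : ∀ (x : Fin (ν + 1) → K) (i : Fin (ν + 1)), step F x i = eval x (F i) := fun x i =>
    congrArg (fun φ => φ (F i)) (MvPolynomial.coe_aeval_eq_eval x)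
  have hup : ∀ x : Fin (ν + 1) → K, nm v (step F x) ≤ nm v x ^ d := by
    intro x
    refine nm_le (pow_nonneg (nm_nonneg v x) d) fun i => ?_
    rw [hstep]
    exact KeyN_eval_le hna (hF i) (key1 _ (hZF i)) x
  refine ⟨hna, fun i m => key1 _ (hZF i) m, fun x => le_antisymm (hup x) ?_, key1 _ hZg,
    key1 _ hZq, key1 _ hZc⟩
  by_cases hx : x = 0
  · subst hx
    rcases Nat.eq_zero_or_pos d with hd | hd
    · subst hd
      rw [pow_zero]
      -- some constant coefficient is not zero
      have h1 : ∃ i, (F i).coeff 0 ≠ 0 := by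
        by_contra hcon
        push Not at hcon
        have h2 : ∀ i, F i = 0 := by
          intro i
          ext m
          by_cases hm : m = 0
          · rw [hm, hcon i, coeff_zero]
          · rw [coeff_zero]
            refine (hF i).coeff_eq_zero fun h => hm ?_
            exact (Finsupp.degree_eq_zero_iff m).1 h
        have h3 := hnz (fun _ => 1) fun i => by rw [h2 i, map_zero]
        exact one_ne_zero (congrFun h3 0)
      obtain ⟨i, hi⟩ := h1
      have h4 : v ((F i).coeff 0) = 1 := (key _ (hZF i) 0).resolve_left hi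
      have h5 : step F (0 : Fin (ν + 1) → K) i = (F i).coeff 0 := by
        rw [hstep, ← constantCoeff_eq]
        exact congrArg (fun φ => φ (F i)) (MvPolynomial.eval_zero' (R := K) (σ := Fin (ν + 1)))
      rw [← h4, ← h5]
      exact le_nm v _ i
    · have h0 : nm v (0 : Fin (ν + 1) → K) = 0 := by
        refine le_antisymm (nm_le le_rfl fun i => ?_) (nm_nonneg _ _)
        rw [Pi.zero_apply, map_zero]
      rw [h0, zero_pow hd.ne']
      exact nm_nonneg _ _
  · have hpos : 0 < nm v x := nm_pos v hx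
    obtain ⟨i, -, hi⟩ := exists_nm_eq v hx
    have h1 : nm v x ^ (M + d) ≤ nm v x ^ M * nm v (step F x) := by
      have h2 := congrArg (eval x) (hQF i)
      rw [map_pow, eval_X, map_sum] at h2
      have h3 : nm v x ^ (M + d) = v (∑ j, eval x (Q (i, j) * F j)) := by
        rw [h2, map_pow, hi]
      rw [h3]
      refine bad_sum_le hna _ _ (mul_nonneg (pow_nonneg hpos.le _) (nm_nonneg _ _)) fun j _ => ?_
      rw [map_mul, map_mul]
      refine mul_le_mul (KeyN_eval_le hna (hQ (i, j)) (key1 _ (hZQ (i, j))) x) ?_ (v.nonneg _)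
        (pow_nonneg hpos.le _)
      rw [← hstep]
      exact le_nm v _ j
    rw [pow_add] at h1
    exact le_of_mul_le_mul_left h1 (pow_pos hpos M)

end Pool.Agent.Helper72.PN

end

section

namespace Pool.Agent.Helper36
end Pool.Agent.Helper36
namespace Pool.Agent.Helper29.TG
end Pool.Agent.Helper29.TG

/-!
# Project TH: congruent points
-/

set_option autoImplicit false

namespace Pool.Agent.Helper72.TH

open MvPolynomial Height Height.AdmissibleAbsValues

open Pool.Agent.Helper36 (step iter)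

open Pool.Agent.Helper29.TG

variable {ν : ℕ} {K : Type} [Field K] {v : AbsoluteValue K ℝ}

theorem Cong.symm {x y : Fin (ν + 1) → K} (h : Cong v x y) : Cong v y x := by
  unfold Cong at h ⊢
  rw [mul_comm (nm v y)]
  refine lt_of_le_of_lt (nm_le (nm_nonneg v _) fun q => ?_) h
  have h1 : cr y x q = -cr x y q := by
    simp only [cr]
    ring
  rw [h1, v.map_neg]
  exact le_nm v (cr x y) q

theorem CongL_coord (hv : IsNonarchimedean v) {x y : Fin (ν + 1) → K}
    (hx : x ≠ 0) (hy : y ≠ 0) (h : Cong v x y) {p : Fin (ν + 1)} (hp : v (x p) = nm v x) :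
    v (y p) = nm v y := by
  have hX := nm_pos v hx
  have hY := nm_pos v hy
  obtain ⟨i, -, hi'⟩ := exists_nm_eq v hy
  have hi := hi'.symm
  refine le_antisymm (le_nm v y p) ?_
  have h1 : v (x p * y i) = nm v x * nm v y := by rw [map_mul, hp, hi]
  have h2 := Pool.Agent.Helper72.PN.KeyN_minor v x y p i
  have h3 : v (y p * x i) = v (x p * y i) := by
    have h4 : v (-(x p * y i - y p * x i)) < v (x p * y i) := by
      rw [v.map_neg, h1]
      exact h2.trans_lt h
    have h5 := IsNonarchimedean.add_eq_right_of_lt hv h4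
    rw [← h5]
    congr 1
    ring
  rw [h1, map_mul] at h3
  have h6 : nm v x * nm v y ≤ v (y p) * nm v x := by
    rw [← h3]
    exact mul_le_mul_of_nonneg_left (le_nm v x i) (v.nonneg _)
  rw [mul_comm] at h6
  exact le_of_mul_le_mul_right h6 hX

theorem CongL_diff (hv : IsNonarchimedean v) {g : MvPolynomial (Fin (ν + 1)) K} {e : ℕ}
    (hg : g.IsHomogeneous e) (hi : ∀ m, v (g.coeff m) ≤ 1) {x y : Fin (ν + 1) → K}
    (hx : x ≠ 0) (hy : y ≠ 0) {p : Fin (ν + 1)} (hp : v (x p) = nm v x)
    (hyp : v (y p) = nm v y) :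
    v (x p ^ e * eval y g - y p ^ e * eval x g) * (nm v x * nm v y) ≤
      (nm v x * nm v y) ^ e * nm v (cr x y) := by
  have hX := nm_pos v hx
  have hY := nm_pos v hy
  have hdiff := Pool.Agent.Helper72.PN.KeyN_eval_sub hv hg hi (u := x p • y) (w := y p • x)
    (M := nm v x * nm v y) (δ := nm v (cr x y)) (by positivity)
    (nm_nonneg _ _)
    (fun i => by
      rw [Pi.smul_apply, smul_eq_mul, map_mul, hp]
      exact mul_le_mul_of_nonneg_left (le_nm v y i) hX.le)
    (fun i => by
      rw [Pi.smul_apply, smul_eq_mul, map_mul, hyp, mul_comm]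
      exact mul_le_mul_of_nonneg_right (le_nm v x i) hY.le)
    (fun i => Pool.Agent.Helper72.PN.KeyN_minor v x y p i)
  rwa [Pool.Agent.Helper72.PN.KeyN_smul hg, Pool.Agent.Helper72.PN.KeyN_smul hg] at hdiff

theorem Cong.sm (hv : IsNonarchimedean v) {g : MvPolynomial (Fin (ν + 1)) K} {e : ℕ}
    (hg : g.IsHomogeneous e) (hi : ∀ m, v (g.coeff m) ≤ 1) {x y : Fin (ν + 1) → K}
    (hx : x ≠ 0) (hy : y ≠ 0) (h : Cong v x y) (hs : Sm v g e x) : Sm v g e y := by
  have hX := nm_pos v hx
  have hY := nm_pos v hy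
  obtain ⟨p, -, hp'⟩ := exists_nm_eq v hx
  have hp := hp'.symm
  have hyp := CongL_coord hv hx hy h hp
  have hd := CongL_diff hv hg hi hx hy hp hyp
  have hM : 0 < nm v x * nm v y := by positivity
  have h1 : v (x p ^ e * eval y g - y p ^ e * eval x g) < (nm v x * nm v y) ^ e := by
    refine lt_of_mul_lt_mul_right (lt_of_le_of_lt hd ?_) hM.le
    exact mul_lt_mul_of_pos_left h (by positivity)
  have h2 : v (y p ^ e * eval x g) < (nm v x * nm v y) ^ e := by
    rw [map_mul, map_pow, hyp, mul_pow, mul_comm]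
    exact mul_lt_mul_of_pos_right hs (by positivity)
  have h3 : v (x p ^ e * eval y g) < (nm v x * nm v y) ^ e := by
    have h4 : x p ^ e * eval y g =
        (x p ^ e * eval y g - y p ^ e * eval x g) + y p ^ e * eval x g := by ring
    rw [h4]
    exact (hv _ _).trans_lt (max_lt h1 h2)
  rw [map_mul, map_pow, hp, mul_pow] at h3
  exact lt_of_mul_lt_mul_left h3 (by positivity)

theorem Cong.step {F : Fin (ν + 1) → MvPolynomial (Fin (ν + 1)) K} {d : ℕ}
    (hF : ∀ i, (F i).IsHomogeneous d) (hG : GoodF v F d) {x y : Fin (ν + 1) → K}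
    (hx : x ≠ 0) (hy : y ≠ 0) (h : Cong v x y) : Cong v (step F x) (step F y) := by
  have hv := hG.na
  have hX := nm_pos v hx
  have hY := nm_pos v hy
  obtain ⟨p, -, hp'⟩ := exists_nm_eq v hx
  have hp := hp'.symm
  have hyp := CongL_coord hv hx hy h hp
  have hM : 0 < nm v x * nm v y := by positivity
  have hst : ∀ (z : Fin (ν + 1) → K) i, Pool.Agent.Helper36.step F z i = eval z (F i) := by
    intro z i
    change aeval z (F i) = _
    exact congrArg (fun φ => φ (F i)) (coe_aeval_eq_eval z)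
  have hd : ∀ i, v (x p ^ d * Pool.Agent.Helper36.step F y i -
      y p ^ d * Pool.Agent.Helper36.step F x i) * (nm v x * nm v y) ≤
      (nm v x * nm v y) ^ d * nm v (cr x y) := by
    intro i
    rw [hst, hst]
    exact CongL_diff hv (hF i) (hG.F_int i) hx hy hp hyp
  have hw : ∀ i, v (y p ^ d * Pool.Agent.Helper36.step F x i) ≤ (nm v x * nm v y) ^ d := by
    intro i
    rw [map_mul, map_pow, hyp, mul_pow, mul_comm]
    refine mul_le_mul_of_nonneg_right ?_ (by positivity)
    rw [← hG.F_nm]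
    exact le_nm v _ i
  unfold Cong
  rw [hG.F_nm, hG.F_nm, ← mul_pow]
  have hc : nm v (cr (Pool.Agent.Helper36.step F x) (Pool.Agent.Helper36.step F y)) ≤
      (nm v x * nm v y) ^ d * nm v (cr x y) / (nm v x * nm v y) := by
    refine nm_le (div_nonneg (mul_nonneg (pow_nonneg hM.le _) (nm_nonneg v _)) hM.le)
      fun q => ?_
    rw [le_div_iff₀ hM]
    have hMd : 0 < (nm v x * nm v y) ^ d := pow_pos hM d
    refine le_of_mul_le_mul_left ?_ hMd
    have h1 : (nm v x * nm v y) ^ d *
        (v (cr (Pool.Agent.Helper36.step F x) (Pool.Agent.Helper36.step F y) q) *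
          (nm v x * nm v y)) =
        v (y p ^ d * Pool.Agent.Helper36.step F x q.1 *
            (x p ^ d * Pool.Agent.Helper36.step F y q.2 -
              y p ^ d * Pool.Agent.Helper36.step F x q.2) -
          y p ^ d * Pool.Agent.Helper36.step F x q.2 *
            (x p ^ d * Pool.Agent.Helper36.step F y q.1 -
              y p ^ d * Pool.Agent.Helper36.step F x q.1)) * (nm v x * nm v y) := by
      have h2 : y p ^ d * Pool.Agent.Helper36.step F x q.1 *
            (x p ^ d * Pool.Agent.Helper36.step F y q.2 -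
              y p ^ d * Pool.Agent.Helper36.step F x q.2) -
          y p ^ d * Pool.Agent.Helper36.step F x q.2 *
            (x p ^ d * Pool.Agent.Helper36.step F y q.1 -
              y p ^ d * Pool.Agent.Helper36.step F x q.1) =
          (x p ^ d * y p ^ d) *
            cr (Pool.Agent.Helper36.step F x) (Pool.Agent.Helper36.step F y) q := by
        simp only [cr]
        ring
      rw [h2, map_mul, map_mul, map_pow, map_pow, hp, hyp, mul_pow]
      ring
    rw [h1, sub_eq_add_neg]
    have h3 : ∀ i j, v (y p ^ d * Pool.Agent.Helper36.step F x i *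
        (x p ^ d * Pool.Agent.Helper36.step F y j -
          y p ^ d * Pool.Agent.Helper36.step F x j)) * (nm v x * nm v y) ≤
        (nm v x * nm v y) ^ d * ((nm v x * nm v y) ^ d * nm v (cr x y)) := by
      intro i j
      rw [map_mul, mul_assoc]
      exact mul_le_mul (hw i) (hd j) (mul_nonneg (v.nonneg _) hM.le) hMd.le
    refine (mul_le_mul_of_nonneg_right (hv _ _) hM.le).trans ?_
    rw [max_mul_of_nonneg _ _ hM.le, v.map_neg]
    exact max_le (h3 q.1 q.2) (h3 q.2 q.1)
  refine hc.trans_lt ?_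
  rw [div_lt_iff₀ hM]
  exact mul_lt_mul_of_pos_left h (pow_pos hM d)

end Pool.Agent.Helper72.TH

end

section

namespace Pool.Agent.Helper36
end Pool.Agent.Helper36
namespace Pool.Agent.Helper29.TG
end Pool.Agent.Helper29.TG

/-!
# Project TH: cycles modulo `v` in the invariant set avoid `q = 0`
-/

set_option autoImplicit false

namespace Pool.Agent.Helper72.TH

open MvPolynomial Height Height.AdmissibleAbsValues

open Pool.Agent.Helper36 (step iter)

open Pool.Agent.Helper29.TG

variable {ν : ℕ} {K : Type} [Field K] {v : AbsoluteValue K ℝ}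

/-- Points of the orbit which are congruent to points of the closed set lie on it. -/
theorem inZ_of_cong {x y : Fin (ν + 1) → K} (hv : IsNonarchimedean v) {n : ℕ}
    {W : Fin n → MvPolynomial (Fin (ν + 1)) K} {δ : Fin n → ℕ}
    (hW : ∀ j, (W j).IsHomogeneous (δ j)) (hWi : ∀ j m, v ((W j).coeff m) ≤ 1)
    (hx : x ≠ 0) (hy : y ≠ 0) (h : Cong v x y) {T : Finset (Fin n)} (h0 : InZ v W δ T x) :
    InZ v W δ T y :=
  fun j hj => h.sm hv (hW j) (hWi j) hx hy (h0 j hj)

theorem cong_shift {F : Fin (ν + 1) → MvPolynomial (Fin (ν + 1)) K} {d : ℕ}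
    (hF : ∀ i, (F i).IsHomogeneous d) (hG : GoodF v F d)
    {x : Fin (ν + 1) → K} (hx : ∀ n, iter F x n ≠ 0) {i r : ℕ}
    (hcong : Cong v (iter F x i) (iter F x (i + r))) (l : ℕ) :
    Cong v (iter F x (i + l)) (iter F x (i + l + r)) := by
  induction l with
  | zero => exact hcong
  | succ l ih =>
    have h1 := Cong.step hF hG (hx _) (hx _) ih
    rw [← Pool.Agent.Helper36.iter_succ, ← Pool.Agent.Helper36.iter_succ] at h1
    rw [show i + (l + 1) = i + l + 1 by ring, show i + l + 1 + r = i + l + r + 1 by ring]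
    exact h1

theorem cycle_unit {F : Fin (ν + 1) → MvPolynomial (Fin (ν + 1)) K} {d : ℕ}
    (hF : ∀ i, (F i).IsHomogeneous d) (hG : GoodF v F d)
    {q : MvPolynomial (Fin (ν + 1)) K} {t : ℕ} {n : ℕ}
    {W : Fin n → MvPolynomial (Fin (ν + 1)) K} {δ : Fin n → ℕ}
    (hW : ∀ j, (W j).IsHomogeneous (δ j)) {S : ℕ → Finset (Fin n)} {k : ℕ}
    (hc : ChainV v F q t W δ S k) {x : Fin (ν + 1) → K} (hx : ∀ n, iter F x n ≠ 0) {i n : ℕ}
    (hin : i < n) (hcong : Cong v (iter F x i) (iter F x n))
    (h0 : InZ v W δ (S 0) (iter F x i)) : ∀ l, i ≤ l → ¬ Sm v q t (iter F x l) := by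
  intro l₀ hl₀ hsm
  obtain ⟨r, rfl⟩ : ∃ r, n = i + r := ⟨n - i, by omega⟩
  have hr : 0 < r := by omega
  -- backward transfer
  have hback : ∀ (T : Finset (Fin _)) (l s : ℕ), i ≤ l → InZ v W δ T (iter F x (l + r * s)) →
      InZ v W δ T (iter F x l) := by
    intro T l s hl
    induction s with
    | zero => exact fun h => h
    | succ s ih =>
      intro h
      apply ih
      obtain ⟨u, hu⟩ : ∃ u, l + r * s = i + u := ⟨l + r * s - i, by omega⟩
      have h1 := (cong_shift hF hG hx hcong u).symm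
      rw [← hu] at h1
      rw [show l + r * (s + 1) = l + r * s + r by ring] at h
      exact inZ_of_cong hG.na hW hc.W_int (hx _) (hx _) h1 h
  -- forward invariance
  have hfwd : ∀ m < k, ∀ l l', l ≤ l' → InZ v W δ (S m) (iter F x l) →
      InZ v W δ (S m) (iter F x l') := by
    intro m hm l l' hll h
    induction l', hll using Nat.le_induction with
    | base => exact h
    | succ l' _ ih =>
      rw [Pool.Agent.Helper36.iter_succ]
      exact hc.inv m hm _ (hx _) ih
  rcases Nat.eq_zero_or_pos k with hk | hk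
  · subst hk
    exact hc.empty _ (hx _) h0
  have key : ∀ m < k, ∀ l, i ≤ l → InZ v W δ (S m) (iter F x l) := by
    intro m
    induction m with
    | zero =>
      intro hm l hl
      exact hfwd 0 hm i l hl h0
    | succ m ih =>
      intro hm l hl
      have h1 := hc.down m (by omega) _ (hx _) (ih (by omega) l₀ hl₀) hsm
      rw [← Pool.Agent.Helper36.iter_succ] at h1
      refine hback _ l (l₀ + 1) hl (hfwd _ hm (l₀ + 1) _ ?_ h1)
      have : l₀ + 1 ≤ r * (l₀ + 1) := Nat.le_mul_of_pos_left _ hr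
      omega
  have h1 := hc.down (k - 1) (by omega) _ (hx _) (key (k - 1) (by omega) l₀ hl₀) hsm
  rw [Nat.sub_add_cancel hk] at h1
  rw [← Pool.Agent.Helper36.iter_succ] at h1
  exact hc.empty _ (hx _) h1

end Pool.Agent.Helper72.TH

end

section

namespace Pool.Agent.Helper36
end Pool.Agent.Helper36
namespace Pool.Agent.Helper29.TG
end Pool.Agent.Helper29.TG
namespace Pool.Agent.Helper65.RP
end Pool.Agent.Helper65.RP

/-!
# Project TH, part (2) (curves through points of tame invariant sets): definitions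
-/

set_option autoImplicit false

namespace Pool.Agent.Helper72.TH

open MvPolynomial Filter Topology

open Pool.Agent.Helper36 (step iter)

open Pool.Agent.Helper29.TG

open Pool.Agent.Helper65.RP (PD)

variable {ν : ℕ} {K : Type} [Field K]

/-- Along the ultrafilter, the points lie on a curve: any three linear forms satisfy a relation. -/
def OnC (𝒰 : Ultrafilter ℕ) (x : ℕ → Fin (ν + 1) → K) : Prop :=
  ∀ a : Fin 3 → Fin (ν + 1) → K, ∃ (P : MvPolynomial (Fin 3) K) (e : ℕ), P ≠ 0 ∧
    P.IsHomogeneous e ∧ ∀ᶠ n in (𝒰 : Filter ℕ), eval (pl a (x n)) P = 0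

/-- The point `y` lies on the closure of the sequence along the ultrafilter. -/
def InCl (𝒰 : Ultrafilter ℕ) (x : ℕ → Fin (ν + 1) → K) (y : Fin (ν + 1) → K) : Prop :=
  ∀ (g : MvPolynomial (Fin (ν + 1)) K) (e : ℕ), g.IsHomogeneous e →
    (∀ᶠ n in (𝒰 : Filter ℕ), eval (x n) g = 0) → eval y g = 0

end Pool.Agent.Helper72.TH

end
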