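import Pool.Agent.Helper72.TM2.T23

section

namespace Pool.Agent.Helper16
end Pool.Agent.Helper16
namespace Pool.Agent.Helper36
end Pool.Agent.Helper36
namespace Pool.Agent.Helper38.TQ
end Pool.Agent.Helper38.TQ
namespace Pool.Agent.Helper30.TKN
end Pool.Agent.Helper30.TKN
namespace Pool.Agent.Helper30.TP
end Pool.Agent.Helper30.TP

/-!
# Induction on the transcendence degree: classes which depend on the point, several forms
-/

set_option autoImplicit false

namespace Pool.Agent.Helper30.RED

open MvPolynomial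

open Pool.Agent.Helper16 (Place IsFunctionField)

open Pool.Agent.Helper36 (step iter iter_zero iter_succ iter_succ' iter_add iter_map)

open Pool.Agent.Helper38.TQ

open Pool.Agent.Helper30.TKN

open Pool.Agent.Helper30.TP (emb_mem_range emb_trdeg_le)

variable {ν : ℕ}

/-- A finite intersection. -/
theorem iInter_closed {R : Set ℕ → Prop} (hRu : R Set.univ)
    (hRi : ∀ S T, R S → R T → R (S ∩ T)) {κ : Type} [Finite κ] (X : κ → Set ℕ)
    (h : ∀ s, R (X s)) : R (⋂ s, X s) := by
  classical
  haveI := Fintype.ofFinite κ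
  have h1 : ∀ s : Finset κ, R (⋂ i ∈ s, X i) := by
    intro s
    induction s using Finset.induction_on with
    | empty => simpa using hRu
    | insert a s _ ih =>
      rw [Finset.set_biInter_insert]
      exact hRi _ _ (h a) ih
  have h2 := h1 Finset.univ
  simpa using h2

/-- Several forms: if the heights of the points of an orbit are bounded, then the return set is a
finite intersection of return sets of specialisations. -/
theorem exists_specialisationsN {k K : Type} [Field k] [IsAlgClosed k] [Field K] [Algebra k K]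
    [Algebra K ℂ] (hK : IsFunctionField k K) {d : ℕ}
    {F : Fin (ν + 1) → MvPolynomial (Fin (ν + 1)) K}
    (hF : IsEndo d fun i => map (algebraMap K ℂ) (F i)) {x : Fin (ν + 1) → K} (hx : x ≠ 0)
    (B : ℤ) (hB : ∀ n, ht k (iter F x n) ≤ B) {N r : ℕ} (ι : Fin r → Fin N) (e : Fin r → ℕ)
    (W : Fin N → MvPolynomial (Fin (ν + 1)) K) (hW : ∀ j, (W (ι j)).IsHomogeneous (e j))
    (A : Set (Place k K)) (hA : A.Finite) :
    ∃ (κ : Type) (_ : Finite κ) (b : κ → Place k K)
      (f : κ → Fin (ν + 1) → MvPolynomial (Fin (ν + 1)) k) (z : κ → Fin (ν + 1) → k)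
      (w : κ → Fin N → MvPolynomial (Fin (ν + 1)) k),
      (∀ s, b s ∉ A ∧ GoodRed d (b s) F (f s) ∧ Red (b s) x (z s) ∧
        ∀ j, RedP (b s) (W j) (w s j)) ∧
      ∀ n, (∀ j, eval (iter F x n) (W (ι j)) = 0) ↔
        ∀ s, ∀ j, eval (iter (f s) (z s) n) (w s (ι j)) = 0 := by
  classical
  have hhom : ∀ i, (F i).IsHomogeneous d := by
    intro i m hm
    refine hF.hom i ?_
    rw [coeff_map]
    simpa using hm
  have hA2 : (⋃ j, {b : Place k K | ¬ ∀ m, b.val ((W j).coeff m) ≤ 1}).Finite :=
    Set.finite_iUnion fun j => Good2_fin hK (W j)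
  set A' : Set (Place k K) := A ∪ ⋃ j, {b : Place k K | ¬ ∀ m, b.val ((W j).coeff m) ≤ 1} with hA'
  have hint : ∀ b ∉ A', ∀ j m, b.val ((W j).coeff m) ≤ 1 := by
    intro b hb j
    by_contra hcon
    exact hb (Or.inr (Set.mem_iUnion.2 ⟨j, hcon⟩))
  have hone : ∀ j : Fin r, ∃ (r : ℕ) (b : Fin r → Place k K)
      (f : Fin r → Fin (ν + 1) → MvPolynomial (Fin (ν + 1)) k)
      (z : Fin r → Fin (ν + 1) → k) (γ : Fin r → MvPolynomial (Fin (ν + 1)) k),
      (∀ s, b s ∉ A' ∧ GoodRed d (b s) F (f s) ∧ Red (b s) x (z s) ∧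
        RedP (b s) (W (ι j)) (γ s)) ∧
      ∀ n, (∀ s, eval (iter (f s) (z s) n) (γ s) = 0) → eval (iter F x n) (W (ι j)) = 0 := by
    intro j
    by_cases h0 : W (ι j) = 0
    · refine ⟨0, Fin.elim0, Fin.elim0, Fin.elim0, Fin.elim0, fun s => s.elim0, fun n _ => ?_⟩
      rw [h0, map_zero]
    · obtain ⟨r, b, f, z, γ, h1, h2⟩ := exists_specialisations hK hF hx B hB (hW j) h0 A'
        (hA.union hA2)
      exact ⟨r, b, f, z, γ, fun s => ⟨(h1 s).1, (h1 s).2.1, (h1 s).2.2.1, (h1 s).2.2.2.1⟩,
        fun n => (h2 n).2⟩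
  choose rr b f z γ h1 h2 using hone
  have h3 : ∀ (j : Fin r) (s : Fin (rr j)), ∃ w : Fin N → MvPolynomial (Fin (ν + 1)) k,
      ∀ j', RedP (b j s) (W j') (w j') := by
    intro j s
    choose w hw using fun j' => redP_exists' hK (b j s) (hint _ (h1 j s).1 j')
    exact ⟨w, hw⟩
  choose w hw using h3
  refine ⟨Σ j : Fin r, Fin (rr j), inferInstance, fun p => b p.1 p.2, fun p => f p.1 p.2,
    fun p => z p.1 p.2, fun p => w p.1 p.2, fun p => ⟨fun h => (h1 p.1 p.2).1 (Or.inl h),
      (h1 p.1 p.2).2.1, (h1 p.1 p.2).2.2.1, hw p.1 p.2⟩, fun n => ⟨fun h p j => ?_, fun h j => ?_⟩⟩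
  · have hred : Red (b p.1 p.2) (iter F x n) (iter (f p.1 p.2) (z p.1 p.2) n) :=
      (h1 p.1 p.2).2.1.iter hhom (h1 p.1 p.2).2.2.1 n
    have hne : iter F x n ≠ 0 := by
      intro h0
      obtain ⟨hw, c, hc, h4⟩ := hred
      apply hw
      funext i
      by_contra h5
      have h6 := h4 i
      rw [h0, Pi.zero_apply, mul_zero, zero_sub, Valuation.map_neg, (b p.1 p.2).triv _ h5] at h6
      exact lt_irrefl _ h6
    rw [red_eval_iff (hW j) (hw p.1 p.2 (ι j)) hred, h j, map_zero]
    exact zero_lt_iff.2 (pow_ne_zero _ (nrm_ne_zero hne))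
  · refine h2 j n fun s => ?_
    have h4 : γ j s = w j s (ι j) := RedP.unique (h1 j s).2.2.2 (hw j s (ι j))
    rw [h4]
    exact h ⟨j, s⟩ j

/-- **Induction on the transcendence degree**, for classes which depend on the point. -/
theorem inductN {d N r : ℕ} (ι : Fin r → Fin N) (e : Fin r → ℕ)
    (Cl : (Fin (ν + 1) → MvPolynomial (Fin (ν + 1)) ℂ) →
      (Fin N → MvPolynomial (Fin (ν + 1)) ℂ) → (Fin (ν + 1) → ℂ) → Prop)
    (R : Set ℕ → Prop) (hRu : R Set.univ) (hRi : ∀ S T, R S → R T → R (S ∩ T))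
    (hspec : ∀ (k : Type) [Field k] [IsAlgClosed k] [Algebra k ℂ] (K : IntermediateField k ℂ),
      IsFunctionField k K → ∀ (F : Fin (ν + 1) → MvPolynomial (Fin (ν + 1)) K)
      (W : Fin N → MvPolynomial (Fin (ν + 1)) K) (x : Fin (ν + 1) → K),
      (IsEndo d fun i => map (algebraMap K ℂ) (F i)) →
      Cl (fun i => map (algebraMap K ℂ) (F i)) (fun j => map (algebraMap K ℂ) (W j))
        (fun i => algebraMap K ℂ (x i)) → x ≠ 0 →
      ∀ B : ℤ, (∀ n, ht k (iter F x n) ≤ B) →
      ∃ A : Set (Place k K), A.Finite ∧ ∀ b ∉ A,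
        ∀ (f : Fin (ν + 1) → MvPolynomial (Fin (ν + 1)) k)
        (w : Fin N → MvPolynomial (Fin (ν + 1)) k) (z : Fin (ν + 1) → k), GoodRed d b F f →
          (∀ j, RedP b (W j) (w j)) → Red b x z →
          Cl (fun i => map (algebraMap k ℂ) (f i)) (fun j => map (algebraMap k ℂ) (w j))
            (fun i => algebraMap k ℂ (z i)))
    (hunb : ∀ (k : Type) [Field k] [IsAlgClosed k] [Algebra k ℂ] (K : IntermediateField k ℂ),
      IsFunctionField k K → ∀ (F : Fin (ν + 1) → MvPolynomial (Fin (ν + 1)) K)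
      (W : Fin N → MvPolynomial (Fin (ν + 1)) K) (x : Fin (ν + 1) → K),
      (IsEndo d fun i => map (algebraMap K ℂ) (F i)) →
      Cl (fun i => map (algebraMap K ℂ) (F i)) (fun j => map (algebraMap K ℂ) (W j))
        (fun i => algebraMap K ℂ (x i)) →
      x ≠ 0 → (∀ B : ℤ, ∃ n, B < ht k (iter F x n)) → (∀ j, (W (ι j)).IsHomogeneous (e j)) →
      R {n | ∀ j, eval (iter F x n) (W (ι j)) = 0})
    (halg : ∀ (f : Fin (ν + 1) → MvPolynomial (Fin (ν + 1)) ℂ)
      (w : Fin N → MvPolynomial (Fin (ν + 1)) ℂ) (a : Fin (ν + 1) → ℂ),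
      (∀ i m, IsAlgebraic ℚ ((f i).coeff m)) →
      (∀ j m, IsAlgebraic ℚ ((w j).coeff m)) → (∀ i, IsAlgebraic ℚ (a i)) →
      IsEndo d f → Cl f w a → a ≠ 0 → (∀ j, (w (ι j)).IsHomogeneous (e j)) →
      R {n | ∀ j, eval (iter f a n) (w (ι j)) = 0})
    (f : Fin (ν + 1) → MvPolynomial (Fin (ν + 1)) ℂ)
    (w : Fin N → MvPolynomial (Fin (ν + 1)) ℂ) (a : Fin (ν + 1) → ℂ) (hf : IsEndo d f)
    (hcl : Cl f w a) (ha : a ≠ 0) (hg : ∀ j, (w (ι j)).IsHomogeneous (e j)) :
    R {n | ∀ j, eval (iter f a n) (w (ι j)) = 0} := by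
  classical
  have key : ∀ s : Finset ℂ, ∀ (f : Fin (ν + 1) → MvPolynomial (Fin (ν + 1)) ℂ)
      (w : Fin N → MvPolynomial (Fin (ν + 1)) ℂ) (a : Fin (ν + 1) → ℂ),
      (∀ i m, IsAlgebraic (IntermediateField.adjoin ℚ (s : Set ℂ)) ((f i).coeff m)) →
      (∀ j m, IsAlgebraic (IntermediateField.adjoin ℚ (s : Set ℂ)) ((w j).coeff m)) →
      (∀ i, IsAlgebraic (IntermediateField.adjoin ℚ (s : Set ℂ)) (a i)) →
      IsEndo d f → Cl f w a → a ≠ 0 → (∀ j, (w (ι j)).IsHomogeneous (e j)) →
      R {n | ∀ j, eval (iter f a n) (w (ι j)) = 0} := by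
    intro s
    induction s using Finset.induction_on with
    | empty =>
      intro f w a hf1 hw1 ha1 hf hcl ha hg
      have h1 : ∀ c : ℂ, IsAlgebraic (IntermediateField.adjoin ℚ ((∅ : Finset ℂ) : Set ℂ)) c →
          IsAlgebraic ℚ c := by
        intro c hc
        refine alg_mono ?_ hc
        have h3 : IntermediateField.adjoin ℚ ((∅ : Finset ℂ) : Set ℂ) = ⊥ := by
          rw [Finset.coe_empty, IntermediateField.adjoin_empty]
        have h4 : ∀ z : ℂ, z ∈ IntermediateField.adjoin ℚ ((∅ : Finset ℂ) : Set ℂ) →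
            z ∈ Set.range (algebraMap ℚ ℂ) := by
          intro z hz
          rw [h3] at hz
          exact IntermediateField.mem_bot.1 hz
        exact fun y => h4 _ y.2
      exact halg f w a (fun i m => h1 _ (hf1 i m)) (fun j m => h1 _ (hw1 j m))
        (fun i => h1 _ (ha1 i)) hf hcl ha hg
    | insert t s hts ih =>
      intro f w a hf1 hw1 ha1 hf hcl ha hg
      set Q₀ := IntermediateField.adjoin ℚ (s : Set ℂ) with hQ₀
      set Q₁ := IntermediateField.adjoin ℚ ((insert t s : Finset ℂ) : Set ℂ) with hQ₁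
      let k : IntermediateField Q₀ ℂ := algebraicClosure Q₀ ℂ
      haveI hkcl : IsAlgClosed k := IsAlgClosure.isAlgClosed Q₀
      have hmemk : ∀ c : ℂ, c ∈ k ↔ IsAlgebraic Q₀ c := fun c => mem_algebraicClosure_iff
      by_cases htk : t ∈ k
      · -- `t` is algebraic
        have h1 : ∀ c : ℂ, IsAlgebraic Q₁ c → IsAlgebraic Q₀ c := by
          intro c hc
          have h2 : IsAlgebraic k c := by
            refine alg_mono ?_ hc
            intro y
            have hle : Q₁ ≤ k.restrictScalars ℚ := by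
              rw [hQ₁, IntermediateField.adjoin_le_iff]
              intro z hz
              rw [Finset.coe_insert] at hz
              rcases hz with rfl | hz
              · exact htk
              · change z ∈ k
                rw [hmemk]
                exact isAlgebraic_algebraMap (R := Q₀) (A := ℂ)
                  (⟨z, IntermediateField.subset_adjoin ℚ _ hz⟩ : Q₀)
            exact ⟨⟨(y : ℂ), hle y.2⟩, rfl⟩
          obtain ⟨c', hc'⟩ := emb_mem_range h2
          rw [← hmemk, ← hc']
          exact c'.2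
        exact ih f w a (fun i m => h1 _ (hf1 i m)) (fun j m => h1 _ (hw1 j m))
          (fun i => h1 _ (ha1 i)) hf hcl ha hg
      · -- `t` is transcendental
        have htk' : t ∉ Set.range (algebraMap k ℂ) := by
          rintro ⟨c, rfl⟩
          exact htk c.2
        have h1 : ∀ c : ℂ, IsAlgebraic Q₁ c →
            IsAlgebraic (IntermediateField.adjoin k {t}) c := by
          intro c hc
          refine alg_mono ?_ hc
          intro y
          have hle : (Q₁ : Set ℂ) ⊆ (IntermediateField.adjoin k ({t} : Set ℂ) : Set ℂ) := by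
            have h2 : Q₁ ≤ ((IntermediateField.adjoin k ({t} : Set ℂ)).restrictScalars
                Q₀).restrictScalars ℚ := by
              rw [hQ₁, IntermediateField.adjoin_le_iff]
              intro z hz
              rw [Finset.coe_insert] at hz
              rcases hz with rfl | hz
              · exact IntermediateField.subset_adjoin k _ rfl
              · have h3 : z ∈ k := by
                  rw [hmemk]
                  exact isAlgebraic_algebraMap (R := Q₀) (A := ℂ)
                    (⟨z, IntermediateField.subset_adjoin ℚ _ hz⟩ : Q₀)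
                exact (IntermediateField.adjoin k ({t} : Set ℂ)).algebraMap_mem ⟨z, h3⟩
            exact h2
          exact ⟨⟨(y : ℂ), hle y.2⟩, rfl⟩
        set S : Set ℂ := ((⋃ i, ((f i).coeffs : Set ℂ)) ∪ ⋃ j, ((w j).coeffs : Set ℂ)) ∪
          Set.range a with hS
        have hSf : S.Finite := ((Set.finite_iUnion fun i => (f i).coeffs.finite_toSet).union
          (Set.finite_iUnion fun j => (w j).coeffs.finite_toSet)).union
          (Set.finite_range a)
        have hSa : ∀ c ∈ S, IsAlgebraic (IntermediateField.adjoin k {t}) c := by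
          rintro c ((hc | hc) | ⟨i, rfl⟩)
          · obtain ⟨i, hi⟩ := Set.mem_iUnion.1 hc
            obtain ⟨m, hm⟩ := mem_coeffs_iff.1 hi
            rw [hm.2]
            exact h1 _ (hf1 i m)
          · obtain ⟨i, hi⟩ := Set.mem_iUnion.1 hc
            obtain ⟨m, hm⟩ := mem_coeffs_iff.1 hi
            rw [hm.2]
            exact h1 _ (hw1 i m)
          · exact h1 _ (ha1 i)
        set K := IntermediateField.adjoin k (insert t S) with hKdef
        have hK : IsFunctionField k K := isFunctionField_adjoin htk' hSf hSa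
        have hmem : ∀ c ∈ S, c ∈ K := fun c hc =>
          IntermediateField.subset_adjoin k _ (Set.mem_insert_of_mem _ hc)
        choose F hF using fun i => exists_lift K (p := f i) fun c hc =>
          hmem c (Or.inl (Or.inl (Set.mem_iUnion.2 ⟨i, hc⟩)))
        choose W hW using fun j => exists_lift K (p := w j) fun c hc =>
          hmem c (Or.inl (Or.inr (Set.mem_iUnion.2 ⟨j, hc⟩)))
        let x : Fin (ν + 1) → K := fun i => ⟨a i, hmem _ (Or.inr ⟨i, rfl⟩)⟩
        have hxa : (fun i => algebraMap K ℂ (x i)) = a := rfl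
        have hFf : (fun i => map (algebraMap K ℂ) (F i)) = f := funext hF
        have hWw : (fun j => map (algebraMap K ℂ) (W j)) = w := funext hW
        have hx : x ≠ 0 := by
          intro h
          apply ha
          funext i
          exact congrArg (algebraMap K ℂ) (congrFun h i)
        have hGh : ∀ j, (W (ι j)).IsHomogeneous (e j) := by
          intro j m hm
          refine hg j ?_
          rw [← hW, coeff_map]
          simpa using hm
        have hset : {n | ∀ j, eval (iter f a n) (w (ι j)) = 0} =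
            {n | ∀ j, eval (iter F x n) (W (ι j)) = 0} := by
          ext n
          refine forall_congr' fun j => ?_
          rw [← eval_iter_map F x (W (ι j)) n, hFf, hxa, hW]
        rw [hset]
        have hFe : IsEndo d fun i => map (algebraMap K ℂ) (F i) := by rw [hFf]; exact hf
        have hclK : Cl (fun i => map (algebraMap K ℂ) (F i)) (fun j => map (algebraMap K ℂ) (W j))
            (fun i => algebraMap K ℂ (x i)) := by
          rw [hFf, hWw, hxa]
          exact hcl
        by_cases hu : ∀ B : ℤ, ∃ n, B < ht k (iter F x n)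
        · exact hunb k K hK F W x hFe hclK hx hu hGh
        push Not at hu
        obtain ⟨B, hB⟩ := hu
        obtain ⟨A, hA, hAb⟩ := hspec k K hK F W x hFe hclK hx B hB
        obtain ⟨κ, hκ, b, φ, z, ω, hall, hiff⟩ := exists_specialisationsN hK hFe hx B hB ι e W
          hGh A hA
        have hone : ∀ s : κ, R {n | ∀ j, eval (iter (φ s) (z s) n) (ω s (ι j)) = 0} := by
          intro s
          obtain ⟨hb, hgr, hred, hω⟩ := hall s
          have hcl' := hAb (b s) hb (φ s) (ω s) (z s) hgr hω hred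
          have halgk : ∀ c : k, IsAlgebraic Q₀ (algebraMap k ℂ c) := fun c =>
            (hmemk _).1 c.2
          have h5 := ih (fun i => map (algebraMap k ℂ) (φ s i))
            (fun j => map (algebraMap k ℂ) (ω s j)) (fun i => algebraMap k ℂ (z s i))
            (fun i m => by rw [coeff_map]; exact halgk _)
            (fun j m => by rw [coeff_map]; exact halgk _)
            (fun i => halgk _)
            hgr.endo.map hcl' (by
              intro h
              apply hred.1
              funext i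
              exact (algebraMap k ℂ).injective ((congrFun h i).trans (map_zero _).symm))
            (fun j => (redP_hom (hω (ι j)) (hGh j)).map _)
          have h6 : {n | ∀ j, eval (iter (fun i => map (algebraMap k ℂ) (φ s i))
              (fun i => algebraMap k ℂ (z s i)) n) (map (algebraMap k ℂ) (ω s (ι j))) = 0} =
              {n | ∀ j, eval (iter (φ s) (z s) n) (ω s (ι j)) = 0} := by
            ext n
            exact forall_congr' fun j => eval_iter_map (φ s) (z s) (ω s (ι j)) n
          rwa [h6] at h5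
        have h7 : {n | ∀ j, eval (iter F x n) (W (ι j)) = 0} =
            ⋂ s : κ, {n | ∀ j, eval (iter (φ s) (z s) n) (ω s (ι j)) = 0} := by
          ext n
          rw [Set.mem_iInter]
          exact hiff n
        rw [h7]
        exact iInter_closed hRu hRi _ hone
  -- the finite set of all the coefficients
  set s : Finset ℂ := ((Finset.univ.biUnion fun i => (f i).coeffs) ∪
    (Finset.univ.biUnion fun j => (w j).coeffs)) ∪ Finset.univ.image a with hs
  have hmem : ∀ c ∈ s, IsAlgebraic (IntermediateField.adjoin ℚ (s : Set ℂ)) c := fun c hc =>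
    isAlgebraic_algebraMap (R := IntermediateField.adjoin ℚ (s : Set ℂ)) (A := ℂ)
      (⟨c, IntermediateField.subset_adjoin ℚ _ hc⟩ : IntermediateField.adjoin ℚ (s : Set ℂ))
  have hcoef : ∀ p : MvPolynomial (Fin (ν + 1)) ℂ, (p.coeffs ⊆ s) → ∀ m,
      IsAlgebraic (IntermediateField.adjoin ℚ (s : Set ℂ)) (p.coeff m) := by
    intro p hp m
    by_cases h0 : p.coeff m = 0
    · rw [h0]
      exact isAlgebraic_zero
    · exact hmem _ (hp (coeff_mem_coeffs m h0))
  refine key s f w a (fun i => hcoef _ ?_) (fun j => hcoef _ ?_) (fun i => hmem _ ?_)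
    hf hcl ha hg
  · intro c hc
    exact Finset.mem_union_left _ (Finset.mem_union_left _
      (Finset.mem_biUnion.2 ⟨i, Finset.mem_univ _, hc⟩))
  · intro c hc
    exact Finset.mem_union_left _ (Finset.mem_union_right _
      (Finset.mem_biUnion.2 ⟨j, Finset.mem_univ _, hc⟩))
  · exact Finset.mem_union_right _ (Finset.mem_image.2 ⟨i, Finset.mem_univ _, rfl⟩)

end Pool.Agent.Helper30.RED

end

section

namespace Pool.Agent.Helper16
end Pool.Agent.Helper16
namespace Pool.Agent.Helper36
end Pool.Agent.Helper36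
namespace Pool.Agent.Helper38.TQ
end Pool.Agent.Helper38.TQ
namespace Pool.Agent.Helper30.TKN
end Pool.Agent.Helper30.TKN
namespace Pool.Agent.Helper38.PC
end Pool.Agent.Helper38.PC

/-!
# Curves in projective space over the complex numbers: specialisation
-/

set_option autoImplicit false

namespace Pool.Agent.Helper30.RED

open MvPolynomial

open Pool.Agent.Helper16 (Place IsFunctionField)

open Pool.Agent.Helper36 (step iter iter_zero iter_succ iter_succ' iter_add iter_map)

open Pool.Agent.Helper38.TQ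

open Pool.Agent.Helper30.TKN

variable {ν : ℕ}

/-- A nonzero form in three variables does not vanish at some point `(l, m, 1)`. -/
theorem exists_affine_point {e : ℕ} {Q : MvPolynomial (Fin 3) ℂ} (hQ : Q.IsHomogeneous e)
    (hQ0 : Q ≠ 0) : ∃ l m : ℂ, eval ![l, m, 1] Q ≠ 0 := by
  have h1 : Q * X 2 ≠ 0 := mul_ne_zero hQ0 (X_ne_zero 2)
  obtain ⟨p, hp⟩ : ∃ p, eval p (Q * X 2) ≠ 0 := by
    by_contra hcon
    push Not at hcon
    exact h1 (MvPolynomial.funext fun p => by rw [hcon p, map_zero])
  rw [map_mul, eval_X] at hp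
  have h2 : eval p Q ≠ 0 := left_ne_zero_of_mul hp
  have h3 : p 2 ≠ 0 := right_ne_zero_of_mul hp
  refine ⟨p 0 / p 2, p 1 / p 2, ?_⟩
  intro h4
  apply h2
  have h5 : p = fun i => p 2 * (![p 0 / p 2, p 1 / p 2, 1] : Fin 3 → ℂ) i := by
    funext i
    fin_cases i
    · change p 0 = p 2 * (p 0 / p 2)
      rw [mul_div_cancel₀ _ h3]
    · change p 1 = p 2 * (p 1 / p 2)
      rw [mul_div_cancel₀ _ h3]
    · change p 2 = p 2 * 1
      rw [mul_one]
  rw [h5]
  have h6 := eval_smul_hom (ν := 2) hQ (p 2) (![p 0 / p 2, p 1 / p 2, 1] : Fin 3 → ℂ)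
  rw [h4, mul_zero] at h6
  exact h6

/-- A closed set of dimension at most one does not meet a suitable linear subspace of codimension
two. -/
theorem exists_two_forms {S : Set (MvPolynomial (Fin (ν + 1)) ℂ)}
    (hS : ∀ g ∈ S, ∃ e, g.IsHomogeneous e)
    (hdim : ringKrullDim (MvPolynomial (Fin (ν + 1)) ℂ ⧸ Ideal.span S) ≤ 2) :
    ∃ c : ℕ → Fin (ν + 1) → ℂ, ∀ x : Fin (ν + 1) → ℂ, (∀ g ∈ S, eval x g = 0) →
      (∀ j < 2, ∑ i, c j i * x i = 0) → x = 0 := by
  classical
  have hstart : ∃ c : ℕ → Fin (ν + 1) → ℂ, ∀ x : Fin (ν + 1) → ℂ, (∀ g ∈ S, eval x g = 0) →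
      (∀ j < ν + 1 + 2, ∑ i, c j i * x i = 0) → x = 0 := by
    refine ⟨fun j i => if j = i.val then 1 else 0, fun x _ hx => ?_⟩
    funext i
    have h1 := hx i.val (by omega)
    rw [Finset.sum_eq_single i] at h1
    · simpa using h1
    · intro j _ hj
      have h2 : ¬ i.val = j.val := fun h => hj (Fin.ext h.symm)
      simp only [h2, if_false, zero_mul]
    · intro h
      exact absurd (Finset.mem_univ i) h
  have hdesc : ∀ m : ℕ, (∃ c : ℕ → Fin (ν + 1) → ℂ, ∀ x : Fin (ν + 1) → ℂ,
      (∀ g ∈ S, eval x g = 0) → (∀ j < m + 3, ∑ i, c j i * x i = 0) → x = 0) →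
      ∃ c : ℕ → Fin (ν + 1) → ℂ, ∀ x : Fin (ν + 1) → ℂ,
        (∀ g ∈ S, eval x g = 0) → (∀ j < m + 2, ∑ i, c j i * x i = 0) → x = 0 := by
    rintro m ⟨c, hc⟩
    obtain ⟨e, Q, hQ, hQ0, hQv⟩ := exists_relation_linear hS hdim ![c m, c (m + 1), c (m + 2)]
    obtain ⟨l, l', hl⟩ := exists_affine_point hQ hQ0
    refine ⟨fun j i => if j < m then c j i else if j = m then c m i - l * c (m + 2) i
      else c (m + 1) i - l' * c (m + 2) i, fun x hx hj => hc x hx ?_⟩
    set t : ℂ := ∑ i, c (m + 2) i * x i with ht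
    have h0 : ∑ i, c m i * x i = l * t := by
      have h1 := hj m (by omega)
      simp only [lt_irrefl, if_false, if_true, sub_mul, Finset.sum_sub_distrib] at h1
      rw [sub_eq_zero] at h1
      rw [h1, ht, Finset.mul_sum]
      exact Finset.sum_congr rfl fun i _ => by ring
    have h1 : ∑ i, c (m + 1) i * x i = l' * t := by
      have h1 := hj (m + 1) (by omega)
      have h2 : ¬ m + 1 < m := by omega
      have h3 : ¬ m + 1 = m := by omega
      simp only [h2, h3, if_false, sub_mul, Finset.sum_sub_distrib] at h1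
      rw [sub_eq_zero] at h1
      rw [h1, ht, Finset.mul_sum]
      exact Finset.sum_congr rfl fun i _ => by ring
    have ht0 : t = 0 := by
      have h2 := hQv x hx
      have h3 : (fun j => ∑ i, (![c m, c (m + 1), c (m + 2)] : Fin 3 → Fin (ν + 1) → ℂ) j i * x i)
          = fun j => t * (![l, l', 1] : Fin 3 → ℂ) j := by
        funext j
        fin_cases j
        · change ∑ i, c m i * x i = t * l
          rw [h0, mul_comm]
        · change ∑ i, c (m + 1) i * x i = t * l'
          rw [h1, mul_comm]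
        · change ∑ i, c (m + 2) i * x i = t * 1
          rw [mul_one]
      rw [h3] at h2
      have h4 := eval_smul_hom (ν := 2) hQ t (![l, l', 1] : Fin 3 → ℂ)
      have h6 : eval (t • (![l, l', 1] : Fin 3 → ℂ)) Q = 0 := h2
      rw [h6] at h4
      have h5 := (mul_eq_zero.1 h4.symm).resolve_right hl
      exact eq_zero_of_pow_eq_zero h5
    intro j hjm
    rcases lt_or_ge j m with h | h
    · have h2 := hj j (by omega)
      simp only [h, if_true] at h2
      exact h2
    · have h2 : j = m ∨ j = m + 1 ∨ j = m + 2 := by omega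
      rcases h2 with rfl | rfl | rfl
      · rw [h0, ht0, mul_zero]
      · rw [h1, ht0, mul_zero]
      · exact ht0
  have hall : ∀ m : ℕ, (∃ c : ℕ → Fin (ν + 1) → ℂ, ∀ x : Fin (ν + 1) → ℂ,
      (∀ g ∈ S, eval x g = 0) → (∀ j < m + 2, ∑ i, c j i * x i = 0) → x = 0) →
      ∃ c : ℕ → Fin (ν + 1) → ℂ, ∀ x : Fin (ν + 1) → ℂ,
        (∀ g ∈ S, eval x g = 0) → (∀ j < 2, ∑ i, c j i * x i = 0) → x = 0 := by
    intro m
    induction m with
    | zero =>
      intro h
      rwa [zero_add] at h
    | succ m ih =>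
      intro h
      exact ih (hdesc m h)
  exact hall (ν + 1) hstart

end Pool.Agent.Helper30.RED

end

section

namespace Pool.Agent.Helper16
end Pool.Agent.Helper16
namespace Pool.Agent.Helper36
end Pool.Agent.Helper36
namespace Pool.Agent.Helper38.TQ
end Pool.Agent.Helper38.TQ
namespace Pool.Agent.Helper30.TKN
end Pool.Agent.Helper30.TKN
namespace Pool.Agent.Helper30.RED
end Pool.Agent.Helper30.RED
namespace Pool.Agent.Helper72.TH
end Pool.Agent.Helper72.TH

/-!
# Inclusions of closed sets and chains of closed sets specialise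
-/

set_option autoImplicit false

namespace Pool.Agent.Helper30.THC

open MvPolynomial

open Pool.Agent.Helper16 (Place IsFunctionField)

open Pool.Agent.Helper36 (step iter iter_zero iter_succ iter_succ' iter_add iter_map)

open Pool.Agent.Helper38.TQ

open Pool.Agent.Helper30.TKN

open Pool.Agent.Helper30.RED

open Pool.Agent.Helper72.TH (Chain)

variable {ν : ℕ}

theorem aeval_eq_eval_map {K : Type} [Field K] [Algebra K ℂ] (z : Fin (ν + 1) → ℂ)
    (P : MvPolynomial (Fin (ν + 1)) K) : aeval z P = eval z (map (algebraMap K ℂ) P) := by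
  rw [eval_map]
  rfl

theorem aevalC (z : Fin (ν + 1) → ℂ) (P : MvPolynomial (Fin (ν + 1)) ℂ) :
    aeval z P = eval z P := by
  rw [aeval_def, Algebra.algebraMap_self, eval₂_id]

/-- The certificate of an inclusion. -/
theorem exists_cert {K : Type} [Field K] [Algebra K ℂ] {κ : Type} [Fintype κ]
    (H : κ → MvPolynomial (Fin (ν + 1)) K) (g : MvPolynomial (Fin (ν + 1)) K)
    (hH : ∀ z : Fin (ν + 1) → ℂ, (∀ j, aeval z (H j) = 0) → aeval z g = 0) :
    ∃ (r : ℕ) (q : κ → MvPolynomial (Fin (ν + 1)) K), ∑ j, q j * H j = g ^ r := by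
  have h2 : g ∈ (Ideal.span (Set.range H)).radical := by
    rw [← MvPolynomial.vanishingIdeal_zeroLocus_eq_radical (K := ℂ),
      MvPolynomial.mem_vanishingIdeal_iff]
    intro x hx
    rw [MvPolynomial.mem_zeroLocus_iff] at hx
    exact hH x fun j => hx _ (Ideal.subset_span ⟨j, rfl⟩)
  obtain ⟨r, hr⟩ := h2
  obtain ⟨q, hq⟩ := (Submodule.mem_span_range_iff_exists_fun _).1 hr
  exact ⟨r, q, by simpa only [smul_eq_mul] using hq⟩

/-- An inclusion of closed sets specialises at almost all places. -/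
theorem incl_spec {k K : Type} [Field k] [IsAlgClosed k] [Algebra k ℂ] [Field K] [Algebra k K]
    [Algebra K ℂ] (hK : IsFunctionField k K) {κ : Type} [Finite κ]
    (H : κ → MvPolynomial (Fin (ν + 1)) K) (g : MvPolynomial (Fin (ν + 1)) K)
    (hH : ∀ z : Fin (ν + 1) → ℂ, (∀ j, aeval z (H j) = 0) → aeval z g = 0) :
    ∃ A : Set (Place k K), A.Finite ∧ ∀ b ∉ A, ∀ (h : κ → MvPolynomial (Fin (ν + 1)) k)
      (γ : MvPolynomial (Fin (ν + 1)) k), (∀ j, RedP b (H j) (h j)) → RedP b g γ →
      ∀ z : Fin (ν + 1) → ℂ, (∀ j, aeval z (h j) = 0) → aeval z γ = 0 := by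
  classical
  haveI := Fintype.ofFinite κ
  obtain ⟨r, q, hq⟩ := exists_cert H g hH
  refine ⟨⋃ j : κ, {b : Place k K | ¬ ∀ m, b.val ((q j).coeff m) ≤ 1},
    Set.finite_iUnion fun j => Good2_fin hK (q j), fun b hb h γ hh hγ z hz => ?_⟩
  rw [Set.mem_iUnion, not_exists] at hb
  have hint : ∀ j m, b.val ((q j).coeff m) ≤ 1 := fun j => not_not.1 (hb j)
  choose q' hq' using fun j => redP_exists' hK b (hint j)
  have h3 : ∑ j, q' j * h j = γ ^ r := by
    refine RedP.unique (P := g ^ r) ?_ (hγ.pow _)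
    rw [← hq]
    exact RedP.sum _ fun j _ => (hq' j).mul (hh j)
  have h4 := congrArg (fun p => aeval z p) h3
  simp only [map_sum, map_mul, map_pow, hz, mul_zero, Finset.sum_const_zero] at h4
  exact eq_zero_of_pow_eq_zero h4.symm

/-- Finitely many conditions which hold at almost all places hold together. -/
theorem all_places {k K : Type} [Field k] [Field K] [Algebra k K] {ι : Type} [Finite ι]
    {P : ι → Place k K → Prop}
    (h : ∀ i, ∃ A : Set (Place k K), A.Finite ∧ ∀ b ∉ A, P i b) :
    ∃ A : Set (Place k K), A.Finite ∧ ∀ b ∉ A, ∀ i, P i b := by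
  choose A hA h using h
  refine ⟨⋃ i, A i, Set.finite_iUnion hA, fun b hb i => h i b fun hi => hb ?_⟩
  exact Set.mem_iUnion.2 ⟨i, hi⟩

/-- The value of a composition. -/
theorem aeval_comp {K L : Type} [Field K] [Field L] [Algebra K L]
    (F : Fin (ν + 1) → MvPolynomial (Fin (ν + 1)) K) (g : MvPolynomial (Fin (ν + 1)) K)
    (z : Fin (ν + 1) → L) : aeval z (aeval F g) = aeval (fun l => aeval z (F l)) g := by
  rw [comp_aeval_apply]

/-- A chain of closed sets specialises at almost all places. -/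
theorem chain_spec {k K : Type} [Field k] [IsAlgClosed k] [Algebra k ℂ] [Field K] [Algebra k K]
    [Algebra K ℂ] (hK : IsFunctionField k K) {F : Fin (ν + 1) → MvPolynomial (Fin (ν + 1)) K}
    {q : MvPolynomial (Fin (ν + 1)) K} {n : ℕ} {W : Fin n → MvPolynomial (Fin (ν + 1)) K}
    {δ : Fin n → ℕ} {S : ℕ → Finset (Fin n)} {t : ℕ} (hc : Chain ℂ F q W δ S t) :
    ∃ A : Set (Place k K), A.Finite ∧ ∀ b ∉ A,
      ∀ (f : Fin (ν + 1) → MvPolynomial (Fin (ν + 1)) k) (p : MvPolynomial (Fin (ν + 1)) k)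
        (w : Fin n → MvPolynomial (Fin (ν + 1)) k), (∀ i, RedP b (F i) (f i)) → RedP b q p →
        (∀ j, RedP b (W j) (w j)) → Chain ℂ f p w δ S t := by
  classical
  -- invariance
  obtain ⟨A₁, hA₁, h₁⟩ := all_places (k := k) (K := K) (ι := Fin t × Fin n)
    (P := fun e b => e.2 ∈ S e.1 → ∀ (h : {j // j ∈ S e.1} → MvPolynomial (Fin (ν + 1)) k)
      (γ : MvPolynomial (Fin (ν + 1)) k), (∀ j : {j // j ∈ S e.1}, RedP b (W j) (h j)) →
      RedP b (aeval F (W e.2)) γ →
      ∀ z : Fin (ν + 1) → ℂ, (∀ j, aeval z (h j) = 0) → aeval z γ = 0) (by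
    intro e
    by_cases he : e.2 ∈ S e.1
    · obtain ⟨A, hA, h⟩ := incl_spec hK (κ := {j // j ∈ S e.1}) (fun j => W j)
        (aeval F (W e.2)) (fun z hz => by
          rw [aeval_comp]
          exact hc.inv e.1 e.1.2 z (fun j hj => hz ⟨j, hj⟩) e.2 he)
      exact ⟨A, hA, fun b hb _ => h b hb⟩
    · exact ⟨∅, Set.finite_empty, fun b _ h => absurd h he⟩)
  -- descent
  obtain ⟨A₂, hA₂, h₂⟩ := all_places (k := k) (K := K) (ι := Fin t × Fin n)
    (P := fun e b => e.2 ∈ S (e.1 + 1) →
      ∀ (h : Option {j // j ∈ S e.1} → MvPolynomial (Fin (ν + 1)) k)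
      (γ : MvPolynomial (Fin (ν + 1)) k),
      (∀ j : Option {j // j ∈ S e.1}, RedP b (j.elim q fun j => W j) (h j)) →
      RedP b (aeval F (W e.2)) γ →
      ∀ z : Fin (ν + 1) → ℂ, (∀ j, aeval z (h j) = 0) → aeval z γ = 0) (by
    intro e
    by_cases he : e.2 ∈ S (e.1 + 1)
    · obtain ⟨A, hA, h⟩ := incl_spec hK (κ := Option {j // j ∈ S e.1})
        (fun j => j.elim q fun j => W j)
        (aeval F (W e.2)) (fun z hz => by
          rw [aeval_comp]
          exact hc.down e.1 e.1.2 z (fun j hj => hz (some ⟨j, hj⟩)) (hz none) e.2 he)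
      exact ⟨A, hA, fun b hb _ => h b hb⟩
    · exact ⟨∅, Set.finite_empty, fun b _ h => absurd h he⟩)
  -- emptiness
  obtain ⟨A₃, hA₃, h₃⟩ := all_places (k := k) (K := K) (ι := Fin (ν + 1))
    (P := fun i b => ∀ (h : {j // j ∈ S t} → MvPolynomial (Fin (ν + 1)) k)
      (γ : MvPolynomial (Fin (ν + 1)) k), (∀ j : {j // j ∈ S t}, RedP b (W j) (h j)) →
      RedP b (X i) γ →
      ∀ z : Fin (ν + 1) → ℂ, (∀ j, aeval z (h j) = 0) → aeval z γ = 0) (by
    intro i
    obtain ⟨A, hA, h⟩ := incl_spec hK (κ := {j // j ∈ S t}) (fun j => W j) (X i) (fun z hz => by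
      rw [hc.empty z fun j hj => hz ⟨j, hj⟩, aeval_X, Pi.zero_apply])
    exact ⟨A, hA, h⟩)
  refine ⟨A₁ ∪ (A₂ ∪ A₃), hA₁.union (hA₂.union hA₃), fun b hb f p w hf hp hw => ?_⟩
  rw [Set.mem_union, Set.mem_union, not_or, not_or] at hb
  obtain ⟨hb1, hb2, hb3⟩ := hb
  refine ⟨fun j => redP_hom (hw j) (hc.hom j), ?_, ?_, ?_⟩
  · intro i hi z hz j hj
    rw [← aeval_comp]
    exact h₁ b hb1 (⟨i, hi⟩, j) hj (fun j => w j) _ (fun j => hw j) (redP_aeval (hw j) hf) z
      fun j => hz j j.2
  · intro i hi z hz hq j hj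
    rw [← aeval_comp]
    refine h₂ b hb2 (⟨i, hi⟩, j) hj (fun j => j.elim p fun j => w j) _ ?_
      (redP_aeval (hw j) hf) z ?_
    · rintro (_ | j)
      · exact hp
      · exact hw j
    · rintro (_ | j)
      · exact hq
      · exact hz j j.2
  · intro z hz
    funext i
    have h4 := h₃ b hb3 i (fun j => w j) (X i) (fun j => hw j) (redP_C_X b i) z fun j => hz j j.2
    rwa [aeval_X] at h4

/-- Chains over a subfield of `ℂ` and over `ℂ`. -/
theorem chain_map {K : Type} [Field K] [Algebra K ℂ]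
    {F : Fin (ν + 1) → MvPolynomial (Fin (ν + 1)) K}
    {q : MvPolynomial (Fin (ν + 1)) K} {n : ℕ} {W : Fin n → MvPolynomial (Fin (ν + 1)) K}
    {δ : Fin n → ℕ} {S : ℕ → Finset (Fin n)} {t : ℕ} :
    Chain ℂ (fun i => map (algebraMap K ℂ) (F i)) (map (algebraMap K ℂ) q)
      (fun j => map (algebraMap K ℂ) (W j)) δ S t ↔ Chain ℂ F q W δ S t := by
  have h1 : ∀ (z : Fin (ν + 1) → ℂ) (P : MvPolynomial (Fin (ν + 1)) K),
      aeval z (map (algebraMap K ℂ) P) = aeval z P := fun z P => by
    rw [aevalC, aeval_eq_eval_map]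
  constructor
  · intro h
    refine ⟨fun j => hom_of_map _ (h.hom j), ?_, ?_, ?_⟩
    · intro i hi z hz j hj
      have := h.inv i hi z (fun j hj => by rw [h1]; exact hz j hj) j hj
      simpa only [h1] using this
    · intro i hi z hz hq j hj
      have := h.down i hi z (fun j hj => by rw [h1]; exact hz j hj) (by rw [h1]; exact hq) j hj
      simpa only [h1] using this
    · intro z hz
      exact h.empty z fun j hj => by rw [h1]; exact hz j hj
  · intro h
    refine ⟨fun j => (h.hom j).map _, ?_, ?_, ?_⟩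
    · intro i hi z hz j hj
      simp only [h1] at hz ⊢
      exact h.inv i hi z hz j hj
    · intro i hi z hz hq j hj
      simp only [h1] at hz hq ⊢
      exact h.down i hi z hz hq j hj
    · intro z hz
      simp only [h1] at hz
      exact h.empty z hz

end Pool.Agent.Helper30.THC

end
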