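import Mathlib
import Pool.Agent.Helper72.TM2.T04

section

namespace Pool.Agent.Helper10.Sub
end Pool.Agent.Helper10.Sub

/-!
# Subspace theorem project: Davenport's lemma
-/

set_option autoImplicit false

namespace Pool.Agent.Helper49.Sub

open Pool.Agent.Helper10.Sub

lemma dav_step {κ : Type*} [Fintype κ] [DecidableEq κ] {E : Type*} [AddCommGroup E] [Module ℚ E]
    (m : ℕ) (hm : Fintype.card κ = m + 1) (x : Fin m → E) (M : κ → E →ₗ[ℚ] ℝ) :
    ∃ i0 : κ, ∀ y ∈ Submodule.span ℚ (Set.range x), ∀ B : ℝ,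
      (∀ i, i ≠ i0 → |M i y| ≤ B) → |M i0 y| ≤ m * B := by
  classical
  have : Nonempty κ := Fintype.card_pos_iff.mp (by omega)
  -- a nontrivial real relation
  let Φ : (κ → ℝ) →ₗ[ℝ] (Fin m → ℝ) :=
    { toFun := fun α k => ∑ i, α i * M i (x k)
      map_add' := by
        intro α β
        funext k
        simp [add_mul, Finset.sum_add_distrib]
      map_smul' := by
        intro c α
        funext k
        simp [Finset.mul_sum, mul_assoc] }
  have hker : LinearMap.ker Φ ≠ ⊥ := by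
    apply LinearMap.ker_ne_bot_of_finrank_lt
    rw [Module.finrank_fintype_fun_eq_card, Module.finrank_fintype_fun_eq_card, hm,
      Fintype.card_fin]
    exact Nat.lt_succ_self m
  obtain ⟨α, hα, hα0⟩ := (Submodule.ne_bot_iff _).mp hker
  rw [LinearMap.mem_ker] at hα
  obtain ⟨i0, hi0⟩ := Finite.exists_max (fun i => |α i|)
  have hpos : 0 < |α i0| := by
    obtain ⟨i, hi⟩ := Function.ne_iff.mp hα0
    exact lt_of_lt_of_le (abs_pos.mpr hi) (hi0 i)
  refine ⟨i0, fun y hy B hB => ?_⟩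
  have hrel : ∑ i, α i * M i y = 0 := by
    clear hB
    induction hy using Submodule.span_induction with
    | mem z hz =>
      obtain ⟨k, rfl⟩ := hz
      exact congrFun hα k
    | zero => simp
    | add u v _ _ hu hv => simp [mul_add, Finset.sum_add_distrib, hu, hv]
    | smul c u _ hu =>
      have : ∑ i, α i * M i (c • u) = (c : ℝ) * ∑ i, α i * M i u := by
        rw [Finset.mul_sum]
        refine Finset.sum_congr rfl fun i _ => ?_
        rw [map_smul, Rat.smul_def]
        ring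
      rw [this, hu, mul_zero]
  have h1 : α i0 * M i0 y = - ∑ i ∈ Finset.univ.erase i0, α i * M i y := by
    rw [← Finset.add_sum_erase _ _ (Finset.mem_univ i0)] at hrel
    linarith
  have h2 : |α i0| * |M i0 y| ≤ |α i0| * (m * B) := by
    rw [← abs_mul, h1, abs_neg]
    calc |∑ i ∈ Finset.univ.erase i0, α i * M i y|
        ≤ ∑ i ∈ Finset.univ.erase i0, |α i * M i y| := Finset.abs_sum_le_sum_abs _ _
      _ ≤ ∑ _i ∈ Finset.univ.erase i0, |α i0| * B := by
          refine Finset.sum_le_sum fun i hi => ?_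
          rw [abs_mul]
          exact mul_le_mul (hi0 i) (hB i (Finset.ne_of_mem_erase hi)) (abs_nonneg _)
            (abs_nonneg _)
      _ = |α i0| * (m * B) := by
          rw [Finset.sum_const, Finset.card_erase_of_mem (Finset.mem_univ _), Finset.card_univ,
            hm, Nat.add_sub_cancel, nsmul_eq_mul]
          ring
  exact le_of_mul_le_mul_left h2 hpos

lemma dav_chain {E : Type*} [AddCommGroup E] [Module ℚ E] (m : ℕ) :
    ∀ {κ : Type} [Fintype κ] [DecidableEq κ] (_ : Fintype.card κ = m)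
      (x : Fin m → E) (M : κ → E →ₗ[ℚ] ℝ),
    ∃ π : κ ≃ Fin m, ∀ l : Fin m, ∀ y ∈ Submodule.span ℚ (x '' {i | i ≤ l}), ∀ B : ℝ, 0 ≤ B →
      (∀ i, π i ≤ l → |M i y| ≤ B) → ∀ i, |M i y| ≤ (m : ℝ) ^ m * B := by
  classical
  induction m with
  | zero =>
    intro κ _ _ hm x M
    exact ⟨Fintype.equivFinOfCardEq hm, fun l => l.elim0⟩
  | succ m ih =>
    intro κ _ _ hm x M
    obtain ⟨i0, hi0⟩ := dav_step m hm (fun k => x k.castSucc) M
    have hcard : Fintype.card {i // i ≠ i0} = m := by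
      rw [Fintype.card_subtype_compl, Fintype.card_subtype_eq, hm, Nat.add_sub_cancel]
    obtain ⟨π', hπ'⟩ := ih hcard (fun k => x k.castSucc) (fun i => M i.1)
    let π : κ ≃ Fin (m + 1) :=
      (Equiv.optionSubtypeNe i0).symm.trans ((Equiv.optionCongr π').trans finSuccEquivLast.symm)
    have hπ0 : π i0 = Fin.last m := by
      simp [π]
    have hπ1 : ∀ i (hi : i ≠ i0), π i = (π' ⟨i, hi⟩).castSucc := by
      intro i hi
      simp [π, Equiv.optionSubtypeNe_symm_of_ne hi]
    have hpow : (1 : ℝ) ≤ ((m + 1 : ℕ) : ℝ) ^ (m + 1) := by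
      apply one_le_pow₀
      push_cast
      linarith [Nat.cast_nonneg (α := ℝ) m]
    refine ⟨π, fun l y hy B hB hle => ?_⟩
    rcases Fin.eq_castSucc_or_eq_last l with ⟨l', rfl⟩ | rfl
    · have hy' : y ∈ Submodule.span ℚ ((fun k : Fin m => x k.castSucc) '' {i | i ≤ l'}) := by
        refine Submodule.span_mono ?_ hy
        rintro _ ⟨i, hi, rfl⟩
        rw [Set.mem_ofPred_eq] at hi
        have hi' : i.val ≤ l'.val := by
          have := hi
          rw [Fin.le_def] at this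
          simpa using this
        refine ⟨⟨i.val, lt_of_le_of_lt hi' l'.isLt⟩, ?_, ?_⟩
        · rw [Set.mem_ofPred_eq, Fin.le_def]
          exact hi'
        · rfl
      have h1 : ∀ i (hi : i ≠ i0), |M i y| ≤ (m : ℝ) ^ m * B := by
        intro i hi
        refine hπ' l' y hy' B hB (fun i' hi' => ?_) ⟨i, hi⟩
        refine hle i'.1 ?_
        rw [hπ1 i'.1 i'.2]
        exact Fin.castSucc_le_castSucc_iff.mpr hi'
      have h2 : |M i0 y| ≤ m * ((m : ℝ) ^ m * B) := by
        refine hi0 y ?_ _ h1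
        refine Submodule.span_mono ?_ hy'
        exact Set.image_subset_range _ _
      have hm0 : (0 : ℝ) ≤ m := Nat.cast_nonneg m
      intro i
      by_cases hi : i = i0
      · subst hi
        refine h2.trans ?_
        rw [← mul_assoc, ← pow_succ']
        refine mul_le_mul_of_nonneg_right ?_ hB
        push_cast
        exact pow_le_pow_left₀ hm0 (by linarith) _
      · refine (h1 i hi).trans (mul_le_mul_of_nonneg_right ?_ hB)
        push_cast
        calc (m : ℝ) ^ m ≤ ((m : ℝ) + 1) ^ m := pow_le_pow_left₀ hm0 (by linarith) _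
          _ ≤ ((m : ℝ) + 1) ^ (m + 1) := pow_le_pow_right₀ (by linarith) (Nat.le_succ m)
    · intro i
      calc |M i y| ≤ B := hle i (Fin.le_last _)
        _ = 1 * B := (one_mul B).symm
        _ ≤ _ := mul_le_mul_of_nonneg_right hpow hB

variable {ι : Type} [Fintype ι] [DecidableEq ι] {T : Type} [Fintype T] {p : T → ℕ}
  [∀ t, Fact (p t).Prime]

/-- The real forms as `ℚ`-linear maps. -/
noncomputable def Llin (S : Sys ι T p) (a : ι → ℝ) (i : ι) : (ι → ℚ) →ₗ[ℚ] ℝ where
  toFun := fun y => S.L y i / a i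
  map_add' := by
    intro y z
    simp only [Sys.L, Pi.add_apply, Rat.cast_add, mul_add, Finset.sum_add_distrib, add_div]
  map_smul' := by
    intro c y
    simp only [Sys.L, Pi.smul_apply, smul_eq_mul, Rat.cast_mul, RingHom.id_apply, Rat.smul_def]
    rw [← mul_div_assoc, Finset.mul_sum]
    congr 1
    refine Finset.sum_congr rfl fun j _ => ?_
    ring

omit [Fintype T] in
lemma Np_nonneg (S : Sys ι T p) (t : T) (a' : ι → ℝ) (x : ι → ℚ) : 0 ≤ S.Np t a' x :=
  norm_nonneg _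

/-- DAV -/
theorem dav (S : Sys ι T p) (K : ℝ) (hK : 0 < K) : ∃ C : ℝ, 0 < C ∧
    ∀ (a : ι → ℝ) (a' : T → ι → ℝ), (∀ i, 0 < a i) → (∀ t i, 0 < a' t i) →
    ∀ x : Fin (Fintype.card ι) → ι → ℚ, LinearIndependent ℚ x →
      (∀ j y, PVec (pprod p) y → y ∉ Submodule.span ℚ (x '' {i | i < j}) →
        S.N a a' (x j) ≤ K * S.N a a' y) →
    ∀ ρ : Fin (Fintype.card ι) → ℝ, (∀ j, 0 < ρ j) → Antitone ρ →
      (∀ i j, i ≤ j → ρ i * S.N a a' (x i) ≤ K * (ρ j * S.N a a' (x j))) →
    ∃ π : ι ≃ Fin (Fintype.card ι), ∀ j y, PVec (pprod p) y →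
      y ∉ Submodule.span ℚ (x '' {i | i < j}) →
      ρ j * S.N a a' (x j) ≤ C * S.N (fun i => a i / ρ (π i)) a' y := by
  classical
  set n := Fintype.card ι with hn
  have hCpos : (0 : ℝ) < (n : ℝ) ^ n := by
    rcases Nat.eq_zero_or_pos n with h | h
    · rw [h]; norm_num
    · exact pow_pos (Nat.cast_pos.mpr h) _
  refine ⟨K * (K * (n : ℝ) ^ n), by positivity, ?_⟩
  intro a a' ha ha' x hx hmin ρ hρ hanti hmono
  obtain ⟨π, hπ⟩ := dav_chain n hn.symm x (Llin S a)
  refine ⟨π, fun j y hy hyj => ?_⟩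
  -- the smallest `l` with `y ∈ V_l`
  have htop : ⊤ ≤ Submodule.span ℚ (Set.range x) := by
    have := hx.span_eq_top_of_card_eq_finrank' (by simp [hn])
    exact this.ge
  have hex : ∃ l : ℕ, l < n ∧ ∀ hl : l < n,
      y ∈ Submodule.span ℚ (x '' {i | i ≤ (⟨l, hl⟩ : Fin n)}) := by
    have hnpos : 0 < n := lt_of_le_of_lt (Nat.zero_le _) j.isLt
    refine ⟨n - 1, by omega, fun hl => ?_⟩
    have : x '' {i | i ≤ (⟨n - 1, hl⟩ : Fin n)} = Set.range x := by
      ext z
      constructor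
      · rintro ⟨i, _, rfl⟩
        exact ⟨i, rfl⟩
      · rintro ⟨i, rfl⟩
        refine ⟨i, ?_, rfl⟩
        rw [Set.mem_ofPred_eq, Fin.le_def]
        have := i.isLt
        show i.val ≤ n - 1
        omega
    rw [this]
    exact htop trivial
  have hl1 := (Nat.find_spec hex).1
  have hl2 := (Nat.find_spec hex).2 hl1
  set l : Fin n := ⟨Nat.find hex, hl1⟩ with hldef
  have hl3 : y ∉ Submodule.span ℚ (x '' {i | i < l}) := by
    intro hmem
    by_cases h0 : Nat.find hex = 0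
    · -- then `y = 0`, contradiction
      have hemp : x '' {i | i < l} = ∅ := by
        rw [Set.image_eq_empty]
        ext i
        simp only [Set.mem_ofPred_eq, Set.mem_empty_iff_false, iff_false, not_lt]
        rw [Fin.le_def, hldef]
        simp [h0]
      rw [hemp, Submodule.span_empty, Submodule.mem_bot] at hmem
      apply hyj
      rw [hmem]
      exact Submodule.zero_mem _
    · have hlt : Nat.find hex - 1 < Nat.find hex := by omega
      refine Nat.find_min hex hlt ⟨by omega, fun hl => ?_⟩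
      refine Submodule.span_mono ?_ hmem
      refine Set.image_mono ?_
      intro i hi
      rw [Set.mem_ofPred_eq, Fin.lt_def] at hi
      rw [Set.mem_ofPred_eq, Fin.le_def]
      have hi' : i.val < Nat.find hex := hi
      show i.val ≤ Nat.find hex - 1
      omega
  have hjl : j ≤ l := by
    by_contra hcon
    rw [not_le] at hcon
    apply hyj
    refine Submodule.span_mono ?_ hl2
    refine Set.image_mono ?_
    intro i hi
    exact lt_of_le_of_lt hi hcon
  have hNl : S.N a a' (x l) ≤ K * S.N a a' y := hmin l y hy hl3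
  -- comparison of the real sizes
  have hinf : ρ l * S.Ninf a y ≤ (n : ℝ) ^ n * S.Ninf (fun i => a i / ρ (π i)) y := by
    set B := S.Ninf (fun i => a i / ρ (π i)) y with hB
    have hB0 : 0 ≤ B := norm_nonneg _
    have h1 : ∀ i, π i ≤ l → |Llin S a i y| ≤ B / ρ l := by
      intro i hi
      rw [le_div_iff₀ (hρ l)]
      have h2 : |S.L y i / (a i / ρ (π i))| ≤ B := by
        have := norm_le_pi_norm (fun i => S.L y i / (a i / ρ (π i))) i
        rw [Real.norm_eq_abs] at this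
        exact this
      have h3 : |S.L y i / (a i / ρ (π i))| = |Llin S a i y| * ρ (π i) := by
        have hne := (ha i).ne'
        have hne' := (hρ (π i)).ne'
        rw [← abs_of_pos (hρ (π i)), ← abs_mul, abs_of_pos (hρ (π i))]
        congr 1
        show S.L y i / (a i / ρ (π i)) = S.L y i / a i * ρ (π i)
        field_simp
      calc |Llin S a i y| * ρ l ≤ |Llin S a i y| * ρ (π i) :=
            mul_le_mul_of_nonneg_left (hanti hi) (abs_nonneg _)
        _ = _ := h3.symm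
        _ ≤ B := h2
    have h4 := hπ l y hl2 (B / ρ l) (div_nonneg hB0 (hρ l).le) h1
    have h5 : S.Ninf a y ≤ (n : ℝ) ^ n * (B / ρ l) := by
      refine (pi_norm_le_iff_of_nonneg ?_).mpr fun i => ?_
      · exact mul_nonneg hCpos.le (div_nonneg hB0 (hρ l).le)
      · rw [Real.norm_eq_abs]
        exact h4 i
    calc ρ l * S.Ninf a y ≤ ρ l * ((n : ℝ) ^ n * (B / ρ l)) :=
          mul_le_mul_of_nonneg_left h5 (hρ l).le
      _ = (n : ℝ) ^ n * B := by
          have := (hρ l).ne'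
          field_simp
  have hN : ρ l * S.N a a' y ≤ (n : ℝ) ^ n * S.N (fun i => a i / ρ (π i)) a' y := by
    unfold Sys.N
    have hprod : 0 ≤ ∏ t, S.Np t (a' t) y := Finset.prod_nonneg fun t _ => Np_nonneg S t _ y
    have := mul_le_mul_of_nonneg_right hinf hprod
    calc _ = ρ l * S.Ninf a y * ∏ t, S.Np t (a' t) y := by ring
      _ ≤ _ := this
      _ = _ := by ring
  calc ρ j * S.N a a' (x j) ≤ K * (ρ l * S.N a a' (x l)) := hmono j l hjl
    _ ≤ K * (ρ l * (K * S.N a a' y)) := by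
        refine mul_le_mul_of_nonneg_left ?_ hK.le
        exact mul_le_mul_of_nonneg_left hNl (hρ l).le
    _ = K * (K * (ρ l * S.N a a' y)) := by ring
    _ ≤ K * (K * ((n : ℝ) ^ n * S.N (fun i => a i / ρ (π i)) a' y)) := by
        refine mul_le_mul_of_nonneg_left ?_ hK.le
        exact mul_le_mul_of_nonneg_left hN hK.le
    _ = _ := by ring

end Pool.Agent.Helper49.Sub

end

section

namespace Pool.Agent.Helper10.Sub
end Pool.Agent.Helper10.Sub

/-!
# Subspace theorem project: the penultimate minimum theorem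
-/

set_option autoImplicit false

namespace Pool.Agent.Helper51.Sub

open Pool.Agent.Helper10.Sub Finset

section PInt

lemma PInt.of_int (P : ℕ) (z : ℤ) : PInt P (z : ℚ) := ⟨0, z, by simp⟩

lemma PInt.add {P : ℕ} {x y : ℚ} (hx : PInt P x) (hy : PInt P y) : PInt P (x + y) := by
  obtain ⟨k, z, hz⟩ := hx
  obtain ⟨l, w, hw⟩ := hy
  refine ⟨k + l, z * P ^ l + w * P ^ k, ?_⟩
  push_cast
  rw [← hz, ← hw]; ring

lemma PInt.mul {P : ℕ} {x y : ℚ} (hx : PInt P x) (hy : PInt P y) : PInt P (x * y) := by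
  obtain ⟨k, z, hz⟩ := hx
  obtain ⟨l, w, hw⟩ := hy
  refine ⟨k + l, z * w, ?_⟩
  push_cast
  rw [← hz, ← hw]; ring

/-- The ring `ℤ[1/P]`. -/
def pring (P : ℕ) : Subring ℚ where
  carrier := {x | PInt P x}
  mul_mem' := PInt.mul
  one_mem' := by simpa using PInt.of_int P 1
  add_mem' := PInt.add
  zero_mem' := by simpa using PInt.of_int P 0
  neg_mem' := fun {x} hx => by
    have := PInt.mul (PInt.of_int P (-1)) hx
    simpa using this

lemma mem_pring {P : ℕ} {x : ℚ} : x ∈ pring P ↔ PInt P x := Iff.rfl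

lemma det_mem_pring {P : ℕ} {κ : Type*} [Fintype κ] [DecidableEq κ] {A : Matrix κ κ ℚ}
    (h : ∀ i j, PInt P (A i j)) : PInt P A.det := by
  rw [← mem_pring, Matrix.det_apply]
  refine (pring P).sum_mem fun σ _ => ?_
  rw [Units.smul_def]
  exact (pring P).zsmul_mem ((pring P).prod_mem fun i _ => h _ _) _

variable {T : Type*} [Fintype T] {p : T → ℕ} [∀ t, Fact (p t).Prime]

/-- product of all absolute values -/
noncomputable def absS (p : T → ℕ) [∀ t, Fact (p t).Prime] (x : ℚ) : ℝ :=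
  |(x : ℝ)| * ∏ t, ‖(x : ℚ_[p t])‖

lemma absS_mul (x y : ℚ) : absS p (x * y) = absS p x * absS p y := by
  unfold absS
  push_cast
  rw [abs_mul]
  simp only [norm_mul]
  rw [prod_mul_distrib]; ring

lemma absS_one : absS p 1 = 1 := by simp [absS]

lemma absS_pow (x : ℚ) (k : ℕ) : absS p (x ^ k) = absS p x ^ k := by
  induction k with
  | zero => simp [absS_one]
  | succ k ih => rw [pow_succ, pow_succ, absS_mul, ih]

lemma absS_prime (hp : Function.Injective p) (t : T) : absS p (p t : ℚ) = 1 := by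
  classical
  unfold absS
  have h1 : ∏ s, ‖((p t : ℚ) : ℚ_[p s])‖ = ((p t : ℝ))⁻¹ := by
    rw [prod_eq_single t]
    · rw [Rat.cast_natCast]
      exact Padic.norm_p
    · intro s _ hst
      rw [Rat.cast_natCast]
      rw [Padic.norm_natCast_eq_one_iff]
      have := (Nat.coprime_primes (Fact.out : (p s).Prime) (Fact.out : (p t).Prime)).mpr
        (fun h => hst (hp h))
      exact this
    · intro h; exact absurd (mem_univ t) h
  rw [h1, Rat.cast_natCast, Nat.abs_cast]
  exact mul_inv_cancel₀ (by exact_mod_cast (Fact.out : (p t).Prime).ne_zero)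

lemma absS_prod {κ : Type*} (s : Finset κ) (f : κ → ℚ) :
    absS p (∏ i ∈ s, f i) = ∏ i ∈ s, absS p (f i) := by
  classical
  induction s using Finset.induction_on with
  | empty => simp [absS_one]
  | insert a s ha ih => rw [prod_insert ha, prod_insert ha, absS_mul, ih]

lemma absS_pprod (hp : Function.Injective p) : absS p (pprod p : ℚ) = 1 := by
  unfold pprod
  push_cast
  rw [absS_prod]
  exact prod_eq_one fun t _ => absS_prime hp t

lemma one_le_absS_int (hp : Function.Injective p) {z : ℤ} (hz : z ≠ 0) :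
    1 ≤ absS p (z : ℚ) := by
  classical
  have h1 : (∏ t, (p t) ^ (padicValInt (p t) z)) ∣ z.natAbs := by
    apply Finset.prod_dvd_of_isRelPrime
    · intro s _ t _ hst
      show IsRelPrime _ _
      rw [← Nat.coprime_iff_isRelPrime]
      apply Nat.Coprime.pow
      exact (Nat.coprime_primes (Fact.out : (p s).Prime) (Fact.out : (p t).Prime)).mpr
        (fun h => hst (hp h))
    · intro t _
      have := pow_padicValNat_dvd (p := p t) (n := z.natAbs)
      simpa [padicValInt] using this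
  have h2 : (∏ t, (p t) ^ (padicValInt (p t) z)) ≤ z.natAbs :=
    Nat.le_of_dvd (Int.natAbs_pos.mpr hz) h1
  have h3 : ∀ t, ‖(((z : ℚ)) : ℚ_[p t])‖ = (((p t : ℝ)) ^ (padicValInt (p t) z))⁻¹ := by
    intro t
    rw [Padic.eq_padicNorm, padicNorm.eq_zpow_of_nonzero (by exact_mod_cast hz),
      padicValRat.of_int]
    push_cast
    rw [zpow_neg, zpow_natCast]
  unfold absS
  simp only [h3]
  rw [prod_inv_distrib, ← div_eq_mul_inv, le_div_iff₀, one_mul]
  · have : ((∏ t, (p t) ^ (padicValInt (p t) z) : ℕ) : ℝ) ≤ (z.natAbs : ℝ) := by exact_mod_cast h2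
    push_cast at this
    have h4 : |(((z : ℚ)) : ℝ)| = (z.natAbs : ℝ) := by
      rw [Rat.cast_intCast, ← Int.cast_abs, Int.abs_eq_natAbs, Int.cast_natCast]
    rw [h4]
    exact this
  · exact prod_pos fun t _ => pow_pos (by exact_mod_cast (Fact.out : (p t).Prime).pos) _

lemma one_le_absS (hp : Function.Injective p) {x : ℚ} (hx : PInt (pprod p) x) (h0 : x ≠ 0) :
    1 ≤ absS p x := by
  obtain ⟨k, z, hz⟩ := hx
  have h1 : absS p x = absS p (z : ℚ) := by
    rw [← hz, absS_mul, absS_pow, absS_pprod hp, one_pow, mul_one]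
  rw [h1]
  apply one_le_absS_int hp
  rintro rfl
  have hP : ((pprod p : ℕ) : ℚ) ≠ 0 := by
    unfold pprod
    push_cast
    exact prod_ne_zero_iff.mpr fun t _ => by exact_mod_cast (Fact.out : (p t).Prime).ne_zero
  rw [Int.cast_zero, mul_eq_zero] at hz
  rcases hz with hz | hz
  · exact h0 hz
  · exact pow_ne_zero _ hP hz

end PInt

section cof

variable {ι : Type*} [Fintype ι] [DecidableEq ι] {k : ℕ} (e : Fin (k + 1) ≃ ι)

/-- Determinant of a vector and `k` further ones. -/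
noncomputable def dt {F : Type*} [CommRing F] (x : ι → F) (y : Fin k → ι → F) : F :=
  Matrix.det (Matrix.of fun r c : Fin (k + 1) => (Fin.cons x y : Fin (k + 1) → ι → F) r (e c))

/-- Cofactor vector of `k` vectors. -/
noncomputable def cof {F : Type*} [CommRing F] (y : Fin k → ι → F) (j : ι) : F :=
  dt e (Pi.single j 1) y

/-- minors -/
noncomputable def mn {F : Type*} [CommRing F] (y : Fin k → ι → F) (c : Fin (k + 1)) : F :=
  Matrix.det (Matrix.of fun r c' : Fin k => y r (e (c.succAbove c')))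

lemma dt_eq {F : Type*} [CommRing F] (x : ι → F) (y : Fin k → ι → F) :
    dt e x y = ∑ c : Fin (k + 1), (-1) ^ (c : ℕ) * x (e c) * mn e y c := by
  unfold dt
  rw [Matrix.det_succ_row_zero]
  refine sum_congr rfl fun c _ => ?_
  rw [Matrix.of_apply, Fin.cons_zero]
  congr 1

lemma cof_eq {F : Type*} [CommRing F] (y : Fin k → ι → F) (c : Fin (k + 1)) :
    cof e y (e c) = (-1) ^ (c : ℕ) * mn e y c := by
  unfold cof
  rw [dt_eq, sum_eq_single c]
  · rw [Pi.single_eq_same, mul_one]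
  · intro d _ hd
    rw [Pi.single_eq_of_ne (fun h => hd (e.injective h)), mul_zero, zero_mul]
  · intro h; exact absurd (mem_univ c) h

lemma dt_eq_sum {F : Type*} [CommRing F] (x : ι → F) (y : Fin k → ι → F) :
    dt e x y = ∑ j, x j * cof e y j := by
  rw [dt_eq, ← Equiv.sum_comp e]
  refine sum_congr rfl fun c _ => ?_
  rw [cof_eq]; ring

lemma dt_mulVec {F : Type*} [CommRing F] (A : Matrix ι ι F) (x : ι → F) (y : Fin k → ι → F) :
    dt e (A.mulVec x) (fun r => A.mulVec (y r)) = dt e x y * A.det := by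
  unfold dt
  rw [← Matrix.det_submatrix_equiv_self e A, ← Matrix.det_transpose (A.submatrix e e),
    ← Matrix.det_mul]
  congr 1
  ext r c
  rw [Matrix.of_apply, Matrix.mul_apply]
  have h : (Fin.cons (A.mulVec x) (fun r => A.mulVec (y r)) : Fin (k + 1) → ι → F) r
      = A.mulVec ((Fin.cons x y : Fin (k + 1) → ι → F) r) := by
    refine Fin.cases ?_ (fun r => ?_) r
    · simp
    · simp
  rw [h, Matrix.mulVec, dotProduct, ← Equiv.sum_comp e]
  refine sum_congr rfl fun d _ => ?_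
  rw [Matrix.of_apply, Matrix.transpose_apply, Matrix.submatrix_apply, mul_comm]

lemma map_dt {F G : Type*} [CommRing F] [CommRing G] (f : F →+* G) (x : ι → F)
    (y : Fin k → ι → F) : f (dt e x y) = dt e (fun i => f (x i)) (fun r i => f (y r i)) := by
  unfold dt
  rw [RingHom.map_det]
  congr 1
  ext r c
  rw [RingHom.mapMatrix_apply, Matrix.map_apply, Matrix.of_apply, Matrix.of_apply]
  refine Fin.cases ?_ (fun r => ?_) r
  · simp
  · simp

lemma map_cof {F G : Type*} [CommRing F] [CommRing G] (f : F →+* G)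
    (y : Fin k → ι → F) (j : ι) : f (cof e y j) = cof e (fun r i => f (y r i)) j := by
  unfold cof
  rw [map_dt]
  congr 1
  funext i
  by_cases h : i = j
  · subst h; simp
  · simp [Pi.single_eq_of_ne h]

lemma norm_dt_le {F : Type*} [NormedField F] {a : ι → ℝ} (ha : ∀ i, 0 ≤ a i) {x : ι → F}
    {y : Fin k → ι → F} {bx : ℝ} {b : Fin k → ℝ}
    (hx : ∀ i, ‖x i‖ ≤ a i * bx) (hy : ∀ r i, ‖y r i‖ ≤ a i * b r) :
    ‖dt e x y‖ ≤ ((k + 1).factorial : ℝ) * (∏ i, a i) * (bx * ∏ r, b r) := by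
  unfold dt
  rw [Matrix.det_apply']
  have h : ∀ (r : Fin (k + 1)) (i : ι), ‖(Fin.cons x y : Fin (k + 1) → ι → F) r i‖
      ≤ a i * (Fin.cons bx b : Fin (k + 1) → ℝ) r := by
    intro r i
    refine Fin.cases ?_ (fun r => ?_) r
    · simpa using hx i
    · simpa using hy r i
  calc _ ≤ ∑ σ : Equiv.Perm (Fin (k + 1)), ‖((Equiv.Perm.sign σ : ℤ) : F) *
        ∏ i, (Matrix.of fun r c : Fin (k + 1) =>
          (Fin.cons x y : Fin (k + 1) → ι → F) r (e c)) (σ i) i‖ := norm_sum_le _ _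
    _ ≤ ∑ σ : Equiv.Perm (Fin (k + 1)), (∏ i, a i) * (bx * ∏ r, b r) := by
        refine sum_le_sum fun σ _ => ?_
        have h1 : ‖((Equiv.Perm.sign σ : ℤ) : F)‖ = 1 := by
          rcases Int.units_eq_one_or (Equiv.Perm.sign σ) with h | h <;> simp [h]
        rw [norm_mul, h1, one_mul, norm_prod]
        calc _ ≤ ∏ i : Fin (k + 1), (a (e i) * (Fin.cons bx b : Fin (k + 1) → ℝ) (σ i)) :=
              prod_le_prod (fun _ _ => norm_nonneg _) fun i _ => h _ _
          _ = (∏ i, a i) * (bx * ∏ r, b r) := by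
              rw [prod_mul_distrib, Equiv.prod_comp e, Equiv.prod_comp σ, Fin.prod_univ_succ]
              simp
    _ = _ := by
        rw [sum_const, card_univ, Fintype.card_perm, Fintype.card_fin, nsmul_eq_mul, mul_assoc]

lemma dt_self {F : Type*} [CommRing F] (y : Fin k → ι → F) (r : Fin k) : dt e (y r) y = 0 := by
  unfold dt
  apply Matrix.det_zero_of_row_eq (i := 0) (j := r.succ) (Fin.succ_ne_zero r).symm
  funext c
  simp

end cof

section lam

variable {ι : Type*} [Fintype ι] [DecidableEq ι] {k : ℕ} (e : Fin (k + 1) ≃ ι)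

lemma Prim.ne_zero [Nonempty ι] {m : ι → ℤ} (hm : Prim m) : m ≠ 0 := by
  rintro rfl
  have := hm 0 (fun i => by simp)
  exact not_isUnit_zero this

lemma Prim.bezout {m : ι → ℤ} (hm : Prim m) : ∃ u : ι → ℤ, ∑ i, u i * m i = 1 := by
  have h1 : Ideal.span (Set.range m) = ⊤ := by
    obtain ⟨d, hd⟩ := (IsPrincipalIdealRing.principal (Ideal.span (Set.range m))).principal
    have hd' : Ideal.span (Set.range m) = Ideal.span {d} := hd
    rw [hd', Ideal.span_singleton_eq_top]
    apply hm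
    intro i
    rw [← Ideal.mem_span_singleton, ← hd']
    exact Ideal.subset_span ⟨i, rfl⟩
  have h2 : (1 : ℤ) ∈ Ideal.span (Set.range m) := by rw [h1]; trivial
  rw [Ideal.mem_span_range_iff_exists_fun] at h2
  exact h2

lemma dt_ne_zero {x : ι → ℚ} {y : Fin k → ι → ℚ}
    (h : LinearIndependent ℚ (Fin.cons x y : Fin (k + 1) → ι → ℚ)) : dt e x y ≠ 0 := by
  unfold dt
  have h1 : LinearIndependent ℚ (Matrix.of fun r c : Fin (k + 1) =>
      (Fin.cons x y : Fin (k + 1) → ι → ℚ) r (e c)).row := by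
    have h2 := h.map' (LinearEquiv.funCongrLeft ℚ ℚ e).toLinearMap (LinearEquiv.ker _)
    exact h2
  rw [Matrix.linearIndependent_rows_iff_isUnit] at h1
  rw [Matrix.isUnit_iff_isUnit_det] at h1
  exact h1.ne_zero

lemma prop_of_vanish (e : Fin (k + 1) ≃ ι) {m : ι → ℤ} (hm : Prim m) {y : Fin k → ι → ℚ}
    (hli : LinearIndependent ℚ y) (hy : ∀ j, ∑ i, (m i : ℚ) * y j i = 0) {h : ι → ℚ}
    (hh : ∀ j, ∑ i, y j i * h i = 0) : ∃ l : ℚ, ∀ i, h i = l * m i := by
  have : Nonempty ι := ⟨e 0⟩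
  have hcard : Fintype.card ι = k + 1 := by
    rw [← Fintype.card_congr e, Fintype.card_fin]
  -- the functional `g`
  let g : (ι → ℚ) →ₗ[ℚ] ℚ :=
    { toFun := fun x => ∑ i, (m i : ℚ) * x i
      map_add' := fun x y => by simp [mul_add, sum_add_distrib]
      map_smul' := fun c x => by simp [mul_sum, mul_left_comm] }
  have hg : ∀ x, g x = ∑ i, (m i : ℚ) * x i := fun _ => rfl
  obtain ⟨i0, hi0⟩ : ∃ i, m i ≠ 0 := Function.ne_iff.mp (Prim.ne_zero hm)
  set x0 : ι → ℚ := Pi.single i0 1 with hx0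
  have hgx0 : g x0 = m i0 := by
    rw [hg, sum_eq_single i0]
    · simp [hx0]
    · intro b _ hb; simp [hx0, Pi.single_eq_of_ne hb]
    · intro h; exact absurd (mem_univ _) h
  have hgx0' : g x0 ≠ 0 := by rw [hgx0]; exact_mod_cast hi0
  have hker : Submodule.span ℚ (Set.range y) = LinearMap.ker g := by
    apply Submodule.eq_of_le_of_finrank_eq
    · rw [Submodule.span_le]
      rintro _ ⟨j, rfl⟩
      exact hy j
    · rw [finrank_span_eq_card hli, Fintype.card_fin]
      have h1 := LinearMap.finrank_range_add_finrank_ker g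
      have h2 : LinearMap.range g = ⊤ := by
        rw [LinearMap.range_eq_top]
        intro c
        refine ⟨(c / g x0) • x0, ?_⟩
        rw [map_smul, smul_eq_mul, div_mul_cancel₀ _ hgx0']
      rw [h2, finrank_top, Module.finrank_self, Module.finrank_fintype_fun_eq_card, hcard] at h1
      omega
  have hf : ∀ x, x ∈ LinearMap.ker g → ∑ i, x i * h i = 0 := by
    intro x hx
    rw [← hker] at hx
    induction hx using Submodule.span_induction with
    | mem x hx => obtain ⟨r, rfl⟩ := hx; exact hh r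
    | zero => simp
    | add x z _ _ hx hz =>
      simp only [Pi.add_apply, add_mul, sum_add_distrib, hx, hz, add_zero]
    | smul c x _ hx =>
      simp only [Pi.smul_apply, smul_eq_mul, mul_assoc, ← mul_sum, hx, mul_zero]
  have hsing : ∀ i, ∑ j, (Pi.single i 1 : ι → ℚ) j * h j = h i := by
    intro i
    rw [sum_eq_single i]
    · simp
    · intro b _ hb; simp [Pi.single_eq_of_ne hb]
    · intro h; exact absurd (mem_univ _) h
  refine ⟨h i0 / g x0, fun i => ?_⟩
  have h1 : (Pi.single i 1 - (g (Pi.single i 1) / g x0) • x0 : ι → ℚ) ∈ LinearMap.ker g := by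
    rw [LinearMap.mem_ker, map_sub, map_smul, smul_eq_mul, div_mul_cancel₀ _ hgx0', sub_self]
  have h2 := hf _ h1
  simp only [Pi.sub_apply, Pi.smul_apply, smul_eq_mul, sub_mul, sum_sub_distrib, mul_assoc,
    ← mul_sum] at h2
  rw [hx0, hsing, hsing] at h2
  have h3 : g (Pi.single i 1) = m i := by
    rw [hg, sum_eq_single i]
    · simp
    · intro b _ hb; simp [Pi.single_eq_of_ne hb]
    · intro h; exact absurd (mem_univ _) h
  rw [← hx0] at h2
  rw [sub_eq_zero.mp h2, h3]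
  field_simp

lemma exists_lambda {m : ι → ℤ} (hm : Prim m) {y : Fin k → ι → ℚ} (hli : LinearIndependent ℚ y)
    (hy : ∀ j, ∑ i, (m i : ℚ) * y j i = 0) :
    ∃ l : ℚ, l ≠ 0 ∧ ∀ i, cof e y i = l * m i := by
  have : Nonempty ι := ⟨e 0⟩
  have hcard : Fintype.card ι = k + 1 := by
    rw [← Fintype.card_congr e, Fintype.card_fin]
  obtain ⟨l, hl⟩ := prop_of_vanish e hm hli hy (h := cof e y) (fun j => by
    rw [← dt_eq_sum]; exact dt_self e y j)
  refine ⟨l, ?_, hl⟩
  rintro rfl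
  obtain ⟨x, hx⟩ : ∃ x : ι → ℚ, x ∉ Submodule.span ℚ (Set.range y) := by
    by_contra hcon
    push Not at hcon
    have h1 : Submodule.span ℚ (Set.range y) = ⊤ := by
      rw [eq_top_iff]; exact fun x _ => hcon x
    have h2 := finrank_span_eq_card hli
    rw [h1, finrank_top, Module.finrank_fintype_fun_eq_card, hcard, Fintype.card_fin] at h2
    omega
  apply dt_ne_zero e (x := x) (y := y)
  · rw [linearIndependent_finCons]
    exact ⟨hli, hx⟩
  · rw [dt_eq_sum]
    simp [hl]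

lemma pint_lambda {P : ℕ} {m : ι → ℤ} (hm : Prim m) {y : Fin k → ι → ℚ}
    (hy : ∀ j, PVec P (y j)) {l : ℚ} (hl : ∀ i, cof e y i = l * m i) : PInt P l := by
  obtain ⟨u, hu⟩ := Prim.bezout hm
  have h1 : l = ∑ i, (u i : ℚ) * cof e y i := by
    calc l = l * ((∑ i, u i * m i : ℤ) : ℚ) := by rw [hu]; simp
      _ = _ := by
        push_cast
        rw [mul_sum]
        refine sum_congr rfl fun i _ => ?_
        rw [hl]; ring
  rw [h1, ← mem_pring]
  refine (pring P).sum_mem fun i _ => (pring P).mul_mem (PInt.of_int P _) ?_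
  rw [mem_pring]
  apply det_mem_pring
  intro r c
  rw [Matrix.of_apply]
  refine Fin.cases ?_ (fun r => ?_) r
  · rw [Fin.cons_zero, Pi.single_apply]
    split_ifs
    · simpa using PInt.of_int P 1
    · simpa using PInt.of_int P 0
  · rw [Fin.cons_succ]; exact hy r (e c)

end lam

section forms

variable {ι : Type*} [Fintype ι] [DecidableEq ι] {k : ℕ} (e : Fin (k + 1) ≃ ι)
  {F : Type*} [NormedField F] [CharZero F]

/-- values of the forms -/
noncomputable def lf (A : Matrix ι ι F) (x : ι → ℚ) : ι → F := A.mulVec (fun j => (x j : F))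

/-- coefficients of the form `m` with respect to the forms of `A` -/
noncomputable def al (A : Matrix ι ι F) (m : ι → ℤ) : ι → F :=
  Matrix.vecMul (fun j => (m j : F)) A⁻¹

lemma al_vecMul {A : Matrix ι ι F} (hA : A.det ≠ 0) (m : ι → ℤ) :
    Matrix.vecMul (al A m) A = fun j => (m j : F) := by
  unfold al
  rw [Matrix.vecMul_vecMul, Matrix.nonsing_inv_mul _ (isUnit_iff_ne_zero.mpr hA),
    Matrix.vecMul_one]

lemma al_dot {A : Matrix ι ι F} (hA : A.det ≠ 0) (m : ι → ℤ) (x : ι → ℚ) :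
    ∑ i, al A m i * lf A x i = ((∑ i, (m i : ℚ) * x i : ℚ) : F) := by
  have h : ∑ i, al A m i * lf A x i = dotProduct (al A m) (A.mulVec (fun j => (x j : F))) := rfl
  rw [h, Matrix.dotProduct_mulVec, al_vecMul hA]
  push_cast
  rfl

lemma exists_al [Nonempty ι] {A : Matrix ι ι F} (hA : A.det ≠ 0) : ∃ K : ℝ, 0 < K ∧
    ∀ m : ι → ℤ, ∃ i, ∀ j, ‖(m j : F)‖ ≤ K * ‖al A m i‖ := by
  refine ⟨1 + ∑ i, ∑ j, ‖A i j‖, by positivity, fun m => ?_⟩
  obtain ⟨i, hi⟩ := Finite.exists_max (fun i => ‖al A m i‖)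
  refine ⟨i, fun j => ?_⟩
  have h1 : (m j : F) = ∑ i, al A m i * A i j := by
    have := congrFun (al_vecMul hA m) j
    rw [← this]; rfl
  rw [h1]
  calc _ ≤ ∑ i', ‖al A m i' * A i' j‖ := norm_sum_le _ _
    _ ≤ ∑ i', ‖al A m i‖ * ‖A i' j‖ := by
        refine sum_le_sum fun i' _ => ?_
        rw [norm_mul]
        exact mul_le_mul_of_nonneg_right (hi i') (norm_nonneg _)
    _ = (∑ i', ‖A i' j‖) * ‖al A m i‖ := by rw [← mul_sum, mul_comm]
    _ ≤ _ := by
        apply mul_le_mul_of_nonneg_right _ (norm_nonneg _)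
        have h2 : ∑ i', ‖A i' j‖ ≤ ∑ i', ∑ j, ‖A i' j‖ :=
          sum_le_sum fun i' _ => single_le_sum (f := fun j => ‖A i' j‖)
            (fun _ _ => norm_nonneg _) (mem_univ j)
        linarith

lemma main_bound {A : Matrix ι ι F} (hA : A.det ≠ 0) {m : ι → ℤ} {y : Fin k → ι → ℚ} {l : ℚ}
    (hl : ∀ i, cof e y i = l * m i) {a : ι → ℝ} (ha : ∀ i, 0 < a i) {b : Fin k → ℝ}
    (hb : ∀ r i, ‖lf A (y r) i‖ ≤ a i * b r) (i : ι) :
    ‖(l : F)‖ * ‖al A m i‖ * ‖A.det‖ * a i
      ≤ ((k + 1).factorial : ℝ) * (∏ i, a i) * ∏ r, b r := by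
  set x : ι → F := A⁻¹.mulVec (Pi.single i 1) with hx
  have h1 : dt e x (fun r j => ((y r j : ℚ) : F)) = (l : F) * al A m i := by
    rw [dt_eq_sum]
    have h2 : ∀ j, cof e (fun r j => ((y r j : ℚ) : F)) j = (l : F) * (m j : F) := by
      intro j
      have := map_cof e (Rat.castHom F) y j
      rw [hl j] at this
      rw [show (fun r j => ((y r j : ℚ) : F)) = (fun r i => (Rat.castHom F) (y r i)) from rfl,
        ← this]
      simp
    simp only [h2]
    have h3 : al A m i = dotProduct (al A m) (Pi.single i 1) := by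
      rw [dotProduct_single, mul_one]
    rw [h3, al, ← Matrix.dotProduct_mulVec, ← hx, dotProduct, mul_sum]
    exact sum_congr rfl fun j _ => by ring
  have h4 : dt e (Pi.single i 1) (fun r => lf A (y r)) = (l : F) * al A m i * A.det := by
    rw [← h1, ← dt_mulVec]
    congr 1
    rw [hx, Matrix.mulVec_mulVec, Matrix.mul_nonsing_inv _ (isUnit_iff_ne_zero.mpr hA),
      Matrix.one_mulVec]
  have h5 := norm_dt_le e (a := a) (x := Pi.single i 1) (y := fun r => lf A (y r))
    (bx := (a i)⁻¹) (b := b) (fun i => (ha i).le) (by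
      intro j
      by_cases hj : j = i
      · subst hj
        rw [Pi.single_eq_same, norm_one, mul_inv_cancel₀ (ha j).ne']
      · rw [Pi.single_eq_of_ne hj, norm_zero]
        exact mul_nonneg (ha j).le (inv_nonneg.mpr (ha i).le)) (fun r i => hb r i)
  rw [h4, norm_mul, norm_mul] at h5
  have h6 := mul_le_mul_of_nonneg_right h5 (ha i).le
  refine h6.trans (le_of_eq ?_)
  have := (ha i).ne'
  field_simp

lemma dot_bound {A : Matrix ι ι F} (hA : A.det ≠ 0) {m : ι → ℤ} {x : ι → ℚ} {a : ι → ℝ}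
    {b M : ℝ} (hb0 : 0 ≤ b)
    (hb : ∀ i, ‖lf A x i‖ ≤ a i * b) (hM : ∀ i, al A m i ≠ 0 → a i ≤ M) :
    ‖((∑ i, (m i : ℚ) * x i : ℚ) : F)‖ ≤ (∑ i, ‖al A m i‖) * (M * b) := by
  rw [← al_dot hA, sum_mul]
  refine (norm_sum_le _ _).trans (sum_le_sum fun i _ => ?_)
  rw [norm_mul]
  by_cases h : al A m i = 0
  · simp [h]
  · exact mul_le_mul_of_nonneg_left ((hb i).trans (mul_le_mul_of_nonneg_right (hM i h) hb0))
      (norm_nonneg _)

end forms

section sizes

variable {ι : Type*} [Fintype ι] [DecidableEq ι] {T : Type*} [Fintype T] {p : T → ℕ}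
  [∀ t, Fact (p t).Prime]

lemma Ninf_bound (S : Sys ι T p) {a : ι → ℝ} (ha : ∀ i, 0 < a i) (x : ι → ℚ) (i : ι) :
    ‖lf S.A x i‖ ≤ a i * S.Ninf a x := by
  have h1 : ‖S.L x i / a i‖ ≤ S.Ninf a x := norm_le_pi_norm (fun i => S.L x i / a i) i
  rw [norm_div, Real.norm_of_nonneg (ha i).le, div_le_iff₀ (ha i), mul_comm] at h1
  exact h1

lemma Np_bound (S : Sys ι T p) (t : T) {a : ι → ℝ} (ha : ∀ i, 0 < a i) (x : ι → ℚ) (i : ι) :
    ‖lf (S.A' t) x i‖ ≤ a i * S.Np t a x := by
  have h1 : ‖‖S.L' t x i‖ / a i‖ ≤ S.Np t a x := norm_le_pi_norm (fun i => ‖S.L' t x i‖ / a i) i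
  rw [norm_div, Real.norm_of_nonneg (ha i).le, norm_norm, div_le_iff₀ (ha i), mul_comm] at h1
  exact h1

lemma Ninf_nonneg (S : Sys ι T p) (a : ι → ℝ) (x : ι → ℚ) : 0 ≤ S.Ninf a x := norm_nonneg _

lemma Np_nonneg (S : Sys ι T p) (t : T) (a : ι → ℝ) (x : ι → ℚ) : 0 ≤ S.Np t a x :=
  norm_nonneg _

lemma L_smul (S : Sys ι T p) (c : ℚ) (x : ι → ℚ) (i : ι) : S.L (c • x) i = c * S.L x i := by
  unfold Sys.L
  rw [mul_sum]
  refine sum_congr rfl fun j _ => ?_
  rw [Pi.smul_apply, smul_eq_mul]; push_cast; ring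

lemma L'_smul (S : Sys ι T p) (t : T) (c : ℚ) (x : ι → ℚ) (i : ι) :
    S.L' t (c • x) i = c * S.L' t x i := by
  unfold Sys.L'
  rw [mul_sum]
  refine sum_congr rfl fun j _ => ?_
  rw [Pi.smul_apply, smul_eq_mul]; push_cast; ring

lemma Ninf_smul (S : Sys ι T p) (a : ι → ℝ) (c : ℚ) (x : ι → ℚ) :
    S.Ninf a (c • x) = |(c : ℝ)| * S.Ninf a x := by
  unfold Sys.Ninf
  rw [← Real.norm_eq_abs, ← norm_smul]
  congr 1
  funext i
  rw [L_smul, Pi.smul_apply, smul_eq_mul, mul_div_assoc]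

lemma Np_smul (S : Sys ι T p) (t : T) (a : ι → ℝ) (c : ℚ) (x : ι → ℚ) :
    S.Np t a (c • x) = ‖(c : ℚ_[p t])‖ * S.Np t a x := by
  unfold Sys.Np
  have : ‖(c : ℚ_[p t])‖ = ‖(‖(c : ℚ_[p t])‖ : ℝ)‖ := (norm_norm _).symm
  rw [this, ← norm_smul]
  congr 1
  funext i
  rw [L'_smul, Pi.smul_apply, smul_eq_mul, norm_mul, mul_div_assoc]

lemma N_smul (S : Sys ι T p) (a : ι → ℝ) (a' : T → ι → ℝ) (c : ℚ) (x : ι → ℚ) :
    S.N a a' (c • x) = absS p c * S.N a a' x := by
  unfold Sys.N absS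
  simp only [Ninf_smul, Np_smul, prod_mul_distrib]
  ring

lemma lf_ne_zero {F : Type*} [NormedField F] [CharZero F] {A : Matrix ι ι F} (hA : A.det ≠ 0)
    {x : ι → ℚ} (hx : x ≠ 0) : ∃ i, lf A x i ≠ 0 := by
  by_contra hcon
  push Not at hcon
  have h1 : A.mulVec (fun j => (x j : F)) = 0 := funext hcon
  have h2 := Matrix.eq_zero_of_mulVec_eq_zero hA h1
  apply hx
  funext j
  have := congrFun h2 j
  simpa using this

lemma Np_pos (S : Sys ι T p) (t : T) {a : ι → ℝ} (ha : ∀ i, 0 < a i) {x : ι → ℚ} (hx : x ≠ 0) :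
    0 < S.Np t a x := by
  obtain ⟨i, hi⟩ := lf_ne_zero (S.detA' t) hx
  have h1 := Np_bound S t ha x i
  have h2 : 0 < ‖lf (S.A' t) x i‖ := norm_pos_iff.mpr hi
  by_contra hcon
  have h3 : S.Np t a x = 0 := le_antisymm (not_lt.mp hcon) (Np_nonneg S t a x)
  rw [h3, mul_zero] at h1
  linarith

lemma absS_inv (x : ℚ) : absS p x⁻¹ = (absS p x)⁻¹ := by
  unfold absS
  push_cast
  simp only [abs_inv, norm_inv, prod_inv_distrib, mul_inv]

lemma absS_zpow (x : ℚ) (k : ℤ) : absS p (x ^ k) = absS p x ^ k := by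
  cases k with
  | ofNat n => simp [absS_pow]
  | negSucc n => rw [zpow_negSucc, zpow_negSucc, absS_inv, absS_pow]

lemma norm_prod_zpow (hp : Function.Injective p) (k : T → ℤ) (t : T) :
    ‖((∏ s, (p s : ℚ) ^ (k s) : ℚ) : ℚ_[p t])‖ = (p t : ℝ) ^ (-(k t)) := by
  classical
  push_cast
  rw [norm_prod, prod_eq_single t]
  · rw [norm_zpow, Padic.norm_p, inv_zpow, zpow_neg]
  · intro s _ hst
    rw [norm_zpow]
    have h1 : ‖((p s : ℕ) : ℚ_[p t])‖ = 1 := by
      rw [Padic.norm_natCast_eq_one_iff]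
      exact (Nat.coprime_primes (Fact.out : (p t).Prime) (Fact.out : (p s).Prime)).mpr
        (fun h => hst (hp h).symm)
    rw [h1, one_zpow]
  · intro h; exact absurd (mem_univ t) h

lemma pint_prime (t : T) : PInt (pprod p) (p t : ℚ) := by
  have := PInt.of_int (pprod p) (p t : ℤ)
  simpa using this

lemma pint_inv_prime (t : T) : PInt (pprod p) ((p t : ℚ)⁻¹) := by
  classical
  refine ⟨1, ∏ s ∈ univ.erase t, (p s : ℤ), ?_⟩
  have h0 : (p t : ℚ) ≠ 0 := by exact_mod_cast (Fact.out : (p t).Prime).ne_zero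
  unfold pprod
  push_cast
  rw [pow_one, ← mul_prod_erase univ (fun s => (p s : ℚ)) (mem_univ t), ← mul_assoc,
    inv_mul_cancel₀ h0, one_mul]

lemma pint_zpow (t : T) (k : ℤ) : PInt (pprod p) ((p t : ℚ) ^ k) := by
  cases k with
  | ofNat n =>
    have := (pring (pprod p)).pow_mem (pint_prime t) n
    rw [Int.ofNat_eq_natCast, zpow_natCast]
    exact this
  | negSucc n =>
    rw [zpow_negSucc, ← inv_pow]
    exact (pring (pprod p)).pow_mem (pint_inv_prime t) _

lemma exists_scale (hp : Function.Injective p) (S : Sys ι T p) {a' : T → ι → ℝ}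
    (ha : ∀ t i, 0 < a' t i) {x : ι → ℚ} (hx : x ≠ 0) :
    ∃ s : ℚ, s ≠ 0 ∧ PInt (pprod p) s ∧ absS p s = 1 ∧
      ∀ t, ((p t : ℝ))⁻¹ ≤ S.Np t (a' t) (s • x) ∧ S.Np t (a' t) (s • x) ≤ 1 := by
  have h1 : ∀ t, ∃ n : ℤ, S.Np t (a' t) x ∈ Set.Ioc ((p t : ℝ) ^ n) ((p t : ℝ) ^ (n + 1)) :=
    fun t => exists_mem_Ioc_zpow (Np_pos S t (ha t) hx)
      (by exact_mod_cast (Fact.out : (p t).Prime).one_lt)
  choose n hn using h1
  have hppos : ∀ t, (0 : ℝ) < p t := fun t => by exact_mod_cast (Fact.out : (p t).Prime).pos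
  refine ⟨∏ t, (p t : ℚ) ^ (n t + 1), ?_, ?_, ?_, ?_⟩
  · exact prod_ne_zero_iff.mpr fun t _ => zpow_ne_zero _
      (by exact_mod_cast (Fact.out : (p t).Prime).ne_zero)
  · exact (pring (pprod p)).prod_mem fun t _ => pint_zpow t _
  · rw [absS_prod]
    refine prod_eq_one fun t _ => ?_
    rw [absS_zpow, absS_prime hp, one_zpow]
  · intro t
    rw [Np_smul, norm_prod_zpow hp]
    obtain ⟨h2, h3⟩ := hn t
    have h4 : (0 : ℝ) < (p t : ℝ) ^ (-(n t + 1)) := zpow_pos (hppos t) _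
    constructor
    · calc ((p t : ℝ))⁻¹ = (p t : ℝ) ^ (-(n t + 1)) * (p t : ℝ) ^ (n t) := by
            rw [← zpow_add₀ (hppos t).ne', show -(n t + 1) + n t = -1 by ring, zpow_neg_one]
        _ ≤ _ := mul_le_mul_of_nonneg_left h2.le h4.le
    · calc _ ≤ (p t : ℝ) ^ (-(n t + 1)) * (p t : ℝ) ^ (n t + 1) :=
            mul_le_mul_of_nonneg_left h3 h4.le
        _ = 1 := by
            rw [← zpow_add₀ (hppos t).ne', show -(n t + 1) + (n t + 1) = 0 by ring, zpow_zero]

end sizes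

section heights

variable {ι : Type*} [Fintype ι]

lemma htv_ge (m : ι → ℤ) (i : ι) : |(m i : ℝ)| ≤ htv m := by
  unfold htv
  rw [← Int.cast_abs, Int.abs_eq_natAbs, Int.cast_natCast]
  exact_mod_cast Finset.le_sup (f := fun i => (m i).natAbs) (mem_univ i)

lemma htv_le [Nonempty ι] {m : ι → ℤ} {R : ℝ} (h : ∀ i, |(m i : ℝ)| ≤ R) : htv m ≤ R := by
  obtain ⟨i, _, hi⟩ := Finset.exists_mem_eq_sup (univ : Finset ι) univ_nonempty
    (fun i => (m i).natAbs)
  unfold htv
  rw [hi]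
  refine le_trans (le_of_eq ?_) (h i)
  rw [← Int.cast_abs, Int.abs_eq_natAbs, Int.cast_natCast]

lemma htv_nonneg (m : ι → ℤ) : 0 ≤ htv m := by unfold htv; positivity

lemma one_le_htv {m : ι → ℤ} (hm : m ≠ 0) : 1 ≤ htv m := by
  obtain ⟨i, hi⟩ := Function.ne_iff.mp hm
  refine le_trans ?_ (htv_ge m i)
  have : 1 ≤ |m i| := Int.one_le_abs hi
  exact_mod_cast this

lemma finite_box (B : ι → ℤ) : {m : ι → ℤ | ∀ i, |m i| ≤ B i}.Finite := by
  have h := Set.Finite.pi (t := fun i => Set.Icc (-(B i)) (B i))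
    (fun i => Set.finite_Icc (-(B i)) (B i))
  refine h.subset fun m hm => ?_
  rw [Set.mem_pi]
  intro i _
  exact abs_le.mp (hm i)

lemma finite_htv (R : ℝ) : {m : ι → ℤ | htv m ≤ R}.Finite := by
  refine (finite_box (fun _ : ι => ⌊R⌋)).subset fun m hm i => ?_
  rw [Int.le_floor]
  have := (htv_ge m i).trans hm
  push_cast
  exact this

lemma unif_liou {V : Type*} [Finite V] [Nonempty V] (X : V → (ι → ℤ) → ℝ)
    (h : ∀ v, ∃ c C : ℝ, 0 < c ∧ 0 < C ∧ ∀ m : ι → ℤ, m ≠ 0 → X v m ≠ 0 →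
      c * htv m ^ (-C) ≤ X v m) :
    ∃ c C : ℝ, 0 < c ∧ 0 < C ∧ ∀ v, ∀ m : ι → ℤ, m ≠ 0 → X v m ≠ 0 →
      c * htv m ^ (-C) ≤ X v m := by
  choose c C hc hC h using h
  obtain ⟨v0, hv0⟩ := Finite.exists_min c
  obtain ⟨v1, hv1⟩ := Finite.exists_max C
  refine ⟨c v0, C v1, hc _, hC _, fun v m hm hX => le_trans ?_ (h v m hm hX)⟩
  have h1 := one_le_htv hm
  apply mul_le_mul (hv0 v) _ (Real.rpow_nonneg (htv_nonneg m) _) (hc v).le
  exact Real.rpow_le_rpow_of_exponent_le h1 (by linarith [hv1 v])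

end heights

section places

variable {ι : Type*} [Fintype ι] [DecidableEq ι] {T : Type*} [Fintype T] {p : T → ℕ}
  [∀ t, Fact (p t).Prime] {k : ℕ} (e : Fin (k + 1) ≃ ι)

include e in
lemma prod_bound (hp : Function.Injective p) (S : Sys ι T p) {a : ι → ℝ} {a' : T → ι → ℝ}
    (ha : ∀ i, 0 < a i) (ha' : ∀ t i, 0 < a' t i) {m : ι → ℤ} (hm : Prim m)
    {y : Fin k → ι → ℚ} (hli : LinearIndependent ℚ y) (hy : ∀ j, PVec (pprod p) (y j))
    (horth : ∀ j, ∑ i, (m i : ℚ) * y j i = 0) (i : ι) (l : T → ι) :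
    (‖al S.A m i‖ * ∏ t, ‖al (S.A' t) m (l t)‖) * (a i * ∏ t, a' t (l t)) *
      (‖S.A.det‖ * ∏ t, ‖(S.A' t).det‖) ≤
    ((k + 1).factorial : ℝ) ^ (1 + Fintype.card T) * wprod a a' * ∏ r, S.N a a' (y r) := by
  obtain ⟨g, hg0, hg⟩ := exists_lambda e hm hli horth
  have hgP := pint_lambda e hm hy hg
  have h1 := one_le_absS hp hgP hg0
  have hR := main_bound e S.detA hg ha (b := fun r => S.Ninf a (y r))
    (fun r i => Ninf_bound S ha (y r) i) i
  have hP : ∀ t, _ := fun t => main_bound e (S.detA' t) hg (ha' t)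
    (b := fun r => S.Np t (a' t) (y r)) (fun r i => Np_bound S t (ha' t) (y r) i) (l t)
  have h2 := mul_le_mul hR (prod_le_prod (s := univ) (fun t _ => by
      have := (ha' t (l t)).le
      positivity) fun t _ => hP t) (prod_nonneg fun t _ => by
      have := (ha' t (l t)).le
      positivity) (by
      have h3 : 0 ≤ ∏ i, a i := prod_nonneg fun i _ => (ha i).le
      have h4 : 0 ≤ ∏ r, S.Ninf a (y r) := prod_nonneg fun r _ => Ninf_nonneg _ _ _
      positivity)
  have h5 : 0 ≤ (‖al S.A m i‖ * ∏ t, ‖al (S.A' t) m (l t)‖) * (a i * ∏ t, a' t (l t)) *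
      (‖S.A.det‖ * ∏ t, ‖(S.A' t).det‖) := by
    have h3 : 0 ≤ ∏ t, a' t (l t) := prod_nonneg fun t _ => (ha' t _).le
    have := (ha i).le
    positivity
  calc _ ≤ absS p g * ((‖al S.A m i‖ * ∏ t, ‖al (S.A' t) m (l t)‖) * (a i * ∏ t, a' t (l t)) *
      (‖S.A.det‖ * ∏ t, ‖(S.A' t).det‖)) := le_mul_of_one_le_left h5 h1
    _ = _ := by
        unfold absS
        rw [← Real.norm_eq_abs]
        simp only [← mul_assoc]
        rw [show ∀ (A B C D E F G H : ℝ), A * B * C * D * E * F * G * H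
          = (A * C * G * E) * (B * D * H * F) from fun A B C D E F G H => by ring]
        rw [← prod_mul_distrib, ← prod_mul_distrib, ← prod_mul_distrib]
    _ ≤ _ := h2
    _ = _ := by
        unfold wprod Sys.N
        simp only [prod_mul_distrib, prod_const, card_univ]
        rw [prod_comm (s := (univ : Finset T)) (t := (univ : Finset (Fin k)))]
        rw [pow_add, pow_one]
        ring

lemma exists_unit {m : ι → ℤ} (hm : Prim m) (t : T) :
    ∃ j, ‖(m j : ℚ_[p t])‖ = 1 := by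
  by_contra hcon
  push Not at hcon
  have h1 : IsUnit (p t : ℤ) := by
    apply hm
    intro i
    rw [← Padic.norm_intCast_lt_one_iff]
    exact lt_of_le_of_ne (Padic.norm_int_le_one _) (hcon i)
  have h2 : (p t).Prime := Fact.out
  rw [Int.isUnit_iff] at h1
  have h3 := h2.two_le
  omega

end places

section final

variable {ι : Type} [Fintype ι] [DecidableEq ι] {T : Type} [Fintype T] {p : T → ℕ}
  [∀ t, Fact (p t).Prime]

/-- first inequality, with `wprod ≤ 1` and small sizes -/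
lemma step1 (S : Sys ι T p) (hp : Function.Injective p) {k : ℕ} (hk1 : 1 ≤ k)
    (e : Fin (k + 1) ≃ ι) {δ : ℝ} (hδ : 0 < δ) {Q : ℝ} (hQ : 1 ≤ Q)
    {a : ι → ℝ} {a' : T → ι → ℝ}
    (ha : ∀ i, 0 < a i) (ha' : ∀ t i, 0 < a' t i) {m : ι → ℤ} (hm : Prim m)
    {y : Fin k → ι → ℚ} (hli : LinearIndependent ℚ y) (hy : ∀ j, PVec (pprod p) (y j))
    (horth : ∀ j, ∑ i, (m i : ℚ) * y j i = 0) (hw : wprod a a' ≤ 1)
    (hN : ∀ j, S.N a a' (y j) ≤ Q ^ (-δ)) (i : ι) (l : T → ι) :
    (‖al S.A m i‖ * ∏ t, ‖al (S.A' t) m (l t)‖) * (a i * ∏ t, a' t (l t)) ≤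
    (((k + 1).factorial : ℝ) ^ (1 + Fintype.card T) / (‖S.A.det‖ * ∏ t, ‖(S.A' t).det‖)) *
      Q ^ (-δ) := by
  have hD : 0 < ‖S.A.det‖ * ∏ t, ‖(S.A' t).det‖ :=
    mul_pos (norm_pos_iff.mpr S.detA) (prod_pos fun t _ => norm_pos_iff.mpr (S.detA' t))
  have h1 := prod_bound e hp S ha ha' hm hli hy horth i l
  rw [div_mul_eq_mul_div, le_div_iff₀ hD]
  refine h1.trans ?_
  have h2 : (∏ r, S.N a a' (y r)) ≤ Q ^ (-δ) := by
    have h3 : (∏ r : Fin k, S.N a a' (y r)) ≤ ∏ r : Fin k, Q ^ (-δ) :=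
      prod_le_prod (fun r _ => mul_nonneg (Ninf_nonneg _ _ _)
        (prod_nonneg fun t _ => Np_nonneg _ _ _ _)) fun r _ => hN r
    rw [prod_const, card_univ, Fintype.card_fin] at h3
    refine h3.trans (pow_le_of_le_one (by positivity) ?_ (by omega))
    exact Real.rpow_le_one_of_one_le_of_nonpos hQ (by linarith)
  have h4 : 0 ≤ wprod a a' := mul_nonneg (prod_nonneg fun i _ => (ha i).le)
    (prod_nonneg fun t _ => prod_nonneg fun i _ => (ha' t i).le)
  have h5 : 0 ≤ Q ^ (-δ) := by positivity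
  have h6 : 0 ≤ ∏ r, S.N a a' (y r) := prod_nonneg fun r _ => mul_nonneg (Ninf_nonneg _ _ _)
        (prod_nonneg fun t _ => Np_nonneg _ _ _ _)
  rw [mul_assoc]
  apply mul_le_mul_of_nonneg_left _ (by positivity)
  calc _ ≤ 1 * Q ^ (-δ) := mul_le_mul hw h2 h6 zero_le_one
    _ = _ := one_mul _

/-- height bound -/
lemma step2 [Nonempty ι] (S : Sys ι T p) : ∃ C3 : ℝ, 0 < C3 ∧ ∀ (C2 Q B : ℝ), 1 ≤ Q → 0 ≤ C2 →
    ∀ (a : ι → ℝ) (a' : T → ι → ℝ), (∀ i, Q ^ (-B) ≤ a i) → (∀ t i, Q ^ (-B) ≤ a' t i) →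
    ∀ m : ι → ℤ, Prim m → (∀ (i : ι) (l : T → ι),
      (‖al S.A m i‖ * ∏ t, ‖al (S.A' t) m (l t)‖) * (a i * ∏ t, a' t (l t)) ≤ C2) →
      htv m ≤ C3 * C2 * Q ^ (B * (1 + Fintype.card T)) := by
  obtain ⟨K, hK, hK'⟩ := exists_al S.detA
  have h1 := fun t => exists_al (S.detA' t)
  choose KT hKT hKT' using h1
  refine ⟨K * ∏ t, KT t, mul_pos hK (prod_pos fun t _ => hKT t), ?_⟩
  intro C2 Q B hQ hC2 a a' ha ha' m hm hX
  obtain ⟨i, hi⟩ := hK' m
  have h2 := fun t => hKT' t m
  choose l hl using h2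
  have hQ0 : 0 < Q := by linarith
  have h3 : htv m ≤ K * ‖al S.A m i‖ := htv_le fun j => by
    rw [← Real.norm_eq_abs]; exact hi j
  have h4 : ∀ t, 1 ≤ KT t * ‖al (S.A' t) m (l t)‖ := by
    intro t
    obtain ⟨j, hj⟩ := exists_unit (p := p) hm t
    rw [← hj]; exact hl t j
  have h5 : (1 : ℝ) ≤ ∏ t, (KT t * ‖al (S.A' t) m (l t)‖) := by
    calc (1 : ℝ) = ∏ _t : T, (1 : ℝ) := by simp
      _ ≤ _ := prod_le_prod (fun _ _ => zero_le_one) fun t _ => h4 t
  have h6 : htv m ≤ (K * ∏ t, KT t) * (‖al S.A m i‖ * ∏ t, ‖al (S.A' t) m (l t)‖) := by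
    calc htv m ≤ htv m * ∏ t, (KT t * ‖al (S.A' t) m (l t)‖) :=
          le_mul_of_one_le_right (htv_nonneg m) h5
      _ ≤ (K * ‖al S.A m i‖) * ∏ t, (KT t * ‖al (S.A' t) m (l t)‖) :=
          mul_le_mul_of_nonneg_right h3 (by linarith)
      _ = _ := by rw [prod_mul_distrib]; ring
  have h7 : (Q ^ (B * (1 + Fintype.card T)))⁻¹ ≤ a i * ∏ t, a' t (l t) := by
    calc (Q ^ (B * (1 + Fintype.card T)))⁻¹ = Q ^ (-B) * ∏ _t : T, Q ^ (-B) := by
          rw [prod_const, card_univ, ← Real.rpow_natCast, ← Real.rpow_mul hQ0.le,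
            ← Real.rpow_add hQ0, ← Real.rpow_neg hQ0.le]
          congr 1; ring
      _ ≤ _ := mul_le_mul (ha i) (prod_le_prod (fun _ _ => by positivity) fun t _ => ha' t _)
          (by positivity) ((by positivity : 0 ≤ Q ^ (-B)).trans (ha i))
  set X := ‖al S.A m i‖ * ∏ t, ‖al (S.A' t) m (l t)‖ with hXdef
  have hX0 : 0 ≤ X := by positivity
  have hE : 0 < Q ^ (B * (1 + Fintype.card T)) := by positivity
  have h8 : X ≤ C2 * Q ^ (B * (1 + Fintype.card T)) := by
    have h9 : X * (Q ^ (B * (1 + Fintype.card T)))⁻¹ ≤ C2 :=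
      (mul_le_mul_of_nonneg_left h7 hX0).trans (hX i l)
    rwa [← div_eq_mul_inv, div_le_iff₀ hE] at h9
  calc htv m ≤ (K * ∏ t, KT t) * X := h6
    _ ≤ (K * ∏ t, KT t) * (C2 * Q ^ (B * (1 + Fintype.card T))) :=
        mul_le_mul_of_nonneg_left h8 (mul_pos hK (prod_pos fun t _ => hKT t)).le
    _ = _ := by ring

/-- lower bound by Liouville -/
lemma step3 (S : Sys ι T p) {c Cc δ1 Q : ℝ} (hc : 0 < c) (hCc : 0 < Cc) (hQ : 1 ≤ Q) {m : ι → ℤ}
    (hm0 : m ≠ 0) (hm : htv m ≤ Q ^ δ1)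
    (hR : ∀ i, al S.A m i ≠ 0 → c * htv m ^ (-Cc) ≤ ‖al S.A m i‖)
    (hP : ∀ t i, al (S.A' t) m i ≠ 0 → c * htv m ^ (-Cc) ≤ ‖al (S.A' t) m i‖)
    {i : ι} {l : T → ι} (hi : al S.A m i ≠ 0) (hl : ∀ t, al (S.A' t) m (l t) ≠ 0) :
    c ^ (1 + Fintype.card T) * Q ^ (-(δ1 * Cc * (1 + Fintype.card T))) ≤
      ‖al S.A m i‖ * ∏ t, ‖al (S.A' t) m (l t)‖ := by
  have hQ0 : 0 < Q := by linarith
  have h1 := one_le_htv hm0
  have h2 : c * Q ^ (-(δ1 * Cc)) ≤ c * htv m ^ (-Cc) := by
    apply mul_le_mul_of_nonneg_left _ hc.le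
    rw [← mul_neg, Real.rpow_mul hQ0.le]
    exact Real.rpow_le_rpow_of_nonpos (by linarith) hm (by linarith)
  have h3 : 0 ≤ c * Q ^ (-(δ1 * Cc)) := by positivity
  calc c ^ (1 + Fintype.card T) * Q ^ (-(δ1 * Cc * (1 + Fintype.card T)))
      = (c * Q ^ (-(δ1 * Cc))) * ∏ _t : T, (c * Q ^ (-(δ1 * Cc))) := by
        rw [prod_const, card_univ, ← pow_succ', add_comm 1 (Fintype.card T), mul_pow]
        congr 1
        rw [← Real.rpow_natCast (Q ^ _), ← Real.rpow_mul hQ0.le]
        congr 1; push_cast; ring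
    _ ≤ _ := mul_le_mul (h2.trans (hR i hi)) (prod_le_prod (fun _ _ => h3) fun t _ =>
        h2.trans (hP t _ (hl t))) (prod_nonneg fun _ _ => h3) (norm_nonneg _)

/-- an integral vector with smaller supports is orthogonal to all `y j` -/
lemma step4 (S : Sys ι T p) (hp : Function.Injective p) {a : ι → ℝ} {a' : T → ι → ℝ}
    (ha : ∀ i, 0 < a i) (ha' : ∀ t i, 0 < a' t i) {m m' : ι → ℤ} {Y : ℝ}
    (hmR : ∃ i, al S.A m i ≠ 0) (hmP : ∀ t, ∃ i, al (S.A' t) m i ≠ 0)
    (hY : ∀ (i : ι) (l : T → ι), al S.A m i ≠ 0 → (∀ t, al (S.A' t) m (l t) ≠ 0) →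
      a i * ∏ t, a' t (l t) ≤ Y)
    (hR : ∀ i, al S.A m' i ≠ 0 → al S.A m i ≠ 0)
    (hP : ∀ t i, al (S.A' t) m' i ≠ 0 → al (S.A' t) m i ≠ 0) {y : ι → ℚ}
    (hy : PVec (pprod p) y)
    (hlt : ((∑ i, ‖al S.A m' i‖) * ∏ t, ∑ i, ‖al (S.A' t) m' i‖) * Y * S.N a a' y < 1) :
    ∑ i, y i * (m' i : ℚ) = 0 := by
  classical
  obtain ⟨i, hi, hi'⟩ := Finset.exists_max_image (univ.filter fun i => al S.A m i ≠ 0) a
    (by obtain ⟨i, hi⟩ := hmR; exact ⟨i, by simp [hi]⟩)
  have h1 : ∀ t, ∃ i ∈ (univ.filter fun i => al (S.A' t) m i ≠ 0),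
      ∀ j ∈ (univ.filter fun i => al (S.A' t) m i ≠ 0), a' t j ≤ a' t i := fun t =>
    Finset.exists_max_image _ (a' t) (by obtain ⟨i, hi⟩ := hmP t; exact ⟨i, by simp [hi]⟩)
  choose l hl hl' using h1
  simp only [mem_filter, mem_univ, true_and] at hi hi' hl hl'
  have hYi := hY i l hi hl
  by_contra hne
  have hcomm : ∑ i, y i * (m' i : ℚ) = ∑ i, (m' i : ℚ) * y i :=
    sum_congr rfl fun i _ => mul_comm _ _
  rw [hcomm] at hne
  have hPI : PInt (pprod p) (∑ i, (m' i : ℚ) * y i) :=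
    (pring (pprod p)).sum_mem fun i _ => (pring (pprod p)).mul_mem (PInt.of_int _ _) (hy i)
  have h2 := one_le_absS hp hPI hne
  have hbR := dot_bound S.detA (m := m') (x := y) (a := a) (Ninf_nonneg S a y)
    (Ninf_bound S ha y) (M := a i) (fun j hj => hi' j (hR j hj))
  have hbP := fun t => dot_bound (S.detA' t) (m := m') (x := y) (a := a' t)
    (Np_nonneg S t (a' t) y) (Np_bound S t (ha' t) y) (M := a' t (l t))
    (fun j hj => hl' t j (hP t j hj))
  have h3 : absS p (∑ i, (m' i : ℚ) * y i) ≤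
      ((∑ i, ‖al S.A m' i‖) * ∏ t, ∑ i, ‖al (S.A' t) m' i‖) * (a i * ∏ t, a' t (l t)) *
        S.N a a' y := by
    unfold absS
    rw [← Real.norm_eq_abs]
    calc _ ≤ ((∑ i, ‖al S.A m' i‖) * (a i * S.Ninf a y)) *
          ∏ t, ((∑ i, ‖al (S.A' t) m' i‖) * (a' t (l t) * S.Np t (a' t) y)) := by
            apply mul_le_mul hbR (prod_le_prod (fun _ _ => norm_nonneg _) fun t _ => hbP t)
              (prod_nonneg fun _ _ => norm_nonneg _)
            have := (ha i).le
            have := Ninf_nonneg S a y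
            positivity
      _ = _ := by
            unfold Sys.N
            simp only [prod_mul_distrib]
            ring
  have h4 : 0 ≤ S.N a a' y := mul_nonneg (Ninf_nonneg _ _ _)
    (prod_nonneg fun t _ => Np_nonneg _ _ _ _)
  have h5 : ((∑ i, ‖al S.A m' i‖) * ∏ t, ∑ i, ‖al (S.A' t) m' i‖) * (a i * ∏ t, a' t (l t)) *
        S.N a a' y ≤ ((∑ i, ‖al S.A m' i‖) * ∏ t, ∑ i, ‖al (S.A' t) m' i‖) * Y *
        S.N a a' y := by
    apply mul_le_mul_of_nonneg_right _ h4
    apply mul_le_mul_of_nonneg_left hYi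
    positivity
  linarith

/-- reduction to finitely many systems of exponents -/
lemma step5 [Nonempty ι] (S : Sys ι T p) (hp : Function.Injective p) {δ η B Q : ℝ} (hδ : 0 < δ)
    (hη : 0 < η) (hηδ : η * (1 + Fintype.card T) = δ / 4) (hQ : 1 < Q)
    (hP : ((pprod p : ℕ) : ℝ) ≤ Q ^ (δ / 4)) {a : ι → ℝ} {a' : T → ι → ℝ}
    (haB : ∀ i, Q ^ (-B) ≤ a i ∧ a i ≤ Q ^ B) (haB' : ∀ t i, Q ^ (-B) ≤ a' t i ∧ a' t i ≤ Q ^ B)
    (hw : wprod a a' ≤ 1) {k : ℕ} {y : Fin k → ι → ℚ} (hli : LinearIndependent ℚ y)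
    (hy : ∀ j, PVec (pprod p) (y j)) (hN : ∀ j, S.N a a' (y j) ≤ Q ^ (-δ)) :
    ∃ (z : ι → ℤ) (z' : T → ι → ℤ), (∀ i, z i ∈ Finset.Icc ⌈-B / η⌉ ⌈B / η⌉) ∧
      (∀ t i, z' t i ∈ Finset.Icc ⌈-B / η⌉ ⌈B / η⌉) ∧
      (∑ i, (η * z i - 3 / 4 * δ) + ∑ t, ∑ i, η * z' t i < 0) ∧
      ∃ y' : Fin k → ι → ℚ, LinearIndependent ℚ y' ∧ (∀ j, PVec (pprod p) (y' j)) ∧
        (∀ j, ∃ s : ℚ, y' j = s • y j) ∧
        (∀ j i, |S.L (y' j) i| ≤ Q ^ (η * z i - 3 / 4 * δ)) ∧
        (∀ t j i, ‖S.L' t (y' j) i‖ ≤ Q ^ (η * z' t i)) := by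
  have hQ0 : 0 < Q := by linarith
  have ha : ∀ i, 0 < a i := fun i => (by positivity : 0 < Q ^ (-B)).trans_le (haB i).1
  have ha' : ∀ t i, 0 < a' t i := fun t i => (by positivity : 0 < Q ^ (-B)).trans_le (haB' t i).1
  have hrange : ∀ x : ℝ, 0 < x → Q ^ (-B) ≤ x → x ≤ Q ^ B →
      ⌈Real.logb Q x / η⌉ ∈ Finset.Icc ⌈-B / η⌉ ⌈B / η⌉ := by
    intro x hx h1 h2
    rw [Finset.mem_Icc]
    constructor
    · apply Int.ceil_mono
      apply div_le_div_of_nonneg_right _ hη.le
      rw [Real.le_logb_iff_rpow_le hQ hx]; exact h1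
    · apply Int.ceil_mono
      apply div_le_div_of_nonneg_right _ hη.le
      rw [Real.logb_le_iff_le_rpow hQ hx]; exact h2
  have hup : ∀ x : ℝ, 0 < x → x ≤ Q ^ (η * (⌈Real.logb Q x / η⌉ : ℤ)) := by
    intro x hx
    rw [← Real.logb_le_iff_le_rpow hQ hx, mul_comm, ← div_le_iff₀ hη]
    exact Int.le_ceil _
  have hlt : ∀ x : ℝ, η * (⌈Real.logb Q x / η⌉ : ℤ) ≤ Real.logb Q x + η := by
    intro x
    have h1 := (Int.ceil_lt_add_one (Real.logb Q x / η)).le
    calc η * (⌈Real.logb Q x / η⌉ : ℤ) ≤ η * (Real.logb Q x / η + 1) :=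
          mul_le_mul_of_nonneg_left h1 hη.le
      _ = _ := by field_simp
  refine ⟨fun i => ⌈Real.logb Q (a i) / η⌉, fun t i => ⌈Real.logb Q (a' t i) / η⌉,
    fun i => hrange _ (ha i) (haB i).1 (haB i).2,
    fun t i => hrange _ (ha' t i) (haB' t i).1 (haB' t i).2, ?_, ?_⟩
  · have h1 : Real.logb Q (wprod a a') = ∑ i, Real.logb Q (a i) + ∑ t, ∑ i, Real.logb Q (a' t i) := by
      unfold wprod
      rw [Real.logb_mul (prod_ne_zero_iff.mpr fun i _ => (ha i).ne')
        (prod_ne_zero_iff.mpr fun t _ => prod_ne_zero_iff.mpr fun i _ => (ha' t i).ne'),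
        Real.logb_prod _ _ (fun i _ => (ha i).ne'),
        Real.logb_prod _ _ (fun t _ => prod_ne_zero_iff.mpr fun i _ => (ha' t i).ne')]
      congr 1
      exact sum_congr rfl fun t _ => Real.logb_prod _ _ (fun i _ => (ha' t i).ne')
    have h2 : Real.logb Q (wprod a a') ≤ 0 := by
      apply Real.logb_nonpos hQ _ hw
      exact mul_nonneg (prod_nonneg fun i _ => (ha i).le)
        (prod_nonneg fun t _ => prod_nonneg fun i _ => (ha' t i).le)
    have h3 : ∑ i, (η * (⌈Real.logb Q (a i) / η⌉ : ℤ) - 3 / 4 * δ) ≤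
        ∑ i, (Real.logb Q (a i) + η - 3 / 4 * δ) :=
      sum_le_sum fun i _ => by linarith [hlt (a i)]
    have h4 : ∑ t, ∑ i, η * (⌈Real.logb Q (a' t i) / η⌉ : ℤ) ≤
        ∑ t, ∑ i, (Real.logb Q (a' t i) + η) :=
      sum_le_sum fun t _ => sum_le_sum fun i _ => hlt (a' t i)
    have hn : (1 : ℝ) ≤ Fintype.card ι := by exact_mod_cast Fintype.card_pos
    simp only [sum_add_distrib, sum_sub_distrib, sum_const, card_univ, nsmul_eq_mul] at h3 h4 ⊢
    have h5 : (Fintype.card ι : ℝ) * η + Fintype.card T * (Fintype.card ι * η) =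
        Fintype.card ι * (δ / 4) := by rw [← hηδ]; ring
    nlinarith
  · have hy0 : ∀ j, y j ≠ 0 := fun j => hli.ne_zero j
    have h1 := fun j => exists_scale hp S ha' (hy0 j)
    choose s hs0 hsP hs1 hsN using h1
    refine ⟨fun j => s j • y j, ?_, ?_, fun j => ⟨s j, rfl⟩, ?_, ?_⟩
    · exact hli.units_smul (fun j => Units.mk0 (s j) (hs0 j))
    · intro j i
      exact PInt.mul (hsP j) (hy j i)
    · intro j i
      have h2 := Ninf_bound S ha (s j • y j) i
      have h3 : S.N a a' (s j • y j) ≤ Q ^ (-δ) := by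
        rw [N_smul, hs1, one_mul]; exact hN j
      have hPpos : 0 < ((pprod p : ℕ) : ℝ) := by
        unfold pprod; push_cast
        exact prod_pos fun t _ => by exact_mod_cast (Fact.out : (p t).Prime).pos
      have h4 : S.Ninf a (s j • y j) * (((pprod p : ℕ) : ℝ))⁻¹ ≤ Q ^ (-δ) := by
        refine le_trans ?_ h3
        unfold Sys.N
        apply mul_le_mul_of_nonneg_left _ (Ninf_nonneg _ _ _)
        unfold pprod; push_cast
        rw [← prod_inv_distrib]
        exact prod_le_prod (fun t _ => by positivity) fun t _ => (hsN j t).1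
      rw [← div_eq_mul_inv, div_le_iff₀ hPpos] at h4
      have h5 : S.Ninf a (s j • y j) ≤ Q ^ (-(3 / 4 * δ)) := by
        calc _ ≤ Q ^ (-δ) * ((pprod p : ℕ) : ℝ) := h4
          _ ≤ Q ^ (-δ) * Q ^ (δ / 4) := mul_le_mul_of_nonneg_left hP (by positivity)
          _ = _ := by rw [← Real.rpow_add hQ0]; congr 1; ring
      rw [show |S.L (s j • y j) i| = ‖lf S.A (s j • y j) i‖ from rfl]
      calc _ ≤ a i * S.Ninf a (s j • y j) := h2
        _ ≤ Q ^ (η * (⌈Real.logb Q (a i) / η⌉ : ℤ)) * Q ^ (-(3 / 4 * δ)) :=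
            mul_le_mul (hup _ (ha i)) h5 (Ninf_nonneg _ _ _) (by positivity)
        _ = _ := by rw [← Real.rpow_add hQ0]; congr 1
    · intro t j i
      have h2 := Np_bound S t (ha' t) (s j • y j) i
      rw [show ‖S.L' t (s j • y j) i‖ = ‖lf (S.A' t) (s j • y j) i‖ from rfl]
      calc _ ≤ a' t i * S.Np t (a' t) (s j • y j) := h2
        _ ≤ a' t i * 1 := mul_le_mul_of_nonneg_left (hsN j t).2 (ha' t i).le
        _ = a' t i := mul_one _
        _ ≤ _ := hup _ (ha' t i)

/-- PENULT, from MACHINE and LIOU -/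
theorem penult_of (S : Sys ι T p) (hp : Function.Injective p) (hι : 2 ≤ Fintype.card ι)
    (hmach : ∀ (c : ι → ℝ) (c' : T → ι → ℝ), ∑ i, c i + ∑ t, ∑ i, c' t i < 0 →
      ∀ δ C1 : ℝ, 0 < δ →
      {m : ι → ℤ | Prim m ∧ ∃ Q : ℝ, 1 ≤ Q ∧ Q ^ δ ≤ htv m ∧ htv m ≤ Q ^ C1 ∧
        ∃ y : Fin (Fintype.card ι - 1) → ι → ℚ, LinearIndependent ℚ y ∧
          (∀ j, PVec (pprod p) (y j)) ∧ (∀ j, ∑ i, (m i : ℚ) * y j i = 0) ∧
          (∀ j i, |S.L (y j) i| ≤ Q ^ (c i)) ∧
          (∀ t j i, ‖S.L' t (y j) i‖ ≤ Q ^ (c' t i))}.Finite)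
    (hliouR : ∀ β : ι → ℝ, (∀ i, IsAlgebraic ℚ (β i)) →
      ∃ c C : ℝ, 0 < c ∧ 0 < C ∧ ∀ m : ι → ℤ, m ≠ 0 → ∑ i, β i * m i ≠ 0 →
        c * htv m ^ (-C) ≤ |∑ i, β i * m i|)
    (hliouP : ∀ (t : T) (β : ι → ℚ_[p t]), (∀ i, IsAlgebraic ℚ (β i)) →
      ∃ c C : ℝ, 0 < c ∧ 0 < C ∧ ∀ m : ι → ℤ, m ≠ 0 → ∑ i, β i * m i ≠ 0 →
        c * htv m ^ (-C) ≤ ‖∑ i, β i * m i‖)
    (δ B : ℝ) (hδ : 0 < δ) :
    {m : ι → ℤ | Prim m ∧ ∃ Q : ℝ, 1 ≤ Q ∧ ∃ (a : ι → ℝ) (a' : T → ι → ℝ),
      (∀ i, Q ^ (-B) ≤ a i ∧ a i ≤ Q ^ B) ∧ (∀ t i, Q ^ (-B) ≤ a' t i ∧ a' t i ≤ Q ^ B) ∧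
      wprod a a' ≤ 1 ∧ ∃ y : Fin (Fintype.card ι - 1) → ι → ℚ, LinearIndependent ℚ y ∧
        (∀ j, PVec (pprod p) (y j)) ∧ (∀ j, ∑ i, (m i : ℚ) * y j i = 0) ∧
        (∀ j, S.N a a' (y j) ≤ Q ^ (-δ))}.Finite := by
  classical
  set k := Fintype.card ι - 1 with hkdef
  have hk : Fintype.card ι = k + 1 := by omega
  have hk1 : 1 ≤ k := by omega
  have e : Fin (k + 1) ≃ ι := (Fintype.equivFinOfCardEq hk).symm
  have : Nonempty ι := ⟨e 0⟩
  set nT : ℝ := (Fintype.card T : ℝ) with hnT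
  have hnT0 : 0 ≤ nT := by positivity
  have hD : 0 < ‖S.A.det‖ * ∏ t, ‖(S.A' t).det‖ :=
    mul_pos (norm_pos_iff.mpr S.detA) (prod_pos fun t _ => norm_pos_iff.mpr (S.detA' t))
  set C2 : ℝ := ((k + 1).factorial : ℝ) ^ (1 + Fintype.card T) /
    (‖S.A.det‖ * ∏ t, ‖(S.A' t).det‖) with hC2def
  have hC2 : 0 < C2 := by positivity
  -- Liouville
  obtain ⟨c, Cc, hc, hCc, hliou⟩ := unif_liou (V := ι ⊕ (T × ι))
    (fun v m => Sum.elim (fun i => ‖al S.A m i‖) (fun q => ‖al (S.A' q.1) m q.2‖) v) (by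
      rintro (i | ⟨t, i⟩)
      · obtain ⟨c, C, hc, hC, h⟩ := hliouR (fun j => S.A⁻¹ j i)
          (fun j => inv_isAlgebraic S.algA j i)
        refine ⟨c, C, hc, hC, fun m hm hX => ?_⟩
        have h1 : al S.A m i = ∑ j, S.A⁻¹ j i * m j :=
          sum_congr rfl fun j _ => mul_comm _ _
        simp only [Sum.elim_inl] at hX ⊢
        rw [h1] at hX ⊢
        rw [Real.norm_eq_abs]
        exact h m hm (norm_ne_zero_iff.mp hX)
      · obtain ⟨c, C, hc, hC, h⟩ := hliouP t (fun j => (S.A' t)⁻¹ j i)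
          (fun j => inv_isAlgebraic (S.algA' t) j i)
        refine ⟨c, C, hc, hC, fun m hm hX => ?_⟩
        have h1 : al (S.A' t) m i = ∑ j, (S.A' t)⁻¹ j i * m j :=
          sum_congr rfl fun j _ => mul_comm _ _
        simp only [Sum.elim_inr] at hX ⊢
        rw [h1] at hX ⊢
        exact h m hm (norm_ne_zero_iff.mp hX))
  have hLR : ∀ m : ι → ℤ, m ≠ 0 → ∀ i, al S.A m i ≠ 0 → c * htv m ^ (-Cc) ≤ ‖al S.A m i‖ :=
    fun m hm i hi => hliou (Sum.inl i) m hm (norm_ne_zero_iff.mpr hi)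
  have hLP : ∀ m : ι → ℤ, m ≠ 0 → ∀ t i, al (S.A' t) m i ≠ 0 →
      c * htv m ^ (-Cc) ≤ ‖al (S.A' t) m i‖ :=
    fun m hm t i hi => hliou (Sum.inr (t, i)) m hm (norm_ne_zero_iff.mpr hi)
  obtain ⟨C3, hC3, hstep2⟩ := step2 S
  set δ1 : ℝ := δ / (2 * Cc * (1 + nT)) with hδ1def
  have hδ1 : 0 < δ1 := by positivity
  have hδ1' : δ1 * Cc * (1 + nT) = δ / 2 := by
    rw [hδ1def]; field_simp
  set C4 : ℝ := C2 / c ^ (1 + Fintype.card T) with hC4def
  have hC4 : 0 < C4 := by positivity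
  set η : ℝ := δ / (4 * (1 + nT)) with hηdef
  have hη : 0 < η := by positivity
  have hηδ : η * (1 + (Fintype.card T : ℝ)) = δ / 4 := by
    rw [hηdef, ← hnT]; field_simp
  -- auxiliary vectors
  let W : Finset ι × (T → Finset ι) → (ι → ℤ) → Prop := fun q m' =>
    m' ≠ 0 ∧ (∀ i, al S.A m' i ≠ 0 → i ∈ q.1) ∧ (∀ t i, al (S.A' t) m' i ≠ 0 → i ∈ q.2 t)
  have hmm : ∀ q, ∃ m' : ι → ℤ, (∃ m'', W q m'') → W q m' := by
    intro q
    by_cases h : ∃ m'', W q m''
    · exact ⟨h.choose, fun _ => h.choose_spec⟩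
    · exact ⟨0, fun h' => absurd h' h⟩
  choose mm hmm using hmm
  let Km : (ι → ℤ) → ℝ := fun m' => (∑ i, ‖al S.A m' i‖) * ∏ t, ∑ i, ‖al (S.A' t) m' i‖
  -- the threshold
  obtain ⟨Q0, hQ0⟩ : ∃ Q0 : ℝ, ∀ Q, Q0 ≤ Q → 2 ≤ Q ∧ C3 * C2 ≤ Q ∧
      ((pprod p : ℕ) : ℝ) ≤ Q ^ (δ / 4) ∧ ∀ q, Km (mm q) * C4 + 1 ≤ Q ^ (δ / 2) := by
    have h1 := tendsto_rpow_atTop (show 0 < δ / 4 by positivity)
    have h2 := tendsto_rpow_atTop (show 0 < δ / 2 by positivity)
    have h3 := (Filter.eventually_ge_atTop (2 : ℝ)).and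
      ((Filter.eventually_ge_atTop (C3 * C2)).and
      ((h1.eventually_ge_atTop ((pprod p : ℕ) : ℝ)).and
      (Filter.eventually_all.mpr fun q => h2.eventually_ge_atTop (Km (mm q) * C4 + 1))))
    exact Filter.eventually_atTop.mp h3
  set E : ℝ := B * (1 + nT) with hEdef
  -- the three finite sets
  have hA1 := finite_htv (ι := ι) (C3 * C2 * (max Q0 1) ^ |E|)
  have hA2 : (⋃ q, {m : ι → ℤ | ∀ i, |m i| ≤ |mm q i|}).Finite :=
    Set.finite_iUnion fun q => finite_box (fun i => |mm q i|)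
  set J := Finset.Icc ⌈-B / η⌉ ⌈B / η⌉ with hJ
  have hA3 : (⋃ q : (ι → J) × (T → ι → J), {m : ι → ℤ |
      (∑ i, (η * ((q.1 i : ℤ) : ℝ) - 3 / 4 * δ) + ∑ t, ∑ i, η * ((q.2 t i : ℤ) : ℝ) < 0) ∧
      Prim m ∧ ∃ Q : ℝ, 1 ≤ Q ∧ Q ^ δ1 ≤ htv m ∧ htv m ≤ Q ^ (E + 1) ∧
        ∃ y : Fin k → ι → ℚ, LinearIndependent ℚ y ∧
          (∀ j, PVec (pprod p) (y j)) ∧ (∀ j, ∑ i, (m i : ℚ) * y j i = 0) ∧
          (∀ j i, |S.L (y j) i| ≤ Q ^ (η * ((q.1 i : ℤ) : ℝ) - 3 / 4 * δ)) ∧
          (∀ t j i, ‖S.L' t (y j) i‖ ≤ Q ^ (η * ((q.2 t i : ℤ) : ℝ)))}).Finite := by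
    refine Set.finite_iUnion fun q => ?_
    by_cases hsum : ∑ i, (η * ((q.1 i : ℤ) : ℝ) - 3 / 4 * δ) +
        ∑ t, ∑ i, η * ((q.2 t i : ℤ) : ℝ) < 0
    · refine (hmach _ _ hsum δ1 (E + 1) hδ1).subset ?_
      rintro m ⟨_, h⟩
      exact h
    · convert Set.finite_empty
      rw [Set.eq_empty_iff_forall_notMem]
      rintro m ⟨h, _⟩
      exact hsum h
  refine ((hA1.union hA2).union hA3).subset ?_
  rintro m ⟨hm, Q, hQ, a, a', haB, haB', hw, y, hli, hy, horth, hN⟩
  have hQp : 0 < Q := by linarith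
  have ha : ∀ i, 0 < a i := fun i => (by positivity : 0 < Q ^ (-B)).trans_le (haB i).1
  have ha' : ∀ t i, 0 < a' t i := fun t i => (by positivity : 0 < Q ^ (-B)).trans_le (haB' t i).1
  have hm0 : m ≠ 0 := Prim.ne_zero hm
  have hs1 := step1 S hp hk1 e hδ hQ ha ha' hm hli hy horth hw hN
  have hQδ : Q ^ (-δ) ≤ 1 := Real.rpow_le_one_of_one_le_of_nonpos hQ (by linarith)
  have hs2 : htv m ≤ C3 * C2 * Q ^ E := by
    refine hstep2 C2 Q B hQ hC2.le a a' (fun i => (haB i).1) (fun t i => (haB' t i).1) m hm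
      fun i l => (hs1 i l).trans ?_
    exact mul_le_of_le_one_right hC2.le hQδ
  by_cases hQQ : Q < Q0
  · left; left
    show htv m ≤ _
    refine hs2.trans (mul_le_mul_of_nonneg_left ?_ (by positivity))
    calc Q ^ E ≤ Q ^ |E| := Real.rpow_le_rpow_of_exponent_le hQ (le_abs_self E)
      _ ≤ (max Q0 1) ^ |E| := Real.rpow_le_rpow hQp.le (hQQ.le.trans (le_max_left _ _))
          (abs_nonneg _)
  push Not at hQQ
  obtain ⟨hQ2, hQC, hQP, hQK⟩ := hQ0 Q hQQ
  by_cases hsmall : htv m ≤ Q ^ δ1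
  · left; right
    -- supports
    let q : Finset ι × (T → Finset ι) :=
      (univ.filter fun i => al S.A m i ≠ 0, fun t => univ.filter fun i => al (S.A' t) m i ≠ 0)
    have hWm : W q m := by
      refine ⟨hm0, fun i hi => ?_, fun t i hi => ?_⟩
      · simp only [q, mem_filter, mem_univ, true_and]; exact hi
      · simp only [q, mem_filter, mem_univ, true_and]; exact hi
    obtain ⟨hmm0, hmmR, hmmP⟩ := hmm q ⟨m, hWm⟩
    simp only [q, mem_filter, mem_univ, true_and] at hmmR hmmP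
    have hRne : ∃ i, al S.A m i ≠ 0 := by
      by_contra hcon
      push Not at hcon
      apply hm0
      funext j
      have h1 := congrFun (al_vecMul S.detA m) j
      rw [show al S.A m = 0 from funext hcon, Matrix.zero_vecMul] at h1
      have h2 : ((m j : ℤ) : ℝ) = 0 := h1.symm
      exact_mod_cast h2
    have hPne : ∀ t, ∃ i, al (S.A' t) m i ≠ 0 := by
      intro t
      by_contra hcon
      push Not at hcon
      apply hm0
      funext j
      have h1 := congrFun (al_vecMul (S.detA' t) m) j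
      rw [show al (S.A' t) m = 0 from funext hcon, Matrix.zero_vecMul] at h1
      have h2 : ((m j : ℤ) : ℚ_[p t]) = 0 := h1.symm
      exact_mod_cast h2
    have hY : ∀ (i : ι) (l : T → ι), al S.A m i ≠ 0 → (∀ t, al (S.A' t) m (l t) ≠ 0) →
        a i * ∏ t, a' t (l t) ≤ C4 * Q ^ (-(δ / 2)) := by
      intro i l hi hl
      have h1 := step3 S hc hCc hQ hm0 hsmall (hLR m hm0) (hLP m hm0) hi hl
      rw [← hnT, hδ1'] at h1
      have h2 := hs1 i l
      have h3 : 0 < a i * ∏ t, a' t (l t) := mul_pos (ha i) (prod_pos fun t _ => ha' t _)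
      have h4 : c ^ (1 + Fintype.card T) * Q ^ (-(δ / 2)) * (a i * ∏ t, a' t (l t)) ≤
          C2 * Q ^ (-δ) := (mul_le_mul_of_nonneg_right h1 h3.le).trans h2
      have h5 : 0 < c ^ (1 + Fintype.card T) * Q ^ (-(δ / 2)) := by positivity
      rw [mul_comm, ← le_div_iff₀ h5] at h4
      refine h4.trans (le_of_eq ?_)
      rw [hC4def, mul_div_mul_comm, ← Real.rpow_sub hQp]
      congr 2; ring
    have horth' : ∀ j, ∑ i, y j i * (mm q i : ℚ) = 0 := by
      intro j
      refine step4 S hp ha ha' hRne hPne hY hmmR hmmP (hy j) ?_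
      have h1 : Km (mm q) * C4 + 1 ≤ Q ^ (δ / 2) := hQK q
      have h2 : 0 ≤ Km (mm q) := by positivity
      have h3 : S.N a a' (y j) ≤ 1 := (hN j).trans hQδ
      have h4 : 0 < Q ^ (-(δ / 2)) := by positivity
      have h5 : Q ^ (δ / 2) * Q ^ (-(δ / 2)) = 1 := by
        rw [← Real.rpow_add hQp, add_neg_cancel, Real.rpow_zero]
      calc Km (mm q) * (C4 * Q ^ (-(δ / 2))) * S.N a a' (y j)
          ≤ Km (mm q) * (C4 * Q ^ (-(δ / 2))) * 1 :=
            mul_le_mul_of_nonneg_left h3 (by positivity)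
        _ = (Km (mm q) * C4) * Q ^ (-(δ / 2)) := by ring
        _ < (Km (mm q) * C4 + 1) * Q ^ (-(δ / 2)) := by
            apply mul_lt_mul_of_pos_right _ h4; linarith
        _ ≤ Q ^ (δ / 2) * Q ^ (-(δ / 2)) := mul_le_mul_of_nonneg_right h1 h4.le
        _ = 1 := h5
    obtain ⟨g, hg⟩ := prop_of_vanish e hm hli horth (h := fun i => (mm q i : ℚ)) horth'
    obtain ⟨u, hu⟩ := Prim.bezout hm
    have hgi : g = ((∑ i, u i * mm q i : ℤ) : ℚ) := by
      calc g = g * ((∑ i, u i * m i : ℤ) : ℚ) := by rw [hu]; simp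
        _ = _ := by
          push_cast
          rw [mul_sum]
          refine sum_congr rfl fun i _ => ?_
          rw [hg]; ring
    set g' : ℤ := ∑ i, u i * mm q i with hg'
    have hg1 : ∀ i, mm q i = g' * m i := by
      intro i
      have := hg i
      rw [hgi] at this
      exact_mod_cast this
    have hg0 : g' ≠ 0 := by
      rintro h
      apply hmm0
      funext i
      rw [hg1, h, zero_mul]; rfl
    rw [Set.mem_iUnion]
    refine ⟨q, fun i => ?_⟩
    rw [hg1, abs_mul]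
    exact le_mul_of_one_le_left (abs_nonneg _) (Int.one_le_abs hg0)
  · right
    push Not at hsmall
    obtain ⟨z, z', hz, hz', hsum, y', hli', hy', hys, hL, hL'⟩ :=
      step5 S hp hδ hη hηδ (by linarith : 1 < Q) hQP haB haB' hw hli hy hN
    rw [Set.mem_iUnion]
    refine ⟨(fun i => ⟨z i, hz i⟩, fun t i => ⟨z' t i, hz' t i⟩), hsum, hm, Q, hQ, hsmall.le, ?_,
      y', hli', hy', ?_, hL, hL'⟩
    · refine hs2.trans ?_
      calc C3 * C2 * Q ^ E ≤ Q * Q ^ E := mul_le_mul_of_nonneg_right hQC (by positivity)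
        _ = Q ^ (E + 1) := by rw [Real.rpow_add_one hQp.ne', mul_comm]
    · intro j
      obtain ⟨s, hs⟩ := hys j
      rw [hs]
      simp only [Pi.smul_apply, smul_eq_mul, mul_left_comm _ s, ← mul_sum]
      rw [horth j, mul_zero]

end final

end Pool.Agent.Helper51.Sub

end

section

namespace Pool.Agent.Helper10.Sub
end Pool.Agent.Helper10.Sub

/-!
# Subspace theorem project: Liouville inequalities for linear forms with algebraic coefficients
-/

set_option autoImplicit false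

namespace Pool.Agent.Helper47.Sub

open Pool.Agent.Helper10.Sub

variable {ι : Type} [Fintype ι] [DecidableEq ι]

omit [DecidableEq ι] in
/-- The integer matrices of multiplication by elements of a number field. -/
theorem exists_mats_aux {F : Type*} [Field F] [Algebra ℚ F] {K : Type*} [Field K] [Algebra ℚ K]
    [FiniteDimensional ℚ K] (φ : K →ₐ[ℚ] F) (β : ι → K) :
    ∃ (D : ℕ) (N : ℤ) (B : ι → Matrix (Fin D) (Fin D) ℤ) (v : Fin D → F) (k0 : Fin D),
      N ≠ 0 ∧ v k0 ≠ 0 ∧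
      (∀ (m : ι → ℤ) (k : Fin D), (N : F) * (∑ i, φ (β i) * m i) * v k =
        ∑ l, v l * (((∑ i, m i • B i) l k : ℤ) : F)) ∧
      (∀ m : ι → ℤ, ∑ i, φ (β i) * m i ≠ 0 → (∑ i, m i • B i).det ≠ 0) := by
  classical
  have : CharZero K := algebraRat.charZero K
  have : CharZero F := algebraRat.charZero F
  let b := Module.finBasis ℚ K
  obtain ⟨N, hN⟩ := IsLocalization.exist_integer_multiples_of_finite (nonZeroDivisors ℤ)
    (fun q : ι × Fin (Module.finrank ℚ K) × Fin (Module.finrank ℚ K) =>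
      (Algebra.leftMulMatrix b (β q.1) q.2.1 q.2.2 : ℚ))
  have hN0 : (N : ℤ) ≠ 0 := nonZeroDivisors.coe_ne_zero N
  choose z hz using hN
  let B : ι → Matrix (Fin (Module.finrank ℚ K)) (Fin (Module.finrank ℚ K)) ℤ :=
    fun i => Matrix.of fun l k => z (i, l, k)
  have hB : ∀ i, (B i).map (Int.cast : ℤ → ℚ) =
      Algebra.leftMulMatrix b (((N : ℤ) : K) * β i) := by
    intro i
    ext l k
    have h1 := hz (i, l, k)
    rw [map_mul]
    have h2 : Algebra.leftMulMatrix b (((N : ℤ) : K)) =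
        (((N : ℤ) : ℚ)) • (1 : Matrix _ _ ℚ) := by
      have : (((N : ℤ) : K)) = algebraMap ℚ K ((N : ℤ) : ℚ) := by simp
      rw [this, AlgHom.commutes, Algebra.algebraMap_eq_smul_one]
    rw [h2, smul_mul_assoc, one_mul, Matrix.smul_apply, Matrix.map_apply]
    simp only [B, Matrix.of_apply]
    have h3 : (algebraMap ℤ ℚ) (z (i, l, k)) = ((z (i, l, k) : ℤ) : ℚ) := by simp
    rw [← h3, h1]
    simp
  have hsum : ∀ m : ι → ℤ, (∑ i, m i • B i).map (Int.cast : ℤ → ℚ) =
      Algebra.leftMulMatrix b (((N : ℤ) : K) * ∑ i, β i * m i) := by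
    intro m
    have e1 : (∑ i, m i • B i).map (Int.cast : ℤ → ℚ) =
        ∑ i, (m i : ℚ) • (B i).map (Int.cast : ℤ → ℚ) := by
      ext l k
      rw [Matrix.map_apply, Matrix.sum_apply, Matrix.sum_apply, Int.cast_sum]
      refine Finset.sum_congr rfl fun i _ => ?_
      rw [Matrix.smul_apply, Matrix.smul_apply, Matrix.map_apply, smul_eq_mul, smul_eq_mul,
        Int.cast_mul]
    rw [e1, Finset.mul_sum, map_sum]
    refine Finset.sum_congr rfl fun i _ => ?_
    rw [hB i]
    have : ((N : ℤ) : K) * (β i * (m i : K)) = (m i : ℚ) • (((N : ℤ) : K) * β i) := by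
      rw [Algebra.smul_def]
      have : algebraMap ℚ K (m i : ℚ) = (m i : K) := by simp
      rw [this]; ring
    rw [this, map_smul]
  have hcoe : ∀ m : ι → ℤ, φ (∑ i, β i * (m i : K)) = ∑ i, φ (β i) * m i := by
    intro m
    rw [map_sum]
    refine Finset.sum_congr rfl fun i _ => ?_
    rw [map_mul, map_intCast]
  have hpos : 0 < Module.finrank ℚ K := Module.finrank_pos
  refine ⟨Module.finrank ℚ K, (N : ℤ), B, fun k => φ (b k), ⟨0, hpos⟩, hN0, ?_, ?_, ?_⟩
  · exact (map_ne_zero φ).mpr (b.ne_zero ⟨0, hpos⟩)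
  · intro m k
    have h2 : (((N : ℤ) : K) * ∑ i, β i * m i) * b k =
        ∑ l, (Algebra.leftMulMatrix b (((N : ℤ) : K) * ∑ i, β i * m i) l k) • b l := by
      conv_lhs => rw [← b.sum_repr ((((N : ℤ) : K) * ∑ i, β i * m i) * b k)]
      refine Finset.sum_congr rfl fun l _ => ?_
      rw [Algebra.leftMulMatrix_eq_repr_mul]
    have h3 := congrArg φ h2
    rw [map_mul, map_mul, hcoe m, map_sum, map_intCast] at h3
    rw [h3]
    refine Finset.sum_congr rfl fun l _ => ?_
    rw [← hsum m, Matrix.map_apply, Algebra.smul_def, map_mul, AlgHom.commutes, mul_comm]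
    congr 1
    rw [← map_intCast (algebraMap ℚ F)]
  · intro m hm hdet
    have h1 : (Algebra.leftMulMatrix b (((N : ℤ) : K) * ∑ i, β i * m i)).det = 0 := by
      rw [← hsum m]
      have : ((∑ i, m i • B i).map (Int.cast : ℤ → ℚ)).det =
          (((∑ i, m i • B i).det : ℤ) : ℚ) := by
        exact (RingHom.map_det (Int.castRingHom ℚ) (∑ i, m i • B i)).symm
      rw [this, hdet]; simp
    have h2 : ((N : ℤ) : K) * ∑ i, β i * m i ≠ 0 := by
      apply mul_ne_zero
      · exact_mod_cast hN0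
      · intro h
        apply hm
        rw [← hcoe m, h]; simp
    have h3 : IsUnit (Algebra.leftMulMatrix b (((N : ℤ) : K) * ∑ i, β i * m i)) :=
      (IsUnit.mk0 _ h2).map _
    rw [Matrix.isUnit_iff_isUnit_det] at h3
    exact h3.ne_zero h1

omit [DecidableEq ι] in
/-- The integer matrices of multiplication by algebraic numbers. -/
theorem exists_mats {F : Type*} [Field F] [Algebra ℚ F] (β : ι → F)
    (hβ : ∀ i, IsAlgebraic ℚ (β i)) :
    ∃ (D : ℕ) (N : ℤ) (B : ι → Matrix (Fin D) (Fin D) ℤ) (v : Fin D → F) (k0 : Fin D),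
      N ≠ 0 ∧ v k0 ≠ 0 ∧
      (∀ (m : ι → ℤ) (k : Fin D), (N : F) * (∑ i, β i * m i) * v k =
        ∑ l, v l * (((∑ i, m i • B i) l k : ℤ) : F)) ∧
      (∀ m : ι → ℤ, ∑ i, β i * m i ≠ 0 → (∑ i, m i • B i).det ≠ 0) := by
  classical
  let K : IntermediateField ℚ F := IntermediateField.adjoin ℚ (Set.range β)
  have hfin : FiniteDimensional ℚ K := by
    apply IntermediateField.finiteDimensional_adjoin
    rintro x ⟨i, rfl⟩
    exact (hβ i).isIntegral
  have hmem : ∀ i, β i ∈ K := fun i => IntermediateField.subset_adjoin ℚ _ ⟨i, rfl⟩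
  exact @exists_mats_aux ι _ F _ _ K _ K.algebra' hfin K.val (fun i => (⟨β i, hmem i⟩ : K))

/-- The adjugate identity: `(det M) v_k = η ∑ v_l adj(M)_{l k}`. -/
theorem det_mul_eq {F : Type*} [Field F] {D : ℕ} (M : Matrix (Fin D) (Fin D) ℤ) (v : Fin D → F)
    (η : F) (h : ∀ k, η * v k = ∑ l, v l * ((M l k : ℤ) : F)) (k : Fin D) :
    ((M.det : ℤ) : F) * v k = η * ∑ l, v l * ((M.adjugate l k : ℤ) : F) := by
  classical
  have h1 : ∀ l j : Fin D, ∑ k, M l k * M.adjugate k j = if l = j then M.det else 0 := by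
    intro l j
    have := congrFun (congrFun (Matrix.mul_adjugate M) l) j
    rw [Matrix.mul_apply] at this
    rw [this, Matrix.smul_apply, Matrix.one_apply]
    split_ifs <;> simp
  rw [Finset.mul_sum]
  have h2 : ∀ l, η * (v l * ((M.adjugate l k : ℤ) : F)) =
      ∑ j, v j * (((M j l * M.adjugate l k : ℤ)) : F) := by
    intro l
    rw [← mul_assoc, h l, Finset.sum_mul]
    refine Finset.sum_congr rfl fun j _ => ?_
    push_cast; ring
  rw [Finset.sum_congr rfl fun l _ => h2 l, Finset.sum_comm]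
  have h3 : ∀ j, ∑ l, v j * (((M j l * M.adjugate l k : ℤ)) : F) =
      v j * (((if j = k then M.det else 0 : ℤ)) : F) := by
    intro j
    rw [← h1 j k, Int.cast_sum, Finset.mul_sum]
  rw [Finset.sum_congr rfl fun j _ => h3 j]
  simp [mul_comm]

omit [DecidableEq ι] in
lemma one_le_htv {m : ι → ℤ} (hm : m ≠ 0) : 1 ≤ htv m := by
  obtain ⟨i, hi⟩ := Function.ne_iff.mp hm
  have h1 : (m i).natAbs ≤ Finset.univ.sup fun i => (m i).natAbs :=
    Finset.le_sup (f := fun i => (m i).natAbs) (Finset.mem_univ i)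
  have h2 : 1 ≤ (m i).natAbs := Nat.one_le_iff_ne_zero.mpr (Int.natAbs_ne_zero.mpr hi)
  unfold htv
  exact_mod_cast h2.trans h1

omit [DecidableEq ι] in
lemma abs_le_htv (m : ι → ℤ) (i : ι) : |(m i : ℝ)| ≤ htv m := by
  have h1 : (m i).natAbs ≤ Finset.univ.sup fun i => (m i).natAbs :=
    Finset.le_sup (f := fun i => (m i).natAbs) (Finset.mem_univ i)
  unfold htv
  have h2 : |(m i : ℝ)| = ((m i).natAbs : ℝ) := by
    rw [Nat.cast_natAbs]; simp
  rw [h2]
  exact_mod_cast h1

omit [DecidableEq ι] in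
/-- Bounds for the determinant and the adjugate. -/
lemma exists_bound {D : ℕ} (B : ι → Matrix (Fin D) (Fin D) ℤ) :
    ∃ C0 : ℝ, 1 ≤ C0 ∧ ∀ m : ι → ℤ, m ≠ 0 →
      |(((∑ i, m i • B i).det : ℤ) : ℝ)| ≤ C0 * htv m ^ D ∧
      ∀ k l, |(((∑ i, m i • B i).adjugate k l : ℤ) : ℝ)| ≤ C0 * htv m ^ D := by
  classical
  set A0 : ℝ := 1 + ∑ i, ∑ k, ∑ l, |(B i k l : ℝ)| with hA0
  have hA1 : 1 ≤ A0 := by
    have : 0 ≤ ∑ i, ∑ k, ∑ l, |(B i k l : ℝ)| :=
      Finset.sum_nonneg fun i _ => Finset.sum_nonneg fun k _ => Finset.sum_nonneg fun l _ =>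
        abs_nonneg _
    linarith
  have hent : ∀ m : ι → ℤ, m ≠ 0 → ∀ k l, |(((∑ i, m i • B i) k l : ℤ) : ℝ)| ≤ A0 * htv m := by
    intro m hm k l
    have h1 := one_le_htv hm
    rw [Matrix.sum_apply]
    push_cast
    simp only [Matrix.smul_apply, smul_eq_mul]
    calc |∑ i, (((m i * B i k l : ℤ)) : ℝ)| ≤ ∑ i, |(((m i * B i k l : ℤ)) : ℝ)| :=
          Finset.abs_sum_le_sum_abs _ _
      _ ≤ ∑ i, htv m * |(B i k l : ℝ)| := by
          refine Finset.sum_le_sum fun i _ => ?_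
          push_cast
          rw [abs_mul]
          exact mul_le_mul_of_nonneg_right (abs_le_htv m i) (abs_nonneg _)
      _ = htv m * ∑ i, |(B i k l : ℝ)| := by rw [Finset.mul_sum]
      _ ≤ htv m * A0 := by
          refine mul_le_mul_of_nonneg_left ?_ (by linarith)
          rw [hA0]
          have : ∑ i, |(B i k l : ℝ)| ≤ ∑ i, ∑ k, ∑ l, |(B i k l : ℝ)| := by
            refine Finset.sum_le_sum fun i _ => ?_
            calc |(B i k l : ℝ)| ≤ ∑ l, |(B i k l : ℝ)| :=
                  Finset.single_le_sum (f := fun l => |(B i k l : ℝ)|)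
                    (fun _ _ => abs_nonneg _) (Finset.mem_univ l)
              _ ≤ _ := Finset.single_le_sum (f := fun k => ∑ l, |(B i k l : ℝ)|)
                    (fun _ _ => Finset.sum_nonneg fun _ _ => abs_nonneg _) (Finset.mem_univ k)
          linarith
      _ = A0 * htv m := mul_comm _ _
  have hdet : ∀ (M : Matrix (Fin D) (Fin D) ℤ) (x : ℝ), (∀ k l, |((M k l : ℤ) : ℝ)| ≤ x) →
      |((M.det : ℤ) : ℝ)| ≤ (D.factorial : ℝ) * x ^ D := by
    intro M x hx
    have h1 : ((M.det : ℤ) : ℝ) = (M.map (Int.cast : ℤ → ℝ)).det := by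
      have := RingHom.map_det (Int.castRingHom ℝ) M
      simpa using this
    rw [h1]
    have h2 := Matrix.det_le (A := M.map (Int.cast : ℤ → ℝ)) (abv := AbsoluteValue.abs) (x := x)
      (fun i j => by simpa using hx i j)
    simpa using h2
  refine ⟨(D.factorial : ℝ) * A0 ^ D, ?_, ?_⟩
  · have h1 : (1 : ℝ) ≤ (D.factorial : ℝ) := by exact_mod_cast Nat.factorial_pos D
    have h2 : (1 : ℝ) ≤ A0 ^ D := one_le_pow₀ hA1
    nlinarith
  · intro m hm
    have h1 := one_le_htv hm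
    have h2 : (1 : ℝ) ≤ A0 * htv m := by nlinarith
    constructor
    · refine (hdet _ _ (hent m hm)).trans (le_of_eq ?_)
      rw [mul_pow]; ring
    · intro k l
      rw [Matrix.adjugate_apply]
      refine (hdet _ (A0 * htv m) ?_).trans (le_of_eq ?_)
      · intro a c
        rw [Matrix.updateRow_apply]
        split_ifs
        · rw [Pi.single_apply]
          split_ifs
          · simpa using h2
          · simp; linarith
        · exact hent m hm a c
      · rw [mul_pow]; ring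

/-- LIOU (real) -/
theorem liouR (β : ι → ℝ) (hβ : ∀ i, IsAlgebraic ℚ (β i)) :
    ∃ c C : ℝ, 0 < c ∧ 0 < C ∧ ∀ m : ι → ℤ, m ≠ 0 → ∑ i, β i * m i ≠ 0 →
      c * htv m ^ (-C) ≤ |∑ i, β i * m i| := by
  classical
  obtain ⟨D, N, B, v, k0, hN, hv, hmul, hdet⟩ := exists_mats β hβ
  obtain ⟨C0, hC0, hbd⟩ := exists_bound B
  set V : ℝ := ∑ l, |v l| with hV
  have hVpos : 0 < V := lt_of_lt_of_le (abs_pos.mpr hv)
    (Finset.single_le_sum (f := fun l => |v l|) (fun _ _ => abs_nonneg _) (Finset.mem_univ k0))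
  have hNpos : 0 < |(N : ℝ)| := abs_pos.mpr (by exact_mod_cast hN)
  have hvpos : 0 < |v k0| := abs_pos.mpr hv
  have hD : 0 < D := k0.pos
  refine ⟨|v k0| / (|(N : ℝ)| * V * C0), D, by positivity, by exact_mod_cast hD, ?_⟩
  intro m hm hne
  have h1 := one_le_htv hm
  have hid := det_mul_eq _ v _ (hmul m) k0
  have hd1 : (1 : ℝ) ≤ |(((∑ i, m i • B i).det : ℤ) : ℝ)| := by
    have := Int.one_le_abs (hdet m hne)
    exact_mod_cast this
  have hs : |∑ l, v l * (((∑ i, m i • B i).adjugate l k0 : ℤ) : ℝ)| ≤ V * (C0 * htv m ^ D) := by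
    refine (Finset.abs_sum_le_sum_abs _ _).trans ?_
    rw [hV, Finset.sum_mul]
    refine Finset.sum_le_sum fun l _ => ?_
    rw [abs_mul]
    exact mul_le_mul_of_nonneg_left ((hbd m hm).2 l k0) (abs_nonneg _)
  have h2 : |v k0| ≤ |(N : ℝ)| * |∑ i, β i * m i| * (V * (C0 * htv m ^ D)) := by
    calc |v k0| = 1 * |v k0| := (one_mul _).symm
      _ ≤ |(((∑ i, m i • B i).det : ℤ) : ℝ)| * |v k0| :=
          mul_le_mul_of_nonneg_right hd1 (abs_nonneg _)
      _ = |(N : ℝ) * (∑ i, β i * m i) *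
            ∑ l, v l * (((∑ i, m i • B i).adjugate l k0 : ℤ) : ℝ)| := by
          rw [← abs_mul, hid]
      _ = |(N : ℝ)| * |∑ i, β i * m i| *
            |∑ l, v l * (((∑ i, m i • B i).adjugate l k0 : ℤ) : ℝ)| := by
          rw [abs_mul, abs_mul]
      _ ≤ _ := mul_le_mul_of_nonneg_left hs (by positivity)
  have hp : (0 : ℝ) < htv m ^ D := by positivity
  rw [Real.rpow_neg (by linarith), Real.rpow_natCast, div_mul_eq_mul_div, div_le_iff₀ (by positivity)]
  rw [mul_inv_le_iff₀ hp]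
  calc |v k0| ≤ _ := h2
    _ = _ := by ring

/-- LIOU (p-adic) -/
theorem liouP (q : ℕ) [Fact q.Prime] (β : ι → ℚ_[q]) (hβ : ∀ i, IsAlgebraic ℚ (β i)) :
    ∃ c C : ℝ, 0 < c ∧ 0 < C ∧ ∀ m : ι → ℤ, m ≠ 0 → ∑ i, β i * m i ≠ 0 →
      c * htv m ^ (-C) ≤ ‖∑ i, β i * m i‖ := by
  classical
  obtain ⟨D, N, B, v, k0, hN, hv, hmul, hdet⟩ := exists_mats β hβ
  obtain ⟨C0, hC0, hbd⟩ := exists_bound B
  set V : ℝ := ∑ l, ‖v l‖ with hV
  have hVpos : 0 < V := lt_of_lt_of_le (norm_pos_iff.mpr hv)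
    (Finset.single_le_sum (f := fun l => ‖v l‖) (fun _ _ => norm_nonneg _) (Finset.mem_univ k0))
  have hNpos : 0 < ‖(N : ℚ_[q])‖ := norm_pos_iff.mpr (by exact_mod_cast hN)
  have hvpos : 0 < ‖v k0‖ := norm_pos_iff.mpr hv
  have hD : 0 < D := k0.pos
  refine ⟨‖v k0‖ / (‖(N : ℚ_[q])‖ * V * C0), D, by positivity, by exact_mod_cast hD, ?_⟩
  intro m hm hne
  have h1 := one_le_htv hm
  have hid := det_mul_eq _ v _ (hmul m) k0
  have hp : (0 : ℝ) < htv m ^ D := by positivity
  set d : ℤ := (∑ i, m i • B i).det with hd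
  have hd0 : d ≠ 0 := hdet m hne
  have hd1 : (1 : ℝ) ≤ |(d : ℝ)| * ‖(d : ℚ_[q])‖ := by
    have hz : ‖(d : ℚ_[q])‖ = (q : ℝ) ^ (-(padicValInt q d : ℤ)) := by
      have h := padicNorm.eq_zpow_of_nonzero (p := q) (q := (d : ℚ)) (by exact_mod_cast hd0)
      have h' : ‖(d : ℚ_[q])‖ = ((padicNorm q (d : ℚ) : ℚ) : ℝ) := by
        rw [← Padic.eq_padicNorm]
        simp
      rw [h', h]
      push_cast
      simp [padicValRat.of_int]
    rw [hz, zpow_neg, zpow_natCast, ← div_eq_mul_inv, le_div_iff₀, one_mul]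
    · have hdvd : (q : ℤ) ^ (padicValInt q d) ∣ d := by
        exact padicValInt_dvd d
      have hle := Int.le_of_dvd (abs_pos.mpr hd0) ((dvd_abs _ _).mpr hdvd)
      exact_mod_cast hle
    · have : 0 < q := (Fact.out : q.Prime).pos
      positivity
  have hs : ‖∑ l, v l * (((∑ i, m i • B i).adjugate l k0 : ℤ) : ℚ_[q])‖ ≤ V := by
    refine (norm_sum_le _ _).trans ?_
    rw [hV]
    refine Finset.sum_le_sum fun l _ => ?_
    rw [norm_mul]
    exact mul_le_of_le_one_right (norm_nonneg _) (Padic.norm_int_le_one _)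
  have h2 : ‖v k0‖ ≤ (C0 * htv m ^ D) * (‖(N : ℚ_[q])‖ * ‖∑ i, β i * m i‖ * V) := by
    calc ‖v k0‖ = 1 * ‖v k0‖ := (one_mul _).symm
      _ ≤ (|(d : ℝ)| * ‖(d : ℚ_[q])‖) * ‖v k0‖ :=
          mul_le_mul_of_nonneg_right hd1 (norm_nonneg _)
      _ = |(d : ℝ)| * ‖(N : ℚ_[q]) * (∑ i, β i * m i) *
            ∑ l, v l * (((∑ i, m i • B i).adjugate l k0 : ℤ) : ℚ_[q])‖ := by
          rw [← hid, norm_mul, mul_assoc]
      _ = |(d : ℝ)| * (‖(N : ℚ_[q])‖ * ‖∑ i, β i * m i‖ *
            ‖∑ l, v l * (((∑ i, m i • B i).adjugate l k0 : ℤ) : ℚ_[q])‖) := by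
          rw [norm_mul, norm_mul]
      _ ≤ (C0 * htv m ^ D) * (‖(N : ℚ_[q])‖ * ‖∑ i, β i * m i‖ * V) := by
          refine mul_le_mul (hbd m hm).1 ?_ (by positivity) (by positivity)
          exact mul_le_mul_of_nonneg_left hs (by positivity)
  rw [Real.rpow_neg (by linarith), Real.rpow_natCast, div_mul_eq_mul_div, div_le_iff₀ (by positivity)]
  rw [mul_inv_le_iff₀ hp]
  calc ‖v k0‖ ≤ _ := h2
    _ = _ := by ring

end Pool.Agent.Helper47.Sub

end

section

namespace Pool.Agent.Helper10.Sub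
end Pool.Agent.Helper10.Sub

/-!
# Roth's lemma for hyperplanes, from Roth's lemma
-/

set_option autoImplicit false

set_option linter.unusedSectionVars false

namespace Pool.Agent.Helper80.Sub

open Pool.Agent.Helper10.Sub

open MvPolynomial Finset

/-- The statement of Roth's lemma (module ROTH1). -/
def Roth1Statement : Prop := ∀ (b : ℕ) (ε : ℝ) (_ : 0 < ε), ∃ ω c : ℝ, 0 < ω ∧ 0 < c ∧
    ∀ (r : Fin b → ℕ), (∀ h, 1 ≤ r h) → (∀ h h', h < h' → (r h' : ℝ) ≤ ω * r h) →
    ∀ (P : MvPolynomial (Fin b) ℤ), P ≠ 0 → (∀ e ∈ P.support, ∀ h, e h ≤ r h) →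
    ∀ (B : ℝ), 1 ≤ B → (∀ e, |((P.coeff e : ℤ) : ℝ)| ≤ B) →
    ∀ (ξ : Fin b → ℚ), (∀ h h', Real.log B + c * r h' ≤ ω * (r h * Real.log (ht (ξ h)))) →
    ∃ k : Fin b →₀ ℕ, wt r k ≤ ε ∧ eval ξ (hd k (map (Int.castRingHom ℚ) P)) ≠ 0

section height

variable {ι : Type*} [Fintype ι] [DecidableEq ι]

lemma exists_max (m : ι → ℤ) (h : m ≠ 0) : ∃ i, (m i).natAbs = univ.sup (fun i => (m i).natAbs) ∧
    m i ≠ 0 := by
  obtain ⟨j, hj⟩ : ∃ j, m j ≠ 0 := by
    by_contra hc
    push Not at hc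
    exact h (funext hc)
  obtain ⟨i, -, hi⟩ := Finset.exists_mem_eq_sup univ ⟨j, mem_univ j⟩ (fun i => (m i).natAbs)
  refine ⟨i, hi.symm, ?_⟩
  intro h0
  have : (m j).natAbs ≤ (m i).natAbs := by
    rw [← hi]
    exact Finset.le_sup (f := fun i => (m i).natAbs) (mem_univ j)
  rw [h0] at this
  simp at this
  exact hj this

lemma prim_ne_zero {m : ι → ℤ} (h : Prim m) : m ≠ 0 := by
  rintro rfl
  have := h 2 (fun i => by simp)
  rw [Int.isUnit_iff] at this
  omega

/-- A coordinate quotient of a primitive vector of large height has large denominator. -/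
lemma exists_den (m : ι → ℤ) (hm : Prim m) (i : ι) (hi : m i ≠ 0)
    (hcard : 2 ≤ Fintype.card ι) :
    ∃ l, l ≠ i ∧ Real.log ((m i).natAbs) ≤
      ((Fintype.card ι : ℝ) - 1) * Real.log ((-(m l : ℚ) / (m i : ℚ)).den) := by
  set d : ι → ℕ := fun l => (-(m l : ℚ) / (m i : ℚ)).den with hd
  have hdpos : ∀ l, 0 < d l := fun l => (-(m l : ℚ) / (m i : ℚ)).den_pos
  set D : ℕ := ∏ l ∈ univ.erase i, d l with hD
  have hDpos : 0 < D := Finset.prod_pos fun l _ => hdpos l
  -- `m i ∣ D * m l`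
  have h1 : ∀ l, m i ∣ (D : ℤ) * m l := by
    intro l
    by_cases hl : l = i
    · rw [hl]; exact dvd_mul_left _ _
    · have hdl : (d l : ℕ) ∣ D := Finset.dvd_prod_of_mem d (by simp [hl])
      have h2 : m i ∣ (d l : ℤ) * m l := by
        have h3 : (-(m l : ℚ) / (m i : ℚ)) * (d l : ℚ) = (-(m l : ℚ) / (m i : ℚ)).num :=
          Rat.mul_den_eq_num _
        have hi' : (m i : ℚ) ≠ 0 := by exact_mod_cast hi
        have h4 : (-(m l : ℚ)) * (d l : ℚ) = (-(m l : ℚ) / (m i : ℚ)).num * (m i : ℚ) := by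
          rw [← h3]; field_simp
        have h5 : (-(m l)) * (d l : ℤ) = (-(m l : ℚ) / (m i : ℚ)).num * (m i) := by
          exact_mod_cast h4
        refine ⟨-(-(m l : ℚ) / (m i : ℚ)).num, ?_⟩
        linear_combination -h5
      obtain ⟨t, ht⟩ := hdl
      rw [ht]
      push_cast
      rw [mul_comm (d l : ℤ), mul_assoc]
      exact Dvd.dvd.mul_left h2 _
  have h6 : m i ∣ (D : ℤ) := by
    have h7 : m i ∣ univ.gcd (fun l => (D : ℤ) * m l) := Finset.dvd_gcd fun l _ => h1 l
    rw [Finset.gcd_mul_left] at h7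
    have h8 : IsUnit (univ.gcd m) := hm _ (fun l => Finset.gcd_dvd (mem_univ l))
    rw [h8.dvd_mul_right, dvd_normalize_iff] at h7
    exact h7
  have h9 : (m i).natAbs ≤ D := by
    have := Int.natAbs_dvd_natAbs.mpr h6
    rw [Int.natAbs_natCast] at this
    exact Nat.le_of_dvd hDpos this
  have hne : (univ.erase i).Nonempty := by
    rw [← Finset.card_pos, Finset.card_erase_of_mem (mem_univ i), Finset.card_univ]
    omega
  obtain ⟨l, hl, hmax⟩ := Finset.exists_max_image (univ.erase i) (fun l => Real.log (d l)) hne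
  refine ⟨l, by simpa using hl, ?_⟩
  have h10 : Real.log ((m i).natAbs) ≤ Real.log D := by
    apply Real.log_le_log
    · exact_mod_cast Int.natAbs_pos.mpr hi
    · exact_mod_cast h9
  have h11 : Real.log D = ∑ l ∈ univ.erase i, Real.log (d l) := by
    rw [hD, Nat.cast_prod, Real.log_prod]
    intro l _
    exact_mod_cast (hdpos l).ne'
  have h12 : ∑ l ∈ univ.erase i, Real.log (d l) ≤ (univ.erase i).card • Real.log (d l) :=
    Finset.sum_le_card_nsmul _ _ _ hmax
  rw [Finset.card_erase_of_mem (mem_univ i), Finset.card_univ, nsmul_eq_mul,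
    Nat.cast_sub (by omega), Nat.cast_one] at h12
  linarith

end height

section main

variable {b : ℕ} {ι : Type*} [Fintype ι] [DecidableEq ι] {R : Type*} [CommRing R]

variable (I L : Fin b → ι)

/-- Variables other than the distinguished ones. -/
def Oth (q : Fin b × ι) : Prop := q.2 ≠ I q.1 ∧ q.2 ≠ L q.1

instance : DecidablePred (Oth I L) := fun q => by unfold Oth; infer_instance

/-- Images of the variables. -/
noncomputable def gg (R : Type*) [CommRing R] (q : Fin b × ι) :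
    MvPolynomial (Fin b × ι) (MvPolynomial (Fin b) R) :=
  if q.2 = I q.1 then C (X q.1) else if q.2 = L q.1 then 1 else X q

/-- `P` as a polynomial in the other variables, with coefficients polynomials in the `x_h`. -/
noncomputable def Psi (R : Type*) [CommRing R] :
    MvPolynomial (Fin b × ι) R →+* MvPolynomial (Fin b × ι) (MvPolynomial (Fin b) R) :=
  eval₂Hom (C.comp C) (gg I L R)

/-- The exponents of the `x_h`. -/
noncomputable def xp (e : (Fin b × ι) →₀ ℕ) : Fin b →₀ ℕ :=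
  Finsupp.equivFunOnFinite.symm fun h => e (h, I h)

@[simp] lemma xp_apply (e : (Fin b × ι) →₀ ℕ) (h : Fin b) : xp I e h = e (h, I h) := rfl

lemma xp_add (e f : (Fin b × ι) →₀ ℕ) : xp I (e + f) = xp I e + xp I f := by
  ext h; simp

/-- Other exponents. -/
noncomputable def oth (e : (Fin b × ι) →₀ ℕ) : (Fin b × ι) →₀ ℕ := e.filter (Oth I L)

lemma Psi_monomial (e : (Fin b × ι) →₀ ℕ) (a : R) :
    Psi I L R (monomial e a) = monomial (oth I L e) (monomial (xp I e) a) := by
  have h1 : ∀ e : (Fin b × ι) →₀ ℕ, Psi I L R (monomial e 1) =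
      monomial (oth I L e) (monomial (xp I e) 1) := by
    intro e
    induction e using Finsupp.induction_linear with
    | zero =>
      have h0 : xp I (0 : (Fin b × ι) →₀ ℕ) = 0 := by ext; simp
      rw [h0, oth, Finsupp.filter_zero]
      simp [Psi]
    | add e f he hf =>
      have : (monomial (e + f) (1 : R)) = monomial e 1 * monomial f 1 := by
        rw [monomial_mul, one_mul]
      rw [this, map_mul, he, hf, monomial_mul, monomial_mul, one_mul, xp_add, oth, oth, oth,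
        Finsupp.filter_add]
    | single q n =>
      have h2 : (monomial (Finsupp.single q n) (1 : R)) = X q ^ n := by
        rw [X_pow_eq_monomial]
      rw [h2, map_pow, Psi, eval₂Hom_X', gg]
      split_ifs with hI hL
      · have ho : oth I L (Finsupp.single q n) = 0 := by
          rw [oth, Finsupp.filter_single_of_neg]
          intro hc; exact hc.1 hI
        have hx : xp I (Finsupp.single q n) = Finsupp.single q.1 n := by
          ext h
          rw [xp_apply, Finsupp.single_apply, Finsupp.single_apply]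
          by_cases hh : q.1 = h
          · subst hh
            rw [if_pos rfl, if_pos]
            exact Prod.ext rfl hI
          · rw [if_neg hh, if_neg]
            intro hc; exact hh (by rw [hc])
        rw [ho, hx, ← map_pow, X_pow_eq_monomial]
        rfl
      · have ho : oth I L (Finsupp.single q n) = 0 := by
          rw [oth, Finsupp.filter_single_of_neg]
          intro hc; exact hc.2 hL
        have hx : xp I (Finsupp.single q n) = 0 := by
          ext h
          rw [xp_apply, Finsupp.single_apply, Finsupp.zero_apply, if_neg]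
          intro hc
          apply hI
          rw [hc]
        rw [ho, hx, one_pow]
        rfl
      · have ho : oth I L (Finsupp.single q n) = Finsupp.single q n := by
          rw [oth, Finsupp.filter_single_of_pos]
          exact ⟨hI, hL⟩
        have hx : xp I (Finsupp.single q n) = 0 := by
          ext h
          rw [xp_apply, Finsupp.single_apply, Finsupp.zero_apply, if_neg]
          intro hc
          apply hI
          rw [hc]
        rw [ho, hx, X_pow_eq_monomial]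
        rfl
  have h3 : (monomial e a : MvPolynomial (Fin b × ι) R) = C a * monomial e 1 := by
    rw [C_mul_monomial, mul_one]
  rw [h3, map_mul, h1, Psi, eval₂Hom_C, RingHom.comp_apply, C_mul_monomial, C_mul_monomial,
    mul_one]

lemma coeff_Psi (F : MvPolynomial (Fin b × ι) R) (J : (Fin b × ι) →₀ ℕ) :
    coeff J (Psi I L R F) = ∑ e ∈ F.support, if oth I L e = J then monomial (xp I e) (coeff e F)
      else 0 := by
  conv_lhs => rw [F.as_sum, map_sum, coeff_sum]
  apply Finset.sum_congr rfl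
  intro e _
  rw [Psi_monomial, coeff_monomial]

lemma coeff_coeff_Psi (F : MvPolynomial (Fin b × ι) R) (J : (Fin b × ι) →₀ ℕ)
    (f : Fin b →₀ ℕ) :
    coeff f (coeff J (Psi I L R F)) = ∑ e ∈ F.support, if oth I L e = J ∧ xp I e = f
      then coeff e F else 0 := by
  rw [coeff_Psi, coeff_sum]
  apply Finset.sum_congr rfl
  intro e _
  by_cases h : oth I L e = J
  · rw [if_pos h, coeff_monomial]
    by_cases h2 : xp I e = f
    · rw [if_pos h2, if_pos ⟨h, h2⟩]
    · rw [if_neg h2, if_neg (fun hc => h2 hc.2)]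
  · rw [if_neg h, if_neg (fun hc => h hc.1), coeff_zero]

/-- Block homogeneous exponents are determined by the two parts. -/
lemma exp_inj (r : Fin b → ℕ) {e e' : (Fin b × ι) →₀ ℕ}
    (he : ∀ h, ∑ i, e (h, i) = r h) (he' : ∀ h, ∑ i, e' (h, i) = r h)
    (ho : oth I L e = oth I L e') (hx : xp I e = xp I e') : e = e' := by
  have h1 : ∀ h i, i ≠ L h → e (h, i) = e' (h, i) := by
    intro h i hi
    by_cases hi2 : i = I h
    · have := DFunLike.congr_fun hx h
      rw [xp_apply, xp_apply] at this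
      rw [hi2]; exact this
    · have hO : Oth I L (h, i) := ⟨hi2, hi⟩
      have := DFunLike.congr_fun ho (h, i)
      rw [oth, oth, Finsupp.filter_apply_pos _ _ hO, Finsupp.filter_apply_pos _ _ hO] at this
      exact this
  ext ⟨h, i⟩
  by_cases hi : i = L h
  · have h2 := he h
    have h3 := he' h
    rw [← Finset.add_sum_erase _ _ (mem_univ (L h))] at h2 h3
    have h4 : ∑ x ∈ univ.erase (L h), e (h, x) = ∑ x ∈ univ.erase (L h), e' (h, x) := by
      apply Finset.sum_congr rfl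
      intro x hx
      exact h1 h x (by simpa using hx)
    rw [hi]
    omega
  · exact h1 h i hi

/-- The exponent vector supported on the `x_h`. -/
noncomputable def KK (k : Fin b →₀ ℕ) : (Fin b × ι) →₀ ℕ :=
  Finsupp.equivFunOnFinite.symm fun q => if q.2 = I q.1 then k q.1 else 0

@[simp] lemma KK_apply (k : Fin b →₀ ℕ) (q : Fin b × ι) :
    KK I k q = if q.2 = I q.1 then k q.1 else 0 := rfl

lemma wtB_KK (r : Fin b → ℕ) (k : Fin b →₀ ℕ) : wtB r (KK I k) = wt r k := by
  unfold wtB wt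
  apply Finset.sum_congr rfl
  intro h _
  congr 2
  rw [Finset.sum_eq_single (I h)]
  · simp
  · intro i _ hi
    rw [KK_apply, if_neg hi]
  · intro hc; exact absurd (mem_univ _) hc

lemma prod_KK (e : (Fin b × ι) →₀ ℕ) (k : Fin b →₀ ℕ) :
    ∏ q, (e q).choose (KK I k q) = ∏ h, (xp I e h).choose (k h) := by
  rw [Fintype.prod_prod_type]
  apply Finset.prod_congr rfl
  intro h _
  rw [Finset.prod_eq_single (I h)]
  · simp
  · intro i _ hi
    rw [KK_apply, if_neg hi, Nat.choose_zero_right]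
  · intro hc; exact absurd (mem_univ _) hc

lemma Psi_hd (F : MvPolynomial (Fin b × ι) R) (k : Fin b →₀ ℕ) (J : (Fin b × ι) →₀ ℕ) :
    coeff J (Psi I L R (hd (KK I k) F)) = hd k (coeff J (Psi I L R F)) := by
  rw [hd_eq_sum, map_sum, coeff_sum, coeff_Psi, hd_sum]
  apply Finset.sum_congr rfl
  intro e _
  rw [Psi_monomial, coeff_monomial]
  have h1 : oth I L (e - KK I k) = oth I L e := by
    ext q
    rw [oth, oth]
    by_cases hq : Oth I L q
    · rw [Finsupp.filter_apply_pos _ _ hq, Finsupp.filter_apply_pos _ _ hq, Finsupp.tsub_apply,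
        KK_apply, if_neg hq.1, Nat.sub_zero]
    · rw [Finsupp.filter_apply_neg _ _ hq, Finsupp.filter_apply_neg _ _ hq]
  have h2 : xp I (e - KK I k) = xp I e - k := by
    ext h
    simp
  rw [h1]
  split_ifs with hJ
  · rw [hd_monomial, h2, prod_KK]
  · rw [hd_zero]

/-- The linear forms giving the hyperplanes. -/
noncomputable def lin (m : Fin b → ι → ℚ) (h : Fin b) : MvPolynomial (Fin b × ι) ℚ :=
  ∑ i ∈ univ.erase (I h), C (-(m h i) / m h (I h)) * (if i = L h then 1 else X (h, i))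

/-- Substitute the linear forms for the `x_h`. -/
noncomputable def EE (m : Fin b → ι → ℚ) : MvPolynomial (Fin b) ℚ →+* MvPolynomial (Fin b × ι) ℚ :=
  eval₂Hom C (lin I L m)

/-- The point of the product of hyperplanes with given other coordinates. -/
noncomputable def zz (m : Fin b → ι → ℚ) (y : Fin b × ι → ℚ) (h : Fin b) (i : ι) : ℚ :=
  if i = I h then ∑ i ∈ univ.erase (I h), (-(m h i) / m h (I h)) * (if i = L h then 1 else y (h, i))
  else if i = L h then 1 else y (h, i)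

lemma zz_sum (m : Fin b → ι → ℚ) (hm : ∀ h, m h (I h) ≠ 0) (y : Fin b × ι → ℚ) (h : Fin b) :
    ∑ i, m h i * zz I L m y h i = 0 := by
  rw [← Finset.add_sum_erase _ _ (mem_univ (I h))]
  have h1 : zz I L m y h (I h) = ∑ i ∈ univ.erase (I h), (-(m h i) / m h (I h)) *
      (if i = L h then 1 else y (h, i)) := by
    rw [zz, if_pos rfl]
  rw [h1, Finset.mul_sum, ← Finset.sum_add_distrib]
  apply Finset.sum_eq_zero
  intro i hi
  have hi' : i ≠ I h := by simpa using hi
  rw [zz, if_neg hi']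
  have := hm h
  field_simp
  ring

lemma eval_comp (m : Fin b → ι → ℚ) (y : Fin b × ι → ℚ) (F : MvPolynomial (Fin b × ι) ℚ) :
    eval y (eval₂Hom (EE I L m) X (Psi I L ℚ F)) = eval (fun q => zz I L m y q.1 q.2) F := by
  have : ((eval y).comp ((eval₂Hom (EE I L m) X).comp (Psi I L ℚ))) =
      (eval (fun q : Fin b × ι => zz I L m y q.1 q.2)) := by
    apply MvPolynomial.ringHom_ext
    · intro a
      simp [Psi, EE]
    · intro q
      simp only [RingHom.comp_apply, Psi, eval₂Hom_X', eval_X]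
      rw [gg, zz]
      split_ifs with hI hL
      · simp only [eval₂Hom_C, EE, eval₂Hom_X', lin, map_sum, map_mul, eval_C]
        apply Finset.sum_congr rfl
        intro i _
        congr 1
        split_ifs <;> simp
      · simp
      · simp
  exact congrArg (fun f => f F) this

lemma constantCoeff_EE (m : Fin b → ι → ℚ) (hIL : ∀ h, I h ≠ L h) (Q : MvPolynomial (Fin b) ℚ) :
    coeff 0 (EE I L m Q) = eval (fun h => -(m h (L h)) / m h (I h)) Q := by
  have : (constantCoeff.comp (EE I L m)) = eval (fun h => -(m h (L h)) / m h (I h)) := by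
    apply MvPolynomial.ringHom_ext
    · intro a
      simp [EE]
    · intro h
      simp only [RingHom.comp_apply, EE, eval₂Hom_X', lin, map_sum, map_mul, eval_X,
        constantCoeff_C]
      rw [Finset.sum_eq_single (L h)]
      · simp
      · intro i _ hi
        rw [if_neg hi]
        simp
      · intro hc
        exact absurd (by simpa using (hIL h).symm) hc
  have h2 := congrArg (fun f => f Q) this
  simpa [constantCoeff_eq] using h2

lemma coeff_eval₂ (m : Fin b → ι → ℚ) (hIL : ∀ h, I h ≠ L h)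
    (Q : MvPolynomial (Fin b × ι) (MvPolynomial (Fin b) ℚ))
    (J : (Fin b × ι) →₀ ℕ) (hmin : ∀ J' ∈ Q.support, ∑ q, J q ≤ ∑ q, J' q) :
    coeff J (eval₂Hom (EE I L m) X Q) =
      eval (fun h => -(m h (L h)) / m h (I h)) (coeff J Q) := by
  classical
  rw [coe_eval₂Hom, eval₂_eq, coeff_sum]
  have h1 : ∀ J' ∈ Q.support, J' ≠ J →
      coeff J ((EE I L m) (coeff J' Q) * ∏ i ∈ J'.support, X i ^ J' i) = 0 := by
    intro J' hJ' hne
    have : ∏ i ∈ J'.support, (X i : MvPolynomial (Fin b × ι) ℚ) ^ J' i = monomial J' 1 := by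
      rw [monomial_eq]; simp [Finsupp.prod]
    rw [this, coeff_mul_monomial', if_neg]
    intro hle
    apply hne
    have h2 := hmin J' hJ'
    have h3 : ∀ q, J' q ≤ J q := fun q => hle q
    have h4 : ∑ q, J' q = ∑ q, J q := le_antisymm (Finset.sum_le_sum fun q _ => h3 q) h2
    have h5 := (Finset.sum_eq_sum_iff_of_le (fun q _ => h3 q)).mp h4
    ext q
    exact h5 q (mem_univ q)
  by_cases hJ : J ∈ Q.support
  · rw [Finset.sum_eq_single_of_mem J hJ h1]
    have : ∏ i ∈ J.support, (X i : MvPolynomial (Fin b × ι) ℚ) ^ J i = monomial J 1 := by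
      rw [monomial_eq]; simp [Finsupp.prod]
    rw [this, coeff_mul_monomial', if_pos le_rfl, mul_one, tsub_self, constantCoeff_EE _ _ _ hIL]
  · rw [notMem_support_iff.mp hJ, map_zero]
    apply Finset.sum_eq_zero
    intro J' hJ'
    apply h1 J' hJ'
    rintro rfl
    exact hJ hJ'

end main

/-- Roth's lemma for hyperplanes, assuming Roth's lemma for rational points. -/
theorem rothH_of_roth1 (hR : Roth1Statement) (ι : Type) [Fintype ι] [DecidableEq ι]
    (hι : 2 ≤ Fintype.card ι) (b : ℕ)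
    (ε : ℝ) (hε : 0 < ε) : ∃ ω c : ℝ, 0 < ω ∧ 0 < c ∧
    ∀ (r : Fin b → ℕ), (∀ h, 1 ≤ r h) → (∀ h h', h < h' → (r h' : ℝ) ≤ ω * r h) →
    ∀ (P : MvPolynomial (Fin b × ι) ℤ), P ≠ 0 → (∀ e ∈ P.support, ∀ h, ∑ i, e (h, i) = r h) →
    ∀ (B : ℝ), 1 ≤ B → (∀ e, |((P.coeff e : ℤ) : ℝ)| ≤ B) →
    ∀ (m : Fin b → ι → ℤ), (∀ h, Prim (m h)) →
    (∀ h h', Real.log B + c * r h' ≤ ω * (r h * Real.log (htv (m h)))) →
    ∃ k : (Fin b × ι) →₀ ℕ, wtB r k ≤ ε ∧ ∃ z : Fin b → ι → ℚ, (∀ h, ∑ i, (m h i : ℚ) * z h i = 0) ∧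
      eval (fun q => z q.1 q.2) (hd k (map (Int.castRingHom ℚ) P)) ≠ 0 := by
  classical
  obtain ⟨ω, c, hω, hc, H⟩ := hR b ε hε
  have hn1 : (1 : ℝ) ≤ (Fintype.card ι : ℝ) - 1 := by
    have : (2 : ℝ) ≤ (Fintype.card ι : ℝ) := by exact_mod_cast hι
    linarith
  have hn0 : (0 : ℝ) < (Fintype.card ι : ℝ) - 1 := by linarith
  refine ⟨ω / ((Fintype.card ι : ℝ) - 1), c, by positivity, hc, ?_⟩
  intro r hr hr2 P hP hdeg B hB hBc m hm hlog
  -- choose the distinguished coordinates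
  choose I hI1 hI2 using fun h => exists_max (m h) (prim_ne_zero (hm h))
  choose L hL1 hL2 using fun h => exists_den (m h) (hm h) (I h) (hI2 h) hι
  have hIL : ∀ h, I h ≠ L h := fun h => (hL1 h).symm
  -- the lowest exponent
  obtain ⟨e0, he0, hmin⟩ := Finset.exists_min_image P.support (fun e => ∑ q, oth I L e q)
    (Finset.nonempty_iff_ne_empty.mpr (by rwa [Ne, MvPolynomial.support_eq_empty]))
  set J0 := oth I L e0 with hJ0
  set Pt : MvPolynomial (Fin b) ℤ := coeff J0 (Psi I L ℤ P) with hPt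
  have hcoef : ∀ e ∈ P.support, ∀ J f, oth I L e = J → xp I e = f →
      coeff f (coeff J (Psi I L ℤ P)) = coeff e P := by
    intro e he J f h1 h2
    rw [coeff_coeff_Psi, Finset.sum_eq_single_of_mem e he, if_pos ⟨h1, h2⟩]
    intro e' he' hne
    rw [if_neg]
    rintro ⟨h3, h4⟩
    exact hne (exp_inj I L r (hdeg e' he') (hdeg e he) (h3.trans h1.symm) (h4.trans h2.symm))
  have hcoef0 : ∀ J f, coeff f (coeff J (Psi I L ℤ P)) ≠ 0 → ∃ e ∈ P.support, oth I L e = J ∧
      xp I e = f := by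
    intro J f hne
    rw [coeff_coeff_Psi] at hne
    obtain ⟨e, he, h1⟩ := Finset.exists_ne_zero_of_sum_ne_zero hne
    refine ⟨e, he, ?_⟩
    by_contra hc
    rw [if_neg hc] at h1
    exact h1 rfl
  have hPt0 : Pt ≠ 0 := by
    intro h0
    have h1 := hcoef e0 he0 J0 (xp I e0) rfl rfl
    rw [← hPt, h0, coeff_zero] at h1
    exact (mem_support_iff.mp he0) h1.symm
  have hPtdeg : ∀ e ∈ Pt.support, ∀ h, e h ≤ r h := by
    intro f hf h
    rw [mem_support_iff] at hf
    obtain ⟨e, he, -, h2⟩ := hcoef0 J0 f hf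
    rw [← h2, xp_apply, ← hdeg e he h]
    exact Finset.single_le_sum (f := fun i => e (h, i)) (fun i _ => Nat.zero_le _) (mem_univ (I h))
  have hPtB : ∀ f, |((Pt.coeff f : ℤ) : ℝ)| ≤ B := by
    intro f
    by_cases hf : coeff f Pt = 0
    · rw [hf]; simp; linarith
    · obtain ⟨e, he, h1, h2⟩ := hcoef0 J0 f hf
      rw [hPt, hcoef e he J0 f h1 h2]
      exact hBc e
  set ξ : Fin b → ℚ := fun h => -(m h (L h) : ℚ) / (m h (I h) : ℚ) with hξ
  have hlog2 : ∀ h, Real.log (htv (m h)) ≤ ((Fintype.card ι : ℝ) - 1) * Real.log (ht (ξ h)) := by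
    intro h
    have h1 : htv (m h) = ((m h (I h)).natAbs : ℝ) := by
      rw [htv, ← hI1 h]
    rw [h1]
    refine (hL2 h).trans ?_
    apply mul_le_mul_of_nonneg_left _ hn0.le
    apply Real.log_le_log
    · exact Nat.cast_pos.mpr (ξ h).den_pos
    · exact le_max_right _ _
  obtain ⟨k, hk1, hk2⟩ := H r hr
    (fun h h' hh => (hr2 h h' hh).trans (by
      apply mul_le_mul_of_nonneg_right _ (Nat.cast_nonneg _)
      exact div_le_self hω.le hn1))
    Pt hPt0 hPtdeg B hB hPtB ξ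
    (fun h h' => (hlog h h').trans (by
      rw [div_mul_eq_mul_div, div_le_iff₀ hn0, mul_assoc]
      apply mul_le_mul_of_nonneg_left _ hω.le
      rw [mul_assoc]
      apply mul_le_mul_of_nonneg_left _ (Nat.cast_nonneg _)
      have := hlog2 h
      linarith))
  refine ⟨KK I k, by rw [wtB_KK]; exact hk1, ?_⟩
  set P' := map (Int.castRingHom ℚ) P with hP'
  set mq : Fin b → ι → ℚ := fun h i => (m h i : ℚ) with hmq
  -- naturality of `Psi`
  have hnat : ∀ J, coeff J (Psi I L ℚ P') = map (Int.castRingHom ℚ) (coeff J (Psi I L ℤ P)) := by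
    intro J
    have hcomp : (Psi I L ℚ).comp (map (Int.castRingHom ℚ)) =
        (map (map (Int.castRingHom ℚ))).comp (Psi I L ℤ) := by
      apply MvPolynomial.ringHom_ext
      · intro a
        simp [Psi]
      · intro q
        simp only [RingHom.comp_apply, map_X, Psi, eval₂Hom_X', gg]
        split_ifs <;> simp
    have := congrArg (fun f => f P) hcomp
    simp only [RingHom.comp_apply] at this
    rw [hP', this, coeff_map]
  set Q := Psi I L ℚ (hd (KK I k) P') with hQ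
  have hQJ : ∀ J, coeff J Q = hd k (map (Int.castRingHom ℚ) (coeff J (Psi I L ℤ P))) := by
    intro J
    rw [hQ, Psi_hd, hnat]
  have hQmin : ∀ J' ∈ Q.support, ∑ q, J0 q ≤ ∑ q, J' q := by
    intro J' hJ'
    rw [mem_support_iff, hQJ] at hJ'
    have h1 : coeff J' (Psi I L ℤ P) ≠ 0 := by
      intro h0
      apply hJ'
      rw [h0, map_zero, hd_zero]
    obtain ⟨f, hf⟩ := MvPolynomial.ne_zero_iff.mp h1
    obtain ⟨e, he, h2, -⟩ := hcoef0 J' f hf
    rw [← h2]
    exact hmin e he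
  have hne : eval₂Hom (EE I L mq) X Q ≠ 0 := by
    intro h0
    have h1 := coeff_eval₂ I L mq hIL Q J0 hQmin
    rw [h0, coeff_zero, hQJ] at h1
    exact hk2 h1.symm
  obtain ⟨y, hy⟩ : ∃ y, eval y (eval₂Hom (EE I L mq) X Q) ≠ 0 := by
    by_contra hc
    push Not at hc
    apply hne
    apply MvPolynomial.funext
    intro y
    rw [hc y, map_zero]
  refine ⟨zz I L mq y, fun h => zz_sum I L mq (fun h => ?_) y h, ?_⟩
  · exact Int.cast_ne_zero.mpr (hI2 h)
  · rw [hQ, eval_comp] at hy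
    exact hy

end Pool.Agent.Helper80.Sub

end

section

namespace Pool.Agent.Helper10.Sub
end Pool.Agent.Helper10.Sub

/-!
# Grid lemma
-/

set_option autoImplicit false

set_option linter.unusedSectionVars false

set_option linter.unusedSimpArgs false

namespace Pool.Agent.Helper41.Sub

open MvPolynomial Pool.Agent.Helper10.Sub

/-- one variable -/
lemma one_var (φ : Polynomial ℚ) (hφ : φ ≠ 0) (d N : ℕ) (hdeg : φ.natDegree ≤ d) :
    ∃ a : ℕ, a ≤ N ∧ ∃ c : ℕ, c ≤ d / (N + 1) ∧ (Polynomial.taylor (a : ℚ) φ).coeff c ≠ 0 := by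
  by_contra hcon
  push Not at hcon
  set K := d / (N + 1) + 1 with hK
  have h1 : ∀ a ∈ Finset.range (N + 1), (Polynomial.X - Polynomial.C (a : ℚ)) ^ K ∣ φ := by
    intro a ha
    rw [Polynomial.X_sub_C_pow_dvd_iff, Polynomial.X_pow_dvd_iff]
    intro c hc
    have := hcon a (by rw [Finset.mem_range] at ha; omega) c (by omega)
    rwa [Polynomial.taylor_apply] at this
  have h2 : ∏ a ∈ Finset.range (N + 1), (Polynomial.X - Polynomial.C (a : ℚ)) ^ K ∣ φ := by
    apply Finset.prod_dvd_of_coprime _ h1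
    intro a _ b _ hab
    apply IsCoprime.pow
    apply Polynomial.isCoprime_X_sub_C_of_isUnit_sub
    rw [isUnit_iff_ne_zero, sub_ne_zero]
    exact_mod_cast hab
  have h3 := Polynomial.natDegree_le_of_dvd h2 hφ
  rw [Polynomial.natDegree_prod_of_monic (Finset.range (N + 1))
    (fun a : ℕ => (Polynomial.X - Polynomial.C (a : ℚ)) ^ K)
    (fun a _ => (Polynomial.monic_X_sub_C (a : ℚ)).pow K)] at h3
  simp only [Polynomial.natDegree_pow, Polynomial.natDegree_X_sub_C, mul_one, Finset.sum_const,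
    Finset.card_range, smul_eq_mul] at h3
  have h4 : d < (N + 1) * K := by
    rw [hK]
    exact Nat.lt_mul_div_succ d (Nat.succ_pos N)
  omega

section slice

variable {J : Type*} [Fintype J] [DecidableEq J]

/-- The polynomial in one variable formed by the coefficients of `Q` whose exponent agrees with
`e` away from `q`. -/
noncomputable def slice (D : ℕ) (q : J) (e : J →₀ ℕ) (Q : MvPolynomial J ℚ) : Polynomial ℚ :=
  ∑ c ∈ Finset.range (D + 1), Polynomial.monomial c (coeff (e.update q c) Q)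

lemma slice_sum {α : Type*} (D : ℕ) (q : J) (e : J →₀ ℕ) (s : Finset α)
    (P : α → MvPolynomial J ℚ) : slice D q e (∑ a ∈ s, P a) = ∑ a ∈ s, slice D q e (P a) := by
  unfold slice
  rw [Finset.sum_comm]
  apply Finset.sum_congr rfl
  intro c _
  rw [coeff_sum, map_sum]

lemma coeff_slice (D : ℕ) (q : J) (e : J →₀ ℕ) (Q : MvPolynomial J ℚ) (c : ℕ) (hc : c ≤ D) :
    (slice D q e Q).coeff c = coeff (e.update q c) Q := by
  unfold slice
  rw [Polynomial.finsetSum_coeff, Finset.sum_eq_single c]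
  · rw [Polynomial.coeff_monomial, if_pos rfl]
  · intro b _ hb
    rw [Polynomial.coeff_monomial, if_neg hb]
  · intro h
    exact absurd (Finset.mem_range.mpr (by omega)) h

lemma natDegree_slice (D : ℕ) (q : J) (e : J →₀ ℕ) (Q : MvPolynomial J ℚ) :
    (slice D q e Q).natDegree ≤ D := by
  unfold slice
  apply Polynomial.natDegree_sum_le_of_forall_le
  intro c hc
  refine (Polynomial.natDegree_monomial_le _).trans ?_
  rw [Finset.mem_range] at hc
  omega

lemma slice_monomial (D : ℕ) (q : J) (e f : J →₀ ℕ) (b : ℚ) (hf : f q ≤ D) :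
    slice D q e (monomial f b) =
      if ∀ i, i ≠ q → f i = e i then Polynomial.monomial (f q) b else 0 := by
  unfold slice
  split_ifs with h
  · rw [Finset.sum_eq_single (f q)]
    · have : f = e.update q (f q) := by
        ext i
        by_cases hi : i = q
        · subst hi; simp
        · rw [Finsupp.coe_update, Function.update_of_ne hi]
          exact h i hi
      rw [coeff_monomial, if_pos this]
    · intro c _ hc
      rw [coeff_monomial, if_neg, map_zero]
      intro h2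
      apply hc
      rw [h2]; simp
    · intro h2
      exact absurd (Finset.mem_range.mpr (by omega)) h2
  · apply Finset.sum_eq_zero
    intro c _
    rw [coeff_monomial, if_neg, map_zero]
    intro h2
    apply h
    intro i hi
    rw [h2, Finsupp.coe_update, Function.update_of_ne hi]

lemma coeff_shift_monomial (q : J) (e f : J →₀ ℕ) (b a : ℚ) (c : ℕ) :
    coeff (e.update q c) (shift (Pi.single q a) (monomial f b)) =
      if ∀ i, i ≠ q → f i = e i then b * ((f q).choose c : ℚ) * a ^ (f q - c) else 0 := by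
  rw [coeff_shift, hd_monomial, eval_monomial, Finsupp.prod_fintype _ _ (by simp)]
  have key : ((∏ i, (f i).choose ((e.update q c) i) : ℕ) : ℚ) *
      ∏ i, (Pi.single q a : J → ℚ) i ^ ((f - e.update q c) i) =
      ∏ i, (((f i).choose ((e.update q c) i) : ℕ) : ℚ) *
        (Pi.single q a : J → ℚ) i ^ ((f - e.update q c) i) := by
    rw [Nat.cast_prod, Finset.prod_mul_distrib]
  rw [mul_assoc, key]
  split_ifs with h
  · rw [Finset.prod_eq_single q]
    · simp
      ring
    · intro i _ hi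
      rw [Finsupp.coe_tsub, Pi.sub_apply, Finsupp.coe_update, Function.update_of_ne hi, h i hi,
        Nat.choose_self, Nat.sub_self]
      simp
    · simp
  · push Not at h
    obtain ⟨i, hi, hne⟩ := h
    rw [Finset.prod_eq_zero (Finset.mem_univ i), mul_zero]
    rw [Finsupp.coe_tsub, Pi.sub_apply, Finsupp.coe_update, Function.update_of_ne hi,
      Pi.single_eq_of_ne hi]
    rcases lt_or_gt_of_ne hne with h1 | h1
    · rw [Nat.choose_eq_zero_of_lt h1]
      simp
    · rw [zero_pow (by omega), mul_zero]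

/-- The slices of a translate. -/
lemma coeff_shift_single (D : ℕ) (q : J) (e : J →₀ ℕ) (Q : MvPolynomial J ℚ)
    (hQ : ∀ f ∈ Q.support, f q ≤ D) (a : ℚ) (c : ℕ) :
    coeff (e.update q c) (shift (Pi.single q a) Q) =
      (Polynomial.taylor a (slice D q e Q)).coeff c := by
  conv_lhs => rw [← support_sum_monomial_coeff Q]
  conv_rhs => rw [← support_sum_monomial_coeff Q]
  rw [map_sum, coeff_sum, slice_sum, map_sum, Polynomial.finsetSum_coeff]
  apply Finset.sum_congr rfl
  intro f hf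
  rw [coeff_shift_monomial, slice_monomial D q e f _ (hQ f hf)]
  split_ifs with h
  · rw [Polynomial.taylor_coeff, Polynomial.hasseDeriv_monomial, Polynomial.eval_monomial]
    ring
  · simp

end slice

lemma support_shift {J : Type*} [Fintype J] (g : MvPolynomial J ℚ) (d : J → ℕ)
    (hdeg : ∀ e ∈ g.support, ∀ q, e q ≤ d q) (ξ : J → ℚ) :
    ∀ f ∈ (shift ξ g).support, ∀ q, f q ≤ d q := by
  intro f hf q
  rw [mem_support_iff, coeff_shift] at hf
  have h1 : hd f g ≠ 0 := by
    intro h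
    rw [h, map_zero] at hf
    exact hf rfl
  obtain ⟨m, hm⟩ := MvPolynomial.exists_coeff_ne_zero h1
  have h2 := support_hd f g (mem_support_iff.mpr hm)
  have h3 := hdeg _ h2 q
  rw [Finsupp.add_apply] at h3
  omega

/-- several variables -/
lemma multi {J : Type*} [Fintype J] [DecidableEq J] (g : MvPolynomial J ℚ) (hg : g ≠ 0)
    (d : J → ℕ) (hdeg : ∀ e ∈ g.support, ∀ q, e q ≤ d q) (N : ℕ) (S : Finset J) :
    ∃ u : J → ℕ, (∀ q, u q ≤ N) ∧ (∀ q, q ∉ S → u q = 0) ∧ ∃ e : J →₀ ℕ,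
      (∀ q ∈ S, e q ≤ d q / (N + 1)) ∧ coeff e (shift (fun q => (u q : ℚ)) g) ≠ 0 := by
  induction S using Finset.induction_on with
  | empty =>
    obtain ⟨e, he⟩ := MvPolynomial.exists_coeff_ne_zero hg
    refine ⟨fun _ => 0, fun _ => Nat.zero_le _, fun _ _ => rfl, e, by simp, ?_⟩
    have : (fun _ : J => ((0 : ℕ) : ℚ)) = 0 := by ext; simp
    rw [this, shift_zero]
    exact he
  | insert q S hq ih =>
    obtain ⟨u, hu, hu0, e, he, hne⟩ := ih
    set Q := shift (fun q => (u q : ℚ)) g with hQ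
    have hsup := support_shift g d hdeg (fun q => (u q : ℚ))
    have hs : slice (d q) q e Q ≠ 0 := by
      intro h
      have h1 := coeff_slice (d q) q e Q (e q) (hsup e (mem_support_iff.mpr hne) q)
      rw [h, Polynomial.coeff_zero] at h1
      apply hne
      rw [h1]
      congr 1
      ext i
      by_cases hi : i = q
      · subst hi; simp
      · simp [Function.update_of_ne hi]
    obtain ⟨a, haN, c, hc, hac⟩ := one_var _ hs (d q) N (natDegree_slice _ _ _ _)
    rw [← coeff_shift_single (d q) q e Q (fun f hf => hsup f hf q), hQ, shift_shift] at hac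
    refine ⟨Function.update u q a, ?_, ?_, e.update q c, ?_, ?_⟩
    · intro i
      by_cases hi : i = q
      · subst hi; simpa using haN
      · rw [Function.update_of_ne hi]; exact hu i
    · intro i hi
      rw [Finset.mem_insert, not_or] at hi
      rw [Function.update_of_ne hi.1]
      exact hu0 i hi.2
    · intro i hi
      by_cases hiq : i = q
      · subst hiq; simpa using hc
      · rw [Finsupp.coe_update, Function.update_of_ne hiq]
        exact he i ((Finset.mem_insert.mp hi).resolve_left hiq)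
    · convert hac using 4
      ext i
      by_cases hi : i = q
      · subst hi
        simp [hu0 i hq]
      · simp [Function.update_of_ne hi, Pi.single_eq_of_ne hi]

section main

variable {b n' : ℕ} {ι : Type} [Fintype ι] [DecidableEq ι]

/-- The substitution. -/
noncomputable def psi (y : Fin b → Fin n' → ι → ℚ) :
    MvPolynomial (Fin b × ι) ℚ →ₐ[ℚ] MvPolynomial (Fin b × Fin n') ℚ :=
  aeval (fun p => ∑ j, C (y p.1 j p.2) * X (p.1, j))

lemma eval_psi (y : Fin b → Fin n' → ι → ℚ) (u : Fin b × Fin n' → ℚ)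
    (P : MvPolynomial (Fin b × ι) ℚ) :
    eval u (psi y P) = eval (fun q => ∑ j, u (q.1, j) * y q.1 j q.2) P := by
  induction P using MvPolynomial.induction_on with
  | C a => simp [psi]
  | add p q hp hq => simp only [map_add, hp, hq]
  | mul_X p i hp =>
    rw [map_mul, map_mul, hp, map_mul]
    congr 1
    simp only [psi, aeval_X, map_sum, map_mul, eval_C, eval_X]
    exact Finset.sum_congr rfl fun j _ => mul_comm _ _

lemma shift_psi (y : Fin b → Fin n' → ι → ℚ) (u : Fin b × Fin n' → ℚ)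
    (P : MvPolynomial (Fin b × ι) ℚ) :
    shift u (psi y P) = psi y (shift (fun q => ∑ j, u (q.1, j) * y q.1 j q.2) P) := by
  induction P using MvPolynomial.induction_on with
  | C a => simp [psi, shift_C]
  | add p q hp hq => simp only [map_add, hp, hq]
  | mul_X p i hp =>
    rw [map_mul, map_mul, hp, map_mul, map_mul]
    congr 1
    rw [shift_X]
    simp only [psi, map_add, aeval_X, map_sum, map_mul, shift_C, shift_X, aeval_C]
    simp only [mul_add, Finset.sum_add_distrib]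
    congr 1
    simp only [MvPolynomial.algebraMap_eq]
    exact Finset.sum_congr rfl fun j _ => mul_comm _ _

/-- block degrees -/
lemma psi_monomial (y : Fin b → Fin n' → ι → ℚ) (k : (Fin b × ι) →₀ ℕ) (a : ℚ)
    (κ : (Fin b × Fin n') →₀ ℕ) (h : coeff κ (psi y (monomial k a)) ≠ 0) (l : Fin b) :
    ∑ j, κ (l, j) = ∑ i, k (l, i) := by
  classical
  let w : Fin b × Fin n' → (Fin b → ℕ) := fun q => Pi.single q.1 1
  have h1 : IsWeightedHomogeneous w (psi y (monomial k a))
      (∑ p : Fin b × ι, k p • (Pi.single p.1 1 : Fin b → ℕ)) := by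
    have e1 : psi y (monomial k a) =
        C a * ∏ p : Fin b × ι, (∑ j, C (y p.1 j p.2) * X (p.1, j)) ^ (k p) := by
      rw [monomial_eq, Finsupp.prod_fintype _ _ (by simp), map_mul, map_prod]
      simp [psi]
    rw [e1]
    have h2 := (isWeightedHomogeneous_C w a).mul
      (IsWeightedHomogeneous.prod (R := ℚ) (w := w) Finset.univ
        (fun p : Fin b × ι => (∑ j, C (y p.1 j p.2) * X (p.1, j)) ^ (k p))
        (fun p => k p • (Pi.single p.1 1 : Fin b → ℕ)) (fun p _ => by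
          apply IsWeightedHomogeneous.pow
          apply IsWeightedHomogeneous.sum
          intro j _
          have h3 := (isWeightedHomogeneous_C w (y p.1 j p.2)).mul
            (isWeightedHomogeneous_X ℚ w (p.1, j))
          rw [zero_add] at h3
          exact h3))
    rw [zero_add] at h2
    exact h2
  have h4 := congrFun (h1 h) l
  rw [Finsupp.weight_apply, Finsupp.sum_fintype _ _ (by simp)] at h4
  simp only [Finset.sum_apply, Pi.smul_apply, smul_eq_mul, w] at h4
  rw [Fintype.sum_prod_type, Fintype.sum_prod_type] at h4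
  rw [Finset.sum_eq_single l, Finset.sum_eq_single l] at h4
  · simpa using h4
  · intro m _ hm
    simp [Pi.single_eq_of_ne hm.symm]
  · simp
  · intro m _ hm
    simp [Pi.single_eq_of_ne hm.symm]
  · simp

lemma psi_support (y : Fin b → Fin n' → ι → ℚ) (P : MvPolynomial (Fin b × ι) ℚ)
    (κ : (Fin b × Fin n') →₀ ℕ) (h : coeff κ (psi y P) ≠ 0) :
    ∃ k ∈ P.support, ∀ l, ∑ j, κ (l, j) = ∑ i, k (l, i) := by
  rw [← support_sum_monomial_coeff P, map_sum, coeff_sum] at h
  obtain ⟨k, hk, hne⟩ := Finset.exists_ne_zero_of_sum_ne_zero h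
  exact ⟨k, hk, psi_monomial y k _ κ hne⟩

end main

/-- GRID -/
theorem grid {b n' : ℕ} {ι : Type} [Fintype ι] [DecidableEq ι] (G : MvPolynomial (Fin b × ι) ℚ)
    (r : Fin b → ℕ) (hdeg : ∀ e ∈ G.support, ∀ h, ∑ i, e (h, i) ≤ r h)
    (y : Fin b → Fin n' → ι → ℚ) (z : Fin b → ι → ℚ)
    (hz : ∀ h, z h ∈ Submodule.span ℚ (Set.range (y h)))
    (hne : eval (fun q => z q.1 q.2) G ≠ 0) (N : ℕ) :
    ∃ u : Fin b → Fin n' → ℕ, (∀ h j, u h j ≤ N) ∧ ∃ k : (Fin b × ι) →₀ ℕ,
      (∀ h, ∑ i, k (h, i) ≤ n' * (r h / (N + 1))) ∧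
      eval (fun q => ∑ j, (u q.1 j : ℚ) * y q.1 j q.2) (hd k G) ≠ 0 := by
  have h1 : ∀ h, ∃ c : Fin n' → ℚ, ∑ j, c j • y h j = z h := fun h =>
    (Submodule.mem_span_range_iff_exists_fun ℚ).mp (hz h)
  choose c hc using h1
  have hg : psi y G ≠ 0 := by
    intro h0
    apply hne
    have h2 := eval_psi y (fun q => c q.1 q.2) G
    rw [h0, map_zero] at h2
    rw [h2]
    congr 1
    apply congrArg
    ext q
    rw [← hc q.1]
    simp [Finset.sum_apply]
  have hsup : ∀ e ∈ (psi y G).support, ∀ q : Fin b × Fin n', e q ≤ r q.1 := by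
    intro e he q
    obtain ⟨k, hk, hkl⟩ := psi_support y G e (mem_support_iff.mp he)
    refine le_trans ?_ ((hkl q.1).le.trans (hdeg k hk q.1))
    exact Finset.single_le_sum (f := fun j => e (q.1, j)) (fun _ _ => Nat.zero_le _)
      (Finset.mem_univ q.2)
  obtain ⟨u, hu, -, e, he, hue⟩ := multi (psi y G) hg (fun q => r q.1) hsup N Finset.univ
  rw [shift_psi] at hue
  obtain ⟨k, hk, hkl⟩ := psi_support y _ e hue
  refine ⟨fun h j => u (h, j), fun h j => hu (h, j), k, ?_, ?_⟩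
  · intro h
    rw [← hkl h]
    calc ∑ j, e (h, j) ≤ ∑ _j : Fin n', r h / (N + 1) :=
          Finset.sum_le_sum fun j _ => he (h, j) (Finset.mem_univ _)
      _ = n' * (r h / (N + 1)) := by simp
  · rw [mem_support_iff, coeff_shift] at hk
    exact hk

end Pool.Agent.Helper41.Sub

end

section

namespace Pool.Agent.Helper10.Sub
end Pool.Agent.Helper10.Sub

/-!
# Subspace theorem project, module AUX, part 1: counting exponents, algebraic coefficients
-/

set_option autoImplicit false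

namespace Pool.Agent.Helper43.Sub

open Pool.Agent.Helper10.Sub

open MvPolynomial Finset

section count

variable {b : ℕ} {α : Type*} [DecidableEq α]

/-- Mean zero functions on the factors of a product: second moment of the sum. -/
theorem second_moment (A : Fin b → Finset α) (Y : Fin b → α → ℝ)
    (h0 : ∀ h, ∑ x ∈ A h, Y h x = 0) (h1 : ∀ h, ∀ x ∈ A h, |Y h x| ≤ 1) :
    ∑ J ∈ Fintype.piFinset A, (∑ h, Y h (J h)) ^ 2 ≤ b * (Fintype.piFinset A).card := by
  have hcross : ∀ h h' : Fin b, h ≠ h' →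
      ∑ J ∈ Fintype.piFinset A, Y h (J h) * Y h' (J h') = 0 := by
    intro h h' hne
    have e1 : ∀ J : Fin b → α, Y h (J h) * Y h' (J h') =
        ∏ k, (if k = h then Y h (J k) else if k = h' then Y h' (J k) else 1) := by
      intro J
      rw [Finset.prod_eq_mul h h' hne]
      · simp [hne.symm]
      · intro c _ hc
        simp [hc.1, hc.2]
      · intro hh; exact absurd (Finset.mem_univ _) hh
      · intro hh; exact absurd (Finset.mem_univ _) hh
    rw [Finset.sum_congr rfl fun J _ => e1 J]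
    have e2 := Finset.prod_univ_sum A (fun (k : Fin b) (x : α) =>
      (if k = h then Y h x else if k = h' then Y h' x else 1))
    rw [← e2]
    apply Finset.prod_eq_zero (Finset.mem_univ h)
    simpa using h0 h
  have e3 : ∀ J : Fin b → α, (∑ h, Y h (J h)) ^ 2 = ∑ h, ∑ h', Y h (J h) * Y h' (J h') := by
    intro J
    rw [sq, Finset.sum_mul_sum]
  rw [Finset.sum_congr rfl fun J _ => e3 J, Finset.sum_comm]
  have e4 : ∀ h : Fin b, ∑ J ∈ Fintype.piFinset A, ∑ h', Y h (J h) * Y h' (J h') ≤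
      (Fintype.piFinset A).card := by
    intro h
    rw [Finset.sum_comm, Finset.sum_eq_single h]
    · calc ∑ J ∈ Fintype.piFinset A, Y h (J h) * Y h (J h) ≤
            ∑ _J ∈ Fintype.piFinset A, (1 : ℝ) := by
            refine Finset.sum_le_sum fun J hJ => ?_
            have := h1 h (J h) (Fintype.mem_piFinset.1 hJ h)
            rw [← sq, ← sq_abs]
            nlinarith [abs_nonneg (Y h (J h))]
        _ = _ := by simp
    · intro h' _ hne
      exact hcross h h' hne.symm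
    · intro hh; exact absurd (Finset.mem_univ _) hh
  calc _ ≤ ∑ _h : Fin b, ((Fintype.piFinset A).card : ℝ) := Finset.sum_le_sum fun h _ => e4 h
    _ = _ := by simp

/-- Chebyshev's inequality for such sums. -/
theorem chebyshev (A : Fin b → Finset α) (Y : Fin b → α → ℝ)
    (h0 : ∀ h, ∑ x ∈ A h, Y h x = 0) (h1 : ∀ h, ∀ x ∈ A h, |Y h x| ≤ 1) {δ : ℝ} (hδ : 0 < δ) :
    (((Fintype.piFinset A).filter fun J => δ * b < |∑ h, Y h (J h)|).card : ℝ) * (δ ^ 2 * b) ≤
      (Fintype.piFinset A).card := by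
  rcases Nat.eq_zero_or_pos b with hb | hb
  · subst hb
    simp
  have hbr : (0 : ℝ) < b := by exact_mod_cast hb
  have h2 := second_moment A Y h0 h1
  have h3 : (((Fintype.piFinset A).filter fun J => δ * b < |∑ h, Y h (J h)|).card : ℝ) *
      (δ * b) ^ 2 ≤ ∑ J ∈ Fintype.piFinset A, (∑ h, Y h (J h)) ^ 2 := by
    calc _ = ∑ _J ∈ (Fintype.piFinset A).filter (fun J => δ * b < |∑ h, Y h (J h)|),
          (δ * b) ^ 2 := by rw [Finset.sum_const, nsmul_eq_mul]
      _ ≤ ∑ J ∈ (Fintype.piFinset A).filter (fun J => δ * b < |∑ h, Y h (J h)|),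
          (∑ h, Y h (J h)) ^ 2 := by
          refine Finset.sum_le_sum fun J hJ => ?_
          rw [← sq_abs (∑ h, Y h (J h))]
          exact pow_le_pow_left₀ (by positivity) (Finset.mem_filter.1 hJ).2.le 2
      _ ≤ _ := Finset.sum_le_sum_of_subset_of_nonneg (Finset.filter_subset _ _)
          fun _ _ _ => sq_nonneg _
  have h4 : (((Fintype.piFinset A).filter fun J => δ * b < |∑ h, Y h (J h)|).card : ℝ) *
      (δ ^ 2 * b) * b ≤ (Fintype.piFinset A).card * b := by
    calc _ = (((Fintype.piFinset A).filter fun J => δ * b < |∑ h, Y h (J h)|).card : ℝ) *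
        (δ * b) ^ 2 := by ring
      _ ≤ _ := h3
      _ ≤ _ := h2
      _ = _ := by ring
  exact le_of_mul_le_mul_right h4 hbr

end count

section exps

variable {ι : Type} [Fintype ι] [DecidableEq ι]

/-- All functions `ι → ℕ` with sum `r`. -/
def blk (ι : Type) [Fintype ι] [DecidableEq ι] (r : ℕ) : Finset (ι → ℕ) :=
  Finset.piAntidiag Finset.univ r

theorem mem_blk {r : ℕ} {f : ι → ℕ} : f ∈ blk ι r ↔ ∑ i, f i = r := by
  unfold blk
  rw [Finset.mem_piAntidiag]
  simp

theorem le_of_mem_blk {r : ℕ} {f : ι → ℕ} (hf : f ∈ blk ι r) (i : ι) : f i ≤ r := by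
  rw [← mem_blk.1 hf]
  exact Finset.single_le_sum (fun _ _ => Nat.zero_le _) (Finset.mem_univ i)

theorem sum_blk_eq (r : ℕ) (i j : ι) : ∑ f ∈ blk ι r, (f i : ℝ) = ∑ f ∈ blk ι r, (f j : ℝ) := by
  refine Finset.sum_nbij' (fun f => f ∘ Equiv.swap i j) (fun f => f ∘ Equiv.swap i j) ?_ ?_ ?_ ?_ ?_
  · intro f hf
    rw [mem_blk] at hf ⊢
    rw [← hf]
    exact Equiv.sum_comp (Equiv.swap i j) f
  · intro f hf
    rw [mem_blk] at hf ⊢
    rw [← hf]
    exact Equiv.sum_comp (Equiv.swap i j) f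
  · intro f _
    funext k
    simp
  · intro f _
    funext k
    simp
  · intro f _
    simp

theorem mean_blk (r : ℕ) (hr : 1 ≤ r) (i : ι) :
    ∑ f ∈ blk ι r, ((f i : ℝ) / r - 1 / Fintype.card ι) = 0 := by
  have hn : 0 < Fintype.card ι := Fintype.card_pos_iff.2 ⟨i⟩
  have hn' : (Fintype.card ι : ℝ) ≠ 0 := by exact_mod_cast hn.ne'
  have hr' : (r : ℝ) ≠ 0 := by exact_mod_cast (show r ≠ 0 by omega)
  have h1 : (Fintype.card ι : ℝ) * ∑ f ∈ blk ι r, (f i : ℝ) = r * (blk ι r).card := by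
    calc (Fintype.card ι : ℝ) * ∑ f ∈ blk ι r, (f i : ℝ) =
          ∑ j : ι, ∑ f ∈ blk ι r, (f j : ℝ) := by
          rw [Finset.sum_congr rfl fun j _ => sum_blk_eq r j i, Finset.sum_const, nsmul_eq_mul,
            Finset.card_univ]
      _ = ∑ f ∈ blk ι r, ∑ j : ι, (f j : ℝ) := Finset.sum_comm
      _ = ∑ _f ∈ blk ι r, (r : ℝ) := by
          refine Finset.sum_congr rfl fun f hf => ?_
          rw [← Nat.cast_sum, mem_blk.1 hf]
      _ = r * (blk ι r).card := by rw [Finset.sum_const, nsmul_eq_mul, mul_comm]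
  rw [Finset.sum_sub_distrib, Finset.sum_const, nsmul_eq_mul, ← Finset.sum_div]
  field_simp
  linarith

theorem abs_blk_le (r : ℕ) (hr : 1 ≤ r) (i : ι) {f : ι → ℕ} (hf : f ∈ blk ι r) :
    |(f i : ℝ) / r - 1 / Fintype.card ι| ≤ 1 := by
  have hn : 0 < Fintype.card ι := Fintype.card_pos_iff.2 ⟨i⟩
  have hn' : (1 : ℝ) ≤ Fintype.card ι := by exact_mod_cast hn
  have hr' : (0 : ℝ) < r := by exact_mod_cast hr
  have h1 : (f i : ℝ) / r ≤ 1 := by
    rw [div_le_one hr']
    exact_mod_cast le_of_mem_blk hf i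
  have h2 : 0 ≤ (f i : ℝ) / r := by positivity
  have h3 : (1 : ℝ) / Fintype.card ι ≤ 1 := by
    rw [div_le_one (by linarith)]
    exact hn'
  have h4 : (0 : ℝ) ≤ 1 / Fintype.card ι := by positivity
  rw [abs_le]
  constructor <;> linarith

/-- the multihomogeneous exponents, as functions -/
def exps (ι : Type) [Fintype ι] [DecidableEq ι] {b : ℕ} (r : Fin b → ℕ) :
    Finset (Fin b → ι → ℕ) :=
  Fintype.piFinset fun h => blk ι (r h)

theorem mem_exps {b : ℕ} {r : Fin b → ℕ} {J : Fin b → ι → ℕ} :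
    J ∈ exps ι r ↔ ∀ h, ∑ i, J h i = r h := by
  unfold exps
  rw [Fintype.mem_piFinset]
  exact forall_congr' fun h => mem_blk

open Classical in
/-- the exponents which are not balanced -/
noncomputable def badExps (ι : Type) [Fintype ι] [DecidableEq ι] {b : ℕ} (r : Fin b → ℕ)
    (ε : ℝ) : Finset (Fin b → ι → ℕ) :=
  (exps ι r).filter fun J =>
    ∃ i, ε * b < |(∑ h, (J h i : ℝ) / r h) - b / Fintype.card ι|

theorem card_badExps {b : ℕ} (r : Fin b → ℕ) (hr : ∀ h, 1 ≤ r h) {ε : ℝ} (hε : 0 < ε) :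
    ((badExps ι r ε).card : ℝ) * (ε ^ 2 * b) ≤ Fintype.card ι * (exps ι r).card := by
  classical
  have h1 : badExps ι r ε ⊆ Finset.univ.biUnion fun i : ι => (exps ι r).filter fun J =>
      ε * b < |∑ h, ((J h i : ℝ) / r h - 1 / Fintype.card ι)| := by
    intro J hJ
    obtain ⟨hJ1, i, hi⟩ := Finset.mem_filter.1 hJ
    rw [Finset.mem_biUnion]
    refine ⟨i, Finset.mem_univ _, Finset.mem_filter.2 ⟨hJ1, ?_⟩⟩
    rw [Finset.sum_sub_distrib, Finset.sum_const, Finset.card_univ, Fintype.card_fin, nsmul_eq_mul,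
      mul_one_div]
    exact hi
  have h2 : ∀ i : ι, (((exps ι r).filter fun J =>
      ε * b < |∑ h, ((J h i : ℝ) / r h - 1 / Fintype.card ι)|).card : ℝ) * (ε ^ 2 * b) ≤
      (exps ι r).card := by
    intro i
    exact chebyshev (fun h => blk ι (r h)) (fun h f => (f i : ℝ) / r h - 1 / Fintype.card ι)
      (fun h => mean_blk (r h) (hr h) i) (fun h f hf => abs_blk_le (r h) (hr h) i hf) hε
  calc ((badExps ι r ε).card : ℝ) * (ε ^ 2 * b) ≤
        (∑ i : ι, (((exps ι r).filter fun J =>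
      ε * b < |∑ h, ((J h i : ℝ) / r h - 1 / Fintype.card ι)|).card : ℝ)) * (ε ^ 2 * b) := by
        refine mul_le_mul_of_nonneg_right ?_ (by positivity)
        have := (Finset.card_le_card h1).trans Finset.card_biUnion_le
        exact_mod_cast this
    _ = ∑ i : ι, (((exps ι r).filter fun J =>
      ε * b < |∑ h, ((J h i : ℝ) / r h - 1 / Fintype.card ι)|).card : ℝ) * (ε ^ 2 * b) := by
        rw [Finset.sum_mul]
    _ ≤ ∑ _i : ι, ((exps ι r).card : ℝ) := Finset.sum_le_sum fun i _ => h2 i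
    _ = _ := by rw [Finset.sum_const, nsmul_eq_mul, Finset.card_univ]

theorem card_exps_le {b : ℕ} (r : Fin b → ℕ) :
    (exps ι r).card ≤ (2 ^ Fintype.card ι) ^ (∑ h, r h) := by
  have h1 : ∀ r : ℕ, (blk ι r).card ≤ (2 ^ Fintype.card ι) ^ r := by
    intro r
    have h2 : blk ι r ⊆ Fintype.piFinset fun _ : ι => Finset.range (r + 1) := by
      intro f hf
      rw [Fintype.mem_piFinset]
      intro i
      rw [Finset.mem_range]
      have := le_of_mem_blk hf i
      omega
    have h3 := Finset.card_le_card h2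
    rw [Fintype.card_piFinset, Finset.prod_const, Finset.card_range, Finset.card_univ] at h3
    refine h3.trans ?_
    rw [← pow_mul, mul_comm (Fintype.card ι) r, pow_mul]
    exact Nat.pow_le_pow_left (Nat.lt_two_pow_self) _
  unfold exps
  rw [Fintype.card_piFinset, ← Finset.prod_pow_eq_pow_sum]
  exact Finset.prod_le_prod' fun h _ => h1 (r h)

theorem exps_nonempty {b : ℕ} (r : Fin b → ℕ) (hι : 1 ≤ Fintype.card ι) : (exps ι r).Nonempty := by
  obtain ⟨i⟩ : Nonempty ι := Fintype.card_pos_iff.1 hι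
  refine ⟨fun h => Pi.single i (r h), mem_exps.2 fun h => ?_⟩
  rw [Finset.sum_pi_single']
  simp

end exps

end Pool.Agent.Helper43.Sub

end

section

namespace Pool.Agent.Helper10.Sub
end Pool.Agent.Helper10.Sub

/-!
# Subspace theorem project, module AUX, part 2: monomials in algebraic numbers
-/

set_option autoImplicit false

namespace Pool.Agent.Helper43.Sub

open Pool.Agent.Helper10.Sub

open MvPolynomial Finset

/-- a common denominator of finitely many rational numbers -/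
theorem common_den {α : Type*} [Finite α] (q : α → ℚ) :
    ∃ N : ℕ, 0 < N ∧ ∀ a, ∃ z : ℤ, (N : ℚ) * q a = z := by
  classical
  have := Fintype.ofFinite α
  refine ⟨∏ a, (q a).den, Finset.prod_pos fun a _ => (q a).den_pos, fun a => ?_⟩
  obtain ⟨k, hk⟩ : (q a).den ∣ ∏ a, (q a).den := Finset.dvd_prod_of_mem _ (Finset.mem_univ a)
  refine ⟨k * (q a).num, ?_⟩
  rw [hk]
  push_cast
  have h := Rat.den_mul_eq_num (q a)
  calc ((q a).den : ℚ) * k * q a = k * ((q a).den * q a) := by ring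
    _ = k * (q a).num := by rw [h]

section rep

variable {F : Type*} [Field F] {D : ℕ}

/-- `x` is an integer combination of the `v t` with coefficients bounded by `B` -/
def Rep (v : Fin D → F) (B : ℕ) (x : F) : Prop :=
  ∃ z : Fin D → ℤ, x = ∑ t, (z t : F) * v t ∧ ∀ t, |z t| ≤ B

theorem Rep.zero (v : Fin D → F) (B : ℕ) : Rep v B 0 :=
  ⟨0, by simp, fun t => by simp⟩

theorem Rep.mono {v : Fin D → F} {B B' : ℕ} (h : B ≤ B') {x : F} (hx : Rep v B x) : Rep v B' x := by
  obtain ⟨z, h1, h2⟩ := hx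
  exact ⟨z, h1, fun t => (h2 t).trans (by exact_mod_cast h)⟩

theorem Rep.add {v : Fin D → F} {B B' : ℕ} {x y : F} (hx : Rep v B x) (hy : Rep v B' y) :
    Rep v (B + B') (x + y) := by
  obtain ⟨z, h1, h2⟩ := hx
  obtain ⟨w, h3, h4⟩ := hy
  refine ⟨z + w, ?_, fun t => ?_⟩
  · rw [h1, h3, ← Finset.sum_add_distrib]
    refine Finset.sum_congr rfl fun t _ => ?_
    simp only [Pi.add_apply]
    push_cast
    ring
  · have := h2 t
    have := h4 t
    simp only [Pi.add_apply]
    push_cast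
    exact (abs_add_le _ _).trans (by linarith)

theorem Rep.sum {v : Fin D → F} {B : ℕ} {κ : Type*} (s : Finset κ) (x : κ → F)
    (hx : ∀ k ∈ s, Rep v B (x k)) : Rep v (s.card * B) (∑ k ∈ s, x k) := by
  classical
  induction s using Finset.induction_on with
  | empty => simpa using Rep.zero v 0
  | insert a s ha ih =>
    rw [Finset.sum_insert ha, Finset.card_insert_of_notMem ha]
    refine ((hx a (Finset.mem_insert_self _ _)).add
      (ih fun k hk => hx k (Finset.mem_insert_of_mem hk))).mono ?_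
    rw [Nat.add_mul, one_mul, add_comm]

theorem Rep.zsmul {v : Fin D → F} {B : ℕ} {x : F} (hx : Rep v B x) (a : ℤ) {A : ℕ}
    (ha : |a| ≤ A) : Rep v (A * B) ((a : F) * x) := by
  obtain ⟨z, h1, h2⟩ := hx
  refine ⟨fun t => a * z t, ?_, fun t => ?_⟩
  · rw [h1, Finset.mul_sum]
    refine Finset.sum_congr rfl fun t _ => ?_
    push_cast
    ring
  · rw [abs_mul]
    push_cast
    exact mul_le_mul ha (h2 t) (abs_nonneg _) (by positivity)

/-- multiplication by an element which maps each `v s` to an integer combination -/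
theorem Rep.mul {v : Fin D → F} {C : ℕ} {β : F} (hβ : ∀ s, Rep v C (β * v s)) {B : ℕ} {x : F}
    (hx : Rep v B x) : Rep v (D * (B * C)) (β * x) := by
  obtain ⟨z, h1, h2⟩ := hx
  have h3 : β * x = ∑ s, (z s : F) * (β * v s) := by
    rw [h1, Finset.mul_sum]
    refine Finset.sum_congr rfl fun t _ => ?_
    ring
  rw [h3]
  have := Rep.sum (B := B * C) Finset.univ (fun s => (z s : F) * (β * v s))
    (fun s _ => (hβ s).zsmul (z s) (h2 s))
  simpa using this

end rep

/-- Structure constants for finitely many algebraic elements. -/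
theorem alg_struct {F : Type*} [Field F] [Algebra ℚ F] {κ : Type*} [Finite κ] (β : κ → F)
    (hβ : ∀ k, IsAlgebraic ℚ (β k)) :
    ∃ (D : ℕ) (v : Fin D → F) (D0 : ℕ) (C : ℕ), 0 < D0 ∧ 1 ≤ C ∧ 1 ≤ D ∧ Rep v C 1 ∧
      ∀ k s, Rep v C ((D0 : F) * β k * v s) := by
  classical
  have := Fintype.ofFinite κ
  have hchar : CharZero F := algebraRat.charZero F
  let A := Algebra.adjoin ℚ (Set.range β)
  have hA : (Subalgebra.toSubmodule A).FG := by
    apply fg_adjoin_of_finite (Set.finite_range β)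
    rintro _ ⟨k, rfl⟩
    exact (hβ k).isIntegral
  obtain ⟨G, hG⟩ := hA
  let D := G.card
  let u : Fin D → F := fun s => (G.equivFin.symm s : F)
  have hu : Submodule.span ℚ (Set.range u) = Subalgebra.toSubmodule A := by
    rw [← hG]
    congr 1
    ext x
    constructor
    · rintro ⟨s, rfl⟩
      exact (G.equivFin.symm s).2
    · intro hx
      exact ⟨G.equivFin ⟨x, hx⟩, by simp [u]⟩
  have hrep : ∀ x ∈ A, ∃ q : Fin D → ℚ, ∑ t, q t • u t = x := by
    intro x hx
    have : x ∈ Submodule.span ℚ (Set.range u) := by rw [hu]; exact hx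
    exact (Submodule.mem_span_range_iff_exists_fun ℚ).1 this
  have huA : ∀ s, u s ∈ A := by
    intro s
    have : u s ∈ Submodule.span ℚ (Set.range u) := Submodule.subset_span ⟨s, rfl⟩
    rw [hu] at this
    exact this
  -- the unit
  obtain ⟨q1, hq1⟩ := hrep 1 A.one_mem
  obtain ⟨N1, hN1, hz1⟩ := common_den q1
  choose z1 hz1 using hz1
  -- the products
  have h2 : ∀ ks : κ × Fin D, ∃ q : Fin D → ℚ, ∑ t, q t • u t = β ks.1 * u ks.2 := fun ks =>
    hrep _ (A.mul_mem (Algebra.subset_adjoin ⟨ks.1, rfl⟩) (huA ks.2))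
  choose q2 hq2 using h2
  obtain ⟨N2, hN2, hz2⟩ := common_den (fun x : (κ × Fin D) × Fin D => q2 x.1 x.2)
  choose z2 hz2 using hz2
  have hN1' : (N1 : F) ≠ 0 := by exact_mod_cast hN1.ne'
  let v : Fin D → F := fun s => (N1 : F)⁻¹ * u s
  let C : ℕ := 1 + ∑ t, (z1 t).natAbs + ∑ x, (z2 x).natAbs
  have hC1 : ∀ t, |z1 t| ≤ C := by
    intro t
    have : (z1 t).natAbs ≤ ∑ t, (z1 t).natAbs :=
      Finset.single_le_sum (f := fun t => (z1 t).natAbs) (fun _ _ => Nat.zero_le _)
        (Finset.mem_univ t)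
    have h : (z1 t).natAbs ≤ C := by omega
    rw [Int.abs_eq_natAbs]
    exact_mod_cast h
  have hC2 : ∀ x, |z2 x| ≤ C := by
    intro x
    have : (z2 x).natAbs ≤ ∑ x, (z2 x).natAbs :=
      Finset.single_le_sum (f := fun x => (z2 x).natAbs) (fun _ _ => Nat.zero_le _)
        (Finset.mem_univ x)
    have h : (z2 x).natAbs ≤ C := by omega
    rw [Int.abs_eq_natAbs]
    exact_mod_cast h
  have hone : Rep v C (1 : F) := by
    refine ⟨z1, ?_, hC1⟩
    rw [← hq1]
    refine Finset.sum_congr rfl fun t _ => ?_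
    have h3 : (z1 t : F) = (N1 : F) * (algebraMap ℚ F (q1 t)) := by
      have := congrArg (algebraMap ℚ F) (hz1 t)
      rw [map_mul, map_natCast, map_intCast] at this
      exact this.symm
    rw [Algebra.smul_def, h3]
    simp only [v]
    field_simp
  refine ⟨D, v, N2, C, hN2, by omega, ?_, hone, ?_⟩
  · by_contra hD
    have hD0 : D = 0 := by omega
    obtain ⟨z, hz, _⟩ := hone
    have : IsEmpty (Fin D) := by rw [hD0]; infer_instance
    rw [Finset.univ_eq_empty, Finset.sum_empty] at hz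
    exact one_ne_zero hz
  · intro k s
    refine ⟨fun t => z2 ((k, s), t), ?_, fun t => hC2 _⟩
    have h3 : ∀ t, (z2 ((k, s), t) : F) = (N2 : F) * (algebraMap ℚ F (q2 (k, s) t)) := by
      intro t
      have := congrArg (algebraMap ℚ F) (hz2 ((k, s), t))
      rw [map_mul, map_natCast, map_intCast] at this
      exact this.symm
    calc (N2 : F) * β k * v s = (N1 : F)⁻¹ * ((N2 : F) * (β k * u s)) := by simp only [v]; ring
      _ = (N1 : F)⁻¹ * ((N2 : F) * ∑ t, q2 (k, s) t • u t) := by rw [hq2 (k, s)]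
      _ = ∑ t, (z2 ((k, s), t) : F) * v t := by
          rw [Finset.mul_sum, Finset.mul_sum]
          refine Finset.sum_congr rfl fun t _ => ?_
          rw [h3, Algebra.smul_def]
          simp only [v]
          ring

section forms

variable {ι : Type} [Fintype ι] [DecidableEq ι] {F : Type*} [Field F] {b : ℕ}

/-- the linear form substituted for the variable `q` -/
noncomputable def lf (M : Matrix ι ι F) (q : Fin b × ι) : MvPolynomial (Fin b × ι) F :=
  ∑ j, C (M q.2 j) * X (q.1, j)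

theorem coeff_lf_mul (M : Matrix ι ι F) (q : Fin b × ι) (G : MvPolynomial (Fin b × ι) F)
    (J : (Fin b × ι) →₀ ℕ) :
    coeff J (lf M q * G) = ∑ j, M q.2 j * coeff J (X (q.1, j) * G) := by
  unfold lf
  rw [Finset.sum_mul, coeff_sum]
  refine Finset.sum_congr rfl fun j _ => ?_
  rw [mul_assoc, coeff_C_mul]

/-- levels -/
def Lev {D : ℕ} (v : Fin D → F) (D0 B s : ℕ) (d : Fin b → ℕ) (G : MvPolynomial (Fin b × ι) F) :
    Prop :=
  (∀ J, Rep v B ((D0 : F) ^ s * coeff J G)) ∧ ∀ J, coeff J G ≠ 0 → ∀ h, ∑ i, J (h, i) = d h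

theorem Lev.mul {D : ℕ} {v : Fin D → F} {D0 C : ℕ} (M : Matrix ι ι F)
    (hM : ∀ i j s, Rep v C ((D0 : F) * M i j * v s)) {B s : ℕ} {d : Fin b → ℕ}
    {G : MvPolynomial (Fin b × ι) F} (hG : Lev v D0 B s d G) (q : Fin b × ι) :
    Lev v D0 (Fintype.card ι * (D * (B * C))) (s + 1) (d + Pi.single q.1 1) (lf M q * G) := by
  constructor
  · intro J
    rw [coeff_lf_mul, Finset.mul_sum]
    have h1 : ∀ j ∈ (Finset.univ : Finset ι), Rep v (D * (B * C))
        ((D0 : F) ^ (s + 1) * (M q.2 j * coeff J (X (q.1, j) * G))) := by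
      intro j _
      rw [coeff_X_mul']
      split_ifs with hj
      · have h2 := Rep.mul (fun s => hM q.2 j s) (hG.1 (J - Finsupp.single (q.1, j) 1))
        convert h2 using 1
        ring
      · rw [mul_zero, mul_zero]
        exact Rep.zero v _
    have h2 := Rep.sum Finset.univ _ h1
    rwa [Finset.card_univ] at h2
  · intro J hJ h
    rw [coeff_lf_mul] at hJ
    obtain ⟨j, _, hj⟩ := Finset.exists_ne_zero_of_sum_ne_zero hJ
    have hj2 := right_ne_zero_of_mul hj
    rw [coeff_X_mul'] at hj2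
    split_ifs at hj2 with hmem
    · have h3 := hG.2 _ hj2 h
      have hJ1 : 1 ≤ J (q.1, j) := by
        rw [Finsupp.mem_support_iff] at hmem
        omega
      have h4 : ∑ i, J (h, i) = ∑ i, ((J - Finsupp.single (q.1, j) 1 : (Fin b × ι) →₀ ℕ) (h, i) +
          (Finsupp.single (q.1, j) 1 : (Fin b × ι) →₀ ℕ) (h, i)) := by
        refine Finset.sum_congr rfl fun i _ => ?_
        have h5 : (Finsupp.single (q.1, j) 1 : (Fin b × ι) →₀ ℕ) (h, i) ≤ J (h, i) := by
          rw [Finsupp.single_apply]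
          split_ifs with he
          · rw [← he]; exact hJ1
          · exact Nat.zero_le _
        simp only [Finsupp.coe_tsub, Pi.sub_apply]
        omega
      rw [h4, Finset.sum_add_distrib, h3, Pi.add_apply]
      congr 1
      by_cases hq : q.1 = h
      · subst hq
        rw [Pi.single_eq_same, Finset.sum_eq_single j]
        · simp
        · intro i _ hi
          rw [Finsupp.single_apply, if_neg]
          intro he
          exact hi (Prod.ext_iff.1 he).2.symm
        · intro hh; exact absurd (Finset.mem_univ _) hh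
      · rw [Pi.single_eq_of_ne (fun h => hq h.symm)]
        apply Finset.sum_eq_zero
        intro i _
        rw [Finsupp.single_apply, if_neg]
        intro he
        exact hq (Prod.ext_iff.1 he).1
    · exact absurd rfl hj2

theorem Lev.pow_mul {D : ℕ} {v : Fin D → F} {D0 C : ℕ} (M : Matrix ι ι F)
    (hM : ∀ i j s, Rep v C ((D0 : F) * M i j * v s)) (q : Fin b × ι) (k : ℕ) :
    ∀ {B s : ℕ} {d : Fin b → ℕ} {G : MvPolynomial (Fin b × ι) F}, Lev v D0 B s d G →
      Lev v D0 ((Fintype.card ι * D * C) ^ k * B) (s + k) (d + Pi.single q.1 k)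
        (lf M q ^ k * G) := by
  induction k with
  | zero =>
    intro B s d G hG
    simpa using hG
  | succ k ih =>
    intro B s d G hG
    have h1 := ih (hG.mul M hM q)
    have e1 : lf M q ^ (k + 1) * G = lf M q ^ k * (lf M q * G) := by
      rw [pow_succ, mul_assoc]
    have e2 : (Fintype.card ι * D * C) ^ (k + 1) * B =
        (Fintype.card ι * D * C) ^ k * (Fintype.card ι * (D * (B * C))) := by
      rw [pow_succ]; ring
    have e3 : s + (k + 1) = s + 1 + k := by ring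
    have e4 : d + Pi.single q.1 (k + 1) = d + Pi.single q.1 1 + Pi.single q.1 k := by
      rw [add_assoc, ← Pi.single_add, add_comm 1 k]
    rw [e1, e2, e3, e4]
    exact h1

theorem Lev.prod {D : ℕ} {v : Fin D → F} {D0 C B0 : ℕ} (M : Matrix ι ι F)
    (hM : ∀ i j s, Rep v C ((D0 : F) * M i j * v s)) (h1 : Rep v B0 (1 : F))
    (e : Fin b × ι → ℕ) (Q : Finset (Fin b × ι)) :
    Lev v D0 ((Fintype.card ι * D * C) ^ (∑ q ∈ Q, e q) * B0) (∑ q ∈ Q, e q)
      (∑ q ∈ Q, Pi.single q.1 (e q)) (∏ q ∈ Q, lf M q ^ e q) := by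
  induction Q using Finset.induction_on with
  | empty =>
    simp only [Finset.sum_empty, pow_zero, one_mul, Finset.prod_empty]
    constructor
    · intro J
      rw [pow_zero, one_mul, coeff_one]
      split_ifs
      · exact h1
      · exact Rep.zero v _
    · intro J hJ h
      rw [coeff_one] at hJ
      split_ifs at hJ with h0
      · rw [← h0]; simp
      · exact absurd rfl hJ
  | insert a Q ha ih =>
    rw [Finset.sum_insert ha, Finset.prod_insert ha, Finset.sum_insert ha]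
    have h2 := Lev.pow_mul M hM a (e a) ih
    have e2 : (Fintype.card ι * D * C) ^ (e a + ∑ q ∈ Q, e q) * B0 =
        (Fintype.card ι * D * C) ^ (e a) * ((Fintype.card ι * D * C) ^ (∑ q ∈ Q, e q) * B0) := by
      rw [pow_add]; ring
    rw [e2, add_comm (e a), add_comm (Pi.single a.1 (e a) : Fin b → ℕ)]
    exact h2

end forms

end Pool.Agent.Helper43.Sub

end

section

namespace Pool.Agent.Helper10.Sub
end Pool.Agent.Helper10.Sub

/-!
# Subspace theorem project, module AUX: the auxiliary polynomial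
-/

set_option autoImplicit false

namespace Pool.Agent.Helper43.Sub

open Pool.Agent.Helper10.Sub

open MvPolynomial Finset

section siegel

attribute [local instance] Matrix.seminormedAddCommGroup

theorem siegel_half {α β : Type*} [Fintype α] [Fintype β] (A : α → β → ℤ) (H : ℕ) (hH : 1 ≤ H)
    (hA : ∀ i j, |A i j| ≤ H) (h2 : 2 * Fintype.card α ≤ Fintype.card β)
    (hβ : 0 < Fintype.card β) :
    ∃ t : β → ℤ, t ≠ 0 ∧ (∀ i, ∑ j, A i j * t j = 0) ∧ ∀ j, |t j| ≤ Fintype.card β * H := by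
  rcases Nat.eq_zero_or_pos (Fintype.card α) with hα | hα
  · have : IsEmpty α := Fintype.card_eq_zero_iff.1 hα
    obtain ⟨j0⟩ : Nonempty β := Fintype.card_pos_iff.1 hβ
    refine ⟨fun _ => 1, fun h => one_ne_zero (congrFun h j0), fun i => isEmptyElim i, fun j => ?_⟩
    rw [abs_one]
    have : 1 ≤ Fintype.card β * H := Nat.mul_pos hβ hH
    exact_mod_cast this
  · obtain ⟨t, ht0, ht1, ht2⟩ := Int.Matrix.exists_ne_zero_int_vec_norm_le
      (Matrix.of A) (by omega) hα
    refine ⟨t, ht0, fun i => ?_, fun j => ?_⟩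
    · have := congrFun ht1 i
      simpa [Matrix.mulVec, dotProduct] using this
    · have hn : (0 : ℝ) < Fintype.card β := by exact_mod_cast hβ
      have hm : (0 : ℝ) < Fintype.card α := by exact_mod_cast hα
      have h2' : 2 * (Fintype.card α : ℝ) ≤ Fintype.card β := by exact_mod_cast h2
      have hnm : ‖Matrix.of A‖ ≤ H := by
        rw [Matrix.norm_le_iff (by positivity)]
        intro i j
        rw [Int.norm_eq_abs]
        have := hA i j
        exact_mod_cast this
      have hb1 : (1 : ℝ) ≤ Fintype.card β * max 1 ‖Matrix.of A‖ := by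
        have h3 : (1 : ℝ) ≤ Fintype.card β := by exact_mod_cast hβ
        have h4 : (1 : ℝ) ≤ max 1 ‖Matrix.of A‖ := le_max_left _ _
        nlinarith
      have he : (Fintype.card α : ℝ) / (Fintype.card β - Fintype.card α) ≤ 1 := by
        rw [div_le_one (by linarith)]
        linarith
      have h5 : ‖t‖ ≤ Fintype.card β * H := by
        calc ‖t‖ ≤ _ := ht2
          _ ≤ (Fintype.card β * max 1 ‖Matrix.of A‖) ^ (1 : ℝ) :=
              Real.rpow_le_rpow_of_exponent_le hb1 he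
          _ = Fintype.card β * max 1 ‖Matrix.of A‖ := Real.rpow_one _
          _ ≤ Fintype.card β * H := by
              apply mul_le_mul_of_nonneg_left _ hn.le
              exact max_le (by exact_mod_cast hH) hnm
      have h6 := (norm_le_pi_norm t j).trans h5
      rw [Int.norm_eq_abs] at h6
      exact_mod_cast h6

end siegel

section main

variable {ι : Type} [Fintype ι] [DecidableEq ι]

/-- a family of exponents as a finitely supported function -/
noncomputable def toF {b : ℕ} (J : Fin b → ι → ℕ) : (Fin b × ι) →₀ ℕ :=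
  Finsupp.equivFunOnFinite.symm fun q => J q.1 q.2

@[simp] theorem toF_apply {b : ℕ} (J : Fin b → ι → ℕ) (q : Fin b × ι) : toF J q = J q.1 q.2 := rfl

theorem toF_injective {b : ℕ} : Function.Injective (toF : (Fin b → ι → ℕ) → (Fin b × ι) →₀ ℕ) := by
  intro J J' h
  funext a i
  have := DFunLike.congr_fun h (a, i)
  simpa using this

theorem exists_toF {b : ℕ} (E : (Fin b × ι) →₀ ℕ) : ∃ J, E = toF J :=
  ⟨fun h i => E (h, i), by ext q; rfl⟩

/-- the polynomial with given coefficients -/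
noncomputable def polyOf {b : ℕ} (r : Fin b → ℕ) (c : (Fin b → ι → ℕ) → ℤ) :
    MvPolynomial (Fin b × ι) ℤ :=
  ∑ e ∈ exps ι r, monomial (toF e) (c e)

theorem coeff_polyOf {b : ℕ} (r : Fin b → ℕ) (c : (Fin b → ι → ℕ) → ℤ) (J : Fin b → ι → ℕ) :
    coeff (toF J) (polyOf r c) = if J ∈ exps ι r then c J else 0 := by
  classical
  unfold polyOf
  rw [coeff_sum]
  simp only [coeff_monomial]
  split_ifs with hJ
  · rw [Finset.sum_eq_single J]
    · rw [if_pos rfl]
    · intro e _ he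
      rw [if_neg fun h => he (toF_injective h)]
    · intro h; exact absurd hJ h
  · apply Finset.sum_eq_zero
    intro e he
    rw [if_neg]
    intro h
    exact hJ (toF_injective h ▸ he)

theorem linSub_monomial {b : ℕ} {F : Type*} [Field F] (M : Matrix ι ι F) (e : Fin b → ι → ℕ)
    (a : ℤ) : linSub M (monomial (toF e) a) = C (a : F) * ∏ q, lf M q ^ (e q.1 q.2) := by
  unfold linSub
  rw [aeval_monomial, Finsupp.prod_fintype _ _ (by simp)]
  congr 1

/-- The coefficients of `linSub M P` are controlled by integer linear forms. -/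
theorem field_lemma {F : Type*} [Field F] [Algebra ℚ F] (M : Matrix ι ι F)
    (hM : ∀ i j, IsAlgebraic ℚ (M i j)) :
    ∃ D C : ℕ, 1 ≤ C ∧ ∀ (b : ℕ) (r : Fin b → ℕ), 1 ≤ ∑ h, r h →
      ∃ Z : (Fin b → ι → ℕ) → (Fin b → ι → ℕ) → Fin D → ℤ,
        (∀ e ∈ exps ι r, ∀ J t, |Z e J t| ≤ C ^ (∑ h, r h)) ∧
        ∀ c : (Fin b → ι → ℕ) → ℤ,
          (∀ J, J ∉ exps ι r → coeff (toF J) (linSub M (polyOf r c)) = 0) ∧
          (∀ J, (∀ t, ∑ e ∈ exps ι r, c e * Z e J t = 0) →
            coeff (toF J) (linSub M (polyOf r c)) = 0) := by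
  classical
  have hchar : CharZero F := algebraRat.charZero F
  obtain ⟨D, v, D0, C1, hD0, hC1, hD1, hone, hrep⟩ :=
    alg_struct (fun q : ι × ι => M q.1 q.2) fun q => hM q.1 q.2
  have hD0' : (D0 : F) ≠ 0 := by exact_mod_cast hD0.ne'
  refine ⟨D, (Fintype.card ι * D * C1) * C1 + 1, by omega, fun b r hr => ?_⟩
  set R := ∑ h, r h with hR
  set n := Fintype.card ι
  -- the coefficients of the products of linear forms
  have hlev : ∀ e ∈ exps ι r, Lev v D0 ((n * D * C1) ^ R * C1) R r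
      (∏ q : Fin b × ι, lf M q ^ (e q.1 q.2)) := by
    intro e he
    have h1 := Lev.prod M (fun i j s => hrep (i, j) s) hone (fun q : Fin b × ι => e q.1 q.2)
      Finset.univ
    have h2 : ∑ q : Fin b × ι, e q.1 q.2 = R := by
      rw [Fintype.sum_prod_type, hR]
      exact Finset.sum_congr rfl fun h _ => mem_exps.1 he h
    have h3 : ∑ q : Fin b × ι, (Pi.single q.1 (e q.1 q.2) : Fin b → ℕ) = r := by
      funext h
      rw [Finset.sum_apply, Fintype.sum_prod_type, Finset.sum_eq_single h]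
      · rw [← mem_exps.1 he h]
        exact Finset.sum_congr rfl fun i _ => by simp
      · intro h' _ hne
        apply Finset.sum_eq_zero
        intro i _
        simp [hne.symm]
      · intro hh; exact absurd (Finset.mem_univ _) hh
    rw [h2, h3] at h1
    exact h1
  have hbd : (n * D * C1) ^ R * C1 ≤ ((n * D * C1) * C1 + 1) ^ R := by
    calc (n * D * C1) ^ R * C1 ≤ (n * D * C1) ^ R * C1 ^ R :=
          Nat.mul_le_mul_left _ (Nat.le_self_pow (by omega) _)
      _ = ((n * D * C1) * C1) ^ R := (mul_pow _ _ _).symm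
      _ ≤ _ := Nat.pow_le_pow_left (by omega) _
  have hZ : ∀ (e J : Fin b → ι → ℕ), ∃ z : Fin D → ℤ, e ∈ exps ι r →
      (D0 : F) ^ R * coeff (toF J) (∏ q : Fin b × ι, lf M q ^ (e q.1 q.2)) =
        ∑ t, (z t : F) * v t ∧ ∀ t, |z t| ≤ (((n * D * C1) ^ R * C1 : ℕ) : ℤ) := by
    intro e J
    by_cases he : e ∈ exps ι r
    · obtain ⟨z, h1, h2⟩ := (hlev e he).1 (toF J)
      exact ⟨z, fun _ => ⟨h1, h2⟩⟩
    · exact ⟨0, fun h => absurd h he⟩
  choose Z hZ using hZ
  have hcoeff : ∀ (c : (Fin b → ι → ℕ) → ℤ) (J : Fin b → ι → ℕ),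
      coeff (toF J) (linSub M (polyOf r c)) =
        ∑ e ∈ exps ι r, (c e : F) * coeff (toF J) (∏ q : Fin b × ι, lf M q ^ (e q.1 q.2)) := by
    intro c J
    unfold polyOf
    have : linSub M (∑ e ∈ exps ι r, monomial (toF e) (c e)) =
        ∑ e ∈ exps ι r, linSub M (monomial (toF e) (c e)) := by
      unfold linSub
      rw [map_sum]
    rw [this, coeff_sum]
    refine Finset.sum_congr rfl fun e _ => ?_
    rw [linSub_monomial, coeff_C_mul]
  refine ⟨Z, ?_, fun c => ⟨?_, ?_⟩⟩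
  · intro e he J t
    refine ((hZ e J he).2 t).trans ?_
    exact_mod_cast hbd
  · intro J hJ
    rw [hcoeff]
    apply Finset.sum_eq_zero
    intro e he
    by_cases h0 : coeff (toF J) (∏ q : Fin b × ι, lf M q ^ (e q.1 q.2)) = 0
    · rw [h0, mul_zero]
    · exact absurd (mem_exps.2 fun h => (hlev e he).2 (toF J) h0 h) hJ
  · intro J hJ
    have h1 : (D0 : F) ^ R * coeff (toF J) (linSub M (polyOf r c)) = 0 := by
      rw [hcoeff, Finset.mul_sum]
      calc ∑ e ∈ exps ι r, (D0 : F) ^ R * ((c e : F) *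
              coeff (toF J) (∏ q : Fin b × ι, lf M q ^ (e q.1 q.2))) =
            ∑ e ∈ exps ι r, ∑ t, ((c e * Z e J t : ℤ) : F) * v t := by
            refine Finset.sum_congr rfl fun e he => ?_
            rw [mul_left_comm, (hZ e J he).1, Finset.mul_sum]
            refine Finset.sum_congr rfl fun t _ => ?_
            push_cast
            ring
        _ = ∑ t, ((∑ e ∈ exps ι r, c e * Z e J t : ℤ) : F) * v t := by
            rw [Finset.sum_comm]
            refine Finset.sum_congr rfl fun t _ => ?_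
            rw [← Finset.sum_mul]
            push_cast
            rfl
        _ = 0 := by
            apply Finset.sum_eq_zero
            intro t _
            rw [hJ t]
            simp
    exact (mul_eq_zero.1 h1).resolve_left (pow_ne_zero _ hD0')

variable {T : Type} [Fintype T] {p : T → ℕ} [∀ t, Fact (p t).Prime]

/-- **AUX**: the auxiliary polynomial (Siegel's lemma and the index theorem). -/
theorem aux (S : Sys ι T p) (hι : 1 ≤ Fintype.card ι) (ε : ℝ) (hε : 0 < ε) :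
    ∃ b0 : ℕ, ∀ b : ℕ, b0 ≤ b → ∃ K : ℝ, 1 ≤ K ∧ ∀ r : Fin b → ℕ, (∀ h, 1 ≤ r h) →
    ∃ P : MvPolynomial (Fin b × ι) ℤ, P ≠ 0 ∧ (∀ e ∈ P.support, ∀ h, ∑ i, e (h, i) = r h) ∧
      (∀ e, |((P.coeff e : ℤ) : ℝ)| ≤ K ^ (∑ h, r h)) ∧
      (∀ e ∈ (linSub S.A⁻¹ P).support, ∀ i,
        |(∑ h, (e (h, i) : ℝ) / r h) - b / Fintype.card ι| ≤ ε * b) ∧
      (∀ t, ∀ e ∈ (linSub (S.A' t)⁻¹ P).support, ∀ i,
        |(∑ h, (e (h, i) : ℝ) / r h) - b / Fintype.card ι| ≤ ε * b) := by
  classical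
  obtain ⟨D1, C1, hC1, h1⟩ := field_lemma (S.A⁻¹) (inv_isAlgebraic S.algA)
  have hT := fun t => field_lemma ((S.A' t)⁻¹) (inv_isAlgebraic (S.algA' t))
  choose D2 C2 hC2 h2 using hT
  set n := Fintype.card ι with hn
  have hn0 : (0 : ℝ) < n := by exact_mod_cast hι
  -- number of equations per bad exponent
  let 𝒟 : ℕ := Fintype.card (Fin D1 ⊕ (Σ t, Fin (D2 t)))
  obtain ⟨b0, hb0⟩ := exists_nat_ge (2 * (𝒟 : ℝ) * n / ε ^ 2)
  let H : ℕ := C1 + ∑ t, C2 t
  have hH1 : C1 ≤ H := Nat.le_add_right _ _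
  have hH2 : ∀ t, C2 t ≤ H := fun t =>
    (Finset.single_le_sum (f := C2) (fun _ _ => Nat.zero_le _) (Finset.mem_univ t)).trans
      (Nat.le_add_left _ _)
  have hHpos : 1 ≤ H := hC1.trans hH1
  refine ⟨b0 + 1, fun b hb => ⟨(2 ^ n * H : ℕ), ?_, fun r hr => ?_⟩⟩
  · have : 1 ≤ 2 ^ n * H := Nat.mul_pos (by positivity) hHpos
    exact_mod_cast this
  have hb1 : 1 ≤ b := by omega
  have hbr : (0 : ℝ) < b := by exact_mod_cast hb1
  have hR1 : 1 ≤ ∑ h, r h := by
    have := Finset.single_le_sum (f := r) (fun _ _ => Nat.zero_le _)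
      (Finset.mem_univ (⟨0, hb1⟩ : Fin b))
    exact (hr _).trans this
  obtain ⟨Z1, hZ1, hZ1'⟩ := h1 b r hR1
  have h2' := fun t => h2 t b r hR1
  choose Z2 hZ2 hZ2' using h2'
  set R := ∑ h, r h with hR
  -- the system of equations
  let α := (↥(badExps ι r ε)) × (Fin D1 ⊕ (Σ t, Fin (D2 t)))
  let β := ↥(exps ι r)
  let A : α → β → ℤ := fun a e => match a with
    | (J, Sum.inl t) => Z1 e.1 J.1 t
    | (J, Sum.inr ⟨t, s⟩) => Z2 t e.1 J.1 s
  have hA : ∀ a e, |A a e| ≤ ((H ^ R : ℕ) : ℤ) := by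
    rintro ⟨J, t | ⟨t, s⟩⟩ e
    · refine (hZ1 e.1 e.2 J.1 t).trans ?_
      exact_mod_cast Nat.pow_le_pow_left hH1 R
    · refine (hZ2 t e.1 e.2 J.1 s).trans ?_
      exact_mod_cast Nat.pow_le_pow_left (hH2 t) R
  have hcard : 2 * Fintype.card α ≤ Fintype.card β := by
    have e1 : Fintype.card α = (badExps ι r ε).card * 𝒟 := by
      simp only [α, Fintype.card_prod, Fintype.card_coe, 𝒟]
    have e2 : Fintype.card β = (exps ι r).card := Fintype.card_coe _
    rw [e1, e2]
    have h3 := card_badExps (ι := ι) r hr hε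
    have h4 : 2 * (𝒟 : ℝ) * n ≤ ε ^ 2 * b := by
      have h5 : (b0 : ℝ) ≤ b := by exact_mod_cast (show b0 ≤ b by omega)
      rw [div_le_iff₀ (by positivity)] at hb0
      calc 2 * (𝒟 : ℝ) * n ≤ b0 * ε ^ 2 := hb0
        _ ≤ b * ε ^ 2 := mul_le_mul_of_nonneg_right h5 (by positivity)
        _ = ε ^ 2 * b := mul_comm _ _
    have h6 : ((badExps ι r ε).card : ℝ) * (2 * 𝒟 * n) ≤ n * (exps ι r).card :=
      (mul_le_mul_of_nonneg_left h4 (by positivity)).trans h3
    have h7 : (2 * ((badExps ι r ε).card * 𝒟) : ℝ) ≤ (exps ι r).card := by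
      have : (n : ℝ) * (2 * ((badExps ι r ε).card * 𝒟)) ≤ n * (exps ι r).card := by
        calc (n : ℝ) * (2 * ((badExps ι r ε).card * 𝒟)) =
            ((badExps ι r ε).card : ℝ) * (2 * 𝒟 * n) := by ring
          _ ≤ _ := h6
      exact le_of_mul_le_mul_left this hn0
    exact_mod_cast h7
  have hβ : 0 < Fintype.card β := by
    rw [Fintype.card_coe]
    exact Finset.card_pos.2 (exps_nonempty r hι)
  obtain ⟨t, ht0, ht1, ht2⟩ := siegel_half A (H ^ R) (Nat.one_le_pow _ _ hHpos) hA hcard hβ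
  -- the polynomial
  let c : (Fin b → ι → ℕ) → ℤ := fun e => if he : e ∈ exps ι r then t ⟨e, he⟩ else 0
  have hc : ∀ e : β, c e.1 = t e := fun e => by
    simp only [c]
    rw [dif_pos e.2]
  have hsum : ∀ f : (Fin b → ι → ℕ) → ℤ, ∑ e ∈ exps ι r, c e * f e = ∑ e : β, f e.1 * t e := by
    intro f
    rw [← Finset.sum_coe_sort (exps ι r) (fun e => c e * f e)]
    refine Finset.sum_congr rfl fun e _ => ?_
    rw [hc, mul_comm]
  have key : ∀ (E : (Fin b × ι) →₀ ℕ) (J : Fin b → ι → ℕ), E = toF J → J ∈ exps ι r →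
      J ∉ badExps ι r ε → ∀ i, |(∑ h, (E (h, i) : ℝ) / r h) - b / n| ≤ ε * b := by
    rintro E J rfl hJ1 hJ2 i
    by_contra hcon
    push Not at hcon
    exact hJ2 (Finset.mem_filter.2 ⟨hJ1, i, hcon⟩)
  refine ⟨polyOf r c, ?_, ?_, ?_, ?_, ?_⟩
  · -- nonzero
    intro h0
    apply ht0
    funext e
    have h3 := coeff_polyOf r c e.1
    rw [h0, coeff_zero, if_pos e.2, hc] at h3
    exact h3.symm
  · intro E hE h
    obtain ⟨J, rfl⟩ := exists_toF E
    rw [mem_support_iff, coeff_polyOf] at hE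
    split_ifs at hE with hJ
    · exact mem_exps.1 hJ h
    · exact absurd rfl hE
  · intro E
    obtain ⟨J, rfl⟩ := exists_toF E
    rw [coeff_polyOf]
    split_ifs with hJ
    · have h3 : |c J| ≤ (exps ι r).card * (H ^ R : ℕ) := by
        have := ht2 ⟨J, hJ⟩
        rw [← hc ⟨J, hJ⟩, Fintype.card_coe] at this
        exact this
      have h4 : |((c J : ℤ) : ℝ)| ≤ (exps ι r).card * (H ^ R : ℕ) := by exact_mod_cast h3
      refine h4.trans ?_
      have h5 : (exps ι r).card * H ^ R ≤ (2 ^ n * H) ^ R := by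
        rw [mul_pow]
        exact Nat.mul_le_mul_right _ (card_exps_le r)
      exact_mod_cast h5
    · simp
      positivity
  · intro E hE
    obtain ⟨J, rfl⟩ := exists_toF E
    rw [mem_support_iff] at hE
    have hJ1 : J ∈ exps ι r := by
      by_contra hcon
      exact hE ((hZ1' c).1 J hcon)
    refine key _ J rfl hJ1 ?_
    intro hJ2
    apply hE
    apply (hZ1' c).2 J
    intro s
    rw [hsum]
    exact ht1 (⟨J, hJ2⟩, Sum.inl s)
  · intro t' E hE
    obtain ⟨J, rfl⟩ := exists_toF E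
    rw [mem_support_iff] at hE
    have hJ1 : J ∈ exps ι r := by
      by_contra hcon
      exact hE ((hZ2' t' c).1 J hcon)
    refine key _ J rfl hJ1 ?_
    intro hJ2
    apply hE
    apply (hZ2' t' c).2 J
    intro s
    rw [hsum]
    exact ht1 (⟨J, hJ2⟩, Sum.inr ⟨t', s⟩)

end main

end Pool.Agent.Helper43.Sub

end
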