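import Pool.Agent.Helper72.TM2.T04

section

namespace Pool.Agent.Helper10.Sub
end Pool.Agent.Helper10.Sub

/-!
# Subspace theorem project, module MACHINE, part 1: weighted norms of polynomials, bound at a place
-/

set_option autoImplicit false

namespace Pool.Agent.Helper53.Sub

open Pool.Agent.Helper10.Sub MvPolynomial Finset

section wn

variable {σ : Type*} [Fintype σ] {F : Type*} [NormedField F]

/-- monomial weight -/
noncomputable def mw (w : σ → ℝ) (e : σ →₀ ℕ) : ℝ := ∏ i, w i ^ e i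

lemma mw_nonneg {w : σ → ℝ} (hw : ∀ i, 0 ≤ w i) (e : σ →₀ ℕ) : 0 ≤ mw w e :=
  Finset.prod_nonneg fun i _ => pow_nonneg (hw i) _

lemma mw_add (w : σ → ℝ) (e e' : σ →₀ ℕ) : mw w (e + e') = mw w e * mw w e' := by
  unfold mw
  rw [← Finset.prod_mul_distrib]
  exact Finset.prod_congr rfl fun i _ => by rw [Finsupp.add_apply, pow_add]

lemma mw_zero (w : σ → ℝ) : mw w 0 = 1 := by simp [mw]

lemma mw_single [DecidableEq σ] (w : σ → ℝ) (i : σ) : mw w (Finsupp.single i 1) = w i := by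
  unfold mw
  rw [Finset.prod_eq_single i]
  · simp
  · intro j _ hj
    rw [Finsupp.single_apply, if_neg (Ne.symm hj), pow_zero]
  · simp

/-- weighted sum of the absolute values of the coefficients -/
noncomputable def wn (w : σ → ℝ) (P : MvPolynomial σ F) : ℝ :=
  ∑ e ∈ P.support, ‖coeff e P‖ * mw w e

lemma wn_eq {w : σ → ℝ} {P : MvPolynomial σ F} {s : Finset (σ →₀ ℕ)} (h : P.support ⊆ s) :
    wn w P = ∑ e ∈ s, ‖coeff e P‖ * mw w e := by
  unfold wn
  refine Finset.sum_subset h fun e _ he => ?_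
  rw [notMem_support_iff.1 he, norm_zero, zero_mul]

lemma wn_nonneg {w : σ → ℝ} (hw : ∀ i, 0 ≤ w i) (P : MvPolynomial σ F) : 0 ≤ wn w P :=
  Finset.sum_nonneg fun e _ => mul_nonneg (norm_nonneg _) (mw_nonneg hw e)

lemma wn_zero (w : σ → ℝ) : wn w (0 : MvPolynomial σ F) = 0 := by simp [wn]

lemma wn_add_le {w : σ → ℝ} (hw : ∀ i, 0 ≤ w i) (P Q : MvPolynomial σ F) :
    wn w (P + Q) ≤ wn w P + wn w Q := by
  classical
  rw [wn_eq (P := P) (Finset.subset_union_left (s₂ := Q.support)),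
    wn_eq (P := Q) (Finset.subset_union_right (s₁ := P.support)),
    wn_eq (P := P + Q) (support_add (p := P) (q := Q)), ← Finset.sum_add_distrib]
  refine Finset.sum_le_sum fun e _ => ?_
  rw [← add_mul, coeff_add]
  exact mul_le_mul_of_nonneg_right (norm_add_le _ _) (mw_nonneg hw e)

lemma wn_sum_le {w : σ → ℝ} (hw : ∀ i, 0 ≤ w i) {α : Type*} (s : Finset α)
    (f : α → MvPolynomial σ F) : wn w (∑ a ∈ s, f a) ≤ ∑ a ∈ s, wn w (f a) := by
  classical
  induction s using Finset.induction_on with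
  | empty => simp [wn_zero]
  | insert a s ha ih =>
    rw [Finset.sum_insert ha, Finset.sum_insert ha]
    exact (wn_add_le hw _ _).trans (by linarith)

lemma wn_monomial {w : σ → ℝ} (e : σ →₀ ℕ) (a : F) :
    wn w (monomial e a) = ‖a‖ * mw w e := by
  classical
  rw [wn_eq (s := {e}) support_monomial_subset, Finset.sum_singleton, coeff_monomial, if_pos rfl]

lemma wn_C (w : σ → ℝ) (a : F) : wn w (C a : MvPolynomial σ F) = ‖a‖ := by
  have := wn_monomial (w := w) (0 : σ →₀ ℕ) a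
  rw [mw_zero, mul_one] at this
  exact this

lemma wn_X [DecidableEq σ] (w : σ → ℝ) (i : σ) : wn w (X i : MvPolynomial σ F) = w i := by
  have := wn_monomial (w := w) (Finsupp.single i 1) (1 : F)
  rw [mw_single, norm_one, one_mul] at this
  exact this

lemma wn_mul_le {w : σ → ℝ} (hw : ∀ i, 0 ≤ w i) (P Q : MvPolynomial σ F) :
    wn w (P * Q) ≤ wn w P * wn w Q := by
  classical
  have h : P * Q = ∑ e ∈ P.support, ∑ e' ∈ Q.support,
      monomial (e + e') (coeff e P * coeff e' Q) := by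
    conv_lhs => rw [P.as_sum, Q.as_sum]
    rw [Finset.sum_mul_sum]
    refine Finset.sum_congr rfl fun e _ => Finset.sum_congr rfl fun e' _ => ?_
    rw [monomial_mul]
  rw [h]
  refine (wn_sum_le hw _ _).trans ?_
  calc ∑ e ∈ P.support, wn w (∑ e' ∈ Q.support, monomial (e + e') (coeff e P * coeff e' Q))
      ≤ ∑ e ∈ P.support, ∑ e' ∈ Q.support,
          (‖coeff e P‖ * mw w e) * (‖coeff e' Q‖ * mw w e') := by
        refine Finset.sum_le_sum fun e _ => (wn_sum_le hw _ _).trans (le_of_eq ?_)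
        refine Finset.sum_congr rfl fun e' _ => ?_
        rw [wn_monomial, norm_mul, mw_add]
        ring
    _ = wn w P * wn w Q := by
        unfold wn
        rw [Finset.sum_mul_sum]

lemma wn_one (w : σ → ℝ) : wn w (1 : MvPolynomial σ F) = 1 := by
  have := wn_C w (1 : F)
  rwa [map_one, norm_one] at this

lemma wn_pow_le {w : σ → ℝ} (hw : ∀ i, 0 ≤ w i) (P : MvPolynomial σ F) (n : ℕ) :
    wn w (P ^ n) ≤ wn w P ^ n := by
  induction n with
  | zero => rw [pow_zero, pow_zero, wn_one]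
  | succ n ih =>
    rw [pow_succ, pow_succ]
    exact (wn_mul_le hw _ _).trans (mul_le_mul_of_nonneg_right ih (wn_nonneg hw _))

lemma wn_prod_le {w : σ → ℝ} (hw : ∀ i, 0 ≤ w i) {α : Type*} (s : Finset α)
    (f : α → MvPolynomial σ F) : wn w (∏ a ∈ s, f a) ≤ ∏ a ∈ s, wn w (f a) := by
  classical
  induction s using Finset.induction_on with
  | empty => simp [wn_one]
  | insert a s ha ih =>
    rw [Finset.prod_insert ha, Finset.prod_insert ha]
    exact (wn_mul_le hw _ _).trans (mul_le_mul_of_nonneg_left ih (wn_nonneg hw _))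

lemma coeff_le_wn {w : σ → ℝ} (hw : ∀ i, 0 ≤ w i) (P : MvPolynomial σ F) (e : σ →₀ ℕ) :
    ‖coeff e P‖ * mw w e ≤ wn w P := by
  by_cases he : e ∈ P.support
  · exact Finset.single_le_sum (f := fun e => ‖coeff e P‖ * mw w e)
      (fun e _ => mul_nonneg (norm_nonneg _) (mw_nonneg hw e)) he
  · rw [notMem_support_iff.1 he, norm_zero, zero_mul]
    exact wn_nonneg hw _

/-- norm of a substitution -/
lemma wn_aeval_le {τ : Type*} [Fintype τ] {w : σ → ℝ} (hw : ∀ i, 0 ≤ w i) {R : Type*}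
    [CommRing R] [Algebra R F]
    (P : MvPolynomial τ R) (g : τ → MvPolynomial σ F) :
    wn w (aeval g P) ≤ ∑ e ∈ P.support, ‖algebraMap R F (coeff e P)‖ *
      ∏ i, wn w (g i) ^ e i := by
  classical
  have h : aeval g P = ∑ e ∈ P.support, C (algebraMap R F (coeff e P)) * ∏ i, g i ^ e i := by
    rw [aeval_def, eval₂_eq']
    rfl
  rw [h]
  refine (wn_sum_le hw _ _).trans (Finset.sum_le_sum fun e _ => ?_)
  refine (wn_mul_le hw _ _).trans ?_
  rw [wn_C]
  refine mul_le_mul_of_nonneg_left ?_ (norm_nonneg _)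
  refine (wn_prod_le hw _ _).trans ?_
  exact Finset.prod_le_prod (fun i _ => wn_nonneg hw _) (fun i _ => wn_pow_le hw _ _)

end wn

section place

set_option linter.unusedSectionVars false

variable {ι : Type*} [Fintype ι] [DecidableEq ι] {F : Type*} [NormedField F]

lemma norm_int_le (z : ℤ) : ‖(z : F)‖ ≤ |((z : ℤ) : ℝ)| := by
  have := norm_zsmul_le z (1 : F)
  simpa [Int.norm_eq_abs] using this

/-- block homogeneous polynomials are homogeneous -/
lemma homog_of_blocks {b : ℕ} {R : Type*} [CommRing R] {P : MvPolynomial (Fin b × ι) R}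
    {r : Fin b → ℕ} (h : ∀ e ∈ P.support, ∀ h, ∑ i, e (h, i) = r h) :
    P.IsHomogeneous (∑ h, r h) := by
  intro e he
  rw [Finsupp.weight_apply, Finsupp.sum_fintype _ _ (by simp)]
  simp only [Pi.one_apply, smul_eq_mul, mul_one]
  rw [Fintype.sum_prod_type]
  exact Finset.sum_congr rfl fun j _ => h e (mem_support_iff.2 he) j

lemma sum_of_homog {σ : Type*} [Fintype σ] {R : Type*} [CommRing R] {P : MvPolynomial σ R}
    {n : ℕ} (h : P.IsHomogeneous n) {e : σ →₀ ℕ} (he : e ∈ P.support) : ∑ i, e i = n := by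
  have := h (mem_support_iff.1 he)
  rw [Finsupp.weight_apply, Finsupp.sum_fintype _ _ (by simp)] at this
  simpa using this

lemma linSub_homog {b : ℕ} (M : Matrix ι ι F) {P : MvPolynomial (Fin b × ι) ℤ} {n : ℕ}
    (h : P.IsHomogeneous n) : (linSub M P).IsHomogeneous n := by
  have := h.aeval (S := F) (fun q : Fin b × ι => ∑ j, C (M q.2 j) * X (q.1, j)) (n := 1) ?_
  · rwa [one_mul] at this
  · intro q
    refine IsHomogeneous.sum _ _ _ fun j _ => ?_
    have := (isHomogeneous_C (Fin b × ι) (M q.2 j)).mul (isHomogeneous_X F (q.1, j))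
    rwa [zero_add] at this

/-- number of monomials of a polynomial with bounded exponents -/
lemma card_support_le {σ : Type*} [Fintype σ] [DecidableEq σ] {R : Type*} [CommRing R]
    (P : MvPolynomial σ R) (s : σ → ℕ)
    (h : ∀ e ∈ P.support, ∀ i, e i ≤ s i) : #P.support ≤ 2 ^ (∑ i, s i) := by
  classical
  have h1 : #P.support ≤ #(Fintype.piFinset fun i => range (s i + 1)) := by
    refine Finset.card_le_card_of_injOn (fun e => (e : σ → ℕ)) ?_ ?_
    · intro e he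
      simp only [Finset.mem_coe, Fintype.mem_piFinset, Finset.mem_range]
      intro i
      exact Nat.lt_succ_of_le (h e he i)
    · intro e _ e' _ hee
      exact DFunLike.coe_injective hee
  refine h1.trans ?_
  rw [Fintype.card_piFinset, ← Finset.prod_pow_eq_pow_sum]
  refine Finset.prod_le_prod' fun i _ => ?_
  rw [Finset.card_range]
  exact Nat.lt_two_pow_self

lemma aeval_linSub {b : ℕ} (A : Matrix ι ι F) (hA : IsUnit A.det)
    (P : MvPolynomial (Fin b × ι) ℤ) :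
    aeval (fun q : Fin b × ι => ∑ j, C (A q.2 j) * X (q.1, j)) (linSub A⁻¹ P) =
      map (Int.castRingHom F) P := by
  have h1 : ((aeval (fun q : Fin b × ι => (∑ j, C (A q.2 j) * X (q.1, j) :
      MvPolynomial (Fin b × ι) F)) :
        MvPolynomial (Fin b × ι) F →ₐ[F] MvPolynomial (Fin b × ι) F).toRingHom.comp
      ((aeval (fun q : Fin b × ι => (∑ j, C (A⁻¹ q.2 j) * X (q.1, j) :
        MvPolynomial (Fin b × ι) F)) :
          MvPolynomial (Fin b × ι) ℤ →ₐ[ℤ] MvPolynomial (Fin b × ι) F).toRingHom)) =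
      MvPolynomial.map (Int.castRingHom F) := by
    apply MvPolynomial.ringHom_ext
    · intro z
      simp
    · intro q
      simp only [AlgHom.toRingHom_eq_coe, RingHom.coe_comp, RingHom.coe_coe, Function.comp_apply,
        aeval_X, map_X, map_sum, map_mul]
      have h2 : ∀ j, (aeval (fun q : Fin b × ι => (∑ j, C (A q.2 j) * X (q.1, j) :
          MvPolynomial (Fin b × ι) F))) (C (A⁻¹ q.2 j)) * ∑ l, C (A j l) * X (q.1, l) =
          ∑ l, C (A⁻¹ q.2 j * A j l) * X (q.1, l) := by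
        intro j
        rw [aeval_C, Finset.mul_sum]
        refine Finset.sum_congr rfl fun l _ => ?_
        rw [C_mul, algebraMap_eq, mul_assoc]
      rw [Finset.sum_congr rfl fun j _ => h2 j, Finset.sum_comm]
      simp_rw [← Finset.sum_mul, ← map_sum]
      have h3 : ∀ l, ∑ j, A⁻¹ q.2 j * A j l = if q.2 = l then 1 else 0 := by
        intro l
        have := congrFun (congrFun (Matrix.nonsing_inv_mul A hA) q.2) l
        rw [Matrix.mul_apply, Matrix.one_apply] at this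
        exact this
      simp_rw [h3]
      rw [Finset.sum_eq_single q.2]
      · simp
      · intro l _ hl
        rw [if_neg (Ne.symm hl)]
        simp
      · simp
  exact congrArg (fun f => f P) h1

lemma shift_aeval_lin {b : ℕ} (A : Matrix ι ι F) (z : Fin b × ι → F)
    (G : MvPolynomial (Fin b × ι) F) :
    shift z (aeval (fun q : Fin b × ι => ∑ j, C (A q.2 j) * X (q.1, j)) G) =
      aeval (fun q : Fin b × ι => (∑ j, C (A q.2 j) * X (q.1, j)) +
        C (∑ j, A q.2 j * z (q.1, j))) G := by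
  rw [← AlgHom.comp_apply]
  congr 1
  apply MvPolynomial.algHom_ext
  intro q
  rw [AlgHom.comp_apply, aeval_X, aeval_X, map_sum, map_sum, ← Finset.sum_add_distrib]
  refine Finset.sum_congr rfl fun j _ => ?_
  rw [map_mul, shift_C, shift_X, C_mul]
  ring

lemma wn_lin {b : ℕ} {w : Fin b × ι → ℝ} (hw : ∀ i, 0 ≤ w i) (M : Matrix ι ι F)
    (q : Fin b × ι) :
    wn w (∑ j, C (M q.2 j) * X (q.1, j) : MvPolynomial (Fin b × ι) F) ≤
      ∑ j, ‖M q.2 j‖ * w (q.1, j) := by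
  refine (wn_sum_le hw _ _).trans (Finset.sum_le_sum fun j _ => ?_)
  refine (wn_mul_le hw _ _).trans ?_
  rw [wn_C, wn_X]

lemma row_le (M : Matrix ι ι F) (i : ι) : ∑ j, ‖M i j‖ ≤ ∑ i, ∑ j, ‖M i j‖ :=
  Finset.single_le_sum (f := fun i => ∑ j, ‖M i j‖)
    (fun i _ => Finset.sum_nonneg fun j _ => norm_nonneg _) (Finset.mem_univ i)

theorem place_bound {b : ℕ} (A : Matrix ι ι F) (hA : IsUnit A.det) (c : ι → ℝ) (K N' C0 : ℝ)
    (hK : 1 ≤ K) (hN : 0 ≤ N') (hC0 : ∀ i, |c i| ≤ C0) :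
    ∃ D : ℝ, 1 ≤ D ∧ ∀ (r : Fin b → ℕ) (P : MvPolynomial (Fin b × ι) ℤ),
      (∀ e ∈ P.support, ∀ h, ∑ i, e (h, i) = r h) →
      (∀ e, |((P.coeff e : ℤ) : ℝ)| ≤ K ^ (∑ h, r h)) →
      ∀ (Q : Fin b → ℝ), (∀ h, 1 ≤ Q h) → ∀ z : Fin b × ι → F,
      (∀ h i, ‖∑ j, A i j * z (h, j)‖ ≤ N' * Q h ^ c i) →
      ∀ E : ℝ, 0 ≤ E → (∀ J ∈ (linSub A⁻¹ P).support,
        ∏ q : Fin b × ι, (Q q.1 ^ c q.2) ^ (J q) ≤ E) →
      ∀ k : (Fin b × ι) →₀ ℕ, ‖eval z (hd k (map (Int.castRingHom F) P))‖ ≤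
        D ^ (∑ h, r h) * (∏ q : Fin b × ι, (Q q.1 ^ C0) ^ (k q)) * E := by
  set a : ℝ := ∑ i, ∑ j, ‖A i j‖ with ha
  set μ : ℝ := 1 + ∑ i, ∑ j, ‖A⁻¹ i j‖ with hμ
  have ha0 : 0 ≤ a := Finset.sum_nonneg fun i _ => Finset.sum_nonneg fun j _ => norm_nonneg _
  have hμ1 : 1 ≤ μ := by
    have : 0 ≤ ∑ i, ∑ j, ‖A⁻¹ i j‖ :=
      Finset.sum_nonneg fun i _ => Finset.sum_nonneg fun j _ => norm_nonneg _
    linarith
  set d : ℝ := a + N' + 1 with hd'
  have hd1 : 1 ≤ d := by linarith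
  refine ⟨2 ^ Fintype.card ι * K * μ * d, ?_, ?_⟩
  · have h1 : (1 : ℝ) ≤ 2 ^ Fintype.card ι := one_le_pow₀ (by norm_num)
    exact one_le_mul_of_one_le_of_one_le (one_le_mul_of_one_le_of_one_le
      (one_le_mul_of_one_le_of_one_le h1 hK) hμ1) hd1
  intro r P hP hcoef Q hQ z hz E hE hJ k
  set R : ℕ := ∑ h, r h with hR
  set w : Fin b × ι → ℝ := fun q => Q q.1 ^ (-C0) with hw'
  have hQ0 : ∀ h, 0 < Q h := fun h => lt_of_lt_of_le one_pos (hQ h)
  have hw0 : ∀ q, 0 < w q := fun q => Real.rpow_pos_of_pos (hQ0 _) _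
  have hw : ∀ q, 0 ≤ w q := fun q => (hw0 q).le
  set G := linSub A⁻¹ P with hG
  have hPhom := homog_of_blocks hP
  have hGhom : G.IsHomogeneous R := linSub_homog _ hPhom
  -- the norm of `G`
  have hGn : wn (fun _ => 1) G ≤ (2 ^ Fintype.card ι * K * μ) ^ R := by
    refine (wn_aeval_le (fun _ => zero_le_one) P _).trans ?_
    have h1 : ∀ e ∈ P.support, ‖algebraMap ℤ F (coeff e P)‖ *
        ∏ q : Fin b × ι, wn (fun _ => (1 : ℝ))
          (∑ j, C (A⁻¹ q.2 j) * X (q.1, j) : MvPolynomial (Fin b × ι) F) ^ e q ≤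
        K ^ R * μ ^ R := by
      intro e he
      refine mul_le_mul ?_ ?_ ?_ (by positivity)
      · rw [algebraMap_int_eq]
        exact (norm_int_le _).trans (hcoef e)
      · calc ∏ q : Fin b × ι, wn (fun _ => (1 : ℝ))
              (∑ j, C (A⁻¹ q.2 j) * X (q.1, j) : MvPolynomial (Fin b × ι) F) ^ e q
            ≤ ∏ q : Fin b × ι, μ ^ e q := by
              refine Finset.prod_le_prod (fun q _ => pow_nonneg
                (wn_nonneg (fun _ => zero_le_one) _) _) fun q _ => ?_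
              refine pow_le_pow_left₀ (wn_nonneg (fun _ => zero_le_one) _) ?_ _
              refine (wn_lin (fun _ => zero_le_one) _ _).trans ?_
              simp only [mul_one]
              have := row_le A⁻¹ q.2
              linarith
          _ = μ ^ R := by
              rw [Finset.prod_pow_eq_pow_sum, sum_of_homog hPhom he]
      · exact Finset.prod_nonneg fun q _ => pow_nonneg (wn_nonneg (fun _ => zero_le_one) _) _
    refine (Finset.sum_le_sum h1).trans ?_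
    rw [Finset.sum_const, nsmul_eq_mul, mul_pow, mul_pow, mul_assoc]
    refine mul_le_mul_of_nonneg_right ?_ (by positivity)
    have h2 := card_support_le P (fun q => r q.1) (fun e he q => by
      rw [← hP e he q.1]
      exact Finset.single_le_sum (f := fun i => e (q.1, i)) (fun i _ => Nat.zero_le _)
        (Finset.mem_univ q.2))
    have h3 : ∑ q : Fin b × ι, r q.1 = Fintype.card ι * R := by
      rw [Fintype.sum_prod_type, hR, Finset.mul_sum]
      exact Finset.sum_congr rfl fun h _ => by simp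
    rw [h3, pow_mul] at h2
    exact_mod_cast h2
  -- the shifted polynomial
  have hshift : shift z (map (Int.castRingHom F) P) = aeval (fun q : Fin b × ι =>
      (∑ j, C (A q.2 j) * X (q.1, j)) + C (∑ j, A q.2 j * z (q.1, j))) G := by
    rw [← aeval_linSub A hA P, shift_aeval_lin]
  have hlin : ∀ q : Fin b × ι, wn w ((∑ j, C (A q.2 j) * X (q.1, j)) +
      C (∑ j, A q.2 j * z (q.1, j)) : MvPolynomial (Fin b × ι) F) ≤ d * Q q.1 ^ c q.2 := by
    intro q
    refine (wn_add_le hw _ _).trans ?_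
    rw [wn_C]
    have h1 := wn_lin hw A q
    have h2 : ∑ j, ‖A q.2 j‖ * w (q.1, j) ≤ a * Q q.1 ^ c q.2 := by
      have h3 : Q q.1 ^ (-C0) ≤ Q q.1 ^ c q.2 := by
        refine Real.rpow_le_rpow_of_exponent_le (hQ _) ?_
        have := abs_le.1 (hC0 q.2)
        linarith [this.1]
      calc ∑ j, ‖A q.2 j‖ * w (q.1, j) = (∑ j, ‖A q.2 j‖) * Q q.1 ^ (-C0) := by
            rw [Finset.sum_mul]
        _ ≤ a * Q q.1 ^ c q.2 := mul_le_mul (row_le A q.2) h3
            (Real.rpow_nonneg (hQ0 _).le _) ha0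
    have h4 := hz q.1 q.2
    have h5 : 0 ≤ Q q.1 ^ c q.2 := Real.rpow_nonneg (hQ0 _).le _
    have h6 : d * Q q.1 ^ c q.2 = a * Q q.1 ^ c q.2 + N' * Q q.1 ^ c q.2 + Q q.1 ^ c q.2 := by
      rw [hd']; ring
    linarith
  have hsum : wn w (shift z (map (Int.castRingHom F) P)) ≤
      (2 ^ Fintype.card ι * K * μ) ^ R * (d ^ R * E) := by
    rw [hshift]
    refine (wn_aeval_le hw G _).trans ?_
    have h1 : ∀ J ∈ G.support, ‖algebraMap F F (coeff J G)‖ *
        ∏ q : Fin b × ι, wn w ((∑ j, C (A q.2 j) * X (q.1, j)) +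
          C (∑ j, A q.2 j * z (q.1, j)) : MvPolynomial (Fin b × ι) F) ^ J q ≤
        (‖coeff J G‖ * mw (fun _ => 1) J) * (d ^ R * E) := by
      intro J hJs
      have h2 : mw (fun _ : Fin b × ι => (1 : ℝ)) J = 1 := by simp [mw]
      rw [h2, mul_one, Algebra.algebraMap_self_apply]
      refine mul_le_mul_of_nonneg_left ?_ (norm_nonneg _)
      calc ∏ q : Fin b × ι, wn w ((∑ j, C (A q.2 j) * X (q.1, j)) +
              C (∑ j, A q.2 j * z (q.1, j)) : MvPolynomial (Fin b × ι) F) ^ J q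
          ≤ ∏ q : Fin b × ι, (d * Q q.1 ^ c q.2) ^ J q := by
            refine Finset.prod_le_prod (fun q _ => pow_nonneg (wn_nonneg hw _) _) fun q _ => ?_
            exact pow_le_pow_left₀ (wn_nonneg hw _) (hlin q) _
        _ = d ^ R * ∏ q : Fin b × ι, (Q q.1 ^ c q.2) ^ J q := by
            simp_rw [mul_pow]
            rw [Finset.prod_mul_distrib, Finset.prod_pow_eq_pow_sum, sum_of_homog hGhom hJs]
        _ ≤ d ^ R * E := mul_le_mul_of_nonneg_left (hJ J hJs) (by positivity)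
    refine (Finset.sum_le_sum h1).trans ?_
    rw [← Finset.sum_mul]
    exact mul_le_mul_of_nonneg_right hGn (mul_nonneg (by positivity) hE)
  have hcoef2 := coeff_le_wn hw (shift z (map (Int.castRingHom F) P)) k
  rw [coeff_shift] at hcoef2
  have hfin := hcoef2.trans hsum
  have hmw : mw w k * ∏ q : Fin b × ι, (Q q.1 ^ C0) ^ (k q) = 1 := by
    unfold mw
    rw [← Finset.prod_mul_distrib]
    refine Finset.prod_eq_one fun q _ => ?_
    rw [← mul_pow, hw', ← Real.rpow_add (hQ0 _), neg_add_cancel, Real.rpow_zero, one_pow]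
  have hpos : 0 ≤ ∏ q : Fin b × ι, (Q q.1 ^ C0) ^ (k q) :=
    Finset.prod_nonneg fun q _ => pow_nonneg (Real.rpow_nonneg (hQ0 _).le _) _
  calc ‖eval z (hd k (map (Int.castRingHom F) P))‖
      = ‖eval z (hd k (map (Int.castRingHom F) P))‖ * mw w k *
          ∏ q : Fin b × ι, (Q q.1 ^ C0) ^ (k q) := by rw [mul_assoc, hmw, mul_one]
    _ ≤ ((2 ^ Fintype.card ι * K * μ) ^ R * (d ^ R * E)) *
          ∏ q : Fin b × ι, (Q q.1 ^ C0) ^ (k q) := mul_le_mul_of_nonneg_right hfin hpos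
    _ = (2 ^ Fintype.card ι * K * μ * d) ^ R * (∏ q : Fin b × ι, (Q q.1 ^ C0) ^ (k q)) * E := by
        rw [mul_pow _ d]
        ring

end place

end Pool.Agent.Helper53.Sub

end

section

namespace Pool.Agent.Helper10.Sub
end Pool.Agent.Helper10.Sub

/-!
# Subspace theorem project, module MACHINE, part 2: `ℤ[1/P]`, product formula, numeric estimates
-/

set_option autoImplicit false

set_option linter.unusedSectionVars false

namespace Pool.Agent.Helper53.Sub

open Pool.Agent.Helper10.Sub MvPolynomial Finset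

/-- `ℤ[1/P]` as a subring -/
def pring (P : ℕ) : Subring ℚ where
  carrier := {x | PInt P x}
  mul_mem' := by
    rintro x y ⟨k, z, hz⟩ ⟨l, w, hw⟩
    refine ⟨k + l, z * w, ?_⟩
    rw [pow_add]
    push_cast
    rw [← hz, ← hw]
    ring
  one_mem' := ⟨0, 1, by simp⟩
  add_mem' := by
    rintro x y ⟨k, z, hz⟩ ⟨l, w, hw⟩
    refine ⟨k + l, z * P ^ l + w * P ^ k, ?_⟩
    rw [pow_add]
    push_cast
    rw [← hz, ← hw]
    ring
  zero_mem' := ⟨0, 0, by simp⟩
  neg_mem' := by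
    rintro x ⟨k, z, hz⟩
    refine ⟨k, -z, ?_⟩
    push_cast
    rw [← hz]
    ring

lemma mem_pring {P : ℕ} {x : ℚ} : x ∈ pring P ↔ PInt P x := Iff.rfl

/-- values of integer polynomials -/
lemma eval_mem_pring {σ : Type*} [Fintype σ] {P : ℕ} (G : MvPolynomial σ ℤ) (x : σ → ℚ)
    (hx : ∀ i, x i ∈ pring P) : eval x (map (Int.castRingHom ℚ) G) ∈ pring P := by
  rw [eval_map, eval₂_eq']
  refine Subring.sum_mem _ fun e _ => Subring.mul_mem _ ?_ ?_
  · exact intCast_mem _ _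
  · exact Subring.prod_mem _ fun i _ => Subring.pow_mem _ (hx i) _

section prodformula

variable {T : Type*} [Fintype T] {p : T → ℕ} [∀ t, Fact (p t).Prime]

lemma int_prod (hp : Function.Injective p) (z : ℤ) (hz : z ≠ 0) :
    1 ≤ |(z : ℝ)| * ∏ t, ‖(z : ℚ_[p t])‖ := by
  have h1 : ∀ t, ‖(z : ℚ_[p t])‖ = ((p t : ℝ) ^ padicValInt (p t) z)⁻¹ := by
    intro t
    have e1 : ((z : ℚ) : ℚ_[p t]) = (z : ℚ_[p t]) := by push_cast; rfl
    rw [← e1, Padic.eq_padicNorm, padicNorm.eq_zpow_of_nonzero (by exact_mod_cast hz),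
      padicValRat.of_int]
    push_cast
    rw [zpow_neg, zpow_natCast]
  have h2 : (∏ t, (p t) ^ (padicValInt (p t) z)) ∣ z.natAbs := by
    refine Finset.prod_dvd_of_isRelPrime ?_ ?_
    · intro t _ t' _ htt
      have : p t ≠ p t' := fun h => htt (hp h)
      have h3 : Nat.Coprime (p t) (p t') :=
        (Nat.coprime_primes (Fact.out) (Fact.out)).2 this
      exact Nat.coprime_iff_isRelPrime.1 (Nat.Coprime.pow _ _ h3)
    · intro t _
      rw [← Int.natCast_dvd]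
      push_cast
      exact padicValInt_dvd z
  have h3 : (∏ t, ((p t : ℝ) ^ (padicValInt (p t) z))) ≤ |(z : ℝ)| := by
    have := Nat.le_of_dvd (Int.natAbs_pos.2 hz) h2
    have h4 : ((∏ t, (p t) ^ (padicValInt (p t) z) : ℕ) : ℝ) ≤ (z.natAbs : ℝ) := by
      exact_mod_cast this
    rw [Nat.cast_natAbs] at h4
    push_cast at h4
    exact h4
  have hpos : 0 < ∏ t, ((p t : ℝ) ^ (padicValInt (p t) z)) := by
    refine Finset.prod_pos fun t _ => ?_
    have : 0 < p t := (Fact.out : (p t).Prime).pos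
    positivity
  simp_rw [h1]
  rw [Finset.prod_inv_distrib]
  rw [← div_eq_mul_inv, one_le_div hpos]
  exact h3

lemma pprod_prod (hp : Function.Injective p) :
    ((pprod p : ℕ) : ℝ) * ∏ t, ‖((pprod p : ℕ) : ℚ_[p t])‖ = 1 := by
  classical
  have h1 : ∀ t, ‖((pprod p : ℕ) : ℚ_[p t])‖ = ((p t : ℝ))⁻¹ := by
    intro t
    unfold pprod
    rw [Nat.cast_prod, norm_prod, Finset.prod_eq_single t]
    · rw [Padic.norm_p]
    · intro t' _ htt
      have : p t ≠ p t' := fun h => htt (hp h).symm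
      have h3 : Nat.Coprime (p t) (p t') :=
        (Nat.coprime_primes (Fact.out) (Fact.out)).2 this
      rw [Padic.norm_natCast_eq_one_iff]
      exact h3
    · simp
  simp_rw [h1]
  rw [Finset.prod_inv_distrib]
  unfold pprod
  push_cast
  refine mul_inv_cancel₀ ?_
  refine Finset.prod_ne_zero_iff.2 fun t _ => ?_
  have : 0 < p t := (Fact.out : (p t).Prime).pos
  positivity

lemma one_le_prod (hp : Function.Injective p) {v : ℚ} (hv : v ≠ 0) (h : PInt (pprod p) v) :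
    1 ≤ |(v : ℝ)| * ∏ t, ‖(v : ℚ_[p t])‖ := by
  obtain ⟨k, z, hz⟩ := h
  have hP : pprod p ≠ 0 := by
    unfold pprod
    exact Finset.prod_ne_zero_iff.2 fun t _ => (Fact.out : (p t).Prime).ne_zero
  have hPq : ((pprod p : ℕ) : ℚ) ≠ 0 := by exact_mod_cast hP
  have hz0 : z ≠ 0 := by
    rintro rfl
    rw [Int.cast_zero, mul_eq_zero] at hz
    rcases hz with hz | hz
    · exact hv hz
    · exact pow_ne_zero _ hPq hz
  have h1 := int_prod (p := p) hp z hz0
  have h2 : |(z : ℝ)| = |(v : ℝ)| * ((pprod p : ℕ) : ℝ) ^ k := by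
    have : (z : ℝ) = (v : ℝ) * ((pprod p : ℕ) : ℝ) ^ k := by exact_mod_cast hz.symm
    rw [this, abs_mul, abs_pow, Nat.abs_cast]
  have h3 : ∀ t, ‖(z : ℚ_[p t])‖ = ‖(v : ℚ_[p t])‖ * ‖((pprod p : ℕ) : ℚ_[p t])‖ ^ k := by
    intro t
    have : (z : ℚ_[p t]) = (v : ℚ_[p t]) * ((pprod p : ℕ) : ℚ_[p t]) ^ k := by
      exact_mod_cast congrArg (fun x : ℚ => (x : ℚ_[p t])) hz.symm
    rw [this, norm_mul, norm_pow]
  rw [h2] at h1
  simp_rw [h3] at h1
  rw [Finset.prod_mul_distrib, Finset.prod_pow] at h1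
  have h4 := pprod_prod (p := p) hp
  calc (1 : ℝ) ≤ _ := h1
    _ = (|(v : ℝ)| * ∏ t, ‖(v : ℚ_[p t])‖) *
        (((pprod p : ℕ) : ℝ) * ∏ t, ‖((pprod p : ℕ) : ℚ_[p t])‖) ^ k := by
        rw [mul_pow]; ring
    _ = _ := by rw [h4, one_pow, mul_one]

end prodformula

section misc

variable {ι : Type*} [Fintype ι] [DecidableEq ι]

/-- values of linear forms at small combinations -/
lemma comb_bound {F : Type*} [NormedField F] [CharZero F] (a : ι → F) {n' : ℕ}
    (y : Fin n' → ι → ℚ) (u : Fin n' → ℕ) (N : ℕ) (hu : ∀ j, u j ≤ N) (B : ℝ)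
    (hB : ∀ j, ‖∑ l, a l * (y j l : F)‖ ≤ B) :
    ‖∑ l, a l * ((∑ j, (u j : ℚ) * y j l : ℚ) : F)‖ ≤ (n' * N) * B := by
  have h1 : ∑ l, a l * ((∑ j, (u j : ℚ) * y j l : ℚ) : F) =
      ∑ j, (u j : F) * ∑ l, a l * (y j l : F) := by
    push_cast
    simp_rw [Finset.mul_sum]
    rw [Finset.sum_comm]
    refine Finset.sum_congr rfl fun j _ => Finset.sum_congr rfl fun l _ => ?_
    ring
  rw [h1]
  refine (norm_sum_le _ _).trans ?_
  have h2 : ∀ j ∈ (Finset.univ : Finset (Fin n')),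
      ‖(u j : F) * ∑ l, a l * (y j l : F)‖ ≤ (N : ℝ) * B := by
    intro j _
    rw [norm_mul]
    refine mul_le_mul ?_ (hB j) (norm_nonneg _) (Nat.cast_nonneg _)
    have := norm_int_le (F := F) (u j : ℤ)
    simp only [Int.cast_natCast, Nat.abs_cast] at this
    exact this.trans (by exact_mod_cast hu j)
  refine (Finset.sum_le_sum h2).trans (le_of_eq ?_)
  rw [Finset.sum_const, Finset.card_univ, Fintype.card_fin, nsmul_eq_mul]
  ring

lemma prim_ne_zero (hι : 2 ≤ Fintype.card ι) {m : ι → ℤ} (h : Prim m) : m ≠ 0 := by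
  rintro rfl
  have := h 2 (by simp)
  rw [Int.isUnit_iff] at this
  omega

/-- the orthogonal complement of `m` is spanned by any `n - 1` independent vectors in it -/
lemma mem_span_of_orth {n' : ℕ} (hn : Fintype.card ι = n' + 1) {m : ι → ℤ} (hm : m ≠ 0)
    (y : Fin n' → ι → ℚ) (hy : LinearIndependent ℚ y) (hmy : ∀ j, ∑ i, (m i : ℚ) * y j i = 0)
    (z : ι → ℚ) (hz : ∑ i, (m i : ℚ) * z i = 0) : z ∈ Submodule.span ℚ (Set.range y) := by
  set f : Module.Dual ℚ (ι → ℚ) := ∑ i, (m i : ℚ) • LinearMap.proj i with hf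
  have hfa : ∀ x : ι → ℚ, f x = ∑ i, (m i : ℚ) * x i := by
    intro x
    rw [hf, LinearMap.sum_apply]
    rfl
  have hf0 : f ≠ 0 := by
    intro h
    apply hm
    funext i
    have := hfa (Pi.single i 1)
    rw [h, LinearMap.zero_apply, Finset.sum_eq_single i] at this
    · simp at this
      exact_mod_cast this.symm
    · intro j _ hj
      rw [Pi.single_apply, if_neg hj, mul_zero]
    · simp
  have hk := Module.Dual.finrank_ker_add_one_of_ne_zero hf0
  rw [Module.finrank_fintype_fun_eq_card, hn] at hk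
  have hle : Submodule.span ℚ (Set.range y) ≤ LinearMap.ker f := by
    rw [Submodule.span_le]
    rintro _ ⟨j, rfl⟩
    rw [SetLike.mem_coe, LinearMap.mem_ker, hfa]
    exact hmy j
  have heq := Submodule.eq_of_le_of_finrank_eq hle (by
    rw [finrank_span_eq_card hy, Fintype.card_fin]
    omega)
  rw [heq, LinearMap.mem_ker, hfa]
  exact hz

lemma abs_le_htv (m : ι → ℤ) (i : ι) : ((m i).natAbs : ℝ) ≤ htv m := by
  unfold htv
  exact_mod_cast Finset.le_sup (f := fun i => (m i).natAbs) (Finset.mem_univ i)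

lemma finite_htv (Y : ℝ) : {m : ι → ℤ | htv m ≤ Y}.Finite := by
  refine (Set.finite_Icc (fun _ : ι => -(⌈Y⌉ : ℤ)) (fun _ => ⌈Y⌉)).subset ?_
  intro m hm
  have h : ∀ i, |m i| ≤ ⌈Y⌉ := by
    intro i
    have h1 := (abs_le_htv m i).trans hm
    have h2 : ((m i).natAbs : ℝ) = ((|m i| : ℤ) : ℝ) := by
      rw [Nat.cast_natAbs]
    rw [h2] at h1
    have h3 : ((|m i| : ℤ) : ℝ) ≤ ((⌈Y⌉ : ℤ) : ℝ) := h1.trans (Int.le_ceil Y)
    exact_mod_cast h3
  exact ⟨fun i => (abs_le.1 (h i)).1, fun i => (abs_le.1 (h i)).2⟩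

end misc

section numeric

variable {ι : Type*} [Fintype ι] [DecidableEq ι] {b : ℕ}

/-- the main term at one place -/
lemma main_term (hι : 1 ≤ Fintype.card ι) (c : ι → ℝ) (C0 : ℝ) (hC0 : ∑ i, |c i| ≤ C0)
    (r : Fin b → ℕ) (hr : ∀ h, 1 ≤ r h) (Q : Fin b → ℝ) (hQ : ∀ h, 1 < Q h) (R ε : ℝ)
    (hR : 0 < R) (hε : 0 < ε) (hε1 : ε ≤ 1)
    (h1 : ∀ h, R ≤ r h * Real.log (Q h)) (h2 : ∀ h, r h * Real.log (Q h) ≤ (1 + ε) * R)
    (J : (Fin b × ι) →₀ ℕ)
    (hJ : ∀ i, |(∑ h, (J (h, i) : ℝ) / r h) - b / Fintype.card ι| ≤ ε * b) :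
    ∏ q : Fin b × ι, (Q q.1 ^ c q.2) ^ (J q) ≤
      Real.exp (R * ((b / Fintype.card ι) * (∑ i, c i) + 3 * ε * b * C0)) := by
  have hQ0 : ∀ h, 0 < Q h := fun h => lt_trans one_pos (hQ h)
  have hlog : ∀ q : Fin b × ι, (Q q.1 ^ c q.2) ^ (J q) =
      Real.exp (c q.2 * ((J q : ℝ) * Real.log (Q q.1))) := by
    intro q
    rw [← Real.rpow_natCast, ← Real.rpow_mul (hQ0 _).le, Real.rpow_def_of_pos (hQ0 _)]
    congr 1
    ring
  simp_rw [hlog]
  rw [← Real.exp_sum]
  apply Real.exp_le_exp.2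
  rw [Fintype.sum_prod_type_right]
  have hn : (1 : ℝ) ≤ Fintype.card ι := by exact_mod_cast hι
  have hb0 : (0 : ℝ) ≤ b := Nat.cast_nonneg _
  have hkey : ∀ i, |(∑ h, (J (h, i) : ℝ) * Real.log (Q h)) - R * (b / Fintype.card ι)| ≤
      R * (3 * ε * b) := by
    intro i
    have hrp : ∀ h, (0 : ℝ) < r h := fun h => by exact_mod_cast hr h
    have e1 : ∀ h, (J (h, i) : ℝ) * Real.log (Q h) =
        R * ((J (h, i) : ℝ) / r h) + ((J (h, i) : ℝ) / r h) * (r h * Real.log (Q h) - R) := by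
      intro h
      have := (hrp h).ne'
      field_simp
      ring
    have e2 : ∑ h, (J (h, i) : ℝ) * Real.log (Q h) = R * (∑ h, (J (h, i) : ℝ) / r h) +
        ∑ h, ((J (h, i) : ℝ) / r h) * (r h * Real.log (Q h) - R) := by
      rw [Finset.sum_congr rfl fun h _ => e1 h, Finset.sum_add_distrib, Finset.mul_sum]
    have hJi := abs_le.1 (hJ i)
    set s := ∑ h, (J (h, i) : ℝ) / r h with hs
    have hs1 : s ≤ 2 * b := by
      have : (b : ℝ) / Fintype.card ι ≤ b := div_le_self hb0 hn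
      nlinarith [hJi.2]
    have e3 : 0 ≤ ∑ h, ((J (h, i) : ℝ) / r h) * (r h * Real.log (Q h) - R) :=
      Finset.sum_nonneg fun h _ => mul_nonneg (by have := hrp h; positivity)
        (by linarith [h1 h])
    have e4 : ∑ h, ((J (h, i) : ℝ) / r h) * (r h * Real.log (Q h) - R) ≤ s * (ε * R) := by
      rw [hs, Finset.sum_mul]
      refine Finset.sum_le_sum fun h _ => mul_le_mul_of_nonneg_left ?_
        (by have := hrp h; positivity)
      linarith [h2 h]
    have e5 : s * (ε * R) ≤ 2 * b * (ε * R) :=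
      mul_le_mul_of_nonneg_right hs1 (by positivity)
    rw [e2, abs_le]
    constructor
    · nlinarith [hJi.1]
    · nlinarith [hJi.2]
  have e6 : ∀ i, ∑ h, c i * ((J (h, i) : ℝ) * Real.log (Q h)) ≤
      c i * (R * (b / Fintype.card ι)) + |c i| * (R * (3 * ε * b)) := by
    intro i
    rw [← Finset.mul_sum]
    have := hkey i
    have e7 : c i * ((∑ h, (J (h, i) : ℝ) * Real.log (Q h)) - R * (b / Fintype.card ι)) ≤
        |c i| * (R * (3 * ε * b)) := by
      refine (le_abs_self _).trans ?_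
      rw [abs_mul]
      exact mul_le_mul_of_nonneg_left this (abs_nonneg _)
    linarith [e7]
  refine (Finset.sum_le_sum fun i _ => e6 i).trans ?_
  rw [Finset.sum_add_distrib, ← Finset.sum_mul, ← Finset.sum_mul]
  have e8 : (∑ i, |c i|) * (R * (3 * ε * b)) ≤ C0 * (R * (3 * ε * b)) :=
    mul_le_mul_of_nonneg_right hC0 (by positivity)
  linarith

/-- the loss from the derivative -/
lemma deriv_term (C0 : ℝ) (hC0 : 0 ≤ C0)
    (r : Fin b → ℕ) (hr : ∀ h, 1 ≤ r h) (Q : Fin b → ℝ) (hQ : ∀ h, 1 < Q h) (R ε : ℝ)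
    (hR : 0 < R) (hε1 : ε ≤ 1) (h2 : ∀ h, r h * Real.log (Q h) ≤ (1 + ε) * R)
    (k : (Fin b × ι) →₀ ℕ) :
    ∏ q : Fin b × ι, (Q q.1 ^ C0) ^ (k q) ≤ Real.exp (C0 * (2 * R * wtB r k)) := by
  have hQ0 : ∀ h, 0 < Q h := fun h => lt_trans one_pos (hQ h)
  have hlog : ∀ q : Fin b × ι, (Q q.1 ^ C0) ^ (k q) =
      Real.exp (C0 * ((k q : ℝ) * Real.log (Q q.1))) := by
    intro q
    rw [← Real.rpow_natCast, ← Real.rpow_mul (hQ0 _).le, Real.rpow_def_of_pos (hQ0 _)]
    congr 1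
    ring
  simp_rw [hlog]
  rw [← Real.exp_sum]
  apply Real.exp_le_exp.2
  rw [← Finset.mul_sum]
  refine mul_le_mul_of_nonneg_left ?_ hC0
  rw [Fintype.sum_prod_type]
  unfold wtB
  rw [Finset.mul_sum]
  refine Finset.sum_le_sum fun h _ => ?_
  simp only
  rw [← Finset.sum_mul, ← Nat.cast_sum]
  have hrp : (0 : ℝ) < r h := by exact_mod_cast hr h
  have e1 : ((∑ i, k (h, i) : ℕ) : ℝ) * Real.log (Q h) =
      (((∑ i, k (h, i) : ℕ) : ℝ) / r h) * (r h * Real.log (Q h)) := by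
    field_simp
  rw [e1]
  have e2 : (r h : ℝ) * Real.log (Q h) ≤ 2 * R := by
    have := h2 h
    nlinarith
  calc (((∑ i, k (h, i) : ℕ) : ℝ) / r h) * (r h * Real.log (Q h))
      ≤ (((∑ i, k (h, i) : ℕ) : ℝ) / r h) * (2 * R) :=
        mul_le_mul_of_nonneg_left e2 (by positivity)
    _ = 2 * R * (((∑ i, k (h, i) : ℕ) : ℝ) / r h) := by ring

end numeric

end Pool.Agent.Helper53.Sub

end

section

namespace Pool.Agent.Helper10.Sub
end Pool.Agent.Helper10.Sub

/-!
# Subspace theorem project, module MACHINE: the Roth machine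
-/

set_option autoImplicit false

set_option linter.unusedSectionVars false

namespace Pool.Agent.Helper53.Sub

open Pool.Agent.Helper10.Sub MvPolynomial Finset

/-- the statement of module ROTHH -/
def RothHStmt (ι : Type) [Fintype ι] [DecidableEq ι] : Prop :=
  ∀ (b : ℕ) (ε : ℝ), 0 < ε → ∃ ω c : ℝ, 0 < ω ∧ 0 < c ∧
    ∀ (r : Fin b → ℕ), (∀ h, 1 ≤ r h) → (∀ h h', h < h' → (r h' : ℝ) ≤ ω * r h) →
    ∀ (P : MvPolynomial (Fin b × ι) ℤ), P ≠ 0 → (∀ e ∈ P.support, ∀ h, ∑ i, e (h, i) = r h) →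
    ∀ (B : ℝ), 1 ≤ B → (∀ e, |((P.coeff e : ℤ) : ℝ)| ≤ B) →
    ∀ (m : Fin b → ι → ℤ), (∀ h, Prim (m h)) →
    (∀ h h', Real.log B + c * r h' ≤ ω * (r h * Real.log (htv (m h)))) →
    ∃ k : (Fin b × ι) →₀ ℕ, wtB r k ≤ ε ∧ ∃ z : Fin b → ι → ℚ,
      (∀ h, ∑ i, (m h i : ℚ) * z h i = 0) ∧
      eval (fun q => z q.1 q.2) (hd k (map (Int.castRingHom ℚ) P)) ≠ 0

/-- the statement of module GRID -/
def GridStmt (ι : Type) [Fintype ι] [DecidableEq ι] : Prop :=
  ∀ {b n' : ℕ} (G : MvPolynomial (Fin b × ι) ℚ)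
    (r : Fin b → ℕ) (_ : ∀ e ∈ G.support, ∀ h, ∑ i, e (h, i) ≤ r h)
    (y : Fin b → Fin n' → ι → ℚ) (z : Fin b → ι → ℚ)
    (_ : ∀ h, z h ∈ Submodule.span ℚ (Set.range (y h)))
    (_ : eval (fun q => z q.1 q.2) G ≠ 0) (N : ℕ),
    ∃ u : Fin b → Fin n' → ℕ, (∀ h j, u h j ≤ N) ∧ ∃ k : (Fin b × ι) →₀ ℕ,
      (∀ h, ∑ i, k (h, i) ≤ n' * (r h / (N + 1))) ∧
      eval (fun q => ∑ j, (u q.1 j : ℚ) * y q.1 j q.2) (hd k G) ≠ 0

variable {ι : Type} [Fintype ι] [DecidableEq ι] {T : Type} [Fintype T] {p : T → ℕ}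
  [∀ t, Fact (p t).Prime]

/-- the statement of module AUX -/
def AuxStmt (S : Sys ι T p) : Prop :=
  ∀ (ε : ℝ), 0 < ε → ∃ b0 : ℕ, ∀ b : ℕ, b0 ≤ b → ∃ K : ℝ, 1 ≤ K ∧
    ∀ r : Fin b → ℕ, (∀ h, 1 ≤ r h) →
    ∃ P : MvPolynomial (Fin b × ι) ℤ, P ≠ 0 ∧ (∀ e ∈ P.support, ∀ h, ∑ i, e (h, i) = r h) ∧
      (∀ e, |((P.coeff e : ℤ) : ℝ)| ≤ K ^ (∑ h, r h)) ∧
      (∀ e ∈ (linSub S.A⁻¹ P).support, ∀ i,
        |(∑ h, (e (h, i) : ℝ) / r h) - b / Fintype.card ι| ≤ ε * b) ∧
      (∀ t, ∀ e ∈ (linSub (S.A' t)⁻¹ P).support, ∀ i,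
        |(∑ h, (e (h, i) : ℝ) / r h) - b / Fintype.card ι| ≤ ε * b)

/-- the data attached to a member of the set -/
structure Dat (S : Sys ι T p) (c : ι → ℝ) (c' : T → ι → ℝ) (δ C1 : ℝ) where
  m : ι → ℤ
  Q : ℝ
  y : Fin (Fintype.card ι - 1) → ι → ℚ
  hm : Prim m
  hQ : 1 ≤ Q
  hQ1 : Q ^ δ ≤ htv m
  hQ2 : htv m ≤ Q ^ C1
  hy : LinearIndependent ℚ y
  hyP : ∀ j, PVec (pprod p) (y j)
  hmy : ∀ j, ∑ i, (m i : ℚ) * y j i = 0
  hL : ∀ j i, |S.L (y j) i| ≤ Q ^ (c i)
  hL' : ∀ t j i, ‖S.L' t (y j) i‖ ≤ Q ^ (c' t i)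

/-- if the set is infinite then there are data with arbitrarily large `Q` -/
lemma exists_dat (S : Sys ι T p) (c : ι → ℝ) (c' : T → ι → ℝ) (δ C1 : ℝ)
    (hinf : {m : ι → ℤ | Prim m ∧ ∃ Q : ℝ, 1 ≤ Q ∧ Q ^ δ ≤ htv m ∧ htv m ≤ Q ^ C1 ∧
      ∃ y : Fin (Fintype.card ι - 1) → ι → ℚ, LinearIndependent ℚ y ∧
        (∀ j, PVec (pprod p) (y j)) ∧ (∀ j, ∑ i, (m i : ℚ) * y j i = 0) ∧
        (∀ j i, |S.L (y j) i| ≤ Q ^ (c i)) ∧
        (∀ t j i, ‖S.L' t (y j) i‖ ≤ Q ^ (c' t i))}.Infinite) (X : ℝ) :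
    ∃ d : Dat S c c' δ C1, X ≤ d.Q := by
  by_contra hcon
  push Not at hcon
  apply hinf
  refine (finite_htv (ι := ι) ((max X 1) ^ |C1|)).subset ?_
  rintro m ⟨hm, Q, hQ, hQ1, hQ2, y, hy, hyP, hmy, hL, hL'⟩
  have h := hcon ⟨m, Q, y, hm, hQ, hQ1, hQ2, hy, hyP, hmy, hL, hL'⟩
  simp only at h
  rw [Set.mem_ofPred_eq]
  refine hQ2.trans ?_
  calc Q ^ C1 ≤ Q ^ |C1| := Real.rpow_le_rpow_of_exponent_le hQ (le_abs_self _)
    _ ≤ (max X 1) ^ |C1| :=
        Real.rpow_le_rpow (by linarith) (h.le.trans (le_max_left _ _)) (abs_nonneg _)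

/-- a rapidly growing sequence of data -/
lemma exists_seq (S : Sys ι T p) (c : ι → ℝ) (c' : T → ι → ℝ) (δ C1 : ℝ)
    (h : ∀ X : ℝ, ∃ d : Dat S c c' δ C1, X ≤ d.Q) (L g : ℝ) (hL : 0 ≤ L) (hg : 1 ≤ g) :
    ∃ d : ℕ → Dat S c c' δ C1, (∀ k, L ≤ Real.log (d k).Q) ∧
      ∀ k l, k < l → g * Real.log (d k).Q ≤ Real.log (d l).Q := by
  choose f hf using h
  let d : ℕ → Dat S c c' δ C1 := fun k => Nat.rec (f (Real.exp L))
    (fun _ e => f (max (Real.exp L) (e.Q ^ g))) k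
  have hd0 : d 0 = f (Real.exp L) := rfl
  have hds : ∀ k, d (k + 1) = f (max (Real.exp L) ((d k).Q ^ g)) := fun k => rfl
  have hX : ∀ k, Real.exp L ≤ (d k).Q := by
    intro k
    cases k with
    | zero => rw [hd0]; exact hf _
    | succ k => rw [hds]; exact (le_max_left _ _).trans (hf _)
  have hlog : ∀ k, L ≤ Real.log (d k).Q := by
    intro k
    rw [Real.le_log_iff_exp_le (lt_of_lt_of_le (Real.exp_pos _) (hX k))]
    exact hX k
  have hstep : ∀ k, g * Real.log (d k).Q ≤ Real.log (d (k + 1)).Q := by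
    intro k
    have h0 : 0 < (d k).Q := lt_of_lt_of_le (Real.exp_pos _) (hX k)
    rw [← Real.log_rpow h0]
    refine Real.log_le_log (Real.rpow_pos_of_pos h0 _) ?_
    rw [hds]
    exact (le_max_right _ _).trans (hf _)
  have hmono : ∀ k j, Real.log (d (k + 1)).Q ≤ Real.log (d (k + 1 + j)).Q := by
    intro k j
    induction j with
    | zero => exact le_rfl
    | succ j ih =>
      refine ih.trans ?_
      have h1 := hstep (k + 1 + j)
      have h2 := hL.trans (hlog (k + 1 + j))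
      have h3 : Real.log (d (k + 1 + j)).Q ≤ g * Real.log (d (k + 1 + j)).Q := by nlinarith
      exact h3.trans h1
  refine ⟨d, hlog, fun k l hkl => ?_⟩
  obtain ⟨j, rfl⟩ := Nat.exists_eq_add_of_lt hkl
  have h1 := (hstep k).trans (hmono k j)
  rwa [show k + 1 + j = k + j + 1 by ring] at h1

lemma cast_eval {F : Type*} [Field F] [CharZero F] {σ : Type*} (z : σ → ℚ) (k : σ →₀ ℕ)
    (P : MvPolynomial σ ℤ) :
    ((eval z (hd k (MvPolynomial.map (Int.castRingHom ℚ) P)) : ℚ) : F) =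
      eval (fun q => (z q : F)) (hd k (MvPolynomial.map (Int.castRingHom F) P)) := by
  have h := MvPolynomial.map_eval (Rat.castHom F) z
    (hd k (MvPolynomial.map (Int.castRingHom ℚ) P))
  rw [map_hd, MvPolynomial.map_map] at h
  have h2 : (Rat.castHom F).comp (Int.castRingHom ℚ) = Int.castRingHom F := RingHom.ext_int _ _
  rw [h2] at h
  exact h

/-- the estimate at one place -/
lemma place_est {F : Type*} [NormedField F] [CharZero F] {b : ℕ} (hι : 1 ≤ Fintype.card ι)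
    (c : ι → ℝ) (C0 : ℝ) (hC0 : ∑ i, |c i| ≤ C0) (D : ℝ) (hD1 : 1 ≤ D)
    (r : Fin b → ℕ) (hr : ∀ h, 1 ≤ r h) (Q : Fin b → ℝ) (hQ : ∀ h, 1 < Q h) (R ε : ℝ)
    (hR : 0 < R) (hε : 0 < ε) (hε1 : ε ≤ 1)
    (h1 : ∀ h, R ≤ r h * Real.log (Q h)) (h2 : ∀ h, r h * Real.log (Q h) ≤ (1 + ε) * R)
    (k : (Fin b × ι) →₀ ℕ) (v : F) (supp : Finset ((Fin b × ι) →₀ ℕ))
    (hJ : ∀ J ∈ supp, ∀ i, |(∑ h, (J (h, i) : ℝ) / r h) - b / Fintype.card ι| ≤ ε * b)
    (hD : ∀ E : ℝ, 0 ≤ E → (∀ J ∈ supp, ∏ q : Fin b × ι, (Q q.1 ^ c q.2) ^ (J q) ≤ E) →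
      ‖v‖ ≤ D ^ (∑ h, r h) * (∏ q : Fin b × ι, (Q q.1 ^ C0) ^ (k q)) * E) :
    ‖v‖ ≤ Real.exp ((∑ h, r h : ℕ) * Real.log D + C0 * (2 * R * wtB r k) +
      R * ((b / Fintype.card ι) * (∑ i, c i) + 3 * ε * b * C0)) := by
  have hC00 : 0 ≤ C0 := (Finset.sum_nonneg fun i _ => abs_nonneg (c i)).trans hC0
  have h3 := hD (Real.exp (R * ((b / Fintype.card ι) * (∑ i, c i) + 3 * ε * b * C0)))
    (Real.exp_pos _).le
    (fun J hJs => main_term hι c C0 hC0 r hr Q hQ R ε hR hε hε1 h1 h2 J (hJ J hJs))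
  refine h3.trans ?_
  rw [Real.exp_add, Real.exp_add]
  refine mul_le_mul_of_nonneg_right ?_ (Real.exp_pos _).le
  refine mul_le_mul ?_ (deriv_term C0 hC00 r hr Q hQ R ε hR hε1 h2 k) ?_ (Real.exp_pos _).le
  · have hD0 : 0 < D := by linarith
    rw [mul_comm, ← Real.rpow_def_of_pos hD0, Real.rpow_natCast]
  · exact Finset.prod_nonneg fun q _ => pow_nonneg (Real.rpow_nonneg
      (by linarith [hQ q.1]) _) _

set_option maxHeartbeats 4000000 in
theorem machine_of (S : Sys ι T p) (hp : Function.Injective p) (hι : 2 ≤ Fintype.card ι)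
    (hroth : RothHStmt ι) (hgrid : GridStmt ι) (haux : AuxStmt S)
    (c : ι → ℝ) (c' : T → ι → ℝ) (hc : ∑ i, c i + ∑ t, ∑ i, c' t i < 0)
    (δ C1 : ℝ) (hδ : 0 < δ) :
    {m : ι → ℤ | Prim m ∧ ∃ Q : ℝ, 1 ≤ Q ∧ Q ^ δ ≤ htv m ∧ htv m ≤ Q ^ C1 ∧
      ∃ y : Fin (Fintype.card ι - 1) → ι → ℚ, LinearIndependent ℚ y ∧
        (∀ j, PVec (pprod p) (y j)) ∧ (∀ j, ∑ i, (m i : ℚ) * y j i = 0) ∧
        (∀ j i, |S.L (y j) i| ≤ Q ^ (c i)) ∧
        (∀ t j i, ‖S.L' t (y j) i‖ ≤ Q ^ (c' t i))}.Finite := by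
  by_contra hfin
  have hdat := exists_dat S c c' δ C1 hfin
  have hι1 : 1 ≤ Fintype.card ι := by omega
  set n : ℝ := (Fintype.card ι : ℝ) with hn
  have hn1 : (1 : ℝ) ≤ n := by rw [hn]; exact_mod_cast hι1
  have hn0 : 0 < n := by linarith
  set κ : ℝ := -(∑ i, c i + ∑ t, ∑ i, c' t i) with hκ
  have hκ0 : 0 < κ := by linarith
  set C0 : ℝ := ∑ i, |c i| + ∑ t, ∑ i, |c' t i| with hC0
  have hC0a : ∑ i, |c i| ≤ C0 := by
    have : 0 ≤ ∑ t, ∑ i, |c' t i| :=
      Finset.sum_nonneg fun t _ => Finset.sum_nonneg fun i _ => abs_nonneg _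
    linarith
  have hC0b : ∀ t, ∑ i, |c' t i| ≤ C0 := by
    intro t
    have h1 : 0 ≤ ∑ i, |c i| := Finset.sum_nonneg fun i _ => abs_nonneg _
    have h2 : ∑ i, |c' t i| ≤ ∑ t, ∑ i, |c' t i| :=
      Finset.single_le_sum (f := fun t => ∑ i, |c' t i|)
        (fun t _ => Finset.sum_nonneg fun i _ => abs_nonneg _) (Finset.mem_univ t)
    linarith
  have hC00 : 0 ≤ C0 := (Finset.sum_nonneg fun i _ => abs_nonneg (c i)).trans hC0a
  have hci : ∀ i, |c i| ≤ C0 := fun i =>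
    (Finset.single_le_sum (f := fun i => |c i|) (fun i _ => abs_nonneg _)
      (Finset.mem_univ i)).trans hC0a
  have hci' : ∀ t i, |c' t i| ≤ C0 := fun t i =>
    (Finset.single_le_sum (f := fun i => |c' t i|) (fun i _ => abs_nonneg _)
      (Finset.mem_univ i)).trans (hC0b t)
  set s : ℝ := 1 + (Fintype.card T : ℝ) with hs
  have hs0 : 0 ≤ s := by positivity
  set ε : ℝ := min 1 (κ / (4 * n * (7 * s * C0 + 1))) with hεdef
  have hden : 0 < 4 * n * (7 * s * C0 + 1) := by positivity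
  have hε : 0 < ε := lt_min one_pos (by positivity)
  have hε1 : ε ≤ 1 := min_le_left _ _
  have hε2 : 7 * s * C0 * ε ≤ κ / (4 * n) := by
    have h1 : ε ≤ κ / (4 * n * (7 * s * C0 + 1)) := min_le_right _ _
    rw [le_div_iff₀ hden] at h1
    rw [le_div_iff₀ (by positivity)]
    have h2 : 0 ≤ 4 * n * ε := by positivity
    nlinarith
  obtain ⟨b0, hb0⟩ := haux ε hε
  set b : ℕ := max b0 1 with hb
  have hb1 : (1 : ℝ) ≤ b := by
    have : 1 ≤ b := le_max_right _ _
    exact_mod_cast this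
  obtain ⟨K, hK, hauxP⟩ := hb0 b (le_max_left _ _)
  obtain ⟨ω, cc, hω, hcc, hR⟩ := hroth b ε hε
  set n' : ℕ := Fintype.card ι - 1 with hn'
  set N : ℕ := ⌈n / ε⌉₊ with hN
  have hN1 : (n' : ℝ) / (N + 1) ≤ ε := by
    have h1 : n / ε ≤ N := Nat.le_ceil _
    have h2 : (n' : ℝ) ≤ n := by rw [hn]; exact_mod_cast Nat.sub_le _ _
    rw [div_le_iff₀ hε] at h1
    rw [div_le_iff₀ (by positivity)]
    nlinarith
  obtain ⟨D, hD1, hD⟩ := place_bound (b := b) S.A (isUnit_iff_ne_zero.2 S.detA) c K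
    ((n' : ℝ) * N) C0 hK (by positivity) hci
  have hDt := fun t => place_bound (b := b) (S.A' t) (isUnit_iff_ne_zero.2 (S.detA' t)) (c' t) K
    ((n' : ℝ) * N) C0 hK (by positivity) (hci' t)
  choose D' hD'1 hD' using hDt
  set Λ : ℝ := Real.log D + ∑ t, Real.log (D' t) with hΛ
  have hΛ0 : 0 ≤ Λ :=
    add_nonneg (Real.log_nonneg hD1) (Finset.sum_nonneg fun t _ => Real.log_nonneg (hD'1 t))
  have hlogK : 0 ≤ Real.log K := Real.log_nonneg hK
  set L : ℝ := 1 + 8 * n * Λ / κ + 2 * (b * Real.log K + cc) / (ω * δ) with hL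
  have hL1a : 0 ≤ 8 * n * Λ / κ := by positivity
  have hL1b : 0 ≤ 2 * (b * Real.log K + cc) / (ω * δ) := by positivity
  have hL1 : 1 ≤ L := by linarith
  have hL0 : 0 < L := by linarith
  have hL2 : 2 * Λ / L ≤ κ / (4 * n) := by
    have h1 : 8 * n * Λ / κ ≤ L := by linarith
    rw [div_le_iff₀ hκ0] at h1
    rw [div_le_div_iff₀ hL0 (by positivity)]
    linarith
  have hL3 : 2 * (b * Real.log K + cc) ≤ ω * δ * L := by
    have h1 : 2 * (b * Real.log K + cc) / (ω * δ) ≤ L := by linarith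
    rw [div_le_iff₀ (by positivity)] at h1
    linarith
  obtain ⟨d, hdL, hdg⟩ := exists_seq S c c' δ C1 hdat L (2 / ω + 1) hL0.le
    (by have : 0 < 2 / ω := by positivity
        linarith)
  -- the chosen data
  set Q : Fin b → ℝ := fun h => (d h).Q with hQdef
  have hℓ : ∀ h, L ≤ Real.log (Q h) := fun h => hdL h
  have hℓ0 : ∀ h, 0 < Real.log (Q h) := fun h => lt_of_lt_of_le hL0 (hℓ h)
  have hQ1' : ∀ h, 1 ≤ Q h := fun h => (d h).hQ
  have hQ1 : ∀ h, 1 < Q h := fun h => by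
    rw [← Real.log_pos_iff (by linarith [hQ1' h])]
    exact hℓ0 h
  have hQ0 : ∀ h, 0 < Q h := fun h => by linarith [hQ1' h]
  set R : ℝ := ((∑ h, Real.log (Q h)) + 1) / ε with hRdef
  have hR0 : 0 < R := by
    have : 0 ≤ ∑ h, Real.log (Q h) := Finset.sum_nonneg fun h _ => (hℓ0 h).le
    positivity
  have hεR : ∀ h, Real.log (Q h) ≤ ε * R := by
    intro h
    have h1 : Real.log (Q h) ≤ ∑ h, Real.log (Q h) :=
      Finset.single_le_sum (f := fun h => Real.log (Q h)) (fun h _ => (hℓ0 h).le)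
        (Finset.mem_univ h)
    have h2 : ε * R = (∑ h, Real.log (Q h)) + 1 := by
      rw [hRdef]; field_simp
    linarith
  set r : Fin b → ℕ := fun h => ⌈R / Real.log (Q h)⌉₊ with hr
  have hr1 : ∀ h, 1 ≤ r h := fun h => Nat.ceil_pos.2 (div_pos hR0 (hℓ0 h))
  have h1 : ∀ h, R ≤ r h * Real.log (Q h) := by
    intro h
    have := Nat.le_ceil (R / Real.log (Q h))
    rwa [div_le_iff₀ (hℓ0 h)] at this
  have h2 : ∀ h, r h * Real.log (Q h) ≤ (1 + ε) * R := by
    intro h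
    have h3 : (r h : ℝ) < R / Real.log (Q h) + 1 := Nat.ceil_lt_add_one (by
      have := hℓ0 h
      positivity)
    have h4 : (r h : ℝ) * Real.log (Q h) ≤ (R / Real.log (Q h) + 1) * Real.log (Q h) :=
      mul_le_mul_of_nonneg_right h3.le (hℓ0 h).le
    have h5 : (R / Real.log (Q h) + 1) * Real.log (Q h) = R + Real.log (Q h) := by
      have := (hℓ0 h).ne'
      field_simp
    have := hεR h
    linarith
  have h2' : ∀ h, r h * Real.log (Q h) ≤ 2 * R := by
    intro h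
    have := h2 h
    nlinarith
  have hrL : ∀ h, (r h : ℝ) * L ≤ 2 * R := by
    intro h
    exact (mul_le_mul_of_nonneg_left (hℓ h) (Nat.cast_nonneg _)).trans (h2' h)
  have hsumr : ((∑ h, r h : ℕ) : ℝ) * L ≤ 2 * R * b := by
    push_cast
    rw [Finset.sum_mul]
    refine (Finset.sum_le_sum fun h _ => hrL h).trans (le_of_eq ?_)
    rw [Finset.sum_const, Finset.card_univ, Fintype.card_fin, nsmul_eq_mul]
    ring
  have hrr : ∀ h h', h < h' → (r h' : ℝ) ≤ ω * r h := by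
    intro h h' hh
    have h3 := hdg h h' hh
    have h4 : (2 / ω) * Real.log (Q h) ≤ Real.log (Q h') := by
      have := (hℓ0 h).le
      have h5 : (2 / ω + 1) * Real.log (Q h) ≤ Real.log (Q h') := h3
      linarith
    have h5 := h2' h'
    have h6 : (r h' : ℝ) * ((2 / ω) * Real.log (Q h)) ≤ 2 * R :=
      (mul_le_mul_of_nonneg_left h4 (Nat.cast_nonneg _)).trans h5
    have h7 := h1 h
    have h8 : (r h' : ℝ) * ((2 / ω) * Real.log (Q h)) ≤ 2 * (r h * Real.log (Q h)) := by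
      linarith
    have h9 := hℓ0 h
    have h10 : (r h' : ℝ) * (2 / ω) ≤ 2 * r h := by
      have : ((r h' : ℝ) * (2 / ω)) * Real.log (Q h) ≤ (2 * r h) * Real.log (Q h) := by
        linarith
      exact le_of_mul_le_mul_right this h9
    rw [mul_div_assoc', div_le_iff₀ hω] at h10
    linarith
  -- the auxiliary polynomial
  obtain ⟨P, hP0, hPb, hPc, hPJ, hPJ'⟩ := hauxP r hr1
  have hKR : 1 ≤ K ^ (∑ h, r h) := one_le_pow₀ hK
  -- Roth's lemma
  obtain ⟨k1, hk1, z, hz, hzP⟩ := hR r hr1 hrr P hP0 hPb (K ^ (∑ h, r h)) hKR hPc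
    (fun h => (d h).m) (fun h => (d h).hm) (by
      intro h h'
      rw [Real.log_pow]
      have e1 : δ * Real.log (Q h) ≤ Real.log (htv (d h).m) := by
        rw [← Real.log_rpow (hQ0 h)]
        exact Real.log_le_log (Real.rpow_pos_of_pos (hQ0 h) _) (d h).hQ1
      have e2 : ω * δ * R ≤ ω * (r h * Real.log (htv (d h).m)) := by
        have e3 : (r h : ℝ) * (δ * Real.log (Q h)) ≤ r h * Real.log (htv (d h).m) :=
          mul_le_mul_of_nonneg_left e1 (Nat.cast_nonneg _)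
        have e4 : δ * R ≤ δ * (r h * Real.log (Q h)) := mul_le_mul_of_nonneg_left (h1 h) hδ.le
        have e5 : δ * R ≤ r h * Real.log (htv (d h).m) := by linarith
        have := mul_le_mul_of_nonneg_left e5 hω.le
        linarith
      refine le_trans ?_ e2
      have e6 : (((∑ h, r h : ℕ) : ℝ) * Real.log K + cc * r h') * L ≤ (ω * δ * R) * L := by
        have e7 := mul_le_mul_of_nonneg_right hsumr hlogK
        have e8 := mul_le_mul_of_nonneg_left (hrL h') hcc.le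
        have e9 := mul_le_mul_of_nonneg_right hL3 hR0.le
        nlinarith
      exact le_of_mul_le_mul_right e6 hL0)
  -- the grid lemma
  have hn'1 : Fintype.card ι = n' + 1 := by omega
  obtain ⟨u, hu, k2, hk2, hne⟩ := hgrid (n' := n') (hd k1 (map (Int.castRingHom ℚ) P)) r
    (by
      intro e he h
      have e1 := support_hd k1 _ he
      have e2 : e + k1 ∈ P.support := by
        rw [mem_support_iff, coeff_map] at e1
        rw [mem_support_iff]
        intro h0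
        rw [h0, map_zero] at e1
        exact e1 rfl
      rw [← hPb _ e2 h]
      refine Finset.sum_le_sum fun i _ => ?_
      rw [Finsupp.add_apply]
      exact Nat.le_add_right _ _)
    (fun h => (d h).y) z
    (fun h => mem_span_of_orth hn'1 (prim_ne_zero hι (d h).hm) _ (d h).hy (d h).hmy _ (hz h))
    hzP N
  set z' : Fin b × ι → ℚ := fun q => ∑ j, (u q.1 j : ℚ) * (d q.1).y j q.2 with hz'
  rw [hd_hd, map_mul, map_natCast] at hne
  have hv0 := right_ne_zero_of_mul hne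
  set k := k2 + k1 with hk
  set v : ℚ := eval z' (hd k (map (Int.castRingHom ℚ) P)) with hv
  have hwt : wtB r k ≤ 2 * b * ε := by
    have e1 : wtB r k = wtB r k2 + wtB r k1 := by
      unfold wtB
      rw [← Finset.sum_add_distrib]
      refine Finset.sum_congr rfl fun h _ => ?_
      rw [← add_div, ← Nat.cast_add, ← Finset.sum_add_distrib]
      rfl
    have e2 : wtB r k2 ≤ b * ε := by
      unfold wtB
      have e3 : ∀ h ∈ (Finset.univ : Finset (Fin b)),
          ((∑ i, k2 (h, i) : ℕ) : ℝ) / (r h : ℝ) ≤ ε := by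
        intro h _
        have hrp : (0 : ℝ) < r h := by exact_mod_cast hr1 h
        rw [div_le_iff₀ hrp]
        have e4 : ((∑ i, k2 (h, i) : ℕ) : ℝ) ≤ (n' : ℝ) * ((r h / (N + 1) : ℕ) : ℝ) := by
          exact_mod_cast hk2 h
        have e5 : ((r h / (N + 1) : ℕ) : ℝ) ≤ (r h : ℝ) / (N + 1) := by
          have := Nat.cast_div_le (α := ℝ) (m := r h) (n := N + 1)
          push_cast at this
          exact this
        have e6 : (n' : ℝ) * ((r h / (N + 1) : ℕ) : ℝ) ≤ (n' : ℝ) * ((r h : ℝ) / (N + 1)) :=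
          mul_le_mul_of_nonneg_left e5 (Nat.cast_nonneg _)
        have e7 : (n' : ℝ) * ((r h : ℝ) / (N + 1)) = (n' : ℝ) / (N + 1) * r h := by ring
        have e8 := mul_le_mul_of_nonneg_right hN1 hrp.le
        linarith
      refine (Finset.sum_le_sum e3).trans (le_of_eq ?_)
      rw [Finset.sum_const, Finset.card_univ, Fintype.card_fin, nsmul_eq_mul]
    have e9 : ε ≤ b * ε := by nlinarith
    linarith
  -- the value is an element of `ℤ[1/P]`
  have hvP : PInt (pprod p) v := by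
    rw [← mem_pring, hv, ← map_hd]
    refine eval_mem_pring _ _ fun q => ?_
    rw [hz']
    refine Subring.sum_mem _ fun j _ => Subring.mul_mem _ ?_ ?_
    · exact natCast_mem _ _
    · exact (d q.1).hyP j q.2
  have hlow := one_le_prod hp hv0 hvP
  -- the archimedean place
  have hinf : |(v : ℝ)| ≤ Real.exp ((∑ h, r h : ℕ) * Real.log D + C0 * (2 * R * wtB r k) +
      R * ((b / Fintype.card ι) * (∑ i, c i) + 3 * ε * b * C0)) := by
    rw [← Real.norm_eq_abs]
    refine place_est (F := ℝ) hι1 c C0 hC0a D hD1 r hr1 Q hQ1 R ε hR0 hε hε1 h1 h2 k (v : ℝ)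
      (linSub S.A⁻¹ P).support hPJ ?_
    intro E hE hJE
    rw [hv, cast_eval]
    refine hD r P hPb hPc Q hQ1' (fun q => ((z' q : ℚ) : ℝ)) ?_ E hE hJE k
    intro h i
    exact comb_bound (F := ℝ) (S.A i) (d h).y (u h) N (hu h) (Q h ^ c i)
      (fun j => (d h).hL j i)
  -- the p-adic places
  have hpad : ∀ t, ‖(v : ℚ_[p t])‖ ≤ Real.exp ((∑ h, r h : ℕ) * Real.log (D' t) +
      C0 * (2 * R * wtB r k) +
      R * ((b / Fintype.card ι) * (∑ i, c' t i) + 3 * ε * b * C0)) := by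
    intro t
    refine place_est (F := ℚ_[p t]) hι1 (c' t) C0 (hC0b t) (D' t) (hD'1 t) r hr1 Q hQ1 R ε hR0
      hε hε1 h1 h2 k (v : ℚ_[p t]) (linSub (S.A' t)⁻¹ P).support (hPJ' t) ?_
    intro E hE hJE
    rw [hv, cast_eval]
    refine hD' t r P hPb hPc Q hQ1' (fun q => ((z' q : ℚ) : ℚ_[p t])) ?_ E hE hJE k
    intro h i
    exact comb_bound (F := ℚ_[p t]) (S.A' t i) (d h).y (u h) N (hu h) (Q h ^ c' t i)
      (fun j => (d h).hL' t j i)
  -- the contradiction
  have hup : |(v : ℝ)| * ∏ t, ‖(v : ℚ_[p t])‖ ≤ Real.exp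
      (((∑ h, r h : ℕ) * Real.log D + C0 * (2 * R * wtB r k) +
      R * ((b / Fintype.card ι) * (∑ i, c i) + 3 * ε * b * C0)) +
      ∑ t, ((∑ h, r h : ℕ) * Real.log (D' t) +
      C0 * (2 * R * wtB r k) +
      R * ((b / Fintype.card ι) * (∑ i, c' t i) + 3 * ε * b * C0))) := by
    rw [Real.exp_add, Real.exp_sum]
    exact mul_le_mul hinf (Finset.prod_le_prod (fun t _ => norm_nonneg _) fun t _ => hpad t)
      (Finset.prod_nonneg fun t _ => norm_nonneg _) (Real.exp_pos _).le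
  have htot : (((∑ h, r h : ℕ) * Real.log D + C0 * (2 * R * wtB r k) +
      R * ((b / Fintype.card ι) * (∑ i, c i) + 3 * ε * b * C0)) +
      ∑ t, ((∑ h, r h : ℕ) * Real.log (D' t) +
      C0 * (2 * R * wtB r k) +
      R * ((b / Fintype.card ι) * (∑ i, c' t i) + 3 * ε * b * C0))) =
      (∑ h, r h : ℕ) * Λ + s * (C0 * (2 * R * wtB r k)) + R * ((b / n) * (-κ)) +
        s * (R * (3 * ε * b * C0)) := by
    simp_rw [mul_add]
    rw [Finset.sum_add_distrib, Finset.sum_add_distrib, Finset.sum_add_distrib,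
      Finset.sum_const, Finset.sum_const, Finset.card_univ, nsmul_eq_mul, nsmul_eq_mul,
      ← Finset.mul_sum, ← Finset.mul_sum, ← Finset.mul_sum, hκ, hs, hΛ]
    ring
  rw [htot] at hup
  have hneg : (∑ h, r h : ℕ) * Λ + s * (C0 * (2 * R * wtB r k)) + R * ((b / n) * (-κ)) +
        s * (R * (3 * ε * b * C0)) < 0 := by
    have e1 : ((∑ h, r h : ℕ) : ℝ) * Λ ≤ R * b * (κ / (4 * n)) := by
      have e2 : ((∑ h, r h : ℕ) : ℝ) ≤ 2 * R * b / L := by
        rw [le_div_iff₀ hL0]; exact hsumr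
      have e3 := mul_le_mul_of_nonneg_right e2 hΛ0
      have e4 : 2 * R * b / L * Λ = R * b * (2 * Λ / L) := by ring
      have e5 := mul_le_mul_of_nonneg_left hL2 (by positivity : 0 ≤ R * b)
      linarith
    have e6 : s * (C0 * (2 * R * wtB r k)) ≤ s * (C0 * (2 * R * (2 * b * ε))) := by
      gcongr
    have e7 : s * (C0 * (2 * R * (2 * b * ε))) + s * (R * (3 * ε * b * C0)) =
        R * b * (7 * s * C0 * ε) := by ring
    have e8 := mul_le_mul_of_nonneg_left hε2 (by positivity : 0 ≤ R * b)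
    have e9 : R * ((b / n) * (-κ)) = - (R * b * (κ / n)) := by ring
    have e10 : R * b * (κ / n) = 4 * (R * b * (κ / (4 * n))) := by
      field_simp
    have e11 : 0 < R * b * (κ / (4 * n)) := by positivity
    linarith
  have hlt : Real.exp ((∑ h, r h : ℕ) * Λ + s * (C0 * (2 * R * wtB r k)) +
      R * ((b / n) * (-κ)) + s * (R * (3 * ε * b * C0))) < 1 := by
    rw [Real.exp_lt_one_iff]
    exact hneg
  linarith

end Pool.Agent.Helper53.Sub

end
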