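import Mathlib
import Pool.Agent.Helper72.TM2.T04

section

namespace Pool.Agent.Helper65.RP
end Pool.Agent.Helper65.RP

/-!
# Dynamical Mordell-Lang for curves and regular polynomial maps: a bound for the dimension

A projective variety that meets the hyperplane at infinity in finitely many points has an affine
part of dimension at most one.
-/

set_option autoImplicit false

namespace Pool.Agent.Helper57.RP

open MvPolynomial Pool.Agent.Helper65.RP

/-- The Nullstellensatz: if the origin is the only zero, the variables are nilpotent. -/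
lemma exists_pow_mem {K : Type} [Field K] [Algebra K ℂ] {N : ℕ}
    (I : Ideal (MvPolynomial (Fin (N + 1)) K))
    (h : ∀ x : Fin (N + 1) → ℂ, (∀ g ∈ I, aeval x g = 0) → x = 0) :
    ∃ r : ℕ, 0 < r ∧ ∀ i, (X i : MvPolynomial (Fin (N + 1)) K) ^ r ∈ I := by
  classical
  have h1 : ∀ k : Fin (N + 1), ∃ r : ℕ, (X k : MvPolynomial (Fin (N + 1)) K) ^ r ∈ I := by
    intro k
    have h2 : (X k : MvPolynomial (Fin (N + 1)) K) ∈ I.radical := by
      rw [← MvPolynomial.vanishingIdeal_zeroLocus_eq_radical (K := ℂ)]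
      rw [MvPolynomial.mem_vanishingIdeal_iff]
      intro x hx
      rw [MvPolynomial.mem_zeroLocus_iff] at hx
      have : x = 0 := h x hx
      rw [this]
      simp
    exact h2
  choose r hr using h1
  refine ⟨1 + ∑ k, r k, by omega, ?_⟩
  intro i
  have h2 : r i ≤ 1 + ∑ k, r k :=
    le_trans (Finset.single_le_sum (f := r) (fun _ _ => Nat.zero_le _) (Finset.mem_univ i))
      (Nat.le_add_left _ _)
  exact I.pow_mem_of_pow_mem (hr i) h2

attribute [local instance] MvPolynomial.gradedAlgebra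

end Pool.Agent.Helper57.RP

end

section

namespace Pool.Agent.Helper36
end Pool.Agent.Helper36

/-!
# Intersections of unions of arithmetic progressions and gap sets
-/

set_option autoImplicit false

namespace Pool.Agent.Helper33.GC

open Pool.Agent.Helper36

/-- a finite union of arithmetic progressions is, up to finitely many exceptions, closed under
adding multiples of a suitable number -/
lemma APSet_evClosed (T : Finset (ℕ × ℕ)) :
    ∃ k : ℕ, 0 < k ∧ ∀ l : ℕ, {n ∈ APSet T | n + k * l ∉ APSet T}.Finite := by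
  classical
  refine ⟨∏ p ∈ T, (if p.1 = 0 then 1 else p.1), ?_, fun l => ?_⟩
  · refine Finset.prod_pos fun p _ => ?_
    split_ifs with h
    · exact Nat.one_pos
    · exact Nat.pos_of_ne_zero h
  · refine (T.image Prod.snd).finite_toSet.subset ?_
    rintro n ⟨⟨p, hp, m, rfl⟩, hn⟩
    rw [Finset.mem_coe, Finset.mem_image]
    refine ⟨p, hp, ?_⟩
    by_cases h0 : p.1 = 0
    · rw [h0, zero_mul, zero_add]
    · exfalso
      apply hn
      have hdvd : p.1 ∣ ∏ p ∈ T, (if p.1 = 0 then 1 else p.1) := by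
        have := Finset.dvd_prod_of_mem (fun p : ℕ × ℕ => if p.1 = 0 then 1 else p.1) hp
        simpa [h0] using this
      obtain ⟨c, hc⟩ := hdvd
      refine ⟨p, hp, m + c * l, ?_⟩
      rw [hc]
      ring

lemma APSet_inter (T T' : Finset (ℕ × ℕ)) : ∃ U, APSet T ∩ APSet T' = APSet U := by
  obtain ⟨k, hk, h⟩ := APSet_evClosed T
  obtain ⟨k', hk', h'⟩ := APSet_evClosed T'
  apply APSet_of_evClosed (k := k * k') (Nat.mul_pos hk hk')
  refine ((h k').union (h' k)).subset ?_
  rintro n ⟨⟨h1, h2⟩, h3⟩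
  by_cases h4 : n + k * k' ∈ APSet T
  · right
    refine ⟨h2, fun h5 => h3 ⟨h4, ?_⟩⟩
    rwa [mul_comm k k']
  · left
    exact ⟨h1, h4⟩

end Pool.Agent.Helper33.GC

end

section

namespace Pool.Agent.Helper36
end Pool.Agent.Helper36

/-!
# Project TB: limits of preimages
-/

set_option autoImplicit false

namespace Pool.Agent.Helper65.TB

open MvPolynomial Filter Topology

open Pool.Agent.Helper36 (step iter)

section aux

variable {K Ω : Type} [Field K] [NormedField Ω] [Algebra K Ω] {N : ℕ}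

/-- Polynomials are Lipschitz along a convergent sequence of points. -/
theorem stepA_lip {l : Filter ℕ} {w : ℕ → Fin N → Ω} {q : Fin N → Ω}
    (hw : Tendsto w l (𝓝 q)) (p : MvPolynomial (Fin N) K) :
    ∃ C : ℝ, 0 ≤ C ∧ ∀ᶠ n in l, ‖aeval (w n) p - aeval q p‖ ≤ C * ‖w n - q‖ := by
  have h1 : ∀ᶠ n in l, ‖w n - q‖ ≤ 1 := by
    have := (tendsto_iff_norm_sub_tendsto_zero.mp hw).eventually (Iio_mem_nhds one_pos)
    filter_upwards [this] with n hn using (Set.mem_Iio.mp hn).le
  induction p using MvPolynomial.induction_on with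
  | C a =>
    refine ⟨0, le_rfl, Eventually.of_forall fun n => ?_⟩
    simp
  | add p p' hp hp' =>
    obtain ⟨C, hC, h⟩ := hp
    obtain ⟨C', hC', h'⟩ := hp'
    refine ⟨C + C', by positivity, ?_⟩
    filter_upwards [h, h'] with n hn hn'
    rw [map_add, map_add, add_sub_add_comm, add_mul]
    exact (norm_add_le _ _).trans (add_le_add hn hn')
  | mul_X p i hp =>
    obtain ⟨C, hC, h⟩ := hp
    refine ⟨C * (‖q i‖ + 1) + ‖aeval q p‖, by positivity, ?_⟩
    filter_upwards [h, h1] with n hn hn1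
    have e : aeval (w n) (p * X i) - aeval q (p * X i) =
        (aeval (w n) p - aeval q p) * w n i + aeval q p * (w n i - q i) := by
      rw [map_mul, map_mul, aeval_X, aeval_X]
      ring
    have e1 : ‖w n i - q i‖ ≤ ‖w n - q‖ := norm_le_pi_norm (w n - q) i
    have e2 : ‖w n i‖ ≤ ‖q i‖ + 1 := by
      have : w n i = q i + (w n i - q i) := by ring
      rw [this]
      exact (norm_add_le _ _).trans (by linarith)
    rw [e]
    refine (norm_add_le _ _).trans ?_
    rw [norm_mul, norm_mul, add_mul]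
    have e3 : ‖aeval (w n) p - aeval q p‖ * ‖w n i‖ ≤ (C * ‖w n - q‖) * (‖q i‖ + 1) :=
      mul_le_mul hn e2 (norm_nonneg _) (by positivity)
    have e4 : ‖aeval q p‖ * ‖w n i - q i‖ ≤ ‖aeval q p‖ * ‖w n - q‖ :=
      mul_le_mul_of_nonneg_left e1 (norm_nonneg _)
    nlinarith [e3, e4]

/-- The value of a polynomial along a convergent sequence of points is bounded. -/
theorem stepA_bdd {l : Filter ℕ} {w : ℕ → Fin N → Ω} {q : Fin N → Ω}
    (hw : Tendsto w l (𝓝 q)) (p : MvPolynomial (Fin N) K) :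
    ∃ C : ℝ, 0 ≤ C ∧ ∀ᶠ n in l, ‖aeval (w n) p‖ ≤ C := by
  obtain ⟨C, hC, h⟩ := stepA_lip hw p
  have h1 : ∀ᶠ n in l, ‖w n - q‖ ≤ 1 := by
    have := (tendsto_iff_norm_sub_tendsto_zero.mp hw).eventually (Iio_mem_nhds one_pos)
    filter_upwards [this] with n hn using (Set.mem_Iio.mp hn).le
  refine ⟨‖aeval q p‖ + C, by positivity, ?_⟩
  filter_upwards [h, h1] with n hn hn1
  have : aeval (w n) p = aeval q p + (aeval (w n) p - aeval q p) := by ring
  rw [this]
  refine (norm_add_le _ _).trans ?_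
  have : C * ‖w n - q‖ ≤ C * 1 := mul_le_mul_of_nonneg_left hn1 hC
  linarith

/-- The value of a polynomial is continuous. -/
theorem stepA_tendsto {l : Filter ℕ} {w : ℕ → Fin N → Ω} {q : Fin N → Ω}
    (hw : Tendsto w l (𝓝 q)) (p : MvPolynomial (Fin N) K) :
    Tendsto (fun n => aeval (w n) p) l (𝓝 (aeval q p)) := by
  obtain ⟨C, hC, h⟩ := stepA_lip hw p
  rw [tendsto_iff_norm_sub_tendsto_zero]
  refine squeeze_zero' (Eventually.of_forall fun n => norm_nonneg _) h ?_
  have := (tendsto_iff_norm_sub_tendsto_zero.mp hw).const_mul C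
  simpa using this

/-- The evaluation homomorphism. -/
noncomputable def stepA_ev (Ω : Type) [NormedField Ω] [Algebra K Ω] (w : Fin N → Ω) :
    MvPolynomial (Fin N) K →+* Ω :=
  ((aeval w : MvPolynomial (Fin N) K →ₐ[K] Ω) : MvPolynomial (Fin N) K →+* Ω)

theorem stepA_ev_apply (w : Fin N → Ω) (p : MvPolynomial (Fin N) K) :
    stepA_ev Ω w p = aeval w p := rfl

/-- Roots of monic polynomials with bounded coefficients are bounded. -/
theorem stepA_root_bdd {l : Filter ℕ} {w : ℕ → Fin N → Ω} {q : Fin N → Ω}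
    (hw : Tendsto w l (𝓝 q)) {R : Polynomial (MvPolynomial (Fin N) K)} (hR : R.Monic)
    {x : ℕ → Ω} (hx : ∀ᶠ n in l, (R.map (stepA_ev Ω (w n))).eval (x n) = 0) :
    ∃ B : ℝ, 0 ≤ B ∧ ∀ᶠ n in l, ‖x n‖ ≤ B := by
  choose C hC h using fun j => stepA_bdd hw (R.coeff j)
  have h' : ∀ᶠ n in l, ∀ j ∈ Finset.range R.natDegree, ‖aeval (w n) (R.coeff j)‖ ≤ C j := by
    rw [Filter.eventually_all_finset]
    exact fun j _ => h j
  refine ⟨(∑ j ∈ Finset.range R.natDegree, C j) + 1,
    add_nonneg (Finset.sum_nonneg fun j _ => hC j) zero_le_one, ?_⟩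
  filter_upwards [hx, h'] with n hn hn'
  have hm : (R.map (stepA_ev Ω (w n))).Monic := hR.map _
  have h1 := Polynomial.IsRoot.norm_lt_cauchyBound hm.ne_zero (a := x n) hn
  have h2 : ((R.map (stepA_ev Ω (w n))).cauchyBound : ℝ) ≤
      (∑ j ∈ Finset.range R.natDegree, C j) + 1 := by
    have h3 : (Finset.range (R.map (stepA_ev Ω (w n))).natDegree).sup
        (‖(R.map (stepA_ev Ω (w n))).coeff ·‖₊) ≤
        Real.toNNReal (∑ j ∈ Finset.range R.natDegree, C j) := by
      refine Finset.sup_le fun j hj => ?_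
      rw [hR.natDegree_map] at hj
      rw [← NNReal.coe_le_coe, Real.coe_toNNReal _ (Finset.sum_nonneg fun j _ => hC j),
        coe_nnnorm, Polynomial.coeff_map, stepA_ev_apply]
      exact (hn' j hj).trans (Finset.single_le_sum (fun j _ => hC j) hj)
    unfold Polynomial.cauchyBound
    rw [hm.leadingCoeff, nnnorm_one, div_one, NNReal.coe_add, NNReal.coe_one]
    have h4 := NNReal.coe_le_coe.mpr h3
    rw [Real.coe_toNNReal _ (Finset.sum_nonneg fun j _ => hC j)] at h4
    linarith
  have h5 : ‖x n‖ < ((R.map (stepA_ev Ω (w n))).cauchyBound : ℝ) := by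
    have := NNReal.coe_lt_coe.mpr h1
    rwa [coe_nnnorm] at this
  linarith

/-- Lipschitz estimate for the values of a polynomial with polynomial coefficients. -/
theorem stepA_lipP {l : Filter ℕ} {w : ℕ → Fin N → Ω} {q : Fin N → Ω}
    (hw : Tendsto w l (𝓝 q)) {x : ℕ → Ω} {B : ℝ} (hB : 0 ≤ B) (hx : ∀ᶠ n in l, ‖x n‖ ≤ B)
    (R : Polynomial (MvPolynomial (Fin N) K)) :
    ∃ C : ℝ, 0 ≤ C ∧ ∀ᶠ n in l, ‖(R.map (stepA_ev Ω (w n))).eval (x n) -
      (R.map (stepA_ev Ω q)).eval (x n)‖ ≤ C * ‖w n - q‖ := by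
  induction R using Polynomial.induction_on' with
  | add p p' hp hp' =>
    obtain ⟨C, hC, h⟩ := hp
    obtain ⟨C', hC', h'⟩ := hp'
    refine ⟨C + C', by positivity, ?_⟩
    filter_upwards [h, h'] with n hn hn'
    rw [Polynomial.map_add, Polynomial.map_add, Polynomial.eval_add, Polynomial.eval_add,
      add_sub_add_comm, add_mul]
    exact (norm_add_le _ _).trans (add_le_add hn hn')
  | monomial j a =>
    obtain ⟨C, hC, h⟩ := stepA_lip hw a
    refine ⟨C * B ^ j, by positivity, ?_⟩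
    filter_upwards [h, hx] with n hn hxn
    rw [Polynomial.map_monomial, Polynomial.map_monomial, Polynomial.eval_monomial,
      Polynomial.eval_monomial, ← sub_mul, norm_mul, norm_pow, stepA_ev_apply, stepA_ev_apply]
    calc _ ≤ (C * ‖w n - q‖) * B ^ j :=
          mul_le_mul hn (pow_le_pow_left₀ (norm_nonneg _) hxn j) (by positivity) (by positivity)
      _ = _ := by ring

/-- The nearest root. -/
theorem stepA_near [IsAlgClosed Ω] {r : Polynomial Ω} (hr : r.Monic) (hd : 0 < r.natDegree)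
    (x : Ω) : ∃ ρ ∈ {ρ : Ω | r.IsRoot ρ}, ‖x - ρ‖ ^ r.natDegree ≤ ‖r.eval x‖ := by
  classical
  have hs : r.Splits := IsAlgClosed.splits r
  have hcard : Multiset.card r.roots = r.natDegree := hs.natDegree_eq_card_roots.symm
  have hprod : r = (r.roots.map fun a => Polynomial.X - Polynomial.C a).prod :=
    hs.eq_prod_roots_of_monic hr
  have hne : r.roots.toFinset.Nonempty := by
    rw [Multiset.toFinset_nonempty]
    intro h0
    rw [h0, Multiset.card_zero] at hcard
    omega
  obtain ⟨ρ, hρ, hmin⟩ := Finset.exists_min_image r.roots.toFinset (fun ρ => ‖x - ρ‖) hne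
  rw [Multiset.mem_toFinset] at hρ
  refine ⟨ρ, (Polynomial.mem_roots hr.ne_zero).mp hρ, ?_⟩
  have e : ‖r.eval x‖ = (r.roots.map fun a => ‖x - a‖).prod := by
    conv_lhs => rw [hprod]
    rw [Polynomial.eval_multiset_prod, Multiset.map_map, ← normHom_apply, map_multiset_prod,
      Multiset.map_map]
    simp
  rw [e, ← hcard]
  have e2 : ‖x - ρ‖ ^ Multiset.card r.roots = (r.roots.map fun _ => ‖x - ρ‖).prod := by
    simp
  rw [e2]
  refine Multiset.prod_map_le_prod_map₀ _ _ (fun a _ => norm_nonneg _) fun a ha => ?_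
  exact hmin a (Multiset.mem_toFinset.mpr ha)

/-- The relation between a point and its image. -/
theorem stepA_rel {F : Fin N → MvPolynomial (Fin N) K} {i : Fin N}
    {R : Polynomial (MvPolynomial (Fin N) K)}
    (hR : (R.map ((bind₁ F : MvPolynomial (Fin N) K →ₐ[K] MvPolynomial (Fin N) K) :
      MvPolynomial (Fin N) K →+* MvPolynomial (Fin N) K)).eval (X i) = 0) (u : Fin N → Ω) :
    (R.map (stepA_ev Ω (step F u))).eval (u i) = 0 := by
  have h := congrArg (stepA_ev Ω u) hR
  rw [map_zero, Polynomial.eval_map, Polynomial.hom_eval₂] at h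
  rw [Polynomial.eval_map]
  have e1 : (stepA_ev Ω u) (X i : MvPolynomial (Fin N) K) = u i := by
    rw [stepA_ev_apply, aeval_X]
  have e2 : (stepA_ev Ω u).comp ((bind₁ F : MvPolynomial (Fin N) K →ₐ[K]
      MvPolynomial (Fin N) K) : MvPolynomial (Fin N) K →+* MvPolynomial (Fin N) K) =
      stepA_ev Ω (step F u) := by
    refine RingHom.ext fun p => ?_
    change aeval u (bind₁ F p) = aeval (step F u) p
    rw [aeval_bind₁]
    rfl
  rw [e1, e2] at h
  exact h

/-- Algebraicity of the roots. -/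
theorem stepA_alg {R : Polynomial (MvPolynomial (Fin N) K)} (hR : R.Monic) {q : Fin N → Ω}
    (hq : ∀ i, IsAlgebraic K (q i)) {ρ : Ω} (hρ : (R.map (stepA_ev Ω q)).IsRoot ρ) :
    IsAlgebraic K ρ := by
  have hq' : ∀ i, q i ∈ integralClosure K Ω := fun i =>
    (isAlgebraic_iff_isIntegral.mp (hq i))
  let q0 : Fin N → integralClosure K Ω := fun i => ⟨q i, hq' i⟩
  have hint : IsIntegral (integralClosure K Ω) ρ := by
    refine ⟨R.map ((aeval q0 : MvPolynomial (Fin N) K →ₐ[K] integralClosure K Ω) :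
      MvPolynomial (Fin N) K →+* integralClosure K Ω), hR.map _, ?_⟩
    rw [Polynomial.eval₂_map]
    rw [Polynomial.IsRoot.def, Polynomial.eval_map] at hρ
    have e : (algebraMap (integralClosure K Ω) Ω).comp
        ((aeval q0 : MvPolynomial (Fin N) K →ₐ[K] integralClosure K Ω) :
        MvPolynomial (Fin N) K →+* integralClosure K Ω) = stepA_ev Ω q := by
      refine RingHom.ext fun p => ?_
      change algebraMap (integralClosure K Ω) Ω (aeval q0 p) = aeval q p
      rw [← MvPolynomial.aeval_algebraMap_apply]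
      rfl
    rw [e]
    exact hρ
  exact isAlgebraic_iff_isIntegral.mpr (isIntegral_trans ρ hint)

end aux

variable {K Ω : Type} [Field K] [NormedField Ω] [IsAlgClosed Ω] [Algebra K Ω] {N : ℕ}

/-- If the images `F(u n)` tend to `q` with rate `κ`, then `u n` tends to a preimage `q'` of `q`
with rate `κ / t`, where `t` depends only on `F`. -/
theorem exists_pre {F : Fin N → MvPolynomial (Fin N) K} {t : ℕ} (ht : 1 ≤ t) (hint : IntBy F t)
    {𝒰 : Ultrafilter ℕ} {s : ℕ → ℝ} (hs : Tendsto s (𝒰 : Filter ℕ) atTop) {u : ℕ → Fin N → Ω}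
    {q : Fin N → Ω} {κ : ℝ} (hκ : 0 < κ) (h : App 𝒰 s (fun n => step F (u n)) q κ) :
    ∃ q' : Fin N → Ω, step F q' = q ∧
      ((∀ i, IsAlgebraic K (q i)) → ∀ i, IsAlgebraic K (q' i)) ∧ App 𝒰 s u q' (κ / t) := by
  obtain ⟨C, hC⟩ := h
  have hexp : Tendsto (fun n => C * Real.exp (-κ * s n)) (𝒰 : Filter ℕ) (𝓝 0) := by
    have h1 : Tendsto (fun n => -κ * s n) (𝒰 : Filter ℕ) atBot :=
      hs.const_mul_atTop_of_neg (by linarith)
    have h2 := (Real.tendsto_exp_atBot.comp h1).const_mul C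
    simpa using h2
  have hw : Tendsto (fun n => step F (u n)) (𝒰 : Filter ℕ) (𝓝 q) := by
    rw [tendsto_iff_norm_sub_tendsto_zero]
    exact squeeze_zero' (Eventually.of_forall fun n => norm_nonneg _) hC hexp
  have hC0 : ∀ᶠ n in (𝒰 : Filter ℕ), ‖step F (u n) - q‖ ≤ (|C|) * Real.exp (-κ * s n) := by
    filter_upwards [hC] with n hn
    exact hn.trans (mul_le_mul_of_nonneg_right (le_abs_self C) (Real.exp_pos _).le)
  choose R hRm hRd hR using hint
  have hroot : ∀ i n, ((R i).map (stepA_ev Ω (step F (u n)))).eval (u n i) = 0 :=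
    fun i n => stepA_rel (hR i) (u n)
  have key : ∀ i, ∃ ρ : Ω, ((R i).map (stepA_ev Ω q)).IsRoot ρ ∧ ∃ M : ℝ, 0 ≤ M ∧
      ∀ᶠ n in (𝒰 : Filter ℕ), ‖u n i - ρ‖ ≤ M * Real.exp (-(κ / t) * s n) := by
    intro i
    obtain ⟨B, hB, hxB⟩ := stepA_root_bdd hw (hRm i) (x := fun n => u n i)
      (Eventually.of_forall fun n => hroot i n)
    obtain ⟨A, hA, hlip⟩ := stepA_lipP hw hB hxB (R i)
    set r : Polynomial Ω := (R i).map (stepA_ev Ω q) with hr
    have hrm : r.Monic := (hRm i).map _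
    have hdeg : r.natDegree = (R i).natDegree := (hRm i).natDegree_map _
    have hdpos : 0 < r.natDegree := by
      rw [hdeg]
      by_contra h0
      have h1 : (R i).natDegree = 0 := by omega
      have h2 : R i = 1 := (hRm i).natDegree_eq_zero.mp h1
      have h3 := hR i
      rw [h2, Polynomial.map_one, Polynomial.eval_one] at h3
      exact one_ne_zero h3
    have hdt : r.natDegree ≤ t := hdeg.trans_le (hRd i)
    set M : ℝ := max (A * |C|) 1 with hM
    have hM1 : 1 ≤ M := le_max_right _ _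
    have hev : ∀ᶠ n in (𝒰 : Filter ℕ), ∃ ρ ∈ {ρ : Ω | r.IsRoot ρ},
        ‖u n i - ρ‖ ≤ M * Real.exp (-(κ / t) * s n) := by
      filter_upwards [hlip, hC0, hs.eventually_ge_atTop 0] with n hn hcn hsn
      obtain ⟨ρ, hρ, hle⟩ := stepA_near hrm hdpos (u n i)
      refine ⟨ρ, hρ, ?_⟩
      by_contra hlt
      push Not at hlt
      have h1 : ‖r.eval (u n i)‖ ≤ M * Real.exp (-κ * s n) := by
        have h2 : ‖r.eval (u n i)‖ ≤ A * ‖step F (u n) - q‖ := by
          have h3 := hn
          simp only [hroot i n, zero_sub, norm_neg] at h3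
          exact h3
        refine h2.trans ((mul_le_mul_of_nonneg_left hcn hA).trans ?_)
        rw [← mul_assoc]
        exact mul_le_mul_of_nonneg_right (le_max_left _ _) (Real.exp_pos _).le
      have h4 : (M * Real.exp (-(κ / t) * s n)) ^ r.natDegree < ‖u n i - ρ‖ ^ r.natDegree :=
        pow_lt_pow_left₀ hlt (by positivity) hdpos.ne'
      have h5 : M * Real.exp (-κ * s n) ≤ (M * Real.exp (-(κ / t) * s n)) ^ r.natDegree := by
        rw [mul_pow, ← Real.exp_nat_mul]
        refine mul_le_mul (le_self_pow₀ hM1 hdpos.ne') (Real.exp_le_exp.mpr ?_)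
          (Real.exp_pos _).le (by positivity)
        have ht0 : (0 : ℝ) < t := by exact_mod_cast ht
        have hdt' : (r.natDegree : ℝ) ≤ t := by exact_mod_cast hdt
        have h6 : (r.natDegree : ℝ) * (κ / t) ≤ κ := by
          rw [mul_div_assoc', div_le_iff₀ ht0]
          nlinarith
        nlinarith [mul_le_mul_of_nonneg_right h6 hsn]
      exact absurd (hle.trans h1) (not_le.mpr (h5.trans_lt h4))
    obtain ⟨ρ, hρ, hρ2⟩ := (Ultrafilter.eventually_exists_mem_iff
      (Polynomial.finite_setOfPred_isRoot hrm.ne_zero)).mp hev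
    exact ⟨ρ, hρ, M, by positivity, hρ2⟩
  choose ρ hρ M hM0 hM using key
  have happ : App 𝒰 s u ρ (κ / t) := by
    refine ⟨∑ i, M i, ?_⟩
    have h1 : ∀ᶠ n in (𝒰 : Filter ℕ), ∀ i, ‖u n i - ρ i‖ ≤ M i * Real.exp (-(κ / t) * s n) := by
      rw [Filter.eventually_all]
      exact hM
    filter_upwards [h1] with n hn
    have hS : 0 ≤ ∑ i, M i := Finset.sum_nonneg fun i _ => hM0 i
    rw [pi_norm_le_iff_of_nonneg (by positivity)]
    intro i
    refine (hn i).trans (mul_le_mul_of_nonneg_right ?_ (Real.exp_pos _).le)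
    exact Finset.single_le_sum (fun i _ => hM0 i) (Finset.mem_univ i)
  refine ⟨ρ, ?_, fun hq i => stepA_alg (hRm i) hq (hρ i), happ⟩
  have hu : Tendsto u (𝒰 : Filter ℕ) (𝓝 ρ) := by
    obtain ⟨C', hC'⟩ := happ
    rw [tendsto_iff_norm_sub_tendsto_zero]
    refine squeeze_zero' (Eventually.of_forall fun n => norm_nonneg _) hC' ?_
    have ht0 : (0 : ℝ) < t := by exact_mod_cast ht
    have h1 : Tendsto (fun n => -(κ / t) * s n) (𝒰 : Filter ℕ) atBot :=
      hs.const_mul_atTop_of_neg (by have := div_pos hκ ht0; linarith)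
    have h2 := (Real.tendsto_exp_atBot.comp h1).const_mul C'
    simpa using h2
  funext i
  have h1 : Tendsto (fun n => step F (u n) i) (𝒰 : Filter ℕ) (𝓝 (step F ρ i)) :=
    stepA_tendsto hu (F i)
  have h2 : Tendsto (fun n => step F (u n) i) (𝒰 : Filter ℕ) (𝓝 (q i)) :=
    (tendsto_pi_nhds.mp hw) i
  exact tendsto_nhds_unique h1 h2

end Pool.Agent.Helper65.TB

end

section

namespace Pool.Agent.Helper36
end Pool.Agent.Helper36

/-!
# Project TB: the backward orbit of limits
-/

set_option autoImplicit false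

namespace Pool.Agent.Helper65.TB

open MvPolynomial Filter Topology

open Pool.Agent.Helper36 (step iter)

variable {K Ω : Type} [Field K] [NormedField Ω] [IsAlgClosed Ω] [Algebra K Ω] {N : ℕ}

open scoped Classical in
/-- The number of critical points among `q 1, ..., q m`. -/
noncomputable def crit (F : Fin N → MvPolynomial (Fin N) K) (q : ℕ → Fin N → Ω) (m : ℕ) : ℕ :=
  ((Finset.Icc 1 m).filter fun j => aeval (q j) (jd F) = 0).card

omit [IsAlgClosed Ω] in
theorem Chain_crit_zero (F : Fin N → MvPolynomial (Fin N) K) (q : ℕ → Fin N → Ω) :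
    crit F q 0 = 0 := by
  classical
  unfold crit
  simp

omit [IsAlgClosed Ω] in
open scoped Classical in
theorem Chain_crit_succ (F : Fin N → MvPolynomial (Fin N) K) (q : ℕ → Fin N → Ω) (m : ℕ) :
    crit F q (m + 1) = crit F q m + if aeval (q (m + 1)) (jd F) = 0 then 1 else 0 := by
  unfold crit
  have h1 : Finset.Icc 1 (m + 1) = insert (m + 1) (Finset.Icc 1 m) := by
    ext j
    simp only [Finset.mem_insert, Finset.mem_Icc]
    omega
  have h2 : m + 1 ∉ Finset.Icc 1 m := by
    simp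
  rw [h1, Finset.filter_insert]
  split_ifs with h
  · rw [Finset.card_insert_of_notMem]
    exact fun h3 => h2 (Finset.mem_filter.1 h3).1
  · rfl

omit [IsAlgClosed Ω] in
theorem Chain_step_smul {F : Fin N → MvPolynomial (Fin N) K} {d : ℕ}
    (hF : ∀ i, (F i).IsHomogeneous d) (c : Ω) (x : Fin N → K) :
    step F (c • vec Ω x) = c ^ d • vec Ω (step F x) := by
  funext i
  have h1 : aeval (c • vec Ω x) (F i) = c ^ d * aeval (vec Ω x) (F i) :=
    Pool.Agent.Helper36.aeval_smul_homogeneous (hF i) c _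
  have h2 : aeval (vec Ω x) (F i) = algebraMap K Ω (aeval x (F i)) := by
    have := aeval_algebraMap_apply (A := K) Ω x (F i)
    exact this
  change aeval (c • vec Ω x) (F i) = c ^ d * algebraMap K Ω (aeval x (F i))
  rw [h1, h2]

/-- One step of the construction. -/
theorem Chain_next {F : Fin N → MvPolynomial (Fin N) K} {d t : ℕ} (hd : 1 ≤ d)
    (hF : ∀ i, (F i).IsHomogeneous d) (ht : 1 ≤ t) (hint : IntBy F t) {𝒰 : Ultrafilter ℕ}
    (h𝒰 : (𝒰 : Filter ℕ) ≤ atTop) {s : ℕ → ℝ} (hs : Tendsto s (𝒰 : Filter ℕ) atTop)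
    (x : Fin N → K) (m : ℕ) {c : ℕ → Ω} {q : Fin N → Ω} (hq : ∀ i, IsAlgebraic K (q i)) {κ : ℝ}
    (hκ : 0 < κ) (h : App 𝒰 s (fun n => c n • vec Ω (iter F x (n - m))) q κ) :
    ∃ (q' : Fin N → Ω) (c' : ℕ → Ω), step F q' = q ∧ (∀ i, IsAlgebraic K (q' i)) ∧
      App 𝒰 s (fun n => c' n • vec Ω (iter F x (n - (m + 1)))) q' (κ / t) ∧
      (aeval q' (jd F) ≠ 0 → App 𝒰 s (fun n => c' n • vec Ω (iter F x (n - (m + 1)))) q' κ) := by
  have hroot : ∀ n, ∃ z : Ω, z ^ d = c n := fun n =>
    IsAlgClosed.exists_pow_nat_eq (c n) (by omega)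
  choose c' hc' using hroot
  have happ : App 𝒰 s (fun n => step F (c' n • vec Ω (iter F x (n - (m + 1))))) q κ := by
    obtain ⟨C, hC⟩ := h
    refine ⟨C, ?_⟩
    filter_upwards [hC, h𝒰 (eventually_ge_atTop (m + 1))] with n hn hn1
    have h1 : iter F x (n - m) = step F (iter F x (n - (m + 1))) := by
      rw [← Pool.Agent.Helper36.iter_succ, show n - (m + 1) + 1 = n - m by
        have : m + 1 ≤ n := hn1
        omega]
    rw [h1] at hn
    rw [Chain_step_smul hF, hc']
    exact hn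
  obtain ⟨q', h1, h2, h3⟩ := exists_pre ht hint hs hκ happ
  refine ⟨q', c', h1, h2 hq, h3, fun hdet => ?_⟩
  have ht0 : (0 : ℝ) < t := by exact_mod_cast ht
  refine app_of_det hdet hs (div_pos hκ ht0) h3 ?_
  rw [h1]
  exact happ

theorem exists_chain {F : Fin N → MvPolynomial (Fin N) K} {d t : ℕ} (hd : 1 ≤ d)
    (hF : ∀ i, (F i).IsHomogeneous d) (ht : 1 ≤ t) (hint : IntBy F t) {𝒰 : Ultrafilter ℕ}
    (h𝒰 : (𝒰 : Filter ℕ) ≤ atTop) {s : ℕ → ℝ} (hs : Tendsto s (𝒰 : Filter ℕ) atTop)
    (x : Fin N → K) {c₀ : ℕ → Ω} {y : Fin N → Ω} (hy : ∀ i, IsAlgebraic K (y i)) {κ : ℝ}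
    (hκ : 0 < κ) (h : App 𝒰 s (fun n => c₀ n • vec Ω (iter F x n)) y κ) :
    ∃ (q : ℕ → Fin N → Ω) (c : ℕ → ℕ → Ω), q 0 = y ∧ (∀ m, step F (q (m + 1)) = q m) ∧
      (∀ m i, IsAlgebraic K (q m i)) ∧
      ∀ m, App 𝒰 s (fun n => c m n • vec Ω (iter F x (n - m))) (q m) (κ / t ^ crit F q m) := by
  classical
  have ht0 : (0 : ℝ) < t := by exact_mod_cast ht
  let P : ℕ → (Fin N → Ω) × (ℕ → Ω) × ℕ → Prop := fun m p =>
    (∀ i, IsAlgebraic K (p.1 i)) ∧
      App 𝒰 s (fun n => p.2.1 n • vec Ω (iter F x (n - m))) p.1 (κ / t ^ p.2.2)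
  have hstep : ∀ m p, P m p → ∃ p', P (m + 1) p' ∧ step F p'.1 = p.1 ∧
      p'.2.2 = p.2.2 + if aeval p'.1 (jd F) = 0 then 1 else 0 := by
    rintro m ⟨q, c, k⟩ ⟨hq, happ⟩
    obtain ⟨q', c', h1, h2, h3, h4⟩ := Chain_next hd hF ht hint h𝒰 hs x m hq
      (div_pos hκ (pow_pos ht0 k)) happ
    by_cases hdet : aeval q' (jd F) = 0
    · refine ⟨(q', c', k + 1), ⟨h2, ?_⟩, h1, ?_⟩
      · dsimp only
        rw [pow_succ, ← div_div]
        exact h3
      · dsimp only
        rw [if_pos hdet]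
    · refine ⟨(q', c', k), ⟨h2, h4 hdet⟩, h1, ?_⟩
      dsimp only
      rw [if_neg hdet, add_zero]
  choose! nx hnx using hstep
  let f : ℕ → (Fin N → Ω) × (ℕ → Ω) × ℕ := fun m => Nat.rec (y, c₀, 0) (fun m p => nx m p) m
  have hf0 : f 0 = (y, c₀, 0) := rfl
  have hfs : ∀ m, f (m + 1) = nx m (f m) := fun m => rfl
  have hP : ∀ m, P m (f m) := by
    intro m
    induction m with
    | zero =>
      refine ⟨hy, ?_⟩
      rw [hf0]
      dsimp only
      rw [pow_zero, div_one]
      exact h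
    | succ m ih =>
      rw [hfs]
      exact (hnx m _ ih).1
  have hk : ∀ m, (f m).2.2 = crit F (fun m => (f m).1) m := by
    intro m
    induction m with
    | zero => rw [Chain_crit_zero, hf0]
    | succ m ih =>
      rw [Chain_crit_succ, ← ih]
      rw [hfs]
      exact (hnx m _ (hP m)).2.2
  refine ⟨fun m => (f m).1, fun m => (f m).2.1, rfl, fun m => ?_, fun m => (hP m).1, fun m => ?_⟩
  · dsimp only
    rw [hfs]
    exact (hnx m _ (hP m)).2.1
  · rw [← hk]
    exact (hP m).2

end Pool.Agent.Helper65.TB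

end

section

/-!
# Project TB: sets of positive upper density
-/

set_option autoImplicit false

namespace Pool.Agent.Helper65.TB

theorem PosUD.mono {A B : Set ℕ} (h : A ⊆ B) (hA : PosUD A) : PosUD B := by
  classical
  obtain ⟨ε, hε, hA⟩ := hA
  refine ⟨ε, hε, fun M => ?_⟩
  obtain ⟨n, hn, hn0, hc⟩ := hA M
  refine ⟨n, hn, hn0, hc.trans ?_⟩
  have h1 : ((Finset.range n).filter (· ∈ A)).card ≤ ((Finset.range n).filter (· ∈ B)).card := by
    refine Finset.card_le_card fun l hl => ?_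
    rw [Finset.mem_filter] at hl ⊢
    exact ⟨hl.1, h hl.2⟩
  exact_mod_cast h1

/-- A set of positive upper density meets one of its translates in a set of positive upper
density. -/
theorem exists_shift {A : Set ℕ} (hA : PosUD A) :
    ∃ k, 1 ≤ k ∧ PosUD {l : ℕ | k ≤ l ∧ l ∈ A ∧ l - k ∈ A} := by
  classical
  by_contra hcon
  push Not at hcon
  obtain ⟨Ak, hAk⟩ : ∃ Ak : ℕ → Set ℕ, ∀ k, Ak k = {l : ℕ | k ≤ l ∧ l ∈ A ∧ l - k ∈ A} :=
    ⟨_, fun _ => rfl⟩
  simp only [← hAk] at hcon
  obtain ⟨ε, hε, hA⟩ := hA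
  obtain ⟨M', hM'⟩ := exists_nat_ge (2 / ε)
  set M₀ : ℕ := M' + 1 with hM₀
  have hM0 : 0 < M₀ := Nat.succ_pos _
  have hM0' : (0 : ℝ) < M₀ := by exact_mod_cast hM0
  have hM2 : 2 ≤ ε * M₀ := by
    have h1 : 2 / ε ≤ M₀ := by
      refine hM'.trans ?_
      rw [hM₀]
      push_cast
      linarith
    rw [div_le_iff₀ hε] at h1
    linarith
  set δ : ℝ := ε / (8 * M₀) with hδ
  have hδ0 : 0 < δ := by positivity
  have h1 : ∀ k, 1 ≤ k → ∃ M : ℕ, ∀ n, M ≤ n → 0 < n →
      (((Finset.range n).filter (· ∈ Ak k)).card : ℝ) < δ * n := by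
    intro k hk
    have h2 := hcon k hk
    by_contra h3
    push Not at h3
    exact h2 ⟨δ, hδ0, h3⟩
  choose! Mk hMk using h1
  obtain ⟨M₄, hM₄⟩ := exists_nat_ge (4 / ε)
  obtain ⟨n, hn, hn0, hcard⟩ := hA (max ((Finset.Icc 1 M₀).sup Mk) M₄)
  have hn0' : (0 : ℝ) < n := by exact_mod_cast hn0
  have hn4 : 4 ≤ ε * n := by
    have h2 : 4 / ε ≤ n := by
      refine hM₄.trans ?_
      exact_mod_cast (le_max_right _ _).trans hn
    rw [div_le_iff₀ hε] at h2
    linarith
  set S : Finset ℕ := (Finset.range n).filter (· ∈ A) with hS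
  set p : ℕ → Prop := fun l => ∃ k ∈ Finset.Icc 1 M₀, k ≤ l ∧ l - k ∈ A with hp
  have hsplit : (S.filter p).card + (S.filter fun l => ¬ p l).card = S.card :=
    Finset.card_filter_add_card_filter_not p
  -- the elements isolated to the left
  have hiso : (S.filter fun l => ¬ p l).card ≤ n / M₀ + 1 := by
    have h2 : (S.filter fun l => ¬ p l).card ≤ (Finset.range (n / M₀ + 1)).card := by
      refine Finset.card_le_card_of_injOn (fun l => l / M₀) ?_ ?_
      · intro l hl
        rw [Finset.mem_coe, Finset.mem_filter, hS, Finset.mem_filter, Finset.mem_range] at hl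
        rw [Finset.mem_coe, Finset.mem_range, Nat.lt_succ_iff]
        exact Nat.div_le_div_right hl.1.1.le
      · have key : ∀ l l' : ℕ, l ∈ S.filter (fun l => ¬ p l) → l' ∈ S.filter (fun l => ¬ p l) →
            l / M₀ = l' / M₀ → l < l' → False := by
          intro l l' hl hl' h3 h4
          rw [Finset.mem_filter, hS, Finset.mem_filter] at hl hl'
          refine hl'.2 ⟨l' - l, ?_, Nat.sub_le _ _, ?_⟩
          · rw [Finset.mem_Icc]
            refine ⟨by omega, ?_⟩
            have h5 := Nat.div_add_mod l M₀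
            have h6 := Nat.div_add_mod l' M₀
            have h7 := Nat.mod_lt l' hM0
            rw [h3] at h5
            omega
          · have h5 : l' - (l' - l) = l := by omega
            rw [h5]
            exact hl.1.2
        intro l hl l' hl' h3
        rcases lt_trichotomy l l' with h4 | h4 | h4
        · exact (key l l' hl hl' h3 h4).elim
        · exact h4
        · exact (key l' l hl' hl h3.symm h4).elim
    rwa [Finset.card_range] at h2
  -- the others
  have hoth : ((S.filter p).card : ℝ) ≤ M₀ * (δ * n) := by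
    have h2 : (S.filter p) ⊆ (Finset.Icc 1 M₀).biUnion fun k =>
        (Finset.range n).filter (· ∈ Ak k) := by
      intro l hl
      rw [Finset.mem_filter, hS, Finset.mem_filter] at hl
      obtain ⟨⟨hl1, hl2⟩, k, hk, hkl, hkA⟩ := hl
      rw [Finset.mem_biUnion]
      refine ⟨k, hk, Finset.mem_filter.2 ⟨hl1, ?_⟩⟩
      rw [hAk]
      exact ⟨hkl, hl2, hkA⟩
    have h3 := (Finset.card_le_card h2).trans Finset.card_biUnion_le
    have h4 : ((S.filter p).card : ℝ) ≤ ∑ k ∈ Finset.Icc 1 M₀,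
        (((Finset.range n).filter (· ∈ Ak k)).card : ℝ) := by
      exact_mod_cast h3
    have h5 : ∑ k ∈ Finset.Icc 1 M₀,
        (((Finset.range n).filter (· ∈ Ak k)).card : ℝ) ≤
        ∑ _k ∈ Finset.Icc 1 M₀, δ * n := by
      refine Finset.sum_le_sum fun k hk => (hMk k (Finset.mem_Icc.1 hk).1 n ?_ hn0).le
      exact (Finset.le_sup (f := Mk) hk).trans ((le_max_left _ _).trans hn)
    rw [Finset.sum_const, Nat.card_Icc, Nat.add_sub_cancel, nsmul_eq_mul] at h5
    exact h4.trans h5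
  have h8 : (M₀ : ℝ) * (δ * n) = ε * n / 8 := by
    rw [hδ]
    field_simp
  have h9 : ((n / M₀ : ℕ) : ℝ) ≤ ε * n / 2 := by
    refine Nat.cast_div_le.trans ?_
    rw [div_le_iff₀ hM0']
    nlinarith
  have h10 : (S.card : ℝ) = ((S.filter p).card : ℝ) + ((S.filter fun l => ¬ p l).card : ℝ) := by
    exact_mod_cast hsplit.symm
  have h11 : ((S.filter fun l => ¬ p l).card : ℝ) ≤ ((n / M₀ : ℕ) : ℝ) + 1 := by
    exact_mod_cast hiso
  rw [h8] at hoth
  linarith

end Pool.Agent.Helper65.TB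

end

section

namespace Pool.Agent.Helper36
end Pool.Agent.Helper36

/-!
# Project TB: backward orbits that meet a closed set with positive upper density
-/

set_option autoImplicit false

namespace Pool.Agent.Helper65.TB

open MvPolynomial Filter Topology

open Pool.Agent.Helper36 (step iter)

variable {K Ω : Type} [Field K] [NormedField Ω] [Algebra K Ω] {N : ℕ}

theorem PosUD.nonempty {A : Set ℕ} (hA : PosUD A) : A.Nonempty := by
  classical
  obtain ⟨ε, hε, hA⟩ := hA
  obtain ⟨n, -, hn0, hc⟩ := hA 0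
  have h1 : (0 : ℝ) < ε * n := mul_pos hε (by exact_mod_cast hn0)
  have h2 : (0 : ℝ) < ((Finset.range n).filter (· ∈ A)).card := lt_of_lt_of_le h1 hc
  have h3 : 0 < ((Finset.range n).filter (· ∈ A)).card := by exact_mod_cast h2
  obtain ⟨l, hl⟩ := Finset.card_pos.1 h3
  exact ⟨l, (Finset.mem_filter.1 hl).2⟩

private theorem iter_add' (F : Fin N → MvPolynomial (Fin N) K) (x : Fin N → Ω) (a b : ℕ) :
    iter F x (a + b) = iter F (iter F x b) a := by
  unfold Pool.Agent.Helper36.iter
  rw [Function.iterate_add_apply]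

private theorem aeval_bind_iter (F : Fin N → MvPolynomial (Fin N) K) (k : ℕ) :
    ∀ (x : Fin N → Ω) (g : MvPolynomial (Fin N) K),
      aeval x (((bind₁ F : MvPolynomial (Fin N) K →ₐ[K] MvPolynomial (Fin N) K) ^ k) g) =
        aeval (iter F x k) g := by
  induction k with
  | zero =>
    intro x g
    rw [pow_zero, Pool.Agent.Helper36.iter_zero]
    rfl
  | succ k ih =>
    intro x g
    rw [pow_succ', AlgHom.mul_apply, aeval_bind₁, Pool.Agent.Helper36.iter_succ']
    exact ih _ g

/-- If a backward orbit lies on `J = 0` with positive upper density, then the forward orbit of its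
first point returns to `J = 0` infinitely often. -/
theorem exists_later (F : Fin N → MvPolynomial (Fin N) K) (q : ℕ → Fin N → Ω)
    (hq : ∀ m, step F (q (m + 1)) = q m) (J : MvPolynomial (Fin N) K)
    (hJ : PosUD {j | aeval (q j) J = 0}) (n₀ : ℕ) :
    ∃ n, n₀ ≤ n ∧ aeval (iter F (q 0) n) J = 0 := by
  classical
  set S : Set (Ideal (MvPolynomial (Fin N) K)) :=
    {I | J ∈ I ∧ PosUD {j | ∀ g ∈ I, aeval (q j) g = 0}} with hS
  have hne : S.Nonempty := by
    refine ⟨Ideal.span {J}, Ideal.subset_span rfl, hJ.mono ?_⟩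
    intro j hj g hg
    obtain ⟨c, rfl⟩ := Ideal.mem_span_singleton'.1 hg
    rw [map_mul, show aeval (q j) J = 0 from hj, mul_zero]
  obtain ⟨I, hIS, hImax⟩ := (wellFounded_gt :
    WellFounded (fun a b : Ideal (MvPolynomial (Fin N) K) => a > b)).has_min S hne
  have hmax : ∀ I' ∈ S, I ≤ I' → I' ≤ I := by
    intro I' h1 h2
    by_contra h3
    exact hImax I' h1 (lt_of_le_not_ge h2 h3)
  clear hImax
  obtain ⟨hJI, hIP⟩ := hIS
  obtain ⟨k, hk, hkP⟩ := exists_shift hIP
  have hback : ∀ k l : ℕ, k ≤ l → iter F (q l) k = q (l - k) := by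
    intro k
    induction k with
    | zero => intro l _; rfl
    | succ k ih =>
      intro l hl
      rw [Pool.Agent.Helper36.iter_succ, ih l (by omega)]
      have h1 : l - k = (l - (k + 1)) + 1 := by omega
      rw [h1]
      exact hq _
  set φ : MvPolynomial (Fin N) K →ₐ[K] MvPolynomial (Fin N) K :=
    (bind₁ F : MvPolynomial (Fin N) K →ₐ[K] MvPolynomial (Fin N) K) ^ k with hφ
  have hI2 : I ⊔ Ideal.map (φ : MvPolynomial (Fin N) K →+* MvPolynomial (Fin N) K) I ∈ S := by
    refine ⟨(le_sup_left : I ≤ _) hJI, hkP.mono ?_⟩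
    rintro l ⟨hkl, hl1, hl2⟩
    have h1 : I ⊔ Ideal.map (φ : MvPolynomial (Fin N) K →+* MvPolynomial (Fin N) K) I ≤
        RingHom.ker ((aeval (q l) : MvPolynomial (Fin N) K →ₐ[K] Ω) :
          MvPolynomial (Fin N) K →+* Ω) := by
      refine sup_le (fun g hg => ?_) ?_
      · exact hl1 g hg
      · rw [Ideal.map_le_iff_le_comap]
        intro g hg
        rw [Ideal.mem_comap, RingHom.mem_ker]
        have h2 := aeval_bind_iter F k (q l) g
        rw [hback k l hkl, hl2 g hg] at h2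
        exact h2
    intro g hg
    exact h1 hg
  have hle : Ideal.map (φ : MvPolynomial (Fin N) K →+* MvPolynomial (Fin N) K) I ≤ I :=
    le_sup_right.trans (hmax _ hI2 le_sup_left)
  have hstab : ∀ x : Fin N → Ω, (∀ g ∈ I, aeval x g = 0) → ∀ g ∈ I, aeval (iter F x k) g = 0 := by
    intro x hx g hg
    rw [← aeval_bind_iter F k x g]
    exact hx _ (hle (Ideal.mem_map_of_mem _ hg))
  obtain ⟨j, hj⟩ := hIP.nonempty
  have hmul : ∀ i : ℕ, ∀ g ∈ I, aeval (iter F (q j) (i * k)) g = 0 := by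
    intro i
    induction i with
    | zero => rw [Nat.zero_mul]; exact hj
    | succ i ih =>
      rw [Nat.succ_mul, Nat.add_comm, iter_add']
      exact hstab _ ih
  have hbig : n₀ + j ≤ (n₀ + j) * k := Nat.le_mul_of_pos_right _ hk
  refine ⟨(n₀ + j) * k - j, by omega, ?_⟩
  have h1 := hmul (n₀ + j) J hJI
  have h2 : (n₀ + j) * k = ((n₀ + j) * k - j) + j := by omega
  rw [h2, iter_add', hback j j le_rfl, Nat.sub_self] at h1
  exact h1

end Pool.Agent.Helper65.TB

end

section

namespace Pool.Agent.Helper65.RP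
end Pool.Agent.Helper65.RP

/-!
# Project TB: a weak form of Roth's theorem, with an exponent independent of the algebraic number
-/

set_option autoImplicit false

namespace Pool.Agent.Helper65.TB

open Pool.Agent.Helper65.RP

variable {K Ω : Type} [Field K] [NormedField Ω] [Algebra K Ω] {Λ : Type} [Fintype Λ]

/-- Two vectors of a proper subspace of the plane are proportional. -/
theorem roth_prop (W : Submodule K (Fin 2 → K)) (hW : W ≠ ⊤) {y z : Fin 2 → K} (hy : y ∈ W)
    (hz : z ∈ W) : y 1 * z 0 = z 1 * y 0 := by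
  by_contra hne
  apply hW
  rw [eq_top_iff]
  rintro x -
  have hD : y 1 * z 0 - z 1 * y 0 ≠ 0 := sub_ne_zero.2 hne
  have : x = ((x 1 * z 0 - x 0 * z 1) / (y 1 * z 0 - z 1 * y 0)) • y +
      ((x 0 * y 1 - x 1 * y 0) / (y 1 * z 0 - z 1 * y 0)) • z := by
    funext i
    fin_cases i
    · simp only [Fin.zero_eta, Pi.add_apply, Pi.smul_apply, smul_eq_mul]
      rw [div_mul_eq_mul_div, div_mul_eq_mul_div, ← add_div, eq_div_iff hD]
      ring
    · simp only [Fin.mk_one, Pi.add_apply, Pi.smul_apply, smul_eq_mul]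
      rw [div_mul_eq_mul_div, div_mul_eq_mul_div, ← add_div, eq_div_iff hD]
      ring
  rw [this]
  exact W.add_mem (W.smul_mem _ hy) (W.smul_mem _ hz)

theorem roth_line (α : Ω) (W : Submodule K (Fin 2 → K)) (hW : W ≠ ⊤) : ∃ C : ℝ, 0 ≤ C ∧
    ∀ y ∈ W, y 0 ≠ 0 → algebraMap K Ω (y 1) ≠ α * algebraMap K Ω (y 0) →
      Real.exp (-C) * ‖algebraMap K Ω (y 0)‖ ≤
        ‖algebraMap K Ω (y 1) - α * algebraMap K Ω (y 0)‖ := by
  by_cases h : ∃ z ∈ W, z 0 ≠ 0 ∧ algebraMap K Ω (z 1) ≠ α * algebraMap K Ω (z 0)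
  · obtain ⟨z, hz, hz0, hz1⟩ := h
    have hp1 : 0 < ‖algebraMap K Ω (z 1) - α * algebraMap K Ω (z 0)‖ :=
      norm_pos_iff.2 (sub_ne_zero.2 hz1)
    have hp0 : 0 < ‖algebraMap K Ω (z 0)‖ := norm_pos_iff.2 (by simpa using hz0)
    set r : ℝ := ‖algebraMap K Ω (z 1) - α * algebraMap K Ω (z 0)‖ / ‖algebraMap K Ω (z 0)‖
      with hr
    have hr0 : 0 < r := div_pos hp1 hp0
    refine ⟨max 0 (-Real.log r), le_max_left _ _, fun y hy _ _ => ?_⟩
    have h1 : y 1 * z 0 = z 1 * y 0 := roth_prop W hW hy hz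
    have h2 : ‖algebraMap K Ω (y 1) - α * algebraMap K Ω (y 0)‖ * ‖algebraMap K Ω (z 0)‖ =
        ‖algebraMap K Ω (y 0)‖ * ‖algebraMap K Ω (z 1) - α * algebraMap K Ω (z 0)‖ := by
      rw [← norm_mul, ← norm_mul]
      congr 1
      have h3 := congrArg (algebraMap K Ω) h1
      rw [map_mul, map_mul] at h3
      linear_combination h3
    have h4 : ‖algebraMap K Ω (y 1) - α * algebraMap K Ω (y 0)‖ = r * ‖algebraMap K Ω (y 0)‖ := by
      rw [hr, div_mul_eq_mul_div, eq_div_iff hp0.ne', h2]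
      ring
    rw [h4]
    refine mul_le_mul_of_nonneg_right ?_ (norm_nonneg _)
    calc Real.exp (-max 0 (-Real.log r)) ≤ Real.exp (Real.log r) := by
          apply Real.exp_le_exp.2
          linarith [le_max_right 0 (-Real.log r)]
      _ = r := Real.exp_log hr0
  · refine ⟨0, le_rfl, fun y hy h0 h1 => ?_⟩
    exact absurd ⟨y, hy, h0, h1⟩ h

theorem roth (Z : PD K Ω Λ) : ∃ A : ℝ, 0 < A ∧ ∀ α : Ω, IsAlgebraic K α → ∃ C : ℝ,
    ∀ (a b : K) (H : ℝ), a ∈ Z.O → b ∈ Z.O → b ≠ 0 → 0 ≤ H →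
      ‖algebraMap K Ω a‖ ≤ Real.exp H → ‖algebraMap K Ω b‖ ≤ Real.exp H →
      (∀ l, Z.abv l a ≤ Real.exp H) → (∀ l, Z.abv l b ≤ Real.exp H) →
      algebraMap K Ω a ≠ α * algebraMap K Ω b →
      Real.exp (-(A * H) - C) ≤ ‖algebraMap K Ω a - α * algebraMap K Ω b‖ := by
  classical
  set L : ℝ := (Fintype.card Λ : ℝ) with hL
  have hL0 : 0 ≤ L := Nat.cast_nonneg _
  have hn1 : (1 : ℝ) ≤ (Z.n : ℝ) := by exact_mod_cast Z.hn
  refine ⟨2 * L + 2, by positivity, fun α hα => ?_⟩
  obtain ⟨𝒲, hW, hsub⟩ := Z.sub 2 !![1, 0; -α, 1] le_rfl (by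
    intro i j
    fin_cases i <;> fin_cases j
    · simpa using isAlgebraic_one
    · simpa using isAlgebraic_zero
    · simpa using hα.neg
    · simpa using isAlgebraic_one) (by simp [Matrix.det_fin_two]) 1 (2 * L + 2) one_pos
  choose! C hC0 hC using fun (W : Submodule K (Fin 2 → K)) (hWm : W ∈ 𝒲) =>
    roth_line α W (hW W hWm)
  refine ⟨∑ W ∈ 𝒲, C W, fun a b H ha hb hb0 hH h1 h2 h3 h4 h5 => ?_⟩
  have hCs : 0 ≤ ∑ W ∈ 𝒲, C W := Finset.sum_nonneg hC0
  by_cases hsm : ‖algebraMap K Ω a - α * algebraMap K Ω b‖ ≤ Real.exp (-((2 * L + 2) * H))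
  · obtain ⟨W, hWm, hy⟩ := hsub (Real.exp H) ![Real.exp H, Real.exp (-((2 * L + 2) * H))]
      (fun _ => Real.exp H) ![b, a] (Real.one_le_exp hH)
      (by
        intro i
        fin_cases i
        · simpa using hb
        · simpa using ha)
      (by
        intro i
        rw [← Real.exp_mul, ← Real.exp_mul]
        fin_cases i
        · simp only [Fin.zero_eta, Matrix.cons_val_zero, Real.exp_le_exp]
          constructor <;> nlinarith
        · simp only [Fin.mk_one, Matrix.cons_val_one, Matrix.cons_val_fin_one, Real.exp_le_exp]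
          constructor <;> nlinarith)
      (by
        intro l
        rw [← Real.exp_mul, ← Real.exp_mul, Real.exp_le_exp, Real.exp_le_exp]
        constructor <;> nlinarith)
      (by
        intro i
        fin_cases i
        · simpa [Fin.sum_univ_two] using h2
        · have : ∑ j : Fin 2, (!![1, 0; -α, 1] : Matrix (Fin 2) (Fin 2) Ω) 1 j *
              algebraMap K Ω ((![b, a] : Fin 2 → K) j) =
              algebraMap K Ω a - α * algebraMap K Ω b := by
            simp [Fin.sum_univ_two]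
            ring
          simp only [Fin.mk_one, this]
          simpa using hsm)
      (by
        intro l i
        fin_cases i
        · simpa using h4 l
        · simpa using h3 l)
      (by
        rw [Fin.prod_univ_two, Finset.prod_const, Finset.card_univ]
        simp only [Matrix.cons_val_zero, Matrix.cons_val_one, Matrix.cons_val_fin_one]
        rw [← Real.exp_add, ← Real.exp_nat_mul, ← Real.exp_nat_mul, ← Real.exp_nat_mul,
          ← Real.exp_add, ← Real.exp_mul, Real.exp_le_exp]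
        rw [← hL]
        push_cast
        have : 0 ≤ ((Z.n : ℝ) - 1) * ((2 * L + 1) * H) :=
          mul_nonneg (by linarith) (by positivity)
        nlinarith)
    have key := hC W hWm ![b, a] hy (by simpa using hb0) (by simpa using h5)
    simp only [Matrix.cons_val_zero, Matrix.cons_val_one, Matrix.cons_val_fin_one] at key
    have hCW : C W ≤ ∑ W ∈ 𝒲, C W := Finset.single_le_sum (f := C) hC0 hWm
    have hbb : Real.exp (-(L * H)) ≤ ‖algebraMap K Ω b‖ := by
      by_contra hlt
      push Not at hlt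
      have h6 := Z.one_le b hb hb0
      have h7 : ∏ l, Z.abv l b ≤ Real.exp (L * H) := by
        calc ∏ l, Z.abv l b ≤ ∏ _l : Λ, Real.exp H :=
              Finset.prod_le_prod (fun l _ => (Z.abv l).nonneg b) fun l _ => h4 l
          _ = Real.exp (L * H) := by
              rw [Finset.prod_const, Finset.card_univ, ← Real.exp_nat_mul]
      have h8 : ‖algebraMap K Ω b‖ ^ Z.n < Real.exp (-(L * H)) := by
        calc ‖algebraMap K Ω b‖ ^ Z.n ≤ ‖algebraMap K Ω b‖ ^ 1 := by
              refine pow_le_pow_of_le_one (norm_nonneg _) ?_ Z.hn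
              refine hlt.le.trans ?_
              rw [Real.exp_le_one_iff]
              have := mul_nonneg hL0 hH
              linarith
          _ = ‖algebraMap K Ω b‖ := pow_one _
          _ < Real.exp (-(L * H)) := hlt
      have h9 : ‖algebraMap K Ω b‖ ^ Z.n * ∏ l, Z.abv l b < 1 := by
        calc ‖algebraMap K Ω b‖ ^ Z.n * ∏ l, Z.abv l b
            ≤ ‖algebraMap K Ω b‖ ^ Z.n * Real.exp (L * H) :=
              mul_le_mul_of_nonneg_left h7 (by positivity)
          _ < Real.exp (-(L * H)) * Real.exp (L * H) :=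
              mul_lt_mul_of_pos_right h8 (Real.exp_pos _)
          _ = 1 := by
              rw [← Real.exp_add, neg_add_cancel, Real.exp_zero]
      linarith
    calc Real.exp (-((2 * L + 2) * H) - ∑ W ∈ 𝒲, C W)
        ≤ Real.exp (-C W) * Real.exp (-(L * H)) := by
          rw [← Real.exp_add, Real.exp_le_exp]
          nlinarith
      _ ≤ Real.exp (-C W) * ‖algebraMap K Ω b‖ :=
          mul_le_mul_of_nonneg_left hbb (Real.exp_pos _).le
      _ ≤ _ := key
  · refine le_trans (Real.exp_le_exp.2 ?_) (not_le.1 hsm).le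
    linarith

end Pool.Agent.Helper65.TB

end

section

namespace Pool.Agent.Helper65.RP
end Pool.Agent.Helper65.RP
namespace Pool.Agent.Helper36
end Pool.Agent.Helper36

/-!
# Project TB: the rates decrease like `d ^ (-m)`
-/

set_option autoImplicit false

namespace Pool.Agent.Helper65.TB

open MvPolynomial Filter Topology

open Pool.Agent.Helper65.RP

open Pool.Agent.Helper36 (step iter)

variable {K Ω : Type} [Field K] [NormedField Ω] [Algebra K Ω] {Λ : Type} [Fintype Λ] {N : ℕ}

/-- The coordinates of a sequence of integral vectors grow at most like `exp (C d ^ n)`. -/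
theorem rate_le (Z : PD K Ω Λ) {d : ℕ} (hd : 2 ≤ d) {𝒰 : Ultrafilter ℕ}
    (h𝒰 : (𝒰 : Filter ℕ) ≤ atTop) {x : ℕ → Fin N → K} (hO : ∀ n i, x n i ∈ Z.O) {C : ℝ}
    (hC : 0 ≤ C) (hΩ : ∀ n i, ‖algebraMap K Ω (x n i)‖ ≤ Real.exp (C * d ^ n))
    (habv : ∀ n i l, Z.abv l (x n i) ≤ Real.exp (C * d ^ n))
    (hdist : ∀ n m, n ≠ m → ∃ i j, x n i * x m j ≠ x n j * x m i) :
    ∃ A : ℝ, ∀ (m : ℕ) (q : Fin N → Ω), q ≠ 0 → (∀ i, IsAlgebraic K (q i)) →
      ∀ (κ : ℝ) (c : ℕ → Ω), App 𝒰 (fun n => (d : ℝ) ^ n) (fun n => c n • vec Ω (x (n - m))) q κ →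
        κ ≤ A / d ^ m := by
  classical
  obtain ⟨A, hA, hroth⟩ := roth Z
  refine ⟨(A + 1) * C, fun m q hq halg κ c happ => ?_⟩
  by_contra hlt
  rw [not_le] at hlt
  have hd1 : (1 : ℝ) < d := by exact_mod_cast hd
  have hdm : (0 : ℝ) < (d : ℝ) ^ m := pow_pos (by linarith) m
  have hκ : 0 < κ := lt_of_le_of_lt (div_nonneg (mul_nonneg (by linarith) hC) hdm.le) hlt
  obtain ⟨C₀, hC₀⟩ := happ
  obtain ⟨i₀, hi₀⟩ : ∃ i, q i ≠ 0 := by
    by_contra h
    push Not at h
    exact hq (funext h)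
  have hq0 : 0 < ‖q i₀‖ := norm_pos_iff.2 hi₀
  have hpow : Tendsto (fun n : ℕ => (d : ℝ) ^ n) (𝒰 : Filter ℕ) atTop :=
    (tendsto_pow_atTop_atTop_of_one_lt hd1).mono_left h𝒰
  have hexp : Tendsto (fun n : ℕ => C₀ * Real.exp (-κ * (d : ℝ) ^ n)) (𝒰 : Filter ℕ) (𝓝 0) := by
    have h1 : Tendsto (fun n : ℕ => -κ * (d : ℝ) ^ n) (𝒰 : Filter ℕ) atBot :=
      hpow.const_mul_atTop_of_neg (by linarith)
    have h2 := (Real.tendsto_exp_atBot.comp h1).const_mul C₀
    simpa using h2
  have hsmall : ∀ᶠ n in (𝒰 : Filter ℕ), C₀ * Real.exp (-κ * (d : ℝ) ^ n) < ‖q i₀‖ / 2 :=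
    hexp.eventually (gt_mem_nhds (half_pos hq0))
  have hge : ∀ᶠ n in (𝒰 : Filter ℕ), m ≤ n := h𝒰 (eventually_ge_atTop m)
  -- a coordinate which is not proportional
  obtain ⟨j, hj⟩ : ∃ j, ∀ᶠ n in (𝒰 : Filter ℕ),
      algebraMap K Ω (x (n - m) j) * q i₀ ≠ algebraMap K Ω (x (n - m) i₀) * q j := by
    by_contra hcon
    push Not at hcon
    have h2 := (eventually_all.2 hcon).and hge
    obtain ⟨n, hn, hmn⟩ := h2.exists
    have h3 : ∀ᶠ n' in (𝒰 : Filter ℕ), n < n' := h𝒰 (eventually_gt_atTop n)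
    obtain ⟨n', ⟨hn', hmn'⟩, hnn'⟩ := (h2.and h3).exists
    obtain ⟨i, k, hik⟩ := hdist (n - m) (n' - m) (by omega)
    apply hik
    apply (algebraMap K Ω).injective
    rw [map_mul, map_mul]
    have e1 := hn i
    have e2 := hn k
    have e3 := hn' i
    have e4 := hn' k
    have h4 : (algebraMap K Ω (x (n - m) i) * algebraMap K Ω (x (n' - m) k) -
        algebraMap K Ω (x (n - m) k) * algebraMap K Ω (x (n' - m) i)) * (q i₀ * q i₀) = 0 := by
      linear_combination (algebraMap K Ω (x (n' - m) k) * q i₀) * e1 +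
        (algebraMap K Ω (x (n - m) i₀) * q i) * e4 -
        (algebraMap K Ω (x (n' - m) i) * q i₀) * e2 -
        (algebraMap K Ω (x (n - m) i₀) * q k) * e3
    have h5 := (mul_eq_zero.1 h4).resolve_right (mul_ne_zero hi₀ hi₀)
    exact sub_eq_zero.1 h5
  set α : Ω := q j / q i₀ with hα
  have hαalg : IsAlgebraic K α := by
    rw [hα, div_eq_mul_inv]
    exact (halg j).mul (halg i₀).inv
  obtain ⟨C₂, hC₂⟩ := hroth α hαalg
  set C₁ : ℝ := (1 + ‖α‖) * (|C₀| + 1) with hC₁
  have hC₁0 : 0 < C₁ := by positivity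
  set δ : ℝ := ‖q i₀‖ / 2 with hδ
  have hδ0 : 0 < δ := half_pos hq0
  -- the main inequality
  have hmain : ∀ᶠ n in (𝒰 : Filter ℕ),
      κ * (d : ℝ) ^ n ≤ (A + 1) * C * (d : ℝ) ^ (n - m) + (C₂ + Real.log (C₁ / δ)) := by
    filter_upwards [hC₀, hsmall, hj] with n h1 h2 h3
    have h4 : ∀ i, ‖c n * algebraMap K Ω (x (n - m) i) - q i‖ ≤
        C₀ * Real.exp (-κ * (d : ℝ) ^ n) := by
      intro i
      refine le_trans ?_ h1
      exact norm_le_pi_norm (c n • vec Ω (x (n - m)) - q) i
    have h5 : δ ≤ ‖c n * algebraMap K Ω (x (n - m) i₀)‖ := by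
      have h6 := h4 i₀
      have h7 : ‖q i₀‖ ≤ ‖c n * algebraMap K Ω (x (n - m) i₀)‖ +
          ‖c n * algebraMap K Ω (x (n - m) i₀) - q i₀‖ := by
        have h8 := norm_sub_le (c n * algebraMap K Ω (x (n - m) i₀))
          (c n * algebraMap K Ω (x (n - m) i₀) - q i₀)
        rwa [sub_sub_cancel] at h8
      rw [hδ]
      linarith
    have h6 : 0 < ‖c n * algebraMap K Ω (x (n - m) i₀)‖ := hδ0.trans_le h5
    have h7 : c n * algebraMap K Ω (x (n - m) i₀) ≠ 0 := norm_pos_iff.1 h6
    have hc0 : c n ≠ 0 := left_ne_zero_of_mul h7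
    have hb0 : algebraMap K Ω (x (n - m) i₀) ≠ 0 := right_ne_zero_of_mul h7
    have hb1 : x (n - m) i₀ ≠ 0 := fun h => hb0 (by rw [h, map_zero])
    have h8 : ‖c n * (algebraMap K Ω (x (n - m) j) - α * algebraMap K Ω (x (n - m) i₀))‖ ≤
        C₁ * Real.exp (-κ * (d : ℝ) ^ n) := by
      have e1 : c n * (algebraMap K Ω (x (n - m) j) - α * algebraMap K Ω (x (n - m) i₀)) =
          (c n * algebraMap K Ω (x (n - m) j) - q j) -
            α * (c n * algebraMap K Ω (x (n - m) i₀) - q i₀) := by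
        have : α * q i₀ = q j := div_mul_cancel₀ _ hi₀
        linear_combination -this
      rw [e1]
      have e0 : C₀ * Real.exp (-κ * (d : ℝ) ^ n) ≤ (|C₀| + 1) * Real.exp (-κ * (d : ℝ) ^ n) :=
        mul_le_mul_of_nonneg_right (by linarith [le_abs_self C₀]) (Real.exp_pos _).le
      calc ‖(c n * algebraMap K Ω (x (n - m) j) - q j) -
            α * (c n * algebraMap K Ω (x (n - m) i₀) - q i₀)‖
          ≤ ‖c n * algebraMap K Ω (x (n - m) j) - q j‖ +
            ‖α * (c n * algebraMap K Ω (x (n - m) i₀) - q i₀)‖ := norm_sub_le _ _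
        _ ≤ (|C₀| + 1) * Real.exp (-κ * (d : ℝ) ^ n) +
            ‖α‖ * ((|C₀| + 1) * Real.exp (-κ * (d : ℝ) ^ n)) := by
            rw [norm_mul]
            exact add_le_add ((h4 j).trans e0)
              (mul_le_mul_of_nonneg_left ((h4 i₀).trans e0) (norm_nonneg _))
        _ = C₁ * Real.exp (-κ * (d : ℝ) ^ n) := by
            rw [hC₁]
            ring
    have hne : algebraMap K Ω (x (n - m) j) ≠ α * algebraMap K Ω (x (n - m) i₀) := by
      intro h
      apply h3
      rw [h]
      have : α * q i₀ = q j := div_mul_cancel₀ _ hi₀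
      linear_combination (algebraMap K Ω (x (n - m) i₀)) * this
    have hHn : 0 ≤ C * (d : ℝ) ^ (n - m) := mul_nonneg hC (pow_nonneg (by linarith) _)
    have h9 := hC₂ (x (n - m) j) (x (n - m) i₀) (C * (d : ℝ) ^ (n - m)) (hO _ _) (hO _ _) hb1
      hHn (hΩ _ _) (hΩ _ _) (fun l => habv _ _ l) (fun l => habv _ _ l) hne
    -- upper bound of the difference
    have h10 : ‖algebraMap K Ω (x (n - m) j) - α * algebraMap K Ω (x (n - m) i₀)‖ * δ ≤
        Real.exp (C * (d : ℝ) ^ (n - m)) * (C₁ * Real.exp (-κ * (d : ℝ) ^ n)) := by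
      calc ‖algebraMap K Ω (x (n - m) j) - α * algebraMap K Ω (x (n - m) i₀)‖ * δ
          ≤ ‖algebraMap K Ω (x (n - m) j) - α * algebraMap K Ω (x (n - m) i₀)‖ *
            ‖c n * algebraMap K Ω (x (n - m) i₀)‖ :=
            mul_le_mul_of_nonneg_left h5 (norm_nonneg _)
        _ = ‖algebraMap K Ω (x (n - m) i₀)‖ *
            ‖c n * (algebraMap K Ω (x (n - m) j) - α * algebraMap K Ω (x (n - m) i₀))‖ := by
            rw [norm_mul, norm_mul]
            ring
        _ ≤ _ := mul_le_mul (hΩ _ _) h8 (norm_nonneg _) (Real.exp_pos _).le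
    have h11 : Real.exp (-(A * (C * (d : ℝ) ^ (n - m))) - C₂) ≤
        Real.exp (C * (d : ℝ) ^ (n - m) + Real.log (C₁ / δ) + -κ * (d : ℝ) ^ n) := by
      refine h9.trans ?_
      rw [Real.exp_add, Real.exp_add, Real.exp_log (div_pos hC₁0 hδ0)]
      rw [← le_div_iff₀ hδ0] at h10
      refine h10.trans (le_of_eq ?_)
      field_simp
    rw [Real.exp_le_exp] at h11
    nlinarith
  -- conclusion
  have hη : 0 < κ * (d : ℝ) ^ m - (A + 1) * C := by
    rw [div_lt_iff₀ hdm] at hlt
    linarith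
  have hbig : ∀ᶠ n in (𝒰 : Filter ℕ), (C₂ + Real.log (C₁ / δ)) * (d : ℝ) ^ m /
      (κ * (d : ℝ) ^ m - (A + 1) * C) < (d : ℝ) ^ n := hpow.eventually_gt_atTop _
  obtain ⟨n, ⟨h1, h2⟩, h3⟩ := ((hmain.and hbig).and hge).exists
  rw [div_lt_iff₀ hη] at h2
  have h4 : (d : ℝ) ^ n = (d : ℝ) ^ (n - m) * (d : ℝ) ^ m := by
    rw [← pow_add, Nat.sub_add_cancel h3]
  rw [h4] at h1 h2
  have h5 : (C₂ + Real.log (C₁ / δ)) < (d : ℝ) ^ (n - m) * (κ * (d : ℝ) ^ m - (A + 1) * C) := by
    by_contra h6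
    rw [not_lt] at h6
    have h7 := mul_le_mul_of_nonneg_right h6 hdm.le
    nlinarith
  nlinarith

end Pool.Agent.Helper65.TB

end

section

namespace Pool.Agent.Helper65.RP
end Pool.Agent.Helper65.RP

/-!
# Project RP, module B3: `K[x]` is integral over `K[f]` for a regular polynomial map `f`
-/

set_option autoImplicit false

namespace Pool.Agent.Helper12.RP

open MvPolynomial Filter Topology

open Pool.Agent.Helper65.RP

/-- A ring homomorphism with finitely many module generators is integral. -/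
theorem integral_of_span {R S : Type} [CommRing R] [CommRing S] (φ : R →+* S) (T : Set S)
    (hT : T.Finite)
    (h : ∀ P : AddSubgroup S, (∀ a, ∀ x ∈ P, φ a * x ∈ P) → T ⊆ P → P = ⊤) :
    ∀ x : S, φ.IsIntegralElem x := by
  let _ := φ.toAlgebra
  have hspan : Submodule.span R T = ⊤ := by
    have h1 := h (Submodule.span R T).toAddSubgroup (fun a x hx => by
      have h2 := Submodule.smul_mem (Submodule.span R T) a hx
      rw [Algebra.smul_def] at h2
      exact h2) (fun t ht => Submodule.subset_span ht)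
    ext x
    simp only [Submodule.mem_top, iff_true]
    have h2 : x ∈ (Submodule.span R T).toAddSubgroup := by
      rw [h1]
      trivial
    exact h2
  have : Module.Finite R S := by
    obtain ⟨T', hT'⟩ := hT.exists_finset_coe
    exact ⟨⟨T', by rw [hT', hspan]⟩⟩
  intro x
  exact IsIntegral.of_finite R x

section B

variable {K Kb : Type} [Field K] [Field Kb] [Algebra K Kb] [IsAlgClosed Kb] {N d : ℕ}
  {f : Fin N → MvPolynomial (Fin N) K}

/-- Some power of each variable is in the ideal of the leading forms. -/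
theorem exists_pow_mem (hf : Regular Kb d f) :
    ∃ e : ℕ, ∀ j : Fin N, (X j : MvPolynomial (Fin N) K) ^ e ∈
      Ideal.span (Set.range fun i => homogeneousComponent d (f i)) := by
  have h1 : ∀ j : Fin N, ∃ e : ℕ, (X j : MvPolynomial (Fin N) K) ^ e ∈
      Ideal.span (Set.range fun i => homogeneousComponent d (f i)) := by
    intro j
    have h2 : (X j : MvPolynomial (Fin N) K) ∈
        (Ideal.span (Set.range fun i => homogeneousComponent d (f i))).radical := by
      rw [← vanishingIdeal_zeroLocus_eq_radical (K := Kb), mem_vanishingIdeal_iff]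
      intro x hx
      rw [zeroLocus_span] at hx
      have h3 : x = 0 := hf.2 x fun i => hx _ ⟨i, rfl⟩
      rw [h3, aeval_X]
      rfl
    exact Ideal.mem_radical_iff.1 h2
  choose e he using h1
  refine ⟨∑ j, e j, fun j => ?_⟩
  have h3 : ∑ i, e i = e j + ∑ i ∈ Finset.univ.erase j, e i :=
    (Finset.add_sum_erase _ _ (Finset.mem_univ j)).symm
  rw [h3, pow_add]
  exact Ideal.mul_mem_right _ _ (he j)

/-- A homogeneous polynomial of large degree is a combination of the leading forms. -/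
theorem exists_comb (e : ℕ) (g : Fin N → MvPolynomial (Fin N) K)
    (he : ∀ j : Fin N, (X j : MvPolynomial (Fin N) K) ^ e ∈ Ideal.span (Set.range g))
    {D : ℕ} (hD : N * e < D) (p : MvPolynomial (Fin N) K) (hp : p.IsHomogeneous D) :
    p ∈ Ideal.span (Set.range g) := by
  rw [p.as_sum]
  refine Ideal.sum_mem _ fun m hm => ?_
  have h1 : ∑ j, m j = D := by
    have h2 := hp (mem_support_iff.1 hm)
    rw [← h2, Finsupp.weight_apply, Finsupp.sum_fintype _ _ (fun _ => by simp)]
    simp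
  have h2 : ∃ j, e ≤ m j := by
    by_contra hcon
    push Not at hcon
    have h3 : ∑ j, m j ≤ ∑ _j : Fin N, e := Finset.sum_le_sum fun j _ => (hcon j).le
    rw [Finset.sum_const, Finset.card_univ, Fintype.card_fin, smul_eq_mul] at h3
    omega
  obtain ⟨j, hj⟩ := h2
  have h3 : monomial m (coeff m p) =
      monomial (m - Finsupp.single j e) (coeff m p) * (X j : MvPolynomial (Fin N) K) ^ e := by
    rw [X_pow_eq_monomial, monomial_mul, mul_one, tsub_add_cancel_of_le]
    exact Finsupp.single_le_iff.2 hj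
  rw [h3]
  exact Ideal.mul_mem_left _ _ (he j)

/-- B3 -/
theorem integral_step (hd : 1 ≤ d) (hf : Regular Kb d f) (i : Fin N) :
    ∃ R : Polynomial (MvPolynomial (Fin N) K), R.Monic ∧
      (R.map ((bind₁ f : MvPolynomial (Fin N) K →ₐ[K] MvPolynomial (Fin N) K) :
        MvPolynomial (Fin N) K →+* MvPolynomial (Fin N) K)).eval (X i) = 0 := by
  obtain ⟨e, he⟩ := exists_pow_mem hf
  set φ : MvPolynomial (Fin N) K →+* MvPolynomial (Fin N) K :=
    ((bind₁ f : MvPolynomial (Fin N) K →ₐ[K] MvPolynomial (Fin N) K) :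
        MvPolynomial (Fin N) K →+* MvPolynomial (Fin N) K) with hφ
  have hφX : ∀ j, φ (X j) = f j := fun j => by
    rw [hφ]
    exact bind₁_X_right f j
  have hφC : ∀ c, φ (C c) = C c := fun c => by
    rw [hφ]
    exact bind₁_C_right f c
  set D0 : ℕ := N * e + d with hD0
  -- the finite set of generators: monomials with all exponents at most `D0`
  set T : Set (MvPolynomial (Fin N) K) :=
    (fun m : Fin N →₀ ℕ => monomial m (1 : K)) '' {m | ∀ j, m j ≤ D0} with hTdef
  have hTfin : T.Finite := by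
    refine Set.Finite.image _ ?_
    refine Set.Finite.subset (Set.finite_Iic (Finsupp.equivFunOnFinite.symm (fun _ => D0))) ?_
    intro m hm j
    exact hm j
  have key := integral_of_span φ T hTfin (by
    intro P hP hTP
    have hC : ∀ (c : K) (x : MvPolynomial (Fin N) K), x ∈ P → C c * x ∈ P := by
      intro c x hx
      have := hP (C c) x hx
      rwa [hφC] at this
    have hsum : ∀ (s : Finset (Fin N)) (y : Fin N → MvPolynomial (Fin N) K),
        (∀ j ∈ s, y j ∈ P) → ∑ j ∈ s, y j ∈ P := fun s y h => AddSubgroup.sum_mem P h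
    have hdeg : ∀ D : ℕ, ∀ p : MvPolynomial (Fin N) K, p.totalDegree ≤ D → p ∈ P := by
      intro D
      induction D using Nat.strong_induction_on with
      | _ D ih =>
        intro p hp
        rcases Nat.lt_or_ge D0 D with hlt | hge
        · -- large degree
          have hpD : homogeneousComponent D p ∈
              Ideal.span (Set.range fun i => homogeneousComponent d (f i)) :=
            exists_comb e _ he (by omega) _ (homogeneousComponent_isHomogeneous D p)
          rw [Ideal.span, Submodule.mem_span_range_iff_exists_fun] at hpD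
          obtain ⟨c, hc⟩ := hpD
          -- homogeneous coefficients
          have hc2 : homogeneousComponent D p = ∑ j, homogeneousComponent (D - d) (c j) *
              homogeneousComponent d (f j) := by
            have h1 := congrArg (homogeneousComponent D) hc
            rw [map_sum] at h1
            rw [homogeneousComponent_of_mem (homogeneousComponent_isHomogeneous D p),
              if_pos rfl] at h1
            rw [← h1]
            refine Finset.sum_congr rfl fun j _ => ?_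
            rw [smul_eq_mul]
            have h2 : c j = ∑ k ∈ Finset.range ((c j).totalDegree + 1),
              homogeneousComponent k (c j) := (sum_homogeneousComponent (c j)).symm
            conv_lhs => rw [h2]
            rw [Finset.sum_mul, map_sum]
            have h3 : ∀ k ∈ Finset.range ((c j).totalDegree + 1),
                homogeneousComponent D (homogeneousComponent k (c j) *
                  homogeneousComponent d (f j)) =
                if k = D - d then homogeneousComponent k (c j) *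
                  homogeneousComponent d (f j) else 0 := by
              intro k _
              rw [homogeneousComponent_of_mem
                ((homogeneousComponent_isHomogeneous k (c j)).mul
                  (homogeneousComponent_isHomogeneous d (f j)))]
              by_cases hk : k = D - d
              · rw [if_pos hk, if_pos (by omega)]
              · rw [if_neg hk, if_neg (by omega)]
            rw [Finset.sum_congr rfl h3, Finset.sum_ite_eq']
            by_cases hk : D - d ∈ Finset.range ((c j).totalDegree + 1)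
            · rw [if_pos hk]
            · rw [if_neg hk]
              rw [homogeneousComponent_eq_zero _ _ (by
                rw [Finset.mem_range] at hk
                omega), zero_mul]
          -- the remainder
          have hrem : ∀ (q : MvPolynomial (Fin N) K) (k : ℕ), q.totalDegree ≤ k → 1 ≤ k →
              (q - homogeneousComponent k q).totalDegree ≤ k - 1 := by
            intro q k hq hk
            rw [totalDegree]
            refine Finset.sup_le fun m hm => ?_
            have h1 : coeff m (q - homogeneousComponent k q) ≠ 0 := mem_support_iff.1 hm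
            rw [coeff_sub, coeff_homogeneousComponent] at h1
            have h2 : (m.sum fun _ e => e) = m.degree := rfl
            by_cases hmk : m.degree = k
            · rw [if_pos hmk, sub_self] at h1
              exact absurd rfl h1
            · rw [if_neg hmk, sub_zero] at h1
              have h3 := (le_totalDegree (mem_support_iff.2 h1)).trans hq
              omega
          have hB : ∀ j, (homogeneousComponent (D - d) (c j)).totalDegree ≤ D - d := fun j =>
            (homogeneousComponent_isHomogeneous (D - d) (c j)).totalDegree_le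
          have hp2 : p = (p - homogeneousComponent D p) +
              ((∑ j, φ (X j) * homogeneousComponent (D - d) (c j)) -
                ∑ j, homogeneousComponent (D - d) (c j) *
                  (f j - homogeneousComponent d (f j))) := by
            have h1 : (∑ j, φ (X j) * homogeneousComponent (D - d) (c j)) -
                ∑ j, homogeneousComponent (D - d) (c j) *
                  (f j - homogeneousComponent d (f j)) = homogeneousComponent D p := by
              rw [hc2, ← Finset.sum_sub_distrib]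
              refine Finset.sum_congr rfl fun j _ => ?_
              rw [hφX]
              ring
            rw [h1]
            ring
          rw [hp2]
          refine P.add_mem (ih (D - 1) (by omega) _ (hrem p D hp (by omega)))
            (P.sub_mem (hsum _ _ fun j _ => hP _ _ (ih (D - d) (by omega) _ (hB j)))
              (hsum _ _ fun j _ => ih (D - 1) (by omega) _ ?_))
          refine (totalDegree_mul _ _).trans ?_
          have h1 := hrem (f j) d (hf.1 j) hd
          have h2 := hB j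
          omega
        · -- small degree
          rw [p.as_sum]
          refine AddSubgroup.sum_mem P fun m hm => ?_
          have h1 : monomial m (coeff m p) = C (coeff m p) * monomial m 1 := by
            rw [C_mul_monomial, mul_one]
          rw [h1]
          refine hC _ _ (hTP ⟨m, fun j => ?_, rfl⟩)
          have h2 : m.degree ≤ D := (le_totalDegree hm).trans hp
          have h3 : m j ≤ m.degree := Finsupp.le_degree j m
          omega
    rw [eq_top_iff]
    intro x _
    exact hdeg _ x le_rfl) (X i)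
  obtain ⟨R, hR, hR0⟩ := key
  refine ⟨R, hR, ?_⟩
  rw [Polynomial.eval_map]
  exact hR0

end B

end Pool.Agent.Helper12.RP

end

section

namespace Pool.Agent.Helper36
end Pool.Agent.Helper36

/-!
# Project TB: integrality over the image, upper bounds for the growth
-/

set_option autoImplicit false

namespace Pool.Agent.Helper65.TB

open MvPolynomial Filter Topology

open Pool.Agent.Helper36 (step iter iter_zero iter_succ)

variable {K : Type} [Field K] {N : ℕ}

/-- Forms of degree `d` without common zero: the coordinates are integral over `K[F]`. -/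
theorem exists_intBy {L : Type} [Field L] [Algebra K L] [IsAlgClosed L] {d : ℕ} (hd : 1 ≤ d)
    {F : Fin N → MvPolynomial (Fin N) K} (hF : ∀ i, (F i).IsHomogeneous d)
    (hnz : ∀ x : Fin N → L, (∀ i, aeval x (F i) = 0) → x = 0) : ∃ t, 1 ≤ t ∧ IntBy F t := by
  have hreg : Pool.Agent.Helper65.RP.Regular L d F := by
    refine ⟨fun i => (hF i).totalDegree_le, fun y hy => hnz y fun i => ?_⟩
    have h1 := hy i
    rwa [homogeneousComponent_of_mem (hF i), if_pos rfl] at h1
  choose R hR1 hR2 using fun i => Pool.Agent.Helper12.RP.integral_step hd hreg i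
  refine ⟨1 + ∑ i, (R i).natDegree, Nat.le_add_right _ _, fun i => ⟨R i, hR1 i, ?_, hR2 i⟩⟩
  have h1 := Finset.single_le_sum (f := fun i => (R i).natDegree) (fun _ _ => Nat.zero_le _)
    (Finset.mem_univ i)
  exact h1.trans (Nat.le_add_left _ _)

theorem exists_growth {d : ℕ} (hd : 2 ≤ d) {F : Fin N → MvPolynomial (Fin N) K}
    (hF : ∀ i, (F i).IsHomogeneous d) (x : Fin N → K) (v : AbsoluteValue K ℝ) :
    ∃ C : ℝ, 0 ≤ C ∧ ∀ n i, v (iter F x n i) ≤ Real.exp (C * d ^ n) := by
  classical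
  -- one step: `v (F_i(u)) ≤ M * E ^ d` if all `v (u_j) ≤ E`, `1 ≤ E`
  set M : ℝ := 1 + ∑ i, ∑ m ∈ (F i).support, v ((F i).coeff m) with hM
  have hM1 : 1 ≤ M := by
    rw [hM]
    have : 0 ≤ ∑ i, ∑ m ∈ (F i).support, v ((F i).coeff m) :=
      Finset.sum_nonneg fun i _ => Finset.sum_nonneg fun m _ => v.nonneg _
    linarith
  have hstep : ∀ (u : Fin N → K) (E : ℝ), 0 ≤ E → (∀ j, v (u j) ≤ E) →
      ∀ i, v (step F u i) ≤ M * E ^ d := by
    intro u E hE hu i
    have h1 : step F u i = ∑ m ∈ (F i).support, (F i).coeff m * ∏ j, u j ^ m j := by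
      show aeval u (F i) = _
      rw [aeval_def, eval₂_eq']
      rfl
    rw [h1]
    refine (v.sum_le _ _).trans ?_
    have h2 : ∀ m ∈ (F i).support, v ((F i).coeff m * ∏ j, u j ^ m j) ≤
        v ((F i).coeff m) * E ^ d := by
      intro m hm
      rw [map_mul, map_prod]
      refine mul_le_mul_of_nonneg_left ?_ (v.nonneg _)
      have hd' : ∑ j, m j = d := by
        have h3 := (hF i) (mem_support_iff.1 hm)
        rw [Finsupp.weight_apply, Finsupp.sum_fintype _ _ (by simp)] at h3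
        simpa using h3
      calc ∏ j, v (u j ^ m j) ≤ ∏ j, E ^ m j := by
            refine Finset.prod_le_prod (fun j _ => v.nonneg _) fun j _ => ?_
            rw [map_pow]
            exact pow_le_pow_left₀ (v.nonneg _) (hu j) _
        _ = E ^ d := by rw [Finset.prod_pow_eq_pow_sum, hd']
    refine (Finset.sum_le_sum h2).trans ?_
    rw [← Finset.sum_mul]
    refine mul_le_mul_of_nonneg_right ?_ (pow_nonneg hE _)
    rw [hM]
    have h4 := Finset.single_le_sum (f := fun i => ∑ m ∈ (F i).support, v ((F i).coeff m))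
      (fun i _ => Finset.sum_nonneg fun m _ => v.nonneg _) (Finset.mem_univ i)
    linarith
  -- growth: `v (x_n) ≤ exp (C (d ^ n) - log M)` with `C = c₀ + log M`
  set c₀ : ℝ := ∑ i, v (x i) with hc₀
  have hc₀' : 0 ≤ c₀ := Finset.sum_nonneg fun i _ => v.nonneg _
  have hlM : 0 ≤ Real.log M := Real.log_nonneg hM1
  have hdr : (2 : ℝ) ≤ d := by exact_mod_cast hd
  have hpow : ∀ n : ℕ, (1 : ℝ) ≤ (d : ℝ) ^ n := fun n => one_le_pow₀ (by linarith)
  have key : ∀ n i, v (iter F x n i) ≤ Real.exp ((c₀ + Real.log M) * d ^ n - Real.log M) := by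
    intro n
    induction n with
    | zero =>
      intro i
      rw [iter_zero, pow_zero, mul_one]
      have h5 : v (x i) ≤ c₀ :=
        Finset.single_le_sum (f := fun i => v (x i)) (fun i _ => v.nonneg _) (Finset.mem_univ i)
      have h6 := Real.add_one_le_exp c₀
      have h7 : c₀ + Real.log M - Real.log M = c₀ := by ring
      rw [h7]
      linarith
    | succ n ih =>
      intro i
      rw [iter_succ]
      refine (hstep _ _ (Real.exp_nonneg _) ih i).trans ?_
      rw [← Real.exp_nat_mul]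
      nth_rewrite 1 [← Real.exp_log (show 0 < M by linarith)]
      rw [← Real.exp_add]
      refine Real.exp_le_exp.2 ?_
      have h8 : (2 : ℝ) * Real.log M ≤ d * Real.log M := mul_le_mul_of_nonneg_right hdr hlM
      rw [pow_succ]
      nlinarith
  refine ⟨c₀ + Real.log M, by linarith, fun n i => (key n i).trans ?_⟩
  exact Real.exp_le_exp.2 (by linarith)

/-- The coordinates stay in a subring. -/
theorem iter_mem {F : Fin N → MvPolynomial (Fin N) K} {x : Fin N → K} {O : Subring K}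
    (hFO : ∀ i m, (F i).coeff m ∈ O) (hxO : ∀ i, x i ∈ O) (n : ℕ) (i : Fin N) :
    iter F x n i ∈ O := by
  induction n generalizing i with
  | zero => exact hxO i
  | succ n ih =>
    rw [iter_succ]
    have h1 : step F (iter F x n) i =
        ∑ m ∈ (F i).support, (F i).coeff m * ∏ j, iter F x n j ^ m j := by
      show aeval (iter F x n) (F i) = _
      rw [aeval_def, eval₂_eq']
      rfl
    rw [h1]
    refine Subring.sum_mem _ fun m _ => Subring.mul_mem _ (hFO i m) ?_
    exact Subring.prod_mem _ fun j _ => Subring.pow_mem _ (ih j) _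

end Pool.Agent.Helper65.TB

end

section

namespace Pool.Agent.Helper65.RP
end Pool.Agent.Helper65.RP
namespace Pool.Agent.Helper36
end Pool.Agent.Helper36

set_option autoImplicit false

namespace Pool.Agent.Helper65.TB

open MvPolynomial Filter Topology

open Pool.Agent.Helper65.RP

open Pool.Agent.Helper36 (step iter)

variable {K Ω : Type} [Field K] [NormedField Ω] [IsAlgClosed Ω] [Algebra K Ω]
  {Λ : Type} [Fintype Λ] {N : ℕ}

omit [IsAlgClosed Ω] in
/-- If the number of critical points grows linearly, they have positive upper density. -/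
theorem posUD_of_crit {F : Fin N → MvPolynomial (Fin N) K} {q : ℕ → Fin N → Ω} {θ C : ℝ}
    (hθ : 0 < θ) (h : ∀ m : ℕ, θ * m - C ≤ crit F q m) : PosUD {j | aeval (q j) (jd F) = 0} := by
  classical
  refine ⟨θ / 2, by positivity, fun M => ?_⟩
  obtain ⟨n₁, hn₁⟩ := exists_nat_gt ((θ + C) / (θ / 2))
  refine ⟨max (max M n₁) 1, (le_max_left _ _).trans (le_max_left _ _), by
    exact lt_of_lt_of_le Nat.one_pos (le_max_right _ _), ?_⟩
  set n := max (max M n₁) 1 with hn
  have hn1 : 1 ≤ n := le_max_right _ _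
  have hnn₁ : (n₁ : ℝ) ≤ n := by exact_mod_cast (le_max_right _ _).trans (le_max_left _ _)
  have h1 : (crit F q (n - 1) : ℝ) ≤
      ((Finset.range n).filter (· ∈ {j | aeval (q j) (jd F) = 0})).card := by
    rw [crit]
    have h2 : ((Finset.Icc 1 (n - 1)).filter fun j => aeval (q j) (jd F) = 0).card ≤
        ((Finset.range n).filter (· ∈ {j | aeval (q j) (jd F) = 0})).card := by
      refine Finset.card_le_card fun j hj => ?_
      rw [Finset.mem_filter, Finset.mem_Icc] at hj
      rw [Finset.mem_filter, Finset.mem_range]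
      exact ⟨by omega, hj.2⟩
    exact_mod_cast h2
  refine le_trans ?_ (le_trans (h (n - 1)) ?_)
  · have h3 : ((n - 1 : ℕ) : ℝ) = n - 1 := by
      rw [Nat.cast_sub hn1, Nat.cast_one]
    rw [h3]
    have h4 : (θ + C) / (θ / 2) < n := lt_of_lt_of_le hn₁ hnn₁
    rw [div_lt_iff₀ (by positivity)] at h4
    nlinarith
  · exact h1

/-- The absolute value of `K` given by the norm of `Ω`. -/
noncomputable def nabv (K Ω : Type) [Field K] [NormedField Ω] [Algebra K Ω] :
    AbsoluteValue K ℝ where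
  toFun x := ‖algebraMap K Ω x‖
  map_mul' x y := by
    show ‖algebraMap K Ω (x * y)‖ = ‖algebraMap K Ω x‖ * ‖algebraMap K Ω y‖
    rw [map_mul, norm_mul]
  nonneg' x := norm_nonneg _
  eq_zero' x := by
    show ‖algebraMap K Ω x‖ = 0 ↔ x = 0
    rw [norm_eq_zero, map_eq_zero]
  add_le' x y := by
    show ‖algebraMap K Ω (x + y)‖ ≤ ‖algebraMap K Ω x‖ + ‖algebraMap K Ω y‖
    rw [map_add]
    exact norm_add_le _ _

/-- An orbit does not tend to a point with finitely many critical iterates with positive rate. -/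
theorem no_rate (Z : PD K Ω Λ) {d : ℕ} (hd : 2 ≤ d) {F : Fin N → MvPolynomial (Fin N) K}
    (hF : ∀ i, (F i).IsHomogeneous d)
    (hnz : ∀ x : Fin N → Ω, (∀ i, aeval x (F i) = 0) → x = 0) {x : Fin N → K}
    (hO : ∀ n i, iter F x n i ∈ Z.O)
    (hdist : ∀ n m, n ≠ m → ∃ i j, iter F x n i * iter F x m j ≠ iter F x n j * iter F x m i)
    {y : Fin N → Ω} (hy0 : y ≠ 0) (hy : ∀ i, IsAlgebraic K (y i)) {n₀ : ℕ}
    (hcrit : ∀ n, n₀ ≤ n → aeval (iter F y n) (jd F) ≠ 0)
    {𝒰 : Ultrafilter ℕ} (h𝒰 : (𝒰 : Filter ℕ) ≤ atTop) {c : ℕ → Ω} {κ : ℝ} (hκ : 0 < κ)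
    (h : App 𝒰 (fun n => (d : ℝ) ^ n) (fun n => c n • vec Ω (iter F x n)) y κ) : False := by
  classical
  have hd1 : 1 ≤ d := by omega
  have hdr : (2 : ℝ) ≤ d := by exact_mod_cast hd
  have hs : Tendsto (fun n : ℕ => (d : ℝ) ^ n) (𝒰 : Filter ℕ) atTop :=
    (tendsto_pow_atTop_atTop_of_one_lt (by linarith)).mono_left h𝒰
  obtain ⟨t, ht, hint⟩ := exists_intBy hd1 hF hnz
  obtain ⟨q, c', hq0, hqs, hqa, happ⟩ := exists_chain hd1 hF ht hint h𝒰 hs x hy hκ h
  -- growth
  obtain ⟨C₁, hC₁, hg₁⟩ := exists_growth hd hF x (nabv K Ω)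
  choose C₂ hC₂ hg₂ using fun l => exists_growth hd hF x (Z.abv l)
  set C : ℝ := C₁ + ∑ l, C₂ l with hC
  have hCl : ∀ l, C₂ l ≤ C := fun l => by
    have := Finset.single_le_sum (f := C₂) (fun l _ => hC₂ l) (Finset.mem_univ l)
    rw [hC]; linarith
  have hC0 : 0 ≤ ∑ l, C₂ l := Finset.sum_nonneg fun l _ => hC₂ l
  have hC1 : C₁ ≤ C := by rw [hC]; linarith
  have hpow : ∀ n : ℕ, (0 : ℝ) ≤ (d : ℝ) ^ n := fun n => by positivity
  obtain ⟨A, hA⟩ := rate_le Z hd h𝒰 (x := fun n => iter F x n) hO (C := C) (by rw [hC]; linarith)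
    (fun n i => (hg₁ n i).trans (Real.exp_le_exp.2 (mul_le_mul_of_nonneg_right hC1 (hpow n))))
    (fun n i l => (hg₂ l n i).trans
      (Real.exp_le_exp.2 (mul_le_mul_of_nonneg_right (hCl l) (hpow n)))) hdist
  have hqne : ∀ m, q m ≠ 0 := by
    intro m
    induction m with
    | zero => rw [hq0]; exact hy0
    | succ m ih =>
      intro h0
      apply ih
      rw [← hqs m, h0]
      funext i
      show aeval (0 : Fin N → Ω) (F i) = 0
      have h1 := Pool.Agent.Helper36.aeval_smul_homogeneous (A := Ω) (hF i) 0 (fun _ => 0)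
      have h2 : (fun _ : Fin N => (0 : Ω) * 0) = 0 := by
        funext j
        simp
      rw [h2, zero_pow (by omega), zero_mul] at h1
      exact h1
  have hr : ∀ m, κ / (t : ℝ) ^ crit F q m ≤ A / (d : ℝ) ^ m := fun m =>
    hA m (q m) (hqne m) (hqa m) _ (c' m) (happ m)
  have htr : (1 : ℝ) ≤ t := by exact_mod_cast ht
  have hA0 : 0 < A := by
    have h1 := hr 0
    rw [pow_zero, div_one] at h1
    exact lt_of_lt_of_le (by positivity) h1
  have hr' : ∀ m, κ / A * (d : ℝ) ^ m ≤ (t : ℝ) ^ crit F q m := by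
    intro m
    have h1 := hr m
    have h2 : (0 : ℝ) < (t : ℝ) ^ crit F q m := by positivity
    have h3 : (0 : ℝ) < (d : ℝ) ^ m := by positivity
    rw [div_le_div_iff₀ h2 h3] at h1
    rw [div_mul_eq_mul_div, div_le_iff₀ hA0]
    linarith
  have hlog : ∀ m : ℕ, (m : ℝ) * Real.log d + Real.log (κ / A) ≤ crit F q m * Real.log t := by
    intro m
    have h1 := Real.log_le_log (by positivity) (hr' m)
    rw [Real.log_mul (by positivity) (by positivity), Real.log_pow, Real.log_pow] at h1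
    linarith
  have hld : 0 < Real.log d := Real.log_pos (by linarith)
  have hlt : 0 < Real.log t := by
    rcases (Real.log_nonneg htr).lt_or_eq with h1 | h1
    · exact h1
    · exfalso
      obtain ⟨m, hm⟩ := exists_nat_gt (-Real.log (κ / A) / Real.log d)
      have h2 := hlog m
      rw [← h1, mul_zero] at h2
      rw [div_lt_iff₀ hld] at hm
      linarith
  have hud : PosUD {j | aeval (q j) (jd F) = 0} := by
    refine posUD_of_crit (θ := Real.log d / Real.log t) (C := -Real.log (κ / A) / Real.log t)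
      (by positivity) fun m => ?_
    have h1 := hlog m
    have h2 : Real.log d / Real.log t * m - -Real.log (κ / A) / Real.log t =
        ((m : ℝ) * Real.log d + Real.log (κ / A)) / Real.log t := by
      field_simp
      ring
    rw [h2, div_le_iff₀ hlt]
    exact h1
  obtain ⟨n, hn, hn0⟩ := exists_later F q hqs (jd F) hud n₀
  rw [hq0] at hn0
  exact hcrit n hn hn0

end Pool.Agent.Helper65.TB

end

section

/-!
# Embeddings of a number field in the algebraic closure of the p-adic numbers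
-/

set_option autoImplicit false

namespace Pool.Agent.Helper85.Sub

open NumberField Polynomial IsDedekindDomain

section A

variable {K : Type} [Field K] [NumberField K] {p : ℕ} [hp : Fact p.Prime]

lemma norm_le_one_of_isIntegral {x : PadicAlgCl p} (hx : IsIntegral ℤ x) : ‖x‖ ≤ 1 := by
  have h1 : x ∈ (NormedField.valuation (K := PadicAlgCl p)).integer := by
    refine (Valuation.integer.integers _).mem_of_integral ?_
    exact hx.tower_top
  rw [Valuation.mem_integer_iff] at h1
  exact_mod_cast h1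

lemma norm_emb_le_one (σ : K →+* PadicAlgCl p) (x : 𝓞 K) : ‖σ x‖ ≤ 1 := by
  refine norm_le_one_of_isIntegral ?_
  have := x.isIntegral_coe
  exact map_isIntegral_int σ this

lemma norm_p (σ : K →+* PadicAlgCl p) : ‖σ (p : K)‖ = (p : ℝ)⁻¹ := by
  rw [map_natCast, ← map_natCast (algebraMap ℚ_[p] (PadicAlgCl p))]
  rw [PadicAlgCl.norm_extends, Padic.norm_p]

/-- The prime ideal of an embedding. -/
noncomputable def qI (σ : K →+* PadicAlgCl p) : Ideal (𝓞 K) where
  carrier := {x | ‖σ x‖ < 1}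
  add_mem' := by
    intro a b ha hb
    simp only [Set.mem_ofPred_eq] at ha hb ⊢
    rw [show ((a + b : 𝓞 K) : K) = (a : K) + (b : K) from rfl, map_add]
    exact (IsUltrametricDist.norm_add_le_max _ _).trans_lt (max_lt ha hb)
  zero_mem' := by simp
  smul_mem' := by
    intro c x hx
    simp only [Set.mem_ofPred_eq] at hx ⊢
    rw [smul_eq_mul, show ((c * x : 𝓞 K) : K) = (c : K) * (x : K) from rfl, map_mul, norm_mul]
    exact mul_lt_one_of_nonneg_of_lt_one_right (norm_emb_le_one σ c) (norm_nonneg _) hx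

lemma mem_qI {σ : K →+* PadicAlgCl p} {x : 𝓞 K} : x ∈ qI σ ↔ ‖σ x‖ < 1 := Iff.rfl

/-- The prime ideal of an embedding. -/
noncomputable def qH (σ : K →+* PadicAlgCl p) : HeightOneSpectrum (𝓞 K) where
  asIdeal := qI σ
  isPrime := by
    refine ⟨?_, ?_⟩
    · intro h
      rw [Ideal.eq_top_iff_one, mem_qI] at h
      simp at h
    · intro x y hxy
      by_contra h
      push Not at h
      rw [mem_qI, mem_qI, not_lt, not_lt] at h
      rw [mem_qI, show ((x * y : 𝓞 K) : K) = (x : K) * (y : K) from rfl, map_mul,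
        norm_mul] at hxy
      nlinarith [h.1, h.2, norm_nonneg (σ (x:K)), norm_nonneg (σ (y:K))]
  ne_bot := by
    intro h
    have h1 : (p : 𝓞 K) ∈ qI σ := by
      rw [mem_qI]
      have : ((p : 𝓞 K) : K) = (p : K) := by simp
      rw [this, norm_p]
      exact inv_lt_one_of_one_lt₀ (by exact_mod_cast hp.out.one_lt)
    rw [h] at h1
    simp only [Ideal.mem_bot, Nat.cast_eq_zero] at h1
    exact hp.out.ne_zero h1

lemma mem_qH {σ : K →+* PadicAlgCl p} {x : 𝓞 K} : x ∈ (qH σ).asIdeal ↔ ‖σ x‖ < 1 := Iff.rfl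

lemma p_mem_qH (σ : K →+* PadicAlgCl p) : (p : 𝓞 K) ∈ (qH σ).asIdeal := by
  rw [mem_qH]
  have : ((p : 𝓞 K) : K) = (p : K) := by simp
  rw [this, norm_p]
  exact inv_lt_one_of_one_lt₀ (by exact_mod_cast hp.out.one_lt)

lemma norm_emb_eq_one {σ : K →+* PadicAlgCl p} {x : 𝓞 K} (hx : x ∉ (qH σ).asIdeal) :
    ‖σ x‖ = 1 := by
  rw [mem_qH, not_lt] at hx
  exact le_antisymm (norm_emb_le_one σ x) hx

/-- Norms of the ideals over `p` are powers of `p`. -/
lemma absNorm_pow (P : HeightOneSpectrum (𝓞 K)) (hP : (p : 𝓞 K) ∈ P.asIdeal) :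
    ∃ f : ℕ, f ≠ 0 ∧ Ideal.absNorm P.asIdeal = p ^ f := by
  have : P.asIdeal.LiesOver (Ideal.span {(p : ℤ)}) := by
    constructor
    have hmax : (Ideal.span {(p : ℤ)}).IsMaximal :=
      PrincipalIdealRing.isMaximal_of_irreducible (Nat.prime_iff_prime_int.mp hp.out).irreducible
    refine hmax.eq_of_le ?_ ?_
    · have := P.isPrime
      exact (Ideal.comap_isPrime (algebraMap ℤ (𝓞 K)) P.asIdeal).ne_top
    · rw [Ideal.span_singleton_le_iff_mem, Ideal.mem_under]
      simpa using hP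
  have h := Ideal.absNorm_eq_pow_inertiaDeg' P.asIdeal hp.out
  refine ⟨_, ?_, h⟩
  intro h0
  rw [h0, pow_zero] at h
  have := HeightOneSpectrum.one_lt_absNorm P
  omega

lemma mk_le_one_iff (P : HeightOneSpectrum (𝓞 K)) (x : K) :
    FinitePlace.mk P x ≤ 1 ↔ P.valuation K x ≤ 1 := by
  rw [FinitePlace.mk_apply, FinitePlace.norm_embedding']
  have h := WithZeroMulInt.toNNReal_strictMono (HeightOneSpectrum.one_lt_absNorm_nnreal P)
  rw [← NNReal.coe_one, NNReal.coe_le_coe,
    ← map_one (WithZeroMulInt.toNNReal (HeightOneSpectrum.absNorm_ne_zero P))]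
  exact h.le_iff_le

lemma mk_eq_zpow (P : HeightOneSpectrum (𝓞 K)) {x : K} (hx : x ≠ 0) :
    ∃ m : ℤ, FinitePlace.mk P x = (Ideal.absNorm P.asIdeal : ℝ) ^ m := by
  have h0 : P.valuation K x ≠ 0 := (Valuation.ne_zero_iff _).2 hx
  refine ⟨(WithZero.unzero h0).toAdd, ?_⟩
  rw [FinitePlace.mk_apply, FinitePlace.norm_embedding', WithZeroMulInt.toNNReal_neg_apply _ h0]
  push_cast
  rfl

lemma norm_le_one_of_mk_le_one (σ : K →+* PadicAlgCl p) {x : K}
    (hx : FinitePlace.mk (qH σ) x ≤ 1) : ‖σ x‖ ≤ 1 := by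
  rw [mk_le_one_iff] at hx
  obtain ⟨n, d, h⟩ := HeightOneSpectrum.exists_primeCompl_mul_eq_of_integer (qH σ) x hx
  have hd : ‖σ ((d : 𝓞 K) : K)‖ = 1 := norm_emb_eq_one d.2
  have h1 : ‖σ x‖ * ‖σ ((d : 𝓞 K) : K)‖ = ‖σ (n : K)‖ := by
    rw [← norm_mul, ← map_mul]
    rw [show x * ((d : 𝓞 K) : K) = (n : K) from h]
  rw [hd, mul_one] at h1
  rw [h1]
  exact norm_emb_le_one σ n

lemma norm_eq_one_of_mk_eq_one (σ : K →+* PadicAlgCl p) {x : K}
    (hx : FinitePlace.mk (qH σ) x = 1) : ‖σ x‖ = 1 := by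
  refine le_antisymm (norm_le_one_of_mk_le_one σ hx.le) ?_
  have h1 : FinitePlace.mk (qH σ) x⁻¹ ≤ 1 := by
    rw [map_inv₀, hx, inv_one]
  have h2 := norm_le_one_of_mk_le_one σ h1
  rw [map_inv₀, norm_inv] at h2
  by_contra h
  push Not at h
  have h3 : 0 < ‖σ x‖ := by
    rw [norm_pos_iff]
    intro h0
    have : x = 0 := by simpa using h0
    rw [this, map_zero] at hx
    exact zero_ne_one hx
  have := (one_lt_inv₀ h3).2 h
  linarith

/-- The place of the embedding is a power of its norm. -/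
lemma exists_pow (σ : K →+* PadicAlgCl p) :
    ∃ n : ℕ, n ≠ 0 ∧ ∀ x : K, FinitePlace.mk (qH σ) x = ‖σ x‖ ^ n := by
  obtain ⟨f, hf, hN⟩ := absNorm_pow (qH σ) (p_mem_qH σ)
  have hp1 : (1 : ℝ) < p := by exact_mod_cast hp.out.one_lt
  have hp0 : (p : K) ≠ 0 := by exact_mod_cast hp.out.ne_zero
  have hN1 : (1 : ℝ) < (Ideal.absNorm (qH σ).asIdeal : ℝ) := by
    exact_mod_cast HeightOneSpectrum.one_lt_absNorm (qH σ)
  have hNp : (Ideal.absNorm (qH σ).asIdeal : ℝ) = (p : ℝ) ^ f := by
    rw [hN]; push_cast; rfl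
  obtain ⟨e', he'⟩ := mk_eq_zpow (qH σ) hp0
  have hlt : FinitePlace.mk (qH σ) (p : K) < 1 := by
    have := (FinitePlace.norm_lt_one_iff_mem K (qH σ) (p : 𝓞 K)).2 (p_mem_qH σ)
    rw [FinitePlace.mk_apply]
    simpa using this
  have he'0 : e' < 0 := by
    rw [he'] at hlt
    by_contra h
    push Not at h
    have := one_le_zpow₀ hN1.le h
    linarith
  obtain ⟨e, he⟩ : ∃ e : ℕ, e' = -(e : ℤ) := ⟨e'.natAbs, by omega⟩
  have he0 : e ≠ 0 := by
    rintro rfl
    simp at he
    omega
  subst he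
  refine ⟨e * f, mul_ne_zero he0 hf, ?_⟩
  intro x
  by_cases hx : x = 0
  · subst hx
    rw [map_zero, map_zero, norm_zero, zero_pow (mul_ne_zero he0 hf)]
  obtain ⟨m, hm⟩ := mk_eq_zpow (qH σ) hx
  have hy : FinitePlace.mk (qH σ) (x ^ e * (p : K) ^ m) = 1 := by
    rw [map_mul, map_pow, map_zpow₀, hm, he', ← zpow_natCast, ← zpow_mul, ← zpow_mul,
      ← zpow_add₀ (by linarith : (Ideal.absNorm (qH σ).asIdeal : ℝ) ≠ 0)]
    have : m * (e : ℤ) + -(e : ℤ) * m = 0 := by ring
    rw [this, zpow_zero]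
  have h1 := norm_eq_one_of_mk_eq_one σ hy
  rw [map_mul, map_pow, map_zpow₀, norm_mul, norm_pow, norm_zpow, norm_p, inv_zpow] at h1
  have hpm : (p : ℝ) ^ m ≠ 0 := zpow_ne_zero _ (by linarith)
  have h2 : ‖σ x‖ ^ e = (p : ℝ) ^ m := by
    field_simp at h1
    exact h1
  rw [hm, pow_mul, h2, hNp, ← zpow_natCast, ← zpow_natCast, ← zpow_mul, ← zpow_mul, mul_comm]

end A

end Pool.Agent.Helper85.Sub

end

section

/-!
# Counting the embeddings over a prime ideal; conjugacy
-/

set_option autoImplicit false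

namespace Pool.Agent.Helper85.Sub

open NumberField Polynomial IsDedekindDomain

section B

variable {K : Type} [Field K] [NumberField K] {p : ℕ} [hp : Fact p.Prime]

/-- A generator of a power of a prime ideal. -/
lemma exists_gen (P : HeightOneSpectrum (𝓞 K)) :
    ∃ (h : ℕ) (x : 𝓞 K), h ≠ 0 ∧ x ≠ 0 ∧ Ideal.span {x} = P.asIdeal ^ h := by
  have hP : P.asIdeal ∈ nonZeroDivisors (Ideal (𝓞 K)) :=
    mem_nonZeroDivisors_of_ne_zero P.ne_bot
  set h := Fintype.card (ClassGroup (𝓞 K)) with hh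
  have h1 : (ClassGroup.mk0 ⟨P.asIdeal, hP⟩) ^ h = 1 := pow_card_eq_one
  rw [← map_pow] at h1
  have h2 : (P.asIdeal ^ h) ∈ nonZeroDivisors (Ideal (𝓞 K)) := pow_mem hP h
  have h3 : ClassGroup.mk0 ⟨P.asIdeal ^ h, h2⟩ = 1 := by
    rw [← h1]
    congr 1
  rw [ClassGroup.mk0_eq_one_iff] at h3
  obtain ⟨x, hx⟩ := h3
  refine ⟨h, x, Fintype.card_ne_zero, ?_, hx.symm⟩
  rintro rfl
  have h4 : P.asIdeal ^ h = ⊥ := by
    rw [hx]; simp
  exact P.ne_bot (eq_zero_of_pow_eq_zero h4)
where
  eq_zero_of_pow_eq_zero {I : Ideal (𝓞 K)} {h : ℕ} (hI : I ^ h = ⊥) : I = ⊥ :=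
    pow_eq_zero_iff_of_pos' hI
  pow_eq_zero_iff_of_pos' {I : Ideal (𝓞 K)} {h : ℕ} (hI : I ^ h = 0) : I = 0 :=
    pow_eq_zero_iff_aux hI
  pow_eq_zero_iff_aux {I : Ideal (𝓞 K)} {h : ℕ} (hI : I ^ h = 0) : I = 0 :=
    (eq_zero_or_neZero I).elim id (fun hn => absurd hI (pow_ne_zero h hn.1))

lemma mk_eq_inv_pow (P : HeightOneSpectrum (𝓞 K)) {h : ℕ} {x : 𝓞 K} (hx : x ≠ 0)
    (hxP : Ideal.span {x} = P.asIdeal ^ h) :
    FinitePlace.mk P (x : K) = ((Ideal.absNorm P.asIdeal : ℝ) ^ h)⁻¹ := by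
  have h1 := FinitePlace.apply_mul_absNorm_pow_eq_one (FinitePlace.mk P) hx
  rw [FinitePlace.maximalIdeal_mk, hxP, multiplicity_pow_self P.ne_bot
    (fun hu => P.isPrime.ne_top (Ideal.isUnit_iff.1 hu))] at h1
  exact eq_inv_of_mul_eq_one_left h1

lemma prod_norm (P : HeightOneSpectrum (𝓞 K)) (hP : (p : 𝓞 K) ∈ P.asIdeal) {h : ℕ} {x : 𝓞 K}
    (hx : x ≠ 0) (hxP : Ideal.span {x} = P.asIdeal ^ h) :
    ∏ σ : K →+* PadicAlgCl p, ‖σ (x : K)‖ = FinitePlace.mk P (x : K) := by
  obtain ⟨f, hf, hN⟩ := absNorm_pow P hP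
  have h1 := Algebra.norm_eq_prod_embeddings (L := K) ℚ (PadicAlgCl p) (x : K)
  have h2 : ∏ σ : K →+* PadicAlgCl p, σ (x : K) = ∏ σ : K →ₐ[ℚ] PadicAlgCl p, σ (x : K) := by
    refine Fintype.prod_equiv (RingHom.equivRatAlgHom K (PadicAlgCl p)) _ _ ?_
    intro σ
    rfl
  rw [← norm_prod, h2, ← h1, ← Algebra.coe_norm_int, mk_eq_inv_pow P hx hxP]
  have h3 : Ideal.absNorm (Ideal.span {x}) = (Algebra.norm ℤ x).natAbs :=
    Ideal.absNorm_span_singleton x
  rw [hxP, map_pow, hN, ← pow_mul] at h3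
  have h4 : ‖(algebraMap ℚ (PadicAlgCl p)) ((Algebra.norm ℤ x : ℤ) : ℚ)‖
      = ‖((Algebra.norm ℤ x).natAbs : ℚ_[p])‖ := by
    rw [map_intCast, ← map_intCast (algebraMap ℚ_[p] (PadicAlgCl p)), PadicAlgCl.norm_extends]
    rcases Int.natAbs_eq (Algebra.norm ℤ x) with h5 | h5
    · conv_lhs => rw [h5]
      simp
    · conv_lhs => rw [h5]
      simp
  rw [h4, ← h3, hN]
  push_cast
  rw [norm_pow, Padic.norm_p, inv_pow, pow_mul]

lemma mk_lt_one_of_gen (P : HeightOneSpectrum (𝓞 K)) {h : ℕ} {x : 𝓞 K} (h0 : h ≠ 0)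
    (hxP : Ideal.span {x} = P.asIdeal ^ h) : FinitePlace.mk P (x : K) < 1 := by
  have := (FinitePlace.norm_lt_one_iff_mem K P x).2 ?_
  · exact this
  · have h1 : x ∈ P.asIdeal ^ h := by
      rw [← hxP]; exact Ideal.mem_span_singleton_self x
    exact Ideal.pow_le_self h0 h1

/-- The number of embeddings over `P` and their absolute values. -/
lemma card_fiber (P : HeightOneSpectrum (𝓞 K)) (hP : (p : 𝓞 K) ∈ P.asIdeal) :
    ∃ n : ℕ, n ≠ 0 ∧ (∃ σ₀ : K →+* PadicAlgCl p, qH σ₀ = P) ∧
      Nat.card {σ : K →+* PadicAlgCl p // qH σ = P} = n ∧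
      ∀ σ : K →+* PadicAlgCl p, qH σ = P → ∀ x : K, FinitePlace.mk P x = ‖σ x‖ ^ n := by
  classical
  obtain ⟨h, x, h0, hx, hxP⟩ := exists_gen P
  have hprod := prod_norm P hP hx hxP
  have hlt := mk_lt_one_of_gen P h0 hxP
  have hpos : 0 < FinitePlace.mk P (x : K) := by
    rw [FinitePlace.pos_iff]
    exact_mod_cast hx
  have hout : ∀ σ : K →+* PadicAlgCl p, qH σ ≠ P → ‖σ (x : K)‖ = 1 := by
    intro σ hσ
    refine norm_emb_eq_one ?_
    intro hmem
    apply hσ
    have h1 : P.asIdeal ^ h ≤ (qH σ).asIdeal := by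
      rw [← hxP, Ideal.span_singleton_le_iff_mem]
      exact hmem
    have h2 : P.asIdeal ≤ (qH σ).asIdeal := (qH σ).isPrime.le_of_pow_le h1
    have h3 : P.asIdeal = (qH σ).asIdeal := P.isMaximal.eq_of_le (qH σ).isPrime.ne_top h2
    exact (HeightOneSpectrum.ext h3).symm
  have hne : ∃ σ₀ : K →+* PadicAlgCl p, qH σ₀ = P := by
    by_contra hcon
    push Not at hcon
    rw [Finset.prod_eq_one (fun σ _ => hout σ (hcon σ))] at hprod
    linarith
  obtain ⟨σ₀, hσ₀⟩ := hne
  obtain ⟨n, hn0, hn⟩ := exists_pow σ₀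
  rw [hσ₀] at hn
  have hp1 : (1 : ℝ) < p := by exact_mod_cast hp.out.one_lt
  have hall : ∀ σ : K →+* PadicAlgCl p, qH σ = P → ∀ x : K, FinitePlace.mk P x = ‖σ x‖ ^ n := by
    intro σ hσ
    obtain ⟨m, hm0, hm⟩ := exists_pow σ
    rw [hσ] at hm
    have h1 := hn (p : K)
    rw [hm (p : K), norm_p, norm_p] at h1
    have h2 : m = n := by
      refine pow_right_injective₀ (M₀ := ℝ) (a := (p : ℝ)⁻¹) (by positivity) ?_ h1
      intro h3
      rw [inv_eq_one] at h3
      linarith
    rw [← h2]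
    exact hm
  refine ⟨n, hn0, ⟨σ₀, hσ₀⟩, ?_, hall⟩
  rw [Nat.card_eq_fintype_card, Fintype.card_subtype]
  set c := (Finset.univ.filter (fun σ : K →+* PadicAlgCl p => qH σ = P)).card with hc
  have h1 : ∏ σ : K →+* PadicAlgCl p, ‖σ (x : K)‖ ^ n = (FinitePlace.mk P (x : K)) ^ c := by
    rw [← Finset.prod_filter_mul_prod_filter_not Finset.univ (fun σ => qH σ = P)]
    rw [Finset.prod_congr rfl (g := fun _ => FinitePlace.mk P (x : K))
      (s₁ := Finset.univ.filter (fun σ : K →+* PadicAlgCl p => qH σ = P))]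
    · rw [Finset.prod_const, ← hc]
      rw [Finset.prod_eq_one, mul_one]
      intro σ hσ
      rw [hout σ (Finset.mem_filter.1 hσ).2, one_pow]
    · intro σ hσ
      exact (hall σ (Finset.mem_filter.1 hσ).2 x).symm
  rw [Finset.prod_pow, hprod] at h1
  have h2 := pow_right_injective₀ hpos hlt.ne h1
  exact h2.symm

/-- Embeddings with the same absolute value are conjugate over `ℚ_p`. -/
lemma isConjRoot_of_norm_eq {σ σ' : K →+* PadicAlgCl p} (h : ∀ x : K, ‖σ x‖ = ‖σ' x‖) (θ : K) :
    IsConjRoot ℚ_[p] (σ θ) (σ' θ) := by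
  classical
  set g := minpoly ℚ_[p] (σ θ) with hg
  have hint : IsIntegral ℚ_[p] (σ θ) := Algebra.IsIntegral.isIntegral _
  have hint' : IsIntegral ℚ_[p] (σ' θ) := Algebra.IsIntegral.isIntegral _
  have key : aeval (σ' θ) g = 0 := by
    by_contra hne
    have hpos : 0 < ‖aeval (σ' θ) g‖ := norm_pos_iff.2 hne
    set R : ℝ := max 1 (max ‖σ θ‖ ‖σ' θ‖) with hR
    have hR1 : 1 ≤ R := le_max_left _ _
    set δ : ℝ := ‖aeval (σ' θ) g‖ / (2 * R ^ g.natDegree) with hδ
    have hδ0 : 0 < δ := by positivity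
    -- choose rational approximations
    have happ : ∀ i : ℕ, ∃ q : ℚ, ‖(q : ℚ_[p]) - g.coeff i‖ < δ := by
      intro i
      obtain ⟨q, hq⟩ := Padic.rat_dense p (g.coeff i) hδ0
      refine ⟨q, ?_⟩
      rw [← norm_neg]
      simpa using hq
    choose q hq using happ
    set r : ℚ[X] := ∑ i ∈ Finset.range (g.natDegree + 1), C (q i) * X ^ i with hr
    have heval : ∀ τ : K →+* PadicAlgCl p, ‖τ θ‖ ≤ R →
        ‖τ (aeval θ r) - aeval (τ θ) g‖ ≤ δ * R ^ g.natDegree := by
      intro τ hτ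
      have h1 : τ (aeval θ r) - aeval (τ θ) g = ∑ i ∈ Finset.range (g.natDegree + 1),
          algebraMap ℚ_[p] (PadicAlgCl p) ((q i : ℚ_[p]) - g.coeff i) * (τ θ) ^ i := by
        rw [aeval_eq_sum_range (p := g), hr, map_sum, map_sum, ← Finset.sum_sub_distrib]
        refine Finset.sum_congr rfl ?_
        intro i _
        rw [map_mul, aeval_C, map_pow, aeval_X, map_mul, map_pow, Algebra.smul_def, map_sub,
          sub_mul]
        congr 2
        rw [eq_ratCast, map_ratCast, map_ratCast]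
      rw [h1]
      refine IsUltrametricDist.norm_sum_le_of_forall_le_of_nonneg (by positivity) ?_
      intro i hi
      rw [norm_mul, norm_pow, PadicAlgCl.norm_extends]
      have h2 : ‖τ θ‖ ^ i ≤ R ^ g.natDegree := by
        calc ‖τ θ‖ ^ i ≤ R ^ i := pow_le_pow_left₀ (norm_nonneg _) hτ i
          _ ≤ R ^ g.natDegree := pow_le_pow_right₀ hR1 (by
              have := Finset.mem_range.1 hi; omega)
      exact mul_le_mul (hq i).le h2 (by positivity) hδ0.le
    have hδR : δ * R ^ g.natDegree = ‖aeval (σ' θ) g‖ / 2 := by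
      rw [hδ]
      field_simp
    have e1 := heval σ ((le_max_left _ _).trans (le_max_right _ _))
    have e2 := heval σ' ((le_max_right _ _).trans (le_max_right _ _))
    rw [hg, minpoly.aeval, ← hg, sub_zero, hδR, h] at e1
    rw [hδR] at e2
    have e3 : ‖aeval (σ' θ) g‖ ≤ max ‖σ' (aeval θ r)‖ ‖σ' (aeval θ r) - aeval (σ' θ) g‖ := by
      have : aeval (σ' θ) g = σ' (aeval θ r) + -(σ' (aeval θ r) - aeval (σ' θ) g) := by ring
      conv_lhs => rw [this]
      refine (IsUltrametricDist.norm_add_le_max _ _).trans ?_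
      rw [norm_neg]
    have e4 := e3.trans (max_le e1 e2)
    linarith
  rw [isConjRoot_iff_aeval_eq_zero hint]
  exact key

end B

end Pool.Agent.Helper85.Sub

end

section

namespace Pool.Agent.Helper10.Sub
end Pool.Agent.Helper10.Sub

/-!
# A model of the local field of a number field at a finite place
-/

set_option autoImplicit false

namespace Pool.Agent.Helper85.Sub

open Pool.Agent.Helper10.Sub NumberField Polynomial IsDedekindDomain

section C

variable {K : Type} [Field K] [NumberField K]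

lemma exists_prime_mem (P : HeightOneSpectrum (𝓞 K)) :
    ∃ p : ℕ, p.Prime ∧ (p : 𝓞 K) ∈ P.asIdeal := by
  classical
  have hex : ∃ n : ℕ, n ≠ 0 ∧ (n : 𝓞 K) ∈ P.asIdeal := by
    refine ⟨Ideal.absNorm P.asIdeal, ?_, Ideal.absNorm_mem _⟩
    have := HeightOneSpectrum.one_lt_absNorm P
    omega
  set n := Nat.find hex with hn
  obtain ⟨hn0, hnP⟩ := Nat.find_spec hex
  refine ⟨n, ?_, hnP⟩
  rw [Nat.prime_def]
  have hn1 : n ≠ 1 := by
    intro h1
    rw [← hn, h1] at hnP
    apply P.isPrime.ne_top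
    rw [Ideal.eq_top_iff_one]
    simpa using hnP
  refine ⟨by omega, ?_⟩
  intro m hm
  obtain ⟨k, hk⟩ := hm
  have hm0 : m ≠ 0 := by rintro rfl; simp at hk; omega
  have hk0 : k ≠ 0 := by rintro rfl; simp at hk; omega
  have hmem : ((m : 𝓞 K) * (k : 𝓞 K)) ∈ P.asIdeal := by
    rw [← Nat.cast_mul, ← hk]
    exact hnP
  rcases P.isPrime.mem_or_mem hmem with h | h
  · right
    have h1 : n ≤ m := Nat.find_min' hex ⟨hm0, h⟩
    have h2 : m ≤ n := by
      rw [hk]; exact Nat.le_mul_of_pos_right m (Nat.pos_of_ne_zero hk0)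
    omega
  · left
    have h1 : n ≤ k := Nat.find_min' hex ⟨hk0, h⟩
    have h2 : m * k ≤ k := by rw [← hk]; exact h1
    have h3 : m ≤ 1 := by
      by_contra h4
      push Not at h4
      nlinarith [Nat.pos_of_ne_zero hk0]
    omega

variable (K) (p : ℕ) [hp : Fact p.Prime]

/-- The polynomial of a primitive element over `ℚ_p`. -/
noncomputable def gpoly : ℚ_[p][X] :=
  (minpoly ℚ (Field.powerBasisOfFiniteOfSeparable ℚ K).gen).map (algebraMap ℚ ℚ_[p])

/-- The splitting field of the polynomial of a primitive element. -/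
noncomputable def FF : IntermediateField ℚ_[p] (PadicAlgCl p) :=
  IntermediateField.adjoin ℚ_[p] ((gpoly K p).rootSet (PadicAlgCl p))

lemma gpoly_ne_zero : gpoly K p ≠ 0 := by
  rw [gpoly, Polynomial.map_ne_zero_iff (algebraMap ℚ ℚ_[p]).injective]
  exact minpoly.ne_zero (Algebra.IsIntegral.isIntegral _)

lemma ff_finite : FiniteDimensional ℚ_[p] (FF K p) := by
  have : Finite ((gpoly K p).rootSet (PadicAlgCl p)) := by
    have := Polynomial.rootSet_finite (gpoly K p) (PadicAlgCl p)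
    exact this.to_subtype
  exact IntermediateField.finiteDimensional_adjoin (fun x _ => Algebra.IsIntegral.isIntegral x)

lemma ff_normal : Normal ℚ_[p] (FF K p) := by
  have : IsSplittingField ℚ_[p] (FF K p) (gpoly K p) :=
    IntermediateField.adjoin_rootSet_isSplittingField (IsAlgClosed.splits _)
  exact Normal.of_isSplittingField (gpoly K p)

variable {K p}

lemma mem_ff (σ : K →+* PadicAlgCl p) (x : K) : σ x ∈ FF K p := by
  set pb := Field.powerBasisOfFiniteOfSeparable ℚ K with hpb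
  have hθ : σ pb.gen ∈ FF K p := by
    apply IntermediateField.subset_adjoin
    rw [Polynomial.mem_rootSet]
    refine ⟨gpoly_ne_zero K p, ?_⟩
    rw [gpoly, aeval_map_algebraMap]
    have h1 := minpoly.aeval ℚ pb.gen
    have h2 := congrArg (RingHom.equivRatAlgHom K (PadicAlgCl p) σ) h1
    rw [map_zero, ← Polynomial.aeval_algHom_apply] at h2
    exact h2
  obtain ⟨f, hf⟩ := pb.exists_eq_aeval' x
  rw [hf, aeval_eq_sum_range, map_sum]
  refine sum_mem ?_
  intro i _
  rw [Algebra.smul_def, map_mul, map_pow]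
  refine mul_mem ?_ (pow_mem hθ i)
  rw [eq_ratCast, map_ratCast]
  exact SubfieldClass.ratCast_mem _ _

/-- Restriction of an embedding to the splitting field. -/
noncomputable def lift (σ : K →+* PadicAlgCl p) : K →+* FF K p :=
  σ.codRestrict (FF K p) (mem_ff σ)

/-- Embeddings in the splitting field and in the algebraic closure. -/
noncomputable def liftEquiv : (K →+* FF K p) ≃ (K →+* PadicAlgCl p) where
  toFun σ := ((FF K p).val : FF K p →+* PadicAlgCl p).comp σ
  invFun σ := lift σ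
  left_inv σ := by
    ext x
    rfl
  right_inv σ := by
    ext x
    rfl

/-- The normed field structure on the splitting field. -/
noncomputable instance instNNF : NontriviallyNormedField (FF K p) where
  toNormedField := inferInstance
  non_trivial := by
    obtain ⟨x, hx⟩ := NontriviallyNormedField.non_trivial (α := ℚ_[p])
    refine ⟨algebraMap ℚ_[p] (FF K p) x, ?_⟩
    change 1 < ‖algebraMap ℚ_[p] (PadicAlgCl p) x‖
    rw [PadicAlgCl.norm_extends]
    exact hx

lemma ff_norm (z : FF K p) : ‖z‖ = ‖(z : PadicAlgCl p)‖ := rfl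

noncomputable instance instNA : NormedAlgebra ℚ_[p] (FF K p) where
  norm_smul_le := by
    intro r x
    rw [ff_norm, ff_norm]
    exact norm_smul_le r (x : PadicAlgCl p)

lemma ff_spectral (z : FF K p) : ‖z‖ = spectralNorm ℚ_[p] (FF K p) z := by
  rw [spectralNorm.eq_of_tower (L := PadicAlgCl p), ff_norm]
  rfl

lemma ff_norm_equiv (τ : FF K p ≃ₐ[ℚ_[p]] FF K p) (z : FF K p) : ‖τ z‖ = ‖z‖ := by
  rw [ff_spectral, ff_spectral]
  exact (spectralNorm_eq_of_equiv τ z).symm

lemma ff_span : Submodule.span ℚ_[p] {x : FF K p | IsAlgebraic ℚ x} = ⊤ := by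
  rw [eq_top_iff]
  intro z _
  have hz : (z : PadicAlgCl p) ∈ Algebra.adjoin ℚ_[p] ((gpoly K p).rootSet (PadicAlgCl p)) := by
    rw [← IntermediateField.adjoin_toSubalgebra_of_isAlgebraic
      (fun x _ => Algebra.IsAlgebraic.isAlgebraic x)]
    exact z.2
  rw [← Subalgebra.mem_toSubmodule, Algebra.adjoin_eq_span] at hz
  have hW : Submodule.span ℚ_[p] (Submonoid.closure ((gpoly K p).rootSet (PadicAlgCl p)) :
      Set (PadicAlgCl p)) ≤
      (Submodule.span ℚ_[p] {x : FF K p | IsAlgebraic ℚ x}).map (FF K p).val.toLinearMap := by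
    rw [Submodule.span_le]
    intro s hs
    have h1 : s ∈ FF K p ∧ IsAlgebraic ℚ s := by
      refine Submonoid.closure_induction (motive := fun s _ => s ∈ FF K p ∧ IsAlgebraic ℚ s)
        ?_ ?_ ?_ hs
      · intro x hx
        refine ⟨IntermediateField.subset_adjoin _ _ hx, ?_⟩
        rw [Polynomial.mem_rootSet, gpoly, aeval_map_algebraMap] at hx
        exact ⟨_, minpoly.ne_zero (Algebra.IsIntegral.isIntegral _), hx.2⟩
      · exact ⟨one_mem _, isAlgebraic_one⟩
      · intro x y _ _ hx hy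
        exact ⟨mul_mem hx.1 hy.1, hx.2.mul hy.2⟩
    refine ⟨⟨s, h1.1⟩, Submodule.subset_span ?_, rfl⟩
    obtain ⟨q, hq0, hq⟩ := h1.2
    refine ⟨q, hq0, ?_⟩
    apply (FF K p).val.injective
    rw [map_zero, ← hq]
    rw [aeval_eq_sum_range, aeval_eq_sum_range, map_sum]
    refine Finset.sum_congr rfl ?_
    intro i _
    rw [Algebra.smul_def, Algebra.smul_def, map_mul, map_pow]
    rw [eq_ratCast, eq_ratCast, map_ratCast]
    rfl
  obtain ⟨w, hw, hwz⟩ := hW hz
  have : w = z := Subtype.ext hwz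
  rw [← this]
  exact hw

end C

end Pool.Agent.Helper85.Sub

end

section

namespace Pool.Agent.Helper10.Sub
end Pool.Agent.Helper10.Sub

open Module

set_option linter.unusedSectionVars false

namespace Pool.Agent.Helper98.Sub

open Pool.Agent.Helper10.Sub

section fin

variable {T : Type} [Fintype T] {p : T → ℕ} [∀ t, Fact (p t).Prime]

lemma one_lt_norm_of_dvd_den (q : ℕ) [Fact q.Prime] {r : ℚ} (h : q ∣ r.den) :
    1 < ‖(r : ℚ_[q])‖ := by
  have h1 : (r : ℚ_[q]) = (r.num : ℚ_[q]) / (r.den : ℚ_[q]) := by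
    conv_lhs => rw [← Rat.num_div_den r]
    push_cast; rfl
  have h2 : ‖((r.den : ℤ) : ℚ_[q])‖ < 1 := by
    rw [Padic.norm_intCast_lt_one_iff]
    exact_mod_cast h
  have h3 : ‖(r.num : ℚ_[q])‖ = 1 := by
    refine le_antisymm (Padic.norm_int_le_one _) ?_
    by_contra hcon
    push Not at hcon
    rw [Padic.norm_intCast_lt_one_iff] at hcon
    have h4 : q ∣ r.num.natAbs := Int.natCast_dvd.1 hcon
    have h5 : q ∣ Nat.gcd r.num.natAbs r.den := Nat.dvd_gcd h4 h
    rw [r.reduced.gcd_eq_one] at h5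
    exact (Fact.out : q.Prime).one_lt.ne' (Nat.dvd_one.1 h5)
  rw [h1, norm_div, h3]
  have h6 : 0 < ‖(r.den : ℚ_[q])‖ := by
    rw [norm_pos_iff]
    exact_mod_cast r.den_ne_zero
  rw [one_lt_div h6]
  exact_mod_cast h2

/-- Rational numbers in `ℤ[1/P]` of bounded size at all places form a finite set. -/
lemma finite_bounded (c : ℝ) :
    {x : ℚ | PInt (pprod p) x ∧ |(x : ℝ)| ≤ c ∧ ∀ t, ‖(x : ℚ_[p t])‖ ≤ c}.Finite := by
  obtain ⟨m, hm⟩ := pow_unbounded_of_one_lt c (by norm_num : (1 : ℝ) < 2)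
  have hP0 : pprod p ≠ 0 := Finset.prod_ne_zero_iff.2 fun t _ => (Fact.out : (p t).Prime).ne_zero
  have key : ∀ x : ℚ, PInt (pprod p) x → (∀ t, ‖(x : ℚ_[p t])‖ ≤ c) →
      ∃ z : ℤ, x * (pprod p : ℚ) ^ m = z := by
    rintro x ⟨k, z, hz⟩ hx
    set r := x * (pprod p : ℚ) ^ m with hr
    have hden : r.den = 1 := by
      by_contra hne
      obtain ⟨q, hq, hqd⟩ := Nat.exists_prime_and_dvd hne
      -- q divides P
      have h1 : r * (pprod p : ℚ) ^ k = z * (pprod p : ℚ) ^ m := by
        rw [hr, ← hz]; ring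
      have hqP : q ∣ pprod p := by
        haveI := Fact.mk hq
        by_contra hqP
        have h2 : ‖((pprod p : ℚ) : ℚ_[q])‖ = 1 := by
          refine le_antisymm ?_ ?_
          · exact_mod_cast Padic.norm_int_le_one (p := q) (pprod p : ℤ)
          · by_contra hcon
            push Not at hcon
            have h3 : ‖((pprod p : ℤ) : ℚ_[q])‖ < 1 := by exact_mod_cast hcon
            rw [Padic.norm_intCast_lt_one_iff] at h3
            exact hqP (by exact_mod_cast h3)
        have h4 := one_lt_norm_of_dvd_den q hqd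
        have h5 : ‖((r * (pprod p : ℚ) ^ k : ℚ) : ℚ_[q])‖ ≤ 1 := by
          rw [h1]
          push_cast
          rw [norm_mul, norm_pow]
          have h6 := Padic.norm_int_le_one (p := q) z
          have h7 : ‖(pprod p : ℚ_[q])‖ = 1 := by exact_mod_cast h2
          rw [h7]; simpa using h6
        rw [Rat.cast_mul, norm_mul, Rat.cast_pow, norm_pow, h2, one_pow, mul_one] at h5
        linarith
      obtain ⟨t, -, ht⟩ := (Prime.dvd_finset_prod_iff hq.prime _).1 hqP
      have hqt : q = p t := (Nat.prime_dvd_prime_iff_eq hq (Fact.out)).1 ht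
      subst hqt
      have h4 := one_lt_norm_of_dvd_den (p t) hqd
      have h5 : ‖(r : ℚ_[p t])‖ ≤ c * (2⁻¹) ^ m := by
        rw [hr]
        push_cast
        rw [norm_mul, norm_pow]
        have h6 : ‖(pprod p : ℚ_[p t])‖ ≤ 2⁻¹ := by
          obtain ⟨w, hw⟩ := hqP
          rw [hw]
          push_cast
          rw [norm_mul, Padic.norm_p]
          have h7 : ‖(w : ℚ_[p t])‖ ≤ 1 := by exact_mod_cast Padic.norm_int_le_one (p := p t) (w : ℤ)
          have h8 : ((p t : ℝ))⁻¹ ≤ 2⁻¹ := by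
            apply inv_anti₀ (by norm_num)
            exact_mod_cast (Fact.out : (p t).Prime).two_le
          calc ((p t : ℝ))⁻¹ * ‖(w : ℚ_[p t])‖ ≤ 2⁻¹ * 1 := by gcongr
            _ = 2⁻¹ := mul_one _
        have hx' := hx t
        have hc0 : 0 ≤ c := (norm_nonneg _).trans hx'
        gcongr
      have h9 : c * (2⁻¹) ^ m < 1 := by
        rw [inv_pow, ← div_eq_mul_inv, div_lt_one (by positivity)]
        exact hm
      linarith
    exact ⟨r.num, by
      conv_lhs => rw [← Rat.num_div_den r]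
      rw [hden]; simp⟩
  have hfin : (Set.Icc (-⌈c * (pprod p : ℝ) ^ m⌉) ⌈c * (pprod p : ℝ) ^ m⌉).Finite :=
    Set.finite_Icc _ _
  refine (hfin.image (fun z : ℤ => (z : ℚ) / (pprod p : ℚ) ^ m)).subset ?_
  rintro x ⟨h1, h2, h3⟩
  obtain ⟨z, hz⟩ := key x h1 h3
  have hPq : (pprod p : ℚ) ^ m ≠ 0 := by
    apply pow_ne_zero
    exact_mod_cast hP0
  refine ⟨z, ?_, ?_⟩
  · have h4 : |(z : ℝ)| ≤ c * (pprod p : ℝ) ^ m := by
      have h5 : (z : ℝ) = (x : ℝ) * (pprod p : ℝ) ^ m := by
        have : ((z : ℚ) : ℝ) = ((x * (pprod p : ℚ) ^ m : ℚ) : ℝ) := by rw [hz]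
        push_cast at this
        exact this
      rw [h5, abs_mul, abs_pow, Nat.abs_cast]
      gcongr
    rw [abs_le] at h4
    constructor
    · have h5 := (Int.le_ceil (c * (pprod p : ℝ) ^ m))
      have : (-(⌈c * (pprod p : ℝ) ^ m⌉ : ℤ) : ℝ) ≤ z := by linarith
      exact_mod_cast this
    · have h5 := (Int.le_ceil (c * (pprod p : ℝ) ^ m))
      have : (z : ℝ) ≤ (⌈c * (pprod p : ℝ) ^ m⌉ : ℤ) := by linarith
      exact_mod_cast this
  · simp only
    rw [← hz, mul_div_cancel_right₀ _ hPq]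

end fin

section emb

variable {K : Type} [Field K] [NumberField K]

variable {J : Type} [Fintype J] [DecidableEq J] (ω : Basis J ℚ K)

/-- The matrix of the embeddings is invertible. -/
lemma det_emb_ne_zero {C : Type} [Field C] [CharZero C] (e : J → (K →+* C))
    (he : Function.Injective e) : (Matrix.of fun j j' => e j (ω j')).det ≠ 0 := by
  intro h0
  obtain ⟨v, hv0, hv⟩ := Matrix.exists_vecMul_eq_zero_iff.2 h0
  apply hv0
  have h1 : ∀ y : K, ∑ j, v j * e j y = 0 := by
    intro y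
    have h2 : ∀ j', ∑ j, v j * e j (ω j') = 0 := fun j' => congrFun hv j'
    have h3 : ∀ j, e j y = ∑ j', ((ω.repr y j' : ℚ) : C) * e j (ω j') := by
      intro j
      conv_lhs => rw [← ω.sum_repr y]
      rw [map_sum]
      refine Finset.sum_congr rfl fun j' _ => ?_
      rw [Rat.smul_def, map_mul, map_ratCast]
    calc ∑ j, v j * e j y = ∑ j, ∑ j', ((ω.repr y j' : ℚ) : C) * (v j * e j (ω j')) := by
          refine Finset.sum_congr rfl fun j _ => ?_
          rw [h3, Finset.mul_sum]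
          refine Finset.sum_congr rfl fun j' _ => ?_
          ring
      _ = ∑ j', ((ω.repr y j' : ℚ) : C) * ∑ j, v j * e j (ω j') := by
          rw [Finset.sum_comm]
          refine Finset.sum_congr rfl fun j' _ => ?_
          rw [Finset.mul_sum]
      _ = 0 := by
          refine Finset.sum_eq_zero fun j' _ => ?_
          rw [h2, mul_zero]
  have hli : LinearIndependent C (fun f : K →* C => (f : K → C)) := linearIndependent_monoidHom K C
  have hinj : Function.Injective (fun j : J => ((e j : K →+* C) : K →* C)) := by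
    intro a b hab
    apply he
    ext x
    exact DFunLike.congr_fun hab x
  have hli2 := hli.comp _ hinj
  rw [Fintype.linearIndependent_iff] at hli2
  funext j
  apply hli2 v
  funext y
  simp only [Function.comp, Finset.sum_apply, Pi.smul_apply, smul_eq_mul, Pi.zero_apply]
  exact h1 y

/-- The block matrix of the forms `∑ k, l σ i k * σ (y k)` in the coordinates. -/
noncomputable def blk {M : ℕ} {C : Type} [Field C] (e : J → (K →+* C)) (L : (K →+* C) → Matrix (Fin M) (Fin M) C) :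
    Matrix (Fin M × J) (Fin M × J) C :=
  Matrix.of fun r q => L (e r.2) r.1 q.1 * e r.2 (ω q.2)

/-- Coordinates. -/
noncomputable def co (M : ℕ) : (Fin M → K) ≃ₗ[ℚ] (Fin M × J → ℚ) :=
  (LinearEquiv.piCongrRight fun _ : Fin M => ω.equivFun).trans
    (LinearEquiv.curry ℚ ℚ (Fin M) J).symm

lemma co_apply {M : ℕ} (y : Fin M → K) (q : Fin M × J) : co ω M y q = ω.repr (y q.1) q.2 := rfl

lemma emb_repr {C : Type} [Field C] [CharZero C] (e : K →+* C) (y : K) :
    e y = ∑ j', ((ω.repr y j' : ℚ) : C) * e (ω j') := by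
  conv_lhs => rw [← ω.sum_repr y]
  rw [map_sum]
  refine Finset.sum_congr rfl fun j' _ => ?_
  rw [Rat.smul_def, map_mul, map_ratCast]

lemma blk_row {M : ℕ} {C : Type} [Field C] [CharZero C] (e : J → (K →+* C))
    (L : (K →+* C) → Matrix (Fin M) (Fin M) C) (y : Fin M → K) (r : Fin M × J) :
    ∑ q, blk ω e L r q * ((co ω M y q : ℚ) : C) = ∑ k, L (e r.2) r.1 k * e r.2 (y k) := by
  rw [Fintype.sum_prod_type]
  refine Finset.sum_congr rfl fun k _ => ?_
  rw [emb_repr ω (e r.2) (y k), Finset.mul_sum]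
  refine Finset.sum_congr rfl fun j' _ => ?_
  rw [co_apply, blk, Matrix.of_apply]
  ring

lemma det_blk {M : ℕ} {C : Type} [Field C] [CharZero C] (e : J → (K →+* C))
    (he : Function.Injective e) (L : (K →+* C) → Matrix (Fin M) (Fin M) C)
    (hL : ∀ σ, (L σ).det ≠ 0) : (blk ω e L).det ≠ 0 := by
  intro h0
  obtain ⟨v, hv0, hv⟩ := Matrix.exists_mulVec_eq_zero_iff.2 h0
  apply hv0
  have h1 : ∀ j k, ∑ j', e j (ω j') * v (k, j') = 0 := by
    intro j
    by_contra hcon
    push Not at hcon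
    obtain ⟨k0, hk0⟩ := hcon
    apply hL (e j)
    rw [← Matrix.exists_mulVec_eq_zero_iff]
    refine ⟨fun k => ∑ j', e j (ω j') * v (k, j'), fun h => hk0 (congrFun h k0), ?_⟩
    funext i
    have h2 : ∑ q : Fin M × J, blk ω e L (i, j) q * v q = 0 := congrFun hv (i, j)
    rw [Fintype.sum_prod_type] at h2
    change ∑ k, L (e j) i k * ∑ j', e j (ω j') * v (k, j') = 0
    rw [← h2]
    refine Finset.sum_congr rfl fun k _ => ?_
    rw [Finset.mul_sum]
    refine Finset.sum_congr rfl fun j' _ => ?_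
    rw [blk, Matrix.of_apply]
    ring
  have h3 : ∀ k, (fun j' => v (k, j')) = 0 := by
    intro k
    by_contra hcon
    apply det_emb_ne_zero ω e he
    rw [← Matrix.exists_mulVec_eq_zero_iff]
    exact ⟨_, hcon, funext fun j => h1 j k⟩
  funext q
  exact congrFun (h3 q.1) q.2

lemma alg_blk {M : ℕ} {C : Type} [Field C] [CharZero C] (e : J → (K →+* C))
    (L : (K →+* C) → Matrix (Fin M) (Fin M) C) (hL : ∀ σ i j, IsAlgebraic ℚ (L σ i j))
    (r q : Fin M × J) : IsAlgebraic ℚ (blk ω e L r q) := by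
  rw [blk, Matrix.of_apply]
  refine (hL _ _ _).mul ?_
  have h1 : IsAlgebraic ℚ (ω q.2) := Algebra.IsAlgebraic.isAlgebraic _
  exact h1.algHom (e r.2).toRatAlgHom

/-- An invertible matrix controls the coordinates. -/
lemma exists_inv_bound {ι : Type} [Fintype ι] [DecidableEq ι] {C : Type} [NormedField C]
    (A : Matrix ι ι C) (hA : A.det ≠ 0) : ∃ c : ℝ, 0 ≤ c ∧ ∀ (x : ι → C) (b : ℝ),
      (∀ i, ‖∑ j, A i j * x j‖ ≤ b) → ∀ i, ‖x i‖ ≤ c * b := by
  refine ⟨∑ i, ∑ j, ‖A⁻¹ i j‖, by positivity, fun x b hb i => ?_⟩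
  have h1 : x = A⁻¹.mulVec (A.mulVec x) := by
    rw [Matrix.mulVec_mulVec, Matrix.nonsing_inv_mul _ (isUnit_iff_ne_zero.2 hA),
      Matrix.one_mulVec]
  have hb0 : 0 ≤ b := (norm_nonneg _).trans (hb i)
  calc ‖x i‖ = ‖∑ j, A⁻¹ i j * (A.mulVec x) j‖ := congrArg norm (congrFun h1 i)
    _ ≤ ∑ j, ‖A⁻¹ i j * (A.mulVec x) j‖ := norm_sum_le _ _
    _ ≤ ∑ j, ‖A⁻¹ i j‖ * b := by
        refine Finset.sum_le_sum fun j _ => ?_
        rw [norm_mul]
        exact mul_le_mul_of_nonneg_left (hb j) (norm_nonneg _)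
    _ = (∑ j, ‖A⁻¹ i j‖) * b := by rw [Finset.sum_mul]
    _ ≤ (∑ i, ∑ j, ‖A⁻¹ i j‖) * b := by
        refine mul_le_mul_of_nonneg_right ?_ hb0
        exact Finset.single_le_sum (f := fun i => ∑ j, ‖A⁻¹ i j‖)
          (fun i _ => by positivity) (Finset.mem_univ i)

/-- The Vandermonde family. -/
noncomputable def lam (ω : Basis J ℚ K) (f : J ≃ Fin (Fintype.card J)) (n : ℕ) : K :=
  ∑ j, ((n : ℚ) ^ (f j : ℕ)) • ω j

lemma lam_span (f : J ≃ Fin (Fintype.card J)) (W : Submodule ℚ K) (N : Finset ℕ)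
    (hN : Fintype.card J ≤ N.card) (h : ∀ n ∈ N, lam ω f n ∈ W) : W = ⊤ := by
  by_contra hW
  obtain ⟨φ, hφ0, hφ⟩ := W.exists_le_ker_of_lt_top (lt_top_iff_ne_top.2 hW)
  apply hφ0
  let P : Polynomial ℚ := ∑ j, Polynomial.C (φ (ω j)) * Polynomial.X ^ (f j : ℕ)
  have hev : ∀ n : ℕ, P.eval (n : ℚ) = φ (lam ω f n) := by
    intro n
    simp only [P, lam, Polynomial.eval_finset_sum, Polynomial.eval_mul, Polynomial.eval_C,
      Polynomial.eval_pow, Polynomial.eval_X, map_sum, map_smul, smul_eq_mul]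
    refine Finset.sum_congr rfl fun j _ => ?_
    ring
  have hdeg : P.degree < Fintype.card J := by
    refine (Polynomial.degree_sum_le _ _).trans_lt ?_
    rw [Finset.sup_lt_iff (by exact WithBot.bot_lt_coe _)]
    intro j _
    refine (Polynomial.degree_C_mul_X_pow_le _ _).trans_lt ?_
    exact_mod_cast (f j).2
  have hP : P = 0 := by
    by_contra hP0
    have h1 : (N.image (fun n : ℕ => (n : ℚ))).card ≤ P.natDegree := by
      apply Polynomial.card_le_degree_of_subset_roots
      intro x hx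
      rw [Finset.mem_val, Finset.mem_image] at hx
      obtain ⟨n, hn, rfl⟩ := hx
      rw [Polynomial.mem_roots hP0, Polynomial.IsRoot.def, hev]
      exact hφ (h n hn)
    rw [Finset.card_image_of_injective _ Nat.cast_injective] at h1
    have h2 := (Polynomial.natDegree_lt_iff_degree_lt hP0).2 hdeg
    omega
  apply ω.ext
  intro j
  have h3 : P.coeff (f j) = φ (ω j) := by
    simp only [P, Polynomial.finset_sum_coeff, Polynomial.coeff_C_mul, Polynomial.coeff_X_pow]
    rw [Finset.sum_eq_single j]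
    · simp
    · intro b _ hb
      rw [if_neg, mul_zero]
      intro h4
      exact hb (f.injective (Fin.ext h4)).symm
    · intro h4; exact absurd (Finset.mem_univ _) h4
  rw [← h3, hP]
  simp

/-- The `K`-subspace attached to a `ℚ`-subspace of the coordinate space. -/
def kSub {M : ℕ} (W : Submodule ℚ (Fin M × J → ℚ)) : Submodule K (Fin M → K) where
  carrier := {y | ∀ μ : K, co ω M (μ • y) ∈ W}
  add_mem' := by
    intro a b ha hb μ
    rw [smul_add, map_add]
    exact W.add_mem (ha μ) (hb μ)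
  zero_mem' := by
    intro μ
    rw [smul_zero, map_zero]
    exact W.zero_mem
  smul_mem' := by
    intro c x hx μ
    rw [smul_smul]
    exact hx _

lemma kSub_ne_top {M : ℕ} {W : Submodule ℚ (Fin M × J → ℚ)} (hW : W ≠ ⊤) : kSub ω W ≠ ⊤ := by
  intro h
  apply hW
  rw [eq_top_iff]
  intro x _
  have h1 : (co ω M).symm x ∈ kSub ω W := by rw [h]; trivial
  have h2 := h1 1
  rwa [one_smul, LinearEquiv.apply_symm_apply] at h2

lemma mem_kSub_of {M : ℕ} {W : Submodule ℚ (Fin M × J → ℚ)} (f : J ≃ Fin (Fintype.card J))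
    (y : Fin M → K) (N : Finset ℕ) (hN : Fintype.card J ≤ N.card)
    (h : ∀ n ∈ N, co ω M (lam ω f n • y) ∈ W) : y ∈ kSub ω W := by
  let ψ : K →ₗ[ℚ] (Fin M × J → ℚ) :=
    (co ω M).toLinearMap ∘ₗ (LinearMap.toSpanSingleton K (Fin M → K) y).restrictScalars ℚ
  have h1 : W.comap ψ = ⊤ := lam_span ω f _ N hN fun n hn => h n hn
  intro μ
  have h2 : μ ∈ W.comap ψ := by rw [h1]; trivial
  exact h2

end emb

open NumberField in
lemma pint_of_integral {K : Type} [Field K] [NumberField K] (P : ℕ) (z : K) (n : ℕ)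
    (h : IsIntegral ℤ ((P : K) ^ n * z)) (j : Free.ChooseBasisIndex ℤ (𝓞 K)) :
    PInt P ((integralBasis K).repr z j) := by
  let w : 𝓞 K := ⟨(P : K) ^ n * z, h⟩
  refine ⟨n, (RingOfIntegers.basis K).repr w j, ?_⟩
  have h1 := integralBasis_repr_apply K w j
  have h2 : algebraMap (𝓞 K) K w = ((P : ℚ) ^ n) • z := by
    change (P : K) ^ n * z = _
    rw [Rat.smul_def]
    push_cast
    rfl
  rw [h2, map_smul] at h1
  simp only [Finsupp.smul_apply, smul_eq_mul] at h1
  rw [mul_comm, h1]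
  rfl

open NumberField in
lemma lam_integral {K : Type} [Field K] [NumberField K]
    (f : Free.ChooseBasisIndex ℤ (𝓞 K) ≃ Fin (Fintype.card (Free.ChooseBasisIndex ℤ (𝓞 K))))
    (n : ℕ) : IsIntegral ℤ (lam (integralBasis K) f n) := by
  rw [lam]
  refine IsIntegral.sum _ fun j _ => ?_
  rw [Rat.smul_def]
  refine IsIntegral.mul ?_ ?_
  · push_cast
    have h1 : IsIntegral ℤ (algebraMap ℤ K (n : ℤ)) := isIntegral_algebraMap
    have h2 : algebraMap ℤ K (n : ℤ) = (n : K) := by simp
    rw [h2] at h1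
    exact h1.pow _
  · rw [integralBasis_apply]
    exact RingOfIntegers.isIntegral_coe _

open NumberField in
/-- SUBK -/
theorem subspaceK {K : Type} [Field K] [NumberField K] {T : Type} [Fintype T] {p : T → ℕ}
    [∀ t, Fact (p t).Prime] (F : T → Type) [∀ t, NontriviallyNormedField (F t)]
    [∀ t, NormedAlgebra ℚ_[p t] (F t)] [∀ t, FiniteDimensional ℚ_[p t] (F t)]
    [∀ t, CharZero (F t)] [∀ t, Fintype (K →+* F t)]
    (hcard : ∀ t, Fintype.card (K →+* F t) = Module.finrank ℚ K)
    (M : ℕ) (hM : 2 ≤ M) (δ B : ℝ) (hδ : 0 < δ)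
    -- the theorem SUBF for all index types
    (hsub : ∀ (ι : Type) [Fintype ι] [DecidableEq ι], 2 ≤ Fintype.card ι →
      ∀ (A : Matrix ι ι ℂ) (A' : ∀ t, Matrix ι ι (F t)),
      (∀ i j, IsAlgebraic ℚ (A i j)) → (∀ t i j, IsAlgebraic ℚ (A' t i j)) →
      A.det ≠ 0 → (∀ t, (A' t).det ≠ 0) →
      ∃ 𝒲 : Finset (Submodule ℚ (ι → ℚ)), (∀ W ∈ 𝒲, W ≠ ⊤) ∧
      ∀ (Q : ℝ) (a : ι → ℝ) (a' : T → ι → ℝ), 1 ≤ Q →
      (∀ i, Q ^ (-(B + 1)) ≤ a i ∧ a i ≤ Q ^ (B + 1)) →
      (∀ t i, Q ^ (-(B + 1)) ≤ a' t i ∧ a' t i ≤ Q ^ (B + 1)) →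
      wprod a a' ≤ Q ^ (-(δ / 2)) → ∀ x : ι → ℚ, PVec (pprod p) x →
      (∀ i, ‖∑ j, A i j * ((x j : ℚ) : ℂ)‖ ≤ a i) →
      (∀ t i, ‖∑ j, A' t i j * ((x j : ℚ) : F t)‖ ≤ a' t i) → ∃ W ∈ 𝒲, x ∈ W)
    (l : (K →+* ℂ) → Matrix (Fin M) (Fin M) ℂ)
    (l' : ∀ t, (K →+* F t) → Matrix (Fin M) (Fin M) (F t))
    (hl : ∀ σ i j, IsAlgebraic ℚ (l σ i j)) (hl' : ∀ t σ i j, IsAlgebraic ℚ (l' t σ i j))
    (hd : ∀ σ, (l σ).det ≠ 0) (hd' : ∀ t σ, (l' t σ).det ≠ 0) :
    ∃ 𝒲 : Finset (Submodule K (Fin M → K)), (∀ W ∈ 𝒲, W ≠ ⊤) ∧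
      ∀ (Q : ℝ) (a : (K →+* ℂ) → Fin M → ℝ) (a' : ∀ t, (K →+* F t) → Fin M → ℝ), 1 ≤ Q →
      (∀ σ i, Q ^ (-B) ≤ a σ i ∧ a σ i ≤ Q ^ B) →
      (∀ t σ i, Q ^ (-B) ≤ a' t σ i ∧ a' t σ i ≤ Q ^ B) →
      (∏ σ, ∏ i, a σ i) * ∏ t, ∏ σ, ∏ i, a' t σ i ≤ Q ^ (-δ) →
      ∀ y : Fin M → K, (∀ k, ∃ n : ℕ, IsIntegral ℤ ((pprod p : K) ^ n * y k)) →
      (∀ σ i, ‖∑ j, l σ i j * σ (y j)‖ ≤ a σ i) →
      (∀ t σ i, ‖∑ j, l' t σ i j * σ (y j)‖ ≤ a' t σ i) → ∃ W ∈ 𝒲, y ∈ W := by
  classical
  let J := Free.ChooseBasisIndex ℤ (𝓞 K)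
  let ω : Basis J ℚ K := integralBasis K
  have hDcard : Module.finrank ℚ K = Fintype.card J := Module.finrank_eq_card_basis ω
  have hDpos : 0 < Fintype.card J := by rw [← hDcard]; exact Module.finrank_pos
  let e : J ≃ (K →+* ℂ) := Fintype.equivOfCardEq (hDcard.symm.trans (Embeddings.card K ℂ).symm)
  let e' : ∀ t, J ≃ (K →+* F t) := fun t =>
    Fintype.equivOfCardEq (hDcard.symm.trans (hcard t).symm)
  let f : J ≃ Fin (Fintype.card J) := Fintype.equivFin J
  let A := blk ω e l
  let A' : ∀ t, Matrix (Fin M × J) (Fin M × J) (F t) := fun t => blk ω (e' t) (l' t)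
  have hA : A.det ≠ 0 := det_blk ω e e.injective l hd
  have hA' : ∀ t, (A' t).det ≠ 0 := fun t => det_blk ω (e' t) (e' t).injective (l' t) (hd' t)
  have hcardι : 2 ≤ Fintype.card (Fin M × J) := by
    rw [Fintype.card_prod, Fintype.card_fin]
    exact hM.trans (Nat.le_mul_of_pos_right _ hDpos)
  obtain ⟨𝒲0, h𝒲0, hmain⟩ := hsub (Fin M × J) hcardι A A'
    (fun r q => alg_blk ω e l hl r q) (fun t r q => alg_blk ω (e' t) (l' t) (hl' t) r q) hA hA'
  let R := 𝒲0.card * (Fintype.card J - 1) + 1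
  let C : ℝ := 1 + ∑ n ∈ Finset.range R, ∑ σ : K →+* ℂ, ‖σ (lam ω f n)‖ +
    ∑ t, ∑ n ∈ Finset.range R, ∑ σ : K →+* F t, ‖σ (lam ω f n)‖
  have s1 : 0 ≤ ∑ n ∈ Finset.range R, ∑ σ : K →+* ℂ, ‖σ (lam ω f n)‖ := by positivity
  have s2 : 0 ≤ ∑ t, ∑ n ∈ Finset.range R, ∑ σ : K →+* F t, ‖σ (lam ω f n)‖ := by positivity
  have hC1 : 1 ≤ C := by simp only [C]; linarith
  have hCσ : ∀ n ∈ Finset.range R, ∀ σ : K →+* ℂ, ‖σ (lam ω f n)‖ ≤ C := by
    intro n hn σ
    have h1 : ‖σ (lam ω f n)‖ ≤ ∑ σ : K →+* ℂ, ‖σ (lam ω f n)‖ :=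
      Finset.single_le_sum (f := fun σ : K →+* ℂ => ‖σ (lam ω f n)‖)
        (fun _ _ => norm_nonneg _) (Finset.mem_univ σ)
    have h2 : ∑ σ : K →+* ℂ, ‖σ (lam ω f n)‖ ≤
        ∑ n ∈ Finset.range R, ∑ σ : K →+* ℂ, ‖σ (lam ω f n)‖ :=
      Finset.single_le_sum (f := fun n => ∑ σ : K →+* ℂ, ‖σ (lam ω f n)‖)
        (fun _ _ => by positivity) hn
    simp only [C]; linarith
  have hCσ' : ∀ t, ∀ n ∈ Finset.range R, ∀ σ : K →+* F t, ‖σ (lam ω f n)‖ ≤ C := by
    intro t n hn σ
    have h1 : ‖σ (lam ω f n)‖ ≤ ∑ σ : K →+* F t, ‖σ (lam ω f n)‖ :=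
      Finset.single_le_sum (f := fun σ : K →+* F t => ‖σ (lam ω f n)‖)
        (fun _ _ => norm_nonneg _) (Finset.mem_univ σ)
    have h2 : ∑ σ : K →+* F t, ‖σ (lam ω f n)‖ ≤
        ∑ n ∈ Finset.range R, ∑ σ : K →+* F t, ‖σ (lam ω f n)‖ :=
      Finset.single_le_sum (f := fun n => ∑ σ : K →+* F t, ‖σ (lam ω f n)‖)
        (fun _ _ => by positivity) hn
    have h3 : ∑ n ∈ Finset.range R, ∑ σ : K →+* F t, ‖σ (lam ω f n)‖ ≤
        ∑ t, ∑ n ∈ Finset.range R, ∑ σ : K →+* F t, ‖σ (lam ω f n)‖ :=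
      Finset.single_le_sum
        (f := fun t => ∑ n ∈ Finset.range R, ∑ σ : K →+* F t, ‖σ (lam ω f n)‖)
        (fun _ _ => by positivity) (Finset.mem_univ t)
    simp only [C]; linarith
  let N := Fintype.card (Fin M × J) * (1 + Fintype.card T)
  let Q1 : ℝ := max C (C ^ (2 * (N : ℝ) / δ))
  have hQ1 : 1 ≤ Q1 := hC1.trans (le_max_left _ _)
  obtain ⟨c0, hc0, hinv⟩ := exists_inv_bound A hA
  have hinv' : ∀ t, ∃ c : ℝ, 0 ≤ c ∧ ∀ (x : Fin M × J → F t) (b : ℝ),
      (∀ i, ‖∑ j, A' t i j * x j‖ ≤ b) → ∀ i, ‖x i‖ ≤ c * b :=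
    fun t => exists_inv_bound (A' t) (hA' t)
  choose c' hc' hinv' using hinv'
  let b : ℝ := Q1 ^ |B|
  have hb : 0 ≤ b := by positivity
  let cc : ℝ := (c0 + ∑ t, c' t) * b
  let Sf : Set (Fin M → K) := {y | ∀ q, co ω M y q ∈
    {x : ℚ | PInt (pprod p) x ∧ |(x : ℝ)| ≤ cc ∧ ∀ t, ‖(x : ℚ_[p t])‖ ≤ cc}}
  have hSf : Sf.Finite := by
    have h1 : (Set.univ.pi fun _ : Fin M × J =>
      {x : ℚ | PInt (pprod p) x ∧ |(x : ℝ)| ≤ cc ∧ ∀ t, ‖(x : ℚ_[p t])‖ ≤ cc}).Finite :=
      Set.Finite.pi fun _ => finite_bounded cc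
    refine (h1.preimage ((co ω M).injective.injOn)).subset ?_
    intro y hy q _
    exact hy q
  refine ⟨𝒲0.image (kSub ω) ∪ hSf.toFinset.image (fun y => K ∙ y), ?_, ?_⟩
  · intro W hW
    rw [Finset.mem_union, Finset.mem_image, Finset.mem_image] at hW
    rcases hW with ⟨W0, hW0, rfl⟩ | ⟨y, -, rfl⟩
    · exact kSub_ne_top ω (h𝒲0 W0 hW0)
    · intro htop
      have h1 : finrank K (K ∙ y) ≤ 1 := (finrank_span_le_card ({y} : Set (Fin M → K))).trans
        (by simp)
      rw [htop, finrank_top, finrank_fin_fun] at h1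
      omega
  · intro Q a a' hQ ha ha' hprod y hint hrow hrow'
    have hpos : 0 < Q := by linarith
    rcases le_or_gt Q1 Q with hQQ | hQQ
    · -- large Q
      have hCQ : C ≤ Q := (le_max_left _ _).trans hQQ
      have hCN : C ^ N ≤ Q ^ (δ / 2) := by
        have h1 : C ^ (2 * (N : ℝ) / δ) ≤ Q := (le_max_right _ _).trans hQQ
        have h2 : (C ^ (2 * (N : ℝ) / δ)) ^ (δ / 2) ≤ Q ^ (δ / 2) :=
          Real.rpow_le_rpow (by positivity) h1 (by positivity)
        rw [← Real.rpow_mul (by linarith)] at h2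
        have h3 : 2 * (N : ℝ) / δ * (δ / 2) = N := by field_simp
        rw [h3, Real.rpow_natCast] at h2
        exact h2
      have hapos : ∀ σ i, 0 < a σ i := fun σ i => (Real.rpow_pos_of_pos hpos _).trans_le (ha σ i).1
      have ha'pos : ∀ t σ i, 0 < a' t σ i := fun t σ i =>
        (Real.rpow_pos_of_pos hpos _).trans_le (ha' t σ i).1
      have hwt : ∀ v : ℝ, Q ^ (-B) ≤ v ∧ v ≤ Q ^ B →
          Q ^ (-(B + 1)) ≤ C * v ∧ C * v ≤ Q ^ (B + 1) := by
        rintro v ⟨h1, h2⟩
        have hv : 0 < v := (Real.rpow_pos_of_pos hpos _).trans_le h1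
        constructor
        · calc Q ^ (-(B + 1)) ≤ Q ^ (-B) := Real.rpow_le_rpow_of_exponent_le hQ (by linarith)
            _ ≤ v := h1
            _ ≤ C * v := le_mul_of_one_le_left hv.le hC1
        · calc C * v ≤ Q * Q ^ B := by gcongr
            _ = Q ^ (B + 1) := by rw [Real.rpow_add hpos, Real.rpow_one]; ring
      have hall : ∀ n ∈ Finset.range R, ∃ W ∈ 𝒲0, co ω M (lam ω f n • y) ∈ W := by
        intro n hn
        apply hmain Q (fun r => C * a (e r.2) r.1) (fun t r => C * a' t (e' t r.2) r.1) hQ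
          (fun r => hwt _ (ha _ _)) (fun t r => hwt _ (ha' t _ _))
        · -- product of the weights
          have p1 : ∏ r : Fin M × J, a (e r.2) r.1 = ∏ σ, ∏ i, a σ i := by
            rw [Fintype.prod_prod_type_right]
            exact Equiv.prod_comp e (fun σ => ∏ i, a σ i)
          have p2 : ∀ t, ∏ r : Fin M × J, a' t (e' t r.2) r.1 = ∏ σ, ∏ i, a' t σ i := by
            intro t
            rw [Fintype.prod_prod_type_right]
            exact Equiv.prod_comp (e' t) (fun σ => ∏ i, a' t σ i)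
          have p3 : wprod (fun r : Fin M × J => C * a (e r.2) r.1)
              (fun t r => C * a' t (e' t r.2) r.1) =
              C ^ N * ((∏ σ, ∏ i, a σ i) * ∏ t, ∏ σ, ∏ i, a' t σ i) := by
            rw [wprod]
            simp only [Finset.prod_mul_distrib, Finset.prod_const, Finset.card_univ, p1, p2]
            simp only [N]
            rw [← pow_mul]
            ring
          rw [p3]
          have h4 : Q ^ (-(δ / 2)) = Q ^ (δ / 2) * Q ^ (-δ) := by
            rw [← Real.rpow_add hpos]; congr 1; ring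
          rw [h4]
          refine mul_le_mul hCN hprod ?_ (by positivity)
          refine mul_nonneg (Finset.prod_nonneg fun σ _ => Finset.prod_nonneg fun i _ =>
            (hapos σ i).le) (Finset.prod_nonneg fun t _ => Finset.prod_nonneg fun σ _ =>
            Finset.prod_nonneg fun i _ => (ha'pos t σ i).le)
        · intro q
          rw [co_apply]
          obtain ⟨m, hm⟩ := hint q.1
          apply pint_of_integral _ _ m
          have h5 : (pprod p : K) ^ m * ((lam ω f n • y) q.1) =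
              lam ω f n * ((pprod p : K) ^ m * y q.1) := by
            rw [Pi.smul_apply, smul_eq_mul]; ring
          rw [h5]
          exact (lam_integral f n).mul hm
        · intro r
          rw [blk_row ω e l (lam ω f n • y) r]
          have h6 : ∑ k, l (e r.2) r.1 k * e r.2 ((lam ω f n • y) k) =
              e r.2 (lam ω f n) * ∑ k, l (e r.2) r.1 k * e r.2 (y k) := by
            rw [Finset.mul_sum]
            refine Finset.sum_congr rfl fun k _ => ?_
            rw [Pi.smul_apply, smul_eq_mul, map_mul]; ring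
          rw [h6, norm_mul]
          exact mul_le_mul (hCσ n hn _) (hrow _ _) (norm_nonneg _) (by linarith)
        · intro t r
          rw [blk_row ω (e' t) (l' t) (lam ω f n • y) r]
          have h6 : ∑ k, l' t (e' t r.2) r.1 k * e' t r.2 ((lam ω f n • y) k) =
              e' t r.2 (lam ω f n) * ∑ k, l' t (e' t r.2) r.1 k * e' t r.2 (y k) := by
            rw [Finset.mul_sum]
            refine Finset.sum_congr rfl fun k _ => ?_
            rw [Pi.smul_apply, smul_eq_mul, map_mul]; ring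
          rw [h6, norm_mul]
          exact mul_le_mul (hCσ' t n hn _) (hrow' _ _ _) (norm_nonneg _) (by linarith)
      choose! g hg1 hg2 using hall
      have hpig : 𝒲0.card * (Fintype.card J - 1) < (Finset.range R).card := by
        rw [Finset.card_range]; exact Nat.lt_succ_self _
      obtain ⟨W, hW, hWc⟩ := Finset.exists_lt_card_fiber_of_mul_lt_card_of_maps_to hg1 hpig
      refine ⟨kSub ω W, Finset.mem_union_left _ (Finset.mem_image_of_mem _ hW), ?_⟩
      refine mem_kSub_of ω f y ((Finset.range R).filter fun n => g n = W) (by omega)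
        fun n hn => ?_
      rw [Finset.mem_filter] at hn
      rw [← hn.2]
      exact hg2 n hn.1
    · -- small Q
      have hQB : Q ^ B ≤ b := by
        calc Q ^ B ≤ Q ^ |B| := Real.rpow_le_rpow_of_exponent_le hQ (le_abs_self B)
          _ ≤ Q1 ^ |B| := Real.rpow_le_rpow hpos.le hQQ.le (abs_nonneg _)
      have hcc0 : c0 * b ≤ cc := by
        have : 0 ≤ ∑ t, c' t := Finset.sum_nonneg fun t _ => hc' t
        simp only [cc]
        gcongr
        linarith
      have hcc' : ∀ t, c' t * b ≤ cc := by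
        intro t
        have : c' t ≤ ∑ t, c' t := Finset.single_le_sum (fun t _ => hc' t) (Finset.mem_univ t)
        simp only [cc]
        gcongr
        linarith
      have hy : y ∈ Sf := by
        intro q
        refine ⟨?_, ?_, ?_⟩
        · rw [co_apply]
          obtain ⟨m, hm⟩ := hint q.1
          exact pint_of_integral _ _ m hm _
        · have h1 := hinv (fun q => ((co ω M y q : ℚ) : ℂ)) b (fun r => by
            rw [blk_row ω e l y r]
            exact (hrow _ _).trans ((ha _ _).2.trans hQB)) q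
          have h2 : ‖((co ω M y q : ℚ) : ℂ)‖ = |((co ω M y q : ℚ) : ℝ)| := by
            rw [← Complex.ofReal_ratCast, Complex.norm_real, Real.norm_eq_abs]
          rw [← h2]
          exact h1.trans hcc0
        · intro t
          have h1 := hinv' t (fun q => ((co ω M y q : ℚ) : F t)) b (fun r => by
            rw [blk_row ω (e' t) (l' t) y r]
            exact (hrow' _ _ _).trans ((ha' _ _ _).2.trans hQB)) q
          have h2 : ‖((co ω M y q : ℚ) : F t)‖ = ‖((co ω M y q : ℚ) : ℚ_[p t])‖ := by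
            rw [← map_ratCast (algebraMap ℚ_[p t] (F t)), norm_algebraMap']
          rw [← h2]
          exact h1.trans (hcc' t)
      refine ⟨K ∙ y, Finset.mem_union_right _ (Finset.mem_image_of_mem _ ?_),
        Submodule.mem_span_singleton_self y⟩
      exact hSf.mem_toFinset.2 hy

end Pool.Agent.Helper98.Sub

end

section

namespace Pool.Agent.Helper85.Sub
end Pool.Agent.Helper85.Sub
namespace Pool.Agent.Helper10.Sub
end Pool.Agent.Helper10.Sub

/-!
# The absolute values at all embeddings of a number field: ring of integers, product inequality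
-/

set_option autoImplicit false

namespace Pool.Agent.Helper85.RC

open Pool.Agent.Helper85.Sub Pool.Agent.Helper10.Sub NumberField Polynomial IsDedekindDomain

section ring

variable (K : Type) [Field K]

/-- Elements which are integral up to a power of `P`. -/
def OP (P : ℕ) : Subring K where
  carrier := {x | ∃ n : ℕ, IsIntegral ℤ ((P : K) ^ n * x)}
  mul_mem' := by
    rintro x y ⟨n, hn⟩ ⟨m, hm⟩
    refine ⟨n + m, ?_⟩
    have : (P : K) ^ (n + m) * (x * y) = ((P : K) ^ n * x) * ((P : K) ^ m * y) := by ring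
    rw [this]
    exact hn.mul hm
  one_mem' := ⟨0, by simpa using isIntegral_one⟩
  add_mem' := by
    rintro x y ⟨n, hn⟩ ⟨m, hm⟩
    refine ⟨n + m, ?_⟩
    have : (P : K) ^ (n + m) * (x + y) =
        (P : K) ^ m * ((P : K) ^ n * x) + (P : K) ^ n * ((P : K) ^ m * y) := by ring
    rw [this]
    have hP : IsIntegral ℤ (P : K) := isIntegral_natCast _
    exact ((hP.pow _).mul hn).add ((hP.pow _).mul hm)
  zero_mem' := ⟨0, by simpa using isIntegral_zero⟩
  neg_mem' := by
    rintro x ⟨n, hn⟩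
    refine ⟨n, ?_⟩
    rw [mul_neg]
    exact hn.neg

variable {K}

end ring

section places

variable {K : Type} [Field K] [NumberField K]

lemma finitePlace_le_one (v : FinitePlace K) {x : K} (hx : IsIntegral ℤ x) : v x ≤ 1 := by
  have h2 := FinitePlace.norm_le_one (K := K) (v := v.maximalIdeal) (⟨x, hx⟩ : 𝓞 K)
  rw [← FinitePlace.mk_apply, FinitePlace.mk_maximalIdeal] at h2
  exact h2

/-- An element with all finite absolute values at most one is integral. -/
lemma isIntegral_of_le (x : K) (h : ∀ v : FinitePlace K, v x ≤ 1) : IsIntegral ℤ x := by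
  have h1 : x ∈ (algebraMap (𝓞 K) K).range := by
    apply IsDedekindDomain.HeightOneSpectrum.mem_integers_of_valuation_le_one
    intro v
    have h2 := h (FinitePlace.mk v)
    rwa [mk_le_one_iff] at h2
  obtain ⟨y, rfl⟩ := h1
  exact RingOfIntegers.isIntegral_coe y

/-- Elements with poles over the primes dividing `P` only. -/
lemma mem_OP_of_le (S : Finset (FinitePlace K)) (P : ℕ)
    (hS : ∀ v ∈ S, (P : 𝓞 K) ∈ v.maximalIdeal.asIdeal) (x : K)
    (hx : ∀ v : FinitePlace K, v ∉ S → v x ≤ 1) : x ∈ OP K P := by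
  classical
  have hPi : IsIntegral ℤ (P : K) := isIntegral_natCast _
  have hlt : ∀ v ∈ S, v (P : K) < 1 := by
    intro v hv
    have h1 := (FinitePlace.norm_lt_one_iff_mem K v.maximalIdeal (P : 𝓞 K)).2 (hS v hv)
    rw [← FinitePlace.mk_maximalIdeal v, FinitePlace.mk_apply]
    simpa using h1
  have hn : ∀ v ∈ S, ∃ n : ℕ, v (P : K) ^ n * v x ≤ 1 := by
    intro v hv
    have h1 := (tendsto_pow_atTop_nhds_zero_of_lt_one (apply_nonneg v _) (hlt v hv)).mul_const (v x)
    rw [zero_mul] at h1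
    obtain ⟨n, hn⟩ := (h1.eventually (gt_mem_nhds one_pos)).exists
    exact ⟨n, hn.le⟩
  choose! n hn using hn
  refine ⟨∑ v ∈ S, n v, isIntegral_of_le _ fun v => ?_⟩
  rw [map_mul, map_pow]
  by_cases hv : v ∈ S
  · refine le_trans ?_ (hn v hv)
    refine mul_le_mul_of_nonneg_right ?_ (apply_nonneg v _)
    refine pow_le_pow_of_le_one (apply_nonneg v _) (hlt v hv).le ?_
    exact Finset.single_le_sum (f := n) (fun _ _ => Nat.zero_le _) hv
  · exact mul_le_one₀ (pow_le_one₀ (apply_nonneg v _) (finitePlace_le_one v hPi))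
      (apply_nonneg v _) (hx v hv)

end places

end Pool.Agent.Helper85.RC

end

section

namespace Pool.Agent.Helper85.Sub
end Pool.Agent.Helper85.Sub
namespace Pool.Agent.Helper10.Sub
end Pool.Agent.Helper10.Sub

/-!
# The absolute values at all embeddings of a number field: product inequality and finiteness
-/

set_option autoImplicit false

namespace Pool.Agent.Helper85.RC

open Pool.Agent.Helper85.Sub Pool.Agent.Helper10.Sub NumberField Polynomial IsDedekindDomain

section sys

/-- The prime of an index. -/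
def pr (T : Finset Nat.Primes) (t : T) : ℕ := (t.1 : ℕ)

instance (T : Finset Nat.Primes) (t : T) : Fact (pr T t).Prime := ⟨t.1.2⟩

lemma pr_injective (T : Finset Nat.Primes) : Function.Injective (pr T) :=
  fun _ _ h => Subtype.ext (Subtype.ext h)

variable (K : Type) [Field K] [NumberField K] (T : Finset Nat.Primes)

/-- All embeddings. -/
abbrev Lam : Type := (K →+* ℂ) ⊕ (Σ t : T, K →+* FF K (pr T t))

/-- The absolute value of an embedding. -/
noncomputable def av : Lam K T → AbsoluteValue K ℝ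
  | Sum.inl σ => NumberField.place σ
  | Sum.inr s => NumberField.place s.2

variable {K T}

lemma av_inl (σ : K →+* ℂ) (x : K) : av K T (Sum.inl σ) x = ‖σ x‖ := rfl

lemma av_inr (t : T) (σ : K →+* FF K (pr T t)) (x : K) : av K T (Sum.inr ⟨t, σ⟩) x = ‖σ x‖ := rfl

lemma prod_inl (x : K) : ∏ σ : K →+* ℂ, ‖σ x‖ = |((Algebra.norm ℚ x : ℚ) : ℝ)| := by
  have h1 := Algebra.norm_eq_prod_embeddings (L := K) ℚ ℂ x
  have h2 : ∏ σ : K →+* ℂ, σ x = ∏ σ : K →ₐ[ℚ] ℂ, σ x := by
    refine Fintype.prod_equiv (RingHom.equivRatAlgHom K ℂ) _ _ ?_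
    intro σ
    rfl
  rw [← norm_prod, h2, ← h1, eq_ratCast, ← Complex.ofReal_ratCast, Complex.norm_real,
    Real.norm_eq_abs]

lemma prod_inr {p : ℕ} [Fact p.Prime] (x : K) :
    ∏ σ : K →+* FF K p, ‖σ x‖ = ‖((Algebra.norm ℚ x : ℚ) : ℚ_[p])‖ := by
  have h1 := Algebra.norm_eq_prod_embeddings (L := K) ℚ (PadicAlgCl p) x
  have h2 : ∏ σ : K →+* PadicAlgCl p, σ x = ∏ σ : K →ₐ[ℚ] PadicAlgCl p, σ x := by
    refine Fintype.prod_equiv (RingHom.equivRatAlgHom K (PadicAlgCl p)) _ _ ?_
    intro σ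
    rfl
  have h3 : ∏ σ : K →+* FF K p, ‖σ x‖ = ∏ σ : K →+* PadicAlgCl p, ‖σ x‖ := by
    refine Fintype.prod_equiv liftEquiv _ _ ?_
    intro σ
    rfl
  rw [h3, ← norm_prod, h2, ← h1, eq_ratCast, ← map_ratCast (algebraMap ℚ_[p] (PadicAlgCl p)),
    PadicAlgCl.norm_extends]

lemma pint_norm {P : ℕ} {x : K} (hx : x ∈ OP K P) : PInt P (Algebra.norm ℚ x) := by
  obtain ⟨n, hn⟩ := hx
  have h1 : IsIntegral ℤ (Algebra.norm ℚ ((P : K) ^ n * x)) := Algebra.isIntegral_norm ℚ hn
  obtain ⟨z, hz⟩ := (IsIntegrallyClosed.isIntegral_iff (R := ℤ) (K := ℚ)).1 h1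
  refine ⟨n * Module.finrank ℚ K, z, ?_⟩
  have h2 : Algebra.norm ℚ ((P : K) ^ n * x) =
      Algebra.norm ℚ x * (P : ℚ) ^ (n * Module.finrank ℚ K) := by
    rw [map_mul, map_pow]
    have h3 : (P : K) = algebraMap ℚ K (P : ℚ) := by simp
    rw [h3, Algebra.norm_algebraMap, ← pow_mul, mul_comm, mul_comm n]
  rw [← h2, ← hz]
  rfl

lemma one_le_prod {x : K} (hx : x ∈ OP K (pprod (pr T))) (h0 : x ≠ 0) :
    1 ≤ ∏ σ, av K T σ x := by
  have h1 := Pool.Agent.Helper94.Sub.one_le_fac (pr_injective T) _ (pint_norm hx)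
    ((Algebra.norm_ne_zero_iff (R := ℚ)).2 h0)
  refine h1.trans_eq ?_
  rw [Fintype.prod_sum_type, Fintype.prod_sigma]
  simp only [av_inl, av_inr]
  rw [prod_inl]
  unfold Pool.Agent.Helper94.Sub.fac
  congr 1
  refine Finset.prod_congr rfl fun t _ => ?_
  exact (prod_inr x).symm

end sys

end Pool.Agent.Helper85.RC

end

section

namespace Pool.Agent.Helper85.Sub
end Pool.Agent.Helper85.Sub
namespace Pool.Agent.Helper33.SS
end Pool.Agent.Helper33.SS
namespace Pool.Agent.Helper29.TG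
end Pool.Agent.Helper29.TG

/-!
# Extension of the absolute values of a number field to its algebraic closure
-/

set_option autoImplicit false

namespace Pool.Agent.Helper88.ZN

open NumberField Height AdmissibleAbsValues IsDedekindDomain Pool.Agent.Helper85.Sub
  Pool.Agent.Helper33.SS Pool.Agent.Helper29.TG

/-- An absolute value of a field, given by an embedding in a normed field and an exponent. -/
noncomputable def powAbs {E Ω : Type} [Field E] [NormedField Ω] (τ : E →+* Ω) (n : ℕ) (hn : n ≠ 0)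
    (hΩ : ∀ x y : Ω, ‖x + y‖ ≤ max ‖x‖ ‖y‖) : AbsoluteValue E ℝ where
  toFun z := ‖τ z‖ ^ n
  map_mul' x y := by rw [map_mul, norm_mul, mul_pow]
  nonneg' x := by positivity
  eq_zero' x := by
    constructor
    · intro h
      have h1 := (pow_eq_zero_iff hn).1 h
      rw [norm_eq_zero] at h1
      exact (map_eq_zero τ).1 h1
    · intro h
      rw [h, map_zero, norm_zero, zero_pow hn]
  add_le' x y := by
    rw [map_add]
    have h1 : ‖τ x + τ y‖ ^ n ≤ (max ‖τ x‖ ‖τ y‖) ^ n :=
      pow_le_pow_left₀ (norm_nonneg _) (hΩ _ _) n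
    refine h1.trans ?_
    rcases le_total ‖τ x‖ ‖τ y‖ with h | h
    · rw [max_eq_right h]
      exact le_add_of_nonneg_left (by positivity)
    · rw [max_eq_left h]
      exact le_add_of_nonneg_right (by positivity)

theorem powAbs_na {E Ω : Type} [Field E] [NormedField Ω] (τ : E →+* Ω) (n : ℕ) (hn : n ≠ 0)
    (hΩ : ∀ x y : Ω, ‖x + y‖ ≤ max ‖x‖ ‖y‖) : IsNonarchimedean (powAbs τ n hn hΩ) := by
  intro x y
  change ‖τ (x + y)‖ ^ n ≤ max (‖τ x‖ ^ n) (‖τ y‖ ^ n)
  rw [map_add]
  refine (pow_le_pow_left₀ (norm_nonneg _) (hΩ _ _) n).trans ?_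
  rcases le_total ‖τ x‖ ‖τ y‖ with h | h
  · rw [max_eq_right h]
    exact le_max_right _ _
  · rw [max_eq_left h]
    exact le_max_left _ _

variable {K : Type} [Field K] [NumberField K]

end Pool.Agent.Helper88.ZN

end

section

namespace Pool.Agent.Helper29.TG
end Pool.Agent.Helper29.TG

/-!
# Norms of polynomials
-/

set_option autoImplicit false

namespace Pool.Agent.Helper88.ZN

open Height AdmissibleAbsValues Pool.Agent.Helper29.TG MvPolynomial

section Norm

variable {L : Type} [Field L] {ι : Type}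

/-- The sum norm. -/
noncomputable def n1 (w : AbsoluteValue L ℝ) (g : MvPolynomial ι L) : ℝ :=
  ∑ m ∈ g.support, w (g.coeff m)

/-- The maximum norm. -/
noncomputable def nx (w : AbsoluteValue L ℝ) (g : MvPolynomial ι L) : ℝ :=
  ⨆ m : g.support, w (g.coeff m)

theorem n1_nonneg (w : AbsoluteValue L ℝ) (g : MvPolynomial ι L) : 0 ≤ n1 w g :=
  Finset.sum_nonneg fun _ _ => w.nonneg _

theorem nx_nonneg (w : AbsoluteValue L ℝ) (g : MvPolynomial ι L) : 0 ≤ nx w g :=
  Real.iSup_nonneg fun _ => w.nonneg _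

theorem n1_eq_sum (w : AbsoluteValue L ℝ) (g : MvPolynomial ι L) {s : Finset (ι →₀ ℕ)}
    (hs : g.support ⊆ s) : n1 w g = ∑ m ∈ s, w (g.coeff m) := by
  refine Finset.sum_subset hs fun m _ hm => ?_
  rw [notMem_support_iff.1 hm, map_zero]

theorem coeff_le_nx (w : AbsoluteValue L ℝ) (g : MvPolynomial ι L) (m : ι →₀ ℕ) :
    w (g.coeff m) ≤ nx w g := by
  by_cases hm : m ∈ g.support
  · exact le_ciSup (f := fun m : g.support => w (g.coeff m)) (Set.finite_range _).bddAbove
      (⟨m, hm⟩ : g.support)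
  · rw [notMem_support_iff.1 hm, map_zero]
    exact nx_nonneg w g

theorem nx_le {w : AbsoluteValue L ℝ} {g : MvPolynomial ι L} {c : ℝ} (hc : 0 ≤ c)
    (h : ∀ m, w (g.coeff m) ≤ c) : nx w g ≤ c :=
  Real.iSup_le (fun m => h m) hc

theorem n1_add (w : AbsoluteValue L ℝ) (f g : MvPolynomial ι L) :
    n1 w (f + g) ≤ n1 w f + n1 w g := by
  classical
  rw [n1_eq_sum w (f + g) (s := f.support ∪ g.support) support_add,
    n1_eq_sum w f (s := f.support ∪ g.support) Finset.subset_union_left,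
    n1_eq_sum w g (s := f.support ∪ g.support) Finset.subset_union_right,
    ← Finset.sum_add_distrib]
  refine Finset.sum_le_sum fun m _ => ?_
  rw [coeff_add]
  exact w.add_le _ _

theorem n1_sum (w : AbsoluteValue L ℝ) {α : Type*} (s : Finset α) (f : α → MvPolynomial ι L) :
    n1 w (∑ a ∈ s, f a) ≤ ∑ a ∈ s, n1 w (f a) := by
  classical
  induction s using Finset.induction_on with
  | empty => simp [n1]
  | insert a s ha ih =>
    rw [Finset.sum_insert ha, Finset.sum_insert ha]
    exact (n1_add w _ _).trans (add_le_add le_rfl ih)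

theorem n1_monomial (w : AbsoluteValue L ℝ) (m : ι →₀ ℕ) (c : L) :
    n1 w (monomial m c) = w c := by
  classical
  rw [n1_eq_sum w _ (s := {m}) support_monomial_subset, Finset.sum_singleton, coeff_monomial,
    if_pos rfl]

theorem n1_monomial_mul (w : AbsoluteValue L ℝ) (m : ι →₀ ℕ) (c : L) (g : MvPolynomial ι L) :
    n1 w (monomial m c * g) ≤ w c * n1 w g := by
  classical
  have h1 : monomial m c * g = ∑ m' ∈ g.support, monomial (m + m') (c * g.coeff m') := by
    conv_lhs => rw [g.as_sum]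
    rw [Finset.mul_sum]
    refine Finset.sum_congr rfl fun m' _ => ?_
    rw [monomial_mul]
  rw [h1]
  refine (n1_sum w _ _).trans ?_
  unfold n1
  rw [Finset.mul_sum]
  refine Finset.sum_le_sum fun m' _ => ?_
  have h2 := n1_monomial w (m + m') (c * g.coeff m')
  unfold n1 at h2
  rw [h2, map_mul]

theorem n1_mul (w : AbsoluteValue L ℝ) (f g : MvPolynomial ι L) :
    n1 w (f * g) ≤ n1 w f * n1 w g := by
  classical
  have h1 : f * g = ∑ m ∈ f.support, monomial m (f.coeff m) * g := by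
    conv_lhs => rw [f.as_sum]
    rw [Finset.sum_mul]
  rw [h1]
  refine (n1_sum w _ _).trans ?_
  conv_rhs => unfold n1
  rw [Finset.sum_mul]
  exact Finset.sum_le_sum fun m _ => n1_monomial_mul w m _ g

theorem sum_le_of_na {w : AbsoluteValue L ℝ} (hw : IsNonarchimedean w) {α : Type*}
    (s : Finset α) (f : α → L) {c : ℝ} (hc : 0 ≤ c) (h : ∀ a ∈ s, w (f a) ≤ c) :
    w (∑ a ∈ s, f a) ≤ c := by
  classical
  induction s using Finset.induction_on with
  | empty => rwa [Finset.sum_empty, map_zero]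
  | insert a s ha ih =>
    rw [Finset.sum_insert ha]
    exact (hw _ _).trans (max_le (h a (Finset.mem_insert_self a s))
      (ih fun b hb => h b (Finset.mem_insert_of_mem hb)))

theorem nx_mul {w : AbsoluteValue L ℝ} (hw : IsNonarchimedean w) (f g : MvPolynomial ι L) :
    nx w (f * g) ≤ nx w f * nx w g := by
  classical
  refine nx_le (mul_nonneg (nx_nonneg w f) (nx_nonneg w g)) fun m => ?_
  rw [coeff_mul]
  refine sum_le_of_na hw _ _ (mul_nonneg (nx_nonneg w f) (nx_nonneg w g)) fun q _ => ?_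
  rw [map_mul]
  exact mul_le_mul (coeff_le_nx w f _) (coeff_le_nx w g _) (w.nonneg _) (nx_nonneg w f)

end Norm

variable {K : Type} [Field K] [AdmissibleAbsValues K] {ι : Type}

end Pool.Agent.Helper88.ZN

end
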