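import Pool.Agent.Helper72.TM2.T04

section

namespace Pool.Agent.Helper10.Sub
end Pool.Agent.Helper10.Sub

/-!
# Generalised Wronskians with Hasse derivatives
-/

set_option autoImplicit false

namespace Pool.Agent.Helper71.Sub

open MvPolynomial Pool.Agent.Helper10.Sub Module

section echelon

variable {σ : Type*}

theorem echelon (m : MonomialOrder σ) : ∀ (n : ℕ) (V : Submodule ℚ (MvPolynomial σ ℚ))
    [FiniteDimensional ℚ V], n ≤ finrank ℚ V →
    ∃ (h : Fin n → MvPolynomial σ ℚ) (e : Fin n → (σ →₀ ℕ)), Function.Injective e ∧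
      (∀ j, h j ∈ V) ∧ (∀ j, coeff (e j) (h j) ≠ 0) ∧
      (∀ j, ∀ k, coeff k (h j) ≠ 0 → m.toSyn k ≤ m.toSyn (e j))
  | 0, V, _, _ => ⟨Fin.elim0, Fin.elim0, fun i => i.elim0, fun i => i.elim0, fun i => i.elim0,
      fun i => i.elim0⟩
  | n + 1, V, _, hn => by
    set T : Set (σ →₀ ℕ) := {k | ∃ v ∈ V, coeff k v ≠ 0} with hT
    have hTfin : T.Finite := by
      obtain ⟨s, hs⟩ := (inferInstance : Module.Finite ℚ V).fg_top
      have hV : V = Submodule.span ℚ ((Subtype.val : V → _) '' (s : Set V)) := by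
        have := congrArg (Submodule.map V.subtype) hs
        rw [Submodule.map_span, Submodule.map_top, Submodule.range_subtype] at this
        exact this.symm
      apply Set.Finite.subset (s := ⋃ v ∈ (s : Set V), (((v : V) : MvPolynomial σ ℚ).support : Set _))
      · exact Set.Finite.biUnion s.finite_toSet fun v _ => Finset.finite_toSet _
      · rintro k ⟨v, hv, hk⟩
        by_contra hcon
        apply hk
        rw [hV] at hv
        induction hv using Submodule.span_induction with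
        | mem x hx =>
          obtain ⟨v, hv, rfl⟩ := hx
          by_contra hne
          apply hcon
          simp only [Set.mem_iUnion]
          exact ⟨v, hv, by simpa using hne⟩
        | zero => simp
        | add x y _ _ hx hy =>
          rw [coeff_add]
          by_cases h1 : coeff k x = 0
          · by_cases h2 : coeff k y = 0
            · rw [h1, h2, add_zero]
            · exact absurd (hy h2) h2
          · exact absurd (hx h1) h1
        | smul a x _ hx =>
          rw [coeff_smul]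
          by_cases h1 : coeff k x = 0
          · rw [h1, smul_zero]
          · exact absurd (hx h1) h1
    have hTne : T.Nonempty := by
      have hVne : V ≠ ⊥ := by
        rintro rfl
        simp at hn
      obtain ⟨v, hv, hv0⟩ := Submodule.exists_mem_ne_zero_of_ne_bot hVne
      obtain ⟨k, hk⟩ := MvPolynomial.ne_zero_iff.mp hv0
      exact ⟨k, v, hv, hk⟩
    obtain ⟨e0, he0, hmax⟩ := Set.exists_max_image T m.toSyn hTfin hTne
    obtain ⟨h0, hh0, hc0⟩ := he0
    set φ : V →ₗ[ℚ] ℚ := (lcoeff (R := ℚ) e0).domRestrict V with hφ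
    set V' : Submodule ℚ (MvPolynomial σ ℚ) := Submodule.map V.subtype (LinearMap.ker φ) with hV'
    have hle : V' ≤ V := by
      rintro x ⟨y, _, rfl⟩
      exact y.2
    have : FiniteDimensional ℚ V' := Submodule.finiteDimensional_of_le hle
    have hfr : n ≤ finrank ℚ V' := by
      rw [hV', Submodule.finrank_map_subtype_eq]
      have h1 := LinearMap.finrank_range_add_finrank_ker φ
      have h2 : finrank ℚ (LinearMap.range φ) ≤ 1 := by
        have := Submodule.finrank_le (LinearMap.range φ)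
        simpa using this
      omega
    obtain ⟨h', e', hinj, hmem, hcoef, hbd⟩ := echelon m n V' hfr
    have hV'0 : ∀ x ∈ V', coeff e0 x = 0 := by
      rintro x ⟨y, hy, rfl⟩
      exact hy
    refine ⟨Fin.cons h0 h', Fin.cons e0 e', ?_, ?_, ?_, ?_⟩
    · rw [Fin.cons_injective_iff]
      refine ⟨?_, hinj⟩
      rintro ⟨j, hj⟩
      exact hcoef j (hj ▸ hV'0 _ (hmem j))
    · intro j
      refine Fin.cases ?_ (fun j => ?_) j
      · exact hh0
      · exact hle (hmem j)
    · intro j
      refine Fin.cases ?_ (fun j => ?_) j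
      · exact hc0
      · exact hcoef j
    · intro j
      refine Fin.cases ?_ (fun j => ?_) j
      · intro k hk
        exact hmax k ⟨h0, hh0, hk⟩
      · exact hbd j

end echelon

section binom

variable {σ : Type*} [Fintype σ] {n : ℕ}

/-- the vector of products of binomial coefficients -/
def bv (e : Fin n → (σ →₀ ℕ)) (K : σ →₀ ℕ) : Fin n → ℚ :=
  fun j => ((∏ h, (e j h).choose (K h) : ℕ) : ℚ)

/-- the span of the vectors of order at most `i` -/
def bV (e : Fin n → (σ →₀ ℕ)) (i : ℕ) : Submodule ℚ (Fin n → ℚ) :=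
  Submodule.span ℚ {v | ∃ K : σ →₀ ℕ, ∑ h, K h ≤ i ∧ v = bv e K}

theorem bV_mono (e : Fin n → (σ →₀ ℕ)) {i j : ℕ} (hij : i ≤ j) : bV e i ≤ bV e j := by
  apply Submodule.span_mono
  rintro v ⟨K, hK, rfl⟩
  exact ⟨K, hK.trans hij, rfl⟩

theorem nat_binom (a k : ℕ) : a * a.choose k = (k + 1) * a.choose (k + 1) + k * a.choose k := by
  have h := Nat.choose_succ_right_eq a k
  by_cases hk : k ≤ a
  · obtain ⟨d, rfl⟩ := Nat.exists_eq_add_of_le hk
    rw [Nat.add_sub_cancel_left] at h
    rw [mul_comm (k + 1), h]; ring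
  · rw [Nat.choose_eq_zero_of_lt (by omega), Nat.choose_eq_zero_of_lt (by omega)]
    simp

theorem bv_mul (e : Fin n → (σ →₀ ℕ)) (K : σ →₀ ℕ) (h : σ) :
    (fun j => ((e j h : ℕ) : ℚ) * bv e K j) =
      ((K h : ℚ) + 1) • bv e (K + Finsupp.single h 1) + (K h : ℚ) • bv e K := by
  classical
  funext j
  simp only [bv, Pi.add_apply, Pi.smul_apply, smul_eq_mul]
  have h1 : ∀ L : σ →₀ ℕ, ∏ x, (e j x).choose (L x) =
      (e j h).choose (L h) * ∏ x ∈ Finset.univ.erase h, (e j x).choose (L x) := by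
    intro L
    exact (Finset.mul_prod_erase _ (fun x => (e j x).choose (L x)) (Finset.mem_univ h)).symm
  rw [h1 K, h1 (K + Finsupp.single h 1)]
  have h2 : ∏ x ∈ Finset.univ.erase h, (e j x).choose ((K + Finsupp.single h 1 : σ →₀ ℕ) x) =
      ∏ x ∈ Finset.univ.erase h, (e j x).choose (K x) := by
    apply Finset.prod_congr rfl
    intro x hx
    rw [Finsupp.add_apply, Finsupp.single_eq_of_ne (Finset.ne_of_mem_erase hx), add_zero]
  rw [h2]
  simp only [Finsupp.add_apply, Finsupp.single_eq_same]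
  have h3 : ((e j h : ℕ) : ℚ) * ((e j h).choose (K h) : ℕ) =
      ((K h : ℚ) + 1) * ((e j h).choose (K h + 1) : ℕ) + (K h : ℚ) * ((e j h).choose (K h) : ℕ) := by
    exact_mod_cast nat_binom (e j h) (K h)
  push_cast
  rw [← mul_assoc, h3]
  ring

theorem mul_mem_bV (e : Fin n → (σ →₀ ℕ)) (h : σ) {i : ℕ} {v : Fin n → ℚ} (hv : v ∈ bV e i) :
    (fun j => ((e j h : ℕ) : ℚ) * v j) ∈ bV e (i + 1) := by
  classical
  unfold bV at hv
  induction hv using Submodule.span_induction with
  | mem x hx =>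
    obtain ⟨K, hK, rfl⟩ := hx
    rw [bv_mul]
    refine Submodule.add_mem _ (Submodule.smul_mem _ _ (Submodule.subset_span ?_))
      (Submodule.smul_mem _ _ (Submodule.subset_span ?_))
    · refine ⟨_, ?_, rfl⟩
      simp only [Finsupp.add_apply, Finset.sum_add_distrib]
      have : ∑ x : σ, (Finsupp.single h 1 : σ →₀ ℕ) x = 1 := by
        rw [Finset.sum_eq_single h]
        · simp
        · intro b _ hb
          rw [Finsupp.single_eq_of_ne hb]
        · simp
      omega
    · exact ⟨K, by omega, rfl⟩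
  | zero =>
    have : (fun j => ((e j h : ℕ) : ℚ) * (0 : Fin n → ℚ) j) = 0 := by
      funext j; simp
    rw [this]
    exact Submodule.zero_mem _
  | add x y _ _ hx hy =>
    have : (fun j => ((e j h : ℕ) : ℚ) * (x + y) j) =
        (fun j => ((e j h : ℕ) : ℚ) * x j) + (fun j => ((e j h : ℕ) : ℚ) * y j) := by
      funext j; simp [mul_add]
    rw [this]
    exact Submodule.add_mem _ hx hy
  | smul a x _ hx =>
    have : (fun j => ((e j h : ℕ) : ℚ) * (a • x) j) = a • (fun j => ((e j h : ℕ) : ℚ) * x j) := by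
      funext j; simp; ring
    rw [this]
    exact Submodule.smul_mem _ _ hx

theorem one_mem_bV (e : Fin n → (σ →₀ ℕ)) : (fun _ => (1 : ℚ)) ∈ bV e 0 := by
  apply Submodule.subset_span
  refine ⟨0, by simp, ?_⟩
  funext j
  simp [bv]

theorem prod_mem_bV (e : Fin n → (σ →₀ ℕ)) {α : Type*} (T : Finset α) (h : α → σ) (c : α → ℚ) :
    (fun j => ∏ t ∈ T, (((e j (h t) : ℕ) : ℚ) - c t)) ∈ bV e T.card := by
  classical
  induction T using Finset.induction_on with
  | empty => simpa using one_mem_bV e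
  | insert a T ha ih =>
    rw [Finset.card_insert_of_notMem ha]
    have : (fun j => ∏ t ∈ insert a T, (((e j (h t) : ℕ) : ℚ) - c t)) =
        (fun j => ((e j (h a) : ℕ) : ℚ) * (∏ t ∈ T, (((e j (h t) : ℕ) : ℚ) - c t))) -
          c a • (fun j => ∏ t ∈ T, (((e j (h t) : ℕ) : ℚ) - c t)) := by
      funext j
      simp only [Finset.prod_insert ha, Pi.sub_apply, Pi.smul_apply, smul_eq_mul]
      ring
    rw [this]
    exact Submodule.sub_mem _ (mul_mem_bV e (h a) ih)
      (Submodule.smul_mem _ _ (bV_mono e (Nat.le_succ _) ih))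

theorem le_finrank_bV (e : Fin n → (σ →₀ ℕ)) (he : Function.Injective e) {i : ℕ} (hi : i < n) :
    i + 1 ≤ finrank ℚ (bV e i) := by
  classical
  -- separating coordinates
  have hsep : ∀ m : Fin n, ∀ l : {l : Fin n // l ≠ m}, ∃ h : σ, e m h ≠ e l.1 h := by
    intro m l
    have : e m ≠ e l.1 := fun h => l.2 (he h).symm
    obtain ⟨h, hh⟩ := Finsupp.ne_iff.mp this
    exact ⟨h, hh⟩
  choose hs hhs using hsep
  set T : ∀ m : Fin n, Finset {l : Fin n // l ≠ m} := fun m =>
    Finset.univ.filter (fun l => (l.1 : ℕ) ≤ i) with hT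
  have hcard : ∀ m : Fin n, (m : ℕ) ≤ i → (T m).card ≤ i := by
    intro m hm
    have h1 : ((T m).image (fun l => (l.1 : ℕ))) ⊆ (Finset.range (i + 1)).erase (m : ℕ) := by
      intro x hx
      rw [Finset.mem_image] at hx
      obtain ⟨l, hl, rfl⟩ := hx
      rw [Finset.mem_erase, Finset.mem_range]
      refine ⟨fun h => l.2 (Fin.ext h), ?_⟩
      have := (Finset.mem_filter.mp hl).2
      omega
    have h2 := Finset.card_le_card h1
    rw [Finset.card_erase_of_mem (by rw [Finset.mem_range]; omega), Finset.card_range,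
      Finset.card_image_of_injective] at h2
    · simpa using h2
    · intro a b hab
      exact Subtype.ext (Fin.ext hab)
  set F : Fin (i + 1) → (Fin n → ℚ) := fun m j =>
    ∏ t ∈ T (Fin.castLE (by omega) m), (((e j (hs _ t) : ℕ) : ℚ) - ((e t.1 (hs _ t) : ℕ) : ℚ)) with hF
  have hFmem : ∀ m, F m ∈ bV e i := by
    intro m
    have h1 := prod_mem_bV e (T (Fin.castLE (by omega) m)) (hs (Fin.castLE (by omega) m))
      (fun t => ((e t.1 (hs _ t) : ℕ) : ℚ))
    refine bV_mono e (hcard _ ?_) h1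
    simp; omega
  have hFz : ∀ m l : Fin (i + 1), l ≠ m → F m (Fin.castLE (by omega) l) = 0 := by
    intro m l hlm
    have hne : (Fin.castLE (by omega) l : Fin n) ≠ Fin.castLE (by omega) m := by
      intro h
      apply hlm
      exact Fin.ext (by simpa using congrArg Fin.val h)
    apply Finset.prod_eq_zero (i := (⟨Fin.castLE (by omega) l, hne⟩ : {l : Fin n // l ≠ _}))
    · rw [hT]
      simp only [Finset.mem_filter, Finset.mem_univ, true_and, Fin.val_castLE]
      omega
    · simp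
  have hFne : ∀ m : Fin (i + 1), F m (Fin.castLE (by omega) m) ≠ 0 := by
    intro m
    apply Finset.prod_ne_zero_iff.mpr
    intro t _
    have := hhs _ t
    rw [sub_ne_zero]
    exact_mod_cast this
  have hli : LinearIndependent ℚ (fun m => (⟨F m, hFmem m⟩ : bV e i)) := by
    rw [Fintype.linearIndependent_iff]
    intro g hg m
    have h1 : ∑ a, g a • F a = 0 := by
      have := congrArg (Submodule.subtype _) hg
      simpa using this
    have h2 := congrFun h1 (Fin.castLE (by omega) m)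
    rw [Finset.sum_apply, Finset.sum_eq_single m] at h2
    · simp only [Pi.smul_apply, smul_eq_mul, Pi.zero_apply] at h2
      exact (mul_eq_zero.mp h2).resolve_right (hFne m)
    · intro b _ hb
      rw [Pi.smul_apply, hFz b m (Ne.symm hb), smul_zero]
    · simp
  have := hli.fintype_card_le_finrank
  simpa using this

theorem exists_bv_indep (e : Fin n → (σ →₀ ℕ)) (he : Function.Injective e) :
    ∀ i : ℕ, i ≤ n → ∃ K : Fin i → (σ →₀ ℕ), (∀ l, ∑ h, K l h ≤ (l : ℕ)) ∧
      LinearIndependent ℚ (fun l => bv e (K l))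
  | 0, _ => ⟨Fin.elim0, fun l => l.elim0, linearIndependent_empty_type⟩
  | i + 1, hi => by
    obtain ⟨K, hK, hli⟩ := exists_bv_indep e he i (by omega)
    have h1 : ¬ (bV e i ≤ Submodule.span ℚ (Set.range fun l => bv e (K l))) := by
      intro hle
      have h2 := Submodule.finrank_mono hle
      have h3 := le_finrank_bV e he (i := i) (by omega)
      have h4 := finrank_range_le_card (R := ℚ) (fun l => bv e (K l))
      rw [Fintype.card_fin, Set.finrank] at h4
      omega
    have h2 : ∃ K' : σ →₀ ℕ, ∑ h, K' h ≤ i ∧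
        bv e K' ∉ Submodule.span ℚ (Set.range fun l => bv e (K l)) := by
      by_contra hcon
      push Not at hcon
      apply h1
      apply Submodule.span_le.mpr
      rintro v ⟨K', hK', rfl⟩
      exact hcon K' hK'
    obtain ⟨K', hK', hnot⟩ := h2
    refine ⟨Fin.snoc K K', ?_, ?_⟩
    · intro l
      refine Fin.lastCases ?_ (fun l => ?_) l
      · simpa using hK'
      · simpa using hK l
    · have : (fun l => bv e ((Fin.snoc K K' : Fin (i + 1) → (σ →₀ ℕ)) l)) =
          (Fin.snoc (fun l => bv e (K l)) (bv e K') : Fin (i + 1) → (Fin n → ℚ)) := by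
        funext l
        refine Fin.lastCases ?_ (fun l => ?_) l
        · simp
        · simp
      rw [this, linearIndependent_finSnoc]
      exact ⟨hli, hnot⟩

end binom

section wronskian

variable {σ : Type*} [Fintype σ]

omit [Fintype σ] in
theorem coeff_prod_top (m : MonomialOrder σ) {α : Type*} (s : Finset α)
    (q : α → MvPolynomial σ ℚ) (d : α → (σ →₀ ℕ))
    (hq : ∀ a ∈ s, m.toSyn (m.degree (q a)) ≤ m.toSyn (d a)) :
    m.toSyn (m.degree (∏ a ∈ s, q a)) ≤ m.toSyn (∑ a ∈ s, d a) ∧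
    coeff (∑ a ∈ s, d a) (∏ a ∈ s, q a) = ∏ a ∈ s, coeff (d a) (q a) := by
  classical
  induction s using Finset.induction_on with
  | empty => simp
  | insert a s ha ih =>
    obtain ⟨ih1, ih2⟩ := ih fun b hb => hq b (Finset.mem_insert_of_mem hb)
    have ha' := hq a (Finset.mem_insert_self a s)
    rw [Finset.prod_insert ha, Finset.sum_insert ha, Finset.prod_insert ha]
    constructor
    · refine (m.degree_mul_le).trans ?_
      rw [map_add, map_add]
      exact add_le_add ha' ih1
    · rw [m.coeff_mul_of_add_of_degree_le ha' ih1, ih2]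

theorem exists_wronskian (m : MonomialOrder σ) {n : ℕ} (f : Fin n → MvPolynomial σ ℚ)
    (hf : LinearIndependent ℚ f) :
    ∃ K : Fin n → (σ →₀ ℕ), (∀ i, ∑ h, K i h ≤ (i : ℕ)) ∧
      (Matrix.of fun i j => hd (K i) (f j)).det ≠ 0 := by
  classical
  have hV : finrank ℚ (Submodule.span ℚ (Set.range f)) = n := by
    rw [finrank_span_eq_card hf, Fintype.card_fin]
  have : FiniteDimensional ℚ (Submodule.span ℚ (Set.range f)) :=
    FiniteDimensional.span_of_finite ℚ (Set.finite_range f)
  obtain ⟨h, e, hinj, hmem, hcoef, hbd⟩ := echelon m n (Submodule.span ℚ (Set.range f)) hV.ge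
  obtain ⟨K, hK, hli⟩ := exists_bv_indep e hinj n le_rfl
  refine ⟨K, hK, ?_⟩
  have hc : ∀ j, ∃ c : Fin n → ℚ, ∑ l, c l • f l = h j := fun j =>
    (Submodule.mem_span_range_iff_exists_fun ℚ).mp (hmem j)
  choose c hc using hc
  -- determinant of the binomial matrix
  have hdet : (Matrix.of fun i j => bv e (K i) j).det ≠ 0 := by
    have h1 : IsUnit (Matrix.of fun i j => bv e (K i) j) :=
      Matrix.linearIndependent_rows_iff_isUnit.mp hli
    exact ((Matrix.isUnit_iff_isUnit_det _).mp h1).ne_zero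
  -- the matrix with monomial factors
  set D : Matrix (Fin n) (Fin n) (MvPolynomial σ ℚ) :=
    Matrix.of fun i j => monomial (K i) (1 : ℚ) * hd (K i) (h j) with hD
  have hDcoef : ∀ i j k, coeff k (D i j) =
      coeff k (h j) * ((∏ x, (k x).choose (K i x) : ℕ) : ℚ) := by
    intro i j k
    simp only [hD, Matrix.of_apply]
    rw [coeff_monomial_mul']
    split_ifs with hk
    · rw [coeff_hd, one_mul, tsub_add_cancel_of_le hk]
    · have hz : ∏ x, (k x).choose (K i x) = 0 := by
        rw [Finsupp.le_def] at hk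
        push Not at hk
        obtain ⟨x, hx⟩ := hk
        exact Finset.prod_eq_zero (Finset.mem_univ x) (Nat.choose_eq_zero_of_lt hx)
      rw [hz]; simp
  have hDdeg : ∀ i j, m.toSyn (m.degree (D i j)) ≤ m.toSyn (e j) := by
    intro i j
    rw [m.degree_le_iff]
    intro k hk
    apply hbd
    intro hz
    rw [MvPolynomial.mem_support_iff, hDcoef, hz, zero_mul] at hk
    exact hk rfl
  have hDdet : coeff (∑ j, e j) D.det = (∏ j, coeff (e j) (h j)) *
      (Matrix.of fun i j => bv e (K i) j).det := by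
    rw [Matrix.det_apply, Matrix.det_apply, coeff_sum, Finset.mul_sum]
    apply Finset.sum_congr rfl
    intro π _
    rw [Units.smul_def, Units.smul_def]
    have h1 := (coeff_prod_top m Finset.univ (fun j => D (π j) j) e
      (fun j _ => hDdeg (π j) j)).2
    have h2 : ∏ j, coeff (e j) (D (π j) j) =
        (∏ j, coeff (e j) (h j)) * ∏ j, bv e (K (π j)) j := by
      rw [← Finset.prod_mul_distrib]
      apply Finset.prod_congr rfl
      intro j _
      rw [hDcoef]
      rfl
    rw [coeff_smul, h1, h2, mul_smul_comm]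
    rfl
  have hDne : D.det ≠ 0 := by
    intro hz
    rw [hz, coeff_zero] at hDdet
    exact mul_ne_zero (Finset.prod_ne_zero_iff.mpr fun j _ => hcoef j) hdet hDdet.symm
  have hD2 : D.det = (∏ i, monomial (K i) (1 : ℚ)) *
      (Matrix.of fun i j => hd (K i) (h j)).det := by
    rw [← Matrix.det_mul_column]
    rfl
  have hH : (Matrix.of fun i j => hd (K i) (h j)) =
      (Matrix.of fun i j => hd (K i) (f j)) *
        (Matrix.of fun (l j : Fin n) => (C (c j l) : MvPolynomial σ ℚ)) := by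
    ext1 i j
    rw [Matrix.mul_apply, Matrix.of_apply, ← hc j, hd_sum]
    apply Finset.sum_congr rfl
    intro l _
    rw [hd_smul, Matrix.of_apply, Matrix.of_apply, smul_eq_C_mul, mul_comm]
  intro hz
  apply hDne
  rw [hD2, hH, Matrix.det_mul, hz, zero_mul, mul_zero]

end wronskian

end Pool.Agent.Helper71.Sub

end

section

namespace Pool.Agent.Helper10.Sub
end Pool.Agent.Helper10.Sub

/-!
# Polynomials in separate variables
-/

set_option autoImplicit false

namespace Pool.Agent.Helper71.Sub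

open MvPolynomial Pool.Agent.Helper10.Sub Module

section mix

variable {σ τ : Type*} {R : Type*} [CommRing R]

/-- combination of two exponent vectors -/
noncomputable def cmb (e : σ →₀ ℕ) (κ : τ →₀ ℕ) : (σ ⊕ τ) →₀ ℕ := Finsupp.sumElim e κ

/-- first part of an exponent vector -/
noncomputable def p1 (m : (σ ⊕ τ) →₀ ℕ) : σ →₀ ℕ :=
  m.comapDomain Sum.inl Sum.inl_injective.injOn

/-- second part of an exponent vector -/
noncomputable def p2 (m : (σ ⊕ τ) →₀ ℕ) : τ →₀ ℕ :=
  m.comapDomain Sum.inr Sum.inr_injective.injOn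

@[simp] lemma cmb_inl (e : σ →₀ ℕ) (κ : τ →₀ ℕ) (i : σ) : cmb e κ (Sum.inl i) = e i := rfl

@[simp] lemma cmb_inr (e : σ →₀ ℕ) (κ : τ →₀ ℕ) (i : τ) : cmb e κ (Sum.inr i) = κ i := rfl

@[simp] lemma p1_apply (m : (σ ⊕ τ) →₀ ℕ) (i : σ) : p1 m i = m (Sum.inl i) := rfl

@[simp] lemma p2_apply (m : (σ ⊕ τ) →₀ ℕ) (i : τ) : p2 m i = m (Sum.inr i) := rfl

@[simp] lemma p1_cmb (e : σ →₀ ℕ) (κ : τ →₀ ℕ) : p1 (cmb e κ) = e := by ext i; simp

@[simp] lemma p2_cmb (e : σ →₀ ℕ) (κ : τ →₀ ℕ) : p2 (cmb e κ) = κ := by ext i; simp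

@[simp] lemma cmb_p (m : (σ ⊕ τ) →₀ ℕ) : cmb (p1 m) (p2 m) = m := by
  ext i; cases i <;> simp

lemma cmb_add (e e' : σ →₀ ℕ) (κ κ' : τ →₀ ℕ) : cmb (e + e') (κ + κ') = cmb e κ + cmb e' κ' := by
  ext i; cases i <;> simp

lemma cmb_inj {e e' : σ →₀ ℕ} {κ κ' : τ →₀ ℕ} (h : cmb e κ = cmb e' κ') : e = e' ∧ κ = κ' := by
  constructor
  · rw [← p1_cmb e κ, h, p1_cmb]
  · rw [← p2_cmb e κ, h, p2_cmb]

lemma cmb_eq (e : σ →₀ ℕ) (κ : τ →₀ ℕ) :
    cmb e κ = e.mapDomain Sum.inl + κ.mapDomain Sum.inr := by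
  ext i
  cases i with
  | inl i =>
    rw [Finsupp.add_apply, Finsupp.mapDomain_apply Sum.inl_injective, Finsupp.mapDomain_of_notMem_range]
    · simp
    · simp
  | inr i =>
    rw [Finsupp.add_apply, Finsupp.mapDomain_apply Sum.inr_injective, Finsupp.mapDomain_of_notMem_range]
    · simp
    · simp

/-- product of polynomials in separate variables, as a bilinear map -/
noncomputable def mix : MvPolynomial σ R →ₗ[R] MvPolynomial τ R →ₗ[R] MvPolynomial (σ ⊕ τ) R :=
  (LinearMap.mul R (MvPolynomial (σ ⊕ τ) R)).compl₁₂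
    (rename Sum.inl : MvPolynomial σ R →ₐ[R] _).toLinearMap
    (rename Sum.inr : MvPolynomial τ R →ₐ[R] _).toLinearMap

lemma mix_apply (f : MvPolynomial σ R) (g : MvPolynomial τ R) :
    mix f g = rename Sum.inl f * rename Sum.inr g := rfl

lemma mix_monomial (e : σ →₀ ℕ) (κ : τ →₀ ℕ) (a b : R) :
    mix (monomial e a) (monomial κ b) = monomial (cmb e κ) (a * b) := by
  rw [mix_apply, rename_monomial, rename_monomial, monomial_mul, ← cmb_eq]

theorem coeff_mix (e : σ →₀ ℕ) (κ : τ →₀ ℕ) (f : MvPolynomial σ R) (g : MvPolynomial τ R) :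
    coeff (cmb e κ) (mix f g) = coeff e f * coeff κ g := by
  classical
  induction f using MvPolynomial.induction_on' with
  | monomial u a =>
    induction g using MvPolynomial.induction_on' with
    | monomial v b =>
      rw [mix_monomial, coeff_monomial, coeff_monomial, coeff_monomial]
      by_cases h1 : u = e
      · by_cases h2 : v = κ
        · rw [if_pos h1, if_pos h2, if_pos (by rw [h1, h2])]
        · rw [if_neg h2, mul_zero, if_neg]
          intro h; exact h2 (cmb_inj h).2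
      · rw [if_neg h1, zero_mul, if_neg]
        intro h; exact h1 (cmb_inj h).1
    | add p q hp hq => rw [map_add, coeff_add, hp, hq, coeff_add, mul_add]
  | add p q hp hq => rw [map_add, LinearMap.add_apply, coeff_add, hp, hq, coeff_add, add_mul]

theorem coeff_mix' (m : (σ ⊕ τ) →₀ ℕ) (f : MvPolynomial σ R) (g : MvPolynomial τ R) :
    coeff m (mix f g) = coeff (p1 m) f * coeff (p2 m) g := by
  conv_lhs => rw [← cmb_p m]
  exact coeff_mix _ _ _ _

theorem hd_mix [Fintype σ] [Fintype τ] (K : σ →₀ ℕ) (ν : τ →₀ ℕ) (f : MvPolynomial σ R)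
    (g : MvPolynomial τ R) : hd (cmb K ν) (mix f g) = mix (hd K f) (hd ν g) := by
  ext m
  obtain ⟨a, b, rfl⟩ : ∃ a b, cmb a b = m := ⟨p1 m, p2 m, cmb_p m⟩
  rw [coeff_hd, ← cmb_add, coeff_mix, coeff_mix, coeff_hd, coeff_hd, Fintype.prod_sum_type]
  simp only [cmb_inl, cmb_inr]
  push_cast
  ring

theorem shift_rename {α β : Type*} (φ : α → β) (ζ : β → R) (f : MvPolynomial α R) :
    shift ζ (rename φ f) = rename φ (shift (fun i => ζ (φ i)) f) := by
  induction f using MvPolynomial.induction_on with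
  | C a => simp
  | add p q hp hq => simp only [map_add, hp, hq]
  | mul_X p i hp => simp only [map_mul, hp, rename_X, shift_X, map_add, rename_C]

theorem shift_mix (ζ : σ ⊕ τ → R) (f : MvPolynomial σ R) (g : MvPolynomial τ R) :
    shift ζ (mix f g) = mix (shift (fun i => ζ (Sum.inl i)) f) (shift (fun i => ζ (Sum.inr i)) g) := by
  rw [mix_apply, map_mul, shift_rename, shift_rename, mix_apply]

/-- the polynomial in the first group of variables which is the coefficient of `y ^ κ` -/
noncomputable def sl2 (κ : τ →₀ ℕ) (P : MvPolynomial (σ ⊕ τ) R) : MvPolynomial σ R :=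
  open scoped Classical in
  ∑ m ∈ P.support, if p2 m = κ then monomial (p1 m) (coeff m P) else 0

/-- the polynomial in the second group of variables which is the coefficient of `x ^ e` -/
noncomputable def sl1 (e : σ →₀ ℕ) (P : MvPolynomial (σ ⊕ τ) R) : MvPolynomial τ R :=
  open scoped Classical in
  ∑ m ∈ P.support, if p1 m = e then monomial (p2 m) (coeff m P) else 0

theorem coeff_sl2 (κ : τ →₀ ℕ) (e : σ →₀ ℕ) (P : MvPolynomial (σ ⊕ τ) R) :
    coeff e (sl2 κ P) = coeff (cmb e κ) P := by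
  classical
  rw [sl2, coeff_sum]
  by_cases h : cmb e κ ∈ P.support
  · rw [Finset.sum_eq_single (cmb e κ)]
    · rw [p2_cmb, p1_cmb, if_pos rfl, coeff_monomial, if_pos rfl]
    · intro m _ hm
      split_ifs with h2
      · rw [coeff_monomial, if_neg]
        intro h3
        apply hm
        rw [← cmb_p m, h2, h3]
      · exact coeff_zero _
    · intro h2; exact absurd h h2
  · rw [notMem_support_iff.mp h]
    apply Finset.sum_eq_zero
    intro m hm
    split_ifs with h2
    · rw [coeff_monomial, if_neg]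
      intro h3
      apply h
      rw [← h2, ← h3, cmb_p]
      exact hm
    · exact coeff_zero _

theorem coeff_sl1 (κ : τ →₀ ℕ) (e : σ →₀ ℕ) (P : MvPolynomial (σ ⊕ τ) R) :
    coeff κ (sl1 e P) = coeff (cmb e κ) P := by
  classical
  rw [sl1, coeff_sum]
  by_cases h : cmb e κ ∈ P.support
  · rw [Finset.sum_eq_single (cmb e κ)]
    · rw [p2_cmb, p1_cmb, if_pos rfl, coeff_monomial, if_pos rfl]
    · intro m _ hm
      split_ifs with h2
      · rw [coeff_monomial, if_neg]
        intro h3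
        apply hm
        rw [← cmb_p m, h2, h3]
      · exact coeff_zero _
    · intro h2; exact absurd h h2
  · rw [notMem_support_iff.mp h]
    apply Finset.sum_eq_zero
    intro m hm
    split_ifs with h2
    · rw [coeff_monomial, if_neg]
      intro h3
      apply h
      rw [← h2, ← h3, cmb_p]
      exact hm
    · exact coeff_zero _

theorem eq_sum_mix (P : MvPolynomial (σ ⊕ τ) R) (S : Finset (τ →₀ ℕ))
    (hS : ∀ m, coeff m P ≠ 0 → p2 m ∈ S) :
    P = ∑ κ ∈ S, mix (sl2 κ P) (monomial κ 1) := by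
  classical
  ext m
  rw [coeff_sum]
  have h1 : ∀ κ ∈ S, coeff m (mix (sl2 κ P) (monomial κ 1)) =
      if κ = p2 m then coeff m P else 0 := by
    intro κ _
    rw [coeff_mix', coeff_sl2, coeff_monomial]
    split_ifs with h
    · rw [h, cmb_p, mul_one]
    · rw [mul_zero]
  rw [Finset.sum_congr rfl h1, Finset.sum_ite_eq']
  split_ifs with h
  · rfl
  · by_contra h2
    exact h (hS m h2)

end mix

section decomp

variable {σ τ : Type*}

theorem exists_decomp (P : MvPolynomial (σ ⊕ τ) ℚ) (hP : P ≠ 0) (S : Finset (τ →₀ ℕ))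
    (hS : ∀ m, coeff m P ≠ 0 → p2 m ∈ S) :
    ∃ (n : ℕ) (f : Fin n → MvPolynomial σ ℚ) (g : Fin n → MvPolynomial τ ℚ), 0 < n ∧
      n ≤ S.card ∧ LinearIndependent ℚ f ∧ LinearIndependent ℚ g ∧ P = ∑ j, mix (f j) (g j) := by
  classical
  set V : Submodule ℚ (MvPolynomial σ ℚ) :=
    Submodule.span ℚ ((S.image fun κ => sl2 κ P : Finset (MvPolynomial σ ℚ)) : Set _) with hV
  have hmem : ∀ κ ∈ S, sl2 κ P ∈ V := fun κ hκ =>
    Submodule.subset_span (by simpa using ⟨κ, hκ, rfl⟩)
  have hfin : FiniteDimensional ℚ V := FiniteDimensional.span_finset ℚ _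
  set b := Module.finBasis ℚ V with hb
  set n := finrank ℚ V with hn
  -- coordinates
  set a : (τ →₀ ℕ) → Fin n → ℚ := fun κ j =>
    if h : κ ∈ S then b.repr ⟨sl2 κ P, hmem κ h⟩ j else 0 with ha
  have hsl : ∀ κ ∈ S, sl2 κ P = ∑ j, a κ j • (b j : MvPolynomial σ ℚ) := by
    intro κ hκ
    have h1 := b.sum_repr ⟨sl2 κ P, hmem κ hκ⟩
    have h2 := congrArg (Submodule.subtype V) h1
    simp only [map_sum, map_smul, Submodule.subtype_apply] at h2
    rw [← h2]
    apply Finset.sum_congr rfl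
    intro j _
    simp [ha, hκ]
  set g : Fin n → MvPolynomial τ ℚ := fun j => ∑ κ ∈ S, a κ j • monomial κ 1 with hg
  refine ⟨n, fun j => b j, g, ?_, ?_, ?_, ?_, ?_⟩
  · rw [hn, Module.finrank_pos_iff]
    by_contra hcon
    rw [not_nontrivial_iff_subsingleton] at hcon
    apply hP
    rw [eq_sum_mix P S hS]
    apply Finset.sum_eq_zero
    intro κ hκ
    have h1 : (⟨sl2 κ P, hmem κ hκ⟩ : V) = 0 := Subsingleton.elim _ _
    have h2 : sl2 κ P = 0 := congrArg Subtype.val h1
    rw [h2, map_zero, LinearMap.zero_apply]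
  · exact (finrank_span_finset_le_card _).trans Finset.card_image_le
  · exact b.linearIndependent.map' V.subtype (Submodule.ker_subtype V)
  · rw [Fintype.linearIndependent_iff]
    intro c hc
    have h1 : ∀ κ ∈ S, ∑ j, c j * a κ j = 0 := by
      intro κ hκ
      have h2 := congrArg (coeff κ) hc
      rw [coeff_sum, coeff_zero] at h2
      rw [← h2]
      apply Finset.sum_congr rfl
      intro j _
      rw [coeff_smul, hg, coeff_sum, Finset.sum_eq_single κ]
      · simp
      · intro κ' _ hne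
        rw [coeff_smul, coeff_monomial, if_neg hne, smul_zero]
      · intro h; exact absurd hκ h
    set φ : V →ₗ[ℚ] ℚ := ∑ j, c j • b.coord j with hφ
    have hφ0 : ∀ v : V, φ v = 0 := by
      rintro ⟨v, hv⟩
      induction hv using Submodule.span_induction with
      | mem x hx =>
        rw [Finset.mem_coe, Finset.mem_image] at hx
        obtain ⟨κ, hκ, rfl⟩ := hx
        rw [← h1 κ hκ, hφ, LinearMap.sum_apply]
        apply Finset.sum_congr rfl
        intro j _
        simp [ha, hκ, Basis.coord_apply]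
      | zero => exact map_zero φ
      | add x y hx hy hx' hy' =>
        have : (⟨x + y, Submodule.add_mem _ hx hy⟩ : V) = ⟨x, hx⟩ + ⟨y, hy⟩ := rfl
        rw [this, map_add, hx', hy', add_zero]
      | smul r x hx hx' =>
        have : (⟨r • x, Submodule.smul_mem _ r hx⟩ : V) = r • ⟨x, hx⟩ := rfl
        rw [this, map_smul, hx', smul_zero]
    intro j
    have := hφ0 (b j)
    rw [hφ, LinearMap.sum_apply, Finset.sum_eq_single j] at this
    · simpa [Basis.coord_apply] using this
    · intro i _ hi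
      simp [Basis.coord_apply, Ne.symm hi]
    · simp
  · conv_lhs => rw [eq_sum_mix P S hS]
    have h1 : ∀ κ ∈ S, mix (sl2 κ P) (monomial κ (1 : ℚ)) =
        ∑ j, a κ j • mix (b j : MvPolynomial σ ℚ) (monomial κ (1 : ℚ)) := by
      intro κ hκ
      conv_lhs => rw [hsl κ hκ, map_sum, LinearMap.sum_apply]
      apply Finset.sum_congr rfl
      intro j _
      rw [map_smul, LinearMap.smul_apply]
    rw [Finset.sum_congr rfl h1, Finset.sum_comm]
    apply Finset.sum_congr rfl
    intro j _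
    rw [hg, map_sum]
    apply Finset.sum_congr rfl
    intro κ _
    rw [map_smul]

end decomp

end Pool.Agent.Helper71.Sub

end

section

namespace Pool.Agent.Helper10.Sub
end Pool.Agent.Helper10.Sub

/-!
# Order of vanishing of an integer polynomial in one variable at a rational point
-/

set_option autoImplicit false

namespace Pool.Agent.Helper71.Sub

open Pool.Agent.Helper10.Sub

section uni

open Polynomial

/-- the primitive linear polynomial vanishing at `x` -/
noncomputable def lin (x : ℚ) : ℤ[X] := C (x.den : ℤ) * X - C x.num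

lemma lin_coeff_zero (x : ℚ) : (lin x).coeff 0 = -x.num := by
  rw [lin, coeff_sub, coeff_C_mul, coeff_X_zero, coeff_C_zero]; ring

lemma lin_coeff_one (x : ℚ) : (lin x).coeff 1 = x.den := by
  rw [lin, coeff_sub, coeff_C_mul, coeff_X_one, coeff_C_succ]; ring

lemma lin_isPrimitive (x : ℚ) : (lin x).IsPrimitive := by
  intro r hr
  rw [C_dvd_iff_dvd_coeff] at hr
  have h0 := hr 0
  have h1 := hr 1
  rw [lin_coeff_zero, dvd_neg] at h0
  rw [lin_coeff_one] at h1
  have h2 : IsCoprime x.num (x.den : ℤ) := by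
    rw [Int.isCoprime_iff_gcd_eq_one]
    have := x.reduced
    simpa [Int.gcd, Nat.Coprime] using this
  exact h2.isUnit_of_dvd' h0 h1

lemma lin_natDegree (x : ℚ) : (lin x).natDegree = 1 := by
  have hd : (x.den : ℤ) ≠ 0 := by exact_mod_cast x.den_nz
  rw [lin, natDegree_sub_C, natDegree_C_mul_X _ hd]

lemma lin_leadingCoeff (x : ℚ) : (lin x).leadingCoeff = x.den := by
  rw [leadingCoeff, lin_natDegree, lin_coeff_one]

lemma lin_trailingCoeff (x : ℚ) (hx : x.num ≠ 0) : (lin x).trailingCoeff = -x.num := by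
  have h : (lin x).natTrailingDegree = 0 := by
    apply natTrailingDegree_eq_zero.mpr
    right
    rw [lin_coeff_zero]
    simpa using hx
  rw [trailingCoeff, h, lin_coeff_zero]

lemma trailingCoeff_pow' (p : ℤ[X]) (k : ℕ) : (p ^ k).trailingCoeff = p.trailingCoeff ^ k := by
  induction k with
  | zero => simp [trailingCoeff]
  | succ k ih => rw [pow_succ, trailingCoeff_mul, ih, pow_succ]

lemma lin_map (x : ℚ) : (lin x).map (Int.castRingHom ℚ) = C (x.den : ℚ) * (X - C x) := by
  rw [lin, Polynomial.map_sub, Polynomial.map_mul, map_C, map_C, map_X, mul_sub, ← C_mul]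
  congr 1
  simp only [eq_intCast]
  rw [mul_comm, Rat.mul_den_eq_num]

theorem pow_lin_dvd (q : ℤ[X]) (x : ℚ) (k : ℕ) (h : (X - C x) ^ k ∣ q.map (Int.castRingHom ℚ)) :
    lin x ^ k ∣ q := by
  have hprim : (lin x ^ k).IsPrimitive := by
    induction k with
    | zero => rw [pow_zero]; exact isPrimitive_one
    | succ k ih =>
      rw [pow_succ]
      exact (ih ((pow_dvd_pow _ (Nat.le_succ k)).trans h)).mul (lin_isPrimitive x)
  have h1 : (lin x ^ k).map (Int.castRingHom ℚ) ∣ q.map (Int.castRingHom ℚ) := by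
    have hd : IsUnit (C (x.den : ℚ) ^ k) := by
      apply IsUnit.pow
      rw [isUnit_C, isUnit_iff_ne_zero]
      exact_mod_cast x.den_nz
    rw [Polynomial.map_pow, lin_map, mul_pow]
    exact (hd.mul_left_dvd).mpr h
  exact (IsPrimitive.Int.dvd_iff_map_cast_dvd_map_cast _ _ hprim).mpr h1

theorem ht_pow_le (q : ℤ[X]) (hq : q ≠ 0) (B : ℝ) (hB : ∀ n, |((q.coeff n : ℤ) : ℝ)| ≤ B) (x : ℚ)
    (hx : 1 < ht x) (k : ℕ) (h : (X - C x) ^ k ∣ q.map (Int.castRingHom ℚ)) :
    (ht x) ^ k ≤ B := by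
  obtain ⟨q', rfl⟩ := pow_lin_dvd q x k h
  have hq' : q' ≠ 0 := right_ne_zero_of_mul hq
  have hlc : (x.den : ℝ) ^ k ≤ B := by
    have h1 := hB (lin x ^ k * q').natDegree
    rw [coeff_natDegree, leadingCoeff_mul, leadingCoeff_pow, lin_leadingCoeff] at h1
    push_cast at h1
    rw [abs_mul, abs_pow, Nat.abs_cast] at h1
    have h2 : (1 : ℝ) ≤ |(q'.leadingCoeff : ℝ)| := by
      have : (1 : ℤ) ≤ |q'.leadingCoeff| := Int.one_le_abs (leadingCoeff_ne_zero.mpr hq')
      exact_mod_cast this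
    calc (x.den : ℝ) ^ k ≤ (x.den : ℝ) ^ k * |(q'.leadingCoeff : ℝ)| :=
          le_mul_of_one_le_right (by positivity) h2
      _ ≤ B := h1
  by_cases hn : x.num = 0
  · exfalso
    rw [ht, hn] at hx
    have : x = 0 := Rat.num_eq_zero.mp hn
    subst this
    simp at hx
  have htc : (x.num.natAbs : ℝ) ^ k ≤ B := by
    have h1 := hB (lin x ^ k * q').natTrailingDegree
    change |(((lin x ^ k * q').trailingCoeff : ℤ) : ℝ)| ≤ B at h1
    rw [trailingCoeff_mul, trailingCoeff_pow', lin_trailingCoeff x hn] at h1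
    push_cast at h1
    rw [abs_mul, abs_pow, abs_neg] at h1
    have h2 : (1 : ℝ) ≤ |(q'.trailingCoeff : ℝ)| := by
      have h3 : q'.trailingCoeff ≠ 0 := by rw [Ne, trailingCoeff_eq_zero]; exact hq'
      have : (1 : ℤ) ≤ |q'.trailingCoeff| := Int.one_le_abs h3
      exact_mod_cast this
    have h4 : (x.num.natAbs : ℝ) = |(x.num : ℝ)| := by
      rw [← Int.cast_abs, Int.abs_eq_natAbs]; rfl
    rw [h4]
    calc |(x.num : ℝ)| ^ k ≤ |(x.num : ℝ)| ^ k * |(q'.trailingCoeff : ℝ)| :=
          le_mul_of_one_le_right (by positivity) h2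
      _ ≤ B := h1
  rw [ht]
  rcases le_total (x.num.natAbs : ℝ) (x.den : ℝ) with h | h
  · rw [max_eq_right h]; exact hlc
  · rw [max_eq_left h]; exact htc

theorem exists_taylor_coeff (q : ℤ[X]) (hq : q ≠ 0) (B : ℝ) (hB : ∀ n, |((q.coeff n : ℤ) : ℝ)| ≤ B)
    (x : ℚ) (hx : 1 < ht x) :
    ∃ k : ℕ, (taylor x (q.map (Int.castRingHom ℚ))).coeff k ≠ 0 ∧ (ht x) ^ k ≤ B := by
  refine ⟨(q.map (Int.castRingHom ℚ)).rootMultiplicity x, ?_, ?_⟩
  · have hq2 : q.map (Int.castRingHom ℚ) ≠ 0 :=
      (Polynomial.map_ne_zero_iff (RingHom.injective_int _)).mpr hq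
    rw [rootMultiplicity_eq_natTrailingDegree, ← taylor_apply]
    change (taylor x (q.map (Int.castRingHom ℚ))).trailingCoeff ≠ 0
    rw [Ne, trailingCoeff_eq_zero]
    intro h
    exact hq2 ((taylor_injective x) (by rw [h, map_zero]))
  · exact ht_pow_le q hq B hB x hx _ (pow_rootMultiplicity_dvd _ _)

end uni

section one

open MvPolynomial

/-- a polynomial in one variable as `Polynomial` -/
noncomputable def toU {R : Type*} [CommRing R] : MvPolynomial (Fin 1) R →ₐ[R] Polynomial R :=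
  aeval (fun _ => Polynomial.X)

lemma toU_coeff {R : Type*} [CommRing R] (P : MvPolynomial (Fin 1) R) (n : ℕ) :
    (toU P).coeff n = coeff (Finsupp.single 0 n) P := by
  classical
  induction P using MvPolynomial.induction_on' with
  | monomial u a =>
    rw [toU, aeval_monomial, Finsupp.prod_fintype _ _ (by simp)]
    simp only [Finset.univ_unique, Fin.default_eq_zero, Finset.prod_singleton]
    rw [Polynomial.algebraMap_eq, Polynomial.coeff_C_mul, Polynomial.coeff_X_pow, coeff_monomial]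
    have : (n = u 0) ↔ (u = Finsupp.single 0 n) := by
      constructor
      · intro h
        apply Finsupp.ext
        intro i
        rw [Subsingleton.elim i 0, Finsupp.single_eq_same, h]
      · intro h
        rw [h, Finsupp.single_eq_same]
    by_cases h : n = u 0
    · rw [if_pos h, if_pos (this.mp h), mul_one]
    · rw [if_neg h, if_neg (fun h2 => h (this.mpr h2)), mul_zero]
  | add p q hp hq => rw [map_add, Polynomial.coeff_add, hp, hq, coeff_add]

lemma toU_shift (ξ : Fin 1 → ℚ) (P : MvPolynomial (Fin 1) ℚ) :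
    toU (shift ξ P) = Polynomial.taylor (ξ 0) (toU P) := by
  induction P using MvPolynomial.induction_on with
  | C a =>
    rw [shift_C, toU, aeval_C, Polynomial.algebraMap_eq, Polynomial.taylor_C]
  | add p q hp hq => simp only [map_add, hp, hq]
  | mul_X p i hp =>
    rw [map_mul, map_mul, hp, map_mul, shift_X, Polynomial.taylor_mul]
    congr 1
    rw [Subsingleton.elim i 0]
    simp [toU]

lemma toU_map (P : MvPolynomial (Fin 1) ℤ) :
    toU (MvPolynomial.map (Int.castRingHom ℚ) P) = (toU P).map (Int.castRingHom ℚ) := by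
  ext n
  rw [toU_coeff, MvPolynomial.coeff_map, Polynomial.coeff_map, toU_coeff]

theorem base_one (P : MvPolynomial (Fin 1) ℤ) (hP : P ≠ 0) (B : ℝ)
    (hB : ∀ e, |((P.coeff e : ℤ) : ℝ)| ≤ B) (ξ : Fin 1 → ℚ) (hξ : 1 < ht (ξ 0)) :
    ∃ k : Fin 1 →₀ ℕ, coeff k (shift ξ (MvPolynomial.map (Int.castRingHom ℚ) P)) ≠ 0 ∧
      (k 0 : ℝ) * Real.log (ht (ξ 0)) ≤ Real.log B := by
  have hq : toU P ≠ 0 := by
    obtain ⟨e, he⟩ := MvPolynomial.ne_zero_iff.mp hP
    intro h
    apply he
    have h1 := toU_coeff P (e 0)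
    rw [h, Polynomial.coeff_zero] at h1
    have : Finsupp.single 0 (e 0) = e := by
      apply Finsupp.ext
      intro i
      rw [Subsingleton.elim i 0, Finsupp.single_eq_same]
    rw [this] at h1
    exact h1.symm
  obtain ⟨k, hk, hkB⟩ := exists_taylor_coeff (toU P) hq B
    (fun n => by rw [toU_coeff]; exact hB _) (ξ 0) hξ
  refine ⟨Finsupp.single 0 k, ?_, ?_⟩
  · rw [← toU_map, ← toU_shift, toU_coeff] at hk
    exact hk
  · rw [Finsupp.single_eq_same, ← Real.log_pow]
    exact Real.log_le_log (by positivity) hkB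

end one

end Pool.Agent.Helper71.Sub

end

section

namespace Pool.Agent.Helper10.Sub
end Pool.Agent.Helper10.Sub

/-!
# Roth's lemma
-/

set_option autoImplicit false

namespace Pool.Agent.Helper71.Sub

open MvPolynomial Pool.Agent.Helper10.Sub

section maj

variable {σ : Type*}

/-- the coefficients of `P` are bounded by those of `M` -/
def Maj (P : MvPolynomial σ ℤ) (M : MvPolynomial σ ℝ) : Prop :=
  ∀ e, |((coeff e P : ℤ) : ℝ)| ≤ coeff e M

lemma Maj.nonneg {P : MvPolynomial σ ℤ} {M : MvPolynomial σ ℝ} (h : Maj P M) (e : σ →₀ ℕ) :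
    0 ≤ coeff e M := (abs_nonneg _).trans (h e)

lemma Maj.add {P Q : MvPolynomial σ ℤ} {M N : MvPolynomial σ ℝ} (h1 : Maj P M) (h2 : Maj Q N) :
    Maj (P + Q) (M + N) := by
  intro e
  rw [coeff_add, coeff_add]
  push_cast
  exact (abs_add_le _ _).trans (add_le_add (h1 e) (h2 e))

lemma Maj.zero : Maj (0 : MvPolynomial σ ℤ) 0 := by
  intro e; simp

lemma Maj.one : Maj (1 : MvPolynomial σ ℤ) 1 := by
  classical
  intro e
  rw [coeff_one, coeff_one]
  split_ifs <;> simp

lemma Maj.mul {P Q : MvPolynomial σ ℤ} {M N : MvPolynomial σ ℝ} (h1 : Maj P M) (h2 : Maj Q N) :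
    Maj (P * Q) (M * N) := by
  classical
  intro e
  rw [coeff_mul, coeff_mul]
  push_cast
  refine (Finset.abs_sum_le_sum_abs _ _).trans (Finset.sum_le_sum fun x _ => ?_)
  rw [abs_mul]
  exact mul_le_mul (h1 _) (h2 _) (abs_nonneg _) (h1.nonneg _)

lemma Maj.neg {P : MvPolynomial σ ℤ} {M : MvPolynomial σ ℝ} (h : Maj P M) : Maj (-P) M := by
  intro e
  rw [coeff_neg]
  push_cast
  rw [abs_neg]
  exact h e

lemma Maj.sum {α : Type*} (s : Finset α) (P : α → MvPolynomial σ ℤ) (M : α → MvPolynomial σ ℝ)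
    (h : ∀ a ∈ s, Maj (P a) (M a)) : Maj (∑ a ∈ s, P a) (∑ a ∈ s, M a) := by
  classical
  induction s using Finset.induction_on with
  | empty => simpa using Maj.zero
  | insert a s ha ih =>
    rw [Finset.sum_insert ha, Finset.sum_insert ha]
    exact (h a (Finset.mem_insert_self _ _)).add (ih fun b hb => h b (Finset.mem_insert_of_mem hb))

lemma Maj.prod {α : Type*} (s : Finset α) (P : α → MvPolynomial σ ℤ) (M : α → MvPolynomial σ ℝ)
    (h : ∀ a ∈ s, Maj (P a) (M a)) : Maj (∏ a ∈ s, P a) (∏ a ∈ s, M a) := by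
  classical
  induction s using Finset.induction_on with
  | empty => simpa using Maj.one
  | insert a s ha ih =>
    rw [Finset.prod_insert ha, Finset.prod_insert ha]
    exact (h a (Finset.mem_insert_self _ _)).mul (ih fun b hb => h b (Finset.mem_insert_of_mem hb))

lemma Maj.det {n : ℕ} (A : Matrix (Fin n) (Fin n) (MvPolynomial σ ℤ)) (M : MvPolynomial σ ℝ)
    (h : ∀ i j, Maj (A i j) M) : Maj A.det ((n.factorial : MvPolynomial σ ℝ) * M ^ n) := by
  rw [Matrix.det_apply]
  have h1 : (n.factorial : MvPolynomial σ ℝ) * M ^ n =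
      ∑ _π : Equiv.Perm (Fin n), ∏ _i : Fin n, M := by
    rw [Finset.sum_const, Finset.prod_const, Finset.card_univ, Finset.card_univ, Fintype.card_perm,
      Fintype.card_fin, nsmul_eq_mul]
  rw [h1]
  apply Maj.sum
  intro π _
  have h2 : Maj (∏ i, A (π i) i) (∏ _i : Fin n, M) := Maj.prod _ _ _ fun i _ => h _ _
  rcases Int.units_eq_one_or (Equiv.Perm.sign π) with h3 | h3
  · rw [h3, one_smul]; exact h2
  · rw [h3, Units.neg_smul, one_smul]; exact h2.neg

lemma Maj.coeff_le_eval {P : MvPolynomial σ ℤ} {M : MvPolynomial σ ℝ} (h : Maj P M) (e : σ →₀ ℕ) :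
    |((coeff e P : ℤ) : ℝ)| ≤ eval (fun _ => (1 : ℝ)) M := by
  classical
  have h1 : eval (fun _ => (1 : ℝ)) M = ∑ d ∈ M.support, coeff d M := by
    rw [eval_eq]
    apply Finset.sum_congr rfl
    intro d _
    simp
  rw [h1]
  refine (h e).trans ?_
  by_cases he : e ∈ M.support
  · exact Finset.single_le_sum (fun d _ => h.nonneg d) he
  · rw [notMem_support_iff.mp he]
    exact Finset.sum_nonneg fun d _ => h.nonneg d

end maj

section box

variable {σ : Type*} [Fintype σ]

/-- the polynomial all of whose coefficients in the box `≤ r` are equal to one -/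
noncomputable def box (r : σ → ℕ) : MvPolynomial σ ℝ :=
  open scoped Classical in
  ∑ e ∈ Finset.Iic (Finsupp.equivFunOnFinite.symm r), monomial e (1 : ℝ)

lemma coeff_box (r : σ → ℕ) (e : σ →₀ ℕ) :
    coeff e (box r) = open scoped Classical in if (∀ h, e h ≤ r h) then 1 else 0 := by
  classical
  rw [box, coeff_sum]
  simp only [coeff_monomial]
  rw [Finset.sum_ite_eq']
  congr 1
  rw [Finset.mem_Iic, eq_iff_iff]
  exact Iff.rfl

lemma eval_box_le (r : σ → ℕ) : eval (fun _ => (1 : ℝ)) (box r) ≤ 2 ^ (∑ h, r h) := by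
  classical
  rw [box, map_sum]
  simp only [eval_monomial, one_pow, Finsupp.prod, Finset.prod_const_one, mul_one,
    Finset.sum_const, nsmul_eq_mul]
  have h1 : (Finset.Iic (Finsupp.equivFunOnFinite.symm r)).card ≤ 2 ^ (∑ h, r h) := by
    rw [Finsupp.card_Iic, ← Finset.prod_pow_eq_pow_sum]
    have h2 : ∏ i ∈ (Finsupp.equivFunOnFinite.symm r).support,
        (Finset.Iic ((Finsupp.equivFunOnFinite.symm r) i)).card ≤ ∏ i : σ, (r i + 1) := by
      rw [Finset.prod_subset (Finset.subset_univ _)]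
      · apply Finset.prod_le_prod'
        intro i _
        simp
      · intro i _ hi
        rw [Finsupp.notMem_support_iff] at hi
        rw [hi]
        rfl
    refine h2.trans (Finset.prod_le_prod' fun i _ => ?_)
    exact Nat.succ_le_of_lt (Nat.lt_two_pow_self)
  exact_mod_cast h1

lemma maj_hd (P : MvPolynomial σ ℤ) (r : σ → ℕ) (hr : ∀ e, coeff e P ≠ 0 → ∀ h, e h ≤ r h)
    (B : ℝ) (hB0 : 0 ≤ B) (hB : ∀ e, |((coeff e P : ℤ) : ℝ)| ≤ B) (k : σ →₀ ℕ) :
    Maj (hd k P) (C (B * 2 ^ (∑ h, r h)) * box r) := by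
  classical
  intro e
  rw [coeff_hd, coeff_C_mul, coeff_box]
  by_cases hz : coeff (e + k) P = 0
  · rw [hz, zero_mul]
    simp only [Int.cast_zero, abs_zero]
    split_ifs <;> positivity
  · have h1 := hr _ hz
    rw [if_pos fun h => (Nat.le_add_right _ _).trans (h1 h), mul_one]
    push_cast
    rw [abs_mul]
    apply mul_le_mul (hB _) _ (abs_nonneg _) hB0
    have h2 := prod_choose_le (e + k) k
    have h3 : (2 : ℕ) ^ (∑ i, (e + k) i) ≤ 2 ^ (∑ h, r h) :=
      Nat.pow_le_pow_right (by norm_num) (Finset.sum_le_sum fun i _ => h1 i)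
    have h4 : ((∏ i, ((e + k) i).choose (k i) : ℕ) : ℝ) ≤ ((2 ^ (∑ h, r h) : ℕ) : ℝ) := by
      exact_mod_cast h2.trans h3
    rw [abs_of_nonneg (by positivity)]
    push_cast at h4
    exact h4

lemma degree_box_pow (r : σ → ℕ) (a : ℝ) (n : ℕ) (e : σ →₀ ℕ)
    (he : coeff e ((n.factorial : MvPolynomial σ ℝ) * (C a * box r) ^ n) ≠ 0) (h : σ) :
    e h ≤ n * r h := by
  classical
  have h1 : e ∈ ((n.factorial : MvPolynomial σ ℝ) * (C a * box r) ^ n).support :=
    MvPolynomial.mem_support_iff.mpr he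
  have h2 := monomial_le_degreeOf h h1
  refine h2.trans ((degreeOf_mul_le _ _ _).trans ?_)
  have h3 : degreeOf h (n.factorial : MvPolynomial σ ℝ) = 0 := by
    rw [← map_natCast (C : ℝ →+* MvPolynomial σ ℝ)]
    exact degreeOf_C _ _
  rw [h3, zero_add]
  refine (degreeOf_pow_le _ _ _).trans ?_
  apply Nat.mul_le_mul_left
  refine (degreeOf_mul_le _ _ _).trans ?_
  rw [degreeOf_C, zero_add, degreeOf_le_iff]
  intro d hd
  rw [MvPolynomial.mem_support_iff, coeff_box] at hd
  by_contra hcon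
  apply hd
  rw [if_neg]
  intro h4
  exact hcon (h4 h)

end box

section index

variable {σ : Type*} [Fintype σ]

/-- weight of an exponent vector -/
noncomputable def wg (r : σ → ℕ) (k : σ →₀ ℕ) : ℝ := ∑ h, (k h : ℝ) / (r h : ℝ)

lemma wg_add (r : σ → ℕ) (k l : σ →₀ ℕ) : wg r (k + l) = wg r k + wg r l := by
  unfold wg
  rw [← Finset.sum_add_distrib]
  apply Finset.sum_congr rfl
  intro h _
  rw [Finsupp.add_apply]
  push_cast
  ring

lemma wg_nonneg (r : σ → ℕ) (k : σ →₀ ℕ) : 0 ≤ wg r k :=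
  Finset.sum_nonneg fun h _ => by positivity

lemma wg_zero (r : σ → ℕ) : wg r 0 = 0 := by simp [wg]

/-- all exponents of `Q` have weight at least `α` -/
def Ge (r : σ → ℕ) (α : ℝ) (Q : MvPolynomial σ ℚ) : Prop := ∀ k, coeff k Q ≠ 0 → α ≤ wg r k

lemma Ge.mul {r : σ → ℕ} {α β : ℝ} {P Q : MvPolynomial σ ℚ} (h1 : Ge r α P) (h2 : Ge r β Q) :
    Ge r (α + β) (P * Q) := by
  classical
  intro k hk
  rw [coeff_mul] at hk
  obtain ⟨x, hx, hne⟩ := Finset.exists_ne_zero_of_sum_ne_zero hk
  rw [Finset.HasAntidiagonal.mem_antidiagonal] at hx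
  rw [← hx, wg_add]
  exact add_le_add (h1 _ (left_ne_zero_of_mul hne)) (h2 _ (right_ne_zero_of_mul hne))

lemma Ge.prod {r : σ → ℕ} {ι : Type*} (s : Finset ι) (α : ι → ℝ) (P : ι → MvPolynomial σ ℚ)
    (h : ∀ i ∈ s, Ge r (α i) (P i)) : Ge r (∑ i ∈ s, α i) (∏ i ∈ s, P i) := by
  classical
  induction s using Finset.induction_on with
  | empty =>
    intro k hk
    rw [Finset.prod_empty, coeff_one] at hk
    rw [Finset.sum_empty]
    exact wg_nonneg r k
  | insert a s ha ih =>
    rw [Finset.sum_insert ha, Finset.prod_insert ha]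
    exact (h a (Finset.mem_insert_self _ _)).mul (ih fun b hb => h b (Finset.mem_insert_of_mem hb))

lemma Ge.det {r : σ → ℕ} {n : ℕ} (α : Fin n → ℝ) (A : Matrix (Fin n) (Fin n) (MvPolynomial σ ℚ))
    (h : ∀ i l, Ge r (α l) (A i l)) : Ge r (∑ l, α l) A.det := by
  classical
  intro k hk
  rw [Matrix.det_apply, coeff_sum] at hk
  obtain ⟨π, _, hne⟩ := Finset.exists_ne_zero_of_sum_ne_zero hk
  have h1 : coeff k (∏ i, A (π i) i) ≠ 0 := by
    intro hz
    apply hne
    rcases Int.units_eq_one_or (Equiv.Perm.sign π) with h3 | h3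
    · rw [h3, one_smul, hz]
    · rw [h3, Units.neg_smul, one_smul, coeff_neg, hz, neg_zero]
  exact Ge.prod Finset.univ α (fun i => A (π i) i) (fun i _ => h _ _) k h1

lemma Ge.hd {r : σ → ℕ} {ε : ℝ} {Q : MvPolynomial σ ℚ} (h : ∀ k, coeff k Q ≠ 0 → ε < wg r k)
    (k : σ →₀ ℕ) (α : ℝ) (hα : α ≤ max 0 (ε - wg r k)) : Ge r α (hd k Q) := by
  intro m hm
  rw [coeff_hd] at hm
  have h1 := h _ (left_ne_zero_of_mul hm)
  rw [wg_add] at h1
  refine hα.trans (max_le (wg_nonneg r m) (by linarith))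

end index

lemma sum_lower (n ρ : ℕ) (hnρ : n ≤ ρ + 1) (hρ : 1 ≤ ρ) (θ : ℝ) (h0 : 0 < θ)
    (h1 : θ ≤ 1) : n * θ ^ 2 / 8 ≤ ∑ l : Fin n, max 0 (θ - (l : ℝ) / ρ) := by
  rw [Fin.sum_univ_eq_sum_range (fun l : ℕ => max 0 (θ - (l : ℝ) / ρ)) n]
  have hρ' : (0 : ℝ) < ρ := by exact_mod_cast hρ
  set m : ℕ := min n (⌊θ * ρ / 2⌋₊ + 1) with hm
  have hmn : m ≤ n := min_le_left _ _
  have hmR : θ * n / 4 ≤ (m : ℝ) := by
    have hn0 : (0 : ℝ) ≤ n := Nat.cast_nonneg n
    have hn2 : (n : ℝ) ≤ 2 * ρ := by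
      have : n ≤ 2 * ρ := by omega
      exact_mod_cast this
    rw [hm, Nat.cast_min]
    apply le_min
    · nlinarith
    · have h2 := (Nat.lt_floor_add_one (θ * ρ / 2)).le
      push_cast
      refine le_trans ?_ h2
      nlinarith
  have h2 : ∑ l ∈ Finset.range m, max 0 (θ - (l : ℝ) / ρ) ≤
      ∑ l ∈ Finset.range n, max 0 (θ - (l : ℝ) / ρ) := by
    apply Finset.sum_le_sum_of_subset_of_nonneg
    · exact Finset.range_subset_range.mpr hmn
    · intro i _ _
      exact le_max_left _ _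
  have h3 : ∑ _l ∈ Finset.range m, (θ / 2) ≤ ∑ l ∈ Finset.range m, max 0 (θ - (l : ℝ) / ρ) := by
    apply Finset.sum_le_sum
    intro l hl
    rw [Finset.mem_range] at hl
    have h4 : l ≤ ⌊θ * ρ / 2⌋₊ := by omega
    have h5 : (l : ℝ) ≤ θ * ρ / 2 := (Nat.cast_le.mpr h4).trans (Nat.floor_le (by positivity))
    refine le_trans ?_ (le_max_right _ _)
    rw [le_sub_iff_add_le]
    have : (l : ℝ) / ρ ≤ θ / 2 := by
      rw [div_le_iff₀ hρ']
      linarith
    linarith
  rw [Finset.sum_const, Finset.card_range, nsmul_eq_mul] at h3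
  refine le_trans ?_ (h3.trans h2)
  nlinarith

/-- the inductive statement -/
def RothAt (b : ℕ) (ε ω c : ℝ) : Prop :=
  ∀ (r : Fin b → ℕ), (∀ h, 1 ≤ r h) → (∀ h h', h < h' → (r h' : ℝ) ≤ ω * r h) →
    ∀ (P : MvPolynomial (Fin b) ℤ), P ≠ 0 → (∀ e, coeff e P ≠ 0 → ∀ h, e h ≤ r h) →
    ∀ (B : ℝ), 1 ≤ B → (∀ e, |((P.coeff e : ℤ) : ℝ)| ≤ B) →
    ∀ (ξ : Fin b → ℚ), (∀ h h', Real.log B + c * r h' ≤ ω * (r h * Real.log (ht (ξ h)))) →
    ∃ k : Fin b →₀ ℕ, wg r k ≤ ε ∧
      coeff k (shift ξ (MvPolynomial.map (Int.castRingHom ℚ) P)) ≠ 0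

lemma map_rename_det {α β : Type*} {n : ℕ} (φ : α → β)
    (A : Matrix (Fin n) (Fin n) (MvPolynomial α ℚ)) :
    rename φ A.det = (Matrix.of fun i j => rename φ (A i j)).det := by
  rw [AlgHom.map_det]
  rfl

theorem roth_step (b : ℕ) (ε : ℝ) (hε : 0 < ε) (hε1 : ε ≤ 1) (ω' c' : ℝ) (hω' : 0 < ω')
    (hc' : 0 < c') (IH : RothAt b (ε ^ 2 / 100) ω' c') (ω c : ℝ) (hω : 0 < ω) (hωω' : ω ≤ ω')
    (hωε : ω ≤ ε ^ 2 / 100) (hc : c = (b + 1) * (3 + c'))
    (r : Fin b ⊕ Fin 1 → ℕ) (hr1 : ∀ q, 1 ≤ r q)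
    (hr2 : ∀ h h' : Fin b, h < h' → (r (.inl h') : ℝ) ≤ ω * r (.inl h))
    (hr3 : ∀ h : Fin b, (r (.inr 0) : ℝ) ≤ ω * r (.inl h))
    (P : MvPolynomial (Fin b ⊕ Fin 1) ℤ) (hP : P ≠ 0)
    (hdeg : ∀ m, coeff m P ≠ 0 → ∀ q, m q ≤ r q)
    (B : ℝ) (hB1 : 1 ≤ B) (hB : ∀ m, |((coeff m P : ℤ) : ℝ)| ≤ B)
    (ξ : Fin b ⊕ Fin 1 → ℚ)
    (hξ : ∀ q q', Real.log B + c * r q' ≤ ω * (r q * Real.log (ht (ξ q)))) :
    ∃ m, wg r m ≤ ε ∧ coeff m (shift ξ (MvPolynomial.map (Int.castRingHom ℚ) P)) ≠ 0 := by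
  classical
  by_contra hcon
  have hcon' : ∀ m, coeff m (shift ξ (MvPolynomial.map (Int.castRingHom ℚ) P)) ≠ 0 →
      ε < wg r m := by
    intro m hm
    by_contra h
    exact hcon ⟨m, not_lt.mp h, hm⟩
  set ρ : ℕ := r (.inr 0) with hρ
  have hρ1 : 1 ≤ ρ := hr1 _
  have hρ0 : (0 : ℝ) < ρ := by exact_mod_cast hρ1
  set D : ℕ := ∑ q, r q with hD
  have hDρ : ρ ≤ D := Finset.single_le_sum (f := r) (fun _ _ => Nat.zero_le _) (Finset.mem_univ _)
  set PQ : MvPolynomial (Fin b ⊕ Fin 1) ℚ := MvPolynomial.map (Int.castRingHom ℚ) P with hPQ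
  have hPQ0 : PQ ≠ 0 := by
    intro hz
    apply hP
    apply MvPolynomial.map_injective (Int.castRingHom ℚ) (RingHom.injective_int _)
    rw [map_zero]
    exact hz
  have hPQc : ∀ m, coeff m PQ ≠ 0 → coeff m P ≠ 0 := by
    intro m hm hz
    apply hm
    rw [hPQ, coeff_map, hz, map_zero]
  -- averaged hypothesis
  have hav : ∀ q, Real.log B + (3 + c') * D ≤ ω * (r q * Real.log (ht (ξ q))) := by
    intro q
    have h1 : ∑ q', (Real.log B + c * r q') ≤
        ∑ _q' : Fin b ⊕ Fin 1, ω * (r q * Real.log (ht (ξ q))) :=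
      Finset.sum_le_sum fun q' _ => hξ q q'
    rw [Finset.sum_add_distrib, Finset.sum_const, Finset.sum_const, ← Finset.mul_sum,
      Finset.card_univ, Fintype.card_sum, Fintype.card_fin, Fintype.card_fin, nsmul_eq_mul,
      nsmul_eq_mul, ← Nat.cast_sum, ← hD, hc] at h1
    push_cast at h1
    have h2 : ((b : ℝ) + 1) * (Real.log B + (3 + c') * D) ≤
        ((b : ℝ) + 1) * (ω * (r q * Real.log (ht (ξ q)))) := by linarith
    exact le_of_mul_le_mul_left h2 (by positivity)
  have hlogB : 0 ≤ Real.log B := Real.log_nonneg hB1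
  have hD1 : (1 : ℝ) ≤ D := by
    have : 1 ≤ D := hρ1.trans hDρ
    exact_mod_cast this
  have hpos : ∀ q, 0 < Real.log (ht (ξ q)) := by
    intro q
    have h1 := hav q
    have h2 : 0 < ω * (r q * Real.log (ht (ξ q))) := lt_of_lt_of_le (by nlinarith) h1
    have h3 : 0 < (r q : ℝ) * Real.log (ht (ξ q)) := (mul_pos_iff_of_pos_left hω).mp h2
    have h4 : (0 : ℝ) < r q := by exact_mod_cast hr1 q
    exact (mul_pos_iff_of_pos_left h4).mp h3
  -- decomposition
  set S : Finset (Fin 1 →₀ ℕ) := (Finset.range (ρ + 1)).image (fun j => Finsupp.single 0 j) with hS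
  have hScard : S.card ≤ ρ + 1 := by
    refine Finset.card_image_le.trans ?_
    rw [Finset.card_range]
  have hSm : ∀ m, coeff m PQ ≠ 0 → p2 m ∈ S := by
    intro m hm
    have h1 := hdeg m (hPQc m hm) (.inr 0)
    rw [hS, Finset.mem_image]
    refine ⟨m (.inr 0), Finset.mem_range.mpr (by omega), ?_⟩
    apply Finsupp.ext
    intro i
    rw [Subsingleton.elim i 0, Finsupp.single_eq_same, p2_apply]
  obtain ⟨n, f, g, hn0, hnS, hf, hg, hdec⟩ := exists_decomp PQ hPQ0 S hSm
  have hnρ : n ≤ ρ + 1 := hnS.trans hScard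
  obtain ⟨K, hK, hU⟩ := exists_wronskian MonomialOrder.lex f hf
  obtain ⟨ν, hν, hV⟩ := exists_wronskian MonomialOrder.lex g hg
  set U := (Matrix.of fun i j => hd (K i) (f j)).det with hUdef
  set V := (Matrix.of fun i j => hd (ν i) (g j)).det with hVdef
  set A : Matrix (Fin n) (Fin n) (MvPolynomial (Fin b ⊕ Fin 1) ℤ) :=
    Matrix.of fun i l => hd (cmb (K i) (ν l)) P with hA
  set W := A.det with hW
  -- the image of `W` splits
  have hWQ : MvPolynomial.map (Int.castRingHom ℚ) W = mix U V := by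
    have h1 : MvPolynomial.map (Int.castRingHom ℚ) W =
        (Matrix.of fun i l => hd (cmb (K i) (ν l)) PQ).det := by
      rw [hW, RingHom.map_det]
      congr 1
      ext1 i l
      simp only [hA, RingHom.mapMatrix_apply, Matrix.map_apply, Matrix.of_apply]
      rw [map_hd]
    have h2 : (Matrix.of fun i l => hd (cmb (K i) (ν l)) PQ) =
        (Matrix.of fun i j => rename Sum.inl ((Matrix.of fun i j => hd (K i) (f j)) i j)) *
        (Matrix.of fun i j => rename Sum.inr
          ((Matrix.of fun i j => hd (ν i) (g j)) i j)).transpose := by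
      ext1 i l
      rw [Matrix.mul_apply, Matrix.of_apply]
      conv_lhs => rw [hdec, hd_sum]
      apply Finset.sum_congr rfl
      intro j _
      rw [hd_mix, mix_apply, Matrix.transpose_apply]
      rfl
    rw [h1, h2, Matrix.det_mul, Matrix.det_transpose, ← map_rename_det, ← map_rename_det,
      mix_apply]
  -- bound for the coefficients of `W`
  set BW : ℝ := (n.factorial : ℝ) * (B * 4 ^ D) ^ n with hBW
  have hMaj : Maj W ((n.factorial : MvPolynomial _ ℝ) * (C (B * 2 ^ D) * box r) ^ n) :=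
    Maj.det A _ fun i l => maj_hd P r hdeg B (by linarith) hB _
  have hBWc : ∀ m, |((coeff m W : ℤ) : ℝ)| ≤ BW := by
    intro m
    refine (hMaj.coeff_le_eval m).trans ?_
    rw [map_mul, map_pow, map_mul, eval_C, map_natCast, hBW]
    have h1 := eval_box_le r
    have h0 : 0 ≤ eval (fun _ => (1 : ℝ)) (box r) := by
      rw [box, map_sum]
      apply Finset.sum_nonneg
      intro e _
      rw [eval_monomial]
      simp
    apply mul_le_mul_of_nonneg_left _ (Nat.cast_nonneg _)
    apply pow_le_pow_left₀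
    · have : 0 ≤ B := by linarith
      positivity
    · rw [mul_assoc]
      apply mul_le_mul_of_nonneg_left _ (by linarith)
      calc (2 : ℝ) ^ D * eval (fun _ => (1 : ℝ)) (box r) ≤ 2 ^ D * 2 ^ D :=
            mul_le_mul_of_nonneg_left h1 (by positivity)
        _ = 4 ^ D := by rw [← mul_pow]; norm_num
  have hB4 : 1 ≤ B * 4 ^ D := by
    have : (1 : ℝ) ≤ 4 ^ D := one_le_pow₀ (by norm_num)
    nlinarith
  have hBW1 : 1 ≤ BW := by
    rw [hBW]
    have h1 : (1 : ℝ) ≤ n.factorial := by exact_mod_cast Nat.succ_le_of_lt (Nat.factorial_pos n)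
    have h2 : (1 : ℝ) ≤ (B * 4 ^ D) ^ n := one_le_pow₀ hB4
    nlinarith
  have hlogBW : Real.log BW ≤ n * (Real.log B + 3 * D) := by
    rw [hBW, Real.log_mul (by exact_mod_cast Nat.factorial_ne_zero n) (by positivity),
      Real.log_pow, Real.log_mul (by positivity) (by positivity), Real.log_pow]
    have h1 : Real.log (n.factorial : ℝ) ≤ n * D := by
      have h2 : (n.factorial : ℝ) ≤ (n : ℝ) ^ n := by exact_mod_cast Nat.factorial_le_pow n
      have h3 : (0 : ℝ) < n := by exact_mod_cast hn0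
      calc Real.log (n.factorial : ℝ) ≤ Real.log ((n : ℝ) ^ n) :=
            Real.log_le_log (by exact_mod_cast Nat.factorial_pos n) h2
        _ = n * Real.log n := by rw [Real.log_pow]
        _ ≤ n * D := by
            apply mul_le_mul_of_nonneg_left _ h3.le
            have h4 := Real.log_le_sub_one_of_pos h3
            have h5 : (n : ℝ) ≤ D + 1 := by
              have : n ≤ D + 1 := by omega
              exact_mod_cast this
            linarith
    have h6 : Real.log 4 ≤ 2 := by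
      have : (4 : ℝ) = 2 ^ 2 := by norm_num
      rw [this, Real.log_pow]
      have := Real.log_two_lt_d9
      push_cast
      linarith
    have h7 : (D : ℝ) * Real.log 4 ≤ D * 2 := mul_le_mul_of_nonneg_left h6 (by positivity)
    have h8 : (n : ℝ) * (Real.log B + D * Real.log 4) ≤ n * (Real.log B + D * 2) :=
      mul_le_mul_of_nonneg_left (by linarith) (by positivity)
    nlinarith
  have hWdeg : ∀ m, coeff m W ≠ 0 → ∀ q, m q ≤ n * r q := by
    intro m hm q
    apply degree_box_pow r (B * 2 ^ D) n m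
    intro hz
    have := hMaj m
    rw [hz] at this
    apply hm
    have h2 : ((coeff m W : ℤ) : ℝ) = 0 := by
      rw [← abs_eq_zero]; exact le_antisymm this (abs_nonneg _)
    exact_mod_cast h2
  -- integer multiples of `U` and `V`
  obtain ⟨κ0, hκ0⟩ := MvPolynomial.ne_zero_iff.mp hV
  obtain ⟨e0, he0⟩ := MvPolynomial.ne_zero_iff.mp hU
  have hcW : ∀ e κ, ((coeff (cmb e κ) W : ℤ) : ℚ) = coeff e U * coeff κ V := by
    intro e κ
    have := congrArg (coeff (cmb e κ)) hWQ
    rw [coeff_map, coeff_mix] at this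
    exact this
  have hU' : MvPolynomial.map (Int.castRingHom ℚ) (sl2 κ0 W) = C (coeff κ0 V) * U := by
    ext e
    rw [coeff_map, coeff_sl2, coeff_C_mul]
    exact (hcW e κ0).trans (mul_comm _ _)
  have hV' : MvPolynomial.map (Int.castRingHom ℚ) (sl1 e0 W) = C (coeff e0 U) * V := by
    ext κ
    rw [coeff_map, coeff_sl1, coeff_C_mul]
    exact hcW e0 κ
  have hU0 : sl2 κ0 W ≠ 0 := by
    intro hz
    rw [hz, map_zero] at hU'
    exact mul_ne_zero (C_ne_zero.mpr hκ0) hU hU'.symm
  have hV0 : sl1 e0 W ≠ 0 := by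
    intro hz
    rw [hz, map_zero] at hV'
    exact mul_ne_zero (C_ne_zero.mpr he0) hV hV'.symm
  -- apply the induction hypothesis
  have hnR : (0 : ℝ) < n := by exact_mod_cast hn0
  obtain ⟨Ks, hKs, hKsU⟩ := IH (fun h => n * r (.inl h))
    (fun h => Nat.mul_pos hn0 (hr1 _))
    (fun h h' hh => by
      push_cast
      have h1 := hr2 h h' hh
      have h2 : (r (.inl h') : ℝ) ≤ ω' * r (.inl h) :=
        h1.trans (mul_le_mul_of_nonneg_right hωω' (by positivity))
      calc (n : ℝ) * r (.inl h') ≤ n * (ω' * r (.inl h)) :=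
            mul_le_mul_of_nonneg_left h2 hnR.le
        _ = ω' * (n * r (.inl h)) := by ring)
    (sl2 κ0 W) hU0
    (fun e he h => by
      rw [coeff_sl2] at he
      exact hWdeg _ he (.inl h))
    BW hBW1 (fun e => by rw [coeff_sl2]; exact hBWc _)
    (fun h => ξ (.inl h))
    (fun h h' => by
      push_cast
      have h1 := hav (.inl h)
      have h2 : (r (.inl h') : ℝ) ≤ D := by
        have : r (.inl h') ≤ D :=
          Finset.single_le_sum (f := r) (fun _ _ => Nat.zero_le _) (Finset.mem_univ _)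
        exact_mod_cast this
      have h3 : (r (.inl h) : ℝ) * Real.log (ht (ξ (.inl h))) ≥ 0 :=
        mul_nonneg (Nat.cast_nonneg _) (hpos _).le
      have h4 : ω * (r (.inl h) * Real.log (ht (ξ (.inl h)))) ≤
          ω' * (r (.inl h) * Real.log (ht (ξ (.inl h)))) :=
        mul_le_mul_of_nonneg_right hωω' h3
      have h5 : c' * (n * (r (.inl h') : ℝ)) ≤ n * (c' * D) := by
        have := mul_le_mul_of_nonneg_left h2 (mul_pos hnR hc').le
        nlinarith
      calc Real.log BW + c' * (n * (r (.inl h') : ℝ)) ≤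
            n * (Real.log B + 3 * D) + n * (c' * D) := add_le_add hlogBW h5
        _ = n * (Real.log B + (3 + c') * D) := by ring
        _ ≤ n * (ω' * (r (.inl h) * Real.log (ht (ξ (.inl h))))) :=
            mul_le_mul_of_nonneg_left (h1.trans h4) hnR.le
        _ = ω' * (n * r (.inl h) * Real.log (ht (ξ (.inl h)))) := by ring)
  have hht : 1 < ht (ξ (.inr 0)) := by
    by_contra h
    have h1 : 0 ≤ ht (ξ (.inr 0)) := le_max_of_le_left (Nat.cast_nonneg _)
    have := Real.log_nonpos h1 (not_lt.mp h)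
    linarith [hpos (.inr 0)]
  obtain ⟨κs, hκsV, hκs⟩ := base_one (sl1 e0 W) hV0 BW
    (fun e => by rw [coeff_sl1]; exact hBWc _) (fun h => ξ (.inr h)) hht
  have hKsU' : coeff Ks (shift (fun h => ξ (.inl h)) U) ≠ 0 := by
    rw [hU', map_mul, shift_C, coeff_C_mul] at hKsU
    exact right_ne_zero_of_mul hKsU
  have hκsV' : coeff κs (shift (fun h => ξ (.inr h)) V) ≠ 0 := by
    rw [hV', map_mul, shift_C, coeff_C_mul] at hκsV
    exact right_ne_zero_of_mul hκsV
  have hms : coeff (cmb Ks κs) (shift ξ (MvPolynomial.map (Int.castRingHom ℚ) W)) ≠ 0 := by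
    rw [hWQ, shift_mix, coeff_mix]
    exact mul_ne_zero hKsU' hκsV'
  -- lower bound for the index
  set θ : ℝ := ε - ω with hθ
  have hGe : Ge r (∑ l : Fin n, max 0 (θ - (l : ℝ) / ρ))
      (shift ξ (MvPolynomial.map (Int.castRingHom ℚ) W)) := by
    have h1 : shift ξ (MvPolynomial.map (Int.castRingHom ℚ) W) =
        (Matrix.of fun i l => hd (cmb (K i) (ν l)) (shift ξ PQ)).det := by
      rw [hW, RingHom.map_det, AlgHom.map_det]
      congr 1
      ext1 i l
      simp only [hA, RingHom.mapMatrix_apply, AlgHom.mapMatrix_apply, Matrix.map_apply,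
        Matrix.of_apply]
      rw [map_hd, shift_hd]
    rw [h1]
    apply Ge.det
    intro i l
    apply Ge.hd hcon'
    apply max_le_max le_rfl
    have h2 : wg r (cmb (K i) (ν l)) ≤ ω + (l : ℝ) / ρ := by
      unfold wg
      rw [Fintype.sum_sum_type]
      apply add_le_add
      · have h3 : ∀ h : Fin b, ((cmb (K i) (ν l) (.inl h) : ℕ) : ℝ) / (r (.inl h) : ℝ) ≤
            ω / ρ * (K i h : ℝ) := by
          intro h
          rw [cmb_inl]
          have h4 : (0 : ℝ) < r (.inl h) := by exact_mod_cast hr1 _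
          rw [div_le_iff₀ h4]
          have h5 := hr3 h
          have h6 : (1 : ℝ) ≤ ω / ρ * r (.inl h) := by
            rw [div_mul_eq_mul_div, le_div_iff₀ hρ0, one_mul]
            exact h5
          have h7 : (0 : ℝ) ≤ K i h := Nat.cast_nonneg _
          nlinarith
        refine (Finset.sum_le_sum fun h _ => h3 h).trans ?_
        rw [← Finset.mul_sum, ← Nat.cast_sum]
        have h4 : ((∑ h, K i h : ℕ) : ℝ) ≤ ρ := by
          have h5 : ∑ h, K i h ≤ ρ := by
            have := hK i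
            have := i.isLt
            omega
          exact_mod_cast h5
        calc ω / ρ * ((∑ h, K i h : ℕ) : ℝ) ≤ ω / ρ * ρ :=
              mul_le_mul_of_nonneg_left h4 (by positivity)
          _ = ω := by field_simp
      · rw [Fintype.sum_unique]
        simp only [Fin.default_eq_zero, cmb_inr]
        apply div_le_div_of_nonneg_right _ hρ0.le
        have := hν l
        rw [Fintype.sum_unique] at this
        exact_mod_cast this
    rw [hθ]
    linarith
  have hlow := hGe _ hms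
  have hεω : ω ≤ ε / 2 := by nlinarith
  have hsl := sum_lower n ρ hnρ hρ1 θ (by linarith) (by linarith)
  have hup : wg r (cmb Ks κs) ≤ n * (ε ^ 2 / 100) + n * ω := by
    unfold wg
    rw [Fintype.sum_sum_type]
    apply add_le_add
    · have h1 : ∑ h : Fin b, ((cmb Ks κs (.inl h) : ℕ) : ℝ) / (r (.inl h) : ℝ) =
          n * wg (fun h => n * r (.inl h)) Ks := by
        unfold wg
        rw [Finset.mul_sum]
        apply Finset.sum_congr rfl
        intro h _
        rw [cmb_inl]
        push_cast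
        have h4 : (0 : ℝ) < r (.inl h) := by exact_mod_cast hr1 _
        field_simp
      rw [h1]
      exact mul_le_mul_of_nonneg_left hKs hnR.le
    · rw [Fintype.sum_unique]
      simp only [Fin.default_eq_zero, cmb_inr]
      rw [div_le_iff₀ hρ0]
      have h1 := hav (.inr 0)
      have h2 := hpos (.inr 0)
      have h3 : (κs 0 : ℝ) * Real.log (ht (ξ (.inr 0))) ≤
          n * ω * ρ * Real.log (ht (ξ (.inr 0))) := by
        refine hκs.trans (hlogBW.trans ?_)
        have h4 : Real.log B + 3 * D ≤ Real.log B + (3 + c') * D := by nlinarith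
        calc (n : ℝ) * (Real.log B + 3 * D) ≤ n * (ω * (ρ * Real.log (ht (ξ (.inr 0))))) :=
              mul_le_mul_of_nonneg_left (h4.trans h1) hnR.le
          _ = n * ω * ρ * Real.log (ht (ξ (.inr 0))) := by ring
      exact le_of_mul_le_mul_right h3 h2
  have hθ2 : ε / 2 ≤ θ := by linarith
  have h9 : n * (ε / 2) ^ 2 / 8 ≤ n * θ ^ 2 / 8 := by
    have : (ε / 2) ^ 2 ≤ θ ^ 2 := by
      apply pow_le_pow_left₀ (by positivity) hθ2
    have := mul_le_mul_of_nonneg_left this hnR.le
    linarith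
  have h10 : n * ω ≤ n * (ε ^ 2 / 100) := mul_le_mul_of_nonneg_left hωε hnR.le
  have h11 : n * (ε / 2) ^ 2 / 8 ≤ n * (ε ^ 2 / 100) + n * (ε ^ 2 / 100) := by linarith
  have h12 : 0 < (n : ℝ) * ε ^ 2 := by positivity
  nlinarith

theorem rothAt_mono {b : ℕ} {ε ε' ω c : ℝ} (h : ε ≤ ε') (H : RothAt b ε ω c) :
    RothAt b ε' ω c := by
  intro r h1 h2 P hP h3 B hB1 hB ξ hξ
  obtain ⟨k, hk, hk2⟩ := H r h1 h2 P hP h3 B hB1 hB ξ hξ
  exact ⟨k, hk.trans h, hk2⟩

theorem exists_rothAt : ∀ (b : ℕ) (ε : ℝ), 0 < ε → ∃ ω c : ℝ, 0 < ω ∧ 0 < c ∧ RothAt b ε ω c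
  | 0, ε, hε => by
    refine ⟨1, 1, one_pos, one_pos, ?_⟩
    intro r _ _ P hP _ B _ _ ξ _
    refine ⟨0, by rw [wg_zero]; exact hε.le, ?_⟩
    have h1 : P = C (coeff 0 P) := eq_C_of_isEmpty P
    have h2 : coeff 0 P ≠ 0 := by
      intro hz
      apply hP
      rw [h1, hz, C_0]
    rw [h1, map_C, shift_C, coeff_zero_C]
    simpa using h2
  | b + 1, ε, hε => by
    classical
    set ε1 : ℝ := min ε 1 with hε1
    have hε10 : 0 < ε1 := lt_min hε one_pos
    obtain ⟨ω', c', hω', hc', IH⟩ := exists_rothAt b (ε1 ^ 2 / 100) (by positivity)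
    set ω : ℝ := min ω' (ε1 ^ 2 / 100) with hω
    have hω0 : 0 < ω := lt_min hω' (by positivity)
    refine ⟨ω, (b + 1) * (3 + c'), hω0, by positivity, ?_⟩
    apply rothAt_mono (min_le_left ε 1)
    intro r hr1 hr2 P hP hdeg B hB1 hB ξ hξ
    set E : Fin b ⊕ Fin 1 ≃ Fin (b + 1) := finSumFinEquiv with hE
    have hcoef : ∀ m : (Fin b ⊕ Fin 1) →₀ ℕ,
        coeff m (rename E.symm P) = coeff (m.mapDomain E) P := by
      intro m
      have h1 : m = (m.mapDomain E).mapDomain E.symm := by
        rw [← Finsupp.mapDomain_comp]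
        simp
      conv_lhs => rw [h1]
      exact coeff_rename_mapDomain _ E.symm.injective _ _
    have hmap : ∀ (m : (Fin b ⊕ Fin 1) →₀ ℕ) (q), m.mapDomain E (E q) = m q := fun m q =>
      Finsupp.mapDomain_apply E.injective m q
    have hP' : rename E.symm P ≠ 0 := by
      intro hz
      apply hP
      exact rename_injective _ E.symm.injective (by rw [hz, map_zero])
    obtain ⟨m, hm1, hm2⟩ := roth_step b ε1 hε10 (min_le_right _ _) ω' c' hω' hc' IH ω
      ((b + 1) * (3 + c')) hω0 (min_le_left _ _) (min_le_right _ _) rfl (fun q => r (E q))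
      (fun q => hr1 _)
      (fun h h' hh => hr2 _ _ (by
        rw [hE, finSumFinEquiv_apply_left, finSumFinEquiv_apply_left]
        exact hh))
      (fun h => hr2 _ _ (by
        rw [hE, finSumFinEquiv_apply_left, finSumFinEquiv_apply_right]
        rw [Fin.lt_def]
        simp))
      (rename E.symm P) hP'
      (fun m hm q => by
        rw [hcoef] at hm
        rw [← hmap m q]
        exact hdeg _ hm _)
      B hB1 (fun m => by rw [hcoef]; exact hB _) (fun q => ξ (E q)) (fun q q' => hξ _ _)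
    refine ⟨m.mapDomain E, ?_, ?_⟩
    · refine le_trans (le_of_eq ?_) hm1
      unfold wg
      rw [← Equiv.sum_comp E]
      apply Finset.sum_congr rfl
      intro q _
      rw [hmap]
    · rw [map_rename, shift_rename] at hm2
      have h1 : (fun i => (fun q => ξ (E q)) (E.symm i)) = ξ := by
        funext i; simp
      rw [h1] at hm2
      have h2 : m = (m.mapDomain E).mapDomain E.symm := by
        rw [← Finsupp.mapDomain_comp]
        simp
      rw [h2, coeff_rename_mapDomain _ E.symm.injective] at hm2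
      exact hm2

/-- **Roth's lemma**. -/
theorem roth1 (b : ℕ) (ε : ℝ) (hε : 0 < ε) : ∃ ω c : ℝ, 0 < ω ∧ 0 < c ∧
    ∀ (r : Fin b → ℕ), (∀ h, 1 ≤ r h) → (∀ h h', h < h' → (r h' : ℝ) ≤ ω * r h) →
    ∀ (P : MvPolynomial (Fin b) ℤ), P ≠ 0 → (∀ e ∈ P.support, ∀ h, e h ≤ r h) →
    ∀ (B : ℝ), 1 ≤ B → (∀ e, |((P.coeff e : ℤ) : ℝ)| ≤ B) →
    ∀ (ξ : Fin b → ℚ), (∀ h h', Real.log B + c * r h' ≤ ω * (r h * Real.log (ht (ξ h)))) →
    ∃ k : Fin b →₀ ℕ, wt r k ≤ ε ∧ eval ξ (hd k (map (Int.castRingHom ℚ) P)) ≠ 0 := by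
  obtain ⟨ω, c, hω, hc, H⟩ := exists_rothAt b ε hε
  refine ⟨ω, c, hω, hc, ?_⟩
  intro r h1 h2 P hP h3 B hB1 hB ξ hξ
  obtain ⟨k, hk, hk2⟩ := H r h1 h2 P hP (fun e he => h3 e (MvPolynomial.mem_support_iff.mpr he))
    B hB1 hB ξ hξ
  exact ⟨k, hk, by rw [← coeff_shift]; exact hk2⟩

end Pool.Agent.Helper71.Sub

end
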