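import Mathlib
import Pool.Agent.Helper72.TM2.T04

section

namespace Pool.Agent.Helper10.Sub
end Pool.Agent.Helper10.Sub

/-!
# Subspace theorem project: quantities bounded by powers of `Q`, bounds for successive minima
-/

set_option autoImplicit false

set_option linter.unusedSectionVars false

namespace Pool.Agent.Helper94.Sub

open Pool.Agent.Helper10.Sub

/-- `x` lies between `Q ^ (-E)` and `Q ^ E`. -/
def PB (Q E x : ℝ) : Prop := Q ^ (-E) ≤ x ∧ x ≤ Q ^ E

theorem PB.pos {Q E x : ℝ} (hQ : 1 ≤ Q) (h : PB Q E x) : 0 < x :=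
  (Real.rpow_pos_of_pos (zero_lt_one.trans_le hQ) _).trans_le h.1

theorem PB.mono {Q E F x : ℝ} (hQ : 1 ≤ Q) (hEF : E ≤ F) (h : PB Q E x) : PB Q F x :=
  ⟨(Real.rpow_le_rpow_of_exponent_le hQ (neg_le_neg hEF)).trans h.1,
    h.2.trans (Real.rpow_le_rpow_of_exponent_le hQ hEF)⟩

theorem PB.mul {Q E F x y : ℝ} (hQ : 1 ≤ Q) (hx : PB Q E x) (hy : PB Q F y) :
    PB Q (E + F) (x * y) := by
  have hQ0 : 0 < Q := zero_lt_one.trans_le hQ
  constructor
  · rw [neg_add, Real.rpow_add hQ0]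
    exact mul_le_mul hx.1 hy.1 (Real.rpow_nonneg hQ0.le _) (hx.pos hQ).le
  · rw [Real.rpow_add hQ0]
    exact mul_le_mul hx.2 hy.2 (hy.pos hQ).le (Real.rpow_nonneg hQ0.le _)

theorem PB.inv {Q E x : ℝ} (hQ : 1 ≤ Q) (hx : PB Q E x) : PB Q E x⁻¹ := by
  have hQ0 : 0 < Q := zero_lt_one.trans_le hQ
  constructor
  · rw [Real.rpow_neg hQ0.le]
    exact inv_anti₀ (hx.pos hQ) hx.2
  · have h1 := inv_anti₀ (Real.rpow_pos_of_pos hQ0 _) hx.1
    rwa [Real.rpow_neg hQ0.le, inv_inv] at h1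

theorem PB.div {Q E F x y : ℝ} (hQ : 1 ≤ Q) (hx : PB Q E x) (hy : PB Q F y) :
    PB Q (E + F) (x / y) := by
  rw [div_eq_mul_inv]
  exact hx.mul hQ (hy.inv hQ)

theorem PB.one {Q E : ℝ} (hQ : 1 ≤ Q) (hE : 0 ≤ E) : PB Q E 1 :=
  ⟨Real.rpow_le_one_of_one_le_of_nonpos hQ (by linarith), Real.one_le_rpow hQ hE⟩

theorem PB.prod {κ : Type} {Q E : ℝ} (hQ : 1 ≤ Q) (s : Finset κ) (f : κ → ℝ)
    (h : ∀ i ∈ s, PB Q E (f i)) : PB Q (s.card * E) (∏ i ∈ s, f i) := by
  classical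
  induction s using Finset.induction_on with
  | empty => simpa using PB.one hQ le_rfl
  | insert i s hi ih =>
    rw [Finset.prod_insert hi, Finset.card_insert_of_notMem hi]
    have h1 := (h i (Finset.mem_insert_self _ _)).mul hQ
      (ih fun j hj => h j (Finset.mem_insert_of_mem hj))
    have h2 : E + (s.card : ℝ) * E = ((s.card + 1 : ℕ) : ℝ) * E := by push_cast; ring
    rwa [h2] at h1

theorem PB.max {Q E x y : ℝ} (hx : PB Q E x) (hy : PB Q E y) : PB Q E (max x y) :=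
  ⟨hx.1.trans (le_max_left _ _), max_le hx.2 hy.2⟩

/-- Constants are bounded by powers of `Q ≥ 2`. -/
theorem PB.const {C : ℝ} (hC : 0 < C) : ∃ E : ℝ, 0 ≤ E ∧ ∀ Q : ℝ, 2 ≤ Q → PB Q E C := by
  refine ⟨|Real.log C| / Real.log 2, div_nonneg (abs_nonneg _) (Real.log_nonneg one_le_two), ?_⟩
  intro Q hQ
  have hQ0 : 0 < Q := by linarith
  have hl2 : 0 < Real.log 2 := Real.log_pos one_lt_two
  have hlQ : Real.log 2 ≤ Real.log Q := Real.log_le_log two_pos hQ
  have h1 : |Real.log C| ≤ |Real.log C| / Real.log 2 * Real.log Q := by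
    rw [div_mul_eq_mul_div, le_div_iff₀ hl2]
    exact mul_le_mul_of_nonneg_left hlQ (abs_nonneg _)
  constructor
  · rw [← Real.log_le_log_iff (Real.rpow_pos_of_pos hQ0 _) hC, Real.log_rpow hQ0]
    have := neg_abs_le (Real.log C)
    linarith
  · rw [← Real.log_le_log_iff hC (Real.rpow_pos_of_pos hQ0 _), Real.log_rpow hQ0]
    have := le_abs_self (Real.log C)
    linarith

theorem PB.rpow {Q E x r : ℝ} (hQ : 1 ≤ Q) (hx : PB Q E x) (hr : 0 ≤ r) :
    PB Q (E * r) (x ^ r) := by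
  have hQ0 : 0 < Q := zero_lt_one.trans_le hQ
  constructor
  · have h1 := Real.rpow_le_rpow (Real.rpow_nonneg hQ0.le _) hx.1 hr
    rwa [← Real.rpow_mul hQ0.le, neg_mul] at h1
  · have h1 := Real.rpow_le_rpow (hx.pos hQ).le hx.2 hr
    rwa [← Real.rpow_mul hQ0.le] at h1

/-- Powers of `Q` dominate constants. -/
theorem exists_ge_rpow (C δ : ℝ) (hδ : 0 < δ) : ∃ Q0 : ℝ, 2 ≤ Q0 ∧ ∀ Q, Q0 ≤ Q → C ≤ Q ^ δ := by
  have h := (tendsto_rpow_atTop hδ).eventually_ge_atTop C
  obtain ⟨Q1, hQ1⟩ := Filter.eventually_atTop.1 h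
  exact ⟨max 2 Q1, le_max_left _ _, fun Q hQ => hQ1 Q ((le_max_right _ _).trans hQ)⟩

variable {ι : Type} [Fintype ι] [DecidableEq ι] {T : Type} [Fintype T] {p : T → ℕ}
  [∀ t, Fact (p t).Prime]

theorem wprod_pos {a : ι → ℝ} {a' : T → ι → ℝ} (ha : ∀ i, 0 < a i) (ha' : ∀ t i, 0 < a' t i) :
    0 < wprod a a' :=
  mul_pos (Finset.prod_pos fun i _ => ha i)
    (Finset.prod_pos fun t _ => Finset.prod_pos fun i _ => ha' t i)

theorem PB.wprod {Q B : ℝ} (hQ : 1 ≤ Q) {a : ι → ℝ} {a' : T → ι → ℝ}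
    (ha : ∀ i, PB Q B (a i)) (ha' : ∀ t i, PB Q B (a' t i)) :
    PB Q ((Fintype.card ι) * B + (Fintype.card T) * ((Fintype.card ι) * B)) (wprod a a') := by
  have h1 := PB.prod hQ Finset.univ a fun i _ => ha i
  have h2 := PB.prod hQ Finset.univ (fun t => ∏ i, a' t i)
    fun t _ => PB.prod hQ Finset.univ (a' t) fun i _ => ha' t i
  exact h1.mul hQ h2

/-- The size of the unit vectors. -/
theorem N_single_le (S : Sys ι T p) : ∃ C : ℝ, 0 < C ∧ ∀ (M : ℝ) (a : ι → ℝ) (a' : T → ι → ℝ),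
    0 < M → (∀ i, M⁻¹ ≤ a i) → (∀ t i, M⁻¹ ≤ a' t i) → ∀ j,
    S.N a a' (Pi.single j 1) ≤ C * (M * M ^ Fintype.card T) := by
  set C1 : ℝ := 1 + ∑ i, ∑ j, |S.A i j| with hC1
  set C2 : T → ℝ := fun t => 1 + ∑ i, ∑ j, ‖S.A' t i j‖ with hC2
  have h1 : ∀ i j, |S.A i j| ≤ C1 := by
    intro i j
    have e1 : |S.A i j| ≤ ∑ j, |S.A i j| :=
      Finset.single_le_sum (f := fun j => |S.A i j|) (fun _ _ => abs_nonneg _) (Finset.mem_univ j)
    have e2 : (∑ j, |S.A i j|) ≤ ∑ i, ∑ j, |S.A i j| :=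
      Finset.single_le_sum (f := fun i => ∑ j, |S.A i j|)
        (fun _ _ => Finset.sum_nonneg fun _ _ => abs_nonneg _) (Finset.mem_univ i)
    linarith
  have h2 : ∀ t i j, ‖S.A' t i j‖ ≤ C2 t := by
    intro t i j
    have e1 : ‖S.A' t i j‖ ≤ ∑ j, ‖S.A' t i j‖ :=
      Finset.single_le_sum (f := fun j => ‖S.A' t i j‖) (fun _ _ => norm_nonneg _)
        (Finset.mem_univ j)
    have e2 : (∑ j, ‖S.A' t i j‖) ≤ ∑ i, ∑ j, ‖S.A' t i j‖ :=
      Finset.single_le_sum (f := fun i => ∑ j, ‖S.A' t i j‖)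
        (fun _ _ => Finset.sum_nonneg fun _ _ => norm_nonneg _) (Finset.mem_univ i)
    simp only [hC2]
    linarith
  have hC1pos : 0 < C1 := by
    have : 0 ≤ ∑ i, ∑ j, |S.A i j| :=
      Finset.sum_nonneg fun _ _ => Finset.sum_nonneg fun _ _ => abs_nonneg _
    linarith
  have hC2pos : ∀ t, 0 < C2 t := by
    intro t
    have : 0 ≤ ∑ i, ∑ j, ‖S.A' t i j‖ :=
      Finset.sum_nonneg fun _ _ => Finset.sum_nonneg fun _ _ => norm_nonneg _
    simp only [hC2]
    linarith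
  refine ⟨C1 * ∏ t, C2 t, mul_pos hC1pos (Finset.prod_pos fun t _ => hC2pos t), ?_⟩
  intro M a a' hM ha ha' j
  have hMi : 0 < M⁻¹ := inv_pos.2 hM
  have e1 : S.Ninf a (Pi.single j 1) ≤ C1 * M := by
    unfold Sys.Ninf
    refine (pi_norm_le_iff_of_nonneg (by positivity)).2 fun i => ?_
    have hL : S.L (Pi.single j 1) i = S.A i j := by
      unfold Sys.L
      rw [Finset.sum_eq_single j]
      · simp
      · intro b _ hb
        simp [Pi.single_eq_of_ne hb]
      · simp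
    rw [hL, norm_div, Real.norm_eq_abs, Real.norm_eq_abs, abs_of_pos (hMi.trans_le (ha i)),
      div_le_iff₀ (hMi.trans_le (ha i))]
    calc |S.A i j| ≤ C1 := h1 i j
      _ = C1 * (M * M⁻¹) := by rw [mul_inv_cancel₀ hM.ne', mul_one]
      _ ≤ C1 * (M * a i) := by
          refine mul_le_mul_of_nonneg_left ?_ hC1pos.le
          exact mul_le_mul_of_nonneg_left (ha i) hM.le
      _ = C1 * M * a i := by ring
  have e2 : ∀ t, S.Np t (a' t) (Pi.single j 1) ≤ C2 t * M := by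
    intro t
    unfold Sys.Np
    refine (pi_norm_le_iff_of_nonneg (mul_nonneg (hC2pos t).le hM.le)).2 fun i => ?_
    have hL : S.L' t (Pi.single j 1) i = S.A' t i j := by
      unfold Sys.L'
      rw [Finset.sum_eq_single j]
      · simp
      · intro b _ hb
        simp [Pi.single_eq_of_ne hb]
      · simp
    rw [hL, norm_div, norm_norm, Real.norm_eq_abs, abs_of_pos (hMi.trans_le (ha' t i)),
      div_le_iff₀ (hMi.trans_le (ha' t i))]
    calc ‖S.A' t i j‖ ≤ C2 t := h2 t i j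
      _ = C2 t * (M * M⁻¹) := by rw [mul_inv_cancel₀ hM.ne', mul_one]
      _ ≤ C2 t * (M * a' t i) := by
          refine mul_le_mul_of_nonneg_left ?_ (hC2pos t).le
          exact mul_le_mul_of_nonneg_left (ha' t i) hM.le
      _ = C2 t * M * a' t i := by ring
  calc S.N a a' (Pi.single j 1) ≤ (C1 * M) * ∏ t, (C2 t * M) :=
        mul_le_mul e1 (Finset.prod_le_prod (fun t _ => Np_nonneg _ _ _ _) fun t _ => e2 t)
          (Finset.prod_nonneg fun t _ => Np_nonneg _ _ _ _) (by positivity)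
    _ = C1 * (∏ t, C2 t) * (M * M ^ Fintype.card T) := by
        rw [Finset.prod_mul_distrib, Finset.prod_const, Finset.card_univ]
        ring

theorem PVec_single (P : ℕ) (j : ι) : PVec P (Pi.single j (1 : ℚ)) := by
  intro i
  by_cases h : i = j
  · subst h
    exact ⟨0, 1, by simp⟩
  · exact ⟨0, 0, by simp [h]⟩

/-- The minimal property of the successive minima. -/
def MinProp (S : Sys ι T p) (a : ι → ℝ) (a' : T → ι → ℝ)
    (x : Fin (Fintype.card ι) → ι → ℚ) : Prop :=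
  ∀ j y, PVec (pprod p) y → y ∉ Submodule.span ℚ (x '' {i | i < j}) →
    S.N a a' (x j) ≤ S.N a a' y

theorem MinProp.mono {S : Sys ι T p} {a : ι → ℝ} {a' : T → ι → ℝ}
    {x : Fin (Fintype.card ι) → ι → ℚ} (h : MinProp S a a' x) (hx : LinearIndependent ℚ x)
    (hxP : ∀ j, PVec (pprod p) (x j)) : Monotone fun j => S.N a a' (x j) := by
  intro i j hij
  refine h i (x j) (hxP j) ?_
  exact hx.notMem_span_image (s := {l | l < i}) (by simpa using hij)

theorem exists_single_notMem (W : Submodule ℚ (ι → ℚ)) (hW : W ≠ ⊤) :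
    ∃ j, Pi.single j (1 : ℚ) ∉ W := by
  by_contra h
  push Not at h
  apply hW
  rw [eq_top_iff]
  intro x _
  have : x = ∑ j, x j • (Pi.single j (1 : ℚ) : ι → ℚ) := by
    funext i
    rw [Finset.sum_apply, Finset.sum_eq_single i]
    · simp
    · intro b _ hb
      simp [Pi.single_eq_of_ne (Ne.symm hb)]
    · simp
  rw [this]
  exact W.sum_mem fun j _ => W.smul_mem _ (h j)

theorem span_lt_ne_top {x : Fin (Fintype.card ι) → ι → ℚ} (hx : LinearIndependent ℚ x)
    (j : Fin (Fintype.card ι)) : Submodule.span ℚ (x '' {i | i < j}) ≠ ⊤ := by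
  intro h
  have h1 : x j ∉ Submodule.span ℚ (x '' {i | i < j}) :=
    hx.notMem_span_image (s := {l | l < j}) (by simp)
  rw [h] at h1
  exact h1 Submodule.mem_top

/-- The lower bound for the product, as in task MINKL. -/
def LowerProp (S : Sys ι T p) (c : ℝ) : Prop :=
  ∀ (a : ι → ℝ) (a' : T → ι → ℝ), (∀ i, 0 < a i) → (∀ t i, 0 < a' t i) →
    ∀ x : ι → ι → ℚ, LinearIndependent ℚ x → (∀ j, PVec (pprod p) (x j)) →
      c ≤ (∏ j, S.N a a' (x j)) * wprod a a'

theorem LowerProp.fin {S : Sys ι T p} {c : ℝ} (h : LowerProp S c) (a : ι → ℝ)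
    (a' : T → ι → ℝ) (ha : ∀ i, 0 < a i) (ha' : ∀ t i, 0 < a' t i)
    (x : Fin (Fintype.card ι) → ι → ℚ) (hx : LinearIndependent ℚ x)
    (hxP : ∀ j, PVec (pprod p) (x j)) : c ≤ (∏ j, S.N a a' (x j)) * wprod a a' := by
  have h1 := h a a' ha ha' (fun i => x (Fintype.equivFin ι i))
    (hx.comp _ (Fintype.equivFin ι).injective) (fun j => hxP _)
  have h2 : ∏ j, S.N a a' (x (Fintype.equivFin ι j)) = ∏ j, S.N a a' (x j) :=
    Fintype.prod_equiv (Fintype.equivFin ι) _ _ fun _ => rfl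
  rwa [h2] at h1

/-- The successive minima are bounded by powers of `Q`. -/
theorem minima_PB (S : Sys ι T p) (c : ℝ) (hc : 0 < c) (hlow : LowerProp S c)
    (B : ℝ) (hB : 0 ≤ B) :
    ∃ E : ℝ, 0 ≤ E ∧ ∀ Q : ℝ, 2 ≤ Q → ∀ (a : ι → ℝ) (a' : T → ι → ℝ),
      (∀ i, PB Q B (a i)) → (∀ t i, PB Q B (a' t i)) →
      ∀ x : Fin (Fintype.card ι) → ι → ℚ, LinearIndependent ℚ x →
      (∀ j, PVec (pprod p) (x j)) → MinProp S a a' x → ∀ j, PB Q E (S.N a a' (x j)) := by
  obtain ⟨C, hC, hCN⟩ := N_single_le S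
  obtain ⟨E1, hE1, hE1'⟩ := PB.const hC
  obtain ⟨E2, hE2, hE2'⟩ := PB.const hc
  set R := Fintype.card ι with hR
  set t0 := Fintype.card T with ht0
  set F : ℝ := E1 + (B + t0 * B) with hF
  have hF0 : 0 ≤ F := by positivity
  set G : ℝ := (R : ℝ) * B + (t0 : ℝ) * ((R : ℝ) * B) with hG
  have hG0 : 0 ≤ G := by positivity
  refine ⟨E2 + G + R * F, by positivity, ?_⟩
  intro Q hQ a a' ha ha' x hx hxP hmin j
  have hQ1 : (1 : ℝ) ≤ Q := by linarith
  have hQ0 : (0 : ℝ) < Q := by linarith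
  have hapos : ∀ i, 0 < a i := fun i => (ha i).pos hQ1
  have hapos' : ∀ t i, 0 < a' t i := fun t i => (ha' t i).pos hQ1
  -- upper bound
  have hup : ∀ j, S.N a a' (x j) ≤ Q ^ F := by
    intro j
    obtain ⟨l, hl⟩ := exists_single_notMem _ (span_lt_ne_top hx j)
    refine (hmin j _ (PVec_single _ l) hl).trans ?_
    have hM : (0 : ℝ) < Q ^ B := Real.rpow_pos_of_pos hQ0 _
    refine (hCN (Q ^ B) a a' hM (fun i => ?_) (fun t i => ?_) l).trans ?_
    · rw [← Real.rpow_neg hQ0.le]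
      exact (ha i).1
    · rw [← Real.rpow_neg hQ0.le]
      exact (ha' t i).1
    · rw [hF, Real.rpow_add hQ0, Real.rpow_add hQ0, ← Real.rpow_natCast, ← Real.rpow_mul hQ0.le,
        mul_comm B]
      exact mul_le_mul_of_nonneg_right (hE1' Q hQ).2 (by positivity)
  have hNpos : ∀ j, 0 < S.N a a' (x j) := fun j =>
    N_pos S a a' hapos hapos' (x j) (hx.ne_zero j)
  -- lower bound
  have hlo : ∀ j, Q ^ (-(E2 + G + R * F)) ≤ S.N a a' (x j) := by
    intro j
    have h1 := hlow.fin a a' hapos hapos' x hx hxP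
    have h2 : ∏ i, S.N a a' (x i) ≤ S.N a a' (x j) * (Q ^ F) ^ R := by
      rw [← Finset.mul_prod_erase Finset.univ _ (Finset.mem_univ j)]
      refine mul_le_mul_of_nonneg_left ?_ (hNpos j).le
      calc ∏ i ∈ Finset.univ.erase j, S.N a a' (x i) ≤ ∏ i ∈ Finset.univ.erase j, Q ^ F :=
            Finset.prod_le_prod (fun i _ => (hNpos i).le) fun i _ => hup i
        _ = (Q ^ F) ^ (Finset.univ.erase j).card := Finset.prod_const _
        _ ≤ (Q ^ F) ^ R := by
            refine pow_le_pow_right₀ (Real.one_le_rpow hQ1 hF0) ?_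
            exact (Finset.card_le_univ _).trans_eq (Fintype.card_fin R)
    have h3 : wprod a a' ≤ Q ^ G := (PB.wprod hQ1 ha ha').2
    have h4 : c ≤ S.N a a' (x j) * (Q ^ F) ^ R * Q ^ G := by
      refine h1.trans ?_
      exact mul_le_mul h2 h3 (wprod_pos hapos hapos').le (by have := hNpos j; positivity)
    have h5 := (hE2' Q hQ).1
    have h6 : Q ^ (-(E2 + G + R * F)) * ((Q ^ F) ^ R * Q ^ G) = Q ^ (-E2) := by
      rw [← Real.rpow_natCast, ← Real.rpow_mul hQ0.le, ← Real.rpow_add hQ0, ← Real.rpow_add hQ0]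
      congr 1
      ring
    have h7 : 0 < (Q ^ F) ^ R * Q ^ G := by positivity
    have h8 : Q ^ (-(E2 + G + R * F)) * ((Q ^ F) ^ R * Q ^ G) ≤
        S.N a a' (x j) * ((Q ^ F) ^ R * Q ^ G) := by
      rw [h6, ← mul_assoc]
      exact h5.trans h4
    exact le_of_mul_le_mul_right h8 h7
  refine ⟨hlo j, (hup j).trans (Real.rpow_le_rpow_of_exponent_le hQ1 ?_)⟩
  have : F ≤ R * F := by
    have hR1 : (1 : ℝ) ≤ R := by
      have : 0 < R := Fin.pos j
      exact_mod_cast this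
    nlinarith
  linarith

end Pool.Agent.Helper94.Sub

end

section

namespace Pool.Agent.Helper10.Sub
end Pool.Agent.Helper10.Sub

/-!
# Subspace theorem project: selecting forms over the base field
-/

set_option autoImplicit false

set_option linter.unusedSectionVars false

namespace Pool.Agent.Helper94.Sub

open Pool.Agent.Helper10.Sub

/-- If `A` is an invertible matrix with algebraic entries over a finite extension `K` of `k`, then
one can choose linear maps `φ i : K → k` such that `(φ i (A i j))` is an invertible matrix with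
algebraic entries. -/
theorem exists_select {ι : Type} [Fintype ι] [DecidableEq ι] {k K : Type} [Field k] [Field K]
    [Algebra k K] [FiniteDimensional k K] [CharZero k] [CharZero K]
    (hspan : Submodule.span k {x : K | IsAlgebraic ℚ x} = ⊤) (A : Matrix ι ι K)
    (algA : ∀ i j, IsAlgebraic ℚ (A i j)) (detA : A.det ≠ 0) :
    ∃ φ : ι → (K →ₗ[k] k), (Matrix.of fun i j => φ i (A i j)).det ≠ 0 ∧
      ∀ i j, IsAlgebraic ℚ (φ i (A i j)) := by
  classical
  have htower : IsScalarTower ℚ k K := inferInstance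
  set b := Module.Basis.ofSpan (K := k) (V := K) hspan.ge with hb
  have hfin : Finite ((linearIndepOn_empty k (id : K → K)).extend
      (Set.empty_subset {x : K | IsAlgebraic ℚ x})) := Module.Finite.finite_basis b
  have := Fintype.ofFinite ((linearIndepOn_empty k (id : K → K)).extend
      (Set.empty_subset {x : K | IsAlgebraic ℚ x}))
  have hbalg : ∀ c, IsAlgebraic ℚ (b c) := by
    intro c
    have h1 := Module.Basis.ofSpan_subset (K := k) (V := K) hspan.ge
    exact h1 ⟨c, rfl⟩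
  set φ := fun c => b.traceDual.coord c with hφ
  have hφalg : ∀ c x, IsAlgebraic ℚ x → IsAlgebraic ℚ (φ c x) := by
    intro c x hx
    have h1 : φ c x = Algebra.trace k K (x * b c) := by
      simp only [hφ, Module.Basis.coord_apply, Module.Basis.traceDual_repr_apply]
      rfl
    rw [h1, isAlgebraic_iff_isIntegral]
    refine Algebra.isIntegral_trace ?_
    rw [← isAlgebraic_iff_isIntegral]
    exact hx.mul (hbalg c)
  by_contra hcon
  push Not at hcon
  have hzero : ∀ r : ι → _, (Matrix.of fun i j => φ (r i) (A i j)).det = 0 := by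
    intro r
    by_contra h
    obtain ⟨i, j, hij⟩ := hcon (fun i => φ (r i)) h
    exact hij (hφalg _ _ (algA i j))
  apply detA
  have hA : A = fun i => ∑ c, b.traceDual c • (fun j => algebraMap k K (φ c (A i j))) := by
    funext i j
    have h1 := b.traceDual.sum_repr (A i j)
    rw [Finset.sum_apply]
    conv_lhs => rw [← h1]
    refine Finset.sum_congr rfl fun c _ => ?_
    rw [Pi.smul_apply, smul_eq_mul, Algebra.smul_def, mul_comm]
    rfl
  rw [hA]
  change Matrix.detRowAlternating (R := K) (n := ι)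
    (fun i => ∑ c, b.traceDual c • (fun j => algebraMap k K (φ c (A i j)))) = 0
  rw [← AlternatingMap.coe_multilinearMap, MultilinearMap.map_sum]
  refine Finset.sum_eq_zero fun r _ => ?_
  rw [MultilinearMap.map_smul_univ]
  have h2 : (Matrix.detRowAlternating (R := K) (n := ι)).toMultilinearMap
      (fun i j => algebraMap k K (φ (r i) (A i j))) = 0 := by
    have h3 := hzero r
    have h4 := congrArg (algebraMap k K) h3
    rw [RingHom.map_det, map_zero] at h4
    exact h4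
  rw [h2, smul_zero]

/-- Bounds for the selected forms. -/
theorem exists_select_bound {ι : Type} [Fintype ι] [DecidableEq ι] {k K : Type}
    [NontriviallyNormedField k] [CompleteSpace k] [NormedField K]
    [NormedAlgebra k K] [FiniteDimensional k K] [CharZero k] [CharZero K]
    (hspan : Submodule.span k {x : K | IsAlgebraic ℚ x} = ⊤) (A : Matrix ι ι K)
    (algA : ∀ i j, IsAlgebraic ℚ (A i j)) (detA : A.det ≠ 0) :
    ∃ (A0 : Matrix ι ι k) (C : ℝ), 1 ≤ C ∧ A0.det ≠ 0 ∧ (∀ i j, IsAlgebraic ℚ (A0 i j)) ∧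
      ∀ (x : ι → ℚ) (i : ι), ‖∑ j, A0 i j * ((x j : ℚ) : k)‖ ≤
        C * ‖∑ j, A i j * ((x j : ℚ) : K)‖ := by
  obtain ⟨φ, hφ1, hφ2⟩ := exists_select (k := k) (K := K) hspan A algA detA
  set C : ℝ := 1 + ∑ i, ‖(φ i).toContinuousLinearMap‖ with hC
  refine ⟨Matrix.of fun i j => φ i (A i j), C, ?_, hφ1, hφ2, ?_⟩
  · have : 0 ≤ ∑ i, ‖(φ i).toContinuousLinearMap‖ := Finset.sum_nonneg fun _ _ => norm_nonneg _
    linarith
  · intro x i
    have h1 : ∑ j, (Matrix.of fun i j => φ i (A i j)) i j * ((x j : ℚ) : k) =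
        (φ i).toContinuousLinearMap (∑ j, A i j * ((x j : ℚ) : K)) := by
      rw [map_sum]
      refine Finset.sum_congr rfl fun j _ => ?_
      have h2 : A i j * ((x j : ℚ) : K) = ((x j : ℚ) : k) • A i j := by
        rw [Algebra.smul_def, map_ratCast, mul_comm]
      rw [h2, map_smul, smul_eq_mul, mul_comm]
      rfl
    rw [h1]
    refine ((φ i).toContinuousLinearMap.le_opNorm _).trans ?_
    refine mul_le_mul_of_nonneg_right ?_ (norm_nonneg _)
    have h3 : ‖(φ i).toContinuousLinearMap‖ ≤ ∑ i, ‖(φ i).toContinuousLinearMap‖ :=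
      Finset.single_le_sum (f := fun i => ‖(φ i).toContinuousLinearMap‖)
        (fun _ _ => norm_nonneg _) (Finset.mem_univ i)
    linarith

end Pool.Agent.Helper94.Sub

end

section

namespace Pool.Agent.Helper10.Sub
end Pool.Agent.Helper10.Sub

/-!
# Subspace theorem project: the first minimum when there is a gap after it
-/

set_option autoImplicit false

set_option linter.unusedSectionVars false

namespace Pool.Agent.Helper94.Sub

open Pool.Agent.Helper10.Sub

/-- The scaling factors for Davenport's lemma. -/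
theorem exists_rho {R : ℕ} (hR : 2 ≤ R) (μ : Fin R → ℝ) (hμ : ∀ j, 0 < μ j) (hm : Monotone μ)
    (w : ℝ) (hw : 0 < w) :
    ∃ (s : ℝ) (ρ : Fin R → ℝ), 0 < s ∧ (∀ j, 0 < ρ j) ∧ Antitone ρ ∧
      (∀ i j, i ≤ j → ρ i * μ i ≤ ρ j * μ j) ∧ ∏ j, ρ j = w ∧
      ρ ⟨1, by omega⟩ * μ ⟨1, by omega⟩ = s ∧
      s ^ R * μ ⟨0, by omega⟩ = μ ⟨1, by omega⟩ * ((∏ j, μ j) * w) ∧
      ∀ Q E G : ℝ, 1 ≤ Q → (∀ j, PB Q E (μ j)) → PB Q G w →
        ∀ j, PB Q ((G + R * E) * (1 / R) + E) (ρ j) := by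
  set z : Fin R := ⟨0, by omega⟩ with hz
  set o : Fin R := ⟨1, by omega⟩ with ho
  have hzo : z ≤ o := by
    rw [Fin.le_def]
    simp [hz, ho]
  have hRpos : 0 < R := by omega
  have hR0 : (R : ℝ) ≠ 0 := by exact_mod_cast hRpos.ne'
  set ν : Fin R → ℝ := fun j => max (μ j) (μ o) with hν
  have hνpos : ∀ j, 0 < ν j := fun j => lt_max_of_lt_left (hμ j)
  have hν1 : ∀ j, z < j → ν j = μ j := by
    intro j hj
    refine max_eq_left (hm ?_)
    rw [Fin.le_def]
    rw [Fin.lt_def] at hj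
    simp [hz, ho] at hj ⊢
    omega
  have hνz : ν z = μ o := max_eq_right (hm hzo)
  have hνmono : Monotone ν := fun i j hij => max_le_max (hm hij) le_rfl
  have hprod : (∏ j, ν j) * μ z = μ o * ∏ j, μ j := by
    rw [← Finset.mul_prod_erase Finset.univ ν (Finset.mem_univ z),
      ← Finset.mul_prod_erase Finset.univ μ (Finset.mem_univ z), hνz]
    have : ∏ j ∈ Finset.univ.erase z, ν j = ∏ j ∈ Finset.univ.erase z, μ j := by
      refine Finset.prod_congr rfl fun j hj => hν1 j ?_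
      have hjz : j ≠ z := Finset.ne_of_mem_erase hj
      rw [Fin.lt_def]
      have : j.val ≠ z.val := fun h => hjz (Fin.ext h)
      simp [hz] at this ⊢
      omega
    rw [this]
    ring
  have hνprod : 0 < ∏ j, ν j := Finset.prod_pos fun j _ => hνpos j
  set s : ℝ := (w * ∏ j, ν j) ^ (1 / (R : ℝ)) with hs
  have hspos : 0 < s := Real.rpow_pos_of_pos (mul_pos hw hνprod) _
  have hsR : s ^ R = w * ∏ j, ν j := by
    rw [hs, ← Real.rpow_natCast, ← Real.rpow_mul (mul_pos hw hνprod).le,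
      one_div_mul_cancel hR0, Real.rpow_one]
  refine ⟨s, fun j => s / ν j, hspos, fun j => div_pos hspos (hνpos j), ?_, ?_, ?_, ?_, ?_, ?_⟩
  · intro i j hij
    exact div_le_div_of_nonneg_left hspos.le (hνpos i) (hνmono hij)
  · intro i j hij
    have hle : s / ν i * μ i ≤ s := by
      rw [div_mul_eq_mul_div, div_le_iff₀ (hνpos i)]
      exact mul_le_mul_of_nonneg_left (le_max_left _ _) hspos.le
    rcases eq_or_ne j z with h | h
    · have : i = z := by
        apply Fin.ext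
        rw [h, Fin.le_def] at hij
        simp [hz] at hij ⊢
        exact hij
      rw [h, this]
    · have hj : z < j := by
        rw [Fin.lt_def]
        have : j.val ≠ z.val := fun h' => h (Fin.ext h')
        simp [hz] at this ⊢
        omega
      refine hle.trans (le_of_eq ?_)
      show s = s / ν j * μ j
      rw [hν1 j hj, div_mul_cancel₀ _ (hμ j).ne']
  · rw [Finset.prod_div_distrib, Finset.prod_const, Finset.card_univ, Fintype.card_fin, hsR,
      mul_div_assoc, div_self hνprod.ne', mul_one]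
  · show s / ν o * μ o = s
    have : ν o = μ o := max_self _
    rw [this, div_mul_cancel₀ _ (hμ o).ne']
  · rw [hsR, mul_assoc, hprod]
    ring
  · intro Q E G hQ hE hG j
    have h1 : ∀ j, PB Q E (ν j) := fun j => (hE j).max (hE o)
    have h2 := PB.prod hQ Finset.univ ν fun j _ => h1 j
    rw [Finset.card_univ, Fintype.card_fin] at h2
    exact ((hG.mul hQ h2).rpow hQ (by positivity)).div hQ (h1 j)

variable {ι : Type} [Fintype ι] [DecidableEq ι] {T : Type} [Fintype T] {p : T → ℕ}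
  [∀ t, Fact (p t).Prime]

/-- The dual vectors, as in task DUAL. -/
def DualProp (S : Sys ι T p) (C : ℝ) : Prop :=
  ∀ (a : ι → ℝ) (a' : T → ι → ℝ), (∀ i, 0 < a i) → (∀ t i, 0 < a' t i) →
    ∀ x : Fin (Fintype.card ι) → ι → ℚ, LinearIndependent ℚ x → (∀ j, PVec (pprod p) (x j)) →
    ∃ y : Fin (Fintype.card ι) → ι → ℚ, LinearIndependent ℚ y ∧ (∀ j, PVec (pprod p) (y j)) ∧
      (∀ j l, j ≠ l → ∑ i, y j i * x l i = 0) ∧
      ∀ j, S.dual.N (fun i => (a i)⁻¹) (fun t i => (a' t i)⁻¹) (y j) * S.N a a' (x j) ≤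
        C * (∏ l, S.N a a' (x l)) * wprod a a'

/-- Existence of minimal vectors and Minkowski's upper bound, as in task MINK2. -/
def Mink2Prop (S : Sys ι T p) (C : ℝ) : Prop :=
  ∀ (a : ι → ℝ) (a' : T → ι → ℝ), (∀ i, 0 < a i) → (∀ t i, 0 < a' t i) →
    ∃ x : Fin (Fintype.card ι) → ι → ℚ, LinearIndependent ℚ x ∧ (∀ j, PVec (pprod p) (x j)) ∧
      MinProp S a a' x ∧ (∏ j, S.N a a' (x j)) * wprod a a' ≤ C

/-- Davenport's lemma with constant one, as in task DAV. -/
def DavProp (S : Sys ι T p) (C : ℝ) : Prop :=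
  ∀ (a : ι → ℝ) (a' : T → ι → ℝ), (∀ i, 0 < a i) → (∀ t i, 0 < a' t i) →
    ∀ x : Fin (Fintype.card ι) → ι → ℚ, LinearIndependent ℚ x → MinProp S a a' x →
    ∀ ρ : Fin (Fintype.card ι) → ℝ, (∀ j, 0 < ρ j) → Antitone ρ →
      (∀ i j, i ≤ j → ρ i * S.N a a' (x i) ≤ ρ j * S.N a a' (x j)) →
    ∃ π : ι ≃ Fin (Fintype.card ι), ∀ j y, PVec (pprod p) y →
      y ∉ Submodule.span ℚ (x '' {i | i < j}) →
      ρ j * S.N a a' (x j) ≤ C * S.N (fun i => a i / ρ (π i)) a' y

/-- The penultimate minimum theorem, as in task PENULT. -/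
def PenultProp (S : Sys ι T p) : Prop :=
  ∀ δ B : ℝ, 0 < δ →
    {m : ι → ℤ | Prim m ∧ ∃ Q : ℝ, 1 ≤ Q ∧ ∃ (a : ι → ℝ) (a' : T → ι → ℝ),
      (∀ i, Q ^ (-B) ≤ a i ∧ a i ≤ Q ^ B) ∧ (∀ t i, Q ^ (-B) ≤ a' t i ∧ a' t i ≤ Q ^ B) ∧
      wprod a a' ≤ 1 ∧ ∃ y : Fin (Fintype.card ι - 1) → ι → ℚ, LinearIndependent ℚ y ∧
        (∀ j, PVec (pprod p) (y j)) ∧ (∀ j, ∑ i, (m i : ℚ) * y j i = 0) ∧
        (∀ j, S.N a a' (y j) ≤ Q ^ (-δ))}.Finite

theorem wprod_div (a : ι → ℝ) (a' : T → ι → ℝ) (r : ι → ℝ) :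
    wprod (fun i => a i / r i) a' = wprod a a' / ∏ i, r i := by
  unfold wprod
  rw [Finset.prod_div_distrib]
  ring

theorem wprod_inv (a : ι → ℝ) (a' : T → ι → ℝ) :
    wprod (fun i => (a i)⁻¹) (fun t i => (a' t i)⁻¹) = (wprod a a')⁻¹ := by
  unfold wprod
  simp only [Finset.prod_inv_distrib, mul_inv]

theorem propA (S : Sys ι T p) (cL C2 C3 CD : ℝ) (hcL : 0 < cL) (hC2 : 0 < C2) (hC3 : 0 < C3)
    (hCD : 0 < CD) (hlow : LowerProp S cL) (hmink : Mink2Prop S C2) (hdual : DualProp S C3)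
    (hdav : DavProp S CD) (hpen : PenultProp S.dual) (hι : 2 ≤ Fintype.card ι) (δ B : ℝ)
    (hδ : 0 < δ) (hB : 0 ≤ B) :
    ∃ Q0 : ℝ, 2 ≤ Q0 ∧ ∃ F : Finset (Submodule ℚ (ι → ℚ)), ∀ Q : ℝ, Q0 ≤ Q →
      ∀ (a : ι → ℝ) (a' : T → ι → ℝ), (∀ i, PB Q B (a i)) → (∀ t i, PB Q B (a' t i)) →
      ∀ X : Fin (Fintype.card ι) → ι → ℚ, LinearIndependent ℚ X →
      (∀ j, PVec (pprod p) (X j)) → MinProp S a a' X →
      Q ^ δ * S.N a a' (X ⟨0, by omega⟩) ≤ S.N a a' (X ⟨1, by omega⟩) →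
      Submodule.span ℚ {X ⟨0, by omega⟩} ∈ F := by
  classical
  set R := Fintype.card ι with hR
  have hRpos : 0 < R := by omega
  have hR0 : (R : ℝ) ≠ 0 := by exact_mod_cast hRpos.ne'
  have hR0' : (0 : ℝ) < R := by exact_mod_cast hRpos
  set z : Fin R := ⟨0, by omega⟩ with hz
  set o : Fin R := ⟨1, by omega⟩ with ho
  have hzo : z < o := by
    rw [Fin.lt_def]
    simp [hz, ho]
  obtain ⟨E, hE0, hE⟩ := minima_PB S cL hcL hlow B hB
  set G : ℝ := (R : ℝ) * B + (Fintype.card T : ℝ) * ((R : ℝ) * B) with hG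
  have hG0 : 0 ≤ G := by positivity
  set B' : ℝ := B + ((G + R * E) * (1 / R) + E) with hB'
  have hBB' : B ≤ B' := by
    have : 0 ≤ (G + R * E) * (1 / R) + E := by positivity
    linarith
  set δ' : ℝ := δ / (2 * R) with hδ'
  have hδ'pos : 0 < δ' := by positivity
  have hfin := hpen δ' B' hδ'pos
  obtain ⟨Q1, hQ1, hQ1'⟩ := exists_ge_rpow (C2 * CD ^ R / cL + 1) δ hδ
  obtain ⟨Q2, hQ2, hQ2'⟩ := exists_ge_rpow (C3 * C2 * CD / cL ^ (1 / (R : ℝ))) δ' hδ'pos
  refine ⟨max Q1 Q2, le_max_of_le_left hQ1,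
    hfin.toFinset.image fun m => Submodule.span ℚ {fun i => (m i : ℚ)}, ?_⟩
  intro Q hQ a a' ha ha' X hX hXP hmin hgap
  have hQ2le : (2 : ℝ) ≤ Q := hQ1.trans ((le_max_left _ _).trans hQ)
  have hQge1 : (1 : ℝ) ≤ Q := by linarith
  have hQ0 : (0 : ℝ) < Q := by linarith
  have hapos : ∀ i, 0 < a i := fun i => (ha i).pos hQge1
  have hapos' : ∀ t i, 0 < a' t i := fun t i => (ha' t i).pos hQge1
  set μ : Fin R → ℝ := fun j => S.N a a' (X j) with hμdef
  have hμpos : ∀ j, 0 < μ j := fun j => N_pos S a a' hapos hapos' (X j) (hX.ne_zero j)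
  have hμmono : Monotone μ := hmin.mono hX hXP
  have hw : 0 < wprod a a' := wprod_pos hapos hapos'
  obtain ⟨s, ρ, hs, hρ, hρanti, hρmono, hρprod, hρo, hsR, hρPB⟩ :=
    exists_rho hι μ hμpos hμmono (wprod a a') hw
  obtain ⟨π, hπ⟩ := hdav a a' hapos hapos' X hX hmin ρ hρ hρanti hρmono
  set β : ι → ℝ := fun i => a i / ρ (π i) with hβ
  have hβpos : ∀ i, 0 < β i := fun i => div_pos (hapos i) (hρ _)
  have hβw : wprod β a' = 1 := by
    rw [hβ, wprod_div]
    have : ∏ i, ρ (π i) = ∏ j, ρ j := Equiv.prod_comp π ρ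
    rw [this, hρprod, div_self hw.ne']
  -- lower bound for `s`
  have hsR' : cL * Q ^ δ ≤ s ^ R := by
    have h1 := hlow.fin a a' hapos hapos' X hX hXP
    have h2 : s ^ R * μ z ≥ (cL * Q ^ δ) * μ z := by
      rw [hsR]
      calc cL * Q ^ δ * μ z = cL * (Q ^ δ * μ z) := by ring
        _ ≤ cL * μ o := mul_le_mul_of_nonneg_left hgap hcL.le
        _ = μ o * cL := mul_comm _ _
        _ ≤ μ o * ((∏ j, μ j) * wprod a a') := mul_le_mul_of_nonneg_left h1 (hμpos o).le
    exact le_of_mul_le_mul_right h2 (hμpos z)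
  obtain ⟨X', hX', hXP', hmin', hprod'⟩ := hmink β a' hβpos hapos'
  rw [hβw, mul_one] at hprod'
  set μ' : Fin R → ℝ := fun j => S.N β a' (X' j) with hμ'def
  have hμ'pos : ∀ j, 0 < μ' j := fun j => N_pos S β a' hβpos hapos' (X' j) (hX'.ne_zero j)
  have hμ'mono : Monotone μ' := hmin'.mono hX' hXP'
  have hspan : X '' {i | i < o} = {X z} := by
    have : {i : Fin R | i < o} = {z} := by
      ext i
      simp only [Set.mem_setOf_eq, Set.mem_singleton_iff, Fin.lt_def, Fin.ext_iff, hz, ho]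
      omega
    rw [this, Set.image_singleton]
  have hkey : ∀ y, PVec (pprod p) y → y ∉ Submodule.span ℚ {X z} → s / CD ≤ S.N β a' y := by
    intro y hy hyn
    have h1 := hπ o y hy (by rw [hspan]; exact hyn)
    rw [div_le_iff₀ hCD, mul_comm]
    calc s = ρ o * μ o := hρo.symm
      _ ≤ _ := h1
  -- `X' z` lies on the line of `X z`
  have hmem : X' z ∈ Submodule.span ℚ {X z} := by
    by_contra hnot
    have h1 := hkey _ (hXP' z) hnot
    have h2 : ∀ j, s / CD ≤ μ' j := fun j => h1.trans (hμ'mono (by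
      rw [Fin.le_def]
      simp [hz]))
    have h3 : (s / CD) ^ R ≤ ∏ j, μ' j := by
      have : (s / CD) ^ R = ∏ _j : Fin R, (s / CD) := by
        rw [Finset.prod_const, Finset.card_univ, Fintype.card_fin]
      rw [this]
      exact Finset.prod_le_prod (fun _ _ => (div_pos hs hCD).le) fun j _ => h2 j
    have h4 : cL * Q ^ δ / CD ^ R ≤ C2 := by
      refine le_trans ?_ (h3.trans hprod')
      rw [div_pow]
      exact div_le_div_of_nonneg_right hsR' (by positivity)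
    have h5 := hQ1' Q ((le_max_left _ _).trans hQ)
    rw [div_le_iff₀ (by positivity)] at h4
    have h6 : Q ^ δ ≤ C2 * CD ^ R / cL := by
      rw [le_div_iff₀ hcL, mul_comm]
      exact h4
    linarith
  have hspan' : Submodule.span ℚ {X' z} = Submodule.span ℚ {X z} := by
    obtain ⟨c, hc⟩ := Submodule.mem_span_singleton.1 hmem
    have hc0 : c ≠ 0 := by
      rintro rfl
      exact hX'.ne_zero z (by rw [← hc, zero_smul])
    rw [← hc]
    exact Submodule.span_singleton_smul_eq (IsUnit.mk0 c hc0) _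
  have hX'o : X' o ∉ Submodule.span ℚ {X z} := by
    rw [← hspan']
    have h1 := hX'.notMem_span_image (s := {z}) (x := o) (by
      rw [Set.mem_singleton_iff]
      exact hzo.ne')
    rwa [Set.image_singleton] at h1
  have hμ'ge : ∀ j, z < j → s / CD ≤ μ' j := by
    intro j hj
    refine (hkey _ (hXP' o) hX'o).trans (hμ'mono ?_)
    rw [Fin.le_def]
    rw [Fin.lt_def] at hj
    simp [hz, ho] at hj ⊢
    omega
  obtain ⟨y, hy, hyP, hyo, hyN⟩ := hdual β a' hβpos hapos' X' hX' hXP'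
  obtain ⟨m, c, hm, hc, hc0, hmc⟩ := exists_prim (p := p) (X' z) (hXP' z) (hX'.ne_zero z)
  have hmem_m : m ∈ hfin.toFinset := by
    rw [Set.Finite.mem_toFinset]
    refine ⟨hm, Q, hQge1, fun i => (β i)⁻¹, fun t i => (a' t i)⁻¹, ?_, ?_, ?_, ?_⟩
    · intro i
      have h1 : ∀ j, PB Q E (μ j) := fun j => hE Q hQ2le a a' ha ha' X hX hXP hmin j
      have h2 : PB Q G (wprod a a') := PB.wprod hQge1 ha ha'
      have h3 := hρPB Q E G hQge1 h1 h2 (π i)
      exact ((ha i).div hQge1 h3).inv hQge1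
    · intro t i
      exact ((ha' t i).mono hQge1 hBB').inv hQge1
    · rw [wprod_inv, hβw, inv_one]
    · refine ⟨fun j => y ⟨j.1 + 1, by omega⟩, ?_, ?_, ?_, ?_⟩
      · refine hy.comp (fun j : Fin (R - 1) => (⟨j.1 + 1, by omega⟩ : Fin R)) ?_
        intro i j hij
        apply Fin.ext
        have := congrArg Fin.val hij
        simpa using this
      · intro j
        exact hyP _
      · intro j
        have h1 := hyo ⟨j.1 + 1, by omega⟩ z (by
          intro h
          have := congrArg Fin.val h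
          simp [hz] at this)
        rw [hmc] at h1
        have h2 : c * ∑ i, (m i : ℚ) * y ⟨j.1 + 1, by omega⟩ i = 0 := by
          rw [← h1, Finset.mul_sum]
          refine Finset.sum_congr rfl fun i _ => ?_
          simp only [Pi.smul_apply, smul_eq_mul]
          ring
        exact (mul_eq_zero.1 h2).resolve_left hc0
      · intro j
        set j' : Fin R := ⟨j.1 + 1, by omega⟩ with hj'
        have hzj' : z < j' := by
          rw [Fin.lt_def]
          simp [hz, hj']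
        have h1 := hyN j'
        rw [hβw, mul_one] at h1
        have h2 : S.dual.N (fun i => (β i)⁻¹) (fun t i => (a' t i)⁻¹) (y j') * (s / CD) ≤
            C3 * C2 := by
          calc S.dual.N (fun i => (β i)⁻¹) (fun t i => (a' t i)⁻¹) (y j') * (s / CD) ≤
              S.dual.N (fun i => (β i)⁻¹) (fun t i => (a' t i)⁻¹) (y j') * μ' j' :=
                mul_le_mul_of_nonneg_left (hμ'ge j' hzj') (N_nonneg _ _ _ _)
            _ ≤ C3 * ∏ l, μ' l := h1
            _ ≤ C3 * C2 := mul_le_mul_of_nonneg_left hprod' hC3.le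
        have h3 : cL ^ (1 / (R : ℝ)) * Q ^ (δ / R) ≤ s := by
          have e1 : (cL * Q ^ δ) ^ (1 / (R : ℝ)) ≤ (s ^ R) ^ (1 / (R : ℝ)) :=
            Real.rpow_le_rpow (by positivity) hsR' (by positivity)
          have e2 : (s ^ R) ^ (1 / (R : ℝ)) = s := by
            rw [← Real.rpow_natCast, ← Real.rpow_mul hs.le, mul_one_div_cancel hR0, Real.rpow_one]
          have e3 : (cL * Q ^ δ) ^ (1 / (R : ℝ)) = cL ^ (1 / (R : ℝ)) * Q ^ (δ / R) := by
            rw [Real.mul_rpow hcL.le (by positivity), ← Real.rpow_mul hQ0.le, mul_one_div]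
          rwa [e2, e3] at e1
        have h4 := hQ2' Q ((le_max_right _ _).trans hQ)
        have hcLR : 0 < cL ^ (1 / (R : ℝ)) := Real.rpow_pos_of_pos hcL _
        rw [div_le_iff₀ hcLR] at h4
        have h5 : Q ^ (δ / R) = Q ^ δ' * Q ^ δ' := by
          rw [← Real.rpow_add hQ0]
          congr 1
          rw [hδ']
          field_simp
          ring
        have hQδ' : 0 < Q ^ δ' := Real.rpow_pos_of_pos hQ0 _
        have h6 : C3 * C2 * CD * Q ^ δ' ≤ s := by
          refine le_trans ?_ h3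
          rw [h5]
          nlinarith
        rw [Real.rpow_neg hQ0.le]
        rw [mul_div_assoc', div_le_iff₀ hCD] at h2
        set D := S.dual.N (fun i => (β i)⁻¹) (fun t i => (a' t i)⁻¹) (y j') with hD
        have h7 : D * (C3 * C2 * CD * Q ^ δ') ≤ C3 * C2 * CD := by
          refine (mul_le_mul_of_nonneg_left h6 (N_nonneg _ _ _ _)).trans h2
        rw [← one_div, le_div_iff₀ hQδ']
        have hC : 0 < C3 * C2 * CD := by positivity
        have h8 : D * Q ^ δ' * (C3 * C2 * CD) ≤ 1 * (C3 * C2 * CD) := by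
          rw [one_mul]
          calc _ = D * (C3 * C2 * CD * Q ^ δ') := by ring
            _ ≤ _ := h7
        exact le_of_mul_le_mul_right h8 hC
  refine Finset.mem_image.2 ⟨m, hmem_m, ?_⟩
  rw [← hspan', hmc]
  exact (Submodule.span_singleton_smul_eq (IsUnit.mk0 c hc0) _).symm

end Pool.Agent.Helper94.Sub

end

section

namespace Pool.Agent.Helper10.Sub
end Pool.Agent.Helper10.Sub
namespace Pool.Agent.Helper1.Sub
end Pool.Agent.Helper1.Sub

/-!
# Subspace theorem project: the span of the first `k` minimal vectors when there is a gap after it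
-/

set_option autoImplicit false

set_option linter.unusedSectionVars false

namespace Pool.Agent.Helper94.Sub

open Pool.Agent.Helper10.Sub Pool.Agent.Helper1.Sub

section replace

variable {ι : Type} [Fintype ι] [DecidableEq ι] {T : Type} [Fintype T] {p : T → ℕ}
  [∀ t, Fact (p t).Prime]

theorem exists_replace (w : ι → ι → ℚ) (hw : LinearIndependent ℚ w) (y : ι → ℚ) (J0 : ι)
    (hy : y ∉ Submodule.span ℚ {w J0}) :
    ∃ J1, J1 ≠ J0 ∧ LinearIndependent ℚ (Function.update w J1 y) := by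
  classical
  set W : Matrix ι ι ℚ := Matrix.of w with hW
  have hu : IsUnit W := by
    rw [← Matrix.linearIndependent_rows_iff_isUnit]
    exact hw
  have hdet : W.det ≠ 0 := by
    rw [Matrix.isUnit_iff_isUnit_det] at hu
    exact hu.ne_zero
  -- coordinates of `y`
  set c : ι → ℚ := fun J => (Matrix.vecMul y W⁻¹) J with hc
  have hyc : y = ∑ J, c J • w J := by
    have h1 : Matrix.vecMul (Matrix.vecMul y W⁻¹) W = y := by
      rw [Matrix.vecMul_vecMul, Matrix.nonsing_inv_mul _ (by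
        rw [← Matrix.isUnit_iff_isUnit_det]; exact hu), Matrix.vecMul_one]
    funext i
    have h2 := congrFun h1 i
    rw [← h2]
    simp only [Matrix.vecMul, dotProduct, Finset.sum_apply, Pi.smul_apply, smul_eq_mul, hc, hW,
      Matrix.of_apply]
  obtain ⟨J1, hJ1, hc1⟩ : ∃ J1, J1 ≠ J0 ∧ c J1 ≠ 0 := by
    by_contra h
    push Not at h
    apply hy
    rw [hyc, Finset.sum_eq_single J0]
    · exact Submodule.smul_mem _ _ (Submodule.mem_span_singleton_self _)
    · intro b _ hb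
      rw [h b hb, zero_smul]
    · simp
  refine ⟨J1, hJ1, ?_⟩
  have h1 : (W.updateRow J1 (∑ k, c k • W k)).det = c J1 • W.det := Matrix.det_updateRow_sum W J1 c
  have h2 : (∑ k, c k • W k) = y := hyc.symm
  rw [h2] at h1
  have h3 : (W.updateRow J1 y).det ≠ 0 := by
    rw [h1]
    exact smul_ne_zero hc1 hdet
  have h4 : LinearIndependent ℚ (W.updateRow J1 y).row := by
    rw [Matrix.linearIndependent_rows_iff_isUnit, Matrix.isUnit_iff_isUnit_det]
    exact isUnit_iff_ne_zero.2 h3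
  have h5 : (W.updateRow J1 y).row = Function.update w J1 y := by
    funext i
    by_cases hi : i = J1
    · subst hi
      rw [Function.update_self]
      funext j
      simp [Matrix.row]
    · rw [Function.update_of_ne hi]
      funext j
      simp [Matrix.row, Matrix.updateRow_ne hi, hW]
  rwa [h5] at h4

/-- Lower bound for vectors outside a coordinate line of a basis. -/
theorem lower_replace (S : Sys ι T p) (cL : ℝ) (hcL : 0 < cL) (hlow : LowerProp S cL)
    (a : ι → ℝ) (a' : T → ι → ℝ) (ha : ∀ i, 0 < a i) (ha' : ∀ t i, 0 < a' t i)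
    (w : ι → ι → ℚ) (hw : LinearIndependent ℚ w) (hwP : ∀ J, PVec (pprod p) (w J))
    (Λ : ι → ℝ) (hΛ : ∀ J, 0 < Λ J) (CN : ℝ) (hCN : 1 ≤ CN)
    (hwN : ∀ J, S.N a a' (w J) ≤ CN * Λ J) (K : ℝ) (hK : (∏ J, Λ J) * wprod a a' ≤ K)
    (y : ι → ℚ) (hyP : PVec (pprod p) y) (J0 : ι) (hy : y ∉ Submodule.span ℚ {w J0})
    (m : ℝ) (hm : ∀ J, J ≠ J0 → m ≤ Λ J) :
    m ≤ CN ^ Fintype.card ι * K / cL * S.N a a' y := by
  classical
  obtain ⟨J1, hJ1, hli⟩ := exists_replace w hw y J0 hy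
  have h1 := hlow a a' ha ha' _ hli (by
    intro J
    by_cases h : J = J1
    · subst h
      rwa [Function.update_self]
    · rw [Function.update_of_ne h]
      exact hwP J)
  have hN : 0 ≤ S.N a a' y := N_nonneg _ _ _ _
  have hwp : 0 < wprod a a' := wprod_pos ha ha'
  have h2 : ∏ J, S.N a a' (Function.update w J1 y J) =
      S.N a a' y * ∏ J ∈ Finset.univ.erase J1, S.N a a' (w J) := by
    rw [← Finset.mul_prod_erase Finset.univ _ (Finset.mem_univ J1), Function.update_self]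
    congr 1
    refine Finset.prod_congr rfl fun J hJ => ?_
    rw [Function.update_of_ne (Finset.ne_of_mem_erase hJ)]
  have h3 : ∏ J ∈ Finset.univ.erase J1, S.N a a' (w J) ≤
      ∏ J ∈ Finset.univ.erase J1, (CN * Λ J) :=
    Finset.prod_le_prod (fun _ _ => N_nonneg _ _ _ _) fun J _ => hwN J
  have h4 : cL ≤ S.N a a' y * (∏ J ∈ Finset.univ.erase J1, (CN * Λ J)) * wprod a a' := by
    rw [h2] at h1
    refine h1.trans (mul_le_mul_of_nonneg_right ?_ hwp.le)
    exact mul_le_mul_of_nonneg_left h3 hN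
  have h5 : cL * Λ J1 ≤ S.N a a' y * (CN ^ Fintype.card ι * K) := by
    have hCN0 : 0 < CN := by linarith
    calc cL * Λ J1 ≤ cL * (CN * Λ J1) := by
          refine mul_le_mul_of_nonneg_left ?_ hcL.le
          exact le_mul_of_one_le_left (hΛ J1).le hCN
      _ ≤ (S.N a a' y * (∏ J ∈ Finset.univ.erase J1, (CN * Λ J)) * wprod a a') * (CN * Λ J1) :=
          mul_le_mul_of_nonneg_right h4 (mul_pos hCN0 (hΛ J1)).le
      _ = S.N a a' y * ((CN * Λ J1) * (∏ J ∈ Finset.univ.erase J1, (CN * Λ J))) * wprod a a' := by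
          ring
      _ = S.N a a' y * (∏ J, (CN * Λ J)) * wprod a a' := by
          rw [Finset.mul_prod_erase Finset.univ (fun J => CN * Λ J) (Finset.mem_univ J1)]
      _ = S.N a a' y * (CN ^ Fintype.card ι * ((∏ J, Λ J) * wprod a a')) := by
          rw [Finset.prod_mul_distrib, Finset.prod_const, Finset.card_univ]
          ring
      _ ≤ _ := by
          refine mul_le_mul_of_nonneg_left ?_ hN
          exact mul_le_mul_of_nonneg_left hK (by positivity)
  have h6 := hm J1 hJ1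
  rw [div_mul_eq_mul_div, le_div_iff₀ hcL]
  calc m * cL ≤ Λ J1 * cL := mul_le_mul_of_nonneg_right h6 hcL.le
    _ = cL * Λ J1 := mul_comm _ _
    _ ≤ _ := h5
    _ = _ := mul_comm _ _

end replace

/-- Comparison of the products over `k`-subsets. -/
theorem gap_prod {n k : ℕ} (l : Fin n → ℝ) (hl : ∀ i, 0 < l i) (J J0 : Finset (Fin n))
    (hJ0 : ∀ i, i ∈ J0 ↔ i.val < k) (hcard : J.card = J0.card) (hne : J ≠ J0) (L θ : ℝ)
    (hL : 0 < L) (hθ : 1 ≤ θ) (h1 : ∀ i : Fin n, i.val < k → l i ≤ L)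
    (h2 : ∀ i : Fin n, k ≤ i.val → θ * L ≤ l i) :
    θ * ∏ i ∈ J0, l i ≤ ∏ i ∈ J, l i := by
  classical
  set d := (J \ J0).card with hd
  have hd' : (J0 \ J).card = d := (Finset.card_sdiff_comm hcard).symm
  have hd1 : 1 ≤ d := by
    rw [hd, Nat.one_le_iff_ne_zero, Finset.card_ne_zero, Finset.sdiff_nonempty]
    intro hsub
    exact hne (Finset.eq_of_subset_of_card_le hsub hcard.ge)
  have e1 : ∏ i ∈ J0 \ J, l i ≤ L ^ d := by
    rw [← hd', ← Finset.prod_const]
    refine Finset.prod_le_prod (fun i _ => (hl i).le) fun i hi => h1 i ?_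
    exact (hJ0 i).1 (Finset.mem_sdiff.1 hi).1
  have e2 : (θ * L) ^ d ≤ ∏ i ∈ J \ J0, l i := by
    rw [hd, ← Finset.prod_const]
    refine Finset.prod_le_prod (fun i _ => by positivity) fun i hi => h2 i ?_
    by_contra h
    exact (Finset.mem_sdiff.1 hi).2 ((hJ0 i).2 (by omega))
  have e3 : θ * L ^ d ≤ (θ * L) ^ d := by
    rw [mul_pow]
    refine mul_le_mul_of_nonneg_right ?_ (by positivity)
    exact le_self_pow₀ hθ (by omega)
  rw [← Finset.prod_inter_mul_prod_sdiff J0 J l, ← Finset.prod_inter_mul_prod_sdiff J J0 l,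
    Finset.inter_comm J0 J]
  have hI : 0 ≤ ∏ i ∈ J ∩ J0, l i := Finset.prod_nonneg fun i _ => (hl i).le
  calc θ * ((∏ i ∈ J ∩ J0, l i) * ∏ i ∈ J0 \ J, l i) ≤
      θ * ((∏ i ∈ J ∩ J0, l i) * L ^ d) :=
        mul_le_mul_of_nonneg_left (mul_le_mul_of_nonneg_left e1 hI) (by linarith)
    _ = (∏ i ∈ J ∩ J0, l i) * (θ * L ^ d) := by ring
    _ ≤ _ := mul_le_mul_of_nonneg_left (e3.trans e2) hI

/-- All the inputs. -/
structure Inputs (T : Type) [Fintype T] (p : T → ℕ) [∀ t, Fact (p t).Prime] : Prop where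
  low : ∀ (ι : Type) [Fintype ι] [DecidableEq ι] (S : Sys ι T p), ∃ c : ℝ, 0 < c ∧ LowerProp S c
  mink : ∀ (ι : Type) [Fintype ι] [DecidableEq ι] (S : Sys ι T p), ∃ C : ℝ, 0 < C ∧ Mink2Prop S C
  dav : ∀ (ι : Type) [Fintype ι] [DecidableEq ι] (S : Sys ι T p), ∃ C : ℝ, 0 < C ∧ DavProp S C
  dual : ∀ (ι : Type) [Fintype ι] [DecidableEq ι] (S : Sys ι T p), 1 ≤ Fintype.card ι →
    ∃ C : ℝ, 0 < C ∧ DualProp S C
  pen : ∀ (ι : Type) [Fintype ι] [DecidableEq ι] (S : Sys ι T p), 2 ≤ Fintype.card ι →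
    PenultProp S

variable {T : Type} [Fintype T] {p : T → ℕ} [∀ t, Fact (p t).Prime]

theorem propB (I : Inputs T p) {n k : ℕ} (S : Sys (Fin n) T p) (hk : 1 ≤ k) (hkn : k < n)
    (C2 δ B : ℝ) (hδ : 0 < δ) (hB : 0 ≤ B) :
    ∃ Q0 : ℝ, 2 ≤ Q0 ∧ ∃ F : Finset (Submodule ℚ (Fin n → ℚ)), (∀ W ∈ F, W ≠ ⊤) ∧
      ∀ Q : ℝ, Q0 ≤ Q → ∀ (a : Fin n → ℝ) (a' : T → Fin n → ℝ), (∀ i, PB Q B (a i)) →
      (∀ t i, PB Q B (a' t i)) → ∀ x : Fin n → Fin n → ℚ, LinearIndependent ℚ x →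
      (∀ j, PVec (pprod p) (x j)) → Monotone (fun j => S.N a a' (x j)) →
      (∏ j, S.N a a' (x j)) * wprod a a' ≤ C2 →
      Q ^ δ * S.N a a' (x ⟨k - 1, by omega⟩) ≤ S.N a a' (x ⟨k, hkn⟩) →
      Submodule.span ℚ (x '' {i | i.val < k}) ∈ F := by
  classical
  set κ := Ik (Fin n) k with hκ
  set Sc : Sys κ T p := comp S k with hSc
  have hcardκ : Fintype.card κ = n.choose k := card_Ik
  have hR : 2 ≤ Fintype.card κ := by
    rw [hcardκ]
    have h1 : (k + 1).choose k ≤ n.choose k := Nat.choose_le_choose k hkn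
    rw [Nat.choose_succ_self_right] at h1
    omega
  obtain ⟨cL, hcL, hlow⟩ := I.low κ Sc
  obtain ⟨C2c, hC2c, hmink⟩ := I.mink κ Sc
  obtain ⟨CD, hCD, hdav⟩ := I.dav κ Sc
  obtain ⟨C3, hC3, hdual⟩ := I.dual κ Sc (by omega)
  have hpen := I.pen κ Sc.dual hR
  obtain ⟨Q1, hQ1, FA, hFA⟩ := propA Sc cL C2c C3 CD hcL hC2c hC3 hCD hlow hmink hdual hdav hpen hR
    (δ / 2) (k * B) (by positivity) (by positivity)
  obtain ⟨CN0, hCN0, hNw0⟩ := N_wedge S k
  set CN : ℝ := CN0 + 1 with hCNdef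
  have hCN1 : 1 ≤ CN := by linarith
  have hCNpos : 0 < CN := by linarith
  set e : ℕ := (n - 1).choose (k - 1) with he
  set K : ℝ := |C2| ^ e with hK
  set K1 : ℝ := CN ^ Fintype.card κ * K / cL with hK1
  have hK1nn : 0 ≤ K1 := by positivity
  obtain ⟨Q2, hQ2, hQ2'⟩ := exists_ge_rpow (K1 * CN + 1) (δ / 2) (by positivity)
  -- back from lines to subspaces
  let g : Submodule ℚ (κ → ℚ) → Submodule ℚ (Fin n → ℚ) := fun ℓ =>
    if h : ∃ x : Fin k → Fin n → ℚ, LinearIndependent ℚ x ∧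
      Submodule.span ℚ {(wedge x : κ → ℚ)} = ℓ then Submodule.span ℚ (Set.range h.choose) else ⊥
  have hg : ∀ x : Fin k → Fin n → ℚ, LinearIndependent ℚ x →
      g (Submodule.span ℚ {(wedge x : κ → ℚ)}) = Submodule.span ℚ (Set.range x) := by
    intro x hx
    have hex : ∃ x' : Fin k → Fin n → ℚ, LinearIndependent ℚ x' ∧
      Submodule.span ℚ {(wedge x' : κ → ℚ)} = Submodule.span ℚ {(wedge x : κ → ℚ)} := ⟨x, hx, rfl⟩
    simp only [g, dif_pos hex]
    obtain ⟨h1, h2⟩ := hex.choose_spec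
    have h3 : (wedge x : κ → ℚ) ∈ Submodule.span ℚ {(wedge hex.choose : κ → ℚ)} := by
      rw [h2]
      exact Submodule.mem_span_singleton_self _
    obtain ⟨c, hc⟩ := Submodule.mem_span_singleton.1 h3
    exact (span_eq_of_wedge x hex.choose hx h1 c hc.symm).symm
  refine ⟨max Q1 Q2, le_max_of_le_left hQ1, (FA.image g).filter fun W => W ≠ ⊤, ?_, ?_⟩
  · intro W hW
    exact (Finset.mem_filter.1 hW).2
  intro Q hQ a a' ha ha' x hx hxP hmono hC2 hgap
  have hQ1le : Q1 ≤ Q := (le_max_left _ _).trans hQ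
  have hQ2le : Q2 ≤ Q := (le_max_right _ _).trans hQ
  have hQge1 : (1 : ℝ) ≤ Q := by linarith
  have hQ0 : (0 : ℝ) < Q := by linarith
  have hapos : ∀ i, 0 < a i := fun i => (ha i).pos hQge1
  have hapos' : ∀ t i, 0 < a' t i := fun t i => (ha' t i).pos hQge1
  set l : Fin n → ℝ := fun j => S.N a a' (x j) with hl
  have hlpos : ∀ j, 0 < l j := fun j => N_pos S a a' hapos hapos' (x j) (hx.ne_zero j)
  set A : κ → ℝ := cw a with hA
  set A' : T → κ → ℝ := fun t => cw (a' t) with hA'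
  have hcwPB : ∀ b : Fin n → ℝ, (∀ i, PB Q B (b i)) → ∀ s : κ, PB Q (k * B) (cw b s) := by
    intro b hb s
    have h1 := PB.prod hQge1 s.1 b fun i _ => hb i
    rw [s.2] at h1
    exact h1
  have hAPB : ∀ s, PB Q (k * B) (A s) := hcwPB a ha
  have hA'PB : ∀ t s, PB Q (k * B) (A' t s) := fun t => hcwPB (a' t) (ha' t)
  have hApos : ∀ s, 0 < A s := fun s => (hAPB s).pos hQge1
  have hA'pos : ∀ t s, 0 < A' t s := fun t s => (hA'PB t s).pos hQge1
  -- the wedges
  set w : κ → κ → ℚ := fun J => wedge (fun i => x (J.1.orderEmbOfFin J.2 i)) with hw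
  have hwli : LinearIndependent ℚ w := wedge_indep x hx
  have hwP : ∀ J, PVec (pprod p) (w J) := fun J => PVec_wedge _ fun i => hxP _
  have hΛpos : ∀ J : κ, 0 < cw l J := fun J => Finset.prod_pos fun i _ => hlpos i
  have hwN : ∀ J, Sc.N A A' (w J) ≤ CN * cw l J := by
    intro J
    have h1 := hNw0 a a' hapos hapos' (fun i => x (J.1.orderEmbOfFin J.2 i))
    have h2 : ∏ i, S.N a a' (x (J.1.orderEmbOfFin J.2 i)) = cw l J := prod_orderEmb l J
    rw [h2] at h1
    refine h1.trans (mul_le_mul_of_nonneg_right ?_ (hΛpos J).le)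
    linarith
  have hΛprod : (∏ J : κ, cw l J) * wprod A A' ≤ K := by
    rw [prod_cw hk l, wprod_cw hk hkn.le a a', ← mul_pow]
    have hnn : 0 ≤ (∏ j, l j) * wprod a a' :=
      (mul_pos (Finset.prod_pos fun j _ => hlpos j) (wprod_pos hapos hapos')).le
    exact pow_le_pow_left₀ hnn (hC2.trans (le_abs_self _)) _
  -- the first `k` indices
  have hJ0card : (Finset.univ.filter fun i : Fin n => i.val < k).card = k := by
    have h1 : (Finset.univ.filter fun i : Fin n => i.val < k) =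
        Finset.univ.image (Fin.castLE hkn.le) := by
      ext i
      simp only [Finset.mem_filter, Finset.mem_univ, true_and, Finset.mem_image]
      constructor
      · intro h
        exact ⟨⟨i.val, h⟩, rfl⟩
      · rintro ⟨j, rfl⟩
        exact j.2
    rw [h1, Finset.card_image_of_injective _ (Fin.castLE_injective _), Finset.card_univ,
      Fintype.card_fin]
  set J0 : κ := ⟨Finset.univ.filter fun i : Fin n => i.val < k, hJ0card⟩ with hJ0
  have hJ0mem : ∀ i, i ∈ J0.1 ↔ i.val < k := by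
    intro i
    simp [hJ0]
  set θ : ℝ := Q ^ δ with hθdef
  have hθ1 : 1 ≤ θ := Real.one_le_rpow hQge1 hδ.le
  have hθpos : 0 < θ := by linarith
  have hgapJ : ∀ J : κ, J ≠ J0 → θ * cw l J0 ≤ cw l J := by
    intro J hJ
    refine gap_prod (k := k) l hlpos J.1 J0.1 hJ0mem (J.2.trans J0.2.symm)
      (fun h => hJ (Subtype.ext h)) (l ⟨k - 1, by omega⟩) θ (hlpos _) hθ1 ?_ ?_
    · intro i hi
      refine hmono ?_
      rw [Fin.le_def]
      show i.val ≤ k - 1
      omega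
    · intro i hi
      refine hgap.trans (hmono ?_)
      rw [Fin.le_def]
      exact hi
  have hlowJ : ∀ y, PVec (pprod p) y → y ∉ Submodule.span ℚ {w J0} →
      θ * cw l J0 ≤ K1 * Sc.N A A' y := by
    intro y hy hyn
    exact lower_replace Sc cL hcL hlow A A' hApos hA'pos w hwli hwP (fun J => cw l J) hΛpos CN hCN1
      hwN K hΛprod y hy J0 hyn _ hgapJ
  obtain ⟨X, hX, hXP, hXmin, hXprod⟩ := hmink A A' hApos hA'pos
  set z : Fin (Fintype.card κ) := ⟨0, by omega⟩ with hz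
  set o : Fin (Fintype.card κ) := ⟨1, by omega⟩ with ho
  have hXmono := hXmin.mono hX hXP
  have hμz : Sc.N A A' (X z) ≤ CN * cw l J0 := by
    refine (hXmin z (w J0) (hwP J0) ?_).trans (hwN J0)
    have : {i : Fin (Fintype.card κ) | i < z} = ∅ := by
      ext i
      simp [Fin.lt_def, hz]
    rw [this, Set.image_empty, Submodule.span_empty, Submodule.mem_bot]
    exact hwli.ne_zero J0
  have hQδ : θ = Q ^ (δ / 2) * Q ^ (δ / 2) := by
    rw [hθdef, ← Real.rpow_add hQ0]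
    congr 1
    ring
  have hθ2 : K1 * CN + 1 ≤ Q ^ (δ / 2) := hQ2' Q hQ2le
  have hθ2pos : 0 < Q ^ (δ / 2) := Real.rpow_pos_of_pos hQ0 _
  have hθ2one : 1 ≤ Q ^ (δ / 2) := Real.one_le_rpow hQge1 (by positivity)
  have hXz : X z ∈ Submodule.span ℚ {w J0} := by
    by_contra hnot
    have h1 := hlowJ _ (hXP z) hnot
    have h2 : θ * cw l J0 ≤ (K1 * CN) * cw l J0 := by
      refine h1.trans ?_
      rw [mul_assoc]
      exact mul_le_mul_of_nonneg_left hμz hK1nn
    have h3 : θ ≤ K1 * CN := le_of_mul_le_mul_right h2 (hΛpos J0)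
    have h4 : Q ^ (δ / 2) ≤ θ := by
      rw [hQδ]
      exact le_mul_of_one_le_left hθ2pos.le hθ2one
    linarith
  have hspan : Submodule.span ℚ {X z} = Submodule.span ℚ {w J0} := by
    obtain ⟨c, hc⟩ := Submodule.mem_span_singleton.1 hXz
    have hc0 : c ≠ 0 := by
      rintro rfl
      exact hX.ne_zero z (by rw [← hc, zero_smul])
    rw [← hc]
    exact Submodule.span_singleton_smul_eq (IsUnit.mk0 c hc0) _
  have hXo : X o ∉ Submodule.span ℚ {w J0} := by
    rw [← hspan]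
    have h1 := hX.notMem_span_image (s := {z}) (x := o) (by
      rw [Set.mem_singleton_iff]
      intro h
      have := congrArg Fin.val h
      simp [hz, ho] at this)
    rwa [Set.image_singleton] at h1
  have hgapX : Q ^ (δ / 2) * Sc.N A A' (X z) ≤ Sc.N A A' (X o) := by
    have h1 := hlowJ _ (hXP o) hXo
    have h2 : θ * Sc.N A A' (X z) ≤ (K1 * CN) * Sc.N A A' (X o) := by
      calc θ * Sc.N A A' (X z) ≤ θ * (CN * cw l J0) := mul_le_mul_of_nonneg_left hμz hθpos.le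
        _ = CN * (θ * cw l J0) := by ring
        _ ≤ CN * (K1 * Sc.N A A' (X o)) := mul_le_mul_of_nonneg_left h1 hCNpos.le
        _ = _ := by ring
    have h3 : (K1 * CN) * Sc.N A A' (X o) ≤ Q ^ (δ / 2) * Sc.N A A' (X o) :=
      mul_le_mul_of_nonneg_right (by linarith) (N_nonneg _ _ _ _)
    have h4 : Q ^ (δ / 2) * (Q ^ (δ / 2) * Sc.N A A' (X z)) ≤
        Q ^ (δ / 2) * Sc.N A A' (X o) := by
      rw [← mul_assoc, ← hQδ]
      exact h2.trans h3
    exact le_of_mul_le_mul_left h4 hθ2pos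
  have hmem := hFA Q hQ1le A A' hAPB hA'PB X hX hXP hXmin hgapX
  change Submodule.span ℚ {X z} ∈ FA at hmem
  rw [hspan] at hmem
  have hxJ : LinearIndependent ℚ (fun i : Fin k => x (J0.1.orderEmbOfFin J0.2 i)) :=
    hx.comp _ (J0.1.orderEmbOfFin J0.2).injective
  have hrange : Set.range (fun i : Fin k => x (J0.1.orderEmbOfFin J0.2 i)) =
      x '' {i | i.val < k} := by
    rw [show (fun i : Fin k => x (J0.1.orderEmbOfFin J0.2 i)) =
      x ∘ (J0.1.orderEmbOfFin J0.2) from rfl, Set.range_comp, Finset.range_orderEmbOfFin]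
    congr 1
    ext i
    exact hJ0mem i
  have hV := hg _ hxJ
  rw [hrange] at hV
  rw [Finset.mem_filter, ← hV]
  refine ⟨Finset.mem_image_of_mem g hmem, ?_⟩
  change g (Submodule.span ℚ {(wedge fun i => x (J0.1.orderEmbOfFin J0.2 i) : κ → ℚ)}) ≠ ⊤
  rw [hV]
  intro htop
  have h1 : x ⟨k, hkn⟩ ∉ Submodule.span ℚ (x '' {i | i.val < k}) :=
    hx.notMem_span_image (s := {i : Fin n | i.val < k}) (by simp)
  rw [htop] at h1
  exact h1 Submodule.mem_top

end Pool.Agent.Helper94.Sub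

end

section

namespace Pool.Agent.Helper10.Sub
end Pool.Agent.Helper10.Sub
namespace Pool.Agent.Helper1.Sub
end Pool.Agent.Helper1.Sub

/-!
# Subspace theorem project: the parametric subspace theorem from its inputs
-/

set_option autoImplicit false

set_option linter.unusedSectionVars false

namespace Pool.Agent.Helper94.Sub

open Pool.Agent.Helper10.Sub Pool.Agent.Helper1.Sub

/-- There is a gap among the minima. -/
theorem exists_gap {n : ℕ} (hn : 2 ≤ n) (l : Fin n → ℝ) (hl : ∀ i, 0 < l i)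
    (h0 : l ⟨0, by omega⟩ ≤ 1) (θ : ℝ) (hθ : 1 ≤ θ) (hprod : θ ^ (n * n) < ∏ i, l i) :
    ∃ (k : ℕ) (hk : 1 ≤ k) (hkn : k < n), 1 < l ⟨k, hkn⟩ ∧
      θ * l ⟨k - 1, by omega⟩ ≤ l ⟨k, hkn⟩ := by
  by_contra h
  push Not at h
  have hθ0 : 0 < θ := by linarith
  have hind : ∀ k (hkn : k < n), l ⟨k, hkn⟩ ≤ θ ^ k := by
    intro k
    induction k with
    | zero =>
      intro hkn
      simpa using h0
    | succ k ih =>
      intro hkn
      rcases le_or_gt (l ⟨k + 1, hkn⟩) 1 with h1 | h1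
      · exact h1.trans (one_le_pow₀ hθ)
      · have h2 := h (k + 1) (by omega) hkn h1
        have h3 := ih (by omega)
        rw [pow_succ']
        refine h2.le.trans (mul_le_mul_of_nonneg_left ?_ hθ0.le)
        simpa using h3
  have h1 : ∏ i, l i ≤ ∏ _i : Fin n, θ ^ n := by
    refine Finset.prod_le_prod (fun i _ => (hl i).le) fun i _ => ?_
    refine (hind i.1 i.2).trans ?_
    exact pow_le_pow_right₀ hθ i.2.le
  rw [Finset.prod_const, Finset.card_univ, Fintype.card_fin, ← pow_mul] at h1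
  linarith

variable {T : Type} [Fintype T] {p : T → ℕ} [∀ t, Fact (p t).Prime]

/-- Minimal vectors indexed by `Fin n`. -/
theorem exists_minimal_fin (I : Inputs T p) {n : ℕ} (S : Sys (Fin n) T p) : ∃ cL C2 : ℝ, 0 < cL ∧
    ∀ (a : Fin n → ℝ) (a' : T → Fin n → ℝ), (∀ i, 0 < a i) → (∀ t i, 0 < a' t i) →
    ∃ x : Fin n → Fin n → ℚ, LinearIndependent ℚ x ∧ (∀ j, PVec (pprod p) (x j)) ∧
      (∀ j y, PVec (pprod p) y → y ∉ Submodule.span ℚ (x '' {i | i < j}) →
        S.N a a' (x j) ≤ S.N a a' y) ∧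
      Monotone (fun j => S.N a a' (x j)) ∧ (∏ j, S.N a a' (x j)) * wprod a a' ≤ C2 ∧
      cL ≤ (∏ j, S.N a a' (x j)) * wprod a a' := by
  obtain ⟨cL, hcL, hlow⟩ := I.low (Fin n) S
  obtain ⟨C2, hC2, hmink⟩ := I.mink (Fin n) S
  refine ⟨cL, C2, hcL, ?_⟩
  intro a a' ha ha'
  obtain ⟨X, hX, hXP, hmin, hprod⟩ := hmink a a' ha ha'
  have hmono := hmin.mono hX hXP
  set e : Fin n ≃o Fin (Fintype.card (Fin n)) := Fin.castOrderIso (Fintype.card_fin n).symm with he
  have himg : ∀ j : Fin n, (fun i => X (e i)) '' {i | i < j} = X '' {i | i < e j} := by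
    intro j
    ext v
    constructor
    · rintro ⟨i, hi, rfl⟩
      exact ⟨e i, e.lt_iff_lt.2 hi, rfl⟩
    · rintro ⟨i, hi, rfl⟩
      refine ⟨e.symm i, ?_, by simp⟩
      have : i < e j := hi
      rw [← e.apply_symm_apply i] at this
      exact e.lt_iff_lt.1 this
  have hpr : ∏ j : Fin n, S.N a a' (X (e j)) = ∏ j, S.N a a' (X j) :=
    Fintype.prod_equiv e.toEquiv _ _ fun _ => rfl
  refine ⟨fun j => X (e j), hX.comp _ e.injective, fun j => hXP _, ?_, ?_, ?_, ?_⟩
  · intro j y hy hyn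
    rw [himg] at hyn
    exact hmin (e j) y hy hyn
  · intro i j hij
    exact hmono (e.monotone hij)
  · rw [hpr]
    exact hprod
  · rw [hpr]
    exact hlow.fin a a' ha ha' X hX hXP

theorem subspace_fin (I : Inputs T p) (hp : Function.Injective p) {n : ℕ} (hn : 2 ≤ n)
    (S : Sys (Fin n) T p) (δ B : ℝ) (hδ : 0 < δ) :
    ∃ 𝒲 : Finset (Submodule ℚ (Fin n → ℚ)), (∀ W ∈ 𝒲, W ≠ ⊤) ∧
    ∀ (Q : ℝ) (a : Fin n → ℝ) (a' : T → Fin n → ℝ), 1 ≤ Q →
      (∀ i, Q ^ (-B) ≤ a i ∧ a i ≤ Q ^ B) → (∀ t i, Q ^ (-B) ≤ a' t i ∧ a' t i ≤ Q ^ B) →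
      wprod a a' ≤ Q ^ (-δ) → ∀ x : Fin n → ℚ, PVec (pprod p) x → S.N a a' x ≤ 1 →
      ∃ W ∈ 𝒲, x ∈ W := by
  classical
  have hn0 : (0 : ℝ) < n := by exact_mod_cast (by omega : 0 < n)
  obtain ⟨cL, C2, hcL, hmin⟩ := exists_minimal_fin I S
  set B0 : ℝ := max B 0 with hB0
  have hB0nn : 0 ≤ B0 := le_max_right _ _
  have hBB0 : B ≤ B0 := le_max_left _ _
  set δ1 : ℝ := δ / (2 * (n * n)) with hδ1
  have hδ1pos : 0 < δ1 := by positivity
  have hB := fun (k : Fin n) (hk : 1 ≤ k.1) =>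
    propB I S hk k.2 C2 δ1 B0 hδ1pos hB0nn
  choose Qk hQk Fk hFk hFk' using hB
  obtain ⟨Qs, hQs, hQs'⟩ := exists_ge_rpow (1 / cL + 1) (δ / 2) (by positivity)
  set Q0 : ℝ := Qs + ∑ k : Fin n, (if h : 1 ≤ k.1 then Qk k h else 0) with hQ0
  have hQ0nn : ∀ k : Fin n, 0 ≤ (if h : 1 ≤ k.1 then Qk k h else 0) := by
    intro k
    split_ifs with h
    · have := hQk k h
      linarith
    · exact le_rfl
  have hQ0k : ∀ (k : Fin n) (h : 1 ≤ k.1), Qk k h ≤ Q0 := by
    intro k h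
    have h1 := Finset.single_le_sum (f := fun k : Fin n => (if h : 1 ≤ k.1 then Qk k h else 0))
      (fun i _ => hQ0nn i) (Finset.mem_univ k)
    simp only [dif_pos h] at h1
    have : 0 ≤ Qs := by linarith
    linarith
  have hQ0s : Qs ≤ Q0 := by
    have := Finset.sum_nonneg fun (k : Fin n) (_ : k ∈ Finset.univ) => hQ0nn k
    linarith
  obtain ⟨F0, hF0, hF0'⟩ := finite_lines S hp 1 (Q0 ^ B0)
  set 𝒲0 : Finset (Submodule ℚ (Fin n → ℚ)) := insert ⊥ (F0 ∪
    Finset.univ.biUnion fun k : Fin n => if h : 1 ≤ k.1 then Fk k h else ∅) with h𝒲0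
  refine ⟨𝒲0.filter fun W => W ≠ ⊤, fun W hW => (Finset.mem_filter.1 hW).2, ?_⟩
  intro Q a a' hQ ha ha' hw x hx hN
  suffices h : ∃ W ∈ 𝒲0, x ∈ W ∧ W ≠ ⊤ by
    obtain ⟨W, hW, hxW, hne⟩ := h
    exact ⟨W, Finset.mem_filter.2 ⟨hW, hne⟩, hxW⟩
  have hfr : Module.finrank ℚ (Fin n → ℚ) = n := by simp
  by_cases hx0 : x = 0
  · refine ⟨⊥, Finset.mem_insert_self _ _, by simp [hx0], ?_⟩
    intro h
    have h1 : Module.finrank ℚ (⊥ : Submodule ℚ (Fin n → ℚ)) = n := by
      rw [h, finrank_top, hfr]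
    rw [finrank_bot] at h1
    omega
  have haP : ∀ i, PB Q B0 (a i) := fun i => PB.mono hQ hBB0 (ha i)
  have haP' : ∀ t i, PB Q B0 (a' t i) := fun t i => PB.mono hQ hBB0 (ha' t i)
  have hapos : ∀ i, 0 < a i := fun i => (haP i).pos hQ
  have hapos' : ∀ t i, 0 < a' t i := fun t i => (haP' t i).pos hQ
  rcases le_or_gt Q0 Q with hQQ | hQQ
  · -- large `Q`
    have hQpos : 0 < Q := by linarith
    obtain ⟨X, hX, hXP, hXmin, hXmono, hXprod, hXlow⟩ := hmin a a' hapos hapos'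
    set l : Fin n → ℝ := fun j => S.N a a' (X j) with hl
    have hlpos : ∀ j, 0 < l j := fun j => N_pos S a a' hapos hapos' (X j) (hX.ne_zero j)
    have hl0 : l ⟨0, by omega⟩ ≤ 1 := by
      refine (hXmin ⟨0, by omega⟩ x hx ?_).trans hN
      have : {i : Fin n | i < ⟨0, by omega⟩} = ∅ := by
        ext i
        simp [Fin.lt_def]
      rw [this, Set.image_empty, Submodule.span_empty, Submodule.mem_bot]
      exact hx0
    have hθ1 : 1 ≤ Q ^ δ1 := Real.one_le_rpow hQ hδ1pos.le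
    have hprod : (Q ^ δ1) ^ (n * n) < ∏ i, l i := by
      have e1 : (Q ^ δ1) ^ (n * n) = Q ^ (δ / 2) := by
        rw [← Real.rpow_natCast, ← Real.rpow_mul hQpos.le]
        congr 1
        rw [hδ1]
        push_cast
        field_simp
      have e2 : cL * Q ^ δ ≤ ∏ i, l i := by
        have hpp : 0 ≤ ∏ i, l i := Finset.prod_nonneg fun i _ => (hlpos i).le
        have h1 : cL ≤ (∏ i, l i) * Q ^ (-δ) :=
          hXlow.trans (mul_le_mul_of_nonneg_left hw hpp)
        have h2 : 0 < Q ^ δ := Real.rpow_pos_of_pos hQpos _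
        rw [Real.rpow_neg hQpos.le, ← div_eq_mul_inv, le_div_iff₀ h2] at h1
        exact h1
      have e3 := hQs' Q (hQ0s.trans hQQ)
      have e4 : Q ^ δ = Q ^ (δ / 2) * Q ^ (δ / 2) := by
        rw [← Real.rpow_add hQpos]
        congr 1
        ring
      have e5 : 0 < Q ^ (δ / 2) := Real.rpow_pos_of_pos hQpos _
      rw [e1]
      refine lt_of_lt_of_le ?_ e2
      rw [e4]
      have e6 : 1 < cL * Q ^ (δ / 2) := by
        have : 1 / cL < Q ^ (δ / 2) := by linarith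
        rwa [div_lt_iff₀ hcL, mul_comm] at this
      calc Q ^ (δ / 2) = 1 * Q ^ (δ / 2) := (one_mul _).symm
        _ < (cL * Q ^ (δ / 2)) * Q ^ (δ / 2) := mul_lt_mul_of_pos_right e6 e5
        _ = _ := by ring
    obtain ⟨k, hk, hkn, hk1, hkgap⟩ := exists_gap hn l hlpos hl0 (Q ^ δ1) hθ1 hprod
    have hmem := hFk' ⟨k, hkn⟩ hk Q ((hQ0k _ _).trans hQQ) a a' haP haP' X hX hXP hXmono hXprod
      hkgap
    refine ⟨_, ?_, ?_, hFk _ _ _ hmem⟩
    · refine Finset.mem_insert_of_mem (Finset.mem_union_right _ (Finset.mem_biUnion.2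
        ⟨⟨k, hkn⟩, Finset.mem_univ _, ?_⟩))
      rw [dif_pos hk]
      exact hmem
    · by_contra hnot
      have h1 := hXmin ⟨k, hkn⟩ x hx (by
        have : {i : Fin n | i < ⟨k, hkn⟩} = {i : Fin n | i.val < k} := by
          ext i
          simp [Fin.lt_def]
        rw [this]
        exact hnot)
      have h2 : l ⟨k, hkn⟩ ≤ 1 := h1.trans hN
      linarith
  · -- small `Q`
    have h1 := hF0' a a' (fun i => ⟨hapos i, (haP i).2.trans
      (Real.rpow_le_rpow (by linarith) hQQ.le hB0nn)⟩)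
      (fun t i => ⟨hapos' t i, (haP' t i).2.trans
      (Real.rpow_le_rpow (by linarith) hQQ.le hB0nn)⟩) x hx hx0 hN
    refine ⟨_, Finset.mem_insert_of_mem (Finset.mem_union_left _ h1),
      Submodule.mem_span_singleton_self _, ?_⟩
    intro h
    have h2 : Module.finrank ℚ (Submodule.span ℚ {x}) = n := by
      rw [h, finrank_top, hfr]
    have h3 : Module.finrank ℚ (Submodule.span ℚ {x}) ≤ 1 := by
      have := finrank_span_le_card (R := ℚ) ({x} : Set (Fin n → ℚ))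
      simpa using this
    omega

end Pool.Agent.Helper94.Sub

end

section

namespace Pool.Agent.Helper10.Sub
end Pool.Agent.Helper10.Sub

/-!
# Subspace theorem project: the parametric subspace theorem, arbitrary index type
-/

set_option autoImplicit false

set_option linter.unusedSectionVars false

namespace Pool.Agent.Helper94.Sub

open Pool.Agent.Helper10.Sub

variable {ι κ : Type} [Fintype ι] [DecidableEq ι] [Fintype κ] [DecidableEq κ]
  {T : Type} [Fintype T] {p : T → ℕ} [∀ t, Fact (p t).Prime]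

/-- Reindexing a system. -/
noncomputable def reindex (S : Sys ι T p) (e : ι ≃ κ) : Sys κ T p where
  A := S.A.submatrix e.symm e.symm
  A' := fun t => (S.A' t).submatrix e.symm e.symm
  algA := fun _ _ => S.algA _ _
  algA' := fun t _ _ => S.algA' t _ _
  detA := by
    rw [Matrix.det_submatrix_equiv_self]
    exact S.detA
  detA' := fun t => by
    rw [Matrix.det_submatrix_equiv_self]
    exact S.detA' t

theorem norm_comp_symm (f : ι → ℝ) (e : ι ≃ κ) : ‖fun i => f (e.symm i)‖ = ‖f‖ := by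
  apply le_antisymm
  · exact (pi_norm_le_iff_of_nonneg (norm_nonneg _)).2 fun i => norm_le_pi_norm f _
  · refine (pi_norm_le_iff_of_nonneg (norm_nonneg _)).2 fun i => ?_
    have := norm_le_pi_norm (fun i => f (e.symm i)) (e i)
    simpa using this

theorem L_reindex (S : Sys ι T p) (e : ι ≃ κ) (x : ι → ℚ) (i : κ) :
    (reindex S e).L (fun i => x (e.symm i)) i = S.L x (e.symm i) := by
  unfold Sys.L reindex
  exact Fintype.sum_equiv e.symm _ _ fun _ => rfl

theorem L'_reindex (S : Sys ι T p) (e : ι ≃ κ) (t : T) (x : ι → ℚ) (i : κ) :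
    (reindex S e).L' t (fun i => x (e.symm i)) i = S.L' t x (e.symm i) := by
  unfold Sys.L' reindex
  exact Fintype.sum_equiv e.symm _ _ fun _ => rfl

theorem N_reindex (S : Sys ι T p) (e : ι ≃ κ) (a : ι → ℝ) (a' : T → ι → ℝ) (x : ι → ℚ) :
    (reindex S e).N (fun i => a (e.symm i)) (fun t i => a' t (e.symm i))
      (fun i => x (e.symm i)) = S.N a a' x := by
  unfold Sys.N Sys.Ninf Sys.Np
  simp only [L_reindex, L'_reindex]
  rw [norm_comp_symm (fun i => S.L x i / a i) e]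
  congr 1
  exact Finset.prod_congr rfl fun t _ => norm_comp_symm (fun i => ‖S.L' t x i‖ / a' t i) e

theorem wprod_reindex (e : ι ≃ κ) (a : ι → ℝ) (a' : T → ι → ℝ) :
    wprod (fun i => a (e.symm i)) (fun t i => a' t (e.symm i)) = wprod a a' := by
  unfold wprod
  rw [Equiv.prod_comp e.symm a]
  congr 1
  exact Finset.prod_congr rfl fun t _ => Equiv.prod_comp e.symm (a' t)

theorem subspace_of_inputs (I : Inputs T p) (hp : Function.Injective p)
    (hι : 2 ≤ Fintype.card ι) (S : Sys ι T p) (δ B : ℝ) (hδ : 0 < δ) :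
    ∃ 𝒲 : Finset (Submodule ℚ (ι → ℚ)), (∀ W ∈ 𝒲, W ≠ ⊤) ∧
    ∀ (Q : ℝ) (a : ι → ℝ) (a' : T → ι → ℝ), 1 ≤ Q →
      (∀ i, Q ^ (-B) ≤ a i ∧ a i ≤ Q ^ B) → (∀ t i, Q ^ (-B) ≤ a' t i ∧ a' t i ≤ Q ^ B) →
      wprod a a' ≤ Q ^ (-δ) → ∀ x : ι → ℚ, PVec (pprod p) x → S.N a a' x ≤ 1 →
      ∃ W ∈ 𝒲, x ∈ W := by
  classical
  set e : ι ≃ Fin (Fintype.card ι) := Fintype.equivFin ι with he
  obtain ⟨𝒲, h𝒲, h⟩ := subspace_fin I hp hι (reindex S e) δ B hδ
  set φ : (ι → ℚ) →ₗ[ℚ] (Fin (Fintype.card ι) → ℚ) := LinearMap.funLeft ℚ ℚ e.symm with hφ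
  have hφs : Function.Surjective φ := by
    intro y
    refine ⟨fun i => y (e i), ?_⟩
    funext j
    simp [hφ, LinearMap.funLeft_apply]
  refine ⟨𝒲.image fun W => W.comap φ, ?_, ?_⟩
  · intro W hW
    obtain ⟨W', hW', rfl⟩ := Finset.mem_image.1 hW
    intro htop
    apply h𝒲 W' hW'
    rw [eq_top_iff]
    intro y _
    obtain ⟨x, rfl⟩ := hφs y
    have : x ∈ W'.comap φ := by
      rw [htop]
      exact Submodule.mem_top
    exact this
  · intro Q a a' hQ ha ha' hw x hx hN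
    obtain ⟨W, hW, hxW⟩ := h Q (fun i => a (e.symm i)) (fun t i => a' t (e.symm i)) hQ
      (fun i => ha _) (fun t i => ha' t _) (by rw [wprod_reindex]; exact hw)
      (fun i => x (e.symm i)) (fun i => hx _) (by rw [N_reindex]; exact hN)
    exact ⟨W.comap φ, Finset.mem_image_of_mem _ hW, hxW⟩

end Pool.Agent.Helper94.Sub

end

section

namespace Pool.Agent.Helper10.Sub
end Pool.Agent.Helper10.Sub

set_option autoImplicit false

namespace Pool.Agent.Helper1.Sub

open Pool.Agent.Helper10.Sub Module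

variable {ι : Type} [Fintype ι] [DecidableEq ι] {T : Type} [Fintype T] {p : T → ℕ}
  [∀ t, Fact (p t).Prime]

omit [Fintype T] [∀ t, Fact (p t).Prime] in
theorem norm_int_eq {q : ℕ} [Fact q.Prime] {z : ℤ} (hz : z ≠ 0) :
    ‖((z : ℚ) : ℚ_[q])‖ = ((q : ℝ) ^ padicValNat q z.natAbs)⁻¹ := by
  have hz' : (z : ℚ) ≠ 0 := by exact_mod_cast hz
  rw [Padic.eq_padicNorm, padicNorm.eq_zpow_of_nonzero hz', padicValRat.of_int, padicValInt]
  simp

theorem one_le_prod_norm_int (hp : Function.Injective p) {z : ℤ} (hz : z ≠ 0) :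
    1 ≤ ‖((z : ℚ) : ℝ)‖ * ∏ t, ‖((z : ℚ) : ℚ_[p t])‖ := by
  have h1 : ∏ t, ‖((z : ℚ) : ℚ_[p t])‖ = (((∏ t, (p t) ^ padicValNat (p t) z.natAbs : ℕ) : ℝ))⁻¹ := by
    push_cast
    rw [← Finset.prod_inv_distrib]
    exact Finset.prod_congr rfl fun t _ => norm_int_eq hz
  have h2 : (∏ t, (p t) ^ padicValNat (p t) z.natAbs) ∣ z.natAbs := by
    refine Finset.prod_dvd_of_isRelPrime ?_ fun t _ => pow_padicValNat_dvd
    intro s _ t _ hst
    exact Nat.coprime_iff_isRelPrime.mp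
      (Nat.Coprime.pow _ _ ((Nat.coprime_primes (Fact.out) (Fact.out)).mpr fun h => hst (hp h)))
  have h3 : (∏ t, (p t) ^ padicValNat (p t) z.natAbs) ≤ z.natAbs :=
    Nat.le_of_dvd (Int.natAbs_pos.mpr hz) h2
  have h4 : ‖((z : ℚ) : ℝ)‖ = (z.natAbs : ℝ) := by
    rw [Nat.cast_natAbs]
    simp
  have h5 : (0 : ℝ) < ((∏ t, (p t) ^ padicValNat (p t) z.natAbs : ℕ) : ℝ) := by
    rw [Nat.cast_pos]
    exact Finset.prod_pos fun t _ => pow_pos (Fact.out : (p t).Prime).pos _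
  rw [h1, h4, ← div_eq_mul_inv, le_div_iff₀ h5, one_mul]
  exact_mod_cast h3

theorem norm_pprod (hp : Function.Injective p) (t : T) :
    ‖((pprod p : ℚ) : ℚ_[p t])‖ = ((p t : ℝ))⁻¹ := by
  classical
  unfold pprod
  push_cast
  rw [norm_prod, Finset.prod_eq_single t]
  · simp
  · intro s _ hst
    have h1 : ¬ (p t) ∣ (p s) := fun h => hst (hp ((Nat.prime_dvd_prime_iff_eq Fact.out Fact.out).mp h).symm)
    have h2 := (Padic.norm_natCast_eq_one_iff (p := p t) (n := p s)).mpr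
      ((Nat.coprime_primes Fact.out Fact.out).mpr fun h => hst (hp h.symm))
    exact h2
  · intro h
    exact absurd (Finset.mem_univ t) h

theorem pprod_pos : 0 < pprod p := Finset.prod_pos fun t _ => (Fact.out : (p t).Prime).pos

/-- Product formula for `ℤ[1/P]`. -/
theorem one_le_prod_norm (hp : Function.Injective p) {x : ℚ} (hx : x ≠ 0)
    (hP : PInt (pprod p) x) : 1 ≤ ‖(x : ℝ)‖ * ∏ t, ‖(x : ℚ_[p t])‖ := by
  obtain ⟨k, z, hz⟩ := hP
  have hP0 : ((pprod p : ℕ) : ℚ) ≠ 0 := by exact_mod_cast (pprod_pos (p := p)).ne'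
  have hz0 : z ≠ 0 := by
    rintro rfl
    rw [Int.cast_zero, mul_eq_zero] at hz
    rcases hz with h | h
    · exact hx h
    · exact pow_ne_zero _ hP0 h
  have h1 := one_le_prod_norm_int hp hz0
  rw [← hz] at h1
  have h2 : ‖((x * (pprod p : ℚ) ^ k : ℚ) : ℝ)‖ = ‖(x : ℝ)‖ * (pprod p : ℝ) ^ k := by
    push_cast
    rw [norm_mul, norm_pow, Real.norm_natCast]
  have h3 : ∏ t, ‖((x * (pprod p : ℚ) ^ k : ℚ) : ℚ_[p t])‖ =
      (∏ t, ‖(x : ℚ_[p t])‖) * ((pprod p : ℝ)⁻¹) ^ k := by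
    have h4 : ∀ t, ‖((x * (pprod p : ℚ) ^ k : ℚ) : ℚ_[p t])‖ =
        ‖(x : ℚ_[p t])‖ * (((p t : ℝ))⁻¹) ^ k := by
      intro t
      rw [Rat.cast_mul, Rat.cast_pow, norm_mul, norm_pow, norm_pprod hp]
    rw [Finset.prod_congr rfl fun t _ => h4 t, Finset.prod_mul_distrib, Finset.prod_pow,
      Finset.prod_inv_distrib]
    congr 3
    unfold pprod
    push_cast
    rfl
  rw [h2, h3] at h1
  have hP1 : ((pprod p : ℕ) : ℝ) ≠ 0 := by exact_mod_cast (pprod_pos (p := p)).ne'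
  calc (1 : ℝ) ≤ _ := h1
    _ = (‖(x : ℝ)‖ * ∏ t, ‖(x : ℚ_[p t])‖) * (((pprod p : ℝ)) * (pprod p : ℝ)⁻¹) ^ k := by
      rw [mul_pow]; ring
    _ = _ := by rw [mul_inv_cancel₀ hP1, one_pow, mul_one]

omit [Fintype T] in
theorem norm_L_le (S : Sys ι T p) (a : ι → ℝ) (ha : ∀ i, 0 < a i) (x : ι → ℚ) (i : ι) :
    ‖S.L x i‖ ≤ a i * S.Ninf a x := by
  have h1 := norm_le_pi_norm (fun j => S.L x j / a j) i
  rw [norm_div, Real.norm_of_nonneg (ha i).le, div_le_iff₀ (ha i)] at h1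
  unfold Sys.Ninf
  linarith [h1, mul_comm (a i) ‖fun j => S.L x j / a j‖]

omit [Fintype T] in
theorem norm_L'_le (S : Sys ι T p) (t : T) (a : ι → ℝ) (ha : ∀ i, 0 < a i) (x : ι → ℚ) (i : ι) :
    ‖S.L' t x i‖ ≤ a i * S.Np t a x := by
  have h1 := norm_le_pi_norm (fun j => ‖S.L' t x j‖ / a j) i
  rw [Real.norm_of_nonneg (div_nonneg (norm_nonneg _) (ha i).le), div_le_iff₀ (ha i)] at h1
  unfold Sys.Np
  linarith [h1, mul_comm (a i) ‖fun j => ‖S.L' t x j‖ / a j‖]

omit [Fintype T] in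
/-- The matrix of the values of the real forms. -/
theorem L_matrix (S : Sys ι T p) {κ : Type} [Fintype κ] (x : κ → ι → ℚ) :
    (Matrix.of fun i j => S.L (x j) i) = S.A * (Matrix.of fun i j => ((x j i : ℚ) : ℝ)) := by
  ext i j
  rfl

omit [Fintype T] in
theorem L'_matrix (S : Sys ι T p) (t : T) {κ : Type} [Fintype κ] (x : κ → ι → ℚ) :
    (Matrix.of fun i j => S.L' t (x j) i) =
      S.A' t * (Matrix.of fun i j => ((x j i : ℚ) : ℚ_[p t])) := by
  ext i j
  rfl

theorem cast_det {F : Type*} [Field F] [CharZero F] (x : ι → ι → ℚ) :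
    (Matrix.of fun i j => ((x j i : ℚ) : F)).det = (((Matrix.of x).det : ℚ) : F) := by
  rw [← Matrix.det_transpose (Matrix.of x)]
  have := RingHom.map_det (Rat.castHom F) (Matrix.of x).transpose
  rw [eq_ratCast] at this
  rw [this]
  congr 1

theorem det_ne_zero_of_li {x : ι → ι → ℚ} (hx : LinearIndependent ℚ x) :
    (Matrix.of x).det ≠ 0 := by
  have h : IsUnit (Matrix.of x) := by
    rw [← Matrix.linearIndependent_rows_iff_isUnit]
    exact hx
  exact ((Matrix.isUnit_iff_isUnit_det _).mp h).ne_zero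

/-- MINKL -/
theorem minkLower (S : Sys ι T p) (hp : Function.Injective p) : ∃ c : ℝ, 0 < c ∧
    ∀ (a : ι → ℝ) (a' : T → ι → ℝ), (∀ i, 0 < a i) → (∀ t i, 0 < a' t i) →
    ∀ x : ι → ι → ℚ, LinearIndependent ℚ x → (∀ j, PVec (pprod p) (x j)) →
      c ≤ (∏ j, S.N a a' (x j)) * wprod a a' := by
  set F : ℝ := ((Fintype.card ι).factorial : ℝ) with hF
  have hF0 : 0 < F := Nat.cast_pos.mpr (Nat.factorial_pos _)
  set D : ℝ := ‖S.A.det‖ * ∏ t, ‖(S.A' t).det‖ with hD
  have hD0 : 0 < D := mul_pos (norm_pos_iff.mpr S.detA)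
    (Finset.prod_pos fun t _ => norm_pos_iff.mpr (S.detA' t))
  refine ⟨D / (F * ∏ _t : T, F), div_pos hD0 (mul_pos hF0 (Finset.prod_pos fun _ _ => hF0)), ?_⟩
  intro a a' ha ha' x hx hxP
  have hdet := det_ne_zero_of_li hx
  have hPi : PInt (pprod p) (Matrix.of x).det := det_PInt fun i j => hxP i j
  have hprod := one_le_prod_norm hp hdet hPi
  have h1 : ‖S.A.det‖ * ‖(((Matrix.of x).det : ℚ) : ℝ)‖ ≤
      F * ((∏ i, a i) * ∏ j, S.Ninf a (x j)) := by
    have h := norm_det_le (Matrix.of fun i j => S.L (x j) i) a (fun j => S.Ninf a (x j))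
      (fun i j => norm_L_le S a ha (x j) i)
    rw [L_matrix, Matrix.det_mul, cast_det, norm_mul] at h
    exact h
  have h2 : ∀ t, ‖(S.A' t).det‖ * ‖(((Matrix.of x).det : ℚ) : ℚ_[p t])‖ ≤
      F * ((∏ i, a' t i) * ∏ j, S.Np t (a' t) (x j)) := by
    intro t
    have h := norm_det_le (Matrix.of fun i j => S.L' t (x j) i) (a' t)
      (fun j => S.Np t (a' t) (x j))
      (fun i j => norm_L'_le S t (a' t) (ha' t) (x j) i)
    rw [L'_matrix, Matrix.det_mul, cast_det, norm_mul] at h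
    exact h
  have h3 : (‖S.A.det‖ * ‖(((Matrix.of x).det : ℚ) : ℝ)‖) *
      ∏ t, (‖(S.A' t).det‖ * ‖(((Matrix.of x).det : ℚ) : ℚ_[p t])‖) ≤
      (F * ((∏ i, a i) * ∏ j, S.Ninf a (x j))) *
        ∏ t, (F * ((∏ i, a' t i) * ∏ j, S.Np t (a' t) (x j))) := by
    refine mul_le_mul h1 (Finset.prod_le_prod (fun t _ => mul_nonneg (norm_nonneg _)
      (norm_nonneg _)) fun t _ => h2 t) (Finset.prod_nonneg fun t _ => mul_nonneg (norm_nonneg _)
      (norm_nonneg _)) ?_
    exact le_trans (mul_nonneg (norm_nonneg _) (norm_nonneg _)) h1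
  rw [div_le_iff₀ (mul_pos hF0 (Finset.prod_pos fun _ _ => hF0))]
  have h4 : (‖S.A.det‖ * ‖(((Matrix.of x).det : ℚ) : ℝ)‖) *
      ∏ t, (‖(S.A' t).det‖ * ‖(((Matrix.of x).det : ℚ) : ℚ_[p t])‖) =
      D * (‖(((Matrix.of x).det : ℚ) : ℝ)‖ *
        ∏ t, ‖(((Matrix.of x).det : ℚ) : ℚ_[p t])‖) := by
    rw [Finset.prod_mul_distrib, hD]
    ring
  have h5 : (F * ((∏ i, a i) * ∏ j, S.Ninf a (x j))) *
        ∏ t, (F * ((∏ i, a' t i) * ∏ j, S.Np t (a' t) (x j))) =
      (∏ j, S.N a a' (x j)) * wprod a a' * (F * ∏ _t : T, F) := by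
    have h6 : ∏ j, S.N a a' (x j) = (∏ j, S.Ninf a (x j)) * ∏ t, ∏ j, S.Np t (a' t) (x j) := by
      unfold Sys.N
      rw [Finset.prod_mul_distrib, Finset.prod_comm]
    rw [h6, Finset.prod_mul_distrib, Finset.prod_mul_distrib]
    unfold wprod
    ring
  rw [h4, h5] at h3
  calc D = D * 1 := (mul_one _).symm
    _ ≤ D * (‖(((Matrix.of x).det : ℚ) : ℝ)‖ *
        ∏ t, ‖(((Matrix.of x).det : ℚ) : ℚ_[p t])‖) :=
      mul_le_mul_of_nonneg_left hprod hD0.le
    _ ≤ _ := h3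

end Pool.Agent.Helper1.Sub

end

section

namespace Pool.Agent.Helper10.Sub
end Pool.Agent.Helper10.Sub

set_option autoImplicit false

namespace Pool.Agent.Helper1.Sub

open Pool.Agent.Helper10.Sub Module

/-- Bound for the entries of the adjugate. -/
theorem norm_adjugate_le {κ : Type*} [Fintype κ] [DecidableEq κ] {F : Type*} [NormedField F]
    (M : Matrix κ κ F) (a : κ → ℝ) (ha : ∀ i, 0 < a i) (N : κ → ℝ) (hN : ∀ i, 0 ≤ N i)
    (hM : ∀ i j, ‖M i j‖ ≤ a i * N j) (i j : κ) :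
    ‖M.adjugate j i‖ * a i * N j ≤ (Fintype.card κ).factorial * ((∏ i, a i) * ∏ j, N j) := by
  have hR : 0 ≤ ((Fintype.card κ).factorial : ℝ) * ((∏ i, a i) * ∏ j, N j) :=
    mul_nonneg (Nat.cast_nonneg _) (mul_nonneg (Finset.prod_nonneg fun i _ => (ha i).le)
      (Finset.prod_nonneg fun i _ => hN i))
  rcases (hN j).eq_or_lt with h0 | h0
  · rw [← h0, mul_zero]
    exact hR
  rw [Matrix.adjugate_apply]
  have h := norm_det_le (M.updateRow i (Pi.single j 1)) (Function.update a i (N j)⁻¹) N (by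
    intro k l
    rw [Matrix.updateRow_apply]
    by_cases hk : k = i
    · subst hk
      rw [if_pos rfl, Function.update_self]
      by_cases hl : l = j
      · subst hl
        rw [Pi.single_eq_same, norm_one, inv_mul_cancel₀ h0.ne']
      · rw [Pi.single_eq_of_ne hl, norm_zero]
        exact mul_nonneg (inv_nonneg.mpr h0.le) (hN l)
    · rw [if_neg hk, Function.update_of_ne hk]
      exact hM k l)
  rw [Finset.prod_update_of_mem (Finset.mem_univ i)] at h
  have h1 : ∏ k, a k = a i * ∏ k ∈ Finset.univ \ {i}, a k := by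
    rw [Finset.prod_eq_mul_prod_sdiff_singleton_of_mem (Finset.mem_univ i)]
  have h2 : 0 < a i * N j := mul_pos (ha i) h0
  calc ‖(M.updateRow i (Pi.single j 1)).det‖ * a i * N j
      = ‖(M.updateRow i (Pi.single j 1)).det‖ * (a i * N j) := by ring
    _ ≤ (Fintype.card κ).factorial * (((N j)⁻¹ * ∏ x ∈ Finset.univ \ {i}, a x) * ∏ j, N j) *
        (a i * N j) := mul_le_mul_of_nonneg_right h h2.le
    _ = (Fintype.card κ).factorial * ((a i * ∏ x ∈ Finset.univ \ {i}, a x) * ∏ j, N j) *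
        ((N j)⁻¹ * N j) := by ring
    _ = _ := by rw [inv_mul_cancel₀ h0.ne', mul_one, ← h1]

variable {ι : Type} [Fintype ι] [DecidableEq ι] {T : Type} [Fintype T] {p : T → ℕ}
  [∀ t, Fact (p t).Prime]

/-- The dual vectors: rows of the adjugate of the matrix with columns `x l`. -/
noncomputable def dvec (x : ι → ι → ℚ) (j : ι) : ι → ℚ :=
  fun k => (Matrix.of fun i l => x l i).adjugate j k

theorem dual_entry {F : Type*} [Field F] [CharZero F] (A : Matrix ι ι F) (x : ι → ι → ℚ)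
    (j i : ι) :
    ∑ k, (A⁻¹).transpose i k * ((dvec x j k : ℚ) : F) =
      (A.det)⁻¹ * (Matrix.of fun i l => ∑ k, A i k * ((x l k : ℚ) : F)).adjugate j i := by
  set X : Matrix ι ι ℚ := Matrix.of fun i l => x l i with hX
  have hcast : ∀ k, ((dvec x j k : ℚ) : F) = (X.map (Rat.castHom F)).adjugate j k := by
    intro k
    have h := RingHom.map_adjugate (Rat.castHom F) X
    have h2 := congrFun (congrFun h j) k
    exact h2
  have hM : (Matrix.of fun i l => ∑ k, A i k * ((x l k : ℚ) : F)) = A * X.map (Rat.castHom F) := by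
    ext i l
    rfl
  rw [hM, Matrix.adjugate_mul_distrib, Matrix.mul_apply, Finset.mul_sum]
  refine Finset.sum_congr rfl fun k _ => ?_
  rw [hcast, Matrix.transpose_apply, Matrix.inv_def, Matrix.smul_apply, smul_eq_mul,
    Ring.inverse_eq_inv']
  ring

omit [Fintype T] in
theorem dual_Ninf_le (S : Sys ι T p) (a : ι → ℝ) (ha : ∀ i, 0 < a i) (x : ι → ι → ℚ) (j : ι) :
    S.dual.Ninf (fun i => (a i)⁻¹) (dvec x j) * S.Ninf a (x j) ≤
      ((Fintype.card ι).factorial * ‖S.A.det‖⁻¹) * ((∏ i, a i) * ∏ l, S.Ninf a (x l)) := by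
  have hR : 0 ≤ ((Fintype.card ι).factorial * ‖S.A.det‖⁻¹) *
      ((∏ i, a i) * ∏ l, S.Ninf a (x l)) :=
    mul_nonneg (mul_nonneg (Nat.cast_nonneg _) (inv_nonneg.mpr (norm_nonneg _)))
      (mul_nonneg (Finset.prod_nonneg fun i _ => (ha i).le)
      (Finset.prod_nonneg fun i _ => norm_nonneg _))
  have h00 : 0 ≤ S.Ninf a (x j) := norm_nonneg _
  rcases h00.eq_or_lt with h0 | h0
  · rw [← h0, mul_zero]
    exact hR
  rw [← le_div_iff₀ h0]
  change ‖fun i => S.dual.L (dvec x j) i / (a i)⁻¹‖ ≤ _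
  rw [pi_norm_le_iff_of_nonneg (div_nonneg hR h0.le)]
  intro i
  have h1 := norm_adjugate_le (Matrix.of fun i l => S.L (x l) i) a ha
    (fun l => S.Ninf a (x l)) (fun l => norm_nonneg _) (fun i l => norm_L_le S a ha (x l) i) i j
  have h2 : S.dual.L (dvec x j) i = (S.A.det)⁻¹ *
      (Matrix.of fun i l => S.L (x l) i).adjugate j i := dual_entry S.A x j i
  rw [h2, div_inv_eq_mul, norm_mul, norm_mul, norm_inv, Real.norm_of_nonneg (ha i).le,
    le_div_iff₀ h0]
  have h3 : 0 ≤ ‖S.A.det‖⁻¹ := inv_nonneg.mpr (norm_nonneg _)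
  calc ‖S.A.det‖⁻¹ * ‖(Matrix.of fun i l => S.L (x l) i).adjugate j i‖ * a i * S.Ninf a (x j)
      = ‖S.A.det‖⁻¹ * (‖(Matrix.of fun i l => S.L (x l) i).adjugate j i‖ * a i *
        S.Ninf a (x j)) := by ring
    _ ≤ ‖S.A.det‖⁻¹ * ((Fintype.card ι).factorial *
        ((∏ i, a i) * ∏ l, S.Ninf a (x l))) := mul_le_mul_of_nonneg_left h1 h3
    _ = _ := by ring

omit [Fintype T] in
theorem dual_Np_le (S : Sys ι T p) (t : T) (a : ι → ℝ) (ha : ∀ i, 0 < a i) (x : ι → ι → ℚ)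
    (j : ι) :
    S.dual.Np t (fun i => (a i)⁻¹) (dvec x j) * S.Np t a (x j) ≤
      ((Fintype.card ι).factorial * ‖(S.A' t).det‖⁻¹) * ((∏ i, a i) * ∏ l, S.Np t a (x l)) := by
  have hR : 0 ≤ ((Fintype.card ι).factorial * ‖(S.A' t).det‖⁻¹) *
      ((∏ i, a i) * ∏ l, S.Np t a (x l)) :=
    mul_nonneg (mul_nonneg (Nat.cast_nonneg _) (inv_nonneg.mpr (norm_nonneg _)))
      (mul_nonneg (Finset.prod_nonneg fun i _ => (ha i).le)
      (Finset.prod_nonneg fun i _ => norm_nonneg _))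
  have h00 : 0 ≤ S.Np t a (x j) := norm_nonneg _
  rcases h00.eq_or_lt with h0 | h0
  · rw [← h0, mul_zero]
    exact hR
  rw [← le_div_iff₀ h0]
  change ‖fun i => ‖S.dual.L' t (dvec x j) i‖ / (a i)⁻¹‖ ≤ _
  rw [pi_norm_le_iff_of_nonneg (div_nonneg hR h0.le)]
  intro i
  have h1 := norm_adjugate_le (Matrix.of fun i l => S.L' t (x l) i) a ha
    (fun l => S.Np t a (x l)) (fun l => norm_nonneg _) (fun i l => norm_L'_le S t a ha (x l) i) i j
  have h2 : S.dual.L' t (dvec x j) i = ((S.A' t).det)⁻¹ *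
      (Matrix.of fun i l => S.L' t (x l) i).adjugate j i := dual_entry (S.A' t) x j i
  rw [h2, div_inv_eq_mul, norm_mul, norm_norm, norm_mul, norm_inv,
    Real.norm_of_nonneg (ha i).le, le_div_iff₀ h0]
  have h3 : 0 ≤ ‖(S.A' t).det‖⁻¹ := inv_nonneg.mpr (norm_nonneg _)
  calc ‖(S.A' t).det‖⁻¹ * ‖(Matrix.of fun i l => S.L' t (x l) i).adjugate j i‖ * a i *
        S.Np t a (x j)
      = ‖(S.A' t).det‖⁻¹ * (‖(Matrix.of fun i l => S.L' t (x l) i).adjugate j i‖ * a i *
        S.Np t a (x j)) := by ring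
    _ ≤ ‖(S.A' t).det‖⁻¹ * ((Fintype.card ι).factorial *
        ((∏ i, a i) * ∏ l, S.Np t a (x l))) := mul_le_mul_of_nonneg_left h1 h3
    _ = _ := by ring

theorem dvec_li {x : ι → ι → ℚ} (hx : LinearIndependent ℚ x) :
    LinearIndependent ℚ (dvec x) := by
  have h1 := det_ne_zero_of_li hx
  have h2 : (Matrix.of fun i l => x l i).det ≠ 0 := by
    rw [← Matrix.det_transpose]
    exact h1
  have h3 : IsUnit (Matrix.of fun i l => x l i).adjugate := by
    rw [Matrix.isUnit_iff_isUnit_det, Matrix.det_adjugate]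
    exact (isUnit_iff_ne_zero.mpr h2).pow _
  rw [← Matrix.linearIndependent_rows_iff_isUnit] at h3
  exact h3

theorem dvec_orth (x : ι → ι → ℚ) {j l : ι} (hjl : j ≠ l) : ∑ i, dvec x j i * x l i = 0 := by
  have h := congrFun (congrFun (Matrix.adjugate_mul (Matrix.of fun i l => x l i)) j) l
  rw [Matrix.mul_apply, Matrix.smul_apply, Matrix.one_apply_ne hjl, smul_zero] at h
  exact h

theorem dvec_PVec {P : ℕ} {x : ι → ι → ℚ} (hx : ∀ j, PVec P (x j)) (j : ι) :
    PVec P (dvec x j) := by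
  intro k
  unfold dvec
  rw [Matrix.adjugate_apply]
  refine det_PInt fun a b => ?_
  rw [Matrix.updateRow_apply]
  split_ifs
  · rw [Pi.single_apply]
    split_ifs
    · exact (pSub P).one_mem
    · exact (pSub P).zero_mem
  · exact hx b a

/-- DUAL, for families indexed by `ι`. -/
theorem dualMin' (S : Sys ι T p) : ∃ C : ℝ, 0 < C ∧
    ∀ (a : ι → ℝ) (a' : T → ι → ℝ), (∀ i, 0 < a i) → (∀ t i, 0 < a' t i) →
    ∀ (x : ι → ι → ℚ) (j : ι),
      S.dual.N (fun i => (a i)⁻¹) (fun t i => (a' t i)⁻¹) (dvec x j) * S.N a a' (x j) ≤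
        C * (∏ l, S.N a a' (x l)) * wprod a a' := by
  set F : ℝ := ((Fintype.card ι).factorial : ℝ) with hF
  have hF0 : 0 < F := Nat.cast_pos.mpr (Nat.factorial_pos _)
  refine ⟨(F * ‖S.A.det‖⁻¹) * ∏ t, (F * ‖(S.A' t).det‖⁻¹),
    mul_pos (mul_pos hF0 (inv_pos.mpr (norm_pos_iff.mpr S.detA)))
      (Finset.prod_pos fun t _ => mul_pos hF0 (inv_pos.mpr (norm_pos_iff.mpr (S.detA' t)))), ?_⟩
  intro a a' ha ha' x j
  have h1 := dual_Ninf_le S a ha x j
  have h2 := fun t => dual_Np_le S t (a' t) (ha' t) x j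
  have h3 : (S.dual.Ninf (fun i => (a i)⁻¹) (dvec x j) * S.Ninf a (x j)) *
      ∏ t, (S.dual.Np t (fun i => (a' t i)⁻¹) (dvec x j) * S.Np t (a' t) (x j)) ≤
      ((F * ‖S.A.det‖⁻¹) * ((∏ i, a i) * ∏ l, S.Ninf a (x l))) *
      ∏ t, ((F * ‖(S.A' t).det‖⁻¹) * ((∏ i, a' t i) * ∏ l, S.Np t (a' t) (x l))) := by
    refine mul_le_mul h1 (Finset.prod_le_prod (fun t _ => mul_nonneg (norm_nonneg _)
      (norm_nonneg _)) fun t _ => h2 t) (Finset.prod_nonneg fun t _ => mul_nonneg (norm_nonneg _)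
      (norm_nonneg _)) ?_
    exact le_trans (mul_nonneg (norm_nonneg _) (norm_nonneg _)) h1
  have h4 : ∏ l, S.N a a' (x l) = (∏ l, S.Ninf a (x l)) * ∏ t, ∏ l, S.Np t (a' t) (x l) := by
    unfold Sys.N
    rw [Finset.prod_mul_distrib, Finset.prod_comm]
  calc S.dual.N (fun i => (a i)⁻¹) (fun t i => (a' t i)⁻¹) (dvec x j) * S.N a a' (x j)
      = (S.dual.Ninf (fun i => (a i)⁻¹) (dvec x j) * S.Ninf a (x j)) *
      ∏ t, (S.dual.Np t (fun i => (a' t i)⁻¹) (dvec x j) * S.Np t (a' t) (x j)) := by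
        unfold Sys.N
        rw [Finset.prod_mul_distrib]
        ring
    _ ≤ _ := h3
    _ = _ := by
        have h5 : ∏ t, ((F * ‖(S.A' t).det‖⁻¹) * ((∏ i, a' t i) * ∏ l, S.Np t (a' t) (x l))) =
            (∏ t, (F * ‖(S.A' t).det‖⁻¹)) * ((∏ t, ∏ i, a' t i) *
              ∏ t, ∏ l, S.Np t (a' t) (x l)) := by
          rw [Finset.prod_mul_distrib]
          congr 1
          rw [Finset.prod_mul_distrib]
        rw [h4, h5]
        unfold wprod
        ring

/-- DUAL -/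
theorem dualMin (S : Sys ι T p) (_hι : 1 ≤ Fintype.card ι) : ∃ C : ℝ, 0 < C ∧
    ∀ (a : ι → ℝ) (a' : T → ι → ℝ), (∀ i, 0 < a i) → (∀ t i, 0 < a' t i) →
    ∀ x : Fin (Fintype.card ι) → ι → ℚ, LinearIndependent ℚ x → (∀ j, PVec (pprod p) (x j)) →
    ∃ y : Fin (Fintype.card ι) → ι → ℚ, LinearIndependent ℚ y ∧ (∀ j, PVec (pprod p) (y j)) ∧
      (∀ j l, j ≠ l → ∑ i, y j i * x l i = 0) ∧
      ∀ j, S.dual.N (fun i => (a i)⁻¹) (fun t i => (a' t i)⁻¹) (y j) * S.N a a' (x j) ≤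
        C * (∏ l, S.N a a' (x l)) * wprod a a' := by
  obtain ⟨C, hC, h⟩ := dualMin' S
  refine ⟨C, hC, ?_⟩
  intro a a' ha ha' x hx hxP
  set e : Fin (Fintype.card ι) ≃ ι := (Fintype.equivFin ι).symm with he
  set x' : ι → ι → ℚ := fun i => x (e.symm i) with hx'
  have hli : LinearIndependent ℚ x' := hx.comp e.symm e.symm.injective
  refine ⟨fun j => dvec x' (e j), (dvec_li hli).comp e e.injective,
    fun j => dvec_PVec (fun i => hxP _) _, ?_, ?_⟩
  · intro j l hjl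
    have h1 := dvec_orth x' (j := e j) (l := e l) (fun h => hjl (e.injective h))
    simpa [hx'] using h1
  · intro j
    have h1 := h a a' ha ha' x' (e j)
    have h2 : x' (e j) = x j := by simp [hx']
    have h3 : ∏ l, S.N a a' (x' l) = ∏ l, S.N a a' (x l) := by
      rw [← Equiv.prod_comp e]
      refine Finset.prod_congr rfl fun l _ => ?_
      simp [hx']
    rw [h2, h3] at h1
    exact h1

end Pool.Agent.Helper1.Sub

end

section

namespace Pool.Agent.Helper10.Sub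
end Pool.Agent.Helper10.Sub

/-!
# Subspace theorem project: Minkowski's first theorem over `ℤ[1/P]` by the pigeonhole principle
-/

set_option autoImplicit false

namespace Pool.Agent.Helper68.Sub

open Pool.Agent.Helper10.Sub Finset Filter

section arith

variable {T : Type*} [Fintype T] {p : T → ℕ} [∀ t, Fact (p t).Prime]

lemma pprod_pos : 0 < pprod p := Finset.prod_pos fun t _ => (Fact.out : (p t).Prime).pos

lemma norm_prime_of_ne (hp : Function.Injective p) {s t : T} (h : s ≠ t) :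
    ‖((p s : ℕ) : ℚ_[p t])‖ = 1 := by
  rw [Padic.norm_natCast_eq_one_iff]
  exact (Nat.coprime_primes Fact.out Fact.out).mpr fun h' => h (hp h').symm

lemma norm_pprod (hp : Function.Injective p) (t : T) :
    ‖((pprod p : ℕ) : ℚ_[p t])‖ = (p t : ℝ)⁻¹ := by
  classical
  rw [pprod, Nat.cast_prod, norm_prod, Finset.prod_eq_single t]
  · exact Padic.norm_p
  · intro s _ hs
    exact norm_prime_of_ne hp hs
  · intro h; exact absurd (mem_univ _) h

/-- The product formula inequality for integers. -/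
lemma one_le_abs_mul_prod (hp : Function.Injective p) (g : ℤ) (hg : g ≠ 0) :
    1 ≤ |(g : ℝ)| * ∏ t, ‖(g : ℚ_[p t])‖ := by
  classical
  have hv : ∀ t, ∃ v : ℕ, ‖(g : ℚ_[p t])‖ = ((p t : ℝ) ^ v)⁻¹ ∧ ((p t : ℤ) ^ v) ∣ g := by
    intro t
    have hg' : (g : ℚ_[p t]) ≠ 0 := by exact_mod_cast hg
    have h1 := Padic.norm_eq_zpow_neg_valuation hg'
    rw [Padic.valuation_intCast] at h1
    refine ⟨padicValInt (p t) g, ?_, ?_⟩
    · rw [h1, zpow_neg, zpow_natCast]
    · have := (Padic.norm_int_le_pow_iff_dvd (p := p t) g (padicValInt (p t) g)).mp h1.le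
      exact_mod_cast this
  choose v hv1 hv2 using hv
  have hdvd : (∏ t, (p t : ℤ) ^ v t) ∣ g := by
    refine Finset.prod_dvd_of_coprime ?_ fun t _ => hv2 t
    intro s _ t _ hst
    refine IsCoprime.pow ?_
    rw [Nat.isCoprime_iff_coprime]
    exact (Nat.coprime_primes Fact.out Fact.out).mpr fun h' => hst (hp h')
  have hle : ((∏ t, (p t : ℤ) ^ v t : ℤ) : ℝ) ≤ |(g : ℝ)| := by
    have h1 := Int.le_of_dvd (abs_pos.mpr hg) ((dvd_abs _ _).mpr hdvd)
    calc ((∏ t, (p t : ℤ) ^ v t : ℤ) : ℝ) ≤ ((|g| : ℤ) : ℝ) := by exact_mod_cast h1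
      _ = |(g : ℝ)| := Int.cast_abs
  have hpos : 0 < ∏ t, (p t : ℝ) ^ v t := Finset.prod_pos fun t _ =>
    pow_pos (by exact_mod_cast (Fact.out : (p t).Prime).pos) _
  calc (1 : ℝ) = (∏ t, (p t : ℝ) ^ v t) * (∏ t, (p t : ℝ) ^ v t)⁻¹ := by
        rw [mul_inv_cancel₀ hpos.ne']
    _ ≤ |(g : ℝ)| * (∏ t, (p t : ℝ) ^ v t)⁻¹ := by
        refine mul_le_mul_of_nonneg_right ?_ (inv_nonneg.mpr hpos.le)
        push_cast at hle
        exact hle
    _ = _ := by
        congr 1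
        rw [← Finset.prod_inv_distrib]
        exact Finset.prod_congr rfl fun t _ => (hv1 t).symm

end arith

set_option linter.unusedSectionVars false

variable {ι : Type*} [Fintype ι] [DecidableEq ι] {T : Type*} [Fintype T] {p : T → ℕ}
  [∀ t, Fact (p t).Prime]

/-- The data needed for the `p`-adic classes. -/
lemma exists_padic_class (q : ℕ) [Fact q.Prime] (β : ι → ℚ_[q]) (u w : ℕ)
    (hu : ∀ j, ‖(q : ℚ_[q]) ^ u * β j‖ ≤ 1) :
    ∃ f : (ι → ℤ) → ZMod (q ^ w), ∀ m m', f m = f m' →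
      ‖∑ j, β j * ((m j - m' j : ℤ) : ℚ_[q])‖ ≤ (q : ℝ) ^ u / (q : ℝ) ^ w := by
  let b : ι → ℤ_[q] := fun j => ⟨(q : ℚ_[q]) ^ u * β j, hu j⟩
  refine ⟨fun m => PadicInt.toZModPow w (∑ j, b j * (m j : ℤ_[q])), ?_⟩
  intro m m' h
  have h1 : PadicInt.toZModPow w (∑ j, b j * ((m j - m' j : ℤ) : ℤ_[q])) = 0 := by
    have : ∑ j, b j * ((m j - m' j : ℤ) : ℤ_[q]) =
        ∑ j, b j * (m j : ℤ_[q]) - ∑ j, b j * (m' j : ℤ_[q]) := by
      rw [← Finset.sum_sub_distrib]
      refine Finset.sum_congr rfl fun j _ => ?_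
      push_cast
      ring
    rw [this, map_sub, sub_eq_zero]
    exact h
  have h2 := (RingHom.mem_ker (f := PadicInt.toZModPow w)).mpr h1
  rw [PadicInt.ker_toZModPow, ← PadicInt.norm_le_pow_iff_mem_span_pow] at h2
  have h3 : ‖((∑ j, b j * ((m j - m' j : ℤ) : ℤ_[q]) : ℤ_[q]) : ℚ_[q])‖ ≤ (q : ℝ) ^ (-(w : ℤ)) := h2
  have h4 : ((∑ j, b j * ((m j - m' j : ℤ) : ℤ_[q]) : ℤ_[q]) : ℚ_[q]) =
      (q : ℚ_[q]) ^ u * ∑ j, β j * ((m j - m' j : ℤ) : ℚ_[q]) := by
    rw [PadicInt.coe_sum, Finset.mul_sum]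
    refine Finset.sum_congr rfl fun j _ => ?_
    rw [PadicInt.coe_mul, PadicInt.coe_intCast, ← mul_assoc]
  have hq : (0 : ℝ) < q := by exact_mod_cast (Fact.out : q.Prime).pos
  rw [h4, norm_mul, norm_pow, Padic.norm_p, zpow_neg, zpow_natCast, inv_pow] at h3
  rw [div_eq_mul_inv]
  calc ‖∑ j, β j * ((m j - m' j : ℤ) : ℚ_[q])‖
      = (q : ℝ) ^ u * (((q : ℝ) ^ u)⁻¹ * ‖∑ j, β j * ((m j - m' j : ℤ) : ℚ_[q])‖) := by
        rw [← mul_assoc, mul_inv_cancel₀ (pow_pos hq u).ne', one_mul]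
    _ ≤ (q : ℝ) ^ u * ((q : ℝ) ^ w)⁻¹ := mul_le_mul_of_nonneg_left h3 (pow_pos hq u).le

lemma exists_exponent (q : ℕ) [Fact q.Prime] (z : ℚ_[q]) : ∃ u₀ : ℕ, ∀ u ≥ u₀,
    ‖(q : ℚ_[q]) ^ u * z‖ ≤ 1 := by
  have hq : (1 : ℝ) < q := by exact_mod_cast (Fact.out : q.Prime).one_lt
  obtain ⟨u₀, hu₀⟩ := pow_unbounded_of_one_lt ‖z‖ hq
  refine ⟨u₀, fun u hu => ?_⟩
  have h1 : ‖z‖ ≤ (q : ℝ) ^ u := hu₀.le.trans (pow_le_pow_right₀ hq.le hu)
  have h2 : (0 : ℝ) < (q : ℝ) ^ u := by positivity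
  rw [norm_mul, norm_pow, Padic.norm_p, inv_pow]
  calc ((q : ℝ) ^ u)⁻¹ * ‖z‖ ≤ ((q : ℝ) ^ u)⁻¹ * (q : ℝ) ^ u :=
        mul_le_mul_of_nonneg_left h1 (inv_nonneg.mpr h2.le)
    _ = 1 := inv_mul_cancel₀ h2.ne'

/-- Counting part of the pigeonhole argument. -/
lemma exists_large_K (R : ℝ) (ρ : ι → ℝ) (hρ : ∀ i, 0 < ρ i) (C₂ Aw Q : ℝ) (hAw : 0 < Aw) (h : (2 * R) ^ Fintype.card ι * C₂ < (∏ i, ρ i) * Aw) :
    ∃ K : ℕ, 0 < K ∧ (∏ i, (2 * R * K / ρ i + Q)) * (C₂ / Aw) < (K : ℝ) ^ Fintype.card ι := by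
  have hprod : 0 < ∏ i, ρ i := Finset.prod_pos fun i _ => hρ i
  have hlim : Tendsto (fun K : ℕ => (∏ i, (2 * R / ρ i + Q / K)) * (C₂ / Aw)) atTop
      (nhds ((∏ i, (2 * R / ρ i + 0)) * (C₂ / Aw))) := by
    refine Tendsto.mul_const _ (tendsto_finsetProd _ fun i _ => ?_)
    exact tendsto_const_nhds.add (tendsto_const_div_atTop_nhds_zero_nat Q)
  have hlt : (∏ i, (2 * R / ρ i + 0)) * (C₂ / Aw) < 1 := by
    simp only [add_zero]
    rw [Finset.prod_div_distrib, Finset.prod_const, Finset.card_univ, div_mul_div_comm,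
      div_lt_one (mul_pos hprod hAw)]
    exact h
  obtain ⟨K, hK1, hK2⟩ := ((hlim.eventually_lt_const hlt).and (eventually_gt_atTop 0)).exists
  have hK0 : (0 : ℝ) < K := by exact_mod_cast hK2
  refine ⟨K, hK2, ?_⟩
  have h2 : (∏ i, (2 * R * K / ρ i + Q)) = (K : ℝ) ^ Fintype.card ι * ∏ i, (2 * R / ρ i + Q / K) := by
    rw [← Finset.card_univ, ← Finset.prod_const, ← Finset.prod_mul_distrib]
    refine Finset.prod_congr rfl fun i _ => ?_
    have := (hρ i).ne'
    field_simp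
  rw [h2, mul_assoc]
  calc _ < (K : ℝ) ^ Fintype.card ι * 1 := mul_lt_mul_of_pos_left hK1 (by positivity)
    _ = _ := mul_one _

/-- **Minkowski's first theorem** over `ℤ[1/P]` (with a non explicit constant). -/
theorem mink1 (S : Sys ι T p) (hp : Function.Injective p) : ∃ C₁ : ℝ, 0 < C₁ ∧
    ∀ (ρ : ι → ℝ) (a' : T → ι → ℝ), (∀ i, 0 < ρ i) → (∀ t i, 0 < a' t i) →
      C₁ < (∏ i, ρ i) * ∏ t, ∏ i, a' t i →
      ∃ y : ι → ℚ, y ≠ 0 ∧ PVec (pprod p) y ∧ (∀ i, |S.L y i| < ρ i) ∧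
        (∀ t i, ‖S.L' t y i‖ ≤ a' t i) := by
  classical
  -- constants
  obtain ⟨R, hR, hRA⟩ : ∃ R : ℝ, 0 < R ∧ ∀ i, ∑ j, |S.A i j| ≤ R := by
    refine ⟨1 + ∑ i, ∑ j, |S.A i j|, by positivity, fun i => ?_⟩
    have h1 : ∑ j, |S.A i j| ≤ ∑ i, ∑ j, |S.A i j| :=
      Finset.single_le_sum (f := fun i => ∑ j, |S.A i j|)
        (fun i _ => Finset.sum_nonneg fun j _ => abs_nonneg _) (mem_univ i)
    linarith
  have hu : ∀ t, ∃ u : ℕ, ∀ i j, ‖(p t : ℚ_[p t]) ^ u * S.A' t i j‖ ≤ 1 := by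
    intro t
    choose v hv using fun (q : ι × ι) => exists_exponent (p t) (S.A' t q.1 q.2)
    refine ⟨univ.sup v, fun i j => hv (i, j) _ (Finset.le_sup (mem_univ _))⟩
  choose u hu using hu
  have hpp : ∀ t, (1 : ℝ) < p t := fun t => by exact_mod_cast (Fact.out : (p t).Prime).one_lt
  have hp0 : ∀ t, (0 : ℝ) < p t := fun t => zero_lt_one.trans (hpp t)
  set C₂ : ℝ := ∏ t, ∏ _i : ι, (p t : ℝ) ^ (1 + u t) with hC₂def
  have hC₂ : 0 < C₂ := Finset.prod_pos fun t _ => Finset.prod_pos fun i _ => pow_pos (hp0 t) _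
  refine ⟨(2 * R) ^ Fintype.card ι * C₂, by positivity, ?_⟩
  intro ρ a' hρ ha' hlt
  have hAw : 0 < ∏ t, ∏ i, a' t i := Finset.prod_pos fun t _ => Finset.prod_pos fun i _ => ha' t i
  -- choice of `k`
  obtain ⟨k, hk⟩ : ∃ k : ℕ, ∀ t i, a' t i ≤ (p t : ℝ) ^ (u t + k) := by
    obtain ⟨k, hk⟩ := pow_unbounded_of_one_lt (∑ t, ∑ i, a' t i) (one_lt_two (α := ℝ))
    refine ⟨k, fun t i => ?_⟩
    have h1 : a' t i ≤ ∑ i, a' t i :=
      Finset.single_le_sum (f := fun i => a' t i) (fun i _ => (ha' t i).le) (mem_univ i)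
    have h2 : ∑ i, a' t i ≤ ∑ t, ∑ i, a' t i :=
      Finset.single_le_sum (f := fun t => ∑ i, a' t i)
        (fun t _ => Finset.sum_nonneg fun i _ => (ha' t i).le) (mem_univ t)
    have h3 : (2 : ℝ) ^ k ≤ (p t : ℝ) ^ k := by
      refine pow_le_pow_left₀ (by norm_num) ?_ k
      exact_mod_cast (Fact.out : (p t).Prime).two_le
    have h4 : (p t : ℝ) ^ k ≤ (p t : ℝ) ^ (u t + k) :=
      pow_le_pow_right₀ (hpp t).le (Nat.le_add_left _ _)
    linarith
  -- choice of `w`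
  have hw : ∀ t i, ∃ w : ℕ, (p t : ℝ) ^ (u t + k) / a' t i ≤ (p t : ℝ) ^ w ∧
      (p t : ℝ) ^ w ≤ (p t : ℝ) * ((p t : ℝ) ^ (u t + k) / a' t i) := by
    intro t i
    have h1 : 1 ≤ (p t : ℝ) ^ (u t + k) / a' t i := (one_le_div (ha' t i)).mpr (hk t i)
    obtain ⟨m, hm1, hm2⟩ := exists_nat_pow_near h1 (hpp t)
    refine ⟨m + 1, hm2.le, ?_⟩
    rw [pow_succ, mul_comm]
    exact mul_le_mul_of_nonneg_left hm1 (hp0 t).le
  choose w hw1 hw2 using hw
  set P : ℝ := ((pprod p : ℕ) : ℝ) with hPdef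
  have hP : 0 < P := Nat.cast_pos.mpr (pprod_pos (p := p))
  have hPk : 0 < P ^ k := pow_pos hP k
  -- choice of `K`
  obtain ⟨K, hK0, hK⟩ := exists_large_K R ρ hρ C₂ (∏ t, ∏ i, a' t i) (P ^ k) hAw hlt
  have hKr : (0 : ℝ) < K := by exact_mod_cast hK0
  -- number of classes
  let N : ι → ℕ := fun i => ⌊2 * R * K / (ρ i * P ^ k)⌋₊ + 1
  have : ∀ t i, NeZero (p t ^ w t i) := fun t i =>
    ⟨pow_ne_zero _ (Fact.out : (p t).Prime).ne_zero⟩
  have hcount : Fintype.card ((∀ i : ι, Fin (N i)) × (∀ t : T, ∀ i : ι, ZMod (p t ^ w t i))) <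
      Fintype.card (ι → Fin K) := by
    rw [Fintype.card_prod, Fintype.card_pi, Fintype.card_pi, Fintype.card_fun, Fintype.card_fin]
    simp only [Fintype.card_fin, Fintype.card_pi, ZMod.card]
    have h1 : ((∏ i, N i : ℕ) : ℝ) ≤ (∏ i, (2 * R * K / ρ i + P ^ k)) / P ^ (k * Fintype.card ι) := by
      rw [pow_mul, ← Finset.card_univ, ← Finset.prod_const, ← Finset.prod_div_distrib,
        Nat.cast_prod]
      refine Finset.prod_le_prod (fun i _ => by positivity) fun i _ => ?_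
      have h2 : (⌊2 * R * K / (ρ i * P ^ k)⌋₊ : ℝ) ≤ 2 * R * K / (ρ i * P ^ k) :=
        Nat.floor_le (by have := hρ i; positivity)
      have h3 : (2 * R * K / ρ i + P ^ k) / P ^ k = 2 * R * K / (ρ i * P ^ k) + 1 := by
        have := (hρ i).ne'
        field_simp
      rw [h3]
      push_cast [N]
      linarith
    have h2 : ((∏ t, ∏ i, p t ^ w t i : ℕ) : ℝ) ≤
        C₂ * P ^ (k * Fintype.card ι) / ∏ t, ∏ i, a' t i := by
      have h3 : C₂ * P ^ (k * Fintype.card ι) / ∏ t, ∏ i, a' t i =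
          ∏ t, ∏ i, ((p t : ℝ) * ((p t : ℝ) ^ (u t + k) / a' t i)) := by
        have h4 : P ^ (k * Fintype.card ι) = ∏ t, ∏ _i : ι, (p t : ℝ) ^ k := by
          rw [hPdef, pprod, pow_mul, Nat.cast_prod, ← Finset.prod_pow, ← Finset.prod_pow]
          simp only [Finset.prod_const, Finset.card_univ]
        rw [h4, hC₂def, ← Finset.prod_mul_distrib, ← Finset.prod_div_distrib]
        refine Finset.prod_congr rfl fun t _ => ?_
        rw [← Finset.prod_mul_distrib, ← Finset.prod_div_distrib]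
        refine Finset.prod_congr rfl fun i _ => ?_
        ring
      rw [h3]
      push_cast
      exact Finset.prod_le_prod (fun t _ => Finset.prod_nonneg fun i _ => by positivity)
        fun t _ => Finset.prod_le_prod (fun i _ => by positivity) fun i _ => hw2 t i
    have h5 : (((∏ i, N i) * (∏ t, ∏ i, p t ^ w t i) : ℕ) : ℝ) < ((K ^ Fintype.card ι : ℕ) : ℝ) := by
      push_cast at h1 h2 ⊢
      have hX : 0 ≤ ∏ i, (2 * R * K / ρ i + P ^ k) :=
        Finset.prod_nonneg fun i _ => by have := hρ i; positivity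
      calc (∏ i, (N i : ℝ)) * (∏ t, ∏ i, (p t : ℝ) ^ w t i)
          ≤ ((∏ i, (2 * R * K / ρ i + P ^ k)) / P ^ (k * Fintype.card ι)) *
            (C₂ * P ^ (k * Fintype.card ι) / ∏ t, ∏ i, a' t i) :=
            mul_le_mul h1 h2 (Finset.prod_nonneg fun t _ => Finset.prod_nonneg fun i _ => by
              positivity) (by positivity)
        _ = (∏ i, (2 * R * K / ρ i + P ^ k)) * (C₂ / ∏ t, ∏ i, a' t i) := by
            have : P ^ (k * Fintype.card ι) ≠ 0 := pow_ne_zero _ hP.ne'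
            field_simp
        _ < _ := hK
    exact_mod_cast h5
  -- the classes
  have hf := fun (t : T) (i : ι) => exists_padic_class (p t) (S.A' t i) (u t) (w t i) (hu t i)
  choose f hf using hf
  let F : (ι → ℤ) → ι → ℝ := fun m i => ∑ j, S.A i j * m j
  have hFbd : ∀ (c : ι → Fin K) (i : ι), |F (fun j => ((c j : ℕ) : ℤ)) i| ≤ R * K := by
    intro c i
    calc |F (fun j => ((c j : ℕ) : ℤ)) i| ≤ ∑ j, |S.A i j * (((c j : ℕ) : ℤ) : ℝ)| :=
          abs_sum_le_sum_abs _ _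
      _ ≤ ∑ j, |S.A i j| * K := by
          refine Finset.sum_le_sum fun j _ => ?_
          rw [abs_mul]
          refine mul_le_mul_of_nonneg_left ?_ (abs_nonneg _)
          rw [Int.cast_natCast, abs_of_nonneg (Nat.cast_nonneg _)]
          exact_mod_cast (c j).2.le
      _ = (∑ j, |S.A i j|) * K := by rw [Finset.sum_mul]
      _ ≤ R * K := mul_le_mul_of_nonneg_right (hRA i) hKr.le
  let G : (ι → Fin K) → (∀ i : ι, Fin (N i)) × (∀ t : T, ∀ i : ι, ZMod (p t ^ w t i)) := fun c =>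
    (fun i => ⟨⌊(F (fun j => ((c j : ℕ) : ℤ)) i + R * K) / (ρ i * P ^ k)⌋₊, by
      refine Nat.lt_succ_of_le (Nat.floor_le_floor ?_)
      refine div_le_div_of_nonneg_right ?_ (by have := hρ i; positivity)
      have := (abs_le.mp (hFbd c i)).2
      linarith⟩,
    fun t i => f t i (fun j => ((c j : ℕ) : ℤ)))
  obtain ⟨c, c', hcc', hG⟩ := Fintype.exists_ne_map_eq_of_card_lt G hcount
  have hG1 := congrArg Prod.fst hG
  have hG2 := congrArg Prod.snd hG
  set m : ι → ℤ := fun j => ((c j : ℕ) : ℤ) with hm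
  set m' : ι → ℤ := fun j => ((c' j : ℕ) : ℤ) with hm'
  set Pq : ℚ := ((pprod p : ℕ) : ℚ) with hPq
  have hPq0 : Pq ≠ 0 := by
    have := pprod_pos (p := p)
    rw [hPq]; exact_mod_cast this.ne'
  refine ⟨fun j => ((m j - m' j : ℤ) : ℚ) / Pq ^ k, ?_, ?_, ?_, ?_⟩
  · intro h
    apply hcc'
    funext j
    have h1 := congrFun h j
    simp only [Pi.zero_apply, div_eq_zero_iff, pow_eq_zero_iff', hPq0, false_and, or_false] at h1
    have h2 : m j - m' j = 0 := by exact_mod_cast h1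
    have h3 : ((c j : ℕ) : ℤ) = ((c' j : ℕ) : ℤ) := by linarith
    exact Fin.ext (by exact_mod_cast h3)
  · intro j
    refine ⟨k, m j - m' j, ?_⟩
    rw [div_mul_cancel₀ _ (pow_ne_zero _ hPq0)]
  · intro i
    have h1 := congrArg (fun z : (∀ i : ι, Fin (N i)) => ((z i : ℕ) : ℝ)) hG1
    have h1' : ((⌊(F m i + R * K) / (ρ i * P ^ k)⌋₊ : ℕ) : ℝ) =
      ((⌊(F m' i + R * K) / (ρ i * P ^ k)⌋₊ : ℕ) : ℝ) := h1
    have hd : 0 < ρ i * P ^ k := mul_pos (hρ i) hPk
    have e1 := Nat.lt_floor_add_one ((F m i + R * K) / (ρ i * P ^ k))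
    have e2 := Nat.lt_floor_add_one ((F m' i + R * K) / (ρ i * P ^ k))
    have n1 : 0 ≤ (F m i + R * K) / (ρ i * P ^ k) := by
      have := (abs_le.mp (hFbd c i)).1
      exact div_nonneg (by linarith) hd.le
    have n2 : 0 ≤ (F m' i + R * K) / (ρ i * P ^ k) := by
      have := (abs_le.mp (hFbd c' i)).1
      exact div_nonneg (by linarith) hd.le
    have e3 := Nat.floor_le n1
    have e4 := Nat.floor_le n2
    have e5 : |(F m i + R * K) / (ρ i * P ^ k) - (F m' i + R * K) / (ρ i * P ^ k)| < 1 := by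
      rw [abs_lt]; constructor <;> linarith
    have e6 : (F m i + R * K) / (ρ i * P ^ k) - (F m' i + R * K) / (ρ i * P ^ k) =
        (F m i - F m' i) / (ρ i * P ^ k) := by ring
    rw [e6, abs_div, abs_of_pos hd, div_lt_one hd] at e5
    have e7 : S.L (fun j => ((m j - m' j : ℤ) : ℚ) / Pq ^ k) i = (F m i - F m' i) / P ^ k := by
      simp only [Sys.L, F]
      rw [← Finset.sum_sub_distrib, Finset.sum_div]
      refine Finset.sum_congr rfl fun j _ => ?_
      rw [hPq, hPdef]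
      push_cast
      ring
    rw [e7, abs_div, abs_of_pos hPk, div_lt_iff₀ hPk]
    exact e5
  · intro t i
    have h1 : f t i m = f t i m' := congrFun (congrFun hG2 t) i
    have h2 := hf t i m m' h1
    have e7 : S.L' t (fun j => ((m j - m' j : ℤ) : ℚ) / Pq ^ k) i =
        (∑ j, S.A' t i j * ((m j - m' j : ℤ) : ℚ_[p t])) / ((pprod p : ℕ) : ℚ_[p t]) ^ k := by
      simp only [Sys.L']
      rw [Finset.sum_div]
      refine Finset.sum_congr rfl fun j _ => ?_
      rw [hPq]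
      push_cast
      ring
    rw [e7, norm_div, norm_pow, norm_pprod hp, inv_pow, div_inv_eq_mul]
    have hpk : (0 : ℝ) < (p t : ℝ) ^ k := pow_pos (hp0 t) k
    have hpw : (0 : ℝ) < (p t : ℝ) ^ w t i := pow_pos (hp0 t) _
    calc _ ≤ ((p t : ℝ) ^ u t / (p t : ℝ) ^ w t i) * (p t : ℝ) ^ k :=
          mul_le_mul_of_nonneg_right h2 hpk.le
      _ = (p t : ℝ) ^ (u t + k) / (p t : ℝ) ^ w t i := by rw [pow_add]; ring
      _ ≤ a' t i := by
          rw [div_le_iff₀ hpw]
          have h3 := hw1 t i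
          rw [div_le_iff₀ (ha' t i)] at h3
          rw [mul_comm]
          exact h3

end Pool.Agent.Helper68.Sub

end

section

namespace Pool.Agent.Helper10.Sub
end Pool.Agent.Helper10.Sub

/-!
# Subspace theorem project: successive minimal vectors exist
-/

set_option autoImplicit false

set_option linter.unusedSectionVars false

namespace Pool.Agent.Helper68.Sub

open Pool.Agent.Helper10.Sub Finset

variable {ι : Type*} [Fintype ι] [DecidableEq ι] {T : Type*} [Fintype T] {p : T → ℕ}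
  [∀ t, Fact (p t).Prime]

lemma L_smul (S : Sys ι T p) (c : ℚ) (x : ι → ℚ) (i : ι) :
    S.L (c • x) i = c * S.L x i := by
  simp only [Sys.L, Pi.smul_apply, smul_eq_mul, Rat.cast_mul, Finset.mul_sum]
  exact Finset.sum_congr rfl fun j _ => by ring

lemma L'_smul (S : Sys ι T p) (t : T) (c : ℚ) (x : ι → ℚ) (i : ι) :
    S.L' t (c • x) i = c * S.L' t x i := by
  simp only [Sys.L', Pi.smul_apply, smul_eq_mul, Rat.cast_mul, Finset.mul_sum]
  exact Finset.sum_congr rfl fun j _ => by ring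

lemma Ninf_smul (S : Sys ι T p) (a : ι → ℝ) (c : ℚ) (x : ι → ℚ) :
    S.Ninf a (c • x) = |(c : ℝ)| * S.Ninf a x := by
  simp only [Sys.Ninf]
  rw [← Real.norm_eq_abs, ← norm_smul]
  congr 1
  funext i
  rw [L_smul, Pi.smul_apply, smul_eq_mul, mul_div_assoc]

lemma Np_smul (S : Sys ι T p) (t : T) (a' : ι → ℝ) (c : ℚ) (x : ι → ℚ) :
    S.Np t a' (c • x) = ‖(c : ℚ_[p t])‖ * S.Np t a' x := by
  simp only [Sys.Np]
  rw [← norm_norm (c : ℚ_[p t]), ← norm_smul]
  congr 1
  funext i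
  rw [L'_smul, Pi.smul_apply, smul_eq_mul, norm_mul, mul_div_assoc]

lemma N_smul (S : Sys ι T p) (a : ι → ℝ) (a' : T → ι → ℝ) (c : ℚ) (x : ι → ℚ) :
    S.N a a' (c • x) = (|(c : ℝ)| * ∏ t, ‖(c : ℚ_[p t])‖) * S.N a a' x := by
  simp only [Sys.N]
  rw [Ninf_smul]
  simp only [Np_smul]
  rw [Finset.prod_mul_distrib]
  ring

lemma Ninf_nonneg (S : Sys ι T p) (a : ι → ℝ) (x : ι → ℚ) : 0 ≤ S.Ninf a x := norm_nonneg _

lemma Np_nonneg (S : Sys ι T p) (t : T) (a' : ι → ℝ) (x : ι → ℚ) : 0 ≤ S.Np t a' x :=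
  norm_nonneg _

lemma N_nonneg (S : Sys ι T p) (a : ι → ℝ) (a' : T → ι → ℝ) (x : ι → ℚ) : 0 ≤ S.N a a' x :=
  mul_nonneg (Ninf_nonneg _ _ _) (Finset.prod_nonneg fun _ _ => Np_nonneg _ _ _ _)

lemma abs_L_le (S : Sys ι T p) (a : ι → ℝ) (ha : ∀ i, 0 < a i) (x : ι → ℚ) (i : ι) :
    |S.L x i| ≤ a i * S.Ninf a x := by
  have h := norm_le_pi_norm (fun i => S.L x i / a i) i
  simp only [Real.norm_eq_abs, abs_div, abs_of_pos (ha i)] at h
  rw [div_le_iff₀ (ha i)] at h
  rw [mul_comm]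
  exact h

lemma norm_L'_le (S : Sys ι T p) (t : T) (a' : ι → ℝ) (ha : ∀ i, 0 < a' i) (x : ι → ℚ) (i : ι) :
    ‖S.L' t x i‖ ≤ a' i * S.Np t a' x := by
  have h := norm_le_pi_norm (fun i => ‖S.L' t x i‖ / a' i) i
  simp only [Real.norm_eq_abs, abs_div, abs_of_pos (ha i), abs_norm] at h
  rw [div_le_iff₀ (ha i)] at h
  rw [mul_comm]
  exact h

/-- Lower bound at infinity. -/
lemma exists_Ninf_lower (S : Sys ι T p) (a : ι → ℝ) (ha : ∀ i, 0 < a i) :
    ∃ C : ℝ, 0 < C ∧ ∀ (x : ι → ℚ) (j : ι), |(x j : ℝ)| ≤ C * S.Ninf a x := by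
  refine ⟨1 + ∑ j, ∑ i, |S.A⁻¹ j i| * a i, ?_, ?_⟩
  · have : 0 ≤ ∑ j, ∑ i, |S.A⁻¹ j i| * a i :=
      Finset.sum_nonneg fun j _ => Finset.sum_nonneg fun i _ =>
        mul_nonneg (abs_nonneg _) (ha i).le
    linarith
  · intro x j
    have hA : S.A⁻¹ * S.A = 1 := Matrix.nonsing_inv_mul _ (isUnit_iff_ne_zero.mpr S.detA)
    have h1 : (x j : ℝ) = ∑ i, S.A⁻¹ j i * S.L x i := by
      have h2 := congrFun (congrArg (fun M : Matrix ι ι ℝ => M.mulVec (fun j => (x j : ℝ))) hA) j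
      rw [← Matrix.mulVec_mulVec, Matrix.one_mulVec] at h2
      rw [← h2]
      rfl
    have h3 : |(x j : ℝ)| ≤ ∑ i, |S.A⁻¹ j i| * a i * S.Ninf a x := by
      rw [h1]
      refine (abs_sum_le_sum_abs _ _).trans (Finset.sum_le_sum fun i _ => ?_)
      rw [abs_mul, mul_assoc]
      exact mul_le_mul_of_nonneg_left (abs_L_le S a ha x i) (abs_nonneg _)
    rw [← Finset.sum_mul] at h3
    refine h3.trans (mul_le_mul_of_nonneg_right ?_ (Ninf_nonneg _ _ _))
    have h4 : ∑ i, |S.A⁻¹ j i| * a i ≤ ∑ j, ∑ i, |S.A⁻¹ j i| * a i :=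
      Finset.single_le_sum (f := fun j => ∑ i, |S.A⁻¹ j i| * a i)
        (fun j _ => Finset.sum_nonneg fun i _ => mul_nonneg (abs_nonneg _) (ha i).le) (mem_univ j)
    linarith

lemma exists_Np_lower (S : Sys ι T p) (t : T) (a' : ι → ℝ) (ha : ∀ i, 0 < a' i) :
    ∃ C : ℝ, 0 < C ∧ ∀ (x : ι → ℚ) (j : ι), ‖(x j : ℚ_[p t])‖ ≤ C * S.Np t a' x := by
  refine ⟨1 + ∑ j, ∑ i, ‖(S.A' t)⁻¹ j i‖ * a' i, ?_, ?_⟩
  · have : 0 ≤ ∑ j, ∑ i, ‖(S.A' t)⁻¹ j i‖ * a' i :=
      Finset.sum_nonneg fun j _ => Finset.sum_nonneg fun i _ =>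
        mul_nonneg (norm_nonneg _) (ha i).le
    linarith
  · intro x j
    have hA : (S.A' t)⁻¹ * S.A' t = 1 :=
      Matrix.nonsing_inv_mul _ (isUnit_iff_ne_zero.mpr (S.detA' t))
    have h1 : (x j : ℚ_[p t]) = ∑ i, (S.A' t)⁻¹ j i * S.L' t x i := by
      have h2 := congrFun (congrArg
        (fun M : Matrix ι ι ℚ_[p t] => M.mulVec (fun j => (x j : ℚ_[p t]))) hA) j
      rw [← Matrix.mulVec_mulVec, Matrix.one_mulVec] at h2
      rw [← h2]
      rfl
    have h3 : ‖(x j : ℚ_[p t])‖ ≤ ∑ i, ‖(S.A' t)⁻¹ j i‖ * a' i * S.Np t a' x := by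
      rw [h1]
      refine (norm_sum_le _ _).trans (Finset.sum_le_sum fun i _ => ?_)
      rw [norm_mul, mul_assoc]
      exact mul_le_mul_of_nonneg_left (norm_L'_le S t a' ha x i) (norm_nonneg _)
    rw [← Finset.sum_mul] at h3
    refine h3.trans (mul_le_mul_of_nonneg_right ?_ (Np_nonneg _ _ _ _))
    have h4 : ∑ i, ‖(S.A' t)⁻¹ j i‖ * a' i ≤ ∑ j, ∑ i, ‖(S.A' t)⁻¹ j i‖ * a' i :=
      Finset.single_le_sum (f := fun j => ∑ i, ‖(S.A' t)⁻¹ j i‖ * a' i)
        (fun j _ => Finset.sum_nonneg fun i _ => mul_nonneg (norm_nonneg _) (ha i).le) (mem_univ j)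
    linarith

lemma Ninf_pos (S : Sys ι T p) (a : ι → ℝ) (ha : ∀ i, 0 < a i) (x : ι → ℚ) (hx : x ≠ 0) :
    0 < S.Ninf a x := by
  obtain ⟨C, hC, h⟩ := exists_Ninf_lower S a ha
  obtain ⟨j, hj⟩ := Function.ne_iff.mp hx
  have h1 : 0 < |(x j : ℝ)| := abs_pos.mpr (by exact_mod_cast hj)
  exact pos_of_mul_pos_right (h1.trans_le (h x j)) hC.le

lemma Np_pos (S : Sys ι T p) (t : T) (a' : ι → ℝ) (ha : ∀ i, 0 < a' i) (x : ι → ℚ) (hx : x ≠ 0) :
    0 < S.Np t a' x := by
  obtain ⟨C, hC, h⟩ := exists_Np_lower S t a' ha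
  obtain ⟨j, hj⟩ := Function.ne_iff.mp hx
  have h1 : 0 < ‖(x j : ℚ_[p t])‖ := norm_pos_iff.mpr (by exact_mod_cast hj)
  exact pos_of_mul_pos_right (h1.trans_le (h x j)) hC.le

lemma N_pos (S : Sys ι T p) (a : ι → ℝ) (a' : T → ι → ℝ) (ha : ∀ i, 0 < a i)
    (ha' : ∀ t i, 0 < a' t i) (x : ι → ℚ) (hx : x ≠ 0) : 0 < S.N a a' x :=
  mul_pos (Ninf_pos S a ha x hx) (Finset.prod_pos fun t _ => Np_pos S t _ (ha' t) x hx)

/-- Lower bound for primitive vectors. -/
lemma exists_N_lower (S : Sys ι T p) (a : ι → ℝ) (a' : T → ι → ℝ) (ha : ∀ i, 0 < a i)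
    (ha' : ∀ t i, 0 < a' t i) : ∃ C : ℝ, 0 < C ∧ ∀ m : ι → ℤ, Prim m → ∀ j,
      |(m j : ℝ)| ≤ C * S.N a a' (fun i => (m i : ℚ)) := by
  obtain ⟨C, hC, h⟩ := exists_Ninf_lower S a ha
  choose C' hC' h' using fun t => exists_Np_lower S t (a' t) (ha' t)
  refine ⟨C * ∏ t, C' t, mul_pos hC (Finset.prod_pos fun t _ => hC' t), ?_⟩
  intro m hm j
  set x : ι → ℚ := fun i => (m i : ℚ) with hx
  have h1 : ∀ t, 1 ≤ C' t * S.Np t (a' t) x := by
    intro t
    by_contra hcon
    push Not at hcon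
    have hdiv : ∀ i, (p t : ℤ) ∣ m i := by
      intro i
      have h2 := h' t x i
      rw [hx] at h2
      have h3 : ‖((m i : ℤ) : ℚ_[p t])‖ < 1 := by
        have h4 : (((m i : ℤ) : ℚ) : ℚ_[p t]) = ((m i : ℤ) : ℚ_[p t]) := by push_cast; rfl
        rw [← h4]
        exact h2.trans_lt hcon
      exact Padic.norm_intCast_lt_one_iff.mp h3
    have h5 := hm _ hdiv
    rw [Int.ofNat_isUnit, Nat.isUnit_iff] at h5
    exact (Fact.out : (p t).Prime).one_lt.ne' h5
  have h2 := h x j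
  have h3 : |(m j : ℝ)| = |(x j : ℝ)| := by rw [hx]; push_cast; rfl
  rw [h3]
  calc |(x j : ℝ)| ≤ C * S.Ninf a x := h2
    _ = C * S.Ninf a x * 1 := (mul_one _).symm
    _ ≤ C * S.Ninf a x * ∏ t, (C' t * S.Np t (a' t) x) := by
        refine mul_le_mul_of_nonneg_left ?_ (mul_nonneg hC.le (Ninf_nonneg _ _ _))
        have := Finset.prod_le_prod (s := univ) (f := fun _ : T => (1 : ℝ))
          (g := fun t => C' t * S.Np t (a' t) x) (fun _ _ => zero_le_one) (fun t _ => h1 t)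
        simpa using this
    _ = _ := by rw [Finset.prod_mul_distrib, Sys.N]; ring

/-- Replace a vector over `ℤ[1/P]` by a primitive integer vector. -/
lemma exists_prim (hp : Function.Injective p) (S : Sys ι T p) (a : ι → ℝ) (a' : T → ι → ℝ)
    (y : ι → ℚ) (hy : PVec (pprod p) y) (hy0 : y ≠ 0) :
    ∃ (m : ι → ℤ) (c : ℚ), Prim m ∧ c ≠ 0 ∧ (fun i => (m i : ℚ)) = c • y ∧
      S.N a a' (fun i => (m i : ℚ)) ≤ S.N a a' y := by
  classical
  obtain ⟨j₀, hj₀⟩ := Function.ne_iff.mp hy0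
  choose k z hz using hy
  set Pq : ℚ := ((pprod p : ℕ) : ℚ) with hPq
  have hPq0 : Pq ≠ 0 := by
    have := pprod_pos (p := p)
    rw [hPq]; exact_mod_cast this.ne'
  let K : ℕ := univ.sup k
  have hkK : ∀ i, k i ≤ K := fun i => Finset.le_sup (f := k) (mem_univ i)
  let z' : ι → ℤ := fun i => z i * ((pprod p : ℕ) : ℤ) ^ (K - k i)
  have hz' : ∀ i, y i * Pq ^ K = z' i := by
    intro i
    have h1 : Pq ^ K = Pq ^ k i * Pq ^ (K - k i) := by
      rw [← pow_add, Nat.add_sub_cancel' (hkK i)]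
    rw [h1, ← mul_assoc, hz i]
    push_cast [z', hPq]
    rfl
  have hne : (univ : Finset ι).Nonempty := ⟨j₀, mem_univ _⟩
  obtain ⟨m, hm1, hm2⟩ := Finset.extract_gcd z' hne
  set g : ℤ := univ.gcd z' with hg
  have hg0 : g ≠ 0 := by
    intro h
    rw [hg, Finset.gcd_eq_zero_iff] at h
    have h1 := hz' j₀
    rw [h j₀ (mem_univ _)] at h1
    rcases mul_eq_zero.mp (h1.trans Int.cast_zero) with h2 | h2
    · exact hj₀ h2
    · exact pow_ne_zero _ hPq0 h2
  have hgq : (g : ℚ) ≠ 0 := by exact_mod_cast hg0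
  have hy' : y = ((g : ℚ) / Pq ^ K) • (fun i => (m i : ℚ)) := by
    funext i
    have h1 := hz' i
    rw [hm1 i (mem_univ _)] at h1
    rw [Pi.smul_apply, smul_eq_mul]
    have h2 : Pq ^ K ≠ 0 := pow_ne_zero _ hPq0
    field_simp
    rw [h1]
    push_cast
    ring
  refine ⟨m, Pq ^ K / g, ?_, div_ne_zero (pow_ne_zero _ hPq0) hgq, ?_, ?_⟩
  · intro d hd
    have h1 : d ∣ univ.gcd m := Finset.dvd_gcd fun i _ => hd i
    rw [hm2] at h1
    exact isUnit_of_dvd_one h1
  · conv_rhs => rw [hy']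
    rw [smul_smul, div_mul_div_comm, mul_comm (Pq ^ K), div_self, one_smul]
    exact mul_ne_zero hgq (pow_ne_zero _ hPq0)
  · conv_rhs => rw [hy']
    rw [N_smul]
    have h1 : |((((g : ℚ) / Pq ^ K : ℚ)) : ℝ)| * ∏ t, ‖((((g : ℚ) / Pq ^ K : ℚ)) : ℚ_[p t])‖ =
        |(g : ℝ)| * ∏ t, ‖(g : ℚ_[p t])‖ := by
      have h2 : ∀ t, ‖((((g : ℚ) / Pq ^ K : ℚ)) : ℚ_[p t])‖ =
          ‖(g : ℚ_[p t])‖ * (p t : ℝ) ^ K := by
        intro t
        rw [hPq]
        push_cast
        rw [norm_div, norm_pow, norm_pprod hp, inv_pow, div_inv_eq_mul]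
      simp only [h2]
      rw [Finset.prod_mul_distrib, Finset.prod_pow]
      have h3 : |((((g : ℚ) / Pq ^ K : ℚ)) : ℝ)| = |(g : ℝ)| / (∏ t, (p t : ℝ)) ^ K := by
        rw [hPq, pprod]
        push_cast
        rw [abs_div, abs_pow, abs_of_pos (a := ∏ t, (p t : ℝ))]
        exact Finset.prod_pos fun t _ => by exact_mod_cast (Fact.out : (p t).Prime).pos
      rw [h3]
      have h4 : (∏ t, (p t : ℝ)) ^ K ≠ 0 := pow_ne_zero _ (Finset.prod_pos fun t _ => by
        exact_mod_cast (Fact.out : (p t).Prime).pos).ne'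
      field_simp
    rw [h1]
    have h2 := one_le_abs_mul_prod hp g hg0
    have h3 := N_nonneg S a a' (fun i => (m i : ℚ))
    nlinarith

/-- Existence of a minimal vector outside a proper subspace. -/
lemma exists_min (hp : Function.Injective p) (S : Sys ι T p) (a : ι → ℝ) (a' : T → ι → ℝ)
    (ha : ∀ i, 0 < a i) (ha' : ∀ t i, 0 < a' t i) (V : Submodule ℚ (ι → ℚ)) (hV : V ≠ ⊤) :
    ∃ v, PVec (pprod p) v ∧ v ∉ V ∧ ∀ y, PVec (pprod p) y → y ∉ V → S.N a a' v ≤ S.N a a' y := by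
  classical
  -- a vector outside `V`
  obtain ⟨y₀, hy₀, hy₀V⟩ : ∃ y, PVec (pprod p) y ∧ y ∉ V := by
    by_contra hcon
    push Not at hcon
    apply hV
    rw [eq_top_iff, ← (Pi.basisFun ℚ ι).span_eq, Submodule.span_le]
    rintro _ ⟨i, rfl⟩
    refine hcon _ fun j => ⟨0, if i = j then 1 else 0, ?_⟩
    rw [Pi.basisFun_apply, Pi.single_apply]
    split_ifs with h1 h2 h2
    · simp
    · exact absurd h1.symm h2
    · exact absurd h2.symm h1
    · simp
  have hne0 : ∀ y, y ∉ V → y ≠ 0 := fun y hy h => hy (h ▸ V.zero_mem)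
  have hsm : ∀ (y : ι → ℚ) (c : ℚ), c ≠ 0 → y ∉ V → c • y ∉ V := fun y c hc hy h =>
    hy ((V.smul_mem_iff hc).mp h)
  obtain ⟨C, hC, hlow⟩ := exists_N_lower S a a' ha ha'
  set K₀ := S.N a a' y₀ with hK₀
  let F : Set (ι → ℤ) := {m | Prim m ∧ (fun i => (m i : ℚ)) ∉ V ∧
    S.N a a' (fun i => (m i : ℚ)) ≤ K₀}
  have hfin : F.Finite := by
    refine (Set.finite_Icc (fun _ : ι => -⌈C * K₀⌉) (fun _ => ⌈C * K₀⌉)).subset ?_
    rintro m ⟨hm, -, hmK⟩
    have h1 : ∀ j, |m j| ≤ ⌈C * K₀⌉ := by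
      intro j
      have h2 : |(m j : ℝ)| ≤ C * K₀ := (hlow m hm j).trans (mul_le_mul_of_nonneg_left hmK hC.le)
      have h3 : ((|m j| : ℤ) : ℝ) ≤ ⌈C * K₀⌉ := by
        rw [Int.cast_abs]
        exact h2.trans (Int.le_ceil _)
      exact_mod_cast h3
    exact ⟨fun j => (abs_le.mp (h1 j)).1, fun j => (abs_le.mp (h1 j)).2⟩
  obtain ⟨m₀, c₀, hm₀, hc₀, hm₀y, hm₀N⟩ := exists_prim hp S a a' y₀ hy₀ (hne0 _ hy₀V)
  have hne : F.Nonempty := ⟨m₀, hm₀, by rw [hm₀y]; exact hsm _ _ hc₀ hy₀V, hm₀N⟩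
  obtain ⟨m, ⟨hm1, hm2, hm3⟩, hmin⟩ :=
    Set.exists_min_image F (fun m => S.N a a' (fun i => (m i : ℚ))) hfin hne
  refine ⟨fun i => (m i : ℚ), fun i => ⟨0, m i, by simp⟩, hm2, ?_⟩
  intro y hy hyV
  by_cases hyK : S.N a a' y ≤ K₀
  · obtain ⟨m', c', hm', hc', hm'y, hm'N⟩ := exists_prim hp S a a' y hy (hne0 _ hyV)
    exact (hmin m' ⟨hm', by rw [hm'y]; exact hsm _ _ hc' hyV, hm'N.trans hyK⟩).trans hm'N
  · exact hm3.trans (le_of_lt (not_le.mp hyK))

/-- Successive minimal vectors. -/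
theorem exists_minima (hp : Function.Injective p) (S : Sys ι T p) (a : ι → ℝ) (a' : T → ι → ℝ)
    (ha : ∀ i, 0 < a i) (ha' : ∀ t i, 0 < a' t i) :
    ∃ x : Fin (Fintype.card ι) → ι → ℚ, LinearIndependent ℚ x ∧ (∀ j, PVec (pprod p) (x j)) ∧
      (∀ j y, PVec (pprod p) y → y ∉ Submodule.span ℚ (x '' {i | i < j}) →
        S.N a a' (x j) ≤ S.N a a' y) := by
  classical
  have hmin : ∀ V : Submodule ℚ (ι → ℚ), ∃ v, V ≠ ⊤ → PVec (pprod p) v ∧ v ∉ V ∧
      ∀ y, PVec (pprod p) y → y ∉ V → S.N a a' v ≤ S.N a a' y := by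
    intro V
    by_cases hV : V = ⊤
    · exact ⟨0, fun h => absurd hV h⟩
    · obtain ⟨v, hv⟩ := exists_min hp S a a' ha ha' V hV
      exact ⟨v, fun _ => hv⟩
  choose μ hμ using hmin
  let flag : ℕ → Submodule ℚ (ι → ℚ) := fun k =>
    Nat.rec ⊥ (fun _ V => V ⊔ Submodule.span ℚ {μ V}) k
  let xs : ℕ → ι → ℚ := fun k => μ (flag k)
  have hflag : ∀ k, flag k = Submodule.span ℚ (xs '' {i | i < k}) := by
    intro k
    induction k with
    | zero => simp [flag]
    | succ k ih =>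
      have h1 : flag (k + 1) = flag k ⊔ Submodule.span ℚ {xs k} := rfl
      have h2 : {i | i < k + 1} = {i | i < k} ∪ {k} := by
        ext i
        simp only [Set.mem_ofPred_eq, Set.mem_union, Set.mem_singleton_iff]
        omega
      rw [h1, h2, Set.image_union, Submodule.span_union, Set.image_singleton, ih]
  have hne : ∀ k, k < Fintype.card ι → flag k ≠ ⊤ := by
    intro k hk h
    have h3 : xs '' {i | i < k} = ((Finset.range k).image xs : Finset (ι → ℚ)) := by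
      ext v; simp
    have h1 : Module.finrank ℚ (Submodule.span ℚ (xs '' {i | i < k})) ≤ k := by
      rw [h3]
      exact (finrank_span_finset_le_card _).trans (Finset.card_image_le.trans (by simp))
    have h4 : Submodule.span ℚ (xs '' {i | i < k}) = ⊤ := (hflag k).symm.trans h
    rw [h4, finrank_top, Module.finrank_fintype_fun_eq_card] at h1
    omega
  have hli : ∀ k, k ≤ Fintype.card ι → LinearIndependent ℚ (fun i : Fin k => xs i) := by
    intro k
    induction k with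
    | zero => intro _; exact linearIndependent_empty_type
    | succ k ih =>
      intro hk
      rw [linearIndependent_finSucc']
      refine ⟨ih (by omega), ?_⟩
      have h1 := (hμ (flag k) (hne k (by omega))).2.1
      have h2 : Set.range (Fin.init (fun i : Fin (k + 1) => xs i)) = xs '' {i | i < k} := by
        ext v
        constructor
        · rintro ⟨i, rfl⟩
          exact ⟨i, i.2, rfl⟩
        · rintro ⟨i, hi, rfl⟩
          exact ⟨⟨i, hi⟩, rfl⟩
      rw [h2, ← hflag k]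
      exact h1
  refine ⟨fun j => xs j, hli _ le_rfl, fun j => (hμ _ (hne j j.2)).1, ?_⟩
  intro j y hy hyn
  refine (hμ _ (hne j j.2)).2.2 y hy ?_
  have h2 : (fun j : Fin (Fintype.card ι) => xs j) '' {i | i < j} = xs '' {i | i < (j : ℕ)} := by
    ext v
    constructor
    · rintro ⟨i, hi, rfl⟩
      exact ⟨i, hi, rfl⟩
    · rintro ⟨i, hi, rfl⟩
      exact ⟨⟨i, lt_trans hi j.2⟩, hi, rfl⟩
  rw [h2, ← hflag] at hyn
  exact hyn

end Pool.Agent.Helper68.Sub

end

section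

/-!
# Subspace theorem project: the flag/permutation lemma (Davenport)

For `n` rational-linear real valued forms and a flag spanned by `x 0, …, x (n-1)` there is an
ordering `π` of the forms such that on `span (x 0, …, x j)` all the forms are bounded by `n ^ n`
times the maximum of the forms with `π i ≤ j`.
-/

set_option autoImplicit false

namespace Pool.Agent.Helper68.Sub

open Finset

section

variable {ι : Type*} [Fintype ι] [DecidableEq ι] {V : Type*} [AddCommGroup V] [Module ℚ V]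

/-- The step: one form can be dropped on a space spanned by fewer vectors. -/
lemma perm_step (f : ι → V →ₗ[ℚ] ℝ) {n : ℕ} (x : Fin n → V) (l : ℕ) (hl : l + 1 ≤ Fintype.card ι)
    (I : Finset ι) (hI : I.card = l + 1) :
    ∃ i₀ ∈ I, ∀ y ∈ Submodule.span ℚ (x '' {i | (i : ℕ) < l}), ∀ B : ℝ, 0 ≤ B →
      (∀ i ∈ I.erase i₀, |f i y| ≤ B) → ∀ i ∈ I, |f i y| ≤ Fintype.card ι * B := by
  classical
  have hdep : ¬ LinearIndependent ℝ
      (fun i : I => (fun j : Fin l => if h : (j : ℕ) < n then f i (x ⟨j, h⟩) else 0)) := by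
    intro h
    have := h.fintype_card_le_finrank
    simp [hI] at this
  obtain ⟨g, hg, ⟨i₁, hi₁⟩⟩ := Fintype.not_linearIndependent_iff.mp hdep
  have hIne : I.attach.Nonempty := ⟨i₁, mem_attach _ _⟩
  obtain ⟨i₀, -, hi₀⟩ := exists_max_image I.attach (fun i => |g i|) hIne
  have hg0 : 0 < |g i₀| := lt_of_lt_of_le (abs_pos.mpr hi₁) (hi₀ i₁ (mem_attach _ _))
  refine ⟨i₀, i₀.2, ?_⟩
  intro y hy B hB hbd
  -- the relation
  have hrel : ∑ i : I, g i * f i y = 0 := by
    let F : V →ₗ[ℚ] ℝ :=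
      { toFun := fun z => ∑ i : I, g i * f i z
        map_add' := fun a b => by simp [mul_add, sum_add_distrib]
        map_smul' := fun c a => by
          simp only [map_smul, RingHom.id_apply, Finset.smul_sum]
          refine sum_congr rfl fun i _ => ?_
          rw [mul_smul_comm] }
    have hF : Submodule.span ℚ (x '' {i | (i : ℕ) < l}) ≤ LinearMap.ker F := by
      rw [Submodule.span_le]
      rintro _ ⟨j, hj, rfl⟩
      have h1 := congrFun hg ⟨j, hj⟩
      simp only [Finset.sum_apply, Pi.smul_apply, smul_eq_mul, Pi.zero_apply, j.2, dif_pos] at h1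
      exact h1
    exact hF hy
  have hcard : (I.attach.erase i₀).card = l := by
    rw [card_erase_of_mem (mem_attach _ _), card_attach, hI]; rfl
  have h0 : |f i₀ y| ≤ l * B := by
    have h1 : g i₀ * f i₀ y = - ∑ i ∈ I.attach.erase i₀, g i * f i y := by
      have : ∑ i ∈ I.attach, g i * f i y = 0 := hrel
      rw [← add_sum_erase _ _ (mem_attach _ i₀)] at this
      linarith
    have h2 : |g i₀| * |f i₀ y| ≤ |g i₀| * (l * B) := by
      rw [← abs_mul, h1, abs_neg]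
      calc |∑ i ∈ I.attach.erase i₀, g i * f i y|
          ≤ ∑ i ∈ I.attach.erase i₀, |g i * f i y| := abs_sum_le_sum_abs _ _
        _ ≤ ∑ i ∈ I.attach.erase i₀, |g i₀| * B := by
            refine sum_le_sum fun i hi => ?_
            rw [abs_mul]
            refine mul_le_mul (hi₀ i (mem_attach _ _)) (hbd i ?_) (abs_nonneg _) (abs_nonneg _)
            rw [mem_erase]
            refine ⟨fun h => (mem_erase.mp hi).1 (Subtype.ext h), i.2⟩
        _ = |g i₀| * (l * B) := by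
            rw [sum_const, hcard, nsmul_eq_mul]; ring
    exact le_of_mul_le_mul_left h2 hg0
  have hn1 : (1 : ℝ) ≤ Fintype.card ι := by
    have : 1 ≤ Fintype.card ι := by omega
    exact_mod_cast this
  intro i hi
  by_cases h : i = i₀
  · rw [h]
    refine h0.trans (mul_le_mul_of_nonneg_right ?_ hB)
    have : l ≤ Fintype.card ι := by omega
    exact_mod_cast this
  · refine (hbd i (mem_erase.mpr ⟨h, hi⟩)).trans ?_
    nlinarith

lemma perm_chain (f : ι → V →ₗ[ℚ] ℝ) {n : ℕ} (x : Fin n → V) :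
    ∀ l : ℕ, l ≤ Fintype.card ι → ∀ I : Finset ι, I.card = l →
      (∀ y ∈ Submodule.span ℚ (x '' {i | (i : ℕ) < l}), ∀ B : ℝ, 0 ≤ B → (∀ i ∈ I, |f i y| ≤ B) →
        ∀ i, |f i y| ≤ (Fintype.card ι : ℝ) ^ (Fintype.card ι - l) * B) →
      ∃ e : ι → ℕ, (∀ i ∈ I, e i < l) ∧ Set.InjOn e I ∧
        ∀ j < l, ∀ y ∈ Submodule.span ℚ (x '' {i | (i : ℕ) < j + 1}), ∀ B : ℝ, 0 ≤ B →
          (∀ i ∈ I, e i ≤ j → |f i y| ≤ B) →
            ∀ i, |f i y| ≤ (Fintype.card ι : ℝ) ^ (Fintype.card ι) * B := by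
  classical
  intro l
  induction l with
  | zero =>
    intro _ I hI _
    have hI' : I = ∅ := card_eq_zero.mp hI
    refine ⟨fun _ => 0, by simp [hI'], by simp [hI'], fun j hj => absurd hj (Nat.not_lt_zero _)⟩
  | succ l ih =>
    intro hl I hI hP
    obtain ⟨i₀, hi₀, hstep⟩ := perm_step f x l hl I hI
    have hn1 : (1 : ℝ) ≤ Fintype.card ι := by
      have : 1 ≤ Fintype.card ι := by omega
      exact_mod_cast this
    have hmono : Submodule.span ℚ (x '' {i | (i : ℕ) < l}) ≤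
        Submodule.span ℚ (x '' {i | (i : ℕ) < l + 1}) :=
      Submodule.span_mono (Set.image_mono fun i hi => Nat.lt_succ_of_lt hi)
    obtain ⟨e', he'1, he'2, he'3⟩ := ih (by omega) (I.erase i₀)
      (by rw [card_erase_of_mem hi₀, hI]; rfl) (by
        intro y hy B hB hbd i
        have h1 := hP y (hmono hy) (Fintype.card ι * B) (by positivity) (hstep y hy B hB hbd) i
        refine h1.trans (le_of_eq ?_)
        rw [← mul_assoc, ← pow_succ]
        congr 2
        omega)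
    have hupd : ∀ i ∈ I.erase i₀, Function.update e' i₀ l i = e' i := fun i hi =>
      Function.update_of_ne (mem_erase.mp hi).1 _ _
    refine ⟨Function.update e' i₀ l, ?_, ?_, ?_⟩
    · intro i hi
      by_cases h : i = i₀
      · subst h; simp
      · have hi' : i ∈ I.erase i₀ := mem_erase.mpr ⟨h, hi⟩
        rw [hupd i hi']
        exact Nat.lt_succ_of_lt (he'1 i hi')
    · intro i hi j hj hij
      by_cases h : i = i₀
      · by_cases h' : j = i₀
        · rw [h, h']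
        · exfalso
          have hj' : j ∈ I.erase i₀ := mem_erase.mpr ⟨h', hj⟩
          rw [hupd j hj', h, Function.update_self] at hij
          exact absurd (he'1 j hj') (by omega)
      · have hi' : i ∈ I.erase i₀ := mem_erase.mpr ⟨h, hi⟩
        by_cases h' : j = i₀
        · exfalso
          rw [hupd i hi', h', Function.update_self] at hij
          exact absurd (he'1 i hi') (by omega)
        · have hj' : j ∈ I.erase i₀ := mem_erase.mpr ⟨h', hj⟩
          rw [hupd i hi', hupd j hj'] at hij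
          exact he'2 hi' hj' hij
    · intro j hj y hy B hB hbd
      by_cases hjl : j < l
      · refine he'3 j hjl y hy B hB ?_
        intro i hi hij
        refine hbd i (mem_erase.mp hi).2 ?_
        rw [hupd i hi]
        exact hij
      · have hjl' : j = l := by omega
        subst hjl'
        intro i
        have h1 := hP y hy B hB (fun i hi => hbd i hi (by
          by_cases h : i = i₀
          · subst h; simp
          · have hi' : i ∈ I.erase i₀ := mem_erase.mpr ⟨h, hi⟩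
            rw [hupd i hi']
            exact (he'1 i hi').le)) i
        refine h1.trans (mul_le_mul_of_nonneg_right ?_ hB)
        exact pow_le_pow_right₀ hn1 (Nat.sub_le _ _)

/-- **Permutation lemma** (Davenport). -/
theorem exists_perm (f : ι → V →ₗ[ℚ] ℝ) (x : Fin (Fintype.card ι) → V) :
    ∃ π : ι ≃ Fin (Fintype.card ι), ∀ j, ∀ y ∈ Submodule.span ℚ (x '' {i | i ≤ j}), ∀ B : ℝ,
      0 ≤ B → (∀ i, π i ≤ j → |f i y| ≤ B) →
        ∀ i, |f i y| ≤ (Fintype.card ι : ℝ) ^ (Fintype.card ι) * B := by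
  classical
  obtain ⟨e, he1, he2, he3⟩ := perm_chain f x (Fintype.card ι) le_rfl univ (card_univ) (by
    intro y _ B hB hbd i
    simpa using hbd i (mem_univ _))
  have hinj : Function.Injective (fun i : ι => (⟨e i, he1 i (mem_univ _)⟩ : Fin (Fintype.card ι))) := by
    intro i j hij
    exact he2 (by simp) (by simp) (Fin.mk.inj_iff.mp hij)
  have hbij := (Fintype.bijective_iff_injective_and_card _).mpr ⟨hinj, by simp⟩
  refine ⟨Equiv.ofBijective _ hbij, ?_⟩
  intro j y hy B hB hbd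
  refine he3 j j.2 y ?_ B hB ?_
  · convert hy using 3
    ext i
    simp only [Set.mem_ofPred_eq, Fin.le_def]
    omega
  · intro i _ hij
    exact hbd i hij

end

end Pool.Agent.Helper68.Sub

end

section

namespace Pool.Agent.Helper10.Sub
end Pool.Agent.Helper10.Sub

/-!
# Subspace theorem project: Minkowski's second theorem over `ℤ[1/P]`
-/

set_option autoImplicit false

set_option linter.unusedSectionVars false

namespace Pool.Agent.Helper68.Sub

open Pool.Agent.Helper10.Sub Finset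

variable {ι : Type*} [Fintype ι] [DecidableEq ι] {T : Type*} [Fintype T] {p : T → ℕ}
  [∀ t, Fact (p t).Prime]

/-- A vector of the span of `x` lies in a first member of the flag. -/
lemma exists_first {V : Type*} [AddCommGroup V] [Module ℚ V] {n : ℕ} (x : Fin n → V) (y : V)
    (hy : y ∈ Submodule.span ℚ (Set.range x)) (hy0 : y ≠ 0) :
    ∃ k : Fin n, y ∈ Submodule.span ℚ (x '' {i | i ≤ k}) ∧
      y ∉ Submodule.span ℚ (x '' {i | i < k}) := by
  classical
  have hex : ∃ l : ℕ, y ∈ Submodule.span ℚ (x '' {i | (i : ℕ) < l}) := by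
    refine ⟨n, ?_⟩
    have h1 : x '' {i | (i : ℕ) < n} = Set.range x := by
      rw [← Set.image_univ]
      congr 1
      ext i
      simp
    rw [h1]
    exact hy
  have hspec := Nat.find_spec hex
  have hmin := fun m (hm : m < Nat.find hex) => Nat.find_min hex hm
  set l := Nat.find hex with hl
  have hl0 : l ≠ 0 := by
    intro h0
    rw [h0] at hspec
    simp at hspec
    exact hy0 hspec
  have hln : l ≤ n := by
    by_contra hcon
    refine hmin n (not_le.mp hcon) ?_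
    have h1 : x '' {i | (i : ℕ) < n} = Set.range x := by
      rw [← Set.image_univ]
      congr 1
      ext i
      simp
    rw [h1]
    exact hy
  refine ⟨⟨l - 1, by omega⟩, ?_, ?_⟩
  · convert hspec using 3
    ext i
    simp only [Set.mem_ofPred_eq, Fin.le_def]
    omega
  · intro h
    refine hmin (l - 1) (by omega) ?_
    exact h

/-- **Minkowski's second theorem** over `ℤ[1/P]`. -/
theorem mink2 (S : Sys ι T p) (hp : Function.Injective p) : ∃ C : ℝ, 0 < C ∧
    ∀ (a : ι → ℝ) (a' : T → ι → ℝ), (∀ i, 0 < a i) → (∀ t i, 0 < a' t i) →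
    ∃ x : Fin (Fintype.card ι) → ι → ℚ, LinearIndependent ℚ x ∧ (∀ j, PVec (pprod p) (x j)) ∧
      (∀ j y, PVec (pprod p) y → y ∉ Submodule.span ℚ (x '' {i | i < j}) →
        S.N a a' (x j) ≤ S.N a a' y) ∧
      (∏ j, S.N a a' (x j)) * wprod a a' ≤ C := by
  classical
  obtain ⟨C₁, hC₁, hmink⟩ := mink1 S hp
  set n := Fintype.card ι with hn
  set C₀ : ℝ := (n : ℝ) ^ n with hC₀
  have hC₀pos : 0 < C₀ := by
    rcases Nat.eq_zero_or_pos n with h | h
    · rw [hC₀, h]; norm_num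
    · have : (0 : ℝ) < n := by exact_mod_cast h
      positivity
  refine ⟨C₁ * C₀ ^ n, by positivity, ?_⟩
  intro a a' ha ha'
  obtain ⟨x, hx1, hx2, hx3⟩ := exists_minima hp S a a' ha ha'
  refine ⟨x, hx1, hx2, hx3, ?_⟩
  by_contra hcon
  push Not at hcon
  set lam : Fin n → ℝ := fun j => S.N a a' (x j) with hlam
  have hlampos : ∀ j, 0 < lam j := fun j => N_pos S a a' ha ha' _ (hx1.ne_zero j)
  have hlammono : ∀ i j, i ≤ j → lam i ≤ lam j := by
    intro i j hij
    refine hx3 i (x j) (hx2 j) ?_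
    intro hmem
    refine hx1.notMem_span_image (s := {k | k < j}) (x := j) (by simp) ?_
    exact Submodule.span_mono (Set.image_mono fun k hk => lt_of_lt_of_le hk hij) hmem
  -- the forms
  let f : ι → (ι → ℚ) →ₗ[ℚ] ℝ := fun i =>
    { toFun := fun y => S.L y i / a i
      map_add' := fun y z => by
        simp only [Sys.L, Pi.add_apply, Rat.cast_add, mul_add, Finset.sum_add_distrib, add_div]
      map_smul' := fun c y => by
        rw [L_smul, RingHom.id_apply, Rat.smul_def, mul_div_assoc] }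
  obtain ⟨π, hπ⟩ := exists_perm f x
  let ρ : ι → ℝ := fun i => a i * lam (π i) / C₀
  have hρ : ∀ i, 0 < ρ i := fun i => by
    have h1 := ha i
    have h2 := hlampos (π i)
    positivity
  have hprod : (∏ i, ρ i) = (∏ i, a i) * (∏ j, lam j) / C₀ ^ n := by
    simp only [ρ]
    rw [Finset.prod_div_distrib, Finset.prod_mul_distrib, Finset.prod_const, Finset.card_univ,
      Equiv.prod_comp π lam]
  have hlt : C₁ < (∏ i, ρ i) * ∏ t, ∏ i, a' t i := by
    rw [hprod, div_mul_eq_mul_div, lt_div_iff₀ (by positivity)]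
    refine hcon.trans_eq ?_
    rw [wprod]
    ring
  obtain ⟨y, hy0, hyP, hyL, hyL'⟩ := hmink ρ a' hρ ha' hlt
  have hspan : y ∈ Submodule.span ℚ (Set.range x) := by
    have h1 : Submodule.span ℚ (Set.range x) = ⊤ := by
      refine hx1.span_eq_top_of_card_eq_finrank' ?_
      rw [Fintype.card_fin, Module.finrank_fintype_fun_eq_card]
    rw [h1]
    trivial
  obtain ⟨k, hk1, hk2⟩ := exists_first x y hspan hy0
  have hNk : lam k ≤ S.N a a' y := hx3 k y hyP hk2
  have hNp : ∀ t, S.Np t (a' t) y ≤ 1 := by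
    intro t
    simp only [Sys.Np]
    rw [pi_norm_le_iff_of_nonneg zero_le_one]
    intro i
    rw [Real.norm_eq_abs, abs_div, abs_norm, abs_of_pos (ha' t i), div_le_one (ha' t i)]
    exact hyL' t i
  have hN1 : S.N a a' y ≤ S.Ninf a y := by
    rw [Sys.N]
    have h1 : ∏ t, S.Np t (a' t) y ≤ 1 :=
      Finset.prod_le_one (fun t _ => Np_nonneg _ _ _ _) fun t _ => hNp t
    have h2 := Ninf_nonneg S a y
    nlinarith
  -- the maximum of the forms with small index
  have hfi : ∀ i, π i ≤ k → |f i y| < lam k / C₀ := by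
    intro i hi
    have h1 : |f i y| = |S.L y i| / a i := by
      change |S.L y i / a i| = _
      rw [abs_div, abs_of_pos (ha i)]
    rw [h1, div_lt_iff₀ (ha i)]
    calc |S.L y i| < ρ i := hyL i
      _ = lam (π i) / C₀ * a i := by simp only [ρ]; ring
      _ ≤ lam k / C₀ * a i := by
          refine mul_le_mul_of_nonneg_right ?_ (ha i).le
          exact div_le_div_of_nonneg_right (hlammono _ _ hi) hC₀pos.le
  -- strict inequality through a maximum
  let s : Finset ι := univ.filter fun i => π i ≤ k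
  have hs : s.Nonempty := ⟨π.symm k, by simp [s]⟩
  obtain ⟨i₁, hi₁, hmax⟩ := Finset.exists_max_image s (fun i => |f i y|) hs
  have hB := hπ k y hk1 (|f i₁ y|) (abs_nonneg _) (fun i hi => hmax i (by simp [s, hi]))
  have hi₁' : π i₁ ≤ k := by simpa [s] using hi₁
  have hNinf : S.Ninf a y ≤ C₀ * |f i₁ y| := by
    simp only [Sys.Ninf]
    rw [pi_norm_le_iff_of_nonneg (mul_nonneg hC₀pos.le (abs_nonneg _))]
    intro i
    exact hB i
  have hfin : C₀ * |f i₁ y| < lam k := by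
    have h1 := hfi i₁ hi₁'
    rw [lt_div_iff₀ hC₀pos] at h1
    linarith
  linarith

end Pool.Agent.Helper68.Sub

end
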