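import Mathlib
import Pool.Agent.Helper72.TM2.T27
import Pool.Agent.Helper72.TM2.T06
import Pool.Agent.Helper72.TM2.T12
import Pool.Agent.Helper72.TM2.T16
import Pool.Agent.Helper72.TM2.T17
import Pool.Agent.Helper72.TM2.T26
import Pool.Agent.Helper72.TM2.T25
import Pool.Agent.Helper72.TM2.T29
import Pool.Agent.Helper72.TM2.T28
import Pool.Agent.Helper72.TM2.T04
import Pool.Agent.Helper72.TM2.T08

section

namespace Pool.Agent.Helper36
end Pool.Agent.Helper36
namespace Pool.Agent.Helper57.RP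
end Pool.Agent.Helper57.RP
namespace Pool.Agent.Helper38.TQ
end Pool.Agent.Helper38.TQ

/-!
# Infinite closed sets meet every hypersurface
-/

set_option autoImplicit false

namespace Pool.Agent.Helper30.THC

open MvPolynomial

open Pool.Agent.Helper36 (homogeneousComponent_mul_of_homogeneous)

open Pool.Agent.Helper57.RP (exists_pow_mem)

open Pool.Agent.Helper38.TQ (PEq)

/-- The algebra generated by the small monomials. -/
theorem finite_of_rel0 {K : Type} [Field K] {N : ℕ} (J : Ideal (MvPolynomial (Fin N) K)) (r : ℕ)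
    (hr : 0 < r) (h : ∀ i : Fin N, ∃ v : MvPolynomial (Fin N) K, v.totalDegree < r ∧
      X i ^ r - v ∈ J) : Module.Finite K (MvPolynomial (Fin N) K ⧸ J) := by
  classical
  let T : Set (Fin N →₀ ℕ) := Set.Iic (Finsupp.equivFunOnFinite.symm fun _ => r)
  have hT : T.Finite := Set.finite_Iic _
  let W : Submodule K (MvPolynomial (Fin N) K ⧸ J) :=
    Submodule.span K ((fun s => Ideal.Quotient.mk J (monomial s 1)) '' T)
  have hsmul : ∀ (a : K) (w : MvPolynomial (Fin N) K), Ideal.Quotient.mk J w ∈ W →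
      Ideal.Quotient.mk J (C a * w) ∈ W := by
    intro a w hw
    have h1 : Ideal.Quotient.mk J (C a * w) = a • Ideal.Quotient.mk J w := by
      rw [← smul_eq_C_mul]
      rfl
    rw [h1]
    exact W.smul_mem _ hw
  have hmain : ∀ n : ℕ, ∀ p : MvPolynomial (Fin N) K, p.totalDegree ≤ n →
      Ideal.Quotient.mk J p ∈ W := by
    intro n
    induction n using Nat.strong_induction_on with
    | _ n ih =>
      intro p hp
      have h1 : p = ∑ s ∈ p.support, C (p.coeff s) * monomial s 1 := by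
        conv_lhs => rw [p.as_sum]
        apply Finset.sum_congr rfl
        intro s _
        rw [C_mul_monomial, mul_one]
      rw [h1, map_sum]
      apply W.sum_mem
      intro s hs
      apply hsmul
      have hsd : (s.sum fun _ e => e) ≤ n := le_trans (le_totalDegree hs) hp
      by_cases hsT : s ∈ T
      · exact Submodule.subset_span ⟨s, hsT, rfl⟩
      · have h2 : ∃ i, r < s i := by
          by_contra hcon
          push Not at hcon
          exact hsT (fun i => hcon i)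
        obtain ⟨i, hi⟩ := h2
        obtain ⟨v, hv, huv⟩ := h i
        let s' : Fin N →₀ ℕ := s - Finsupp.single i r
        have hs' : s = s' + Finsupp.single i r := by
          refine (tsub_add_cancel_of_le ?_).symm
          rw [Finsupp.single_le_iff]
          exact hi.le
        have hdeg : (s.sum fun _ e => e) = (s'.sum fun _ e => e) + r := by
          conv_lhs => rw [hs']
          rw [Finsupp.sum_add_index' (fun _ => rfl) (fun _ _ _ => rfl),
            Finsupp.sum_single_index rfl]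
        have hm : (monomial s (1 : K)) = monomial s' 1 * X i ^ r := by
          conv_lhs => rw [hs']
          rw [X_pow_eq_monomial, monomial_mul, one_mul]
        have hm2 : Ideal.Quotient.mk J (monomial s (1 : K)) =
            Ideal.Quotient.mk J (monomial s' 1 * v) := by
          rw [hm, Ideal.Quotient.eq]
          have : monomial s' 1 * X i ^ r - monomial s' 1 * v =
              monomial s' 1 * (X i ^ r - v) := by ring
          rw [this]
          exact J.mul_mem_left _ huv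
        rw [hm2]
        have hs'd : (monomial s' (1 : K)).totalDegree ≤ (s'.sum fun _ e => e) := by
          exact totalDegree_monomial_le _ _
        apply ih (n - 1) (by omega)
        refine le_trans (totalDegree_mul _ _) ?_
        omega
  have htop : W = ⊤ := by
    rw [eq_top_iff]
    intro x _
    obtain ⟨p, rfl⟩ := Ideal.Quotient.mk_surjective x
    exact hmain _ p le_rfl
  refine ⟨?_⟩
  rw [← htop]
  exact Submodule.fg_span (hT.image _)

/-- The zero set of such an ideal is finite. -/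
theorem finite_zeros {K : Type} [Field K] {N : ℕ} (J : Ideal (MvPolynomial (Fin N) K))
    [Module.Finite K (MvPolynomial (Fin N) K ⧸ J)] :
    {y : Fin N → K | ∀ g ∈ J, eval y g = 0}.Finite := by
  classical
  haveI : IsArtinianRing (MvPolynomial (Fin N) K ⧸ J) := IsArtinianRing.of_finite K _
  let ev : {y : Fin N → K | ∀ g ∈ J, eval y g = 0} → ((MvPolynomial (Fin N) K ⧸ J) →+* K) :=
    fun y => Ideal.Quotient.lift J (eval (y : Fin N → K)) fun g hg => y.2 g hg
  have hsurj : ∀ y, Function.Surjective (ev y) := by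
    intro y c
    refine ⟨Ideal.Quotient.mk J (C c), ?_⟩
    simp [ev]
  let φ : {y : Fin N → K | ∀ g ∈ J, eval y g = 0} →
      MaximalSpectrum (MvPolynomial (Fin N) K ⧸ J) := fun y =>
    ⟨RingHom.ker (ev y), RingHom.ker_isMaximal_of_surjective _ (hsurj y)⟩
  have hinj : Function.Injective φ := by
    intro y y' h
    have h1 : RingHom.ker (ev y) = RingHom.ker (ev y') := congrArg MaximalSpectrum.asIdeal h
    apply Subtype.ext
    funext i
    have h2 : Ideal.Quotient.mk J (X i - C ((y : Fin N → K) i)) ∈ RingHom.ker (ev y) := by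
      rw [RingHom.mem_ker]
      simp [ev]
    rw [h1, RingHom.mem_ker] at h2
    have h3 : (y' : Fin N → K) i - (y : Fin N → K) i = 0 := by
      simpa [ev] using h2
    exact (sub_eq_zero.1 h3).symm
  haveI : Finite {y : Fin N → K | ∀ g ∈ J, eval y g = 0} := Finite.of_injective φ hinj
  exact Set.toFinite _

attribute [local instance] MvPolynomial.gradedAlgebra

/-- An infinite closed set meets every hypersurface of positive degree. -/
theorem exists_zero_of_infinite {ν : ℕ} {T : Set (MvPolynomial (Fin (ν + 1)) ℂ)}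
    (hT : ∀ g ∈ T, ∃ e : ℕ, g.IsHomogeneous e) {G : MvPolynomial (Fin (ν + 1)) ℂ} {e : ℕ}
    (he : 1 ≤ e) (hG : G.IsHomogeneous e) (p : ℕ → Fin (ν + 1) → ℂ) (hp : ∀ n, p n ≠ 0)
    (hne : ∀ n m, n ≠ m → ¬ PEq (p n) (p m)) (hpT : ∀ n, ∀ g ∈ T, eval (p n) g = 0) :
    ∃ y : Fin (ν + 1) → ℂ, y ≠ 0 ∧ (∀ g ∈ T, eval y g = 0) ∧ eval y G = 0 := by
  classical
  by_contra hcon
  push Not at hcon
  have hno : ∀ z : Fin (ν + 1) → ℂ, (∀ g ∈ T, eval z g = 0) → eval z G = 0 → z = 0 := by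
    intro z hz hzG
    by_contra h0
    exact hcon z h0 hz hzG
  have hev : ∀ (z : Fin (ν + 1) → ℂ) (P : MvPolynomial (Fin (ν + 1)) ℂ),
      aeval z P = eval z P := fun z P => by
    rw [aeval_def, Algebra.algebraMap_self, eval₂_id]
  obtain ⟨r, hr, hX⟩ := exists_pow_mem (K := ℂ) (Ideal.span (insert G T)) (by
    intro x hx
    refine hno x (fun g hg => ?_) ?_
    · rw [← hev]
      exact hx g (Ideal.subset_span (Set.mem_insert_of_mem _ hg))
    · rw [← hev]
      exact hx _ (Ideal.subset_span (Set.mem_insert _ _)))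
  have hhom : ∀ g ∈ Ideal.span T, ∀ n, homogeneousComponent n g ∈ Ideal.span T := by
    intro g hg n
    have h2 : (Ideal.span T).IsHomogeneous (homogeneousSubmodule (Fin (ν + 1)) ℂ) := by
      refine Ideal.homogeneous_span _ _ fun x hx => ?_
      obtain ⟨e, he⟩ := hT x hx
      exact ⟨e, he⟩
    exact homogeneousComponent_mem_of_mem h2 hg n
  -- the equations
  have h1 : ∀ i : Fin (ν + 1), ∃ v : MvPolynomial (Fin (ν + 1)) ℂ, v.totalDegree < r ∧
      X i ^ r - v * G ∈ Ideal.span T := by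
    intro i
    obtain ⟨a, g, hg, hga⟩ := Ideal.mem_span_insert.1 (hX i)
    have h3 := congrArg (homogeneousComponent r) hga
    have h4 : homogeneousComponent r (X i ^ r : MvPolynomial (Fin (ν + 1)) ℂ) = X i ^ r := by
      rw [homogeneousComponent_of_mem ((mem_homogeneousSubmodule _ _).2 (isHomogeneous_X_pow i r)),
        if_pos rfl]
    rw [h4, map_add] at h3
    rcases Nat.lt_or_ge r e with h5 | h5
    · refine ⟨0, ?_, ?_⟩
      · rw [totalDegree_zero]
        exact hr
      · have h6 : homogeneousComponent r (a * G) = 0 := by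
          conv_lhs => rw [← sum_homogeneousComponent (φ := a), Finset.sum_mul, map_sum]
          refine Finset.sum_eq_zero fun i _ => ?_
          have h2 : (homogeneousComponent i a * G).IsHomogeneous (i + e) :=
            (homogeneousComponent_isHomogeneous i a).mul hG
          rw [homogeneousComponent_of_mem (h2 : _ ∈ homogeneousSubmodule (Fin (ν + 1)) ℂ _),
            if_neg (by omega)]
        rw [h3, h6, zero_add, zero_mul, sub_zero]
        exact hhom g hg r
    · obtain ⟨r', rfl⟩ : ∃ r', r = r' + e := ⟨r - e, by omega⟩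
      refine ⟨homogeneousComponent r' a, ?_, ?_⟩
      · refine lt_of_le_of_lt (homogeneousComponent_isHomogeneous _ _).totalDegree_le ?_
        omega
      · rw [h3, homogeneousComponent_mul_of_homogeneous hG a r', add_sub_cancel_left]
        exact hhom g hg _
  choose v hv hvT using h1
  -- the normalised points
  have hGp : ∀ n, eval (p n) G ≠ 0 := fun n h => hp n (hno _ (hpT n) h)
  have hc : ∀ n, ∃ c : ℂ, c ^ e = (eval (p n) G)⁻¹ := fun n =>
    IsAlgClosed.exists_pow_nat_eq _ (by omega)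
  choose c hc using hc
  have hc0 : ∀ n, c n ≠ 0 := by
    intro n h
    have h2 := hc n
    rw [h, zero_pow (by omega)] at h2
    exact inv_ne_zero (hGp n) h2.symm
  have hsmul : ∀ (g : MvPolynomial (Fin (ν + 1)) ℂ) (m : ℕ), g.IsHomogeneous m →
      ∀ (t : ℂ) (y : Fin (ν + 1) → ℂ), eval (t • y) g = t ^ m * eval y g := by
    intro g m hg t y
    exact Pool.Agent.Helper38.Dml.eval_smul_of_homog hg t y
  set q : ℕ → Fin (ν + 1) → ℂ := fun n => c n • p n with hq
  have hqT : ∀ n, ∀ g ∈ T, eval (q n) g = 0 := by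
    intro n g hg
    obtain ⟨m, hm⟩ := hT g hg
    rw [hq]
    change eval (c n • p n) g = 0
    rw [hsmul g m hm, hpT n g hg, mul_zero]
  have hqG : ∀ n, eval (q n) G = 1 := by
    intro n
    change eval (c n • p n) G = 1
    rw [hsmul G e hG, hc, inv_mul_cancel₀ (hGp n)]
  set J : Ideal (MvPolynomial (Fin (ν + 1)) ℂ) :=
    Ideal.span (Set.range fun i => X i ^ r - v i) with hJ
  haveI := finite_of_rel0 J r hr fun i => ⟨v i, hv i, Ideal.subset_span ⟨i, rfl⟩⟩
  have hfin := finite_zeros J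
  have hqJ : ∀ n, q n ∈ {y : Fin (ν + 1) → ℂ | ∀ g ∈ J, eval y g = 0} := by
    intro n
    have h2 : J ≤ RingHom.ker (eval (q n)) := by
      rw [hJ, Ideal.span_le]
      rintro _ ⟨i, rfl⟩
      have h3 : Ideal.span T ≤ RingHom.ker (eval (q n)) := by
        rw [Ideal.span_le]
        intro g hg
        exact hqT n g hg
      have h4 := h3 (hvT i)
      rw [RingHom.mem_ker, map_sub, map_mul, hqG, mul_one] at h4
      change eval (q n) (X i ^ r - v i) = 0
      rw [map_sub]
      exact h4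
    exact fun g hg => h2 hg
  have hinj : Function.Injective q := by
    intro n m h
    by_contra hnm
    refine hne n m hnm ⟨(c m)⁻¹ * c n, mul_ne_zero (inv_ne_zero (hc0 m)) (hc0 n), ?_⟩
    have h2 : c n • p n = c m • p m := h
    rw [mul_smul, h2, smul_smul, inv_mul_cancel₀ (hc0 m), one_smul]
  exact (Set.infinite_range_of_injective hinj) (hfin.subset (by
    rintro _ ⟨n, rfl⟩
    exact hqJ n))

end Pool.Agent.Helper30.THC

end

section

namespace Pool.Agent.Helper50.Dem
end Pool.Agent.Helper50.Dem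

/-!
# Homogeneous components, divisors of forms, orders of products
-/

set_option autoImplicit false

open MvPolynomial

namespace Pool.Agent.Helper50.N2

open Pool.Agent.Helper50.Dem

section ring

variable {σ : Type} {K : Type*} [CommRing K]

/-- the homomorphism `f(x) ↦ f(λ x)` -/
noncomputable def Gam : MvPolynomial σ K →ₐ[K] Polynomial (MvPolynomial σ K) :=
  aeval (fun i => Polynomial.X * Polynomial.C (X i))

lemma Gam_monomial (u : σ →₀ ℕ) (a : K) :
    Gam (monomial u a) = Polynomial.monomial u.degree (monomial u a) := by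
  induction u using Finsupp.induction_linear generalizing a with
  | zero =>
    have h1 : (monomial 0 a : MvPolynomial σ K) = algebraMap K _ a := rfl
    rw [h1, AlgHom.commutes, map_zero]
    rfl
  | add f g hf hg =>
    have h1 : (monomial (f + g) a : MvPolynomial σ K) = monomial f a * monomial g 1 := by
      rw [monomial_mul, mul_one]
    rw [h1, map_mul, hf, hg, Polynomial.monomial_mul_monomial, map_add]
  | single i n =>
    have h1 : (monomial (Finsupp.single i n) a : MvPolynomial σ K) = C a * X i ^ n := by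
      rw [X_pow_eq_monomial, C_mul_monomial, mul_one]
    have h2 : Gam (C a : MvPolynomial σ K) = Polynomial.C (C a) := by
      rw [← algebraMap_eq, AlgHom.commutes]; rfl
    rw [h1, map_mul, map_pow, h2, Finsupp.degree_single]
    have h3 : Gam (X i : MvPolynomial σ K) = Polynomial.X * Polynomial.C (X i) := by simp [Gam]
    rw [h3, mul_pow, ← Polynomial.C_mul_X_pow_eq_monomial, Polynomial.C_mul, Polynomial.C_pow]
    ring

lemma Gam_coeff (f : MvPolynomial σ K) (n : ℕ) :
    (Gam f).coeff n = homogeneousComponent n f := by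
  classical
  induction f using MvPolynomial.induction_on' with
  | monomial u a =>
    rw [Gam_monomial, Polynomial.coeff_monomial,
      homogeneousComponent_of_mem (isHomogeneous_monomial a rfl)]
    by_cases h : u.degree = n
    · rw [if_pos h, if_pos h.symm]
    · rw [if_neg h, if_neg (Ne.symm h)]
  | add f g hf hg => rw [map_add, Polynomial.coeff_add, hf, hg, map_add]

lemma Gam_form {f : MvPolynomial σ K} {d : ℕ} (hf : f.IsHomogeneous d) :
    Gam f = Polynomial.C f * Polynomial.X ^ d := by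
  ext1 n
  rw [Gam_coeff, Polynomial.coeff_C_mul_X_pow, homogeneousComponent_of_mem hf]

end ring

section domain

variable {σ : Type} {K : Type*} [CommRing K] [IsDomain K]

/-- divisors of forms are forms -/
lemma form_of_mul {f a b : MvPolynomial σ K} {d : ℕ} (hf : f.IsHomogeneous d) (h0 : f ≠ 0)
    (hab : f = a * b) : ∃ i j : ℕ, a.IsHomogeneous i ∧ b.IsHomogeneous j ∧ i + j = d := by
  have ha0 : a ≠ 0 := by rintro rfl; exact h0 (by rw [hab, zero_mul])
  have hb0 : b ≠ 0 := by rintro rfl; exact h0 (by rw [hab, mul_zero])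
  have hinj : Function.Injective (Gam : MvPolynomial σ K →ₐ[K] _) := by
    intro u v huv
    ext m
    have h1 := congrArg (fun q => coeff m (Polynomial.coeff q m.degree)) huv
    simp only [Gam_coeff, coeff_homogeneousComponent, if_pos] at h1
    exact h1
  have hGa : Gam a ≠ 0 := fun h => ha0 (hinj (by rw [h, map_zero]))
  have hGb : Gam b ≠ 0 := fun h => hb0 (hinj (by rw [h, map_zero]))
  have h1 : Gam a * Gam b = Polynomial.C f * Polynomial.X ^ d := by
    rw [← map_mul, ← hab, Gam_form hf]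
  have h2 : (Gam a).natDegree + (Gam b).natDegree = d := by
    rw [← Polynomial.natDegree_mul hGa hGb, h1, Polynomial.natDegree_C_mul_X_pow _ _ h0]
  have h3 : (Gam a).natTrailingDegree + (Gam b).natTrailingDegree = d := by
    rw [← Polynomial.natTrailingDegree_mul hGa hGb, h1, Polynomial.C_mul_X_pow_eq_monomial,
      Polynomial.natTrailingDegree_monomial h0]
  have h4 := Polynomial.natTrailingDegree_le_natDegree (Gam a)
  have h5 := Polynomial.natTrailingDegree_le_natDegree (Gam b)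
  have key : ∀ c : MvPolynomial σ K, (Gam c).natTrailingDegree = (Gam c).natDegree →
      c.IsHomogeneous (Gam c).natDegree := by
    intro c hc
    have h6 : ∀ n, n ≠ (Gam c).natDegree → homogeneousComponent n c = 0 := by
      intro n hn
      rw [← Gam_coeff]
      rcases lt_or_gt_of_ne hn with h | h
      · exact Polynomial.coeff_eq_zero_of_lt_natTrailingDegree (by omega)
      · exact Polynomial.coeff_eq_zero_of_natDegree_lt h
    rw [← sum_homogeneousComponent c]
    have h7 : ∀ i ∈ Finset.range (c.totalDegree + 1), (homogeneousComponent i c).IsHomogeneous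
        (Gam c).natDegree := by
      intro i _
      by_cases hi : i = (Gam c).natDegree
      · rw [← hi]; exact homogeneousComponent_isHomogeneous _ _
      · rw [h6 i hi]; exact isHomogeneous_zero _ _ _
    have h8 := IsHomogeneous.sum (Finset.range (c.totalDegree + 1))
      (fun i => homogeneousComponent i c) _ h7
    rwa [sum_homogeneousComponent c] at h8 ⊢
  refine ⟨_, _, key a (by omega), key b (by omega), h2⟩

end domain

end Pool.Agent.Helper50.N2

end

section

namespace Pool.Agent.Helper16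
end Pool.Agent.Helper16
namespace Pool.Agent.Helper36
end Pool.Agent.Helper36
namespace Pool.Agent.Helper30.TP
end Pool.Agent.Helper30.TP
namespace Pool.Agent.Helper63.TK
end Pool.Agent.Helper63.TK

set_option autoImplicit false

namespace Pool.Agent.Helper30.TK2

open MvPolynomial

open Pool.Agent.Helper16 (Place IsFunctionField)

open Pool.Agent.Helper36 (step iter iter_zero iter_succ iter_succ' iter_add iter_map)

open Pool.Agent.Helper30.TP

theorem exists_progressions {T : Set ℕ} {n₁ M : ℕ} (hM : 0 < M)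
    (h : ∀ s < M, (∀ l, n₁ + M * l + s ∈ T) ∨ {l | n₁ + M * l + s ∈ T}.Finite) :
    ∃ Q : Finset (ℕ × ℕ), T = {n | ∃ q ∈ Q, ∃ k, n = q.1 * k + q.2} := by
  classical
  set full : ℕ → Prop := fun s => ∀ l, n₁ + M * l + s ∈ T with hfull
  set A : Set ℕ := {n | n ∈ T ∧ (n < n₁ ∨ ¬ full ((n - n₁) % M))} with hA
  have hAfin : A.Finite := by
    refine Set.Finite.subset ((Set.finite_lt_nat n₁).union
      (Set.Finite.biUnion (Set.finite_lt_nat M) (t := fun s =>
        (fun l => n₁ + M * l + s) '' {l | ¬ full s ∧ n₁ + M * l + s ∈ T}) ?_)) ?_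
    · intro s hs
      apply Set.Finite.image
      by_cases hf : full s
      · simp [hf]
      · exact ((h s hs).resolve_left hf).subset fun l hl => hl.2
    · rintro n ⟨hnT, hn⟩
      rcases Nat.lt_or_ge n n₁ with hlt | hge
      · exact Or.inl hlt
      · right
        have hnf := hn.resolve_left (by omega)
        rw [Set.mem_iUnion₂]
        have h1 : n₁ + M * ((n - n₁) / M) + (n - n₁) % M = n := by
          have := Nat.div_add_mod (n - n₁) M
          omega
        exact ⟨(n - n₁) % M, Nat.mod_lt _ hM, (n - n₁) / M,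
          ⟨hnf, by rw [h1]; exact hnT⟩, h1⟩
  refine ⟨hAfin.toFinset.image (fun n => (0, n)) ∪
    ((Finset.range M).filter fun s => full s).image (fun s => (M, n₁ + s)), ?_⟩
  ext n
  simp only [Set.mem_setOf_eq, Finset.mem_union, Finset.mem_image, Set.Finite.mem_toFinset,
    Finset.mem_filter, Finset.mem_range]
  constructor
  · intro hn
    by_cases hnA : n ∈ A
    · exact ⟨(0, n), Or.inl ⟨n, hnA, rfl⟩, 0, by simp⟩
    · have h2 : n₁ ≤ n ∧ full ((n - n₁) % M) := by
        by_contra hcon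
        apply hnA
        refine ⟨hn, ?_⟩
        by_contra h3
        push Not at h3
        exact hcon ⟨h3.1, h3.2⟩
      refine ⟨(M, n₁ + (n - n₁) % M), Or.inr ⟨(n - n₁) % M, ⟨Nat.mod_lt _ hM, h2.2⟩, rfl⟩,
        (n - n₁) / M, ?_⟩
      have := Nat.div_add_mod (n - n₁) M
      have := h2.1
      simp only
      omega
  · rintro ⟨q, hq | hq, k, rfl⟩
    · obtain ⟨n, hn, rfl⟩ := hq
      simpa using hn.1
    · obtain ⟨s, ⟨-, hs⟩, rfl⟩ := hq
      have := hs k
      rwa [show M * k + (n₁ + s) = n₁ + M * k + s by ring]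

section

variable {K : Type} [Field K]

end

end Pool.Agent.Helper30.TK2

end

section

namespace Pool.Agent.Helper10.Sub
end Pool.Agent.Helper10.Sub

set_option autoImplicit false

namespace Pool.Agent.Helper53.Sub

open Pool.Agent.Helper10.Sub MvPolynomial Finset

variable {ι : Type} [Fintype ι] [DecidableEq ι] {T : Type} [Fintype T] {p : T → ℕ}
  [∀ t, Fact (p t).Prime]

theorem machine_of_roth1 (hR : Pool.Agent.Helper80.Sub.Roth1Statement)
    (S : Sys ι T p) (hp : Function.Injective p) (hι : 2 ≤ Fintype.card ι)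
    (c : ι → ℝ) (c' : T → ι → ℝ) (hc : ∑ i, c i + ∑ t, ∑ i, c' t i < 0)
    (δ C1 : ℝ) (hδ : 0 < δ) :
    {m : ι → ℤ | Prim m ∧ ∃ Q : ℝ, 1 ≤ Q ∧ Q ^ δ ≤ htv m ∧ htv m ≤ Q ^ C1 ∧
      ∃ y : Fin (Fintype.card ι - 1) → ι → ℚ, LinearIndependent ℚ y ∧
        (∀ j, PVec (pprod p) (y j)) ∧ (∀ j, ∑ i, (m i : ℚ) * y j i = 0) ∧
        (∀ j i, |S.L (y j) i| ≤ Q ^ (c i)) ∧
        (∀ t j i, ‖S.L' t (y j) i‖ ≤ Q ^ (c' t i))}.Finite :=
  machine_of S hp hι
    (fun b ε hε => Pool.Agent.Helper80.Sub.rothH_of_roth1 hR ι hι b ε hε)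
    (fun G r hdeg y z hz hne N => Pool.Agent.Helper41.Sub.grid G r hdeg y z hz hne N)
    (fun ε hε => Pool.Agent.Helper43.Sub.aux S (by omega) ε hε)
    c c' hc δ C1 hδ

end Pool.Agent.Helper53.Sub

end

section

namespace Pool.Agent.Helper10.Sub
end Pool.Agent.Helper10.Sub

set_option autoImplicit false

set_option linter.unusedSectionVars false

namespace Pool.Agent.Helper94.Sub

open Pool.Agent.Helper10.Sub

variable {ι : Type} [Fintype ι] [DecidableEq ι]
  {T : Type} [Fintype T] {p : T → ℕ} [∀ t, Fact (p t).Prime]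

theorem roth1Statement : Pool.Agent.Helper80.Sub.Roth1Statement :=
  fun b ε hε => Pool.Agent.Helper71.Sub.roth1 b ε hε

/-- The penultimate minimum theorem. -/
theorem penult (S : Sys ι T p) (hp : Function.Injective p) (hι : 2 ≤ Fintype.card ι)
    (δ B : ℝ) (hδ : 0 < δ) :
    {m : ι → ℤ | Prim m ∧ ∃ Q : ℝ, 1 ≤ Q ∧ ∃ (a : ι → ℝ) (a' : T → ι → ℝ),
      (∀ i, Q ^ (-B) ≤ a i ∧ a i ≤ Q ^ B) ∧ (∀ t i, Q ^ (-B) ≤ a' t i ∧ a' t i ≤ Q ^ B) ∧
      wprod a a' ≤ 1 ∧ ∃ y : Fin (Fintype.card ι - 1) → ι → ℚ, LinearIndependent ℚ y ∧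
        (∀ j, PVec (pprod p) (y j)) ∧ (∀ j, ∑ i, (m i : ℚ) * y j i = 0) ∧
        (∀ j, S.N a a' (y j) ≤ Q ^ (-δ))}.Finite :=
  Pool.Agent.Helper51.Sub.penult_of S hp hι
    (fun c c' hc δ C1 hδ =>
      Pool.Agent.Helper53.Sub.machine_of_roth1 roth1Statement S hp hι c c' hc δ C1 hδ)
    (fun β hβ => Pool.Agent.Helper47.Sub.liouR β hβ)
    (fun t β hβ => Pool.Agent.Helper47.Sub.liouP (p t) β hβ) δ B hδ

theorem inputs (hp : Function.Injective p) : Inputs T p where
  low := fun ι _ _ S => Pool.Agent.Helper1.Sub.minkLower S hp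
  mink := fun ι _ _ S => Pool.Agent.Helper68.Sub.mink2 S hp
  dav := fun ι _ _ S => by
    obtain ⟨C, hC, h⟩ := Pool.Agent.Helper49.Sub.dav S 1 one_pos
    refine ⟨C, hC, ?_⟩
    intro a a' ha ha' x hx hmin ρ hρ hanti hmono
    exact h a a' ha ha' x hx (fun j y hy hyn => by
      rw [one_mul]
      exact hmin j y hy hyn) ρ hρ hanti (fun i j hij => by
      rw [one_mul]
      exact hmono i j hij)
  dual := fun ι _ _ S h1 => Pool.Agent.Helper1.Sub.dualMin S h1
  pen := fun ι _ _ S h2 δ B hδ => penult S hp h2 δ B hδ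

/-- The parametric Subspace Theorem. -/
theorem subspace (S : Sys ι T p) (hp : Function.Injective p) (hι : 2 ≤ Fintype.card ι)
    (δ B : ℝ) (hδ : 0 < δ) : ∃ 𝒲 : Finset (Submodule ℚ (ι → ℚ)), (∀ W ∈ 𝒲, W ≠ ⊤) ∧
    ∀ (Q : ℝ) (a : ι → ℝ) (a' : T → ι → ℝ), 1 ≤ Q →
      (∀ i, Q ^ (-B) ≤ a i ∧ a i ≤ Q ^ B) → (∀ t i, Q ^ (-B) ≤ a' t i ∧ a' t i ≤ Q ^ B) →
      wprod a a' ≤ Q ^ (-δ) → ∀ x : ι → ℚ, PVec (pprod p) x → S.N a a' x ≤ 1 →
      ∃ W ∈ 𝒲, x ∈ W :=
  subspace_of_inputs (inputs hp) hp hι S δ B hδ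

end Pool.Agent.Helper94.Sub

end

section

namespace Pool.Agent.Helper10.Sub
end Pool.Agent.Helper10.Sub

/-!
# Subspace theorem project: forms with values in `ℂ` and in finite extensions of `ℚ_p`
-/

set_option autoImplicit false

set_option linter.unusedSectionVars false

namespace Pool.Agent.Helper94.Sub

open Pool.Agent.Helper10.Sub

theorem span_algebraic_complex : Submodule.span ℝ {x : ℂ | IsAlgebraic ℚ x} = ⊤ := by
  rw [eq_top_iff]
  intro z _
  have h1 : z = z.re • (1 : ℂ) + z.im • Complex.I := by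
    apply Complex.ext <;> simp
  rw [h1]
  refine Submodule.add_mem _ (Submodule.smul_mem _ _ (Submodule.subset_span ?_))
    (Submodule.smul_mem _ _ (Submodule.subset_span ?_))
  · exact isAlgebraic_one
  · show IsAlgebraic ℚ Complex.I
    refine ⟨Polynomial.X ^ 2 + 1, ?_, ?_⟩
    · exact (Polynomial.monic_X_pow_add_C (1 : ℚ) two_ne_zero).ne_zero
    · simp

/-- SUBF -/
theorem subspaceF {ι : Type} [Fintype ι] [DecidableEq ι] {T : Type} [Fintype T] {p : T → ℕ}
    [∀ t, Fact (p t).Prime] (F : T → Type) [∀ t, NontriviallyNormedField (F t)]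
    [∀ t, NormedAlgebra ℚ_[p t] (F t)] [∀ t, FiniteDimensional ℚ_[p t] (F t)]
    [∀ t, CharZero (F t)]
    (hF : ∀ t, Submodule.span ℚ_[p t] {x : F t | IsAlgebraic ℚ x} = ⊤)
    (δ B : ℝ)
    (hsub : ∀ S : Sys ι T p, ∃ 𝒲 : Finset (Submodule ℚ (ι → ℚ)), (∀ W ∈ 𝒲, W ≠ ⊤) ∧
      ∀ (Q : ℝ) (a : ι → ℝ) (a' : T → ι → ℝ), 1 ≤ Q →
      (∀ i, Q ^ (-(B + 1)) ≤ a i ∧ a i ≤ Q ^ (B + 1)) →
      (∀ t i, Q ^ (-(B + 1)) ≤ a' t i ∧ a' t i ≤ Q ^ (B + 1)) →
      wprod a a' ≤ Q ^ (-(δ / 2)) → ∀ x : ι → ℚ, PVec (pprod p) x → S.N a a' x ≤ 1 →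
      ∃ W ∈ 𝒲, x ∈ W)
    (hp : Function.Injective p) (hι : 2 ≤ Fintype.card ι) (hδ : 0 < δ)
    (A : Matrix ι ι ℂ) (A' : ∀ t, Matrix ι ι (F t))
    (algA : ∀ i j, IsAlgebraic ℚ (A i j)) (algA' : ∀ t i j, IsAlgebraic ℚ (A' t i j))
    (detA : A.det ≠ 0) (detA' : ∀ t, (A' t).det ≠ 0) :
    ∃ 𝒲 : Finset (Submodule ℚ (ι → ℚ)), (∀ W ∈ 𝒲, W ≠ ⊤) ∧
      ∀ (Q : ℝ) (a : ι → ℝ) (a' : T → ι → ℝ), 1 ≤ Q →
      (∀ i, Q ^ (-B) ≤ a i ∧ a i ≤ Q ^ B) → (∀ t i, Q ^ (-B) ≤ a' t i ∧ a' t i ≤ Q ^ B) →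
      wprod a a' ≤ Q ^ (-δ) → ∀ x : ι → ℚ, PVec (pprod p) x →
      (∀ i, ‖∑ j, A i j * ((x j : ℚ) : ℂ)‖ ≤ a i) →
      (∀ t i, ‖∑ j, A' t i j * ((x j : ℚ) : F t)‖ ≤ a' t i) → ∃ W ∈ 𝒲, x ∈ W := by
  classical
  obtain ⟨A0, C0, hC0, hdet0, halg0, hbd0⟩ :=
    exists_select_bound (k := ℝ) (K := ℂ) span_algebraic_complex A algA detA
  have h1 := fun t => exists_select_bound (k := ℚ_[p t]) (K := F t) (hF t) (A' t) (algA' t)
    (detA' t)
  choose A1 C1 hC1 hdet1 halg1 hbd1 using h1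
  set S : Sys ι T p := ⟨A0, A1, halg0, halg1, hdet0, hdet1⟩ with hS
  set C : ℝ := C0 + ∑ t, C1 t with hC
  have hCs : ∀ t, C1 t ≤ C := by
    intro t
    have h1 : C1 t ≤ ∑ t, C1 t := Finset.single_le_sum (f := C1)
      (fun t _ => by linarith [hC1 t]) (Finset.mem_univ t)
    linarith
  have hCs0 : C0 ≤ C := by
    have h1 : 0 ≤ ∑ t, C1 t := Finset.sum_nonneg fun t _ => by linarith [hC1 t]
    linarith
  have hC1' : 1 ≤ C := hC0.trans hCs0
  have hCpos : 0 < C := by linarith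
  obtain ⟨𝒲, h𝒲, hW⟩ := hsub S
  set r : ℕ := Fintype.card ι + Fintype.card T * Fintype.card ι with hr
  obtain ⟨Q1, hQ1, hQ1'⟩ := exists_ge_rpow (C ^ r) (δ / 2) (by positivity)
  set Q2 : ℝ := max Q1 C with hQ2
  have hQ2one : 1 ≤ Q2 := hC1'.trans (le_max_right _ _)
  obtain ⟨F0, hF0, hF0'⟩ := finite_lines S hp 1 (C * Q2 ^ |B|)
  -- the size of the solutions
  have hsize : ∀ (a : ι → ℝ) (a' : T → ι → ℝ), (∀ i, 0 < a i) → (∀ t i, 0 < a' t i) →
      ∀ x : ι → ℚ, (∀ i, ‖∑ j, A i j * ((x j : ℚ) : ℂ)‖ ≤ a i) →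
      (∀ t i, ‖∑ j, A' t i j * ((x j : ℚ) : F t)‖ ≤ a' t i) →
      S.N (fun i => C * a i) (fun t i => C * a' t i) x ≤ 1 := by
    intro a a' ha ha' x h1 h2
    have e1 : S.Ninf (fun i => C * a i) x ≤ 1 := by
      unfold Sys.Ninf
      refine (pi_norm_le_iff_of_nonneg zero_le_one).2 fun i => ?_
      rw [norm_div, Real.norm_eq_abs (C * a i), abs_of_pos (mul_pos hCpos (ha i)),
        div_le_one (mul_pos hCpos (ha i))]
      refine (hbd0 x i).trans ?_
      exact mul_le_mul hCs0 (h1 i) (norm_nonneg _) hCpos.le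
    have e2 : ∀ t, S.Np t (fun i => C * a' t i) x ≤ 1 := by
      intro t
      unfold Sys.Np
      refine (pi_norm_le_iff_of_nonneg zero_le_one).2 fun i => ?_
      rw [norm_div, norm_norm, Real.norm_eq_abs (C * a' t i), abs_of_pos (mul_pos hCpos (ha' t i)),
        div_le_one (mul_pos hCpos (ha' t i))]
      refine (hbd1 t x i).trans ?_
      exact mul_le_mul (hCs t) (h2 t i) (norm_nonneg _) hCpos.le
    unfold Sys.N
    calc _ ≤ (1 : ℝ) * 1 := by
          refine mul_le_mul e1 ?_ (Finset.prod_nonneg fun t _ => Np_nonneg _ _ _ _) zero_le_one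
          exact Finset.prod_le_one (fun t _ => Np_nonneg _ _ _ _) fun t _ => e2 t
      _ = 1 := one_mul 1
  refine ⟨(insert ⊥ (F0 ∪ 𝒲)).filter fun W => W ≠ ⊤, fun W hW => (Finset.mem_filter.1 hW).2, ?_⟩
  intro Q a a' hQ ha ha' hw x hx hxa hxa'
  suffices h : ∃ W ∈ insert ⊥ (F0 ∪ 𝒲), x ∈ W ∧ W ≠ ⊤ by
    obtain ⟨W, hW, hxW, hne⟩ := h
    exact ⟨W, Finset.mem_filter.2 ⟨hW, hne⟩, hxW⟩
  have hfr : Module.finrank ℚ (ι → ℚ) = Fintype.card ι := by simp
  by_cases hx0 : x = 0
  · refine ⟨⊥, Finset.mem_insert_self _ _, by simp [hx0], ?_⟩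
    intro h
    have h1 : Module.finrank ℚ (⊥ : Submodule ℚ (ι → ℚ)) = Fintype.card ι := by
      rw [h, finrank_top, hfr]
    rw [finrank_bot] at h1
    omega
  have hQpos : 0 < Q := by linarith
  have hapos : ∀ i, 0 < a i := fun i => (Real.rpow_pos_of_pos hQpos _).trans_le (ha i).1
  have hapos' : ∀ t i, 0 < a' t i := fun t i => (Real.rpow_pos_of_pos hQpos _).trans_le (ha' t i).1
  have hN := hsize a a' hapos hapos' x hxa hxa'
  rcases le_or_gt Q2 Q with hQQ | hQQ
  · -- large `Q`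
    have hCQ : C ≤ Q := (le_max_right _ _).trans hQQ
    have hmono : ∀ y : ℝ, Q ^ (-B) ≤ y ∧ y ≤ Q ^ B →
        Q ^ (-(B + 1)) ≤ C * y ∧ C * y ≤ Q ^ (B + 1) := by
      intro y hy
      have hy0 : 0 < y := (Real.rpow_pos_of_pos hQpos _).trans_le hy.1
      constructor
      · calc Q ^ (-(B + 1)) ≤ Q ^ (-B) := Real.rpow_le_rpow_of_exponent_le hQ (by linarith)
          _ ≤ y := hy.1
          _ ≤ C * y := le_mul_of_one_le_left hy0.le hC1'
      · rw [Real.rpow_add hQpos, Real.rpow_one, mul_comm (Q ^ B)]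
        exact mul_le_mul hCQ hy.2 hy0.le hQpos.le
    have hwp : wprod (fun i => C * a i) (fun t i => C * a' t i) = C ^ r * wprod a a' := by
      unfold wprod
      simp only [Finset.prod_mul_distrib, Finset.prod_const, Finset.card_univ]
      rw [hr, pow_add, mul_comm (Fintype.card T), pow_mul]
      ring
    have hw' : wprod (fun i => C * a i) (fun t i => C * a' t i) ≤ Q ^ (-(δ / 2)) := by
      rw [hwp]
      have e1 := hQ1' Q ((le_max_left _ _).trans hQQ)
      calc C ^ r * wprod a a' ≤ Q ^ (δ / 2) * Q ^ (-δ) :=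
            mul_le_mul e1 hw (wprod_pos hapos hapos').le (Real.rpow_nonneg hQpos.le _)
        _ = Q ^ (-(δ / 2)) := by
            rw [← Real.rpow_add hQpos]
            congr 1
            ring
    obtain ⟨W, hWm, hxW⟩ := hW Q _ _ hQ (fun i => hmono _ (ha i)) (fun t i => hmono _ (ha' t i))
      hw' x hx hN
    exact ⟨W, Finset.mem_insert_of_mem (Finset.mem_union_right _ hWm), hxW, h𝒲 W hWm⟩
  · -- small `Q`
    have hle : ∀ y : ℝ, y ≤ Q ^ B → C * y ≤ C * Q2 ^ |B| := by
      intro y hy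
      refine mul_le_mul_of_nonneg_left ?_ hCpos.le
      calc y ≤ Q ^ B := hy
        _ ≤ Q ^ |B| := Real.rpow_le_rpow_of_exponent_le hQ (le_abs_self _)
        _ ≤ Q2 ^ |B| := Real.rpow_le_rpow hQpos.le hQQ.le (abs_nonneg _)
    have h1 := hF0' _ _ (fun i => ⟨mul_pos hCpos (hapos i), hle _ (ha i).2⟩)
      (fun t i => ⟨mul_pos hCpos (hapos' t i), hle _ (ha' t i).2⟩) x hx hx0 hN
    refine ⟨_, Finset.mem_insert_of_mem (Finset.mem_union_left _ h1),
      Submodule.mem_span_singleton_self _, ?_⟩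
    intro h
    have h2 : Module.finrank ℚ (Submodule.span ℚ {x}) = Fintype.card ι := by
      rw [h, finrank_top, hfr]
    have h3 : Module.finrank ℚ (Submodule.span ℚ {x}) ≤ 1 := by
      have := finrank_span_le_card (R := ℚ) ({x} : Set (ι → ℚ))
      simpa using this
    omega

/-- The parametric Subspace Theorem for forms with values in `ℂ` and in finite extensions of the
fields `ℚ_p`. -/
theorem subspaceF_all {ι : Type} [Fintype ι] [DecidableEq ι] {T : Type} [Fintype T] {p : T → ℕ}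
    [∀ t, Fact (p t).Prime] (F : T → Type) [∀ t, NontriviallyNormedField (F t)]
    [∀ t, NormedAlgebra ℚ_[p t] (F t)] [∀ t, FiniteDimensional ℚ_[p t] (F t)]
    [∀ t, CharZero (F t)]
    (hF : ∀ t, Submodule.span ℚ_[p t] {x : F t | IsAlgebraic ℚ x} = ⊤)
    (δ B : ℝ)
    (hp : Function.Injective p) (hι : 2 ≤ Fintype.card ι) (hδ : 0 < δ)
    (A : Matrix ι ι ℂ) (A' : ∀ t, Matrix ι ι (F t))
    (algA : ∀ i j, IsAlgebraic ℚ (A i j)) (algA' : ∀ t i j, IsAlgebraic ℚ (A' t i j))
    (detA : A.det ≠ 0) (detA' : ∀ t, (A' t).det ≠ 0) :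
    ∃ 𝒲 : Finset (Submodule ℚ (ι → ℚ)), (∀ W ∈ 𝒲, W ≠ ⊤) ∧
      ∀ (Q : ℝ) (a : ι → ℝ) (a' : T → ι → ℝ), 1 ≤ Q →
      (∀ i, Q ^ (-B) ≤ a i ∧ a i ≤ Q ^ B) → (∀ t i, Q ^ (-B) ≤ a' t i ∧ a' t i ≤ Q ^ B) →
      wprod a a' ≤ Q ^ (-δ) → ∀ x : ι → ℚ, PVec (pprod p) x →
      (∀ i, ‖∑ j, A i j * ((x j : ℚ) : ℂ)‖ ≤ a i) →
      (∀ t i, ‖∑ j, A' t i j * ((x j : ℚ) : F t)‖ ≤ a' t i) → ∃ W ∈ 𝒲, x ∈ W :=
  subspaceF F hF δ B (fun S => subspace S hp hι (δ / 2) (B + 1) (by positivity)) hp hι hδ A A'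
    algA algA' detA detA'

end Pool.Agent.Helper94.Sub

end

section

namespace Pool.Agent.Helper85.Sub
end Pool.Agent.Helper85.Sub
namespace Pool.Agent.Helper10.Sub
end Pool.Agent.Helper10.Sub
namespace Pool.Agent.Helper10.RC
end Pool.Agent.Helper10.RC

/-!
# The Subspace theorem as a `PSys` over number fields
-/

set_option autoImplicit false

set_option linter.unusedSectionVars false

set_option linter.style.haveILetI false

namespace Pool.Agent.Helper85.RC

open Pool.Agent.Helper85.Sub Pool.Agent.Helper10.Sub NumberField IsDedekindDomain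

open Pool.Agent.Helper10.RC

section sub

variable {K : Type} [Field K] [NumberField K] {T : Finset Nat.Primes}

end sub

section main

/-- A prime below a finite place. -/
lemma exists_prime_below {K : Type} [Field K] [NumberField K] (v : FinitePlace K) :
    ∃ q : Nat.Primes, ((q : ℕ) : 𝓞 K) ∈ v.maximalIdeal.asIdeal := by
  obtain ⟨p, hp, h⟩ := exists_prime_mem v.maximalIdeal
  exact ⟨⟨p, hp⟩, h⟩

lemma pprod_mem {K : Type} [Field K] [NumberField K] (T : Finset Nat.Primes) (q : Nat.Primes)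
    (hq : q ∈ T) (v : FinitePlace K) (h : ((q : ℕ) : 𝓞 K) ∈ v.maximalIdeal.asIdeal) :
    ((pprod (pr T) : ℕ) : 𝓞 K) ∈ v.maximalIdeal.asIdeal := by
  have h1 : (q : ℕ) ∣ pprod (pr T) := by
    unfold pprod
    exact Finset.dvd_prod_of_mem (pr T) (Finset.mem_univ (⟨q, hq⟩ : T))
  obtain ⟨c, hc⟩ := h1
  rw [hc, Nat.cast_mul]
  exact Ideal.mul_mem_right _ _ h

/-- An embedding extends to a finite extension. -/
lemma exists_extend {K₀ K C : Type} [Field K₀] [NumberField K₀] [Field K] [NumberField K]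
    [Algebra K₀ K] [Field C] [IsAlgClosed C] (τ : K₀ →+* C) :
    ∃ σ : K →+* C, ∀ x, σ (algebraMap K₀ K x) = τ x := by
  letI : Algebra K₀ C := τ.toAlgebra
  haveI : Algebra.IsAlgebraic K₀ K := Algebra.IsAlgebraic.tower_top (K := ℚ) K₀
  let φ : K →ₐ[K₀] C := IsAlgClosed.lift
  exact ⟨φ, fun x => φ.commutes x⟩

end main

end Pool.Agent.Helper85.RC

end

section

namespace Pool.Agent.Helper10.Sub
end Pool.Agent.Helper10.Sub

/-!
# The Subspace theorem at two places from the Subspace theorem at all embeddings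
-/

set_option autoImplicit false

set_option linter.unusedSectionVars false

namespace Pool.Agent.Helper94.Sub

open Pool.Agent.Helper10.Sub NumberField

/-- Elements algebraic over a number field are algebraic over `ℚ`, also after a homomorphism. -/
theorem isAlgebraic_map {K L F : Type} [Field K] [NumberField K] [Field L] [CharZero L]
    [Algebra K L] [Field F] [Algebra ℚ F] (τ : L →+* F) {x : L} (hx : IsAlgebraic K x) :
    IsAlgebraic ℚ (τ x) := by
  have h1 : IsAlgebraic ℚ x := hx.restrictScalars ℚ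
  exact h1.algHom τ.toRatAlgHom

section forms

variable {K : Type} [Field K] [NumberField K] {L : Type} [NontriviallyNormedField L] [CharZero L]
  [Algebra K L] {Y : Type} [Fintype Y] {V : Submodule K (Y → K)} {M : ℕ}

end forms

end Pool.Agent.Helper94.Sub

end

section

namespace Pool.Agent.Helper85.Sub
end Pool.Agent.Helper85.Sub
namespace Pool.Agent.Helper85.RC
end Pool.Agent.Helper85.RC
namespace Pool.Agent.Helper10.Sub
end Pool.Agent.Helper10.Sub
namespace Pool.Agent.Helper65.RP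
end Pool.Agent.Helper65.RP

/-!
# The Subspace theorem at one distinguished place with algebraic coefficients
-/

set_option autoImplicit false

set_option linter.unusedSectionVars false

set_option linter.style.haveILetI false

namespace Pool.Agent.Helper33.RP

open Pool.Agent.Helper85.Sub Pool.Agent.Helper85.RC Pool.Agent.Helper10.Sub NumberField Polynomial

open IsDedekindDomain

open Pool.Agent.Helper65.RP (PD)

section lifting

variable {K L : Type} [Field K] [NumberField K] [Field L] [NumberField L]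

lemma mem_ffL (j : K →+* L) {p : ℕ} [Fact p.Prime] (σ : K →+* PadicAlgCl p) (x : K) :
    σ x ∈ FF L p := by
  letI : Algebra K L := j.toAlgebra
  obtain ⟨σ', h⟩ := exists_extend (K := L) σ
  rw [← h x]
  exact mem_ff σ' _

/-- Embeddings in the splitting field attached to `L` and in the algebraic closure. -/
noncomputable def lfe (j : K →+* L) {p : ℕ} [Fact p.Prime] :
    (K →+* FF L p) ≃ (K →+* PadicAlgCl p) where
  toFun σ := ((FF L p).val : FF L p →+* PadicAlgCl p).comp σ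
  invFun σ := σ.codRestrict (FF L p) (mem_ffL j σ)
  left_inv σ := by
    ext x
    rfl
  right_inv σ := by
    ext x
    rfl

lemma card_embL (j : K →+* L) {p : ℕ} [Fact p.Prime] :
    Fintype.card (K →+* FF L p) = Module.finrank ℚ K := by
  rw [Fintype.card_congr (lfe j (p := p)),
    Fintype.card_congr (RingHom.equivRatAlgHom K (PadicAlgCl p))]
  exact AlgHom.card ℚ K (PadicAlgCl p)

/-- The embedding in the smaller splitting field. -/
noncomputable def dn (j : K →+* L) {p : ℕ} [Fact p.Prime] : (K →+* FF L p) ≃ (K →+* FF K p) :=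
  (lfe j).trans liftEquiv.symm

lemma dn_lift (j : K →+* L) {p : ℕ} [Fact p.Prime] (σ : K →+* FF L p) :
    liftEquiv (dn j σ) = lfe j σ := liftEquiv.apply_symm_apply _

lemma dn_norm (j : K →+* L) {p : ℕ} [Fact p.Prime] (σ : K →+* FF L p) (x : K) :
    ‖dn j σ x‖ = ‖σ x‖ := by
  have h2 : liftEquiv (dn j σ) x = lfe j σ x := by rw [dn_lift]
  have h3 : ‖dn j σ x‖ = ‖liftEquiv (dn j σ) x‖ := rfl
  rw [h3, h2]
  rfl

/-- The index in `Lam` of an embedding in the larger splitting field. -/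
noncomputable def idx (j : K →+* L) (T : Finset Nat.Primes) (t : T) (σ : K →+* FF L (pr T t)) :
    Lam K T := Sum.inr ⟨t, dn j σ⟩

lemma av_idx (j : K →+* L) (T : Finset Nat.Primes) (t : T) (σ : K →+* FF L (pr T t)) (x : K) :
    av K T (idx j T t σ) x = ‖σ x‖ := by
  rw [idx, av_inr, dn_norm]

lemma prod_idx (j : K →+* L) (T : Finset Nat.Primes) (t : T) (f : Lam K T → ℝ) :
    ∏ σ : K →+* FF L (pr T t), f (idx j T t σ) =
      ∏ σ : K →+* FF K (pr T t), f (Sum.inr ⟨t, σ⟩) :=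
  Equiv.prod_comp (dn j) fun σ => f (Sum.inr ⟨t, σ⟩)

end lifting

/-- The matrix of forms at an embedding. -/
theorem local_mat {K : Type} [Field K] [NumberField K] {Ω₀ C : Type} [NormedField Ω₀]
    [CharZero Ω₀] [NormedField C] [CharZero C] {M : ℕ} (σ₀ : K →+* Ω₀)
    (A : Matrix (Fin M) (Fin M) Ω₀) (hA : ∀ i j, IsAlgebraic ℚ (A i j)) (hdet : A.det ≠ 0)
    (σ : K →+* C) (g : Prop) [Decidable g]
    (hg : g → ∃ τ : Ω₀ →+* C, (∀ z, ‖τ z‖ = ‖z‖) ∧ ∀ x, σ x = τ (σ₀ x)) :
    ∃ l : Matrix (Fin M) (Fin M) C, (∀ i j, IsAlgebraic ℚ (l i j)) ∧ l.det ≠ 0 ∧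
      ∀ (a : Fin M → ℝ) (b : ℝ) (y : Fin M → K), (∀ i, ‖∑ j, A i j * σ₀ (y j)‖ ≤ a i) →
        (¬ g → ∀ i, ‖σ (y i)‖ ≤ b) → ∀ i, ‖∑ j, l i j * σ (y j)‖ ≤ if g then a i else b := by
  by_cases hc : g
  · obtain ⟨τ, hτ, hστ⟩ := hg hc
    refine ⟨A.map τ, fun i j => ?_, ?_, ?_⟩
    · rw [Matrix.map_apply]
      exact (hA i j).algHom τ.toRatAlgHom
    · have h3 : (A.map τ).det = τ A.det := (RingHom.map_det τ _).symm
      rw [h3, _root_.map_ne_zero]
      exact hdet
    · intro a b y ha _ i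
      rw [if_pos hc]
      have h3 : ∑ j, (A.map τ) i j * σ (y j) = τ (∑ j, A i j * σ₀ (y j)) := by
        rw [map_sum]
        refine Finset.sum_congr rfl fun j _ => ?_
        rw [map_mul, hστ, Matrix.map_apply]
      rw [h3, hτ]
      exact ha i
  · refine ⟨1, ?_, ?_, ?_⟩
    · intro i j
      rw [Matrix.one_apply]
      split_ifs
      · exact isAlgebraic_one
      · exact isAlgebraic_zero
    · rw [Matrix.det_one]
      exact one_ne_zero
    · intro a b y _ hb i
      rw [if_neg hc]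
      have h3 : ∑ j, (1 : Matrix (Fin M) (Fin M) C) i j * σ (y j) = σ (y i) := by
        rw [Finset.sum_eq_single i]
        · rw [Matrix.one_apply_eq, one_mul]
        · intro j _ hj
          rw [Matrix.one_apply_ne (Ne.symm hj), zero_mul]
        · simp
      rw [h3]
      exact hb hc i

/-- The Subspace theorem at a set `G` of embeddings conjugate to `σ₀`. -/
theorem sub_gen {K L : Type} [Field K] [NumberField K] [Field L] [NumberField L] (j : K →+* L)
    (T : Finset Nat.Primes) {Ω₀ : Type} [NormedField Ω₀] [CharZero Ω₀] (σ₀ : K →+* Ω₀)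
    (G : Finset (Lam K T))
    (hG1 : ∀ σ : K →+* ℂ, Sum.inl σ ∈ G →
      ∃ τ : Ω₀ →+* ℂ, (∀ z, ‖τ z‖ = ‖z‖) ∧ ∀ x, σ x = τ (σ₀ x))
    (hG2 : ∀ (t : T) (σ : K →+* FF L (pr T t)), idx j T t σ ∈ G →
      ∃ τ : Ω₀ →+* FF L (pr T t), (∀ z, ‖τ z‖ = ‖z‖) ∧ ∀ x, σ x = τ (σ₀ x))
    {M : ℕ} (A : Matrix (Fin M) (Fin M) Ω₀) (hM : 2 ≤ M) (hA : ∀ i j, IsAlgebraic ℚ (A i j))
    (hdet : A.det ≠ 0) (δ B : ℝ) (hδ : 0 < δ) [Fintype {l : Lam K T // l ∉ G}] :
    ∃ 𝒲 : Finset (Submodule K (Fin M → K)), (∀ W ∈ 𝒲, W ≠ ⊤) ∧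
      ∀ (Q : ℝ) (a : Fin M → ℝ) (b : {l : Lam K T // l ∉ G} → ℝ) (y : Fin M → K), 1 ≤ Q →
        (∀ i, y i ∈ OP K (pprod (pr T))) →
        (∀ i, Q ^ (-B) ≤ a i ∧ a i ≤ Q ^ B) → (∀ l, Q ^ (-B) ≤ b l ∧ b l ≤ Q ^ B) →
        (∀ i, ‖∑ j, A i j * σ₀ (y j)‖ ≤ a i) → (∀ l i, av K T l.1 (y i) ≤ b l) →
        (∏ i, a i) ^ G.card * ∏ l, b l ^ M ≤ Q ^ (-δ) → ∃ W ∈ 𝒲, y ∈ W := by
  classical
  let Fl : T → Type := fun t => FF L (pr T t)
  letI : ∀ t, NontriviallyNormedField (Fl t) := fun t => instNNF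
  letI : ∀ t, NormedAlgebra ℚ_[pr T t] (Fl t) := fun t => instNA
  haveI : ∀ t, FiniteDimensional ℚ_[pr T t] (Fl t) := fun t => ff_finite L (pr T t)
  haveI : ∀ t, CharZero (Fl t) := fun t => inferInstanceAs (CharZero (FF L (pr T t)))
  letI : ∀ t, Fintype (K →+* Fl t) := fun t => inferInstanceAs (Fintype (K →+* FF L (pr T t)))
  choose l hl hd hbd using fun σ : K →+* ℂ =>
    local_mat σ₀ A hA hdet σ (Sum.inl σ ∈ G) (hG1 σ)
  choose l' hl' hd' hbd' using fun (t : T) (σ : K →+* FF L (pr T t)) =>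
    local_mat σ₀ A hA hdet σ (idx j T t σ ∈ G) (hG2 t σ)
  obtain ⟨𝒲, h𝒲, hmain⟩ := Pool.Agent.Helper98.Sub.subspaceK (K := K) Fl
    (fun t => card_embL j) M hM δ B hδ
    (fun ι _ _ hι A A' algA algA' dA dA' =>
      Pool.Agent.Helper94.Sub.subspaceF_all Fl (fun t => ff_span) (δ / 2) (B + 1)
        (pr_injective T) hι (by positivity) A A' algA algA' dA dA')
    l l' hl hl' hd hd'
  refine ⟨𝒲, h𝒲, ?_⟩
  intro Q a b y hQ hy ha hb hrow hav hprod
  set wt : Lam K T → Fin M → ℝ := fun s i =>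
    if s ∈ G then a i else (if h : s ∉ G then b ⟨s, h⟩ else 1) with hwt
  have hwt1 : ∀ s i, Q ^ (-B) ≤ wt s i ∧ wt s i ≤ Q ^ B := by
    intro s i
    simp only [hwt]
    by_cases hs : s ∈ G
    · rw [if_pos hs]
      exact ha i
    · rw [if_neg hs, dif_pos hs]
      exact hb _
  have hp : (∏ σ, ∏ i, wt (Sum.inl σ) i) * ∏ t, ∏ σ, ∏ i, wt (idx j T t σ) i ≤ Q ^ (-δ) := by
    refine le_trans (le_of_eq ?_) hprod
    have h1 : (∏ σ, ∏ i, wt (Sum.inl σ) i) * ∏ t, ∏ σ, ∏ i, wt (idx j T t σ) i =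
        ∏ s : Lam K T, ∏ i, wt s i := by
      rw [Fintype.prod_sum_type, Fintype.prod_sigma]
      congr 1
      refine Finset.prod_congr rfl fun t _ => ?_
      exact prod_idx j T t (fun s => ∏ i, wt s i)
    rw [h1, ← Finset.prod_mul_prod_compl G]
    congr 1
    · rw [← Finset.prod_const]
      refine Finset.prod_congr rfl fun s hs => Finset.prod_congr rfl fun i _ => ?_
      simp only [hwt]
      rw [if_pos hs]
    · rw [Finset.prod_subtype Gᶜ (p := fun l => l ∉ G) (fun x => Finset.mem_compl)]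
      refine Finset.prod_congr rfl fun s _ => ?_
      have h2 : ∀ i, wt s.1 i = b s := by
        intro i
        simp only [hwt]
        rw [if_neg s.2, dif_pos s.2]
      rw [Finset.prod_congr rfl fun i _ => h2 i, Finset.prod_const, Finset.card_univ,
        Fintype.card_fin]
  obtain ⟨W, hW, hyW⟩ := hmain Q (fun σ => wt (Sum.inl σ)) (fun t σ => wt (idx j T t σ)) hQ
    (fun σ i => hwt1 _ i) (fun t σ i => hwt1 _ i) hp y (fun k => hy k)
    (fun σ i => by
      have h1 := hbd σ a (if h : Sum.inl σ ∉ G then b ⟨Sum.inl σ, h⟩ else 1) y hrow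
        (fun h i => by
          rw [dif_pos h]
          exact hav ⟨Sum.inl σ, h⟩ i) i
      exact h1)
    (fun t σ i => by
      have h1 := hbd' t σ a (if h : idx j T t σ ∉ G then b ⟨idx j T t σ, h⟩ else 1) y hrow
        (fun h i => by
          rw [dif_pos h]
          rw [← av_idx j T t σ]
          exact hav ⟨idx j T t σ, h⟩ i) i
      exact h1)
  exact ⟨W, hW, hyW⟩

/-- A number field containing given algebraic elements. -/
lemma exists_nf {K : Type} [Field K] [NumberField K] {p : ℕ} [Fact p.Prime]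
    (σ₀ : K →+* PadicAlgCl p) (E : Finset (PadicAlgCl p)) (hE : ∀ x ∈ E, IsAlgebraic ℚ x) :
    ∃ (L : Type) (_ : Field L) (_ : NumberField L) (j : K →+* L) (ι : L →+* PadicAlgCl p),
      (∀ x, ι (j x) = σ₀ x) ∧ ∀ x ∈ E, ∃ y, ι y = x := by
  classical
  let φ : K →ₐ[ℚ] PadicAlgCl p := RingHom.equivRatAlgHom K (PadicAlgCl p) σ₀
  let F : IntermediateField ℚ (PadicAlgCl p) :=
    φ.fieldRange ⊔ IntermediateField.adjoin ℚ (E : Set (PadicAlgCl p))
  haveI h1 : FiniteDimensional ℚ φ.fieldRange := φ.toLinearMap.finiteDimensional_range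
  haveI h2 : FiniteDimensional ℚ (IntermediateField.adjoin ℚ (E : Set (PadicAlgCl p))) :=
    IntermediateField.finiteDimensional_adjoin fun x hx => (hE x hx).isIntegral
  haveI h3 : FiniteDimensional ℚ F := IntermediateField.finiteDimensional_sup _ _
  refine ⟨F, inferInstance, ?_, ?_, F.val.toRingHom, ?_, ?_⟩
  · exact { to_charZero := inferInstance, to_finiteDimensional := h3 }
  · exact σ₀.codRestrict F fun x => le_sup_left (a := φ.fieldRange) ⟨x, rfl⟩
  · intro x
    rfl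
  · intro x hx
    have hxF : x ∈ F := le_sup_right (a := φ.fieldRange)
      (IntermediateField.subset_adjoin ℚ (E : Set (PadicAlgCl p)) hx)
    exact ⟨⟨x, hxF⟩, rfl⟩

/-- Embeddings with the same absolute value are conjugate. -/
lemma exists_conj {K L : Type} [Field K] [NumberField K] [Field L] [NumberField L]
    {p : ℕ} [Fact p.Prime]
    (σ₀ σ : K →+* FF L p) (h : ∀ x, ‖σ x‖ = ‖σ₀ x‖) :
    ∃ τ : FF L p →+* FF L p, (∀ z, ‖τ z‖ = ‖z‖) ∧ ∀ x, σ x = τ (σ₀ x) := by
  set pb := Field.powerBasisOfFiniteOfSeparable ℚ K with hpb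
  let v : FF L p →+* PadicAlgCl p := ((FF L p).val : FF L p →+* PadicAlgCl p)
  have hconj := isConjRoot_of_norm_eq (σ := v.comp σ) (σ' := v.comp σ₀) (fun x => h x) pb.gen
  have hconj' : IsConjRoot ℚ_[p] (σ pb.gen) (σ₀ pb.gen) := by
    have e1 : minpoly ℚ_[p] (σ pb.gen) = minpoly ℚ_[p] (v.comp σ pb.gen) :=
      (IntermediateField.minpoly_eq (σ pb.gen))
    have e2 : minpoly ℚ_[p] (σ₀ pb.gen) = minpoly ℚ_[p] (v.comp σ₀ pb.gen) :=
      (IntermediateField.minpoly_eq (σ₀ pb.gen))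
    rw [IsConjRoot, e1, e2]
    exact hconj
  have := ff_normal L p
  obtain ⟨τ, hτ⟩ := isConjRoot_iff_exists_algEquiv.1 hconj'
  refine ⟨(τ.toRingEquiv : FF L p →+* FF L p), fun z => ff_norm_equiv τ z, ?_⟩
  have h3 : RingHom.equivRatAlgHom K (FF L p) σ = RingHom.equivRatAlgHom K (FF L p)
      ((τ.toRingEquiv : FF L p →+* FF L p).comp σ₀) := by
    refine pb.algHom_ext ?_
    exact hτ.symm
  have h4 := (RingHom.equivRatAlgHom K (FF L p)).injective h3
  intro x
  exact DFunLike.congr_fun h4 x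

/-- The ring `OP` has fraction field `K`. -/
lemma frac_OP {K : Type} [Field K] [NumberField K] (P : ℕ) (x : K) :
    ∃ y ∈ OP K P, y ≠ 0 ∧ x * y ∈ OP K P := by
  obtain ⟨a, b, hb, h⟩ := IsFractionRing.div_surjective (A := 𝓞 K) x
  have hb0 : (algebraMap (𝓞 K) K b) ≠ 0 := by
    rw [Ne, FaithfulSMul.algebraMap_eq_zero_iff]
    exact nonZeroDivisors.ne_zero hb
  refine ⟨algebraMap (𝓞 K) K b, ⟨0, ?_⟩, hb0, ⟨0, ?_⟩⟩
  · rw [pow_zero, one_mul]
    exact RingOfIntegers.isIntegral_coe b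
  · rw [pow_zero, one_mul, ← h, div_mul_cancel₀ _ hb0]
    exact RingOfIntegers.isIntegral_coe a

/-- The structure `PD` attached to a set of conjugate embeddings. -/
noncomputable def mkPD {K Ω : Type} [Field K] [NumberField K] [NormedField Ω] [Algebra K Ω]
    (T : Finset Nat.Primes) (G : Finset (Lam K T)) [Fintype {l : Lam K T // l ∉ G}]
    (hG : G.Nonempty) (hN : ∀ l ∈ G, ∀ x, av K T l x = ‖algebraMap K Ω x‖)
    (hsub : ∀ (M : ℕ) (A : Matrix (Fin M) (Fin M) Ω), 2 ≤ M → (∀ i j, IsAlgebraic K (A i j)) →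
      A.det ≠ 0 → ∀ δ B : ℝ, 0 < δ →
      ∃ 𝒲 : Finset (Submodule K (Fin M → K)), (∀ W ∈ 𝒲, W ≠ ⊤) ∧
      ∀ (Q : ℝ) (a : Fin M → ℝ) (b : {l : Lam K T // l ∉ G} → ℝ) (y : Fin M → K), 1 ≤ Q →
        (∀ i, y i ∈ OP K (pprod (pr T))) →
        (∀ i, Q ^ (-B) ≤ a i ∧ a i ≤ Q ^ B) → (∀ l, Q ^ (-B) ≤ b l ∧ b l ≤ Q ^ B) →
        (∀ i, ‖∑ j, A i j * algebraMap K Ω (y j)‖ ≤ a i) → (∀ l i, av K T l.1 (y i) ≤ b l) →
        (∏ i, a i) ^ G.card * ∏ l, b l ^ M ≤ Q ^ (-δ) → ∃ W ∈ 𝒲, y ∈ W) :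
    PD K Ω {l : Lam K T // l ∉ G} where
  n := G.card
  hn := Finset.card_pos.2 hG
  abv := fun l => av K T l.1
  O := OP K (pprod (pr T))
  frac := frac_OP _
  one_le := by
    classical
    intro x hx h0
    refine (one_le_prod (T := T) hx h0).trans_eq ?_
    rw [← Finset.prod_mul_prod_compl G, Finset.prod_congr rfl fun l hl => hN l hl x,
      Finset.prod_const, Finset.prod_subtype Gᶜ (p := fun l => l ∉ G)
        (fun x => Finset.mem_compl)]
  sub := hsub

/-- The case of a complex embedding. -/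
theorem case_inl {K : Type} [Field K] [NumberField K] (T : Finset Nat.Primes) (σ₀ : K →+* ℂ) :
    ∃ (Ω : Type) (_ : NormedField Ω) (_ : IsAlgClosed Ω) (_ : CharZero Ω)
        (_ : Algebra K Ω) (Λ' : Type) (_ : Fintype Λ') (Z : PD K Ω Λ') (ι : Λ' → Lam K T),
        Z.O = OP K (pprod (pr T)) ∧ (∀ x, ‖algebraMap K Ω x‖ = av K T (Sum.inl σ₀) x) ∧
          ∀ l x, Z.abv l x = av K T (ι l) x := by
  classical
  letI : Algebra K ℂ := σ₀.toAlgebra
  let G : Finset (Lam K T) := {Sum.inl σ₀, Sum.inl ((starRingEnd ℂ).comp σ₀)}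
  have hG0 : (Sum.inl σ₀ : Lam K T) ∈ G := Finset.mem_insert_self _ _
  have hmem : ∀ l ∈ G, l = Sum.inl σ₀ ∨ l = Sum.inl ((starRingEnd ℂ).comp σ₀) := by
    intro l hl
    rcases Finset.mem_insert.1 hl with h | h
    · exact Or.inl h
    · exact Or.inr (Finset.mem_singleton.1 h)
  have hN : ∀ l ∈ G, ∀ x, av K T l x = ‖algebraMap K ℂ x‖ := by
    intro l hl x
    rcases hmem l hl with rfl | rfl
    · rfl
    · rw [av_inl]
      exact Complex.norm_conj (σ₀ x)
  refine ⟨ℂ, inferInstance, inferInstance, inferInstance, inferInstance,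
    {l : Lam K T // l ∉ G}, inferInstance,
    mkPD T G ⟨_, hG0⟩ hN ?_, fun l => l.1, rfl, fun x => rfl, fun l x => rfl⟩
  intro M A hM hA hdet δ B hδ
  refine sub_gen (L := K) (RingHom.id K) T σ₀ G ?_ ?_ A hM (fun i j => ?_) hdet δ B hδ
  · intro σ hσ
    rcases hmem _ hσ with h | h
    · refine ⟨RingHom.id ℂ, fun z => rfl, fun x => ?_⟩
      rw [Sum.inl.inj h]
      rfl
    · refine ⟨starRingEnd ℂ, fun z => Complex.norm_conj z, fun x => ?_⟩
      rw [Sum.inl.inj h]
      rfl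
  · intro t σ hσ
    exfalso
    rcases hmem _ hσ with h | h
    · rw [idx] at h
      exact Sum.inr_ne_inl h
    · rw [idx] at h
      exact Sum.inr_ne_inl h
  · exact Pool.Agent.Helper94.Sub.isAlgebraic_map (K := K) (RingHom.id ℂ) (hA i j)

/-- The case of a `p`-adic embedding. -/
theorem case_inr {K : Type} [Field K] [NumberField K] (T : Finset Nat.Primes) (t₀ : T)
    (σ₀ : K →+* FF K (pr T t₀)) :
    ∃ (Ω : Type) (_ : NormedField Ω) (_ : IsAlgClosed Ω) (_ : CharZero Ω)
        (_ : Algebra K Ω) (Λ' : Type) (_ : Fintype Λ') (Z : PD K Ω Λ') (ι : Λ' → Lam K T),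
        Z.O = OP K (pprod (pr T)) ∧
          (∀ x, ‖algebraMap K Ω x‖ = av K T (Sum.inr ⟨t₀, σ₀⟩) x) ∧
          ∀ l x, Z.abv l x = av K T (ι l) x := by
  classical
  let s₀ : K →+* PadicAlgCl (pr T t₀) := liftEquiv σ₀
  letI : Algebra K (PadicAlgCl (pr T t₀)) := s₀.toAlgebra
  let G : Finset (Lam K T) := (Finset.univ.filter fun σ : K →+* FF K (pr T t₀) =>
    ∀ x, ‖σ x‖ = ‖σ₀ x‖).image fun σ => Sum.inr ⟨t₀, σ⟩
  have hG0 : (Sum.inr ⟨t₀, σ₀⟩ : Lam K T) ∈ G :=
    Finset.mem_image_of_mem _ (Finset.mem_filter.2 ⟨Finset.mem_univ _, fun _ => rfl⟩)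
  have hmem : ∀ l ∈ G, ∃ σ : K →+* FF K (pr T t₀), (∀ x, ‖σ x‖ = ‖σ₀ x‖) ∧
      l = Sum.inr ⟨t₀, σ⟩ := by
    intro l hl
    obtain ⟨σ, h1, h2⟩ := Finset.mem_image.1 hl
    exact ⟨σ, (Finset.mem_filter.1 h1).2, h2.symm⟩
  have hN : ∀ l ∈ G, ∀ x, av K T l x = ‖algebraMap K (PadicAlgCl (pr T t₀)) x‖ := by
    intro l hl x
    obtain ⟨σ, h1, rfl⟩ := hmem l hl
    rw [av_inr, h1 x]
    rfl
  refine ⟨PadicAlgCl (pr T t₀), inferInstance, inferInstance, inferInstance, inferInstance,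
    {l : Lam K T // l ∉ G}, inferInstance,
    mkPD T G ⟨_, hG0⟩ hN ?_, fun l => l.1, rfl, fun x => rfl, fun l x => rfl⟩
  intro M A hM hA hdet δ B hδ
  have hAQ : ∀ i k, IsAlgebraic ℚ (A i k) := fun i k =>
    Pool.Agent.Helper94.Sub.isAlgebraic_map (K := K) (RingHom.id (PadicAlgCl (pr T t₀))) (hA i k)
  obtain ⟨L, _, _, j, ι, hj, hE⟩ := exists_nf s₀
    (Finset.univ.image fun q : Fin M × Fin M => A q.1 q.2) (by
      intro x hx
      obtain ⟨q, -, rfl⟩ := Finset.mem_image.1 hx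
      exact hAQ _ _)
  have hE' : ∀ i k, ∃ y, ι y = A i k := fun i k =>
    hE _ (Finset.mem_image.2 ⟨(i, k), Finset.mem_univ _, rfl⟩)
  choose y hy using hE'
  let A₀ : Matrix (Fin M) (Fin M) (FF L (pr T t₀)) := fun i k => lift ι (y i k)
  let v : FF L (pr T t₀) →+* PadicAlgCl (pr T t₀) :=
    ((FF L (pr T t₀)).val : FF L (pr T t₀) →+* PadicAlgCl (pr T t₀))
  have hv : ∀ i k, v (A₀ i k) = A i k := fun i k => hy i k
  let σ₁ : K →+* FF L (pr T t₀) := (lfe j).symm s₀
  have hσ₁ : ∀ x, v (σ₁ x) = algebraMap K (PadicAlgCl (pr T t₀)) x := by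
    intro x
    have h1 : lfe j σ₁ = s₀ := (lfe j).apply_symm_apply s₀
    have h2 : lfe j σ₁ x = s₀ x := by rw [h1]
    exact h2
  have hvn : ∀ z, ‖v z‖ = ‖z‖ := fun z => rfl
  have hσ₁n : ∀ x, ‖σ₁ x‖ = ‖σ₀ x‖ := by
    intro x
    rw [← hvn, hσ₁]
    rfl
  have hdet₀ : A₀.det ≠ 0 := by
    intro h0
    apply hdet
    have h1 : A = A₀.map v := by
      ext i k
      exact (hv i k).symm
    have h2 : (A₀.map v).det = v A₀.det := (RingHom.map_det v _).symm
    rw [h1, h2, h0, map_zero]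
  have hA₀ : ∀ i k, IsAlgebraic ℚ (A₀ i k) := fun i k => by
    have h1 : IsAlgebraic ℚ (y i k) := Algebra.IsAlgebraic.isAlgebraic _
    exact h1.algHom (lift ι).toRatAlgHom
  obtain ⟨𝒲, h𝒲, hmain⟩ := sub_gen (L := L) j T σ₁ G (by
      intro σ hσ
      exfalso
      obtain ⟨σ', -, h2⟩ := hmem _ hσ
      exact Sum.inl_ne_inr h2) (by
      intro t σ hσ
      obtain ⟨σ', h1, h2⟩ := hmem _ hσ
      rw [idx] at h2
      have h3 := Sum.inr.inj h2
      have ht : t = t₀ := congrArg Sigma.fst h3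
      subst ht
      have h4 : dn j σ = σ' := eq_of_heq (Sigma.mk.inj h3).2
      refine exists_conj (K := K) (L := L) σ₁ σ fun x => ?_
      rw [← dn_norm j σ x, h4, h1 x, hσ₁n x]) A₀ hM hA₀ hdet₀ δ B hδ
  refine ⟨𝒲, h𝒲, ?_⟩
  intro Q a b z hQ hz ha hb hrow hav hprod
  refine hmain Q a b z hQ hz ha hb ?_ hav hprod
  intro i
  have h1 : v (∑ k, A₀ i k * σ₁ (z k)) =
      ∑ k, A i k * algebraMap K (PadicAlgCl (pr T t₀)) (z k) := by
    rw [map_sum]
    refine Finset.sum_congr rfl fun k _ => ?_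
    rw [map_mul, hv, hσ₁]
  rw [← hvn, h1]
  exact hrow i

end Pool.Agent.Helper33.RP

end

section

namespace Pool.Agent.Helper65.RP
end Pool.Agent.Helper65.RP
namespace Pool.Agent.Helper29.TG
end Pool.Agent.Helper29.TG
namespace Pool.Agent.Helper85.Sub
end Pool.Agent.Helper85.Sub
namespace Pool.Agent.Helper85.RC
end Pool.Agent.Helper85.RC
namespace Pool.Agent.Helper10.Sub
end Pool.Agent.Helper10.Sub
namespace Pool.Agent.Helper33.RP
end Pool.Agent.Helper33.RP

/-!
# Project TB: the Subspace theorem at a given place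
-/

set_option autoImplicit false

namespace Pool.Agent.Helper65.TB

open Pool.Agent.Helper65.RP

open Pool.Agent.Helper29.TG

open Pool.Agent.Helper85.Sub Pool.Agent.Helper85.RC Pool.Agent.Helper10.Sub NumberField

open Pool.Agent.Helper33.RP

open Height.AdmissibleAbsValues

/-- For every absolute value of the family of the heights of a number field and every finite set
there is a structure `PD` at this absolute value whose ring contains the finite set. -/
theorem exists_pd_at {K : Type} [Field K] [NumberField K] {v : AbsoluteValue K ℝ}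
    (hv : Mem v) (E : Finset K) :
    ∃ (Ω : Type) (_ : NormedField Ω) (_ : IsAlgClosed Ω) (_ : CharZero Ω) (_ : Algebra K Ω)
      (Λ : Type) (_ : Fintype Λ) (Z : PD K Ω Λ) (r : ℕ), 1 ≤ r ∧ (∀ x ∈ E, x ∈ Z.O) ∧
        ∀ x, v x = ‖algebraMap K Ω x‖ ^ r := by
  classical
  choose q' hq' using fun v : FinitePlace K => exists_prime_below v
  have hfin : ∀ x : K, {v : FinitePlace K | 1 < v x}.Finite := by
    intro x
    by_cases hx : x = 0
    · subst hx
      refine Set.finite_empty.subset ?_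
      intro v hv
      simp only [Set.mem_ofPred_eq, map_zero] at hv
      linarith
    · exact (FinitePlace.hasFiniteMulSupport hx).subset fun v hv => (ne_of_gt hv)
  let T : Finset Nat.Primes := E.biUnion fun x => (hfin x).toFinset.image q'
  have hT : ∀ T' : Finset Nat.Primes, T ⊆ T' → ∀ x ∈ E, x ∈ OP K (pprod (pr T')) := by
    intro T' hTT x hx
    refine mem_OP_of_le (hfin x).toFinset _ ?_ x ?_
    · intro v hv
      refine pprod_mem T' (q' v) (hTT ?_) v (hq' v)
      exact Finset.mem_biUnion.2 ⟨x, hx, Finset.mem_image_of_mem _ hv⟩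
    · intro v hv
      rw [Set.Finite.mem_toFinset, Set.mem_ofPred_eq, not_lt] at hv
      exact hv
  rcases hv with hv | hv
  · have h1 : IsInfinitePlace v := mem_multisetInfinitePlace.1 hv
    obtain ⟨φ, hφ⟩ := h1
    obtain ⟨Ω, i1, i2, i3, i4, Λ, i5, Z, ι, hZ, hn, -⟩ := case_inl T φ
    refine ⟨Ω, i1, i2, i3, i4, Λ, i5, Z, 1, le_rfl, ?_, ?_⟩
    · intro x hx
      rw [hZ]
      exact hT T subset_rfl x hx
    · intro x
      rw [pow_one, hn x, ← hφ]
      rfl
  · have hv' : IsFinitePlace v := hv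
    set w : FinitePlace K := ⟨v, hv'⟩ with hw
    set P := w.maximalIdeal with hPdef
    have hwP : FinitePlace.mk P = w := FinitePlace.mk_maximalIdeal w
    obtain ⟨p, hp, hpP⟩ := exists_prime_mem P
    have hpf : Fact p.Prime := ⟨hp⟩
    obtain ⟨n, hn0, ⟨σ₀, hσ₀⟩, -, hall⟩ := card_fiber (p := p) P hpP
    have hvσ : ∀ x : K, v x = ‖σ₀ x‖ ^ n := by
      intro x
      have h1 := hall σ₀ hσ₀ x
      rw [hwP] at h1
      exact h1
    set T' : Finset Nat.Primes := insert ⟨p, hp⟩ T with hT'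
    have ht₀ : (⟨p, hp⟩ : Nat.Primes) ∈ T' := Finset.mem_insert_self _ _
    obtain ⟨Ω, i1, i2, i3, i4, Λ, i5, Z, ι, hZ, hn, -⟩ :=
      case_inr (K := K) T' ⟨⟨p, hp⟩, ht₀⟩ (liftEquiv.symm σ₀)
    refine ⟨Ω, i1, i2, i3, i4, Λ, i5, Z, n, Nat.one_le_iff_ne_zero.2 hn0, ?_, ?_⟩
    · intro x hx
      rw [hZ]
      exact hT T' (Finset.subset_insert _ _) x hx
    · intro x
      rw [hvσ x, hn x]
      congr 1

end Pool.Agent.Helper65.TB

end

section

namespace Pool.Agent.Helper36
end Pool.Agent.Helper36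
namespace Pool.Agent.Helper29.TG
end Pool.Agent.Helper29.TG

set_option autoImplicit false

namespace Pool.Agent.Helper65.TB

open MvPolynomial Filter Topology Height Height.AdmissibleAbsValues

open Pool.Agent.Helper36 (step iter)

open Pool.Agent.Helper29.TG

section transfer

variable {K L Ω : Type} [Field K] [Field L] [Algebra K L] [IsAlgClosed L] [Field Ω] [Algebra K Ω]
  {N : ℕ}

/-- Forms without common zero over one algebraically closed field have none over any field. -/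
theorem no_zero {d : ℕ} {F : Fin N → MvPolynomial (Fin N) K} (hF : ∀ i, (F i).IsHomogeneous d)
    (hnz : ∀ x : Fin N → L, (∀ i, aeval x (F i) = 0) → x = 0)
    (x : Fin N → Ω) (hx : ∀ i, aeval x (F i) = 0) : x = 0 := by
  have hreg : Pool.Agent.Helper65.RP.Regular L d F := by
    refine ⟨fun i => (hF i).totalDegree_le, fun y hy => hnz y fun i => ?_⟩
    have h1 := hy i
    rwa [homogeneousComponent_of_mem (hF i), if_pos rfl] at h1
  obtain ⟨e, he⟩ := Pool.Agent.Helper12.RP.exists_pow_mem hreg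
  funext j
  have h2 : ∀ p ∈ Ideal.span (Set.range fun i => homogeneousComponent d (F i)),
      aeval x p = 0 := by
    intro p hp
    induction hp using Submodule.span_induction with
    | mem p hp =>
      obtain ⟨i, rfl⟩ := hp
      show aeval x (homogeneousComponent d (F i)) = 0
      rw [homogeneousComponent_of_mem (hF i), if_pos rfl]
      exact hx i
    | zero => exact map_zero _
    | add p q _ _ hp hq => rw [map_add, hp, hq, add_zero]
    | smul a p _ hp => rw [smul_eq_mul, map_mul, hp, mul_zero]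
  have h3 := h2 _ (he j)
  rw [map_pow, aeval_X] at h3
  exact pow_eq_zero_iff (n := e + 1) (Nat.succ_ne_zero _) |>.1 (by rw [pow_succ, h3, zero_mul])

end transfer

section alg

variable {K Ω : Type} [Field K] [NormedField Ω] [Algebra K Ω] {N : ℕ}

theorem iter_vec (F : Fin N → MvPolynomial (Fin N) K) (x : Fin N → K) (n : ℕ) :
    iter F (vec Ω x) n = vec Ω (iter F x n) := by
  have h := Pool.Agent.Helper36.iter_map F (Algebra.ofId K Ω) x n
  exact h

theorem aeval_vec (x : Fin N → K) (p : MvPolynomial (Fin N) K) :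
    aeval (vec Ω x) p = algebraMap K Ω (eval x p) := by
  have h := MvPolynomial.eval₂_comp_left (algebraMap K Ω) (RingHom.id K) x p
  rw [RingHom.comp_id] at h
  exact h.symm

end alg

variable {ν : ℕ}

/-- The points approach `y` in `Ω`. -/
theorem app_of_ct {K Ω : Type} [Field K] [NormedField Ω] [Algebra K Ω] {v : AbsoluteValue K ℝ}
    {r : ℕ} (hr : 1 ≤ r) (hvr : ∀ x, v x = ‖algebraMap K Ω x‖ ^ r)
    {x : ℕ → Fin (ν + 1) → K} (hx : ∀ n, x n ≠ 0) {y : Fin (ν + 1) → K} (hy : y ≠ 0)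
    {𝒰 : Ultrafilter ℕ} {s : ℕ → ℝ} (hs : Tendsto s (𝒰 : Filter ℕ) atTop) {ε : ℝ} (hε : 0 < ε)
    (h : ∀ᶠ n in (𝒰 : Filter ℕ), ε * s n < ct v (x n) y) :
    ∃ c : ℕ → Ω, App 𝒰 s (fun n => c n • vec Ω (x n)) (vec Ω y) (ε / r) := by
  obtain ⟨i₀, hi₀⟩ := Function.ne_iff.1 hy
  rw [Pi.zero_apply] at hi₀
  have hvi₀ : 0 < v (y i₀) := v.pos hi₀
  set Y := nm v y with hY
  have hYpos : 0 < Y := nm_pos v hy
  have hcr : ∀ᶠ n in (𝒰 : Filter ℕ), nm v (cr (x n) y) ≤
      nm v (x n) * Y * Real.exp (-(ε * s n)) := by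
    filter_upwards [h] with n hn
    have hX := nm_pos v (hx n)
    rcases (nm_nonneg v (cr (x n) y)).eq_or_lt with h0 | h0
    · rw [← h0]
      positivity
    · rw [ct] at hn
      have h1 : Real.log (nm v (cr (x n) y)) < Real.log (nm v (x n) * Y * Real.exp (-(ε * s n))) := by
        rw [Real.log_mul (by positivity) (Real.exp_ne_zero _), Real.log_exp,
          Real.log_mul hX.ne' hYpos.ne']
        linarith
      exact ((Real.log_lt_log_iff h0 (by positivity)).1 h1).le
  -- the ratio is bounded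
  have hsmall : ∀ᶠ n in (𝒰 : Filter ℕ), Y * Real.exp (-(ε * s n)) ≤ v (y i₀) / 2 := by
    have h1 : Tendsto (fun n => Y * Real.exp (-(ε * s n))) (𝒰 : Filter ℕ) (𝓝 (Y * 0)) := by
      refine Tendsto.const_mul _ ?_
      refine Real.tendsto_exp_neg_atTop_nhds_zero.comp ?_
      exact hs.const_mul_atTop hε
    rw [mul_zero] at h1
    exact (h1.eventually (ge_mem_nhds (by positivity : (0 : ℝ) < v (y i₀) / 2)))
  have hlow : ∀ᶠ n in (𝒰 : Filter ℕ), nm v (x n) * (v (y i₀) / 2) ≤ v (x n i₀) * Y := by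
    filter_upwards [hcr, hsmall] with n h1 h2
    obtain ⟨j, -, hj⟩ := exists_nm_eq v (hx n)
    have h3 : v (x n j * y i₀ - x n i₀ * y j) ≤ nm v (cr (x n) y) :=
      le_nm v (cr (x n) y) (j, i₀)
    have h4 : v (x n j * y i₀) - v (x n i₀ * y j) ≤ v (x n j * y i₀ - x n i₀ * y j) :=
      v.le_sub _ _
    rw [map_mul, map_mul, ← hj] at h4
    have h5 : v (x n i₀) * v (y j) ≤ v (x n i₀) * Y :=
      mul_le_mul_of_nonneg_left (le_nm v y j) (v.nonneg _)
    have h6 : nm v (x n) * Y * Real.exp (-(ε * s n)) ≤ nm v (x n) * (v (y i₀) / 2) := by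
      rw [mul_assoc]
      exact mul_le_mul_of_nonneg_left h2 (nm_nonneg v _)
    linarith
  set C₀ : ℝ := max 1 (Y * Y * (2 / v (y i₀))) with hC₀
  have hC₀1 : 1 ≤ C₀ := le_max_left _ _
  refine ⟨fun n => algebraMap K Ω (y i₀ / x n i₀), C₀, ?_⟩
  filter_upwards [hcr, hlow] with n h1 h2
  have hX := nm_pos v (hx n)
  have hxi : 0 < v (x n i₀) := by
    by_contra h0
    have h3 : v (x n i₀) = 0 := le_antisymm (not_lt.1 h0) (v.nonneg _)
    rw [h3, zero_mul] at h2
    have : 0 < nm v (x n) * (v (y i₀) / 2) := by positivity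
    linarith
  have hxi' : x n i₀ ≠ 0 := v.pos_iff.1 hxi
  rw [pi_norm_le_iff_of_nonneg (by positivity)]
  intro j
  have h3 : (algebraMap K Ω (y i₀ / x n i₀) • vec Ω (x n) - vec Ω y) j =
      algebraMap K Ω ((x n j * y i₀ - x n i₀ * y j) / x n i₀) := by
    simp only [Pi.sub_apply, Pi.smul_apply, smul_eq_mul, vec]
    rw [← map_mul, ← map_sub]
    congr 1
    field_simp
  rw [h3]
  have h4 : v ((x n j * y i₀ - x n i₀ * y j) / x n i₀) ≤ C₀ * Real.exp (-(ε * s n)) := by
    rw [map_div₀, div_le_iff₀ hxi]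
    have h5 : v (x n j * y i₀ - x n i₀ * y j) ≤ nm v (cr (x n) y) :=
      le_nm v (cr (x n) y) (j, i₀)
    refine h5.trans (h1.trans ?_)
    have h6 : nm v (x n) ≤ v (x n i₀) * Y * (2 / v (y i₀)) := by
      rw [mul_div_assoc', le_div_iff₀ hvi₀]
      linarith
    calc nm v (x n) * Y * Real.exp (-(ε * s n))
        ≤ (v (x n i₀) * Y * (2 / v (y i₀))) * Y * Real.exp (-(ε * s n)) := by
          refine mul_le_mul_of_nonneg_right ?_ (Real.exp_nonneg _)
          exact mul_le_mul_of_nonneg_right h6 hYpos.le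
      _ = (Y * Y * (2 / v (y i₀))) * (Real.exp (-(ε * s n)) * v (x n i₀)) := by ring
      _ ≤ C₀ * (Real.exp (-(ε * s n)) * v (x n i₀)) := by
          refine mul_le_mul_of_nonneg_right (le_max_right _ _) (by positivity)
      _ = C₀ * Real.exp (-(ε * s n)) * v (x n i₀) := by ring
  rw [hvr] at h4
  have hr0 : r ≠ 0 := by omega
  have hrr : (0 : ℝ) < r := by exact_mod_cast (by omega : 0 < r)
  have h7 : (C₀ * Real.exp (-(ε / r) * s n)) ^ r = C₀ ^ r * Real.exp (-(ε * s n)) := by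
    rw [mul_pow, ← Real.exp_nat_mul]
    congr 2
    field_simp
  have h8 : C₀ * Real.exp (-(ε * s n)) ≤ (C₀ * Real.exp (-(ε / r) * s n)) ^ r := by
    rw [h7]
    refine mul_le_mul_of_nonneg_right ?_ (Real.exp_nonneg _)
    exact le_self_pow₀ hC₀1 hr0
  exact (pow_le_pow_iff_left₀ (norm_nonneg _) (by positivity) hr0).1 (h4.trans h8)

/-- **Theorem B.** At every fixed place the contact of the orbit of `x` with a point `y` which has
only finitely many critical iterates is `o(d ^ n)`. -/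
theorem contact_small {K : Type} [Field K] [NumberField K] {L : Type} [Field L] [Algebra K L]
    [IsAlgClosed L] {d : ℕ} (hd : 2 ≤ d)
    {F : Fin (ν + 1) → MvPolynomial (Fin (ν + 1)) K} (hF : ∀ i, (F i).IsHomogeneous d)
    (hnz : ∀ x : Fin (ν + 1) → L, (∀ i, aeval x (F i) = 0) → x = 0)
    {x : Fin (ν + 1) → K} (hcr : ∀ n m, n ≠ m → cr (iter F x n) (iter F x m) ≠ 0)
    {y : Fin (ν + 1) → K} (hy0 : y ≠ 0) {n₀ : ℕ}
    (hcrit : ∀ n, n₀ ≤ n → eval (iter F y n) (Pool.Agent.Helper30.TKN.jf F) ≠ 0)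
    {v : AbsoluteValue K ℝ} (hv : Mem v) (ε : ℝ) (hε : 0 < ε) :
    ∀ᶠ n in atTop, ct v (iter F x n) y ≤ ε * d ^ n := by
  classical
  by_contra hcon
  rw [Filter.not_eventually] at hcon
  -- an ultrafilter
  have hne : (atTop ⊓ 𝓟 {n | ε * (d : ℝ) ^ n < ct v (iter F x n) y} : Filter ℕ).NeBot := by
    rw [← Filter.frequently_mem_iff_neBot]
    exact hcon.mono fun n hn => not_le.1 hn
  set 𝒰 : Ultrafilter ℕ := @Ultrafilter.of ℕ _ hne with h𝒰def
  have h𝒰le : (𝒰 : Filter ℕ) ≤ atTop ⊓ 𝓟 {n | ε * (d : ℝ) ^ n < ct v (iter F x n) y} :=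
    @Ultrafilter.of_le ℕ _ hne
  have h𝒰 : (𝒰 : Filter ℕ) ≤ atTop := h𝒰le.trans inf_le_left
  have hmem : ∀ᶠ n in (𝒰 : Filter ℕ), ε * (d : ℝ) ^ n < ct v (iter F x n) y := by
    have h1 : {n | ε * (d : ℝ) ^ n < ct v (iter F x n) y} ∈ (𝒰 : Filter ℕ) :=
      (h𝒰le.trans inf_le_right) (mem_principal_self _)
    exact h1
  -- the place
  let E : Finset K := (Finset.univ.biUnion fun i => (F i).support.image fun m => (F i).coeff m) ∪
    insert 0 (Finset.univ.image x)
  obtain ⟨Ω, i1, i2, i3, i4, Λ, i5, Z, r, hr, hE, hvr⟩ := exists_pd_at hv E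
  have hFO : ∀ i m, (F i).coeff m ∈ Z.O := by
    intro i m
    by_cases hm : (F i).coeff m = 0
    · rw [hm]
      exact Z.O.zero_mem
    · refine hE _ (Finset.mem_union_left _ (Finset.mem_biUnion.2 ⟨i, Finset.mem_univ _, ?_⟩))
      exact Finset.mem_image_of_mem _ (mem_support_iff.2 hm)
  have hxO : ∀ i, x i ∈ Z.O := fun i =>
    hE _ (Finset.mem_union_right _ (Finset.mem_insert_of_mem
      (Finset.mem_image_of_mem _ (Finset.mem_univ _))))
  have hdr : (2 : ℝ) ≤ d := by exact_mod_cast hd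
  have hs : Tendsto (fun n : ℕ => (d : ℝ) ^ n) (𝒰 : Filter ℕ) atTop :=
    (tendsto_pow_atTop_atTop_of_one_lt (by linarith)).mono_left h𝒰
  have hx : ∀ n, iter F x n ≠ 0 := fun n => left_ne_zero (hcr n (n + 1) (by omega))
  obtain ⟨c, hc⟩ := app_of_ct (Ω := Ω) hr hvr hx hy0 hs hε hmem
  refine no_rate Z hd hF (no_zero hF hnz) (iter_mem hFO hxO) ?_ (y := vec Ω y) ?_ ?_ (n₀ := n₀)
    ?_ h𝒰 (κ := ε / r) ?_ hc
  · intro n m hnm
    obtain ⟨q, hq⟩ := Function.ne_iff.1 (hcr n m hnm)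
    refine ⟨q.1, q.2, fun h0 => hq ?_⟩
    show iter F x n q.1 * iter F x m q.2 - iter F x n q.2 * iter F x m q.1 = 0
    rw [h0, sub_self]
  · intro h0
    apply hy0
    funext i
    have h1 := congrFun h0 i
    exact (map_eq_zero (algebraMap K Ω)).1 h1
  · intro i
    exact isAlgebraic_algebraMap _
  · intro n hn
    rw [iter_vec, aeval_vec, Ne, map_eq_zero]
    exact hcrit n hn
  · have : (0 : ℝ) < r := by exact_mod_cast (by omega : 0 < r)
    positivity

end Pool.Agent.Helper65.TB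

end
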