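import Pool.Agent.Helper72.TM2.T23
import Pool.Agent.Helper72.TM2.T04
import Pool.Agent.Helper72.TM2.T30

section

namespace Pool.Agent.Helper36
end Pool.Agent.Helper36
namespace Pool.Agent.Helper29.TG
end Pool.Agent.Helper29.TG

/-!
# Project TH: inclusions of closed sets hold modulo almost all places
-/

set_option autoImplicit false

namespace Pool.Agent.Helper72.TH

open MvPolynomial Height Height.AdmissibleAbsValues

open Pool.Agent.Helper36 (step iter)

open Pool.Agent.Helper29.TG

variable {ν : ℕ} {K : Type} [Field K]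

theorem cert_sum_lt {v : AbsoluteValue K ℝ} (hv : IsNonarchimedean v) {ι : Type} (s : Finset ι)
    (f : ι → K) {r : ℝ} (hr : 0 < r) (h : ∀ i ∈ s, v (f i) < r) : v (∑ i ∈ s, f i) < r := by
  classical
  induction s using Finset.induction_on with
  | empty => simpa using hr
  | insert a s ha ih =>
    rw [Finset.sum_insert ha]
    refine (hv _ _).trans_lt (max_lt (h a (Finset.mem_insert_self a s)) ?_)
    exact ih fun i hi => h i (Finset.mem_insert_of_mem hi)

theorem cert_comp_eq_zero {σ : Type} {e : ℕ} {F : MvPolynomial σ K} (hF : F.IsHomogeneous e)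
    (a : MvPolynomial σ K) {N : ℕ} (hN : N < e) : homogeneousComponent N (a * F) = 0 := by
  classical
  conv_lhs => rw [← sum_homogeneousComponent (φ := a), Finset.sum_mul, map_sum]
  refine Finset.sum_eq_zero fun i _ => ?_
  have h2 : (homogeneousComponent i a * F).IsHomogeneous (i + e) :=
    (homogeneousComponent_isHomogeneous i a).mul hF
  rw [homogeneousComponent_of_mem (h2 : _ ∈ homogeneousSubmodule σ K _), if_neg (by omega)]

/-- If the common zeros of the forms `h i` over an algebraically closed field are zeros of `g`,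
then the same holds modulo almost all places. -/
theorem exists_sm [AdmissibleAbsValues K] {L : Type} [Field L] [IsAlgClosed L] [Algebra K L]
    {ι : Type} [Fintype ι] {h : ι → MvPolynomial (Fin (ν + 1)) K} {δ : ι → ℕ}
    (hh : ∀ i, (h i).IsHomogeneous (δ i)) {g : MvPolynomial (Fin (ν + 1)) K} {e : ℕ}
    (hg : g.IsHomogeneous e)
    (hz : ∀ x : Fin (ν + 1) → L, (∀ i, aeval x (h i) = 0) → aeval x g = 0) :
    ∃ B : Set (AbsoluteValue K ℝ), B.Finite ∧ ∀ v ∈ nonarchAbsVal (K := K), v ∉ B →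
      ∀ x : Fin (ν + 1) → K, x ≠ 0 → (∀ i, Sm v (h i) (δ i) x) → Sm v g e x := by
  classical
  have h1 : ∃ r : ℕ, g ^ r ∈ Ideal.span (Set.range h) := by
    have h2 : g ∈ (Ideal.span (Set.range h)).radical := by
      rw [← vanishingIdeal_zeroLocus_eq_radical (K := L), mem_vanishingIdeal_iff]
      intro x hx
      rw [mem_zeroLocus_iff] at hx
      exact hz x fun i => hx _ (Ideal.subset_span ⟨i, rfl⟩)
    exact h2
  obtain ⟨r, hr⟩ := h1
  have h3 : g ^ (r + 1) ∈ Ideal.span (Set.range h) :=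
    Ideal.mem_of_dvd _ (pow_dvd_pow _ (Nat.le_succ r)) hr
  rw [Ideal.mem_span_range_iff_exists_fun] at h3
  obtain ⟨c, hc⟩ := h3
  have hgr : (g ^ (r + 1)).IsHomogeneous (e * (r + 1)) := hg.pow (r + 1)
  let a : ι → MvPolynomial (Fin (ν + 1)) K := fun i =>
    if δ i ≤ e * (r + 1) then homogeneousComponent (e * (r + 1) - δ i) (c i) else 0
  have ha : ∑ i, a i * h i = g ^ (r + 1) := by
    have h5 := congrArg (homogeneousComponent (e * (r + 1))) hc
    rw [map_sum, homogeneousComponent_eq_self hgr] at h5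
    rw [← h5]
    refine Finset.sum_congr rfl fun i _ => ?_
    simp only [a]
    split_ifs with hi
    · have h6 := Pool.Agent.Helper36.homogeneousComponent_mul_of_homogeneous (hh i) (c i)
        (e * (r + 1) - δ i)
      rw [Nat.sub_add_cancel hi] at h6
      exact h6.symm
    · rw [zero_mul]
      exact (cert_comp_eq_zero (hh i) (c i) (not_le.1 hi)).symm
  let co : MvPolynomial (Fin (ν + 1)) K → Finset K := fun P => P.support.image fun m => P.coeff m
  obtain ⟨B, hBf, hB⟩ := Pool.Agent.Helper72.PN.exists_fin_good (K := K)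
    (Finset.univ.biUnion fun i => co (a i))
  refine ⟨B, hBf, fun v hv hvB x hx hsm => ?_⟩
  have hna : IsNonarchimedean v := isNonarchimedean v hv
  have hint : ∀ i m, v ((a i).coeff m) ≤ 1 := by
    intro i m
    by_cases hm : (a i).coeff m = 0
    · rw [hm, map_zero]
      exact zero_le_one
    · rcases hB v hv hvB _ (Finset.mem_biUnion.2 ⟨i, Finset.mem_univ i,
        Finset.mem_image.2 ⟨m, mem_support_iff.2 hm, rfl⟩⟩) with h | h
      · exact absurd h hm
      · exact h.le
  have hpos : 0 < nm v x := nm_pos v hx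
  have hlt : v (eval x (g ^ (r + 1))) < nm v x ^ (e * (r + 1)) := by
    rw [← ha, map_sum]
    refine cert_sum_lt hna _ _ (pow_pos hpos _) fun i _ => ?_
    rw [map_mul, map_mul]
    by_cases hi : δ i ≤ e * (r + 1)
    · have hai : (a i).IsHomogeneous (e * (r + 1) - δ i) := by
        simp only [a]
        rw [if_pos hi]
        exact homogeneousComponent_isHomogeneous _ _
      have h7 : v (eval x (a i)) ≤ nm v x ^ (e * (r + 1) - δ i) :=
        Pool.Agent.Helper72.PN.KeyN_eval_le hna hai (hint i) x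
      have h8 : v (eval x (h i)) < nm v x ^ δ i := hsm i
      calc v (eval x (a i)) * v (eval x (h i))
          ≤ nm v x ^ (e * (r + 1) - δ i) * v (eval x (h i)) :=
            mul_le_mul_of_nonneg_right h7 (v.nonneg _)
        _ < nm v x ^ (e * (r + 1) - δ i) * nm v x ^ δ i :=
            mul_lt_mul_of_pos_left h8 (pow_pos hpos _)
        _ = nm v x ^ (e * (r + 1)) := by rw [← pow_add, Nat.sub_add_cancel hi]
    · have h9 : a i = 0 := by
        simp only [a]
        rw [if_neg hi]
      rw [h9, map_zero, map_zero, zero_mul]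
      exact pow_pos hpos _
  rw [map_pow, map_pow, pow_mul] at hlt
  exact lt_of_pow_lt_pow_left₀ (r + 1) (pow_nonneg hpos.le e) hlt

end Pool.Agent.Helper72.TH

end

section

namespace Pool.Agent.Helper36
end Pool.Agent.Helper36
namespace Pool.Agent.Helper29.TG
end Pool.Agent.Helper29.TG

/-!
# Project TH: a chain is a chain modulo almost all places
-/

set_option autoImplicit false

namespace Pool.Agent.Helper72.TH

open MvPolynomial Height Height.AdmissibleAbsValues

open Pool.Agent.Helper36 (step iter)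

open Pool.Agent.Helper29.TG

variable {ν : ℕ} {K : Type} [Field K]

/-- Finitely many conditions which hold at almost all places hold together at almost all
places. -/
theorem ChainM_all [AdmissibleAbsValues K] {ι : Type} [Finite ι]
    {P : ι → AbsoluteValue K ℝ → Prop}
    (h : ∀ i, ∃ B : Set (AbsoluteValue K ℝ), B.Finite ∧
      ∀ v ∈ nonarchAbsVal (K := K), v ∉ B → P i v) :
    ∃ B : Set (AbsoluteValue K ℝ), B.Finite ∧
      ∀ v ∈ nonarchAbsVal (K := K), v ∉ B → ∀ i, P i v := by
  choose B hB h using h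
  refine ⟨⋃ i, B i, Set.finite_iUnion hB, fun v hv hvB i => h i v hv fun hi => hvB ?_⟩
  exact Set.mem_iUnion.2 ⟨i, hi⟩

theorem ChainM_eval {F : Fin (ν + 1) → MvPolynomial (Fin (ν + 1)) K}
    (g : MvPolynomial (Fin (ν + 1)) K) (x : Fin (ν + 1) → K) :
    eval x (aeval F g) = eval (step F x) g := by
  have h1 := congrArg (fun φ => φ (aeval F g)) (coe_aeval_eq_eval x)
  have h2 := congrArg (fun φ => φ g) (coe_aeval_eq_eval (step F x))
  refine h1.symm.trans (Eq.trans ?_ h2)
  exact comp_aeval_apply _ (aeval x) g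

theorem ChainM_sm {v : AbsoluteValue K ℝ} {F : Fin (ν + 1) → MvPolynomial (Fin (ν + 1)) K}
    {d : ℕ} (hG : GoodF v F d) {g : MvPolynomial (Fin (ν + 1)) K} {e : ℕ}
    {x : Fin (ν + 1) → K} (h : Sm v (aeval F g) (d * e) x) : Sm v g e (step F x) := by
  unfold Sm at h ⊢
  rwa [hG.F_nm, ← pow_mul, ← ChainM_eval]

theorem exists_chainV [AdmissibleAbsValues K] {L : Type} [Field L] [IsAlgClosed L] [Algebra K L]
    {F : Fin (ν + 1) → MvPolynomial (Fin (ν + 1)) K} {d : ℕ} (hF : ∀ i, (F i).IsHomogeneous d)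
    (hnz : ∀ x : Fin (ν + 1) → L, (∀ i, aeval x (F i) = 0) → x = 0)
    {q : MvPolynomial (Fin (ν + 1)) K} {t : ℕ} (hq : q.IsHomogeneous t) {n : ℕ}
    {W : Fin n → MvPolynomial (Fin (ν + 1)) K} {δ : Fin n → ℕ} {S : ℕ → Finset (Fin n)} {k : ℕ}
    (h : Chain L F q W δ S k) :
    ∃ B : Set (AbsoluteValue K ℝ), B.Finite ∧ ∀ v ∈ nonarchAbsVal (K := K), v ∉ B →
      GoodF v F d ∧ ChainV v F q t W δ S k := by
  classical
  obtain ⟨B₀, hB₀, h₀⟩ := PN.exists_bad (L := L) hF hnz 0 q 0
  obtain ⟨B₁, hB₁, h₁⟩ := ChainM_all (K := K) (ι := Fin n)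
    (P := fun j v => ∀ m, v ((W j).coeff m) ≤ 1) fun j => by
      obtain ⟨B, hB, hg⟩ := PN.exists_fin_good (K := K) ((W j).support.image fun m => (W j).coeff m)
      refine ⟨B, hB, fun v hv hvB m => ?_⟩
      by_cases hm : (W j).coeff m = 0
      · rw [hm, map_zero]
        exact zero_le_one
      · rcases hg v hv hvB _ (Finset.mem_image.2 ⟨m, mem_support_iff.2 hm, rfl⟩) with h1 | h1
        · exact absurd h1 hm
        · exact h1.le
  obtain ⟨B₂, hB₂, h₂⟩ := ChainM_all (K := K) (ι := Fin k × Fin n)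
    (P := fun p v => p.2 ∈ S p.1 → ∀ x : Fin (ν + 1) → K, x ≠ 0 →
      InZ v W δ (S p.1) x → Sm v (aeval F (W p.2)) (d * δ p.2) x) fun p => by
      by_cases hp : p.2 ∈ S p.1
      · obtain ⟨B, hB, hg⟩ := exists_sm (K := K) (L := L) (ι := {j // j ∈ S p.1})
          (h := fun j => W j) (δ := fun j => δ j) (fun j => h.hom j)
          (g := aeval F (W p.2)) (e := d * δ p.2) ((h.hom p.2).aeval F hF) fun x hx => by
            rw [comp_aeval_apply]
            exact h.inv p.1 p.1.2 x (fun j hj => hx ⟨j, hj⟩) p.2 hp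
        exact ⟨B, hB, fun v hv hvB _ x hx hz => hg v hv hvB x hx fun j => hz j j.2⟩
      · exact ⟨∅, Set.finite_empty, fun v _ _ hp' => absurd hp' hp⟩
  obtain ⟨B₃, hB₃, h₃⟩ := ChainM_all (K := K) (ι := Fin k × Fin n)
    (P := fun p v => p.2 ∈ S (p.1 + 1) → ∀ x : Fin (ν + 1) → K, x ≠ 0 →
      InZ v W δ (S p.1) x → Sm v q t x → Sm v (aeval F (W p.2)) (d * δ p.2) x) fun p => by
      by_cases hp : p.2 ∈ S (p.1 + 1)
      · obtain ⟨B, hB, hg⟩ := exists_sm (K := K) (L := L) (ι := Option {j // j ∈ S p.1})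
          (h := fun o => o.elim q fun j => W j) (δ := fun o => o.elim t fun j => δ j)
          (fun o => by
            cases o with
            | none => exact hq
            | some j => exact h.hom j)
          (g := aeval F (W p.2)) (e := d * δ p.2) ((h.hom p.2).aeval F hF) fun x hx => by
            rw [comp_aeval_apply]
            exact h.down p.1 p.1.2 x (fun j hj => hx (some ⟨j, hj⟩)) (hx none) p.2 hp
        refine ⟨B, hB, fun v hv hvB _ x hx hz hs => hg v hv hvB x hx fun o => ?_⟩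
        cases o with
        | none => exact hs
        | some j => exact hz j j.2
      · exact ⟨∅, Set.finite_empty, fun v _ _ hp' => absurd hp' hp⟩
  obtain ⟨B₄, hB₄, h₄⟩ := ChainM_all (K := K) (ι := Fin (ν + 1))
    (P := fun l v => ∀ x : Fin (ν + 1) → K, x ≠ 0 → InZ v W δ (S k) x →
      Sm v (X l : MvPolynomial (Fin (ν + 1)) K) 1 x) fun l => by
      obtain ⟨B, hB, hg⟩ := exists_sm (K := K) (L := L) (ι := {j // j ∈ S k})
        (h := fun j => W j) (δ := fun j => δ j) (fun j => h.hom j)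
        (g := X l) (e := 1) (isHomogeneous_X K l) fun x hx => by
          rw [aeval_X, h.empty x fun j hj => hx ⟨j, hj⟩, Pi.zero_apply]
      exact ⟨B, hB, fun v hv hvB x hx hz => hg v hv hvB x hx fun j => hz j j.2⟩
  refine ⟨B₀ ∪ (B₁ ∪ (B₂ ∪ (B₃ ∪ B₄))), hB₀.union (hB₁.union (hB₂.union (hB₃.union hB₄))),
    fun v hv hvB => ?_⟩
  simp only [Set.mem_union, not_or] at hvB
  obtain ⟨hv0, hv1, hv2, hv3, hv4⟩ := hvB
  have g₀ := h₀ v hv hv0
  have hG : GoodF v F d := ⟨g₀.na, g₀.F_int, g₀.F_nm⟩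
  refine ⟨hG, g₀.q_int, h₁ v hv hv1, fun i hi x hx hz j hj => ?_, fun i hi x hx hz hs j hj => ?_,
    fun x hx hz => ?_⟩
  · exact ChainM_sm hG (h₂ v hv hv2 (⟨i, hi⟩, j) hj x hx hz)
  · exact ChainM_sm hG (h₃ v hv hv3 (⟨i, hi⟩, j) hj x hx hz hs)
  · obtain ⟨l, -, hl⟩ := exists_nm_eq v hx
    have h5 := h₄ v hv hv4 l x hx hz
    unfold Sm at h5
    rw [eval_X, pow_one, hl] at h5
    exact lt_irrefl _ h5

end Pool.Agent.Helper72.TH

end

section

namespace Pool.Agent.Helper36
end Pool.Agent.Helper36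
namespace Pool.Agent.Helper29.TG
end Pool.Agent.Helper29.TG
namespace Pool.Agent.Helper38.Dml
end Pool.Agent.Helper38.Dml

/-!
# Interpolation at a good place with a cycle outside the critical hypersurface
-/

set_option autoImplicit false

namespace Pool.Agent.Helper72.PN

open MvPolynomial Height Height.AdmissibleAbsValues

open Pool.Agent.Helper36 (step iter)

open Pool.Agent.Helper29.TG

open Pool.Agent.Helper38.Dml (pmap pjac GoodAt)

variable {ν : ℕ}

theorem DvrN_det_smul {E : Type*} [Field E] {f : Fin (ν + 1) → MvPolynomial (Fin (ν + 1)) E} {d : ℕ}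
    (hf : ∀ i, (f i).IsHomogeneous d) (s : E) (y : Fin (ν + 1) → E) :
    (pjac f (s • y)).det = s ^ ((ν + 1) * (d - 1)) * (pjac f y).det := by
  have h : pjac f (s • y) = s ^ (d - 1) • pjac f y := by
    ext i j
    simp only [pjac, Matrix.of_apply, Matrix.smul_apply, smul_eq_mul]
    exact Pool.Agent.Helper38.Dml.eval_smul_of_homog ((hf i).pderiv) s y
  rw [h, Matrix.det_smul, Fintype.card_fin, ← pow_mul, mul_comm (d - 1) (ν + 1)]

/-- A projectively periodic orbit outside the critical curve. -/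
theorem DvrN_good {E : Type*} [Field E] {f : Fin (ν + 1) → MvPolynomial (Fin (ν + 1)) E} {d : ℕ}
    (hf : ∀ i, (f i).IsHomogeneous d) {y₀ : Fin (ν + 1) → E} (h0 : ∀ n, (pmap f)^[n] y₀ ≠ 0)
    {i n : ℕ} (hin : i < n) {s : E} (hs : s ≠ 0)
    (hcyc : (pmap f)^[n] y₀ = s • (pmap f)^[i] y₀)
    (hJ : ∀ j, i ≤ j → j < n → (pjac f ((pmap f)^[j] y₀)).det ≠ 0) : GoodAt f y₀ := by
  have hclaim : ∀ k, ∃ r, i ≤ r ∧ r < n ∧ ∃ t : E, t ≠ 0 ∧
      (pmap f)^[i + k] y₀ = t • (pmap f)^[r] y₀ := by
    intro k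
    induction k with
    | zero => exact ⟨i, le_rfl, hin, 1, one_ne_zero, by rw [add_zero, one_smul]⟩
    | succ k ih =>
      obtain ⟨r, h1, h2, t, ht, h3⟩ := ih
      have h4 : (pmap f)^[i + (k + 1)] y₀ = t ^ d • (pmap f)^[r + 1] y₀ := by
        rw [← add_assoc, Function.iterate_succ_apply', h3,
          Pool.Agent.Helper38.Dml.pmap_smul hf, Function.iterate_succ_apply']
      rcases Nat.lt_or_ge (r + 1) n with h5 | h5
      · exact ⟨r + 1, by omega, h5, t ^ d, pow_ne_zero _ ht, h4⟩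
      · have h6 : r + 1 = n := by omega
        refine ⟨i, le_rfl, hin, t ^ d * s, mul_ne_zero (pow_ne_zero _ ht) hs, ?_⟩
        rw [h4, h6, hcyc, smul_smul]
  intro m
  refine ⟨h0 m, fun hper => ?_⟩
  obtain ⟨p, hp, hper⟩ := hper
  have h1 : (pmap f)^[m + i * p] y₀ = (pmap f)^[m] y₀ := by
    rw [Nat.add_comm m, Function.iterate_add_apply]
    exact hper.const_mul i
  have h2 : i ≤ m + i * p := by
    have : i * 1 ≤ i * p := Nat.mul_le_mul_left i hp
    omega
  obtain ⟨r, h3, h4, t, ht, h5⟩ := hclaim (m + i * p - i)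
  rw [Nat.add_sub_cancel' h2, h1] at h5
  rw [h5, DvrN_det_smul hf]
  exact mul_ne_zero (pow_ne_zero _ ht) (hJ r h3 h4)

theorem DvrN_cross_smul {K : Type} [Field K] (s t : K) (x y : Fin (ν + 1) → K) :
    cr (s • x) (t • y) = (s * t) • cr x y := by
  funext q
  simp only [cr, Pi.smul_apply, smul_eq_mul]
  ring

theorem DvrN_exists {K : Type} [Field K] (v : AbsoluteValue K ℝ) (x : Fin (ν + 1) → K) :
    ∃ i, v (x i) = nm v x :=
  exists_eq_ciSup_of_finite

theorem DvrN_core {R : Type*} [CommRing R] [IsDomain R] [CharZero R] [IsDiscreteValuationRing R]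
    [Finite (IsLocalRing.ResidueField R)] {K : Type} [Field K] [Algebra R K]
    (hinj : Function.Injective (algebraMap R K)) (v : AbsoluteValue K ℝ)
    (hex : ∀ x : K, v x ≤ 1 → ∃ r : R, algebraMap R K r = x)
    (hun : ∀ r : R, v (algebraMap R K r) = 1 → IsUnit r)
    (hun' : ∀ r : R, v (algebraMap R K r) < 1 → ¬ IsUnit r)
    {F : Fin (ν + 1) → MvPolynomial (Fin (ν + 1)) K} {d : ℕ}
    (hF : ∀ i, (F i).IsHomogeneous d) (hFi : ∀ i m, v ((F i).coeff m) ≤ 1)
    (hFn : ∀ x : Fin (ν + 1) → K, nm v (step F x) = nm v x ^ d)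
    {a : Fin (ν + 1) → K} (ha : a ≠ 0) {i n : ℕ} (hin : i < n)
    (hct : 0 < ct v (iter F a i) (iter F a n))
    (hJ : ∀ j, i ≤ j → j < n →
      v (eval (iter F a j) (Pool.Agent.Helper30.TKN.jf F)) = nm v (iter F a j) ^ ((ν + 1) * (d - 1)))
    {L : Type} [Field L] [Algebra K L] :
    Pool.Agent.Helper38.Sym.DMLgen (fun i => map (algebraMap K L) (F i))
      (fun i => algebraMap K L (a i)) := by
  classical
  obtain ⟨i₀, hi₀⟩ := DvrN_exists v a
  have hN : 0 < nm v a := nm_pos v ha
  have hc0 : a i₀ ≠ 0 := by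
    intro h
    rw [h, map_zero] at hi₀
    exact hN.ne hi₀
  have hb : ∀ k, ∃ r : R, algebraMap R K r = a k / a i₀ := fun k => hex _ (by
    rw [map_div₀, hi₀]
    exact div_le_one_of_le₀ (le_nm v a k) hN.le)
  choose b hb using hb
  have hG : ∀ i, ∃ G : MvPolynomial (Fin (ν + 1)) R, MvPolynomial.map (algebraMap R K) G = F i := by
    intro i
    refine (mem_range_map_iff_coeffs_subset (f := algebraMap R K) (x := F i)).2 ?_
    intro x hx
    rw [Finset.mem_coe, mem_coeffs_iff] at hx
    obtain ⟨m, _, rfl⟩ := hx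
    exact hex _ (hFi i m)
  choose G hG using hG
  have hGh : ∀ i, (G i).IsHomogeneous d := by
    intro i
    intro m hm
    refine hF i ?_
    rw [← hG i, coeff_map]
    intro h0
    exact hm (hinj (by rw [h0, map_zero]))
  set X : ℕ → Fin (ν + 1) → R := fun n => (pmap G)^[n] b with hX
  have hXs : ∀ n, X (n + 1) = pmap G (X n) := by
    intro n
    simp only [hX, Function.iterate_succ_apply']
  set z : ℕ → Fin (ν + 1) → K := fun n k => algebraMap R K (X n k) with hz
  have hstep : ∀ w : Fin (ν + 1) → K, step F w = fun i => eval w (F i) := by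
    intro w
    funext i
    simp only [step]
    rw [aeval_eq_eval]
  have hzs : ∀ n, z (n + 1) = step F (z n) := by
    intro n
    rw [hstep]
    funext k
    simp only [hz, hXs, pmap]
    rw [Pool.Agent.Helper38.Sym.map_eval_gen (algebraMap R K), hG]
  have hz0 : a = a i₀ • z 0 := by
    funext k
    simp only [hz, hX, Function.iterate_zero, id, Pi.smul_apply, smul_eq_mul, hb]
    rw [mul_div_cancel₀ _ hc0]
  have hnz : ∀ n, nm v (z n) = 1 := by
    intro n
    induction n with
    | zero =>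
      have h1 : nm v a = v (a i₀) * nm v (z 0) := by
        rw [← nm_smul, ← hz0]
      rw [hi₀] at h1
      have h2 : nm v a * 1 = nm v a * nm v (z 0) := by rw [mul_one]; exact h1
      exact (mul_left_cancel₀ hN.ne' h2).symm
    | succ n ih => rw [hzs, hFn, ih, one_pow]
  have hit : ∀ n, ∃ t : K, t ≠ 0 ∧ iter F a n = t • z n := by
    intro n
    induction n with
    | zero => exact ⟨a i₀, hc0, hz0⟩
    | succ n ih =>
      obtain ⟨t, ht, h⟩ := ih
      refine ⟨t ^ d, pow_ne_zero _ ht, ?_⟩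
      rw [Pool.Agent.Helper36.iter_succ, h, hzs, hstep, hstep]
      funext k
      rw [Pi.smul_apply, smul_eq_mul]
      exact Pool.Agent.Helper38.Dml.eval_smul_of_homog (hF k) t _
  -- reduction
  let φ : R →+* IsLocalRing.ResidueField R := IsLocalRing.residue R
  have hφ : ∀ r, φ r ≠ 0 → IsUnit r := fun r hr =>
    (IsLocalRing.residue_ne_zero_iff_isUnit r).1 hr
  have hφ' : ∀ r, v (algebraMap R K r) = 1 → φ r ≠ 0 := fun r hr =>
    (IsLocalRing.residue_ne_zero_iff_isUnit r).2 (hun r hr)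
  have hφ0 : ∀ r, v (algebraMap R K r) < 1 → φ r = 0 := by
    intro r hr
    by_contra h
    exact hun' r hr (hφ r h)
  set g : Fin (ν + 1) → MvPolynomial (Fin (ν + 1)) (IsLocalRing.ResidueField R) :=
    fun i => MvPolynomial.map φ (G i) with hg
  have hgh : ∀ i, (g i).IsHomogeneous d := fun i => (hGh i).map _
  have hy : ∀ n, (pmap g)^[n] (fun k => φ (b k)) = fun k => φ (X n k) := by
    intro n
    induction n with
    | zero => rfl
    | succ n ih =>
      rw [Function.iterate_succ_apply', ih]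
      funext k
      rw [hXs]
      simp only [pmap, hg]
      exact (Pool.Agent.Helper38.Sym.map_eval_gen φ _ _).symm
  have hy0 : ∀ n, (fun k => φ (X n k)) ≠ 0 := by
    intro n h
    obtain ⟨k, hk⟩ := DvrN_exists v (z n)
    rw [hnz] at hk
    exact hφ' _ hk (congrFun h k)
  have hgood : GoodAt g (fun k => φ (b k)) := by
    -- the cycle
    have hlt : nm v (cr (z i) (z n)) < 1 := by
      obtain ⟨s, hs, h1⟩ := hit i
      obtain ⟨t, ht, h2⟩ := hit n
      rcases (nm_nonneg v (cr (z i) (z n))).eq_or_lt with h0 | h0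
      · rw [← h0]
        exact one_pos
      · unfold ct at hct
        rw [h1, h2, DvrN_cross_smul, nm_smul, nm_smul, nm_smul, hnz, hnz, map_mul,
          mul_one, mul_one, Real.log_mul (mul_pos (v.pos hs) (v.pos ht)).ne' h0.ne',
          Real.log_mul (v.pos hs).ne' (v.pos ht).ne'] at hct
        have h3 : Real.log (nm v (cr (z i) (z n))) < 0 := by linarith
        by_contra h4
        exact absurd h3 (not_lt.2 (Real.log_nonneg (not_lt.1 h4)))
    have hmin : ∀ p q, φ (X i p) * φ (X n q) = φ (X n p) * φ (X i q) := by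
      intro p q
      rw [← map_mul, ← map_mul, ← sub_eq_zero, ← map_sub]
      apply hφ0
      rw [map_sub, map_mul, map_mul]
      have h1 := (le_nm v (cr (z i) (z n)) (p, q)).trans_lt hlt
      have h2 : cr (z i) (z n) (p, q) = z i p * z n q - z n p * z i q := by
        simp only [cr]
        ring
      rw [h2] at h1
      exact h1
    obtain ⟨p, hp⟩ := Function.ne_iff.1 (hy0 i)
    have hp' : φ (X i p) ≠ 0 := hp
    have hcyc : (fun k => φ (X n k)) = (φ (X n p) / φ (X i p)) • fun k => φ (X i k) := by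
      funext q
      rw [Pi.smul_apply, smul_eq_mul, div_mul_eq_mul_div, eq_div_iff hp', mul_comm]
      exact hmin p q
    have hs : φ (X n p) / φ (X i p) ≠ 0 := by
      intro h
      rw [h, zero_smul] at hcyc
      exact hy0 n hcyc
    refine DvrN_good hgh (fun m => by rw [hy]; exact hy0 m) hin hs (by rw [hy, hy]; exact hcyc) ?_
    intro j hij hjn
    rw [hy]
    obtain ⟨t, ht, h1⟩ := hit j
    have h2 := hJ j hij hjn
    rw [h1, Pool.Agent.Helper38.Dml.eval_smul_of_homog (Pool.Agent.Helper30.TKN.jf_hom hF), nm_smul, hnz, mul_one,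
      map_mul, map_pow] at h2
    have h3 : v (eval (z j) (Pool.Agent.Helper30.TKN.jf F)) = 1 := by
      have h4 : v t ^ ((ν + 1) * (d - 1)) * v (eval (z j) (Pool.Agent.Helper30.TKN.jf F)) = v t ^ ((ν + 1) * (d - 1)) * 1 := by
        rw [h2, mul_one]
      exact mul_left_cancel₀ (pow_ne_zero _ (v.pos ht).ne') h4
    have h5 : eval (z j) (Pool.Agent.Helper30.TKN.jf F) = algebraMap R K (pjac G (X j)).det := by
      rw [Pool.Agent.Helper30.TKN.eval_jf, RingHom.map_det]
      congr 1
      ext p q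
      rw [RingHom.mapMatrix_apply, Matrix.map_apply]
      simp only [Pool.Agent.Helper38.TQ.jac, pjac, Matrix.of_apply]
      rw [Pool.Agent.Helper38.Sym.map_eval_gen (algebraMap R K), ← pderiv_map, hG]
    rw [h5] at h3
    have h6 := hφ' _ h3
    rw [RingHom.map_det] at h6
    have h7 : φ.mapMatrix (pjac G (X j)) = pjac g (fun k => φ (X j k)) := by
      ext p q
      rw [RingHom.mapMatrix_apply, Matrix.map_apply]
      simp only [pjac, Matrix.of_apply, hg]
      rw [Pool.Agent.Helper38.Sym.map_eval_gen φ, ← pderiv_map]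
    rw [h7] at h6
    exact h6
  -- the residue characteristic
  obtain ⟨p, hp⟩ := CharP.exists (IsLocalRing.ResidueField R)
  have hpp : p.Prime := CharP.char_is_prime (IsLocalRing.ResidueField R) p
  have hpR : (p : R) ∈ IsLocalRing.maximalIdeal R := by
    rw [← IsLocalRing.residue_eq_zero_iff, map_natCast]
    exact CharP.cast_eq_zero _ p
  let _ : Algebra R L := ((algebraMap K L).comp (algebraMap R K)).toAlgebra
  have hRL : Function.Injective (algebraMap R L) := (algebraMap K L).injective.comp hinj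
  have h := Pool.Agent.Helper38.Sym.dml_dvr_general p hpp hpR φ hφ G hGh b hgood hRL
    (algebraMap K L (a i₀)) (by
      rw [Ne, map_eq_zero]
      exact hc0)
  have e1 : (fun i => MvPolynomial.map (algebraMap R L) (G i)) =
      fun i => MvPolynomial.map (algebraMap K L) (F i) := by
    funext k
    rw [← hG k, MvPolynomial.map_map]
    rfl
  have e2 : (fun k => algebraMap K L (a i₀) * algebraMap R L (b k)) =
      fun k => algebraMap K L (a k) := by
    funext k
    change algebraMap K L (a i₀) * algebraMap K L (algebraMap R K (b k)) = _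
    rw [hb, ← map_mul, mul_div_cancel₀ _ hc0]
  rw [e1, e2] at h
  exact h

open NumberField in
theorem DvrN_finite {K : Type} [Field K] [NumberField K]
    (P : IsDedekindDomain.HeightOneSpectrum (𝓞 K)) :
    Finite (IsLocalRing.ResidueField (P.valuation K).valuationSubring) := by
  classical
  have hmem : ∀ x : 𝓞 K, algebraMap (𝓞 K) K x ∈ (P.valuation K).valuationSubring :=
    fun x => P.valuation_le_one x
  let ψ : 𝓞 K →+* (P.valuation K).valuationSubring :=
    (algebraMap (𝓞 K) K).codRestrict _ hmem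
  let θ : 𝓞 K →+* IsLocalRing.ResidueField (P.valuation K).valuationSubring :=
    (IsLocalRing.residue _).comp ψ
  have hI := Valuation.valuationSubring.integers (P.valuation K)
  have h0 : ∀ r : (P.valuation K).valuationSubring, P.valuation K (r : K) < 1 →
      IsLocalRing.residue _ r = 0 := by
    intro r hr
    by_contra h
    have h1 := (hI.isUnit_iff_valuation_eq_one).1
      ((IsLocalRing.residue_ne_zero_iff_isUnit r).1 h)
    exact hr.ne h1
  have hker : ∀ x ∈ P.asIdeal, θ x = 0 := by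
    intro x hx
    exact h0 _ ((P.valuation_lt_one_iff_mem x).2 hx)
  have hfin : Finite (𝓞 K ⧸ P.asIdeal) := P.asIdeal.finiteQuotientOfFreeOfNeBot P.ne_bot
  have hsurj : Function.Surjective (Ideal.Quotient.lift P.asIdeal θ hker) := by
    intro y
    obtain ⟨r, rfl⟩ := IsLocalRing.residue_surjective y
    obtain ⟨x, hx⟩ := P.exists_valuation_sub_lt_of_integer (K := K) (x := (r : K)) r.2 1
    refine ⟨Ideal.Quotient.mk _ x, ?_⟩
    rw [Ideal.Quotient.lift_mk, ← sub_eq_zero]
    change IsLocalRing.residue _ (ψ x) - IsLocalRing.residue _ r = 0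
    rw [← map_sub]
    exact h0 _ hx
  exact Finite.of_surjective _ hsurj

theorem dml_of_place {K : Type} [Field K] [NumberField K] (v : nonarchAbsVal (K := K))
    (hv : IsNonarchimedean v.val) {F : Fin (ν + 1) → MvPolynomial (Fin (ν + 1)) K} {d : ℕ}
    (hF : ∀ i, (F i).IsHomogeneous d) (hFi : ∀ i m, v.val ((F i).coeff m) ≤ 1)
    (hFn : ∀ x : Fin (ν + 1) → K, nm v.val (step F x) = nm v.val x ^ d)
    {a : Fin (ν + 1) → K} (ha : a ≠ 0) {i n : ℕ} (hin : i < n)
    (hct : 0 < ct v.val (iter F a i) (iter F a n))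
    (hJ : ∀ j, i ≤ j → j < n →
      v.val (eval (iter F a j) (Pool.Agent.Helper30.TKN.jf F)) = nm v.val (iter F a j) ^ ((ν + 1) * (d - 1)))
    {L : Type} [Field L] [Algebra K L] :
    Pool.Agent.Helper38.Sym.DMLgen (fun i => map (algebraMap K L) (F i))
      (fun i => algebraMap K L (a i)) := by
  obtain ⟨v, P, rfl⟩ := v
  have hval : ∀ x : K, NumberField.place (NumberField.FinitePlace.embedding P) x =
      WithZeroMulInt.toNNReal (NumberField.HeightOneSpectrum.absNorm_ne_zero P)
        (P.valuation K x) := by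
    intro x
    rw [NumberField.place_apply]
    exact NumberField.FinitePlace.norm_embedding' P x
  have hb := NumberField.HeightOneSpectrum.one_lt_absNorm_nnreal P
  have hle : ∀ x : K, NumberField.place (NumberField.FinitePlace.embedding P) x ≤ 1 ↔
      P.valuation K x ≤ 1 := by
    intro x
    rw [hval, NNReal.coe_le_one, WithZeroMulInt.toNNReal_le_one_iff hb]
  have hlt : ∀ x : K, NumberField.place (NumberField.FinitePlace.embedding P) x < 1 ↔
      P.valuation K x < 1 := by
    intro x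
    rw [hval, NNReal.coe_lt_one, WithZeroMulInt.toNNReal_lt_one_iff hb]
  have heq : ∀ x : K, NumberField.place (NumberField.FinitePlace.embedding P) x = 1 ↔
      P.valuation K x = 1 := by
    intro x
    rw [le_antisymm_iff, ← not_lt (a := _) (b := (1 : ℝ)), hle, hlt, not_lt, ← le_antisymm_iff]
  have := DvrN_finite P
  have hI := Valuation.valuationSubring.integers (P.valuation K)
  exact DvrN_core (R := (P.valuation K).valuationSubring) (IsFractionRing.injective _ K) _
    (fun x hx => ⟨⟨x, (hle x).1 hx⟩, rfl⟩)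
    (fun r hr => (hI.isUnit_iff_valuation_eq_one).2 ((heq _).1 hr))
    (fun r hr h => ((hlt _).1 hr).ne ((hI.isUnit_iff_valuation_eq_one).1 h))
    hF hFi hFn ha hin hct hJ

end Pool.Agent.Helper72.PN

end

section

namespace Pool.Agent.Helper36
end Pool.Agent.Helper36
namespace Pool.Agent.Helper29.TG
end Pool.Agent.Helper29.TG

/-!
# Project TH: a sequence of points has two congruent members
-/

set_option autoImplicit false

namespace Pool.Agent.Helper72.TH

open MvPolynomial Height Height.AdmissibleAbsValues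

open Pool.Agent.Helper36 (step iter)

open Pool.Agent.Helper29.TG

variable {ν : ℕ}

/-- Congruence of normalised points. -/
theorem Pig_cong {K : Type} [Field K] {v : AbsoluteValue K ℝ} (hv : IsNonarchimedean v)
    {z w : Fin (ν + 1) → K} (hz : nm v z = 1) (hw : nm v w = 1) (h : ∀ k, v (z k - w k) < 1)
    {s t : K} (hs : s ≠ 0) (ht : t ≠ 0) : Cong v (s • z) (t • w) := by
  have h1 : nm v (cr z w) < 1 := by
    obtain ⟨q, hq⟩ : ∃ q, v (cr z w q) = nm v (cr z w) := exists_eq_ciSup_of_finite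
    rw [← hq]
    have h2 : cr z w q = z q.1 * (w q.2 - z q.2) + z q.2 * (z q.1 - w q.1) := by
      simp only [cr]
      ring
    rw [h2]
    refine (hv _ _).trans_lt (max_lt ?_ ?_)
    · rw [map_mul, AbsoluteValue.map_sub]
      exact mul_lt_one_of_nonneg_of_lt_one_right ((le_nm v z q.1).trans hz.le)
        (v.nonneg _) (h q.2)
    · rw [map_mul]
      exact mul_lt_one_of_nonneg_of_lt_one_right ((le_nm v z q.2).trans hz.le)
        (v.nonneg _) (h q.1)
  unfold Cong
  rw [Pool.Agent.Helper72.PN.DvrN_cross_smul, nm_smul, nm_smul, nm_smul, hz, hw, map_mul, mul_one,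
    mul_one]
  exact mul_lt_of_lt_one_right (mul_pos (v.pos hs) (v.pos ht)) h1

/-- The residue field is finite. -/
theorem exists_cong {K : Type} [Field K] [NumberField K] {v : AbsoluteValue K ℝ}
    (hv : v ∈ nonarchAbsVal (K := K)) {y : ℕ → Fin (ν + 1) → K} (hy : ∀ n, y n ≠ 0) (n₀ : ℕ) :
    ∃ i n, n₀ ≤ i ∧ i < n ∧ Cong v (y i) (y n) := by
  have hna : IsNonarchimedean v := isNonarchimedean v hv
  choose m hm using fun n => Pool.Agent.Helper72.PN.DvrN_exists v (y n)
  have hc0 : ∀ n, y n (m n) ≠ 0 := by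
    intro n h
    have h1 := hm n
    rw [h, map_zero] at h1
    exact (nm_pos v (hy n)).ne h1
  set z : ℕ → Fin (ν + 1) → K := fun n k => y n k / y n (m n) with hz
  have hyz : ∀ n, y n = y n (m n) • z n := by
    intro n
    funext k
    simp only [hz, Pi.smul_apply, smul_eq_mul]
    rw [mul_div_cancel₀ _ (hc0 n)]
  have hnz : ∀ n, nm v (z n) = 1 := by
    intro n
    have h1 : nm v (y n) = v (y n (m n)) * nm v (z n) := by
      rw [← nm_smul, ← hyz n]
    rw [hm n] at h1
    exact (mul_left_cancel₀ (nm_pos v (hy n)).ne'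
      ((mul_one (nm v (y n))).trans h1)).symm
  have hzle : ∀ n k, v (z n k) ≤ 1 := fun n k => (le_nm v (z n) k).trans (hnz n).le
  obtain ⟨P, hP⟩ := hv
  have hval : ∀ x : K, NumberField.place (NumberField.FinitePlace.embedding P) x =
      WithZeroMulInt.toNNReal (NumberField.HeightOneSpectrum.absNorm_ne_zero P)
        (P.valuation K x) := by
    intro x
    rw [NumberField.place_apply]
    exact NumberField.FinitePlace.norm_embedding' P x
  have hb := NumberField.HeightOneSpectrum.one_lt_absNorm_nnreal P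
  have hle : ∀ x : K, v x ≤ 1 ↔ P.valuation K x ≤ 1 := by
    intro x
    rw [← hP, hval, NNReal.coe_le_one, WithZeroMulInt.toNNReal_le_one_iff hb]
  have hlt : ∀ x : K, v x < 1 ↔ P.valuation K x < 1 := by
    intro x
    rw [← hP, hval, NNReal.coe_lt_one, WithZeroMulInt.toNNReal_lt_one_iff hb]
  have hfin := Pool.Agent.Helper72.PN.DvrN_finite P
  have hI := Valuation.valuationSubring.integers (P.valuation K)
  let r : ℕ → Fin (ν + 1) → (P.valuation K).valuationSubring :=
    fun n k => ⟨z n k, (hle _).1 (hzle n k)⟩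
  obtain ⟨a, b, hab, h⟩ := Finite.exists_ne_map_eq_of_infinite
    (fun n => fun k => IsLocalRing.residue _ (r (n₀ + n) k))
  have key : ∀ a b, (fun k => IsLocalRing.residue _ (r (n₀ + a) k)) =
      (fun k => IsLocalRing.residue _ (r (n₀ + b) k)) → a < b →
      ∃ i n, n₀ ≤ i ∧ i < n ∧ Cong v (y i) (y n) := by
    intro a b h hlt'
    refine ⟨n₀ + a, n₀ + b, by omega, by omega, ?_⟩
    rw [hyz (n₀ + a), hyz (n₀ + b)]
    refine Pig_cong hna (hnz _) (hnz _) (fun k => ?_) (hc0 _) (hc0 _)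
    have h1 := congrFun h k
    have h2 : IsLocalRing.residue _ (r (n₀ + a) k - r (n₀ + b) k) = 0 := by
      rw [map_sub, sub_eq_zero]
      exact h1
    rw [hlt]
    have h3 : ¬ IsUnit (r (n₀ + a) k - r (n₀ + b) k) := fun hu =>
      (IsLocalRing.residue_ne_zero_iff_isUnit _).2 hu h2
    rw [hI.isUnit_iff_valuation_eq_one] at h3
    exact lt_of_le_of_ne ((r (n₀ + a) k - r (n₀ + b) k).2) h3
  rcases lt_or_gt_of_ne hab with h1 | h1
  · exact key a b h h1
  · exact key b a h.symm h1

/-- There is a place outside any finite set. -/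
theorem exists_place {K : Type} [Field K] [NumberField K] {B : Set (AbsoluteValue K ℝ)}
    (hB : B.Finite) : ∃ v ∈ nonarchAbsVal (K := K), v ∉ B := by
  classical
  by_contra hcon
  push Not at hcon
  have h1 : ∀ v : AbsoluteValue K ℝ, ∃ n : ℕ, 0 < n ∧
      (v ∈ nonarchAbsVal (K := K) → (∃ n' : ℕ, 0 < n' ∧ v (n' : K) < 1) → v (n : K) < 1) := by
    intro v
    by_cases h : ∃ n' : ℕ, 0 < n' ∧ v (n' : K) < 1
    · obtain ⟨n', h2, h3⟩ := h
      exact ⟨n', h2, fun _ _ => h3⟩
    · exact ⟨1, one_pos, fun _ h2 => absurd h2 h⟩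
  choose N hN0 hN using h1
  set m : ℕ := 1 + ∏ v ∈ hB.toFinset, N v with hm
  have hm2 : 2 ≤ m := by
    have h2 : 0 < ∏ v ∈ hB.toFinset, N v := Finset.prod_pos fun v _ => hN0 v
    omega
  have hle : ∀ v ∈ nonarchAbsVal (K := K), ∀ n : ℕ, v (n : K) ≤ 1 := by
    intro v hv n
    exact (isNonarchimedean v hv).apply_natCast_le_one
  have hunit : ∀ v ∈ nonarchAbsVal (K := K), v (m : K) = 1 := by
    intro v hv
    by_cases h : ∃ n' : ℕ, 0 < n' ∧ v (n' : K) < 1
    · have h2 := hN v hv h
      have h3 : v ((∏ v ∈ hB.toFinset, N v : ℕ) : K) < 1 := by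
        rw [← Finset.mul_prod_erase _ _ (hB.mem_toFinset.2 (hcon v hv)), Nat.cast_mul, map_mul]
        exact mul_lt_one_of_nonneg_of_lt_one_left (v.nonneg _) h2 (hle v hv _)
      have hna : IsNonarchimedean v := isNonarchimedean v hv
      rw [hm, Nat.cast_add, Nat.cast_one]
      have h4 := hna.add_eq_max_of_ne (x := (1 : K))
        (y := ((∏ v ∈ hB.toFinset, N v : ℕ) : K)) (by
          rw [map_one]
          exact h3.ne')
      rw [h4, map_one]
      exact max_eq_left h3.le
    · push Not at h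
      exact le_antisymm (hle v hv m) (h m (by omega))
  have hm0 : (m : K) ≠ 0 := Nat.cast_ne_zero.2 (by omega)
  have h5 := product_formula hm0
  rw [NumberField.prod_archAbsVal_eq (fun v => v (m : K))] at h5
  have h6 : (∏ᶠ v : nonarchAbsVal (K := K), v.val (m : K)) = 1 :=
    finprod_eq_one_of_forall_eq_one fun v => hunit v.val v.2
  rw [h6, mul_one] at h5
  have h7 := NumberField.InfinitePlace.prod_eq_abs_norm (K := K) (m : K)
  have h8 : (∏ v : NumberField.InfinitePlace K, v.val (m : K) ^ v.mult) =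
      ∏ v : NumberField.InfinitePlace K, v (m : K) ^ v.mult := rfl
  rw [h8, h7] at h5
  have h9 : Algebra.norm ℚ (m : K) = (m : ℚ) ^ Module.finrank ℚ K := Algebra.norm_natCast ℚ m
  rw [h9] at h5
  have h10 : (1 : ℚ) < (m : ℚ) ^ Module.finrank ℚ K :=
    one_lt_pow₀ (by exact_mod_cast hm2) Module.finrank_pos.ne'
  rw [abs_of_pos (by linarith)] at h5
  have h11 : ((m : ℚ) ^ Module.finrank ℚ K : ℚ) = 1 := by exact_mod_cast h5
  linarith

end Pool.Agent.Helper72.TH

end

section

namespace Pool.Agent.Helper36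
end Pool.Agent.Helper36
namespace Pool.Agent.Helper29.TG
end Pool.Agent.Helper29.TG

/-!
# Project TH: one point of the orbit on the invariant set modulo a good place is enough
-/

set_option autoImplicit false

namespace Pool.Agent.Helper72.TH

open MvPolynomial Height Height.AdmissibleAbsValues

open Pool.Agent.Helper36 (step iter)

open Pool.Agent.Helper29.TG

variable {ν : ℕ}

theorem dml_of_hit {K : Type} [Field K] [NumberField K]
    {F : Fin (ν + 1) → MvPolynomial (Fin (ν + 1)) K} {d : ℕ} (hF : ∀ i, (F i).IsHomogeneous d)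
    {v : AbsoluteValue K ℝ} (hv : v ∈ nonarchAbsVal (K := K)) (hG : GoodF v F d)
    {R : MvPolynomial (Fin (ν + 1)) K} {r : ℕ} (hR : R.IsHomogeneous r)
    (hRi : ∀ m, v (R.coeff m) ≤ 1) {n : ℕ}
    {W : Fin n → MvPolynomial (Fin (ν + 1)) K} {δ : Fin n → ℕ}
    (hW : ∀ j, (W j).IsHomogeneous (δ j)) {S : ℕ → Finset (Fin n)} {k : ℕ}
    (hc : ChainV v F (Pool.Agent.Helper30.TKN.jf F * R) ((ν + 1) * (d - 1) + r) W δ S k)
    {x : Fin (ν + 1) → K} (hx : ∀ n, iter F x n ≠ 0)
    (hcr : ∀ n m, n ≠ m → cr (iter F x n) (iter F x m) ≠ 0)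
    {i : ℕ} (h0 : InZ v W δ (S 0) (iter F x i)) {L : Type} [Field L] [Algebra K L] :
    Pool.Agent.Helper38.Sym.DMLgen (fun i => map (algebraMap K L) (F i))
      (fun i => algebraMap K L (x i)) := by
  obtain ⟨i₁, n₁, hi, hin, hcong⟩ := exists_cong (ν := ν) hv hx i
  -- the later points lie on the first closed set
  have hk : 0 < k := by
    rcases Nat.eq_zero_or_pos k with hk | hk
    · subst hk
      exact absurd h0 (hc.empty _ (hx _))
    · exact hk
  have hfwd : ∀ l, i ≤ l → InZ v W δ (S 0) (iter F x l) := by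
    intro l hl
    induction l, hl using Nat.le_induction with
    | base => exact h0
    | succ l' _ ih =>
      rw [Pool.Agent.Helper36.iter_succ]
      exact hc.inv 0 hk _ (hx _) ih
  have hun := cycle_unit hF hG hW hc hx hin hcong (hfwd i₁ hi)
  have hct : 0 < ct v (iter F x i₁) (iter F x n₁) := by
    have h1 := nm_pos v (hx i₁)
    have h2 := nm_pos v (hx n₁)
    have h3 := nm_pos v (hcr i₁ n₁ hin.ne)
    have h4 := Real.log_lt_log h3 hcong
    rw [Real.log_mul h1.ne' h2.ne'] at h4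
    unfold ct
    linarith
  have hx0 : x ≠ 0 := hx 0
  refine Pool.Agent.Helper72.PN.dml_of_place ⟨v, hv⟩ hG.na hF hG.F_int hG.F_nm hx0 hin hct ?_
  intro j hj _
  have h1 := hun j hj
  unfold Sm at h1
  rw [not_lt, map_mul, map_mul, pow_add] at h1
  have h2 := Pool.Agent.Helper72.PN.KeyN_jf_le hG.na hF hG.F_int (iter F x j)
  have h3 := Pool.Agent.Helper72.PN.KeyN_eval_le hG.na hR hRi (iter F x j)
  have h4 : 0 < nm v (iter F x j) := nm_pos v (hx j)
  refine le_antisymm h2 ?_
  by_contra hcon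
  push Not at hcon
  have h5 : 0 < nm v (iter F x j) ^ r := pow_pos h4 _
  have h6 : v (eval (iter F x j) (Pool.Agent.Helper30.TKN.jf F)) * v (eval (iter F x j) R) <
      nm v (iter F x j) ^ ((ν + 1) * (d - 1)) * nm v (iter F x j) ^ r :=
    calc v (eval (iter F x j) (Pool.Agent.Helper30.TKN.jf F)) * v (eval (iter F x j) R)
        ≤ v (eval (iter F x j) (Pool.Agent.Helper30.TKN.jf F)) * nm v (iter F x j) ^ r :=
          mul_le_mul_of_nonneg_left h3 (v.nonneg _)
      _ < _ := mul_lt_mul_of_pos_right hcon h5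
  exact absurd h1 (not_le.2 h6)

end Pool.Agent.Helper72.TH

end

section

namespace Pool.Agent.Helper36
end Pool.Agent.Helper36
namespace Pool.Agent.Helper29.TG
end Pool.Agent.Helper29.TG

/-!
# Project TH: the pullbacks of a form cannot all be small at a place
-/

set_option autoImplicit false

namespace Pool.Agent.Helper72.TH

open MvPolynomial Height Height.AdmissibleAbsValues

open Pool.Agent.Helper36 (step iter)

open Pool.Agent.Helper29.TG

variable {ν : ℕ} {K : Type} [Field K]

/-- The form `R ∘ F^j`. -/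
theorem Null_comp (F : Fin (ν + 1) → MvPolynomial (Fin (ν + 1)) K)
    (R : MvPolynomial (Fin (ν + 1)) K) (j : ℕ) :
    ∃ G : MvPolynomial (Fin (ν + 1)) K, ∀ {B : Type} [Field B] [Algebra K B]
      (y : Fin (ν + 1) → B), aeval y G = aeval (iter F y j) R := by
  induction j with
  | zero => exact ⟨R, fun y => rfl⟩
  | succ j ih =>
    obtain ⟨G, hG⟩ := ih
    refine ⟨aeval F G, fun y => ?_⟩
    rw [Pool.Agent.Helper36.iter_succ', ← hG]
    exact comp_aeval_apply F (aeval y) G

/-- The Nullstellensatz. -/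
theorem Null_ns {L : Type} [Field L] [IsAlgClosed L] [Algebra K L] {T : Finset ℕ}
    {G : ℕ → MvPolynomial (Fin (ν + 1)) K}
    (h : ∀ x : Fin (ν + 1) → L, (∀ j ∈ T, aeval x (G j) = 0) → x = 0) (k : Fin (ν + 1)) :
    ∃ (r : ℕ) (c : ℕ → MvPolynomial (Fin (ν + 1)) K), ∑ j ∈ T, c j * G j = X k ^ r := by
  classical
  have h2 : (X k : MvPolynomial (Fin (ν + 1)) K) ∈
      (Ideal.span (Set.range fun j : T => G j)).radical := by
    rw [← MvPolynomial.vanishingIdeal_zeroLocus_eq_radical (K := L)]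
    rw [MvPolynomial.mem_vanishingIdeal_iff]
    intro x hx
    rw [MvPolynomial.mem_zeroLocus_iff] at hx
    have : x = 0 := h x fun j hj => hx _ (Ideal.subset_span ⟨⟨j, hj⟩, rfl⟩)
    rw [this]
    simp
  obtain ⟨r, hr⟩ := h2
  rw [Ideal.mem_span_range_iff_exists_fun] at hr
  obtain ⟨c, hc⟩ := hr
  refine ⟨r, fun j => if hj : j ∈ T then c ⟨j, hj⟩ else 0, ?_⟩
  rw [← hc, ← Finset.sum_attach]
  refine Finset.sum_congr rfl fun j _ => ?_
  change (dite ((j : ℕ) ∈ T) (fun hj => c ⟨j, hj⟩) (fun _ => 0)) * G j = _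
  rw [dif_pos j.2]

theorem Null_bd (v : AbsoluteValue K ℝ) (P : MvPolynomial (Fin (ν + 1)) K) (B : ℝ) :
    ∃ C : ℝ, ∀ y : Fin (ν + 1) → K, (∀ i, v (y i) ≤ B) → v (eval y P) ≤ C := by
  induction P using MvPolynomial.induction_on with
  | C a => exact ⟨v a, fun y _ => by rw [eval_C]⟩
  | add p q hp hq =>
    obtain ⟨C₁, h1⟩ := hp
    obtain ⟨C₂, h2⟩ := hq
    refine ⟨C₁ + C₂, fun y hy => ?_⟩
    rw [map_add]
    exact (v.add_le _ _).trans (add_le_add (h1 y hy) (h2 y hy))
  | mul_X p n hp =>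
    obtain ⟨C₁, h1⟩ := hp
    refine ⟨C₁ * B, fun y hy => ?_⟩
    rw [map_mul, map_mul, eval_X]
    exact mul_le_mul (h1 y hy) (hy n) (v.nonneg _) ((v.nonneg _).trans (h1 y hy))

theorem Null_iter (v : AbsoluteValue K ℝ) (F : Fin (ν + 1) → MvPolynomial (Fin (ν + 1)) K)
    (j : ℕ) : ∃ C : ℝ, 1 ≤ C ∧ ∀ y : Fin (ν + 1) → K, (∀ i, v (y i) ≤ 1) →
      ∀ i, v (iter F y j i) ≤ C := by
  induction j with
  | zero => exact ⟨1, le_rfl, fun y hy i => hy i⟩
  | succ j ih =>
    obtain ⟨C, -, hC⟩ := ih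
    choose c hc using fun i => Null_bd v (F i) C
    refine ⟨1 + ∑ i, |c i|, ?_, fun y hy i => ?_⟩
    · have : 0 ≤ ∑ i, |c i| := Finset.sum_nonneg fun i _ => abs_nonneg _
      linarith
    · rw [Pool.Agent.Helper36.iter_succ]
      have h1 : step F (iter F y j) i = eval (iter F y j) (F i) :=
        congrArg (fun φ => φ (F i)) (MvPolynomial.coe_aeval_eq_eval (iter F y j))
      rw [h1]
      have h2 := hc i (iter F y j) (fun l => hC y hy l)
      have h3 : |c i| ≤ ∑ i, |c i| :=
        Finset.single_le_sum (f := fun i => |c i|) (fun i _ => abs_nonneg _) (Finset.mem_univ i)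
      have h4 := le_abs_self (c i)
      linarith

theorem Null_df_smul (v : AbsoluteValue K ℝ) {R : MvPolynomial (Fin (ν + 1)) K} {t : ℕ}
    (hR : R.IsHomogeneous t) {c : K} (hc : c ≠ 0) {z : Fin (ν + 1) → K} (hz : z ≠ 0)
    (hRz : eval z R ≠ 0) : df v R t (c • z) = df v R t z := by
  unfold df
  rw [nm_smul, Pool.Agent.Helper72.PN.KeyN_smul hR, map_mul, map_pow,
    Real.log_mul (v.pos hc).ne' (nm_pos v hz).ne',
    Real.log_mul (pow_ne_zero _ (v.pos hc).ne') (v.pos hRz).ne', Real.log_pow]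
  ring

/-- If the forms `R ∘ F^j`, `j ∈ T`, have no common zero, then at each absolute value one of the
defects `t log |F^j x| - log |R (F^j x)|` is bounded. -/
theorem exists_df_le {L : Type} [Field L] [IsAlgClosed L] [Algebra K L]
    {F : Fin (ν + 1) → MvPolynomial (Fin (ν + 1)) K} {d : ℕ} (hd : 1 ≤ d)
    (hF : ∀ i, (F i).IsHomogeneous d)
    (hnz : ∀ x : Fin (ν + 1) → L, (∀ i, aeval x (F i) = 0) → x = 0)
    {R : MvPolynomial (Fin (ν + 1)) K} {t : ℕ} (hR : R.IsHomogeneous t) (T : Finset ℕ)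
    (hT : ∀ x : Fin (ν + 1) → L,
      (∀ j ∈ T, aeval (iter (fun i => map (algebraMap K L) (F i)) x j) R = 0) → x = 0)
    (v : AbsoluteValue K ℝ) :
    ∃ C : ℝ, ∀ x : Fin (ν + 1) → K, x ≠ 0 → ∃ j ∈ T, eval (iter F x j) R ≠ 0 ∧
      df v R t (iter F x j) ≤ C := by
  classical
  -- the iterates of nonzero vectors are not zero
  have hstep : ∀ z : Fin (ν + 1) → K, z ≠ 0 → step F z ≠ 0 := by
    intro z hz h0
    apply hz
    have h1 : (fun i => algebraMap K L (z i)) = 0 := by
      refine hnz _ fun i => ?_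
      have h2 := aeval_algebraMap_apply L z (F i)
      have h3 : aeval z (F i) = 0 := congrFun h0 i
      rw [h3, map_zero] at h2
      exact h2
    funext i
    have h2 := congrFun h1 i
    exact (map_eq_zero (algebraMap K L)).1 h2
  have hiter : ∀ z : Fin (ν + 1) → K, z ≠ 0 → ∀ j, iter F z j ≠ 0 := by
    intro z hz j
    induction j with
    | zero => exact hz
    | succ j ih =>
      rw [Pool.Agent.Helper36.iter_succ]
      exact hstep _ ih
  -- the pullbacks
  choose G hG using fun j => Null_comp F R j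
  have hmap : ∀ (x : Fin (ν + 1) → L) (j : ℕ),
      iter (fun i => map (algebraMap K L) (F i)) x j = iter F x j := by
    intro x j
    induction j with
    | zero => rfl
    | succ j ih =>
      rw [Pool.Agent.Helper36.iter_succ, Pool.Agent.Helper36.iter_succ, ih]
      funext i
      exact aeval_map_algebraMap L (iter F x j) (F i)
  have hG0 : ∀ x : Fin (ν + 1) → L, (∀ j ∈ T, aeval x (G j) = 0) → x = 0 := by
    intro x hx
    refine hT x fun j hj => ?_
    rw [hmap, ← hG j]
    exact hx j hj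
  have hGe : ∀ (y : Fin (ν + 1) → K) (j : ℕ), eval y (G j) = eval (iter F y j) R := by
    intro y j
    have h1 := hG j y
    have h2 : aeval y (G j) = eval y (G j) := congrArg (fun φ => φ (G j)) (coe_aeval_eq_eval y)
    have h3 : aeval (iter F y j) R = eval (iter F y j) R :=
      congrArg (fun φ => φ R) (coe_aeval_eq_eval (iter F y j))
    rw [← h2, h1, h3]
  choose r c hc using fun k => Null_ns hG0 k
  -- the constants
  choose D hD using fun (k : Fin (ν + 1)) (j : ℕ) => Null_bd v (c k j) 1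
  choose C hC1 hC using fun j => Null_iter v F j
  set E : ℝ := 1 + ∑ k, ∑ j ∈ T, |D k j| with hE
  have hEk : ∀ k, ∑ j ∈ T, |D k j| < E := by
    intro k
    have h1 : ∑ j ∈ T, |D k j| ≤ ∑ k, ∑ j ∈ T, |D k j| :=
      Finset.single_le_sum (f := fun k => ∑ j ∈ T, |D k j|)
        (fun k _ => Finset.sum_nonneg fun j _ => abs_nonneg _) (Finset.mem_univ k)
    linarith
  have hE0 : 0 < E := lt_of_le_of_lt (Finset.sum_nonneg fun j _ => abs_nonneg _) (hEk 0)
  refine ⟨∑ j ∈ T, t * Real.log (C j) + Real.log E, fun x hx => ?_⟩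
  obtain ⟨k, hk, hkx⟩ := exists_nm_eq v hx
  set y : Fin (ν + 1) → K := (x k)⁻¹ • x with hy
  have hy0 : y ≠ 0 := smul_ne_zero (inv_ne_zero hk) hx
  have hyk : y k = 1 := by
    rw [hy, Pi.smul_apply, smul_eq_mul, inv_mul_cancel₀ hk]
  have hy1 : ∀ i, v (y i) ≤ 1 := by
    intro i
    rw [hy, Pi.smul_apply, smul_eq_mul, map_mul, map_inv₀, inv_mul_le_iff₀ (v.pos hk), mul_one,
      ← hkx]
    exact le_nm v x i
  -- one of the values is large
  obtain ⟨j, hj, hjy⟩ : ∃ j ∈ T, E⁻¹ ≤ v (eval (iter F y j) R) := by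
    by_contra hcon
    push Not at hcon
    have h1 := congrArg (eval y) (hc k)
    rw [map_pow, eval_X, hyk, one_pow, map_sum] at h1
    have h2 : v (∑ j ∈ T, eval y (c k j * G j)) ≤ ∑ j ∈ T, |D k j| * E⁻¹ := by
      refine (v.sum_le _ _).trans (Finset.sum_le_sum fun j hj => ?_)
      rw [map_mul, map_mul, hGe]
      exact mul_le_mul ((hD k j y hy1).trans (le_abs_self _)) (hcon j hj).le (v.nonneg _)
        (abs_nonneg _)
    rw [h1, map_one, ← Finset.sum_mul, ← div_eq_mul_inv, one_le_div hE0] at h2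
    exact absurd (hEk k) (not_lt.2 h2)
  have hRy : eval (iter F y j) R ≠ 0 := by
    intro h0
    rw [h0, map_zero] at hjy
    exact absurd (inv_pos.2 hE0) (not_lt.2 hjy)
  have hdf : df v R t (iter F y j) ≤ ∑ j ∈ T, t * Real.log (C j) + Real.log E := by
    unfold df
    have h1 : Real.log (nm v (iter F y j)) ≤ Real.log (C j) :=
      Real.log_le_log (nm_pos v (hiter y hy0 j))
        (nm_le (zero_le_one.trans (hC1 j)) (hC j y hy1))
    have h2 : -Real.log E ≤ Real.log (v (eval (iter F y j) R)) := by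
      rw [← Real.log_inv]
      exact Real.log_le_log (inv_pos.2 hE0) hjy
    have h3 : (t : ℝ) * Real.log (C j) ≤ ∑ j ∈ T, t * Real.log (C j) :=
      Finset.single_le_sum (f := fun j => (t : ℝ) * Real.log (C j))
        (fun j _ => mul_nonneg (Nat.cast_nonneg _) (Real.log_nonneg (hC1 j))) hj
    have h4 := mul_le_mul_of_nonneg_left h1 (Nat.cast_nonneg t : (0 : ℝ) ≤ t)
    linarith
  -- back to `x`
  have hpeq : Pool.Agent.Helper36.PEq y x := by
    refine ⟨x k, hk, ?_⟩
    rw [hy, smul_smul, mul_inv_cancel₀ hk, one_smul]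
  obtain ⟨b, hb, hbx⟩ := hpeq.iter hF j
  refine ⟨j, hj, ?_, ?_⟩
  · rw [hbx, Pool.Agent.Helper72.PN.KeyN_smul hR]
    exact mul_ne_zero (pow_ne_zero _ hb) hRy
  · rw [hbx, Null_df_smul v hR hb (hiter y hy0 j) hRy]
    exact hdf

end Pool.Agent.Helper72.TH

end

section

namespace Pool.Agent.Helper36
end Pool.Agent.Helper36
namespace Pool.Agent.Helper29.TG
end Pool.Agent.Helper29.TG

/-!
# Project TH: every orbit meets the hypersurface modulo a good place
-/

set_option autoImplicit false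

namespace Pool.Agent.Helper72.TH

open MvPolynomial Height Height.AdmissibleAbsValues

open Pool.Agent.Helper36 (step iter)

open Pool.Agent.Helper29.TG

variable {ν : ℕ} {K : Type} [Field K] [AdmissibleAbsValues K]

/-- the sum over all places of a function which is `≤ 0` outside the finite set `B` -/
theorem exists_ls_le {B : Set (AbsoluteValue K ℝ)} (hB : B.Finite) :
    ∃ M : ℝ, 0 ≤ M ∧ ∀ (f : AbsoluteValue K ℝ → ℝ) (c : ℝ), 0 ≤ c → FS f →
      (∀ v ∈ nonarchAbsVal (K := K), v ∉ B → f v ≤ 0) →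
      (∀ v, v ∈ B ∨ v ∈ archAbsVal (K := K) → f v ≤ c) → ls f ≤ c * M := by
  classical
  set g : AbsoluteValue K ℝ → ℝ := fun v =>
    if v ∈ nonarchAbsVal (K := K) ∧ v ∉ B then 0 else 1 with hg
  have hg0 : ∀ v, 0 ≤ g v := by
    intro v
    simp only [hg]
    split_ifs <;> norm_num
  have hFg : FS g := FS.of_finite hB fun v hv hvB => by
    simp only [hg]
    rw [if_pos ⟨hv, hvB⟩]
  refine ⟨ls g, ls_nonneg hFg fun v _ => hg0 v, fun f c hc hf h1 h2 => ?_⟩
  rw [← ls_mul_left]
  refine ls_mono hf (hFg.mul_left c) fun v hv => ?_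
  by_cases h3 : v ∈ nonarchAbsVal (K := K) ∧ v ∉ B
  · have : g v = 0 := by simp only [hg]; rw [if_pos h3]
    rw [this, mul_zero]
    exact h1 v h3.1 h3.2
  · have : g v = 1 := by simp only [hg]; rw [if_neg h3]
    rw [this, mul_one]
    refine h2 v ?_
    rcases hv with hv | hv
    · exact Or.inr hv
    · left
      by_contra hvB
      exact h3 ⟨hv, hvB⟩

omit [AdmissibleAbsValues K] in
theorem iter_add' (F : Fin (ν + 1) → MvPolynomial (Fin (ν + 1)) K) (x : Fin (ν + 1) → K)
    (n j : ℕ) : iter F (iter F x n) j = iter F x (n + j) := by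
  unfold iter
  rw [← Function.iterate_add_apply, Nat.add_comm j n]

/-- **Hitting theorem** (Runge's method). If no `k + 1` of the forms `R ∘ F^j` have a common zero,
then every orbit with heights tending to infinity meets `R = 0` modulo a place outside the finite
set `B`. -/
theorem exists_hit {L : Type} [Field L] [IsAlgClosed L] [Algebra K L]
    {F : Fin (ν + 1) → MvPolynomial (Fin (ν + 1)) K} {d : ℕ} (hd : 1 ≤ d)
    (hF : ∀ i, (F i).IsHomogeneous d)
    (hnz : ∀ x : Fin (ν + 1) → L, (∀ i, aeval x (F i) = 0) → x = 0)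
    {R : MvPolynomial (Fin (ν + 1)) K} {t : ℕ} (ht : 1 ≤ t) (hR : R.IsHomogeneous t) {k : ℕ}
    (hk : ∀ T : Finset ℕ, T.card = k + 1 → ∀ x : Fin (ν + 1) → L,
      (∀ j ∈ T, aeval (iter (fun i => map (algebraMap K L) (F i)) x j) R = 0) → x = 0)
    {B : Set (AbsoluteValue K ℝ)} (hB : B.Finite)
    (hpl : ∃ v ∈ nonarchAbsVal (K := K), v ∉ B)
    {x : Fin (ν + 1) → K} (hx : ∀ n, iter F x n ≠ 0)
    (hh : Filter.Tendsto (fun n => logHeight (iter F x n)) Filter.atTop Filter.atTop) :
    ∃ n, ∃ v ∈ nonarchAbsVal (K := K), v ∉ B ∧ Sm v R t (iter F x n) := by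
  classical
  by_contra hcon
  push Not at hcon
  have hge : ∀ n, ∀ v ∈ nonarchAbsVal (K := K), v ∉ B →
      nm v (iter F x n) ^ t ≤ v (eval (iter F x n) R) := by
    intro n v hv hvB
    have := hcon n v hv hvB
    unfold Sm at this
    exact not_lt.1 this
  have hne : ∀ n, eval (iter F x n) R ≠ 0 := by
    intro n h0
    obtain ⟨v, hv, hvB⟩ := hpl
    have h1 := hge n v hv hvB
    rw [h0, map_zero] at h1
    exact absurd h1 (not_le.2 (pow_pos (nm_pos v (hx n)) t))
  have hle : ∀ n, ∀ v ∈ nonarchAbsVal (K := K), v ∉ B → df v R t (iter F x n) ≤ 0 := by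
    intro n v hv hvB
    have h1 := Real.log_le_log (pow_pos (nm_pos v (hx n)) t) (hge n v hv hvB)
    rw [Real.log_pow] at h1
    unfold df
    linarith
  obtain ⟨M, hM0, hM⟩ := exists_ls_le (K := K) hB
  have hfin : {v : AbsoluteValue K ℝ | v ∈ B ∨ v ∈ archAbsVal (K := K)}.Finite :=
    hB.union finite_arch
  set P : Finset (AbsoluteValue K ℝ) := hfin.toFinset with hP
  have hPm : ∀ v, v ∈ P ↔ (v ∈ B ∨ v ∈ archAbsVal (K := K)) := by
    intro v
    rw [hP, Set.Finite.mem_toFinset]
    exact Iff.rfl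
  set r : ℕ := P.card * k + 1 with hr
  have hC : ∀ (T : Finset ℕ) (v : AbsoluteValue K ℝ), ∃ C : ℝ, T.card = k + 1 →
      ∀ y : Fin (ν + 1) → K, y ≠ 0 → ∃ j ∈ T, eval (iter F y j) R ≠ 0 ∧
        df v R t (iter F y j) ≤ C := by
    intro T v
    by_cases hT : T.card = k + 1
    · obtain ⟨C, hC⟩ := exists_df_le (L := L) hd hF hnz hR T (hk T hT) v
      exact ⟨C, fun _ => hC⟩
    · exact ⟨0, fun h => absurd h hT⟩
  choose C hC using hC
  set C₀ : ℝ := ∑ T ∈ (Finset.range r).powerset, ∑ v ∈ P, |C T v| with hC₀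
  have hC₀0 : 0 ≤ C₀ := Finset.sum_nonneg fun T _ => Finset.sum_nonneg fun v _ => abs_nonneg _
  have hCle : ∀ T ∈ (Finset.range r).powerset, ∀ v ∈ P, C T v ≤ C₀ := by
    intro T hT v hv
    refine (le_abs_self _).trans ?_
    refine (Finset.single_le_sum (f := fun v => |C T v|) (fun v _ => abs_nonneg _) hv).trans ?_
    exact Finset.single_le_sum (f := fun T => ∑ v ∈ P, |C T v|)
      (fun T _ => Finset.sum_nonneg fun v _ => abs_nonneg _) hT
  -- all heights are large from some `n` on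
  obtain ⟨n, hn⟩ := Filter.eventually_atTop.1 (hh.eventually_gt_atTop (C₀ * M))
  have hbig : ∀ j, ∃ v ∈ P, C₀ < df v R t (iter F x (n + j)) := by
    intro j
    by_contra hno
    push Not at hno
    have h1 := hM (fun v => df v R t (iter F x (n + j))) C₀ hC₀0
      (FS_df (hne (n + j)) (hx (n + j))) (fun v hv hvB => hle (n + j) v hv hvB)
      (fun v hv => hno v ((hPm v).2 hv))
    rw [ls_df (hne (n + j)) (hx (n + j))] at h1
    have h2 := hn (n + j) (Nat.le_add_right _ _)
    have h3 : (1 : ℝ) ≤ t := by exact_mod_cast ht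
    have h4 : 0 ≤ C₀ * M := mul_nonneg hC₀0 hM0
    nlinarith
  choose w hwP hw using hbig
  have hcard : P.card * k < (Finset.range r).card := by
    rw [Finset.card_range, hr]
    exact Nat.lt_succ_self _
  obtain ⟨v, hv, hvk⟩ := Finset.exists_lt_card_fiber_of_mul_lt_card_of_maps_to
    (s := Finset.range r) (t := P) (f := w) (fun j _ => hwP j) hcard
  obtain ⟨T, hTs, hTc⟩ := Finset.exists_subset_card_eq (Nat.succ_le_of_lt hvk)
  have hTr : T ∈ (Finset.range r).powerset :=
    Finset.mem_powerset.2 (hTs.trans (Finset.filter_subset _ _))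
  obtain ⟨j, hj, -, hjC⟩ := hC T v hTc (iter F x n) (hx n)
  rw [iter_add'] at hjC
  have h5 := hw j
  have h6 : w j = v := (Finset.mem_filter.1 (hTs hj)).2
  rw [h6] at h5
  exact absurd (hjC.trans (hCle T hTr v hv)) (not_le.2 h5)

end Pool.Agent.Helper72.TH

end

section

namespace Pool.Agent.Helper36
end Pool.Agent.Helper36
namespace Pool.Agent.Helper38.TQ
end Pool.Agent.Helper38.TQ

set_option autoImplicit false

namespace Pool.Agent.Helper72.PN

open MvPolynomial Height Height.AdmissibleAbsValues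

open Pool.Agent.Helper36 (step iter)

open Pool.Agent.Helper38.TQ

variable {ν : ℕ}

/-- The orbit over `ℂ` of a multiple of a point over `K`. -/
theorem MainN_orbit {K : Type} [Field K] [Algebra K ℂ] {d : ℕ}
    {F : Fin (ν + 1) → MvPolynomial (Fin (ν + 1)) K}
    (hF : IsEndo d fun i => map (algebraMap K ℂ) (F i)) (x : Fin (ν + 1) → K) (c : ℂ) (n : ℕ) :
    (fun (x : Fin (ν + 1) → ℂ) (i : Fin (ν + 1)) =>
        eval x (map (algebraMap K ℂ) (F i)))^[n] (fun i => c * algebraMap K ℂ (x i)) =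
      c ^ d ^ n • fun i => algebraMap K ℂ (iter F x n i) := by
  have h1 : (fun (x : Fin (ν + 1) → ℂ) (i : Fin (ν + 1)) =>
      eval x (map (algebraMap K ℂ) (F i))) = step fun i => map (algebraMap K ℂ) (F i) := by
    funext x i
    rfl
  rw [h1]
  have h2 : (fun i => c * algebraMap K ℂ (x i)) = c • fun i => algebraMap K ℂ (x i) := rfl
  rw [h2]
  change iter (fun i => map (algebraMap K ℂ) (F i)) (c • fun i => algebraMap K ℂ (x i)) n = _
  rw [iter_smul hF]
  congr 1
  induction n with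
  | zero => rfl
  | succ n ih =>
    rw [Pool.Agent.Helper36.iter_succ, ih]
    funext i
    change eval _ (map (algebraMap K ℂ) (F i)) = algebraMap K ℂ (iter F x (n + 1) i)
    rw [Pool.Agent.Helper36.iter_succ]
    exact (Pool.Agent.Helper38.Sym.map_eval_gen (algebraMap K ℂ) _ _).symm

/-- The return sets of a scaled point. -/
theorem MainN_sets {K : Type} [Field K] [Algebra K ℂ] {d : ℕ}
    {F : Fin (ν + 1) → MvPolynomial (Fin (ν + 1)) K}
    (hF : IsEndo d fun i => map (algebraMap K ℂ) (F i)) (x : Fin (ν + 1) → K) {c : ℂ}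
    (hc : c ≠ 0) (S : Set (MvPolynomial (Fin (ν + 1)) ℂ))
    (hS : ∀ g ∈ S, ∃ e : ℕ, g.IsHomogeneous e) :
    {n : ℕ | ∀ g ∈ S, eval ((fun (x : Fin (ν + 1) → ℂ) (i : Fin (ν + 1)) =>
      eval x (map (algebraMap K ℂ) (F i)))^[n] (fun i => c * algebraMap K ℂ (x i))) g = 0} =
      {n : ℕ | ∀ g ∈ S, eval (fun i => algebraMap K ℂ (iter F x n i)) g = 0} := by
  ext n
  refine forall₂_congr fun g hg => ?_
  obtain ⟨e, he⟩ := hS g hg
  rw [MainN_orbit hF, eval_smul_hom he, mul_eq_zero]
  exact ⟨fun h => h.resolve_left (pow_ne_zero _ (pow_ne_zero _ hc)), Or.inr⟩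

theorem MainN_hom {K : Type} [Field K] [Algebra K ℂ] {d : ℕ}
    {F : Fin (ν + 1) → MvPolynomial (Fin (ν + 1)) K}
    (hF : IsEndo d fun i => map (algebraMap K ℂ) (F i)) (i : Fin (ν + 1)) :
    (F i).IsHomogeneous d :=
  IsHomogeneous.of_map (algebraMap K ℂ).injective (hF.hom i)

theorem MainN_endo {K : Type} [Field K] [Algebra K ℂ] {d : ℕ}
    {F : Fin (ν + 1) → MvPolynomial (Fin (ν + 1)) K}
    (hF : IsEndo d fun i => map (algebraMap K ℂ) (F i)) : IsEndo d F where
  two_le := hF.two_le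
  hom := fun i => MainN_hom hF i
  nz := by
    intro x hx
    have h := hF.nz (fun i => algebraMap K ℂ (x i)) (by
      intro i
      rw [← Pool.Agent.Helper38.Sym.map_eval_gen, hx, map_zero])
    funext i
    exact (map_eq_zero_iff _ (algebraMap K ℂ).injective).1 (congrFun h i)

theorem MainN_ne {K : Type} [Field K] [Algebra K ℂ] {d : ℕ}
    {F : Fin (ν + 1) → MvPolynomial (Fin (ν + 1)) K}
    (hF : IsEndo d fun i => map (algebraMap K ℂ) (F i)) {x : Fin (ν + 1) → K} (hx : x ≠ 0)
    (n : ℕ) : iter F x n ≠ 0 := by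
  induction n with
  | zero => exact hx
  | succ n ih =>
    rw [Pool.Agent.Helper36.iter_succ]
    intro h
    exact ih ((MainN_endo hF).nz _ fun i => congrFun h i)

/-- Preperiodic points. -/
theorem MainN_preper {K : Type} [Field K] [Algebra K ℂ] {d : ℕ}
    {F : Fin (ν + 1) → MvPolynomial (Fin (ν + 1)) K}
    (hF : IsEndo d fun i => map (algebraMap K ℂ) (F i)) (x : Fin (ν + 1) → K) {n m : ℕ}
    (hnm : n < m) (hp : PEq (iter F x n) (iter F x m))
    (S : Set (MvPolynomial (Fin (ν + 1)) ℂ)) (hS : ∀ g ∈ S, ∃ e : ℕ, g.IsHomogeneous e) :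
    ∃ T : Finset (ℕ × ℕ),
      {n : ℕ | ∀ g ∈ S, eval (fun i => algebraMap K ℂ (iter F x n i)) g = 0} =
        {n : ℕ | ∃ q ∈ T, ∃ m : ℕ, n = q.1 * m + q.2} := by
  classical
  have hFe : IsEndo d F := MainN_endo hF
  refine Pool.Agent.Helper30.TK2.exists_progressions (n₁ := n) (M := m - n) (by omega)
    fun s _ => ?_
  simp only [Set.mem_ofPred_eq]
  have hper : ∀ l, PEq (iter F x (n + s)) (iter F x (n + (m - n) * l + s)) := by
    intro l
    induction l with
    | zero => exact PEq.refl _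
    | succ l ih =>
      refine ih.trans ?_
      have h1 : PEq (iter F (iter F x n) ((m - n) * l + s))
          (iter F (iter F x m) ((m - n) * l + s)) := PEq.iter hFe hp _
      rw [← Pool.Agent.Helper36.iter_add, ← Pool.Agent.Helper36.iter_add] at h1
      rw [show n + (m - n) * l + s = (m - n) * l + s + n by ring,
        show n + (m - n) * (l + 1) + s = (m - n) * l + s + m by
          rw [mul_add, mul_one]
          omega]
      exact h1
  have hiff : ∀ l, (∀ g ∈ S, eval (fun i => algebraMap K ℂ (iter F x (n + (m - n) * l + s) i))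
      g = 0) ↔ ∀ g ∈ S, eval (fun i => algebraMap K ℂ (iter F x (n + s) i)) g = 0 := by
    intro l
    refine forall₂_congr fun g hg => ?_
    obtain ⟨e, he⟩ := hS g hg
    obtain ⟨u, hu, h⟩ := hper l
    have h2 : (fun i => algebraMap K ℂ (iter F x (n + (m - n) * l + s) i)) =
        algebraMap K ℂ u • fun i => algebraMap K ℂ (iter F x (n + s) i) := by
      rw [h]
      funext i
      simp
    rw [h2, eval_smul_hom he, mul_eq_zero]
    have hu' : algebraMap K ℂ u ≠ 0 := by rwa [ne_eq, map_eq_zero]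
    exact ⟨fun h => h.resolve_left (pow_ne_zero _ hu'), Or.inr⟩
  by_cases h0 : ∀ g ∈ S, eval (fun i => algebraMap K ℂ (iter F x (n + s) i)) g = 0
  · exact Or.inl fun l => (hiff l).2 h0
  · right
    convert Set.finite_empty
    ext l
    simp only [Set.mem_ofPred_eq, Set.mem_empty_iff_false, iff_false]
    exact fun h => h0 ((hiff l).1 h)

/-- Finite return sets. -/
theorem MainN_finite {R : Set ℕ} (hR : R.Finite) :
    ∃ T : Finset (ℕ × ℕ), R = {n : ℕ | ∃ q ∈ T, ∃ m : ℕ, n = q.1 * m + q.2} := by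
  classical
  refine ⟨hR.toFinset.image fun n => (0, n), ?_⟩
  ext n
  simp only [Set.mem_ofPred_eq, Finset.mem_image, Set.Finite.mem_toFinset]
  constructor
  · intro h
    exact ⟨(0, n), ⟨n, h, rfl⟩, 0, by simp⟩
  · rintro ⟨q, ⟨n', h, rfl⟩, m, rfl⟩
    simpa using h

end Pool.Agent.Helper72.PN

end

section

namespace Pool.Agent.Helper36
end Pool.Agent.Helper36
namespace Pool.Agent.Helper38.TQ
end Pool.Agent.Helper38.TQ
namespace Pool.Agent.Helper29.TG
end Pool.Agent.Helper29.TG
namespace Pool.Agent.Helper72.PN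
end Pool.Agent.Helper72.PN

set_option autoImplicit false

namespace Pool.Agent.Helper72.TH

open MvPolynomial Height Height.AdmissibleAbsValues

open Pool.Agent.Helper36 (step iter)

open Pool.Agent.Helper38.TQ (IsEndo PEq)

open Pool.Agent.Helper29.TG

open Pool.Agent.Helper72.PN (MainN_sets MainN_endo MainN_ne MainN_preper MainN_hom)

variable {ν : ℕ}

theorem eval_step {K : Type} [Field K] (F : Fin (ν + 1) → MvPolynomial (Fin (ν + 1)) K)
    (g : MvPolynomial (Fin (ν + 1)) K) (x : Fin (ν + 1) → K) :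
    eval (step F x) g = eval x (bind₁ F g) := by
  have h1 : step F x = fun i => aeval x (F i) := rfl
  rw [h1]
  have h2 := aeval_bind₁ x F g
  rw [aeval_eq_eval, aeval_eq_eval] at h2
  simpa [aeval_eq_eval] using h2.symm

theorem hom_bind {K : Type} [Field K] {F : Fin (ν + 1) → MvPolynomial (Fin (ν + 1)) K} {d : ℕ}
    (hF : ∀ i, (F i).IsHomogeneous d) {g : MvPolynomial (Fin (ν + 1)) K} {e : ℕ}
    (hg : g.IsHomogeneous e) : (bind₁ F g).IsHomogeneous (d * e) :=
  hg.aeval F hF

theorem sm_bind {K : Type} [Field K] {v : AbsoluteValue K ℝ}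
    {F : Fin (ν + 1) → MvPolynomial (Fin (ν + 1)) K} {d : ℕ} (hG : GoodF v F d)
    (g : MvPolynomial (Fin (ν + 1)) K) (e : ℕ) (x : Fin (ν + 1) → K) :
    Sm v (bind₁ F g) (d * e) x ↔ Sm v g e (step F x) := by
  unfold Sm
  rw [eval_step, hG.F_nm, ← pow_mul]

/-- The image of `R = 0` lies in the first closed set, modulo almost all places. -/
theorem exists_startV {K : Type} [Field K] [AdmissibleAbsValues K] {L : Type} [Field L]
    [IsAlgClosed L] [Algebra K L]
    {F : Fin (ν + 1) → MvPolynomial (Fin (ν + 1)) K} {d : ℕ} (hF : ∀ i, (F i).IsHomogeneous d)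
    {R : MvPolynomial (Fin (ν + 1)) K} {r : ℕ} (hR : R.IsHomogeneous r) {n : ℕ}
    {W : Fin n → MvPolynomial (Fin (ν + 1)) K} {δ : Fin n → ℕ}
    (hW : ∀ j, (W j).IsHomogeneous (δ j)) (T : Finset (Fin n))
    (h : ∀ x : Fin (ν + 1) → L, aeval x R = 0 →
      ∀ j ∈ T, aeval (fun l => aeval x (F l)) (W j) = 0) :
    ∃ B : Set (AbsoluteValue K ℝ), B.Finite ∧ ∀ v ∈ nonarchAbsVal (K := K), v ∉ B →
      GoodF v F d → ∀ x : Fin (ν + 1) → K, x ≠ 0 → Sm v R r x → InZ v W δ T (step F x) := by
  classical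
  have h1 : ∀ j ∈ T, ∃ B : Set (AbsoluteValue K ℝ), B.Finite ∧
      ∀ v ∈ nonarchAbsVal (K := K), v ∉ B → ∀ x : Fin (ν + 1) → K, x ≠ 0 →
        Sm v R r x → Sm v (bind₁ F (W j)) (d * δ j) x := by
    intro j hj
    obtain ⟨B, hB, hB2⟩ := exists_sm (L := L) (ι := Unit) (h := fun _ => R) (δ := fun _ => r)
      (fun _ => hR) (hom_bind hF (hW j)) (fun x hx => by
        rw [aeval_bind₁]
        exact h x (hx ()) j hj)
    exact ⟨B, hB, fun v hv hvB x hx hs => hB2 v hv hvB x hx fun _ => hs⟩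
  choose! B hB hB2 using h1
  refine ⟨⋃ j ∈ T, B j, Set.Finite.biUnion (Finset.finite_toSet _) fun j hj => hB j hj, ?_⟩
  intro v hv hvB hG x hx hs j hj
  have hvj : v ∉ B j := fun h => hvB (Set.mem_biUnion (Finset.mem_coe.2 hj) h)
  exact (sm_bind hG _ _ _).1 (hB2 j hj v hv hvj x hx hs)

/-- At most `k` of the points of an orbit lie on `R = 0`. -/
theorem chain_count {K L : Type} [Field K] [Field L] [Algebra K L]
    {F : Fin (ν + 1) → MvPolynomial (Fin (ν + 1)) K}
    (hnz : ∀ x : Fin (ν + 1) → L, (∀ i, aeval x (F i) = 0) → x = 0)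
    {J R : MvPolynomial (Fin (ν + 1)) K} {n : ℕ} {W : Fin n → MvPolynomial (Fin (ν + 1)) K}
    {δ : Fin n → ℕ} {S : ℕ → Finset (Fin n)} {k : ℕ} (hc : Chain L F (J * R) W δ S k)
    (hs : ∀ x : Fin (ν + 1) → L, aeval x R = 0 →
      ∀ j ∈ S 0, aeval (fun l => aeval x (F l)) (W j) = 0)
    (T : Finset ℕ) (hT : T.card = k + 1) (x : Fin (ν + 1) → L)
    (hx : ∀ j ∈ T, aeval (iter F x j) R = 0) : x = 0 := by
  classical
  by_contra hx0
  have hne : ∀ l, iter F x l ≠ 0 := by
    intro l
    induction l with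
    | zero => exact hx0
    | succ l ih =>
      rw [Pool.Agent.Helper36.iter_succ]
      intro h
      exact ih (hnz _ fun i => congrFun h i)
  have hst : ∀ l, (fun i => aeval (iter F x l) (F i)) = iter F x (l + 1) := by
    intro l
    rw [Pool.Agent.Helper36.iter_succ]
    rfl
  have hfwd : ∀ m < k, ∀ l l', l ≤ l' → (∀ j ∈ S m, aeval (iter F x l) (W j) = 0) →
      ∀ j ∈ S m, aeval (iter F x l') (W j) = 0 := by
    intro m hm l l' hll h
    induction l', hll using Nat.le_induction with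
    | base => exact h
    | succ l' _ ih =>
      rw [← hst]
      exact hc.inv m hm _ ih
  have key : ∀ m ≤ k, ∀ T : Finset ℕ, T.card = m + 1 → (∀ j ∈ T, aeval (iter F x j) R = 0) →
      ∃ j₀ ∈ T, (∀ j ∈ T, j ≤ j₀) ∧ ∀ j ∈ S m, aeval (iter F x (j₀ + 1)) (W j) = 0 := by
    intro m
    induction m with
    | zero =>
      intro _ T hT hR
      obtain ⟨j₀, rfl⟩ := Finset.card_eq_one.1 hT
      refine ⟨j₀, Finset.mem_singleton_self _, fun j hj => (Finset.mem_singleton.1 hj).le, ?_⟩
      rw [← hst]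
      exact hs _ (hR j₀ (Finset.mem_singleton_self _))
    | succ m ih =>
      intro hm T hT hR
      have hTne : T.Nonempty := Finset.card_pos.1 (by omega)
      set j₀ := T.max' hTne with hj₀
      have hj₀T : j₀ ∈ T := T.max'_mem hTne
      obtain ⟨j₁, hj₁, -, h1⟩ := ih (by omega) (T.erase j₀)
        (by rw [Finset.card_erase_of_mem hj₀T]; omega)
        (fun j hj => hR j (Finset.mem_of_mem_erase hj))
      have hlt : j₁ < j₀ := lt_of_le_of_ne (T.le_max' _ (Finset.mem_of_mem_erase hj₁))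
        (Finset.ne_of_mem_erase hj₁)
      refine ⟨j₀, hj₀T, fun j hj => T.le_max' _ hj, ?_⟩
      rw [← hst]
      refine hc.down m (by omega) _ (hfwd m (by omega) _ _ hlt h1) ?_
      rw [map_mul, hR j₀ hj₀T, mul_zero]
  obtain ⟨j₀, -, -, h1⟩ := key k le_rfl T hT hx
  exact hne _ (hc.empty _ h1)

/-- The points of an orbit which is not preperiodic have unbounded heights. -/
theorem tendsto_height {K : Type} [Field K] [NumberField K] [Algebra K ℂ] {d : ℕ}
    {F : Fin (ν + 1) → MvPolynomial (Fin (ν + 1)) K}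
    (hF : IsEndo d fun i => map (algebraMap K ℂ) (F i)) {x : Fin (ν + 1) → K} (hx : x ≠ 0)
    (hpre : ¬ ∃ n m, n < m ∧ PEq (iter F x n) (iter F x m)) :
    Filter.Tendsto (fun n => logHeight (iter F x n)) Filter.atTop Filter.atTop := by
  have hne : ∀ n, iter F x n ≠ 0 := fun n => MainN_ne hF hx n
  have hhom : ∀ i, (F i).IsHomogeneous d := fun i => MainN_hom hF i
  have hnz : ∀ y : Fin (ν + 1) → ℂ, (∀ i, aeval y (F i) = 0) → y = 0 := by
    intro y hy
    refine hF.nz y fun i => ?_
    rw [eval_map]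
    exact hy i
  rcases Pool.Agent.Helper36.growth (L := ℂ) hF.two_le F hhom hnz (fun n => iter F x n) hne
    (fun n => Pool.Agent.Helper36.iter_succ F x n) with ⟨n, m, hnm, hp⟩ | ⟨m₀, hm₀⟩
  · exact absurd ⟨n, m, hnm, hp⟩ hpre
  · have hd : (1 : ℝ) < d := by exact_mod_cast hF.two_le
    refine Filter.tendsto_atTop_mono' _ (f₁ := fun n => (d : ℝ) ^ (n - m₀)) ?_ ?_
    · filter_upwards [Filter.eventually_ge_atTop m₀] with n hn
      exact hm₀ n hn
    · exact (tendsto_pow_atTop_atTop_of_one_lt hd).comp (Filter.tendsto_sub_atTop_nat m₀)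

/-- Points which are not proportional. -/
theorem cr_ne {K : Type} [Field K] [Algebra K ℂ] {d : ℕ}
    {F : Fin (ν + 1) → MvPolynomial (Fin (ν + 1)) K}
    (hF : IsEndo d fun i => map (algebraMap K ℂ) (F i)) {x : Fin (ν + 1) → K} (hx : x ≠ 0)
    (hpre : ¬ ∃ n m, n < m ∧ PEq (iter F x n) (iter F x m)) :
    ∀ n m, n ≠ m → cr (iter F x n) (iter F x m) ≠ 0 := by
  have hne : ∀ n, iter F x n ≠ 0 := fun n => MainN_ne hF hx n
  have hlt : ∀ n m, n < m → cr (iter F x n) (iter F x m) ≠ 0 := by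
    intro n m hnm h0
    apply hpre
    refine ⟨n, m, hnm, ?_⟩
    obtain ⟨i, hi⟩ := Function.ne_iff.1 (hne n)
    have hi : iter F x n i ≠ 0 := hi
    have h1 : ∀ j, iter F x m j = (iter F x m i / iter F x n i) * iter F x n j := by
      intro j
      have h2 := congrFun h0 (i, j)
      simp only [cr, Pi.zero_apply] at h2
      field_simp
      linear_combination h2
    refine ⟨iter F x m i / iter F x n i, ?_, funext h1⟩
    intro h3
    apply hne m
    funext j
    rw [h1, h3, zero_mul]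
    rfl
  intro n m hnm h0
  rcases lt_or_gt_of_ne hnm with h1 | h1
  · exact hlt n m h1 h0
  · refine hlt m n h1 ?_
    funext p
    have h2 := congrFun h0 p
    simp only [cr, Pi.zero_apply] at h2 ⊢
    linear_combination -h2

/-- From the property over the number field to the property of a multiple of the point; the
preperiodic case. -/
theorem dml_of_nonpre {K : Type} [Field K] [NumberField K] [Algebra K ℂ] {d : ℕ}
    {F : Fin (ν + 1) → MvPolynomial (Fin (ν + 1)) K}
    (hF : IsEndo d fun i => map (algebraMap K ℂ) (F i)) {x : Fin (ν + 1) → K}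
    (u : ℂ) (hu : u ≠ 0) {S : Set (MvPolynomial (Fin (ν + 1)) ℂ)}
    (hS : ∀ g ∈ S, ∃ e, g.IsHomogeneous e)
    (h : (¬ ∃ n m, n < m ∧ PEq (iter F x n) (iter F x m)) →
      ¬ {n : ℕ | ∀ g ∈ S, eval (fun i => algebraMap K ℂ (iter F x n i)) g = 0}.Finite →
      Pool.Agent.Helper38.Sym.DMLgen (fun i => map (algebraMap K ℂ) (F i))
        (fun i => algebraMap K ℂ (x i))) :
    ∃ T : Finset (ℕ × ℕ), {n : ℕ | ∀ g ∈ S, eval ((fun (x : Fin (ν + 1) → ℂ) (i : Fin (ν + 1)) =>
        eval x (map (algebraMap K ℂ) (F i)))^[n] (fun i => u * algebraMap K ℂ (x i))) g = 0} =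
      {n : ℕ | ∃ q ∈ T, ∃ m : ℕ, n = q.1 * m + q.2} := by
  rw [MainN_sets hF x hu S hS]
  by_cases hpre : ∃ n m, n < m ∧ PEq (iter F x n) (iter F x m)
  · obtain ⟨n, m, hnm, hp⟩ := hpre
    exact MainN_preper hF x hnm hp S hS
  by_cases hfin : {n : ℕ | ∀ g ∈ S, eval (fun i => algebraMap K ℂ (iter F x n i)) g = 0}.Finite
  · exact Pool.Agent.Helper72.PN.MainN_finite hfin
  obtain ⟨T, hT⟩ := h hpre hfin S hS
  refine ⟨T, ?_⟩
  rw [← hT]
  have h1 := MainN_sets hF x one_ne_zero S hS
  simp only [one_mul] at h1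
  rw [h1]

/-- **Tame invariant hypersurfaces, number fields.** -/
theorem mainA {K : Type} [Field K] [NumberField K] [Algebra K ℂ] {d : ℕ}
    {F : Fin (ν + 1) → MvPolynomial (Fin (ν + 1)) K}
    (hF : IsEndo d fun i => map (algebraMap K ℂ) (F i))
    {R : MvPolynomial (Fin (ν + 1)) K} {r : ℕ} (hr : 1 ≤ r) (hR : R.IsHomogeneous r) {n : ℕ}
    {W : Fin n → MvPolynomial (Fin (ν + 1)) K} {δ : Fin n → ℕ} {S : ℕ → Finset (Fin n)} {k : ℕ}
    (hc : Chain ℂ F (Pool.Agent.Helper30.TKN.jf F * R) W δ S k)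
    (hs : ∀ x : Fin (ν + 1) → ℂ, aeval x R = 0 →
      ∀ j ∈ S 0, aeval (fun l => aeval x (F l)) (W j) = 0)
    {x : Fin (ν + 1) → K} (hx : x ≠ 0)
    (hpre : ¬ ∃ n m, n < m ∧ PEq (iter F x n) (iter F x m)) :
    Pool.Agent.Helper38.Sym.DMLgen (fun i => map (algebraMap K ℂ) (F i))
      (fun i => algebraMap K ℂ (x i)) := by
  have hne : ∀ n, iter F x n ≠ 0 := fun n => MainN_ne hF hx n
  have hhom : ∀ i, (F i).IsHomogeneous d := fun i => MainN_hom hF i
  have hd : 2 ≤ d := hF.two_le
  have hnz : ∀ y : Fin (ν + 1) → ℂ, (∀ i, aeval y (F i) = 0) → y = 0 := by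
    intro y hy
    refine hF.nz y fun i => ?_
    rw [eval_map]
    exact hy i
  have hJ : (Pool.Agent.Helper30.TKN.jf F).IsHomogeneous ((ν + 1) * (d - 1)) := by
    unfold Pool.Agent.Helper30.TKN.jf
    rw [Matrix.det_apply]
    refine IsHomogeneous.sum _ _ _ fun σ _ => ?_
    rw [show (ν + 1) * (d - 1) = ∑ _i : Fin (ν + 1), (d - 1) by simp]
    have h1 : (∏ i : Fin (ν + 1), (Matrix.of fun i j => pderiv j (F i)) (σ i) i).IsHomogeneous
        (∑ _i : Fin (ν + 1), (d - 1)) :=
      IsHomogeneous.prod _ _ _ fun i _ => (hhom (σ i)).pderiv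
    rcases Int.units_eq_one_or (Equiv.Perm.sign σ) with h2 | h2
    · rw [h2, one_smul]
      exact h1
    · rw [h2, Units.neg_smul, one_smul]
      exact h1.neg
  obtain ⟨B₁, hB₁, hgood⟩ := exists_chainV hhom hnz (hJ.mul hR) hc
  obtain ⟨B₂, hB₂, hstart⟩ := exists_startV (L := ℂ) hhom hR hc.hom (S 0) hs
  obtain ⟨B₃, hB₃, hRi⟩ := Pool.Agent.Helper72.PN.exists_bad (L := ℂ) hhom hnz R 0 0
  have hB : (B₁ ∪ B₂ ∪ B₃).Finite := (hB₁.union hB₂).union hB₃
  obtain ⟨m, v, hv, hvB, hsm⟩ := exists_hit (L := ℂ) (by omega) hhom hnz hr hR (k := k)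
    (fun T hT y hy => chain_count hnz hc hs T hT y fun j hj => by
      have h1 := hy j hj
      have h2 : ∀ j, iter (fun i => map (algebraMap K ℂ) (F i)) y j = iter F y j := by
        intro j
        induction j with
        | zero => rfl
        | succ j ih =>
          rw [Pool.Agent.Helper36.iter_succ, Pool.Agent.Helper36.iter_succ, ih]
          funext i
          exact aeval_map_algebraMap ℂ _ _
      rwa [h2] at h1)
    hB (exists_place hB) hne (tendsto_height hF hx hpre)
  rw [Set.mem_union, Set.mem_union, not_or, not_or] at hvB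
  obtain ⟨⟨hv1, hv2⟩, hv3⟩ := hvB
  obtain ⟨hG, hcv⟩ := hgood v hv hv1
  have h0 := hstart v hv hv2 hG _ (hne m) hsm
  rw [← Pool.Agent.Helper36.iter_succ] at h0
  exact dml_of_hit hhom hv hG hR (hRi v hv hv3).g_int hc.hom hcv hne (cr_ne hF hx hpre) h0

end Pool.Agent.Helper72.TH

end
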