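import Pool.Agent.Helper72.TM2.T31
import Pool.Agent.Helper72.TM2.T33

section

namespace Pool.Agent.Helper16
end Pool.Agent.Helper16
namespace Pool.Agent.Helper36
end Pool.Agent.Helper36
namespace Pool.Agent.Helper38.TQ
end Pool.Agent.Helper38.TQ
namespace Pool.Agent.Helper30.TKN
end Pool.Agent.Helper30.TKN
namespace Pool.Agent.Helper30.RED
end Pool.Agent.Helper30.RED
namespace Pool.Agent.Helper30.THC
end Pool.Agent.Helper30.THC
namespace Pool.Agent.Helper72.TH
end Pool.Agent.Helper72.TH

/-!
# Project THD: the class of data and its specialisation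
-/

set_option autoImplicit false

namespace Pool.Agent.Helper30.THD

open MvPolynomial

open Pool.Agent.Helper16 (Place IsFunctionField)

open Pool.Agent.Helper36 (step iter iter_zero iter_succ iter_succ' iter_add iter_map)

open Pool.Agent.Helper38.TQ

open Pool.Agent.Helper30.TKN

open Pool.Agent.Helper30.RED

open Pool.Agent.Helper30.THC

open Pool.Agent.Helper72.TH (Chain)

variable {ν : ℕ}

/-- The point whose coordinates are the coefficients of a linear form. -/
noncomputable def pt {L : Type} [Field L] (q : MvPolynomial (Fin (ν + 1)) L) : Fin (ν + 1) → L :=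
  fun i => q.coeff (Finsupp.single i 1)

/-- The polynomial in three variables whose coefficients are coefficients of linear forms. -/
noncomputable def gg {L : Type} [Field L] {M : ℕ} (u : Fin M → (Fin 3 →₀ ℕ))
    (q : Fin M → MvPolynomial (Fin (ν + 1)) L) : MvPolynomial (Fin 3) L :=
  ∑ j, monomial (u j) ((q j).coeff (Finsupp.single 0 1))

/-- The data: `w (V j)` are the equations of the curve, `w (Λ i)` three linear forms, `w (G j)`
the coefficients of the plane curve, `w P` the point, `w (Z j)` the closed sets of the chain. -/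
structure Cl3 {N r M n : ℕ} (V : Fin r → Fin N) (Λ : Fin 3 → Fin N) (G : Fin M → Fin N)
    (P : Fin N) (Z : Fin n → Fin N) (e : Fin r → ℕ) (u : Fin M → (Fin 3 →₀ ℕ)) (D s t : ℕ)
    (i₀ : Fin (ν + 1)) (δ : Fin n → ℕ) (S : ℕ → Finset (Fin n))
    (f : Fin (ν + 1) → MvPolynomial (Fin (ν + 1)) ℂ)
    (w : Fin N → MvPolynomial (Fin (ν + 1)) ℂ) : Prop where
  homV : ∀ j, (w (V j)).IsHomogeneous (e j)
  homL : ∀ i, (w (Λ i)).IsHomogeneous 1
  noz : ∀ z : Fin (ν + 1) → ℂ, (∀ j, eval z (w (V j)) = 0) → eval z (w (Λ 0)) = 0 →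
    eval z (w (Λ 1)) = 0 → z = 0
  pV : ∀ j, eval (pt (w P)) (w (V j)) = 0
  p1 : pt (w P) i₀ = 1
  rel : ∀ z : Fin (ν + 1) → ℂ, (∀ j, eval z (w (V j)) = 0) →
    eval (fun i => eval z (w (Λ i))) (gg u fun j => w (G j)) = 0
  sep : ∀ z : Fin (ν + 1) → ℂ, (∀ j, eval z (w (V j)) = 0) →
    (∀ i i', eval z (w (Λ i)) * eval (pt (w P)) (w (Λ i')) =
      eval z (w (Λ i')) * eval (pt (w P)) (w (Λ i))) →
    ∀ a b, z a * pt (w P) b = z b * pt (w P) a
  irr : NoFac D (gg u fun j => w (G j))
  chain : Chain ℂ f (jf f) (fun j => w (Z j)) δ S t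
  tame : ∀ j ∈ S 0, eval (iter f (pt (w P)) s) (w (Z j)) = 0

theorem pt_map {K : Type} [Field K] [Algebra K ℂ] (q : MvPolynomial (Fin (ν + 1)) K) :
    pt (map (algebraMap K ℂ) q) = fun i => algebraMap K ℂ (pt q i) := by
  funext i
  exact coeff_map _ _ _

theorem gg_map {K : Type} [Field K] [Algebra K ℂ] {M : ℕ} (u : Fin M → (Fin 3 →₀ ℕ))
    (q : Fin M → MvPolynomial (Fin (ν + 1)) K) :
    (gg u fun j => map (algebraMap K ℂ) (q j)) = map (algebraMap K ℂ) (gg u q) := by
  unfold gg
  rw [map_sum]
  refine Finset.sum_congr rfl fun j _ => ?_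
  rw [coeff_map, map_monomial]

theorem gg_red {k K : Type} [Field k] [Field K] [Algebra k K] {b : Place k K} {M : ℕ}
    (u : Fin M → (Fin 3 →₀ ℕ)) {Q : Fin M → MvPolynomial (Fin (ν + 1)) K}
    {q : Fin M → MvPolynomial (Fin (ν + 1)) k} (h : ∀ j, RedP b (Q j) (q j)) :
    RedP (ν := 2) b (gg u Q) (gg u q) := by
  classical
  unfold gg
  refine RedP.sum _ fun j _ m => ?_
  rw [coeff_monomial, coeff_monomial]
  split_ifs with h0
  · exact h j _
  · rw [map_zero, sub_zero, map_zero]
    exact zero_lt_one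

/-- Values at points over the smaller field. -/
theorem eval_algebraMap {K : Type} [Field K] [Algebra K ℂ] (x : Fin (ν + 1) → K)
    (P : MvPolynomial (Fin (ν + 1)) K) :
    eval (fun i => algebraMap K ℂ (x i)) (map (algebraMap K ℂ) P) = algebraMap K ℂ (eval x P) := by
  rw [eval_map]
  exact (eval₂_comp_left (algebraMap K ℂ) (RingHom.id K) x P).symm.trans (by
    rfl)

/-- Reductions of elements are unique. -/
theorem red_unique {k K : Type} [Field k] [Field K] [Algebra k K] {b : Place k K} {x : K}
    {c c' : k} (h : b.val (x - algebraMap k K c) < 1) (h' : b.val (x - algebraMap k K c') < 1) :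
    c = c' := by
  by_contra hne
  have h1 : b.val (algebraMap k K (c - c')) < 1 := by
    have h2 : algebraMap k K (c - c') =
        (x - algebraMap k K c') - (x - algebraMap k K c) := by
      rw [map_sub]; ring
    rw [h2]
    exact (b.val.map_sub _ _).trans_lt (max_lt h' h)
  rw [b.triv _ (sub_ne_zero.2 hne)] at h1
  exact lt_irrefl _ h1

theorem RedP.sub' {k K : Type} [Field k] [Field K] [Algebra k K] {b : Place k K}
    {P Q : MvPolynomial (Fin (ν + 1)) K} {p q : MvPolynomial (Fin (ν + 1)) k} (hP : RedP b P p)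
    (hQ : RedP b Q q) : RedP b (P - Q) (p - q) := by
  rw [sub_eq_add_neg, sub_eq_add_neg]
  exact hP.add hQ.neg

/-- The composition with three linear forms specialises. -/
theorem gg_aeval_red {k K : Type} [Field k] [Field K] [Algebra k K] {b : Place k K} {M : ℕ}
    (u : Fin M → (Fin 3 →₀ ℕ)) {Q : Fin M → MvPolynomial (Fin (ν + 1)) K}
    {q : Fin M → MvPolynomial (Fin (ν + 1)) k} (h : ∀ j, RedP b (Q j) (q j))
    {Λ : Fin 3 → MvPolynomial (Fin (ν + 1)) K} {l : Fin 3 → MvPolynomial (Fin (ν + 1)) k}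
    (hl : ∀ i, RedP b (Λ i) (l i)) :
    RedP b (MvPolynomial.aeval Λ (gg u Q)) (MvPolynomial.aeval l (gg u q)) := by
  unfold gg
  rw [map_sum, map_sum]
  refine RedP.sum _ fun j _ => ?_
  rw [aeval_monomial, aeval_monomial, Finsupp.prod_fintype _ _ fun i => pow_zero _,
    Finsupp.prod_fintype _ _ fun i => pow_zero _]
  exact (redP_C (h j _)).mul (RedP.prod _ fun i _ => (hl i).pow _)

/-- Iterates specialise. -/
theorem iter_red {k K : Type} [Field k] [Field K] [Algebra k K] {b : Place k K}
    {F : Fin (ν + 1) → MvPolynomial (Fin (ν + 1)) K}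
    {f : Fin (ν + 1) → MvPolynomial (Fin (ν + 1)) k} (hF : ∀ i, RedP b (F i) (f i))
    {x : Fin (ν + 1) → K} {z : Fin (ν + 1) → k}
    (hx : ∀ i, b.val (x i - algebraMap k K (z i)) < 1) (s : ℕ) :
    ∀ i, b.val (iter F x s i - algebraMap k K (iter f z s i)) < 1 := by
  induction s with
  | zero => exact hx
  | succ s ih =>
    intro i
    rw [iter_succ, iter_succ]
    exact (hF i).eval ih

/-- The value at a complex point of a polynomial over a subfield. -/
theorem eval_mapC {K : Type} [Field K] [Algebra K ℂ] (z : Fin (ν + 1) → ℂ)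
    (P : MvPolynomial (Fin (ν + 1)) K) : eval z (map (algebraMap K ℂ) P) = aeval z P :=
  (aeval_eq_eval_map z P).symm

theorem gg_eval {K : Type} [Field K] [Algebra K ℂ] (g : MvPolynomial (Fin 3) K)
    (Λ : Fin 3 → MvPolynomial (Fin (ν + 1)) K) (z : Fin (ν + 1) → ℂ) :
    eval (fun i => eval z (map (algebraMap K ℂ) (Λ i))) (map (algebraMap K ℂ) g) =
      aeval z (aeval Λ g) := by
  rw [comp_aeval_apply, eval_map]
  simp only [eval_mapC]
  rfl

end Pool.Agent.Helper30.THD

end

section

/-!
# Project THD: linear forms and their coefficients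
-/

set_option autoImplicit false

namespace Pool.Agent.Helper30.THD

open MvPolynomial

variable {ν : ℕ}

/-- Linear forms and their coefficients. -/
theorem eval_linear {l : MvPolynomial (Fin (ν + 1)) ℂ} (hl : l.IsHomogeneous 1)
    (z : Fin (ν + 1) → ℂ) : eval z l = ∑ i, pt l i * z i := by
  classical
  have h1 : l = ∑ i, monomial (Finsupp.single i 1) (l.coeff (Finsupp.single i 1)) := by
    ext m
    rw [coeff_sum]
    simp only [coeff_monomial]
    by_cases hm : ∃ i, m = Finsupp.single i 1
    · obtain ⟨i, rfl⟩ := hm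
      rw [Finset.sum_eq_single i]
      · rw [if_pos rfl]
      · intro j _ hj
        rw [if_neg]
        intro h
        exact hj ((Finsupp.single_left_inj one_ne_zero).1 h)
      · intro h
        exact absurd (Finset.mem_univ i) h
    · rw [Finset.sum_eq_zero]
      · by_contra h0
        have h2 := hl h0
        apply hm
        have h3 : Finsupp.degree m = 1 := by
          rw [Finsupp.degree_eq_weight_one]
          exact h2
        have h4 : m ∈ Set.range fun a : Fin (ν + 1) => Finsupp.single a 1 := by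
          rw [Finsupp.range_single_one]
          exact h3
        obtain ⟨i, hi⟩ := h4
        exact ⟨i, hi.symm⟩
      · intro i _
        rw [if_neg]
        rintro rfl
        exact hm ⟨i, rfl⟩
  conv_lhs => rw [h1]
  rw [map_sum]
  refine Finset.sum_congr rfl fun i _ => ?_
  rw [eval_monomial, Finsupp.prod_single_index (by rw [pow_zero]), pow_one]
  rfl

/-- The linear form with given coefficients. -/
noncomputable def lin (c : Fin (ν + 1) → ℂ) : MvPolynomial (Fin (ν + 1)) ℂ := ∑ i, C (c i) * X i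

theorem lin_hom (c : Fin (ν + 1) → ℂ) : (lin c).IsHomogeneous 1 :=
  IsHomogeneous.sum _ _ _ fun i _ => by
    have h := (isHomogeneous_C (Fin (ν + 1)) (c i)).mul (isHomogeneous_X ℂ i)
    rwa [zero_add] at h

theorem eval_lin (c z : Fin (ν + 1) → ℂ) : eval z (lin c) = ∑ i, c i * z i := by
  unfold lin
  rw [map_sum]
  refine Finset.sum_congr rfl fun i _ => ?_
  rw [map_mul, eval_C, eval_X]

theorem coeff_CX (c : ℂ) (i j : Fin (ν + 1)) :
    (C c * X i : MvPolynomial (Fin (ν + 1)) ℂ).coeff (Finsupp.single j 1) =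
      if i = j then c else 0 := by
  classical
  rw [coeff_C_mul, coeff_X]
  by_cases h : i = j
  · rw [h, if_pos rfl, if_pos rfl, mul_one]
  · rw [if_neg h, if_neg, mul_zero]
    intro h1
    exact h ((Finsupp.single_left_inj one_ne_zero).1 h1)

theorem pt_lin (c : Fin (ν + 1) → ℂ) : pt (lin c) = c := by
  classical
  funext j
  unfold pt lin
  rw [coeff_sum]
  simp only [coeff_CX]
  rw [Finset.sum_ite_eq' Finset.univ j fun i => c i]
  exact if_pos (Finset.mem_univ _)

/-- A polynomial in three variables as a value of `gg`. -/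
theorem exists_gg (g : MvPolynomial (Fin 3) ℂ) :
    ∃ (M : ℕ) (u : Fin M → (Fin 3 →₀ ℕ)) (q : Fin M → MvPolynomial (Fin (ν + 1)) ℂ),
      gg u q = g := by
  classical
  refine ⟨g.support.card, fun j => (g.support.equivFin.symm j : Fin 3 →₀ ℕ),
    fun j => C (g.coeff (g.support.equivFin.symm j : Fin 3 →₀ ℕ)) * X 0, ?_⟩
  unfold gg
  simp only [coeff_CX, if_true]
  rw [Fintype.sum_equiv g.support.equivFin.symm _
    (fun m : g.support => monomial (m : Fin 3 →₀ ℕ) (g.coeff m)) (fun j => rfl)]
  rw [Finset.sum_coe_sort g.support fun m => monomial m (g.coeff m)]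
  exact support_sum_monomial_coeff g

end Pool.Agent.Helper30.THD

end
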