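import Pool.Agent.Helper72.TM2.T34

section

namespace Pool.Agent.Helper16
end Pool.Agent.Helper16
namespace Pool.Agent.Helper36
end Pool.Agent.Helper36
namespace Pool.Agent.Helper38.TQ
end Pool.Agent.Helper38.TQ
namespace Pool.Agent.Helper30.TKN
end Pool.Agent.Helper30.TKN
namespace Pool.Agent.Helper30.RED
end Pool.Agent.Helper30.RED
namespace Pool.Agent.Helper30.THC
end Pool.Agent.Helper30.THC
namespace Pool.Agent.Helper72.TH
end Pool.Agent.Helper72.TH

/-!
# Project THD: the class is closed under specialisation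
-/

set_option autoImplicit false

namespace Pool.Agent.Helper30.THD

open MvPolynomial

open Pool.Agent.Helper16 (Place IsFunctionField)

open Pool.Agent.Helper36 (step iter iter_zero iter_succ iter_succ' iter_add iter_map)

open Pool.Agent.Helper38.TQ

open Pool.Agent.Helper30.TKN

open Pool.Agent.Helper30.RED

open Pool.Agent.Helper30.THC

open Pool.Agent.Helper72.TH (Chain)

variable {ν : ℕ}

/-- Iterates over a subfield. -/
theorem iter_algebraMap {K : Type} [Field K] [Algebra K ℂ]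
    (F : Fin (ν + 1) → MvPolynomial (Fin (ν + 1)) K) (x : Fin (ν + 1) → K) (s : ℕ) :
    iter (fun i => map (algebraMap K ℂ) (F i)) (fun i => algebraMap K ℂ (x i)) s =
      fun i => algebraMap K ℂ (iter F x s i) := by
  induction s with
  | zero => rfl
  | succ s ih =>
    rw [iter_succ, iter_succ, ih]
    funext i
    exact eval_algebraMap _ _

/-- The class is closed under specialisation. -/
theorem cl3_spec {d N r M n : ℕ} {V : Fin r → Fin N} {Λ : Fin 3 → Fin N} {G : Fin M → Fin N}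
    {P : Fin N} {Z : Fin n → Fin N} {e : Fin r → ℕ} {u : Fin M → (Fin 3 →₀ ℕ)} {D s t : ℕ}
    {i₀ : Fin (ν + 1)} {δ : Fin n → ℕ} {S : ℕ → Finset (Fin n)}
    {k : Type} [Field k] [IsAlgClosed k] [Algebra k ℂ] (K : IntermediateField k ℂ)
    (hK : IsFunctionField k K) {F : Fin (ν + 1) → MvPolynomial (Fin (ν + 1)) K}
    {W : Fin N → MvPolynomial (Fin (ν + 1)) K}
    (hC : Cl3 V Λ G P Z e u D s t i₀ δ S (fun i => map (algebraMap K ℂ) (F i))
      (fun j => map (algebraMap K ℂ) (W j))) :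
    ∃ A : Set (Place k K), A.Finite ∧ ∀ b ∉ A,
      ∀ (f : Fin (ν + 1) → MvPolynomial (Fin (ν + 1)) k)
        (w : Fin N → MvPolynomial (Fin (ν + 1)) k), GoodRed d b F f →
        (∀ j, RedP b (W j) (w j)) →
        Cl3 V Λ G P Z e u D s t i₀ δ S (fun i => map (algebraMap k ℂ) (f i))
          (fun j => map (algebraMap k ℂ) (w j)) := by
  classical
  -- the conditions over `K`
  have hnoz : ∀ z : Fin (ν + 1) → ℂ, (∀ j, aeval z (W (V j)) = 0) → aeval z (W (Λ 0)) = 0 →
      aeval z (W (Λ 1)) = 0 → z = 0 := by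
    intro z hz h0 h1
    refine hC.noz z (fun j => ?_) ?_ ?_
    · rw [eval_mapC]; exact hz j
    · rw [eval_mapC]; exact h0
    · rw [eval_mapC]; exact h1
  have hpt : pt (map (algebraMap K ℂ) (W P)) = fun i => algebraMap K ℂ (pt (W P) i) := pt_map _
  have hpV : ∀ j, eval (pt (W P)) (W (V j)) = 0 := by
    intro j
    have h1 := hC.pV j
    rw [hpt, eval_algebraMap, map_eq_zero] at h1
    exact h1
  have hp1 : pt (W P) i₀ = 1 := by
    have h1 := hC.p1
    rw [hpt] at h1
    exact (algebraMap K ℂ).injective (by rw [map_one]; exact h1)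
  have hrel : ∀ z : Fin (ν + 1) → ℂ, (∀ j, aeval z (W (V j)) = 0) →
      aeval z (aeval (fun i => W (Λ i)) (gg u fun j => W (G j))) = 0 := by
    intro z hz
    have h1 := hC.rel z (fun j => by rw [eval_mapC]; exact hz j)
    rw [gg_map, gg_eval] at h1
    exact h1
  have hsep : ∀ z : Fin (ν + 1) → ℂ, (∀ j, aeval z (W (V j)) = 0) →
      (∀ i i', aeval z (W (Λ i) * C (eval (pt (W P)) (W (Λ i'))) -
        W (Λ i') * C (eval (pt (W P)) (W (Λ i)))) = 0) →
      ∀ a b, aeval z (X a * C (pt (W P) b) - X b * C (pt (W P) a)) = 0 := by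
    intro z hz h a b
    have h1 := hC.sep z (fun j => by rw [eval_mapC]; exact hz j) (fun i i' => by
      have h2 := h i i'
      rw [map_sub, map_mul, map_mul, aeval_C, aeval_C, sub_eq_zero] at h2
      rw [hpt, eval_algebraMap, eval_algebraMap, eval_mapC, eval_mapC]
      exact h2) a b
    rw [hpt] at h1
    rw [map_sub, map_mul, map_mul, aeval_C, aeval_C, aeval_X, aeval_X, sub_eq_zero]
    exact h1
  have hirr : NoFac D (map (algebraMap K ℂ) (gg u fun j => W (G j))) := by
    rw [← gg_map]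
    exact hC.irr
  have hchain : Chain ℂ F (jf F) (fun j => W (Z j)) δ S t := by
    refine chain_map.1 ?_
    rw [← map_jf']
    exact hC.chain
  have htame : ∀ j ∈ S 0, eval (iter F (pt (W P)) s) (W (Z j)) = 0 := by
    intro j hj
    have h1 := hC.tame j hj
    have h2 : iter (fun i => map (algebraMap K ℂ) (F i)) (pt (map (algebraMap K ℂ) (W P))) s =
        fun i => algebraMap K ℂ (iter F (pt (W P)) s i) := by
      rw [hpt]
      exact iter_algebraMap F _ s
    rw [h2, eval_algebraMap, map_eq_zero] at h1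
    exact h1
  -- the finite sets of places
  obtain ⟨A₁, hA₁, h₁⟩ := all_places (k := k) (K := K) (ι := Fin (ν + 1))
    (P := fun i b => ∀ (h : Fin r ⊕ Fin 2 → MvPolynomial (Fin (ν + 1)) k)
      (γ : MvPolynomial (Fin (ν + 1)) k),
      (∀ j : Fin r ⊕ Fin 2, RedP b (Sum.elim (fun j => W (V j)) (fun c => W (Λ c.castSucc)) j)
        (h j)) → RedP b (X i) γ →
      ∀ z : Fin (ν + 1) → ℂ, (∀ j, aeval z (h j) = 0) → aeval z γ = 0) (by
    intro i
    obtain ⟨A, hA, h⟩ := incl_spec hK (κ := Fin r ⊕ Fin 2)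
      (Sum.elim (fun j => W (V j)) (fun c => W (Λ c.castSucc))) (X i) (fun z hz => by
        rw [hnoz z (fun j => hz (Sum.inl j)) (hz (Sum.inr 0)) (hz (Sum.inr 1)), aeval_X,
          Pi.zero_apply])
    exact ⟨A, hA, h⟩)
  obtain ⟨A₂, hA₂, h₂⟩ := incl_spec hK (κ := Fin r) (fun j => W (V j))
    (aeval (fun i => W (Λ i)) (gg u fun j => W (G j))) hrel
  obtain ⟨A₃, hA₃, h₃⟩ := all_places (k := k) (K := K) (ι := Fin (ν + 1) × Fin (ν + 1))
    (P := fun c b => ∀ (h : Fin r ⊕ (Fin 3 × Fin 3) → MvPolynomial (Fin (ν + 1)) k)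
      (γ : MvPolynomial (Fin (ν + 1)) k),
      (∀ j : Fin r ⊕ (Fin 3 × Fin 3), RedP b (Sum.elim (fun j => W (V j))
        (fun q => W (Λ q.1) * C (eval (pt (W P)) (W (Λ q.2))) -
          W (Λ q.2) * C (eval (pt (W P)) (W (Λ q.1)))) j) (h j)) →
      RedP b (X c.1 * C (pt (W P) c.2) - X c.2 * C (pt (W P) c.1)) γ →
      ∀ z : Fin (ν + 1) → ℂ, (∀ j, aeval z (h j) = 0) → aeval z γ = 0) (by
    intro c
    obtain ⟨A, hA, h⟩ := incl_spec hK (κ := Fin r ⊕ (Fin 3 × Fin 3)) (Sum.elim (fun j => W (V j))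
        (fun q => W (Λ q.1) * C (eval (pt (W P)) (W (Λ q.2))) -
          W (Λ q.2) * C (eval (pt (W P)) (W (Λ q.1)))))
      (X c.1 * C (pt (W P) c.2) - X c.2 * C (pt (W P) c.1)) (fun z hz =>
        hsep z (fun j => hz (Sum.inl j)) (fun i i' => hz (Sum.inr (i, i'))) c.1 c.2)
    exact ⟨A, hA, h⟩)
  obtain ⟨A₄, hA₄, h₄⟩ := nofac_spec hK hirr
  obtain ⟨A₅, hA₅, h₅⟩ := chain_spec hK hchain
  refine ⟨A₁ ∪ (A₂ ∪ (A₃ ∪ (A₄ ∪ A₅))), hA₁.union (hA₂.union (hA₃.union (hA₄.union hA₅))),
    fun b hb f w hf hw => ?_⟩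
  simp only [Set.mem_union, not_or] at hb
  obtain ⟨hb1, hb2, hb3, hb4, hb5⟩ := hb
  have hptr : ∀ i, b.val (pt (W P) i - algebraMap k K (pt (w P) i)) < 1 := fun i => hw P _
  have hptk : pt (map (algebraMap k ℂ) (w P)) = fun i => algebraMap k ℂ (pt (w P) i) := pt_map _
  have h0k : ∀ (Q : MvPolynomial (Fin (ν + 1)) K) (q : MvPolynomial (Fin (ν + 1)) k)
      (x : Fin (ν + 1) → K) (z : Fin (ν + 1) → k), RedP b Q q →
      (∀ i, b.val (x i - algebraMap k K (z i)) < 1) → eval x Q = 0 → eval z q = 0 := by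
    intro Q q x z hQ hx h0
    have h1 := hQ.eval hx
    rw [h0] at h1
    refine (red_unique h1 ?_).trans rfl
    rw [map_zero, sub_zero, map_zero]
    exact zero_lt_one
  refine ⟨fun j => (redP_hom (hw _) (hom_of_map (algebraMap K ℂ) (hC.homV j))).map _,
    fun i => (redP_hom (hw _) (hom_of_map (algebraMap K ℂ) (hC.homL i))).map _, ?_, ?_, ?_, ?_,
    ?_, ?_, ?_, ?_⟩
  · intro z hz h0 h1
    funext i
    have h2 := h₁ b hb1 i (Sum.elim (fun j => w (V j)) (fun c => w (Λ c.castSucc))) (X i) (by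
      rintro (j | c)
      · exact hw _
      · exact hw _) (redP_C_X b i) z (by
      rintro (j | c)
      · show aeval z (w (V j)) = 0
        rw [← eval_mapC]
        exact hz j
      · show aeval z (w (Λ c.castSucc)) = 0
        rw [← eval_mapC]
        fin_cases c
        · exact h0
        · exact h1)
    rw [aeval_X] at h2
    exact h2
  · intro j
    rw [hptk, eval_algebraMap, map_eq_zero]
    exact h0k _ _ _ _ (hw _) hptr (hpV j)
  · rw [hptk]
    have h1 := hptr i₀
    rw [hp1] at h1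
    have h2 : pt (w P) i₀ = 1 := red_unique h1 (by
      rw [map_one, sub_self, map_zero]
      exact zero_lt_one)
    show algebraMap k ℂ (pt (w P) i₀) = 1
    rw [h2, map_one]
  · intro z hz
    rw [gg_map, gg_eval]
    refine h₂ b hb2 (fun j => w (V j)) _ (fun j => hw _)
      (gg_aeval_red u (fun j => hw _) fun i => hw _) z fun j => ?_
    rw [← eval_mapC]
    exact hz j
  · intro z hz hzz a c
    have h2 := h₃ b hb3 (a, c) (Sum.elim (fun j => w (V j))
        (fun q => w (Λ q.1) * C (eval (pt (w P)) (w (Λ q.2))) -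
          w (Λ q.2) * C (eval (pt (w P)) (w (Λ q.1)))))
      (X a * C (pt (w P) c) - X c * C (pt (w P) a)) (by
      rintro (j | q)
      · exact hw _
      · exact RedP.sub' ((hw _).mul (redP_C ((hw _).eval hptr)))
          ((hw _).mul (redP_C ((hw _).eval hptr)))) (by
      exact RedP.sub' ((redP_C_X b a).mul (redP_C (hptr c))) ((redP_C_X b c).mul (redP_C (hptr a))))
      z (by
      rintro (j | q)
      · show aeval z (w (V j)) = 0
        rw [← eval_mapC]
        exact hz j
      · show aeval z (w (Λ q.1) * C (eval (pt (w P)) (w (Λ q.2))) -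
          w (Λ q.2) * C (eval (pt (w P)) (w (Λ q.1)))) = 0
        have h3 := hzz q.1 q.2
        rw [hptk, eval_algebraMap, eval_algebraMap, eval_mapC, eval_mapC] at h3
        rw [map_sub, map_mul, map_mul, aeval_C, aeval_C, sub_eq_zero]
        exact h3)
    rw [hptk]
    rw [map_sub, map_mul, map_mul, aeval_C, aeval_C, aeval_X, aeval_X, sub_eq_zero] at h2
    exact h2
  · rw [gg_map]
    exact h₄ b hb4 _ (gg_red u fun j => hw _)
  · have h6 := h₅ b hb5 f (jf f) (fun j => w (Z j)) hf.red (redP_jf hf.red) fun j => hw _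
    have h7 := chain_map.2 h6
    rw [← map_jf'] at h7
    exact h7
  · intro j hj
    rw [hptk, iter_algebraMap, eval_algebraMap, map_eq_zero]
    exact h0k _ _ _ _ (hw _) (iter_red hf.red hptr s) (htame j hj)

end Pool.Agent.Helper30.THD

end
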