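import Pool.Agent.Helper72.TM2.T08
import Pool.Agent.Helper72.TM2.T05
import Pool.Agent.Helper72.TM2.T07

section

namespace Pool.Agent.Helper16
end Pool.Agent.Helper16
namespace Pool.Agent.Helper38.TQ
end Pool.Agent.Helper38.TQ
namespace Pool.Agent.Helper30.TKN
end Pool.Agent.Helper30.TKN

/-!
# Project ZB (Zhang-Bezout for curves over a function field): definitions
-/

set_option autoImplicit false

namespace Pool.Agent.Helper30.ZB

open MvPolynomial

open Pool.Agent.Helper16 (Place IsFunctionField)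

open Pool.Agent.Helper38.TQ

open Pool.Agent.Helper30.TKN

variable {ν : ℕ} {k K : Type} [Field k] [Field K] [Algebra k K]

/-- The ideal is homogeneous. -/
def Hom (I : Ideal (MvPolynomial (Fin (ν + 1)) K)) : Prop :=
  ∀ p ∈ I, ∀ n, homogeneousComponent n p ∈ I

/-- The classes of the forms of degree `m` modulo the ideal `I`. -/
noncomputable def W (I : Ideal (MvPolynomial (Fin (ν + 1)) K)) (m : ℕ) :
    Submodule K (MvPolynomial (Fin (ν + 1)) K ⧸ I) :=
  (homogeneousSubmodule (Fin (ν + 1)) K m).map (Ideal.Quotient.mkₐ K I).toLinearMap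

/-- The dimension of the space of the forms of degree `m` modulo `I`. -/
noncomputable def R (I : Ideal (MvPolynomial (Fin (ν + 1)) K)) (m : ℕ) : ℕ :=
  Module.finrank K (W I m)

/-- The linear form over `K` with constant coefficients `c`. -/
noncomputable def lf (K : Type) [Field K] [Algebra k K] (c : Fin (ν + 1) → k) :
    MvPolynomial (Fin (ν + 1)) K :=
  ∑ i, C (algebraMap k K (c i)) * X i

/-- A point of projective space with coordinates in a finite extension of `K`. -/
structure FPt (ν : ℕ) (k K : Type) [Field k] [Field K] [Algebra k K] where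
  /-- the field -/
  L : Type
  [fld : Field L]
  [algk : Algebra k L]
  [alg : Algebra K L]
  [tow : IsScalarTower k K L]
  [fin : FiniteDimensional K L]
  /-- the coordinates -/
  y : Fin (ν + 1) → L
  ne : y ≠ 0

attribute [instance] FPt.fld FPt.algk FPt.alg FPt.tow FPt.fin

/-- The affine ring of the chart `l = 1` of the zero set of `I`, `l` the linear form with constant
coefficients `c`. -/
abbrev Qo (I : Ideal (MvPolynomial (Fin (ν + 1)) K)) (c : Fin (ν + 1) → k) : Type :=
  MvPolynomial (Fin (ν + 1)) K ⧸ (I ⊔ Ideal.span {lf K c - 1})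

/-- The class of a polynomial in the affine ring. -/
noncomputable abbrev cls (I : Ideal (MvPolynomial (Fin (ν + 1)) K)) (c : Fin (ν + 1) → k)
    (p : MvPolynomial (Fin (ν + 1)) K) : Qo I c :=
  Ideal.Quotient.mk _ p

/-- The linear form `l` with constant coefficients `c` has no zero on the zero set of `I`: all
forms of large degree are in `I + (l)`. -/
def Misses (I : Ideal (MvPolynomial (Fin (ν + 1)) K)) (c : Fin (ν + 1) → k) (m₁ : ℕ) : Prop :=
  ∀ m, m₁ ≤ m → ∀ p : MvPolynomial (Fin (ν + 1)) K, p.IsHomogeneous m →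
    p ∈ I ⊔ Ideal.span {lf K c}

/-- The forms of degree `m₂ + n e` used in the determinants. -/
noncomputable def fam {q s : ℕ} (h : MvPolynomial (Fin (ν + 1)) K) (e : ℕ)
    (qa : Fin q → MvPolynomial (Fin (ν + 1)) K) (pc : Fin s → MvPolynomial (Fin (ν + 1)) K)
    (n : ℕ) (c : Fin (ν + 1) → k) :
    (Fin (n + 1) × Fin q) ⊕ Fin s → MvPolynomial (Fin (ν + 1)) K
  | Sum.inl (j, a) => h ^ (j : ℕ) * lf K c ^ ((n - j) * e) * qa a
  | Sum.inr i => h ^ (n + 1) * pc i

/-- The data for the determinants: `J` a homogeneous prime ideal, `h` a form of degree `e` outside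
`J`, `l = lf K c` a linear form without zero on `J = h = 0`, `qa` forms of degree `m₂` which form a
basis of the affine ring, `pc` forms of degree `m₂ - e` which form a basis modulo `J`. -/
structure Data (J : Ideal (MvPolynomial (Fin (ν + 1)) K)) (h : MvPolynomial (Fin (ν + 1)) K)
    (e : ℕ) (c : Fin (ν + 1) → k) (m₂ q s : ℕ) (qa : Fin q → MvPolynomial (Fin (ν + 1)) K)
    (pc : Fin s → MvPolynomial (Fin (ν + 1)) K) : Prop where
  prime : J.IsPrime
  hom : Hom J
  h_hom : h.IsHomogeneous e
  e_pos : 0 < e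
  e_le : e ≤ m₂
  h_not : h ∉ J
  misses : Misses (J ⊔ Ideal.span {h}) c m₂
  qa_hom : ∀ a, (qa a).IsHomogeneous m₂
  qa_span : ⊤ ≤ Submodule.span K (Set.range fun a => cls (J ⊔ Ideal.span {h}) c (qa a))
  qa_ind : LinearIndependent K fun a => cls (J ⊔ Ideal.span {h}) c (qa a)
  qa_gen : ∀ m, m₂ ≤ m → ∀ p : MvPolynomial (Fin (ν + 1)) K, p.IsHomogeneous m →
    cls (J ⊔ Ideal.span {h}) c p = 0 → p ∈ J ⊔ Ideal.span {h}
  pc_hom : ∀ i, (pc i).IsHomogeneous (m₂ - e)
  pc_span : ∀ p : MvPolynomial (Fin (ν + 1)) K, p.IsHomogeneous (m₂ - e) →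
    ∃ a : Fin s → K, p - ∑ i, C (a i) * pc i ∈ J
  pc_ind : ∀ a : Fin s → K, ∑ i, C (a i) * pc i ∈ J → a = 0

end Pool.Agent.Helper30.ZB

end

section

/-!
# Dimensions of the spaces of forms modulo an ideal
-/

set_option autoImplicit false

namespace Pool.Agent.Helper30.ZB

open MvPolynomial

variable {ν : ℕ} {k K : Type} [Field k] [Field K] [Algebra k K]

theorem Dim_finite (I : Ideal (MvPolynomial (Fin (ν + 1)) K)) (m : ℕ) :
    FiniteDimensional K (W I m) :=
  Module.Finite.iff_fg.2 ((homogeneousSubmodule_fg (Fin (ν + 1)) K m).map _)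

theorem Dim_comp_mul {h : MvPolynomial (Fin (ν + 1)) K} {e : ℕ} (hh : h.IsHomogeneous e)
    (q : MvPolynomial (Fin (ν + 1)) K) (m : ℕ) :
    homogeneousComponent (m + e) (h * q) = h * homogeneousComponent m q := by
  conv_lhs => rw [← sum_homogeneousComponent q, Finset.mul_sum, map_sum]
  have h1 : ∀ i, homogeneousComponent (m + e) (h * homogeneousComponent i q) =
      if i = m then h * homogeneousComponent i q else 0 := by
    intro i
    have h2 : (h * homogeneousComponent i q) ∈
        homogeneousSubmodule (Fin (ν + 1)) K (e + i) :=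
      hh.mul (homogeneousComponent_isHomogeneous i q)
    rw [homogeneousComponent_of_mem h2]
    by_cases him : i = m
    · subst him
      rw [if_pos (Nat.add_comm _ _), if_pos rfl]
    · rw [if_neg (by omega), if_neg him]
  rw [Finset.sum_congr rfl fun i _ => h1 i, Finset.sum_ite_eq' (Finset.range (q.totalDegree + 1)) m]
  split_ifs with hm
  · rfl
  · rw [homogeneousComponent_eq_zero, mul_zero]
    simpa using hm

theorem Dim_comp_mul_lt {h : MvPolynomial (Fin (ν + 1)) K} {e : ℕ} (hh : h.IsHomogeneous e)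
    (q : MvPolynomial (Fin (ν + 1)) K) {n : ℕ} (hn : n < e) :
    homogeneousComponent n (h * q) = 0 := by
  conv_lhs => rw [← sum_homogeneousComponent q, Finset.mul_sum, map_sum]
  refine Finset.sum_eq_zero fun i _ => ?_
  have h2 : (h * homogeneousComponent i q) ∈
      homogeneousSubmodule (Fin (ν + 1)) K (e + i) :=
    hh.mul (homogeneousComponent_isHomogeneous i q)
  rw [homogeneousComponent_of_mem h2, if_neg (by omega)]

theorem Dim_hom_sup {J : Ideal (MvPolynomial (Fin (ν + 1)) K)} (hJ : Hom J)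
    {h : MvPolynomial (Fin (ν + 1)) K} {e : ℕ} (hh : h.IsHomogeneous e) :
    Hom (J ⊔ Ideal.span {h}) := by
  intro p hp n
  obtain ⟨j, hj, x, hx, rfl⟩ := Submodule.mem_sup.1 hp
  obtain ⟨q, rfl⟩ := Ideal.mem_span_singleton'.1 hx
  rw [map_add, mul_comm q h]
  refine Ideal.add_mem _ (Ideal.mem_sup_left (hJ j hj n)) (Ideal.mem_sup_right ?_)
  rcases lt_or_ge n e with hn | hn
  · rw [Dim_comp_mul_lt hh q hn]
    exact Ideal.zero_mem _
  · obtain ⟨m, rfl⟩ := Nat.exists_eq_add_of_le' hn
    rw [Dim_comp_mul hh q m]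
    exact Ideal.mul_mem_right _ _ (Ideal.mem_span_singleton_self h)

theorem Dim_mem {I : Ideal (MvPolynomial (Fin (ν + 1)) K)} {m : ℕ}
    {x : MvPolynomial (Fin (ν + 1)) K ⧸ I} :
    x ∈ W I m ↔ ∃ p : MvPolynomial (Fin (ν + 1)) K, p.IsHomogeneous m ∧
      Ideal.Quotient.mk I p = x :=
  Iff.rfl

/-- `0 → B_m → B_(m+e) → Q_(m+e) → 0`, the first map is the multiplication by `h`. -/
theorem Dim_add {J : Ideal (MvPolynomial (Fin (ν + 1)) K)} (hp : J.IsPrime) (hJ : Hom J)
    {h : MvPolynomial (Fin (ν + 1)) K} {e : ℕ} (hh : h.IsHomogeneous e) (hhJ : h ∉ J) (m : ℕ) :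
    R J (m + e) = R J m + R (J ⊔ Ideal.span {h}) (m + e) := by
  have hfin := Dim_finite J (m + e)
  have hfin0 := Dim_finite J m
  set V := W J (m + e) with hV
  let π : (MvPolynomial (Fin (ν + 1)) K ⧸ J) →ₐ[K]
      (MvPolynomial (Fin (ν + 1)) K ⧸ (J ⊔ Ideal.span {h})) :=
    Ideal.Quotient.factorₐ K le_sup_left
  have hπ : ∀ p : MvPolynomial (Fin (ν + 1)) K, π (Ideal.Quotient.mk J p) =
      Ideal.Quotient.mk (J ⊔ Ideal.span {h}) p := fun p => rfl
  have hrange : LinearMap.range (π.toLinearMap.domRestrict V) =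
      W (J ⊔ Ideal.span {h}) (m + e) := by
    ext x
    rw [LinearMap.mem_range]
    constructor
    · rintro ⟨⟨y, hy⟩, rfl⟩
      obtain ⟨p, hp1, rfl⟩ := Dim_mem.1 hy
      exact Dim_mem.2 ⟨p, hp1, rfl⟩
    · intro hx
      obtain ⟨p, hp1, rfl⟩ := Dim_mem.1 hx
      exact ⟨⟨Ideal.Quotient.mk J p, Dim_mem.2 ⟨p, hp1, rfl⟩⟩, rfl⟩
  have hmul : ∀ x ∈ W J m, Ideal.Quotient.mk J h * x ∈ V := by
    intro x hx
    obtain ⟨p, hp1, rfl⟩ := Dim_mem.1 hx
    have h0 := hh.mul hp1
    rw [Nat.add_comm e m] at h0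
    exact Dim_mem.2 ⟨h * p, h0, map_mul _ _ _⟩
  let g : W J m →ₗ[K] V :=
    (LinearMap.mulLeft K (Ideal.Quotient.mk J h)).restrict hmul
  have hginj : Function.Injective g := by
    intro x y hxy
    have h1 : Ideal.Quotient.mk J h * (x : MvPolynomial (Fin (ν + 1)) K ⧸ J) =
        Ideal.Quotient.mk J h * (y : MvPolynomial (Fin (ν + 1)) K ⧸ J) := congrArg Subtype.val hxy
    have : IsDomain (MvPolynomial (Fin (ν + 1)) K ⧸ J) := Ideal.Quotient.isDomain J
    have h2 : Ideal.Quotient.mk J h ≠ 0 := fun h0 => hhJ (Ideal.Quotient.eq_zero_iff_mem.1 h0)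
    exact Subtype.ext (mul_left_cancel₀ h2 h1)
  have hker : LinearMap.ker (π.toLinearMap.domRestrict V) = LinearMap.range g := by
    ext x
    rw [LinearMap.mem_ker, LinearMap.mem_range]
    constructor
    · intro hx
      obtain ⟨y, hy⟩ := x
      obtain ⟨p, hp1, rfl⟩ := Dim_mem.1 hy
      have h3 : p ∈ J ⊔ Ideal.span {h} := by
        rw [← Ideal.Quotient.eq_zero_iff_mem]
        exact hx
      obtain ⟨j, hj, z, hz, hjz⟩ := Submodule.mem_sup.1 h3
      obtain ⟨q, rfl⟩ := Ideal.mem_span_singleton'.1 hz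
      have h4 : homogeneousComponent (m + e) p = p := by
        rw [homogeneousComponent_of_mem (show p ∈ homogeneousSubmodule _ _ (m + e) from hp1),
          if_pos rfl]
      have h5 : p = homogeneousComponent (m + e) j + h * homogeneousComponent m q := by
        rw [← Dim_comp_mul hh q m, ← map_add, mul_comm h q, hjz, h4]
      refine ⟨⟨Ideal.Quotient.mk J (homogeneousComponent m q),
        Dim_mem.2 ⟨_, homogeneousComponent_isHomogeneous m q, rfl⟩⟩, Subtype.ext ?_⟩
      show Ideal.Quotient.mk J h * Ideal.Quotient.mk J (homogeneousComponent m q) =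
        Ideal.Quotient.mk J p
      rw [h5, map_add, map_mul, Ideal.Quotient.eq_zero_iff_mem.2 (hJ j hj (m + e)), zero_add]
    · rintro ⟨⟨y, hy⟩, rfl⟩
      obtain ⟨p, hp1, rfl⟩ := Dim_mem.1 hy
      show Ideal.Quotient.mk (J ⊔ Ideal.span {h}) (h * p) = 0
      rw [Ideal.Quotient.eq_zero_iff_mem]
      exact Ideal.mem_sup_right (Ideal.mul_mem_right _ _ (Ideal.mem_span_singleton_self h))
  have h6 := LinearMap.finrank_range_add_finrank_ker (π.toLinearMap.domRestrict V)
  rw [hrange, hker, LinearMap.finrank_range_of_inj hginj] at h6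
  unfold R
  rw [← hV, ← h6, Nat.add_comm]

/-- Forms of degree `m` whose classes are a basis. -/
theorem Dim_exists_basis (I : Ideal (MvPolynomial (Fin (ν + 1)) K)) (m : ℕ) :
    ∃ p : Fin (R I m) → MvPolynomial (Fin (ν + 1)) K, (∀ i, (p i).IsHomogeneous m) ∧
      (∀ g : MvPolynomial (Fin (ν + 1)) K, g.IsHomogeneous m →
        ∃ a : Fin (R I m) → K, g - ∑ i, C (a i) * p i ∈ I) ∧
      ∀ a : Fin (R I m) → K, ∑ i, C (a i) * p i ∈ I → a = 0 := by
  have hfin := Dim_finite I m
  let b : Module.Basis (Fin (R I m)) K (W I m) := Module.finBasis K (W I m)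
  choose p hp1 hp2 using fun i : Fin (R I m) => Dim_mem.1 (b i).2
  have hmk : ∀ a : Fin (R I m) → K, Ideal.Quotient.mk I (∑ i, C (a i) * p i) =
      ((∑ i, a i • b i : W I m) : MvPolynomial (Fin (ν + 1)) K ⧸ I) := by
    intro a
    rw [map_sum, AddSubmonoidClass.coe_finsetSum]
    refine Finset.sum_congr rfl fun i _ => ?_
    rw [map_mul, hp2 i, Submodule.coe_smul]
    exact (Algebra.smul_def (a i) ((b i : W I m) : MvPolynomial (Fin (ν + 1)) K ⧸ I)).symm
  refine ⟨p, hp1, fun g hg => ?_, fun a ha => ?_⟩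
  · let x : W I m := ⟨Ideal.Quotient.mk I g, Dim_mem.2 ⟨g, hg, rfl⟩⟩
    refine ⟨fun i => b.repr x i, ?_⟩
    rw [← Ideal.Quotient.eq_zero_iff_mem, map_sub, hmk, b.sum_repr x, sub_self]
  · rw [← Ideal.Quotient.eq_zero_iff_mem, hmk] at ha
    have h1 : (∑ i, a i • b i : W I m) = 0 := Subtype.ext ha
    have h2 := Fintype.linearIndependent_iff.1 b.linearIndependent a h1
    funext i
    exact h2 i

end Pool.Agent.Helper30.ZB

end

section

/-!
# The affine ring of a finite scheme
-/

set_option autoImplicit false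

namespace Pool.Agent.Helper30.ZB

open MvPolynomial

variable {ν : ℕ} {k K : Type} [Field k] [Field K] [Algebra k K]

theorem Quot_lf_hom (c : Fin (ν + 1) → k) : (lf K c).IsHomogeneous 1 := by
  unfold lf
  refine IsHomogeneous.sum _ _ _ fun i _ => ?_
  have h1 := (isHomogeneous_C (Fin (ν + 1)) (algebraMap k K (c i))).mul (isHomogeneous_X K i)
  rwa [zero_add] at h1

/-- Division by `l` modulo `I`. -/
theorem Quot_div {I : Ideal (MvPolynomial (Fin (ν + 1)) K)} (hI : Hom I)
    {c : Fin (ν + 1) → k} {m₁ : ℕ} (hm : Misses I c m₁) {m : ℕ} (hm₁ : m₁ ≤ m + 1)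
    {p : MvPolynomial (Fin (ν + 1)) K} (hp : p.IsHomogeneous (m + 1)) :
    ∃ p' : MvPolynomial (Fin (ν + 1)) K, p'.IsHomogeneous m ∧ p - lf K c * p' ∈ I := by
  obtain ⟨j, hj, z, hz, hjz⟩ := Submodule.mem_sup.1 (hm (m + 1) hm₁ p hp)
  obtain ⟨q, rfl⟩ := Ideal.mem_span_singleton'.1 hz
  refine ⟨homogeneousComponent m q, homogeneousComponent_isHomogeneous m q, ?_⟩
  have h4 : homogeneousComponent (m + 1) p = p := by
    rw [homogeneousComponent_of_mem (show p ∈ homogeneousSubmodule _ _ (m + 1) from hp),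
      if_pos rfl]
  have h5 : p = homogeneousComponent (m + 1) j + lf K c * homogeneousComponent m q := by
    rw [← Dim_comp_mul (Quot_lf_hom c) q m, ← map_add, mul_comm (lf K c) q, hjz, h4]
  have h6 : p - lf K c * homogeneousComponent m q = homogeneousComponent (m + 1) j := by
    conv_lhs => rw [h5]
    ring
  rw [h6]
  exact hI j hj (m + 1)

/-- Repeated division by `l` modulo `I`. -/
theorem Quot_div_pow {I : Ideal (MvPolynomial (Fin (ν + 1)) K)} (hI : Hom I)
    {c : Fin (ν + 1) → k} {m₁ : ℕ} (hm : Misses I c m₁) {m : ℕ} (hm₁ : m₁ ≤ m) (s : ℕ) :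
    ∀ {p : MvPolynomial (Fin (ν + 1)) K}, p.IsHomogeneous (m + s) →
    ∃ p' : MvPolynomial (Fin (ν + 1)) K, p'.IsHomogeneous m ∧ p - lf K c ^ s * p' ∈ I := by
  induction s with
  | zero =>
    intro p hp
    exact ⟨p, hp, by simp⟩
  | succ s ih =>
    intro p hp
    obtain ⟨p₁, hp₁, h1⟩ := Quot_div hI hm (m := m + s) (by omega) hp
    obtain ⟨p', hp', h2⟩ := ih hp₁
    refine ⟨p', hp', ?_⟩
    have h3 : p - lf K c ^ (s + 1) * p' = (p - lf K c * p₁) + lf K c * (p₁ - lf K c ^ s * p') := by
      ring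
    rw [h3]
    exact I.add_mem h1 (I.mul_mem_left _ h2)

/-- Multiplication by `l`. -/
noncomputable def Quot_mul (I : Ideal (MvPolynomial (Fin (ν + 1)) K)) (c : Fin (ν + 1) → k)
    (m : ℕ) : W I m →ₗ[K] W I (m + 1) :=
  (LinearMap.mulLeft K (Ideal.Quotient.mk I (lf K c))).restrict (fun x hx => by
    obtain ⟨p, hp1, rfl⟩ := Dim_mem.1 hx
    have h0 := (Quot_lf_hom (K := K) c).mul hp1
    rw [Nat.add_comm 1 m] at h0
    exact Dim_mem.2 ⟨lf K c * p, h0, map_mul _ _ _⟩)

theorem Quot_mul_surj {I : Ideal (MvPolynomial (Fin (ν + 1)) K)} (hI : Hom I)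
    {c : Fin (ν + 1) → k} {m₁ : ℕ} (hm : Misses I c m₁) {m : ℕ} (hm₁ : m₁ ≤ m + 1) :
    Function.Surjective (Quot_mul I c m) := by
  rintro ⟨y, hy⟩
  obtain ⟨p, hp, rfl⟩ := Dim_mem.1 hy
  obtain ⟨p', hp', h1⟩ := Quot_div hI hm hm₁ hp
  refine ⟨⟨Ideal.Quotient.mk I p', Dim_mem.2 ⟨p', hp', rfl⟩⟩, Subtype.ext ?_⟩
  change Ideal.Quotient.mk I (lf K c) * Ideal.Quotient.mk I p' = Ideal.Quotient.mk I p
  rw [← map_mul]
  exact ((Ideal.Quotient.eq).2 h1).symm

/-- Multiplication by `l` is onto in large degrees. -/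
theorem Quot_anti {I : Ideal (MvPolynomial (Fin (ν + 1)) K)} (hI : Hom I)
    {c : Fin (ν + 1) → k} {m₁ : ℕ} (hm : Misses I c m₁) (m : ℕ) (hm₁ : m₁ ≤ m) :
    R I (m + 1) ≤ R I m := by
  have hfin0 := Dim_finite I m
  have hfin := Dim_finite I (m + 1)
  have h1 := LinearMap.finrank_range_le (Quot_mul I c m)
  rw [LinearMap.range_eq_top.2 (Quot_mul_surj hI hm (by omega)), finrank_top] at h1
  exact h1

/-- Multiplication by `l` is injective when the dimension does not change. -/
theorem Quot_inj {I : Ideal (MvPolynomial (Fin (ν + 1)) K)} (hI : Hom I)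
    {c : Fin (ν + 1) → k} {m₁ : ℕ} (hm : Misses I c m₁) {m : ℕ} (hm₁ : m₁ ≤ m)
    (hR : R I (m + 1) = R I m) {p : MvPolynomial (Fin (ν + 1)) K} (hp : p.IsHomogeneous m)
    (hlp : lf K c * p ∈ I) : p ∈ I := by
  have hfin0 := Dim_finite I m
  have hfin := Dim_finite I (m + 1)
  have h1 : Function.Injective (Quot_mul I c m) :=
    (LinearMap.injective_iff_surjective_of_finrank_eq_finrank hR.symm).2
      (Quot_mul_surj hI hm (by omega))
  have h2 : Quot_mul I c m ⟨Ideal.Quotient.mk I p, Dim_mem.2 ⟨p, hp, rfl⟩⟩ = 0 := by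
    refine Subtype.ext ?_
    change Ideal.Quotient.mk I (lf K c) * Ideal.Quotient.mk I p = 0
    rw [← map_mul]
    exact Ideal.Quotient.eq_zero_iff_mem.2 hlp
  have h3 := h1 (h2.trans (map_zero _).symm)
  exact Ideal.Quotient.eq_zero_iff_mem.1 (congrArg Subtype.val h3)

/-- The affine ring. -/
theorem Quot_main {I : Ideal (MvPolynomial (Fin (ν + 1)) K)} (hI : Hom I)
    {c : Fin (ν + 1) → k} {m₁ : ℕ} (hm : Misses I c m₁) :
    FiniteDimensional K (Qo I c) ∧ ∃ m₂, m₁ ≤ m₂ ∧ ∀ m, m₂ ≤ m →
      (∀ x : Qo I c, ∃ p : MvPolynomial (Fin (ν + 1)) K, p.IsHomogeneous m ∧ cls I c p = x) ∧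
      (∀ p : MvPolynomial (Fin (ν + 1)) K, p.IsHomogeneous m → cls I c p = 0 → p ∈ I) ∧
      R I m = Module.finrank K (Qo I c) := by
  classical
  -- the dimension is eventually constant
  obtain ⟨m₂, hm₂, hconst⟩ : ∃ m₂, m₁ ≤ m₂ ∧ ∀ m, m₂ ≤ m → R I (m + 1) = R I m := by
    have h1 : ∀ s, R I (m₁ + s + 1) ≤ R I (m₁ + s) := fun s => Quot_anti hI hm _ (by omega)
    have h2 : Antitone fun s => R I (m₁ + s) := antitone_nat_of_succ_le h1
    obtain ⟨s₀, -, hs₀⟩ := (measure fun s => R I (m₁ + s)).wf.has_min Set.univ ⟨0, trivial⟩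
    have h3 : ∀ s, R I (m₁ + s₀) ≤ R I (m₁ + s) := fun s => not_lt.1 (hs₀ s trivial)
    refine ⟨m₁ + s₀, by omega, fun m hms => ?_⟩
    obtain ⟨t, rfl⟩ := Nat.exists_eq_add_of_le hms
    have h4 := h3 (s₀ + t)
    have h5 := h3 (s₀ + t + 1)
    have h6 : R I (m₁ + (s₀ + t)) ≤ R I (m₁ + s₀) := h2 (Nat.le_add_right _ _)
    have h7 : R I (m₁ + (s₀ + t + 1)) ≤ R I (m₁ + s₀) :=
      h2 (show s₀ ≤ s₀ + t + 1 by omega)
    have h8 : m₁ + s₀ + t + 1 = m₁ + (s₀ + t + 1) := by ring
    have h9 : m₁ + s₀ + t = m₁ + (s₀ + t) := by ring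
    rw [h8, h9]
    exact le_antisymm (h7.trans h4) (h6.trans h5)
  have hcl : cls I c (lf K c) = 1 := by
    have h1 : Ideal.Quotient.mk (I ⊔ Ideal.span {lf K c - 1}) (lf K c) =
        Ideal.Quotient.mk (I ⊔ Ideal.span {lf K c - 1}) 1 :=
      Ideal.Quotient.eq.2 (Ideal.mem_sup_right (Ideal.mem_span_singleton_self _))
    rw [map_one] at h1
    exact h1
  have hI0 : ∀ p ∈ I, cls I c p = 0 := fun p hp =>
    Ideal.Quotient.eq_zero_iff_mem.2 (Ideal.mem_sup_left hp)
  -- surjectivity
  have hsurj : ∀ m, m₁ ≤ m → ∀ x : Qo I c,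
      ∃ p : MvPolynomial (Fin (ν + 1)) K, p.IsHomogeneous m ∧ cls I c p = x := by
    intro m hmm x
    obtain ⟨g, rfl⟩ := Ideal.Quotient.mk_surjective x
    have h1 : ∀ i, ∃ p : MvPolynomial (Fin (ν + 1)) K, p.IsHomogeneous m ∧
        cls I c p = cls I c (homogeneousComponent i g) := by
      intro i
      rcases le_total i m with him | him
      · obtain ⟨t, rfl⟩ := Nat.exists_eq_add_of_le him
        refine ⟨lf K c ^ t * homogeneousComponent i g, ?_, ?_⟩
        · have h2 := ((Quot_lf_hom (K := K) c).pow t).mul (homogeneousComponent_isHomogeneous i g)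
          rw [show 1 * t + i = i + t by ring] at h2
          exact h2
        · change Ideal.Quotient.mk _ (lf K c ^ t * homogeneousComponent i g) = _
          rw [map_mul, map_pow]
          change cls I c (lf K c) ^ t * _ = _
          rw [hcl, one_pow, one_mul]
      · obtain ⟨t, rfl⟩ := Nat.exists_eq_add_of_le him
        obtain ⟨p', hp', h2⟩ := Quot_div_pow hI hm hmm t (homogeneousComponent_isHomogeneous _ g)
        refine ⟨p', hp', ?_⟩
        have h3 := hI0 _ h2
        change Ideal.Quotient.mk _ _ = 0 at h3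
        rw [map_sub, map_mul, map_pow, sub_eq_zero] at h3
        have h4 : cls I c (homogeneousComponent (m + t) g) =
            cls I c (lf K c) ^ t * cls I c p' := h3
        rw [h4, hcl, one_pow, one_mul]
    choose p hp1 hp2 using h1
    refine ⟨∑ i ∈ Finset.range (g.totalDegree + 1), p i, IsHomogeneous.sum _ _ _ fun i _ => hp1 i,
      ?_⟩
    change Ideal.Quotient.mk _ _ = _
    rw [map_sum]
    conv_rhs => rw [← sum_homogeneousComponent g, map_sum]
    exact Finset.sum_congr rfl fun i _ => hp2 i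
  -- injectivity
  have hpow : ∀ (s m : ℕ), m₂ ≤ m → ∀ p : MvPolynomial (Fin (ν + 1)) K, p.IsHomogeneous m →
      lf K c ^ s * p ∈ I → p ∈ I := by
    intro s
    induction s with
    | zero =>
      intro m _ p _ h
      simpa using h
    | succ s ih =>
      intro m hmm p hp h
      have h1 := (Quot_lf_hom (K := K) c).mul hp
      have h2 : lf K c ^ s * (lf K c * p) ∈ I := by
        rw [← mul_assoc, ← pow_succ]
        exact h
      have h3 := ih (1 + m) (by omega) _ h1 h2
      exact Quot_inj hI hm (by omega) (hconst m hmm) hp h3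
  have hinj : ∀ m, m₂ ≤ m → ∀ p : MvPolynomial (Fin (ν + 1)) K, p.IsHomogeneous m →
      cls I c p = 0 → p ∈ I := by
    intro m hmm p hp h0
    obtain ⟨j, hj, z, hz, hjz⟩ := Submodule.mem_sup.1 (Ideal.Quotient.eq_zero_iff_mem.1 h0)
    obtain ⟨a, rfl⟩ := Ideal.mem_span_singleton'.1 hz
    have hp' : ∀ i, homogeneousComponent i p = if i = m then p else 0 := by
      intro i
      rw [homogeneousComponent_of_mem (show p ∈ homogeneousSubmodule _ _ m from hp)]
    -- the components
    have hrec : ∀ i, lf K c * homogeneousComponent i a - homogeneousComponent (i + 1) a -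
        homogeneousComponent (i + 1) p ∈ I := by
      intro i
      have h1 := congrArg (homogeneousComponent (i + 1)) hjz
      rw [map_add, mul_sub, mul_one, map_sub, mul_comm a, Dim_comp_mul (Quot_lf_hom c)] at h1
      have h2 : lf K c * homogeneousComponent i a - homogeneousComponent (i + 1) a -
        homogeneousComponent (i + 1) p = - homogeneousComponent (i + 1) j := by
        rw [← h1]
        ring
      rw [h2]
      exact I.neg_mem (hI j hj _)
    have hzero : homogeneousComponent 0 a + homogeneousComponent 0 p ∈ I := by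
      have h1 := congrArg (homogeneousComponent 0) hjz
      rw [map_add, mul_sub, mul_one, map_sub, mul_comm a,
        Dim_comp_mul_lt (Quot_lf_hom c) a Nat.zero_lt_one] at h1
      have h2 : homogeneousComponent 0 a + homogeneousComponent 0 p = homogeneousComponent 0 j := by
        rw [← h1]
        ring
      rw [h2]
      exact hI j hj _
    have hlow : ∀ i, i < m → homogeneousComponent i a ∈ I := by
      intro i
      induction i with
      | zero =>
        intro h1
        rw [hp' 0, if_neg (by omega), add_zero] at hzero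
        exact hzero
      | succ i ih =>
        intro h1
        have h2 := hrec i
        rw [hp' (i + 1), if_neg (by omega), sub_zero] at h2
        have h3 : homogeneousComponent (i + 1) a = lf K c * homogeneousComponent i a -
            (lf K c * homogeneousComponent i a - homogeneousComponent (i + 1) a) := by ring
        rw [h3]
        exact I.sub_mem (I.mul_mem_left _ (ih (by omega))) h2
    have hm0 : homogeneousComponent m a + p ∈ I := by
      rcases Nat.eq_zero_or_pos m with h | h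
      · subst h
        rw [hp' 0, if_pos rfl] at hzero
        exact hzero
      · obtain ⟨i, rfl⟩ : ∃ i, m = i + 1 := ⟨m - 1, by omega⟩
        have h2 := hrec i
        rw [hp' (i + 1), if_pos rfl] at h2
        have h3 : homogeneousComponent (i + 1) a + p = lf K c * homogeneousComponent i a -
            (lf K c * homogeneousComponent i a - homogeneousComponent (i + 1) a - p) := by ring
        rw [h3]
        exact I.sub_mem (I.mul_mem_left _ (hlow i (by omega))) h2
    have hhigh : ∀ t, homogeneousComponent (m + t) a + lf K c ^ t * p ∈ I := by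
      intro t
      induction t with
      | zero => simpa using hm0
      | succ t ih =>
        have h2 := hrec (m + t)
        rw [hp' (m + t + 1), if_neg (by omega), sub_zero] at h2
        have h3 : homogeneousComponent (m + (t + 1)) a + lf K c ^ (t + 1) * p =
            lf K c * (homogeneousComponent (m + t) a + lf K c ^ t * p) -
            (lf K c * homogeneousComponent (m + t) a - homogeneousComponent (m + t + 1) a) := by
          rw [← add_assoc]
          ring
        rw [h3]
        exact I.sub_mem (I.mul_mem_left _ ih) h2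
    have h4 := hhigh (a.totalDegree + 1)
    rw [homogeneousComponent_eq_zero _ _ (by omega), zero_add] at h4
    exact hpow _ m hmm p hp h4
  -- the linear equivalence
  let π : (MvPolynomial (Fin (ν + 1)) K ⧸ I) →ₐ[K] Qo I c := Ideal.Quotient.factorₐ K le_sup_left
  have hπ : ∀ p : MvPolynomial (Fin (ν + 1)) K, π (Ideal.Quotient.mk I p) = cls I c p :=
    fun p => rfl
  have hs : ∀ m, m₁ ≤ m → Function.Surjective (π.toLinearMap.domRestrict (W I m)) := by
    intro m hmm x
    obtain ⟨p, hp1, hp2⟩ := hsurj m hmm x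
    exact ⟨⟨Ideal.Quotient.mk I p, Dim_mem.2 ⟨p, hp1, rfl⟩⟩, hp2⟩
  have hfinQ : FiniteDimensional K (Qo I c) := by
    have hfin := Dim_finite I m₂
    exact Module.Finite.of_surjective _ (hs m₂ hm₂)
  refine ⟨hfinQ, m₂, hm₂, fun m hmm => ⟨hsurj m (by omega), hinj m hmm, ?_⟩⟩
  have hi : Function.Injective (π.toLinearMap.domRestrict (W I m)) := by
    rw [← LinearMap.ker_eq_bot, LinearMap.ker_eq_bot']
    rintro ⟨y, hy⟩ h0
    obtain ⟨p, hp1, rfl⟩ := Dim_mem.1 hy
    refine Subtype.ext ?_
    exact Ideal.Quotient.eq_zero_iff_mem.2 (hinj m hmm p hp1 h0)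
  exact (LinearEquiv.ofBijective _ ⟨hi, hs m (by omega)⟩).finrank_eq

end Pool.Agent.Helper30.ZB

end

section

set_option autoImplicit false

set_option linter.style.haveILetI false

namespace Pool.Agent.Helper16

open Polynomial IntermediateField IsDedekindDomain

section trdeg

/-- Finite extensions of function fields are function fields. -/
theorem IsFunctionField.of_finite {k K L : Type} [Field k] [Field K] [Field L] [Algebra k K]
    [Algebra K L] [Algebra k L] [IsScalarTower k K L] (hK : IsFunctionField k K)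
    [FiniteDimensional K L] : IsFunctionField k L := by
  haveI := hK.1
  refine ⟨Algebra.EssFiniteType.comp k K L, ?_⟩
  have h1 := trdeg_add_eq k K (A := L)
  rw [trdeg_eq_zero (R := K) (A := L), add_zero] at h1
  rw [← h1, hK.2]

end trdeg

section restr

variable {k K L N : Type} [Field k] [Field K] [Field L] [Field N] [Algebra k K] [Algebra k L]
  [Algebra k N] [Algebra L N] [Algebra K N] [IsScalarTower k L N] [IsScalarTower k K N]

end restr

end Pool.Agent.Helper16

end

section

namespace Pool.Agent.Helper16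
end Pool.Agent.Helper16
namespace Pool.Agent.Helper36
end Pool.Agent.Helper36

/-!
# Limit fields
-/

set_option autoImplicit false

namespace Pool.Agent.Helper30.TP

open MvPolynomial

open Pool.Agent.Helper16 (Place IsFunctionField)

open Pool.Agent.Helper36 (step iter)

/-- Sequences which are bounded at `b`, along the ultrafilter. -/
def bddSub {k K : Type} [Field k] [Field K] [Algebra k K] (b : Place k K) (W : Ultrafilter ℕ) :
    Subring (ℕ → K) where
  carrier := {u | ∃ c : ℕ, ∀ᶠ a in (W : Filter ℕ), b.val (u a) ≤ WithZero.exp (c : ℤ)}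
  mul_mem' := by
    rintro u v ⟨c, hc⟩ ⟨c', hc'⟩
    refine ⟨c + c', ?_⟩
    filter_upwards [hc, hc'] with a h1 h2
    rw [Pi.mul_apply, map_mul, Nat.cast_add, WithZero.exp_add]
    exact mul_le_mul' h1 h2
  one_mem' := ⟨0, Filter.Eventually.of_forall fun a => by
    rw [Pi.one_apply, map_one, Nat.cast_zero, WithZero.exp_zero]⟩
  add_mem' := by
    rintro u v ⟨c, hc⟩ ⟨c', hc'⟩
    refine ⟨c + c', ?_⟩
    filter_upwards [hc, hc'] with a h1 h2
    rw [Pi.add_apply]
    refine (b.val.map_add (u a) (v a)).trans (max_le (h1.trans ?_) (h2.trans ?_))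
    · rw [WithZero.exp_le_exp]
      push_cast
      omega
    · rw [WithZero.exp_le_exp]
      push_cast
      omega
  zero_mem' := ⟨0, Filter.Eventually.of_forall fun a => by
    rw [Pi.zero_apply, map_zero]
    exact zero_le⟩
  neg_mem' := by
    rintro u ⟨c, hc⟩
    refine ⟨c, ?_⟩
    filter_upwards [hc] with a h1
    rw [Pi.neg_apply, Valuation.map_neg]
    exact h1

theorem const_mem_bddSub {k K : Type} [Field k] [Field K] [Algebra k K] (b : Place k K)
    (W : Ultrafilter ℕ) (c : K) : (fun _ => c) ∈ bddSub b W := by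
  by_cases hc : c = 0
  · subst hc
    exact (bddSub b W).zero_mem
  · refine ⟨(WithZero.log (b.val c)).toNat, Filter.Eventually.of_forall fun a => ?_⟩
    have h1 : b.val c ≠ 0 := (Valuation.ne_zero_iff _).2 hc
    show b.val c ≤ _
    rw [← WithZero.log_le_iff_le_exp h1]
    exact Int.self_le_toNat _

end Pool.Agent.Helper30.TP

end
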