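import Pool.Agent.Helper72.TM2.T37
import Pool.Agent.Helper72.TM2.T39

section

/-!
# A constant linear form without zero on a finite set
-/

set_option autoImplicit false

namespace Pool.Agent.Helper30.ZB

open MvPolynomial

variable {ν : ℕ} {k K : Type} [Field k] [Field K] [Algebra k K]

/-- Two linear forms satisfy a binary relation modulo `I`. -/
theorem Lin_relation {I : Ideal (MvPolynomial (Fin (ν + 1)) K)} {B : ℕ}
    (hB : ∀ m₀, ∃ m, m₀ ≤ m ∧ R I m ≤ B) (a b : MvPolynomial (Fin (ν + 1)) K)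
    (ha : a.IsHomogeneous 1) (hb : b.IsHomogeneous 1) :
    ∃ (m : ℕ) (Q : MvPolynomial (Fin 2) K), Q.IsHomogeneous m ∧ Q ≠ 0 ∧
      aeval ![a, b] Q ∈ I := by
  classical
  obtain ⟨m, hm, hR⟩ := hB B
  have hfin := Dim_finite I m
  have hhom : ∀ i : Fin (m + 1), (a ^ (i : ℕ) * b ^ (m - i)).IsHomogeneous m := by
    intro i
    have h1 := (ha.pow (i : ℕ)).mul (hb.pow (m - i))
    have h2 : 1 * (i : ℕ) + 1 * (m - i) = m := by
      have := i.is_lt
      omega
    rwa [h2] at h1
  let v : Fin (m + 1) → W I m := fun i =>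
    ⟨(Ideal.Quotient.mkₐ K I).toLinearMap (a ^ (i : ℕ) * b ^ (m - i)),
      Submodule.mem_map_of_mem ((mem_homogeneousSubmodule _ _).2 (hhom i))⟩
  have hnot : ¬ LinearIndependent K v := by
    intro hli
    have := hli.fintype_card_le_finrank
    rw [Fintype.card_fin] at this
    have h3 : Module.finrank K (W I m) ≤ B := hR
    omega
  obtain ⟨g, hg, i₀, hi₀⟩ := Fintype.not_linearIndependent_iff.1 hnot
  have hg' : ∑ i : Fin (m + 1), C (g i) * (a ^ (i : ℕ) * b ^ (m - i)) ∈ I := by
    have h1 : ((∑ i, g i • v i : W I m) : MvPolynomial (Fin (ν + 1)) K ⧸ I) = 0 := by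
      rw [hg]; rfl
    rw [AddSubmonoidClass.coe_finsetSum] at h1
    have h2 : Ideal.Quotient.mk I (∑ i : Fin (m + 1), C (g i) * (a ^ (i : ℕ) * b ^ (m - i))) = 0 := by
      rw [map_sum, ← h1]
      refine Finset.sum_congr rfl fun i _ => ?_
      rw [← MvPolynomial.smul_eq_C_mul]
      rfl
    exact Ideal.Quotient.eq_zero_iff_mem.1 h2
  refine ⟨m, ∑ i : Fin (m + 1), C (g i) * (X 0 ^ (i : ℕ) * X 1 ^ (m - i)), ?_, ?_, ?_⟩
  · refine MvPolynomial.IsHomogeneous.sum _ _ _ fun i _ => ?_
    have h1 := (isHomogeneous_C (Fin 2) (g i)).mul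
      (((isHomogeneous_X K (0 : Fin 2)).pow (i : ℕ)).mul
        ((isHomogeneous_X K (1 : Fin 2)).pow (m - i)))
    have h2 : 0 + (1 * (i : ℕ) + 1 * (m - i)) = m := by
      have := i.is_lt
      omega
    rwa [h2] at h1
  · intro h0
    have h1 := congrArg (coeff (Finsupp.single 0 (i₀ : ℕ) + Finsupp.single 1 (m - i₀))) h0
    rw [coeff_zero, coeff_sum, Finset.sum_eq_single i₀] at h1
    · rw [coeff_C_mul, X_pow_eq_monomial, X_pow_eq_monomial, monomial_mul, coeff_monomial] at h1
      simp at h1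
      exact hi₀ h1
    · intro j _ hj
      rw [coeff_C_mul, X_pow_eq_monomial, X_pow_eq_monomial, monomial_mul, coeff_monomial,
        if_neg, mul_zero]
      intro h2
      have h3 := DFunLike.congr_fun h2 0
      simp at h3
      exact hj (Fin.ext h3)
    · intro h; exact absurd (Finset.mem_univ _) h
  · have h1 : aeval ![a, b] (∑ i : Fin (m + 1), C (g i) * (X 0 ^ (i : ℕ) * X 1 ^ (m - i)) :
        MvPolynomial (Fin 2) K) = ∑ i : Fin (m + 1), C (g i) * (a ^ (i : ℕ) * b ^ (m - i)) := by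
      rw [map_sum]
      refine Finset.sum_congr rfl fun i _ => ?_
      simp [MvPolynomial.algebraMap_eq]
    rw [h1]
    exact hg'

theorem Lin_lf_hom (c : Fin (ν + 1) → k) : (lf K c).IsHomogeneous 1 := by
  unfold lf
  refine MvPolynomial.IsHomogeneous.sum _ _ _ fun i _ => ?_
  have h1 := (isHomogeneous_C (Fin (ν + 1)) (algebraMap k K (c i))).mul
    (isHomogeneous_X K i)
  simpa using h1

theorem Lin_lf_add (c : Fin (ν + 1) → k) (i : Fin (ν + 1)) (t : k) :
    lf K (c + Pi.single i t) = lf K c + C (algebraMap k K t) * X i := by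
  classical
  unfold lf
  simp only [Pi.add_apply, map_add, add_mul, Finset.sum_add_distrib]
  congr 1
  rw [Finset.sum_eq_single i]
  · simp
  · intro j _ hj
    simp [Pi.single_eq_of_ne hj]
  · intro h; exact absurd (Finset.mem_univ _) h

/-- A nonzero binary form does not vanish at `(-t, 1)` for some `t` in the infinite field `k`. -/
theorem Lin_value [Infinite k] {m : ℕ} {Q : MvPolynomial (Fin 2) K} (hQ : Q.IsHomogeneous m)
    (hQ0 : Q ≠ 0) : ∃ t : k, eval ![-(algebraMap k K t), 1] Q ≠ 0 := by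
  classical
  by_contra hcon
  push Not at hcon
  -- the polynomial in one variable
  let q : Polynomial K := ∑ d ∈ Q.support, Polynomial.C (coeff d Q) * (-Polynomial.X) ^ d 0
  have hq : ∀ t : k, q.eval (algebraMap k K t) = 0 := by
    intro t
    rw [← hcon t, eval_eq']
    simp only [q, Polynomial.eval_finsetSum]
    refine Finset.sum_congr rfl fun d _ => ?_
    simp [Fin.prod_univ_two]
  have hq0 : q = 0 := by
    refine Polynomial.eq_zero_of_infinite_isRoot q ?_
    refine (Set.infinite_range_of_injective (algebraMap k K).injective).mono ?_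
    rintro _ ⟨t, rfl⟩
    exact hq t
  obtain ⟨x, hx⟩ : Q.support.Nonempty := by
    rw [Finset.nonempty_iff_ne_empty]
    intro h
    exact hQ0 (support_eq_empty.1 h)
  have hdeg : ∀ d ∈ Q.support, d 0 + d 1 = m := by
    intro d hd
    have h1 := hQ (mem_support_iff.1 hd)
    rw [Finsupp.weight_apply, Finsupp.sum_fintype _ _ (by simp)] at h1
    simpa [Fin.sum_univ_two] using h1
  have h1 : q.coeff (x 0) = coeff x Q * (-1) ^ x 0 := by
    simp only [q, Polynomial.finsetSum_coeff]
    have hc : ∀ n j : ℕ, ((-Polynomial.X : Polynomial K) ^ n).coeff j =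
        if j = n then (-1) ^ n else 0 := by
      intro n j
      rw [neg_pow, show (-1 : Polynomial K) ^ n = Polynomial.C ((-1) ^ n) by simp,
        Polynomial.coeff_C_mul, Polynomial.coeff_X_pow]
      split_ifs <;> simp
    rw [Finset.sum_eq_single x]
    · rw [Polynomial.coeff_C_mul, hc, if_pos rfl]
    · intro d hd hdx
      rw [Polynomial.coeff_C_mul, hc, if_neg, mul_zero]
      intro h0
      apply hdx
      have h1 := hdeg d hd
      have h2 := hdeg x hx
      ext i
      fin_cases i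
      · exact h0.symm
      · show d 1 = x 1
        omega
    · intro h; exact absurd hx h
  rw [hq0, Polynomial.coeff_zero] at h1
  have h2 : coeff x Q ≠ 0 := mem_support_iff.1 hx
  have h3 : ((-1 : K)) ^ x 0 ≠ 0 := pow_ne_zero _ (by simp)
  exact mul_ne_zero h2 h3 h1.symm

/-- If the dimensions do not tend to infinity then some constant linear form has no zero on the
zero set of `I`. -/
theorem Lin_exists [Infinite k] {I : Ideal (MvPolynomial (Fin (ν + 1)) K)} {B : ℕ}
    (hB : ∀ m₀, ∃ m, m₀ ≤ m ∧ R I m ≤ B) :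
    ∃ (c : Fin (ν + 1) → k) (m₁ : ℕ), Misses I c m₁ := by
  classical
  have key : ∀ S : Finset (Fin (ν + 1)), ∃ c : Fin (ν + 1) → k,
      ∀ i ∈ S, (X i : MvPolynomial (Fin (ν + 1)) K) ∈ (I ⊔ Ideal.span {lf K c}).radical := by
    intro S
    induction S using Finset.induction_on with
    | empty => exact ⟨0, by simp⟩
    | insert i S hi ih =>
      obtain ⟨c, hc⟩ := ih
      obtain ⟨m, Q, hQ, hQ0, hQI⟩ := Lin_relation hB (lf K c) (X i) (Lin_lf_hom c)
        (isHomogeneous_X K i)
      obtain ⟨t, ht⟩ := Lin_value (k := k) hQ hQ0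
      set c' := c + Pi.single i t with hc'
      set I' := I ⊔ Ideal.span {lf K c'} with hI'
      have hI : I ≤ I' := le_sup_left
      have hl : lf K c' ∈ I' := Ideal.mem_sup_right (Ideal.mem_span_singleton_self _)
      have hlX : lf K c = lf K c' + C (-(algebraMap k K t)) * X i := by
        rw [hc', Lin_lf_add]
        simp [map_neg]
      have hQ' : aeval ![lf K c, (X i : MvPolynomial (Fin (ν + 1)) K)] Q -
          C (eval ![-(algebraMap k K t), 1] Q) * X i ^ m ∈ Ideal.span {lf K c'} := by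
        rw [aeval_def, eval₂_eq', eval_eq', map_sum, Finset.sum_mul, ← Finset.sum_sub_distrib]
        refine Ideal.sum_mem _ fun d hd => ?_
        have hdm : d 0 + d 1 = m := by
          have h1 := hQ (mem_support_iff.1 hd)
          rw [Finsupp.weight_apply, Finsupp.sum_fintype _ _ (by simp)] at h1
          simpa [Fin.sum_univ_two] using h1
        rw [Ideal.mem_span_singleton]
        have h2 : (algebraMap K (MvPolynomial (Fin (ν + 1)) K)) (coeff d Q) *
            ∏ j, ![lf K c, (X i : MvPolynomial (Fin (ν + 1)) K)] j ^ d j -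
            C (coeff d Q * ∏ j, ![-(algebraMap k K t), (1 : K)] j ^ d j) * X i ^ m =
            C (coeff d Q) * X i ^ d 1 *
              (lf K c ^ d 0 - (C (-(algebraMap k K t)) * X i) ^ d 0) := by
          rw [← hdm]
          simp only [Fin.prod_univ_two, MvPolynomial.algebraMap_eq, Matrix.cons_val_zero,
            Matrix.cons_val_one, one_pow, mul_one, map_mul, map_pow]
          ring
        rw [h2]
        refine Dvd.dvd.mul_left ?_ _
        have h3 := sub_dvd_pow_sub_pow (lf K c) (C (-(algebraMap k K t)) * X i) (d 0)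
        rwa [hlX, add_sub_cancel_right, ← hlX] at h3
      have hX : (X i : MvPolynomial (Fin (ν + 1)) K) ∈ I'.radical := by
        refine ⟨m, ?_⟩
        have h1 : C (eval ![-(algebraMap k K t), 1] Q) * (X i : MvPolynomial (Fin (ν + 1)) K) ^ m
            ∈ I' := by
          have h2 := I'.sub_mem (hI hQI) ((le_sup_right : _ ≤ I') hQ')
          simpa using h2
        have h3 := I'.mul_mem_left (C (eval ![-(algebraMap k K t), 1] Q)⁻¹) h1
        rw [← mul_assoc, ← map_mul, inv_mul_cancel₀ ht, map_one, one_mul] at h3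
        exact h3
      have hlr : lf K c ∈ I'.radical := by
        rw [hlX]
        exact I'.radical.add_mem (Ideal.le_radical hl) (I'.radical.mul_mem_left _ hX)
      refine ⟨c', fun j hj => ?_⟩
      rw [Finset.mem_insert] at hj
      rcases hj with rfl | hj
      · exact hX
      · have h1 : I ⊔ Ideal.span {lf K c} ≤ I'.radical := by
          refine sup_le (hI.trans Ideal.le_radical) ?_
          rw [Ideal.span_singleton_le_iff_mem]
          exact hlr
        have h2 := Ideal.radical_mono h1 (hc j hj)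
        rwa [Ideal.radical_idem] at h2
  obtain ⟨c, hc⟩ := key Finset.univ
  have h1 : idealOfVars (Fin (ν + 1)) K ≤ (I ⊔ Ideal.span {lf K c}).radical := by
    rw [Ideal.span_le]
    rintro _ ⟨i, rfl⟩
    exact hc i (Finset.mem_univ i)
  obtain ⟨m₁, hm₁⟩ := Ideal.exists_pow_le_of_le_radical_of_fg h1 (idealOfVars_fg _ _)
  refine ⟨c, m₁, fun m hm p hp => hm₁ ?_⟩
  rw [mem_pow_idealOfVars_iff]
  intro x hx
  have := hp (mem_support_iff.1 hx)
  rw [Finsupp.degree_eq_weight_one]
  exact hm.trans this.symm.le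

end Pool.Agent.Helper30.ZB

end

section

/-!
# The change of the linear form in the determinants
-/

set_option autoImplicit false

namespace Pool.Agent.Helper30.ZB

open MvPolynomial

variable {ν : ℕ} {k K : Type} [Field k] [Field K] [Algebra k K]

/-- The forms of degree `m₂ - e + N e` used in the determinants. -/
private noncomputable def gfam {q s : ℕ} (h : MvPolynomial (Fin (ν + 1)) K) (e : ℕ)
    (qa : Fin q → MvPolynomial (Fin (ν + 1)) K) (pc : Fin s → MvPolynomial (Fin (ν + 1)) K)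
    (N : ℕ) (c : Fin (ν + 1) → k) :
    (Fin N × Fin q) ⊕ Fin s → MvPolynomial (Fin (ν + 1)) K
  | Sum.inl (j, a) => h ^ (j : ℕ) * lf K c ^ ((N - 1 - j) * e) * qa a
  | Sum.inr i => h ^ N * pc i

private def eqv (N q s : ℕ) :
    Fin q ⊕ ((Fin N × Fin q) ⊕ Fin s) ≃ (Fin (N + 1) × Fin q) ⊕ Fin s where
  toFun
    | Sum.inl a => Sum.inl (0, a)
    | Sum.inr (Sum.inl (j, a)) => Sum.inl (j.succ, a)
    | Sum.inr (Sum.inr i) => Sum.inr i
  invFun
    | Sum.inl (j, a) => Fin.cases (Sum.inl a) (fun j' => Sum.inr (Sum.inl (j', a))) j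
    | Sum.inr i => Sum.inr (Sum.inr i)
  left_inv := by
    rintro (a | (⟨j, a⟩ | i)) <;> simp
  right_inv := by
    rintro (⟨j, a⟩ | i)
    · refine Fin.cases ?_ (fun j' => ?_) j <;> simp
    · simp

section

variable {J : Ideal (MvPolynomial (Fin (ν + 1)) K)} {h : MvPolynomial (Fin (ν + 1)) K}
  {e : ℕ} {c : Fin (ν + 1) → k} {m₂ q s : ℕ} {qa : Fin q → MvPolynomial (Fin (ν + 1)) K}
  {pc : Fin s → MvPolynomial (Fin (ν + 1)) K}

private theorem gfam_zero (N : ℕ) (a : Fin q) :
    gfam h e qa pc (N + 1) c (eqv N q s (Sum.inl a)) = lf K c ^ (N * e) * qa a := by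
  simp [gfam, eqv]

private theorem gfam_succ (N : ℕ) (κ : (Fin N × Fin q) ⊕ Fin s) :
    gfam h e qa pc (N + 1) c (eqv N q s (Sum.inr κ)) = h * gfam h e qa pc N c κ := by
  rcases κ with (⟨j, a⟩ | i)
  · simp only [gfam, eqv, Equiv.coe_fn_mk, Fin.val_succ]
    rw [show N + 1 - 1 - ((j : ℕ) + 1) = N - 1 - j by omega]
    ring
  · simp only [gfam, eqv, Equiv.coe_fn_mk]
    ring

private theorem sum_succ (N : ℕ) (a : (Fin (N + 1) × Fin q) ⊕ Fin s → K) :
    ∑ κ, C (a κ) * gfam h e qa pc (N + 1) c κ =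
      ∑ b, C (a (eqv N q s (Sum.inl b))) * (lf K c ^ (N * e) * qa b) +
        h * ∑ κ, C (a (eqv N q s (Sum.inr κ))) * gfam h e qa pc N c κ := by
  rw [← Equiv.sum_comp (eqv N q s), Fintype.sum_sum_type]
  congr 1
  · exact Finset.sum_congr rfl fun b _ => by rw [gfam_zero]
  · rw [Finset.mul_sum]
    exact Finset.sum_congr rfl fun κ _ => by rw [gfam_succ]; ring

private theorem cls_C_mul (I : Ideal (MvPolynomial (Fin (ν + 1)) K)) (α : K)
    (p : MvPolynomial (Fin (ν + 1)) K) : cls I c (C α * p) = α • cls I c p := by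
  rw [Algebra.smul_def, cls, cls, map_mul]
  rfl

private theorem cls_lf (I : Ideal (MvPolynomial (Fin (ν + 1)) K)) :
    cls I c (lf K c) = 1 := by
  have h1 : cls I c (lf K c - 1) = 0 :=
    Ideal.Quotient.eq_zero_iff_mem.2 (Ideal.mem_sup_right (Ideal.mem_span_singleton_self _))
  have h2 : cls I c (lf K c - 1) = cls I c (lf K c) - 1 := by
    rw [cls, map_sub, map_one]
  rw [h2] at h1
  exact sub_eq_zero.1 h1

private theorem cls_mem {I : Ideal (MvPolynomial (Fin (ν + 1)) K)}
    {p : MvPolynomial (Fin (ν + 1)) K} (hp : p ∈ I) : cls I c p = 0 :=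
  Ideal.Quotient.eq_zero_iff_mem.2 (Ideal.mem_sup_left hp)

private theorem gfam_ind (D : Data J h e c m₂ q s qa pc) (N : ℕ)
    (a : (Fin N × Fin q) ⊕ Fin s → K)
    (ha : ∑ κ, C (a κ) * gfam h e qa pc N c κ ∈ J) : a = 0 := by
  induction N with
  | zero =>
    rw [Fintype.sum_sum_type] at ha
    have h1 : ∑ i, C (a (Sum.inr i)) * pc i ∈ J := by
      simpa [gfam] using ha
    have h2 := D.pc_ind _ h1
    funext κ
    rcases κ with (⟨j, b⟩ | i)
    · exact j.elim0
    · exact congrFun h2 i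
  | succ N ih =>
    rw [sum_succ] at ha
    have h1 : ∑ b, a (eqv N q s (Sum.inl b)) • cls (J ⊔ Ideal.span {h}) c (qa b) = 0 := by
      have h2 := cls_mem (c := c) (show _ ∈ J ⊔ Ideal.span {h} from Ideal.mem_sup_left ha)
      rw [cls, map_add, map_mul, map_sum] at h2
      have h3 : (Ideal.Quotient.mk (J ⊔ Ideal.span {h} ⊔ Ideal.span {lf K c - 1})) h = 0 :=
        cls_mem (c := c) (Ideal.mem_sup_right (Ideal.mem_span_singleton_self h))
      rw [h3, zero_mul, add_zero] at h2
      rw [← h2]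
      refine Finset.sum_congr rfl fun b _ => ?_
      have h4 := cls_C_mul (c := c) (J ⊔ Ideal.span {h}) (a (eqv N q s (Sum.inl b)))
        (lf K c ^ (N * e) * qa b)
      have h5 : cls (J ⊔ Ideal.span {h}) c (lf K c ^ (N * e) * qa b) =
          cls (J ⊔ Ideal.span {h}) c (qa b) := by
        rw [cls, map_mul, map_pow]
        have h6 := cls_lf (c := c) (J ⊔ Ideal.span {h})
        rw [cls] at h6
        rw [h6, one_pow, one_mul]
      rw [h5] at h4
      exact h4.symm
    have h2 := (Fintype.linearIndependent_iff.1 D.qa_ind) _ h1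
    have h3 : h * ∑ κ, C (a (eqv N q s (Sum.inr κ))) * gfam h e qa pc N c κ ∈ J := by
      have h4 : ∑ b, C (a (eqv N q s (Sum.inl b))) * (lf K c ^ (N * e) * qa b) = 0 := by
        refine Finset.sum_eq_zero fun b _ => ?_
        rw [h2 b, C_0, zero_mul]
      rwa [h4, zero_add] at ha
    have h4 := ih _ ((D.prime.mem_or_mem h3).resolve_left D.h_not)
    funext κ
    obtain ⟨κ', rfl⟩ := (eqv N q s).surjective κ
    rcases κ' with (b | κ')
    · exact h2 b
    · exact congrFun h4 κ'

private theorem lf_hom (c : Fin (ν + 1) → k) : (lf K c).IsHomogeneous 1 := by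
  refine IsHomogeneous.sum _ _ _ fun i _ => ?_
  simpa using (isHomogeneous_C (Fin (ν + 1)) (algebraMap k K (c i))).mul (isHomogeneous_X K i)

/-- A form in `J + (h)` is a multiple of `h` by a form, modulo `J`. -/
private theorem exists_mul (hJ : Hom J) (hh : h.IsHomogeneous e) {m : ℕ}
    {G : MvPolynomial (Fin (ν + 1)) K} (hG : G.IsHomogeneous (m + e))
    (hGI : G ∈ J ⊔ Ideal.span {h}) : ∃ w : MvPolynomial (Fin (ν + 1)) K,
      w.IsHomogeneous m ∧ G - h * w ∈ J := by
  obtain ⟨g₁, hg₁, g₂, hg₂, rfl⟩ := Submodule.mem_sup.1 hGI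
  obtain ⟨w, rfl⟩ := Ideal.mem_span_singleton'.1 hg₂
  refine ⟨homogeneousComponent m w, homogeneousComponent_isHomogeneous m w, ?_⟩
  have h1 : homogeneousComponent (m + e) (g₁ + w * h) = g₁ + w * h := by
    rw [homogeneousComponent_of_mem (show g₁ + w * h ∈ homogeneousSubmodule _ K (m + e) from hG),
      if_pos rfl]
  rw [map_add, Pool.Agent.Helper36.homogeneousComponent_mul_of_homogeneous hh] at h1
  have h2 : g₁ + w * h - h * homogeneousComponent m w = homogeneousComponent (m + e) g₁ := by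
    rw [← h1]; ring
  rw [h2]
  exact hJ _ hg₁ _

private theorem gfam_step (D : Data J h e c m₂ q s qa pc) (N : ℕ)
    (B : Module.Basis (Fin q) K (Qo (J ⊔ Ideal.span {h}) c))
    (hB : ∀ a, B a = cls (J ⊔ Ideal.span {h}) c (qa a))
    {G : MvPolynomial (Fin (ν + 1)) K} (hG : G.IsHomogeneous (m₂ + N * e)) :
    ∃ w : MvPolynomial (Fin (ν + 1)) K, w.IsHomogeneous (m₂ - e + N * e) ∧
      G - (∑ b, C (B.repr (cls (J ⊔ Ideal.span {h}) c G) b) * (lf K c ^ (N * e) * qa b) +
        h * w) ∈ J := by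
  set G' := G - ∑ b, C (B.repr (cls (J ⊔ Ideal.span {h}) c G) b) *
    (lf K c ^ (N * e) * qa b) with hG'
  have h1 : G'.IsHomogeneous (m₂ + N * e) := by
    refine hG.sub (IsHomogeneous.sum _ _ _ fun b _ => ?_)
    have h2 := (isHomogeneous_C (Fin (ν + 1)) (B.repr (cls (J ⊔ Ideal.span {h}) c G) b)).mul
      (((lf_hom (K := K) c).pow (N * e)).mul (D.qa_hom b))
    rwa [show 0 + (1 * (N * e) + m₂) = m₂ + N * e by ring] at h2
  have h2 : cls (J ⊔ Ideal.span {h}) c G' = 0 := by
    have h3 : cls (J ⊔ Ideal.span {h}) c G' = cls (J ⊔ Ideal.span {h}) c G - ∑ b, cls (J ⊔ Ideal.span {h}) c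
        (C (B.repr (cls (J ⊔ Ideal.span {h}) c G) b) * (lf K c ^ (N * e) * qa b)) := by
      rw [hG', cls, map_sub, map_sum]
    have h4 : ∀ b, cls (J ⊔ Ideal.span {h}) c (C (B.repr (cls (J ⊔ Ideal.span {h}) c G) b) * (lf K c ^ (N * e) * qa b)) =
        B.repr (cls (J ⊔ Ideal.span {h}) c G) b • B b := by
      intro b
      rw [cls_C_mul, hB b]
      congr 1
      rw [cls, map_mul, map_pow]
      have h6 := cls_lf (c := c) (J ⊔ Ideal.span {h})
      rw [cls] at h6
      rw [h6, one_pow, one_mul]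
    rw [h3, Finset.sum_congr rfl fun b _ => h4 b, B.sum_repr, sub_self]
  have h3 := D.qa_gen (m₂ + N * e) (Nat.le_add_right _ _) G' h1 h2
  have h4 : m₂ + N * e = m₂ - e + N * e + e := by
    have := D.e_le
    omega
  rw [h4] at h1
  obtain ⟨w, hw, hw'⟩ := exists_mul D.hom D.h_hom h1 h3
  refine ⟨w, hw, ?_⟩
  rwa [hG', sub_sub] at hw'

private theorem gfam_span (D : Data J h e c m₂ q s qa pc) (N : ℕ)
    {G : MvPolynomial (Fin (ν + 1)) K} (hG : G.IsHomogeneous (m₂ - e + N * e)) :
    ∃ a : (Fin N × Fin q) ⊕ Fin s → K, G - ∑ κ, C (a κ) * gfam h e qa pc N c κ ∈ J := by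
  induction N generalizing G with
  | zero =>
    rw [zero_mul, add_zero] at hG
    obtain ⟨a, ha⟩ := D.pc_span G hG
    refine ⟨Sum.elim (fun _ => 0) a, ?_⟩
    rw [Fintype.sum_sum_type]
    simpa [gfam] using ha
  | succ N ih =>
    have h1 : m₂ - e + (N + 1) * e = m₂ + N * e := by
      have := D.e_le
      have h2 : (N + 1) * e = N * e + e := by ring
      omega
    rw [h1] at hG
    obtain ⟨w, hw, hw'⟩ := gfam_step D N (Module.Basis.mk D.qa_ind D.qa_span)
      (fun a => by rw [Module.Basis.mk_apply]) hG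
    obtain ⟨a, ha⟩ := ih hw
    set β := (Module.Basis.mk D.qa_ind D.qa_span).repr (cls (J ⊔ Ideal.span {h}) c G) with hβ
    refine ⟨fun κ => Sum.elim (fun b => β b) a ((eqv N q s).symm κ), ?_⟩
    rw [sum_succ]
    simp only [Equiv.symm_apply_apply, Sum.elim_inl, Sum.elim_inr]
    have h2 : G - (∑ b, C (β b) * (lf K c ^ (N * e) * qa b) +
        h * ∑ κ, C (a κ) * gfam h e qa pc N c κ) =
        (G - (∑ b, C (β b) * (lf K c ^ (N * e) * qa b) + h * w)) +
          h * (w - ∑ κ, C (a κ) * gfam h e qa pc N c κ) := by ring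
    rw [h2]
    exact J.add_mem hw' (J.mul_mem_left _ ha)

private theorem gfam_change (D : Data J h e c m₂ q s qa pc) (N : ℕ) (c' : Fin (ν + 1) → k) :
    ∃ T : Matrix ((Fin N × Fin q) ⊕ Fin s) ((Fin N × Fin q) ⊕ Fin s) K,
      (∀ κ, gfam h e qa pc N c' κ - ∑ κ', C (T κ κ') * gfam h e qa pc N c κ' ∈ J) ∧
      T.det = (Algebra.norm K (cls (J ⊔ Ideal.span {h}) c (lf K c'))) ^
        (e * (N * (N - 1) / 2)) := by
  classical
  induction N with
  | zero =>
    refine ⟨1, fun κ => ?_, ?_⟩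
    · rcases κ with (⟨j, b⟩ | i)
      · exact j.elim0
      · have h1 : ∑ κ', C ((1 : Matrix ((Fin 0 × Fin q) ⊕ Fin s) ((Fin 0 × Fin q) ⊕ Fin s) K)
            (Sum.inr i) κ') * gfam h e qa pc 0 c κ' = gfam h e qa pc 0 c (Sum.inr i) := by
          rw [Finset.sum_eq_single (Sum.inr i)]
          · rw [Matrix.one_apply_eq, C_1, one_mul]
          · intro κ' _ hκ'
            rw [Matrix.one_apply_ne (Ne.symm hκ'), C_0, zero_mul]
          · intro h1
            exact absurd (Finset.mem_univ _) h1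
        rw [h1]
        simp [gfam]
    · simp
  | succ N ih =>
    obtain ⟨T, hT1, hT2⟩ := ih
    set I : Ideal (MvPolynomial (Fin (ν + 1)) K) := J ⊔ Ideal.span {h} with hI
    set B := Module.Basis.mk D.qa_ind D.qa_span with hB
    have hBa : ∀ a, B a = cls I c (qa a) := fun a => by rw [hB, Module.Basis.mk_apply]
    have hdeg : ∀ a, (lf K c' ^ (N * e) * qa a).IsHomogeneous (m₂ + N * e) := by
      intro a
      have h2 := ((lf_hom (K := K) c').pow (N * e)).mul (D.qa_hom a)
      rwa [show 1 * (N * e) + m₂ = m₂ + N * e by ring] at h2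
    choose w hw1 hw2 using fun a => gfam_step D N B hBa (hdeg a)
    choose b hb using fun a => gfam_span D N (hw1 a)
    set M : Matrix (Fin q) (Fin q) K :=
      (Algebra.leftMulMatrix B (cls I c (lf K c') ^ (N * e))).transpose with hM
    have hMr : ∀ a a', B.repr (cls I c (lf K c' ^ (N * e) * qa a)) a' = M a a' := by
      intro a a'
      rw [hM, Matrix.transpose_apply, Algebra.leftMulMatrix_eq_repr_mul, hBa, cls, map_mul,
        map_pow]
    set T' := Matrix.fromBlocks M (Matrix.of b) 0 T with hT'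
    refine ⟨Matrix.reindex (eqv N q s) (eqv N q s) T', fun κ => ?_, ?_⟩
    · obtain ⟨κ₀, rfl⟩ := (eqv N q s).surjective κ
      rw [sum_succ]
      simp only [Matrix.reindex_apply, Matrix.submatrix_apply, Equiv.symm_apply_apply]
      rcases κ₀ with (a | κ₁)
      · rw [gfam_zero]
        simp only [hT', Matrix.fromBlocks_apply₁₁, Matrix.fromBlocks_apply₁₂, Matrix.of_apply]
        have h1 := hw2 a
        have h2 : lf K c' ^ (N * e) * qa a -
            (∑ x, C (M a x) * (lf K c ^ (N * e) * qa x) +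
              h * ∑ x, C (b a x) * gfam h e qa pc N c x) =
            (lf K c' ^ (N * e) * qa a - (∑ x, C (B.repr (cls I c (lf K c' ^ (N * e) * qa a)) x) *
              (lf K c ^ (N * e) * qa x) + h * w a)) +
            h * (w a - ∑ x, C (b a x) * gfam h e qa pc N c x) := by
          simp only [hMr]
          ring
        rw [h2]
        exact J.add_mem h1 (J.mul_mem_left _ (hb a))
      · rw [gfam_succ]
        simp only [hT', Matrix.fromBlocks_apply₂₁, Matrix.fromBlocks_apply₂₂, Matrix.zero_apply,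
          C_0, zero_mul, Finset.sum_const_zero, zero_add]
        rw [← mul_sub]
        exact J.mul_mem_left _ (hT1 κ₁)
    · rw [Matrix.det_reindex_self, hT', Matrix.det_fromBlocks_zero₂₁, hT2, hM,
        Matrix.det_transpose, ← Algebra.norm_eq_matrix_det, map_pow, ← pow_add]
      congr 1
      rw [Nat.add_sub_cancel]
      have h2 : (N + 1) * N / 2 = N * (N - 1) / 2 + N := by
        rcases N with _ | N
        · simp
        · have h3 : (N + 1 + 1) * (N + 1) = (N + 1) * (N + 1 - 1) + (N + 1) * 2 := by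
            rw [Nat.add_sub_cancel]; ring
          rw [h3, Nat.add_mul_div_right _ _ (by norm_num)]
      rw [h2]
      ring

end

/-- The family is linearly independent modulo `J`. -/
theorem Det_ind {J : Ideal (MvPolynomial (Fin (ν + 1)) K)} {h : MvPolynomial (Fin (ν + 1)) K}
    {e : ℕ} {c : Fin (ν + 1) → k} {m₂ q s : ℕ} {qa : Fin q → MvPolynomial (Fin (ν + 1)) K}
    {pc : Fin s → MvPolynomial (Fin (ν + 1)) K} (D : Data J h e c m₂ q s qa pc) (n : ℕ)
    (a : (Fin (n + 1) × Fin q) ⊕ Fin s → K)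
    (ha : ∑ κ, C (a κ) * fam h e qa pc n c κ ∈ J) : a = 0 := by
  have h1 : fam h e qa pc n c = gfam h e qa pc (n + 1) c := by
    funext κ
    rcases κ with (⟨j, b⟩ | i) <;> rfl
  rw [h1] at ha
  exact gfam_ind D (n + 1) a ha

/-- The family for another linear form `l'` is obtained from the family for `l` by a matrix over
`K` (modulo `J`) with determinant `N(l')^(e n (n+1) / 2)`. -/
theorem Det_change {J : Ideal (MvPolynomial (Fin (ν + 1)) K)} {h : MvPolynomial (Fin (ν + 1)) K}
    {e : ℕ} {c : Fin (ν + 1) → k} {m₂ q s : ℕ} {qa : Fin q → MvPolynomial (Fin (ν + 1)) K}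
    {pc : Fin s → MvPolynomial (Fin (ν + 1)) K} (D : Data J h e c m₂ q s qa pc) (n : ℕ)
    (c' : Fin (ν + 1) → k) :
    ∃ T : Matrix ((Fin (n + 1) × Fin q) ⊕ Fin s) ((Fin (n + 1) × Fin q) ⊕ Fin s) K,
      (∀ κ, fam h e qa pc n c' κ - ∑ κ', C (T κ κ') * fam h e qa pc n c κ' ∈ J) ∧
      T.det = (Algebra.norm K (cls (J ⊔ Ideal.span {h}) c (lf K c'))) ^ (e * (n * (n + 1) / 2)) := by
  have h1 : ∀ c : Fin (ν + 1) → k, fam h e qa pc n c = gfam h e qa pc (n + 1) c := by
    intro c
    funext κ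
    rcases κ with (⟨j, b⟩ | i) <;> rfl
  obtain ⟨T, hT1, hT2⟩ := gfam_change D (n + 1) c'
  refine ⟨T, fun κ => ?_, ?_⟩
  · rw [h1, h1]
    exact hT1 κ
  · rw [hT2, Nat.add_sub_cancel, mul_comm (n + 1) n]

end Pool.Agent.Helper30.ZB

end

section

/-!
# Evaluation at small points over a large finite extension
-/

set_option autoImplicit false

namespace Pool.Agent.Helper30.ZB

open MvPolynomial

variable {ν : ℕ} {k K : Type} [Field k] [Field K] [Algebra k K]

/-- Every form outside `J` is not zero at some point of `S`. -/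
def Dense (J : Ideal (MvPolynomial (Fin (ν + 1)) K)) (S : Set (FPt ν k K)) : Prop :=
  ∀ (g : MvPolynomial (Fin (ν + 1)) K) (m : ℕ), g.IsHomogeneous m → g ∉ J →
    ∃ P ∈ S, aeval P.y g ≠ 0

/-- If no nonzero linear form vanishes on a set of vectors then some square matrix of these
vectors is invertible. -/
theorem Small_det {Ω κ : Type} {ι : Type*} [Field Ω] [Fintype κ] [DecidableEq κ] (E : ι → κ → Ω)
    (h : ∀ a : κ → Ω, (∀ i, ∑ x, a x * E i x = 0) → a = 0) :
    ∃ f : κ → ι, (Matrix.of fun x x' => E (f x) x').det ≠ 0 := by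
  classical
  have hspan : Submodule.span Ω (Set.range E) = ⊤ := by
    by_contra hne
    obtain ⟨φ, hφ, hφ'⟩ := Submodule.exists_le_ker_of_lt_top _ (lt_top_iff_ne_top.2 hne)
    apply hφ
    have h1 : (fun x => φ (Pi.single x 1)) = 0 := by
      refine h _ fun i => ?_
      have h2 : φ (E i) = 0 :=
        hφ' (Submodule.subset_span ⟨i, rfl⟩)
      rw [← h2]
      conv_rhs => rw [pi_eq_sum_univ' (E i), map_sum]
      refine Finset.sum_congr rfl fun x _ => ?_
      rw [map_smul, smul_eq_mul, mul_comm]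
    refine LinearMap.pi_ext' fun x => LinearMap.ext_ring ?_
    have h3 := congrFun h1 x
    simpa using h3
  obtain ⟨κ', a, -, ha, hind⟩ := exists_linearIndependent' Ω E
  have hspan' : ⊤ ≤ Submodule.span Ω (Set.range (E ∘ a)) := by
    rw [ha, hspan]
  let B := Module.Basis.mk hind hspan'
  have hfin : Finite κ' := hind.finite
  have := Fintype.ofFinite κ'
  have hcard : Fintype.card κ = Fintype.card κ' := by
    rw [← Module.finrank_eq_card_basis B, Module.finrank_fintype_fun_eq_card]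
  let e : κ ≃ κ' := Fintype.equivOfCardEq hcard
  refine ⟨a ∘ e, ?_⟩
  have h4 : LinearIndependent Ω (Matrix.of fun x x' => E ((a ∘ e) x) x').row :=
    hind.comp e e.injective
  rw [Matrix.linearIndependent_rows_iff_isUnit, Matrix.isUnit_iff_isUnit_det] at h4
  exact h4.ne_zero

/-- A nonzero vector over `Ω` in a space stable under the automorphisms gives a nonzero vector
over `K`. -/
theorem Small_descent {K Ω κ : Type} [Field K] [Field Ω] [Algebra K Ω] [IsGalois K Ω] [Fintype κ]
    (U : Set (κ → Ω)) (hsub : ∀ a ∈ U, ∀ b ∈ U, a - b ∈ U) (hsmul : ∀ (c : Ω), ∀ a ∈ U, c • a ∈ U)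
    (hgal : ∀ g : Ω ≃ₐ[K] Ω, ∀ a ∈ U, (fun x => g (a x)) ∈ U)
    (hne : ∃ a ∈ U, a ≠ 0) :
    ∃ α : κ → K, α ≠ 0 ∧ (fun x => algebraMap K Ω (α x)) ∈ U := by
  classical
  have hP : ∃ n : ℕ, ∃ a ∈ U, a ≠ 0 ∧ (Finset.univ.filter fun x => a x ≠ 0).card = n := by
    obtain ⟨a, ha, ha0⟩ := hne
    exact ⟨_, a, ha, ha0, rfl⟩
  obtain ⟨a, ha, ha0, hcard⟩ := Nat.find_spec hP
  obtain ⟨x₀, hx₀⟩ : ∃ x, a x ≠ 0 := by
    by_contra hc
    push Not at hc
    exact ha0 (funext hc)
  set b : κ → Ω := (a x₀)⁻¹ • a with hb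
  have hbU : b ∈ U := hsmul _ _ ha
  have hb1 : b x₀ = 1 := by
    rw [hb, Pi.smul_apply, smul_eq_mul, inv_mul_cancel₀ hx₀]
  have hba : ∀ x, a x = 0 → b x = 0 := by
    intro x hx
    rw [hb, Pi.smul_apply, smul_eq_mul, hx, mul_zero]
  have hfix : ∀ (g : Ω ≃ₐ[K] Ω) (x : κ), g (b x) = b x := by
    intro g
    by_contra hc
    push Not at hc
    obtain ⟨x₁, hx₁⟩ := hc
    have h1 : ((fun x => g (b x)) - b) ∈ U := hsub _ (hgal g b hbU) _ hbU
    have h2 : ((fun x => g (b x)) - b) ≠ 0 := by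
      intro h3
      have h4 := congrFun h3 x₁
      rw [Pi.sub_apply, Pi.zero_apply, sub_eq_zero] at h4
      exact hx₁ h4
    have h3 : (Finset.univ.filter fun x => ((fun x => g (b x)) - b) x ≠ 0).card < Nat.find hP := by
      rw [← hcard]
      refine Finset.card_lt_card ⟨?_, ?_⟩
      · intro x hx
        rw [Finset.mem_filter] at hx ⊢
        refine ⟨hx.1, fun h5 => hx.2 ?_⟩
        rw [Pi.sub_apply, hba x h5, map_zero, sub_zero]
      · intro hs
        have h5 := hs (Finset.mem_filter.2 ⟨Finset.mem_univ x₀, hx₀⟩)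
        rw [Finset.mem_filter] at h5
        apply h5.2
        rw [Pi.sub_apply, hb1, map_one, sub_self]
    exact Nat.find_min hP h3 ⟨_, h1, h2, rfl⟩
  have hK : ∀ x, ∃ α : K, algebraMap K Ω α = b x := fun x =>
    (InfiniteGalois.mem_range_algebraMap_iff_fixed (b x)).2 fun g => hfix g x
  choose α hα using hK
  refine ⟨α, ?_, ?_⟩
  · intro h0
    have h1 := hα x₀
    rw [h0, hb1, Pi.zero_apply, map_zero] at h1
    exact zero_ne_one h1
  · have h1 : (fun x => algebraMap K Ω (α x)) = b := funext hα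
    rw [h1]
    exact hbU

theorem Small_fam_hom {J : Ideal (MvPolynomial (Fin (ν + 1)) K)}
    {h : MvPolynomial (Fin (ν + 1)) K} {e : ℕ}
    {c : Fin (ν + 1) → k} {m₂ q s : ℕ} {qa : Fin q → MvPolynomial (Fin (ν + 1)) K}
    {pc : Fin s → MvPolynomial (Fin (ν + 1)) K} (D : Data J h e c m₂ q s qa pc) (n : ℕ)
    (c' : Fin (ν + 1) → k) (κ : (Fin (n + 1) × Fin q) ⊕ Fin s) :
    (fam h e qa pc n c' κ).IsHomogeneous (m₂ + n * e) := by
  have hlf : (lf K c').IsHomogeneous 1 := by
    unfold lf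
    refine IsHomogeneous.sum _ _ _ fun i _ => ?_
    have h1 := (isHomogeneous_C (Fin (ν + 1)) (algebraMap k K (c' i))).mul (isHomogeneous_X K i)
    rwa [zero_add] at h1
  rcases κ with ⟨j, a⟩ | i
  · have h1 := ((D.h_hom.pow (j : ℕ)).mul (hlf.pow ((n - j) * e))).mul (D.qa_hom a)
    have h3 : ∀ j' n' : ℕ, j' ≤ n' → e * j' + 1 * ((n' - j') * e) + m₂ = m₂ + n' * e := by
      intro j' n' hj
      obtain ⟨r, rfl⟩ := Nat.exists_eq_add_of_le hj
      rw [Nat.add_sub_cancel_left]
      ring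
    have h2 : e * (j : ℕ) + 1 * ((n - j) * e) + m₂ = m₂ + n * e :=
      h3 j n (Nat.lt_succ_iff.1 j.2)
    rw [h2] at h1
    exact h1
  · have h1 := (D.h_hom.pow (n + 1)).mul (D.pc_hom i)
    have h2 : e * (n + 1) + (m₂ - e) = m₂ + n * e := by
      have h3 := D.e_le
      have h4 : e * (n + 1) = n * e + e := by ring
      omega
    rw [h2] at h1
    exact h1

theorem Small_mem {A Ω : Type} [CommRing A] [Algebra K A] [FiniteDimensional K A] [Field Ω]
    [Algebra K Ω] (φ : A →ₐ[K] Ω) (M : IntermediateField K Ω)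
    (h : ∀ j, φ (Module.finBasis K A j) ∈ M) (a : A) : φ a ∈ M := by
  rw [← (Module.finBasis K A).sum_repr a, map_sum]
  refine sum_mem fun j _ => ?_
  rw [map_smul, Algebra.smul_def]
  exact M.mul_mem (M.algebraMap_mem _) (h j)

/-- There are a finite extension `M` of `K` which contains all the zeros of `J = h = 0` and points
`P κ` over `M`, conjugates of points of `S`, with a nonzero evaluation determinant. -/
theorem Small_exists [CharZero K] {J : Ideal (MvPolynomial (Fin (ν + 1)) K)}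
    {h : MvPolynomial (Fin (ν + 1)) K} {e : ℕ} {c : Fin (ν + 1) → k} {m₂ q s : ℕ}
    {qa : Fin q → MvPolynomial (Fin (ν + 1)) K} {pc : Fin s → MvPolynomial (Fin (ν + 1)) K}
    (D : Data J h e c m₂ q s qa pc) (hfin : FiniteDimensional K (Qo (J ⊔ Ideal.span {h}) c))
    {S : Set (FPt ν k K)} (hS : Dense J S) (n : ℕ) :
    ∃ (M : Type) (_ : Field M) (_ : Algebra k M) (_ : Algebra K M) (_ : IsScalarTower k K M)
      (_ : FiniteDimensional K M) (t : ℕ)
      (χ : Fin t → (Qo (J ⊔ Ideal.span {h}) c →ₐ[K] M))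
      (P : (Fin (n + 1) × Fin q) ⊕ Fin s → Fin (ν + 1) → M),
      (∀ a, algebraMap K M (Algebra.norm K a) = ∏ i, χ i a) ∧
      (∀ ψ : Qo (J ⊔ Ideal.span {h}) c →ₐ[K] M, ∃ i, χ i = ψ) ∧
      (∀ κ, ∃ S₁ ∈ S, ∃ σ : S₁.L →ₐ[K] M, P κ = fun i => σ (S₁.y i)) ∧
      (Matrix.of fun κ κ' => aeval (P κ) (fam h e qa pc n c κ')).det ≠ 0 := by
  classical
  let Ω := AlgebraicClosure K
  have : IsGalois K Ω := {}
  obtain ⟨t, χ, hχ1, hχ2⟩ := norm_eq_prod (K := K) (A := Qo (J ⊔ Ideal.span {h}) c) (Ω := Ω)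
  -- the values at the points of `S`
  let ι := Σ S₁ : S, (S₁.1.L →ₐ[K] Ω)
  let E : ι → ((Fin (n + 1) × Fin q) ⊕ Fin s) → Ω := fun i κ' =>
    i.2 (aeval i.1.1.y (fam h e qa pc n c κ'))
  have key : ∀ a : ((Fin (n + 1) × Fin q) ⊕ Fin s) → Ω, (∀ i, ∑ x, a x * E i x = 0) →
      a = 0 := by
    by_contra hc
    push Not at hc
    obtain ⟨α, hα0, hα⟩ := Small_descent (K := K) (Ω := Ω)
      {a : ((Fin (n + 1) × Fin q) ⊕ Fin s) → Ω | ∀ i, ∑ x, a x * E i x = 0}
      (by
        intro a ha b hb i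
        simp only [Pi.sub_apply, sub_mul, Finset.sum_sub_distrib]
        rw [ha i, hb i, sub_zero])
      (by
        intro r a ha i
        simp only [Pi.smul_apply, smul_eq_mul, mul_assoc]
        rw [← Finset.mul_sum, ha i, mul_zero])
      (by
        intro g a ha i
        have h1 := ha ⟨i.1, (g.symm : Ω →ₐ[K] Ω).comp i.2⟩
        have h2 := congrArg g h1
        rw [map_sum, map_zero] at h2
        rw [← h2]
        refine Finset.sum_congr rfl fun x _ => ?_
        rw [map_mul]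
        congr 1
        show i.2 _ = g (g.symm (i.2 _))
        rw [AlgEquiv.apply_symm_apply])
      (by
        obtain ⟨a, ha, ha0⟩ := hc
        exact ⟨a, ha, ha0⟩)
    apply hα0
    apply Det_ind D n
    by_contra hG
    obtain ⟨S₁, hS₁, hne⟩ := hS (∑ κ, C (α κ) * fam h e qa pc n c κ) (m₂ + n * e) (by
      refine IsHomogeneous.sum _ _ _ fun κ _ => ?_
      have h1 := (isHomogeneous_C (Fin (ν + 1)) (α κ)).mul (Small_fam_hom D n c κ)
      rwa [zero_add] at h1) hG
    have σ : S₁.L →ₐ[K] Ω := IsAlgClosed.lift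
    apply hne
    have h1 := hα ⟨⟨S₁, hS₁⟩, σ⟩
    have h2 : σ (aeval S₁.y (∑ κ, C (α κ) * fam h e qa pc n c κ)) = 0 := by
      rw [← h1, map_sum, map_sum]
      refine Finset.sum_congr rfl fun x _ => ?_
      rw [map_mul, map_mul, aeval_C, AlgHom.commutes]
    exact (map_eq_zero_iff σ σ.toRingHom.injective).1 h2
  obtain ⟨f, hf⟩ := Small_det E key
  -- the field
  let T₁ : Set Ω := ⋃ κ : ((Fin (n + 1) × Fin q) ⊕ Fin s),
    Set.range fun j => (f κ).2 (Module.finBasis K (f κ).1.1.L j)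
  let T₂ : Set Ω := ⋃ i : Fin t,
    Set.range fun j => χ i (Module.finBasis K (Qo (J ⊔ Ideal.span {h}) c) j)
  have hTfin : (T₁ ∪ T₂).Finite :=
    (Set.finite_iUnion fun κ => Set.finite_range _).union
      (Set.finite_iUnion fun i => Set.finite_range _)
  have : Finite (T₁ ∪ T₂ : Set Ω) := hTfin
  let M : IntermediateField K Ω := IntermediateField.adjoin K (T₁ ∪ T₂)
  have hMfin : FiniteDimensional K M :=
    IntermediateField.finiteDimensional_adjoin fun x _ => Algebra.IsIntegral.isIntegral x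
  have hM1 : ∀ κ (x : (f κ).1.1.L), (f κ).2 x ∈ M := fun κ x =>
    Small_mem (f κ).2 M (fun j => IntermediateField.subset_adjoin K _
      (Or.inl (Set.mem_iUnion.2 ⟨κ, ⟨j, rfl⟩⟩))) x
  have hM2 : ∀ i (x : Qo (J ⊔ Ideal.span {h}) c), χ i x ∈ M := fun i x =>
    Small_mem (χ i) M (fun j => IntermediateField.subset_adjoin K _
      (Or.inr (Set.mem_iUnion.2 ⟨i, ⟨j, rfl⟩⟩))) x
  let _ : Algebra k M := ((algebraMap K M).comp (algebraMap k K)).toAlgebra
  have htow : IsScalarTower k K M := IsScalarTower.of_algebraMap_eq fun x => rfl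
  let σ : ∀ κ, (f κ).1.1.L →ₐ[K] M := fun κ => (f κ).2.codRestrict M.toSubalgebra (hM1 κ)
  have hσ : ∀ κ x, ((σ κ x : M) : Ω) = (f κ).2 x := fun κ x => rfl
  let χ' : Fin t → (Qo (J ⊔ Ideal.span {h}) c →ₐ[K] M) := fun i =>
    (χ i).codRestrict M.toSubalgebra (hM2 i)
  have hχ' : ∀ i x, ((χ' i x : M) : Ω) = χ i x := fun i x => rfl
  refine ⟨M, inferInstance, inferInstance, inferInstance, htow, hMfin, t, χ',
    fun κ i => σ κ ((f κ).1.1.y i), ?_, ?_, ?_, ?_⟩
  · intro a
    apply Subtype.ext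
    have h1 : ((∏ i, χ' i a : M) : Ω) = ∏ i, χ i a := by
      have h2 := map_prod M.val (fun i => χ' i a) Finset.univ
      exact h2
    rw [h1, ← hχ1 a]
    rfl
  · intro ψ
    obtain ⟨i, hi⟩ := hχ2 (M.val.comp ψ)
    refine ⟨i, AlgHom.ext fun a => Subtype.ext ?_⟩
    rw [hχ', hi]
    rfl
  · intro κ
    exact ⟨(f κ).1.1, (f κ).1.2, σ κ, rfl⟩
  · intro hdet
    apply hf
    have h1 := congrArg M.val hdet
    rw [AlgHom.map_det, map_zero] at h1
    rw [← h1]
    congr 1
    ext κ κ'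
    show (f κ).2 (aeval (f κ).1.1.y (fam h e qa pc n c κ')) =
      M.val (aeval (fun i => σ κ ((f κ).1.1.y i)) (fam h e qa pc n c κ'))
    rw [← MvPolynomial.comp_aeval_apply]
    rfl

end Pool.Agent.Helper30.ZB

end
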