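import Mathlib
import Pool.Agent.Helper72.TM2.T20
import Pool.Agent.Helper72.TM2.T37
import Pool.Agent.Helper72.TM2.T14
import Pool.Agent.Helper72.TM2.T04
import Pool.Agent.Helper72.TM2.T27

section

namespace Pool.Agent.Helper16
end Pool.Agent.Helper16

/-!
# Finite extensions of function fields of one variable
-/

set_option autoImplicit false

namespace Pool.Agent.Helper89.TC

open Pool.Agent.Helper16 (Place IsFunctionField)

/-- The number of poles of a transcendental function. -/
theorem Scale_finsum {k K : Type} [Field k] [Field K] [Algebra k K] [IsAlgClosed k]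
    (hK : IsFunctionField k K) (a : K) (ha : Transcendental k a) :
    (Function.support fun b : Place k K => max 0 (WithZero.log (b.val a))).Finite ∧
    ∑ᶠ b : Place k K, max 0 (WithZero.log (b.val a)) =
      (Module.finrank (IntermediateField.adjoin k {a}) K : ℤ) := by
  have ha0 : a ≠ 0 := by
    rintro rfl
    exact ha isAlgebraic_zero
  obtain ⟨S, h1, h2, -⟩ := hK.zeros a⁻¹ (Pool.Agent.Helper16.transcendental_inv ha)
  rw [Pool.Agent.Helper16.finrank_inv] at h2
  have hS : ∀ v : Place k K, v ∈ S ↔ 0 < WithZero.log (v.val a) := by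
    intro v
    rw [h1, ← v.ord_pos_iff (inv_ne_zero ha0), v.ord_inv]
    show 0 < - -WithZero.log (v.val a) ↔ _
    rw [neg_neg]
  have h3 : Function.support (fun b : Place k K => max 0 (WithZero.log (b.val a))) ⊆
      (S : Set (Place k K)) := by
    intro b hb
    rw [Finset.mem_coe, hS]
    by_contra h
    exact hb (max_eq_left (not_lt.1 h))
  refine ⟨S.finite_toSet.subset h3, ?_⟩
  rw [finsum_eq_sum_of_support_subset _ h3, ← h2]
  refine Finset.sum_congr rfl fun v hv => ?_
  have h4 : v.ord a⁻¹ = WithZero.log (v.val a) := by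
    rw [v.ord_inv]
    show - -WithZero.log (v.val a) = _
    rw [neg_neg]
  rw [h4, max_eq_right ((hS v).1 hv).le, Pool.Agent.Helper30.TP.deg_eq_one hK v]
  simp

/-- Algebraic elements have no poles. -/
theorem Scale_alg {k K : Type} [Field k] [Field K] [Algebra k K]
    (a : K) (ha : IsAlgebraic k a) (b : Place k K) :
    max 0 (WithZero.log (b.val a)) = 0 := by
  by_cases ha0 : a = 0
  · subst ha0
    simp
  · rw [b.val_eq_one_of_algebraic ha ha0]
    simp

variable {k K : Type} [Field k] [Field K] [Algebra k K] (L : Type) [Field L] [Algebra k L]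
  [Algebra K L] [IsScalarTower k K L] [FiniteDimensional K L]

omit [FiniteDimensional K L] in
theorem Scale_finrank (a : K) :
    Module.finrank (IntermediateField.adjoin k {algebraMap K L a}) L =
      Module.finrank K L * Module.finrank (IntermediateField.adjoin k {a}) K := by
  let F := IntermediateField.adjoin k {a}
  have h1 : Module.finrank F K * Module.finrank K L = Module.finrank F L :=
    Module.finrank_mul_finrank F K L
  have h2 : F.map (IsScalarTower.toAlgHom k K L) =
      IntermediateField.adjoin k {algebraMap K L a} := by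
    rw [IntermediateField.adjoin_map, Set.image_singleton]
    rfl
  rw [← h2, mul_comm, h1]
  symm
  refine Algebra.finrank_eq_of_equiv_equiv
    (IntermediateField.equivMap F (IsScalarTower.toAlgHom k K L)).toRingEquiv
    (RingEquiv.refl L) ?_
  ext x
  rfl

theorem isFunctionField_of_finite (hK : IsFunctionField k K) : IsFunctionField k L := by
  exact Pool.Agent.Helper16.IsFunctionField.of_finite hK

/-- The number of poles, with multiplicities, is multiplied by the degree. -/
theorem finsum_pos_log [IsAlgClosed k] (hK : IsFunctionField k K) (a : K) :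
    (Function.support fun v : Place k L =>
      max 0 (WithZero.log (v.val (algebraMap K L a)))).Finite ∧
    ∑ᶠ v : Place k L, max 0 (WithZero.log (v.val (algebraMap K L a))) =
      (Module.finrank K L : ℤ) * ∑ᶠ b : Place k K, max 0 (WithZero.log (b.val a)) := by
  by_cases ha : IsAlgebraic k a
  · have h1 : IsAlgebraic k (algebraMap K L a) := ha.algebraMap
    have h2 : (fun v : Place k L => max 0 (WithZero.log (v.val (algebraMap K L a)))) =
        fun _ => 0 := funext fun v => Scale_alg _ h1 v
    have h3 : (fun v : Place k K => max 0 (WithZero.log (v.val a))) =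
        fun _ => 0 := funext fun v => Scale_alg _ ha v
    rw [h2, h3]
    simp
  · have h1 : Transcendental k (algebraMap K L a) := by
      intro h
      exact ha ((isAlgebraic_algebraMap_iff (algebraMap K L).injective).1 h)
    obtain ⟨h2, h3⟩ := Scale_finsum (isFunctionField_of_finite L hK) _ h1
    obtain ⟨-, h4⟩ := Scale_finsum hK a ha
    refine ⟨h2, ?_⟩
    rw [h3, h4, Scale_finrank]
    push_cast
    rfl

end Pool.Agent.Helper89.TC

end

section

namespace Pool.Agent.Helper16
end Pool.Agent.Helper16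
namespace Pool.Agent.Helper38.TQ
end Pool.Agent.Helper38.TQ
namespace Pool.Agent.Helper30.TKN
end Pool.Agent.Helper30.TKN

/-!
# Heights in finite extensions
-/

set_option autoImplicit false

namespace Pool.Agent.Helper30.ZB

open MvPolynomial

open Pool.Agent.Helper16 (Place IsFunctionField)

open Pool.Agent.Helper38.TQ

open Pool.Agent.Helper30.TKN

variable {ν : ℕ} {k K : Type} [Field k] [Field K] [Algebra k K]

theorem Scale_triv {M : Type} [Field M] [Algebra k M] (v : Place k M) (a : k) :
    v.val (algebraMap k M a) ≤ 1 := by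
  by_cases h : a = 0
  · rw [h, map_zero, map_zero]
    exact zero_le
  · exact (v.triv a h).le

/-- The constant linear forms which are small at the point `y`. -/
noncomputable def Scale_bad {M : Type} [Field M] [Algebra k M] (v : Place k M)
    (y : Fin (ν + 1) → M) (hy : y ≠ 0) : Submodule k (Fin (ν + 1) → k) where
  carrier := {c | v.val (∑ i, algebraMap k M (c i) * y i) < nrm v y}
  add_mem' := by
    intro a b ha hb
    have h : ∑ i, algebraMap k M ((a + b) i) * y i =
        ∑ i, algebraMap k M (a i) * y i + ∑ i, algebraMap k M (b i) * y i := by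
      rw [← Finset.sum_add_distrib]
      refine Finset.sum_congr rfl fun i _ => ?_
      rw [Pi.add_apply, map_add, add_mul]
    show v.val _ < _
    rw [h]
    exact (v.val.map_add _ _).trans_lt (max_lt ha hb)
  zero_mem' := by
    show v.val _ < _
    simp only [Pi.zero_apply, map_zero, zero_mul, Finset.sum_const_zero]
    exact zero_lt_iff.2 (nrm_ne_zero hy)
  smul_mem' := by
    intro a c hc
    have h : ∑ i, algebraMap k M ((a • c) i) * y i =
        algebraMap k M a * ∑ i, algebraMap k M (c i) * y i := by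
      rw [Finset.mul_sum]
      refine Finset.sum_congr rfl fun i _ => ?_
      rw [Pi.smul_apply, smul_eq_mul, map_mul, mul_assoc]
    show v.val _ < _
    rw [h, map_mul]
    exact (mul_le_of_le_one_left' (Scale_triv v a)).trans_lt hc

theorem Scale_bad_ne {M : Type} [Field M] [Algebra k M] (v : Place k M)
    (y : Fin (ν + 1) → M) (hy : y ≠ 0) : Scale_bad v y hy ≠ ⊤ := by
  classical
  intro h
  obtain ⟨i, hi⟩ := exists_val_eq_nrm v y
  have h1 : Pi.single i 1 ∈ Scale_bad v y hy := by
    rw [h]
    exact Submodule.mem_top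
  have h2 : v.val (∑ j, algebraMap k M ((Pi.single i 1 : Fin (ν + 1) → k) j) * y j) <
      nrm v y := h1
  rw [Finset.sum_eq_single i, Pi.single_eq_same, map_one, one_mul, hi] at h2
  · exact lt_irrefl _ h2
  · intro j _ hj
    rw [Pi.single_eq_of_ne hj, map_zero, zero_mul]
  · intro h3
    exact absurd (Finset.mem_univ i) h3

theorem Scale_lin_le {M : Type} [Field M] [Algebra k M] (v : Place k M)
    (y : Fin (ν + 1) → M) (c : Fin (ν + 1) → k) :
    v.val (∑ i, algebraMap k M (c i) * y i) ≤ nrm v y := by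
  refine v.val.map_sum_le fun i _ => ?_
  rw [map_mul]
  exact (mul_le_of_le_one_left' (Scale_triv v _)).trans (val_le_nrm v y i)

theorem Scale_eq {M : Type} [Field M] [Algebra k M] {v : Place k M}
    {y : Fin (ν + 1) → M} {hy : y ≠ 0} {c : Fin (ν + 1) → k} (hc : c ∉ Scale_bad v y hy) :
    v.val (∑ i, algebraMap k M (c i) * y i) = nrm v y :=
  le_antisymm (Scale_lin_le v y c) (not_lt.1 hc)

theorem Scale_avoid [Infinite k] {ι : Type} [Finite ι]
    (p : ι → Submodule k (Fin (ν + 1) → k)) (hp : ∀ j, p j ≠ ⊤) : ∃ c, ∀ j, c ∉ p j := by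
  by_contra h
  push Not at h
  obtain ⟨j, hj⟩ := Subspace.exists_eq_top_of_iUnion_eq_univ (p := p) (by
    ext c
    simpa using h c)
  exact hp j hj

/-- A constant linear form which does not become small at any of finitely many points. -/
theorem Scale_generic [IsAlgClosed k] {M : Type} [Field M] [Algebra k M] (v : Place k M)
    {ι : Type} [Finite ι] (y : ι → Fin (ν + 1) → M) (hy : ∀ j, y j ≠ 0) :
    ∃ c : Fin (ν + 1) → k, ∀ j, v.val (∑ i, algebraMap k M (c i) * y j i) = nrm v (y j) := by
  have : Infinite k := IsAlgClosed.instInfinite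
  obtain ⟨c, hc⟩ := Scale_avoid (fun j => Scale_bad v (y j) (hy j))
    fun j => Scale_bad_ne v (y j) (hy j)
  exact ⟨c, fun j => Scale_eq (hc j)⟩

/-- The height is the number of poles of a generic combination of the coordinates. -/
theorem Scale_log {M : Type} [Field M] [Algebra k M] {y : Fin (ν + 1) → M} (hy : y ≠ 0)
    {i₀ : Fin (ν + 1)} (h1 : y i₀ = 1) {c : Fin (ν + 1) → k} (v : Place k M)
    (hc : WithZero.log (nrm v y) ≠ 0 → c ∉ Scale_bad v y hy) :
    WithZero.log (nrm v y) =
      max 0 (WithZero.log (v.val (∑ i, algebraMap k M (c i) * y i))) := by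
  have h2 : (1 : WithZero (Multiplicative ℤ)) ≤ nrm v y := by
    have := val_le_nrm v y i₀
    rwa [h1, map_one] at this
  have h3 : 0 ≤ WithZero.log (nrm v y) := by
    rw [← WithZero.log_one, WithZero.log_le_log one_ne_zero (nrm_ne_zero hy)]
    exact h2
  by_cases h : WithZero.log (nrm v y) = 0
  · rw [h]
    symm
    refine max_eq_left ?_
    by_cases h4 : v.val (∑ i, algebraMap k M (c i) * y i) = 0
    · rw [h4, WithZero.log_zero]
    · rw [← h, WithZero.log_le_log h4 (nrm_ne_zero hy)]
      exact Scale_lin_le v y c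
  · rw [Scale_eq (hc h), max_eq_right h3]

/-- The height of a point in a finite extension, one coordinate equal to one. -/
theorem Scale_ht_one [IsAlgClosed k] {L M : Type} [Field L] [Algebra k L]
    (hL : IsFunctionField k L) [Field M] [Algebra k M] [Algebra L M] [IsScalarTower k L M]
    [FiniteDimensional L M] {y : Fin (ν + 1) → L} (hy : y ≠ 0)
    {i₀ : Fin (ν + 1)} (h1 : y i₀ = 1) :
    ht k (fun i => algebraMap L M (y i)) = Module.finrank L M * ht k y := by
  classical
  have : Infinite k := IsAlgClosed.instInfinite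
  have hM : IsFunctionField k M := Pool.Agent.Helper89.TC.isFunctionField_of_finite M hL
  have hy' : (fun i => algebraMap L M (y i)) ≠ 0 := by
    intro h
    have h2 := congrFun h i₀
    simp only [h1, map_one, Pi.zero_apply] at h2
    exact one_ne_zero h2
  have f1 := nrm_support hL y hy
  have f2 := nrm_support hM _ hy'
  have : Finite (Function.support fun b : Place k L => WithZero.log (nrm b y)) := f1
  have : Finite (Function.support fun b : Place k M =>
    WithZero.log (nrm b fun i => algebraMap L M (y i))) := f2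
  obtain ⟨c, hc⟩ := Scale_avoid
    (ι := (Function.support fun b : Place k L => WithZero.log (nrm b y)) ⊕
      (Function.support fun b : Place k M => WithZero.log (nrm b fun i => algebraMap L M (y i))))
    (fun j => Sum.rec (fun b => Scale_bad b.1 y hy) (fun b => Scale_bad b.1 _ hy') j)
    (by
      rintro (b | b)
      · exact Scale_bad_ne _ _ _
      · exact Scale_bad_ne _ _ _)
  have e1 : ∀ v : Place k L, WithZero.log (nrm v y) =
      max 0 (WithZero.log (v.val (∑ i, algebraMap k L (c i) * y i))) :=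
    fun v => Scale_log hy h1 v fun h => hc (Sum.inl ⟨v, h⟩)
  have e2 : ∀ v : Place k M, WithZero.log (nrm v fun i => algebraMap L M (y i)) =
      max 0 (WithZero.log (v.val (algebraMap L M (∑ i, algebraMap k L (c i) * y i)))) := by
    intro v
    have h2 : algebraMap L M (∑ i, algebraMap k L (c i) * y i) =
        ∑ i, algebraMap k M (c i) * algebraMap L M (y i) := by
      rw [map_sum]
      refine Finset.sum_congr rfl fun i _ => ?_
      rw [map_mul, ← IsScalarTower.algebraMap_apply]
    rw [h2]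
    exact Scale_log hy' (i₀ := i₀) (by simp only [h1, map_one]) v fun h => hc (Sum.inr ⟨v, h⟩)
  unfold ht
  rw [finsum_congr e1, finsum_congr e2]
  exact (Pool.Agent.Helper89.TC.finsum_pos_log M hL _).2

/-- The height of a point in a finite extension. -/
theorem Scale_ht [IsAlgClosed k] (hK : IsFunctionField k K) {L M : Type} [Field L] [Algebra k L]
    [Algebra K L] [IsScalarTower k K L] [FiniteDimensional K L] [Field M] [Algebra k M]
    [Algebra K M] [IsScalarTower k K M] [FiniteDimensional K M] (σ : L →ₐ[K] M)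
    {y : Fin (ν + 1) → L} (hy : y ≠ 0) :
    (Module.finrank K L : ℤ) * ht k (fun i => σ (y i)) = Module.finrank K M * ht k y := by
  classical
  have hL : IsFunctionField k L := Pool.Agent.Helper89.TC.isFunctionField_of_finite L hK
  have hM : IsFunctionField k M := Pool.Agent.Helper89.TC.isFunctionField_of_finite M hK
  obtain ⟨i₀, hi₀⟩ : ∃ i, y i ≠ 0 := by
    by_contra h
    push Not at h
    exact hy (funext h)
  let _ : Algebra L M := σ.toRingHom.toAlgebra
  have hσ : ∀ x, algebraMap L M x = σ x := fun x => rfl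
  have hKLM : IsScalarTower K L M := IsScalarTower.of_algebraMap_eq fun x => by
    rw [hσ, σ.commutes]
  have hkLM : IsScalarTower k L M := IsScalarTower.of_algebraMap_eq fun x => by
    rw [IsScalarTower.algebraMap_apply k K L, IsScalarTower.algebraMap_apply k K M, hσ,
      σ.commutes]
  have hfin : FiniteDimensional L M := Module.Finite.of_restrictScalars_finite K L M
  have hσy : (fun i => σ (y i)) ≠ 0 := by
    intro h
    apply hi₀
    exact (map_eq_zero_iff σ σ.toRingHom.injective).1 (congrFun h i₀)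
  have hz : (y i₀)⁻¹ • y ≠ 0 := smul_ne_zero (inv_ne_zero hi₀) hy
  have hz1 : ((y i₀)⁻¹ • y) i₀ = 1 := by
    rw [Pi.smul_apply, smul_eq_mul, inv_mul_cancel₀ hi₀]
  have h1 := Scale_ht_one (M := M) hL hz hz1
  rw [ht_smul hL (inv_ne_zero hi₀) hy] at h1
  have h2 : (fun i => algebraMap L M (((y i₀)⁻¹ • y) i)) =
      σ (y i₀)⁻¹ • fun i => σ (y i) := by
    funext i
    rw [hσ, Pi.smul_apply, Pi.smul_apply, smul_eq_mul, smul_eq_mul, map_mul]
  rw [h2, ht_smul hM (by
    rw [Ne, map_eq_zero_iff σ σ.toRingHom.injective]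
    exact inv_ne_zero hi₀) hσy] at h1
  rw [h1, ← mul_assoc, ← Nat.cast_mul, Module.finrank_mul_finrank]

/-- The coefficients of the polynomial `P` have height at most `C` (times the degree) over all
finite extensions. -/
def GsB (k : Type) {K : Type} [Field k] [Field K] [Algebra k K]
    (P : MvPolynomial (Fin (ν + 1)) K) (C : ℤ) : Prop :=
  ∀ (L : Type) [Field L] [Algebra k L] [Algebra K L] [IsScalarTower k K L]
    [FiniteDimensional K L],
    (Function.support fun v : Place k L =>
      max 0 (WithZero.log (gs v (map (algebraMap K L) P)))).Finite ∧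
    ∑ᶠ v : Place k L, max 0 (WithZero.log (gs v (map (algebraMap K L) P))) ≤
      C * (Module.finrank K L : ℤ)

theorem Scale_gs [IsAlgClosed k] (hK : IsFunctionField k K)
    (P : MvPolynomial (Fin (ν + 1)) K) : ∃ C : ℤ, 0 ≤ C ∧ GsB k P C := by
  classical
  refine ⟨∑ m ∈ P.support, ∑ᶠ b : Place k K, max 0 (WithZero.log (b.val (P.coeff m))),
    Finset.sum_nonneg fun m _ => finsum_nonneg fun b => le_max_left _ _, ?_⟩
  intro L _ _ _ _ _
  have hb : ∀ v : Place k L, max 0 (WithZero.log (gs v (map (algebraMap K L) P))) ≤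
      ∑ m ∈ P.support, max 0 (WithZero.log (v.val (algebraMap K L (P.coeff m)))) := by
    intro v
    have hnn : ∀ m ∈ P.support,
        0 ≤ max 0 (WithZero.log (v.val (algebraMap K L (P.coeff m)))) :=
      fun m _ => le_max_left _ _
    refine max_le (Finset.sum_nonneg hnn) ?_
    by_cases hP : map (algebraMap K L) P = 0
    · rw [hP, formHeight_zero, WithZero.log_zero]
      exact Finset.sum_nonneg hnn
    · obtain ⟨m, hm, h⟩ := formHeight_exists (b := v) hP
      rw [coeff_map] at hm h
      have hm' : m ∈ P.support := by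
        rw [mem_support_iff]
        intro h0
        exact hm (by rw [h0, map_zero])
      rw [h]
      exact (le_max_right _ _).trans (Finset.single_le_sum (f := fun m =>
        max 0 (WithZero.log (v.val (algebraMap K L (P.coeff m))))) hnn hm')
  have hfin : ∀ m ∈ P.support, (Function.support fun v : Place k L =>
      max 0 (WithZero.log (v.val (algebraMap K L (P.coeff m))))).Finite :=
    fun m _ => (Pool.Agent.Helper89.TC.finsum_pos_log L hK (P.coeff m)).1
  have hfin2 : (Function.support fun v : Place k L =>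
      ∑ m ∈ P.support, max 0 (WithZero.log (v.val (algebraMap K L (P.coeff m))))).Finite := by
    refine (Set.Finite.biUnion (Finset.finite_toSet P.support) fun m hm => hfin m hm).subset ?_
    intro v hv
    by_contra h
    apply hv
    refine Finset.sum_eq_zero fun m hm => ?_
    by_contra h2
    apply h
    simp only [Set.mem_iUnion]
    exact ⟨m, hm, h2⟩
  have hfin1 : (Function.support fun v : Place k L =>
      max 0 (WithZero.log (gs v (map (algebraMap K L) P)))).Finite := by
    refine hfin2.subset fun v hv => ?_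
    intro h
    apply hv
    exact le_antisymm ((hb v).trans h.le) (le_max_left _ _)
  refine ⟨hfin1, ?_⟩
  calc _ ≤ ∑ᶠ v : Place k L,
        ∑ m ∈ P.support, max 0 (WithZero.log (v.val (algebraMap K L (P.coeff m)))) :=
        finsum_le_finsum' hfin1 hfin2 hb
    _ = ∑ m ∈ P.support, ∑ᶠ v : Place k L,
          max 0 (WithZero.log (v.val (algebraMap K L (P.coeff m)))) :=
        finsum_sum_comm _ _ hfin
    _ = _ := by
        rw [Finset.sum_mul]
        refine Finset.sum_congr rfl fun m _ => ?_
        rw [(Pool.Agent.Helper89.TC.finsum_pos_log L hK (P.coeff m)).2, mul_comm]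

end Pool.Agent.Helper30.ZB

end

section

namespace Pool.Agent.Helper16
end Pool.Agent.Helper16
namespace Pool.Agent.Helper36
end Pool.Agent.Helper36
namespace Pool.Agent.Helper38.TQ
end Pool.Agent.Helper38.TQ
namespace Pool.Agent.Helper30.TKN
end Pool.Agent.Helper30.TKN
namespace Pool.Agent.Helper30.ZB
end Pool.Agent.Helper30.ZB

/-!
# Heights of periodic points in finite extensions
-/

set_option autoImplicit false

namespace Pool.Agent.Helper38.TNA

open MvPolynomial

open Pool.Agent.Helper16 (Place IsFunctionField)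

open Pool.Agent.Helper36 (step iter exists_nullstellensatz)

open Pool.Agent.Helper38.TQ

open Pool.Agent.Helper30.TKN

open Pool.Agent.Helper30.ZB

variable {ν : ℕ}

section

variable {K : Type} [Field K] [Algebra K ℂ]

omit [Algebra K ℂ] in
/-- The certificate at a point over an extension. -/
theorem Periodic_cert {d : ℕ} {F : Fin (ν + 1) → MvPolynomial (Fin (ν + 1)) K} {M : ℕ}
    {q : Fin (ν + 1) × Fin (ν + 1) → MvPolynomial (Fin (ν + 1)) K}
    (h : ∀ a, ∑ j, q (a, j) * F j = MvPolynomial.X a ^ (M + d)) {L : Type} [Field L] [Algebra K L]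
    (y : Fin (ν + 1) → L) (a : Fin (ν + 1)) :
    y a ^ (M + d) = ∑ j, eval y (map (algebraMap K L) (q (a, j))) * step F y j := by
  have h2 := congrArg (aeval y) (h a)
  rw [map_pow, aeval_X, map_sum] at h2
  rw [← h2]
  refine Finset.sum_congr rfl fun j _ => ?_
  rw [map_mul, eval_map, aeval_def, aeval_def]
  rfl

theorem step_ne_zeroL {d : ℕ} {F : Fin (ν + 1) → MvPolynomial (Fin (ν + 1)) K}
    (hF : IsEndo d fun i => map (algebraMap K ℂ) (F i)) {L : Type} [Field L] [Algebra K L]
    {y : Fin (ν + 1) → L} (hy : y ≠ 0) : step F y ≠ 0 := by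
  obtain ⟨M, q, hq, h⟩ := exists_nullstellensatz (L := ℂ) F (fun i => homog_of_endo hF i)
    (growth_aeval_zero hF)
  intro h0
  apply hy
  funext a
  have h1 := Periodic_cert h y a
  rw [h0] at h1
  simp only [Pi.zero_apply, mul_zero, Finset.sum_const_zero] at h1
  exact (pow_eq_zero_iff (by have := hF.two_le; omega)).1 h1

theorem iter_ne_zeroL {d : ℕ} {F : Fin (ν + 1) → MvPolynomial (Fin (ν + 1)) K}
    (hF : IsEndo d fun i => map (algebraMap K ℂ) (F i)) {L : Type} [Field L] [Algebra K L]
    {y : Fin (ν + 1) → L} (hy : y ≠ 0) (n : ℕ) : iter F y n ≠ 0 := by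
  induction n with
  | zero => exact hy
  | succ n ih =>
    rw [Pool.Agent.Helper36.iter_succ]
    exact step_ne_zeroL hF ih

theorem iter_smulL {d : ℕ} {F : Fin (ν + 1) → MvPolynomial (Fin (ν + 1)) K}
    (hF : ∀ i, (F i).IsHomogeneous d) {L : Type} [Field L] [Algebra K L]
    (c : L) (y : Fin (ν + 1) → L) (n : ℕ) : iter F (c • y) n = c ^ d ^ n • iter F y n := by
  induction n with
  | zero => simp [Pool.Agent.Helper36.iter_zero]
  | succ n ih =>
    rw [Pool.Agent.Helper36.iter_succ, Pool.Agent.Helper36.iter_succ, ih]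
    funext i
    rw [Pi.smul_apply, smul_eq_mul, pow_succ, pow_mul]
    exact Pool.Agent.Helper36.aeval_smul_homogeneous (hF i) (c ^ d ^ n) (iter F y n)

end

variable {k K : Type} [Field k] [IsAlgClosed k] [Field K] [Algebra k K] [Algebra K ℂ]

theorem growthL (hK : IsFunctionField k K) {d : ℕ} {F : Fin (ν + 1) → MvPolynomial (Fin (ν + 1)) K}
    (hF : IsEndo d fun i => map (algebraMap K ℂ) (F i)) :
    ∃ C : ℤ, 0 ≤ C ∧ ∀ (L : Type) [Field L] [Algebra k L] [Algebra K L] [IsScalarTower k K L]
      [FiniteDimensional K L] (y : Fin (ν + 1) → L), y ≠ 0 →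
      (d : ℤ) * ht k y ≤ ht k (step F y) + C * (Module.finrank K L : ℤ) := by
  classical
  obtain ⟨M, q, hq, h⟩ := exists_nullstellensatz (L := ℂ) F (fun i => homog_of_endo hF i)
    (growth_aeval_zero hF)
  choose C hC0 hC using fun a : Fin (ν + 1) × Fin (ν + 1) => Scale_gs hK (q a)
  refine ⟨∑ a, C a, Finset.sum_nonneg fun a _ => hC0 a, ?_⟩
  intro L _ _ _ _ _ y hy
  have hL := Pool.Agent.Helper89.TC.isFunctionField_of_finite L hK
  set c : Place k L → ℤ := fun v =>
    ∑ a : Fin (ν + 1) × Fin (ν + 1), max 0 (WithZero.log (gs v (map (algebraMap K L) (q a)))) with hc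
  have hcs : (Function.support c).Finite := by
    refine (Set.finite_iUnion fun a : Fin (ν + 1) × Fin (ν + 1) => (hC a L).1).subset fun v hv => ?_
    rw [Function.mem_support] at hv
    by_contra hcon
    apply hv
    simp only [Set.mem_iUnion, Function.mem_support, not_exists, not_not] at hcon
    simp only [hc]
    exact Finset.sum_eq_zero fun a _ => hcon a
  have hsum : ∑ᶠ v : Place k L, c v ≤ (∑ a, C a) * (Module.finrank K L : ℤ) := by
    rw [hc, finsum_sum_comm _ _ fun a _ => (hC a L).1, Finset.sum_mul]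
    exact Finset.sum_le_sum fun a _ => (hC a L).2
  have hcq : ∀ (v : Place k L) a, gs v (map (algebraMap K L) (q a)) ≤ WithZero.exp (c v) := by
    intro v a
    apply WithZero.le_exp_of_log_le
    have h1 : max 0 (WithZero.log (gs v (map (algebraMap K L) (q a)))) ≤ c v :=
      Finset.single_le_sum
        (f := fun a => max 0 (WithZero.log (gs v (map (algebraMap K L) (q a)))))
        (fun i _ => le_max_left _ _) (Finset.mem_univ a)
    exact (le_max_right 0 _).trans h1
  have hs := step_ne_zeroL hF hy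
  have hloc : ∀ v : Place k L, (d : ℤ) * WithZero.log (nrm v y) ≤
      WithZero.log (nrm v (step F y)) + c v := by
    intro v
    have hn0 := nrm_ne_zero (b := v) hy
    have hs0 := nrm_ne_zero (b := v) hs
    have he0 : WithZero.exp (c v) ≠ 0 := WithZero.exp_ne_zero
    obtain ⟨i, hi⟩ := exists_val_eq_nrm v y
    have h1 : v.val (y i ^ (M + d)) ≤
        WithZero.exp (c v) * nrm v y ^ M * nrm v (step F y) := by
      rw [Periodic_cert h y i]
      refine v.val.map_sum_le fun j _ => ?_
      rw [map_mul]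
      exact mul_le_mul' ((low_val_eval_le v ((hq _).map _) y).trans
        (mul_le_mul' (hcq v _) le_rfl)) (val_le_nrm v (step F y) j)
    rw [map_pow, hi, ← WithZero.log_le_log (pow_ne_zero _ hn0)
      (mul_ne_zero (mul_ne_zero he0 (pow_ne_zero _ hn0)) hs0),
      WithZero.log_mul (mul_ne_zero he0 (pow_ne_zero _ hn0)) hs0,
      WithZero.log_mul he0 (pow_ne_zero _ hn0), WithZero.log_exp, WithZero.log_pow,
      WithZero.log_pow, nsmul_eq_mul, nsmul_eq_mul] at h1
    push_cast at h1
    linarith
  have h1 := nrm_support hL y hy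
  have h2 := nrm_support hL _ hs
  have h3 : (Function.support fun v : Place k L => (d : ℤ) * WithZero.log (nrm v y)).Finite := by
    refine h1.subset fun b hb => ?_
    rw [Function.mem_support] at hb ⊢
    exact right_ne_zero_of_mul hb
  have h4 : ∑ᶠ v : Place k L, (d : ℤ) * WithZero.log (nrm v y) ≤
      ∑ᶠ v : Place k L, (WithZero.log (nrm v (step F y)) + c v) :=
    finsum_le_finsum' h3 ((h2.union hcs).subset (Function.support_add _ _)) hloc
  rw [finsum_add_distrib h2 hcs, ← mul_finsum] at h4
  unfold ht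
  linarith

theorem exists_ht_bound (hK : IsFunctionField k K) {d : ℕ} {F : Fin (ν + 1) → MvPolynomial (Fin (ν + 1)) K}
    (hF : IsEndo d fun i => map (algebraMap K ℂ) (F i)) :
    ∃ C : ℤ, 0 ≤ C ∧ ∀ (L : Type) [Field L] [Algebra k L] [Algebra K L] [IsScalarTower k K L]
      [FiniteDimensional K L] (w : Fin (ν + 1) → L) (N : ℕ) (γ : L), w ≠ 0 → 0 < N →
      iter F w N = γ • w → ht k w ≤ C * (Module.finrank K L : ℤ) := by
  obtain ⟨C, hC0, hC⟩ := growthL hK hF
  refine ⟨C, hC0, ?_⟩
  intro L _ _ _ _ _ w N γ hw hN hiter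
  have hL := Pool.Agent.Helper89.TC.isFunctionField_of_finite L hK
  have hd : (2 : ℤ) ≤ d := by exact_mod_cast hF.two_le
  set f : ℤ := C * (Module.finrank K L : ℤ) with hf
  have hf0 : 0 ≤ f := mul_nonneg hC0 (by positivity)
  have key : ∀ n : ℕ, (d : ℤ) ^ n * (ht k w - f) ≤ ht k (iter F w n) - f := by
    intro n
    induction n with
    | zero => simp [Pool.Agent.Helper36.iter_zero]
    | succ n ih =>
      have h1 := hC L (iter F w n) (iter_ne_zeroL hF hw n)
      rw [← Pool.Agent.Helper36.iter_succ, ← hf] at h1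
      have h2 : (d : ℤ) * ((d : ℤ) ^ n * (ht k w - f)) ≤ d * (ht k (iter F w n) - f) :=
        mul_le_mul_of_nonneg_left ih (by linarith)
      have h3 : 2 * f ≤ d * f := mul_le_mul_of_nonneg_right hd hf0
      rw [pow_succ]
      linarith
  have hγ : γ ≠ 0 := by
    rintro rfl
    rw [zero_smul] at hiter
    exact iter_ne_zeroL hF hw N hiter
  have h1 := key N
  rw [hiter, ht_smul hL hγ hw] at h1
  by_contra hcon
  push Not at hcon
  have h2 : (2 : ℤ) ≤ (d : ℤ) ^ N := by
    calc (2 : ℤ) ≤ d := hd
      _ = (d : ℤ) ^ 1 := (pow_one _).symm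
      _ ≤ (d : ℤ) ^ N := pow_le_pow_right₀ (by linarith) hN
  nlinarith

end Pool.Agent.Helper38.TNA

end

section

namespace Pool.Agent.Helper16
end Pool.Agent.Helper16
namespace Pool.Agent.Helper38.TQ
end Pool.Agent.Helper38.TQ
namespace Pool.Agent.Helper30.TKN
end Pool.Agent.Helper30.TKN

/-!
# The ultrametric bound for determinants
-/

set_option autoImplicit false

namespace Pool.Agent.Helper30.ZB

open MvPolynomial

open Pool.Agent.Helper16 (Place IsFunctionField)

open Pool.Agent.Helper38.TQ

open Pool.Agent.Helper30.TKN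

variable {ν : ℕ} {k K : Type} [Field k] [Field K] [Algebra k K]

theorem UDet_gs_mul (b : Place k K) (P Q : MvPolynomial (Fin (ν + 1)) K) :
    gs b (P * Q) ≤ gs b P * gs b Q := by
  classical
  refine formHeight_gs_le fun m => ?_
  rw [coeff_mul]
  refine b.val.map_sum_le fun p _ => ?_
  rw [map_mul]
  exact mul_le_mul' (formHeight_le b P _) (formHeight_le b Q _)

theorem UDet_triv (b : Place k K) (a : k) : b.val (algebraMap k K a) ≤ 1 := by
  by_cases h : a = 0
  · rw [h, map_zero, map_zero]
    exact zero_le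
  · exact (b.triv a h).le

theorem UDet_gs_lf (b : Place k K) (c : Fin (ν + 1) → k) : gs b (lf K c) ≤ 1 := by
  classical
  refine formHeight_gs_le fun m => ?_
  unfold lf
  rw [coeff_sum]
  refine b.val.map_sum_le fun i _ => ?_
  rw [coeff_C_mul, map_mul, coeff_X]
  refine mul_le_one' (UDet_triv b _) ?_
  split_ifs
  · rw [map_one]
  · rw [map_zero]
    exact zero_le

theorem UDet_gs_one (b : Place k K) : gs b (1 : MvPolynomial (Fin (ν + 1)) K) ≤ 1 := by
  classical
  refine formHeight_gs_le fun m => ?_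
  rw [coeff_one]
  split_ifs
  · rw [map_one]
  · rw [map_zero]
    exact zero_le

theorem UDet_gs_pow (b : Place k K) (P : MvPolynomial (Fin (ν + 1)) K) (n : ℕ) :
    gs b (P ^ n) ≤ gs b P ^ n := by
  induction n with
  | zero =>
    rw [pow_zero, pow_zero]
    exact UDet_gs_one b
  | succ n ih =>
    rw [pow_succ, pow_succ]
    exact (UDet_gs_mul b _ _).trans (mul_le_mul' ih le_rfl)

theorem UDet_le (b : Place k K) {ι : Type} [Fintype ι] [DecidableEq ι]
    (P : ι → Fin (ν + 1) → K) (g : ι → MvPolynomial (Fin (ν + 1)) K) {m : ℕ}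
    (hg : ∀ κ, (g κ).IsHomogeneous m) :
    b.val (Matrix.of fun i κ => eval (P i) (g κ)).det ≤
      (∏ i, nrm b (P i) ^ m) * ∏ κ, gs b (g κ) := by
  rw [Matrix.det_apply]
  refine b.val.map_sum_le fun σ _ => ?_
  have h1 : b.val (Equiv.Perm.sign σ • ∏ i, (Matrix.of fun i κ => eval (P i) (g κ)) (σ i) i) =
      b.val (∏ i, eval (P (σ i)) (g i)) := by
    rcases Int.units_eq_one_or (Equiv.Perm.sign σ) with h | h
    · rw [h, one_smul]
      rfl
    · rw [h, Units.neg_smul, one_smul, Valuation.map_neg]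
      rfl
  rw [h1, map_prod, ← Equiv.prod_comp σ fun i => nrm b (P i) ^ m, ← Finset.prod_mul_distrib]
  refine Finset.prod_le_prod' fun i _ => ?_
  rw [mul_comm]
  exact low_val_eval_le b (hg i) _

/-- The forms of the family. -/
theorem UDet_fam {M : Type} [Field M] [Algebra k M] [Algebra K M] [IsScalarTower k K M]
    (v : Place k M) {q s : ℕ} {h : MvPolynomial (Fin (ν + 1)) K} {e : ℕ}
    {qa : Fin q → MvPolynomial (Fin (ν + 1)) K} {pc : Fin s → MvPolynomial (Fin (ν + 1)) K}
    (n : ℕ) (c : Fin (ν + 1) → k) :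
    ∏ κ, gs v (map (algebraMap K M) (fam h e qa pc n c κ)) ≤
      gs v (map (algebraMap K M) h) ^ (q * (n * (n + 1) / 2) + (n + 1) * s) *
        (∏ a, gs v (map (algebraMap K M) (qa a))) ^ (n + 1) *
          ∏ i, gs v (map (algebraMap K M) (pc i)) := by
  set H := gs v (map (algebraMap K M) h) with hH
  have hl : map (algebraMap K M) (lf K c) = lf M c := by
    unfold lf
    rw [map_sum]
    refine Finset.sum_congr rfl fun i _ => ?_
    rw [map_mul, map_C, map_X, ← IsScalarTower.algebraMap_apply]
  have h1 : ∀ (j : Fin (n + 1)) (a : Fin q),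
      gs v (map (algebraMap K M) (fam h e qa pc n c (Sum.inl (j, a)))) ≤
        H ^ (j : ℕ) * gs v (map (algebraMap K M) (qa a)) := by
    intro j a
    show gs v (map (algebraMap K M) (h ^ (j : ℕ) * lf K c ^ ((n - j) * e) * qa a)) ≤ _
    rw [map_mul, map_mul, map_pow, map_pow, hl]
    refine (UDet_gs_mul v _ _).trans (mul_le_mul' ?_ le_rfl)
    refine (UDet_gs_mul v _ _).trans ?_
    have h2 : gs v (lf M c ^ ((n - (j : ℕ)) * e)) ≤ 1 :=
      (UDet_gs_pow v _ _).trans (pow_le_one₀ zero_le (UDet_gs_lf v c))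
    calc _ ≤ H ^ (j : ℕ) * 1 := mul_le_mul' (UDet_gs_pow v _ _) h2
      _ = _ := mul_one _
  have h2 : ∀ i : Fin s,
      gs v (map (algebraMap K M) (fam h e qa pc n c (Sum.inr i))) ≤
        H ^ (n + 1) * gs v (map (algebraMap K M) (pc i)) := by
    intro i
    show gs v (map (algebraMap K M) (h ^ (n + 1) * pc i)) ≤ _
    rw [map_mul, map_pow]
    exact (UDet_gs_mul v _ _).trans (mul_le_mul' (UDet_gs_pow v _ _) le_rfl)
  have h3 : ∑ j : Fin (n + 1), (j : ℕ) = n * (n + 1) / 2 := by
    rw [Fin.sum_univ_eq_sum_range fun i => i, Finset.sum_range_id, Nat.add_sub_cancel, mul_comm]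
  rw [Fintype.prod_sum_type, Fintype.prod_prod_type]
  calc _ ≤ (∏ j : Fin (n + 1), ∏ a, (H ^ (j : ℕ) * gs v (map (algebraMap K M) (qa a)))) *
        ∏ i, (H ^ (n + 1) * gs v (map (algebraMap K M) (pc i))) :=
        mul_le_mul' (Finset.prod_le_prod' fun j _ => Finset.prod_le_prod' fun a _ => h1 j a)
          (Finset.prod_le_prod' fun i _ => h2 i)
    _ = _ := by
        simp only [Finset.prod_mul_distrib, Finset.prod_const, Finset.card_univ, Fintype.card_fin]
        rw [Finset.prod_pow, Finset.prod_pow_eq_pow_sum, h3, ← pow_mul, ← pow_mul, pow_add H,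
          mul_comm q, mul_mul_mul_comm, ← mul_assoc]

end Pool.Agent.Helper30.ZB

end

section

/-!
# The points of a finite scheme
-/

set_option autoImplicit false

namespace Pool.Agent.Helper30.ZB

open MvPolynomial

variable {ν : ℕ} {k K : Type} [Field k] [Field K] [Algebra k K]

/-- Zeros of `I` are given by algebra homomorphisms. -/
theorem Pts_zero {I : Ideal (MvPolynomial (Fin (ν + 1)) K)} (hI : Hom I) {c : Fin (ν + 1) → k}
    {m₁ : ℕ} (hm : Misses I c m₁) (K' : Type) [Field K'] [Algebra K K']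
    (u : Fin (ν + 1) → K') (hu : u ≠ 0) (hz : ∀ g ∈ I, aeval u g = 0) :
    ∃ (ψ : Qo I c →ₐ[K] K') (a : K'), a ≠ 0 ∧ u = fun i => a * ψ (cls I c (X i)) := by
  set a : K' := aeval u (lf K c) with ha
  have ha0 : a ≠ 0 := by
    intro h0
    obtain ⟨i, hi⟩ := Function.ne_iff.1 hu
    have h1 := hm m₁ le_rfl (X i ^ m₁) (by
      have h := (isHomogeneous_X K i).pow m₁
      rwa [one_mul] at h)
    have h2 : I ⊔ Ideal.span {lf K c} ≤ RingHom.ker (aeval u : _ →ₐ[K] K').toRingHom := by
      rw [sup_le_iff, Ideal.span_singleton_le_iff_mem]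
      exact ⟨fun g hg => hz g hg, h0⟩
    have h3 : aeval u (X i ^ m₁ : MvPolynomial (Fin (ν + 1)) K) = 0 := h2 h1
    rw [map_pow, aeval_X] at h3
    exact hi (eq_zero_of_pow_eq_zero h3)
  -- scaling a form
  have hscale : ∀ (n : ℕ) (p : MvPolynomial (Fin (ν + 1)) K), p.IsHomogeneous n →
      aeval (fun i => a⁻¹ * u i) p = a⁻¹ ^ n * aeval u p := by
    intro n p hp
    rw [aeval_def, aeval_def, eval₂_eq, eval₂_eq, Finset.mul_sum]
    refine Finset.sum_congr rfl fun m hmem => ?_
    have h1 : ∑ i ∈ m.support, m i = n := by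
      have h := hp (mem_support_iff.1 hmem)
      rw [← h, Finsupp.weight_apply, Finsupp.sum]
      simp
    have h2 : ∏ i ∈ m.support, (a⁻¹ * u i) ^ m i = a⁻¹ ^ n * ∏ i ∈ m.support, u i ^ m i := by
      rw [← h1, ← Finset.prod_pow_eq_pow_sum, ← Finset.prod_mul_distrib]
      exact Finset.prod_congr rfl fun i _ => mul_pow _ _ _
    rw [h2]
    ring
  have hker : I ⊔ Ideal.span {lf K c - 1} ≤
      RingHom.ker (aeval (fun i => a⁻¹ * u i) : _ →ₐ[K] K').toRingHom := by
    rw [sup_le_iff, Ideal.span_singleton_le_iff_mem]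
    constructor
    · intro g hg
      show aeval (fun i => a⁻¹ * u i) g = 0
      rw [← sum_homogeneousComponent g, map_sum]
      refine Finset.sum_eq_zero fun n _ => ?_
      rw [hscale n _ (homogeneousComponent_isHomogeneous n g), hz _ (hI g hg n), mul_zero]
    · show aeval (fun i => a⁻¹ * u i) (lf K c - 1) = 0
      have h1 : (lf K c).IsHomogeneous 1 := by
        unfold lf
        refine IsHomogeneous.sum _ _ _ fun i _ => ?_
        have h := (isHomogeneous_C (Fin (ν + 1)) (algebraMap k K (c i))).mul (isHomogeneous_X K i)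
        rwa [zero_add] at h
      rw [map_sub, hscale 1 _ h1, map_one, pow_one, ← ha, inv_mul_cancel₀ ha0, sub_self]
  have hker' : ∀ p ∈ I ⊔ Ideal.span {lf K c - 1}, (aeval (fun i => a⁻¹ * u i) : _ →ₐ[K] K') p = 0 :=
    fun p hp => hker hp
  refine ⟨Ideal.Quotient.liftₐ (I ⊔ Ideal.span {lf K c - 1})
    (aeval (fun i => a⁻¹ * u i) : _ →ₐ[K] K') hker', a, ha0, ?_⟩
  funext i
  have h1 : (Ideal.Quotient.liftₐ (I ⊔ Ideal.span {lf K c - 1})
      (aeval (fun i => a⁻¹ * u i) : _ →ₐ[K] K') hker') (cls I c (X i)) = a⁻¹ * u i :=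
    aeval_X _ i
  rw [h1, mul_inv_cancel_left₀ ha0]

/-- Algebra homomorphisms give zeros of `I`. -/
theorem Pts_of_hom {I : Ideal (MvPolynomial (Fin (ν + 1)) K)} {c : Fin (ν + 1) → k}
    (K' : Type) [Field K'] [Algebra K K'] (ψ : Qo I c →ₐ[K] K') :
    (∀ g ∈ I, aeval (fun i => ψ (cls I c (X i))) g = 0) ∧
      (fun i => ψ (cls I c (X i))) ≠ 0 ∧
      ∀ p, aeval (fun i => ψ (cls I c (X i))) p = ψ (cls I c p) := by
  have h3 : ∀ p, aeval (fun i => ψ (cls I c (X i))) p = ψ (cls I c p) := by
    have h := MvPolynomial.algHom_ext (A := K') (f := aeval (fun i => ψ (cls I c (X i))))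
      (g := ψ.comp (Ideal.Quotient.mkₐ K (I ⊔ Ideal.span {lf K c - 1}))) (fun i => by
        rw [aeval_X]
        rfl)
    intro p
    exact congrArg (fun f : MvPolynomial (Fin (ν + 1)) K →ₐ[K] K' => f p) h
  refine ⟨fun g hg => ?_, fun h0 => ?_, h3⟩
  · rw [h3]
    have h1 : cls I c g = 0 := Ideal.Quotient.eq_zero_iff_mem.2 (Ideal.mem_sup_left hg)
    rw [h1, map_zero]
  · have h1 : cls I c (lf K c - 1) = 0 :=
      Ideal.Quotient.eq_zero_iff_mem.2 (Ideal.mem_sup_right (Ideal.mem_span_singleton_self _))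
    have h2 := h3 (lf K c - 1)
    rw [h1, map_zero, h0, map_sub, map_one] at h2
    have h4 : aeval (0 : Fin (ν + 1) → K') (lf K c) = 0 := by
      unfold lf
      rw [map_sum]
      refine Finset.sum_eq_zero fun i _ => ?_
      rw [map_mul, aeval_X, Pi.zero_apply, mul_zero]
    rw [h4, zero_sub, neg_eq_zero] at h2
    exact one_ne_zero h2

end Pool.Agent.Helper30.ZB

end

section

namespace Pool.Agent.Helper29.TG
end Pool.Agent.Helper29.TG

/-!
# Project NZ (Zhang-Bezout for curves over the algebraic numbers): definitions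

`A` is an algebraically closed field, algebraic over `ℚ`; `M` is a number field with an embedding
in `A`.
-/

set_option autoImplicit false

namespace Pool.Agent.Helper45.NZ

open MvPolynomial Height AdmissibleAbsValues

open Pool.Agent.Helper29.TG (nm ls FS Mem)

/-- The absolute logarithmic height of a vector with coordinates algebraic over `ℚ`. -/
noncomputable def aht {A : Type} [Field A] [CharZero A] {ι : Type} (x : ι → A) : ℝ :=
  open Classical in
  if h : FiniteDimensional ℚ (IntermediateField.adjoin ℚ (Set.range x)) then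
    have : NumberField (IntermediateField.adjoin ℚ (Set.range x)) :=
      { to_charZero := inferInstance, to_finiteDimensional := h }
    logHeight (fun i => (⟨x i, IntermediateField.subset_adjoin ℚ _ ⟨i, rfl⟩⟩ :
      IntermediateField.adjoin ℚ (Set.range x))) /
        (Module.finrank ℚ (IntermediateField.adjoin ℚ (Set.range x)) : ℝ)
  else 0

section

variable {A : Type} [Field A]

/-- The absolute value `W` is nonarchimedean or given by an embedding in the complex numbers. -/
def Pl (W : AbsoluteValue A ℝ) : Prop :=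
  IsNonarchimedean W ∨ ∃ τ : A →+* ℂ, ∀ a, W a = ‖τ a‖

/-- `0` for nonarchimedean absolute values, `1` for the others. -/
noncomputable def kap (W : AbsoluteValue A ℝ) : ℝ :=
  open Classical in if IsNonarchimedean W then 0 else 1

/-- The size of a polynomial: the maximum of the absolute values of the coefficients for a
nonarchimedean absolute value, the sum for the others. -/
noncomputable def sz {σ : Type} (W : AbsoluteValue A ℝ) (G : MvPolynomial σ A) : ℝ :=
  open Classical in
  if IsNonarchimedean W then ⨆ m : G.support, W (G.coeff m) else ∑ m ∈ G.support, W (G.coeff m)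

/-- The positive part of the logarithm of the size. -/
noncomputable def lp {σ : Type} (W : AbsoluteValue A ℝ) (G : MvPolynomial σ A) : ℝ :=
  max 0 (Real.log (sz W G))

/-- A bound for the height of a polynomial. -/
noncomputable def Cp {σ : Type} [CharZero A] (G : MvPolynomial σ A) : ℝ :=
  ∑ m ∈ G.support, aht ![G.coeff m, 1] + Real.log (G.support.card + 1)

end

end Pool.Agent.Helper45.NZ

end

section

namespace Pool.Agent.Helper29.TG
end Pool.Agent.Helper29.TG
namespace Pool.Agent.Helper30.ZB
end Pool.Agent.Helper30.ZB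
namespace Pool.Agent.Helper88.ZN
end Pool.Agent.Helper88.ZN

/-!
# Project NZ: the size of polynomials
-/

set_option autoImplicit false

namespace Pool.Agent.Helper45.NZ

open MvPolynomial

open Pool.Agent.Helper29.TG (nm le_nm nm_nonneg)

open Pool.Agent.Helper30.ZB (lf)

open Pool.Agent.Helper88.ZN (n1 nx n1_nonneg nx_nonneg n1_eq_sum coeff_le_nx nx_le n1_sum n1_monomial n1_mul nx_mul sum_le_of_na)

variable {A : Type} [Field A] {ν : ℕ} {W : AbsoluteValue A ℝ}

theorem sz_na {σ : Type} {W : AbsoluteValue A ℝ} (h : IsNonarchimedean W)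
    (G : MvPolynomial σ A) : sz W G = nx W G := by
  unfold sz nx
  rw [if_pos h]

theorem sz_arch {σ : Type} {W : AbsoluteValue A ℝ} (h : ¬ IsNonarchimedean W)
    (G : MvPolynomial σ A) : sz W G = n1 W G := by
  unfold sz n1
  rw [if_neg h]

theorem kap_nonneg (W : AbsoluteValue A ℝ) : 0 ≤ kap W := by
  unfold kap
  split_ifs
  · exact le_rfl
  · exact zero_le_one

theorem sz_nonneg {σ : Type} (W : AbsoluteValue A ℝ) (G : MvPolynomial σ A) : 0 ≤ sz W G := by
  by_cases h : IsNonarchimedean W
  · rw [sz_na h]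
    exact nx_nonneg W G
  · rw [sz_arch h]
    exact n1_nonneg W G

/-- The size of a value. -/
theorem eval_le_sz (W : AbsoluteValue A ℝ) {G : MvPolynomial (Fin (ν + 1)) A} {m : ℕ}
    (hG : G.IsHomogeneous m) (P : Fin (ν + 1) → A) : W (eval P G) ≤ sz W G * nm W P ^ m := by
  classical
  have hmon : ∀ s ∈ G.support, W (G.coeff s * ∏ i ∈ s.support, P i ^ s i) ≤
      W (G.coeff s) * nm W P ^ m := by
    intro s hs
    rw [map_mul, map_prod]
    refine mul_le_mul_of_nonneg_left ?_ (W.nonneg _)
    rw [hG.degree_eq_sum_deg_support hs, ← Finset.prod_pow_eq_pow_sum]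
    refine Finset.prod_le_prod (fun _ _ => W.nonneg _) fun i _ => ?_
    rw [map_pow]
    exact pow_le_pow_left₀ (W.nonneg _) (le_nm _ P i) _
  rw [eval_eq]
  by_cases h : IsNonarchimedean W
  · rw [sz_na h]
    refine sum_le_of_na h _ _ (mul_nonneg (nx_nonneg W G)
      (pow_nonneg (nm_nonneg _ _) _)) fun s hs => (hmon s hs).trans ?_
    exact mul_le_mul_of_nonneg_right (coeff_le_nx W G s) (pow_nonneg (nm_nonneg _ _) _)
  · rw [sz_arch h]
    refine (W.sum_le _ _).trans ?_
    unfold n1
    rw [Finset.sum_mul]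
    exact Finset.sum_le_sum hmon

theorem sz_mul_le {σ : Type} (W : AbsoluteValue A ℝ) (G H : MvPolynomial σ A) :
    sz W (G * H) ≤ sz W G * sz W H := by
  by_cases h : IsNonarchimedean W
  · rw [sz_na h, sz_na h, sz_na h]
    exact nx_mul h G H
  · rw [sz_arch h, sz_arch h, sz_arch h]
    exact n1_mul W G H

theorem sz_one_le {σ : Type} (W : AbsoluteValue A ℝ) : sz W (1 : MvPolynomial σ A) ≤ 1 := by
  classical
  by_cases h : IsNonarchimedean W
  · rw [sz_na h]
    refine nx_le zero_le_one fun m => ?_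
    rw [coeff_one]
    split_ifs
    · rw [W.map_one]
    · rw [map_zero]
      exact zero_le_one
  · rw [sz_arch h]
    have h1 := n1_monomial W (0 : σ →₀ ℕ) (1 : A)
    rw [W.map_one] at h1
    exact h1.le

theorem sz_pow_le {σ : Type} (W : AbsoluteValue A ℝ) (G : MvPolynomial σ A) (n : ℕ) :
    sz W (G ^ n) ≤ sz W G ^ n := by
  induction n with
  | zero =>
    rw [pow_zero, pow_zero]
    exact sz_one_le W
  | succ n ih =>
    rw [pow_succ, pow_succ]
    exact (sz_mul_le W _ _).trans (mul_le_mul_of_nonneg_right ih (sz_nonneg W G))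

/-- The size of a linear form with small coefficients. -/
theorem sz_lf_le (W : AbsoluteValue A ℝ) {c : Fin (ν + 1) → A} (hc : ∀ a, W (c a) ≤ 1) :
    sz W (lf A c) ≤ Real.exp (kap W * Real.log (ν + 1)) := by
  classical
  have hterm : ∀ i : Fin (ν + 1), (C (algebraMap A A (c i)) * X i :
      MvPolynomial (Fin (ν + 1)) A) = monomial (Finsupp.single i 1) (c i) := by
    intro i
    rw [Algebra.algebraMap_self_apply, C_mul_X_eq_monomial]
  by_cases h : IsNonarchimedean W
  · rw [sz_na h]
    unfold kap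
    rw [if_pos h, zero_mul, Real.exp_zero]
    refine nx_le zero_le_one fun m => ?_
    unfold lf
    rw [coeff_sum]
    refine sum_le_of_na h _ _ zero_le_one fun i _ => ?_
    rw [hterm, coeff_monomial]
    split_ifs
    · exact hc i
    · rw [map_zero]
      exact zero_le_one
  · rw [sz_arch h]
    unfold kap
    rw [if_neg h, one_mul, Real.exp_log (by positivity)]
    unfold lf
    refine (n1_sum W _ _).trans ?_
    have h1 : ∀ i ∈ (Finset.univ : Finset (Fin (ν + 1))),
        n1 W (C (algebraMap A A (c i)) * X i : MvPolynomial (Fin (ν + 1)) A) ≤ 1 := by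
      intro i _
      rw [hterm, n1_monomial]
      exact hc i
    refine (Finset.sum_le_sum h1).trans ?_
    simp

end Pool.Agent.Helper45.NZ

end

section

namespace Pool.Agent.Helper29.TG
end Pool.Agent.Helper29.TG
namespace Pool.Agent.Helper30.ZB
end Pool.Agent.Helper30.ZB

/-!
# Project NZ: the size of evaluation determinants
-/

set_option autoImplicit false

namespace Pool.Agent.Helper45.NZ

open MvPolynomial

open Pool.Agent.Helper29.TG (nm)

open Pool.Agent.Helper30.ZB (lf fam)

variable {A : Type} [Field A] {ν : ℕ} {W : AbsoluteValue A ℝ}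

private theorem detW_abs_sign {ι : Type} [Fintype ι] [DecidableEq ι] (W : AbsoluteValue A ℝ)
    (s : Equiv.Perm ι) (x : A) : W (Equiv.Perm.sign s • x) = W x := by
  rcases Int.units_eq_one_or (Equiv.Perm.sign s) with h | h <;> simp [h]

private theorem detW_nonarch {ι : Type} [Fintype ι] [DecidableEq ι] (hW : IsNonarchimedean W)
    (M : Matrix ι ι A) {b : ℝ} (hb : ∀ s : Equiv.Perm ι, ∏ i, W (M (s i) i) ≤ b) :
    W M.det ≤ b := by
  rw [Matrix.det_apply]
  have h0 : (Finset.univ : Finset (Equiv.Perm ι)).Nonempty := ⟨1, Finset.mem_univ _⟩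
  obtain ⟨s, -, hs⟩ := IsNonarchimedean.finset_image_add_of_nonempty hW
    (fun s : Equiv.Perm ι => Equiv.Perm.sign s • ∏ i, M (s i) i) h0
  refine hs.trans ?_
  rw [detW_abs_sign, map_prod]
  exact hb s

private theorem detW_arch {ι : Type} [Fintype ι] [DecidableEq ι]
    (M : Matrix ι ι A) {b : ℝ} (hb : ∀ s : Equiv.Perm ι, ∏ i, W (M (s i) i) ≤ b) :
    W M.det ≤ (Nat.factorial (Fintype.card ι) : ℝ) * b := by
  rw [Matrix.det_apply]
  refine (W.sum_le _ _).trans ?_
  calc ∑ s : Equiv.Perm ι, W (Equiv.Perm.sign s • ∏ i, M (s i) i)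
      ≤ ∑ _s : Equiv.Perm ι, b := by
        refine Finset.sum_le_sum fun s _ => ?_
        rw [detW_abs_sign, map_prod]
        exact hb s
    _ = (Nat.factorial (Fintype.card ι) : ℝ) * b := by
        rw [Finset.sum_const, nsmul_eq_mul, Finset.card_univ, Fintype.card_perm]

/-- The ultrametric bound, or the trivial bound. -/
theorem det_le (hW : Pl W) {ι : Type} [Fintype ι] [DecidableEq ι] (P : ι → Fin (ν + 1) → A)
    (g : ι → MvPolynomial (Fin (ν + 1)) A) {m : ℕ} (hg : ∀ κ, (g κ).IsHomogeneous m) :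
    W (Matrix.of fun i κ => eval (P i) (g κ)).det ≤
      Real.exp (kap W * Real.log (Nat.factorial (Fintype.card ι))) *
        ((∏ i, nm W (P i) ^ m) * ∏ κ, sz W (g κ)) := by
  have _ := hW
  have hb : ∀ s : Equiv.Perm ι,
      ∏ i, W ((Matrix.of fun i κ => eval (P i) (g κ)) (s i) i) ≤
        (∏ i, nm W (P i) ^ m) * ∏ κ, sz W (g κ) := by
    intro s
    calc ∏ i, W ((Matrix.of fun i κ => eval (P i) (g κ)) (s i) i)
        ≤ ∏ i, (nm W (P (s i)) ^ m * sz W (g i)) := by
          refine Finset.prod_le_prod (fun i _ => W.nonneg _) fun i _ => ?_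
          rw [Matrix.of_apply, mul_comm]
          exact eval_le_sz W (hg i) (P (s i))
      _ = (∏ i, nm W (P i) ^ m) * ∏ κ, sz W (g κ) := by
          rw [Finset.prod_mul_distrib]
          congr 1
          exact Equiv.prod_comp s fun i => nm W (P i) ^ m
  by_cases hn : IsNonarchimedean W
  · have hk : kap W = 0 := by
      unfold kap
      rw [if_pos hn]
    rw [hk, zero_mul, Real.exp_zero, one_mul]
    exact detW_nonarch hn _ hb
  · have hk : kap W = 1 := by
      unfold kap
      rw [if_neg hn]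
    rw [hk, one_mul, Real.exp_log (by positivity)]
    exact detW_arch _ hb

private theorem detW_log_prod_le {α : Type} [Fintype α] (f : α → ℝ) :
    Real.log (∏ a, f a) ≤ ∑ a, max 0 (Real.log (f a)) := by
  by_cases h : ∃ a, f a = 0
  · obtain ⟨a, ha⟩ := h
    rw [Finset.prod_eq_zero (Finset.mem_univ a) ha, Real.log_zero]
    exact Finset.sum_nonneg fun _ _ => le_max_left _ _
  · push Not at h
    rw [Real.log_prod fun a _ => h a]
    exact Finset.sum_le_sum fun a _ => le_max_right _ _

private theorem detW_log_le {x y : ℝ} (hx : 0 ≤ x) (hxy : x ≤ y) {c : ℝ}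
    (hc : 0 ≤ c) (hy : Real.log y ≤ c) : max 0 (Real.log x) ≤ c := by
  refine max_le hc ?_
  rcases hx.eq_or_lt with h | h
  · rw [← h, Real.log_zero]
    exact hc
  · exact (Real.log_le_log h hxy).trans hy

private theorem detW_log_mul_le {x y a b : ℝ} (hx : Real.log x ≤ a) (hy : Real.log y ≤ b)
    (ha : 0 ≤ a) (hb : 0 ≤ b) : Real.log (x * y) ≤ a + b := by
  rcases eq_or_ne x 0 with h | h
  · rw [h, zero_mul, Real.log_zero]
    exact add_nonneg ha hb
  rcases eq_or_ne y 0 with h' | h'
  · rw [h', mul_zero, Real.log_zero]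
    exact add_nonneg ha hb
  rw [Real.log_mul h h']
  exact add_le_add hx hy

private theorem detW_log_pow_le {x a : ℝ} (hx : Real.log x ≤ a) (n : ℕ) :
    Real.log (x ^ n) ≤ n * a := by
  rw [Real.log_pow]
  exact mul_le_mul_of_nonneg_left hx (Nat.cast_nonneg n)

private theorem detW_lp_nonneg {σ : Type} (W : AbsoluteValue A ℝ) (G : MvPolynomial σ A) :
    0 ≤ lp W G := le_max_left _ _

private theorem detW_log_le_lp {σ : Type} (W : AbsoluteValue A ℝ) (G : MvPolynomial σ A) :
    Real.log (sz W G) ≤ lp W G := le_max_right _ _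

private theorem detW_sum (n : ℕ) :
    ∑ j : Fin (n + 1), ((j : ℕ) : ℝ) = ((n * (n + 1) / 2 : ℕ) : ℝ) := by
  rw [Fin.sum_univ_eq_sum_range (fun j => ((j : ℕ) : ℝ)) (n + 1), ← Nat.cast_sum,
    Finset.sum_range_id]
  congr 2
  rw [Nat.add_sub_cancel, mul_comm]

private theorem detW_sum' (n : ℕ) :
    ∑ j : Fin (n + 1), ((n - (j : ℕ) : ℕ) : ℝ) = ((n * (n + 1) / 2 : ℕ) : ℝ) := by
  rw [← detW_sum n, Fin.sum_univ_eq_sum_range (fun j => ((n - j : ℕ) : ℝ)) (n + 1),
    Fin.sum_univ_eq_sum_range (fun j => ((j : ℕ) : ℝ)) (n + 1),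
    ← Finset.sum_range_reflect (fun j => ((j : ℕ) : ℝ)) (n + 1)]
  refine Finset.sum_congr rfl fun j _ => ?_
  simp

/-- The forms of the family. -/
theorem fam_le (W : AbsoluteValue A ℝ) {q s : ℕ} {h : MvPolynomial (Fin (ν + 1)) A} {e : ℕ}
    {qa : Fin q → MvPolynomial (Fin (ν + 1)) A} {pc : Fin s → MvPolynomial (Fin (ν + 1)) A}
    (n : ℕ) {c : Fin (ν + 1) → A} (hc : ∀ a, W (c a) ≤ 1) :
    Real.log (∏ κ, sz W (fam h e qa pc n c κ)) ≤
      ((q * (n * (n + 1) / 2) : ℕ) : ℝ) * lp W h +
        ((n + 1 : ℕ) : ℝ) * (s * lp W h + ∑ a, lp W (qa a) + ∑ i, lp W (pc i)) +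
          kap W * (((e * q * (n * (n + 1) / 2) : ℕ) : ℝ) * Real.log (ν + 1)) := by
  refine (detW_log_prod_le _).trans ?_
  rw [Fintype.sum_sum_type, Fintype.sum_prod_type]
  have hK : 0 ≤ kap W * Real.log (ν + 1) := by
    refine mul_nonneg (kap_nonneg W) (Real.log_nonneg ?_)
    have : (0 : ℝ) ≤ ν := Nat.cast_nonneg ν
    linarith
  have h1 : ∀ (j : Fin (n + 1)) (a : Fin q),
      max 0 (Real.log (sz W (fam h e qa pc n c (Sum.inl (j, a))))) ≤
        ((j : ℕ) : ℝ) * lp W h + ((n - (j : ℕ) : ℕ) : ℝ) * (e * (kap W * Real.log (ν + 1))) +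
          lp W (qa a) := by
    intro j a
    have e1 : 0 ≤ ((j : ℕ) : ℝ) * lp W h := mul_nonneg (Nat.cast_nonneg _) (detW_lp_nonneg W h)
    have e2 : 0 ≤ ((n - (j : ℕ) : ℕ) : ℝ) * (e * (kap W * Real.log (ν + 1))) :=
      mul_nonneg (Nat.cast_nonneg _) (mul_nonneg (Nat.cast_nonneg _) hK)
    refine detW_log_le (sz_nonneg W _)
      (y := sz W h ^ (j : ℕ) * Real.exp (kap W * Real.log (ν + 1)) ^ ((n - (j : ℕ)) * e) *
        sz W (qa a)) ?_ (add_nonneg (add_nonneg e1 e2) (detW_lp_nonneg W _)) ?_
    · change sz W (h ^ (j : ℕ) * lf A c ^ ((n - (j : ℕ)) * e) * qa a) ≤ _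
      refine (sz_mul_le W _ _).trans (mul_le_mul_of_nonneg_right ?_ (sz_nonneg W _))
      refine (sz_mul_le W _ _).trans ?_
      refine mul_le_mul (sz_pow_le W _ _) ?_ (sz_nonneg W _) (pow_nonneg (sz_nonneg W _) _)
      exact (sz_pow_le W _ _).trans (pow_le_pow_left₀ (sz_nonneg W _) (sz_lf_le W hc) _)
    · refine detW_log_mul_le (detW_log_mul_le (detW_log_pow_le (detW_log_le_lp W h) _) ?_ e1 e2)
        (detW_log_le_lp W _) (add_nonneg e1 e2) (detW_lp_nonneg W _)
      rw [Real.log_pow, Real.log_exp, Nat.cast_mul, mul_assoc]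
  have h2 : ∀ i : Fin s, max 0 (Real.log (sz W (fam h e qa pc n c (Sum.inr i)))) ≤
      ((n + 1 : ℕ) : ℝ) * lp W h + lp W (pc i) := by
    intro i
    have e1 : 0 ≤ ((n + 1 : ℕ) : ℝ) * lp W h :=
      mul_nonneg (Nat.cast_nonneg _) (detW_lp_nonneg W h)
    refine detW_log_le (sz_nonneg W _) (y := sz W h ^ (n + 1) * sz W (pc i)) ?_
      (add_nonneg e1 (detW_lp_nonneg W _)) ?_
    · change sz W (h ^ (n + 1) * pc i) ≤ _
      exact (sz_mul_le W _ _).trans (mul_le_mul_of_nonneg_right (sz_pow_le W _ _)
        (sz_nonneg W _))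
    · exact detW_log_mul_le (detW_log_pow_le (detW_log_le_lp W h) _)
        (detW_log_le_lp W _) e1 (detW_lp_nonneg W _)
  have h3 : ∑ j : Fin (n + 1), ∑ a : Fin q,
      max 0 (Real.log (sz W (fam h e qa pc n c (Sum.inl (j, a))))) ≤
        ((q * (n * (n + 1) / 2) : ℕ) : ℝ) * lp W h +
          kap W * (((e * q * (n * (n + 1) / 2) : ℕ) : ℝ) * Real.log (ν + 1)) +
            ((n + 1 : ℕ) : ℝ) * ∑ a, lp W (qa a) := by
    refine (Finset.sum_le_sum fun j _ => Finset.sum_le_sum fun a _ => h1 j a).trans ?_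
    simp only [Finset.sum_add_distrib, Finset.sum_const, Finset.card_univ, Fintype.card_fin,
      nsmul_eq_mul, ← Finset.mul_sum, ← Finset.sum_mul]
    rw [detW_sum, detW_sum']
    push_cast
    refine le_of_eq ?_
    ring
  have h4 : ∑ i : Fin s, max 0 (Real.log (sz W (fam h e qa pc n c (Sum.inr i)))) ≤
      ((n + 1 : ℕ) : ℝ) * (s * lp W h) + ((n + 1 : ℕ) : ℝ) * ∑ i, lp W (pc i) := by
    refine (Finset.sum_le_sum fun i _ => h2 i).trans ?_
    simp only [Finset.sum_add_distrib, Finset.sum_const, Finset.card_univ, Fintype.card_fin,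
      nsmul_eq_mul]
    have h5 : 0 ≤ ∑ i, lp W (pc i) := Finset.sum_nonneg fun i _ => detW_lp_nonneg W _
    have h6 : (1 : ℝ) ≤ ((n + 1 : ℕ) : ℝ) := by
      push_cast
      have : (0 : ℝ) ≤ n := Nat.cast_nonneg n
      linarith
    nlinarith
  refine (add_le_add h3 h4).trans (le_of_eq ?_)
  ring

end Pool.Agent.Helper45.NZ

end

section

namespace Pool.Agent.Helper29.TG
end Pool.Agent.Helper29.TG

/-!
# Project NZ: values at roots of unity

For some root of unity `ζ` of order `n` the absolute value of the value is at least the maximum of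
the absolute values of the coefficients (coefficients are averages of values over the roots of
unity of order `n > deg P`; `n = deg P + 1` or `n = deg P + 2` is a unit for nonarchimedean `W`).
-/

set_option autoImplicit false

namespace Pool.Agent.Helper45.NZ

open Pool.Agent.Helper29.TG (nm)

variable {A : Type} [Field A] [IsAlgClosed A] [CharZero A] {W : AbsoluteValue A ℝ}

theorem ZetaA_prim {n : ℕ} (hn : 0 < n) : ∃ z : A, IsPrimitiveRoot z n := by
  have hz : NeZero (n : A) := ⟨Nat.cast_ne_zero.2 hn.ne'⟩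
  obtain ⟨z, hz'⟩ := IsAlgClosed.exists_root (Polynomial.cyclotomic n A) (by
    rw [Polynomial.degree_cyclotomic]
    exact_mod_cast (Nat.totient_pos.2 hn).ne')
  exact ⟨z, Polynomial.isRoot_cyclotomic_iff.1 hz'⟩

omit [IsAlgClosed A] [CharZero A] in
theorem ZetaA_sum {n : ℕ} {z : A} (hz : IsPrimitiveRoot z n) (P : Polynomial A)
    (hP : P.natDegree < n) {j : ℕ} (hj : j < n) :
    ∑ i ∈ Finset.range n, P.eval (z ^ i) * ((z ^ i) ^ j)⁻¹ = n * P.coeff j := by
  have hz0 : z ≠ 0 := hz.ne_zero (by omega)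
  have h1 : ∀ i, P.eval (z ^ i) * ((z ^ i) ^ j)⁻¹ =
      ∑ k ∈ Finset.range n, P.coeff k * (z ^ k * (z ^ j)⁻¹) ^ i := by
    intro i
    rw [Polynomial.eval_eq_sum_range' hP, Finset.sum_mul]
    refine Finset.sum_congr rfl fun k _ => ?_
    rw [mul_pow, inv_pow, ← pow_mul, ← pow_mul, ← pow_mul, ← pow_mul, mul_comm i k, mul_comm i j]
    ring
  simp only [h1]
  rw [Finset.sum_comm]
  have h2 : ∀ k ∈ Finset.range n, ∑ i ∈ Finset.range n, P.coeff k * (z ^ k * (z ^ j)⁻¹) ^ i =
      if k = j then (n : A) * P.coeff j else 0 := by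
    intro k hk
    rw [← Finset.mul_sum]
    split_ifs with h
    · rw [h, mul_inv_cancel₀ (pow_ne_zero j hz0)]
      simp
      ring
    · have h3 : z ^ k * (z ^ j)⁻¹ ≠ 1 := by
        intro h4
        have h5 : z ^ k = z ^ j := by
          field_simp at h4
          exact h4
        exact h (hz.pow_inj (Finset.mem_range.1 hk) hj h5)
      have h6 := geom_sum_mul (z ^ k * (z ^ j)⁻¹) n
      have h7 : (z ^ k * (z ^ j)⁻¹) ^ n = 1 := by
        rw [mul_pow, inv_pow, ← pow_mul, ← pow_mul, mul_comm k n, mul_comm j n, pow_mul, pow_mul,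
          hz.pow_eq_one, one_pow, one_pow, inv_one, mul_one]
      rw [h7, sub_self] at h6
      rcases mul_eq_zero.1 h6 with h8 | h8
      · rw [h8, mul_zero]
      · exact absurd (sub_eq_zero.1 h8) h3
  rw [Finset.sum_congr rfl h2, Finset.sum_ite_eq', if_pos (Finset.mem_range.2 hj)]

omit [IsAlgClosed A] [CharZero A] in
theorem ZetaA_one {n : ℕ} (hn : 0 < n) {z : A} (hz : z ^ n = 1) : W z = 1 := by
  have h1 : W z ^ n = 1 := by rw [← map_pow, hz, map_one]
  exact (pow_eq_one_iff_of_nonneg (W.nonneg z) hn.ne').1 h1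

omit [IsAlgClosed A] [CharZero A] in
theorem ZetaA_na (hW : IsNonarchimedean W) {s : Finset ℕ} {f : ℕ → A} {M : ℝ} (hM : 0 ≤ M)
    (h : ∀ i ∈ s, W (f i) ≤ M) : W (∑ i ∈ s, f i) ≤ M := by
  classical
  induction s using Finset.induction_on with
  | empty => simpa using hM
  | insert a s ha ih =>
    rw [Finset.sum_insert ha]
    exact (hW _ _).trans (max_le (h a (Finset.mem_insert_self a s))
      (ih fun i hi => h i (Finset.mem_insert_of_mem hi)))

omit [IsAlgClosed A] [CharZero A] in
theorem ZetaA_nat (hW : IsNonarchimedean W) (N : ℕ) : W (N : A) = 1 ∨ W ((N + 1 : ℕ) : A) = 1 := by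
  have hle : ∀ n : ℕ, W (n : A) ≤ 1 := by
    intro n
    have h1 : (n : A) = ∑ _i ∈ Finset.range n, (1 : A) := by simp
    rw [h1]
    exact ZetaA_na hW zero_le_one fun i _ => (map_one W).le
  have h2 := hW ((N + 1 : ℕ) : A) (-(N : A))
  have h3 : ((N + 1 : ℕ) : A) + -(N : A) = 1 := by push_cast; ring
  rw [h3, map_one, map_neg_eq_map] at h2
  rcases le_max_iff.1 h2 with h | h
  · exact Or.inr (le_antisymm (hle _) h)
  · exact Or.inl (le_antisymm (hle _) h)

/-- The maximum of the absolute values of the coefficients is attained at a root of unity. -/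
theorem exists_zeta (hW : Pl W) (P : Polynomial A) :
    ∃ ζ : A, W ζ = 1 ∧ ∀ j, W (P.coeff j) ≤ W (P.eval ζ) := by
  have hn : ∃ n : ℕ, P.natDegree < n ∧ ∀ (f : ℕ → A) (M : ℝ) (c : A), 0 ≤ M →
      (∀ i ∈ Finset.range n, W (f i) ≤ M) → ∑ i ∈ Finset.range n, f i = n * c → W c ≤ M := by
    rcases hW with hW | ⟨τ, hτ⟩
    · have key : ∀ n : ℕ, P.natDegree < n → W (n : A) = 1 → ∃ n : ℕ, P.natDegree < n ∧
          ∀ (f : ℕ → A) (M : ℝ) (c : A), 0 ≤ M →
          (∀ i ∈ Finset.range n, W (f i) ≤ M) → ∑ i ∈ Finset.range n, f i = n * c →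
            W c ≤ M := by
        intro n h1 h2
        refine ⟨n, h1, fun f M c hM hf hs => ?_⟩
        have h3 := ZetaA_na hW hM hf
        rwa [hs, map_mul, h2, one_mul] at h3
      rcases ZetaA_nat hW (P.natDegree + 1) with h | h
      · exact key _ (by omega) h
      · exact key _ (by omega) h
    · refine ⟨P.natDegree + 1, by omega, fun f M c _ hf hs => ?_⟩
      have h1 := W.sum_le (Finset.range (P.natDegree + 1)) f
      have h2 := h1.trans (Finset.sum_le_card_nsmul _ _ M hf)
      rw [hs, map_mul, Finset.card_range, nsmul_eq_mul, hτ ((P.natDegree + 1 : ℕ) : A),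
        map_natCast, Complex.norm_natCast] at h2
      exact le_of_mul_le_mul_left h2 (by positivity)
  obtain ⟨n, h1, h2⟩ := hn
  have hn0 : 0 < n := by omega
  obtain ⟨z, hz⟩ := ZetaA_prim (A := A) hn0
  obtain ⟨i₀, hi₀, hmax⟩ := Finset.exists_max_image (Finset.range n)
    (fun i => W (P.eval (z ^ i))) ⟨0, Finset.mem_range.2 hn0⟩
  have hzi : ∀ i, W (z ^ i) = 1 := fun i => by
    rw [map_pow, ZetaA_one hn0 hz.pow_eq_one, one_pow]
  refine ⟨z ^ i₀, hzi i₀, fun j => ?_⟩
  by_cases hj : j < n
  · refine h2 _ _ _ (W.nonneg _) (fun i hi => ?_) (ZetaA_sum hz P h1 hj)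
    rw [map_mul, map_inv₀, map_pow, hzi i, one_pow, inv_one, mul_one]
    exact hmax i hi
  · rw [Polynomial.coeff_eq_zero_of_natDegree_lt (by omega), map_zero]
    exact W.nonneg _

end Pool.Agent.Helper45.NZ

end

section

namespace Pool.Agent.Helper29.TG
end Pool.Agent.Helper29.TG

/-!
# Project NZ: norms of linear polynomials and the coefficients of their product

Gauss's lemma (`Polynomial.gaussNorm_mul`) for nonarchimedean `W`, and Mahler measures
(`Polynomial.mahlerMeasure_mul`, `Polynomial.norm_coeff_le_choose_mul_mahlerMeasure`,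
`Polynomial.mahlerMeasure_le_sum_norm_coeff`) over `ℂ`:
`∏ nm (u i) ≤ ∏ 2 ^ ν M(p_i) = 2 ^ (ν t) M(P) ≤ 2 ^ (ν t) (ν t + 1) max ≤ 4 ^ (ν t) max`.
-/

set_option autoImplicit false

namespace Pool.Agent.Helper45.NZ

open Pool.Agent.Helper29.TG (nm)

variable {A : Type} [Field A] {W : AbsoluteValue A ℝ}

/-- The coefficients of the polynomial with given coefficients. -/
theorem zb_coeff {ν : ℕ} (x : Fin (ν + 1) → A) (a : Fin (ν + 1)) :
    (∑ b : Fin (ν + 1), Polynomial.C (x b) * Polynomial.X ^ (b : ℕ)).coeff (a : ℕ) = x a := by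
  rw [Polynomial.finsetSum_coeff, Finset.sum_eq_single a]
  · simp
  · intro b _ hb
    rw [Polynomial.coeff_C_mul_X_pow, if_neg]
    intro h
    exact hb (Fin.ext h.symm)
  · intro h
    exact absurd (Finset.mem_univ a) h

theorem zb_deg {ν : ℕ} (x : Fin (ν + 1) → A) :
    (∑ b : Fin (ν + 1), Polynomial.C (x b) * Polynomial.X ^ (b : ℕ)).natDegree ≤ ν := by
  refine Polynomial.natDegree_sum_le_of_forall_le _ _ (fun b _ => ?_)
  exact (Polynomial.natDegree_C_mul_X_pow_le _ _).trans (by omega)

theorem zb_na (h : IsNonarchimedean W) {ν t : ℕ} (u : Fin t → Fin (ν + 1) → A) :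
    ∃ j : ℕ, ∏ i, nm W (u i) ≤
      W ((∏ i, ∑ a : Fin (ν + 1), Polynomial.C (u i a) * Polynomial.X ^ (a : ℕ)).coeff j) := by
  set p : Fin t → Polynomial A :=
    fun i => ∑ a : Fin (ν + 1), Polynomial.C (u i a) * Polynomial.X ^ (a : ℕ) with hp
  have h1 : ∀ i, nm W (u i) ≤ (p i).gaussNorm W 1 := by
    intro i
    refine Pool.Agent.Helper29.TG.nm_le ((p i).gaussNorm_nonneg W zero_le_one) (fun a => ?_)
    have := (p i).le_gaussNorm W (zero_le_one : (0 : ℝ) ≤ 1) (a : ℕ)
    rw [one_pow, mul_one] at this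
    have h2 : (p i).coeff (a : ℕ) = u i a := zb_coeff (u i) a
    rwa [h2] at this
  have h3 : ∀ s : Finset (Fin t),
      ∏ i ∈ s, (p i).gaussNorm W 1 = (∏ i ∈ s, p i).gaussNorm W 1 := by
    intro s
    induction s using Finset.induction_on with
    | empty =>
      have : (1 : Polynomial A) = Polynomial.C 1 := by simp
      rw [Finset.prod_empty, Finset.prod_empty, this, Polynomial.gaussNorm_C, map_one]
    | insert i s hi ih =>
      rw [Finset.prod_insert hi, Finset.prod_insert hi, ih,
        Polynomial.gaussNorm_mul h one_pos]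
  obtain ⟨j, hj⟩ := Polynomial.exists_eq_gaussNorm W 1 (∏ i, p i)
  refine ⟨j, ?_⟩
  rw [one_pow, mul_one] at hj
  rw [← hj, ← h3]
  exact Finset.prod_le_prod (fun i _ => Pool.Agent.Helper29.TG.nm_nonneg W (u i))
    (fun i _ => h1 i)

theorem zb_ar {τ : A →+* ℂ} (hτ : ∀ a, W a = ‖τ a‖) {ν t : ℕ} (u : Fin t → Fin (ν + 1) → A) :
    ∃ j : ℕ, ∏ i, nm W (u i) ≤ (4 : ℝ) ^ (t * ν) *
      W ((∏ i, ∑ a : Fin (ν + 1), Polynomial.C (u i a) * Polynomial.X ^ (a : ℕ)).coeff j) := by
  set p : Fin t → Polynomial A :=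
    fun i => ∑ a : Fin (ν + 1), Polynomial.C (u i a) * Polynomial.X ^ (a : ℕ) with hp
  have h1 : ∀ i, nm W (u i) ≤ (2 : ℝ) ^ ν * ((p i).map τ).mahlerMeasure := by
    intro i
    have hM := ((p i).map τ).mahlerMeasure_nonneg
    refine Pool.Agent.Helper29.TG.nm_le (by positivity) (fun a => ?_)
    have h2 : ((p i).map τ).coeff (a : ℕ) = τ (u i a) := by
      rw [Polynomial.coeff_map]
      exact congrArg τ (zb_coeff (u i) a)
    rw [hτ, ← h2]
    refine (Polynomial.norm_coeff_le_choose_mul_mahlerMeasure (a : ℕ) ((p i).map τ)).trans ?_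
    refine mul_le_mul_of_nonneg_right ?_ hM
    have h4 : ((p i).map τ).natDegree ≤ ν :=
      (Polynomial.natDegree_map_le).trans (zb_deg (u i))
    have h5 : ((p i).map τ).natDegree.choose (a : ℕ) ≤ 2 ^ ν :=
      (Nat.choose_le_two_pow _ _).trans (Nat.pow_le_pow_right (by norm_num) h4)
    exact_mod_cast h5
  have h3 : ∀ s : Finset (Fin t),
      ∏ i ∈ s, ((p i).map τ).mahlerMeasure = ((∏ i ∈ s, p i).map τ).mahlerMeasure := by
    intro s
    induction s using Finset.induction_on with
    | empty =>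
      rw [Finset.prod_empty, Finset.prod_empty, Polynomial.map_one,
        Polynomial.mahlerMeasure_one]
    | insert i s hi ih =>
      rw [Finset.prod_insert hi, Finset.prod_insert hi, ih, Polynomial.map_mul,
        Polynomial.mahlerMeasure_mul]
  set Q : Polynomial ℂ := (∏ i, p i).map τ with hQ
  have hdeg : Q.natDegree ≤ t * ν := by
    refine (Polynomial.natDegree_map_le).trans ?_
    refine (Polynomial.natDegree_prod_le _ _).trans ?_
    have : ∑ i : Fin t, (p i).natDegree ≤ ∑ _i : Fin t, ν :=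
      Finset.sum_le_sum (fun i _ => zb_deg (u i))
    simpa using this
  obtain ⟨j, -, hj⟩ := Finset.exists_max_image (Finset.range (t * ν + 1))
    (fun n => ‖Q.coeff n‖) ⟨0, by simp⟩
  refine ⟨j, ?_⟩
  have h6 : Q.mahlerMeasure ≤ (2 : ℝ) ^ (t * ν) * ‖Q.coeff j‖ := by
    refine (Polynomial.mahlerMeasure_le_sum_norm_coeff Q).trans ?_
    rw [Polynomial.sum_over_range' Q (fun _ => norm_zero) (t * ν + 1) (by omega)]
    refine (Finset.sum_le_sum (fun n hn => hj n hn)).trans ?_
    rw [Finset.sum_const, Finset.card_range, nsmul_eq_mul]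
    refine mul_le_mul_of_nonneg_right ?_ (norm_nonneg _)
    have : t * ν + 1 ≤ 2 ^ (t * ν) := Nat.lt_two_pow_self
    exact_mod_cast this
  have h7 : W ((∏ i, p i).coeff j) = ‖Q.coeff j‖ := by
    rw [hQ, Polynomial.coeff_map, hτ]
  rw [h7]
  calc ∏ i, nm W (u i) ≤ ∏ i : Fin t, ((2 : ℝ) ^ ν * ((p i).map τ).mahlerMeasure) :=
        Finset.prod_le_prod (fun i _ => Pool.Agent.Helper29.TG.nm_nonneg W (u i))
          (fun i _ => h1 i)
    _ = (2 : ℝ) ^ (t * ν) * Q.mahlerMeasure := by
        rw [Finset.prod_mul_distrib, h3, Finset.prod_const, Finset.card_univ, Fintype.card_fin,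
          ← pow_mul, mul_comm ν t]
    _ ≤ (2 : ℝ) ^ (t * ν) * ((2 : ℝ) ^ (t * ν) * ‖Q.coeff j‖) :=
        mul_le_mul_of_nonneg_left h6 (by positivity)
    _ = (4 : ℝ) ^ (t * ν) * ‖Q.coeff j‖ := by
        rw [← mul_assoc, ← mul_pow]
        norm_num

theorem prod_le_coeff (hW : Pl W) {ν t : ℕ} (u : Fin t → Fin (ν + 1) → A) :
    ∃ j : ℕ, ∏ i, nm W (u i) ≤ Real.exp (kap W * (t * (ν * Real.log 4))) *
      W ((∏ i, ∑ a : Fin (ν + 1), Polynomial.C (u i a) * Polynomial.X ^ (a : ℕ)).coeff j) := by
  by_cases h : IsNonarchimedean W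
  · obtain ⟨j, hj⟩ := zb_na h u
    refine ⟨j, ?_⟩
    have hk : kap W = 0 := by
      unfold kap
      exact if_pos h
    rw [hk, zero_mul, Real.exp_zero, one_mul]
    exact hj
  · obtain ⟨τ, hτ⟩ := hW.resolve_left h
    obtain ⟨j, hj⟩ := zb_ar hτ u
    refine ⟨j, ?_⟩
    have hk : kap W = 1 := by
      unfold kap
      exact if_neg h
    have he : Real.exp (kap W * (t * (ν * Real.log 4))) = (4 : ℝ) ^ (t * ν) := by
      rw [hk, one_mul, ← mul_assoc, ← Nat.cast_mul, mul_comm, Real.exp_mul, Real.exp_log (by norm_num),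
        Real.rpow_natCast]
    rw [he]
    exact hj

end Pool.Agent.Helper45.NZ

end

section

/-!
# Project NZ: the height in an extension of number fields
-/

set_option autoImplicit false

namespace Pool.Agent.Helper45.NZ

open Height NumberField

/-- The archimedean part of the height as a product over embeddings. -/
theorem ScaleQ_arch {L : Type} [Field L] [NumberField L] {ι : Type} (x : ι → L) :
    ∏ v : InfinitePlace L, (⨆ i, v (x i)) ^ v.mult = ∏ σ : L →+* ℂ, ⨆ i, ‖σ (x i)‖ := by
  classical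
  rw [← Finset.prod_fiberwise Finset.univ InfinitePlace.mk (fun σ : L →+* ℂ => ⨆ i, ‖σ (x i)‖)]
  have h (w : InfinitePlace L) (φ) (hφ : φ ∈ ({φ | InfinitePlace.mk φ = w} : Finset _)) :
      (⨆ i, ‖φ (x i)‖) = ⨆ i, w (x i) := by
    rw [← (Finset.mem_filter.mp hφ).2]
    rfl
  simp_rw [Finset.prod_congr rfl (h _), Finset.prod_const, InfinitePlace.card_filter_mk_eq]

/-- The number of extensions of an embedding. -/
theorem ScaleQ_card {L M : Type} [Field L] [NumberField L] [Field M] [NumberField M]
    [Algebra L M] (τ : L →+* ℂ) [DecidableEq (L →+* ℂ)] :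
    ({σ : M →+* ℂ | σ.comp (algebraMap L M) = τ} : Finset (M →+* ℂ)).card =
      Module.finrank L M := by
  classical
  let _ : Algebra L ℂ := τ.toAlgebra
  rw [← AlgHom.card L M ℂ, ← Fintype.card_coe]
  refine Fintype.card_congr ⟨fun σ => ⟨σ.1, fun r => ?_⟩, fun φ => ⟨φ.toRingHom, ?_⟩, ?_, ?_⟩
  · exact congrArg (fun f : L →+* ℂ => f r) (Finset.mem_filter.1 σ.2).2
  · rw [Finset.mem_filter]
    exact ⟨Finset.mem_univ _, RingHom.ext fun r => φ.commutes r⟩
  · intro σ
    rfl
  · intro φ
    rfl

/-- The archimedean part of the height in an extension. -/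
theorem ScaleQ_arch_map {L M : Type} [Field L] [NumberField L] [Field M] [NumberField M]
    [Algebra L M] {ι : Type} (x : ι → L) :
    ∏ v : InfinitePlace M, (⨆ i, v (algebraMap L M (x i))) ^ v.mult =
      (∏ v : InfinitePlace L, (⨆ i, v (x i)) ^ v.mult) ^ Module.finrank L M := by
  classical
  rw [ScaleQ_arch fun i => algebraMap L M (x i), ScaleQ_arch,
    ← Finset.prod_fiberwise Finset.univ (fun σ : M →+* ℂ => σ.comp (algebraMap L M)),
    ← Finset.prod_pow]
  refine Finset.prod_congr rfl fun τ _ => ?_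
  rw [← ScaleQ_card (M := M) τ, ← Finset.prod_const]
  refine Finset.prod_congr rfl fun σ hσ => ?_
  rw [← (Finset.mem_filter.mp hσ).2]
  rfl

/-- The finite part of the height in an extension, for integral vectors. -/
theorem ScaleQ_fin_map {L M : Type} [Field L] [NumberField L] [Field M] [NumberField M]
    [Algebra L M] {ι : Type} [Finite ι] {x : ι → 𝓞 L} (hx : x ≠ 0) :
    ∏ᶠ v : FinitePlace M, ⨆ i, v (algebraMap L M (x i)) =
      (∏ᶠ v : FinitePlace L, ⨆ i, v (x i : L)) ^ Module.finrank L M := by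
  have hy : (fun i => algebraMap (𝓞 L) (𝓞 M) (x i)) ≠ 0 := by
    intro h
    apply hx
    funext i
    exact (map_eq_zero_iff _ (FaithfulSMul.algebraMap_injective (𝓞 L) (𝓞 M))).1 (congrFun h i)
  have h1 := absNorm_mul_finprod_finitePlace_eq_one hx
  have h2 := absNorm_mul_finprod_finitePlace_eq_one hy
  have h3 : Ideal.span (Set.range fun i => algebraMap (𝓞 L) (𝓞 M) (x i)) =
      (Ideal.span (Set.range x)).map (algebraMap (𝓞 L) (𝓞 M)) := by
    rw [Ideal.map_span, ← Set.range_comp]
    rfl
  have h4 : ∀ i, ((algebraMap (𝓞 L) (𝓞 M) (x i) : 𝓞 M) : M) = algebraMap L M (x i) := by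
    intro i
    rfl
  rw [h3, Ideal.absNorm_algebraMap, ← IsFractionRing.finrank_eq (𝓞 L) L (𝓞 M) M] at h2
  push_cast at h2
  simp only [h4] at h2
  have h5 := congrArg (fun a => a ^ Module.finrank L M) h1
  simp only [mul_pow, one_pow] at h5
  have h6 : ((Ideal.absNorm (Ideal.span (Set.range x)) : ℝ)) ^ Module.finrank L M ≠ 0 := by
    intro h
    rw [h, zero_mul] at h5
    exact zero_ne_one h5
  exact mul_left_cancel₀ h6 (h2.trans h5.symm)

/-- The height of a vector is multiplied by the degree of the extension. -/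
theorem logHeight_map {L M : Type} [Field L] [NumberField L] [Field M] [NumberField M]
    [Algebra L M] {ι : Type} [Finite ι] (x : ι → L) :
    logHeight (fun i => algebraMap L M (x i)) = Module.finrank L M * logHeight x := by
  classical
  by_cases hx : x = 0
  · subst hx
    have h1 : (fun i => algebraMap L M ((0 : ι → L) i)) = 0 := by
      funext i
      simp
    rw [h1, logHeight_zero, logHeight_zero, mul_zero]
  have := Fintype.ofFinite ι
  obtain ⟨b, hb⟩ := IsLocalization.exist_integer_multiples_of_finite (nonZeroDivisors (𝓞 L)) x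
  have hb0 : (algebraMap (𝓞 L) L b : L) ≠ 0 :=
    IsFractionRing.to_map_ne_zero_of_mem_nonZeroDivisors b.2
  choose ξ hξ using hb
  have hξ' : ∀ i, (ξ i : L) = algebraMap (𝓞 L) L b * x i := by
    intro i
    have := hξ i
    rw [Algebra.smul_def] at this
    exact this
  have hξ0 : ξ ≠ 0 := by
    intro h
    apply hx
    funext i
    have h1 := hξ' i
    rw [h] at h1
    simp only [Pi.zero_apply, map_zero] at h1
    rcases mul_eq_zero.1 h1.symm with h2 | h2
    · exact absurd h2 hb0
    · exact h2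
  have e1 : (fun i => (ξ i : L)) = (algebraMap (𝓞 L) L b : L) • x := by
    funext i
    rw [hξ', Pi.smul_apply, smul_eq_mul]
  have e2 : (fun i => algebraMap L M (ξ i : L)) =
      algebraMap L M (algebraMap (𝓞 L) L b) • fun i => algebraMap L M (x i) := by
    funext i
    rw [hξ', Pi.smul_apply, smul_eq_mul, map_mul]
  have hb1 : algebraMap L M (algebraMap (𝓞 L) L b) ≠ 0 := by
    rw [Ne, map_eq_zero_iff _ (algebraMap L M).injective]
    exact hb0
  rw [← logHeight_smul_eq_logHeight _ hb1, ← e2, ← logHeight_smul_eq_logHeight x hb0, ← e1,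
    logHeight_eq_log_mulHeight, logHeight_eq_log_mulHeight, ← Real.log_pow]
  have hn1 : (fun i => (ξ i : L)) ≠ 0 := by
    intro h
    apply hξ0
    funext i
    exact RingOfIntegers.ext (congrFun h i)
  have hn2 : (fun i => algebraMap L M (ξ i : L)) ≠ 0 := by
    intro h
    apply hn1
    funext i
    exact (map_eq_zero_iff _ (algebraMap L M).injective).1 (congrFun h i)
  rw [NumberField.mulHeight_eq hn1, NumberField.mulHeight_eq hn2, mul_pow,
    ScaleQ_arch_map, ScaleQ_fin_map hξ0]

end Pool.Agent.Helper45.NZ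

end

section

namespace Pool.Agent.Helper29.TG
end Pool.Agent.Helper29.TG

/-!
# Project NZ: the absolute height
-/

set_option autoImplicit false

namespace Pool.Agent.Helper45.NZ

open MvPolynomial Height AdmissibleAbsValues

open Pool.Agent.Helper29.TG (nm ls FS Mem)

variable {A : Type} [Field A] [CharZero A]

/-- A finite subextension of `A` which is contained in the image of the number field `M`. -/
theorem Aht_embed {M : Type} [Field M] [NumberField M] [Algebra M A]
    (L : IntermediateField ℚ A) (hL : ∀ l ∈ L, ∃ m : M, algebraMap M A m = l) :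
    ∃ ψ : L →ₐ[ℚ] M, ∀ l : L, algebraMap M A (ψ l) = l := by
  let φ : M →ₐ[ℚ] A := (algebraMap M A).toRatAlgHom
  have hφ : ∀ m, φ m = algebraMap M A m := fun m => rfl
  have h1 : L ≤ φ.fieldRange := by
    intro l hl
    obtain ⟨m, hm⟩ := hL l hl
    exact ⟨m, hm⟩
  let e : M ≃ₐ[ℚ] φ.fieldRange := AlgEquiv.ofInjectiveField φ
  refine ⟨(e.symm : φ.fieldRange →ₐ[ℚ] M).comp (IntermediateField.inclusion h1), fun l => ?_⟩
  have h2 : ((e (e.symm (IntermediateField.inclusion h1 l)) : φ.fieldRange) : A) =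
      ((IntermediateField.inclusion h1 l : φ.fieldRange) : A) := by
    rw [AlgEquiv.apply_symm_apply]
  exact h2

/-- The absolute height can be computed in any number field which contains the coordinates. -/
theorem aht_map {M : Type} [Field M] [NumberField M] [Algebra M A] {ι : Type} [Finite ι]
    (x : ι → M) :
    aht (fun i => algebraMap M A (x i)) = logHeight x / (Module.finrank ℚ M : ℝ) := by
  classical
  set y : ι → A := fun i => algebraMap M A (x i) with hy
  have hint : ∀ m : M, IsIntegral ℚ (algebraMap M A m) := by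
    intro m
    have h1 : IsIntegral ℚ m := Algebra.IsIntegral.isIntegral m
    exact h1.map ((algebraMap M A).toRatAlgHom)
  have hfd : FiniteDimensional ℚ (IntermediateField.adjoin ℚ (Set.range y)) := by
    have : Finite (Set.range y) := Set.finite_range y
    refine IntermediateField.finiteDimensional_adjoin ?_
    rintro _ ⟨i, rfl⟩
    exact hint (x i)
  have hL : ∀ l ∈ IntermediateField.adjoin ℚ (Set.range y), ∃ m : M, algebraMap M A m = l := by
    have h1 : IntermediateField.adjoin ℚ (Set.range y) ≤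
        ((algebraMap M A).toRatAlgHom : M →ₐ[ℚ] A).fieldRange := by
      rw [IntermediateField.adjoin_le_iff]
      rintro _ ⟨i, rfl⟩
      exact ⟨x i, rfl⟩
    intro l hl
    obtain ⟨m, hm⟩ := h1 hl
    exact ⟨m, hm⟩
  obtain ⟨ψ, hψ⟩ := Aht_embed (M := M) _ hL
  unfold aht
  rw [dif_pos hfd]
  have : NumberField (IntermediateField.adjoin ℚ (Set.range y)) :=
    { to_charZero := inferInstance, to_finiteDimensional := hfd }
  let _ : Algebra (IntermediateField.adjoin ℚ (Set.range y)) M := ψ.toRingHom.toAlgebra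
  have : IsScalarTower ℚ (IntermediateField.adjoin ℚ (Set.range y)) M :=
    IsScalarTower.of_algebraMap_eq fun q => (ψ.commutes q).symm
  have h2 := logHeight_map (M := M) (fun i => (⟨y i, IntermediateField.subset_adjoin ℚ _ ⟨i, rfl⟩⟩ :
      IntermediateField.adjoin ℚ (Set.range y)))
  have h3 : (fun i => algebraMap (IntermediateField.adjoin ℚ (Set.range y)) M
      (⟨y i, IntermediateField.subset_adjoin ℚ _ ⟨i, rfl⟩⟩ :
      IntermediateField.adjoin ℚ (Set.range y))) = x := by
    funext i
    apply (algebraMap M A).injective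
    exact hψ _
  rw [h3] at h2
  have h4 := Module.finrank_mul_finrank ℚ (IntermediateField.adjoin ℚ (Set.range y)) M
  have h5 : (Module.finrank ℚ (IntermediateField.adjoin ℚ (Set.range y)) : ℝ) ≠ 0 := by
    have := Module.finrank_pos (R := ℚ) (M := IntermediateField.adjoin ℚ (Set.range y))
    positivity
  have h6 : (Module.finrank (IntermediateField.adjoin ℚ (Set.range y)) M : ℝ) ≠ 0 := by
    have h7 : 0 < Module.finrank ℚ M := Module.finrank_pos
    rw [← h4] at h7
    have h8 := Nat.pos_of_mul_pos_left h7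
    positivity
  rw [h2, ← h4]
  push_cast
  field_simp

/-- Finitely many elements are in a number field. -/
theorem exists_field [Algebra.IsAlgebraic ℚ A] {τ : Type} [Finite τ] (a : τ → A) :
    ∃ (M : Type) (_ : Field M) (_ : NumberField M) (_ : Algebra M A) (α : τ → M),
      ∀ i, algebraMap M A (α i) = a i := by
  have hfd : FiniteDimensional ℚ (IntermediateField.adjoin ℚ (Set.range a)) := by
    have : Finite (Set.range a) := Set.finite_range a
    refine IntermediateField.finiteDimensional_adjoin ?_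
    rintro _ ⟨i, rfl⟩
    exact Algebra.IsIntegral.isIntegral (a i)
  exact ⟨IntermediateField.adjoin ℚ (Set.range a), inferInstance,
    { to_charZero := inferInstance, to_finiteDimensional := hfd }, inferInstance,
    fun i => ⟨a i, IntermediateField.subset_adjoin ℚ _ ⟨i, rfl⟩⟩, fun i => rfl⟩

theorem aht_nonneg [Algebra.IsAlgebraic ℚ A] {ι : Type} [Finite ι] (x : ι → A) : 0 ≤ aht x := by
  obtain ⟨M, _, _, _, α, hα⟩ := exists_field x
  have h : x = fun i => algebraMap M A (α i) := funext fun i => (hα i).symm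
  rw [h, aht_map]
  exact div_nonneg (logHeight_nonneg _) (Nat.cast_nonneg _)

theorem aht_smul [Algebra.IsAlgebraic ℚ A] {ι : Type} [Finite ι] {c : A} (hc : c ≠ 0)
    (x : ι → A) : aht (fun i => c * x i) = aht x := by
  obtain ⟨M, _, _, _, α, hα⟩ := exists_field (fun o : Option ι => o.elim c x)
  have h : x = fun i => algebraMap M A (α (some i)) := funext fun i => (hα (some i)).symm
  have h1 : algebraMap M A (α none) = c := hα none
  have h2 : (fun i => c * x i) = fun i => algebraMap M A ((α none • fun i => α (some i)) i) := by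
    funext i
    rw [h]
    simp [h1]
  have h3 : α none ≠ 0 := by
    intro h4
    rw [h4, map_zero] at h1
    exact hc h1.symm
  rw [h2, aht_map, logHeight_smul_eq_logHeight _ h3, h, aht_map]

end Pool.Agent.Helper45.NZ

end

section

namespace Pool.Agent.Helper29.TG
end Pool.Agent.Helper29.TG

/-!
# Project NZ: extension of the absolute values of a number field
-/

set_option autoImplicit false

namespace Pool.Agent.Helper45.NZ

open MvPolynomial Height AdmissibleAbsValues

open Pool.Agent.Helper29.TG (nm ls FS Mem)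

/-- An absolute value given by an embedding in the complex numbers is not nonarchimedean. -/
theorem ext_not_na {B : Type} [Field B] {W : AbsoluteValue B ℝ} {τ : B →+* ℂ}
    (h : ∀ a, W a = ‖τ a‖) : ¬ IsNonarchimedean W := by
  intro hna
  have h1 : W ((1 : B) + 1) ≤ max (W 1) (W 1) := hna 1 1
  rw [max_self, map_one, h, map_add, map_one] at h1
  have h2 : ‖(1 : ℂ) + 1‖ = 2 := by norm_num
  rw [h2] at h1
  norm_num at h1

variable {A : Type} [Field A] [CharZero A] {M : Type} [Field M] [NumberField M] [Algebra M A]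

omit [CharZero A] [Algebra M A] in
theorem ext_arch_place {v : AbsoluteValue M ℝ} (hv : v ∈ archAbsVal (K := M)) :
    ∃ φ : M →+* ℂ, ∀ a, v a = ‖φ a‖ := by
  have hv' : v ∈ NumberField.multisetInfinitePlace M := hv
  rw [NumberField.mem_multisetInfinitePlace] at hv'
  obtain ⟨φ, hφ⟩ := hv'
  exact ⟨φ, fun a => by rw [← hφ]; rfl⟩

/-- The absolute values of a number field extend to the algebraic numbers. -/
theorem exists_ext [Algebra.IsAlgebraic ℚ A] {v : AbsoluteValue M ℝ} (hv : Mem v) :
    ∃ W : AbsoluteValue A ℝ, Pl W ∧ (∀ a : M, W (algebraMap M A a) = v a) ∧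
      (IsNonarchimedean v ↔ IsNonarchimedean W) := by
  have halg : Algebra.IsAlgebraic M A := Algebra.IsAlgebraic.tower_top (K := ℚ) M
  rcases hv with hv | hv
  · obtain ⟨φ, hφ⟩ := ext_arch_place hv
    let _ : Algebra M ℂ := φ.toAlgebra
    let τ : A →ₐ[M] ℂ := IsAlgClosed.lift
    refine ⟨NumberField.place τ.toRingHom, Or.inr ⟨τ.toRingHom, fun a => rfl⟩, fun a => ?_,
      iff_of_false (ext_not_na hφ) (ext_not_na (τ := τ.toRingHom) fun a => rfl)⟩
    change ‖τ (algebraMap M A a)‖ = v a
    rw [τ.commutes, hφ]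
    rfl
  · have hvna := isNonarchimedean v hv
    have hv' : NumberField.IsFinitePlace v := hv
    set w : NumberField.FinitePlace M := ⟨v, hv'⟩ with hw
    set P := w.maximalIdeal with hPdef
    have hwP : NumberField.FinitePlace.mk P = w := NumberField.FinitePlace.mk_maximalIdeal w
    obtain ⟨p, hp, hpP⟩ := Pool.Agent.Helper85.Sub.exists_prime_mem P
    have hpf : Fact p.Prime := ⟨hp⟩
    obtain ⟨n, hn0, ⟨σ₀, hσ₀⟩, -, hall⟩ := Pool.Agent.Helper85.Sub.card_fiber (p := p) P hpP
    have hvσ : ∀ x : M, v x = ‖σ₀ x‖ ^ n := by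
      intro x
      have h1 := hall σ₀ hσ₀ x
      rw [hwP] at h1
      exact h1
    let _ : Algebra M (PadicAlgCl p) := σ₀.toAlgebra
    let τ : A →ₐ[M] PadicAlgCl p := IsAlgClosed.lift
    have hna : ∀ x y : PadicAlgCl p, ‖x + y‖ ≤ max ‖x‖ ‖y‖ := PadicAlgCl.isNonarchimedean p
    have hW := Pool.Agent.Helper88.ZN.powAbs_na τ.toRingHom n hn0 hna
    refine ⟨Pool.Agent.Helper88.ZN.powAbs τ.toRingHom n hn0 hna, Or.inl hW, fun a => ?_,
      iff_of_true hvna hW⟩
    change ‖τ (algebraMap M A a)‖ ^ n = v a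
    rw [τ.commutes, hvσ]
    rfl

/-- The nonarchimedean ones among the absolute values of a number field. -/
theorem kap_arch {v : AbsoluteValue M ℝ} (hv : v ∈ archAbsVal (K := M)) : kap v = 1 := by
  obtain ⟨φ, hφ⟩ := ext_arch_place hv
  unfold kap
  rw [if_neg (ext_not_na hφ)]

theorem kap_nonarch {v : AbsoluteValue M ℝ} (hv : v ∈ nonarchAbsVal (K := M)) : kap v = 0 := by
  unfold kap
  rw [if_pos (isNonarchimedean v hv)]

omit [NumberField M] [CharZero A] in
theorem kap_ext {v : AbsoluteValue M ℝ} {W : AbsoluteValue A ℝ}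
    (h2 : IsNonarchimedean v ↔ IsNonarchimedean W) : kap W = kap v := by
  unfold kap
  by_cases h : IsNonarchimedean W
  · rw [if_pos h, if_pos (h2.2 h)]
  · rw [if_neg h, if_neg (fun h' => h (h2.1 h'))]

omit [CharZero A] [NumberField M] [Algebra M A] in
theorem ext_iSup {σ : Type} {s t : Finset (σ →₀ ℕ)} (h : s = t) (f g : (σ →₀ ℕ) → ℝ)
    (hfg : ∀ m, f m = g m) : (⨆ m : s, f m) = ⨆ m : t, g m := by
  subst h
  exact iSup_congr fun m => hfg m

omit [NumberField M] [CharZero A] in
theorem lp_ext {σ : Type} {v : AbsoluteValue M ℝ} {W : AbsoluteValue A ℝ}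
    (h1 : ∀ a : M, W (algebraMap M A a) = v a) (h2 : IsNonarchimedean v ↔ IsNonarchimedean W)
    (G : MvPolynomial σ M) : lp W (map (algebraMap M A) G) = lp v G := by
  have hs : (map (algebraMap M A) G).support = G.support :=
    support_map_of_injective _ (algebraMap M A).injective
  have hc : ∀ m, W ((map (algebraMap M A) G).coeff m) = v (G.coeff m) := fun m => by
    rw [coeff_map, h1]
  have : sz W (map (algebraMap M A) G) = sz v G := by
    unfold sz
    by_cases h : IsNonarchimedean W
    · rw [if_pos h, if_pos (h2.2 h)]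
      exact ext_iSup hs _ _ hc
    · rw [if_neg h, if_neg (fun h' => h (h2.1 h')), hs]
      exact Finset.sum_congr rfl fun m _ => hc m
  rw [lp, lp, this]

omit [NumberField M] [CharZero A] in
theorem nm_ext {ι : Type} {v : AbsoluteValue M ℝ} {W : AbsoluteValue A ℝ}
    (h1 : ∀ a : M, W (algebraMap M A a) = v a) (x : ι → M) :
    nm W (fun i => algebraMap M A (x i)) = nm v x := by
  unfold nm
  exact iSup_congr fun i => h1 (x i)

end Pool.Agent.Helper45.NZ

end
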