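import Pool.Agent.Helper72.TM2.T40
import Pool.Agent.Helper72.TM2.T37
import Pool.Agent.Helper72.TM2.T04
import Pool.Agent.Helper72.TM2.T30
import Pool.Agent.Helper72.TM2.T41

section

namespace Pool.Agent.Helper30.ZB
end Pool.Agent.Helper30.ZB

/-!
# A point of a curve is an ample divisor

`J` is a homogeneous prime ideal of dimension at most one (in projective space), `y` a zero of `J`.
There is a form `H` outside `J` of degree `a` such that `l ^ k * H ∈ J + (ℓ ^ (a + 1))` for all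
linear forms `l` which vanish at `y`; here `ℓ` is a fixed linear form which vanishes at `y`.
-/

set_option autoImplicit false

namespace Pool.Agent.Helper30.TY

open MvPolynomial

open Pool.Agent.Helper30.ZB

variable {ν : ℕ} {K : Type} [Field K]

theorem telescope {J : Ideal (MvPolynomial (Fin (ν + 1)) K)} (hp : J.IsPrime) (hJ : Hom J)
    {h : MvPolynomial (Fin (ν + 1)) K} {e : ℕ} (hh : h.IsHomogeneous e) (hhJ : h ∉ J) (m n : ℕ) :
    R J (m + n * e) = R J m + ∑ i ∈ Finset.range n, R (J ⊔ Ideal.span {h}) (m + (i + 1) * e) := by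
  induction n with
  | zero => simp
  | succ n ih =>
    have h1 := Dim_add hp hJ hh hhJ (m + n * e)
    rw [show m + n * e + e = m + (n + 1) * e by ring] at h1
    rw [h1, ih, Finset.sum_range_succ]
    ring

theorem bounded {J : Ideal (MvPolynomial (Fin (ν + 1)) K)} (hp : J.IsPrime) (hJ : Hom J)
    {δ c₀ : ℕ} (hδ : ∀ m, R J m ≤ δ * m + c₀) {h : MvPolynomial (Fin (ν + 1)) K} {e : ℕ}
    (he : 0 < e) (hh : h.IsHomogeneous e) (hhJ : h ∉ J) (m₀ : ℕ) :
    ∃ m, m₀ ≤ m ∧ R (J ⊔ Ideal.span {h}) m ≤ e * δ := by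
  by_contra hcon
  push Not at hcon
  have h1 : ∀ n, n * (e * δ + 1) ≤ δ * (m₀ + n * e) + c₀ := by
    intro n
    have h2 := telescope hp hJ hh hhJ m₀ n
    have h3 := hδ (m₀ + n * e)
    have h4 : n * (e * δ + 1) ≤
        ∑ i ∈ Finset.range n, R (J ⊔ Ideal.span {h}) (m₀ + (i + 1) * e) := by
      calc n * (e * δ + 1) = ∑ i ∈ Finset.range n, (e * δ + 1) := by simp
        _ ≤ _ := Finset.sum_le_sum fun i _ => hcon _ (by nlinarith)
    omega
  have h5 := h1 (δ * m₀ + c₀ + 1)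
  nlinarith

/-- `l` has no zero on `J = ℓ ^ a = 0`. -/
theorem misses_pow {J : Ideal (MvPolynomial (Fin (ν + 1)) K)} (hJ : Hom J)
    {ℓ c : Fin (ν + 1) → K} {m₁ : ℕ} (hm : Misses (J ⊔ Ideal.span {lf K ℓ}) c m₁) (a : ℕ) :
    Misses (J ⊔ Ideal.span {lf K ℓ ^ a}) c (m₁ + a) := by
  have hI : Hom (J ⊔ Ideal.span {lf K c}) := Dim_hom_sup hJ (Quot_lf_hom c)
  have hm' : Misses (J ⊔ Ideal.span {lf K c}) ℓ m₁ := by
    intro m hmm p hp
    have h1 := hm m hmm p hp
    rwa [sup_right_comm] at h1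
  intro m hmm p hp
  obtain ⟨t, rfl⟩ := Nat.exists_eq_add_of_le hmm
  have hp' : p.IsHomogeneous (m₁ + t + a) := by
    rwa [show m₁ + t + a = m₁ + a + t by ring]
  obtain ⟨p', -, h1⟩ := Quot_div_pow hI hm' (m := m₁ + t) (by omega) a hp'
  rw [sup_right_comm]
  have h2 : p = (p - lf K ℓ ^ a * p') + lf K ℓ ^ a * p' := by ring
  rw [h2]
  exact Ideal.add_mem _ (Ideal.mem_sup_left h1)
    (Ideal.mem_sup_right (Ideal.mul_mem_right _ _ (Ideal.mem_span_singleton_self _)))

/-- The relation between the Hilbert functions. -/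
theorem exists_dims [Infinite K] {J : Ideal (MvPolynomial (Fin (ν + 1)) K)} (hp : J.IsPrime)
    (hJ : Hom J) {δ c₀ : ℕ} (hδ : ∀ m, R J m ≤ δ * m + c₀) {ℓ : Fin (ν + 1) → K}
    (hℓ : lf K ℓ ∉ J) :
    ∃ (c : Fin (ν + 1) → K) (m₂ D : ℕ),
      (∀ a, ∃ m₃, Misses (J ⊔ Ideal.span {lf K ℓ ^ a}) c m₃ ∧
        FiniteDimensional K (Qo (J ⊔ Ideal.span {lf K ℓ ^ a}) c) ∧
        Module.finrank K (Qo (J ⊔ Ideal.span {lf K ℓ ^ a}) c) = a * D ∧
        ∀ m, m₃ ≤ m → ∀ p : MvPolynomial (Fin (ν + 1)) K, p.IsHomogeneous m →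
          cls (J ⊔ Ideal.span {lf K ℓ ^ a}) c p = 0 → p ∈ J ⊔ Ideal.span {lf K ℓ ^ a}) ∧
      ∀ s, R J (m₂ + s) = R J m₂ + s * D := by
  have hℓh : (lf K ℓ).IsHomogeneous 1 := Quot_lf_hom ℓ
  have hℓa : ∀ a, (lf K ℓ ^ a).IsHomogeneous a := fun a => by
    have := hℓh.pow a
    rwa [one_mul] at this
  have hℓJ : ∀ a, lf K ℓ ^ a ∉ J := fun a h => hℓ (hp.mem_of_pow_mem a h)
  obtain ⟨c, m₁, hmiss⟩ := Lin_exists (k := K) (I := J ⊔ Ideal.span {lf K ℓ}) (B := 1 * δ)
    (fun m₀ => bounded hp hJ hδ one_pos hℓh hℓ m₀)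
  have hI : ∀ a, Hom (J ⊔ Ideal.span {lf K ℓ ^ a}) := fun a => Dim_hom_sup hJ (hℓa a)
  obtain ⟨-, m₂, hm₂, hmain⟩ := Quot_main (Dim_hom_sup hJ hℓh) hmiss
  set D := Module.finrank K (Qo (J ⊔ Ideal.span {lf K ℓ}) c) with hD
  have hR : ∀ s, R J (m₂ + s) = R J m₂ + s * D := by
    intro s
    have h1 := telescope hp hJ hℓh hℓ m₂ s
    rw [mul_one] at h1
    rw [h1]
    congr 1
    rw [Finset.sum_congr rfl fun i _ => (hmain (m₂ + (i + 1) * 1) (by omega)).2.2]
    rw [Finset.sum_const, Finset.card_range, smul_eq_mul]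
  refine ⟨c, m₂, D, fun a => ?_, hR⟩
  have hma := misses_pow hJ hmiss a
  obtain ⟨hfin, m₃, hm₃, hmain₃⟩ := Quot_main (hI a) hma
  refine ⟨m₃, fun m hm p hp => hma m (by omega) p hp, hfin, ?_, fun m hm p hp =>
    (hmain₃ m hm).2.1 p hp⟩
  have h1 := Dim_add hp hJ (hℓa a) (hℓJ a) (m₂ + m₃)
  have h2 := (hmain₃ (m₂ + m₃ + a) (by omega)).2.2
  have h3 := hR (m₃ + a)
  have h4 := hR m₃
  rw [show m₂ + (m₃ + a) = m₂ + m₃ + a by ring] at h3
  rw [h3, h4, h2, add_mul] at h1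
  omega

theorem eval_lf (c : Fin (ν + 1) → K) (y : Fin (ν + 1) → K) :
    eval y (lf K c) = ∑ i, c i * y i := by
  unfold lf
  simp

/-- **A point of a curve is an ample divisor.** -/
theorem exists_thick [Infinite K] {J : Ideal (MvPolynomial (Fin (ν + 1)) K)} (hp : J.IsPrime)
    (hJ : Hom J) {δ c₀ : ℕ} (hδ : ∀ m, R J m ≤ δ * m + c₀) {ℓ : Fin (ν + 1) → K}
    (hℓ : lf K ℓ ∉ J) {y : Fin (ν + 1) → K} (hy : y ≠ 0) (hyJ : ∀ g ∈ J, eval y g = 0)
    (hyℓ : eval y (lf K ℓ) = 0) :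
    ∃ (a k : ℕ) (H : MvPolynomial (Fin (ν + 1)) K), H.IsHomogeneous a ∧ H ∉ J ∧
      ∀ l : Fin (ν + 1) → K, eval y (lf K l) = 0 →
        ∃ B : MvPolynomial (Fin (ν + 1)) K, B.IsHomogeneous k ∧
          lf K l ^ (k + 1) * H - lf K ℓ ^ (a + 1) * B ∈ J := by
  classical
  obtain ⟨c, m₂, D, hA, hR⟩ := exists_dims hp hJ hδ hℓ
  -- `l` does not vanish at `y`
  have hcy : eval y (lf K c) ≠ 0 := by
    intro h0
    obtain ⟨m₃, hm₃, -, -, -⟩ := hA 1
    apply hy
    funext i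
    have h1 := hm₃ (m₃ + 1) (by omega) (X i ^ (m₃ + 1)) (isHomogeneous_X_pow i _)
    have h2 : ∀ p ∈ (J ⊔ Ideal.span {lf K ℓ ^ 1}) ⊔ Ideal.span {lf K c}, eval y p = 0 := by
      intro p hp
      obtain ⟨z₁, hz₁, z₂, hz₂, rfl⟩ := Submodule.mem_sup.1 hp
      obtain ⟨j, hj, z₃, hz₃, rfl⟩ := Submodule.mem_sup.1 hz₁
      obtain ⟨v, rfl⟩ := Ideal.mem_span_singleton'.1 hz₂
      obtain ⟨u, rfl⟩ := Ideal.mem_span_singleton'.1 hz₃
      rw [map_add, map_add, hyJ j hj, map_mul, map_mul, h0, map_pow, hyℓ]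
      simp
    have h3 := h2 _ h1
    rw [map_pow, eval_X] at h3
    exact eq_zero_of_pow_eq_zero h3
  set y' : Fin (ν + 1) → K := (eval y (lf K c))⁻¹ • y with hy'
  have hlf' : ∀ l : Fin (ν + 1) → K, eval y' (lf K l) = (eval y (lf K c))⁻¹ * eval y (lf K l) := by
    intro l
    generalize (eval y (lf K c))⁻¹ = b at hy'
    rw [eval_lf, eval_lf, hy', Finset.mul_sum]
    refine Finset.sum_congr rfl fun i _ => ?_
    rw [Pi.smul_apply, smul_eq_mul]
    ring
  let M : Ideal (MvPolynomial (Fin (ν + 1)) K) := RingHom.ker (eval y')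
  have hMmem : ∀ p, p ∈ M ↔ eval y' p = 0 := fun p => RingHom.mem_ker
  have hM : M ≠ ⊤ := by
    rw [Ideal.ne_top_iff_one, hMmem, map_one]
    exact one_ne_zero
  have hJM : J ≤ M := by
    intro g hg
    rw [hMmem, ← sum_homogeneousComponent g, map_sum]
    refine Finset.sum_eq_zero fun i _ => ?_
    have h1 := hyJ _ (hJ g hg i)
    have h2 : eval y' (homogeneousComponent i g) =
        (eval y (lf K c))⁻¹ ^ i * eval y (homogeneousComponent i g) := by
      have h3 := Pool.Agent.Helper36.aeval_smul_homogeneous (homogeneousComponent_isHomogeneous i g)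
        (eval y (lf K c))⁻¹ y
      have h4 := congrArg (fun φ => φ (homogeneousComponent i g))
        (coe_aeval_eq_eval ((eval y (lf K c))⁻¹ • y))
      have h5 := congrArg (fun φ => φ (homogeneousComponent i g)) (coe_aeval_eq_eval y)
      exact h4.symm.trans (h3.trans (congrArg (fun b => (eval y (lf K c))⁻¹ ^ i * b) h5))
    rw [h2, h1, mul_zero]
  have hℓM : lf K ℓ ∈ M := by
    rw [hMmem, hlf', hyℓ, mul_zero]
  have hcM : lf K c - 1 ∈ M := by
    rw [hMmem, map_sub, hlf', map_one, inv_mul_cancel₀ hcy, sub_self]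
  have hfin : ∀ a, FiniteDimensional K (Qo (J ⊔ Ideal.span {lf K ℓ ^ a}) c) := fun a => by
    obtain ⟨m₃, -, h, -, -⟩ := hA a
    exact h
  have hdim : ∀ a, Module.finrank K (Qo (J ⊔ Ideal.span {lf K ℓ ^ a}) c) = a * D := fun a => by
    obtain ⟨m₃, -, -, h, -⟩ := hA a
    exact h
  -- the form `H`
  set a : ℕ := m₂ + D * (m₂ + 1) with ha
  obtain ⟨k₀, hk₀⟩ := exists_large hfin hdim hM hJM hℓM hcM (a + 1)
  set I' : Ideal (MvPolynomial (Fin (ν + 1)) K) :=
    (J ⊔ Ideal.span {lf K ℓ ^ (a + 1)}) ⊔ Ideal.span {lf K c - 1} with hI'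
  haveI : FiniteDimensional K (MvPolynomial (Fin (ν + 1)) K ⧸ I') := hfin (a + 1)
  haveI := Dim_finite J a
  let φ : (MvPolynomial (Fin (ν + 1)) K ⧸ J) →ₗ[K] (MvPolynomial (Fin (ν + 1)) K ⧸ I') :=
    (Ideal.Quotient.factorₐ K (le_sup_left.trans le_sup_left : J ≤ I')).toLinearMap
  let θ : W J a →ₗ[K] ((MvPolynomial (Fin (ν + 1)) K ⧸ I') ⧸ Nsp (K := K) M I' k₀) :=
    (Nsp (K := K) M I' k₀).mkQ ∘ₗ φ.domRestrict (W J a)
  have hθ : ¬ Function.Injective θ := by
    intro hinj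
    have h1 := LinearMap.finrank_le_finrank_of_injective hinj
    have h2 := Submodule.finrank_quotient_add_finrank (Nsp (K := K) M I' k₀)
    have h3 : Module.finrank K (MvPolynomial (Fin (ν + 1)) K ⧸ I') = (a + 1) * D := hdim (a + 1)
    have h4 : R J a = R J m₂ + D * (m₂ + 1) * D := by
      rw [ha]
      exact hR _
    change R J a ≤ _ at h1
    have h5 : R J a + (a + 1) ≤ (a + 1) * D := by omega
    rw [h4] at h5
    have h6 : (a + 1) * D = D * (m₂ + 1) * D + D * (m₂ + 1) := by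
      rw [ha]
      ring
    rw [h6] at h5
    omega
  obtain ⟨x, hx, hx0⟩ : ∃ x : W J a, θ x = 0 ∧ x ≠ 0 := by
    by_contra hcon
    push Not at hcon
    apply hθ
    rw [← LinearMap.ker_eq_bot, LinearMap.ker_eq_bot']
    exact hcon
  obtain ⟨x, hxW⟩ := x
  obtain ⟨H, hH, rfl⟩ := Dim_mem.1 hxW
  have hHJ : H ∉ J := by
    intro h
    apply hx0
    exact Subtype.ext (Ideal.Quotient.eq_zero_iff_mem.2 h)
  have hHN : Ideal.Quotient.mk I' H ∈ Nsp (K := K) M I' k₀ := by
    have h1 : (Nsp (K := K) M I' k₀).mkQ (Ideal.Quotient.mk I' H) = 0 := hx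
    rwa [Submodule.mkQ_apply, Submodule.Quotient.mk_eq_zero] at h1
  obtain ⟨m₃, -, -, -, hm₃⟩ := hA (a + 1)
  refine ⟨a, k₀ + m₃, H, hH, hHJ, fun l hl => ?_⟩
  have hlM : lf K l ∈ M := by
    rw [hMmem, hlf', hl, mul_zero]
  have h1 : lf K l ^ (k₀ + m₃ + 1) ∈ M ^ k₀ :=
    Ideal.pow_le_pow_right (by omega) (Ideal.pow_mem_pow hlM _)
  have h2 := mem_Nsp.1 hHN _ h1
  have h3 : cls (J ⊔ Ideal.span {lf K ℓ ^ (a + 1)}) c (lf K l ^ (k₀ + m₃ + 1) * H) = 0 := h2
  have hhom : (lf K l ^ (k₀ + m₃ + 1) * H).IsHomogeneous (k₀ + m₃ + 1 + a) := by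
    have h4 := ((Quot_lf_hom (K := K) l).pow (k₀ + m₃ + 1)).mul hH
    rwa [one_mul] at h4
  have h4 := hm₃ _ (by omega) _ hhom h3
  -- extract `B`
  obtain ⟨j, hj, z, hz, hjz⟩ := Submodule.mem_sup.1 h4
  obtain ⟨u, rfl⟩ := Ideal.mem_span_singleton'.1 hz
  refine ⟨homogeneousComponent (k₀ + m₃) u, homogeneousComponent_isHomogeneous _ _, ?_⟩
  have hℓa : (lf K ℓ ^ (a + 1)).IsHomogeneous (a + 1) := by
    have := (Quot_lf_hom (K := K) ℓ).pow (a + 1)
    rwa [one_mul] at this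
  have h5 := congrArg (homogeneousComponent (k₀ + m₃ + (a + 1))) hjz
  rw [map_add, mul_comm u, Dim_comp_mul hℓa] at h5
  have h6 : homogeneousComponent (k₀ + m₃ + (a + 1)) (lf K l ^ (k₀ + m₃ + 1) * H) =
      lf K l ^ (k₀ + m₃ + 1) * H := by
    rw [homogeneousComponent_of_mem (show lf K l ^ (k₀ + m₃ + 1) * H ∈
      homogeneousSubmodule _ _ (k₀ + m₃ + 1 + a) from hhom), if_pos (by omega)]
  rw [h6] at h5
  have h7 : lf K l ^ (k₀ + m₃ + 1) * H - lf K ℓ ^ (a + 1) * homogeneousComponent (k₀ + m₃) u =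
      homogeneousComponent (k₀ + m₃ + (a + 1)) j := by
    rw [← h5]
    ring
  rw [h7]
  exact hJ j hj _

end Pool.Agent.Helper30.TY

end

section

namespace Pool.Agent.Helper30.ZB
end Pool.Agent.Helper30.ZB
namespace Pool.Agent.Helper29.TG
end Pool.Agent.Helper29.TG

/-!
# The contact with a fixed point of a curve
-/

set_option autoImplicit false

namespace Pool.Agent.Helper30.TY

open MvPolynomial Height Height.AdmissibleAbsValues

open Pool.Agent.Helper30.ZB

open Pool.Agent.Helper29.TG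

variable {ν : ℕ} {K : Type} [Field K]

/-- The linear form `x ↦ y_p x_q - y_q x_p`. -/
def mf (y : Fin (ν + 1) → K) (q : Fin (ν + 1) × Fin (ν + 1)) (i : Fin (ν + 1)) : K :=
  (if i = q.2 then y q.1 else 0) - if i = q.1 then y q.2 else 0

theorem eval_mf (y x : Fin (ν + 1) → K) (q : Fin (ν + 1) × Fin (ν + 1)) :
    eval x (lf K (mf y q)) = cr y x q := by
  rw [eval_lf]
  simp only [mf, sub_mul, ite_mul, zero_mul, Finset.sum_sub_distrib, Finset.sum_ite_eq',
    Finset.mem_univ, if_true, cr]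

/-- **The contact with a fixed point `y` of a curve is comparable with the height.** -/
theorem exists_low_point [AdmissibleAbsValues K] [Infinite K]
    {J : Ideal (MvPolynomial (Fin (ν + 1)) K)} (hp : J.IsPrime)
    (hJ : Hom J) {δ c₀ : ℕ} (hδ : ∀ m, R J m ≤ δ * m + c₀) {ℓ : Fin (ν + 1) → K}
    (hℓ : lf K ℓ ∉ J) {y : Fin (ν + 1) → K} (hy : y ≠ 0) (hyJ : ∀ g ∈ J, eval y g = 0)
    (hyℓ : eval y (lf K ℓ) = 0) :
    ∃ (k : ℕ) (C : ℝ) (G : MvPolynomial (Fin (ν + 1)) K) (e : ℕ), G.IsHomogeneous e ∧ G ∉ J ∧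
      ∀ x : Fin (ν + 1) → K, (∀ g ∈ J, eval x g = 0) → eval x G ≠ 0 → cr y x ≠ 0 ∧
        logHeight x ≤ k * ls (fun v => ct v y x) + C := by
  classical
  obtain ⟨a, k, H, hH, hHJ, hB⟩ := exists_thick hp hJ hδ hℓ hy hyJ hyℓ
  have hB' : ∀ q, ∃ B : MvPolynomial (Fin (ν + 1)) K, B.IsHomogeneous k ∧
      lf K (mf y q) ^ (k + 1) * H - lf K ℓ ^ (a + 1) * B ∈ J := fun q => hB _ (by
    rw [eval_mf]
    simp only [cr]
    ring)
  choose B hBh hBJ using hB'
  choose c hcFS hc0 hcle using fun q => exists_log_eval_le (hBh q)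
  set cc : AbsoluteValue K ℝ → ℝ := fun v => ∑ q, c q v with hcc
  have hccFS : FS cc := FS.sum _ fun q _ => hcFS q
  refine ⟨k + 1, ls cc - (k + 1) * logHeight y, H * lf K ℓ, a + 1, hH.mul (Quot_lf_hom ℓ),
    fun h => (hp.mem_or_mem h).elim hHJ hℓ, fun x hxJ hxG => ?_⟩
  rw [map_mul] at hxG
  have hxH : eval x H ≠ 0 := left_ne_zero_of_mul hxG
  have hxℓ : eval x (lf K ℓ) ≠ 0 := right_ne_zero_of_mul hxG
  have hcr : cr y x ≠ 0 := by
    intro h0
    apply hy
    funext p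
    have h1 : y p * eval x (lf K ℓ) - x p * eval y (lf K ℓ) = ∑ i, ℓ i * cr y x (p, i) := by
      rw [eval_lf, eval_lf, Finset.mul_sum, Finset.mul_sum, ← Finset.sum_sub_distrib]
      refine Finset.sum_congr rfl fun i _ => ?_
      simp only [cr]
      ring
    rw [h0, hyℓ] at h1
    simp only [Pi.zero_apply, mul_zero, Finset.sum_const_zero, sub_zero] at h1
    exact (mul_eq_zero.1 h1).resolve_right hxℓ
  have hx0 : x ≠ 0 := right_ne_zero hcr
  refine ⟨hcr, ?_⟩
  have hpt : ∀ v : AbsoluteValue K ℝ, Mem v →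
      ((k : ℝ) + 1) * Real.log (nm v y) + Real.log (nm v x) + Real.log (v (eval x H)) -
        ((a : ℝ) + 1) * Real.log (v (eval x (lf K ℓ))) - cc v ≤
      ((k : ℝ) + 1) * ct v y x := by
    intro v hv
    obtain ⟨q, hq, hnm⟩ := exists_nm_eq v hcr
    have h1 := hxJ _ (hBJ q)
    rw [map_sub, map_mul, map_mul, map_pow, map_pow, eval_mf, sub_eq_zero] at h1
    have h2 : eval x (B q) ≠ 0 := by
      intro h0
      rw [h0, mul_zero] at h1
      exact mul_ne_zero (pow_ne_zero _ hq) hxH h1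
    have h3 := congrArg (fun z => Real.log (v z)) h1
    simp only [map_mul, map_pow] at h3
    rw [Real.log_mul (pow_ne_zero _ (v.pos hq).ne') (v.pos hxH).ne',
      Real.log_mul (pow_ne_zero _ (v.pos hxℓ).ne') (v.pos h2).ne', Real.log_pow,
      Real.log_pow] at h3
    have h4 := hcle q v hv x h2
    have h5 : c q v ≤ cc v := Finset.single_le_sum (f := fun q => c q v)
      (fun q _ => hc0 q v hv) (Finset.mem_univ q)
    unfold ct
    rw [hnm]
    push_cast at h3
    linarith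
  have hFS1 : FS (fun v => ((k : ℝ) + 1) * Real.log (nm v y) + Real.log (nm v x) +
      Real.log (v (eval x H))) :=
    (((FS_nm hy).mul_left _).add (FS_nm hx0)).add (FS_log hxH)
  have hFS2 : FS (fun v => ((a : ℝ) + 1) * Real.log (v (eval x (lf K ℓ)))) :=
    (FS_log hxℓ).mul_left _
  have hFS : FS (fun v => ((k : ℝ) + 1) * Real.log (nm v y) + Real.log (nm v x) +
      Real.log (v (eval x H)) - ((a : ℝ) + 1) * Real.log (v (eval x (lf K ℓ))) - cc v) :=
    (hFS1.sub hFS2).sub hccFS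
  have h6 := ls_mono hFS ((FS_ct hcr).mul_left ((k : ℝ) + 1)) hpt
  rw [ls_mul_left, ls_sub (hFS1.sub hFS2) hccFS, ls_sub hFS1 hFS2,
    ls_add (((FS_nm hy).mul_left _).add (FS_nm hx0)) (FS_log hxH),
    ls_add ((FS_nm hy).mul_left _) (FS_nm hx0), ls_mul_left, ls_mul_left, ls_log hxH, ls_log hxℓ,
    ls_nm hy, ls_nm hx0] at h6
  push_cast
  linarith

end Pool.Agent.Helper30.TY

end

section

namespace Pool.Agent.Helper36
end Pool.Agent.Helper36
namespace Pool.Agent.Helper29.TG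
end Pool.Agent.Helper29.TG
namespace Pool.Agent.Helper30.ZB
end Pool.Agent.Helper30.ZB

/-!
# Project TB: the hitting theorem

A curve that contains infinitely many points of an orbit and the point `y`: if only finitely many
iterates of `y` are critical, then points of the orbit are congruent to `y` modulo places outside
any given finite set.
-/

set_option autoImplicit false

namespace Pool.Agent.Helper65.TB

open MvPolynomial Filter Topology Height Height.AdmissibleAbsValues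

open Pool.Agent.Helper36 (step iter)

open Pool.Agent.Helper29.TG

open Pool.Agent.Helper30.ZB (Hom R lf)

variable {ν : ℕ}

theorem cr_zero_of {K : Type} [Field K] {x x' y : Fin (ν + 1) → K} (hy : y ≠ 0)
    (h : cr y x = 0) (h' : cr y x' = 0) : cr x x' = 0 := by
  obtain ⟨p, hp⟩ := Function.ne_iff.1 hy
  rw [Pi.zero_apply] at hp
  have h1 : ∀ i, y p * x i = y i * x p := fun i => by
    have := congrFun h (p, i)
    simp only [cr, Pi.zero_apply, sub_eq_zero] at this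
    exact this
  have h2 : ∀ i, y p * x' i = y i * x' p := fun i => by
    have := congrFun h' (p, i)
    simp only [cr, Pi.zero_apply, sub_eq_zero] at this
    exact this
  funext q
  simp only [cr, Pi.zero_apply]
  have h3 : y p * (y p * (x q.1 * x' q.2 - x q.2 * x' q.1)) = 0 := by
    linear_combination (y p * x' q.2) * h1 q.1 + (y q.1 * x p) * h2 q.2 -
      (y p * x' q.1) * h1 q.2 - (y q.2 * x p) * h2 q.1
  exact (mul_eq_zero.1 ((mul_eq_zero.1 h3).resolve_left hp)).resolve_left hp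

theorem hit_point {K : Type} [Field K] [NumberField K] {L : Type} [Field L] [Algebra K L]
    [IsAlgClosed L] {d : ℕ} (hd : 2 ≤ d)
    {F : Fin (ν + 1) → MvPolynomial (Fin (ν + 1)) K} (hF : ∀ i, (F i).IsHomogeneous d)
    (hnz : ∀ x : Fin (ν + 1) → L, (∀ i, aeval x (F i) = 0) → x = 0)
    {x : Fin (ν + 1) → K} (hcr : ∀ n m, n ≠ m → cr (iter F x n) (iter F x m) ≠ 0)
    {𝒰 : Ultrafilter ℕ} (h𝒰 : (𝒰 : Filter ℕ) ≤ atTop)
    {J : Ideal (MvPolynomial (Fin (ν + 1)) K)} (hp : J.IsPrime) (hJ : Hom J) {δ c₀ : ℕ}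
    (hδ : ∀ m, R J m ≤ δ * m + c₀)
    (hJ1 : ∀ g ∈ J, ∀ᶠ n in (𝒰 : Filter ℕ), eval (iter F x n) g = 0)
    (hJ2 : ∀ g e, g.IsHomogeneous e → g ∉ J → ∀ᶠ n in (𝒰 : Filter ℕ), eval (iter F x n) g ≠ 0)
    {y : Fin (ν + 1) → K} (hy0 : y ≠ 0) (hyJ : ∀ g ∈ J, eval y g = 0) {n₀ : ℕ}
    (hcrit : ∀ n, n₀ ≤ n → eval (iter F y n) (Pool.Agent.Helper30.TKN.jf F) ≠ 0)
    {B : Set (AbsoluteValue K ℝ)} (hB : B.Finite) :
    ∀ᶠ n in (𝒰 : Filter ℕ), ∃ v ∈ nonarchAbsVal (K := K), v ∉ B ∧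
      nm v (cr (iter F x n) y) < nm v (iter F x n) * nm v y := by
  classical
  have hx : ∀ n, iter F x n ≠ 0 := fun n => left_ne_zero (hcr n (n + 1) (by omega))
  -- all equations of the curve
  have hJall : ∀ᶠ n in (𝒰 : Filter ℕ), ∀ g ∈ J, eval (iter F x n) g = 0 := by
    obtain ⟨S, hS⟩ := (isNoetherianRing_iff_ideal_fg _).1 inferInstance J
    have h1 : ∀ᶠ n in (𝒰 : Filter ℕ), ∀ g ∈ S, eval (iter F x n) g = 0 :=
      (Finset.eventually_all S).2 fun g hg => hJ1 g (by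
        rw [← hS]
        exact Ideal.subset_span hg)
    filter_upwards [h1] with n hn g hg
    rw [← hS] at hg
    induction hg using Submodule.span_induction with
    | mem p hp => exact hn p hp
    | zero => exact map_zero _
    | add p q _ _ hp hq => rw [map_add, hp, hq, add_zero]
    | smul a p _ hp => rw [smul_eq_mul, map_mul, hp, mul_zero]
  -- a linear form through `y`
  have hℓ : ∃ q, lf K (Pool.Agent.Helper30.TY.mf y q) ∉ J := by
    by_contra hcon
    push Not at hcon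
    have h1 : ∀ᶠ n in (𝒰 : Filter ℕ), cr y (iter F x n) = 0 := by
      filter_upwards [hJall] with n hn
      funext q
      rw [← Pool.Agent.Helper30.TY.eval_mf]
      exact hn _ (hcon q)
    obtain ⟨n, hn⟩ := h1.exists
    obtain ⟨m, hm, hnm⟩ := (h1.and (h𝒰 (eventually_gt_atTop n))).exists
    exact hcr n m (by omega) (cr_zero_of hy0 hn hm)
  obtain ⟨q, hq⟩ := hℓ
  obtain ⟨k, C, G, e, hGe, hGJ, hlow⟩ := Pool.Agent.Helper30.TY.exists_low_point hp hJ hδ hq hy0 hyJ
    (by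
      rw [Pool.Agent.Helper30.TY.eval_mf]
      simp only [cr]
      ring)
  -- the finite set of places
  set B' : Set (AbsoluteValue K ℝ) := B ∪ {v | v ∈ archAbsVal (K := K)} with hB'
  have hB'f : B'.Finite := hB.union (finite_arch (K := K))
  set ind : AbsoluteValue K ℝ → ℝ := fun v => if v ∈ B' then 1 else 0 with hind
  have hindFS : FS ind := FS.of_finite hB'f fun v _ hv => if_neg hv
  -- growth
  rcases Pool.Agent.Helper36.growth (L := L) hd F hF hnz (fun n => iter F x n) hx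
    (fun n => Pool.Agent.Helper36.iter_succ F x n) with ⟨n, m, hnm, c, -, hc⟩ | ⟨m₀, hm₀⟩
  · exfalso
    refine hcr n m hnm.ne ?_
    funext q
    have h1 : ∀ a, iter F x m a = c * iter F x n a := fun a => congrFun hc a
    unfold cr
    rw [h1, h1, Pi.zero_apply]
    ring
  have hdr : (2 : ℝ) ≤ d := by exact_mod_cast hd
  have hd0 : (0 : ℝ) < (d : ℝ) ^ m₀ := by positivity
  set ε : ℝ := 1 / (2 * (d : ℝ) ^ m₀ * (k * |ls ind| + 1)) with hε
  have hden : (0 : ℝ) < k * |ls ind| + 1 := by positivity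
  have hε0 : 0 < ε := by positivity
  have hsmall : ∀ᶠ n in (𝒰 : Filter ℕ), ∀ v ∈ B', Mem v → ct v (iter F x n) y ≤ ε * d ^ n := by
    have h1 : ∀ v ∈ B', ∀ᶠ n in (𝒰 : Filter ℕ), Mem v → ct v (iter F x n) y ≤ ε * d ^ n := by
      intro v _
      by_cases hv : Mem v
      · filter_upwards [h𝒰 (contact_small hd hF hnz hcr hy0 hcrit hv ε hε0)] with n hn _
        exact hn
      · exact Filter.Eventually.of_forall fun n h => absurd h hv
    exact (hB'f.eventually_all).2 h1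
  have hbig : ∀ᶠ n in (𝒰 : Filter ℕ), C < (d : ℝ) ^ n / (2 * (d : ℝ) ^ m₀) := by
    have h1 : Tendsto (fun n : ℕ => (d : ℝ) ^ n / (2 * (d : ℝ) ^ m₀)) atTop atTop :=
      (tendsto_pow_atTop_atTop_of_one_lt (by linarith)).atTop_div_const (by positivity)
    exact h𝒰 (h1.eventually (eventually_gt_atTop C))
  filter_upwards [hJall, hJ2 G e hGe hGJ, hsmall, hbig, h𝒰 (eventually_ge_atTop m₀)] with n h1 h2 h3 h4 h5
  by_contra hcon
  push Not at hcon
  obtain ⟨h6, h7⟩ := hlow (iter F x n) h1 h2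
  have h8 : ls (fun v => ct v y (iter F x n)) ≤ ls (fun v => ε * d ^ n * ind v) := by
    refine ls_mono (FS_ct h6) (hindFS.mul_left _) fun v hv => ?_
    rw [← ct_comm]
    by_cases hvB : v ∈ B'
    · rw [hind]
      simp only [if_pos hvB, mul_one]
      exact h3 v hvB hv
    · have hvn : v ∈ nonarchAbsVal (K := K) := by
        rcases hv with hv | hv
        · exact absurd (Or.inr hv) hvB
        · exact hv
      rw [hind]
      simp only [if_neg hvB, mul_zero]
      have h9 := hcon v hvn (fun h => hvB (Or.inl h))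
      have h10 := nm_pos v (hx n)
      have h11 := nm_pos v hy0
      have h12 := Real.log_le_log (by positivity) h9
      rw [Real.log_mul h10.ne' h11.ne'] at h12
      rw [ct]
      linarith
  rw [ls_mul_left] at h8
  have h9 := hm₀ n h5
  have h10 : (d : ℝ) ^ (n - m₀) = (d : ℝ) ^ n / (d : ℝ) ^ m₀ := by
    rw [eq_div_iff hd0.ne', ← pow_add, Nat.sub_add_cancel h5]
  have h11 : (k : ℝ) * ls (fun v => ct v y (iter F x n)) ≤ (d : ℝ) ^ n / (2 * (d : ℝ) ^ m₀) := by
    have h12 : (k : ℝ) * ls (fun v => ct v y (iter F x n)) ≤ k * (ε * d ^ n * |ls ind|) := by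
      refine mul_le_mul_of_nonneg_left (h8.trans ?_) (Nat.cast_nonneg _)
      exact mul_le_mul_of_nonneg_left (le_abs_self _) (by positivity)
    refine h12.trans ?_
    rw [hε, le_div_iff₀ (by positivity)]
    have h13 : (k : ℝ) * (1 / (2 * (d : ℝ) ^ m₀ * (k * |ls ind| + 1)) * (d : ℝ) ^ n * |ls ind|) *
        (2 * (d : ℝ) ^ m₀) = (d : ℝ) ^ n * (k * |ls ind| / (k * |ls ind| + 1)) := by
      field_simp
    rw [h13]
    have h14 : (k : ℝ) * |ls ind| / (k * |ls ind| + 1) ≤ 1 := by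
      rw [div_le_one hden]
      linarith
    have h15 : (0 : ℝ) ≤ (d : ℝ) ^ n := by positivity
    calc (d : ℝ) ^ n * (k * |ls ind| / (k * |ls ind| + 1)) ≤ (d : ℝ) ^ n * 1 :=
          mul_le_mul_of_nonneg_left h14 h15
      _ = (d : ℝ) ^ n := mul_one _
  have h12 : (d : ℝ) ^ n / (d : ℝ) ^ m₀ =
      (d : ℝ) ^ n / (2 * (d : ℝ) ^ m₀) + (d : ℝ) ^ n / (2 * (d : ℝ) ^ m₀) := by
    field_simp
    ring
  linarith

end Pool.Agent.Helper65.TB

end

section

namespace Pool.Agent.Helper16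
end Pool.Agent.Helper16
namespace Pool.Agent.Helper38.TQ
end Pool.Agent.Helper38.TQ
namespace Pool.Agent.Helper30.TKN
end Pool.Agent.Helper30.TKN

set_option autoImplicit false

namespace Pool.Agent.Helper30.ZB

open MvPolynomial

open Pool.Agent.Helper16 (Place IsFunctionField)

open Pool.Agent.Helper38.TQ

open Pool.Agent.Helper30.TKN

variable {ν : ℕ} {k K : Type} [Field k] [Field K] [Algebra k K]

/-- The family consists of forms of degree `m₂ + n e`. -/
theorem Level_fam_hom {J : Ideal (MvPolynomial (Fin (ν + 1)) K)}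
    {h : MvPolynomial (Fin (ν + 1)) K} {e : ℕ}
    {c : Fin (ν + 1) → k} {m₂ q s : ℕ} {qa : Fin q → MvPolynomial (Fin (ν + 1)) K}
    {pc : Fin s → MvPolynomial (Fin (ν + 1)) K} (D : Data J h e c m₂ q s qa pc) (n : ℕ)
    (c' : Fin (ν + 1) → k) (κ : (Fin (n + 1) × Fin q) ⊕ Fin s) :
    (fam h e qa pc n c' κ).IsHomogeneous (m₂ + n * e) := by
  have hlf : (lf K c').IsHomogeneous 1 := by
    unfold lf
    refine IsHomogeneous.sum _ _ _ fun i _ => ?_
    have h1 := (isHomogeneous_C (Fin (ν + 1)) (algebraMap k K (c' i))).mul (isHomogeneous_X K i)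
    rwa [zero_add] at h1
  rcases κ with ⟨j, a⟩ | i
  · have h1 := ((D.h_hom.pow (j : ℕ)).mul (hlf.pow ((n - j) * e))).mul (D.qa_hom a)
    have h3 : ∀ j' n' : ℕ, j' ≤ n' → e * j' + 1 * ((n' - j') * e) + m₂ = m₂ + n' * e := by
      intro j' n' hj
      obtain ⟨r, rfl⟩ := Nat.exists_eq_add_of_le hj
      rw [Nat.add_sub_cancel_left]
      ring
    have h2 : e * (j : ℕ) + 1 * ((n - j) * e) + m₂ = m₂ + n * e :=
      h3 j n (Nat.lt_succ_iff.1 j.2)
    rw [h2] at h1
    exact h1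
  · have h1 := (D.h_hom.pow (n + 1)).mul (D.pc_hom i)
    have h2 : e * (n + 1) + (m₂ - e) = m₂ + n * e := by
      have h3 := D.e_le
      have h4 : e * (n + 1) = n * e + e := by ring
      omega
    rw [h2] at h1
    exact h1

/-- The inequality at one place. -/
theorem Level_place [IsAlgClosed k]
    {J : Ideal (MvPolynomial (Fin (ν + 1)) K)} {h : MvPolynomial (Fin (ν + 1)) K} {e : ℕ}
    {c : Fin (ν + 1) → k} {m₂ q s : ℕ} {qa : Fin q → MvPolynomial (Fin (ν + 1)) K}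
    {pc : Fin s → MvPolynomial (Fin (ν + 1)) K} (D : Data J h e c m₂ q s qa pc)
    (n : ℕ) {M : Type} [Field M] [Algebra k M] [Algebra K M] [IsScalarTower k K M]
    (t : ℕ) (χ : Fin t → (Qo (J ⊔ Ideal.span {h}) c →ₐ[K] M))
    (P : (Fin (n + 1) × Fin q) ⊕ Fin s → Fin (ν + 1) → M)
    (hN : ∀ a, algebraMap K M (Algebra.norm K a) = ∏ i, χ i a)
    (hPJ : ∀ κ, ∀ g ∈ J, aeval (P κ) g = 0) (v : Place k M) :
    v.val (Matrix.of fun κ κ' => aeval (P κ) (fam h e qa pc n c κ')).det *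
        (∏ i, nrm v (fun a => χ i (cls (J ⊔ Ideal.span {h}) c (X a)))) ^ (e * (n * (n + 1) / 2)) ≤
      (∏ κ, nrm v (P κ) ^ (m₂ + n * e)) *
        (gs v (map (algebraMap K M) h) ^ (q * (n * (n + 1) / 2) + (n + 1) * s) *
          (∏ a, gs v (map (algebraMap K M) (qa a))) ^ (n + 1) *
            ∏ i, gs v (map (algebraMap K M) (pc i))) := by
  classical
  obtain ⟨c', hc'⟩ := Scale_generic v (fun i a => χ i (cls (J ⊔ Ideal.span {h}) c (X a)))
    (fun i => (Pts_of_hom M (χ i)).2.1)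
  obtain ⟨T, hT1, hT2⟩ := Det_change D n c'
  have hlf : ∀ i, χ i (cls (J ⊔ Ideal.span {h}) c (lf K c')) =
      ∑ a, algebraMap k M (c' a) * χ i (cls (J ⊔ Ideal.span {h}) c (X a)) := by
    intro i
    rw [← (Pts_of_hom M (χ i)).2.2 (lf K c')]
    unfold lf
    rw [map_sum]
    refine Finset.sum_congr rfl fun a _ => ?_
    rw [map_mul, aeval_C, aeval_X, IsScalarTower.algebraMap_apply k K M]
  have hE : (Matrix.of fun κ κ' => aeval (P κ) (fam h e qa pc n c' κ')) =
      (Matrix.of fun κ κ' => aeval (P κ) (fam h e qa pc n c κ')) *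
        (T.map (algebraMap K M)).transpose := by
    ext κ κ'
    rw [Matrix.mul_apply, Matrix.of_apply]
    have h1 := hPJ κ _ (hT1 κ')
    rw [map_sub, map_sum, sub_eq_zero] at h1
    rw [h1]
    refine Finset.sum_congr rfl fun κ'' _ => ?_
    rw [map_mul, aeval_C, Matrix.of_apply, Matrix.transpose_apply, Matrix.map_apply, mul_comm]
  have hdet : (Matrix.of fun κ κ' => aeval (P κ) (fam h e qa pc n c' κ')).det =
      (Matrix.of fun κ κ' => aeval (P κ) (fam h e qa pc n c κ')).det *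
        (∏ i, χ i (cls (J ⊔ Ideal.span {h}) c (lf K c'))) ^ (e * (n * (n + 1) / 2)) := by
    rw [hE, Matrix.det_mul, Matrix.det_transpose]
    congr 1
    have h1 : (T.map (algebraMap K M)).det = algebraMap K M T.det := by
      rw [RingHom.map_det]
      rfl
    rw [h1, hT2, map_pow, hN]
  have hval : v.val (Matrix.of fun κ κ' => aeval (P κ) (fam h e qa pc n c' κ')).det =
      v.val (Matrix.of fun κ κ' => aeval (P κ) (fam h e qa pc n c κ')).det *
        (∏ i, nrm v (fun a => χ i (cls (J ⊔ Ideal.span {h}) c (X a)))) ^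
          (e * (n * (n + 1) / 2)) := by
    rw [hdet, map_mul, map_pow, map_prod]
    congr 2
    refine Finset.prod_congr rfl fun i _ => ?_
    rw [hlf i]
    exact hc' i
  rw [← hval]
  have h2 := UDet_le v P (fun κ => map (algebraMap K M) (fam h e qa pc n c' κ))
    (fun κ => (Level_fam_hom D n c' κ).map (algebraMap K M))
  have h3 : (Matrix.of fun i κ => eval (P i) (map (algebraMap K M) (fam h e qa pc n c' κ))) =
      Matrix.of fun κ κ' => aeval (P κ) (fam h e qa pc n c' κ') := by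
    ext κ κ'
    rw [Matrix.of_apply, Matrix.of_apply, eval_map, aeval_def]
  rw [h3] at h2
  exact h2.trans (mul_le_mul_right (UDet_fam v n c') _)

/-- The inequality for the logarithms at one place. -/
theorem Level_log [IsAlgClosed k]
    {J : Ideal (MvPolynomial (Fin (ν + 1)) K)} {h : MvPolynomial (Fin (ν + 1)) K} {e : ℕ}
    {c : Fin (ν + 1) → k} {m₂ q s : ℕ} {qa : Fin q → MvPolynomial (Fin (ν + 1)) K}
    {pc : Fin s → MvPolynomial (Fin (ν + 1)) K} (D : Data J h e c m₂ q s qa pc)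
    (n : ℕ) {M : Type} [Field M] [Algebra k M] [Algebra K M] [IsScalarTower k K M]
    (t : ℕ) (χ : Fin t → (Qo (J ⊔ Ideal.span {h}) c →ₐ[K] M))
    (P : (Fin (n + 1) × Fin q) ⊕ Fin s → Fin (ν + 1) → M)
    (hN : ∀ a, algebraMap K M (Algebra.norm K a) = ∏ i, χ i a)
    (hPJ : ∀ κ, ∀ g ∈ J, aeval (P κ) g = 0)
    (hdet : (Matrix.of fun κ κ' => aeval (P κ) (fam h e qa pc n c κ')).det ≠ 0)
    (v : Place k M) :
    WithZero.log (v.val (Matrix.of fun κ κ' => aeval (P κ) (fam h e qa pc n c κ')).det) +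
        ((e * (n * (n + 1) / 2) : ℕ) : ℤ) *
          ∑ i, WithZero.log (nrm v (fun a => χ i (cls (J ⊔ Ideal.span {h}) c (X a)))) ≤
      ((m₂ + n * e : ℕ) : ℤ) * ∑ κ, WithZero.log (nrm v (P κ)) +
        (((q * (n * (n + 1) / 2) + (n + 1) * s : ℕ) : ℤ) *
            max 0 (WithZero.log (gs v (map (algebraMap K M) h))) +
          ((n + 1 : ℕ) : ℤ) *
            ∑ a, max 0 (WithZero.log (gs v (map (algebraMap K M) (qa a)))) +
          ∑ i, max 0 (WithZero.log (gs v (map (algebraMap K M) (pc i))))) := by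
  classical
  have h1 := Level_place D n t χ P hN hPJ v
  have hx : ∀ i, nrm v (fun a => χ i (cls (J ⊔ Ideal.span {h}) c (X a))) ≠ 0 :=
    fun i => nrm_ne_zero (Pts_of_hom M (χ i)).2.1
  have hd : v.val (Matrix.of fun κ κ' => aeval (P κ) (fam h e qa pc n c κ')).det ≠ 0 := by
    simpa using hdet
  have hl : v.val (Matrix.of fun κ κ' => aeval (P κ) (fam h e qa pc n c κ')).det *
        (∏ i, nrm v (fun a => χ i (cls (J ⊔ Ideal.span {h}) c (X a)))) ^
          (e * (n * (n + 1) / 2)) ≠ 0 :=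
    mul_ne_zero hd (pow_ne_zero _ (Finset.prod_ne_zero_iff.2 fun i _ => hx i))
  have hr := (lt_of_lt_of_le (zero_lt_iff.2 hl) h1).ne'
  have h2 := (WithZero.log_le_log hl hr).2 h1
  have hr1 := left_ne_zero_of_mul hr
  have hr2 := right_ne_zero_of_mul hr
  have hr3 := left_ne_zero_of_mul hr2
  have hr4 := right_ne_zero_of_mul hr2
  have hr5 := left_ne_zero_of_mul hr3
  have hr6 := right_ne_zero_of_mul hr3
  have hlogprod : ∀ {ι : Type} [Fintype ι] (f : ι → WithZero (Multiplicative ℤ)),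
      (∏ i, f i ≠ 0) → WithZero.log (∏ i, f i) = ∑ i, WithZero.log (f i) := by
    intro ι _ f hf
    have hgen : ∀ S : Finset ι, WithZero.log (∏ i ∈ S, f i) = ∑ i ∈ S, WithZero.log (f i) := by
      intro S
      induction S using Finset.induction_on with
      | empty => simp
      | insert a S ha ih =>
        rw [Finset.prod_insert ha, Finset.sum_insert ha, WithZero.log_mul, ih]
        · exact Finset.prod_ne_zero_iff.1 hf a (Finset.mem_univ _)
        · exact Finset.prod_ne_zero_iff.2 fun i _ => Finset.prod_ne_zero_iff.1 hf i (Finset.mem_univ _)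
    exact hgen _
  rw [WithZero.log_mul hd (right_ne_zero_of_mul hl), WithZero.log_mul hr1 hr2,
    WithZero.log_mul hr3 hr4, WithZero.log_mul hr5 hr6, WithZero.log_pow, WithZero.log_pow,
    WithZero.log_pow, hlogprod _ (Finset.prod_ne_zero_iff.2 fun i _ => hx i), hlogprod _ hr1,
    hlogprod _ hr4] at h2
  have h3 : ∑ κ, WithZero.log (nrm v (P κ) ^ (m₂ + n * e)) =
      ((m₂ + n * e : ℕ) : ℤ) * ∑ κ, WithZero.log (nrm v (P κ)) := by
    rw [Finset.mul_sum]
    refine Finset.sum_congr rfl fun κ _ => ?_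
    rw [WithZero.log_pow, nsmul_eq_mul]
  rw [h3] at h2
  have h6 : ∏ a, gs v (map (algebraMap K M) (qa a)) ≠ 0 := by
    intro h0
    rw [h0] at hr6
    exact hr6 (zero_pow (by omega))
  rw [hlogprod _ h6] at h2
  simp only [nsmul_eq_mul] at h2
  refine h2.trans ?_
  have h7 : (0 : ℤ) ≤ ((q * (n * (n + 1) / 2) + (n + 1) * s : ℕ) : ℤ) := Int.natCast_nonneg _
  have h8 : (0 : ℤ) ≤ ((n + 1 : ℕ) : ℤ) := Int.natCast_nonneg _
  gcongr with a _ i _
  · exact le_max_right _ _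
  · exact le_max_right _ _
  · exact le_max_right _ _

/-- The inequality for each `n`. -/
theorem Level [IsAlgClosed k] (hK : IsFunctionField k K)
    {J : Ideal (MvPolynomial (Fin (ν + 1)) K)} {h : MvPolynomial (Fin (ν + 1)) K} {e : ℕ}
    {c : Fin (ν + 1) → k} {m₂ q s : ℕ} {qa : Fin q → MvPolynomial (Fin (ν + 1)) K}
    {pc : Fin s → MvPolynomial (Fin (ν + 1)) K} (D : Data J h e c m₂ q s qa pc)
    (hfin : FiniteDimensional K (Qo (J ⊔ Ideal.span {h}) c)) {Ch : ℤ} (hCh0 : 0 ≤ Ch)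
    (hCh : GsB k h Ch) :
    ∃ C₂ : ℤ, ∀ (n : ℕ) (M : Type) [Field M] [Algebra k M] [Algebra K M] [IsScalarTower k K M]
      [FiniteDimensional K M] (t : ℕ) (χ : Fin t → (Qo (J ⊔ Ideal.span {h}) c →ₐ[K] M))
      (P : (Fin (n + 1) × Fin q) ⊕ Fin s → Fin (ν + 1) → M),
      (∀ a, algebraMap K M (Algebra.norm K a) = ∏ i, χ i a) → (∀ κ, P κ ≠ 0) →
      (∀ κ, ∀ g ∈ J, aeval (P κ) g = 0) →
      (Matrix.of fun κ κ' => aeval (P κ) (fam h e qa pc n c κ')).det ≠ 0 →
      ((e * (n * (n + 1) / 2) : ℕ) : ℤ) *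
          ∑ i, ht k (fun a => χ i (cls (J ⊔ Ideal.span {h}) c (X a))) ≤
        ((m₂ + n * e : ℕ) : ℤ) * ∑ κ, ht k (P κ) +
          (((q * (n * (n + 1) / 2) : ℕ) : ℤ) * Ch + ((n + 1 : ℕ) : ℤ) * C₂) *
            (Module.finrank K M : ℤ) := by
  classical
  choose Ca hCa0 hCa using fun a => Scale_gs (k := k) hK (qa a)
  choose Cp hCp0 hCp using fun i => Scale_gs (k := k) hK (pc i)
  refine ⟨s * Ch + ∑ a, Ca a + ∑ i, Cp i, ?_⟩
  intro n M _ _ _ _ _ t χ P hN hP0 hPJ hdet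
  have hKM : IsFunctionField k M := Pool.Agent.Helper89.TC.isFunctionField_of_finite M hK
  -- the finite set of places
  set A : MvPolynomial (Fin (ν + 1)) K → Place k M → ℤ := fun p v =>
    max 0 (WithZero.log (gs v (map (algebraMap K M) p))) with hA
  have hfs : ((Function.support fun v : Place k M => WithZero.log (v.val
        (Matrix.of fun κ κ' => aeval (P κ) (fam h e qa pc n c κ')).det)) ∪
      (⋃ i, Function.support fun v : Place k M => WithZero.log (nrm v
        (fun a => χ i (cls (J ⊔ Ideal.span {h}) c (X a))))) ∪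
      (⋃ κ, Function.support fun v : Place k M => WithZero.log (nrm v (P κ))) ∪
      Function.support (A h) ∪ (⋃ a, Function.support (A (qa a))) ∪
      (⋃ i, Function.support (A (pc i)))).Finite := by
    refine Set.Finite.union (Set.Finite.union (Set.Finite.union (Set.Finite.union
      (Set.Finite.union ?_ ?_) ?_) ?_) ?_) ?_
    · exact (finsum_log hKM _ hdet).1
    · exact Set.finite_iUnion fun i => nrm_support hKM _ (Pts_of_hom M (χ i)).2.1
    · exact Set.finite_iUnion fun κ => nrm_support hKM _ (hP0 κ)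
    · exact (hCh M).1
    · exact Set.finite_iUnion fun a => (hCa a M).1
    · exact Set.finite_iUnion fun i => (hCp i M).1
  set S := hfs.toFinset with hS
  have hsub : ∀ v, v ∉ S → WithZero.log (v.val
        (Matrix.of fun κ κ' => aeval (P κ) (fam h e qa pc n c κ')).det) = 0 ∧
      (∀ i, WithZero.log (nrm v (fun a => χ i (cls (J ⊔ Ideal.span {h}) c (X a)))) = 0) ∧
      (∀ κ, WithZero.log (nrm v (P κ)) = 0) ∧ A h v = 0 ∧ (∀ a, A (qa a) v = 0) ∧
      ∀ i, A (pc i) v = 0 := by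
    intro v hv
    rw [hS, Set.Finite.mem_toFinset] at hv
    simp only [Set.mem_union, Set.mem_iUnion, Function.mem_support, not_or, not_exists,
      not_not] at hv
    tauto
  have hconv : ∀ f : Place k M → ℤ, (∀ v, v ∉ S → f v = 0) → ∑ᶠ v, f v = ∑ v ∈ S, f v := by
    intro f hf
    refine finsum_eq_sum_of_support_subset _ fun v hv => ?_
    by_contra h
    exact hv (hf v h)
  have e1 : ∑ v ∈ S, WithZero.log (v.val
      (Matrix.of fun κ κ' => aeval (P κ) (fam h e qa pc n c κ')).det) = 0 := by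
    rw [← hconv _ fun v hv => (hsub v hv).1, (finsum_log hKM _ hdet).2]
  have e2 : ∀ i, ht k (fun a => χ i (cls (J ⊔ Ideal.span {h}) c (X a))) =
      ∑ v ∈ S, WithZero.log (nrm v (fun a => χ i (cls (J ⊔ Ideal.span {h}) c (X a)))) := by
    intro i
    exact hconv _ fun v hv => (hsub v hv).2.1 i
  have e3 : ∀ κ, ht k (P κ) = ∑ v ∈ S, WithZero.log (nrm v (P κ)) := by
    intro κ
    exact hconv _ fun v hv => (hsub v hv).2.2.1 κ
  have e4 : ∑ v ∈ S, A h v ≤ Ch * Module.finrank K M := by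
    rw [← hconv _ fun v hv => (hsub v hv).2.2.2.1]
    exact (hCh M).2
  have e5 : ∀ a, ∑ v ∈ S, A (qa a) v ≤ Ca a * Module.finrank K M := by
    intro a
    rw [← hconv _ fun v hv => (hsub v hv).2.2.2.2.1 a]
    exact (hCa a M).2
  have e6 : ∀ i, ∑ v ∈ S, A (pc i) v ≤ Cp i * Module.finrank K M := by
    intro i
    rw [← hconv _ fun v hv => (hsub v hv).2.2.2.2.2 i]
    exact (hCp i M).2
  have h1 := Finset.sum_le_sum fun v (_ : v ∈ S) => Level_log D n t χ P hN hPJ hdet v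
  rw [Finset.sum_add_distrib, Finset.sum_add_distrib, Finset.sum_add_distrib,
    Finset.sum_add_distrib, e1, zero_add, ← Finset.mul_sum, ← Finset.mul_sum, ← Finset.mul_sum,
    ← Finset.mul_sum, Finset.sum_comm, Finset.sum_comm (s := S) (t := Finset.univ),
    Finset.sum_comm (s := S) (t := Finset.univ), Finset.sum_comm (s := S) (t := Finset.univ)] at h1
  rw [← Finset.sum_congr rfl fun i _ => e2 i, ← Finset.sum_congr rfl fun κ _ => e3 κ] at h1
  refine h1.trans ?_
  have h7 : (0 : ℤ) ≤ ((q * (n * (n + 1) / 2) + (n + 1) * s : ℕ) : ℤ) := Int.natCast_nonneg _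
  have h8 : (0 : ℤ) ≤ ((n + 1 : ℕ) : ℤ) := Int.natCast_nonneg _
  have h9 : (0 : ℤ) ≤ (Module.finrank K M : ℤ) := Int.natCast_nonneg _
  have h10 : ∑ a, ∑ v ∈ S, A (qa a) v ≤ (∑ a, Ca a) * Module.finrank K M := by
    rw [Finset.sum_mul]
    exact Finset.sum_le_sum fun a _ => e5 a
  have h11 : ∑ i, ∑ v ∈ S, A (pc i) v ≤ (∑ i, Cp i) * Module.finrank K M := by
    rw [Finset.sum_mul]
    exact Finset.sum_le_sum fun i _ => e6 i
  have h12 : 0 ≤ ∑ i, Cp i := Finset.sum_nonneg fun i _ => hCp0 i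
  have h13 : (∑ i, Cp i) * (Module.finrank K M : ℤ) ≤
      ((n + 1 : ℕ) : ℤ) * ((∑ i, Cp i) * Module.finrank K M) := by
    have h14 : (1 : ℤ) ≤ ((n + 1 : ℕ) : ℤ) := by push_cast; omega
    nlinarith [mul_nonneg h12 h9]
  have h15 := mul_le_mul_of_nonneg_left e4 h7
  have h16 := mul_le_mul_of_nonneg_left h10 h8
  push_cast at h13 h15 h16 ⊢
  nlinarith [h13, h15, h16, h11]

end Pool.Agent.Helper30.ZB

end
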