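import Pool.Agent.Helper72.TM2.T32
import Pool.Agent.Helper72.TM2.T38
import Pool.Agent.Helper72.TM2.T42

section

namespace Pool.Agent.Helper36
end Pool.Agent.Helper36
namespace Pool.Agent.Helper38.TQ
end Pool.Agent.Helper38.TQ
namespace Pool.Agent.Helper29.TG
end Pool.Agent.Helper29.TG
namespace Pool.Agent.Helper72.PN
end Pool.Agent.Helper72.PN

set_option autoImplicit false

namespace Pool.Agent.Helper72.TH

open MvPolynomial Filter Topology Height Height.AdmissibleAbsValues

open Pool.Agent.Helper36 (step iter)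

open Pool.Agent.Helper38.TQ (IsEndo PEq CurveSet)

open Pool.Agent.Helper29.TG

open Pool.Agent.Helper72.PN (MainN_sets MainN_endo MainN_ne MainN_preper MainN_hom)

variable {ν : ℕ}

/-- Finitely many points of an orbit in the first closed set lie on `q = 0`. -/
theorem chain_finite {K L : Type} [Field K] [Field L] [Algebra K L]
    {F : Fin (ν + 1) → MvPolynomial (Fin (ν + 1)) K}
    (hnz : ∀ x : Fin (ν + 1) → L, (∀ i, aeval x (F i) = 0) → x = 0)
    {q : MvPolynomial (Fin (ν + 1)) K} {n : ℕ} {W : Fin n → MvPolynomial (Fin (ν + 1)) K}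
    {δ : Fin n → ℕ} {S : ℕ → Finset (Fin n)} {k : ℕ} (hc : Chain L F q W δ S k)
    {x : Fin (ν + 1) → L} (hx0 : x ≠ 0) (hx : ∀ j ∈ S 0, aeval x (W j) = 0) :
    {i : ℕ | aeval (iter F x i) q = 0}.Finite := by
  classical
  have hne : ∀ l, iter F x l ≠ 0 := by
    intro l
    induction l with
    | zero => exact hx0
    | succ l ih =>
      rw [Pool.Agent.Helper36.iter_succ]
      intro h
      exact ih (hnz _ fun i => congrFun h i)
  have hst : ∀ l, (fun i => aeval (iter F x l) (F i)) = iter F x (l + 1) := by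
    intro l
    rw [Pool.Agent.Helper36.iter_succ]
    rfl
  have hfwd : ∀ m < k, ∀ l l', l ≤ l' → (∀ j ∈ S m, aeval (iter F x l) (W j) = 0) →
      ∀ j ∈ S m, aeval (iter F x l') (W j) = 0 := by
    intro m hm l l' hll h
    induction l', hll using Nat.le_induction with
    | base => exact h
    | succ l' _ ih =>
      rw [← hst]
      exact hc.inv m hm _ ih
  by_contra hinf
  have hinf : {i : ℕ | aeval (iter F x i) q = 0}.Infinite := hinf
  have key : ∀ m ≤ k, ∃ l, ∀ j ∈ S m, aeval (iter F x l) (W j) = 0 := by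
    intro m
    induction m with
    | zero => exact fun _ => ⟨0, hx⟩
    | succ m ih =>
      intro hm
      obtain ⟨l, hl⟩ := ih (by omega)
      obtain ⟨i, hi, hli⟩ := hinf.exists_gt l
      refine ⟨i + 1, ?_⟩
      rw [← hst]
      exact hc.down m (by omega) _ (hfwd m (by omega) _ _ hli.le hl) hi
  obtain ⟨l, hl⟩ := key k le_rfl
  exact hne l (hc.empty _ hl)

/-- The forms over `K` that vanish at almost all points of the sequence. -/
def vanK {K : Type} [Field K] (𝒰 : Ultrafilter ℕ) (x : ℕ → Fin (ν + 1) → K) :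
    Set (MvPolynomial (Fin (ν + 1)) K) :=
  {g | (∃ e, g.IsHomogeneous e) ∧ ∀ᶠ n in (𝒰 : Filter ℕ), eval (x n) g = 0}

/-- Almost all points of the sequence are zeros of all these forms. -/
theorem vanK_mem {K : Type} [Field K] (𝒰 : Ultrafilter ℕ) (x : ℕ → Fin (ν + 1) → K) :
    ∀ᶠ n in (𝒰 : Filter ℕ), ∀ g ∈ vanK 𝒰 x, eval (x n) g = 0 := by
  classical
  have hfg : (Ideal.span (vanK 𝒰 x)).FG := IsNoetherian.noetherian _
  obtain ⟨t, ht, hspan⟩ := Submodule.fg_span_iff_fg_span_finset_subset _ |>.1 hfg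
  have h1 : ∀ᶠ n in (𝒰 : Filter ℕ), ∀ g ∈ t, eval (x n) g = 0 := by
    rw [eventually_all_finset]
    exact fun g hg => (ht hg).2
  filter_upwards [h1] with n hn g hg
  have h2 : g ∈ Ideal.span (vanK 𝒰 x) := Ideal.subset_span hg
  have h3 : Ideal.span (vanK 𝒰 x) = Ideal.span (t : Set (MvPolynomial (Fin (ν + 1)) K)) := hspan
  rw [h3] at h2
  have h4 : Ideal.span (t : Set (MvPolynomial (Fin (ν + 1)) K)) ≤ RingHom.ker (eval (x n)) :=
    Ideal.span_le.2 fun Q hQ => RingHom.mem_ker.2 (hn Q hQ)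
  exact RingHom.mem_ker.1 (h4 h2)

/-- The iterates of `F`, as polynomials. -/
theorem iter_X_hom {K : Type} [Field K] {F : Fin (ν + 1) → MvPolynomial (Fin (ν + 1)) K} {d : ℕ}
    (hF : ∀ i, (F i).IsHomogeneous d) (s : ℕ) (i : Fin (ν + 1)) :
    (iter F (X : Fin (ν + 1) → MvPolynomial (Fin (ν + 1)) K) s i).IsHomogeneous (d ^ s) := by
  induction s generalizing i with
  | zero => exact isHomogeneous_X K i
  | succ s ih =>
    rw [Pool.Agent.Helper36.iter_succ, pow_succ, ]
    exact (hF i).aeval _ ih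

theorem aeval_iter_X {K A : Type} [Field K] [CommRing A] [Algebra K A]
    (F : Fin (ν + 1) → MvPolynomial (Fin (ν + 1)) K) (p : Fin (ν + 1) → A) (s : ℕ)
    (g : MvPolynomial (Fin (ν + 1)) K) :
    aeval p (bind₁ (iter F (X : Fin (ν + 1) → MvPolynomial (Fin (ν + 1)) K) s) g) =
      aeval (iter F p s) g := by
  rw [aeval_bind₁]
  have h1 := Pool.Agent.Helper36.iter_map F (aeval p : MvPolynomial (Fin (ν + 1)) K →ₐ[K] A) X s
  have h2 : (fun i => aeval p (X i : MvPolynomial (Fin (ν + 1)) K)) = p := by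
    funext i
    rw [aeval_X]
  rw [h2] at h1
  rw [h1]

/-- Chains and base change of the coefficients. -/
theorem Chain.base {K K' L : Type} [Field K] [Field K'] [Field L] [Algebra K K'] [Algebra K' L]
    [Algebra K L] [IsScalarTower K K' L] {F : Fin (ν + 1) → MvPolynomial (Fin (ν + 1)) K}
    {q : MvPolynomial (Fin (ν + 1)) K} {n : ℕ} {W : Fin n → MvPolynomial (Fin (ν + 1)) K}
    {δ : Fin n → ℕ} {S : ℕ → Finset (Fin n)} {k : ℕ} (hc : Chain L F q W δ S k) :
    Chain L (fun i => map (algebraMap K K') (F i)) (map (algebraMap K K') q)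
      (fun j => map (algebraMap K K') (W j)) δ S k where
  hom := fun j => (hc.hom j).map _
  inv := by
    intro i hi x hx j hj
    simp only [aeval_map_algebraMap] at hx ⊢
    exact hc.inv i hi x hx j hj
  down := by
    intro i hi x hx hq j hj
    simp only [aeval_map_algebraMap] at hx hq ⊢
    exact hc.down i hi x hx hq j hj
  empty := by
    intro x hx
    simp only [aeval_map_algebraMap] at hx
    exact hc.empty x hx

theorem map_jf {K K' : Type} [Field K] [Field K'] [Algebra K K']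
    (F : Fin (ν + 1) → MvPolynomial (Fin (ν + 1)) K) :
    map (algebraMap K K') (Pool.Agent.Helper30.TKN.jf F) =
      Pool.Agent.Helper30.TKN.jf fun i => map (algebraMap K K') (F i) := by
  unfold Pool.Agent.Helper30.TKN.jf
  rw [RingHom.map_det]
  congr 1
  ext i j : 2
  simp only [RingHom.mapMatrix_apply, Matrix.map_apply, Matrix.of_apply]
  rw [pderiv_map]

/-- Two congruent points have congruent iterates. -/
theorem Cong.iter {K : Type} [Field K] {v : AbsoluteValue K ℝ}
    {F : Fin (ν + 1) → MvPolynomial (Fin (ν + 1)) K} {d : ℕ}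
    (hF : ∀ i, (F i).IsHomogeneous d) (hG : GoodF v F d)
    {x y : Fin (ν + 1) → K} (hx : ∀ n, Pool.Agent.Helper36.iter F x n ≠ 0)
    (hy : ∀ n, Pool.Agent.Helper36.iter F y n ≠ 0) (h : Cong v x y) (s : ℕ) :
    Cong v (Pool.Agent.Helper36.iter F x s) (Pool.Agent.Helper36.iter F y s) := by
  induction s with
  | zero => exact h
  | succ s ih =>
    rw [Pool.Agent.Helper36.iter_succ, Pool.Agent.Helper36.iter_succ]
    exact Cong.step hF hG (hx s) (hy s) ih

/-- **Curves which meet the backward orbit of a tame invariant set, number fields.** The curve is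
given by forms over `ℂ` which vanish at almost all points of the orbit, along an ultrafilter; `p` is
a zero of all forms over the number field with this property. -/
theorem mainC {K : Type} [Field K] [NumberField K] [Algebra K ℂ] {d : ℕ}
    {F : Fin (ν + 1) → MvPolynomial (Fin (ν + 1)) K}
    (hF : IsEndo d fun i => map (algebraMap K ℂ) (F i)) {n : ℕ}
    {W : Fin n → MvPolynomial (Fin (ν + 1)) K} {δ : Fin n → ℕ} {S : ℕ → Finset (Fin n)} {k : ℕ}
    (hc : Chain ℂ F (Pool.Agent.Helper30.TKN.jf F) W δ S k)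
    {x : Fin (ν + 1) → K} (hx : x ≠ 0)
    (hpre : ¬ ∃ n m, n < m ∧ PEq (iter F x n) (iter F x m))
    {𝒰 : Ultrafilter ℕ} (h𝒰 : (𝒰 : Filter ℕ) ≤ atTop)
    {V : Set (MvPolynomial (Fin (ν + 1)) ℂ)} (hcur : CurveSet V)
    (hUV : ∀ᶠ n in (𝒰 : Filter ℕ), ∀ g ∈ V,
      eval (fun i => algebraMap K ℂ (iter F x n i)) g = 0)
    {p : Fin (ν + 1) → ℂ} (hp0 : p ≠ 0)
    (hp : ∀ (g : MvPolynomial (Fin (ν + 1)) K) (e : ℕ), g.IsHomogeneous e →
      (∀ᶠ n in (𝒰 : Filter ℕ), eval (iter F x n) g = 0) → aeval p g = 0)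
    {s : ℕ} (hps : ∀ j ∈ S 0, aeval (iter F p s) (W j) = 0) :
    Pool.Agent.Helper38.Sym.DMLgen (fun i => map (algebraMap K ℂ) (F i))
      (fun i => algebraMap K ℂ (x i)) := by
  classical
  have hne : ∀ n, iter F x n ≠ 0 := fun n => MainN_ne hF hx n
  have hhom : ∀ i, (F i).IsHomogeneous d := fun i => MainN_hom hF i
  have hcr := cr_ne hF hx hpre
  set TK := vanK 𝒰 (fun n => iter F x n) with hTK
  -- an algebraic point
  obtain ⟨K', _, _, _, _, _, y, hy0, hy⟩ := exists_algebraic_zero (K := K)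
    (TK ∪ {g | ∃ j ∈ S 0, g = bind₁ (iter F (X : Fin (ν + 1) → MvPolynomial (Fin (ν + 1)) K) s)
      (W j)}) (by
      rintro g (⟨⟨e, he⟩, -⟩ | ⟨j, -, rfl⟩)
      · exact ⟨e, he⟩
      · exact ⟨_, (hc.hom j).aeval _ fun i => iter_X_hom hhom s i⟩) hp0 (by
      rintro g (⟨⟨e, he⟩, hg⟩ | ⟨j, hj, rfl⟩)
      · exact hp g e he hg
      · rw [aeval_iter_X]
        exact hps j hj)
  -- base change
  set F' : Fin (ν + 1) → MvPolynomial (Fin (ν + 1)) K' := fun i => map (algebraMap K K') (F i)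
    with hF'
  set x' : Fin (ν + 1) → K' := fun i => algebraMap K K' (x i) with hx'
  set W' : Fin n → MvPolynomial (Fin (ν + 1)) K' := fun j => map (algebraMap K K') (W j) with hW'
  have hmm : ∀ P : MvPolynomial (Fin (ν + 1)) K, map (algebraMap K' ℂ) (map (algebraMap K K') P) =
      map (algebraMap K ℂ) P := by
    intro P
    rw [MvPolynomial.map_map, ← IsScalarTower.algebraMap_eq]
  have hFe' : IsEndo d fun i => map (algebraMap K' ℂ) (F' i) := by
    have h1 : (fun i => map (algebraMap K' ℂ) (F' i)) = fun i => map (algebraMap K ℂ) (F i) :=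
      funext fun i => hmm (F i)
    rw [h1]
    exact hF
  have hit' : ∀ m, iter F' x' m = fun i => algebraMap K K' (iter F x m i) := by
    intro m
    rw [hF', Pool.Agent.Helper38.TQ.iter_map_base F x' m]
    exact Pool.Agent.Helper36.iter_map F (Algebra.ofId K K') x m
  have hx'0 : x' ≠ 0 := by
    intro h
    apply hx
    funext i
    exact (map_eq_zero_iff _ (algebraMap K K').injective).1 (congrFun h i)
  have hpre' : ¬ ∃ n m, n < m ∧ PEq (iter F' x' n) (iter F' x' m) := by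
    rintro ⟨a, b, hab, h⟩
    rw [hit', hit'] at h
    exact hpre ⟨a, b, hab, Pool.Agent.Helper38.TQ.PEq.descend (algebraMap K K') (hne _) (hne _) h⟩
  have hne' : ∀ n, iter F' x' n ≠ 0 := fun n => MainN_ne hFe' hx'0 n
  have hney : ∀ n, iter F' y n ≠ 0 := fun n => MainN_ne hFe' hy0 n
  have hhom' : ∀ i, (F' i).IsHomogeneous d := fun i => MainN_hom hFe' i
  have hcr' := cr_ne hFe' hx'0 hpre'
  have hnz' : ∀ y : Fin (ν + 1) → ℂ, (∀ i, aeval y (F' i) = 0) → y = 0 := by
    intro y hy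
    refine hFe'.nz y fun i => ?_
    rw [eval_map]
    exact hy i
  have hc' : Chain ℂ F' (Pool.Agent.Helper30.TKN.jf F') W' δ S k := by
    have h1 := hc.base (K' := K')
    rw [map_jf] at h1
    exact h1
  -- the iterate of `y` in the closed set
  have hys : ∀ j ∈ S 0, eval (iter F' y s) (W' j) = 0 := by
    intro j hj
    have h1 := hy _ (Or.inr ⟨j, hj, rfl⟩)
    rw [aeval_iter_X] at h1
    rw [hW', eval_map, hF', Pool.Agent.Helper38.TQ.iter_map_base F y s]
    exact h1
  -- finitely many critical iterates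
  have hfin : {i : ℕ | eval (iter F' y i) (Pool.Agent.Helper30.TKN.jf F') = 0}.Finite := by
    have h1 : ∀ i, (fun l => algebraMap K' ℂ (iter F' y i l)) =
        iter F' (fun l => algebraMap K' ℂ (y l)) i := fun i =>
      (Pool.Agent.Helper36.iter_map F' (Algebra.ofId K' ℂ) y i).symm
    have h0 : ∀ g : MvPolynomial (Fin (ν + 1)) K', ∀ i, eval (iter F' y i) g = 0 ↔
        aeval (iter F' (fun l => algebraMap K' ℂ (y l)) i) g = 0 := by
      intro g i
      rw [← h1 i]
      have h2 := (aeval_algebraMap_apply ℂ (iter F' y i) g)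
      rw [aeval_eq_eval] at h2
      have h3 : aeval (fun l => algebraMap K' ℂ (iter F' y i l)) g =
          algebraMap K' ℂ (eval (iter F' y i) g) := h2
      rw [h3, map_eq_zero_iff _ (algebraMap K' ℂ).injective]
    have h2 := chain_finite hnz' hc' (x := iter F' (fun l => algebraMap K' ℂ (y l)) s) (by
        rw [← h1 s]
        intro h
        apply hney s
        funext l
        exact (map_eq_zero_iff _ (algebraMap K' ℂ).injective).1 (congrFun h l))
      (fun j hj => (h0 (W' j) s).1 (hys j hj))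
    refine ((h2.image fun i => i + s).union (Set.finite_lt_nat s)).subset ?_
    intro i hi
    rcases Nat.lt_or_ge i s with h3 | h3
    · exact Or.inr h3
    · refine Or.inl ⟨i - s, ?_, Nat.sub_add_cancel h3⟩
      have h4 : iter F' (iter F' (fun l => algebraMap K' ℂ (y l)) s) (i - s) =
          iter F' (fun l => algebraMap K' ℂ (y l)) i := by
        rw [← Pool.Agent.Helper36.iter_add, Nat.sub_add_cancel h3]
      change aeval (iter F' (iter F' (fun l => algebraMap K' ℂ (y l)) s) (i - s)) _ = 0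
      rw [h4]
      exact (h0 _ i).1 hi
  -- the curve over `K'`
  have hcur' : OnC 𝒰 (fun m => iter F' x' m) := by
    intro a
    obtain ⟨P, e, hP, hPh, hPU⟩ := hcur K' (fun m => iter F' x' m) 𝒰 (by
      filter_upwards [hUV] with m hm g hg
      have h1 := hm g hg
      rw [hit' m]
      simp only [← IsScalarTower.algebraMap_apply K K' ℂ]
      exact h1) a
    exact ⟨P, e, hPh, hP, hPU⟩
  have hyC : InCl 𝒰 (fun m => iter F' x' m) y := by
    intro g e hg hgU
    refine van_descend (K := K) (x := fun n => iter F x n) (𝒰 := 𝒰)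
      (fun g e he h => hy g (Or.inl ⟨⟨e, he⟩, h⟩)) hg ?_
    filter_upwards [hgU] with m hm
    rw [hit' m] at hm
    exact hm
  -- good places
  have hJ : (Pool.Agent.Helper30.TKN.jf F' * 1).IsHomogeneous ((ν + 1) * (d - 1) + 0) := by
    rw [mul_one, add_zero]
    unfold Pool.Agent.Helper30.TKN.jf
    rw [Matrix.det_apply]
    refine IsHomogeneous.sum _ _ _ fun σ _ => ?_
    rw [show (ν + 1) * (d - 1) = ∑ _i : Fin (ν + 1), (d - 1) by simp]
    have h1 : (∏ i : Fin (ν + 1), (Matrix.of fun i j => pderiv j (F' i)) (σ i) i).IsHomogeneous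
        (∑ _i : Fin (ν + 1), (d - 1)) :=
      IsHomogeneous.prod _ _ _ fun i _ => (hhom' (σ i)).pderiv
    rcases Int.units_eq_one_or (Equiv.Perm.sign σ) with h2 | h2
    · rw [h2, one_smul]
      exact h1
    · rw [h2, Units.neg_smul, one_smul]
      exact h1.neg
  have hc1 : Chain ℂ F' (Pool.Agent.Helper30.TKN.jf F' * 1) W' δ S k := by
    rw [mul_one]
    exact hc'
  obtain ⟨B, hB, hgood⟩ := exists_chainV hhom' hnz' hJ hc1
  haveI : Infinite K' := CharZero.infinite K'
  obtain ⟨J, hJp, hJh, ⟨δJ, cJ, hδJ⟩, hJf, hJall⟩ := exists_ideal hne' hcur'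
  obtain ⟨n₀, hn₀⟩ := hfin.bddAbove
  have hyJ : ∀ g ∈ J, eval y g = 0 := by
    intro g hg
    rw [← sum_homogeneousComponent g, map_sum]
    refine Finset.sum_eq_zero fun i _ => ?_
    exact hyC _ i (homogeneousComponent_isHomogeneous i g)
      ((hJf _ i (homogeneousComponent_isHomogeneous i g)).1 (hJh g hg i))
  obtain ⟨m, v, hv, hvB, hcong⟩ := (Pool.Agent.Helper65.TB.hit_point (L := ℂ) hFe'.two_le hhom'
    hnz' hcr' h𝒰 hJp hJh hδJ (fun g hg => by
      filter_upwards [hJall] with m hm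
      exact hm g hg) (fun g e hg hgJ => by
      rw [hJf g e hg] at hgJ
      exact Ultrafilter.eventually_not.2 hgJ) hy0 hyJ (n₀ := n₀ + 1) (fun i hi h => by
        have := hn₀ h
        omega) hB).exists
  have hcong : Cong v (iter F' x' m) y := hcong
  obtain ⟨hG, hcv⟩ := hgood v hv hvB
  have h0 : InZ v W' δ (S 0) (iter F' x' (s + m)) := by
    have h1 : Cong v (iter F' (iter F' x' m) s) (iter F' y s) := by
      refine Cong.iter hhom' hG (fun l => ?_) hney hcong s
      rw [← Pool.Agent.Helper36.iter_add]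
      exact hne' _
    rw [Pool.Agent.Helper36.iter_add]
    refine inZ_of_cong hG.na hc1.hom hcv.W_int (hney s) ?_ h1.symm fun j hj => ?_
    · rw [← Pool.Agent.Helper36.iter_add]
      exact hne' _
    · unfold Sm
      rw [hys j hj, map_zero]
      exact pow_pos (nm_pos v (hney s)) _
  have hdml := dml_of_hit hhom' hv hG (isHomogeneous_one _ _) (fun m => by
      rw [coeff_one]
      split_ifs
      · rw [map_one]
      · rw [map_zero]
        exact zero_le_one) hc1.hom hcv hne' hcr' h0 (L := ℂ)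
  have h1 : (fun i => map (algebraMap K' ℂ) (F' i)) = fun i => map (algebraMap K ℂ) (F i) :=
    funext fun i => hmm (F i)
  have h2 : (fun i => algebraMap K' ℂ (x' i)) = fun i => algebraMap K ℂ (x i) := by
    funext i
    exact (IsScalarTower.algebraMap_apply K K' ℂ (x i)).symm
  rw [h1, h2] at hdml
  exact hdml

end Pool.Agent.Helper72.TH

end

section

namespace Pool.Agent.Helper36
end Pool.Agent.Helper36
namespace Pool.Agent.Helper38.TQ
end Pool.Agent.Helper38.TQ

/-!
# Project TH: closed sets with algebraic coefficients, complex coefficients for the closed set `V`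
-/

set_option autoImplicit false

namespace Pool.Agent.Helper72.TH

open MvPolynomial Filter Topology

open Pool.Agent.Helper36 (step iter)

open Pool.Agent.Helper38.TQ (IsEndo PEq CurveSet)

variable {ν : ℕ}

/-- Finitely many of the forms define the same closed set. -/
theorem exists_finset (T : Set (MvPolynomial (Fin (ν + 1)) ℂ)) :
    ∃ t : Finset (MvPolynomial (Fin (ν + 1)) ℂ), (∀ g ∈ t, g ∈ T) ∧
      ∀ x : Fin (ν + 1) → ℂ, (∀ g ∈ t, eval x g = 0) → ∀ g ∈ T, eval x g = 0 := by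
  classical
  have hfg : (Ideal.span T).FG := IsNoetherian.noetherian _
  obtain ⟨t, ht, hspan⟩ := Submodule.fg_span_iff_fg_span_finset_subset _ |>.1 hfg
  refine ⟨t, fun g hg => ht hg, fun x hx g hg => ?_⟩
  have h2 : g ∈ Ideal.span T := Ideal.subset_span hg
  have h3 : Ideal.span T = Ideal.span (t : Set (MvPolynomial (Fin (ν + 1)) ℂ)) := hspan
  rw [h3] at h2
  have h4 : Ideal.span (t : Set (MvPolynomial (Fin (ν + 1)) ℂ)) ≤ RingHom.ker (eval x) :=
    Ideal.span_le.2 fun Q hQ => RingHom.mem_ker.2 (hx Q hQ)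
  exact RingHom.mem_ker.1 (h4 h2)

/-- Lifts of polynomials to a subfield. -/
theorem exists_liftF (K : IntermediateField ℚ ℂ) {p : MvPolynomial (Fin (ν + 1)) ℂ}
    (h : ∀ m, p.coeff m ∈ K) : ∃ P : MvPolynomial (Fin (ν + 1)) K, map (algebraMap K ℂ) P = p := by
  have h1 : p ∈ Set.range (map (σ := Fin (ν + 1)) (algebraMap K ℂ)) := by
    rw [mem_range_map_iff_coeffs_subset]
    intro c hc
    obtain ⟨m, hm⟩ := mem_coeffs_iff.1 hc
    exact ⟨⟨c, by rw [hm.2]; exact h m⟩, rfl⟩
  exact h1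

/-- A number field which contains finitely many algebraic polynomials and numbers. -/
theorem exists_field {ι κ : Type} [Finite ι] [Finite κ] (p : ι → MvPolynomial (Fin (ν + 1)) ℂ)
    (hp : ∀ i m, IsAlgebraic ℚ ((p i).coeff m)) (c : κ → ℂ) (hc : ∀ i, IsAlgebraic ℚ (c i)) :
    ∃ (K : IntermediateField ℚ ℂ) (_ : NumberField K), (∀ i m, (p i).coeff m ∈ K) ∧
      ∀ i, c i ∈ K := by
  classical
  set S : Set ℂ := (⋃ i, ((p i).coeffs : Set ℂ)) ∪ Set.range c with hS
  have hSf : S.Finite := (Set.finite_iUnion fun i => (p i).coeffs.finite_toSet).union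
    (Set.finite_range c)
  have hSa : ∀ c ∈ S, IsAlgebraic ℚ c := by
    rintro c (hc' | ⟨i, rfl⟩)
    · obtain ⟨i, hi⟩ := Set.mem_iUnion.1 hc'
      obtain ⟨m, hm⟩ := mem_coeffs_iff.1 hi
      rw [hm.2]
      exact hp i m
    · exact hc i
  set K : IntermediateField ℚ ℂ := IntermediateField.adjoin ℚ S with hKdef
  haveI := hSf.to_subtype
  have hfin : FiniteDimensional ℚ K :=
    IntermediateField.finiteDimensional_adjoin fun x hx => (hSa x hx).isIntegral
  have hnum : NumberField K :=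
    { to_charZero := inferInstance
      to_finiteDimensional := by
        have e : (DivisionRing.toRatAlgebra.toModule : Module ℚ K) = K.module' :=
          Subsingleton.elim _ _
        rw [e]
        exact hfin }
  refine ⟨K, hnum, fun i m => ?_, fun i =>
    IntermediateField.subset_adjoin ℚ _ (Or.inr ⟨i, rfl⟩)⟩
  by_cases h0 : (p i).coeff m = 0
  · rw [h0]
    exact K.zero_mem
  · refine IntermediateField.subset_adjoin ℚ _ (Or.inl (Set.mem_iUnion.2 ⟨i, ?_⟩))
    exact Finset.mem_coe.2 (mem_coeffs_iff.2 ⟨m, mem_support_iff.2 h0, rfl⟩)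

/-- The chain of closed sets given by sets of forms with algebraic coefficients. -/
structure ChainS (f : Fin (ν + 1) → MvPolynomial (Fin (ν + 1)) ℂ)
    (q : MvPolynomial (Fin (ν + 1)) ℂ) (k : ℕ)
    (Z : ℕ → Set (MvPolynomial (Fin (ν + 1)) ℂ)) : Prop where
  form : ∀ i ≤ k, ∀ g ∈ Z i, (∃ e, g.IsHomogeneous e) ∧ ∀ m, IsAlgebraic ℚ (g.coeff m)
  inv : ∀ i < k, ∀ x : Fin (ν + 1) → ℂ, (∀ g ∈ Z i, eval x g = 0) →
    ∀ g ∈ Z i, eval (fun l => eval x (f l)) g = 0
  down : ∀ i < k, ∀ x : Fin (ν + 1) → ℂ, (∀ g ∈ Z i, eval x g = 0) → eval x q = 0 →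
    ∀ g ∈ Z (i + 1), eval (fun l => eval x (f l)) g = 0
  empty : ∀ x : Fin (ν + 1) → ℂ, (∀ g ∈ Z k, eval x g = 0) → x = 0

/-- Some iterate of the point `p` lies in the first closed set of a chain. -/
def TamePt (f : Fin (ν + 1) → MvPolynomial (Fin (ν + 1)) ℂ) (p : Fin (ν + 1) → ℂ) : Prop :=
  ∃ (k : ℕ) (Z : ℕ → Set (MvPolynomial (Fin (ν + 1)) ℂ)),
    ChainS f (Pool.Agent.Helper30.TKN.jf f) k Z ∧ ∃ s : ℕ, ∀ g ∈ Z 0, eval (iter f p s) g = 0

/-- Every infinite closed subset of the closed set of `V` contains a tame point. -/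
def Meets (f : Fin (ν + 1) → MvPolynomial (Fin (ν + 1)) ℂ)
    (V : Set (MvPolynomial (Fin (ν + 1)) ℂ)) : Prop :=
  ∀ T : Set (MvPolynomial (Fin (ν + 1)) ℂ), (∀ g ∈ T, ∃ e, g.IsHomogeneous e) →
    (∀ p : Fin (ν + 1) → ℂ, (∀ g ∈ T, eval p g = 0) → ∀ g ∈ V, eval p g = 0) →
    (∃ p : ℕ → Fin (ν + 1) → ℂ, (∀ n, p n ≠ 0) ∧ (∀ n m, n ≠ m → ¬ PEq (p n) (p m)) ∧
      ∀ n, ∀ g ∈ T, eval (p n) g = 0) →
    ∃ p : Fin (ν + 1) → ℂ, p ≠ 0 ∧ (∀ g ∈ T, eval p g = 0) ∧ TamePt f p

/-- The number field, the map, the point, the closed sets and the additional form. -/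
theorem exists_dataN {d k : ℕ} {f : Fin (ν + 1) → MvPolynomial (Fin (ν + 1)) ℂ} (hf : IsEndo d f)
    (hfa : ∀ i m, IsAlgebraic ℚ ((f i).coeff m))
    {R : MvPolynomial (Fin (ν + 1)) ℂ} (hRa : ∀ m, IsAlgebraic ℚ (R.coeff m))
    {Z : ℕ → Set (MvPolynomial (Fin (ν + 1)) ℂ)}
    (hZ : ChainS f (Pool.Agent.Helper30.TKN.jf f * R) k Z)
    {b : Fin (ν + 1) → ℂ} (hb : b ≠ 0) (hba : ∀ i, IsAlgebraic ℚ (b i)) :
    ∃ (K : IntermediateField ℚ ℂ) (_ : NumberField K)
      (F : Fin (ν + 1) → MvPolynomial (Fin (ν + 1)) K) (R' : MvPolynomial (Fin (ν + 1)) K)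
      (x : Fin (ν + 1) → K) (n : ℕ) (W : Fin n → MvPolynomial (Fin (ν + 1)) K) (δ : Fin n → ℕ)
      (S : ℕ → Finset (Fin n)),
      (fun i => map (algebraMap K ℂ) (F i)) = f ∧ map (algebraMap K ℂ) R' = R ∧
      (fun i => algebraMap K ℂ (x i)) = b ∧ x ≠ 0 ∧
      Chain ℂ F (Pool.Agent.Helper30.TKN.jf F * R') W δ S k ∧
      ∀ i ≤ k, (∀ j ∈ S i, map (algebraMap K ℂ) (W j) ∈ Z i) ∧
        ∀ y : Fin (ν + 1) → ℂ, (∀ j ∈ S i, aeval y (W j) = 0) → ∀ g ∈ Z i, eval y g = 0 := by
  classical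
  choose t htZ ht using fun i => exists_finset (Z i)
  set U : Finset (MvPolynomial (Fin (ν + 1)) ℂ) := (Finset.range (k + 1)).biUnion t with hU
  have hUa : ∀ g : U, ∀ m, IsAlgebraic ℚ ((g : MvPolynomial (Fin (ν + 1)) ℂ).coeff m) := by
    rintro ⟨g, hg⟩ m
    obtain ⟨i, hi, hgi⟩ := Finset.mem_biUnion.1 hg
    exact (hZ.form i (by
      have := Finset.mem_range.1 hi
      omega) g (htZ i g hgi)).2 m
  have hUh : ∀ g : U, ∃ e, (g : MvPolynomial (Fin (ν + 1)) ℂ).IsHomogeneous e := by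
    rintro ⟨g, hg⟩
    obtain ⟨i, hi, hgi⟩ := Finset.mem_biUnion.1 hg
    exact (hZ.form i (by
      have := Finset.mem_range.1 hi
      omega) g (htZ i g hgi)).1
  obtain ⟨K, hK, hKp, hKc⟩ := exists_field (ι := (Fin (ν + 1) ⊕ Unit) ⊕ U)
    (Sum.elim (Sum.elim f fun _ => R) fun g => g) (by
      rintro ((i | i) | g) m
      · exact hfa i m
      · exact hRa m
      · exact hUa g m) b hba
  choose F hF using fun i => exists_liftF K (p := f i) fun m => hKp (Sum.inl (Sum.inl i)) m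
  obtain ⟨R', hR'⟩ := exists_liftF K (p := R) fun m => hKp (Sum.inl (Sum.inr ())) m
  set e := U.equivFin with he
  choose W hW using fun j : Fin U.card => exists_liftF K (p := ((e.symm j : U) : MvPolynomial _ ℂ))
    fun m => hKp (Sum.inr (e.symm j)) m
  choose δ hδ using fun j : Fin U.card => hUh (e.symm j)
  set S : ℕ → Finset (Fin U.card) := fun i =>
    Finset.univ.filter fun j => ((e.symm j : U) : MvPolynomial (Fin (ν + 1)) ℂ) ∈ t i with hS
  have hmemS : ∀ i j, j ∈ S i ↔ ((e.symm j : U) : MvPolynomial (Fin (ν + 1)) ℂ) ∈ t i := by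
    intro i j
    rw [hS, Finset.mem_filter]
    exact ⟨fun h => h.2, fun h => ⟨Finset.mem_univ _, h⟩⟩
  have hev : ∀ (P : MvPolynomial (Fin (ν + 1)) K) (y : Fin (ν + 1) → ℂ),
      aeval y P = eval y (map (algebraMap K ℂ) P) := by
    intro P y
    rw [eval_map]
    rfl
  have hZS : ∀ i ≤ k, ∀ y : Fin (ν + 1) → ℂ, (∀ j ∈ S i, aeval y (W j) = 0) →
      ∀ g ∈ Z i, eval y g = 0 := by
    intro i hi y hy
    refine ht i y fun g hg => ?_
    have hgU : g ∈ U := Finset.mem_biUnion.2 ⟨i, Finset.mem_range.2 (by omega), hg⟩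
    have h1 := hy (e ⟨g, hgU⟩) (by
      rw [hmemS, Equiv.symm_apply_apply]
      exact hg)
    rw [hev, hW, Equiv.symm_apply_apply] at h1
    exact h1
  have hSZ : ∀ i, ∀ j ∈ S i, map (algebraMap K ℂ) (W j) ∈ Z i := by
    intro i j hj
    rw [hW]
    exact htZ i _ ((hmemS i j).1 hj)
  have hFf : (fun i => map (algebraMap K ℂ) (F i)) = f := funext hF
  have hstep : ∀ y : Fin (ν + 1) → ℂ, (fun l => aeval y (F l)) = fun l => eval y (f l) := by
    intro y
    funext l
    rw [hev, hF]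
  have hjf : map (algebraMap K ℂ) (Pool.Agent.Helper30.TKN.jf F * R') =
      Pool.Agent.Helper30.TKN.jf f * R := by
    rw [map_mul, map_jf, hFf, hR']
  let x : Fin (ν + 1) → K := fun i => ⟨b i, hKc i⟩
  refine ⟨K, hK, F, R', x, U.card, W, δ, S, hFf, hR', rfl, ?_, ?_, fun i hi =>
    ⟨hSZ i, hZS i hi⟩⟩
  · intro h
    apply hb
    funext i
    exact congrArg (algebraMap K ℂ) (congrFun h i)
  · refine ⟨fun j => ?_, fun i hi y hy j hj => ?_, fun i hi y hy hq j hj => ?_, fun y hy => ?_⟩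
    · have h1 := hδ j
      rw [← hW] at h1
      exact h1.of_map (algebraMap K ℂ).injective
    · rw [hstep, hev]
      exact hZ.inv i hi y (hZS i hi.le y hy) _ (hSZ i j hj)
    · rw [hstep, hev]
      rw [hev, hjf] at hq
      exact hZ.down i hi y (hZS i hi.le y hy) hq _ (hSZ (i + 1) j hj)
    · exact hZ.empty y (hZS k le_rfl y hy)

/-- **Part (2).** -/
theorem final2 {d : ℕ} {f : Fin (ν + 1) → MvPolynomial (Fin (ν + 1)) ℂ} (hf : IsEndo d f)
    (hfa : ∀ i m, IsAlgebraic ℚ ((f i).coeff m))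
    {a : Fin (ν + 1) → ℂ} (ha : a ≠ 0) {c : ℂ} (hc : c ≠ 0)
    (haa : ∀ i, IsAlgebraic ℚ (c * a i)) {V : Set (MvPolynomial (Fin (ν + 1)) ℂ)}
    (hV : ∀ g ∈ V, ∃ e, g.IsHomogeneous e) (hcur : CurveSet V) (hmeet : Meets f V)
    (hinf : {n : ℕ | ∀ g ∈ V, eval ((fun (x : Fin (ν + 1) → ℂ)
        (i : Fin (ν + 1)) => eval x (f i))^[n] a) g = 0}.Infinite)
    {V' : Set (MvPolynomial (Fin (ν + 1)) ℂ)} (hV' : ∀ g ∈ V', ∃ e, g.IsHomogeneous e) :
    ∃ T : Finset (ℕ × ℕ), {n : ℕ | ∀ g ∈ V', eval ((fun (x : Fin (ν + 1) → ℂ)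
        (i : Fin (ν + 1)) => eval x (f i))^[n] a) g = 0} =
      {n : ℕ | ∃ q ∈ T, ∃ m : ℕ, n = q.1 * m + q.2} := by
  classical
  have hb : (fun i => c * a i) ≠ 0 := by
    intro h
    apply ha
    funext i
    exact (mul_eq_zero.1 (congrFun h i)).resolve_left hc
  -- the orbit of the point
  have horb : ∀ n, (fun (x : Fin (ν + 1) → ℂ) (i : Fin (ν + 1)) => eval x (f i))^[n] a =
      iter f a n := by
    intro n
    rfl
  simp only [horb] at hinf ⊢
  have hne : ∀ n, iter f a n ≠ 0 := by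
    intro n
    induction n with
    | zero => exact ha
    | succ n ih =>
      rw [Pool.Agent.Helper36.iter_succ]
      intro h
      exact ih (hf.nz _ fun i => congrFun h i)
  -- the preperiodic case
  by_cases hprea : ∃ n m, n < m ∧ PEq (iter f a n) (iter f a m)
  · obtain ⟨n, m, hnm, hp⟩ := hprea
    have h1 : (fun i => map (algebraMap ℂ ℂ) (f i)) = f := by
      funext i
      rw [Algebra.algebraMap_self, MvPolynomial.map_id]
    have h2 := Pool.Agent.Helper72.PN.MainN_preper (K := ℂ) (F := f) (d := d) (by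
      rw [h1]
      exact hf) a hnm hp V' hV'
    exact h2
  have hNB : (atTop ⊓ Filter.principal {n : ℕ | ∀ g ∈ V, eval (iter f a n) g = 0}).NeBot := by
    rw [← Nat.cofinite_eq_atTop]
    exact hinf.cofinite_inf_principal_neBot
  set 𝒰 : Ultrafilter ℕ := Ultrafilter.of (atTop ⊓ Filter.principal
      {n : ℕ | ∀ g ∈ V, eval (iter f a n) g = 0}) with h𝒰d
  have hle : (𝒰 : Filter ℕ) ≤ atTop ⊓ Filter.principal
      {n : ℕ | ∀ g ∈ V, eval (iter f a n) g = 0} := Ultrafilter.of_le _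
  have h𝒰 : (𝒰 : Filter ℕ) ≤ atTop := hle.trans inf_le_left
  have hUV : ∀ᶠ n in (𝒰 : Filter ℕ), ∀ g ∈ V, eval (iter f a n) g = 0 :=
    (hle.trans inf_le_right) (Filter.mem_principal_self _)
  -- the closure
  obtain ⟨φ, hφ⟩ : ∃ φ : ℕ → ℕ, Function.Injective φ ∧
      ∀ i, ∀ g ∈ vanK 𝒰 (fun n => iter f a n), eval (iter f a (φ i)) g = 0 := by
    have h1 : {n | ∀ g ∈ vanK 𝒰 (fun n => iter f a n), eval (iter f a n) g = 0}.Infinite := by
      intro hfin
      have h2 := vanK_mem 𝒰 (fun n => iter f a n)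
      have h3 : ∀ᶠ n in atTop,
          n ∉ {n | ∀ g ∈ vanK 𝒰 (fun n => iter f a n), eval (iter f a n) g = 0} := by
        rw [← Nat.cofinite_eq_atTop]
        exact hfin.compl_mem_cofinite
      obtain ⟨n, hn1, hn2⟩ := (h2.and (h𝒰 h3)).exists
      exact hn2 hn1
    refine ⟨fun i => (h1.natEmbedding _ i : ℕ), ?_, fun i => (h1.natEmbedding _ i).2⟩
    intro i j hij
    exact (h1.natEmbedding _).injective (Subtype.ext hij)
  obtain ⟨p, hp0, hpT, k, Z, hZ, s, hps⟩ := hmeet (vanK 𝒰 (fun n => iter f a n))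
    (fun g hg => hg.1)
    (fun p hp g hg => hp g ⟨hV g hg, by
      filter_upwards [hUV] with n hn
      exact hn g hg⟩)
    ⟨fun i => iter f a (φ i), fun i => hne (φ i), fun i j hij h => by
        rcases lt_or_gt_of_ne fun h2 => hij (hφ.1 h2) with h2 | h2
        · exact hprea ⟨_, _, h2, h⟩
        · exact hprea ⟨_, _, h2, h.symm⟩,
      fun i g hg => hφ.2 i g hg⟩
  -- the number field
  have hZ1 : ChainS f (Pool.Agent.Helper30.TKN.jf f * 1) k Z := by
    rw [mul_one]
    exact hZ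
  obtain ⟨K, hK, F, R', x, n, W, δ, S, hFf, hR', hx, hx0, hch, hSZ⟩ :=
    exists_dataN hf hfa (R := 1) (fun m => by
      rw [coeff_one]
      split_ifs
      · exact isAlgebraic_one
      · exact isAlgebraic_zero) hZ1 hb haa
  have hR1 : R' = 1 := map_injective _ (algebraMap K ℂ).injective (hR'.trans (map_one _).symm)
  rw [hR1, mul_one] at hch
  have hF : IsEndo d fun i => map (algebraMap K ℂ) (F i) := by
    rw [hFf]
    exact hf
  have h3 : (fun i => c⁻¹ * algebraMap K ℂ (x i)) = a := by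
    funext i
    rw [show algebraMap K ℂ (x i) = c * a i from congrFun hx i, ← mul_assoc, inv_mul_cancel₀ hc,
      one_mul]
  have h4 : (fun (x : Fin (ν + 1) → ℂ) (i : Fin (ν + 1)) =>
      eval x (map (algebraMap K ℂ) (F i))) = fun x i => eval x (f i) := by
    funext x i
    rw [← hFf]
  have h5 : ∀ n, iter f a n = c⁻¹ ^ d ^ n • fun i => algebraMap K ℂ (iter F x n i) := by
    intro n
    rw [← horb]
    have h6 := Pool.Agent.Helper72.PN.MainN_orbit hF x c⁻¹ n
    rw [h3, h4] at h6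
    exact h6
  have hcn : ∀ n, c⁻¹ ^ d ^ n ≠ 0 := fun n => pow_ne_zero _ (inv_ne_zero hc)
  have h7 : ∀ (g : MvPolynomial (Fin (ν + 1)) ℂ) (e : ℕ), g.IsHomogeneous e → ∀ n,
      eval (iter f a n) g = 0 → eval (fun i => algebraMap K ℂ (iter F x n i)) g = 0 := by
    intro g e hg n hn
    rw [h5, Pool.Agent.Helper38.TQ.eval_smul_hom hg, mul_eq_zero] at hn
    exact hn.resolve_left (pow_ne_zero _ (hcn n))
  have h8 : ∀ (g : MvPolynomial (Fin (ν + 1)) ℂ) (e : ℕ), g.IsHomogeneous e → ∀ n,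
      eval (fun i => algebraMap K ℂ (iter F x n i)) g = 0 → eval (iter f a n) g = 0 := by
    intro g e hg n hn
    rw [h5, Pool.Agent.Helper38.TQ.eval_smul_hom hg, hn, mul_zero]
  have h1 := dml_of_nonpre hF (x := x) c⁻¹ (inv_ne_zero hc) hV' fun hpre _ =>
    mainC hF hch hx0 hpre h𝒰 hcur (by
      filter_upwards [hUV] with n hn g hg
      obtain ⟨e, he⟩ := hV g hg
      exact h7 g e he n (hn g hg)) hp0 (fun g e hg hgU => by
        have h9 := hpT (map (algebraMap K ℂ) g) ⟨⟨e, hg.map _⟩, by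
          filter_upwards [hgU] with n hn
          refine h8 _ e (hg.map _) n ?_
          rw [← Pool.Agent.Helper38.Sym.map_eval_gen, hn, map_zero]⟩
        rw [eval_map] at h9
        exact h9) (s := s) (fun j hj => by
        have h9 := hps _ ((hSZ 0 (Nat.zero_le k)).1 j hj)
        rw [← hFf, Pool.Agent.Helper38.TQ.iter_map_base F p s, eval_map] at h9
        exact h9)
  rw [h3, h4] at h1
  exact h1

end Pool.Agent.Helper72.TH

end
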