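import Pool.Agent.Helper72.TM2.T34
import Pool.Agent.Helper72.TM2.T36
import Pool.Agent.Helper72.TM2.T43

section

namespace Pool.Agent.Helper36
end Pool.Agent.Helper36
namespace Pool.Agent.Helper38.TQ
end Pool.Agent.Helper38.TQ
namespace Pool.Agent.Helper30.TKN
end Pool.Agent.Helper30.TKN
namespace Pool.Agent.Helper30.RED
end Pool.Agent.Helper30.RED
namespace Pool.Agent.Helper30.THC
end Pool.Agent.Helper30.THC
namespace Pool.Agent.Helper72.TH
end Pool.Agent.Helper72.TH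

/-!
# Project THD: algebraic data
-/

set_option autoImplicit false

namespace Pool.Agent.Helper30.THD

open MvPolynomial

open Pool.Agent.Helper36 (step iter iter_zero iter_succ iter_succ' iter_add iter_map APSet APSet_univ)

open Pool.Agent.Helper38.TQ

open Pool.Agent.Helper30.TKN

open Pool.Agent.Helper30.RED

open Pool.Agent.Helper30.THC

open Pool.Agent.Helper72.TH (Chain ChainS TamePt Meets)

variable {ν : ℕ}

/-- Algebraic data. -/
theorem cl3_alg {d N r M n : ℕ} {V : Fin r → Fin N} {Λ : Fin 3 → Fin N} {G : Fin M → Fin N}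
    {P : Fin N} {Z : Fin n → Fin N} {e : Fin r → ℕ} {u : Fin M → (Fin 3 →₀ ℕ)} {D s t : ℕ}
    {i₀ : Fin (ν + 1)} {δ : Fin n → ℕ} {S : ℕ → Finset (Fin n)}
    {f : Fin (ν + 1) → MvPolynomial (Fin (ν + 1)) ℂ}
    {w : Fin N → MvPolynomial (Fin (ν + 1)) ℂ} {a : Fin (ν + 1) → ℂ}
    (hfa : ∀ i m, IsAlgebraic ℚ ((f i).coeff m)) (hwa : ∀ j m, IsAlgebraic ℚ ((w j).coeff m))
    (haa : ∀ i, IsAlgebraic ℚ (a i)) (hf : IsEndo d f)
    (hC : Cl3 V Λ G P Z e u D s t i₀ δ S f w) (ha : a ≠ 0) :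
    ∃ A, {n | ∀ j, eval (iter f a n) (w (V j)) = 0} = APSet A := by
  classical
  set T₀ : Set (MvPolynomial (Fin (ν + 1)) ℂ) := Set.range fun j => w (V j) with hT₀
  have hT₀f : ∀ g ∈ T₀, ∃ e, g.IsHomogeneous e := by
    rintro g ⟨j, rfl⟩
    exact ⟨_, hC.homV j⟩
  have hset : {n | ∀ j, eval (iter f a n) (w (V j)) = 0} =
      {n | ∀ g ∈ T₀, eval (iter f a n) g = 0} := by
    ext n
    constructor
    · rintro hn g ⟨j, rfl⟩
      exact hn j
    · intro hn j
      exact hn _ ⟨j, rfl⟩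
  rw [hset]
  by_cases hfin : {n : ℕ | ∀ g ∈ T₀, eval (iter f a n) g = 0}.Finite
  · obtain ⟨A, hA⟩ := Pool.Agent.Helper72.PN.MainN_finite hfin
    exact ⟨A, hA⟩
  have hcur : CurveSet T₀ := curveSet_of_forms hT₀f (hC.homL 0) (hC.homL 1)
    fun z hz h0 h1 => hC.noz z (fun j => hz _ ⟨j, rfl⟩) h0 h1
  have hchain : ChainS f (jf f) t fun i => {g | ∃ j ∈ S i, w (Z j) = g} := by
    refine ⟨?_, ?_, ?_, ?_⟩
    · rintro i _ g ⟨j, -, rfl⟩
      exact ⟨⟨_, hC.chain.hom j⟩, hwa _⟩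
    · rintro i hi x hx g ⟨j, hj, rfl⟩
      have h1 := hC.chain.inv i hi x (fun l hl => by
        rw [aevalC]
        exact hx _ ⟨l, hl, rfl⟩) j hj
      simpa only [aevalC] using h1
    · rintro i hi x hx hq g ⟨j, hj, rfl⟩
      have h1 := hC.chain.down i hi x (fun l hl => by
        rw [aevalC]
        exact hx _ ⟨l, hl, rfl⟩) (by rw [aevalC]; exact hq) j hj
      simpa only [aevalC] using h1
    · intro x hx
      refine hC.chain.empty x fun j hj => ?_
      rw [aevalC]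
      exact hx _ ⟨j, hj, rfl⟩
  have hp0 : pt (w P) ≠ 0 := by
    intro h
    have h1 := hC.p1
    rw [h] at h1
    exact zero_ne_one h1
  have hmeet : Meets f T₀ := by
    intro U hU hUV ⟨y, hy0, hne, hyU⟩
    refine ⟨pt (w P), hp0, ?_, t, _, hchain, s, ?_⟩
    · exact mem_of_infinite hC.homV hC.homL hC.noz hC.irr hC.rel hp0 hC.pV hC.sep hU
        (fun x hx j => hUV x hx _ ⟨j, rfl⟩) y hy0 hne hyU
    · rintro g ⟨j, hj, rfl⟩
      exact hC.tame j hj
  obtain ⟨A, hA⟩ := Pool.Agent.Helper72.TH.final2 hf hfa ha (c := 1) one_ne_zero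
    (fun i => by rw [one_mul]; exact haa i) hT₀f hcur hmeet hfin hT₀f
  exact ⟨A, hA⟩

end Pool.Agent.Helper30.THD

end
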