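import Mathlib
import Pool.Agent.Helper72.TM2.T20
import Pool.Agent.Helper72.TM2.T37

section

set_option autoImplicit false

/-!
# Hypersurface sections drop the transcendence degree by at most one; curves through points
-/

namespace Pool.Agent.Helper8.AlgCut

open MvPolynomial

theorem trdeg_quot_prime {κ : Type} [Field κ] {s : ℕ} (π : MvPolynomial (Fin s) κ)
    (hπ : Prime π) (r : ℕ) (hs : r + 1 ≤ s) :
    (r : Cardinal) ≤ Algebra.trdeg κ (MvPolynomial (Fin s) κ ⧸ Ideal.span {π}) := by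
  have : (Ideal.span {π}).IsPrime := (Ideal.span_singleton_prime hπ.ne_zero).2 hπ
  obtain ⟨i, hi⟩ : ∃ i, i ∈ π.vars := by
    by_contra hcon
    push Not at hcon
    have h1 : π.vars = ∅ := Finset.eq_empty_of_forall_notMem hcon
    rw [vars_eq_empty_iff_eq_C] at h1
    have h2 : π.coeff 0 ≠ 0 := by
      intro h0
      rw [h0, map_zero] at h1
      exact hπ.ne_zero h1
    apply hπ.not_isUnit
    rw [h1]
    exact (isUnit_iff_ne_zero.2 h2).map C
  have hdi : π.degreeOf i ≠ 0 := mem_vars_iff_degreeOf_ne_zero.1 hi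
  let y : {j : Fin s // j ≠ i} → MvPolynomial (Fin s) κ ⧸ Ideal.span {π} :=
    fun j => Ideal.Quotient.mk _ (X j.1)
  have hy : AlgebraicIndependent κ y := by
    rw [algebraicIndependent_iff]
    intro Q hQ
    by_contra hQ0
    have h1 : aeval y Q = Ideal.Quotient.mk (Ideal.span {π}) (rename Subtype.val Q) := by
      have : (aeval y : MvPolynomial {j : Fin s // j ≠ i} κ →ₐ[κ] _) =
          (Ideal.Quotient.mkₐ κ (Ideal.span {π})).comp (rename Subtype.val) := by
        apply MvPolynomial.algHom_ext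
        intro j
        simp [y]
      rw [this]
      rfl
    rw [h1, Ideal.Quotient.eq_zero_iff_mem, Ideal.mem_span_singleton] at hQ
    obtain ⟨g, hg⟩ := hQ
    have h2 : rename Subtype.val Q ≠ 0 := by
      intro h
      exact hQ0 (rename_injective _ Subtype.val_injective (by simpa using h))
    have h3 : g ≠ 0 := by
      rintro rfl
      rw [mul_zero] at hg
      exact h2 hg
    have h4 := degreeOf_mul_eq (n := i) hπ.ne_zero h3
    rw [← hg] at h4
    have h5 : (rename Subtype.val Q).degreeOf i = 0 := by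
      by_contra h
      have := mem_vars_rename _ _ (mem_vars_iff_degreeOf_ne_zero.2 h)
      obtain ⟨j, -, hj⟩ := this
      exact j.2 hj
    omega
  have h6 := hy.cardinalMk_le_trdeg
  refine le_trans ?_ h6
  rw [Cardinal.mk_fintype]
  have : Fintype.card {j : Fin s // j ≠ i} = s - 1 := by
    rw [Fintype.card_subtype_compl]; simp
  rw [this]
  exact_mod_cast (by omega : r ≤ s - 1)

end Pool.Agent.Helper8.AlgCut

end

section

namespace Pool.Agent.Helper8.AlgCut
end Pool.Agent.Helper8.AlgCut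

set_option autoImplicit false

/-!
# Curves through a point of an integral affine variety avoiding a hypersurface (MP_0b9e0b_ag)
-/

namespace Pool.Agent.Helper40.AlgAvoid

open MvPolynomial Pool.Agent.Helper8.AlgCut

theorem cut_min {κ R : Type} [Field κ] [CommRing R] [IsDomain R] [Algebra κ R]
    [Algebra.FiniteType κ R] (r : ℕ) (hr : ((r + 1 : ℕ) : Cardinal) ≤ Algebra.trdeg κ R)
    (f : R) (hf0 : f ≠ 0) (P : Ideal R) (hP : P ∈ (Ideal.span {f}).minimalPrimes) :
    (r : Cardinal) ≤ Algebra.trdeg κ (R ⧸ P) := by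
  obtain ⟨s, g, hgi, hgf⟩ := exists_finite_inj_algHom_of_fg κ R
  let _ : Algebra (MvPolynomial (Fin s) κ) R := g.toRingHom.toAlgebra
  have hmap : ∀ x, algebraMap (MvPolynomial (Fin s) κ) R x = g x := fun _ => rfl
  have : IsScalarTower κ (MvPolynomial (Fin s) κ) R := IsScalarTower.of_algebraMap_eq'
    (g.comp_algebraMap).symm
  have : Module.Finite (MvPolynomial (Fin s) κ) R := hgf
  have : Algebra.IsIntegral (MvPolynomial (Fin s) κ) R := inferInstance
  have : FaithfulSMul (MvPolynomial (Fin s) κ) R :=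
    (faithfulSMul_iff_algebraMap_injective _ _).2 hgi
  have : IsNoetherianRing R := Algebra.FiniteType.isNoetherianRing κ R
  have htr : Algebra.trdeg κ R = s := by
    have h := trdeg_add_eq κ (MvPolynomial (Fin s) κ) (A := R)
    rw [trdeg_eq_zero (R := MvPolynomial (Fin s) κ) (A := R), add_zero,
      MvPolynomial.trdeg_of_isDomain] at h
    rw [← h]
    simp
  have hs : r + 1 ≤ s := by
    rw [htr] at hr
    exact_mod_cast hr
  have hPp : P.IsPrime := hP.isPrime
  have hfP : f ∈ P := hP.1.2 (Ideal.mem_span_singleton_self f)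
  have hht : P.height ≤ 1 := Ideal.height_le_one_of_isPrincipal_of_mem_minimalPrimes _ P hP
  have hq : P.under (MvPolynomial (Fin s) κ) ≠ ⊥ :=
    Ideal.comap_ne_bot_of_integral_mem hf0 hfP (Algebra.IsIntegral.isIntegral f)
  obtain ⟨π, hπP, hπ⟩ := Ideal.IsPrime.exists_mem_prime_of_ne_bot
    (inferInstance : (P.under (MvPolynomial (Fin s) κ)).IsPrime) hq
  have hπp : (Ideal.span {π}).IsPrime := (Ideal.span_singleton_prime hπ.ne_zero).2 hπ
  have hqe : Ideal.span {π} = P.under (MvPolynomial (Fin s) κ) := by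
    by_contra hne
    have hlt : Ideal.span {π} < P.under (MvPolynomial (Fin s) κ) := by
      refine lt_of_le_of_ne ?_ hne
      rwa [Ideal.span_singleton_le_iff_mem]
    obtain ⟨Q, hQP, hQp, hQo⟩ := Ideal.exists_ideal_lt_liesOver_of_lt P hlt
    have hQ0 : ⊥ < Q := by
      rw [bot_lt_iff_ne_bot]
      rintro rfl
      have h1 : π ∈ (⊥ : Ideal R).under (MvPolynomial (Fin s) κ) := by
        rw [← hQo.over]
        exact Ideal.mem_span_singleton_self π
      exact hπ.ne_zero (by simpa using h1)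
    have hbot : (⊥ : Ideal R).IsPrime := Ideal.isPrime_bot
    have h1 := Ideal.height_strict_mono_of_isPrime hQ0
    have h2 := Ideal.height_strict_mono_of_isPrime hQP
    have h3 : (1 : ℕ∞) ≤ Q.height := Order.one_le_iff_pos.2 (lt_of_le_of_lt bot_le h1)
    exact absurd hht (not_le.2 (lt_of_le_of_lt h3 h2))
  let φ : (MvPolynomial (Fin s) κ ⧸ Ideal.span {π}) →ₐ[κ] R ⧸ P :=
    Ideal.quotientMapₐ P g (by rw [hqe]; exact le_rfl)
  have hφ : Function.Injective φ := by
    have hge : (P.comap g.toRingHom) = Ideal.span {π} := hqe.symm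
    exact Ideal.quotientMap_injective' (f := g.toRingHom) (H := hge.ge) hge.le
  exact le_trans (trdeg_quot_prime π hπ r hs) (trdeg_le_of_injective φ hφ)

end Pool.Agent.Helper40.AlgAvoid

end

section

set_option autoImplicit false

set_option linter.unusedSectionVars false

namespace Pool.Agent.PL

variable {κ A : Type} [Field κ] [CommRing A] [Algebra κ A] [Algebra.FiniteType κ A]

omit [Algebra.FiniteType κ A] in
/-- The quotient map `A/𝔭 → A/𝔮`. -/
theorem quot_factor (𝔭 𝔮 : Ideal A) (h : 𝔭 ≤ 𝔮) :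
    ∃ g : (A ⧸ 𝔭) →ₐ[κ] (A ⧸ 𝔮), ∀ a : A, g (Ideal.Quotient.mk 𝔭 a) = Ideal.Quotient.mk 𝔮 a :=
  ⟨Ideal.Quotient.factorₐ κ h, fun a => rfl⟩

theorem exists_indep {R : Type} [CommRing R] [IsDomain R] [Algebra κ R] (d : ℕ)
    (hd : ((d : ℕ) : Cardinal) ≤ Algebra.trdeg κ R) :
    ∃ x : Fin d → R, AlgebraicIndependent κ x := by
  obtain ⟨s, hs⟩ := exists_isTranscendenceBasis κ R
  rw [← hs.cardinalMk_eq_trdeg, ← Cardinal.mk_fin, Cardinal.le_def] at hd
  obtain ⟨e⟩ := hd
  exact ⟨fun i => (e i : R), hs.1.comp e e.injective⟩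

theorem indep_lift {R S : Type} [CommRing R] [IsDomain R] [Algebra κ R] [CommRing S] [IsDomain S]
    [Algebra κ S] (g : R →ₐ[κ] S) (f : R) (hf : f ≠ 0) (hgf : g f = 0) (d : ℕ) (x : Fin d → R)
    (hx : AlgebraicIndependent κ (g ∘ x)) :
    ((d + 1 : ℕ) : Cardinal) ≤ Algebra.trdeg κ R := by
  have hx0 : AlgebraicIndependent κ x := hx.of_comp g
  have htr : Transcendental (Algebra.adjoin κ (Set.range x)) f := by
    intro halg
    obtain ⟨q, hq0, hq⟩ := halg.exists_nonzero_coeff_and_aeval_eq_zero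
      (mem_nonZeroDivisors_of_ne_zero hf)
    apply hq0
    have h1 : f ∣ (algebraMap (Algebra.adjoin κ (Set.range x)) R (q.coeff 0)) := by
      have h2 := map_dvd (Polynomial.aeval f) (Polynomial.X_dvd_sub_C (p := q))
      rw [map_sub, hq, zero_sub, dvd_neg, Polynomial.aeval_X, Polynomial.aeval_C] at h2
      exact h2
    obtain ⟨r, hr⟩ := h1
    have h3 : g ((q.coeff 0 : Algebra.adjoin κ (Set.range x)) : R) = 0 := by
      have h4 : ((q.coeff 0 : Algebra.adjoin κ (Set.range x)) : R) = f * r := hr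
      rw [h4, map_mul, hgf, zero_mul]
    have hmem : ((q.coeff 0 : Algebra.adjoin κ (Set.range x)) : R) ∈
        (MvPolynomial.aeval x : MvPolynomial (Fin d) κ →ₐ[κ] R).range := by
      rw [← Algebra.adjoin_range_eq_range_aeval]
      exact (q.coeff 0).2
    obtain ⟨P, hP⟩ := hmem
    have hP' : MvPolynomial.aeval x P = ((q.coeff 0 : Algebra.adjoin κ (Set.range x)) : R) := hP
    have h5 : MvPolynomial.aeval (g ∘ x) P = 0 := by
      rw [← h3, ← hP']
      have : (MvPolynomial.aeval (g ∘ x) : MvPolynomial (Fin d) κ →ₐ[κ] S) =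
          g.comp (MvPolynomial.aeval x) := by
        apply MvPolynomial.algHom_ext
        intro i
        simp
      rw [this]
      rfl
    have h6 : P = 0 := (algebraicIndependent_iff.1 hx) P h5
    apply Subtype.ext
    rw [← hP', h6, map_zero]
    rfl
  have hO := (hx0.option_iff_transcendental f).2 htr
  have h7 := hO.cardinalMk_le_trdeg
  refine le_trans ?_ h7
  rw [Cardinal.mk_fintype, Fintype.card_option, Fintype.card_fin]

theorem trdeg_lt (𝔭 𝔮 : Ideal A) (h𝔭 : 𝔭.IsPrime) (h𝔮 : 𝔮.IsPrime) (h : 𝔭 < 𝔮) (d : ℕ)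
    (hd : ((d : ℕ) : Cardinal) ≤ Algebra.trdeg κ (A ⧸ 𝔮)) :
    ((d + 1 : ℕ) : Cardinal) ≤ Algebra.trdeg κ (A ⧸ 𝔭) := by
  obtain ⟨g, hg⟩ := quot_factor (κ := κ) 𝔭 𝔮 h.le
  obtain ⟨y, hy⟩ := exists_indep d hd
  obtain ⟨f, hfq, hfp⟩ := SetLike.exists_of_lt h
  choose x hx using fun i => Ideal.Quotient.mk_surjective (y i)
  refine indep_lift g (Ideal.Quotient.mk 𝔭 f) ?_ ?_ d (fun i => Ideal.Quotient.mk 𝔭 (x i)) ?_
  · rwa [Ne, Ideal.Quotient.eq_zero_iff_mem]
  · rw [hg, Ideal.Quotient.eq_zero_iff_mem]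
    exact hfq
  · have : g ∘ (fun i => Ideal.Quotient.mk 𝔭 (x i)) = y := by
      funext i
      simp only [Function.comp_apply]
      rw [hg, hx]
    rw [this]
    exact hy

/-- A minimal prime over `𝔭 ⊔ (f)`. -/
theorem cut_sup (𝔭 𝔮 : Ideal A) (h𝔭 : 𝔭.IsPrime) (f : A) (hf : f ∉ 𝔭)
    (h𝔮 : 𝔮 ∈ (𝔭 ⊔ Ideal.span {f}).minimalPrimes) (d : ℕ)
    (hd : ((d + 1 : ℕ) : Cardinal) ≤ Algebra.trdeg κ (A ⧸ 𝔭)) :
    ((d : ℕ) : Cardinal) ≤ Algebra.trdeg κ (A ⧸ 𝔮) := by
  have hq : 𝔮.IsPrime := h𝔮.isPrime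
  have hpq : 𝔭 ≤ 𝔮 := le_sup_left.trans h𝔮.1.2
  have hfq : f ∈ 𝔮 := h𝔮.1.2 (Ideal.mem_sup_right (Ideal.mem_span_singleton_self f))
  set Q : Ideal (A ⧸ 𝔭) := 𝔮.map (Ideal.Quotient.mk 𝔭) with hQ
  have hker : RingHom.ker (Ideal.Quotient.mk 𝔭) ≤ 𝔮 := by rwa [Ideal.mk_ker]
  have hQp : Q.IsPrime := Ideal.map_isPrime_of_surjective Ideal.Quotient.mk_surjective hker
  have hQc : Q.comap (Ideal.Quotient.mk 𝔭) = 𝔮 := by
    rw [hQ, Ideal.comap_map_of_surjective _ Ideal.Quotient.mk_surjective, sup_eq_left]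
    intro a ha
    rw [Ideal.mem_comap, Ideal.mem_bot, Ideal.Quotient.eq_zero_iff_mem] at ha
    exact hpq ha
  have hmin : Q ∈ (Ideal.span {Ideal.Quotient.mk 𝔭 f}).minimalPrimes := by
    refine ⟨⟨hQp, ?_⟩, ?_⟩
    · rw [Ideal.span_singleton_le_iff_mem]
      exact Ideal.mem_map_of_mem _ hfq
    · rintro P ⟨hP, hfP⟩ hPQ
      have h1 : P.comap (Ideal.Quotient.mk 𝔭) ≤ 𝔮 := by
        rw [← hQc]
        exact Ideal.comap_mono hPQ
      have h2 : 𝔭 ⊔ Ideal.span {f} ≤ P.comap (Ideal.Quotient.mk 𝔭) := by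
        refine sup_le ?_ ?_
        · intro a ha
          rw [Ideal.mem_comap, Ideal.Quotient.eq_zero_iff_mem.2 ha]
          exact zero_mem _
        · rw [Ideal.span_singleton_le_iff_mem, Ideal.mem_comap]
          exact hfP (Ideal.mem_span_singleton_self _)
      have h3 : 𝔮 ≤ P.comap (Ideal.Quotient.mk 𝔭) :=
        h𝔮.2 ⟨Ideal.comap_isPrime _ _, h2⟩ h1
      rw [hQ, Ideal.map_le_iff_le_comap]
      exact h3
  have hf0 : Ideal.Quotient.mk 𝔭 f ≠ 0 := by rwa [Ne, Ideal.Quotient.eq_zero_iff_mem]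
  have h4 := Helper40.AlgAvoid.cut_min d hd _ hf0 Q hmin
  have e : ((A ⧸ 𝔭) ⧸ Q) ≃ₐ[κ] (A ⧸ 𝔮) := by
    rw [hQ]
    exact DoubleQuot.quotQuotEquivQuotOfLEₐ κ hpq
  rwa [e.trdeg_eq] at h4

theorem exists_cut (𝔭 𝔪 : Ideal A) (h𝔭 : 𝔭.IsPrime) (h𝔪 : 𝔪.IsPrime) (h : 𝔭 ≤ 𝔪) (f : A)
    (hf : f ∉ 𝔭) (hf𝔪 : f ∈ 𝔪) (d : ℕ)
    (hd : ((d + 1 : ℕ) : Cardinal) ≤ Algebra.trdeg κ (A ⧸ 𝔭)) :
    ∃ 𝔮 : Ideal A, 𝔮.IsPrime ∧ 𝔭 < 𝔮 ∧ 𝔮 ≤ 𝔪 ∧ f ∈ 𝔮 ∧
      ((d : ℕ) : Cardinal) ≤ Algebra.trdeg κ (A ⧸ 𝔮) := by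
  have hle : 𝔭 ⊔ Ideal.span {f} ≤ 𝔪 := by
    refine sup_le h ?_
    rwa [Ideal.span_singleton_le_iff_mem]
  obtain ⟨𝔮, h𝔮, h𝔮𝔪⟩ := Ideal.exists_minimalPrimes_le hle
  have hfq : f ∈ 𝔮 := h𝔮.1.2 (Ideal.mem_sup_right (Ideal.mem_span_singleton_self f))
  refine ⟨𝔮, h𝔮.isPrime, lt_of_le_of_ne (le_sup_left.trans h𝔮.1.2) ?_, h𝔮𝔪, hfq,
    cut_sup 𝔭 𝔮 h𝔭 f hf h𝔮 d hd⟩
  rintro rfl
  exact hf hfq

end Pool.Agent.PL

end

section

/-!
# A hypersurface section of a curve has dimension zero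
-/

set_option autoImplicit false

namespace Pool.Agent.Helper89.TNL

open MvPolynomial

section ZD

variable {ν : ℕ} {K : Type} [Field K]

theorem zd_cut (𝔭 𝔪 : Ideal (MvPolynomial (Fin (ν + 1)) K)) (h𝔭 : 𝔭.IsPrime) (h𝔪 : 𝔪.IsPrime)
    (h : 𝔭 ≤ 𝔪) (f : MvPolynomial (Fin (ν + 1)) K) (hf : f ∈ 𝔪) (d : ℕ)
    (hd : ((d + 1 : ℕ) : Cardinal) ≤ Algebra.trdeg K (MvPolynomial (Fin (ν + 1)) K ⧸ 𝔭)) :
    ∃ 𝔮 : Ideal (MvPolynomial (Fin (ν + 1)) K), 𝔮.IsPrime ∧ 𝔭 ≤ 𝔮 ∧ 𝔮 ≤ 𝔪 ∧ f ∈ 𝔮 ∧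
      ((d : ℕ) : Cardinal) ≤ Algebra.trdeg K (MvPolynomial (Fin (ν + 1)) K ⧸ 𝔮) := by
  by_cases hfp : f ∈ 𝔭
  · refine ⟨𝔭, h𝔭, le_rfl, h, hfp, le_trans ?_ hd⟩
    exact_mod_cast Nat.le_succ d
  · obtain ⟨𝔮, h1, h2, h3, h4, h5⟩ := PL.exists_cut (κ := K) 𝔭 𝔪 h𝔭 h𝔪 h f hfp hf d hd
    exact ⟨𝔮, h1, h2.le, h3, h4, h5⟩

/-- The dimension of the cone over a curve. -/
theorem zd_trdeg {I : Ideal (MvPolynomial (Fin (ν + 1)) K)}
    (hp : I.IsPrime) (hh : ∀ P ∈ I, ∀ m, homogeneousComponent m P ∈ I)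
    (hfin : ∃ (l₀ l₁ : Fin (ν + 1) → K) (s : ℕ), ∀ i,
      (X i ^ s : MvPolynomial (Fin (ν + 1)) K) ∈
        I ⊔ Ideal.span {∑ j, C (l₀ j) * X j, ∑ j, C (l₁ j) * X j}) :
    ¬ ((3 : ℕ) : Cardinal) ≤ Algebra.trdeg K (MvPolynomial (Fin (ν + 1)) K ⧸ I) := by
  intro h3
  obtain ⟨l₀, l₁, s, hs⟩ := hfin
  set 𝔪 : Ideal (MvPolynomial (Fin (ν + 1)) K) :=
    RingHom.ker (constantCoeff : MvPolynomial (Fin (ν + 1)) K →+* K) with h𝔪
  have h𝔪p : 𝔪.IsPrime := RingHom.ker_isPrime _
  have hI : I ≤ 𝔪 := by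
    intro P hP
    rw [h𝔪, RingHom.mem_ker]
    by_contra h0
    have h1 := hh P hP 0
    rw [homogeneousComponent_zero] at h1
    refine hp.ne_top (Ideal.eq_top_of_isUnit_mem _ h1 ?_)
    exact (isUnit_iff_ne_zero.2 h0).map C
  have hl : ∀ l : Fin (ν + 1) → K, ∑ j, C (l j) * X j ∈ 𝔪 := by
    intro l
    rw [h𝔪, RingHom.mem_ker, map_sum]
    refine Finset.sum_eq_zero fun j _ => ?_
    rw [map_mul, constantCoeff_X, mul_zero]
  obtain ⟨q₁, hq₁, hIq₁, hq₁m, hlq₁, hd₁⟩ := zd_cut I 𝔪 hp h𝔪p hI _ (hl l₀) 2 h3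
  obtain ⟨q₂, hq₂, hq₁q₂, hq₂m, hlq₂, hd₂⟩ := zd_cut q₁ 𝔪 hq₁ h𝔪p hq₁m _ (hl l₁) 1 hd₁
  have hX : ∀ i, (X i : MvPolynomial (Fin (ν + 1)) K) ∈ q₂ := by
    intro i
    refine hq₂.mem_of_pow_mem s ?_
    have h1 : I ⊔ Ideal.span {∑ j, C (l₀ j) * X j, ∑ j, C (l₁ j) * X j} ≤ q₂ := by
      refine sup_le (hIq₁.trans hq₁q₂) ?_
      rw [Ideal.span_le]
      rintro x (rfl | rfl)
      · exact hq₁q₂ hlq₁
      · exact hlq₂
    exact h1 (hs i)
  have hsurj : ∀ a : MvPolynomial (Fin (ν + 1)) K ⧸ q₂,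
      ∃ c : K, a = algebraMap K (MvPolynomial (Fin (ν + 1)) K ⧸ q₂) c := by
    intro a
    obtain ⟨P, rfl⟩ := Ideal.Quotient.mk_surjective a
    induction P using MvPolynomial.induction_on with
    | C c => exact ⟨c, rfl⟩
    | add P Q hP hQ =>
      obtain ⟨c, hc⟩ := hP
      obtain ⟨c', hc'⟩ := hQ
      exact ⟨c + c', by rw [map_add, hc, hc', map_add]⟩
    | mul_X P i _ =>
      refine ⟨0, ?_⟩
      rw [map_zero, Ideal.Quotient.eq_zero_iff_mem]
      exact Ideal.mul_mem_left _ _ (hX i)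
  have halg : Algebra.IsAlgebraic K (MvPolynomial (Fin (ν + 1)) K ⧸ q₂) := by
    constructor
    intro a
    obtain ⟨c, rfl⟩ := hsurj a
    exact isAlgebraic_algebraMap c
  rw [trdeg_eq_zero] at hd₂
  exact absurd hd₂ (by simp)

theorem zd_hom {I : Ideal (MvPolynomial (Fin (ν + 1)) K)}
    (hh : ∀ P ∈ I, ∀ m, homogeneousComponent m P ∈ I)
    {h : MvPolynomial (Fin (ν + 1)) K} {n : ℕ} (hn : h.IsHomogeneous n)
    {P : MvPolynomial (Fin (ν + 1)) K} (hP : P ∈ I ⊔ Ideal.span {h}) (m : ℕ) :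
    homogeneousComponent m P ∈ I ⊔ Ideal.span {h} := by
  letI : GradedAlgebra (homogeneousSubmodule (Fin (ν + 1)) K) := MvPolynomial.gradedAlgebra
  have h1 : (I ⊔ Ideal.span {h}).IsHomogeneous (homogeneousSubmodule (Fin (ν + 1)) K) := by
    refine Ideal.IsHomogeneous.sup ?_ ?_
    · intro i P hP
      have h2 := decomposition.decompose'_apply P i
      have h3 := hh P hP i
      rw [← h2] at h3
      exact h3
    · refine Ideal.homogeneous_span _ _ ?_
      rintro x rfl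
      exact ⟨n, hn⟩
  exact homogeneousComponent_mem_of_mem h1 hP m

theorem zd_comp (l l' : Fin (ν + 1) → K) (ρ : MvPolynomial (Fin 2) K) (m : ℕ) :
    homogeneousComponent m (aeval ![∑ j, C (l j) * X j, ∑ j, C (l' j) * X j] ρ :
      MvPolynomial (Fin (ν + 1)) K) =
      aeval ![∑ j, C (l j) * X j, ∑ j, C (l' j) * X j] (homogeneousComponent m ρ) := by
  classical
  have hg : ∀ i : Fin 2, ((![∑ j, C (l j) * X j, ∑ j, C (l' j) * X j] :
      Fin 2 → MvPolynomial (Fin (ν + 1)) K) i).IsHomogeneous 1 := by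
    intro i
    have h0 : ∀ l : Fin (ν + 1) → K,
        (∑ j, C (l j) * X j : MvPolynomial (Fin (ν + 1)) K).IsHomogeneous 1 := by
      intro l
      refine IsHomogeneous.sum _ _ _ fun j _ => ?_
      exact (isHomogeneous_X K j).C_mul _
    fin_cases i
    · exact h0 l
    · exact h0 l'
  have h1 : ∀ j, (aeval ![∑ j, C (l j) * X j, ∑ j, C (l' j) * X j]
      (homogeneousComponent j ρ) : MvPolynomial (Fin (ν + 1)) K).IsHomogeneous j := by
    intro j
    have := (homogeneousComponent_isHomogeneous j ρ).aeval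
      (![∑ j, C (l j) * X j, ∑ j, C (l' j) * X j] : Fin 2 → MvPolynomial (Fin (ν + 1)) K) hg
    rwa [one_mul] at this
  conv_lhs => rw [← sum_homogeneousComponent ρ, map_sum, map_sum]
  rw [Finset.sum_congr rfl fun j _ => homogeneousComponent_of_mem (h1 j)]
  rw [Finset.sum_ite_eq]
  split_ifs with hm
  · rfl
  · rw [homogeneousComponent_eq_zero, map_zero]
    rw [Finset.mem_range, not_lt] at hm
    omega

end ZD

theorem zeroDim {ν : ℕ} {K : Type} [Field K] {I : Ideal (MvPolynomial (Fin (ν + 1)) K)}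
    (hp : I.IsPrime) (hh : ∀ P ∈ I, ∀ m, homogeneousComponent m P ∈ I)
    (hfin : ∃ (l₀ l₁ : Fin (ν + 1) → K) (s : ℕ), ∀ i,
      (X i ^ s : MvPolynomial (Fin (ν + 1)) K) ∈
        I ⊔ Ideal.span {∑ j, C (l₀ j) * X j, ∑ j, C (l₁ j) * X j})
    {h : MvPolynomial (Fin (ν + 1)) K} {n : ℕ} (hn : h.IsHomogeneous n) (hI : h ∉ I)
    (l l' : Fin (ν + 1) → K) :
    ∃ (ρ : MvPolynomial (Fin 2) K) (m : ℕ), ρ ≠ 0 ∧ ρ.IsHomogeneous m ∧
      aeval ![∑ j, C (l j) * X j, ∑ j, C (l' j) * X j] ρ ∈ I ⊔ Ideal.span {h} := by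
  classical
  set J : Ideal (MvPolynomial (Fin (ν + 1)) K) := I ⊔ Ideal.span {h} with hJ
  set g : Fin 2 → MvPolynomial (Fin (ν + 1)) K :=
    ![∑ j, C (l j) * X j, ∑ j, C (l' j) * X j] with hg
  have h3 := zd_trdeg hp hh hfin
  -- a relation modulo each prime
  have hrel : ∀ q : Ideal (MvPolynomial (Fin (ν + 1)) K), q ∈ J.minimalPrimes →
      ∃ ρ : MvPolynomial (Fin 2) K, ρ ≠ 0 ∧ aeval g ρ ∈ q := by
    intro q hq
    have hqp : q.IsPrime := hq.isPrime
    have hJq : J ≤ q := hq.1.2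
    have hlt : I < q := by
      refine lt_of_le_of_ne (le_sup_left.trans hJq) ?_
      rintro rfl
      exact hI (hJq (Ideal.mem_sup_right (Ideal.mem_span_singleton_self h)))
    by_contra hcon
    push Not at hcon
    apply h3
    refine PL.trdeg_lt (κ := K) I q hp hqp hlt 2 ?_
    have hind : AlgebraicIndependent K fun i : Fin 2 => Ideal.Quotient.mkₐ K q (g i) := by
      rw [algebraicIndependent_iff]
      intro ρ hρ
      by_contra hρ0
      refine hcon ρ hρ0 ?_
      rw [← comp_aeval_apply] at hρ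
      exact Ideal.Quotient.eq_zero_iff_mem.1 hρ
    have := hind.cardinalMk_le_trdeg
    rwa [Cardinal.mk_fin] at this
  have hfinm : J.minimalPrimes.Finite :=
    Ideal.finite_minimalPrimes_of_isNoetherianRing _ J
  choose! ρ hρ0 hρ using hrel
  set Q : MvPolynomial (Fin 2) K := ∏ q ∈ hfinm.toFinset, ρ q with hQ
  have hQ0 : Q ≠ 0 := by
    rw [hQ, Finset.prod_ne_zero_iff]
    intro q hq
    exact hρ0 q (hfinm.mem_toFinset.1 hq)
  have hQr : aeval g Q ∈ J.radical := by
    rw [← Ideal.sInf_minimalPrimes, Ideal.mem_sInf]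
    intro q hq
    have hqm : q ∈ hfinm.toFinset := hfinm.mem_toFinset.2 hq
    rw [hQ, map_prod, ← Finset.mul_prod_erase _ _ hqm]
    exact Ideal.mul_mem_right _ _ (hρ q hq)
  obtain ⟨N, hN⟩ := hQr
  have hR0 : Q ^ N ≠ 0 := pow_ne_zero _ hQ0
  have hR : aeval g (Q ^ N) ∈ J := by
    rw [map_pow]
    exact hN
  obtain ⟨m, hm⟩ : ∃ m, homogeneousComponent m (Q ^ N) ≠ 0 := by
    by_contra hcon
    push Not at hcon
    apply hR0
    rw [← sum_homogeneousComponent (Q ^ N)]
    exact Finset.sum_eq_zero fun i _ => hcon i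
  refine ⟨homogeneousComponent m (Q ^ N), m, hm, homogeneousComponent_isHomogeneous _ _, ?_⟩
  rw [hg, ← zd_comp l l' (Q ^ N) m]
  exact zd_hom hh hn hR m

end Pool.Agent.Helper89.TNL

end

section

namespace Pool.Agent.Helper16
end Pool.Agent.Helper16
namespace Pool.Agent.Helper30.TP
end Pool.Agent.Helper30.TP

/-!
# The place of the limit field
-/

set_option autoImplicit false

namespace Pool.Agent.Helper89.TC

open Pool.Agent.Helper16 (Place)

open Pool.Agent.Helper30.TP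

/-- the infinitesimal sequences -/
private def LimInf {k K : Type} [Field k] [Field K] [Algebra k K] (b : Place k K)
    (W : Ultrafilter ℕ) (u : ℕ → K) : Prop :=
  ∀ c : ℕ, ∀ᶠ a in (W : Filter ℕ), b.val (u a) < WithZero.exp (-(c : ℤ))

private theorem Lim_dich {k K : Type} [Field k] [Field K] [Algebra k K] {b : Place k K}
    {W : Ultrafilter ℕ} {u : ℕ → K} (hu : u ∈ bddSub b W) :
    LimInf b W u ∨ ∃ m : ℤ, ∀ᶠ a in (W : Filter ℕ), b.val (u a) = WithZero.exp m := by
  by_cases h : LimInf b W u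
  · exact Or.inl h
  right
  unfold LimInf at h
  push Not at h
  obtain ⟨c, hc⟩ := h
  have h1 : ∀ᶠ a in (W : Filter ℕ), WithZero.exp (-(c : ℤ)) ≤ b.val (u a) := hc
  obtain ⟨C, hC⟩ := hu
  have h2 : ∀ᶠ a in (W : Filter ℕ), ∃ m ∈ (Set.Icc (-(c : ℤ)) (C : ℤ)),
      b.val (u a) = WithZero.exp m := by
    filter_upwards [h1, hC] with a ha hb
    have h3 : b.val (u a) ≠ 0 := (WithZero.exp_pos.trans_le ha).ne'
    refine ⟨WithZero.log (b.val (u a)), ⟨?_, ?_⟩, (WithZero.exp_log h3).symm⟩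
    · rwa [← WithZero.exp_le_exp, WithZero.exp_log h3]
    · rwa [← WithZero.exp_le_exp, WithZero.exp_log h3]
  rw [Ultrafilter.eventually_exists_mem_iff (Set.finite_Icc _ _)] at h2
  obtain ⟨m, -, hm⟩ := h2
  exact ⟨m, hm⟩

open Classical in
/-- the limit of the values -/
private noncomputable def LimVal {k K : Type} [Field k] [Field K] [Algebra k K] (b : Place k K)
    (W : Ultrafilter ℕ) (u : ℕ → K) : WithZero (Multiplicative ℤ) :=
  if h : ∃ m : ℤ, ∀ᶠ a in (W : Filter ℕ), b.val (u a) = WithZero.exp m then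
    WithZero.exp h.choose else 0

private theorem Lim_uniq {k K : Type} [Field k] [Field K] [Algebra k K] {b : Place k K}
    {W : Ultrafilter ℕ} {u : ℕ → K} {m m' : ℤ}
    (h : ∀ᶠ a in (W : Filter ℕ), b.val (u a) = WithZero.exp m)
    (h' : ∀ᶠ a in (W : Filter ℕ), b.val (u a) = WithZero.exp m') : m = m' := by
  obtain ⟨a, h1, h2⟩ := (h.and h').exists
  have h3 : (WithZero.exp m : WithZero (Multiplicative ℤ)) = WithZero.exp m' := h1.symm.trans h2
  exact WithZero.exp_inj.1 h3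

private theorem LimVal_eq {k K : Type} [Field k] [Field K] [Algebra k K] {b : Place k K}
    {W : Ultrafilter ℕ} {u : ℕ → K} {m : ℤ}
    (h : ∀ᶠ a in (W : Filter ℕ), b.val (u a) = WithZero.exp m) :
    LimVal b W u = WithZero.exp m := by
  have h1 : ∃ m : ℤ, ∀ᶠ a in (W : Filter ℕ), b.val (u a) = WithZero.exp m := ⟨m, h⟩
  rw [LimVal, dif_pos h1, Lim_uniq h1.choose_spec h]

private theorem LimVal_inf {k K : Type} [Field k] [Field K] [Algebra k K] {b : Place k K}
    {W : Ultrafilter ℕ} {u : ℕ → K} (h : LimInf b W u) : LimVal b W u = 0 := by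
  rw [LimVal, dif_neg]
  rintro ⟨m, hm⟩
  obtain ⟨a, h1, h2⟩ := (hm.and (h (-m).toNat)).exists
  rw [h1, WithZero.exp_lt_exp] at h2
  have := Int.self_le_toNat (-m)
  omega

private theorem LimVal_zero {k K : Type} [Field k] [Field K] [Algebra k K] {b : Place k K}
    {W : Ultrafilter ℕ} {u : ℕ → K} (hu : u ∈ bddSub b W) (h : LimVal b W u = 0) :
    LimInf b W u := by
  rcases Lim_dich hu with h1 | ⟨m, h1⟩
  · exact h1
  · rw [LimVal_eq h1] at h
    exact absurd h WithZero.exp_ne_zero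

private theorem LimVal_lt {k K : Type} [Field k] [Field K] [Algebra k K] {b : Place k K}
    {W : Ultrafilter ℕ} {u : ℕ → K} {m : ℤ} (hu : u ∈ bddSub b W)
    (h : LimVal b W u < WithZero.exp m) :
    ∀ᶠ a in (W : Filter ℕ), b.val (u a) < WithZero.exp m := by
  rcases Lim_dich hu with h1 | ⟨m', h1⟩
  · filter_upwards [h1 (-m).toNat] with a ha
    refine ha.trans_le ?_
    rw [WithZero.exp_le_exp]
    have := Int.self_le_toNat (-m)
    omega
  · rw [LimVal_eq h1] at h
    filter_upwards [h1] with a ha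
    rwa [ha]

private theorem LimVal_le {k K : Type} [Field k] [Field K] [Algebra k K] {b : Place k K}
    {W : Ultrafilter ℕ} {u : ℕ → K} {m : ℤ} (hu : u ∈ bddSub b W)
    (h : ∀ᶠ a in (W : Filter ℕ), b.val (u a) ≤ WithZero.exp m) :
    LimVal b W u ≤ WithZero.exp m := by
  rcases Lim_dich hu with h1 | ⟨m', h1⟩
  · rw [LimVal_inf h1]
    exact zero_le
  · rw [LimVal_eq h1]
    obtain ⟨a, h2, h3⟩ := (h1.and h).exists
    rwa [← h2]

private theorem LimVal_ge {k K : Type} [Field k] [Field K] [Algebra k K] {b : Place k K}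
    {W : Ultrafilter ℕ} {u : ℕ → K} {m : ℤ} (hu : u ∈ bddSub b W)
    (h : ∀ᶠ a in (W : Filter ℕ), WithZero.exp m ≤ b.val (u a)) :
    WithZero.exp m ≤ LimVal b W u := by
  by_contra h1
  obtain ⟨a, h2, h3⟩ := (h.and (LimVal_lt hu (not_le.1 h1))).exists
  exact absurd h3 (not_lt.2 h2)

private theorem LimVal_const {k K : Type} [Field k] [Field K] [Algebra k K] (b : Place k K)
    (W : Ultrafilter ℕ) (c : K) : LimVal b W (fun _ => c) = b.val c := by
  by_cases hc : c = 0
  · subst hc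
    rw [map_zero]
    refine LimVal_inf fun c => Filter.Eventually.of_forall fun a => ?_
    show b.val 0 < _
    rw [map_zero]
    exact WithZero.exp_pos
  · have h1 : b.val c ≠ 0 := (Valuation.ne_zero_iff _).2 hc
    rw [LimVal_eq (m := WithZero.log (b.val c)) (Filter.Eventually.of_forall fun a =>
      (WithZero.exp_log h1).symm), WithZero.exp_log h1]

/-- the valuation on the bounded sequences -/
private noncomputable def LimValuation {k K : Type} [Field k] [Field K] [Algebra k K]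
    (b : Place k K) (W : Ultrafilter ℕ) :
    Valuation (bddSub b W) (WithZero (Multiplicative ℤ)) where
  toFun u := LimVal b W u.1
  map_zero' := by
    have h := LimVal_const b W 0
    rw [map_zero] at h
    exact h
  map_one' := by
    have h := LimVal_const b W 1
    rw [map_one] at h
    exact h
  map_mul' := by
    intro u v
    show LimVal b W (fun a => u.1 a * v.1 a) = LimVal b W u.1 * LimVal b W v.1
    have key : ∀ u v : bddSub b W, LimInf b W u.1 → LimInf b W (fun a => v.1 a * u.1 a) := by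
      rintro u ⟨v, C, hC⟩ hu c
      filter_upwards [hC, hu (c + C)] with a h1 h2
      show b.val (v a * u.1 a) < _
      rw [map_mul]
      have h3 : (WithZero.exp (-(c : ℤ)) : WithZero (Multiplicative ℤ)) =
          WithZero.exp (C : ℤ) * WithZero.exp (-((c + C : ℕ) : ℤ)) := by
        rw [← WithZero.exp_add]
        congr 1
        push_cast
        ring
      rw [h3]
      exact (mul_le_mul_left h1 _).trans_lt (mul_lt_mul_of_pos_left h2 WithZero.exp_pos)
    rcases Lim_dich u.2 with h1 | ⟨m, h1⟩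
    · have h2 := key u v h1
      have h3 : (fun a => u.1 a * v.1 a) = fun a => v.1 a * u.1 a := by
        funext a
        exact mul_comm _ _
      rw [h3, LimVal_inf h2, LimVal_inf h1, zero_mul]
    · rcases Lim_dich v.2 with h2 | ⟨m', h2⟩
      · rw [LimVal_inf (key v u h2), LimVal_inf h2, mul_zero]
      · rw [LimVal_eq h1, LimVal_eq h2, ← WithZero.exp_add]
        refine LimVal_eq ?_
        filter_upwards [h1, h2] with a h3 h4
        rw [map_mul, h3, h4, ← WithZero.exp_add]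
  map_add_le_max' := by
    intro u v
    show LimVal b W (fun a => u.1 a + v.1 a) ≤ max (LimVal b W u.1) (LimVal b W v.1)
    have hm : (fun a => u.1 a + v.1 a) ∈ bddSub b W := (u + v).2
    rcases Lim_dich hm with h1 | ⟨m, h1⟩
    · rw [LimVal_inf h1]
      exact zero_le
    · rw [LimVal_eq h1]
      by_contra h2
      rw [not_le, max_lt_iff] at h2
      obtain ⟨a, ⟨h3, h4⟩, h5⟩ := ((h1.and (LimVal_lt u.2 h2.1)).and (LimVal_lt v.2 h2.2)).exists
      have h6 := b.val.map_add (u.1 a) (v.1 a)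
      rw [h3] at h6
      exact absurd (h6.trans_lt (max_lt h4 h5)) (lt_irrefl _)

theorem exists_limit_place {k K : Type} [Field k] [Field K] [Algebra k K] (b : Place k K)
    (W : Ultrafilter ℕ) :
    ∃ (K' : Type) (_ : Field K') (_ : Algebra k K') (_ : Algebra K K')
      (_ : IsScalarTower k K K') (b' : Place k K') (r : bddSub b W →+* K'),
      (∀ c : K, r ⟨fun _ => c, const_mem_bddSub b W c⟩ = algebraMap K K' c) ∧
      (∀ c : K, b'.val (algebraMap K K' c) = b.val c) ∧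
      (∀ u : bddSub b W, r u = 0 ↔
        ∀ c : ℕ, ∀ᶠ a in (W : Filter ℕ), b.val (u.1 a) < WithZero.exp (-(c : ℤ))) ∧
      (∀ (u : bddSub b W) (m : ℤ), (∀ᶠ a in (W : Filter ℕ), b.val (u.1 a) ≤ WithZero.exp m) →
        b'.val (r u) ≤ WithZero.exp m) ∧
      (∀ (u : bddSub b W) (m : ℤ), (∀ᶠ a in (W : Filter ℕ), WithZero.exp m ≤ b.val (u.1 a)) →
        WithZero.exp m ≤ b'.val (r u)) := by
  set V := LimValuation b W with hV
  have hVe : ∀ u : bddSub b W, V u = LimVal b W u.1 := fun u => rfl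
  set I : Ideal (bddSub b W) := V.supp with hI
  have hmem : ∀ u : bddSub b W, u ∈ I ↔ LimInf b W u.1 := by
    intro u
    rw [hI, Valuation.mem_supp_iff, hVe]
    exact ⟨LimVal_zero u.2, LimVal_inf⟩
  have hmax : I.IsMaximal := by
    rw [Ideal.isMaximal_iff]
    refine ⟨?_, fun J x hIJ hx hxJ => ?_⟩
    · rw [hI, Valuation.mem_supp_iff, map_one]
      exact one_ne_zero
    · have h0 : ∃ m : ℤ, ∀ᶠ a in (W : Filter ℕ), b.val (x.1 a) = WithZero.exp m := by
        rcases Lim_dich x.2 with h1 | h1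
        · exact absurd ((hmem x).2 h1) hx
        · exact h1
      obtain ⟨m, hm⟩ := h0
      have hv : (fun a => (x.1 a)⁻¹) ∈ bddSub b W := by
        refine ⟨(-m).toNat, ?_⟩
        filter_upwards [hm] with a ha
        rw [map_inv₀, ha, ← WithZero.exp_neg, WithZero.exp_le_exp]
        exact Int.self_le_toNat _
      have h2 : (1 - (⟨_, hv⟩ : bddSub b W) * x : bddSub b W) ∈ I := by
        rw [hmem]
        intro c
        filter_upwards [hm] with a ha
        have h3 : x.1 a ≠ 0 := by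
          intro h4
          rw [h4, map_zero] at ha
          exact absurd ha.symm WithZero.exp_ne_zero
        show b.val (1 - (x.1 a)⁻¹ * x.1 a) < _
        rw [inv_mul_cancel₀ h3, sub_self, map_zero]
        exact WithZero.exp_pos
      have h3 : (1 : bddSub b W) = (1 - (⟨_, hv⟩ : bddSub b W) * x) + ⟨_, hv⟩ * x := by ring
      rw [h3]
      exact J.add_mem (hIJ h2) (J.mul_mem_left _ hxJ)
  letI : Field (bddSub b W ⧸ I) := Ideal.Quotient.field I
  let φ : K →+* (bddSub b W ⧸ I) := (Ideal.Quotient.mk I).comp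
    { toFun := fun c => ⟨fun _ => c, const_mem_bddSub b W c⟩
      map_one' := rfl
      map_mul' := fun _ _ => rfl
      map_zero' := rfl
      map_add' := fun _ _ => rfl }
  letI iK : Algebra K (bddSub b W ⧸ I) := φ.toAlgebra
  letI ik : Algebra k (bddSub b W ⧸ I) := (φ.comp (algebraMap k K)).toAlgebra
  have hT : IsScalarTower k K (bddSub b W ⧸ I) := IsScalarTower.of_algebraMap_eq fun x => rfl
  let v' : Valuation (bddSub b W ⧸ I) (WithZero (Multiplicative ℤ)) := V.onQuot (le_refl _)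
  have hv' : ∀ u : bddSub b W, v' (Ideal.Quotient.mk I u) = LimVal b W u.1 := fun u => rfl
  have hc : ∀ c : K, v' (φ c) = b.val c := fun c => by
    show v' (Ideal.Quotient.mk I _) = _
    rw [hv']
    exact LimVal_const b W c
  let b' : Place k (bddSub b W ⧸ I) :=
    { val := v'
      surj := fun γ => by
        obtain ⟨c, hcγ⟩ := b.surj γ
        exact ⟨φ c, (hc c).trans hcγ⟩
      triv := fun a ha => by
        show v' (φ (algebraMap k K a)) = 1
        rw [hc]
        exact b.triv a ha }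
  refine ⟨bddSub b W ⧸ I, inferInstance, ik, iK, hT, b', Ideal.Quotient.mk I, fun c => rfl,
    fun c => hc c, fun u => ?_, fun u m h => ?_, fun u m h => ?_⟩
  · rw [Ideal.Quotient.eq_zero_iff_mem]
    exact hmem u
  · exact LimVal_le u.2 h
  · exact LimVal_ge u.2 h

end Pool.Agent.Helper89.TC

end

section

namespace Pool.Agent.Helper16
end Pool.Agent.Helper16

/-!
# The limit of a sequence of points
-/

set_option autoImplicit false

namespace Pool.Agent.Helper89.TNL

open MvPolynomial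

open Pool.Agent.Helper16 (Place IsFunctionField)

section aux

variable {k K : Type} [Field k] [Field K] [Algebra k K] (b : Place k K)

private theorem LimN_mul {x x' y y' : K} {ε : WithZero (Multiplicative ℤ)} (hx : b.val x ≤ 1)
    (hy' : b.val y' ≤ 1) (h1 : b.val (x - x') ≤ ε) (h2 : b.val (y - y') ≤ ε) :
    b.val (x * y - x' * y') ≤ ε := by
  have h3 : x * y - x' * y' = x * (y - y') + (x - x') * y' := by ring
  rw [h3]
  refine (b.val.map_add _ _).trans (max_le ?_ ?_)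
  · rw [map_mul]
    calc _ ≤ 1 * ε := mul_le_mul' hx h2
      _ = ε := one_mul _
  · rw [map_mul]
    calc _ ≤ ε * 1 := mul_le_mul' h1 hy'
      _ = ε := mul_one _

private theorem LimN_pow {x x' : K} {ε : WithZero (Multiplicative ℤ)} (hx : b.val x ≤ 1)
    (hx' : b.val x' ≤ 1) (h1 : b.val (x - x') ≤ ε) (n : ℕ) :
    b.val (x ^ n - x' ^ n) ≤ ε := by
  induction n with
  | zero => rw [pow_zero, pow_zero, sub_self, map_zero]; exact zero_le
  | succ n ih =>
    rw [pow_succ, pow_succ]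
    refine LimN_mul b ?_ hx' ih h1
    rw [map_pow]
    exact pow_le_one' hx _

private theorem LimN_prod {ι : Type} (s : Finset ι) {x x' : ι → K}
    {ε : WithZero (Multiplicative ℤ)} (hx : ∀ i, b.val (x i) ≤ 1)
    (hx' : ∀ i, b.val (x' i) ≤ 1) (h1 : ∀ i, b.val (x i - x' i) ≤ ε) :
    b.val (∏ i ∈ s, x i - ∏ i ∈ s, x' i) ≤ ε := by
  classical
  induction s using Finset.induction_on with
  | empty => rw [Finset.prod_empty, Finset.prod_empty, sub_self, map_zero]; exact zero_le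
  | insert a s ha ih =>
    rw [Finset.prod_insert ha, Finset.prod_insert ha]
    refine LimN_mul b (hx a) ?_ (h1 a) ih
    rw [map_prod]
    exact Finset.prod_le_one' fun i _ => hx' i

private theorem LimN_eval {n : ℕ} {P : MvPolynomial (Fin n) K} {D ε : WithZero (Multiplicative ℤ)}
    (hP : ∀ m, b.val (P.coeff m) ≤ D) {u u' : Fin n → K}
    (hu : ∀ a, b.val (u a) ≤ 1) (hu' : ∀ a, b.val (u' a) ≤ 1)
    (hd : ∀ a, b.val (u a - u' a) ≤ ε) :
    b.val (eval u P - eval u' P) ≤ D * ε := by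
  rw [eval_eq, eval_eq, ← Finset.sum_sub_distrib]
  refine b.val.map_sum_le fun m _ => ?_
  rw [← mul_sub, map_mul]
  refine mul_le_mul' (hP m) (LimN_prod b _ ?_ ?_ ?_)
  · intro i
    rw [map_pow]
    exact pow_le_one' (hu i) _
  · intro i
    rw [map_pow]
    exact pow_le_one' (hu' i) _
  · intro i
    exact LimN_pow b (hu i) (hu' i) (hd i) _

private theorem LimN_bound {n : ℕ} (P : MvPolynomial (Fin n) K) :
    ∃ D : ℕ, ∀ m, b.val (P.coeff m) ≤ WithZero.exp (D : ℤ) := by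
  classical
  have h1 : ∀ c : K, ∃ D : ℕ, b.val c ≤ WithZero.exp (D : ℤ) := by
    intro c
    by_cases hc : b.val c = 0
    · exact ⟨0, by rw [hc]; exact zero_le⟩
    · refine ⟨(WithZero.log (b.val c)).toNat, ?_⟩
      rw [← WithZero.exp_log hc, WithZero.exp_le_exp, WithZero.log_exp]
      exact Int.self_le_toNat _
  choose f hf using h1
  refine ⟨∑ m ∈ P.support, f (P.coeff m), fun m => ?_⟩
  by_cases hm : m ∈ P.support
  · refine (hf _).trans ?_
    rw [WithZero.exp_le_exp]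
    exact_mod_cast Finset.single_le_sum (f := fun m => f (P.coeff m)) (fun _ _ => Nat.zero_le _) hm
  · rw [notMem_support_iff.1 hm, map_zero]
    exact zero_le

private theorem LimN_lt {x : WithZero (Multiplicative ℤ)} (h : x < 1) :
    x ≤ WithZero.exp (-1 : ℤ) := by
  rcases eq_or_ne x 0 with h0 | h0
  · rw [h0]; exact zero_le
  · have h1 : WithZero.log x < 0 := (WithZero.log_lt_iff_lt_exp h0).2 (by simpa using h)
    exact WithZero.le_exp_of_log_le (by omega)

end aux

theorem exists_limitN {ν : ℕ} {k K : Type} [Field k] [Field K] [Algebra k K] (b : Place k K)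
    {z : Fin (ν + 1) → k} {y : ℕ → Fin (ν + 1) → K}
    (hz : ∀ s j, b.val (y s j - algebraMap k K (z j)) < 1)
    (hc : ∀ I : ℕ, ∃ s₀, ∀ s, s₀ ≤ s → ∀ j, b.val (y (s + 1) j - y s j) ≤
      WithZero.exp (-(I : ℤ))) :
    ∃ (L : Type) (_ : Field L) (_ : Algebra k L) (_ : Algebra K L) (_ : IsScalarTower k K L)
      (v : Place k L) (w : Fin (ν + 1) → L), (∀ a : K, v.val (algebraMap K L a) = b.val a) ∧
      (∀ j, v.val (w j - algebraMap k L (z j)) < 1) ∧
      ∀ P : MvPolynomial (Fin (ν + 1)) K,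
        (∀ I : ℕ, {s | b.val (eval (y s) P) ≤ WithZero.exp (-(I : ℤ))}.Infinite) →
        aeval w P = 0 := by
  classical
  have hcon : ∀ a : k, b.val (algebraMap k K a) ≤ 1 := fun a => by
    by_cases ha : a = 0
    · rw [ha, map_zero, map_zero]; exact zero_le
    · exact (b.triv a ha).le
  have hint : ∀ s j, b.val (y s j) ≤ 1 := by
    intro s j
    have h1 : y s j = (y s j - algebraMap k K (z j)) + algebraMap k K (z j) := by ring
    rw [h1]
    exact (b.val.map_add _ _).trans (max_le (hz s j).le (hcon _))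
  have hdiff : ∀ I : ℕ, ∃ s₀, ∀ s s', s₀ ≤ s → s ≤ s' → ∀ j, b.val (y s' j - y s j) ≤
      WithZero.exp (-(I : ℤ)) := by
    intro I
    obtain ⟨s₀, hs₀⟩ := hc I
    refine ⟨s₀, fun s s' hs hss => ?_⟩
    induction s', hss using Nat.le_induction with
    | base =>
      intro j
      rw [sub_self, map_zero]
      exact zero_le
    | succ n hn ih =>
      intro j
      have h1 : y (n + 1) j - y s j = (y (n + 1) j - y n j) + (y n j - y s j) := by ring
      rw [h1]
      exact (b.val.map_add _ _).trans (max_le (hs₀ n (hs.trans hn) j) (ih j))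
  have hae : ∀ (x : Fin (ν + 1) → K) (Q : MvPolynomial (Fin (ν + 1)) K),
      aeval x Q = eval x Q := fun x Q => by
    rw [aeval_def, eval, eval₂_eq, coe_eval₂Hom, eval₂_eq]
    rfl
  set W : Ultrafilter ℕ := Filter.hyperfilter ℕ with hW
  have hev : ∀ c : ℕ, ∀ᶠ j in (W : Filter ℕ), c ≤ j := fun c =>
    Nat.hyperfilter_le_atTop (Filter.eventually_ge_atTop c)
  obtain ⟨K', iF, ik, iK, iT, b', r, hrc, hext, hzero, hle, hge⟩ :=
    Pool.Agent.Helper89.TC.exists_limit_place b W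
  letI algA : Algebra K (Pool.Agent.Helper30.TP.bddSub b W) := RingHom.toAlgebra
    { toFun := fun c => ⟨fun _ => c, Pool.Agent.Helper30.TP.const_mem_bddSub b W c⟩
      map_one' := rfl
      map_mul' := fun _ _ => rfl
      map_zero' := rfl
      map_add' := fun _ _ => rfl }
  let rA : Pool.Agent.Helper30.TP.bddSub b W →ₐ[K] K' := { r with commutes' := hrc }
  let π : ℕ → (Pool.Agent.Helper30.TP.bddSub b W →ₐ[K] K) := fun j =>
    { toFun := fun y => y.1 j
      map_one' := rfl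
      map_mul' := fun _ _ => rfl
      map_zero' := rfl
      map_add' := fun _ _ => rfl
      commutes' := fun _ => rfl }
  let U : Fin (ν + 1) → Pool.Agent.Helper30.TP.bddSub b W := fun a =>
    ⟨fun s => y s a, 0, Filter.Eventually.of_forall fun s => by
      rw [Nat.cast_zero, WithZero.exp_zero]
      exact hint s a⟩
  refine ⟨K', iF, ik, iK, iT, b', fun a => r (U a), hext, fun j => ?_, fun P hinf => ?_⟩
  · have h1 : r (U j) - algebraMap k K' (z j) = r (U j - ⟨fun _ => algebraMap k K (z j),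
        Pool.Agent.Helper30.TP.const_mem_bddSub b W (algebraMap k K (z j))⟩) := by
      rw [map_sub, hrc, ← IsScalarTower.algebraMap_apply]
    show b'.val (r (U j) - algebraMap k K' (z j)) < 1
    rw [h1]
    refine (hle _ (-1) (Filter.Eventually.of_forall fun s => LimN_lt (hz s j))).trans_lt ?_
    rw [← WithZero.exp_zero]
    exact WithZero.exp_lt_exp.2 (by norm_num)
  · have h1 : aeval (fun a => r (U a)) P = r (aeval U P) := (comp_aeval_apply U rA P).symm
    rw [h1, hzero]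
    intro c
    obtain ⟨D, hD⟩ := LimN_bound b P
    obtain ⟨s₀, hs₀⟩ := hdiff (D + c + 1)
    filter_upwards [hev s₀] with s hs
    have h2 : (aeval U P : Pool.Agent.Helper30.TP.bddSub b W).1 s = eval (y s) P := by
      have h3 := comp_aeval_apply U (π s) P
      have h4 : (fun a => π s (U a)) = y s := rfl
      rw [h4, hae] at h3
      exact h3
    rw [h2]
    obtain ⟨s', hs', hss⟩ := (hinf (c + 1)).exists_gt s
    have h5 : b.val (eval (y s') P) ≤ WithZero.exp (-((c + 1 : ℕ) : ℤ)) := hs'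
    have h6 := LimN_eval b hD (hint s') (hint s) (hs₀ s s' hs hss.le)
    have h7 : eval (y s) P = eval (y s') P - (eval (y s') P - eval (y s) P) := by ring
    rw [h7]
    refine (b.val.map_sub _ _).trans_lt (max_lt (h5.trans_lt ?_) (h6.trans_lt ?_))
    · exact WithZero.exp_lt_exp.2 (by push_cast; omega)
    · rw [← WithZero.exp_add]
      exact WithZero.exp_lt_exp.2 (by push_cast; omega)

end Pool.Agent.Helper89.TNL

end
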