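import Pool.Agent.Helper72.TM2.T20
import Pool.Agent.Helper72.TM2.T12
import Pool.Agent.Helper72.TM2.T08

section

/-!
# Exponential polynomials: shifts, sums, linear recursions of first order
-/

set_option autoImplicit false

namespace Pool.Agent.Helper89.TNL

variable {k : Type} [Field k] {G : Subgroup kˣ}

theorem epolA_id : (fun t : ℕ => (t : k)) ∈ EPol k G :=
  Algebra.subset_adjoin (Or.inl rfl)

theorem epolA_exp {μ : kˣ} (hμ : μ ∈ G) : (fun t : ℕ => (μ : k) ^ t) ∈ EPol k G :=
  Algebra.subset_adjoin (Or.inr ⟨μ, hμ, rfl⟩)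

theorem epolA_const (c : k) : (fun _ : ℕ => c) ∈ EPol k G :=
  (EPol k G).algebraMap_mem c

theorem epol_shift {f : ℕ → k} (hf : f ∈ EPol k G) : (fun t => f (t + 1)) ∈ EPol k G := by
  refine Algebra.adjoin_induction (p := fun f _ => (fun t => f (t + 1)) ∈ EPol k G)
    ?_ ?_ ?_ ?_ hf
  · rintro g (rfl | ⟨μ, hμ, rfl⟩)
    · have : (fun t : ℕ => (((t + 1 : ℕ) : k))) = (fun t : ℕ => (t : k)) + fun _ => (1 : k) := by
        funext t
        simp
      rw [this]
      exact (EPol k G).add_mem epolA_id (epolA_const 1)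
    · have : (fun t : ℕ => (μ : k) ^ (t + 1)) = (fun t : ℕ => (μ : k) ^ t) * fun _ => (μ : k) := by
        funext t
        simp [pow_succ]
      rw [this]
      exact (EPol k G).mul_mem (epolA_exp hμ) (epolA_const _)
  · intro r
    exact epolA_const r
  · intro x y _ _ hx hy
    exact (EPol k G).add_mem hx hy
  · intro x y _ _ hx hy
    exact (EPol k G).mul_mem hx hy

theorem epol_unshift {f : ℕ → k} (hf : f ∈ EPol k G) : ∃ g ∈ EPol k G, ∀ t, g (t + 1) = f t := by
  refine Algebra.adjoin_induction (p := fun f _ => ∃ g ∈ EPol k G, ∀ t, g (t + 1) = f t)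
    ?_ ?_ ?_ ?_ hf
  · rintro g (rfl | ⟨μ, hμ, rfl⟩)
    · refine ⟨(fun t : ℕ => (t : k)) + fun _ => (-1 : k),
        (EPol k G).add_mem epolA_id (epolA_const _), fun t => ?_⟩
      simp
    · refine ⟨(fun t : ℕ => (μ : k) ^ t) * fun _ => (μ : k)⁻¹,
        (EPol k G).mul_mem (epolA_exp hμ) (epolA_const _), fun t => ?_⟩
      simp [pow_succ]
  · intro r
    exact ⟨_, epolA_const r, fun t => rfl⟩
  · rintro x y _ _ ⟨g, hg, hx⟩ ⟨h, hh, hy⟩
    exact ⟨g + h, (EPol k G).add_mem hg hh, fun t => by simp [hx t, hy t]⟩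
  · rintro x y _ _ ⟨g, hg, hx⟩ ⟨h, hh, hy⟩
    exact ⟨g * h, (EPol k G).mul_mem hg hh, fun t => by simp [hx t, hy t]⟩

/-- The products of a power of `t` and an exponential. -/
def epolAGen (k : Type) [Field k] (G : Subgroup kˣ) : Set (ℕ → k) :=
  {f | ∃ (a : ℕ) (ρ : kˣ), ρ ∈ G ∧ f = fun t : ℕ => (t : k) ^ a * (ρ : k) ^ t}

theorem epolA_gen_mem {a : ℕ} {ρ : kˣ} (hρ : ρ ∈ G) :
    (fun t : ℕ => (t : k) ^ a * (ρ : k) ^ t) ∈ EPol k G :=
  (EPol k G).mul_mem ((EPol k G).pow_mem epolA_id a) (epolA_exp hρ)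

theorem epolA_span {f : ℕ → k} (hf : f ∈ EPol k G) :
    f ∈ Submodule.span k (epolAGen k G) := by
  have h1 : f ∈ Submodule.span k (Submonoid.closure
      (({fun t : ℕ => (t : k)} : Set (ℕ → k)) ∪
        {f | ∃ μ ∈ G, f = fun t : ℕ => ((μ : kˣ) : k) ^ t}) : Set (ℕ → k)) := by
    rw [← Algebra.adjoin_eq_span]
    exact hf
  refine Submodule.span_mono ?_ h1
  intro g hg
  refine Submonoid.closure_induction (motive := fun g _ => g ∈ epolAGen k G) ?_ ?_ ?_ hg
  · rintro x (rfl | ⟨μ, hμ, rfl⟩)
    · exact ⟨1, 1, G.one_mem, by funext t; simp⟩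
    · exact ⟨0, μ, hμ, by funext t; simp⟩
  · exact ⟨0, 1, G.one_mem, by funext t; simp⟩
  · rintro x y _ _ ⟨a, ρ, hρ, rfl⟩ ⟨b, σ, hσ, rfl⟩
    refine ⟨a + b, ρ * σ, G.mul_mem hρ hσ, ?_⟩
    funext t
    simp only [Pi.mul_apply, Units.val_mul]
    ring

theorem epolA_sum_one [CharZero k] (a : ℕ) :
    ∃ w ∈ EPol k G, ∀ t, w (t + 1) - w t = (t : k) ^ a := by
  induction a using Nat.strong_induction_on with
  | _ a ih =>
    choose! w hw hw' using ih
    have ha : ((a : k) + 1) ≠ 0 := by exact_mod_cast Nat.succ_ne_zero a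
    refine ⟨((a : k) + 1)⁻¹ • ((fun t : ℕ => (t : k)) ^ (a + 1) -
      ∑ j ∈ Finset.range a, ((a + 1).choose j : k) • w j), ?_, ?_⟩
    · refine (EPol k G).smul_mem ((EPol k G).sub_mem ((EPol k G).pow_mem epolA_id _)
        ((EPol k G).sum_mem fun j hj => (EPol k G).smul_mem ?_ _)) _
      exact hw j (Finset.mem_range.1 hj)
    · intro t
      have e1 : ((t : k) + 1) ^ (a + 1) = (t : k) ^ (a + 1) + ((a : k) + 1) * (t : k) ^ a +
          ∑ j ∈ Finset.range a, ((a + 1).choose j : k) * (t : k) ^ j := by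
        rw [add_pow, Finset.sum_range_succ, Finset.sum_range_succ]
        have : ∀ j, (t : k) ^ j * 1 ^ (a + 1 - j) * ((a + 1).choose j : k) =
            ((a + 1).choose j : k) * (t : k) ^ j := by
          intro j
          ring
        rw [Finset.sum_congr rfl fun j _ => this j]
        simp only [one_pow, mul_one, Nat.choose_self, Nat.cast_one, Nat.choose_succ_self_right,
          Nat.cast_add]
        ring
      have e2 : ∑ j ∈ Finset.range a, ((a + 1).choose j : k) * w j (t + 1) -
          ∑ j ∈ Finset.range a, ((a + 1).choose j : k) * w j t =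
          ∑ j ∈ Finset.range a, ((a + 1).choose j : k) * (t : k) ^ j := by
        rw [← Finset.sum_sub_distrib]
        refine Finset.sum_congr rfl fun j hj => ?_
        rw [← mul_sub, hw' j (Finset.mem_range.1 hj) t]
      simp only [Pi.smul_apply, Pi.sub_apply, Pi.pow_apply, Finset.sum_apply, smul_eq_mul,
        Nat.cast_add, Nat.cast_one]
      rw [← mul_sub, inv_mul_eq_iff_eq_mul₀ ha, e1]
      linear_combination -e2

theorem epolA_sum_exp {ρ : kˣ} (hρ : ρ ∈ G) (h1 : (ρ : k) ≠ 1) (a : ℕ) :
    ∃ w ∈ EPol k G, ∀ t, w (t + 1) - w t = (t : k) ^ a * (ρ : k) ^ t := by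
  induction a using Nat.strong_induction_on with
  | _ a ih =>
    choose! w hw hw' using ih
    have ha : ((ρ : k) - 1) ≠ 0 := sub_ne_zero.2 h1
    refine ⟨((ρ : k) - 1)⁻¹ • ((fun t : ℕ => (t : k) ^ a * (ρ : k) ^ t) -
      (ρ : k) • ∑ j ∈ Finset.range a, (a.choose j : k) • w j), ?_, ?_⟩
    · refine (EPol k G).smul_mem ((EPol k G).sub_mem (epolA_gen_mem hρ)
        ((EPol k G).smul_mem ((EPol k G).sum_mem fun j hj => (EPol k G).smul_mem ?_ _) _)) _
      exact hw j (Finset.mem_range.1 hj)
    · intro t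
      have e1 : ((t : k) + 1) ^ a = (t : k) ^ a +
          ∑ j ∈ Finset.range a, (a.choose j : k) * (t : k) ^ j := by
        rw [add_pow, Finset.sum_range_succ]
        have : ∀ j, (t : k) ^ j * 1 ^ (a - j) * (a.choose j : k) =
            (a.choose j : k) * (t : k) ^ j := by
          intro j
          ring
        rw [Finset.sum_congr rfl fun j _ => this j]
        simp only [one_pow, mul_one, Nat.choose_self, Nat.cast_one]
        ring
      have e2 : ∑ j ∈ Finset.range a, (a.choose j : k) * w j (t + 1) -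
          ∑ j ∈ Finset.range a, (a.choose j : k) * w j t =
          (∑ j ∈ Finset.range a, (a.choose j : k) * (t : k) ^ j) * (ρ : k) ^ t := by
        rw [← Finset.sum_sub_distrib, Finset.sum_mul]
        refine Finset.sum_congr rfl fun j hj => ?_
        rw [← mul_sub, hw' j (Finset.mem_range.1 hj) t]
        ring
      simp only [Pi.smul_apply, Pi.sub_apply, Finset.sum_apply, smul_eq_mul,
        Nat.cast_add, Nat.cast_one]
      rw [← mul_sub, inv_mul_eq_iff_eq_mul₀ ha, e1, pow_succ]
      linear_combination -(ρ : k) * e2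

/-- Exponential polynomials have discrete primitives. -/
theorem epolA_sum [CharZero k] {f : ℕ → k} (hf : f ∈ EPol k G) :
    ∃ w ∈ EPol k G, ∀ t, w (t + 1) - w t = f t := by
  refine Submodule.span_induction (p := fun f _ => ∃ w ∈ EPol k G, ∀ t, w (t + 1) - w t = f t)
    ?_ ?_ ?_ ?_ (epolA_span hf)
  · rintro g ⟨a, ρ, hρ, rfl⟩
    by_cases h1 : (ρ : k) = 1
    · obtain ⟨w, hw, hw'⟩ := epolA_sum_one (k := k) (G := G) a
      exact ⟨w, hw, fun t => by rw [hw' t]; simp [h1]⟩
    · exact epolA_sum_exp hρ h1 a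
  · exact ⟨0, (EPol k G).zero_mem, fun t => by simp⟩
  · rintro x y _ _ ⟨g, hg, hx⟩ ⟨h, hh, hy⟩
    refine ⟨g + h, (EPol k G).add_mem hg hh, fun t => ?_⟩
    simp only [Pi.add_apply]
    rw [← hx t, ← hy t]
    ring
  · rintro c x _ ⟨g, hg, hx⟩
    refine ⟨c • g, (EPol k G).smul_mem hg c, fun t => ?_⟩
    simp only [Pi.smul_apply, smul_eq_mul]
    rw [← hx t]
    ring

theorem epol_solve [CharZero k] {μ : kˣ} (hμ : μ ∈ G) {f v : ℕ → k} (hf : f ∈ EPol k G)
    (hv : ∀ t, v (t + 1) = (μ : k) * v t + f t) : v ∈ EPol k G := by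
  have hμ' : (μ : k) ≠ 0 := μ.ne_zero
  have hg : ((fun _ : ℕ => (μ : k)⁻¹) * (fun t : ℕ => ((μ⁻¹ : kˣ) : k) ^ t) * f) ∈ EPol k G :=
    (EPol k G).mul_mem ((EPol k G).mul_mem (epolA_const _) (epolA_exp (G.inv_mem hμ))) hf
  obtain ⟨w, hw, hw'⟩ := epolA_sum hg
  have key : ∀ t, v t = (μ : k) ^ t * (w t + (v 0 - w 0)) := by
    intro t
    induction t with
    | zero => simp
    | succ t ih =>
      have h1 := hw' t
      simp only [Pi.mul_apply, Units.val_inv_eq_inv_val] at h1
      have h2 : w (t + 1) = w t + (μ : k)⁻¹ * (μ : k)⁻¹ ^ t * f t := by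
        rw [← h1]
        ring
      rw [hv t, h2, ih, pow_succ]
      have h3 : (μ : k) ^ t * (μ : k) * ((μ : k)⁻¹ * (μ : k)⁻¹ ^ t * f t) = f t := by
        rw [inv_pow]
        field_simp
      linear_combination -h3
  have : v = (fun t : ℕ => (μ : k) ^ t) * (w + fun _ => (v 0 - w 0)) := by
    funext t
    simp only [Pi.mul_apply, Pi.add_apply]
    exact key t
  rw [this]
  exact (EPol k G).mul_mem (epolA_exp hμ) ((EPol k G).add_mem hw (epolA_const _))

end Pool.Agent.Helper89.TNL

end

section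

namespace Pool.Agent.Helper89.TNL
end Pool.Agent.Helper89.TNL

/-!
# The two definitions of exponential polynomials agree
-/

set_option autoImplicit false

namespace Pool.Agent.Helper65.TNL

open Pool.Agent.Helper89.TNL

variable {k : Type} [Field k] {G : Subgroup kˣ}

/-- The two definitions of exponential polynomials agree. -/
theorem mem_epol_iff {f : ℕ → k} : f ∈ EPol k G ↔ f ∈ EP G := by
  constructor
  · intro hf
    induction hf using Algebra.adjoin_induction with
    | mem x hx =>
      rcases hx with hx | ⟨μ, hμ, rfl⟩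
      · rw [Set.mem_singleton_iff] at hx
        rw [hx]
        exact id_mem_EP
      · exact pow_mem_EP hμ
    | algebraMap c =>
      have h := const_mem_EP (M := G) c
      exact h
    | add x y _ _ hx hy => exact Submodule.add_mem _ hx hy
    | mul x y _ _ hx hy => exact mul_mem_EP hx hy
  · intro hf
    induction hf using Submodule.span_induction with
    | mem x hx =>
      obtain ⟨a, μ, hμ, rfl⟩ := hx
      have h1 : (fun t : ℕ => (t : k)) ∈ EPol k G :=
        Algebra.subset_adjoin (Or.inl rfl)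
      have h2 : (fun t : ℕ => ((μ : kˣ) : k) ^ t) ∈ EPol k G :=
        Algebra.subset_adjoin (Or.inr ⟨μ, hμ, rfl⟩)
      exact mul_mem (pow_mem h1 a) h2
    | zero => exact (EPol k G).zero_mem
    | add x y _ _ hx hy => exact add_mem hx hy
    | smul c x _ hx => exact (EPol k G).smul_mem hx c

theorem epol_skolem [CharZero k] (hG : TorsFree G) {f : ℕ → k} (hf : f ∈ EPol k G)
    (hinf : {t | f t = 0}.Infinite) : f = 0 :=
  Pool.Agent.Helper65.TNL.skolem hG (mem_epol_iff.1 hf) hinf

end Pool.Agent.Helper65.TNL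

end

section

/-!
# Exponential polynomials with infinitely many zeros
-/

set_option autoImplicit false

namespace Pool.Agent.Helper89.TNL

variable {k : Type} [Field k] {G : Subgroup kˣ}

theorem skolem [Algebra k ℂ] (hG : TorsFree G) {f : ℕ → k} (hf : f ∈ EPol k G)
    (hinf : {t | f t = 0}.Infinite) : f = 0 := by
  have : CharZero k := (algebraMap k ℂ).charZero
  exact Pool.Agent.Helper65.TNL.epol_skolem hG hf hinf

end Pool.Agent.Helper89.TNL

end

section

/-!
# Sequences in the valuation ring whose digits are exponential polynomials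
-/

set_option autoImplicit false

namespace Pool.Agent.Helper89.TNL

open MvPolynomial

variable {R k : Type} [CommRing R] [IsDomain R] [Field k] [Algebra k R] {π : R} {χ : R →+* k}
  {G : Subgroup kˣ}

omit [IsDomain R] in
theorem EPR_dig_step (hR : Res π χ) (r : R) : ∃ r' : R, r = algebraMap k R (χ r) + π * r' := by
  have h : π ∣ r - algebraMap k R (χ r) := by
    rw [← hR.ker, map_sub, hR.sec, sub_self]
  obtain ⟨r', h'⟩ := h
  exact ⟨r', by rw [← h']; ring⟩

omit [IsDomain R] in
/-- The digits of an element of the valuation ring. -/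
theorem exists_digits (hR : Res π χ) (r : R) :
    ∃ d : ℕ → k, ∀ I, π ^ I ∣ r - ∑ i ∈ Finset.range I, π ^ i * algebraMap k R (d i) := by
  choose g hg using EPR_dig_step hR
  refine ⟨fun i => χ (g^[i] r), fun I => ⟨g^[I] r, ?_⟩⟩
  induction I with
  | zero => simp
  | succ n ih =>
    rw [Finset.sum_range_succ, ← sub_sub, ih, Function.iterate_succ_apply']
    have h := hg (g^[n] r)
    calc π ^ n * g^[n] r - π ^ n * algebraMap k R (χ (g^[n] r)) =
        π ^ n * (g^[n] r - algebraMap k R (χ (g^[n] r))) := by ring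
      _ = π ^ n * (π * g (g^[n] r)) := by
        congr 1
        rw [sub_eq_iff_eq_add, add_comm]
        exact h
      _ = π ^ (n + 1) * g (g^[n] r) := by ring

theorem digits_unique (hR : Res π χ) {I : ℕ} {d d' : ℕ → k}
    (h : π ^ I ∣ ∑ i ∈ Finset.range I, π ^ i * algebraMap k R (d i) -
      ∑ i ∈ Finset.range I, π ^ i * algebraMap k R (d' i)) : ∀ i < I, d i = d' i := by
  induction I generalizing d d' with
  | zero => intro i hi; exact absurd hi (Nat.not_lt_zero i)
  | succ n ih =>
    have hs : ∀ e : ℕ → k, ∑ i ∈ Finset.range (n + 1), π ^ i * algebraMap k R (e i) =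
        algebraMap k R (e 0) + π * ∑ i ∈ Finset.range n, π ^ i * algebraMap k R (e (i + 1)) := by
      intro e
      rw [Finset.sum_range_succ', Finset.mul_sum, pow_zero, one_mul, add_comm]
      congr 1
      refine Finset.sum_congr rfl fun i _ => ?_
      ring
    rw [hs d, hs d'] at h
    have hχπ : χ π = 0 := (hR.ker π).2 dvd_rfl
    have h0 : d 0 = d' 0 := by
      have h1 : π ∣ algebraMap k R (d 0) +
          π * ∑ i ∈ Finset.range n, π ^ i * algebraMap k R (d (i + 1)) -
          (algebraMap k R (d' 0) +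
          π * ∑ i ∈ Finset.range n, π ^ i * algebraMap k R (d' (i + 1))) :=
        (dvd_pow_self π (Nat.succ_ne_zero n)).trans h
      have h2 := (hR.ker _).2 h1
      simp only [map_sub, map_add, map_mul, hχπ, zero_mul, add_zero, hR.sec] at h2
      exact sub_eq_zero.1 h2
    have h3 : π ^ n ∣ ∑ i ∈ Finset.range n, π ^ i * algebraMap k R (d (i + 1)) -
        ∑ i ∈ Finset.range n, π ^ i * algebraMap k R (d' (i + 1)) := by
      have h4 : π * π ^ n ∣ π * (∑ i ∈ Finset.range n, π ^ i * algebraMap k R (d (i + 1)) -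
          ∑ i ∈ Finset.range n, π ^ i * algebraMap k R (d' (i + 1))) := by
        rw [← pow_succ']
        refine h.trans (dvd_of_eq ?_)
        rw [h0]
        ring
      exact (mul_dvd_mul_iff_left hR.unif.prime.ne_zero).1 h4
    have h5 := ih h3
    intro i hi
    rcases i with _ | i
    · exact h0
    · exact h5 i (Nat.lt_of_succ_lt_succ hi)

omit [IsDomain R] in
theorem epr_const (hR : Res π χ) (I : ℕ) (r : R) : EPR G π I (fun _ => r) := by
  obtain ⟨d, hd⟩ := exists_digits hR r
  exact ⟨0, fun i _ => d i, fun i => (EPol k G).algebraMap_mem (d i), fun _ _ => hd I⟩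

omit [IsDomain R] in
theorem epr_add {I : ℕ} {f g : ℕ → R} (hf : EPR G π I f) (hg : EPR G π I g) :
    EPR G π I (fun t => f t + g t) := by
  obtain ⟨T, φ, h1, h2⟩ := hf
  obtain ⟨T', ψ, h3, h4⟩ := hg
  refine ⟨max T T', fun i => φ i + ψ i, fun i => (EPol k G).add_mem (h1 i) (h3 i),
    fun t ht => ?_⟩
  refine (dvd_add (h2 t (le_trans (le_max_left _ _) ht))
    (h4 t (le_trans (le_max_right _ _) ht))).trans (dvd_of_eq ?_)
  simp only [Pi.add_apply, map_add, mul_add, Finset.sum_add_distrib]
  ring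

omit [IsDomain R] in
theorem EPR_cauchy (I : ℕ) (x y : ℕ → R) :
    π ^ I ∣ (∑ i ∈ Finset.range I, π ^ i * x i) * (∑ j ∈ Finset.range I, π ^ j * y j) -
      ∑ n ∈ Finset.range I, π ^ n * ∑ p ∈ Finset.HasAntidiagonal.antidiagonal n, x p.1 * y p.2 := by
  have e1 : (∑ i ∈ Finset.range I, π ^ i * x i) * (∑ j ∈ Finset.range I, π ^ j * y j) =
      ∑ p ∈ Finset.range I ×ˢ Finset.range I, π ^ (p.1 + p.2) * (x p.1 * y p.2) := by
    rw [Finset.sum_mul_sum, ← Finset.sum_product']
    refine Finset.sum_congr rfl fun p _ => ?_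
    ring
  have e2 : ∑ n ∈ Finset.range I, π ^ n *
      ∑ p ∈ Finset.HasAntidiagonal.antidiagonal n, x p.1 * y p.2 =
      ∑ p ∈ (Finset.range I ×ˢ Finset.range I).filter (fun p => p.1 + p.2 < I),
        π ^ (p.1 + p.2) * (x p.1 * y p.2) := by
    rw [← Finset.sum_fiberwise_of_maps_to (s := (Finset.range I ×ˢ Finset.range I).filter
      (fun p : ℕ × ℕ => p.1 + p.2 < I)) (t := Finset.range I) (g := fun p : ℕ × ℕ => p.1 + p.2)]
    · refine Finset.sum_congr rfl fun n hn => ?_
      rw [Finset.mul_sum]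
      refine Finset.sum_congr ?_ fun p hp => ?_
      · ext p
        simp only [Finset.HasAntidiagonal.mem_antidiagonal, Finset.mem_filter, Finset.mem_product,
          Finset.mem_range] at hn ⊢
        omega
      · simp only [Finset.mem_filter] at hp
        rw [hp.2]
    · intro p hp
      simp only [Finset.mem_filter] at hp
      exact Finset.mem_range.2 hp.2
  rw [e1, e2, ← Finset.sum_filter_add_sum_filter_not (Finset.range I ×ˢ Finset.range I)
    (fun p : ℕ × ℕ => p.1 + p.2 < I), add_sub_cancel_left]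
  refine Finset.dvd_sum fun p hp => ?_
  simp only [Finset.mem_filter, not_lt] at hp
  exact (pow_dvd_pow π hp.2).mul_right _

omit [IsDomain R] in
theorem epr_mul {I : ℕ} {f g : ℕ → R} (hf : EPR G π I f) (hg : EPR G π I g) :
    EPR G π I (fun t => f t * g t) := by
  obtain ⟨T, φ, h1, h2⟩ := hf
  obtain ⟨T', ψ, h3, h4⟩ := hg
  refine ⟨max T T', fun n => ∑ p ∈ Finset.HasAntidiagonal.antidiagonal n, φ p.1 * ψ p.2, fun n =>
    (EPol k G).sum_mem fun p _ => (EPol k G).mul_mem (h1 p.1) (h3 p.2), fun t ht => ?_⟩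
  have a := h2 t (le_trans (le_max_left _ _) ht)
  have b := h4 t (le_trans (le_max_right _ _) ht)
  have c := EPR_cauchy (π := π) I (fun i => algebraMap k R (φ i t))
    (fun i => algebraMap k R (ψ i t))
  set A := ∑ i ∈ Finset.range I, π ^ i * algebraMap k R (φ i t) with hA
  set B := ∑ i ∈ Finset.range I, π ^ i * algebraMap k R (ψ i t) with hB
  have e : ∑ n ∈ Finset.range I, π ^ n *
      algebraMap k R ((∑ p ∈ Finset.HasAntidiagonal.antidiagonal n, φ p.1 * ψ p.2) t) =
      ∑ n ∈ Finset.range I, π ^ n * ∑ p ∈ Finset.HasAntidiagonal.antidiagonal n,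
        algebraMap k R (φ p.1 t) * algebraMap k R (ψ p.2 t) := by
    refine Finset.sum_congr rfl fun n _ => ?_
    rw [Finset.sum_apply, map_sum]
    congr 1
    refine Finset.sum_congr rfl fun p _ => ?_
    rw [Pi.mul_apply, map_mul]
  have d : f t * g t - ∑ n ∈ Finset.range I, π ^ n *
      algebraMap k R ((∑ p ∈ Finset.HasAntidiagonal.antidiagonal n, φ p.1 * ψ p.2) t) =
      (f t - A) * g t + A * (g t - B) + (A * B - ∑ n ∈ Finset.range I, π ^ n *
        ∑ p ∈ Finset.HasAntidiagonal.antidiagonal n,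
          algebraMap k R (φ p.1 t) * algebraMap k R (ψ p.2 t)) := by
    rw [e]; ring
  rw [d]
  exact dvd_add (dvd_add (a.mul_right _) (b.mul_left _)) c

omit [IsDomain R] in
theorem epr_pi {I : ℕ} {f : ℕ → R} (hf : EPR G π I f) :
    EPR G π (I + 1) (fun t => π * f t) := by
  obtain ⟨T, φ, h1, h2⟩ := hf
  refine ⟨T, fun i => Nat.casesOn i 0 φ, fun i => ?_, fun t ht => ?_⟩
  · rcases i with _ | i
    · exact (EPol k G).zero_mem
    · exact h1 i
  · obtain ⟨c, hc⟩ := h2 t ht
    refine ⟨c, ?_⟩
    rw [Finset.sum_range_succ']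
    have e : ∑ i ∈ Finset.range I, π ^ (i + 1) * algebraMap k R (φ i t) =
        π * ∑ i ∈ Finset.range I, π ^ i * algebraMap k R (φ i t) := by
      rw [Finset.mul_sum]
      refine Finset.sum_congr rfl fun i _ => ?_
      ring
    have e0 : (π ^ 0 * algebraMap k R ((0 : ℕ → k) t) : R) = 0 := by simp
    calc π * f t - (∑ i ∈ Finset.range I, π ^ (i + 1) * algebraMap k R (φ i t) +
          π ^ 0 * algebraMap k R ((0 : ℕ → k) t)) =
        π * (f t - ∑ i ∈ Finset.range I, π ^ i * algebraMap k R (φ i t)) := by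
          rw [e, e0]; ring
      _ = π ^ (I + 1) * c := by rw [hc]; ring

omit [IsDomain R] in
theorem epr_congr {I : ℕ} {f g : ℕ → R} (hf : EPR G π I f) {T : ℕ}
    (h : ∀ t, T ≤ t → π ^ I ∣ g t - f t) : EPR G π I g := by
  obtain ⟨T', φ, h1, h2⟩ := hf
  refine ⟨max T T', φ, h1, fun t ht => ?_⟩
  refine (dvd_add (h t (le_trans (le_max_left _ _) ht))
    (h2 t (le_trans (le_max_right _ _) ht))).trans (dvd_of_eq ?_)
  ring

omit [IsDomain R] in
theorem epr_unshift {I : ℕ} {f : ℕ → R} (hf : EPR G π I (fun t => f (t + 1))) :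
    EPR G π I f := by
  obtain ⟨T, φ, h1, h2⟩ := hf
  choose ψ hψ hψ' using fun i => epol_unshift (h1 i)
  refine ⟨T + 1, ψ, hψ, fun t ht => ?_⟩
  rcases t with _ | t
  · exact absurd ht (Nat.not_succ_le_zero T)
  · refine (h2 t (Nat.le_of_succ_le_succ ht)).trans (dvd_of_eq ?_)
    simp only [hψ']

theorem epr_eval (hR : Res π χ) {ι : Type} {I : ℕ} {ξ : ℕ → ι → R}
    (hξ : ∀ i, EPR G π I (fun t => ξ t i)) (P : MvPolynomial ι R) :
    EPR G π I (fun t => eval (ξ t) P) := by
  induction P using MvPolynomial.induction_on with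
  | C a => simpa only [eval_C] using epr_const hR I a
  | add p q hp hq => simpa only [map_add] using epr_add hp hq
  | mul_X p i hp => simpa only [map_mul, eval_X] using epr_mul hp (hξ i)

/-- A sequence of this kind with infinitely many values divisible by `π ^ I`. -/
theorem epr_zero [Algebra k ℂ] (hR : Res π χ) (hG : TorsFree G) {I : ℕ} {f : ℕ → R}
    (hf : EPR G π I f) (hinf : {t | π ^ I ∣ f t}.Infinite) : ∃ T, ∀ t, T ≤ t → π ^ I ∣ f t := by
  obtain ⟨T, φ, h1, h2⟩ := hf
  have key : ∀ t, T ≤ t → π ^ I ∣ f t → ∀ i < I, φ i t = 0 := by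
    intro t ht hd
    have h3 : π ^ I ∣ ∑ i ∈ Finset.range I, π ^ i * algebraMap k R ((fun i => φ i t) i) -
        ∑ i ∈ Finset.range I, π ^ i * algebraMap k R ((fun _ => (0 : k)) i) := by
      have h4 := dvd_sub hd (h2 t ht)
      refine h4.trans (dvd_of_eq ?_)
      simp
    exact digits_unique hR h3
  have h5 : ∀ i < I, φ i = 0 := by
    intro i hi
    refine skolem hG (h1 i) ?_
    refine Set.Infinite.mono (s := {t | π ^ I ∣ f t} \ {t | t < T}) ?_
      (hinf.sdiff (Set.finite_lt_nat T))
    intro t ht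
    exact key t (not_lt.1 ht.2) ht.1 i hi
  refine ⟨T, fun t ht => ?_⟩
  have h6 := h2 t ht
  have h7 : ∑ i ∈ Finset.range I, π ^ i * algebraMap k R (φ i t) = 0 := by
    refine Finset.sum_eq_zero fun i hi => ?_
    rw [h5 i (Finset.mem_range.1 hi)]
    simp
  rwa [h7, sub_zero] at h6

end Pool.Agent.Helper89.TNL

end

section

/-!
# Exponential polynomials: systems of linear recursions
-/

set_option autoImplicit false

namespace Pool.Agent.Helper89.TNL

variable {k : Type} [Field k] {G : Subgroup kˣ}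

theorem epolB_mulVec {α : Type} [Fintype α] (N : Matrix α α k) {g : α → ℕ → k}
    (hg : ∀ a, g a ∈ EPol k G) (a : α) :
    (fun t => N.mulVec (fun b => g b t) a) ∈ EPol k G := by
  have : (fun t => N.mulVec (fun b => g b t) a) = ∑ b, N a b • g b := by
    funext t
    simp [Matrix.mulVec, dotProduct]
  rw [this]
  exact (EPol k G).sum_mem fun b _ => (EPol k G).smul_mem (hg b) _

theorem epolB_roots [CharZero k] {α : Type} [Fintype α] [DecidableEq α]
    (M : Matrix α α k) {f v : α → ℕ → k} (hf : ∀ a, f a ∈ EPol k G)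
    (hv : ∀ t a, v a (t + 1) = ∑ b, M a b * v b t + f a t) (l : Multiset k)
    (hl : ∀ μ ∈ l, ∃ u ∈ G, ((u : kˣ) : k) = μ)
    (h : ∀ a, (fun t => (Polynomial.aeval M (l.map fun μ => Polynomial.X - Polynomial.C μ).prod
      ).mulVec (fun b => v b t) a) ∈ EPol k G) :
    ∀ a, v a ∈ EPol k G := by
  induction l using Multiset.induction_on with
  | empty =>
    intro a
    have := h a
    simpa using this
  | cons μ l ih =>
    apply ih (fun μ' hμ' => hl μ' (Multiset.mem_cons_of_mem hμ'))
    intro a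
    obtain ⟨u, hu, rfl⟩ := hl μ (Multiset.mem_cons_self μ l)
    have hcomm : Polynomial.aeval M (l.map fun μ => Polynomial.X - Polynomial.C μ).prod * M =
        M * Polynomial.aeval M (l.map fun μ => Polynomial.X - Polynomial.C μ).prod := by
      have := congrArg (Polynomial.aeval M) (mul_comm
        (l.map fun μ => Polynomial.X - Polynomial.C μ).prod (Polynomial.X : Polynomial k))
      simpa only [map_mul, Polynomial.aeval_X] using this
    have h' : ∀ a, (fun t => ((M - Matrix.scalar α (u : k)) *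
        Polynomial.aeval M (l.map fun μ => Polynomial.X - Polynomial.C μ).prod
        ).mulVec (fun b => v b t) a) ∈ EPol k G := by
      intro a
      have := h a
      rw [Multiset.map_cons, Multiset.prod_cons, map_mul, map_sub, Polynomial.aeval_X,
        Polynomial.aeval_C] at this
      exact this
    set N := Polynomial.aeval M (l.map fun μ => Polynomial.X - Polynomial.C μ).prod with hN
    refine epol_solve hu ((EPol k G).add_mem (h' a) (epolB_mulVec N hf a)) (fun t => ?_)
    have hv' : (fun b => v b (t + 1)) = M.mulVec (fun b => v b t) + fun b => f b t := by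
      funext b
      rw [hv t b]
      rfl
    show N.mulVec (fun b => v b (t + 1)) a = _
    rw [hv', Matrix.mulVec_add, Matrix.mulVec_mulVec, hcomm]
    simp only [Pi.add_apply]
    rw [sub_mul, Matrix.sub_mulVec]
    have : (Matrix.scalar α (u : k) * N).mulVec (fun b => v b t) a =
        (u : k) * N.mulVec (fun b => v b t) a := by
      rw [← Matrix.mulVec_mulVec]
      simp [Matrix.scalar_apply, Matrix.mulVec_diagonal]
    simp only [Pi.sub_apply]
    rw [this]
    ring

theorem epol_solve_vec [IsAlgClosed k] [CharZero k] {α : Type} [Fintype α] [DecidableEq α]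
    (M : Matrix α α k) (hM : EigIn G M) {f v : α → ℕ → k} (hf : ∀ a, f a ∈ EPol k G)
    (hv : ∀ t a, v a (t + 1) = ∑ b, M a b * v b t + f a t) : ∀ a, v a ∈ EPol k G := by
  have hs : (M.charpoly.roots.map fun μ => Polynomial.X - Polynomial.C μ).prod = M.charpoly :=
    ((IsAlgClosed.splits M.charpoly).eq_prod_roots_of_monic M.charpoly_monic).symm
  refine epolB_roots M hf hv M.charpoly.roots (fun μ hμ => hM μ (Polynomial.isRoot_of_mem_roots hμ))
    (fun a => ?_)
  rw [hs, Matrix.aeval_self_charpoly]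
  simp only [Matrix.zero_mulVec]
  exact (EPol k G).zero_mem

theorem epolB_shift {f : ℕ → k} (hf : f ∈ EPol k G) (T : ℕ) :
    (fun t => f (t + T)) ∈ EPol k G := by
  induction T with
  | zero => exact hf
  | succ T ih =>
    have := epol_shift ih
    have e : (fun t => f (t + 1 + T)) = fun t => f (t + (T + 1)) := by
      funext t
      congr 1
      omega
    rw [← e]
    exact this

theorem epolB_unshift {f : ℕ → k} (hf : f ∈ EPol k G) (T : ℕ) :
    ∃ g ∈ EPol k G, ∀ t, g (t + T) = f t := by
  induction T with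
  | zero => exact ⟨f, hf, fun t => rfl⟩
  | succ T ih =>
    obtain ⟨g, hg, hg'⟩ := ih
    obtain ⟨h, hh, hh'⟩ := epol_unshift hg
    refine ⟨h, hh, fun t => ?_⟩
    rw [← hg' t, ← hh' (t + T)]
    rfl

/-- The same for a recursion which holds from some time on: `v` agrees with exponential
polynomials from this time on. -/
theorem epol_solve_late [IsAlgClosed k] [CharZero k] {α : Type} [Fintype α] [DecidableEq α]
    (M : Matrix α α k) (hM : EigIn G M) {f v : α → ℕ → k} (hf : ∀ a, f a ∈ EPol k G) {T : ℕ}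
    (hv : ∀ t, T ≤ t → ∀ a, v a (t + 1) = ∑ b, M a b * v b t + f a t) :
    ∃ w : α → ℕ → k, (∀ a, w a ∈ EPol k G) ∧ ∀ t, T ≤ t → ∀ a, v a t = w a t := by
  have h1 : ∀ a, (fun t => v a (t + T)) ∈ EPol k G := by
    refine epol_solve_vec M hM (f := fun a t => f a (t + T)) (v := fun a t => v a (t + T))
      (fun a => epolB_shift (hf a) T) (fun t a => ?_)
    have := hv (t + T) (Nat.le_add_left _ _) a
    rw [← this]
    congr 1
    omega
  choose w hw hw' using fun a => epolB_unshift (h1 a) T
  refine ⟨w, hw, fun t ht a => ?_⟩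
  obtain ⟨s, rfl⟩ := Nat.exists_eq_add_of_le ht
  rw [Nat.add_comm T s, hw' a s]

end Pool.Agent.Helper89.TNL

end

section

namespace Pool.Agent.Helper16
end Pool.Agent.Helper16
namespace Pool.Agent.Helper36
end Pool.Agent.Helper36
namespace Pool.Agent.Helper38.TQ
end Pool.Agent.Helper38.TQ
namespace Pool.Agent.Helper30.TKN
end Pool.Agent.Helper30.TKN

/-!
# The polynomials which define the iterates
-/

set_option autoImplicit false

namespace Pool.Agent.Helper89.TNL

open MvPolynomial

open Pool.Agent.Helper16 (Place IsFunctionField)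

open Pool.Agent.Helper36 (step iter)

open Pool.Agent.Helper38.TQ

open Pool.Agent.Helper30.TKN

variable {ν : ℕ}

section iterN

variable {K : Type} [Field K]

theorem iterN_eval (F : Fin (ν + 1) → MvPolynomial (Fin (ν + 1)) K)
    (P : MvPolynomial (Fin (ν + 1)) K) (y : Fin (ν + 1) → K) (N : ℕ) :
    eval y ((fun P => aeval F P)^[N] P) = eval (iter F y N) P := by
  have h1 : ∀ (Q : MvPolynomial (Fin (ν + 1)) K) (z : Fin (ν + 1) → K),
      eval z (aeval F Q) = eval (step F z) Q := by
    intro Q z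
    rw [← coe_aeval_eq_eval, RingHom.coe_coe, comp_aeval_apply, ← coe_aeval_eq_eval,
      RingHom.coe_coe]
    rfl
  induction N generalizing P with
  | zero => rfl
  | succ N ih =>
    rw [Function.iterate_succ_apply, ih, h1, Pool.Agent.Helper36.iter_succ]

theorem iterN_eq (F : Fin (ν + 1) → MvPolynomial (Fin (ν + 1)) K)
    (P : MvPolynomial (Fin (ν + 1)) K) (N : ℕ) :
    (fun P => aeval F P)^[N] P = aeval (itN F N) P := by
  induction N with
  | zero =>
    have h1 : itN F 0 = (X : Fin (ν + 1) → MvPolynomial (Fin (ν + 1)) K) := rfl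
    rw [h1, aeval_X_left, AlgHom.id_apply]
    rfl
  | succ N ih =>
    have h1 : itN F (N + 1) =
        fun i => (aeval F : _ →ₐ[K] MvPolynomial (Fin (ν + 1)) K) (itN F N i) := by
      funext i
      unfold itN
      rw [Function.iterate_succ_apply']
    rw [Function.iterate_succ_apply', ih, h1]
    exact comp_aeval_apply _ _ _

theorem iterN_hom {d : ℕ} {F : Fin (ν + 1) → MvPolynomial (Fin (ν + 1)) K}
    (hF : ∀ i, (F i).IsHomogeneous d) {P : MvPolynomial (Fin (ν + 1)) K} {e : ℕ}
    (hP : P.IsHomogeneous e) (N : ℕ) :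
    ((fun P => aeval F P)^[N] P).IsHomogeneous (d ^ N * e) := by
  induction N with
  | zero => rw [pow_zero, one_mul]; exact hP
  | succ N ih =>
    rw [Function.iterate_succ_apply']
    have h1 := ih.aeval F hF
    have h2 : d ^ (N + 1) * e = d * (d ^ N * e) := by ring
    rw [h2]
    exact h1

theorem iterN_chain (g : Fin (ν + 1) → MvPolynomial (Fin (ν + 1)) K)
    (P : MvPolynomial (Fin (ν + 1)) K) (j : Fin (ν + 1)) :
    pderiv j (aeval g P) = ∑ l, aeval g (pderiv l P) * pderiv j (g l) := by
  induction P using MvPolynomial.induction_on with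
  | C a => simp
  | add p q hp hq =>
    simp only [map_add, hp, hq, add_mul, Finset.sum_add_distrib]
  | mul_X p n hp =>
    simp only [map_mul, aeval_X, Derivation.leibniz, hp, smul_eq_mul, map_add, add_mul,
      Finset.sum_add_distrib]
    congr 1
    · rw [Finset.sum_eq_single n]
      · simp
      · intro l _ hl
        rw [pderiv_X_of_ne hl.symm]
        simp
      · intro h
        exact absurd (Finset.mem_univ n) h
    · rw [Finset.mul_sum]
      exact Finset.sum_congr rfl fun l _ => by ring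

end iterN

theorem eval_itN {K : Type} [Field K] (F : Fin (ν + 1) → MvPolynomial (Fin (ν + 1)) K)
    (y : Fin (ν + 1) → K) (N : ℕ) (i : Fin (ν + 1)) : eval y (itN F N i) = iter F y N i := by
  unfold itN
  rw [iterN_eval, eval_X]

theorem itN_hom {K : Type} [Field K] {d : ℕ} {F : Fin (ν + 1) → MvPolynomial (Fin (ν + 1)) K}
    (hF : ∀ i, (F i).IsHomogeneous d) (N : ℕ) (i : Fin (ν + 1)) :
    (itN F N i).IsHomogeneous (d ^ N) := by
  have h1 := iterN_hom hF (isHomogeneous_X K i) N
  rwa [mul_one] at h1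

theorem pderiv_itN {K : Type} [Field K] (F : Fin (ν + 1) → MvPolynomial (Fin (ν + 1)) K)
    (y : Fin (ν + 1) → K) (N : ℕ) (i j : Fin (ν + 1)) :
    eval y (pderiv j (itN F N i)) = mult F y N i j := by
  induction N generalizing i with
  | zero =>
    have h1 : mult F y 0 = 1 := rfl
    have h2 : itN F 0 i = X i := rfl
    rw [h1, h2, pderiv_X, Matrix.one_apply]
    rcases eq_or_ne i j with h | h
    · subst h; simp
    · rw [Pi.single_eq_of_ne h, map_zero, if_neg h]
  | succ N ih =>
    have h1 : mult F y (N + 1) = jac F (iter F y N) * mult F y N := rfl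
    have h2 : itN F (N + 1) i = aeval (itN F N) (F i) := by
      have h3 : itN F (N + 1) i = (fun P => aeval F P)^[N] (F i) := by
        unfold itN
        rw [Function.iterate_succ_apply]
        simp only [aeval_X]
      rw [h3, iterN_eq]
    have h3 : ∀ P : MvPolynomial (Fin (ν + 1)) K,
        eval y (aeval (itN F N) P) = eval (iter F y N) P := by
      intro P
      rw [← iterN_eq, iterN_eval]
    rw [h1, h2, iterN_chain, map_sum, Matrix.mul_apply]
    refine Finset.sum_congr rfl fun l _ => ?_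
    rw [map_mul, ih, h3]
    rfl

theorem iterN_redP {k K : Type} [Field k] [Field K] [Algebra k K] {b : Place k K}
    {F : Fin (ν + 1) → MvPolynomial (Fin (ν + 1)) K}
    {f : Fin (ν + 1) → MvPolynomial (Fin (ν + 1)) k}
    (hf : ∀ i, RedP b (F i) (f i)) {P : MvPolynomial (Fin (ν + 1)) K}
    {p : MvPolynomial (Fin (ν + 1)) k} (hP : RedP b P p) :
    RedP b (aeval F P) (aeval f p) := by
  classical
  -- the polynomial `P - p` has coefficients in the maximal ideal
  have hC : ∀ (c : k), RedP b (C (algebraMap k K c) : MvPolynomial (Fin (ν + 1)) K) (C c) := by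
    intro c
    have h := redP_map b (C c : MvPolynomial (Fin (ν + 1)) k)
    rwa [map_C] at h
  have h0 : ∀ (q : MvPolynomial (Fin (ν + 1)) k),
      RedP b (aeval F (map (algebraMap k K) q)) (aeval f q) := by
    intro q
    induction q using MvPolynomial.induction_on with
    | C a => rw [map_C, aeval_C, aeval_C]; exact hC a
    | add p q hp hq => rw [map_add, map_add, map_add]; exact hp.add hq
    | mul_X p n hp => rw [map_mul, map_X, map_mul, map_mul, aeval_X, aeval_X]; exact hp.mul (hf n)
  -- small polynomials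
  have hs : ∀ Q : MvPolynomial (Fin (ν + 1)) K, RedP b Q 0 → RedP b (aeval F Q) 0 := by
    intro Q hQ
    rw [aeval_def, eval₂_eq']
    have hz : ∀ m : Fin (ν + 1) →₀ ℕ,
        RedP b (C (Q.coeff m) : MvPolynomial (Fin (ν + 1)) K) 0 := by
      intro m l
      rw [coeff_zero, map_zero, sub_zero, coeff_C]
      split_ifs with h
      · have h2 := hQ m
        rwa [coeff_zero, map_zero, sub_zero] at h2
      · rw [map_zero]
        exact zero_lt_one
    have h3 : RedP b (∑ m ∈ Q.support, C (Q.coeff m) * ∏ i, F i ^ m i)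
        (∑ m ∈ Q.support, 0 * ∏ i, f i ^ m i) :=
      RedP.sum _ fun m _ => (hz m).mul (RedP.prod _ fun i _ => (hf i).pow (m i))
    simp only [zero_mul, Finset.sum_const_zero] at h3
    exact h3
  have h1 : RedP b (P - map (algebraMap k K) p) 0 := by
    have h2 := hP.add (redP_map b p).neg
    rwa [add_neg_cancel, ← sub_eq_add_neg] at h2
  have h2 := (hs _ h1).add (h0 p)
  rw [zero_add] at h2
  have h3 : aeval F (P - map (algebraMap k K) p) + aeval F (map (algebraMap k K) p) =
      aeval F P := by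
    rw [map_sub, sub_add_cancel]
  rwa [h3] at h2

theorem redP_itN {k K : Type} [Field k] [Field K] [Algebra k K] {b : Place k K}
    {F : Fin (ν + 1) → MvPolynomial (Fin (ν + 1)) K}
    {f : Fin (ν + 1) → MvPolynomial (Fin (ν + 1)) k} (hf : ∀ i, RedP b (F i) (f i)) (N : ℕ)
    (i : Fin (ν + 1)) : RedP b (itN F N i) (itN f N i) := by
  unfold itN
  induction N with
  | zero => exact redP_C_X b i
  | succ N ih =>
    rw [Function.iterate_succ_apply', Function.iterate_succ_apply']
    exact iterN_redP hf ih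

theorem iterN_step_eq {k : Type} [Field k] (f : Fin (ν + 1) → MvPolynomial (Fin (ν + 1)) k)
    (z : Fin (ν + 1) → k) (i : Fin (ν + 1)) : step f z i = eval z (f i) := by
  change aeval z (f i) = _
  exact congrArg (fun φ => φ (f i)) (coe_aeval_eq_eval z)

theorem iterN_euler {k : Type} [Field k] {d : ℕ}
    {f : Fin (ν + 1) → MvPolynomial (Fin (ν + 1)) k}
    (hf : ∀ i, (f i).IsHomogeneous d) (z : Fin (ν + 1) → k) :
    (jac f z).mulVec z = (d : k) • step f z := by
  funext i
  have h1 := congrArg (eval z) (hf i).sum_X_mul_pderiv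
  rw [map_sum, map_nsmul, nsmul_eq_mul] at h1
  rw [Pi.smul_apply, smul_eq_mul, iterN_step_eq, ← h1, Matrix.mulVec, dotProduct]
  refine Finset.sum_congr rfl fun j _ => ?_
  rw [map_mul, eval_X, mul_comm]
  rfl

/-- The derivative of the iterate in the direction of the point itself. -/
theorem mult_mulVec_self {k : Type} [Field k] {d : ℕ}
    {f : Fin (ν + 1) → MvPolynomial (Fin (ν + 1)) k} (hf : ∀ i, (f i).IsHomogeneous d)
    (z : Fin (ν + 1) → k) (N : ℕ) :
    (mult f z N).mulVec z = ((d : k) ^ N) • iter f z N := by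
  induction N with
  | zero =>
    change (1 : Matrix (Fin (ν + 1)) (Fin (ν + 1)) k).mulVec z = (d : k) ^ 0 • z
    rw [Matrix.one_mulVec, pow_zero, one_smul]
  | succ N ih =>
    change (jac f (iter f z N) * mult f z N).mulVec z = _
    rw [← Matrix.mulVec_mulVec, ih, Matrix.mulVec_smul, iterN_euler hf, smul_smul,
      Pool.Agent.Helper36.iter_succ, pow_succ]

theorem iterN_iter_smul {k : Type} [Field k] {d : ℕ}
    {f : Fin (ν + 1) → MvPolynomial (Fin (ν + 1)) k}
    (hf : ∀ i, (f i).IsHomogeneous d) {s : k} (hs : s ≠ 0) (z : Fin (ν + 1) → k) (n : ℕ) :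
    ∃ c : k, c ≠ 0 ∧ iter f (s • z) n = c • iter f z n := by
  induction n with
  | zero => exact ⟨s, hs, rfl⟩
  | succ n ih =>
    obtain ⟨c, hc, h⟩ := ih
    refine ⟨c ^ d, pow_ne_zero _ hc, ?_⟩
    rw [Pool.Agent.Helper36.iter_succ, Pool.Agent.Helper36.iter_succ, h]
    funext i
    exact Pool.Agent.Helper36.aeval_smul_homogeneous (hf i) c _

theorem iterN_jac_smul {k : Type} [Field k] {d : ℕ}
    {f : Fin (ν + 1) → MvPolynomial (Fin (ν + 1)) k}
    (hf : ∀ i, (f i).IsHomogeneous d) (s : k) (z : Fin (ν + 1) → k) :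
    jac f (s • z) = s ^ (d - 1) • jac f z := by
  ext i j
  exact eval_smul_hom ((hf i).pderiv) s z

theorem mult_smul {k : Type} [Field k] {d : ℕ}
    {f : Fin (ν + 1) → MvPolynomial (Fin (ν + 1)) k} (hf : ∀ i, (f i).IsHomogeneous d)
    (z : Fin (ν + 1) → k) {c : k} (hc : c ≠ 0) (N : ℕ) :
    ∃ c' : k, c' ≠ 0 ∧ mult f (c • z) N = c' • mult f z N := by
  induction N with
  | zero => exact ⟨1, one_ne_zero, (one_smul k _).symm⟩
  | succ n ih =>
    obtain ⟨a, ha, h⟩ := ih
    obtain ⟨e, he, h'⟩ := iterN_iter_smul hf hc z n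
    refine ⟨e ^ (d - 1) * a, mul_ne_zero (pow_ne_zero _ he) ha, ?_⟩
    change jac f (iter f (c • z) n) * mult f (c • z) n = _ • (jac f (iter f z n) * mult f z n)
    rw [h, h', iterN_jac_smul hf, Matrix.smul_mul, Matrix.mul_smul, smul_smul]

theorem mult_addN {k : Type} [Field k] (f : Fin (ν + 1) → MvPolynomial (Fin (ν + 1)) k)
    (z : Fin (ν + 1) → k) (M N : ℕ) : mult f z (M + N) = mult f (iter f z M) N * mult f z M := by
  induction N with
  | zero =>
    change mult f z M = 1 * mult f z M
    rw [one_mul]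
  | succ N ih =>
    change jac f (iter f z (M + N)) * mult f z (M + N) =
      jac f (iter f (iter f z M) N) * mult f (iter f z M) N * mult f z M
    rw [ih, Matrix.mul_assoc, Nat.add_comm M N, Pool.Agent.Helper36.iter_add]

end Pool.Agent.Helper89.TNL

end

section

namespace Pool.Agent.Helper16
end Pool.Agent.Helper16
namespace Pool.Agent.Helper30.TP
end Pool.Agent.Helper30.TP
namespace Pool.Agent.Helper63.TK
end Pool.Agent.Helper63.TK

/-!
# The valuation ring of a place
-/

set_option autoImplicit false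

namespace Pool.Agent.Helper63.TS

open MvPolynomial

open Pool.Agent.Helper16 (Place IsFunctionField)

open Pool.Agent.Helper30.TP

open Pool.Agent.Helper63.TK

variable {k K : Type} [Field k] [Field K] [Algebra k K]

theorem RingR_le (b : Place k K) (r : b.ring) : b.val (r : K) ≤ 1 := r.2

theorem RingR_lt (b : Place k K) {x : K} (h : b.val x < 1) : b.val x ≤ WithZero.exp (-1 : ℤ) := by
  by_cases h0 : b.val x = 0
  · rw [h0]
    exact zero_le
  · rw [← WithZero.exp_log h0, ← WithZero.exp_zero, WithZero.exp_lt_exp] at h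
    rw [← WithZero.exp_log h0, WithZero.exp_le_exp]
    omega

theorem exists_unif (b : Place k K) :
    ∃ π : b.ring, Unif π ∧ ∀ r : b.ring, π ∣ r ↔ b.val (r : K) < 1 := by
  obtain ⟨f, hf0, hf⟩ := b.exists_uniformizer
  have hlt : WithZero.exp (-1 : ℤ) < (1 : WithZero (Multiplicative ℤ)) := by
    rw [← WithZero.exp_zero, WithZero.exp_lt_exp]
    omega
  obtain ⟨π, hπ⟩ : ∃ π : b.ring, (π : K) = f := ⟨⟨f, by
    show b.val f ≤ 1
    rw [hf]
    exact hlt.le⟩, rfl⟩
  have hdvd : ∀ r : b.ring, π ∣ r ↔ b.val (r : K) < 1 := by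
    intro r
    constructor
    · rintro ⟨s, rfl⟩
      have h1 : ((π * s : b.ring) : K) = f * (s : K) := by rw [← hπ]; rfl
      rw [h1, map_mul, hf]
      exact mul_lt_one_of_lt_of_le hlt (RingR_le b s)
    · intro h
      have h1 : b.val ((r : K) / f) ≤ 1 := by
        rw [map_div₀, hf, div_le_one₀ (by exact WithZero.exp_pos)]
        exact RingR_lt b h
      refine ⟨⟨(r : K) / f, h1⟩, Subtype.ext ?_⟩
      show (r : K) = (π : K) * ((r : K) / f)
      rw [hπ]
      field_simp
  have hunit : ∀ u : b.ring, ¬ π ∣ u → IsUnit u := by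
    intro u hu
    rw [hdvd, not_lt] at hu
    have h1 : b.val (u : K) = 1 := le_antisymm (RingR_le b u) hu
    have hu0 : (u : K) ≠ 0 := by
      intro h
      rw [h, map_zero] at h1
      exact zero_ne_one h1
    have h2 : b.val ((u : K)⁻¹) ≤ 1 := by rw [map_inv₀, h1, inv_one]
    refine IsUnit.of_mul_eq_one ⟨(u : K)⁻¹, h2⟩ (Subtype.ext ?_)
    show (u : K) * (u : K)⁻¹ = 1
    exact mul_inv_cancel₀ hu0
  have hπ0 : π ≠ 0 := by
    rintro rfl
    exact hf0 hπ.symm
  refine ⟨π, ⟨⟨hπ0, ?_, ?_⟩, hunit, ?_⟩, hdvd⟩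
  · intro h
    have h1 : π ∣ 1 := h.dvd
    rw [hdvd] at h1
    have h2 : ((1 : b.ring) : K) = 1 := rfl
    rw [h2, map_one] at h1
    exact lt_irrefl _ h1
  · intro a c hac
    rw [hdvd] at hac
    rw [hdvd, hdvd]
    by_contra hcon
    rw [not_or, not_lt, not_lt] at hcon
    have h1 : b.val (a : K) = 1 := le_antisymm (RingR_le b a) hcon.1
    have h2 : b.val (c : K) = 1 := le_antisymm (RingR_le b c) hcon.2
    have h3 : ((a * c : b.ring) : K) = (a : K) * (c : K) := rfl
    rw [h3, map_mul, h1, h2, one_mul] at hac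
    exact lt_irrefl _ hac
  · intro r hr
    have hr0 : (r : K) ≠ 0 := by
      intro h
      exact hr (Subtype.ext h)
    have hv0 : b.val (r : K) ≠ 0 := by simpa using hr0
    have h1 := RingR_le b r
    rw [← WithZero.exp_log hv0, ← WithZero.exp_zero, WithZero.exp_le_exp] at h1
    obtain ⟨e, he⟩ : ∃ e : ℕ, (e : ℤ) = - WithZero.log (b.val (r : K)) :=
      ⟨(- WithZero.log (b.val (r : K))).toNat, by omega⟩
    have h2 : b.val ((r : K) / f ^ e) = 1 := by
      rw [map_div₀, map_pow, hf, ← WithZero.exp_log hv0, ← WithZero.exp_nsmul,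
        ← WithZero.exp_sub, ← WithZero.exp_zero]
      congr 1
      rw [nsmul_eq_mul]
      omega
    refine ⟨e, ⟨(r : K) / f ^ e, h2.le⟩, ?_, Subtype.ext ?_⟩
    · rw [hdvd]
      show ¬ b.val ((r : K) / f ^ e) < 1
      rw [h2]
      exact lt_irrefl _
    · show (r : K) = ((π ^ e : b.ring) : K) * ((r : K) / f ^ e)
      rw [SubmonoidClass.coe_pow, hπ, mul_div_cancel₀]
      exact pow_ne_zero _ hf0

theorem RingR_uniq (b : Place k K) {x : K} {c c' : k} (h : b.val (x - algebraMap k K c) < 1)
    (h' : b.val (x - algebraMap k K c') < 1) : c = c' := by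
  by_contra hne
  have h1 := b.triv (c' - c) (sub_ne_zero.2 (Ne.symm hne))
  have h2 : algebraMap k K (c' - c) = (x - algebraMap k K c) - (x - algebraMap k K c') := by
    rw [map_sub]
    ring
  have h3 : b.val (algebraMap k K (c' - c)) < 1 := by
    rw [h2]
    exact (b.val.map_sub _ _).trans_lt (max_lt h h')
  rw [h1] at h3
  exact lt_irrefl _ h3

theorem exists_chi [IsAlgClosed k] (hK : IsFunctionField k K) (b : Place k K) :
    ∃ χ : b.ring →+* k, (∀ c : k, χ (algebraMap k b.ring c) = c) ∧
      ∀ r : b.ring, χ r = 0 ↔ b.val (r : K) < 1 := by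
  have hex : ∀ r : b.ring, ∃ c : k, b.val ((r : K) - algebraMap k K c) < 1 :=
    fun r => exists_residue hK b (r : K) (RingR_le b r)
  choose χ hχ using hex
  have hu : ∀ (r : b.ring) (c : k), b.val ((r : K) - algebraMap k K c) < 1 → χ r = c :=
    fun r c h => RingR_uniq b (hχ r) h
  have hc : ∀ c : k, χ (algebraMap k b.ring c) = c := by
    intro c
    apply hu
    have h1 : ((algebraMap k b.ring c : b.ring) : K) = algebraMap k K c := rfl
    rw [h1, sub_self, map_zero]
    exact zero_lt_one
  have hca : ∀ c : k, b.val (algebraMap k K c) ≤ 1 := fun c => b.val_algebraMap_le c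
  refine ⟨{ toFun := χ, map_one' := ?_, map_mul' := ?_, map_zero' := ?_, map_add' := ?_ }, ?_, ?_⟩
  · apply hu
    have h1 : ((1 : b.ring) : K) = 1 := rfl
    rw [h1, map_one, sub_self, map_zero]
    exact zero_lt_one
  · intro r s
    apply hu
    have h1 : ((r * s : b.ring) : K) - algebraMap k K (χ r * χ s) =
        ((r : K) - algebraMap k K (χ r)) * (s : K) +
          algebraMap k K (χ r) * ((s : K) - algebraMap k K (χ s)) := by
      have h2 : ((r * s : b.ring) : K) = (r : K) * (s : K) := rfl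
      rw [h2, map_mul]
      ring
    rw [h1]
    refine (b.val.map_add _ _).trans_lt (max_lt ?_ ?_)
    · rw [map_mul]
      exact mul_lt_one_of_lt_of_le (hχ r) (RingR_le b s)
    · rw [map_mul, mul_comm]
      exact mul_lt_one_of_lt_of_le (hχ s) (hca _)
  · apply hu
    have h1 : ((0 : b.ring) : K) = 0 := rfl
    rw [h1, map_zero, sub_self, map_zero]
    exact zero_lt_one
  · intro r s
    apply hu
    have h1 : ((r + s : b.ring) : K) - algebraMap k K (χ r + χ s) =
        ((r : K) - algebraMap k K (χ r)) + ((s : K) - algebraMap k K (χ s)) := by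
      have h2 : ((r + s : b.ring) : K) = (r : K) + (s : K) := rfl
      rw [h2, map_add]
      ring
    rw [h1]
    exact (b.val.map_add _ _).trans_lt (max_lt (hχ r) (hχ s))
  · exact hc
  · intro r
    show χ r = 0 ↔ _
    constructor
    · intro h
      have h1 := hχ r
      rw [h, map_zero, sub_zero] at h1
      exact h1
    · intro h
      apply hu
      rw [map_zero, sub_zero]
      exact h

end Pool.Agent.Helper63.TS

end

section

namespace Pool.Agent.Helper16
end Pool.Agent.Helper16
namespace Pool.Agent.Helper38.TQ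
end Pool.Agent.Helper38.TQ
namespace Pool.Agent.Helper30.TKN
end Pool.Agent.Helper30.TKN

/-!
# The valuation ring of a place
-/

set_option autoImplicit false

namespace Pool.Agent.Helper89.TNL

open MvPolynomial

open Pool.Agent.Helper16 (Place IsFunctionField)

open Pool.Agent.Helper38.TQ

open Pool.Agent.Helper30.TKN

variable {ν : ℕ} {k K : Type} [Field k] [Field K] [Algebra k K]

theorem LiftN_pow (n : ℕ) :
    (WithZero.exp (-1 : ℤ)) ^ n = WithZero.exp (-(n : ℤ)) := by
  rw [← WithZero.exp_nsmul]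
  congr 1
  simp

/-- The valuation ring of a place. -/
theorem exists_res [IsAlgClosed k] (hK : IsFunctionField k K) (b : Place k K) :
    ∃ (π : b.ring) (χ : b.ring →+* k), Res π χ ∧ ∀ (r : b.ring) (n : ℕ),
      π ^ n ∣ r ↔ b.val (r : K) ≤ WithZero.exp (-(n : ℤ)) := by
  obtain ⟨π, hU, hdvd⟩ := Pool.Agent.Helper63.TS.exists_unif b
  obtain ⟨χ, hc, hχ0⟩ := Pool.Agent.Helper63.TS.exists_chi hK b
  refine ⟨π, χ, ⟨hU, hc, fun r => (hχ0 r).trans (hdvd r).symm⟩, ?_⟩
  have hmul : ∀ r s : b.ring, ((r * s : b.ring) : K) = (r : K) * (s : K) := fun r s => rfl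
  have hpow : ∀ (r : b.ring) (n : ℕ), ((r ^ n : b.ring) : K) = (r : K) ^ n :=
    fun r n => SubmonoidClass.coe_pow r n
  have hπ1 : b.val (π : K) = WithZero.exp (-1 : ℤ) := by
    apply le_antisymm
    · exact Pool.Agent.Helper63.TS.RingR_lt b ((hdvd π).1 dvd_rfl)
    · obtain ⟨f, hf0, hf⟩ := b.exists_uniformizer
      have hlt : WithZero.exp (-1 : ℤ) < (1 : WithZero (Multiplicative ℤ)) := by
        rw [← WithZero.exp_zero, WithZero.exp_lt_exp]
        omega
      obtain ⟨ϖ, hϖ⟩ : ∃ ϖ : b.ring, (ϖ : K) = f := ⟨⟨f, by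
        show b.val f ≤ 1
        rw [hf]
        exact hlt.le⟩, rfl⟩
      have h1 : π ∣ ϖ := by
        rw [hdvd, hϖ, hf]
        exact hlt
      obtain ⟨s, hs⟩ := h1
      have h2 : f = (π : K) * (s : K) := by
        rw [← hϖ, hs, hmul]
      rw [← hf, h2, map_mul]
      exact mul_le_of_le_one_right' (Pool.Agent.Helper63.TS.RingR_le b s)
  intro r n
  constructor
  · rintro ⟨s, rfl⟩
    rw [hmul, hpow, map_mul, map_pow, hπ1, LiftN_pow]
    exact mul_le_of_le_one_right' (Pool.Agent.Helper63.TS.RingR_le b s)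
  · intro h
    have hπ0 : (π : K) ≠ 0 := by
      intro h0
      rw [h0, map_zero] at hπ1
      exact WithZero.exp_ne_zero hπ1.symm
    have h1 : b.val ((r : K) / (π : K) ^ n) ≤ 1 := by
      rw [map_div₀, map_pow, hπ1, LiftN_pow, div_le_one₀ (by exact WithZero.exp_pos)]
      exact h
    refine ⟨⟨(r : K) / (π : K) ^ n, h1⟩, Subtype.ext ?_⟩
    show (r : K) = ((π ^ n : b.ring) : K) * ((r : K) / (π : K) ^ n)
    rw [hpow, mul_div_cancel₀]
    exact pow_ne_zero _ hπ0

theorem exists_liftN {b : Place k K} {π : b.ring} {χ : b.ring →+* k} (hR : Res π χ)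
    (hπ : ∀ (r : b.ring) (n : ℕ), π ^ n ∣ r ↔ b.val (r : K) ≤ WithZero.exp (-(n : ℤ)))
    {P : MvPolynomial (Fin (ν + 1)) K} {p : MvPolynomial (Fin (ν + 1)) k} (h : RedP b P p) :
    ∃ Q : MvPolynomial (Fin (ν + 1)) b.ring, map (algebraMap b.ring K) Q = P ∧ map χ Q = p := by
  classical
  have h1 : ∀ m, b.val (P.coeff m) ≤ 1 := by
    intro m
    have h2 : P.coeff m = (P.coeff m - algebraMap k K (p.coeff m)) + algebraMap k K (p.coeff m) := by
      ring
    rw [h2]
    exact (b.val.map_add _ _).trans (max_le (h m).le (b.val_algebraMap_le _))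
  have h3 : ∀ m, (∑ n ∈ P.support, monomial n (⟨P.coeff n, h1 n⟩ : b.ring)).coeff m =
      ⟨P.coeff m, h1 m⟩ := by
    intro m
    rw [coeff_sum]
    simp only [coeff_monomial]
    rw [Finset.sum_ite_eq']
    split_ifs with hm
    · rfl
    · exact Subtype.ext (notMem_support_iff.1 hm).symm
  refine ⟨∑ n ∈ P.support, monomial n (⟨P.coeff n, h1 n⟩ : b.ring), ?_, ?_⟩
  · ext m
    rw [coeff_map, h3]
    rfl
  · ext m
    rw [coeff_map, h3]
    have h4 : χ (⟨P.coeff m, h1 m⟩ - algebraMap k b.ring (p.coeff m)) = 0 := by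
      rw [hR.ker, ← pow_one π, hπ]
      have h5 : ((⟨P.coeff m, h1 m⟩ - algebraMap k b.ring (p.coeff m) : b.ring) : K) =
          P.coeff m - algebraMap k K (p.coeff m) := rfl
      rw [h5]
      have h6 := Pool.Agent.Helper63.TS.RingR_lt b (h m)
      simpa using h6
    rw [map_sub, hR.sec, sub_eq_zero] at h4
    exact h4

/-- A multiple with integral coefficients. -/
theorem exists_integral (b : Place k K) (P : MvPolynomial (Fin (ν + 1)) K) :
    ∃ (c : K) (Q : MvPolynomial (Fin (ν + 1)) b.ring), c ≠ 0 ∧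
      map (algebraMap b.ring K) Q = C c * P := by
  classical
  obtain ⟨f, hf0, hf⟩ := b.exists_uniformizer
  obtain ⟨N, hN⟩ : ∃ N : ℕ, ∀ m ∈ P.support, WithZero.log (b.val (P.coeff m)) ≤ (N : ℤ) := by
    refine ⟨∑ m ∈ P.support, (WithZero.log (b.val (P.coeff m))).toNat, fun m hm => ?_⟩
    refine (Int.self_le_toNat _).trans ?_
    exact_mod_cast Finset.single_le_sum
      (f := fun m => (WithZero.log (b.val (P.coeff m))).toNat) (fun i _ => Nat.zero_le _) hm
  have h1 : ∀ m, b.val (f ^ N * P.coeff m) ≤ 1 := by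
    intro m
    by_cases hm : P.coeff m = 0
    · rw [hm, mul_zero, map_zero]
      exact zero_le
    · have hv : b.val (P.coeff m) ≠ 0 := (map_ne_zero _).2 hm
      rw [map_mul, map_pow, hf, LiftN_pow, ← WithZero.exp_log hv, ← WithZero.exp_add,
        ← WithZero.exp_zero, WithZero.exp_le_exp]
      have := hN m (mem_support_iff.2 hm)
      omega
  refine ⟨f ^ N, ∑ n ∈ P.support, monomial n (⟨f ^ N * P.coeff n, h1 n⟩ : b.ring),
    pow_ne_zero _ hf0, ?_⟩
  ext m
  rw [coeff_map, coeff_sum, coeff_C_mul]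
  simp only [coeff_monomial]
  rw [Finset.sum_ite_eq']
  split_ifs with hm
  · rfl
  · rw [map_zero, notMem_support_iff.1 hm, mul_zero]

end Pool.Agent.Helper89.TNL

end

section

namespace Pool.Agent.Helper16
end Pool.Agent.Helper16
namespace Pool.Agent.Helper38.TQ
end Pool.Agent.Helper38.TQ
namespace Pool.Agent.Helper30.TKN
end Pool.Agent.Helper30.TKN

/-!
# Points of a residue polydisc in the coordinates of a chart
-/

set_option autoImplicit false

namespace Pool.Agent.Helper89.TNL

open MvPolynomial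

open Pool.Agent.Helper16 (Place IsFunctionField)

open Pool.Agent.Helper38.TQ

open Pool.Agent.Helper30.TKN

variable {ν : ℕ} {k K : Type} [Field k] [Field K] [Algebra k K] {b : Place k K} {π : b.ring}
  {χ : b.ring →+* k} {ι : Type} [Fintype ι] [DecidableEq ι]

/-- The vectors of the chart over the valuation ring. -/
def eR (b : Place k K) {ι : Type} (e : Option ι → Fin (ν + 1) → k) :
    Option ι → Fin (ν + 1) → b.ring :=
  fun a i => algebraMap k b.ring (e a i)

theorem PointN_lt (hR : Res π χ)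
    (hπ : ∀ (r : b.ring) (n : ℕ), π ^ n ∣ r ↔ b.val (r : K) ≤ WithZero.exp (-(n : ℤ)))
    (r : b.ring) : π ∣ r ↔ b.val (r : K) < 1 := by
  have h1 := hπ r 1
  rw [pow_one] at h1
  rw [h1]
  constructor
  · intro h
    refine lt_of_le_of_lt h ?_
    rw [← WithZero.exp_zero, WithZero.exp_lt_exp]
    simp
  · intro h
    exact Pool.Agent.Helper63.TS.RingR_lt b h

/-- A point which specialises to the origin of the chart. -/
theorem exists_chart (hR : Res π χ)
    (hπ : ∀ (r : b.ring) (n : ℕ), π ^ n ∣ r ↔ b.val (r : K) ≤ WithZero.exp (-(n : ℤ)))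
    {e : Option ι → Fin (ν + 1) → k} {B : Fin (ν + 1) → Option ι → k}
    (h₁ : ∀ a a', ∑ i, e a i * B i a' = if a = a' then 1 else 0)
    (h₂ : ∀ i i', ∑ a, B i a * e a i' = if i = i' then 1 else 0)
    {y : Fin (ν + 1) → K} (hy : Red b y (e none)) :
    ∃ (c : K) (q : ι → b.ring), c ≠ 0 ∧ (∀ i, π ∣ q i) ∧
      ∀ j, y j = c * algebraMap b.ring K (ptN (eR b e) q j) := by
  obtain ⟨h0, c0, hc0, hc⟩ := hy
  have hle : ∀ i, b.val (c0 * y i) ≤ 1 := by
    intro i
    have h3 : c0 * y i = (c0 * y i - algebraMap k K (e none i)) + algebraMap k K (e none i) := by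
      ring
    rw [h3]
    exact (b.val.map_add _ _).trans (max_le (hc i).le (b.val_algebraMap_le _))
  obtain ⟨yr, hyr⟩ : ∃ yr : Fin (ν + 1) → b.ring, ∀ i, ((yr i : b.ring) : K) = c0 * y i :=
    ⟨fun i => ⟨c0 * y i, hle i⟩, fun i => rfl⟩
  have hd : ∀ i, π ∣ yr i - eR b e none i := by
    intro i
    rw [PointN_lt hR hπ]
    have h4 : ((yr i - eR b e none i : b.ring) : K) = c0 * y i - algebraMap k K (e none i) := by
      rw [← hyr]
      rfl
    rw [h4]
    exact hc i
  obtain ⟨w, hw⟩ : ∃ w : Option ι → b.ring,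
      ∀ a, w a = ∑ i, yr i * algebraMap k b.ring (B i a) := ⟨_, fun a => rfl⟩
  have hwd : ∀ a, π ∣ w a - (if none = a then 1 else 0) := by
    intro a
    have h3 := congrArg (algebraMap k b.ring) (h₁ none a)
    rw [map_sum] at h3
    simp only [map_mul] at h3
    have h5 : w a - (if none = a then 1 else 0) =
        ∑ i, (yr i - eR b e none i) * algebraMap k b.ring (B i a) := by
      simp only [sub_mul, Finset.sum_sub_distrib]
      rw [hw a]
      congr 1
      simp only [eR]
      rw [h3]
      split_ifs <;> simp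
    rw [h5]
    exact Finset.dvd_sum fun i _ => Dvd.dvd.mul_right (hd i) _
  have hw0 : IsUnit (w none) := by
    apply hR.unif.unit
    intro h
    have h6 := hwd none
    rw [if_pos rfl] at h6
    have h7 : π ∣ 1 := by
      have h8 := dvd_sub h h6
      rwa [sub_sub_cancel] at h8
    exact hR.unif.prime.not_isUnit (isUnit_of_dvd_one h7)
  have hws : ∀ i, π ∣ w (some i) := by
    intro i
    have h6 := hwd (some i)
    rw [if_neg (by simp), sub_zero] at h6
    exact h6
  have hrec : ∀ j, yr j = ∑ a, w a * algebraMap k b.ring (e a j) := by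
    intro j
    have h7 : ∑ a, w a * algebraMap k b.ring (e a j) =
        ∑ i, yr i * ∑ a, algebraMap k b.ring (B i a) * algebraMap k b.ring (e a j) := by
      simp only [hw, Finset.sum_mul, Finset.mul_sum]
      rw [Finset.sum_comm]
      refine Finset.sum_congr rfl fun i _ => Finset.sum_congr rfl fun a _ => ?_
      ring
    rw [h7]
    have h8 : ∀ i, ∑ a, algebraMap k b.ring (B i a) * algebraMap k b.ring (e a j) =
        if i = j then 1 else 0 := by
      intro i
      have h3 := congrArg (algebraMap k b.ring) (h₂ i j)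
      rw [map_sum] at h3
      simp only [map_mul] at h3
      rw [h3]
      split_ifs <;> simp
    simp [h8]
  obtain ⟨u, hu⟩ := hw0
  refine ⟨c0⁻¹ * ((w none : b.ring) : K), fun i => w (some i) * ((u⁻¹ : (b.ring)ˣ) : b.ring),
    ?_, fun i => Dvd.dvd.mul_right (hws i) _, ?_⟩
  · refine mul_ne_zero (inv_ne_zero hc0) ?_
    intro h
    have h9 : w none = 0 := Subtype.ext h
    rw [h9] at hu
    exact u.ne_zero hu
  · intro j
    have h10 : w none * ptN (eR b e)
        (fun i => w (some i) * ((u⁻¹ : (b.ring)ˣ) : b.ring)) j = yr j := by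
      rw [hrec j, Fintype.sum_option]
      unfold ptN
      simp only [eR]
      rw [mul_add, Finset.mul_sum]
      congr 1
      refine Finset.sum_congr rfl fun i _ => ?_
      have h11 : w none * ((u⁻¹ : (b.ring)ˣ) : b.ring) = 1 := by
        rw [← hu]
        exact Units.mul_inv u
      calc w none * (w (some i) * ((u⁻¹ : (b.ring)ˣ) : b.ring) * algebraMap k b.ring (e (some i) j))
          = (w none * ((u⁻¹ : (b.ring)ˣ) : b.ring)) *
            (w (some i) * algebraMap k b.ring (e (some i) j)) := by ring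
        _ = _ := by rw [h11, one_mul]
    have h12 : ((w none : b.ring) : K) * algebraMap b.ring K (ptN (eR b e)
        (fun i => w (some i) * ((u⁻¹ : (b.ring)ˣ) : b.ring)) j) = c0 * y j := by
      rw [← hyr j, ← h10]
      rfl
    rw [mul_assoc, h12, inv_mul_cancel_left₀ hc0]

end Pool.Agent.Helper89.TNL

end

section

/-!
# Polynomials in a chart
-/

set_option autoImplicit false

namespace Pool.Agent.Helper89.TNL

open MvPolynomial

variable {ν : ℕ} {S : Type} [CommRing S] {ι : Type} [Fintype ι] [DecidableEq ι]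

theorem eval_chN (e : Option ι → Fin (ν + 1) → S) (P : MvPolynomial (Fin (ν + 1)) S)
    (q : ι → S) : eval q (chN e P) = eval (ptN e q) P := by
  unfold chN
  induction P using MvPolynomial.induction_on with
  | C a => simp
  | add p r hp hr => rw [map_add, map_add, hp, hr, map_add]
  | mul_X p i hp =>
    rw [map_mul, map_mul, hp, map_mul, aeval_X, eval_X]
    simp [ptN]

theorem coeff_chN_zero (e : Option ι → Fin (ν + 1) → S) (P : MvPolynomial (Fin (ν + 1)) S) :
    (chN e P).coeff 0 = eval (e none) P := by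
  have h1 := eval_chN e P 0
  have h2 : ptN e 0 = e none := by
    funext i
    simp [ptN]
  rw [h2] at h1
  rw [← h1, ← constantCoeff_eq]
  exact (congrArg (fun φ => φ (chN e P)) eval_zero).symm

theorem chartN_coeff_mul (a : ι) (A B : MvPolynomial ι S) :
    (A * B).coeff (Finsupp.single a 1) =
      A.coeff (Finsupp.single a 1) * B.coeff 0 + A.coeff 0 * B.coeff (Finsupp.single a 1) := by
  classical
  rw [coeff_mul, Finsupp.antidiagonal_single]
  simp [Finset.Nat.antidiagonal_succ]
  ring

theorem chartN_lin_coeff_zero (c : S) (w : ι → S) :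
    (C c + ∑ i, X i * C (w i) : MvPolynomial ι S).coeff 0 = c := by
  rw [coeff_add, coeff_sum, coeff_C, if_pos rfl, Finset.sum_eq_zero, add_zero]
  intro i _
  rw [mul_comm, coeff_C_mul]
  simp

theorem chartN_lin_coeff_single (c : S) (w : ι → S) (a : ι) :
    (C c + ∑ i, X i * C (w i) : MvPolynomial ι S).coeff (Finsupp.single a 1) = w a := by
  have z : ¬ (0 : ι →₀ ℕ) = Finsupp.single a 1 := by
    intro h
    have := DFunLike.congr_fun h a
    simp at this
  rw [coeff_add, coeff_sum, coeff_C, if_neg z, zero_add, Finset.sum_eq_single a]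
  · rw [mul_comm, coeff_C_mul, coeff_X, if_pos rfl, mul_one]
  · intro i _ hi
    rw [mul_comm, coeff_C_mul, coeff_X, if_neg, mul_zero]
    intro h
    exact hi ((Finsupp.single_left_inj one_ne_zero).1 h)
  · intro h
    exact absurd (Finset.mem_univ a) h

theorem coeff_chN_single (e : Option ι → Fin (ν + 1) → S) (P : MvPolynomial (Fin (ν + 1)) S)
    (i : ι) : (chN e P).coeff (Finsupp.single i 1) =
      ∑ j, eval (e none) (pderiv j P) * e (some i) j := by
  classical
  induction P using MvPolynomial.induction_on with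
  | C c =>
    have h1 : chN e (C c) = C c := by
      unfold chN
      rw [aeval_C, algebraMap_eq]
    rw [h1, coeff_C, if_neg (by
      intro h
      have := DFunLike.congr_fun h i
      simp at this)]
    simp
  | add p q hp hq =>
    have h1 : chN e (p + q) = chN e p + chN e q := by
      unfold chN
      rw [map_add]
    rw [h1, coeff_add, hp, hq, ← Finset.sum_add_distrib]
    refine Finset.sum_congr rfl fun j _ => ?_
    rw [map_add, map_add]
    ring
  | mul_X p m hp =>
    have h1 : chN e (p * X m) = chN e p *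
        (C (e none m) + ∑ i, X i * C (e (some i) m)) := by
      unfold chN
      rw [map_mul, aeval_X]
    rw [h1, chartN_coeff_mul, chartN_lin_coeff_zero, chartN_lin_coeff_single, hp,
      coeff_chN_zero, Finset.sum_mul]
    have h4 : eval (e none) p * e (some i) m =
        ∑ j, (if j = m then eval (e none) p * e (some i) j else 0) := by
      simp
    rw [h4, ← Finset.sum_add_distrib]
    refine Finset.sum_congr rfl fun j _ => ?_
    rw [Derivation.leibniz, map_add]
    simp only [smul_eq_mul, map_mul, eval_X]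
    by_cases hj : j = m
    · subst hj
      rw [if_pos rfl, pderiv_X_self, map_one]
      ring
    · rw [if_neg hj, pderiv_X_of_ne (Ne.symm hj), map_zero]
      ring

end Pool.Agent.Helper89.TNL

end
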