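import Pool.Agent.Helper72.TM2.T22
import Pool.Agent.Helper72.TM2.T08
import Pool.Agent.Helper72.TM2.T13
import Pool.Agent.Helper72.TM2.T14
import Pool.Agent.Helper72.TM2.T45
import Pool.Agent.Helper72.TM2.T46

section

namespace Pool.Agent.Helper16
end Pool.Agent.Helper16
namespace Pool.Agent.Helper36
end Pool.Agent.Helper36
namespace Pool.Agent.Helper38.TQ
end Pool.Agent.Helper38.TQ
namespace Pool.Agent.Helper30.TKN
end Pool.Agent.Helper30.TKN

/-!
# Curves in projective space over a function field: definitions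

`k` is an algebraically closed field, `K` a function field of one variable over `k`. Curves are
given by homogeneous prime ideals.
-/

set_option autoImplicit false

namespace Pool.Agent.Helper63.TN

open MvPolynomial

open Pool.Agent.Helper16 (Place IsFunctionField)

open Pool.Agent.Helper36 (step iter)

open Pool.Agent.Helper38.TQ

open Pool.Agent.Helper30.TKN

variable {ν : ℕ}

/-- The vector `x` with the coordinates considered as elements of `L`. -/
def inc {K : Type} (L : Type) [Field K] [Field L] [Algebra K L] (x : Fin (ν + 1) → K) :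
    Fin (ν + 1) → L :=
  fun a => algebraMap K L (x a)

section

variable {K : Type} [Field K]

/-- The point `u` over `L` is a zero of the ideal. -/
def OnI (I : Ideal (MvPolynomial (Fin (ν + 1)) K)) {L : Type} [Field L] [Algebra K L]
    (u : Fin (ν + 1) → L) : Prop :=
  u ≠ 0 ∧ ∀ G ∈ I, aeval u G = 0

/-- `I` is a homogeneous prime ideal, and its zero set has dimension at most one. -/
structure IsCurve (I : Ideal (MvPolynomial (Fin (ν + 1)) K)) : Prop where
  prime : I.IsPrime
  hom : ∀ G ∈ I, ∀ m, homogeneousComponent m G ∈ I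
  fin : ∃ (l₀ l₁ : Fin (ν + 1) → K) (s : ℕ), ∀ i, (X i ^ s : MvPolynomial (Fin (ν + 1)) K) ∈
    I ⊔ Ideal.span {∑ j, C (l₀ j) * X j, ∑ j, C (l₁ j) * X j}

/-- The polynomial `G` composed with the `N`-th iterate of `F`. -/
noncomputable def pull (F : Fin (ν + 1) → MvPolynomial (Fin (ν + 1)) K) (N : ℕ)
    (G : MvPolynomial (Fin (ν + 1)) K) : MvPolynomial (Fin (ν + 1)) K :=
  (fun P => aeval F P)^[N] G

/-- The curve is not periodic. -/
def NonPer (I : Ideal (MvPolynomial (Fin (ν + 1)) K))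
    (F : Fin (ν + 1) → MvPolynomial (Fin (ν + 1)) K) : Prop :=
  ∀ N, 0 < N → ∃ h ∈ I, ∃ e, h.IsHomogeneous e ∧ pull F N h ∉ I

/-- The point `w` over `L` is periodic. -/
def IsPer (F : Fin (ν + 1) → MvPolynomial (Fin (ν + 1)) K) {L : Type} [Field L] [Algebra K L]
    (w : Fin (ν + 1) → L) : Prop :=
  ∃ M : ℕ, 0 < M ∧ ∃ γ : L, iter F w M = γ • w

end

section

variable {k K : Type} [Field k] [Field K] [Algebra k K]

/-- The place `v` of the extension `L` is above the place `b`. -/
def Above {L : Type} [Field L] [Algebra k L] [Algebra K L] (v : Place k L) (b : Place k K) : Prop :=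
  ∃ e : ℕ, 0 < e ∧ ∀ a : K, v.val (algebraMap K L a) = b.val a ^ e

/-- There is a point `w` of the curve near `z` with the property `R`, over an extension with the
same value group. -/
def NearPt (I : Ideal (MvPolynomial (Fin (ν + 1)) K)) (b : Place k K) (z : Fin (ν + 1) → k)
    (R : ∀ (L : Type) [Field L] [Algebra K L], (Fin (ν + 1) → L) → Prop) : Prop :=
  ∃ (L : Type) (_ : Field L) (_ : Algebra k L) (_ : Algebra K L) (_ : IsScalarTower k K L)
    (v : Place k L) (w : Fin (ν + 1) → L), (∀ a : K, v.val (algebraMap K L a) = b.val a) ∧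
      OnI I w ∧ Red v w z ∧ R L w

end

/-- A point of projective space with coordinates in a finite extension of `K`. -/
structure FinPt (ν : ℕ) (k K : Type) [Field k] [Field K] [Algebra k K] where
  /-- the field -/
  L : Type
  [fld : Field L]
  [algk : Algebra k L]
  [alg : Algebra K L]
  [tow : IsScalarTower k K L]
  [fin : FiniteDimensional K L]
  /-- the coordinates -/
  y : Fin (ν + 1) → L
  ne : y ≠ 0

attribute [instance] FinPt.fld FinPt.algk FinPt.alg FinPt.tow FinPt.fin

/-- The point `u` over `K'` is a multiple of a conjugate of the point `A`. -/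
def Conj {k K : Type} [Field k] [Field K] [Algebra k K] (A : FinPt ν k K) {K' : Type} [Field K']
    [Algebra K K'] (u : Fin (ν + 1) → K') : Prop :=
  ∃ (σ : A.L →ₐ[K] K') (c : K'), c ≠ 0 ∧ u = fun i => c * σ (A.y i)

/-- The curve contains arbitrarily many periodic points. -/
def ManyPer (k : Type) {K : Type} [Field k] [Field K] [Algebra k K]
    (I : Ideal (MvPolynomial (Fin (ν + 1)) K))
    (F : Fin (ν + 1) → MvPolynomial (Fin (ν + 1)) K) : Prop :=
  ∀ s : ℕ, ∃ (L : Type) (_ : Field L) (_ : Algebra k L) (_ : Algebra K L)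
    (_ : IsScalarTower k K L) (_ : FiniteDimensional K L) (w : Fin s → Fin (ν + 1) → L),
    (∀ j, OnI I (w j) ∧ IsPer F (w j)) ∧ ∀ i j, i ≠ j → ¬ PEq (w i) (w j)

end Pool.Agent.Helper63.TN

end

section

namespace Pool.Agent.Helper16
end Pool.Agent.Helper16
namespace Pool.Agent.Helper36
end Pool.Agent.Helper36
namespace Pool.Agent.Helper38.TQ
end Pool.Agent.Helper38.TQ
namespace Pool.Agent.Helper30.TKN
end Pool.Agent.Helper30.TKN

/-!
# Curves swept out by sequences of points: definitions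
-/

set_option autoImplicit false

namespace Pool.Agent.Helper63.TN

open MvPolynomial

open Pool.Agent.Helper16 (Place IsFunctionField)

open Pool.Agent.Helper36 (step iter)

open Pool.Agent.Helper38.TQ

open Pool.Agent.Helper30.TKN

variable {ν : ℕ} {k K : Type} [Field k] [Field K] [Algebra k K]

/-- The ideal of all polynomials which vanish at all multiples of `x n`, for `U`-many `n`. -/
def van (U : Ultrafilter ℕ) (x : ℕ → Fin (ν + 1) → K) : Ideal (MvPolynomial (Fin (ν + 1)) K) where
  carrier := {G | ∀ᶠ n in (U : Filter ℕ), ∀ c : K, eval (c • x n) G = 0}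
  add_mem' := by
    intro a b ha hb
    filter_upwards [ha, hb] with n h1 h2 c
    rw [map_add, h1 c, h2 c, add_zero]
  zero_mem' := Filter.Eventually.of_forall fun n c => map_zero _
  smul_mem' := by
    intro g a ha
    filter_upwards [ha] with n h1 c
    rw [smul_eq_mul, map_mul, h1 c, mul_zero]

/-- Any three linear forms satisfy a homogeneous relation modulo the ideal. -/
def Rel3 (I : Ideal (MvPolynomial (Fin (ν + 1)) K)) : Prop :=
  ∀ m : Fin 3 → Fin (ν + 1) → K, ∃ (P : MvPolynomial (Fin 3) K) (e : ℕ), P.IsHomogeneous e ∧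
    P ≠ 0 ∧ aeval (fun j => ∑ i, C (m j i) * X i : Fin 3 → MvPolynomial (Fin (ν + 1)) K) P ∈ I

/-- The place `v` of `L` extends `b` with the same value group. -/
def Ext {L : Type} [Field L] [Algebra k L] [Algebra K L] (v : Place k L) (b : Place k K) : Prop :=
  ∀ a : K, v.val (algebraMap K L a) = b.val a

end Pool.Agent.Helper63.TN

end

section

/-!
# Binary forms modulo the ideal of a curve and a form
-/

set_option autoImplicit false

namespace Pool.Agent.Helper63.TN

open MvPolynomial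

variable {ν : ℕ} {K : Type} [Field K]

/-- Binary forms in two coordinates. -/
theorem exists_binary {I : Ideal (MvPolynomial (Fin (ν + 1)) K)} (hI : IsCurve I)
    {Q : MvPolynomial (Fin (ν + 1)) K} {m : ℕ} (hQ : Q.IsHomogeneous m) (hQI : Q ∉ I)
    (a p : Fin (ν + 1)) :
    ∃ (n : ℕ) (ρ : MvPolynomial (Fin 2) K), ρ.IsHomogeneous n ∧ ρ ≠ 0 ∧
      aeval (![X a, X p] : Fin 2 → MvPolynomial (Fin (ν + 1)) K) ρ ∈ I ⊔ Ideal.span {Q} := by
  classical
  obtain ⟨ρ, n, h0, h1, h2⟩ := Pool.Agent.Helper89.TNL.zeroDim hI.prime hI.hom hI.fin hQ hQI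
    (Pi.single a 1) (Pi.single p 1)
  have h3 : ∀ a : Fin (ν + 1), (∑ j, C ((Pi.single a (1 : K) : Fin (ν + 1) → K) j) * X j :
      MvPolynomial (Fin (ν + 1)) K) = X a := by
    intro a
    rw [Finset.sum_eq_single a]
    · rw [Pi.single_eq_same, C_1, one_mul]
    · intro j _ hj
      rw [Pi.single_eq_of_ne hj, C_0, zero_mul]
    · intro h
      exact absurd (Finset.mem_univ a) h
  rw [h3, h3] at h2
  exact ⟨n, ρ, h1, h0, h2⟩

end Pool.Agent.Helper63.TN

end

section

namespace Pool.Agent.Helper16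
end Pool.Agent.Helper16
namespace Pool.Agent.Helper36
end Pool.Agent.Helper36
namespace Pool.Agent.Helper38.TQ
end Pool.Agent.Helper38.TQ
namespace Pool.Agent.Helper30.TKN
end Pool.Agent.Helper30.TKN

/-!
# The zeros of a form on a curve
-/

set_option autoImplicit false

namespace Pool.Agent.Helper63.TN

open MvPolynomial

open Pool.Agent.Helper16 (Place IsFunctionField)

open Pool.Agent.Helper36 (step iter)

open Pool.Agent.Helper38.TQ

open Pool.Agent.Helper30.TKN

variable {ν : ℕ} {k K : Type} [Field k] [Field K] [Algebra k K]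

/-- Dehomogenization is injective on binary forms. -/
theorem Zeros_dehom {ρ : MvPolynomial (Fin 2) K} {m : ℕ} (hρ : ρ.IsHomogeneous m) (h0 : ρ ≠ 0) :
    (aeval ![Polynomial.X, 1] ρ : Polynomial K) ≠ 0 := by
  intro hf
  apply h0
  let E := FractionRing (MvPolynomial (Fin 2) K)
  have hinj : Function.Injective (algebraMap (MvPolynomial (Fin 2) K) E) :=
    IsFractionRing.injective _ _
  have hv : algebraMap (MvPolynomial (Fin 2) K) E (X 1) ≠ 0 := by
    rw [Ne, map_eq_zero_iff _ hinj]
    exact X_ne_zero 1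
  set u : Fin 2 → E := fun i => algebraMap (MvPolynomial (Fin 2) K) E (X i) with hu
  have h1 : aeval (u 1 • (![u 0 / u 1, 1] : Fin 2 → E)) ρ = u 1 ^ m * aeval ![u 0 / u 1, 1] ρ :=
    Pool.Agent.Helper36.aeval_smul_homogeneous hρ _ _
  have h2 : (u 1 • (![u 0 / u 1, 1] : Fin 2 → E)) = u := by
    funext i
    fin_cases i
    · change u 1 * (u 0 / u 1) = u 0
      exact mul_div_cancel₀ _ hv
    · change u 1 * 1 = u 1
      rw [mul_one]
  have h3 : aeval u ρ = algebraMap (MvPolynomial (Fin 2) K) E ρ := by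
    have h4 : (aeval u : MvPolynomial (Fin 2) K →ₐ[K] E) =
        IsScalarTower.toAlgHom K (MvPolynomial (Fin 2) K) E := by
      refine algHom_ext fun i => ?_
      rw [aeval_X]
      rfl
    rw [h4]
    rfl
  have h5 : (aeval (![u 0 / u 1, 1] : Fin 2 → E) ρ : E) =
      Polynomial.aeval (u 0 / u 1) (aeval ![Polynomial.X, 1] ρ : Polynomial K) := by
    have h6 : (aeval (![u 0 / u 1, 1] : Fin 2 → E) : MvPolynomial (Fin 2) K →ₐ[K] E) =
        (Polynomial.aeval (u 0 / u 1)).comp
          (aeval ![Polynomial.X, 1] : MvPolynomial (Fin 2) K →ₐ[K] Polynomial K) := by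
      refine algHom_ext fun i => ?_
      rw [AlgHom.comp_apply, aeval_X, aeval_X]
      fin_cases i
      · simp
      · simp
    rw [h6]
    rfl
  rw [h2, h3, h5, hf, map_zero, mul_zero] at h1
  exact (map_eq_zero_iff _ hinj).1 h1

/-- The ideal of the zeros of `Q` in the chart `X p = 1`. -/
noncomputable def ZerosJ (I : Ideal (MvPolynomial (Fin (ν + 1)) K)) (Q : MvPolynomial (Fin (ν + 1)) K)
    (p : Fin (ν + 1)) : Ideal (MvPolynomial (Fin (ν + 1)) K) :=
  I ⊔ Ideal.span {Q} ⊔ Ideal.span {X p - 1}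

theorem Zeros_fd {I : Ideal (MvPolynomial (Fin (ν + 1)) K)} (hI : IsCurve I)
    {Q : MvPolynomial (Fin (ν + 1)) K} {m : ℕ} (hQ : Q.IsHomogeneous m) (hQI : Q ∉ I)
    (p : Fin (ν + 1)) : FiniteDimensional K (MvPolynomial (Fin (ν + 1)) K ⧸ ZerosJ I Q p) := by
  classical
  set J := ZerosJ I Q p with hJ
  have hp1 : Ideal.Quotient.mk J (X p) = 1 := by
    rw [← sub_eq_zero, ← map_one (Ideal.Quotient.mk J), ← map_sub]
    exact Ideal.Quotient.eq_zero_iff_mem.2
      (Ideal.mem_sup_right (Ideal.mem_span_singleton_self _))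
  have hint : ∀ i, IsIntegral K (Ideal.Quotient.mk J (X i)) := by
    intro i
    obtain ⟨e, ρ, hρh, hρ0, hρ⟩ := exists_binary hI hQ hQI i p
    have h1 : Ideal.Quotient.mkₐ K J (aeval ![X i, X p] ρ) = 0 := by
      exact Ideal.Quotient.eq_zero_iff_mem.2 (Ideal.mem_sup_left hρ)
    have h2 : (Ideal.Quotient.mkₐ K J).comp
        (aeval ![X i, X p] : MvPolynomial (Fin 2) K →ₐ[K] MvPolynomial (Fin (ν + 1)) K) =
        (Polynomial.aeval (Ideal.Quotient.mk J (X i))).comp
          (aeval ![Polynomial.X, 1] : MvPolynomial (Fin 2) K →ₐ[K] Polynomial K) := by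
      refine algHom_ext fun j => ?_
      rw [AlgHom.comp_apply, AlgHom.comp_apply, aeval_X, aeval_X]
      fin_cases j
      · simp
      · simpa using hp1
    have h3 := DFunLike.congr_fun h2 ρ
    rw [AlgHom.comp_apply, h1, AlgHom.comp_apply] at h3
    rw [← isAlgebraic_iff_isIntegral]
    exact ⟨_, Zeros_dehom hρh hρ0, h3.symm⟩
  have htop : Algebra.adjoin K (Set.range fun i => Ideal.Quotient.mk J (X i)) = ⊤ := by
    rw [Algebra.adjoin_range_eq_range_aeval, AlgHom.range_eq_top]
    intro a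
    obtain ⟨P, rfl⟩ := Ideal.Quotient.mk_surjective a
    refine ⟨P, ?_⟩
    have h4 : (aeval fun i => Ideal.Quotient.mk J (X i) :
        MvPolynomial (Fin (ν + 1)) K →ₐ[K] MvPolynomial (Fin (ν + 1)) K ⧸ J) =
        Ideal.Quotient.mkₐ K J := by
      refine algHom_ext fun i => ?_
      rw [aeval_X]
      rfl
    rw [h4]
    rfl
  have hfg := fg_adjoin_of_finite (R := K)
    (Set.finite_range fun i => Ideal.Quotient.mk J (X i)) (by
      rintro x ⟨i, rfl⟩
      exact hint i)
  rw [htop] at hfg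
  exact ⟨by simpa using hfg⟩

/-- The point over the residue field of a maximal ideal of a chart. -/
noncomputable def Zeros_pt (k : Type) {K : Type} [Field k] [Field K] [Algebra k K]
    (J : Ideal (MvPolynomial (Fin (ν + 1)) K))
    [FiniteDimensional K (MvPolynomial (Fin (ν + 1)) K ⧸ J)] (p : Fin (ν + 1)) (hp : X p - 1 ∈ J)
    (m : MaximalSpectrum (MvPolynomial (Fin (ν + 1)) K ⧸ J)) : FinPt ν k K :=
  haveI := m.isMaximal
  letI : Field ((MvPolynomial (Fin (ν + 1)) K ⧸ J) ⧸ m.asIdeal) := Ideal.Quotient.field m.asIdeal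
  letI : Algebra k ((MvPolynomial (Fin (ν + 1)) K ⧸ J) ⧸ m.asIdeal) :=
    ((algebraMap K ((MvPolynomial (Fin (ν + 1)) K ⧸ J) ⧸ m.asIdeal)).comp
      (algebraMap k K)).toAlgebra
  { L := (MvPolynomial (Fin (ν + 1)) K ⧸ J) ⧸ m.asIdeal
    fld := inferInstance
    algk := inferInstance
    alg := inferInstance
    tow := IsScalarTower.of_algebraMap_eq fun _ => rfl
    fin := inferInstance
    y := fun i => Ideal.Quotient.mk m.asIdeal (Ideal.Quotient.mk J (X i))
    ne := by
      intro h
      have h1 := congrFun h p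
      have h2 : Ideal.Quotient.mk J (X p) = 1 := by
        rw [← sub_eq_zero, ← map_one (Ideal.Quotient.mk J), ← map_sub]
        exact Ideal.Quotient.eq_zero_iff_mem.2 hp
      rw [h2, map_one] at h1
      exact one_ne_zero h1 }

theorem Zeros_pt_one (k : Type) {K : Type} [Field k] [Field K] [Algebra k K]
    (J : Ideal (MvPolynomial (Fin (ν + 1)) K))
    [FiniteDimensional K (MvPolynomial (Fin (ν + 1)) K ⧸ J)] (p : Fin (ν + 1)) (hp : X p - 1 ∈ J)
    (m : MaximalSpectrum (MvPolynomial (Fin (ν + 1)) K ⧸ J)) : (Zeros_pt k J p hp m).y p = 1 := by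
  have h2 : Ideal.Quotient.mk J (X p) = 1 := by
    rw [← sub_eq_zero, ← map_one (Ideal.Quotient.mk J), ← map_sub]
    exact Ideal.Quotient.eq_zero_iff_mem.2 hp
  change Ideal.Quotient.mk m.asIdeal (Ideal.Quotient.mk J (X p)) = 1
  rw [h2, map_one]

/-- The evaluation at the point. -/
theorem Zeros_pt_aeval (k : Type) {K : Type} [Field k] [Field K] [Algebra k K]
    (J : Ideal (MvPolynomial (Fin (ν + 1)) K))
    [FiniteDimensional K (MvPolynomial (Fin (ν + 1)) K ⧸ J)] (p : Fin (ν + 1)) (hp : X p - 1 ∈ J)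
    (m : MaximalSpectrum (MvPolynomial (Fin (ν + 1)) K ⧸ J))
    (P : MvPolynomial (Fin (ν + 1)) K) :
    aeval (Zeros_pt k J p hp m).y P =
      (show (Zeros_pt k J p hp m).L from
        Ideal.Quotient.mk m.asIdeal (Ideal.Quotient.mk J P)) := by
  have := m.isMaximal
  have h1 : (aeval (Zeros_pt k J p hp m).y :
      MvPolynomial (Fin (ν + 1)) K →ₐ[K] (Zeros_pt k J p hp m).L) =
      (Ideal.Quotient.mkₐ K m.asIdeal).comp (Ideal.Quotient.mkₐ K J) := by
    refine algHom_ext fun i => ?_
    rw [aeval_X]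
    rfl
  rw [h1]
  rfl

/-- The zeros of a form on the curve: finitely many closed points. -/
theorem exists_zeros {I : Ideal (MvPolynomial (Fin (ν + 1)) K)} (hI : IsCurve I)
    {Q : MvPolynomial (Fin (ν + 1)) K} {m : ℕ} (hQ : Q.IsHomogeneous m) (hQI : Q ∉ I) :
    ∃ (s : ℕ) (A : Fin s → FinPt ν k K),
      (∀ j, OnI I (A j).y ∧ aeval (A j).y Q = 0 ∧ (∃ p, (A j).y p = 1) ∧
        Algebra.adjoin K (Set.range (A j).y) = ⊤) ∧
      ∀ (K' : Type) [Field K'] [Algebra K K'] (u : Fin (ν + 1) → K'), OnI I u →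
        aeval u Q = 0 → ∃ j, Conj (A j) u := by
  classical
  have hmem : ∀ p, X p - 1 ∈ ZerosJ I Q p := fun p =>
    Ideal.mem_sup_right (Ideal.mem_span_singleton_self _)
  have hfd : ∀ p, FiniteDimensional K (MvPolynomial (Fin (ν + 1)) K ⧸ ZerosJ I Q p) := fun p =>
    Zeros_fd hI hQ hQI p
  have hart : ∀ p, IsArtinianRing (MvPolynomial (Fin (ν + 1)) K ⧸ ZerosJ I Q p) := fun p =>
    IsArtinianRing.of_finite K _
  have hft : ∀ p, Finite (MaximalSpectrum (MvPolynomial (Fin (ν + 1)) K ⧸ ZerosJ I Q p)) :=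
    fun p => inferInstance
  let _ : Fintype (Σ p : Fin (ν + 1),
      MaximalSpectrum (MvPolynomial (Fin (ν + 1)) K ⧸ ZerosJ I Q p)) := Fintype.ofFinite _
  let e := Fintype.equivFin (Σ p : Fin (ν + 1),
    MaximalSpectrum (MvPolynomial (Fin (ν + 1)) K ⧸ ZerosJ I Q p))
  have hprop : ∀ q : Σ p : Fin (ν + 1),
      MaximalSpectrum (MvPolynomial (Fin (ν + 1)) K ⧸ ZerosJ I Q p),
      OnI I (Zeros_pt k (ZerosJ I Q q.1) q.1 (hmem _) q.2).y ∧
      aeval (Zeros_pt k (ZerosJ I Q q.1) q.1 (hmem _) q.2).y Q = 0 ∧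
      (∃ p, (Zeros_pt k (ZerosJ I Q q.1) q.1 (hmem _) q.2).y p = 1) ∧
      Algebra.adjoin K (Set.range (Zeros_pt k (ZerosJ I Q q.1) q.1 (hmem _) q.2).y) = ⊤ := by
    rintro ⟨p, 𝔪⟩
    have hz : ∀ G ∈ ZerosJ I Q p, aeval (Zeros_pt k (ZerosJ I Q p) p (hmem p) 𝔪).y G = 0 := by
      intro G hG
      rw [Zeros_pt_aeval]
      change Ideal.Quotient.mk 𝔪.asIdeal (Ideal.Quotient.mk (ZerosJ I Q p) G) = 0
      rw [Ideal.Quotient.eq_zero_iff_mem.2 hG, map_zero]
    refine ⟨⟨(Zeros_pt k (ZerosJ I Q p) p (hmem p) 𝔪).ne, fun G hG => ?_⟩, ?_, ⟨p, ?_⟩, ?_⟩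
    · exact hz G (Ideal.mem_sup_left (Ideal.mem_sup_left hG))
    · exact hz Q (Ideal.mem_sup_left (Ideal.mem_sup_right (Ideal.mem_span_singleton_self _)))
    · exact Zeros_pt_one k _ p (hmem p) 𝔪
    · rw [Algebra.adjoin_range_eq_range_aeval, AlgHom.range_eq_top]
      intro a
      obtain ⟨b, rfl⟩ := Ideal.Quotient.mk_surjective (I := 𝔪.asIdeal) a
      obtain ⟨P, rfl⟩ := Ideal.Quotient.mk_surjective b
      exact ⟨P, Zeros_pt_aeval k _ p (hmem p) 𝔪 P⟩
  refine ⟨Fintype.card (Σ p : Fin (ν + 1),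
      MaximalSpectrum (MvPolynomial (Fin (ν + 1)) K ⧸ ZerosJ I Q p)),
    fun j => Zeros_pt k (ZerosJ I Q (e.symm j).1) (e.symm j).1 (hmem _) (e.symm j).2,
    fun j => hprop (e.symm j), ?_⟩
  · intro K' _ _ u hu huQ
    obtain ⟨p, hp⟩ : ∃ p, u p ≠ 0 := by
      by_contra hcon
      push Not at hcon
      exact hu.1 (funext hcon)
    let φ : MvPolynomial (Fin (ν + 1)) K →ₐ[K] K' := aeval fun i => u i / u p
    have hφ : ∀ {q : MvPolynomial (Fin (ν + 1)) K} {n : ℕ}, q.IsHomogeneous n → aeval u q = 0 →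
        φ q = 0 := by
      intro q n hq h0
      have h1 : (fun i => u i / u p) = (u p)⁻¹ • u := by
        funext i
        rw [Pi.smul_apply, smul_eq_mul, div_eq_inv_mul]
      have h2 : φ q = (u p)⁻¹ ^ n * aeval u q := by
        change aeval (fun i => u i / u p) q = _
        rw [h1]
        exact Pool.Agent.Helper36.aeval_smul_homogeneous hq _ _
      rw [h2, h0, mul_zero]
    have hφI : ∀ x ∈ ZerosJ I Q p, φ x = 0 := by
      have h1 : ZerosJ I Q p ≤ RingHom.ker φ.toRingHom := by
        refine sup_le (sup_le ?_ ?_) ?_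
        · intro G hG
          change φ G = 0
          rw [← sum_homogeneousComponent G, map_sum]
          refine Finset.sum_eq_zero fun n _ => ?_
          exact hφ (homogeneousComponent_isHomogeneous n G) (hu.2 _ (hI.hom G hG n))
        · rw [Ideal.span_le]
          rintro x rfl
          exact hφ hQ huQ
        · rw [Ideal.span_le]
          rintro x rfl
          change φ (X p - 1) = 0
          rw [map_sub, map_one, aeval_X, div_self hp, sub_self]
      exact fun x hx => h1 hx
    let ψ : (MvPolynomial (Fin (ν + 1)) K ⧸ ZerosJ I Q p) →ₐ[K] K' :=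
      Ideal.Quotient.liftₐ (ZerosJ I Q p) φ hφI
    have : (RingHom.ker ψ.toRingHom).IsPrime := RingHom.ker_isPrime _
    let 𝔪 : MaximalSpectrum (MvPolynomial (Fin (ν + 1)) K ⧸ ZerosJ I Q p) :=
      ⟨RingHom.ker ψ.toRingHom, IsArtinianRing.isMaximal_of_isPrime _⟩
    let q : Σ p : Fin (ν + 1), MaximalSpectrum (MvPolynomial (Fin (ν + 1)) K ⧸ ZerosJ I Q p) :=
      ⟨p, 𝔪⟩
    have key : Conj (Zeros_pt k (ZerosJ I Q q.1) q.1 (hmem _) q.2) u := by
      refine ⟨Ideal.Quotient.liftₐ 𝔪.asIdeal ψ fun x hx => hx, u p, hp, ?_⟩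
      funext i
      have h3 : (Ideal.Quotient.liftₐ 𝔪.asIdeal ψ fun x hx => hx)
          (Ideal.Quotient.mk 𝔪.asIdeal (Ideal.Quotient.mk (ZerosJ I Q p) (X i))) = u i / u p := by
        change φ (X i) = u i / u p
        exact aeval_X _ i
      change u i = u p * (Ideal.Quotient.liftₐ 𝔪.asIdeal ψ fun x hx => hx)
          (Ideal.Quotient.mk 𝔪.asIdeal (Ideal.Quotient.mk (ZerosJ I Q p) (X i)))
      rw [h3, mul_div_cancel₀ _ hp]
    have h4 : e.symm (e q) = q := e.symm_apply_apply q
    refine ⟨e q, ?_⟩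
    rw [← h4] at key
    exact key

/-- A form outside the ideal has finitely many zeros in a sequence of distinct points. -/
theorem zeros_finite {I : Ideal (MvPolynomial (Fin (ν + 1)) K)} (hI : IsCurve I)
    {Q : MvPolynomial (Fin (ν + 1)) K} {m : ℕ} (hQ : Q.IsHomogeneous m) (hQI : Q ∉ I)
    {L : Type} [Field L] [Algebra K L] (x : ℕ → Fin (ν + 1) → L)
    (hx : ∀ n n', n ≠ n' → ¬ PEq (x n) (x n')) :
    {n | OnI I (x n) ∧ aeval (x n) Q = 0}.Finite := by
  classical
  obtain ⟨s, A, -, hA⟩ := exists_zeros (k := K) hI hQ hQI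
  have h1 : ∀ n : {n | OnI I (x n) ∧ aeval (x n) Q = 0}, ∃ (q : Σ j : Fin s, (A j).L →ₐ[K] L)
      (c : L), c ≠ 0 ∧ x n = fun i => c * q.2 ((A q.1).y i) := by
    rintro ⟨n, hn, hn'⟩
    obtain ⟨j, σ, c, hc, h⟩ := hA L (x n) hn hn'
    exact ⟨⟨j, σ⟩, c, hc, h⟩
  choose q c hc hq using h1
  have : Finite (Σ j : Fin s, (A j).L →ₐ[K] L) := inferInstance
  rw [← Set.finite_coe_iff]
  refine Finite.of_injective q ?_
  intro n n' hnn
  by_contra hne
  have hne' : (n : ℕ) ≠ n' := fun h => hne (Subtype.ext h)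
  apply hx n n' hne'
  refine ⟨c n' * (c n)⁻¹, mul_ne_zero (hc n') (inv_ne_zero (hc n)), ?_⟩
  rw [hq n, hq n', hnn]
  funext i
  rw [Pi.smul_apply, smul_eq_mul]
  rw [mul_assoc, inv_mul_cancel_left₀ (hc n)]

end Pool.Agent.Helper63.TN

end

section

namespace Pool.Agent.Helper16
end Pool.Agent.Helper16
namespace Pool.Agent.Helper36
end Pool.Agent.Helper36
namespace Pool.Agent.Helper38.TQ
end Pool.Agent.Helper38.TQ
namespace Pool.Agent.Helper30.TKN
end Pool.Agent.Helper30.TKN
namespace Pool.Agent.Helper63.TN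
end Pool.Agent.Helper63.TN

set_option autoImplicit false

namespace Pool.Agent.Helper89.TNL

open MvPolynomial

open Pool.Agent.Helper16 (Place IsFunctionField)

open Pool.Agent.Helper36 (step iter iter_zero iter_succ iter_succ' iter_add)

open Pool.Agent.Helper38.TQ

open Pool.Agent.Helper30.TKN

open Pool.Agent.Helper63.TN (OnI IsCurve NonPer NearPt IsPer pull)

variable {ν : ℕ}

/-- A class modulo `Q` with infinitely many elements. -/
theorem Place_class {S : Set ℕ} (hS : S.Infinite) {Q : ℕ} (hQ : 0 < Q) :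
    ∃ r, {s | r + Q * s ∈ S}.Infinite := by
  by_contra hcon
  push Not at hcon
  refine hS (Set.Finite.subset (s := ⋃ r ∈ Finset.range Q, (fun s => r + Q * s) ''
    {s | r + Q * s ∈ S}) ?_ ?_)
  · refine Set.Finite.biUnion (Finset.finite_toSet _) fun r _ => ?_
    exact (Set.not_infinite.1 (by simpa using hcon r)).image _
  · intro j hj
    simp only [Set.mem_iUnion]
    refine ⟨j % Q, Finset.mem_range.2 (Nat.mod_lt _ hQ), j / Q, ?_, Nat.mod_add_div j Q⟩
    show j % Q + Q * (j / Q) ∈ S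
    rw [Nat.mod_add_div]
    exact hj

/-- Finitely many homogeneous generators. -/
theorem Place_gens {K : Type} [Field K] {I : Ideal (MvPolynomial (Fin (ν + 1)) K)}
    (hI : ∀ G ∈ I, ∀ m, homogeneousComponent m G ∈ I) :
    ∃ (σ : Type) (_ : Finite σ) (h : σ → MvPolynomial (Fin (ν + 1)) K) (n : σ → ℕ),
      (∀ i, (h i).IsHomogeneous (n i)) ∧ (∀ i, h i ∈ I) ∧ Ideal.span (Set.range h) = I := by
  classical
  obtain ⟨S, hS⟩ := (isNoetherianRing_iff_ideal_fg _).1
    (inferInstance : IsNoetherianRing (MvPolynomial (Fin (ν + 1)) K)) I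
  set D := S.sup totalDegree with hD
  refine ⟨{x // x ∈ S ×ˢ Finset.range (D + 1)}, inferInstance,
    fun x => homogeneousComponent x.1.2 x.1.1, fun x => x.1.2, fun x =>
      homogeneousComponent_isHomogeneous _ _, fun x => ?_, le_antisymm ?_ ?_⟩
  · refine hI _ ?_ _
    rw [← hS]
    exact Ideal.subset_span (Finset.mem_product.1 x.2).1
  · rw [Ideal.span_le]
    rintro _ ⟨x, rfl⟩
    refine hI _ ?_ _
    rw [← hS]
    exact Ideal.subset_span (Finset.mem_product.1 x.2).1
  · rw [← hS, Ideal.span_le]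
    intro g hg
    have h1 : g = ∑ i ∈ Finset.range (g.totalDegree + 1), homogeneousComponent i g :=
      (sum_homogeneousComponent g).symm
    rw [SetLike.mem_coe, h1]
    refine Ideal.sum_mem _ fun i hi => ?_
    have hi1 : i < g.totalDegree + 1 := Finset.mem_range.1 hi
    have hi2 : g.totalDegree ≤ D := Finset.le_sup (f := totalDegree) hg
    exact Ideal.subset_span ⟨⟨(g, i), Finset.mem_product.2 ⟨hg, Finset.mem_range.2 (by omega)⟩⟩, rfl⟩

/-- The value of the polynomials which define the iterates at points over an extension. -/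
theorem Place_aeval_pull {K : Type} [Field K] (F : Fin (ν + 1) → MvPolynomial (Fin (ν + 1)) K)
    {L : Type} [Field L] [Algebra K L] (w : Fin (ν + 1) → L) (N : ℕ)
    (P : MvPolynomial (Fin (ν + 1)) K) : aeval w (pull F N P) = aeval (iter F w N) P := by
  have h1 : ∀ (Q : MvPolynomial (Fin (ν + 1)) K) (y : Fin (ν + 1) → L),
      aeval y (aeval F Q) = aeval (step F y) Q := by
    intro Q y
    rw [comp_aeval_apply]
    rfl
  unfold pull
  induction N generalizing P with
  | zero => rfl
  | succ N ih => rw [Function.iterate_succ_apply, ih, h1, iter_succ]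

theorem Place_aeval_itN {K : Type} [Field K] (F : Fin (ν + 1) → MvPolynomial (Fin (ν + 1)) K)
    {L : Type} [Field L] [Algebra K L] (w : Fin (ν + 1) → L) (N : ℕ) (i : Fin (ν + 1)) :
    aeval w (itN F N i) = iter F w N i := by
  have h1 := Place_aeval_pull F w N (X i)
  rw [aeval_X] at h1
  exact h1

/-- The polynomials which define the iterates, composed with a polynomial. -/
theorem Place_pull {K : Type} [Field K] (F : Fin (ν + 1) → MvPolynomial (Fin (ν + 1)) K) (N : ℕ)
    (P : MvPolynomial (Fin (ν + 1)) K) : pull F N P = aeval (itN F N) P := by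
  unfold pull
  induction N with
  | zero =>
    have h1 : itN F 0 = (X : Fin (ν + 1) → MvPolynomial (Fin (ν + 1)) K) := rfl
    rw [h1, aeval_X_left, AlgHom.id_apply]
    rfl
  | succ N ih =>
    have h1 : itN F (N + 1) =
        fun i => (aeval F : _ →ₐ[K] MvPolynomial (Fin (ν + 1)) K) (itN F N i) := by
      funext i
      unfold itN
      rw [Function.iterate_succ_apply']
    rw [Function.iterate_succ_apply', ih, h1, comp_aeval_apply]

theorem Place_pull_hom {K : Type} [Field K] {d : ℕ}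
    {F : Fin (ν + 1) → MvPolynomial (Fin (ν + 1)) K} (hF : ∀ i, (F i).IsHomogeneous d)
    {P : MvPolynomial (Fin (ν + 1)) K} {e : ℕ} (hP : P.IsHomogeneous e) (N : ℕ) :
    (pull F N P).IsHomogeneous (d ^ N * e) := by
  rw [Place_pull]
  exact hP.aeval _ (itN_hom hF N)

section place

variable {k K : Type} [Field k] [Field K] [Algebra k K] {b : Place k K}

/-- Scaling the reduction. -/
theorem Place_red_smul {y : Fin (ν + 1) → K} {z : Fin (ν + 1) → k} (h : Red b y z) {c : k}
    (hc : c ≠ 0) : Red b y (c • z) := by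
  obtain ⟨hz, a, ha, h1⟩ := h
  refine ⟨smul_ne_zero hc hz, algebraMap k K c * a,
    mul_ne_zero ((map_ne_zero_iff _ (algebraMap k K).injective).2 hc) ha, fun i => ?_⟩
  have h2 : algebraMap k K c * a * y i - algebraMap k K ((c • z) i) =
      algebraMap k K c * (a * y i - algebraMap k K (z i)) := by
    rw [Pi.smul_apply, smul_eq_mul, map_mul]
    ring
  rw [h2, map_mul, b.triv c hc, one_mul]
  exact h1 i

theorem Place_red_peq {y : Fin (ν + 1) → K} {z z' : Fin (ν + 1) → k} (h : Red b y z)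
    (hz : PEq z z') : Red b y z' := by
  obtain ⟨c, hc, rfl⟩ := hz
  exact Place_red_smul h hc

/-- Multiples of a period. -/
theorem Place_per [IsAlgClosed k] {d : ℕ} {f : Fin (ν + 1) → MvPolynomial (Fin (ν + 1)) k}
    (hf : IsEndo d f) {z : Fin (ν + 1) → k} {N : ℕ} (hfix : PEq z (iter f z N)) (j : ℕ) :
    PEq z (iter f z (N * j)) := by
  induction j with
  | zero => exact PEq.refl z
  | succ j ih =>
    have h1 : N * (j + 1) = N * j + N := by ring
    rw [h1, iter_add]
    exact ih.trans (hfix.iter hf (N * j))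

end place

end Pool.Agent.Helper89.TNL

end
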