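import Pool.Agent.Helper72.TM2.T47
import Pool.Agent.Helper72.TM2.T37

section

namespace Pool.Agent.Helper16
end Pool.Agent.Helper16
namespace Pool.Agent.Helper36
end Pool.Agent.Helper36
namespace Pool.Agent.Helper38.TQ
end Pool.Agent.Helper38.TQ
namespace Pool.Agent.Helper30.TKN
end Pool.Agent.Helper30.TKN

/-!
# Generators of the ideal of a curve
-/

set_option autoImplicit false

namespace Pool.Agent.Helper63.TN

open MvPolynomial

open Pool.Agent.Helper16 (Place IsFunctionField)

open Pool.Agent.Helper36 (step iter)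

open Pool.Agent.Helper38.TQ

open Pool.Agent.Helper30.TKN

variable {ν : ℕ} {k K : Type} [Field k] [Field K] [Algebra k K]

theorem pull_succ_eq (F : Fin (ν + 1) → MvPolynomial (Fin (ν + 1)) K) (N : ℕ)
    (G : MvPolynomial (Fin (ν + 1)) K) : pull F (N + 1) G = aeval F (pull F N G) := by
  unfold pull
  rw [Function.iterate_succ_apply']

theorem aeval_pull (F : Fin (ν + 1) → MvPolynomial (Fin (ν + 1)) K) (N : ℕ)
    (G : MvPolynomial (Fin (ν + 1)) K) {L : Type} [Field L] [Algebra K L]
    (u : Fin (ν + 1) → L) : aeval u (pull F N G) = aeval (iter F u N) G := by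
  induction N generalizing u with
  | zero => rfl
  | succ N ih =>
    rw [pull_succ_eq, Pool.Agent.Helper36.iter_succ', ← ih]
    exact comp_aeval_apply F (aeval u) (pull F N G)

theorem pull_hom {d : ℕ} {F : Fin (ν + 1) → MvPolynomial (Fin (ν + 1)) K}
    (hF : ∀ i, (F i).IsHomogeneous d) (N : ℕ) {G : MvPolynomial (Fin (ν + 1)) K} {e : ℕ}
    (hG : G.IsHomogeneous e) : (pull F N G).IsHomogeneous (e * d ^ N) := by
  induction N with
  | zero =>
    rw [pow_zero, mul_one]
    exact hG
  | succ N ih =>
    rw [pull_succ_eq]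
    have h := ih.aeval F hF
    rwa [show d * (e * d ^ N) = e * d ^ (N + 1) by ring] at h

end Pool.Agent.Helper63.TN

end

section

namespace Pool.Agent.Helper16
end Pool.Agent.Helper16
namespace Pool.Agent.Helper36
end Pool.Agent.Helper36
namespace Pool.Agent.Helper38.TQ
end Pool.Agent.Helper38.TQ
namespace Pool.Agent.Helper30.TKN
end Pool.Agent.Helper30.TKN

/-!
# The number of places at which two points coincide
-/

set_option autoImplicit false

namespace Pool.Agent.Helper63.TN

open MvPolynomial

open Pool.Agent.Helper16 (Place IsFunctionField)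

open Pool.Agent.Helper36 (step iter)

open Pool.Agent.Helper38.TQ

open Pool.Agent.Helper30.TKN

variable {ν : ℕ} {k K : Type} [Field k] [Field K] [Algebra k K]

/-- The minors of the two points, up to constants. -/
theorem minor_sub {v : Place k K} {y y' : Fin (ν + 1) → K}
    {z z' : Fin (ν + 1) → k} {c c' : K} (hz' : z' ≠ 0)
    (h : ∀ i, v.val (c * y i - algebraMap k K (z i)) < 1)
    (h' : ∀ i, v.val (c' * y' i - algebraMap k K (z' i)) < 1) (p q : Fin (ν + 1)) :
    v.val (c * c' * (y p * y' q - y q * y' p) - algebraMap k K (z p * z' q - z q * z' p)) < 1 := by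
  have n2 : nrm v (c' • y') = 1 := nrm_red hz' h'
  have h8 : ∀ i j, v.val ((c * y i - algebraMap k K (z i)) * (c' * y' j) +
      algebraMap k K (z i) * (c' * y' j - algebraMap k K (z' j))) < 1 := by
    intro i j
    have hy1 : v.val (c' * y' j) ≤ 1 := by
      rw [← n2]; exact val_le_nrm v (c' • y') j
    refine (v.val.map_add _ _).trans_lt (max_lt ?_ ?_)
    · rw [map_mul]
      exact mul_lt_one_of_lt_of_le (h i) hy1
    · rw [map_mul, mul_comm]
      exact mul_lt_one_of_lt_of_le (h' j) (v.val_algebraMap_le _)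
  have h9 : c * c' * (y p * y' q - y q * y' p) - algebraMap k K (z p * z' q - z q * z' p) =
      ((c * y p - algebraMap k K (z p)) * (c' * y' q) +
            algebraMap k K (z p) * (c' * y' q - algebraMap k K (z' q)))
          - ((c * y q - algebraMap k K (z q)) * (c' * y' p) +
            algebraMap k K (z q) * (c' * y' p - algebraMap k K (z' p))) := by
    simp only [map_sub, map_mul]
    ring
  rw [h9]
  exact (v.val.map_sub _ _).trans_lt (max_lt (h8 p q) (h8 q p))

theorem nrm_mul_of_red {v : Place k K} {y y' : Fin (ν + 1) → K} {z z' : Fin (ν + 1) → k}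
    {c c' : K} (hz : z ≠ 0) (hz' : z' ≠ 0)
    (h : ∀ i, v.val (c * y i - algebraMap k K (z i)) < 1)
    (h' : ∀ i, v.val (c' * y' i - algebraMap k K (z' i)) < 1) :
    v.val (c * c') * (nrm v y * nrm v y') = 1 := by
  have n1 : nrm v (c • y) = 1 := nrm_red hz h
  have n2 : nrm v (c' • y') = 1 := nrm_red hz' h'
  rw [nrm_smul] at n1 n2
  rw [map_mul, mul_mul_mul_comm, n1, n2, one_mul]

/-- Points with the same reduction, over an extension. -/
theorem same_of_red [IsAlgClosed k] {v : Place k K} {y y' : Fin (ν + 1) → K}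
    {z z' : Fin (ν + 1) → k} (h : Red v y z) (h' : Red v y' z') (hz : PEq z z') :
    Same v y y' := by
  obtain ⟨hz0, c, hc, h1⟩ := h
  obtain ⟨hz0', c', hc', h1'⟩ := h'
  obtain ⟨t, ht, rfl⟩ := hz
  intro p q
  have h2 := minor_sub hz0' h1 h1' p q
  have h3 : z p * (t • z) q - z q * (t • z) p = 0 := by
    simp only [Pi.smul_apply, smul_eq_mul]
    ring
  rw [h3, map_zero, sub_zero, map_mul, ← nrm_mul_of_red hz0 hz0' h1 h1'] at h2
  exact lt_of_mul_lt_mul_left h2 zero_le

theorem red_of_same [IsAlgClosed k] (hK : IsFunctionField k K) {v : Place k K}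
    {y y' : Fin (ν + 1) → K} (hy : y ≠ 0) (hy' : y' ≠ 0) {z : Fin (ν + 1) → k} (h : Red v y z)
    (hs : Same v y y') : Red v y' z := by
  obtain ⟨hz0, c, hc, h1⟩ := h
  obtain ⟨i0, hi0⟩ := exists_val_eq_nrm v y'
  have hn' := nrm_ne_zero (b := v) hy'
  have hy0 : y' i0 ≠ 0 := by
    intro h0
    rw [h0, map_zero] at hi0
    exact hn' hi0.symm
  have hc' : (y' i0)⁻¹ ≠ 0 := inv_ne_zero hy0
  have hle : ∀ i, v.val ((y' i0)⁻¹ * y' i) ≤ 1 := by
    intro i
    rw [map_mul, map_inv₀, hi0]
    calc (nrm v y')⁻¹ * v.val (y' i) ≤ (nrm v y')⁻¹ * nrm v y' :=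
          mul_le_mul_right (val_le_nrm v y' i) _
      _ = 1 := inv_mul_cancel₀ hn'
  choose z' hz' using fun i => exists_residue hK v ((y' i0)⁻¹ * y' i) (hle i)
  have hz0' : z' ≠ 0 := by
    intro h0
    have h2 := hz' i0
    rw [h0, Pi.zero_apply, map_zero, sub_zero, inv_mul_cancel₀ hy0, map_one] at h2
    exact lt_irrefl _ h2
  have hmin : ∀ p q, z p * z' q - z q * z' p = 0 := by
    intro p q
    by_contra hne
    have h2 := minor_sub hz0' h1 hz' p q
    have h3 : v.val (c * (y' i0)⁻¹ * (y p * y' q - y q * y' p)) < 1 := by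
      rw [map_mul, ← nrm_mul_of_red hz0 hz0' h1 hz']
      refine mul_lt_mul_of_pos_left (hs p q) (zero_lt_iff.2 ?_)
      simpa using ⟨hc, hy0⟩
    have h4 : v.val (algebraMap k K (z p * z' q - z q * z' p)) < 1 := by
      have h5 : algebraMap k K (z p * z' q - z q * z' p) =
          c * (y' i0)⁻¹ * (y p * y' q - y q * y' p) -
            (c * (y' i0)⁻¹ * (y p * y' q - y q * y' p) -
              algebraMap k K (z p * z' q - z q * z' p)) := by ring
      rw [h5]
      exact (v.val.map_sub _ _).trans_lt (max_lt h3 h2)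
    rw [v.triv _ hne] at h4
    exact lt_irrefl _ h4
  obtain ⟨t, ht, hzt⟩ := peq_of_minors hz0 hz0' hmin
  refine ⟨hz0, algebraMap k K t⁻¹ * (y' i0)⁻¹, mul_ne_zero (by simpa using ht) hc', fun i => ?_⟩
  have h6 : algebraMap k K t⁻¹ * (y' i0)⁻¹ * y' i - algebraMap k K (z i) =
      algebraMap k K t⁻¹ * ((y' i0)⁻¹ * y' i - algebraMap k K (z' i)) := by
    rw [hzt, Pi.smul_apply, smul_eq_mul, mul_sub, ← map_mul, inv_mul_cancel_left₀ ht]
    ring
  rw [h6, map_mul, v.triv _ (inv_ne_zero ht), one_mul]
  exact hz' i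

end Pool.Agent.Helper63.TN

end

section

namespace Pool.Agent.Helper16
end Pool.Agent.Helper16
namespace Pool.Agent.Helper36
end Pool.Agent.Helper36
namespace Pool.Agent.Helper38.TQ
end Pool.Agent.Helper38.TQ
namespace Pool.Agent.Helper30.TKN
end Pool.Agent.Helper30.TKN

/-!
# Places at which a point meets a fixed cycle
-/

set_option autoImplicit false

namespace Pool.Agent.Helper63.TN

open MvPolynomial

open Pool.Agent.Helper16 (Place IsFunctionField)

open Pool.Agent.Helper36 (step iter)

open Pool.Agent.Helper38.TQ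

open Pool.Agent.Helper30.TKN

variable {ν : ℕ} {k K : Type} [Field k] [Field K] [Algebra k K]

section

/-- The place below is determined. -/
theorem FixC_above_unique {L : Type} [Field L] [Algebra k L] [Algebra K L] {v : Place k L}
    {b b' : Place k K} (h : Above v b) (h' : Above v b') : b = b' := by
  obtain ⟨e, he, h1⟩ := h
  obtain ⟨e', he', h1'⟩ := h'
  have h2 : ∀ a : K, b.val a ^ e = b'.val a ^ e' := fun a => (h1 a).symm.trans (h1' a)
  have h3 : ∀ a : K, (e : ℤ) * WithZero.log (b.val a) = e' * WithZero.log (b'.val a) := by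
    intro a
    have h := congrArg WithZero.log (h2 a)
    rw [WithZero.log_pow, WithZero.log_pow] at h
    simpa using h
  obtain ⟨u, hu⟩ := b.surj (WithZero.exp 1)
  obtain ⟨u', hu'⟩ := b'.surj (WithZero.exp 1)
  have h4 := h3 u
  have h5 := h3 u'
  rw [hu, WithZero.log_exp, mul_one] at h4
  rw [hu', WithZero.log_exp, mul_one] at h5
  have h6 : e = e' := by
    apply Nat.dvd_antisymm
    · exact Int.natCast_dvd_natCast.1 ⟨_, h5.symm⟩
    · exact Int.natCast_dvd_natCast.1 ⟨_, h4⟩
  subst h6
  apply Place.ext_val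
  refine Valuation.ext fun a => ?_
  by_cases ha : a = 0
  · rw [ha, map_zero, map_zero]
  · have h7 : WithZero.log (b.val a) = WithZero.log (b'.val a) :=
      mul_left_cancel₀ (by exact_mod_cast he.ne') (h3 a)
    have h8 : b.val a ≠ 0 := by simpa using ha
    have h9 : b'.val a ≠ 0 := by simpa using ha
    rw [← WithZero.exp_log h8, h7, WithZero.exp_log h9]

/-- The image of a point over an extension is not zero. -/
theorem FixC_step_ne [Algebra K ℂ] {d : ℕ} {F : Fin (ν + 1) → MvPolynomial (Fin (ν + 1)) K}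
    (hF : IsEndo d fun i => map (algebraMap K ℂ) (F i)) {L : Type} [Field L] [Algebra K L]
    {y : Fin (ν + 1) → L} (hy : y ≠ 0) : step F y ≠ 0 := by
  obtain ⟨M, q, -, h⟩ := Pool.Agent.Helper36.exists_nullstellensatz (L := ℂ) F
    (fun i => IsHomogeneous.of_map (algebraMap K ℂ).injective (hF.hom i)) (by
      intro w hw
      refine hF.nz w fun i => ?_
      have h := hw i
      rw [eval_map]
      rw [aeval_def] at h
      exact h)
  intro h0
  apply hy
  funext a
  have h2 := congrArg (aeval y) (h a)
  rw [map_pow, aeval_X, map_sum] at h2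
  have h3 : ∀ j, aeval y (F j) = 0 := fun j => congrFun h0 j
  simp only [map_mul, h3, mul_zero, Finset.sum_const_zero] at h2
  exact (pow_eq_zero_iff (by have := hF.two_le; omega)).1 h2.symm

theorem FixC_iter_ne [Algebra K ℂ] {d : ℕ} {F : Fin (ν + 1) → MvPolynomial (Fin (ν + 1)) K}
    (hF : IsEndo d fun i => map (algebraMap K ℂ) (F i)) {L : Type} [Field L] [Algebra K L]
    {y : Fin (ν + 1) → L} (hy : y ≠ 0) (n : ℕ) : iter F y n ≠ 0 := by
  induction n with
  | zero => exact hy
  | succ n ih =>
    rw [Pool.Agent.Helper36.iter_succ]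
    exact FixC_step_ne hF ih

theorem FixC_iter_smul {d : ℕ} {F : Fin (ν + 1) → MvPolynomial (Fin (ν + 1)) K}
    (hF : ∀ i, (F i).IsHomogeneous d) {L : Type} [Field L] [Algebra K L]
    (c : L) (y : Fin (ν + 1) → L) (n : ℕ) : iter F (c • y) n = c ^ d ^ n • iter F y n := by
  induction n with
  | zero => simp [Pool.Agent.Helper36.iter_zero]
  | succ n ih =>
    rw [Pool.Agent.Helper36.iter_succ, Pool.Agent.Helper36.iter_succ, ih]
    funext i
    rw [Pi.smul_apply, smul_eq_mul, pow_succ, pow_mul]
    exact Pool.Agent.Helper36.aeval_smul_homogeneous (hF i) (c ^ d ^ n) (iter F y n)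

theorem FixC_inc_iter (F : Fin (ν + 1) → MvPolynomial (Fin (ν + 1)) K) {L : Type} [Field L]
    [Algebra K L] (x : Fin (ν + 1) → K) (N : ℕ) : iter F (inc L x) N = inc L (iter F x N) :=
  Pool.Agent.Helper36.iter_map F (Algebra.ofId K L) x N

theorem FixC_inc_ne {L : Type} [Field L] [Algebra K L] {x : Fin (ν + 1) → K} (hx : x ≠ 0) :
    inc L x ≠ 0 := by
  intro h0
  refine hx (funext fun a => ?_)
  have h1 : algebraMap K L (x a) = 0 := congrFun h0 a
  rw [← map_zero (algebraMap K L)] at h1
  exact (algebraMap K L).injective h1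

/-- Proportionality descends. -/
theorem FixC_peq {L : Type} [Field L] [Algebra K L] {x z : Fin (ν + 1) → K} (hx : x ≠ 0)
    (hz : z ≠ 0) (h : PEq (inc L x) (inc L z)) : PEq x z := by
  obtain ⟨t, -, h⟩ := h
  obtain ⟨a, ha⟩ := Function.ne_iff.1 hx
  have ha' : x a ≠ 0 := ha
  have ht : t = algebraMap K L (z a / x a) := by
    have h1 : algebraMap K L (z a) = t * algebraMap K L (x a) := congrFun h a
    rw [map_div₀, h1, mul_div_cancel_right₀]
    exact (map_ne_zero _).2 ha'
  have hz' : z = (z a / x a) • x := by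
    funext j
    apply (algebraMap K L).injective
    have h1 : algebraMap K L (z j) = t * algebraMap K L (x j) := congrFun h j
    rw [h1, ht, Pi.smul_apply, smul_eq_mul, map_mul]
  refine ⟨z a / x a, ?_, hz'⟩
  intro h0
  apply hz
  rw [hz', h0, zero_smul]

/-- The iterates of a periodic point are, up to scalars, those before the period. -/
theorem FixC_mod {d : ℕ} {F : Fin (ν + 1) → MvPolynomial (Fin (ν + 1)) K}
    (hF : ∀ i, (F i).IsHomogeneous d) {L : Type} [Field L] [Algebra K L]
    {w : Fin (ν + 1) → L} {M : ℕ} {γ : L} (hγ : γ ≠ 0) (h : iter F w M = γ • w) (r q : ℕ) :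
    ∃ c : L, c ≠ 0 ∧ iter F w (r + M * q) = c • iter F w r := by
  induction q with
  | zero => exact ⟨1, one_ne_zero, by simp⟩
  | succ q ih =>
    obtain ⟨c, hc, h1⟩ := ih
    refine ⟨γ ^ d ^ (r + M * q) * c, mul_ne_zero (pow_ne_zero _ hγ) hc, ?_⟩
    have h2 : r + M * (q + 1) = (r + M * q) + M := by ring
    rw [h2, Pool.Agent.Helper36.iter_add, h, FixC_iter_smul hF, h1, smul_smul]

end

/-- `Same` does not depend on the scaling of the second point. -/
theorem FixC_same_smul {v : Place k K} {x y : Fin (ν + 1) → K} {c : K} (hc : c ≠ 0)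
    (h : Same v x (c • y)) : Same v x y := by
  intro p q
  have h1 := h p q
  have h2 : x p * (c • y) q - x q * (c • y) p = c * (x p * y q - x q * y p) := by
    simp only [Pi.smul_apply, smul_eq_mul]
    ring
  have hc' : v.val c ≠ 0 := by simpa using hc
  have h3 : nrm v x * (v.val c * nrm v y) = v.val c * (nrm v x * nrm v y) := by
    rw [mul_left_comm]
  rw [h2, nrm_smul, map_mul, h3] at h1
  exact lt_of_mul_lt_mul_left' h1

/-- The number of places below a finite set of places. -/
theorem FixC_card_le {L : Type} [Field L] [Algebra k L] [Algebra K L] {S : Finset (Place k L)}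
    (T : Finset (Place k K)) (h : ∀ b ∈ T, ∃ v ∈ S, Above v b) : T.card ≤ S.card := by
  classical
  choose f hf hf' using h
  refine (Finset.card_attach (s := T)).symm.le.trans ?_
  refine Finset.card_le_card_of_injOn (fun b => f b.1 b.2) (fun b _ => hf b.1 b.2) ?_
  intro b _ b' _ he
  have h1 := hf' b.1 b.2
  have h2 := hf' b'.1 b'.2
  simp only at he
  rw [he] at h1
  exact Subtype.ext (FixC_above_unique h1 h2)

/-- The number of places at which the point `x_i` meets a periodic point. -/
theorem fix_count [IsAlgClosed k] [Algebra K ℂ] (hK : IsFunctionField k K) {d : ℕ}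
    {F : Fin (ν + 1) → MvPolynomial (Fin (ν + 1)) K}
    (hF : IsEndo d fun i => map (algebraMap K ℂ) (F i)) {x : Fin (ν + 1) → K} (hx : x ≠ 0)
    (hdist : ∀ n n', n ≠ n' → ¬ PEq (iter F x n) (iter F x n')) (A : FinPt ν k K)
    (hA : IsPer F A.y) (i : ℕ) :
    ∃ B : ℕ, ∀ T : Finset (Place k K), (∀ b ∈ T, ∃ (v : Place k A.L) (m : ℕ), Above v b ∧
      Same v (inc A.L (iter F x i)) (iter F A.y m)) → T.card ≤ B := by
  classical
  have hKL : IsFunctionField k A.L := Pool.Agent.Helper16.IsFunctionField.of_finite hK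
  have hhom := homog_of_endo hF
  have hne : ∀ n, iter F A.y n ≠ 0 := fun n => FixC_iter_ne hF A.ne n
  obtain ⟨M, hM, γ, hγ⟩ := hA
  have hγ0 : γ ≠ 0 := by
    rintro rfl
    exact hne M (by rw [hγ, zero_smul])
  have hxi : inc A.L (iter F x i) ≠ 0 := FixC_inc_ne (iter_ne_zeroK hF hx i)
  have hnp : ∀ r, ¬ PEq (inc A.L (iter F x i)) (iter F A.y r) := by
    rintro r ⟨c, hc, h1⟩
    have h2 : iter F (iter F A.y r) M = γ ^ d ^ r • iter F A.y r := by
      rw [← Pool.Agent.Helper36.iter_add, Nat.add_comm M r, Pool.Agent.Helper36.iter_add, hγ,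
        FixC_iter_smul hhom]
    rw [h1, FixC_iter_smul hhom, FixC_inc_iter, ← Pool.Agent.Helper36.iter_add, smul_smul] at h2
    apply hdist i (M + i) (by omega)
    refine FixC_peq (L := A.L) (iter_ne_zeroK hF hx i) (iter_ne_zeroK hF hx _) ?_
    refine ⟨(c ^ d ^ M)⁻¹ * (γ ^ d ^ r * c), mul_ne_zero (inv_ne_zero (pow_ne_zero _ hc))
      (mul_ne_zero (pow_ne_zero _ hγ0) hc), ?_⟩
    rw [← smul_smul, ← h2, smul_smul, inv_mul_cancel₀ (pow_ne_zero _ hc), one_smul]
  have hfin : ∀ r, {v : Place k A.L | Same v (inc A.L (iter F x i)) (iter F A.y r)}.Finite :=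
    fun r => same_finite hKL hxi (hne r) (hnp r)
  let S : Finset (Place k A.L) := (Finset.range M).biUnion fun r => (hfin r).toFinset
  refine ⟨S.card, fun T hT => FixC_card_le T fun b hb => ?_⟩
  obtain ⟨v, m, hvb, hs⟩ := hT b hb
  refine ⟨v, ?_, hvb⟩
  rw [Finset.mem_biUnion]
  refine ⟨m % M, Finset.mem_range.2 (Nat.mod_lt _ hM), ?_⟩
  rw [Set.Finite.mem_toFinset]
  show Same v _ _
  obtain ⟨c, hc, h1⟩ := FixC_mod hhom hγ0 hγ (m % M) (m / M)
  rw [Nat.mod_add_div] at h1
  rw [h1] at hs
  exact FixC_same_smul hc hs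

end Pool.Agent.Helper63.TN

end

section

namespace Pool.Agent.Helper16
end Pool.Agent.Helper16
namespace Pool.Agent.Helper36
end Pool.Agent.Helper36
namespace Pool.Agent.Helper38.TQ
end Pool.Agent.Helper38.TQ
namespace Pool.Agent.Helper30.TKN
end Pool.Agent.Helper30.TKN

/-!
# Projective curves are finite over a line
-/

set_option autoImplicit false

namespace Pool.Agent.Helper63.TN

open MvPolynomial

open Pool.Agent.Helper16 (Place IsFunctionField)

open Pool.Agent.Helper36 (step iter)

open Pool.Agent.Helper38.TQ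

open Pool.Agent.Helper30.TKN

variable {ν : ℕ} {k K : Type} [Field k] [Field K] [Algebra k K]

/-- The linear form over `K` with constant coefficients `c`. -/
private noncomputable def clf (K : Type) [Field K] [Algebra k K] (c : Fin (ν + 1) → k) :
    MvPolynomial (Fin (ν + 1)) K :=
  ∑ i, C (algebraMap k K (c i)) * X i

private theorem clf_add (c : Fin (ν + 1) → k) (i : Fin (ν + 1)) (t : k) :
    clf K (c + Pi.single i t) = clf K c + C (algebraMap k K t) * X i := by
  classical
  unfold clf
  simp only [Pi.add_apply, map_add, add_mul, Finset.sum_add_distrib]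
  congr 1
  rw [Finset.sum_eq_single i]
  · simp
  · intro j _ hj
    simp [Pi.single_eq_of_ne hj]
  · intro h; exact absurd (Finset.mem_univ _) h

/-- A nonzero form in three variables does not vanish at some constant point `(-t₀, -t₁, 1)`. -/
private theorem exists_value [Infinite k] {e : ℕ} {P : MvPolynomial (Fin 3) K}
    (hP : P.IsHomogeneous e) (hP0 : P ≠ 0) :
    ∃ t₀ t₁ : k, eval ![-(algebraMap k K t₀), -(algebraMap k K t₁), 1] P ≠ 0 := by
  classical
  by_contra hcon
  push Not at hcon
  have h1 : P * X 2 = 0 := by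
    refine funext_set (fun _ => Set.range (algebraMap k K))
      (fun _ => Set.infinite_range_of_injective (algebraMap k K).injective) fun x hx => ?_
    rw [map_zero, map_mul, eval_X]
    choose y hy using fun j => hx j (Set.mem_univ j)
    rcases eq_or_ne (x 2) 0 with h0 | h0
    · rw [h0, mul_zero]
    · have hy2 : algebraMap k K (y 2) ≠ 0 := by rw [hy 2]; exact h0
      have h2 := hcon (-(y 0 / y 2)) (-(y 1 / y 2))
      have h3 : x = x 2 • ![-(algebraMap k K (-(y 0 / y 2))), -(algebraMap k K (-(y 1 / y 2))),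
          1] := by
        funext j
        fin_cases j
        · simp only [Fin.zero_eta, Pi.smul_apply, Matrix.cons_val_zero, smul_eq_mul, map_neg,
            neg_neg, map_div₀]
          rw [← hy 0, ← hy 2]
          field_simp
        · simp only [Fin.mk_one, Pi.smul_apply, Matrix.cons_val_one, Matrix.cons_val_zero,
            smul_eq_mul, map_neg, neg_neg, map_div₀]
          rw [← hy 1, ← hy 2]
          field_simp
        · simp
      have h4 : eval x P = 0 := by
        rw [h3]
        have h5 := Pool.Agent.Helper36.aeval_smul_homogeneous hP (x 2)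
          ![-(algebraMap k K (-(y 0 / y 2))), -(algebraMap k K (-(y 1 / y 2))), 1]
        rw [show eval (x 2 • ![-(algebraMap k K (-(y 0 / y 2))),
          -(algebraMap k K (-(y 1 / y 2))), 1]) P = aeval (x 2 •
          ![-(algebraMap k K (-(y 0 / y 2))), -(algebraMap k K (-(y 1 / y 2))), 1]) P from
          (congrArg (fun φ => φ P) (coe_aeval_eq_eval _)).symm]
        refine h5.trans ?_
        rw [show aeval ![-(algebraMap k K (-(y 0 / y 2))), -(algebraMap k K (-(y 1 / y 2))), 1] P =
          eval ![-(algebraMap k K (-(y 0 / y 2))), -(algebraMap k K (-(y 1 / y 2))), 1] P from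
          congrArg (fun φ => φ P) (coe_aeval_eq_eval _), h2, mul_zero]
      rw [h4, zero_mul]
  rcases mul_eq_zero.1 h1 with h2 | h2
  · exact hP0 h2
  · exact X_ne_zero _ h2

/-- If any three linear forms satisfy a relation, then two linear forms with coefficients in `k`
generate, together with the ideal, a power of the irrelevant ideal. -/
theorem fin_of_rel3 [IsAlgClosed k] {I : Ideal (MvPolynomial (Fin (ν + 1)) K)} (h : Rel3 I) :
    ∃ (a₀ a₁ : Fin (ν + 1) → k) (s : ℕ), ∀ i, (X i ^ s : MvPolynomial (Fin (ν + 1)) K) ∈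
      I ⊔ Ideal.span {∑ j, C (algebraMap k K (a₀ j)) * X j, ∑ j, C (algebraMap k K (a₁ j)) * X j} := by
  classical
  have : Infinite k := IsAlgClosed.instInfinite
  have key : ∀ S : Finset (Fin (ν + 1)), ∃ c₀ c₁ : Fin (ν + 1) → k,
      ∀ i ∈ S, (X i : MvPolynomial (Fin (ν + 1)) K) ∈
        (I ⊔ Ideal.span {clf K c₀, clf K c₁}).radical := by
    intro S
    induction S using Finset.induction_on with
    | empty => exact ⟨0, 0, by simp⟩
    | insert i S hi ih =>
      obtain ⟨c₀, c₁, hc⟩ := ih
      obtain ⟨P, e, hP, hP0, hPI⟩ := h ![fun j => algebraMap k K (c₀ j),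
        fun j => algebraMap k K (c₁ j), Pi.single i 1]
      obtain ⟨t₀, t₁, ht⟩ := exists_value (k := k) hP hP0
      set c₀' := c₀ + Pi.single i t₀ with hc₀'
      set c₁' := c₁ + Pi.single i t₁ with hc₁'
      set I' := I ⊔ Ideal.span {clf K c₀', clf K c₁'} with hI'
      have hI : I ≤ I' := le_sup_left
      have hl₀ : clf K c₀' ∈ I' := Ideal.mem_sup_right (Ideal.subset_span (Set.mem_insert _ _))
      have hl₁ : clf K c₁' ∈ I' := Ideal.mem_sup_right
        (Ideal.subset_span (Set.mem_insert_of_mem _ rfl))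
      have hlX₀ : clf K c₀ = clf K c₀' + C (-(algebraMap k K t₀)) * X i := by
        rw [hc₀', clf_add, map_neg]
        ring
      have hlX₁ : clf K c₁ = clf K c₁' + C (-(algebraMap k K t₁)) * X i := by
        rw [hc₁', clf_add, map_neg]
        ring
      have hX : (X i : MvPolynomial (Fin (ν + 1)) K) ∈ I'.radical := by
        refine ⟨e, ?_⟩
        have h1 : Ideal.Quotient.mk I' (aeval (fun j => ∑ i', C (![fun j => algebraMap k K (c₀ j),
            fun j => algebraMap k K (c₁ j), Pi.single i 1] j i') * X i' :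
            Fin 3 → MvPolynomial (Fin (ν + 1)) K) P) = 0 :=
          Ideal.Quotient.eq_zero_iff_mem.2 (hI hPI)
        have h3 : ∀ p : MvPolynomial (Fin (ν + 1)) K, Ideal.Quotient.mk I' p =
            Ideal.Quotient.mkₐ K I' p := fun _ => rfl
        rw [h3, MvPolynomial.comp_aeval_apply] at h1
        have h4 : (fun j => Ideal.Quotient.mkₐ K I' (∑ i', C (![fun j => algebraMap k K (c₀ j),
            fun j => algebraMap k K (c₁ j), Pi.single i 1] j i') * X i' :
            MvPolynomial (Fin (ν + 1)) K)) = fun j => Ideal.Quotient.mkₐ K I' (X i) *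
              algebraMap K _ (![-(algebraMap k K t₀), -(algebraMap k K t₁), (1 : K)] j) := by
          funext j
          fin_cases j
          · have h5 : Ideal.Quotient.mkₐ K I' (clf K c₀) = Ideal.Quotient.mkₐ K I' (X i) *
                algebraMap K _ (-(algebraMap k K t₀)) := by
              rw [hlX₀, map_add, map_mul]
              have h6 : Ideal.Quotient.mkₐ K I' (clf K c₀') = 0 :=
                Ideal.Quotient.eq_zero_iff_mem.2 hl₀
              rw [h6, zero_add, mul_comm]
              congr 1
            exact h5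
          · have h5 : Ideal.Quotient.mkₐ K I' (clf K c₁) = Ideal.Quotient.mkₐ K I' (X i) *
                algebraMap K _ (-(algebraMap k K t₁)) := by
              rw [hlX₁, map_add, map_mul]
              have h6 : Ideal.Quotient.mkₐ K I' (clf K c₁') = 0 :=
                Ideal.Quotient.eq_zero_iff_mem.2 hl₁
              rw [h6, zero_add, mul_comm]
              congr 1
            exact h5
          · have h5 : (∑ i', C ((Pi.single i 1 : Fin (ν + 1) → K) i') * X i' :
                MvPolynomial (Fin (ν + 1)) K) = X i := by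
              rw [Finset.sum_eq_single i]
              · simp
              · intro j _ hj
                simp [Pi.single_eq_of_ne hj]
              · intro h; exact absurd (Finset.mem_univ _) h
            change Ideal.Quotient.mkₐ K I' (∑ i', C ((Pi.single i 1 : Fin (ν + 1) → K) i') * X i') =
              Ideal.Quotient.mkₐ K I' (X i) * algebraMap K _ (1 : K)
            rw [h5, map_one, mul_one]
        rw [h4, Pool.Agent.Helper36.aeval_smul_homogeneous hP] at h1
        have h5 : aeval (fun j => algebraMap K (MvPolynomial (Fin (ν + 1)) K ⧸ I')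
            (![-(algebraMap k K t₀), -(algebraMap k K t₁), (1 : K)] j)) P =
            algebraMap K _ (eval ![-(algebraMap k K t₀), -(algebraMap k K t₁), 1] P) := by
          have h6 := aeval_algebraMap_apply (B := MvPolynomial (Fin (ν + 1)) K ⧸ I')
            (![-(algebraMap k K t₀), -(algebraMap k K t₁), (1 : K)]) P
          refine Eq.trans h6 ?_
          exact congrArg _ (congrArg (fun φ => φ P) (coe_aeval_eq_eval _))
        rw [h5] at h1
        have h6 : Ideal.Quotient.mkₐ K I' (X i) ^ e = 0 := by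
          have h7 := congrArg (fun w => w * algebraMap K (MvPolynomial (Fin (ν + 1)) K ⧸ I')
            (eval ![-(algebraMap k K t₀), -(algebraMap k K t₁), 1] P)⁻¹) h1
          simp only [zero_mul] at h7
          rwa [mul_assoc, ← map_mul, mul_inv_cancel₀ ht, map_one, mul_one] at h7
        rw [← map_pow] at h6
        exact Ideal.Quotient.eq_zero_iff_mem.1 h6
      have hlr₀ : clf K c₀ ∈ I'.radical := by
        rw [hlX₀]
        exact I'.radical.add_mem (Ideal.le_radical hl₀) (I'.radical.mul_mem_left _ hX)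
      have hlr₁ : clf K c₁ ∈ I'.radical := by
        rw [hlX₁]
        exact I'.radical.add_mem (Ideal.le_radical hl₁) (I'.radical.mul_mem_left _ hX)
      refine ⟨c₀', c₁', fun j hj => ?_⟩
      rw [Finset.mem_insert] at hj
      rcases hj with rfl | hj
      · exact hX
      · have h1 : I ⊔ Ideal.span {clf K c₀, clf K c₁} ≤ I'.radical := by
          refine sup_le (hI.trans Ideal.le_radical) ?_
          rw [Ideal.span_le]
          rintro w (rfl | rfl)
          · exact hlr₀
          · exact hlr₁
        have h2 := Ideal.radical_mono h1 (hc j hj)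
        rwa [Ideal.radical_idem] at h2
  obtain ⟨c₀, c₁, hc⟩ := key Finset.univ
  choose n hn using fun i => hc i (Finset.mem_univ i)
  refine ⟨c₀, c₁, ∑ i, n i, fun i => ?_⟩
  have h1 : n i ≤ ∑ i, n i := Finset.single_le_sum (fun _ _ => Nat.zero_le _) (Finset.mem_univ i)
  obtain ⟨r, hr⟩ := Nat.exists_eq_add_of_le h1
  rw [hr, pow_add]
  exact Ideal.mul_mem_right _ _ (hn i)

end Pool.Agent.Helper63.TN

end

section

namespace Pool.Agent.Helper16
end Pool.Agent.Helper16
namespace Pool.Agent.Helper36
end Pool.Agent.Helper36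
namespace Pool.Agent.Helper38.TQ
end Pool.Agent.Helper38.TQ
namespace Pool.Agent.Helper30.TKN
end Pool.Agent.Helper30.TKN

/-!
# The curve swept out by a sequence of points
-/

set_option autoImplicit false

namespace Pool.Agent.Helper63.TN

open MvPolynomial

open Pool.Agent.Helper16 (Place IsFunctionField)

open Pool.Agent.Helper36 (step iter)

open Pool.Agent.Helper38.TQ

open Pool.Agent.Helper30.TKN

variable {ν : ℕ} {k K : Type} [Field k] [Field K] [Algebra k K]

/-- The restriction of the polynomial `G` to the line spanned by `v`. -/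
noncomputable def vanLine (v : Fin (ν + 1) → K) (G : MvPolynomial (Fin (ν + 1)) K) :
    Polynomial K :=
  aeval (fun i => Polynomial.C (v i) * Polynomial.X) G

omit [Algebra k K] in
theorem eval_vanLine (v : Fin (ν + 1) → K) (G : MvPolynomial (Fin (ν + 1)) K) (c : K) :
    Polynomial.eval c (vanLine v G) = eval (c • v) G := by
  unfold vanLine
  induction G using MvPolynomial.induction_on with
  | C a => simp
  | add p q hp hq => rw [map_add, Polynomial.eval_add, hp, hq, map_add]
  | mul_X p i hp =>
    rw [map_mul, Polynomial.eval_mul, hp, aeval_X, map_mul, eval_X, Polynomial.eval_mul,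
      Polynomial.eval_C, Polynomial.eval_X, Pi.smul_apply, smul_eq_mul, mul_comm (v i) c]

omit [Algebra k K] in
theorem vanLine_eq_zero [Infinite K] (v : Fin (ν + 1) → K) (G : MvPolynomial (Fin (ν + 1)) K) :
    vanLine v G = 0 ↔ ∀ c : K, eval (c • v) G = 0 := by
  constructor
  · intro h c
    rw [← eval_vanLine, h, Polynomial.eval_zero]
  · intro h
    apply Polynomial.zero_of_eval_zero
    intro c
    rw [eval_vanLine, h]

omit [Algebra k K] in
theorem vanLine_hom [Infinite K] {v : Fin (ν + 1) → K} {G : MvPolynomial (Fin (ν + 1)) K}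
    (h : ∀ c : K, eval (c • v) G = 0) (m : ℕ) : eval v (homogeneousComponent m G) = 0 := by
  set R : Polynomial K := ∑ i ∈ Finset.range (G.totalDegree + 1),
    Polynomial.C (eval v (homogeneousComponent i G)) * Polynomial.X ^ i with hR
  have hR0 : R = 0 := by
    apply Polynomial.zero_of_eval_zero
    intro l
    have h1 := h l
    rw [← sum_homogeneousComponent G, map_sum] at h1
    rw [hR, Polynomial.eval_finsetSum, ← h1]
    refine Finset.sum_congr rfl fun i _ => ?_
    rw [eval_smul_hom (homogeneousComponent_isHomogeneous i G) l v, Polynomial.eval_mul,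
      Polynomial.eval_C, Polynomial.eval_pow, Polynomial.eval_X, mul_comm]
  have hcoef := congrArg (fun p => p.coeff m) hR0
  simp only [hR, Polynomial.finsetSum_coeff, Polynomial.coeff_C_mul_X_pow,
    Polynomial.coeff_zero] at hcoef
  rw [Finset.sum_ite_eq] at hcoef
  split_ifs at hcoef with h2
  · exact hcoef
  · rw [homogeneousComponent_eq_zero, map_zero]
    rw [Finset.mem_range] at h2
    omega

omit [Algebra k K] in
theorem mem_van {U : Ultrafilter ℕ} {x : ℕ → Fin (ν + 1) → K}
    {G : MvPolynomial (Fin (ν + 1)) K} :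
    G ∈ van U x ↔ ∀ᶠ n in (U : Filter ℕ), ∀ c : K, eval (c • x n) G = 0 := Iff.rfl

theorem van_form [Infinite K] {U : Ultrafilter ℕ} {x : ℕ → Fin (ν + 1) → K}
    {G : MvPolynomial (Fin (ν + 1)) K} {e : ℕ} (hG : G.IsHomogeneous e) :
    G ∈ van U x ↔ ∀ᶠ n in (U : Filter ℕ), eval (x n) G = 0 := by
  rw [mem_van]
  constructor
  · intro h
    filter_upwards [h] with n hn
    have h1 := hn 1
    rwa [one_smul] at h1
  · intro h
    filter_upwards [h] with n hn c
    rw [eval_smul_hom hG c (x n), hn, mul_zero]

theorem van_hom [Infinite K] {U : Ultrafilter ℕ} {x : ℕ → Fin (ν + 1) → K}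
    {G : MvPolynomial (Fin (ν + 1)) K} (hG : G ∈ van U x) (m : ℕ) :
    homogeneousComponent m G ∈ van U x := by
  rw [van_form (homogeneousComponent_isHomogeneous m G)]
  filter_upwards [mem_van.1 hG] with n hn
  exact vanLine_hom hn m

theorem van_prime [Infinite K] {U : Ultrafilter ℕ} {x : ℕ → Fin (ν + 1) → K}
    (hx : ∀ n, x n ≠ 0) : (van U x).IsPrime := by
  rw [Ideal.isPrime_iff]
  constructor
  · intro h
    have h1 : (1 : MvPolynomial (Fin (ν + 1)) K) ∈ van U x := by
      rw [h]
      exact Submodule.mem_top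
    obtain ⟨n, hn⟩ := (mem_van.1 h1).exists
    have h2 := hn 0
    rw [map_one] at h2
    exact one_ne_zero h2
  · intro G H hGH
    have h1 : ∀ᶠ n in (U : Filter ℕ), (∀ c : K, eval (c • x n) G = 0) ∨
        ∀ c : K, eval (c • x n) H = 0 := by
      filter_upwards [mem_van.1 hGH] with n hn
      have h2 : vanLine (x n) G * vanLine (x n) H = 0 := by
        unfold vanLine
        rw [← map_mul]
        exact (vanLine_eq_zero (x n) (G * H)).2 hn
      rcases mul_eq_zero.1 h2 with h3 | h3
      · exact Or.inl ((vanLine_eq_zero _ _).1 h3)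
      · exact Or.inr ((vanLine_eq_zero _ _).1 h3)
    exact Ultrafilter.eventually_or.1 h1

theorem van_rel3 [Infinite K] {U : Ultrafilter ℕ} {x : ℕ → Fin (ν + 1) → K}
    (h : OnCurve U x) : Rel3 (van U x) := by
  intro m
  obtain ⟨P, e, hP, hP0, hPv⟩ := h m
  refine ⟨P, e, hP, hP0, ?_⟩
  have hhom : (aeval (fun j => ∑ i, C (m j i) * X i : Fin 3 → MvPolynomial (Fin (ν + 1)) K)
      P).IsHomogeneous (1 * e) := by
    apply hP.aeval
    intro j
    apply IsHomogeneous.sum
    intro i _
    exact isHomogeneous_C_mul_X _ _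
  rw [van_form hhom]
  filter_upwards [hPv] with n hn
  rw [← hn]
  have h3 : ∀ Q : MvPolynomial (Fin 3) K, eval (x n) (aeval
      (fun j => ∑ i, C (m j i) * X i : Fin 3 → MvPolynomial (Fin (ν + 1)) K) Q) =
      eval (fun j => ∑ i, m j i * x n i) Q := by
    intro Q
    induction Q using MvPolynomial.induction_on with
    | C a => simp
    | add p q hp hq => simp only [map_add, hp, hq]
    | mul_X p i hp =>
      rw [map_mul, map_mul, map_mul, hp, aeval_X, eval_X]
      congr 1
      simp
  exact h3 P

theorem van_curve [IsAlgClosed k] {U : Ultrafilter ℕ} {x : ℕ → Fin (ν + 1) → K}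
    (hx : ∀ n, x n ≠ 0) (h : OnCurve U x) : IsCurve (van U x) := by
  have h1 : Infinite k := IsAlgClosed.instInfinite
  have h2 : Infinite K := Infinite.of_injective (algebraMap k K) (algebraMap k K).injective
  refine ⟨van_prime hx, fun G hG m => van_hom hG m, ?_⟩
  obtain ⟨a₀, a₁, s, hs⟩ := fin_of_rel3 (k := k) (van_rel3 h)
  exact ⟨fun j => algebraMap k K (a₀ j), fun j => algebraMap k K (a₁ j), s, hs⟩

theorem van_on {U : Ultrafilter ℕ} {x : ℕ → Fin (ν + 1) → K} (hx : ∀ n, x n ≠ 0) :
    ∀ᶠ n in (U : Filter ℕ), OnI (van U x) (x n) := by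
  obtain ⟨s, hs⟩ := (isNoetherianRing_iff_ideal_fg _).1
    (inferInstance : IsNoetherianRing (MvPolynomial (Fin (ν + 1)) K)) (van U x)
  have h1 : ∀ᶠ n in (U : Filter ℕ), ∀ g ∈ s, eval (x n) g = 0 := by
    rw [Filter.eventually_all_finset]
    intro g hg
    have h2 : g ∈ van U x := by
      rw [← hs]
      exact Ideal.subset_span hg
    filter_upwards [mem_van.1 h2] with n hn
    have h3 := hn 1
    rwa [one_smul] at h3
  filter_upwards [h1] with n hn
  refine ⟨hx n, fun G hG => ?_⟩
  rw [← hs] at hG
  have h4 : ∀ G : MvPolynomial (Fin (ν + 1)) K, aeval (x n) G = eval (x n) G := fun G => by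
    rw [← MvPolynomial.coe_aeval_eq_eval]
    rfl
  induction hG using Submodule.span_induction with
  | mem g hg => rw [h4]; exact hn g hg
  | zero => rw [map_zero]
  | add a b _ _ ha hb => rw [map_add, ha, hb, add_zero]
  | smul a b _ hb => rw [smul_eq_mul, map_mul, hb, mul_zero]

end Pool.Agent.Helper63.TN

end
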