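import Pool.Agent.Helper72.TM2.T46
import Pool.Agent.Helper72.TM2.T50
import Pool.Agent.Helper72.TM2.T45
import Pool.Agent.Helper72.TM2.T47

section

/-!
# The digits of the rescaled orbit are exponential polynomials
-/

set_option autoImplicit false

namespace Pool.Agent.Helper89.TNL

open MvPolynomial

variable {R k : Type} [CommRing R] [IsDomain R] [Field k] [Algebra k R] {π : R} {χ : R →+* k}
  {G : Subgroup kˣ}

omit [IsDomain R] in
theorem rec_zero (f : ℕ → R) : EPR G π 0 f :=
  ⟨0, fun _ => 0, fun _ => (EPol k G).zero_mem, fun _ _ => by simp⟩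

theorem epr_of_rec [IsAlgClosed k] [CharZero k] (hR : Res π χ) {α β : Type} [Fintype α]
    [DecidableEq α] [Fintype β] [DecidableEq β] (M₁ : Matrix α α k) (hM : EigIn G M₁)
    {ξ : ℕ → α ⊕ β → R}
    (hrec : ∃ c : α ⊕ β → R, ∀ I : ℕ, ∃ P : α ⊕ β → MvPolynomial (α ⊕ β) R, ∀ t i,
      π ^ I ∣ ξ (t + 1) i - (c i + ∑ l, algebraMap k R (Matrix.fromBlocks M₁ 0 0 0 i l) * ξ t l +
        π * eval (ξ t) (P i))) :
    ∀ I i, EPR G π I (fun t => ξ t i) := by
  obtain ⟨c, hc⟩ := hrec
  intro I
  induction I with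
  | zero => exact fun i => rec_zero _
  | succ I ih =>
    obtain ⟨P, hP⟩ := hc (I + 1)
    have hg : ∀ i, EPR G π (I + 1) (fun t => c i + π * eval (ξ t) (P i)) := fun i =>
      epr_add (epr_const hR (I + 1) (c i)) (epr_pi (epr_eval hR ih (P i)))
    rintro (a | b)
    · -- the unit part
      choose d hd using fun (t : ℕ) (a : α) => exists_digits hR (ξ t (Sum.inl a))
      choose T φ hφ hT using fun a : α => hg (Sum.inl a)
      set T₀ : ℕ := Finset.univ.sup T with hT₀
      have hle : ∀ a, T a ≤ T₀ := fun a => Finset.le_sup (f := T) (Finset.mem_univ a)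
      have hdig : ∀ t, T₀ ≤ t → ∀ a, ∀ j < I + 1,
          d (t + 1) a j = ∑ b, M₁ a b * d t b j + φ a j t := by
        intro t ht a
        refine digits_unique hR ?_
        have h1 := hd (t + 1) a (I + 1)
        have h2 := hP t (Sum.inl a)
        have h3 := hT a t ((hle a).trans ht)
        have h4 : π ^ (I + 1) ∣ ∑ b, algebraMap k R (M₁ a b) * (ξ t (Sum.inl b) -
            ∑ i ∈ Finset.range (I + 1), π ^ i * algebraMap k R (d t b i)) :=
          Finset.dvd_sum fun b _ => Dvd.dvd.mul_left (hd t b (I + 1)) _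
        have h5 := ((h2.sub h1).add h3).add h4
        convert h5 using 1
        rw [Fintype.sum_sum_type]
        simp only [Matrix.fromBlocks_apply₁₁, Matrix.fromBlocks_apply₁₂, Matrix.zero_apply,
          map_zero, zero_mul, Finset.sum_const_zero, add_zero, map_add, map_sum, map_mul, mul_add,
          mul_sub, Finset.sum_add_distrib, Finset.sum_sub_distrib, Finset.mul_sum]
        rw [Finset.sum_comm (s := (Finset.univ : Finset α))]
        have e : ∀ x ∈ Finset.range (I + 1), ∀ y ∈ (Finset.univ : Finset α),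
            algebraMap k R (M₁ a y) * (π ^ x * algebraMap k R (d t y x)) =
              π ^ x * (algebraMap k R (M₁ a y) * algebraMap k R (d t y x)) := fun x _ y _ => by
          ring
        rw [Finset.sum_congr rfl fun x hx => Finset.sum_congr rfl (e x hx)]
        ring
      have hw : ∀ j : ℕ, ∃ w : α → ℕ → k, (∀ a, w a ∈ EPol k G) ∧
          (j < I + 1 → ∀ t, T₀ ≤ t → ∀ a, d t a j = w a t) := by
        intro j
        by_cases hj : j < I + 1
        · obtain ⟨w, h1, h2⟩ := epol_solve_late M₁ hM (f := fun a => φ a j)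
            (v := fun a t => d t a j) (fun a => hφ a j) (T := T₀)
            (fun t ht a => hdig t ht a j hj)
          exact ⟨w, h1, fun _ => h2⟩
        · exact ⟨fun _ => 0, fun _ => (EPol k G).zero_mem, fun h => absurd h hj⟩
      choose w hw1 hw2 using hw
      refine ⟨T₀, fun j => w j a, fun j => hw1 j a, fun t ht => ?_⟩
      have h1 := hd t a (I + 1)
      have e : ∑ i ∈ Finset.range (I + 1), π ^ i * algebraMap k R (w i a t) =
          ∑ i ∈ Finset.range (I + 1), π ^ i * algebraMap k R (d t a i) :=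
        Finset.sum_congr rfl fun i hi => by
          rw [hw2 i (Finset.mem_range.1 hi) t ht a]
      rw [e]
      exact h1
    · -- the nilpotent part
      refine epr_unshift (epr_congr (hg (Sum.inr b)) (T := 0) fun t _ => ?_)
      have h := hP t (Sum.inr b)
      rw [Fintype.sum_sum_type] at h
      simpa using h

end Pool.Agent.Helper89.TNL

end

section

namespace Pool.Agent.Helper63.TS
end Pool.Agent.Helper63.TS

set_option autoImplicit false

namespace Pool.Agent.Helper89.TNL

open MvPolynomial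

open Pool.Agent.Helper63.TS (Unif)

/-- A polynomial over a discrete valuation ring which is not zero is a power of `π` times a
polynomial which is not zero modulo `π`. -/
theorem CaseR_poly {R : Type} [CommRing R] [IsDomain R] {π : R} (hπ : Unif π)
    {P : Polynomial R} (hP : P ≠ 0) :
    ∃ (m : ℕ) (Q : Polynomial R), P = Polynomial.C (π ^ m) * Q ∧ ∃ n, ¬ π ∣ Q.coeff n := by
  classical
  -- the minimal order of the coefficients
  have h1 : ∃ m : ℕ, ∃ n, ¬ π ^ (m + 1) ∣ P.coeff n := by
    obtain ⟨n, hn⟩ : ∃ n, P.coeff n ≠ 0 := by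
      by_contra h
      push Not at h
      exact hP (Polynomial.ext fun n => by rw [h n, Polynomial.coeff_zero])
    obtain ⟨e, u, hu, he⟩ := hπ.fact _ hn
    refine ⟨e, n, fun hdvd => hu ?_⟩
    rw [he, pow_succ] at hdvd
    exact (mul_dvd_mul_iff_left (pow_ne_zero _ hπ.prime.ne_zero)).1 hdvd
  obtain ⟨m, hm, hmin⟩ : ∃ m : ℕ, (∃ n, ¬ π ^ (m + 1) ∣ P.coeff n) ∧
      ∀ m' < m, ¬ ∃ n, ¬ π ^ (m' + 1) ∣ P.coeff n :=
    ⟨Nat.find h1, Nat.find_spec h1, fun m' hm' => Nat.find_min h1 hm'⟩
  have h2 : ∀ n, π ^ m ∣ P.coeff n := by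
    intro n
    rcases Nat.eq_zero_or_pos m with h0 | h0
    · rw [h0, pow_zero]
      exact one_dvd _
    · have h3 := hmin (m - 1) (by omega)
      push Not at h3
      have h4 := h3 n
      rwa [Nat.sub_add_cancel h0] at h4
  obtain ⟨Q, hQ⟩ := (Polynomial.C_dvd_iff_dvd_coeff _ _).2 h2
  refine ⟨m, Q, hQ, ?_⟩
  obtain ⟨n, hn⟩ := hm
  refine ⟨n, fun hdvd => hn ?_⟩
  rw [hQ, Polynomial.coeff_C_mul, pow_succ]
  exact mul_dvd_mul_left _ hdvd

/-- The residues of the coordinate take finitely many values. -/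
theorem CaseR_fin {R k : Type} [CommRing R] [IsDomain R] [Field k] [Algebra k R] {π : R}
    {χ : R →+* k} (hR : Res π χ) {ρ : Polynomial R} (hρ : ρ ≠ 0) (p₀ : R) (e : ℕ) {ξ : ℕ → R}
    (h : ∀ I : ℕ, ∃ T, ∀ t, T ≤ t → π ^ I ∣ ρ.eval (p₀ + π ^ e * ξ t)) :
    ∃ (T : ℕ) (S : Finset k), ∀ t, T ≤ t → χ (ξ t) ∈ S := by
  classical
  set P : Polynomial R := ρ.comp (Polynomial.C p₀ + Polynomial.C (π ^ e) * Polynomial.X) with hP
  have hπ0 : π ≠ 0 := hR.unif.prime.ne_zero
  have hdeg : (Polynomial.C p₀ + Polynomial.C (π ^ e) * Polynomial.X).natDegree = 1 := by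
    rw [Polynomial.natDegree_C_add, Polynomial.natDegree_C_mul_X _ (pow_ne_zero _ hπ0)]
  have hP0 : P ≠ 0 := by
    intro h0
    rw [hP, Polynomial.comp_eq_zero_iff] at h0
    rcases h0 with h0 | ⟨-, h0⟩
    · exact hρ h0
    · rw [h0, Polynomial.natDegree_C] at hdeg
      exact absurd hdeg (by norm_num)
  obtain ⟨m, Q, hQ, n, hn⟩ := CaseR_poly hR.unif hP0
  obtain ⟨T, hT⟩ := h (m + 1)
  have hQ0 : Q.map χ ≠ 0 := by
    intro h0
    apply hn
    rw [← hR.ker, ← Polynomial.coeff_map, h0, Polynomial.coeff_zero]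
  refine ⟨T, (Q.map χ).roots.toFinset, fun t ht => ?_⟩
  rw [Multiset.mem_toFinset, Polynomial.mem_roots hQ0, Polynomial.IsRoot.def,
    Polynomial.eval_map_apply, hR.ker]
  have h1 := hT t ht
  have h2 : ρ.eval (p₀ + π ^ e * ξ t) = π ^ m * Q.eval (ξ t) := by
    have h3 : P.eval (ξ t) = ρ.eval (p₀ + π ^ e * ξ t) := by
      rw [hP, Polynomial.eval_comp]
      simp
    rw [← h3, hQ, Polynomial.eval_mul, Polynomial.eval_C]
  rw [h2, pow_succ] at h1
  exact (mul_dvd_mul_iff_left (pow_ne_zero _ hπ0)).1 h1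

theorem case_R {R k : Type} [CommRing R] [IsDomain R] [Field k] [IsAlgClosed k] [CharZero k]
    [Algebra k ℂ] [Algebra k R] {π : R} {χ : R →+* k} (hR : Res π χ) {G : Subgroup kˣ}
    (hG : TorsFree G) {α β : Type} [Fintype α] [DecidableEq α] [Fintype β] [DecidableEq β]
    {M₁ : Matrix α α k} (hM₁ : M₁.det ≠ 0) (hE : EigIn G M₁) {A0 : MvPolynomial (α ⊕ β) R}
    {A : α ⊕ β → MvPolynomial (α ⊕ β) R} (hA : GermN π A0 A)
    (hL : LinN χ A0 A (Matrix.fromBlocks M₁ 0 0 0)) {p : ℕ → α ⊕ β → R} (hp : OrbN π A0 A p)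
    {σ : Type} [Finite σ] {H : σ → MvPolynomial (α ⊕ β) R}
    (hinf : {j | ∀ i, eval (p j) (H i) = 0}.Infinite)
    (hρ : ∀ a, ∃ ρ : Polynomial R, ρ ≠ 0 ∧ ∀ I j, (∀ i, π ^ I ∣ eval (p j) (H i)) →
      (∀ i, π ^ I ∣ eval (p (j + 1)) (H i)) → π ^ I ∣ ρ.eval (p j (Sum.inl a))) :
    Conv π (fun s => p (s + 1)) p := by
  classical
  have hgeo := det_geom_ne_zero hG M₁ hE
  rcases dichotomy hR hM₁ hgeo (fun j j' => germ_contr hR hA hL hp hp j j') with
    h | ⟨j₀, e, ξ, hξ, hsep⟩
  · exact h
  exfalso
  -- the exponent is positive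
  have he : 1 ≤ e := by
    by_contra he0
    have he1 : e = 0 := by omega
    obtain ⟨a, ha⟩ := hsep 0 1 (by norm_num)
    apply ha
    have h0 := hξ 0 (Sum.inl a)
    have h1 := hξ 1 (Sum.inl a)
    rw [he1, pow_zero, one_mul] at h0 h1
    have h2 : ξ 0 (Sum.inl a) - ξ 1 (Sum.inl a) =
        p (j₀ + 0) (Sum.inl a) - p (j₀ + 1) (Sum.inl a) := by
      rw [h0, h1]
      ring
    rw [h2]
    exact dvd_sub (hp.small _ _) (hp.small _ _)
  -- the values of the equations tend to zero
  have hepr := epr_of_rec hR M₁ hE (germ_rec hR hA hL hp he hξ)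
  have hval : ∀ i (I : ℕ), ∃ T, ∀ t, T ≤ t → π ^ I ∣ eval (p (j₀ + t)) (H i) := by
    intro i I
    obtain ⟨Q, hQ⟩ := eval_resc (H i) (p j₀) (π ^ e)
    have h1 : ∀ t, eval (p (j₀ + t)) (H i) = eval (ξ t) Q := by
      intro t
      rw [← hQ]
      congr 1
      have h2 : p (j₀ + t) = fun i => p j₀ i + π ^ e * ξ t i := funext fun i => hξ t i
      rw [h2]
    have h3 : EPR G π I (fun t => eval (ξ t) Q) := epr_eval hR (hepr I) Q
    obtain ⟨T, hT⟩ := epr_zero hR hG h3 (by
      have h4 : ({j | ∀ i, eval (p j) (H i) = 0} \ {j | j < j₀}).Infinite :=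
        hinf.sdiff (Set.finite_lt_nat j₀)
      have h5 : ((fun j => j - j₀) '' ({j | ∀ i, eval (p j) (H i) = 0} \ {j | j < j₀})).Infinite := by
        refine h4.image ?_
        intro a ha b hb hab
        have ha1 : ¬ a < j₀ := ha.2
        have hb1 : ¬ b < j₀ := hb.2
        simp only at hab
        omega
      refine h5.mono ?_
      rintro _ ⟨j, ⟨hj, hj'⟩, rfl⟩
      have hj1 : ¬ j < j₀ := hj'
      show π ^ I ∣ eval (ξ (j - j₀)) Q
      rw [← h1]
      have h6 : j₀ + (j - j₀) = j := by omega
      rw [h6]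
      have h7 := hj i
      rw [h7]
      exact dvd_zero _)
    exact ⟨T, fun t ht => by rw [h1]; exact hT t ht⟩
  have hval' : ∀ (I : ℕ), ∃ T, ∀ t, T ≤ t → ∀ i, π ^ I ∣ eval (p (j₀ + t)) (H i) := by
    intro I
    have := Fintype.ofFinite σ
    choose T hT using fun i => hval i I
    refine ⟨Finset.univ.sup T, fun t ht i => hT i t (le_trans ?_ ht)⟩
    exact Finset.le_sup (f := T) (Finset.mem_univ i)
  -- the coordinates take finitely many values
  have hfin : ∀ a : α, ∃ (T : ℕ) (S : Finset k), ∀ t, T ≤ t → χ (ξ t (Sum.inl a)) ∈ S := by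
    intro a
    obtain ⟨ρ, hρ0, hρ1⟩ := hρ a
    refine CaseR_fin hR hρ0 (p j₀ (Sum.inl a)) e fun I => ?_
    obtain ⟨T, hT⟩ := hval' I
    refine ⟨T, fun t ht => ?_⟩
    rw [← hξ t (Sum.inl a)]
    exact hρ1 I (j₀ + t) (hT t ht) (hT (t + 1) (by omega))
  choose T S hTS using hfin
  set T₀ := Finset.univ.sup T with hT₀
  have hT1 : ∀ t a, χ (ξ (T₀ + t) (Sum.inl a)) ∈ S a := by
    intro t a
    exact hTS a _ (le_trans (Finset.le_sup (f := T) (Finset.mem_univ a)) (by omega))
  -- pigeonhole
  obtain ⟨t, t', hne, heq⟩ : ∃ t t' : ℕ, t ≠ t' ∧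
      (fun a => (⟨χ (ξ (T₀ + t) (Sum.inl a)), hT1 t a⟩ : S a)) =
      (fun a => (⟨χ (ξ (T₀ + t') (Sum.inl a)), hT1 t' a⟩ : S a)) :=
    Finite.exists_ne_map_eq_of_infinite
      (fun t : ℕ => fun a => (⟨χ (ξ (T₀ + t) (Sum.inl a)), hT1 t a⟩ : S a))
  obtain ⟨a, ha⟩ := hsep (T₀ + t) (T₀ + t') (by omega)
  apply ha
  rw [← hR.ker, map_sub, sub_eq_zero]
  exact congrArg Subtype.val (congrFun heq a)

end Pool.Agent.Helper89.TNL

end

section

namespace Pool.Agent.Helper36
end Pool.Agent.Helper36
namespace Pool.Agent.Helper38.TQ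
end Pool.Agent.Helper38.TQ

/-!
# A basis adapted to the derivative at a periodic point
-/

set_option autoImplicit false

namespace Pool.Agent.Helper89.TNL

open MvPolynomial

open Pool.Agent.Helper36 (step iter)

open Pool.Agent.Helper38.TQ

/-- A nonzero vector is the first vector of a basis. -/
theorem Adapt_basis {ν : ℕ} {k : Type} [Field k] {z : Fin (ν + 1) → k} (hz : z ≠ 0) :
    ∃ (E : Matrix (Fin (ν + 1)) (Option (Fin ν)) k) (B : Matrix (Option (Fin ν)) (Fin (ν + 1)) k),
      (∀ i, E i none = z i) ∧ B * E = 1 ∧ E * B = 1 := by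
  classical
  obtain ⟨i0, hi0⟩ : ∃ i, z i ≠ 0 := by
    by_contra h
    push Not at h
    exact hz (funext h)
  refine ⟨Matrix.of fun i a => a.elim (z i) (fun j => if i = i0.succAbove j then 1 else 0),
    Matrix.of fun a i => a.elim (if i = i0 then (z i0)⁻¹ else 0)
      (fun j => (if i = i0.succAbove j then 1 else 0) -
        (if i = i0 then (z i0)⁻¹ * z (i0.succAbove j) else 0)), fun i => rfl, ?_, ?_⟩
  · ext a b
    rw [Matrix.mul_apply, Fin.sum_univ_succAbove _ i0]
    rcases a with _ | j <;> rcases b with _ | l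
    · simp [Fin.succAbove_ne, hi0]
    · simp [Fin.succAbove_ne, (Fin.succAbove_ne i0 l).symm]
    · simp [Fin.succAbove_ne, (Fin.succAbove_ne i0 j).symm, hi0, Finset.sum_ite_eq]
      field_simp
      ring
    · simp [Fin.succAbove_ne, (Fin.succAbove_ne i0 j).symm, (Fin.succAbove_ne i0 l).symm,
        Matrix.one_apply, eq_comm]
  · ext i i'
    rw [Matrix.mul_apply, Fintype.sum_option, Matrix.one_apply]
    simp only [Matrix.of_apply, Option.elim_none, Option.elim_some]
    rcases Fin.eq_self_or_eq_succAbove i0 i with h | ⟨j, h⟩ <;>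
      rcases Fin.eq_self_or_eq_succAbove i0 i' with h' | ⟨j', h'⟩
    · subst h; subst h'
      simp [(Fin.succAbove_ne _ _).symm, hi0]
    · subst h; subst h'
      simp [(Fin.succAbove_ne _ _).symm, Fin.succAbove_ne]
    · subst h; subst h'
      simp [(Fin.succAbove_ne _ _).symm, Fin.succAbove_ne]
      field_simp
      ring
    · subst h; subst h'
      simp [(Fin.succAbove_ne _ _).symm, Fin.succAbove_ne, eq_comm]

theorem Adapt_core {ν : ℕ} {k : Type} [Field k] {z : Fin (ν + 1) → k} (hz : z ≠ 0)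
    (W : Matrix (Fin (ν + 1)) (Fin (ν + 1)) k) {g c₀ : k} (hg : g ≠ 0)
    (hW : W.mulVec z = c₀ • z) :
    ∃ (E : Matrix (Fin (ν + 1)) (Option (Fin ν)) k) (B : Matrix (Option (Fin ν)) (Fin (ν + 1)) k)
      (M₀ : Matrix (Fin ν) (Fin ν) k), (∀ i, E i none = z i) ∧ B * E = 1 ∧ E * B = 1 ∧
      ∀ Q : ℕ, ∃ β : Fin ν → k, ∀ j i,
        (W ^ Q * E) i (some j) = g ^ Q * ∑ l, (M₀ ^ Q) l j * E i (some l) + β j * z i := by
  classical
  obtain ⟨E, B, hE, hBE, hEB⟩ := Adapt_basis hz
  refine ⟨E, B, Matrix.of fun i j => g⁻¹ * (B * W * E) (some i) (some j), hE, hBE, hEB, ?_⟩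
  set D : Matrix (Option (Fin ν)) (Option (Fin ν)) k := B * W * E with hD
  set M₀ : Matrix (Fin ν) (Fin ν) k := Matrix.of fun i j => g⁻¹ * D (some i) (some j) with hM₀
  have hWE : W * E = E * D := by
    rw [hD, ← Matrix.mul_assoc, ← Matrix.mul_assoc, hEB, Matrix.one_mul]
  have hpow : ∀ Q : ℕ, W ^ Q * E = E * D ^ Q := by
    intro Q
    induction Q with
    | zero => rw [pow_zero, pow_zero, Matrix.one_mul, Matrix.mul_one]
    | succ Q ih =>
      rw [pow_succ, Matrix.mul_assoc, hWE, ← Matrix.mul_assoc, ih, Matrix.mul_assoc, ← pow_succ]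
  have hnone : ∀ a, D (some a) none = 0 := by
    intro a
    have h1 : ∀ p, (W * E) p none = c₀ * E p none := by
      intro p
      have h2 := congrFun hW p
      rw [Pi.smul_apply, smul_eq_mul] at h2
      rw [hE, ← h2, Matrix.mul_apply]
      refine Finset.sum_congr rfl fun i _ => ?_
      rw [hE]
    have h3 : D (some a) none = c₀ * (B * E) (some a) none := by
      rw [hD, Matrix.mul_assoc, Matrix.mul_apply, Matrix.mul_apply, Finset.mul_sum]
      refine Finset.sum_congr rfl fun p _ => ?_
      rw [h1]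
      ring
    rw [h3, hBE, Matrix.one_apply_ne (by simp), mul_zero]
  have hDs : ∀ (Q : ℕ) (i j : Fin ν), (D ^ Q) (some i) (some j) = g ^ Q * (M₀ ^ Q) i j := by
    intro Q
    induction Q with
    | zero =>
      intro i j
      rw [pow_zero, pow_zero, pow_zero, one_mul, Matrix.one_apply, Matrix.one_apply]
      simp
    | succ Q ih =>
      intro i j
      rw [pow_succ', Matrix.mul_apply, Fintype.sum_option, hnone, zero_mul, zero_add,
        pow_succ' M₀, Matrix.mul_apply, Finset.mul_sum]
      refine Finset.sum_congr rfl fun l _ => ?_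
      have hD0 : D (some i) (some l) = g * M₀ i l := by
        rw [hM₀, Matrix.of_apply, ← mul_assoc, mul_inv_cancel₀ hg, one_mul]
      rw [ih, hD0]
      ring
  intro Q
  refine ⟨fun j => (D ^ Q) none (some j), fun j i => ?_⟩
  rw [hpow, Matrix.mul_apply, Fintype.sum_option, hE, Finset.mul_sum, add_comm, mul_comm (z i)]
  congr 1
  refine Finset.sum_congr rfl fun l _ => ?_
  rw [hDs]
  ring

theorem exists_adapted {ν : ℕ} {k : Type} [Field k] [IsAlgClosed k] [CharZero k] {d : ℕ}
    {f : Fin (ν + 1) → MvPolynomial (Fin (ν + 1)) k} (hf : IsEndo d f) {z : Fin (ν + 1) → k}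
    (hz : z ≠ 0) {N : ℕ} (hN : 0 < N) (hper : PEq z (iter f z N)) :
    ∃ (Q m m' : ℕ) (e : Option (Fin m ⊕ Fin m') → Fin (ν + 1) → k)
      (B : Fin (ν + 1) → Option (Fin m ⊕ Fin m') → k) (M₁ : Matrix (Fin m) (Fin m) k)
      (G : Subgroup kˣ) (γ : k) (α : Fin m ⊕ Fin m' → k), 0 < Q ∧ e none = z ∧
      (∀ a a', ∑ i, e a i * B i a' = if a = a' then 1 else 0) ∧
      (∀ i i', ∑ a, B i a * e a i' = if i = i' then 1 else 0) ∧ γ ≠ 0 ∧
      iter f z (N * Q) = γ • z ∧
      (∀ a, (mult f z (N * Q)).mulVec (e (some a)) =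
        γ • ∑ i, Matrix.fromBlocks M₁ 0 0 0 i a • e (some i) + α a • z) ∧
      M₁.det ≠ 0 ∧ TorsFree G ∧ EigIn G M₁ := by
  classical
  obtain ⟨g, hg, hgz⟩ := hper
  have hd : (d : k) ≠ 0 := by
    have := hf.two_le
    exact_mod_cast (by omega : d ≠ 0)
  set W := mult f z N with hWdef
  have hW : W.mulVec z = ((d : k) ^ N * g) • z := by
    rw [hWdef, mult_mulVec_self hf.hom, hgz, smul_smul]
  have hiter : ∀ Q : ℕ, ∃ gQ κ : k, gQ ≠ 0 ∧ κ ≠ 0 ∧ iter f z (N * Q) = gQ • z ∧
      mult f z (N * Q) = κ • W ^ Q := by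
    intro Q
    induction Q with
    | zero =>
      refine ⟨1, 1, one_ne_zero, one_ne_zero, ?_, ?_⟩
      · rw [mul_zero, one_smul]; rfl
      · rw [mul_zero, one_smul, pow_zero]; rfl
    | succ Q ih =>
      obtain ⟨gQ, κ, h1, h2, h3, h4⟩ := ih
      obtain ⟨c', hc', h5⟩ := mult_smul hf.hom z h1 N
      refine ⟨gQ ^ d ^ N * g, c' * κ, mul_ne_zero (pow_ne_zero _ h1) hg, mul_ne_zero hc' h2, ?_, ?_⟩
      · rw [mul_add, mul_one, add_comm (N * Q) N, Helper36.iter_add, h3, iter_smul hf, hgz, smul_smul]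
      · rw [mul_add, mul_one, mult_addN, h3, h5, h4, pow_succ', Matrix.smul_mul, Matrix.mul_smul,
          smul_smul, ← hWdef]
  obtain ⟨E, B₀, M₀, hE, hBE, hEB, hcore⟩ := Adapt_core hz W hg hW
  obtain ⟨Q, m, m', P, P', M₁, G, hQ, hPP, hPP', hfit, hdet, htor, heig⟩ := exists_fitting M₀
  obtain ⟨γ, κ, hγ, hκ, hγz, hmul⟩ := hiter Q
  obtain ⟨β, hβ⟩ := hcore Q
  have hκγ : κ * g ^ Q = γ := by
    have h1 := mult_mulVec_self hf.hom z (N * Q)
    rw [hmul, hγz, smul_smul] at h1
    have h2 : ∀ R : ℕ, (W ^ R).mulVec z = ((d : k) ^ N * g) ^ R • z := by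
      intro R
      induction R with
      | zero => rw [pow_zero, pow_zero, Matrix.one_mulVec, one_smul]
      | succ R ih =>
        rw [pow_succ, ← Matrix.mulVec_mulVec, hW, Matrix.mulVec_smul, ih, smul_smul, pow_succ']
    rw [Matrix.smul_mulVec, h2, smul_smul] at h1
    have h3 : κ * ((d : k) ^ N * g) ^ Q = (d : k) ^ (N * Q) * γ := smul_left_injective k hz h1
    have h4 : (d : k) ^ (N * Q) ≠ 0 := pow_ne_zero _ hd
    apply mul_left_cancel₀ h4
    rw [← h3, mul_pow, ← pow_mul]
    ring
  refine ⟨Q, m, m', fun a i => a.elim (z i) (fun b => ∑ l, P l b * E i (some l)),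
    fun i a => a.elim (B₀ none i) (fun b => ∑ l, B₀ (some l) i * P' b l), M₁, G, γ,
    fun a => κ * ∑ l, P l a * β l, hQ, rfl, ?_, ?_, hγ, hγz, ?_, hdet, htor, heig⟩
  · have hBE' : ∀ a b, ∑ i, E i b * B₀ a i = if b = a then 1 else 0 := by
      intro a b
      have := congrFun (congrFun hBE a) b
      rw [Matrix.mul_apply, Matrix.one_apply] at this
      rw [show (∑ i, E i b * B₀ a i) = ∑ i, B₀ a i * E i b from
        Finset.sum_congr rfl fun i _ => mul_comm _ _, this]
      simp [eq_comm]
    intro a a'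
    rcases a with _ | b <;> rcases a' with _ | b'
    · simp only [Option.elim_none, ← hE]
      rw [hBE']
      simp
    · simp only [Option.elim_none, Option.elim_some, ← hE]
      rw [if_neg (by simp)]
      simp_rw [Finset.mul_sum]
      rw [Finset.sum_comm]
      refine Finset.sum_eq_zero fun l _ => ?_
      have : ∀ i, E i none * (B₀ (some l) i * P' b' l) = P' b' l * (E i none * B₀ (some l) i) :=
        fun i => by ring
      rw [Finset.sum_congr rfl fun i _ => this i, ← Finset.mul_sum, hBE', if_neg (by simp),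
        mul_zero]
    · simp only [Option.elim_none, Option.elim_some]
      rw [if_neg (by simp)]
      simp_rw [Finset.sum_mul]
      rw [Finset.sum_comm]
      refine Finset.sum_eq_zero fun l _ => ?_
      have : ∀ i, P l b * E i (some l) * B₀ none i = P l b * (E i (some l) * B₀ none i) :=
        fun i => by ring
      rw [Finset.sum_congr rfl fun i _ => this i, ← Finset.mul_sum, hBE', if_neg (by simp),
        mul_zero]
    · simp only [Option.elim_some]
      have h1 : ∀ i, (∑ l, P l b * E i (some l)) * (∑ l, B₀ (some l) i * P' b' l) =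
          ∑ l, ∑ l', P l b * P' b' l' * (E i (some l) * B₀ (some l') i) := by
        intro i
        rw [Finset.sum_mul_sum]
        refine Finset.sum_congr rfl fun l _ => Finset.sum_congr rfl fun l' _ => ?_
        ring
      rw [Finset.sum_congr rfl fun i _ => h1 i, Finset.sum_comm]
      have h2 : ∀ l, ∑ i, ∑ l', P l b * P' b' l' * (E i (some l) * B₀ (some l') i) =
          P' b' l * P l b := by
        intro l
        rw [Finset.sum_comm]
        rw [Finset.sum_eq_single l]
        · rw [← Finset.mul_sum, hBE', if_pos rfl]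
          ring
        · intro l' _ hl'
          rw [← Finset.mul_sum, hBE', if_neg (by simpa using hl'.symm), mul_zero]
        · intro h
          exact absurd (Finset.mem_univ _) h
      rw [Finset.sum_congr rfl fun l _ => h2 l]
      have h3 := congrFun (congrFun hPP' b') b
      rw [Matrix.mul_apply, Matrix.one_apply] at h3
      rw [h3]
      simp [eq_comm]
  · intro i i'
    rw [Fintype.sum_option]
    simp only [Option.elim_none, Option.elim_some]
    have h1 : ∀ b : Fin m ⊕ Fin m', (∑ l, B₀ (some l) i * P' b l) * (∑ l, P l b * E i' (some l)) =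
        ∑ l, ∑ l', (B₀ (some l) i * E i' (some l')) * (P l' b * P' b l) := by
      intro b
      rw [Finset.sum_mul_sum]
      refine Finset.sum_congr rfl fun l _ => Finset.sum_congr rfl fun l' _ => ?_
      ring
    have h2 : ∀ l, ∑ b : Fin m ⊕ Fin m', ∑ l', (B₀ (some l) i * E i' (some l')) *
        (P l' b * P' b l) = B₀ (some l) i * E i' (some l) := by
      intro l
      rw [Finset.sum_comm]
      rw [Finset.sum_eq_single l]
      · rw [← Finset.mul_sum]
        have h3 := congrFun (congrFun hPP l) l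
        rw [Matrix.mul_apply, Matrix.one_apply_eq] at h3
        rw [h3, mul_one]
      · intro l' _ hl'
        rw [← Finset.mul_sum]
        have h3 := congrFun (congrFun hPP l') l
        rw [Matrix.mul_apply, Matrix.one_apply_ne hl'] at h3
        rw [h3, mul_zero]
      · intro h
        exact absurd (Finset.mem_univ _) h
    rw [Finset.sum_congr rfl fun b _ => h1 b, Finset.sum_comm, Finset.sum_congr rfl fun l _ => h2 l]
    have h4 := congrFun (congrFun hEB i') i
    rw [Matrix.mul_apply, Matrix.one_apply, Fintype.sum_option, hE] at h4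
    rw [mul_comm (B₀ none i), show (∑ l, B₀ (some l) i * E i' (some l)) =
      ∑ l, E i' (some l) * B₀ (some l) i from Finset.sum_congr rfl fun l _ => mul_comm _ _, h4]
    simp [eq_comm]
  · intro a
    funext i
    have h1 : (mult f z (N * Q)).mulVec (fun i => ∑ l, P l a * E i (some l)) i =
        κ * ∑ l, P l a * (W ^ Q * E) i (some l) := by
      rw [hmul, Matrix.smul_mulVec, Pi.smul_apply, smul_eq_mul]
      congr 1
      simp only [Matrix.mulVec, dotProduct, Matrix.mul_apply, Finset.mul_sum]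
      rw [Finset.sum_comm]
      refine Finset.sum_congr rfl fun l _ => Finset.sum_congr rfl fun j _ => ?_
      ring
    have h4 : ∑ l, P l a * ∑ l', (M₀ ^ Q) l' l * E i (some l') =
        ∑ b, Matrix.fromBlocks M₁ 0 0 0 b a * ∑ l', P l' b * E i (some l') := by
      rw [← hfit]
      have h5 : ∑ l, P l a * ∑ l', (M₀ ^ Q) l' l * E i (some l') =
          Matrix.vecMul (Matrix.vecMul (fun l => E i (some l)) (M₀ ^ Q)) P a := by
        simp only [Matrix.vecMul, dotProduct]
        refine Finset.sum_congr rfl fun l _ => ?_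
        rw [mul_comm]
        congr 1
        exact Finset.sum_congr rfl fun l' _ => mul_comm _ _
      have h6 : ∑ b, (P' * M₀ ^ Q * P) b a * ∑ l', P l' b * E i (some l') =
          Matrix.vecMul (Matrix.vecMul (fun l => E i (some l)) P) (P' * M₀ ^ Q * P) a := by
        simp only [Matrix.vecMul, dotProduct]
        refine Finset.sum_congr rfl fun l _ => ?_
        rw [mul_comm]
        congr 1
        exact Finset.sum_congr rfl fun l' _ => mul_comm _ _
      rw [h5, h6, Matrix.vecMul_vecMul, Matrix.vecMul_vecMul, ← Matrix.mul_assoc, ← Matrix.mul_assoc,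
        hPP, Matrix.one_mul]
    show (mult f z (N * Q)).mulVec (fun i => ∑ l, P l a * E i (some l)) i = _
    rw [h1]
    simp_rw [hβ]
    rw [Pi.add_apply, Pi.smul_apply, Pi.smul_apply, Finset.sum_apply]
    simp only [Pi.smul_apply, smul_eq_mul, Option.elim_some]
    rw [← h4, ← hκγ]
    simp only [mul_add, Finset.sum_add_distrib, Finset.mul_sum, Finset.sum_mul]
    congr 1
    · refine Finset.sum_congr rfl fun l _ => Finset.sum_congr rfl fun l' _ => ?_
      ring
    · refine Finset.sum_congr rfl fun l _ => ?_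
      ring

end Pool.Agent.Helper89.TNL

end

section

namespace Pool.Agent.Helper16
end Pool.Agent.Helper16
namespace Pool.Agent.Helper36
end Pool.Agent.Helper36
namespace Pool.Agent.Helper38.TQ
end Pool.Agent.Helper38.TQ
namespace Pool.Agent.Helper30.TKN
end Pool.Agent.Helper30.TKN

/-!
# The germ of the iterate in a chart
-/

set_option autoImplicit false

namespace Pool.Agent.Helper89.TNL

open MvPolynomial

open Pool.Agent.Helper16 (Place IsFunctionField)

open Pool.Agent.Helper36 (step iter)

open Pool.Agent.Helper38.TQ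

open Pool.Agent.Helper30.TKN

variable {ν : ℕ} {k K : Type} [Field k] [Field K] [Algebra k K] {b : Place k K} {π : b.ring}
  {χ : b.ring →+* k} {ι : Type} [Fintype ι] [DecidableEq ι]

private theorem germP_chi_eval {S : Type} [CommRing S] [Algebra k S] (χ : S →+* k)
    (hχ : ∀ c : k, χ (algebraMap k S c) = c)
    (v : Fin (ν + 1) → k) (P : MvPolynomial (Fin (ν + 1)) S) :
    χ (eval (fun i => algebraMap k S (v i)) P) = eval v (map χ P) := by
  rw [eval_map, ← coe_eval₂Hom, ← RingHom.comp_apply]
  congr 1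
  refine MvPolynomial.ringHom_ext (fun r => ?_) (fun i => ?_)
  · simp
  · simp [hχ]

private theorem germP_pt {S : Type} [CommRing S] {e : Option ι → Fin (ν + 1) → S}
    {B : Fin (ν + 1) → Option ι → S}
    (h₁ : ∀ a a', ∑ i, e a i * B i a' = if a = a' then 1 else 0) (q : ι → S) :
    ∑ i, B i none * ptN e q i = 1 ∧ ∀ l, ∑ i, B i (some l) * ptN e q i = q l := by
  have h : ∀ a, ∑ i, B i a * ptN e q i =
      (if none = a then 1 else 0) + ∑ l, q l * (if some l = a then 1 else 0) := by
    intro a
    have h2 : ∀ i, B i a * ptN e q i = e none i * B i a + ∑ l, q l * (e (some l) i * B i a) := by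
      intro i
      unfold ptN
      rw [mul_add, Finset.mul_sum, mul_comm (B i a)]
      congr 1
      exact Finset.sum_congr rfl fun l _ => by ring
    rw [Finset.sum_congr rfl fun i _ => h2 i, Finset.sum_add_distrib, h₁, Finset.sum_comm]
    congr 1
    refine Finset.sum_congr rfl fun l _ => ?_
    rw [← h₁, Finset.mul_sum]
  refine ⟨?_, fun l => ?_⟩
  · rw [h]; simp
  · rw [h]; simp

theorem exists_germ (hR : Res π χ)
    (hπ : ∀ (r : b.ring) (n : ℕ), π ^ n ∣ r ↔ b.val (r : K) ≤ WithZero.exp (-(n : ℤ)))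
    {e : Option ι → Fin (ν + 1) → k} {B : Fin (ν + 1) → Option ι → k}
    (h₁ : ∀ a a', ∑ i, e a i * B i a' = if a = a' then 1 else 0)
    (h₂ : ∀ i i', ∑ a, B i a * e a i' = if i = i' then 1 else 0) {d : ℕ}
    {F : Fin (ν + 1) → MvPolynomial (Fin (ν + 1)) K}
    {f : Fin (ν + 1) → MvPolynomial (Fin (ν + 1)) k} (hF : ∀ i, (F i).IsHomogeneous d)
    (hf : GoodRed d b F f) {N : ℕ} {γ : k} (hγ : γ ≠ 0)
    (hfix : iter f (e none) N = γ • e none) {M : Matrix ι ι k} {α : ι → k}
    (hlin : ∀ a, (mult f (e none) N).mulVec (e (some a)) =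
      γ • ∑ i, M i a • e (some i) + α a • e none) :
    ∃ (A0 : MvPolynomial ι b.ring) (A : ι → MvPolynomial ι b.ring), GermN π A0 A ∧
      LinN χ A0 A M ∧ ∀ (y : ℕ → Fin (ν + 1) → K) (c : ℕ → K) (q : ℕ → ι → b.ring),
        (∀ s, c s ≠ 0) → (∀ s i, π ∣ q s i) →
        (∀ s j, y s j = c s * algebraMap b.ring K (ptN (eR b e) (q s) j)) →
        (∀ s, y (s + 1) = iter F (y s) N) → OrbN π A0 A q := by
  classical
  choose Φ hΦK hΦχ using fun i => exists_liftN hR hπ (redP_itN hf.red N i)
  obtain ⟨BR, hBR⟩ : ∃ BR : Fin (ν + 1) → Option ι → b.ring,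
      ∀ i a, BR i a = algebraMap k b.ring (B i a) := ⟨_, fun _ _ => rfl⟩
  have hBR1 : ∀ a a', ∑ i, eR b e a i * BR i a' = if a = a' then 1 else 0 := by
    intro a a'
    have h := congrArg (algebraMap k b.ring) (h₁ a a')
    rw [map_sum] at h
    simp only [map_mul] at h
    have h2 : ∑ i, eR b e a i * BR i a' =
        ∑ i, algebraMap k b.ring (e a i) * algebraMap k b.ring (B i a') :=
      Finset.sum_congr rfl fun i _ => by rw [hBR]; rfl
    rw [h2, h]
    split_ifs <;> simp
  obtain ⟨A, hA⟩ : ∃ A : Option ι → MvPolynomial ι b.ring,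
      ∀ a, A a = ∑ i, C (BR i a) * chN (eR b e) (Φ i) := ⟨_, fun _ => rfl⟩
  have hev : ∀ a (u : ι → b.ring),
      eval u (A a) = ∑ i, BR i a * eval (ptN (eR b e) u) (Φ i) := by
    intro a u
    rw [hA, map_sum]
    refine Finset.sum_congr rfl fun i _ => ?_
    rw [map_mul, eval_C, eval_chN]
  have hco : ∀ a m, (A a).coeff m = ∑ i, BR i a * (chN (eR b e) (Φ i)).coeff m := by
    intro a m
    rw [hA, coeff_sum]
    refine Finset.sum_congr rfl fun i _ => ?_
    rw [coeff_C_mul]
  have hBχ : ∀ i a, χ (BR i a) = B i a := by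
    intro i a
    rw [hBR, hR.sec]
  have hc0 : ∀ a, χ ((A a).coeff 0) = γ * if none = a then 1 else 0 := by
    intro a
    rw [hco, map_sum, ← h₁, Finset.mul_sum]
    refine Finset.sum_congr rfl fun i _ => ?_
    have h2 : χ (eval (eR b e none) (Φ i)) = γ * e none i := by
      have h3 := germP_chi_eval χ hR.sec (e none) (Φ i)
      rw [hΦχ, eval_itN, hfix] at h3
      exact h3
    rw [map_mul, hBχ, coeff_chN_zero, h2]
    ring
  have hc1 : ∀ a j, χ ((A a).coeff (Finsupp.single j 1)) =
      γ * ∑ i, M i j * (if some i = a then 1 else 0) + α j * if none = a then 1 else 0 := by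
    intro a j
    have h2 : ∀ l, χ ((chN (eR b e) (Φ l)).coeff (Finsupp.single j 1)) =
        γ * ∑ i, M i j * e (some i) l + α j * e none l := by
      intro l
      have h4 := congrFun (hlin j) l
      rw [Pi.add_apply, Pi.smul_apply, Finset.sum_apply, Pi.smul_apply, smul_eq_mul,
        smul_eq_mul] at h4
      simp only [Pi.smul_apply, smul_eq_mul] at h4
      rw [← h4, coeff_chN_single, map_sum, Matrix.mulVec, dotProduct]
      refine Finset.sum_congr rfl fun m _ => ?_
      have h5 := germP_chi_eval χ hR.sec (e none) (pderiv m (Φ l))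
      rw [← pderiv_map, hΦχ, pderiv_itN] at h5
      have h6 : χ (eR b e (some j) m) = e (some j) m := hR.sec _
      rw [map_mul, h6, ← h5]
      rfl
    rw [hco, map_sum]
    have h3 : ∀ l, χ (BR l a * (chN (eR b e) (Φ l)).coeff (Finsupp.single j 1)) =
        γ * ∑ i, M i j * (e (some i) l * B l a) + α j * (e none l * B l a) := by
      intro l
      rw [map_mul, hBχ, h2, mul_add, Finset.mul_sum, Finset.mul_sum, Finset.mul_sum]
      congr 1
      · exact Finset.sum_congr rfl fun i _ => by ring
      · ring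
    rw [Finset.sum_congr rfl fun l _ => h3 l, Finset.sum_add_distrib, ← Finset.mul_sum,
      ← Finset.mul_sum, Finset.sum_comm, h₁]
    congr 2
    refine Finset.sum_congr rfl fun i _ => ?_
    rw [← h₁, Finset.mul_sum]
  refine ⟨A none, fun i => A (some i), ⟨?_, ?_⟩, ?_, ?_⟩
  · rw [← hR.ker, hc0]
    simpa using hγ
  · intro i
    rw [← hR.ker, hc0]
    simp
  · intro i j
    show χ ((A (some i)).coeff (Finsupp.single j 1)) = χ ((A none).coeff 0) * M i j
    rw [hc0, hc1]
    simp
  · intro y c q hc hq hy hstep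
    refine ⟨hq, fun s l => ?_⟩
    have hinj : Function.Injective (algebraMap b.ring K) := Subtype.val_injective
    have h2 : ∀ j, c (s + 1) * algebraMap b.ring K (ptN (eR b e) (q (s + 1)) j) =
        c s ^ (d ^ N) * algebraMap b.ring K (eval (ptN (eR b e) (q s)) (Φ j)) := by
      intro j
      have h3 : y s = c s • fun j => algebraMap b.ring K (ptN (eR b e) (q s) j) := by
        funext j
        exact hy s j
      rw [← hy, hstep, ← eval_itN, h3, eval_smul_hom (itN_hom hF N j), ← hΦK j]
      congr 1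
      rw [eval_map, ← coe_eval₂Hom, ← RingHom.comp_apply]
      congr 1
      refine MvPolynomial.ringHom_ext (fun r => ?_) (fun i => ?_)
      · simp
      · simp
    have h3 : ∀ a, c (s + 1) * algebraMap b.ring K
        (∑ i, BR i a * ptN (eR b e) (q (s + 1)) i) =
        c s ^ (d ^ N) * algebraMap b.ring K (eval (q s) (A a)) := by
      intro a
      rw [hev, map_sum, map_sum, Finset.mul_sum, Finset.mul_sum]
      refine Finset.sum_congr rfl fun i _ => ?_
      rw [map_mul, map_mul, mul_left_comm, h2, mul_left_comm]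
    obtain ⟨g1, g2⟩ := germP_pt hBR1 (q (s + 1))
    have h4 := h3 none
    have h5 := h3 (some l)
    rw [g1, map_one, mul_one] at h4
    rw [g2, h4, mul_assoc] at h5
    have h6 := mul_left_cancel₀ (pow_ne_zero _ (hc s)) h5
    rw [← map_mul] at h6
    rw [mul_comm]
    exact hinj h6

end Pool.Agent.Helper89.TNL

end

section

namespace Pool.Agent.Helper16
end Pool.Agent.Helper16
namespace Pool.Agent.Helper36
end Pool.Agent.Helper36
namespace Pool.Agent.Helper38.TQ
end Pool.Agent.Helper38.TQ
namespace Pool.Agent.Helper30.TKN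
end Pool.Agent.Helper30.TKN
namespace Pool.Agent.Helper63.TN
end Pool.Agent.Helper63.TN

set_option autoImplicit false

namespace Pool.Agent.Helper89.TNL

open MvPolynomial

open Pool.Agent.Helper16 (Place IsFunctionField)

open Pool.Agent.Helper36 (step iter iter_zero iter_succ iter_succ' iter_add)

open Pool.Agent.Helper38.TQ

open Pool.Agent.Helper30.TKN

open Pool.Agent.Helper63.TN (OnI IsCurve NonPer NearPt IsPer pull)

variable {ν : ℕ} {k K : Type} [Field k] [Field K] [Algebra k K] {b : Place k K}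

theorem Place_map_eval {σ : Type} (u : σ → b.ring) (Q : MvPolynomial σ b.ring) :
    algebraMap b.ring K (eval u Q) =
      eval (fun j => algebraMap b.ring K (u j)) (map (algebraMap b.ring K) Q) := by
  rw [eval_map]
  exact (eval₂_comp (algebraMap b.ring K) u Q)

theorem Place_val_le (r : b.ring) : b.val (algebraMap b.ring K r) ≤ 1 := r.2

theorem Place_le_exp (w : WithZero (Multiplicative ℤ)) :
    w ≤ WithZero.exp ((WithZero.log w).toNat : ℤ) := by
  by_cases h : w = 0
  · rw [h]
    exact zero_le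
  · conv_lhs => rw [← WithZero.exp_log h]
    rw [WithZero.exp_le_exp]
    exact Int.self_le_toNat _

/-- The values of a polynomial at integral points are bounded. -/
theorem Place_bound (b : Place k K) (P : MvPolynomial (Fin (ν + 1)) K) :
    ∃ D : ℕ, ∀ u : Fin (ν + 1) → b.ring,
      b.val (eval (fun j => algebraMap b.ring K (u j)) P) ≤ WithZero.exp (D : ℤ) := by
  obtain ⟨c, Q, hc, hQ⟩ := exists_integral b P
  refine ⟨(WithZero.log (b.val c⁻¹)).toNat, fun u => ?_⟩
  have h1 : eval (fun j => algebraMap b.ring K (u j)) P =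
      c⁻¹ * algebraMap b.ring K (eval u Q) := by
    rw [Place_map_eval, hQ, map_mul, eval_C, ← mul_assoc, inv_mul_cancel₀ hc, one_mul]
  rw [h1, map_mul]
  calc b.val c⁻¹ * b.val (algebraMap b.ring K (eval u Q)) ≤ b.val c⁻¹ * 1 :=
        mul_le_mul' le_rfl (Place_val_le _)
    _ = b.val c⁻¹ := mul_one _
    _ ≤ _ := Place_le_exp _

/-- A small multiple with integral coefficients. -/
theorem Place_integral_poly (b : Place k K) (P : Polynomial K) (D : ℕ) :
    ∃ (c : K) (Q : Polynomial b.ring), c ≠ 0 ∧ b.val c ≤ WithZero.exp (-(D : ℤ)) ∧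
      Q.map (algebraMap b.ring K) = Polynomial.C c * P := by
  classical
  obtain ⟨f, hf0, hf⟩ := b.exists_uniformizer
  set E := P.support.sup fun n => (WithZero.log (b.val (P.coeff n))).toNat with hE
  have hpow : b.val (f ^ (D + E)) = WithZero.exp (-((D + E : ℕ) : ℤ)) := by
    rw [map_pow, hf, ← WithZero.exp_nsmul]
    congr 1
    rw [nsmul_eq_mul]
    ring
  have hmem : Polynomial.C (f ^ (D + E)) * P ∈ Polynomial.lifts (algebraMap b.ring K) := by
    rw [Polynomial.lifts_iff_coeff_lifts]
    intro n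
    have h1 : b.val ((Polynomial.C (f ^ (D + E)) * P).coeff n) ≤ 1 := by
      rw [Polynomial.coeff_C_mul, map_mul, hpow]
      by_cases hn : n ∈ P.support
      · have h2 : (WithZero.log (b.val (P.coeff n))).toNat ≤ E :=
          Finset.le_sup (f := fun n => (WithZero.log (b.val (P.coeff n))).toNat) hn
        calc WithZero.exp (-((D + E : ℕ) : ℤ)) * b.val (P.coeff n) ≤
            WithZero.exp (-((D + E : ℕ) : ℤ)) *
              WithZero.exp ((WithZero.log (b.val (P.coeff n))).toNat : ℤ) :=
              mul_le_mul' le_rfl (Place_le_exp _)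
          _ = WithZero.exp (-((D + E : ℕ) : ℤ) +
              ((WithZero.log (b.val (P.coeff n))).toNat : ℤ)) := (WithZero.exp_add _ _).symm
          _ ≤ WithZero.exp 0 := by
              rw [WithZero.exp_le_exp]
              push_cast
              omega
          _ = 1 := WithZero.exp_zero
      · rw [Polynomial.notMem_support_iff.1 hn, map_zero, mul_zero]
        exact zero_le
    exact ⟨⟨_, h1⟩, rfl⟩
  obtain ⟨Q, hQ⟩ := (Polynomial.mem_lifts _).1 hmem
  refine ⟨f ^ (D + E), Q, pow_ne_zero _ hf0, ?_, hQ⟩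
  rw [hpow, WithZero.exp_le_exp]
  push_cast
  omega

theorem Place_dehom_eval (P : MvPolynomial (Fin 2) K) (t : K) :
    Polynomial.eval t (aeval (![1, Polynomial.X] : Fin 2 → Polynomial K) P) =
      eval ![1, t] P := by
  induction P using MvPolynomial.induction_on with
  | C a => simp
  | add p q hp hq => rw [map_add, map_add, Polynomial.eval_add, hp, hq]
  | mul_X p i hp =>
    rw [map_mul, map_mul, Polynomial.eval_mul, hp, aeval_X, eval_X]
    congr 1
    fin_cases i
    · simp
    · simp

/-- The dehomogenisation of a binary form is not zero. -/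
theorem Place_dehom [Infinite K] {P : MvPolynomial (Fin 2) K} {e : ℕ} (hP : P.IsHomogeneous e)
    (h0 : P ≠ 0) : aeval (![1, Polynomial.X] : Fin 2 → Polynomial K) P ≠ 0 := by
  intro h
  refine h0 (form_two_eq_zero hP fun t => ?_)
  rw [← Place_dehom_eval, h, Polynomial.eval_zero]

/-- The polynomials whose values at the points `U s` are small whenever the values of the
equations at `U s` and at `U (s + 1)` are small. -/
def PlaceJ (b : Place k K) {π : b.ring} {τ σ : Type} (p : ℕ → τ → b.ring)
    (H : σ → MvPolynomial τ b.ring) (u : ℕ → Fin (ν + 1) → b.ring) :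
    Ideal (MvPolynomial (Fin (ν + 1)) K) where
  carrier := {P | ∃ D : ℕ, ∀ I s : ℕ, (∀ i, π ^ I ∣ eval (p s) (H i)) →
    (∀ i, π ^ I ∣ eval (p (s + 1)) (H i)) →
      b.val (eval (fun j => algebraMap b.ring K (u s j)) P) ≤ WithZero.exp ((D : ℤ) - I)}
  zero_mem' := ⟨0, fun I s _ _ => by rw [map_zero, map_zero]; exact zero_le⟩
  add_mem' := by
    rintro P Q ⟨D, hD⟩ ⟨D', hD'⟩
    refine ⟨max D D', fun I s h h' => ?_⟩
    rw [map_add]
    refine (b.val.map_add _ _).trans (max_le ((hD I s h h').trans ?_) ((hD' I s h h').trans ?_))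
    · rw [WithZero.exp_le_exp]
      have := le_max_left D D'
      omega
    · rw [WithZero.exp_le_exp]
      have := le_max_right D D'
      omega
  smul_mem' := by
    rintro P Q ⟨D, hD⟩
    obtain ⟨D', hD'⟩ := Place_bound b P
    refine ⟨D' + D, fun I s h h' => ?_⟩
    rw [smul_eq_mul, map_mul, map_mul]
    calc b.val (eval (fun j => algebraMap b.ring K (u s j)) P) *
        b.val (eval (fun j => algebraMap b.ring K (u s j)) Q) ≤
        WithZero.exp (D' : ℤ) * WithZero.exp ((D : ℤ) - I) := mul_le_mul' (hD' _) (hD I s h h')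
      _ = WithZero.exp (((D' + D : ℕ) : ℤ) - I) := by
          rw [← WithZero.exp_add]
          congr 1
          push_cast
          ring

theorem Place_aeval_self {σ : Type} (y : σ → K) (P : MvPolynomial σ K) :
    aeval y P = eval y P :=
  congrArg (fun φ => φ P) (coe_aeval_eq_eval y)

theorem Place_eval_aeval {σ τ : Type} (v : τ → K) (g : σ → MvPolynomial τ K)
    (P : MvPolynomial σ K) : eval v (aeval g P) = eval (fun i => eval v (g i)) P := by
  rw [← Place_aeval_self, ← Place_aeval_self, comp_aeval_apply]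
  congr 2

/-- The coordinates of the chart are linear forms. -/
theorem Place_form {ι : Type} [Fintype ι] [DecidableEq ι] {e : Option ι → Fin (ν + 1) → k}
    {B : Fin (ν + 1) → Option ι → k}
    (h₁ : ∀ a a', ∑ i, e a i * B i a' = if a = a' then 1 else 0) (q : ι → b.ring)
    (a : Option ι) : ∑ j, algebraMap k b.ring (B j a) * ptN (eR b e) q j =
      (if none = a then 1 else 0) + ∑ i, q i * (if some i = a then 1 else 0) := by
  have h2 : ∀ a', ∑ j, algebraMap k b.ring (B j a) * algebraMap k b.ring (e a' j) =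
      if a' = a then 1 else 0 := by
    intro a'
    have h3 := congrArg (algebraMap k b.ring) (h₁ a' a)
    rw [map_sum] at h3
    simp only [map_mul] at h3
    rw [apply_ite (algebraMap k b.ring), map_one, map_zero] at h3
    rw [← h3]
    exact Finset.sum_congr rfl fun j _ => mul_comm _ _
  unfold ptN eR
  simp only [mul_add, Finset.sum_add_distrib, Finset.mul_sum]
  rw [h2, Finset.sum_comm]
  congr 1
  refine Finset.sum_congr rfl fun i _ => ?_
  rw [← h2 (some i), Finset.mul_sum]
  exact Finset.sum_congr rfl fun j _ => by ring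

/-- The iterate of a point of the chart. -/
theorem Place_step {ι : Type} [Fintype ι] [DecidableEq ι] {e : Option ι → Fin (ν + 1) → k}
    {B : Fin (ν + 1) → Option ι → k} {π : b.ring} {χ : b.ring →+* k} (hR : Res π χ)
    (hπ : ∀ (r : b.ring) (n : ℕ), π ^ n ∣ r ↔ b.val (r : K) ≤ WithZero.exp (-(n : ℤ)))
    (h₁ : ∀ a a', ∑ i, e a i * B i a' = if a = a' then 1 else 0) {d : ℕ}
    {F : Fin (ν + 1) → MvPolynomial (Fin (ν + 1)) K}
    {f : Fin (ν + 1) → MvPolynomial (Fin (ν + 1)) k} (hF : ∀ i, (F i).IsHomogeneous d)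
    (hf : GoodRed d b F f) {M : ℕ} {y y' : Fin (ν + 1) → K} {c c' : K} {q q' : ι → b.ring}
    (hc : c ≠ 0) (hy : ∀ j, y j = c * algebraMap b.ring K (ptN (eR b e) q j))
    (hy' : ∀ j, y' j = c' * algebraMap b.ring K (ptN (eR b e) q' j))
    (hyy : y' = iter F y M) :
    ∃ l : K, b.val l ≤ 1 ∧ ∀ j, iter F (fun j => algebraMap b.ring K (ptN (eR b e) q j)) M j =
      l * algebraMap b.ring K (ptN (eR b e) q' j) := by
  set U : Fin (ν + 1) → K := fun j => algebraMap b.ring K (ptN (eR b e) q j) with hU
  have hyU : y = c • U := funext fun j => hy j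
  have h2 : ∀ j, iter F y M j = c ^ d ^ M * iter F U M j := by
    intro j
    rw [← eval_itN, ← eval_itN, hyU, eval_smul_hom (itN_hom hF M j)]
  have h3 : ∀ j, iter F U M j = c' / c ^ d ^ M * algebraMap b.ring K (ptN (eR b e) q' j) := by
    intro j
    have h4 := h2 j
    rw [← hyy, hy' j] at h4
    field_simp
    rw [mul_comm, ← h4]
  refine ⟨c' / c ^ d ^ M, ?_, h3⟩
  choose Qj hQj1 hQj2 using fun j => exists_liftN hR hπ (redP_itN hf.red M j)
  have h5 : ∀ j, iter F U M j = algebraMap b.ring K (eval (ptN (eR b e) q) (Qj j)) := by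
    intro j
    rw [Place_map_eval, hQj1, ← eval_itN]
  have h6 : c' / c ^ d ^ M = algebraMap b.ring K
      (∑ j, algebraMap k b.ring (B j none) * eval (ptN (eR b e) q) (Qj j)) := by
    rw [map_sum]
    simp only [map_mul]
    have h7 := congrArg (algebraMap b.ring K) (Place_form (b := b) h₁ q' none)
    rw [map_sum] at h7
    simp only [map_mul] at h7
    have h8 : ∑ j, algebraMap b.ring K (algebraMap k b.ring (B j none)) *
        algebraMap b.ring K (eval (ptN (eR b e) q) (Qj j)) =
        c' / c ^ d ^ M * ∑ j, algebraMap b.ring K (algebraMap k b.ring (B j none)) *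
          algebraMap b.ring K (ptN (eR b e) q' j) := by
      rw [Finset.mul_sum]
      refine Finset.sum_congr rfl fun j _ => ?_
      rw [← h5, h3]
      ring
    rw [h8, h7]
    simp
  rw [h6]
  exact Place_val_le _

theorem local_per [IsAlgClosed k] [CharZero k] [Algebra k ℂ] (hK : IsFunctionField k K) {d : ℕ}
    {F : Fin (ν + 1) → MvPolynomial (Fin (ν + 1)) K}
    {f : Fin (ν + 1) → MvPolynomial (Fin (ν + 1)) k} (hF : ∀ i, (F i).IsHomogeneous d)
    (hf : GoodRed d b F f) {I : Ideal (MvPolynomial (Fin (ν + 1)) K)} (hI : IsCurve I)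
    (hnp : NonPer I F) {x : Fin (ν + 1) → K} {c N : ℕ} (hN : 0 < N)
    (hret : {j : ℕ | OnI I (iter F x (c + N * j))}.Infinite) {z : Fin (ν + 1) → k}
    (hred : Red b (iter F x c) z) (hfix : PEq z (iter f z N)) :
    NearPt I b z (fun _ _ _ w => IsPer F w) := by
  classical
  have : CharZero K := charZero_of_injective_algebraMap (algebraMap k K).injective
  obtain ⟨π, χ, hR, hπ⟩ := exists_res hK b
  have hz : z ≠ 0 := hred.1
  obtain ⟨Q, m, m', e, B, M₁, G, γ, α, hQ, he0, h₁, h₂, hγ, hfixQ, hlin, hM₁, hG, hE⟩ :=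
    exists_adapted hf.endo hz hN hfix
  -- a class with infinitely many returns
  obtain ⟨r, hr⟩ := Place_class hret hQ
  set y : ℕ → Fin (ν + 1) → K := fun s => iter F x (c + N * (r + Q * s)) with hy
  have hyN : ∀ s, y (s + 1) = iter F (y s) (N * Q) := by
    intro s
    rw [hy]
    simp only
    rw [← iter_add]
    congr 1
    ring
  have hyred : ∀ s, Red b (y s) (e none) := by
    intro s
    rw [he0]
    have h3 : y s = iter F (iter F x c) (N * (r + Q * s)) := by
      rw [hy]
      simp only
      rw [← iter_add]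
      congr 1
      ring
    rw [h3]
    exact Place_red_peq (hf.iter hF hred _) (Place_per hf.endo hfix _).symm
  -- the chart
  have hchart := fun s => exists_chart hR hπ h₁ h₂ (hyred s)
  choose cs q hcs hq hyq using hchart
  obtain ⟨A0, A, hA, hL, horb⟩ := exists_germ hR hπ h₁ h₂ hF hf hγ
    (by rw [he0]; exact hfixQ) (by rw [he0]; exact hlin)
  have hp : OrbN π A0 A q := horb y cs q hcs hq hyq hyN
  set u : ℕ → Fin (ν + 1) → b.ring := fun s => ptN (eR b e) (q s) with hu
  set U : ℕ → Fin (ν + 1) → K := fun s j => algebraMap b.ring K (u s j) with hU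
  have hyU : ∀ s, y s = cs s • U s := fun s => funext fun j => hyq s j
  have hstep : ∀ s, ∃ l : K, b.val l ≤ 1 ∧ ∀ j, iter F (U s) (N * Q) j = l * U (s + 1) j :=
    fun s => Place_step hR hπ h₁ hF hf (hcs s) (hyq s) (hyq (s + 1)) (hyN s)
  -- the equations
  obtain ⟨σ, hσ, h, n, hhom, hmem, hspan⟩ := Place_gens hI.hom
  choose cc H hcc hH using fun i => exists_integral b (h i)
  have hval : ∀ i s, eval (U s) (h i) =
      (cc i)⁻¹ * algebraMap b.ring K (eval (q s) (chN (eR b e) (H i))) := by
    intro i s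
    rw [eval_chN, Place_map_eval, hH, map_mul, eval_C, ← mul_assoc, inv_mul_cancel₀ (hcc i),
      one_mul]
  have hzero : ∀ s, OnI I (y s) → ∀ g ∈ I, eval (U s) g = 0 := by
    intro s hs g hg
    have h3 : Ideal.span (Set.range h) ≤ RingHom.ker (eval (U s)) := by
      rw [Ideal.span_le]
      rintro _ ⟨i, rfl⟩
      rw [SetLike.mem_coe, RingHom.mem_ker]
      have h4 := hs.2 (h i) (hmem i)
      rw [Place_aeval_self, hyU, eval_smul_hom (hhom i)] at h4
      exact (mul_eq_zero.1 h4).resolve_left (pow_ne_zero _ (hcs s))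
    rw [hspan] at h3
    exact h3 hg
  have hinf : {s | ∀ i, eval (q s) (chN (eR b e) (H i)) = 0}.Infinite := by
    refine hr.mono fun s hs i => ?_
    have h3 := hzero s hs (h i) (hmem i)
    rw [hval] at h3
    have h4 := (mul_eq_zero.1 h3).resolve_left (inv_ne_zero (hcc i))
    exact Subtype.ext h4
  -- the coordinates satisfy equations
  obtain ⟨h0, hh0, e0, hh0hom, hh0not⟩ := hnp (N * Q) (Nat.mul_pos hN hQ)
  have hρ : ∀ a : Fin m, ∃ ρ : Polynomial b.ring, ρ ≠ 0 ∧ ∀ I' j,
      (∀ i, π ^ I' ∣ eval (q j) (chN (eR b e) (H i))) →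
      (∀ i, π ^ I' ∣ eval (q (j + 1)) (chN (eR b e) (H i))) →
        π ^ I' ∣ ρ.eval (q j (Sum.inl a)) := by
    intro a
    obtain ⟨ρ₂, mm, hρ0, hρhom, hρmem⟩ := zeroDim hI.prime hI.hom hI.fin
      (Place_pull_hom hF hh0hom (N * Q)) hh0not (fun j => algebraMap k K (B j none))
      (fun j => algebraMap k K (B j (some (Sum.inl a))))
    have hJ1 : ∀ i, h i ∈ PlaceJ b (π := π) q (fun i => chN (eR b e) (H i)) u := by
      intro i
      refine ⟨(WithZero.log (b.val (cc i)⁻¹)).toNat, fun I' s h3 _ => ?_⟩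
      have h4 : eval (fun j => algebraMap b.ring K (u s j)) (h i) =
        (cc i)⁻¹ * algebraMap b.ring K (eval (q s) (chN (eR b e) (H i))) := hval i s
      rw [h4, map_mul, sub_eq_add_neg, WithZero.exp_add]
      exact mul_le_mul' (Place_le_exp _) ((hπ _ _).1 (h3 i))
    have hJ2 : ∀ i, pull F (N * Q) (h i) ∈
        PlaceJ b (π := π) q (fun i => chN (eR b e) (H i)) u := by
      intro i
      obtain ⟨D, hD⟩ := hJ1 i
      refine ⟨(WithZero.log (b.val (cc i)⁻¹)).toNat, fun I' s _ h3 => ?_⟩
      obtain ⟨l, hl, hl'⟩ := hstep s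
      have h4 : eval (U s) (pull F (N * Q) (h i)) = l ^ n i * eval (U (s + 1)) (h i) := by
        rw [← Place_aeval_self, Place_aeval_pull, Place_aeval_self]
        have h5 : iter F (U s) (N * Q) = l • U (s + 1) := funext fun j => hl' j
        rw [h5, eval_smul_hom (hhom i)]
      have h5 : eval (fun j => algebraMap b.ring K (u s j)) (pull F (N * Q) (h i)) =
        l ^ n i * eval (U (s + 1)) (h i) := h4
      rw [h5, hval, map_mul, map_mul, map_pow, sub_eq_add_neg, WithZero.exp_add]
      calc b.val l ^ n i * (b.val (cc i)⁻¹ *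
          b.val (algebraMap b.ring K (eval (q (s + 1)) (chN (eR b e) (H i))))) ≤
          1 * (b.val (cc i)⁻¹ *
            b.val (algebraMap b.ring K (eval (q (s + 1)) (chN (eR b e) (H i))))) :=
            mul_le_mul' (pow_le_one' hl _) le_rfl
        _ ≤ _ := by
          rw [one_mul]
          exact mul_le_mul' (Place_le_exp _) ((hπ _ _).1 (h3 i))
    have hJ : I ⊔ Ideal.span {pull F (N * Q) h0} ≤
        PlaceJ b (π := π) q (fun i => chN (eR b e) (H i)) u := by
      refine sup_le ?_ ?_
      · rw [← hspan, Ideal.span_le]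
        rintro _ ⟨i, rfl⟩
        exact hJ1 i
      · rw [Ideal.span_singleton_le_iff_mem, Place_pull]
        have h3 : Ideal.span (Set.range h) ≤
            (PlaceJ b (π := π) q (fun i => chN (eR b e) (H i)) u).comap
              (aeval (itN F (N * Q)) : _ →ₐ[K] MvPolynomial (Fin (ν + 1)) K) := by
          rw [Ideal.span_le]
          rintro _ ⟨i, rfl⟩
          rw [SetLike.mem_coe, Ideal.mem_comap, ← Place_pull]
          exact hJ2 i
        rw [hspan] at h3
        exact h3 hh0
    obtain ⟨D, hD⟩ := hJ hρmem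
    obtain ⟨c₀, ρ, hc₀, hc₀v, hρmap⟩ := Place_integral_poly b
      (aeval (![1, Polynomial.X] : Fin 2 → Polynomial K) ρ₂) D
    refine ⟨ρ, ?_, fun I' s h3 h4 => ?_⟩
    · rintro rfl
      rw [Polynomial.map_zero] at hρmap
      exact mul_ne_zero (Polynomial.C_ne_zero.2 hc₀) (Place_dehom hρhom hρ0) hρmap.symm
    · rw [hπ]
      have h5 := hD I' s h3 h4
      have h6 : eval (fun j => algebraMap b.ring K (u s j))
          (aeval ![∑ j, C (algebraMap k K (B j none)) * X j,
            ∑ j, C (algebraMap k K (B j (some (Sum.inl a)))) * X j] ρ₂) =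
          eval ![1, algebraMap b.ring K (q s (Sum.inl a))] ρ₂ := by
        rw [Place_eval_aeval]
        congr 2
        funext i
        have hB : ∀ a', eval (fun j => algebraMap b.ring K (u s j))
            (∑ j, C (algebraMap k K (B j a')) * X j) = algebraMap b.ring K
              ((if none = a' then 1 else 0) + ∑ i, q s i * (if some i = a' then 1 else 0)) := by
          intro a'
          rw [← Place_form (b := b) h₁ (q s) a', map_sum, map_sum]
          refine Finset.sum_congr rfl fun j _ => ?_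
          rw [map_mul, map_mul, eval_C, eval_X]
          rfl
        fin_cases i
        · have h7 := hB none
          simpa using h7
        · have h7 := hB (some (Sum.inl a))
          simpa using h7
      have h7 : ((ρ.eval (q s (Sum.inl a)) : b.ring) : K) =
          c₀ * eval ![1, algebraMap b.ring K (q s (Sum.inl a))] ρ₂ := by
        rw [← Place_dehom_eval, ← Polynomial.eval_C_mul, ← hρmap, Polynomial.eval_map_apply]
        rfl
      rw [h7, map_mul]
      rw [h6] at h5
      calc b.val c₀ * b.val (eval ![1, algebraMap b.ring K (q s (Sum.inl a))] ρ₂) ≤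
          WithZero.exp (-(D : ℤ)) * WithZero.exp ((D : ℤ) - I') := mul_le_mul' hc₀v h5
        _ = WithZero.exp (-(I' : ℤ)) := by
          rw [← WithZero.exp_add]
          congr 1
          ring
  have hconv := case_R hR hG hM₁ hE hA hL hp hinf hρ
  -- the limit
  have hU0 : ∀ s j, b.val (U s j - algebraMap k K (z j)) < 1 := by
    intro s j
    have h3 : U s j - algebraMap k K (z j) =
        ((∑ i, q s i * algebraMap k b.ring (e (some i) j) : b.ring) : K) := by
      have h4 : U s j = algebraMap b.ring K (algebraMap k b.ring (e none j) +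
        ∑ i, q s i * algebraMap k b.ring (e (some i) j)) := rfl
      have h5 : algebraMap k K (z j) = algebraMap b.ring K (algebraMap k b.ring (e none j)) := by
        rw [he0]
        rfl
      rw [h4, h5, map_add, add_sub_cancel_left]
      rfl
    rw [h3]
    have h4 : π ^ 1 ∣ ∑ i, q s i * algebraMap k b.ring (e (some i) j) := by
      rw [pow_one]
      exact Finset.dvd_sum fun i _ => Dvd.dvd.mul_right (hq s i) _
    refine ((hπ _ _).1 h4).trans_lt ?_
    rw [← WithZero.exp_zero, WithZero.exp_lt_exp]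
    norm_num
  have hUc : ∀ I' : ℕ, ∃ s₀, ∀ s, s₀ ≤ s → ∀ j, b.val (U (s + 1) j - U s j) ≤
      WithZero.exp (-(I' : ℤ)) := by
    intro I'
    obtain ⟨s₀, hs₀⟩ := hconv I'
    refine ⟨s₀, fun s hs j => ?_⟩
    have h3 : U (s + 1) j - U s j =
        ((∑ i, (q (s + 1) i - q s i) * algebraMap k b.ring (e (some i) j) : b.ring) : K) := by
      have h4 : ∀ t, U t j = algebraMap b.ring K (algebraMap k b.ring (e none j) +
        ∑ i, q t i * algebraMap k b.ring (e (some i) j)) := fun t => rfl
      rw [h4, h4, ← map_sub]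
      have h5 : (algebraMap k b.ring (e none j) +
          ∑ i, q (s + 1) i * algebraMap k b.ring (e (some i) j)) -
          (algebraMap k b.ring (e none j) + ∑ i, q s i * algebraMap k b.ring (e (some i) j)) =
          ∑ i, (q (s + 1) i - q s i) * algebraMap k b.ring (e (some i) j) := by
        rw [add_sub_add_left_eq_sub, ← Finset.sum_sub_distrib]
        exact Finset.sum_congr rfl fun i _ => by ring
      rw [h5]
      rfl
    rw [h3]
    exact (hπ _ _).1 (Finset.dvd_sum fun i _ => Dvd.dvd.mul_right (hs₀ s hs i) _)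
  obtain ⟨L, _, _, _, _, v, w, hv, hwz, hw⟩ := exists_limitN b hU0 hUc
  have hw0 : w ≠ 0 := by
    rintro rfl
    apply hz
    funext j
    by_contra hj
    have h3 := hwz j
    rw [Pi.zero_apply, zero_sub, Valuation.map_neg, v.triv _ hj] at h3
    exact lt_irrefl _ h3
  obtain ⟨p, hwp⟩ : ∃ p, w p ≠ 0 := Function.ne_iff.1 hw0
  have hon : OnI I w := by
    refine ⟨hw0, fun g hg => hw g fun I' => ?_⟩
    refine hr.mono fun s hs => ?_
    have h3 := hzero s hs g hg
    show b.val (eval (U s) g) ≤ _
    rw [h3, map_zero]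
    exact zero_le
  have hper : IsPer F w := by
    refine ⟨N * Q, Nat.mul_pos hN hQ, iter F w (N * Q) p / w p, ?_⟩
    funext i
    have h3 := hw (itN F (N * Q) i * X p - itN F (N * Q) p * X i) (fun I' => by
      obtain ⟨s₀, hs₀⟩ := hUc I'
      refine (Set.Ici_infinite s₀).mono fun s hs => ?_
      obtain ⟨l, hl, hl'⟩ := hstep s
      show b.val (eval (U s) _) ≤ _
      have h4 : eval (U s) (itN F (N * Q) i * X p - itN F (N * Q) p * X i) =
          l * ((U (s + 1) i - U s i) * U s p - (U (s + 1) p - U s p) * U s i) := by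
        rw [map_sub, map_mul, map_mul, eval_itN, eval_itN, eval_X, eval_X, hl', hl']
        ring
      rw [h4, map_mul]
      calc b.val l * b.val ((U (s + 1) i - U s i) * U s p - (U (s + 1) p - U s p) * U s i) ≤
          1 * WithZero.exp (-(I' : ℤ)) := by
            refine mul_le_mul' hl ((b.val.map_sub _ _).trans (max_le ?_ ?_))
            · rw [map_mul]
              calc _ ≤ WithZero.exp (-(I' : ℤ)) * 1 :=
                    mul_le_mul' (hs₀ s hs i) (Place_val_le _)
                _ = _ := mul_one _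
            · rw [map_mul]
              calc _ ≤ WithZero.exp (-(I' : ℤ)) * 1 :=
                    mul_le_mul' (hs₀ s hs p) (Place_val_le _)
                _ = _ := mul_one _
        _ = _ := one_mul _)
    rw [map_sub, map_mul, map_mul, Place_aeval_itN, Place_aeval_itN, aeval_X, aeval_X,
      sub_eq_zero] at h3
    rw [Pi.smul_apply, smul_eq_mul, div_mul_eq_mul_div, eq_div_iff hwp]
    exact h3
  exact ⟨L, inferInstance, inferInstance, inferInstance, inferInstance, v, w, hv, hon,
    ⟨hz, 1, one_ne_zero, fun i => by rw [one_mul]; exact hwz i⟩, hper⟩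

end Pool.Agent.Helper89.TNL

end

section

namespace Pool.Agent.Helper16
end Pool.Agent.Helper16
namespace Pool.Agent.Helper36
end Pool.Agent.Helper36
namespace Pool.Agent.Helper38.TQ
end Pool.Agent.Helper38.TQ
namespace Pool.Agent.Helper30.TKN
end Pool.Agent.Helper30.TKN
namespace Pool.Agent.Helper63.TN
end Pool.Agent.Helper63.TN

/-!
# The local statement
-/

set_option autoImplicit false

namespace Pool.Agent.Helper89.TNL

open MvPolynomial

open Pool.Agent.Helper16 (Place IsFunctionField)

open Pool.Agent.Helper36 (step iter)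

open Pool.Agent.Helper38.TQ

open Pool.Agent.Helper30.TKN

open Pool.Agent.Helper63.TN (OnI IsCurve NonPer NearPt IsPer pull)

variable {ν : ℕ} {k K : Type} [Field k] [Field K] [Algebra k K]

/-- At a place of good reduction at which the reduction of the orbit is periodic, the periodic
class of times containing infinitely many returns, there is a periodic point of the curve
nearby. -/
theorem local_main [IsAlgClosed k] [CharZero k] [Algebra K ℂ] (hK : IsFunctionField k K) {d : ℕ}
    {F : Fin (ν + 1) → MvPolynomial (Fin (ν + 1)) K}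
    (hF : IsEndo d fun i => map (algebraMap K ℂ) (F i))
    {I : Ideal (MvPolynomial (Fin (ν + 1)) K)} (hI : IsCurve I)
    (hnp : NonPer I F) {x : Fin (ν + 1) → K} (_hx : x ≠ 0)
    (_hdist : ∀ n n', n ≠ n' → ¬ PEq (iter F x n) (iter F x n')) {b : Place k K} {c N : ℕ}
    (hN : 0 < N) (hret : {j : ℕ | OnI I (iter F x (c + N * j))}.Infinite)
    {z : Fin (ν + 1) → k} (hred : Red b (iter F x c) z)
    {f : Fin (ν + 1) → MvPolynomial (Fin (ν + 1)) k} (hf : GoodRed d b F f)
    (hfix : PEq z (iter f z N)) :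
    NearPt I b z (fun _ _ _ w => IsPer F w) := by
  letI : Algebra k ℂ := ((algebraMap K ℂ).comp (algebraMap k K)).toAlgebra
  exact local_per hK (homog_of_endo hF) hf hI hnp hN hret hred hfix

end Pool.Agent.Helper89.TNL

end

section

namespace Pool.Agent.Helper16
end Pool.Agent.Helper16
namespace Pool.Agent.Helper36
end Pool.Agent.Helper36
namespace Pool.Agent.Helper38.TQ
end Pool.Agent.Helper38.TQ
namespace Pool.Agent.Helper30.TKN
end Pool.Agent.Helper30.TKN

/-!
# The local statement
-/

set_option autoImplicit false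

namespace Pool.Agent.Helper63.TN

open MvPolynomial

open Pool.Agent.Helper16 (Place IsFunctionField)

open Pool.Agent.Helper36 (step iter)

open Pool.Agent.Helper38.TQ

open Pool.Agent.Helper30.TKN

variable {ν : ℕ} {k K : Type} [Field k] [Field K] [Algebra k K]

/-- At a place of good reduction at which the reduction of the orbit is periodic, the periodic
class of times containing infinitely many returns, there is a periodic point of the curve
nearby. -/
theorem local_main [IsAlgClosed k] [CharZero k] [Algebra K ℂ] (hK : IsFunctionField k K) {d : ℕ}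
    {F : Fin (ν + 1) → MvPolynomial (Fin (ν + 1)) K}
    (hF : IsEndo d fun i => map (algebraMap K ℂ) (F i))
    {I : Ideal (MvPolynomial (Fin (ν + 1)) K)} (hI : IsCurve I)
    (hnp : NonPer I F) {x : Fin (ν + 1) → K} (hx : x ≠ 0)
    (hdist : ∀ n n', n ≠ n' → ¬ PEq (iter F x n) (iter F x n')) {b : Place k K} {c N : ℕ}
    (hN : 0 < N) (hret : {j : ℕ | OnI I (iter F x (c + N * j))}.Infinite)
    {z : Fin (ν + 1) → k} (hred : Red b (iter F x c) z)
    {f : Fin (ν + 1) → MvPolynomial (Fin (ν + 1)) k} (hf : GoodRed d b F f)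
    (hfix : PEq z (iter f z N)) :
    NearPt I b z (fun _ _ _ w => IsPer F w) :=
  Pool.Agent.Helper89.TNL.local_main hK hF hI hnp hx hdist hN hret hred hf hfix

end Pool.Agent.Helper63.TN

end
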