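import Pool.Agent.Helper72.TM2.T24
import Pool.Agent.Helper72.TM2.T27
import Pool.Agent.Helper72.TM2.T32
import Pool.Agent.Helper72.TM2.T48
import Pool.Agent.Helper72.TM2.T47
import Pool.Agent.Helper72.TM2.T51
import Pool.Agent.Helper72.TM2.T49
import Pool.Agent.Helper72.TM2.T33

section

namespace Pool.Agent.Helper16
end Pool.Agent.Helper16
namespace Pool.Agent.Helper36
end Pool.Agent.Helper36
namespace Pool.Agent.Helper38.TQ
end Pool.Agent.Helper38.TQ
namespace Pool.Agent.Helper30.TKN
end Pool.Agent.Helper30.TKN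
namespace Pool.Agent.Helper38.PC
end Pool.Agent.Helper38.PC

set_option autoImplicit false

namespace Pool.Agent.Helper30.RED

open MvPolynomial

open Pool.Agent.Helper16 (Place IsFunctionField)

open Pool.Agent.Helper36 (step iter iter_zero iter_succ iter_succ' iter_add iter_map APSet APSet_univ)

open Pool.Agent.Helper38.TQ

open Pool.Agent.Helper30.TKN

variable {ν : ℕ}

/-- The return set in the form of the induction. -/
theorem ap_of_dml {K : Type} [Field K] [Algebra K ℂ]
    {F : Fin (ν + 1) → MvPolynomial (Fin (ν + 1)) K} {x : Fin (ν + 1) → K} {r : ℕ}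
    {w : Fin r → MvPolynomial (Fin (ν + 1)) K}
    (h : ∃ T : Finset (ℕ × ℕ), {n : ℕ | ∀ g ∈ Set.range fun j => map (algebraMap K ℂ) (w j),
        eval ((fun (x : Fin (ν + 1) → ℂ) (i : Fin (ν + 1)) =>
        eval x (map (algebraMap K ℂ) (F i)))^[n] (fun i => 1 * algebraMap K ℂ (x i))) g = 0} =
      {n : ℕ | ∃ q ∈ T, ∃ m : ℕ, n = q.1 * m + q.2}) :
    ∃ A, {n | ∀ j, eval (iter F x n) (w j) = 0} = APSet A := by
  obtain ⟨T, hT⟩ := h
  refine ⟨T, ?_⟩
  have h1 : {n : ℕ | ∃ q ∈ T, ∃ k : ℕ, n = q.1 * k + q.2} = APSet T := rfl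
  rw [← h1, ← hT]
  ext n
  have h3 : (fun i => (1 : ℂ) * algebraMap K ℂ (x i)) = fun i => algebraMap K ℂ (x i) := by
    funext i
    rw [one_mul]
  simp only [Set.mem_ofPred_eq, Set.forall_mem_range, h3]
  refine forall_congr' fun j => ?_
  rw [← eval_iter_map F x (w j) n]
  exact Iff.rfl

end Pool.Agent.Helper30.RED

end

section

namespace Pool.Agent.Helper16
end Pool.Agent.Helper16
namespace Pool.Agent.Helper36
end Pool.Agent.Helper36
namespace Pool.Agent.Helper38.TQ
end Pool.Agent.Helper38.TQ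
namespace Pool.Agent.Helper30.TKN
end Pool.Agent.Helper30.TKN

/-!
# From a nearby point to a closed point
-/

set_option autoImplicit false

namespace Pool.Agent.Helper63.TN

open MvPolynomial

open Pool.Agent.Helper16 (Place IsFunctionField)

open Pool.Agent.Helper36 (step iter)

open Pool.Agent.Helper38.TQ

open Pool.Agent.Helper30.TKN

variable {ν : ℕ} {k K : Type} [Field k] [Field K] [Algebra k K]

theorem algHom_algebraMap {L K' : Type} [Field L] [Field K'] [Algebra k L] [Algebra K L]
    [IsScalarTower k K L] [Algebra k K'] [Algebra K K'] [IsScalarTower k K K'] (σ : L →ₐ[K] K')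
    (a : k) : σ (algebraMap k L a) = algebraMap k K' a := by
  rw [IsScalarTower.algebraMap_apply k K L, AlgHom.commutes,
    ← IsScalarTower.algebraMap_apply k K K']

/-- The place of `L` induced by an embedding into a field with a place over `b`. -/
noncomputable def pullPlace {L K' : Type} [Field L] [Field K'] [Algebra k L] [Algebra K L]
    [IsScalarTower k K L] [Algebra k K'] [Algebra K K'] [IsScalarTower k K K'] (σ : L →ₐ[K] K')
    {b : Place k K} {b' : Place k K'} (hb : Ext b' b) : Place k L where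
  val := b'.val.comap (σ : L →+* K')
  surj := by
    intro γ
    obtain ⟨a, ha⟩ := b.surj γ
    refine ⟨algebraMap K L a, ?_⟩
    rw [Valuation.comap_apply]
    change b'.val (σ (algebraMap K L a)) = γ
    rw [AlgHom.commutes, hb a, ha]
  triv := by
    intro a ha
    rw [Valuation.comap_apply]
    change b'.val (σ (algebraMap k L a)) = 1
    rw [algHom_algebraMap (K := K) σ a]
    exact b'.triv a ha

/-- A point over a large valued field which is a multiple of a conjugate of a point `A` over a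
finite extension gives a place of the field of `A`. -/
theorem descend [IsAlgClosed k] (hK : IsFunctionField k K) {K' : Type} [Field K'] [Algebra k K']
    [Algebra K K'] [IsScalarTower k K K'] {b : Place k K} {b' : Place k K'} (hb : Ext b' b)
    (A : FinPt ν k K) {w : Fin (ν + 1) → K'} (hw : Conj A w) {z : Fin (ν + 1) → k}
    (hz : Red b' w z) : ∃ v : Place k A.L, Ext v b ∧ Red v A.y z := by
  obtain ⟨σ, c, hc, rfl⟩ := hw
  obtain ⟨hz0, c', hc', h1⟩ := hz
  refine ⟨pullPlace σ hb, ?_, hz0, ?_⟩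
  · intro a
    change b'.val (σ (algebraMap K A.L a)) = b.val a
    rw [AlgHom.commutes, hb a]
  obtain ⟨i₀, hi₀⟩ : ∃ i, z i ≠ 0 := by
    by_contra hcon
    push Not at hcon
    exact hz0 (funext hcon)
  -- the value of the coordinate `i₀` is one
  set u : Fin (ν + 1) → K' := fun i => c' * (c * σ (A.y i)) with hu
  have h1' : ∀ i, b'.val (u i - algebraMap k K' (z i)) < 1 := h1
  have h2 : b'.val (u i₀) = 1 := by
    have h3 : u i₀ = (u i₀ - algebraMap k K' (z i₀)) + algebraMap k K' (z i₀) := by ring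
    rw [h3, Valuation.map_add_eq_of_lt_right]
    · exact b'.triv _ hi₀
    · rw [b'.triv _ hi₀]
      exact h1' i₀
  have hu0 : u i₀ ≠ 0 := by
    intro h0
    rw [h0, map_zero] at h2
    exact zero_ne_one h2
  have hy0 : σ (A.y i₀) ≠ 0 := by
    intro h0
    apply hu0
    simp only [hu, h0, mul_zero]
  have hy0' : A.y i₀ ≠ 0 := by
    intro h0
    apply hy0
    rw [h0, map_zero]
  have hzL : algebraMap k A.L (z i₀) ≠ 0 := by
    intro h0
    exact hi₀ ((map_eq_zero (algebraMap k A.L)).1 h0)
  refine ⟨algebraMap k A.L (z i₀) * (A.y i₀)⁻¹, mul_ne_zero hzL (inv_ne_zero hy0'), fun i => ?_⟩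
  change b'.val (σ (algebraMap k A.L (z i₀) * (A.y i₀)⁻¹ * A.y i - algebraMap k A.L (z i))) < 1
  rw [map_sub, map_mul, map_mul, map_inv₀, algHom_algebraMap (K := K) σ,
    algHom_algebraMap (K := K) σ]
  have h4 : algebraMap k K' (z i₀) * (σ (A.y i₀))⁻¹ * σ (A.y i) - algebraMap k K' (z i) =
      (algebraMap k K' (z i₀) * (u i - algebraMap k K' (z i)) -
        algebraMap k K' (z i) * (u i₀ - algebraMap k K' (z i₀))) * (u i₀)⁻¹ := by
    simp only [hu]
    field_simp
    ring
  rw [h4, map_mul, map_inv₀, h2, inv_one, mul_one]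
  have h5 : ∀ (a : k) (t : K'), b'.val t < 1 → b'.val (algebraMap k K' a * t) < 1 := by
    intro a t ht
    by_cases ha : a = 0
    · rw [ha, map_zero, zero_mul, map_zero]
      exact zero_lt_one
    · rw [map_mul, b'.triv a ha, one_mul]
      exact ht
  exact (b'.val.map_sub _ _).trans_lt (max_lt (h5 _ _ (h1' i)) (h5 _ _ (h1' i₀)))

theorem aeval_conj {L K' : Type} [Field L] [Field K'] [Algebra K L] [Algebra K K']
    (σ : L →ₐ[K] K') (y : Fin (ν + 1) → L) (G : MvPolynomial (Fin (ν + 1)) K) :
    aeval (fun i => σ (y i)) G = σ (aeval y G) := by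
  rw [← MvPolynomial.comp_aeval_apply]

theorem aeval_conj_hom {L K' : Type} [Field L] [Field K'] [Algebra K L] [Algebra K K']
    (σ : L →ₐ[K] K') (c : K') (y : Fin (ν + 1) → L) {m : ℕ} {G : MvPolynomial (Fin (ν + 1)) K}
    (hG : G.IsHomogeneous m) :
    aeval (fun i => c * σ (y i)) G = c ^ m * σ (aeval y G) := by
  rw [Pool.Agent.Helper36.aeval_smul_homogeneous hG c (fun i => σ (y i)), aeval_conj]

theorem iter_conj {d : ℕ} {F : Fin (ν + 1) → MvPolynomial (Fin (ν + 1)) K}
    (hF : ∀ i, (F i).IsHomogeneous d) {L K' : Type} [Field L] [Field K'] [Algebra K L]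
    [Algebra K K'] (σ : L →ₐ[K] K') (c : K') (y : Fin (ν + 1) → L) (N : ℕ) :
    iter F (fun i => c * σ (y i)) N = fun i => c ^ d ^ N * σ (iter F y N i) := by
  induction N with
  | zero =>
    funext i
    rw [pow_zero, pow_one]
    rfl
  | succ N ih =>
    rw [Pool.Agent.Helper36.iter_succ, ih]
    funext i
    change aeval (fun i => c ^ d ^ N * σ (iter F y N i)) (F i) = _
    rw [aeval_conj_hom σ (c ^ d ^ N) (iter F y N) (hF i), ← pow_mul, ← pow_succ,
      Pool.Agent.Helper36.iter_succ]
    rfl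

theorem Conj.per {d : ℕ} {F : Fin (ν + 1) → MvPolynomial (Fin (ν + 1)) K}
    (hF : ∀ i, (F i).IsHomogeneous d) {A : FinPt ν k K} {K' : Type} [Field K'] [Algebra K K']
    {w : Fin (ν + 1) → K'} (hw : Conj A w) (N : ℕ) (h : ∃ γ : K', iter F w N = γ • w) :
    ∃ γ : A.L, iter F A.y N = γ • A.y := by
  obtain ⟨σ, c, hc, rfl⟩ := hw
  obtain ⟨γ, hγ⟩ := h
  rw [iter_conj hF σ c A.y N] at hγ
  have hinj : Function.Injective σ := σ.toRingHom.injective
  obtain ⟨i₀, hi₀⟩ : ∃ i, A.y i ≠ 0 := by
    by_contra hcon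
    push Not at hcon
    exact A.ne (funext hcon)
  have h1 : ∀ i, c ^ d ^ N * σ (iter F A.y N i) = γ * (c * σ (A.y i)) := fun i => congrFun hγ i
  have hcp : c ^ d ^ N ≠ 0 := pow_ne_zero _ hc
  refine ⟨iter F A.y N i₀ * (A.y i₀)⁻¹, ?_⟩
  funext i
  apply hinj
  have hs0 : σ (A.y i₀) ≠ 0 := by
    intro h0
    exact hi₀ (hinj (by rw [h0, map_zero]))
  rw [Pi.smul_apply, smul_eq_mul, map_mul, map_mul, map_inv₀]
  apply mul_left_cancel₀ hcp
  have h2 : c ^ d ^ N * (σ (iter F A.y N i₀) * (σ (A.y i₀))⁻¹ * σ (A.y i)) =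
      c ^ d ^ N * σ (iter F A.y N i₀) * (σ (A.y i₀))⁻¹ * σ (A.y i) := by ring
  rw [h1 i, h2, h1 i₀]
  field_simp

/-- The polynomials over the extension. -/
theorem goodRed_above {d : ℕ} {F : Fin (ν + 1) → MvPolynomial (Fin (ν + 1)) K}
    {L : Type} [Field L] [Algebra k L] [Algebra K L] [IsScalarTower k K L]
    {b : Place k K} {v : Place k L} (hv : Above v b)
    {f : Fin (ν + 1) → MvPolynomial (Fin (ν + 1)) k} (hf : GoodRed d b F f) :
    GoodRed d v (fun i => map (algebraMap K L) (F i)) f := by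
  obtain ⟨e, he, hve⟩ := hv
  refine ⟨hf.endo, fun i m => ?_⟩
  rw [coeff_map, IsScalarTower.algebraMap_apply k K L, ← map_sub, hve]
  exact pow_lt_one₀ zero_le (hf.red i m) he.ne'

/-- Reduction and iteration over a finite extension. -/
theorem red_iter_ext [IsAlgClosed k] (hK : IsFunctionField k K) {d : ℕ}
    {F : Fin (ν + 1) → MvPolynomial (Fin (ν + 1)) K} (hF : ∀ i, (F i).IsHomogeneous d)
    {L : Type} [Field L] [Algebra k L] [Algebra K L] [IsScalarTower k K L]
    {b : Place k K} {v : Place k L} (hv : Above v b)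
    {f : Fin (ν + 1) → MvPolynomial (Fin (ν + 1)) k} (hf : GoodRed d b F f)
    {y : Fin (ν + 1) → L} {z : Fin (ν + 1) → k} (hz : Red v y z) (m : ℕ) :
    Red v (iter F y m) (iter f z m) := by
  have hg := goodRed_above hv hf
  induction m with
  | zero => exact hz
  | succ m ih =>
    rw [Pool.Agent.Helper36.iter_succ, Pool.Agent.Helper36.iter_succ]
    obtain ⟨hz0, c, hc, h1⟩ := ih
    refine ⟨step_ne_zero hf.endo hz0, c ^ d, pow_ne_zero _ hc, fun i => ?_⟩
    have h2 := (hg.red i).eval (u := fun i => c * iter F y m i) (z := iter f z m) h1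
    have h3 : MvPolynomial.eval (fun i => c * iter F y m i) (map (algebraMap K L) (F i)) =
        aeval (fun i => c * iter F y m i) (F i) := by
      rw [eval_map, aeval_def]
    rw [h3, Pool.Agent.Helper36.aeval_smul_homogeneous (hF i)] at h2
    exact h2

theorem red_inc {L : Type} [Field L] [Algebra k L] [Algebra K L] [IsScalarTower k K L]
    {b : Place k K} {v : Place k L} (hv : Above v b) {y : Fin (ν + 1) → K}
    {z : Fin (ν + 1) → k} (hz : Red b y z) : Red v (inc L y) z := by
  obtain ⟨e, he, hve⟩ := hv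
  obtain ⟨hz0, c, hc, h1⟩ := hz
  refine ⟨hz0, algebraMap K L c, ?_, fun i => ?_⟩
  · intro h0
    exact hc ((map_eq_zero (algebraMap K L)).1 h0)
  · change v.val (algebraMap K L c * algebraMap K L (y i) - algebraMap k L (z i)) < 1
    rw [IsScalarTower.algebraMap_apply k K L, ← map_mul, ← map_sub, hve]
    exact pow_lt_one₀ zero_le (h1 i) he.ne'

end Pool.Agent.Helper63.TN

end

section

namespace Pool.Agent.Helper16
end Pool.Agent.Helper16
namespace Pool.Agent.Helper36
end Pool.Agent.Helper36
namespace Pool.Agent.Helper38.TQ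
end Pool.Agent.Helper38.TQ
namespace Pool.Agent.Helper30.TKN
end Pool.Agent.Helper30.TKN

/-!
# Curves with finitely many periodic points
-/

set_option autoImplicit false

namespace Pool.Agent.Helper63.TN

open MvPolynomial

open Pool.Agent.Helper16 (Place IsFunctionField)

open Pool.Agent.Helper36 (step iter iter_map aeval_smul_homogeneous)

open Pool.Agent.Helper38.TQ

open Pool.Agent.Helper30.TKN

variable {ν : ℕ} {k K : Type} [Field k] [Field K] [Algebra k K]

/-- A periodic point of the curve whose field is generated by the coordinates. -/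
def FinPer_Good (I : Ideal (MvPolynomial (Fin (ν + 1)) K))
    (F : Fin (ν + 1) → MvPolynomial (Fin (ν + 1)) K) (A : FinPt ν k K) : Prop :=
  OnI I A.y ∧ IsPer F A.y ∧ (∃ p, A.y p = 1) ∧ Algebra.adjoin K (Set.range A.y) = ⊤

/-- Every periodic point of the curve is a conjugate of a point over a finite extension. -/
theorem FinPer_exists_good {d : ℕ}
    {F : Fin (ν + 1) → MvPolynomial (Fin (ν + 1)) K} (hF : ∀ i, (F i).IsHomogeneous d)
    {I : Ideal (MvPolynomial (Fin (ν + 1)) K)} (hI : IsCurve I)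
    (hnp : NonPer I F) {K' : Type} [Field K'] [Algebra K K'] {u : Fin (ν + 1) → K'}
    (hu : OnI I u) (hp : IsPer F u) :
    ∃ A : FinPt ν k K, FinPer_Good I F A ∧ Conj A u := by
  obtain ⟨M, hM, γ, hγ⟩ := hp
  obtain ⟨h, hh, e, he, hQ⟩ := hnp M hM
  obtain ⟨s, A, hA, hc⟩ := exists_zeros (k := k) hI (pull_hom hF M he) hQ
  have h0 : aeval u (pull F M h) = 0 := by
    rw [aeval_pull, hγ]
    have h1 : (γ • u) = fun i => γ * u i := rfl
    rw [h1, aeval_smul_homogeneous he, hu.2 h hh, mul_zero]
  obtain ⟨j, hj⟩ := hc K' u hu h0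
  obtain ⟨γ', hγ'⟩ := Conj.per hF hj M ⟨γ, hγ⟩
  exact ⟨A j, ⟨(hA j).1, ⟨M, hM, γ', hγ'⟩, (hA j).2.2.1, (hA j).2.2.2⟩, hj⟩

theorem FinPer_trans {A B : FinPt ν k K} {K' : Type} [Field K'] [Algebra K K']
    {u : Fin (ν + 1) → K'} (h1 : Conj A B.y) (h2 : Conj B u) : Conj A u := by
  obtain ⟨σ, c, hc, h⟩ := h1
  obtain ⟨τ, c', hc', h'⟩ := h2
  refine ⟨τ.comp σ, c' * τ c, mul_ne_zero hc' ((map_ne_zero τ).2 hc), ?_⟩
  rw [h']
  funext i
  have h3 : B.y i = c * σ (A.y i) := by rw [h]
  rw [h3, map_mul, AlgHom.comp_apply, mul_assoc]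

/-- A common finite extension. -/
theorem FinPer_compositum {s : ℕ} (A : Fin s → FinPt ν k K) :
    ∃ (E : Type) (_ : Field E) (_ : Algebra k E) (_ : Algebra K E) (_ : IsScalarTower k K E)
      (_ : FiniteDimensional K E), Nonempty (∀ j, (A j).L →ₐ[K] E) := by
  classical
  let α : ∀ j, (A j).L →ₐ[K] AlgebraicClosure K := fun j => IsAlgClosed.lift
  have : ∀ j, FiniteDimensional K (α j).fieldRange := fun j =>
    (α j).toLinearMap.finiteDimensional_range
  let E : IntermediateField K (AlgebraicClosure K) := ⨆ j, (α j).fieldRange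
  have hE : FiniteDimensional K E := IntermediateField.finiteDimensional_iSup_of_finite
  let ak : Algebra k E := ((algebraMap K E).comp (algebraMap k K)).toAlgebra
  have : IsScalarTower k K E := IsScalarTower.of_algebraMap_eq fun x => rfl
  refine ⟨E, inferInstance, ak, inferInstance, inferInstance, hE, ⟨fun j => ?_⟩⟩
  exact (IntermediateField.inclusion (le_iSup (fun j => (α j).fieldRange) j)).comp
    (α j).rangeRestrict

/-- Proportional images in a common extension. -/
theorem FinPer_conj {I : Ideal (MvPolynomial (Fin (ν + 1)) K)}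
    {F : Fin (ν + 1) → MvPolynomial (Fin (ν + 1)) K} {A B : FinPt ν k K}
    (hA : FinPer_Good I F A) {E : Type} [Field E] [Algebra K E]
    (α : A.L →ₐ[K] E) (β : B.L →ₐ[K] E) {c : E} (hc : c ≠ 0)
    (h : ∀ a, β (B.y a) = c * α (A.y a)) : Conj A B.y := by
  obtain ⟨-, -, ⟨p, hp⟩, hgen⟩ := hA
  have h1 : β (B.y p) = c := by rw [h, hp, map_one, mul_one]
  have h2 : B.y p ≠ 0 := by
    intro h0
    rw [h0, map_zero] at h1
    exact hc h1.symm
  have h3 : ∀ a, α (A.y a) = β ((B.y p)⁻¹ * B.y a) := by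
    intro a
    rw [map_mul, map_inv₀, h1, h, ← mul_assoc, inv_mul_cancel₀ hc, one_mul]
  have h4 : ∀ x, α x ∈ β.range := by
    intro x
    have hx : x ∈ Algebra.adjoin K (Set.range A.y) := by rw [hgen]; trivial
    have h5 : Algebra.adjoin K (Set.range A.y) ≤ β.range.comap α := by
      refine Algebra.adjoin_le ?_
      rintro _ ⟨a, rfl⟩
      exact ⟨(B.y p)⁻¹ * B.y a, (h3 a).symm⟩
    exact h5 hx
  let σ : A.L →ₐ[K] B.L :=
    ((AlgEquiv.ofInjective β β.injective).symm : β.range →ₐ[K] B.L).comp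
      (α.codRestrict β.range h4)
  have h6 : ∀ x, β (σ x) = α x := by
    intro x
    have h7 : (AlgEquiv.ofInjective β β.injective) (σ x) = α.codRestrict β.range h4 x :=
      AlgEquiv.apply_symm_apply _ _
    have h8 := congrArg (Subtype.val) h7
    exact h8
  refine ⟨σ, B.y p, h2, ?_⟩
  funext a
  have h7 : β (B.y a) = β (B.y p * σ (A.y a)) := by rw [map_mul, h6, h1, h]
  exact β.injective h7

theorem fin_per [IsAlgClosed k] (hK : IsFunctionField k K) {d : ℕ}
    {F : Fin (ν + 1) → MvPolynomial (Fin (ν + 1)) K} (hF : ∀ i, (F i).IsHomogeneous d)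
    {I : Ideal (MvPolynomial (Fin (ν + 1)) K)} (hI : IsCurve I)
    (hnp : NonPer I F) (h : ¬ ManyPer k I F) :
    ∃ (s : ℕ) (A : Fin s → FinPt ν k K), (∀ j, OnI I (A j).y ∧ IsPer F (A j).y) ∧
      ∀ (K' : Type) [Field K'] [Algebra k K'] [Algebra K K'] [IsScalarTower k K K']
        (u : Fin (ν + 1) → K'), OnI I u → IsPer F u → ∃ j, Conj (A j) u := by
  by_contra hcon
  apply h
  have key : ∀ s : ℕ, ∃ A : Fin s → FinPt ν k K, (∀ j, FinPer_Good I F (A j)) ∧
      ∀ i j, i < j → ¬ Conj (A i) (A j).y := by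
    intro s
    induction s with
    | zero => exact ⟨fun j => j.elim0, fun j => j.elim0, fun j => j.elim0⟩
    | succ s ih =>
      obtain ⟨A, hA, hAc⟩ := ih
      have h1 : ¬ ∀ (K' : Type) [Field K'] [Algebra k K'] [Algebra K K'] [IsScalarTower k K K']
        (u : Fin (ν + 1) → K'), OnI I u → IsPer F u → ∃ j, Conj (A j) u := by
        intro h2
        exact hcon ⟨s, A, fun j => ⟨(hA j).1, (hA j).2.1⟩, h2⟩
      push Not at h1
      obtain ⟨K', i1, i2, i3, i4, u, hu, hp, hn⟩ := h1
      obtain ⟨B, hB, hBu⟩ := FinPer_exists_good (k := k) hF hI hnp hu hp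
      refine ⟨Fin.snoc (α := fun _ => FinPt ν k K) A B, ?_, ?_⟩
      · intro j
        refine Fin.lastCases ?_ (fun i => ?_) j
        · rw [Fin.snoc_last]; exact hB
        · rw [Fin.snoc_castSucc]; exact hA i
      · intro i j hij
        induction j using Fin.lastCases with
        | last =>
          induction i using Fin.lastCases with
          | last => exact absurd hij (lt_irrefl _)
          | cast i =>
            rw [Fin.snoc_last, Fin.snoc_castSucc]
            intro h3
            exact hn i (FinPer_trans h3 hBu)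
        | cast j =>
          induction i using Fin.lastCases with
          | last => exact absurd hij (not_lt.2 (Fin.le_last _))
          | cast i =>
            rw [Fin.snoc_castSucc, Fin.snoc_castSucc]
            exact hAc i j (by simpa using hij)
  intro s
  obtain ⟨A, hA, hAc⟩ := key s
  obtain ⟨E, i1, i2, i3, i4, i5, ⟨α⟩⟩ := FinPer_compositum A
  refine ⟨E, i1, i2, i3, i4, i5, fun j a => α j ((A j).y a), ?_, ?_⟩
  · intro j
    refine ⟨⟨?_, ?_⟩, ?_⟩
    · obtain ⟨p, hp⟩ := (hA j).2.2.1
      intro h0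
      have h1 := congrFun h0 p
      simp only [hp, map_one, Pi.zero_apply] at h1
      exact one_ne_zero h1
    · intro G hG
      have h1 := (hA j).1.2 G hG
      have h2 : aeval (fun a => α j ((A j).y a)) G = α j (aeval (A j).y G) := by
        rw [← MvPolynomial.comp_aeval_apply]
      rw [h2, h1, map_zero]
    · obtain ⟨M, hM, γ, hγ⟩ := (hA j).2.1
      refine ⟨M, hM, α j γ, ?_⟩
      rw [iter_map, hγ]
      funext a
      simp only [Pi.smul_apply, smul_eq_mul, map_mul]
  · have h1 : ∀ i j, i < j → ¬ ∃ c : E, c ≠ 0 ∧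
        ∀ a, α j ((A j).y a) = c * α i ((A i).y a) := by
      rintro i j hij ⟨c, hc, h2⟩
      exact hAc i j hij (FinPer_conj (hA i) (α i) (α j) hc h2)
    intro i j hij
    rintro ⟨c, hc, h2⟩
    rcases lt_or_gt_of_ne hij with h3 | h3
    · exact h1 i j h3 ⟨c, hc, fun a => congrFun h2 a⟩
    · refine h1 j i h3 ⟨c⁻¹, inv_ne_zero hc, fun a => ?_⟩
      have h4 : α j ((A j).y a) = c * α i ((A i).y a) := congrFun h2 a
      rw [h4, ← mul_assoc, inv_mul_cancel₀ hc, one_mul]

end Pool.Agent.Helper63.TN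

end

section

namespace Pool.Agent.Helper16
end Pool.Agent.Helper16
namespace Pool.Agent.Helper36
end Pool.Agent.Helper36
namespace Pool.Agent.Helper38.TQ
end Pool.Agent.Helper38.TQ
namespace Pool.Agent.Helper30.TKN
end Pool.Agent.Helper30.TKN

/-!
# Curves with finitely many periodic points: the contact of returns
-/

set_option autoImplicit false

namespace Pool.Agent.Helper63.TN

open MvPolynomial

open Pool.Agent.Helper16 (Place IsFunctionField)

open Pool.Agent.Helper36 (step iter iter_add)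

open Pool.Agent.Helper38.TQ

open Pool.Agent.Helper30.TKN

variable {ν : ℕ} {k K : Type} [Field k] [Field K] [Algebra k K]

/-- A set whose finite subsets have bounded cardinality is finite. -/
theorem CaseB_finite {α : Type} {S : Set α} {B : ℕ}
    (h : ∀ T : Finset α, (∀ b ∈ T, b ∈ S) → T.card ≤ B) : S.Finite := by
  by_contra hS
  obtain ⟨T, hT, hc⟩ := (Set.not_finite.1 hS : S.Infinite).exists_subset_card_eq (B + 1)
  have h1 := h T fun b hb => hT hb
  omega

/-- Infinitely many returns in a residue class. -/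
theorem CaseB_class {P : ℕ → Prop} (h : {n | P n}.Infinite) (i : ℕ) {N : ℕ} (hN : 0 < N) :
    ∃ r < N, {j : ℕ | P (i + r + N * j)}.Infinite := by
  by_contra hcon
  push Not at hcon
  refine h (Set.Finite.subset ((Set.finite_Iio i).union
    (Set.Finite.biUnion (Set.finite_Iio N) fun r hr =>
      (hcon r hr).image fun j => i + r + N * j)) ?_)
  intro n hn
  by_cases hi : n < i
  · exact Or.inl hi
  · refine Or.inr ?_
    rw [Set.mem_iUnion₂]
    have h1 : i + (n - i) % N + N * ((n - i) / N) = n := by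
      have := Nat.mod_add_div (n - i) N
      omega
    refine ⟨(n - i) % N, Nat.mod_lt _ hN, (n - i) / N, ?_, h1⟩
    show P _
    rw [h1]
    exact hn

/-- If the curve has finitely many periodic points but infinitely many returns, then the places
at which two points of the orbit coincide belong to a finite set which depends on the first point
only. -/
theorem caseB [IsAlgClosed k] [CharZero k] [Algebra K ℂ] (hK : IsFunctionField k K) {d : ℕ}
    {F : Fin (ν + 1) → MvPolynomial (Fin (ν + 1)) K}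
    (hF : IsEndo d fun i => map (algebraMap K ℂ) (F i))
    {I : Ideal (MvPolynomial (Fin (ν + 1)) K)} (hI : IsCurve I)
    (hnp : NonPer I F) (hfew : ¬ ManyPer k I F) {x : Fin (ν + 1) → K} (hx : x ≠ 0)
    (hdist : ∀ n n', n ≠ n' → ¬ PEq (iter F x n) (iter F x n'))
    (hinf : {n | OnI I (iter F x n)}.Infinite) :
    ∀ i, ∃ B : Set (Place k K), B.Finite ∧ ∀ n, i < n →
      ∀ b : Place k K, Same b (iter F x i) (iter F x n) → b ∈ B := by
  classical
  intro i
  have hFh := homog_of_endo hF
  obtain ⟨s, A, hA, hAll⟩ := fin_per hK hFh hI hnp hfew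
  let S : Fin s → Set (Place k K) := fun j => {b | ∃ (v : Place k (A j).L) (m : ℕ), Above v b ∧
    Same v (inc (A j).L (iter F x i)) (iter F (A j).y m)}
  have hS : ∀ j, (S j).Finite := by
    intro j
    obtain ⟨B, hB⟩ := fix_count hK hF hx hdist (A j) (hA j).2 i
    exact CaseB_finite (B := B) fun T hT => hB T fun b hb => hT b hb
  refine ⟨{b | ¬ Good d b F} ∪ ⋃ j, S j, (good_finite hK hF).union (Set.finite_iUnion hS), ?_⟩
  intro n hn b hsame
  by_cases hgood : Good d b F
  swap
  · exact Or.inl hgood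
  refine Or.inr ?_
  obtain ⟨f, hf⟩ := hgood
  have hxi : iter F x i ≠ 0 := iter_ne_zeroK hF hx i
  have hxn : iter F x n ≠ 0 := iter_ne_zeroK hF hx n
  obtain ⟨z₀, hz₀⟩ := exists_red hK b (iter F x i) hxi
  obtain ⟨N, rfl⟩ := Nat.exists_eq_add_of_lt hn
  have hN : 0 < N + 1 := Nat.succ_pos N
  have hz₁ : Red b (iter F x (i + N + 1)) (iter f z₀ (N + 1)) := by
    have h := hf.iter hFh hz₀ (N + 1)
    rw [← iter_add] at h
    have h1 : N + 1 + i = i + N + 1 := by omega
    rwa [h1] at h
  have hfix₀ : PEq z₀ (iter f z₀ (N + 1)) :=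
    Red.unique (red_of_same hK hxi hxn hz₀ hsame) hz₁ (PEq.refl _)
  obtain ⟨r, hr, hinf'⟩ := CaseB_class hinf i hN
  have hred : Red b (iter F x (i + r)) (iter f z₀ r) := by
    have h := hf.iter hFh hz₀ r
    rwa [← iter_add, Nat.add_comm r i] at h
  have hfix : PEq (iter f z₀ r) (iter f (iter f z₀ r) (N + 1)) := by
    have h := PEq.iter hf.endo hfix₀ r
    rwa [← iter_add, Nat.add_comm r (N + 1), iter_add] at h
  obtain ⟨L, _, _, _, _, v, w, hv, hon, hredw, hper⟩ :=
    local_main hK hF hI hnp hx hdist hN hinf' hred hf hfix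
  obtain ⟨j, hj⟩ := hAll L w hon hper
  obtain ⟨v', hv', hr'⟩ := descend hK (b' := v) hv (A j) hj hredw
  have hab : Above v' b := ⟨1, one_pos, fun a => by rw [pow_one]; exact hv' a⟩
  have h1 := red_iter_ext hK hFh hab hf hr' (N + 1 - r)
  rw [← iter_add, Nat.sub_add_cancel hr.le] at h1
  have h2 := red_inc hab hz₀
  rw [Set.mem_iUnion]
  exact ⟨j, v', N + 1 - r, hab, same_of_red h2 h1 hfix₀⟩

end Pool.Agent.Helper63.TN

end

section

namespace Pool.Agent.Helper16
end Pool.Agent.Helper16
namespace Pool.Agent.Helper36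
end Pool.Agent.Helper36
namespace Pool.Agent.Helper38.TQ
end Pool.Agent.Helper38.TQ
namespace Pool.Agent.Helper30.TKN
end Pool.Agent.Helper30.TKN

/-!
# The curve is periodic
-/

set_option autoImplicit false

namespace Pool.Agent.Helper63.TN

open MvPolynomial

open Pool.Agent.Helper16 (Place IsFunctionField)

open Pool.Agent.Helper36 (step iter)

open Pool.Agent.Helper38.TQ

open Pool.Agent.Helper30.TKN

variable {ν : ℕ} {k K : Type} [Field k] [Field K] [Algebra k K]

/-- The heights of the points of the orbit tend to infinity. -/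
theorem ht_finite' [IsAlgClosed k] [Algebra K ℂ] (hK : IsFunctionField k K) {d : ℕ}
    {F : Fin (ν + 1) → MvPolynomial (Fin (ν + 1)) K}
    (hF : IsEndo d fun i => map (algebraMap K ℂ) (F i)) {x : Fin (ν + 1) → K} (hx : x ≠ 0)
    (hunb : ∀ B : ℤ, ∃ n, B < ht k (iter F x n)) (B : ℤ) :
    {n | ht k (iter F x n) ≤ B}.Finite := by
  obtain ⟨n₁, hn₁⟩ := ht_growth hK hF hx hunb (max B 0)
  refine (Set.finite_lt_nat n₁).subset fun n hn => ?_
  by_contra hcon
  have h1 := hn₁ n (not_lt.1 hcon)
  have h2 : ht k (iter F x n) ≤ B := hn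
  have h3 : B ≤ max B 0 := le_max_left _ _
  have h4 : (0 : ℤ) ≤ max B 0 := le_max_right _ _
  nlinarith

/-- The curve swept out by an orbit of unbounded height is periodic. -/
theorem not_nonPer [IsAlgClosed k] [CharZero k] [Algebra K ℂ] (hK : IsFunctionField k K) {d : ℕ}
    {F : Fin (ν + 1) → MvPolynomial (Fin (ν + 1)) K}
    (hF : IsEndo d fun i => map (algebraMap K ℂ) (F i)) {x : Fin (ν + 1) → K} (hx : x ≠ 0)
    (hunb : ∀ B : ℤ, ∃ n, B < ht k (iter F x n)) {U : Ultrafilter ℕ} (hU : Free U)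
    (hcurve : OnCurve U (iter F x)) : ¬ NonPer (van U (iter F x)) F := by
  classical
  intro hnp
  have hne : ∀ n, iter F x n ≠ 0 := fun n => iter_ne_zeroK hF hx n
  have hdist := distinct_of_unbounded hK hF hx hunb
  have hht := ht_finite' hK hF hx hunb
  have hI : IsCurve (van U (iter F x)) := van_curve (k := k) hne hcurve
  have hSU : {n | OnI (van U (iter F x)) (iter F x n)} ∈ (U : Filter ℕ) := van_on hne
  have hinf : {n | OnI (van U (iter F x)) (iter F x n)}.Infinite := by
    intro hfin
    obtain ⟨n, hn1, hn2⟩ := Pool.Agent.Helper30.TP.ultra_exists_notMem hU hfin hSU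
    exact hn2 hn1
  by_cases hmany : ManyPer k (van U (iter F x)) F
  · exact hinf (caseA hK hF hI hnp hmany hx hunb)
  · have hB := caseB hK hF hI hnp hmany hx (fun n n' h => hdist n n' h) hinf
    choose B hBf hB using hB
    obtain ⟨S', Γ, C, hS', -, hmain⟩ := trunc_curve hK (x := iter F x) hne
      (fun n n' h => hdist n n' h) hht hU hcurve 1 0
    have hfinB : (⋃ i ∈ Γ, B i).Finite := Set.Finite.biUnion Γ.finite_toSet fun i _ => hBf i
    obtain ⟨n, hnS, hn⟩ := (hS'.sdiff ((Set.finite_le_nat (Γ.sup id)).union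
      (hht (((⋃ i ∈ Γ, B i).ncard : ℕ) + C)))).nonempty
    rw [Set.mem_union, not_or] at hn
    obtain ⟨hn1, hn2⟩ := hn
    have hn1' : ¬ n ≤ Γ.sup id := hn1
    have hn2' : ¬ ht k (iter F x n) ≤ ((⋃ i ∈ Γ, B i).ncard : ℕ) + C := hn2
    obtain ⟨-, h1⟩ := hmain n hnS
    have hsub : {b : Place k K | ∃ i ∈ Γ, Same b (iter F x i) (iter F x n)} ⊆ ⋃ i ∈ Γ, B i := by
      rintro b ⟨i, hi, hb⟩
      have hin : i ≤ Γ.sup id := Finset.le_sup (f := id) hi
      exact Set.mem_biUnion hi (hB i n (by omega) b hb)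
    have h2 := Set.ncard_le_ncard hsub hfinB
    apply hn2'
    have h3 : (({b : Place k K | ∃ i ∈ Γ, Same b (iter F x i) (iter F x n)}.ncard : ℕ) : ℤ) ≤
        ((⋃ i ∈ Γ, B i).ncard : ℕ) := by exact_mod_cast h2
    push_cast at h1
    linarith

end Pool.Agent.Helper63.TN

end

section

namespace Pool.Agent.Helper16
end Pool.Agent.Helper16
namespace Pool.Agent.Helper36
end Pool.Agent.Helper36
namespace Pool.Agent.Helper38.TQ
end Pool.Agent.Helper38.TQ
namespace Pool.Agent.Helper30.TKN
end Pool.Agent.Helper30.TKN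

/-!
# Return sets of curves
-/

set_option autoImplicit false

namespace Pool.Agent.Helper63.TN

open MvPolynomial

open Pool.Agent.Helper16 (Place IsFunctionField)

open Pool.Agent.Helper36 (step iter iter_zero iter_succ)

open Pool.Agent.Helper38.TQ

open Pool.Agent.Helper30.TKN

variable {ν : ℕ} {k K : Type} [Field k] [Field K] [Algebra k K]

/-- An infinite set of natural numbers belongs to a free ultrafilter. -/
private theorem finalC_free {R : Set ℕ} (hR : R.Infinite) :
    ∃ U : Ultrafilter ℕ, Free U ∧ R ∈ U := by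
  have hne : (Filter.cofinite ⊓ Filter.principal R : Filter ℕ).NeBot := by
    rw [Filter.inf_principal_neBot_iff]
    intro s hs
    have h1 : (sᶜ : Set ℕ).Finite := hs
    obtain ⟨n, hn, hn'⟩ := hR.exists_notMem_finite h1
    exact ⟨n, not_not.1 hn', hn⟩
  refine ⟨Ultrafilter.of (Filter.cofinite ⊓ Filter.principal R), ?_, ?_⟩
  · intro m
    have h1 : ∀ᶠ n in (Filter.cofinite : Filter ℕ), m ≤ n := by
      rw [Filter.eventually_cofinite]
      refine (Set.finite_lt_nat m).subset ?_
      intro n hn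
      exact not_le.1 hn
    exact ((Ultrafilter.of_le _).trans inf_le_left) h1
  · have h1 : R ∈ Filter.principal R := Filter.mem_principal_self R
    exact ((Ultrafilter.of_le _).trans inf_le_right) h1

/-- A set which differs by a finite set from a subset invariant under a shift is a finite union of
progressions. -/
private theorem finalC_prog {R A : Set ℕ} {k : ℕ} (hk : 0 < k) (hA : ∀ n ∈ A, n + k ∈ A)
    (hAR : A ⊆ R) (hfin : (R \ A).Finite) :
    ∃ T : Finset (ℕ × ℕ), ∀ n, n ∈ R ↔ ∃ p ∈ T, ∃ t, n = p.1 + p.2 * t := by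
  classical
  have hAt : ∀ (n t : ℕ), n ∈ A → n + k * t ∈ A := by
    intro n t hn
    induction t with
    | zero => simpa using hn
    | succ t ih =>
      have := hA _ ih
      rw [add_assoc, ← Nat.mul_succ] at this
      exact this
  have hmin : ∀ r : ℕ, ∃ a : ℕ, (∃ b, b ∈ A ∧ b % k = r) →
      (a ∈ A ∧ a % k = r) ∧ ∀ b, b ∈ A → b % k = r → a ≤ b := by
    intro r
    by_cases h : ∃ b, b ∈ A ∧ b % k = r
    · exact ⟨Nat.find h, fun _ => ⟨Nat.find_spec h, fun b hb hb' => Nat.find_min' h ⟨hb, hb'⟩⟩⟩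
    · exact ⟨0, fun h' => absurd h' h⟩
  choose a ha using hmin
  refine ⟨hfin.toFinset.image (fun n => (n, 0)) ∪
    ((Finset.range k).filter fun r => ∃ b, b ∈ A ∧ b % k = r).image fun r => (a r, k), ?_⟩
  intro n
  constructor
  · intro hn
    by_cases hnA : n ∈ A
    · have h1 := ha (n % k) ⟨n, hnA, rfl⟩
      have h2 : a (n % k) ≤ n := h1.2 n hnA rfl
      refine ⟨(a (n % k), k), ?_, (n - a (n % k)) / k, ?_⟩
      · refine Finset.mem_union_right _ (Finset.mem_image.2 ⟨n % k, ?_, rfl⟩)
        exact Finset.mem_filter.2 ⟨Finset.mem_range.2 (Nat.mod_lt _ hk), n, hnA, rfl⟩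
      · have h3 : k ∣ n - a (n % k) := by
          have h4 : a (n % k) ≡ n [MOD k] := h1.1.2
          exact (Nat.modEq_iff_dvd' h2).1 h4
        simp only
        rw [Nat.mul_div_cancel' h3]
        omega
    · refine ⟨(n, 0), ?_, 0, by simp⟩
      exact Finset.mem_union_left _
        (Finset.mem_image.2 ⟨n, hfin.mem_toFinset.2 ⟨hn, hnA⟩, rfl⟩)
  · rintro ⟨p, hp, t, rfl⟩
    rcases Finset.mem_union.1 hp with hp | hp
    · obtain ⟨m, hm, rfl⟩ := Finset.mem_image.1 hp
      simpa using (hfin.mem_toFinset.1 hm).1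
    · obtain ⟨r, hr, rfl⟩ := Finset.mem_image.1 hp
      exact hAR (hAt _ _ (ha r (Finset.mem_filter.1 hr).2).1.1)

/-- Compactness: if every free ultrafilter containing `R` contains a subset of `R` invariant under
a shift, then `R` is a finite union of progressions. -/
private theorem finalC_compact {R : Set ℕ} (h : ∀ U : Ultrafilter ℕ, Free U → R ∈ U →
    ∃ T ∈ U, T ⊆ R ∧ ∃ N, 0 < N ∧ ∀ n ∈ T, n + N ∈ T) :
    ∃ T : Finset (ℕ × ℕ), ∀ n, n ∈ R ↔ ∃ p ∈ T, ∃ t, n = p.1 + p.2 * t := by
  classical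
  set A : ℕ → Set ℕ := fun m => {n | ∀ t, n + m.factorial * t ∈ R} with hA
  have hAR : ∀ m, A m ⊆ R := by
    intro m n hn
    have := hn 0
    simpa using this
  by_cases hfin : ∃ m, (R \ A m).Finite
  · obtain ⟨m, hm⟩ := hfin
    refine finalC_prog (Nat.factorial_pos m) ?_ (hAR m) hm
    intro n hn t
    have := hn (t + 1)
    rw [mul_add, mul_one, add_comm (m.factorial * t), ← add_assoc] at this
    exact this
  · exfalso
    push Not at hfin
    have hex : ∀ m : ℕ, ∃ n ∈ R \ A m, m < n := by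
      intro m
      obtain ⟨n, hn, hn'⟩ := (hfin m).exists_gt m
      exact ⟨n, hn, hn'⟩
    choose s hs hs' using hex
    have hinf : (Set.range s).Infinite := by
      intro hf
      obtain ⟨B, hB⟩ := hf.bddAbove
      have h1 := hB ⟨B, rfl⟩
      have h2 := hs' B
      omega
    obtain ⟨U, hU, hUs⟩ := finalC_free hinf
    have hR : R ∈ U := by
      refine Filter.mem_of_superset hUs ?_
      rintro _ ⟨m, rfl⟩
      exact (hs m).1
    obtain ⟨T, hT, hTR, N, hN, hTN⟩ := h U hU hR
    have hmono : ∀ m m', m ≤ m' → A m ⊆ A m' := by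
      intro m m' hmm n hn t
      obtain ⟨q, hq⟩ := Nat.factorial_dvd_factorial hmm
      have := hn (q * t)
      rw [← mul_assoc, ← hq] at this
      exact this
    have hTt : ∀ (n t : ℕ), n ∈ T → n + N * t ∈ T := by
      intro n t hn
      induction t with
      | zero => simpa using hn
      | succ t ih =>
        have := hTN _ ih
        rw [add_assoc, ← Nat.mul_succ] at this
        exact this
    have hTA : T ⊆ A N := by
      intro n hn t
      obtain ⟨q, hq⟩ := Nat.dvd_factorial hN (le_refl N)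
      have := hTR (hTt n (q * t) hn)
      rw [← mul_assoc, ← hq] at this
      exact this
    -- almost all elements of the range of `s` are outside `A N`
    set B : ℕ := (Finset.range N).sup s with hBdef
    have h3 : ∀ᶠ n in (U : Filter ℕ), B + 1 ≤ n := hU (B + 1)
    have hemp : (T ∩ Set.range s ∩ {n | B + 1 ≤ n}) ∈ (U : Filter ℕ) :=
      Filter.inter_mem (Filter.inter_mem hT hUs) h3
    obtain ⟨n, ⟨hnT, m, hm⟩, hnB⟩ := Filter.nonempty_of_mem hemp
    have hmN : N ≤ m := by
      by_contra hcon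
      have h4 : s m ≤ B := Finset.le_sup (f := s) (Finset.mem_range.2 (not_le.1 hcon))
      have h5 : B + 1 ≤ n := hnB
      omega
    have h6 := hmono N m hmN (hTA hnT)
    rw [← hm] at h6
    exact (hs m).2 h6

private theorem finalC_aeval (v : Fin (ν + 1) → K) (G : MvPolynomial (Fin (ν + 1)) K) :
    aeval v G = eval v G :=
  congrArg (fun φ => φ G) (coe_aeval_eq_eval v)

private theorem finalC_comp (F : Fin (ν + 1) → MvPolynomial (Fin (ν + 1)) K)
    (v : Fin (ν + 1) → K) (G : MvPolynomial (Fin (ν + 1)) K) :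
    eval v (aeval F G) = eval (step F v) G := by
  induction G using MvPolynomial.induction_on with
  | C a => simp
  | add p q hp hq => rw [map_add, map_add, map_add, hp, hq]
  | mul_X p i hp =>
    rw [map_mul, map_mul, map_mul, hp, aeval_X, eval_X]
    congr 1

private theorem finalC_pull (F : Fin (ν + 1) → MvPolynomial (Fin (ν + 1)) K)
    (x : Fin (ν + 1) → K) (N : ℕ) : ∀ (n : ℕ) (G : MvPolynomial (Fin (ν + 1)) K),
    eval (iter F x n) (pull F N G) = eval (iter F x (n + N)) G := by
  induction N with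
  | zero => intro n G; rfl
  | succ N ih =>
    intro n G
    have h1 : pull F (N + 1) G = pull F N (aeval F G) := Function.iterate_succ_apply _ _ _
    rw [h1, ih, ← add_assoc, iter_succ, finalC_comp]

private theorem finalC_map [Algebra K ℂ]
    (G : MvPolynomial (Fin (ν + 1)) K) (v : Fin (ν + 1) → K) :
    eval (fun i => algebraMap K ℂ (v i)) (map (algebraMap K ℂ) G) = algebraMap K ℂ (eval v G) := by
  induction G using MvPolynomial.induction_on with
  | C a => simp
  | add p q hp hq => rw [map_add, map_add, map_add, map_add, hp, hq]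
  | mul_X p i hp => rw [map_mul, map_mul, map_mul, map_mul, hp, map_X, eval_X, eval_X]

/-- The orbit of a point over `K`, over the complex numbers. -/
private theorem finalC_orbit {K : Type} [Field K] [Algebra K ℂ] {d : ℕ}
    {F : Fin (ν + 1) → MvPolynomial (Fin (ν + 1)) K}
    (hF : IsEndo d fun i => map (algebraMap K ℂ) (F i)) (x : Fin (ν + 1) → K) (c : ℂ) (n : ℕ) :
    (fun (x : Fin (ν + 1) → ℂ) (i : Fin (ν + 1)) =>
        eval x (map (algebraMap K ℂ) (F i)))^[n] (fun i => c * algebraMap K ℂ (x i)) =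
      c ^ d ^ n • fun i => algebraMap K ℂ (iter F x n i) := by
  have h1 : (fun (x : Fin (ν + 1) → ℂ) (i : Fin (ν + 1)) => eval x (map (algebraMap K ℂ) (F i))) =
      step fun i => map (algebraMap K ℂ) (F i) := by
    funext x i
    rfl
  rw [h1]
  have h2 : (fun i => c * algebraMap K ℂ (x i)) = c • fun i => algebraMap K ℂ (x i) := rfl
  rw [h2]
  change iter (fun i => map (algebraMap K ℂ) (F i)) (c • fun i => algebraMap K ℂ (x i)) n = _
  rw [iter_smul hF]
  congr 1
  induction n with
  | zero => rfl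
  | succ n ih =>
    rw [iter_succ, ih]
    funext i
    change eval _ (map (algebraMap K ℂ) (F i)) = algebraMap K ℂ (iter F x (n + 1) i)
    rw [iter_succ]
    exact finalC_map _ _

/-- The components over `K` of a polynomial over the complex numbers. -/
private theorem finalC_components {K : Type} [Field K] [Algebra K ℂ]
    (g : MvPolynomial (Fin (ν + 1)) ℂ) : ∃ (ι : Type) (q : ι → MvPolynomial (Fin (ν + 1)) K),
      ∀ v : Fin (ν + 1) → K, eval (fun i => algebraMap K ℂ (v i)) g = 0 ↔ ∀ b, eval v (q b) = 0 := by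
  classical
  set B := Module.Basis.ofVectorSpace K ℂ with hB
  refine ⟨_, fun b => ∑ m ∈ g.support, monomial m (B.coord b (coeff m g)), fun v => ?_⟩
  have h1 : ∀ b, eval v (∑ m ∈ g.support, monomial m (B.coord b (coeff m g))) =
      B.coord b (eval (fun i => algebraMap K ℂ (v i)) g) := by
    intro b
    rw [eval_eq (fun i => algebraMap K ℂ (v i)) g, map_sum, map_sum]
    refine Finset.sum_congr rfl fun m _ => ?_
    rw [eval_monomial]
    have h2 : coeff m g * ∏ i ∈ m.support, (algebraMap K ℂ (v i)) ^ m i =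
        (∏ i ∈ m.support, v i ^ m i) • coeff m g := by
      rw [Algebra.smul_def, map_prod, mul_comm]
      congr 1
      exact Finset.prod_congr rfl fun i _ => (map_pow _ _ _).symm
    rw [h2, map_smul, smul_eq_mul, mul_comm, Finsupp.prod]
  constructor
  · intro h b
    rw [h1, h, map_zero]
  · intro h
    refine B.ext_elem fun b => ?_
    have h3 := h b
    rw [h1] at h3
    simpa using h3

/-- Over a function field: the return set of a point of unbounded height to a closed set of
dimension at most one is a finite union of arithmetic progressions. -/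
theorem tn_dml {k K : Type} [Field k] [IsAlgClosed k] [Field K] [Algebra k K] [Algebra k ℂ]
    [Algebra K ℂ] [IsScalarTower k K ℂ] (hK : IsFunctionField k K) {d : ℕ}
    {F : Fin (ν + 1) → MvPolynomial (Fin (ν + 1)) K}
    (hF : IsEndo d fun i => map (algebraMap K ℂ) (F i)) {x : Fin (ν + 1) → K} (hx : x ≠ 0)
    (hunb : ∀ B : ℤ, ∃ n, B < ht k (iter F x n)) (c : ℂ) (hc : c ≠ 0)
    {S₀ : Set (MvPolynomial (Fin (ν + 1)) ℂ)} (hS₀ : ∀ g ∈ S₀, ∃ e, g.IsHomogeneous e)
    (hcurve : CurveSet S₀) :
    ∃ (m : ℕ) (a q : Fin m → ℕ), ∀ n, (∀ g ∈ S₀,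
      eval ((fun (x : Fin (ν + 1) → ℂ) (i : Fin (ν + 1)) =>
        eval x (map (algebraMap K ℂ) (F i)))^[n] (fun i => c * algebraMap K ℂ (x i))) g = 0) ↔
        ∃ j t, n = a j + q j * t := by
  classical
  have hchar : CharZero k := (algebraMap k ℂ).charZero
  have hcharK : CharZero K := (algebraMap K ℂ).charZero
  have hne : ∀ n, iter F x n ≠ 0 := fun n => iter_ne_zeroK hF hx n
  -- the return set
  set R : Set ℕ := {n | ∀ g ∈ S₀, eval (fun i => algebraMap K ℂ (iter F x n i)) g = 0} with hR
  have hRiff : ∀ n, (∀ g ∈ S₀, eval ((fun (x : Fin (ν + 1) → ℂ) (i : Fin (ν + 1)) =>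
        eval x (map (algebraMap K ℂ) (F i)))^[n] (fun i => c * algebraMap K ℂ (x i))) g = 0) ↔
      n ∈ R := by
    intro n
    refine forall₂_congr fun g hg => ?_
    obtain ⟨e, he⟩ := hS₀ g hg
    rw [finalC_orbit hF, eval_smul_hom he, mul_eq_zero,
      or_iff_right (pow_ne_zero _ (pow_ne_zero _ hc))]
  obtain ⟨T, hT⟩ := finalC_compact (R := R) (by
    intro U hU hRU
    have hcur : OnCurve U (iter F x) := hcurve K (iter F x) U hRU
    have hnp := not_nonPer hK hF hx hunb hU hcur
    unfold NonPer at hnp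
    push Not at hnp
    obtain ⟨N, hN, hper⟩ := hnp
    refine ⟨{n | OnI (van U (iter F x)) (iter F x n)}, van_on hne, ?_, N, hN, ?_⟩
    · intro n hn g hg
      obtain ⟨e, he⟩ := hS₀ g hg
      obtain ⟨ι, q, hq⟩ := finalC_components (K := K) g
      rw [hq]
      intro b
      have h1 : q b ∈ van U (iter F x) := by
        change ∀ᶠ n in (U : Filter ℕ), ∀ c : K, eval (c • iter F x n) (q b) = 0
        have hRU' : ∀ᶠ n in (U : Filter ℕ), n ∈ R := hRU
        filter_upwards [hRU'] with m hm c'
        refine (hq _).1 ?_ b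
        have h2 : (fun i => algebraMap K ℂ ((c' • iter F x m) i)) =
            algebraMap K ℂ c' • fun i => algebraMap K ℂ (iter F x m i) := by
          funext i
          simp
        rw [h2, eval_smul_hom he, hm g hg, mul_zero]
      have h3 := hn.2 _ h1
      rwa [finalC_aeval] at h3
    · intro n hn
      refine ⟨hne _, fun G hG => ?_⟩
      rw [finalC_aeval, ← sum_homogeneousComponent G, map_sum]
      refine Finset.sum_eq_zero fun m _ => ?_
      have h1 := hper _ (van_hom hG m) m (homogeneousComponent_isHomogeneous m G)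
      have h2 := hn.2 _ h1
      rw [finalC_aeval] at h2
      have h3 := finalC_pull F x N n (homogeneousComponent m G)
      rw [← h3]
      exact h2)
  refine ⟨T.card, fun j => (T.equivFin.symm j).1.1, fun j => (T.equivFin.symm j).1.2,
    fun n => ?_⟩
  rw [hRiff, hT]
  constructor
  · rintro ⟨p, hp, t, h⟩
    refine ⟨T.equivFin ⟨p, hp⟩, t, ?_⟩
    simpa using h
  · rintro ⟨j, t, h⟩
    exact ⟨_, (T.equivFin.symm j).2, t, h⟩

end Pool.Agent.Helper63.TN

end

section

namespace Pool.Agent.Helper16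
end Pool.Agent.Helper16
namespace Pool.Agent.Helper36
end Pool.Agent.Helper36
namespace Pool.Agent.Helper38.TQ
end Pool.Agent.Helper38.TQ
namespace Pool.Agent.Helper30.TKN
end Pool.Agent.Helper30.TKN

/-!
# Curves in projective space: reduction to the algebraic numbers, final form
-/

set_option autoImplicit false

namespace Pool.Agent.Helper30.RED

open MvPolynomial

open Pool.Agent.Helper16 (Place IsFunctionField)

open Pool.Agent.Helper36 (step iter APSet)

open Pool.Agent.Helper38.TQ

open Pool.Agent.Helper30.TKN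

variable {ν : ℕ}

theorem unbC (ν d : ℕ) : UnbC ν d := by
  classical
  intro k _ _ _ K hK F x hF hx hunb r W hW hcur
  obtain ⟨m, a, q, h⟩ := Pool.Agent.Helper63.TN.tn_dml hK hF hx hunb 1 one_ne_zero
    (S₀ := Set.range fun j => map (algebraMap K ℂ) (W j)) (by
      rintro g ⟨j, rfl⟩
      obtain ⟨e, he⟩ := hW j
      exact ⟨e, he.map _⟩) hcur
  refine ap_of_dml ⟨Finset.univ.image fun j => (q j, a j), ?_⟩
  ext n
  rw [Set.mem_ofPred_eq, Set.mem_ofPred_eq, h n]
  constructor
  · rintro ⟨j, t, hn⟩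
    exact ⟨(q j, a j), Finset.mem_image_of_mem _ (Finset.mem_univ j), t, by rw [hn, add_comm]⟩
  · rintro ⟨p, hp, t, hn⟩
    obtain ⟨j, -, rfl⟩ := Finset.mem_image.1 hp
    exact ⟨j, t, by rw [hn, add_comm]⟩

end Pool.Agent.Helper30.RED

end
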