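import Pool.Agent.Helper72.TM2.T14

section

namespace Pool.Agent.Helper16
end Pool.Agent.Helper16
namespace Pool.Agent.Helper36
end Pool.Agent.Helper36
namespace Pool.Agent.Helper38.TQ
end Pool.Agent.Helper38.TQ
namespace Pool.Agent.Helper30.TKN
end Pool.Agent.Helper30.TKN

/-!
# Lifting to the `p`-adic numbers at a place of a function field

The statement of `etale_dml` with the hypothesis on the specialised orbit replaced by the
hypothesis that the orbit is good modulo `p`, for every specialisation modulo `p` of a ring which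
contains a given finite set of elements.
-/

set_option autoImplicit false

namespace Pool.Agent.Helper30.THC

open MvPolynomial

open Pool.Agent.Helper16 (Place IsFunctionField)

open Pool.Agent.Helper36 (step iter)

open Pool.Agent.Helper38.TQ

open Pool.Agent.Helper30.TKN

variable {ν : ℕ}

open Pool.Agent.Helper37 in
open Pool.Agent.Helper38.TPN in
theorem etale_gen {k K : Type} [Field k] [IsAlgClosed k] [Field K] [Algebra k K] [Algebra k ℂ]
    [Algebra K ℂ] [IsScalarTower k K ℂ] (hK : IsFunctionField k K) {d : ℕ}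
    {F : Fin (ν + 1) → MvPolynomial (Fin (ν + 1)) K} (hF : ∀ i, (F i).IsHomogeneous d) (x : Fin (ν + 1) → K)
    (hx : x ≠ 0) (b : Place k K) (f : Fin (ν + 1) → MvPolynomial (Fin (ν + 1)) k) (hf : GoodRed d b F f)
    (z : Fin (ν + 1) → k) (hred : Red b x z) (S₀ : Finset k)
    (hgood : ∀ (p : ℕ) [Fact p.Prime] (A : Type) [CommRing A] [IsDomain A] (j : A →+* k)
      (ψ : A →+* ZMod p) (FA : Fin (ν + 1) → MvPolynomial (Fin (ν + 1)) A)
      (zA : Fin (ν + 1) → A), Function.Injective j → (∀ c ∈ S₀, c ∈ Set.range j) →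
      (∀ i, map j (FA i) = f i) → (∀ i, j (zA i) = z i) →
      Pool.Agent.Helper38.Dml.GoodAt (fun i => map ψ (FA i)) (fun i => ψ (zA i)))
    (c : ℂ) (hc : c ≠ 0) :
    Pool.Agent.Helper38.Sym.DMLgen (fun i => map (algebraMap K ℂ) (F i))
      (fun i => c * algebraMap K ℂ (x i)) := by
  classical
  have hchar : CharZero k := (algebraMap k ℂ).charZero
  obtain ⟨hz, c₀, hc₀, hcz⟩ := hred
  set T : Finset (Fin (ν + 1) →₀ ℕ) := Etale_mon F f with hT
  have hTF : ∀ i m, m ∉ T → (F i).coeff m = 0 ∧ (f i).coeff m = 0 := by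
    intro i m hm
    have h1 : m ∉ (F i).support ∪ (f i).support := fun h =>
      hm (Finset.mem_biUnion.2 ⟨i, Finset.mem_univ _, h⟩)
    rw [Finset.mem_union, not_or, notMem_support_iff, notMem_support_iff] at h1
    exact h1
  have hTd : ∀ m ∈ T, Finsupp.weight 1 m = d := by
    intro m hm
    obtain ⟨i, -, h1⟩ := Finset.mem_biUnion.1 hm
    rcases Finset.mem_union.1 h1 with h2 | h2
    · exact hF i (mem_support_iff.1 h2)
    · exact hf.endo.hom i (mem_support_iff.1 h2)
  obtain ⟨s, y, Q, a, q, r, e, P, u, ρ, m, N', hs, hQd, hQy, hmin, hP, hM⟩ :=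
    exists_model hK b (ι := Fin (ν + 1) ⊕ (Fin (ν + 1) × {m // m ∈ T}))
      (fun i => Sum.elim (fun i => c₀ * x i - algebraMap k K (z i))
        (fun im => (F im.1).coeff (im.2 : Fin (ν + 1) →₀ ℕ)
          - algebraMap k K ((f im.1).coeff (im.2 : Fin (ν + 1) →₀ ℕ))) i) (by
        intro i
        rcases i with i | i
        · exact hcz i
        · exact hf.red i.1 i.2)
  let S : Finset k := NonCrit_cf2 Q ∪ NonCrit_cf a ∪ NonCrit_cf q ∪ NonCrit_cf r ∪ NonCrit_cf e ∪
    (Finset.univ.biUnion fun i => NonCrit_cf2 (P i)) ∪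
    (Finset.univ.biUnion fun i => NonCrit_cf (u i)) ∪
    (Finset.univ.biUnion fun i => (f i).coeffs) ∪ Finset.univ.image z ∪
    {(e.coeff 0)⁻¹, (q.coeff 0)⁻¹} ∪ S₀
  obtain ⟨p, hp, A, _, _, _, j, θ, hj, hθ, hS⟩ := exists_package S
  -- lifts
  have mS : ∀ T : Finset k, T ⊆ S → ∀ c ∈ T, c ∈ Set.range j := fun T hT c hc => hS c (hT hc)
  obtain ⟨QA, hQA⟩ := NonCrit_lift2 j Q (mS _ (by intro v hv; simp only [S, Finset.mem_union]; tauto))
  obtain ⟨aA, haA⟩ := NonCrit_lift j a (mS _ (by intro v hv; simp only [S, Finset.mem_union]; tauto))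
  obtain ⟨qA, hqA⟩ := NonCrit_lift j q (mS _ (by intro v hv; simp only [S, Finset.mem_union]; tauto))
  obtain ⟨rA, hrA⟩ := NonCrit_lift j r (mS _ (by intro v hv; simp only [S, Finset.mem_union]; tauto))
  obtain ⟨eA, heA⟩ := NonCrit_lift j e (mS _ (by intro v hv; simp only [S, Finset.mem_union]; tauto))
  have hPex : ∀ i, ∃ PA : Polynomial (Polynomial A), PA.map (Polynomial.mapRingHom j) = P i := fun i =>
    NonCrit_lift2 j (P i) (mS _ (by
      intro v hv
      have h1 : v ∈ Finset.univ.biUnion fun i => NonCrit_cf2 (P i) :=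
        Finset.mem_biUnion.2 ⟨i, Finset.mem_univ _, hv⟩
      simp only [S, Finset.mem_union]; tauto))
  choose PA hPA using hPex
  have huex : ∀ i, ∃ uA : Polynomial A, uA.map j = u i := fun i =>
    NonCrit_lift j (u i) (mS _ (by
      intro v hv
      have h1 : v ∈ Finset.univ.biUnion fun i => NonCrit_cf (u i) :=
        Finset.mem_biUnion.2 ⟨i, Finset.mem_univ _, hv⟩
      simp only [S, Finset.mem_union]; tauto))
  choose uA huA using huex
  have hFex : ∀ i, ∃ FA, map j FA = f i := fun i =>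
    NonCrit_liftMv j (f i) (mS _ (by
      intro v hv
      have h1 : v ∈ Finset.univ.biUnion fun i => (f i).coeffs :=
        Finset.mem_biUnion.2 ⟨i, Finset.mem_univ _, hv⟩
      simp only [S, Finset.mem_union]; tauto))
  choose FA hFA using hFex
  have hzex : ∀ i, ∃ zA, j zA = z i := fun i => hS _ (by
      have h1 : z i ∈ Finset.univ.image z := Finset.mem_image_of_mem _ (Finset.mem_univ _)
      simp only [S, Finset.mem_union]; tauto)
  choose zA hzA using hzex
  have h4 : ∀ v ∈ ({(e.coeff 0)⁻¹, (q.coeff 0)⁻¹} : Finset k), v ∈ Set.range j :=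
    mS _ (by intro v hv; simp only [S, Finset.mem_union]; tauto)
  have hinjX : Function.Injective (Polynomial.map j) := Polynomial.map_injective j hj
  have hFAh : ∀ i, (FA i).IsHomogeneous d := by
    intro i
    have h1 := hf.endo.hom i
    rw [← hFA i] at h1
    intro v hv
    refine h1 ?_
    rw [coeff_map]
    intro h0
    exact hv (hj (by rw [h0, map_zero]))
  have hFAc : ∀ i v, j ((FA i).coeff v) = (f i).coeff v := by
    intro i v
    rw [← hFA i, coeff_map]
  -- the identities over `A`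
  have hev : ∀ R : Polynomial (Polynomial A),
      (R.map (Polynomial.mapRingHom j)).eval a = (R.eval aA).map j := by
    intro R
    rw [← haA, Polynomial.eval_map]
    exact Polynomial.eval₂_at_apply (Polynomial.mapRingHom j) aA
  have e1 : QA.eval aA = Polynomial.X ^ N' * rA := by
    apply hinjX
    rw [← hev, hQA, hM.evQ, Polynomial.map_mul, Polynomial.map_pow, Polynomial.map_X, hrA]
  have e2 : (Polynomial.derivative QA).eval aA = Polynomial.X ^ ρ * eA := by
    apply hinjX
    rw [← hev, ← Polynomial.derivative_map, hQA, hM.evD, Polynomial.map_mul, Polynomial.map_pow,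
      Polynomial.map_X, heA]
  have e3 : ∀ i, (PA i).eval aA = Polynomial.X ^ (m + 1) * uA i := by
    intro i
    apply hinjX
    rw [← hev, hPA, hM.evP, Polynomial.map_mul, Polynomial.map_pow, Polynomial.map_X, huA]
  have e4 : IsUnit (eA.coeff 0) := by
    have h5 : j (eA.coeff 0) = e.coeff 0 := by rw [← heA, Polynomial.coeff_map]
    exact isUnit_of_inv_mem j hj _ (by rw [h5]; exact hM.e0) (by rw [h5]; exact h4 _ (by simp))
  have e5 : IsUnit (qA.coeff 0) := by
    have h5 : j (qA.coeff 0) = q.coeff 0 := by rw [← hqA, Polynomial.coeff_map]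
    exact isUnit_of_inv_mem j hj _ (by rw [h5]; exact hM.q0) (by rw [h5]; exact h4 _ (by simp))
  obtain ⟨t, ht1, ht⟩ := exists_small p θ hθ
  have ht0 : t ≠ 0 := by
    intro h0
    apply ht Polynomial.X Polynomial.X_ne_zero
    rw [Polynomial.eval₂_X, h0]
  obtain ⟨w, hw, hwP, hwq⟩ := hensel_model p θ QA aA qA rA eA PA uA ρ m N' hM.le₁ hM.le₂ e1 e2 e4
    e5 e3 t ht1 ht0
  have hmapinj : Function.Injective (Polynomial.mapRingHom j) := hinjX
  have hQAd : QA.natDegree = Q.natDegree := by
    rw [← hQA, Polynomial.natDegree_map_eq_of_injective hmapinj]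
  obtain ⟨K₁, _, κ, ι, γ, η, g1, g2, g3, g4⟩ := exists_hom (k := k) (K := K) p j hj θ s y hs t w ht
    QA (by rw [hQAd]; exact hQd) (by rw [← ev2_map, hQA]; exact hQy)
    (by intro R h1 h2; rw [hQAd]; exact hmin R h1 h2) hw
  -- good reduction
  have hG := hgood p A j (PadicInt.toZMod.comp θ) FA zA hj (mS _ (by
    intro v hv
    simp only [S, Finset.mem_union]
    tauto)) hFA hzA
  -- the coordinates
  set δ : A →+* K₁ := γ.comp Polynomial.C with hδ
  have k1 : ∀ v, κ (δ v) = algebraMap k K (j v) := by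
    intro v
    have h5 := g1 (Polynomial.C v)
    rwa [Polynomial.eval₂_C] at h5
  have k2 : ∀ v, ι (δ v) = ((θ v : ℤ_[p]) : ℚ_[p]) := by
    intro v
    have h5 := g2 (Polynomial.C v)
    rwa [Polynomial.eval₂_C] at h5
  set D : K₁ := γ (Polynomial.X ^ m * qA) with hD
  have hιD : ‖ι D‖ = ‖t‖ ^ m := by
    rw [hD, g2]
    exact hwq
  have htn : 0 < ‖t‖ := norm_pos_iff.2 ht0
  have hD0 : D ≠ 0 := by
    intro h
    rw [h, map_zero, norm_zero] at hιD
    exact (pow_pos htn m).ne hιD
  have hκD : κ D = Polynomial.aeval s (Polynomial.X ^ m * q) := by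
    rw [hD, g1, ← hqA, Polynomial.aeval_def]
    have h5 : (Polynomial.X ^ m * qA.map j : Polynomial k)
        = (Polynomial.X ^ m * qA).map j := by
      rw [Polynomial.map_mul, Polynomial.map_pow, Polynomial.map_X]
    rw [h5, Polynomial.eval₂_map]
  set V : (Fin (ν + 1) ⊕ (Fin (ν + 1) × {m // m ∈ T})) → K₁ := fun i => ev2 δ (γ Polynomial.X) η (PA i) with hV
  have hκV : ∀ i, κ (V i) = Polynomial.aeval s (Polynomial.X ^ m * q)
      * (Sum.elim (fun i => c₀ * x i - algebraMap k K (z i))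
        (fun im : Fin (ν + 1) × {m // m ∈ T} => (F im.1).coeff (im.2 : Fin (ν + 1) →₀ ℕ)
          - algebraMap k K ((f im.1).coeff (im.2 : Fin (ν + 1) →₀ ℕ))) i) := by
    intro i
    rw [← hP i, hV, ← ev2_comp, ← hPA i, ev2_map]
    have h5 : κ.comp δ = (algebraMap k K).comp j := RingHom.ext k1
    have h6 : κ (γ Polynomial.X) = s := by rw [g1, Polynomial.eval₂_X]
    rw [h5, h6, g3]
  have hιV : ∀ i, ‖ι (V i)‖ ≤ ‖t‖ ^ (m + 1) := by
    intro i
    have h5 : ι (V i) = ((ev2 θ t w (PA i) : ℤ_[p]) : ℚ_[p]) := by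
      rw [hV, ← ev2_comp]
      have h6 : ι.comp δ = (PadicInt.Coe.ringHom (p := p)).comp θ := RingHom.ext k2
      have h7 : ι (γ Polynomial.X) = PadicInt.Coe.ringHom (p := p) t := by
        rw [g2, Polynomial.eval₂_X]; rfl
      have h8 : ι η = PadicInt.Coe.ringHom (p := p) w := g4
      rw [h6, h7, h8, ev2_comp]
      rfl
    rw [h5]
    exact hwP i
  have hsmall : ∀ i, ‖ι (V i / D)‖ < 1 := by
    intro i
    rw [map_div₀, norm_div, hιD, div_lt_one (pow_pos htn m)]
    refine lt_of_le_of_lt (hιV i) ?_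
    exact pow_lt_pow_right_of_lt_one₀ htn ht1 (by omega)
  have hκD0 : κ D ≠ 0 := by simpa using hD0
  have hκVD : ∀ i, κ (V i / D) = Sum.elim (fun i => c₀ * x i - algebraMap k K (z i))
        (fun im : Fin (ν + 1) × {m // m ∈ T} => (F im.1).coeff (im.2 : Fin (ν + 1) →₀ ℕ)
          - algebraMap k K ((f im.1).coeff (im.2 : Fin (ν + 1) →₀ ℕ))) i := by
    intro i
    rw [map_div₀, hκV, ← hκD, mul_div_cancel_left₀ _ hκD0]
  -- the polynomials over `K₁`
  let cf : Fin (ν + 1) → (Fin (ν + 1) →₀ ℕ) → K₁ := fun i v =>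
    if hv : v ∈ T then δ ((FA i).coeff v) + V (Sum.inr (i, ⟨v, hv⟩)) / D else 0
  let Φ : Fin (ν + 1) → MvPolynomial (Fin (ν + 1)) K₁ := fun i => ∑ v ∈ T, monomial v (cf i v)
  have hΦc : ∀ i v, (Φ i).coeff v = cf i v := by
    intro i v
    simp only [Φ, coeff_sum, coeff_monomial]
    rw [Finset.sum_ite_eq']
    split_ifs with h
    · rfl
    · simp only [cf, dif_neg h]
  have hΦh : ∀ i, (Φ i).IsHomogeneous d := by
    intro i v hv
    refine hTd v ?_
    by_contra h
    apply hv
    rw [hΦc]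
    simp only [cf, dif_neg h]
  have hΦn : ∀ i v, ‖ι ((Φ i).coeff v) - ((θ ((FA i).coeff v) : ℤ_[p]) : ℚ_[p])‖ < 1 := by
    intro i v
    rw [hΦc]
    by_cases h : v ∈ T
    · simp only [cf, dif_pos h]
      rw [map_add, k2, add_sub_cancel_left]
      exact hsmall _
    · simp only [cf, dif_neg h]
      have h5 : (FA i).coeff v = 0 := by
        apply hj
        rw [hFAc, (hTF i v h).2, map_zero]
      rw [h5]
      simp
  have hΦF : ∀ i, map κ (Φ i) = F i := by
    intro i
    ext v
    rw [coeff_map, hΦc]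
    by_cases h : v ∈ T
    · simp only [cf, dif_pos h]
      rw [map_add, k1, hFAc, hκVD]
      simp only [Sum.elim_inr]
      ring
    · simp only [cf, dif_neg h]
      rw [map_zero, (hTF i v h).1]
  have hfinal := Etale_final (k := k) (K := K) p θ (d := d) FA zA hG K₁ κ ι Φ hΦh hΦn
    (fun i => δ (zA i) + V (Sum.inl i) / D) (by
      intro i
      rw [map_add, k2, add_sub_cancel_left]
      exact hsmall _)
    (c * (algebraMap K ℂ c₀)⁻¹) (mul_ne_zero hc (inv_ne_zero (by simpa using hc₀)))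
  have hlast : ∀ i, c * (algebraMap K ℂ c₀)⁻¹ * algebraMap K ℂ (κ (δ (zA i) + V (Sum.inl i) / D))
      = c * algebraMap K ℂ (x i) := by
    intro i
    have h5 : κ (δ (zA i) + V (Sum.inl i) / D) = c₀ * x i := by
      rw [map_add, k1, hzA, hκVD]
      simp only [Sum.elim_inl]
      ring
    rw [h5, map_mul]
    have h6 : algebraMap K ℂ c₀ ≠ 0 := by simpa using hc₀
    field_simp
  have hlast2 : ∀ i, map ((algebraMap K ℂ).comp κ) (Φ i) = map (algebraMap K ℂ) (F i) := by
    intro i
    rw [← hΦF i, map_map]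
  simp only [hlast, hlast2] at hfinal
  exact hfinal

end Pool.Agent.Helper30.THC

end
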