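import Pool.Agent.Helper72.TM2.T24
import Pool.Agent.Helper72.TM2.T08
import Pool.Agent.Helper72.TM2.T23
import Pool.Agent.Helper72.TM2.T53
import Pool.Agent.Helper72.TM2.T33

section

namespace Pool.Agent.Helper16
end Pool.Agent.Helper16
namespace Pool.Agent.Helper36
end Pool.Agent.Helper36
namespace Pool.Agent.Helper38.TQ
end Pool.Agent.Helper38.TQ
namespace Pool.Agent.Helper30.TKN
end Pool.Agent.Helper30.TKN
namespace Pool.Agent.Helper30.RED
end Pool.Agent.Helper30.RED
namespace Pool.Agent.Helper72.TH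
end Pool.Agent.Helper72.TH
namespace Pool.Agent.Helper38.Dml
end Pool.Agent.Helper38.Dml

/-!
# Certificates of chains of closed sets over rings
-/

set_option autoImplicit false

namespace Pool.Agent.Helper30.THC

open MvPolynomial

open Pool.Agent.Helper16 (Place IsFunctionField)

open Pool.Agent.Helper36 (step iter iter_zero iter_succ iter_succ' iter_add iter_map)

open Pool.Agent.Helper38.TQ

open Pool.Agent.Helper30.TKN

open Pool.Agent.Helper30.RED

open Pool.Agent.Helper72.TH (Chain)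

open Pool.Agent.Helper38.Dml (pmap pjac GoodAt)

variable {ν : ℕ}

/-- A power of `g` lies in the ideal generated by the family. -/
def InRad {A : Type} [CommRing A] {ι : Type} (G : ι → MvPolynomial (Fin (ν + 1)) A)
    (g : MvPolynomial (Fin (ν + 1)) A) : Prop := ∃ r : ℕ, g ^ r ∈ Ideal.span (Set.range G)

theorem InRad.map {A B : Type} [CommRing A] [CommRing B] (φ : A →+* B) {ι : Type}
    {G : ι → MvPolynomial (Fin (ν + 1)) A} {g : MvPolynomial (Fin (ν + 1)) A} (h : InRad G g) :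
    InRad (fun i => MvPolynomial.map φ (G i)) (MvPolynomial.map φ g) := by
  obtain ⟨r, hr⟩ := h
  refine ⟨r, ?_⟩
  have h1 := Ideal.mem_map_of_mem (MvPolynomial.map φ) hr
  rw [map_pow, Ideal.map_span, ← Set.range_comp] at h1
  exact h1

theorem InRad.eval {E : Type} [Field E] {ι : Type}
    {G : ι → MvPolynomial (Fin (ν + 1)) E} {g : MvPolynomial (Fin (ν + 1)) E} (h : InRad G g)
    {y : Fin (ν + 1) → E} (hy : ∀ i, MvPolynomial.eval y (G i) = 0) :
    MvPolynomial.eval y g = 0 := by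
  obtain ⟨r, hr⟩ := h
  have h1 : Ideal.span (Set.range G) ≤ RingHom.ker (MvPolynomial.eval y) := by
    rw [Ideal.span_le]
    rintro _ ⟨i, rfl⟩
    exact hy i
  have h2 := h1 hr
  rw [RingHom.mem_ker, map_pow] at h2
  exact eq_zero_of_pow_eq_zero h2

/-- The certificate is defined over every ring which contains some finite set. -/
theorem InRad.descend {k : Type} [Field k] {ι : Type} [Finite ι]
    {G : ι → MvPolynomial (Fin (ν + 1)) k} {g : MvPolynomial (Fin (ν + 1)) k} (h : InRad G g) :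
    ∃ S₀ : Finset k, ∀ (A : Type) [CommRing A] (j : A →+* k), Function.Injective j →
      (∀ c ∈ S₀, c ∈ Set.range j) → ∀ (GA : ι → MvPolynomial (Fin (ν + 1)) A)
      (gA : MvPolynomial (Fin (ν + 1)) A), (∀ i, MvPolynomial.map j (GA i) = G i) →
      MvPolynomial.map j gA = g → InRad GA gA := by
  classical
  haveI := Fintype.ofFinite ι
  obtain ⟨r, hr⟩ := h
  obtain ⟨q, hq⟩ := (Submodule.mem_span_range_iff_exists_fun _).1 hr
  refine ⟨Finset.univ.biUnion fun i => (q i).coeffs, fun A _ j hj hS GA gA hG hg => ⟨r, ?_⟩⟩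
  have h1 : ∀ i, ∃ qA, MvPolynomial.map j qA = q i := fun i =>
    NonCrit_liftMv j (q i) fun c hc => hS c (Finset.mem_biUnion.2 ⟨i, Finset.mem_univ _, hc⟩)
  choose qA hqA using h1
  rw [Ideal.span, Submodule.mem_span_range_iff_exists_fun]
  refine ⟨qA, ?_⟩
  apply MvPolynomial.map_injective j hj
  rw [map_sum, map_pow, hg, ← hq]
  refine Finset.sum_congr rfl fun i _ => ?_
  rw [smul_eq_mul, smul_eq_mul, map_mul, hqA, hG]

/-- The Jacobian determinant, over a ring. -/
noncomputable def jR {A : Type} [CommRing A] (F : Fin (ν + 1) → MvPolynomial (Fin (ν + 1)) A) :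
    MvPolynomial (Fin (ν + 1)) A :=
  (Matrix.of fun i j => pderiv j (F i)).det

theorem jR_map {A B : Type} [CommRing A] [CommRing B] (φ : A →+* B)
    (F : Fin (ν + 1) → MvPolynomial (Fin (ν + 1)) A) :
    jR (fun i => MvPolynomial.map φ (F i)) = MvPolynomial.map φ (jR F) := by
  unfold jR
  rw [RingHom.map_det]
  congr 1
  ext1 i j
  rw [RingHom.mapMatrix_apply, Matrix.map_apply, Matrix.of_apply, Matrix.of_apply, pderiv_map]

theorem eval_jR {A : Type} [CommRing A] (F : Fin (ν + 1) → MvPolynomial (Fin (ν + 1)) A)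
    (y : Fin (ν + 1) → A) : eval y (jR F) = (pjac F y).det := by
  unfold jR
  rw [RingHom.map_det]
  rfl

theorem comp_map {A B : Type} [CommRing A] [CommRing B] (φ : A →+* B)
    (F : Fin (ν + 1) → MvPolynomial (Fin (ν + 1)) A) (g : MvPolynomial (Fin (ν + 1)) A) :
    MvPolynomial.map φ (aeval F g) =
      aeval (fun i => MvPolynomial.map φ (F i)) (MvPolynomial.map φ g) := by
  induction g using MvPolynomial.induction_on with
  | C a => simp
  | add p q hp hq => simp only [map_add, hp, hq]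
  | mul_X p i hp => simp only [map_mul, hp, aeval_X, map_X]

theorem eval_comp {A : Type} [CommRing A] (F : Fin (ν + 1) → MvPolynomial (Fin (ν + 1)) A)
    (g : MvPolynomial (Fin (ν + 1)) A) (y : Fin (ν + 1) → A) :
    eval y (aeval F g) = eval (pmap F y) g := by
  induction g using MvPolynomial.induction_on with
  | C a => simp
  | add p q hp hq => simp only [map_add, hp, hq]
  | mul_X p i hp =>
    simp only [map_mul, hp, aeval_X, eval_X]
    rfl

/-- The certificates of a chain. -/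
structure CertR {A : Type} [CommRing A] (F : Fin (ν + 1) → MvPolynomial (Fin (ν + 1)) A)
    (R : MvPolynomial (Fin (ν + 1)) A) {n : ℕ} (W : Fin n → MvPolynomial (Fin (ν + 1)) A)
    (S : ℕ → Finset (Fin n)) (t : ℕ) : Prop where
  nz : ∀ i, InRad F (X i)
  inv : ∀ i < t, ∀ j ∈ S i, InRad (fun l : {l // l ∈ S i} => W l) (aeval F (W j))
  down : ∀ i < t, ∀ j ∈ S (i + 1),
    InRad (fun l : Option {l // l ∈ S i} => l.elim (jR F * R) fun l => W l) (aeval F (W j))
  empty : ∀ i, InRad (fun l : {l // l ∈ S t} => W l) (X i)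
  start : ∀ j ∈ S 0, InRad (fun _ : Unit => R) (aeval F (W j))

theorem CertR.map {A B : Type} [CommRing A] [CommRing B] (φ : A →+* B)
    {F : Fin (ν + 1) → MvPolynomial (Fin (ν + 1)) A}
    {R : MvPolynomial (Fin (ν + 1)) A} {n : ℕ} {W : Fin n → MvPolynomial (Fin (ν + 1)) A}
    {S : ℕ → Finset (Fin n)} {t : ℕ} (h : CertR F R W S t) :
    CertR (fun i => MvPolynomial.map φ (F i)) (MvPolynomial.map φ R)
      (fun j => MvPolynomial.map φ (W j)) S t := by
  refine ⟨fun i => ?_, fun i hi j hj => ?_, fun i hi j hj => ?_, fun i => ?_, fun j hj => ?_⟩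
  · have h1 := (h.nz i).map φ
    rwa [map_X] at h1
  · have h1 := (h.inv i hi j hj).map φ
    rwa [comp_map] at h1
  · have h1 := (h.down i hi j hj).map φ
    rw [comp_map] at h1
    convert h1 using 2 with l
    rcases l with _ | l
    · simp only [Option.elim_none, map_mul, jR_map]
    · rfl
  · have h1 := (h.empty i).map φ
    rwa [map_X] at h1
  · have h1 := (h.start j hj).map φ
    rwa [comp_map] at h1

/-- Certificates over an algebraically closed field. -/
theorem certR_of_chain {k : Type} [Field k] [Algebra k ℂ]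
    {F : Fin (ν + 1) → MvPolynomial (Fin (ν + 1)) k}
    (hnz : ∀ x : Fin (ν + 1) → ℂ, (∀ i, aeval x (F i) = 0) → x = 0)
    {R : MvPolynomial (Fin (ν + 1)) k} {n : ℕ} {W : Fin n → MvPolynomial (Fin (ν + 1)) k}
    {δ : Fin n → ℕ} {S : ℕ → Finset (Fin n)} {t : ℕ} (hc : Chain ℂ F (jf F * R) W δ S t)
    (hs : ∀ x : Fin (ν + 1) → ℂ, aeval x R = 0 →
      ∀ j ∈ S 0, aeval (fun l => aeval x (F l)) (W j) = 0) : CertR F R W S t := by
  have key : ∀ {ι : Type} [Fintype ι] (G : ι → MvPolynomial (Fin (ν + 1)) k)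
      (g : MvPolynomial (Fin (ν + 1)) k),
      (∀ x : Fin (ν + 1) → ℂ, (∀ i, aeval x (G i) = 0) → aeval x g = 0) → InRad G g := by
    intro ι _ G g hG
    obtain ⟨r, q, hq⟩ := exists_cert G g hG
    refine ⟨r, ?_⟩
    rw [← hq]
    exact Ideal.sum_mem _ fun i _ => Ideal.mul_mem_left _ _ (Ideal.subset_span ⟨i, rfl⟩)
  refine ⟨fun i => key _ _ fun x hx => ?_, fun i hi j hj => key _ _ fun x hx => ?_,
    fun i hi j hj => key _ _ fun x hx => ?_, fun i => key _ _ fun x hx => ?_,
    fun j hj => key _ _ fun x hx => ?_⟩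
  · rw [hnz x hx, aeval_X, Pi.zero_apply]
  · rw [aeval_comp]
    exact hc.inv i hi x (fun l hl => hx ⟨l, hl⟩) j hj
  · rw [aeval_comp]
    exact hc.down i hi x (fun l hl => hx (some ⟨l, hl⟩)) (hx none) j hj
  · rw [hc.empty x fun l hl => hx ⟨l, hl⟩, aeval_X, Pi.zero_apply]
  · rw [aeval_comp]
    exact hs x (hx ()) j hj

/-- The certificates are defined over every ring which contains some finite set. -/
theorem CertR.descend {k : Type} [Field k] {F : Fin (ν + 1) → MvPolynomial (Fin (ν + 1)) k}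
    {R : MvPolynomial (Fin (ν + 1)) k} {n : ℕ} {W : Fin n → MvPolynomial (Fin (ν + 1)) k}
    {S : ℕ → Finset (Fin n)} {t : ℕ} (h : CertR F R W S t) :
    ∃ S₀ : Finset k, ∀ (A : Type) [CommRing A] (j : A →+* k), Function.Injective j →
      (∀ c ∈ S₀, c ∈ Set.range j) → ∀ (FA : Fin (ν + 1) → MvPolynomial (Fin (ν + 1)) A)
      (RA : MvPolynomial (Fin (ν + 1)) A) (WA : Fin n → MvPolynomial (Fin (ν + 1)) A),
      (∀ i, MvPolynomial.map j (FA i) = F i) → MvPolynomial.map j RA = R →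
      (∀ l, MvPolynomial.map j (WA l) = W l) → CertR FA RA WA S t := by
  classical
  choose s1 h1 using fun i => (h.nz i).descend
  have e2 : ∀ p : Fin t × Fin n, ∃ S₀ : Finset k, p.2 ∈ S p.1 →
      ∀ (A : Type) [CommRing A] (j : A →+* k), Function.Injective j →
      (∀ c ∈ S₀, c ∈ Set.range j) →
      ∀ (GA : {l // l ∈ S p.1} → MvPolynomial (Fin (ν + 1)) A)
      (gA : MvPolynomial (Fin (ν + 1)) A), (∀ i, MvPolynomial.map j (GA i) = W i) →
      MvPolynomial.map j gA = aeval F (W p.2) → InRad GA gA := by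
    intro p
    by_cases hp : p.2 ∈ S p.1
    · obtain ⟨s, hs⟩ := (h.inv p.1 p.1.2 p.2 hp).descend
      exact ⟨s, fun _ => hs⟩
    · exact ⟨∅, fun h => absurd h hp⟩
  choose s2 h2 using e2
  have e3 : ∀ p : Fin t × Fin n, ∃ S₀ : Finset k, p.2 ∈ S (p.1 + 1) →
      ∀ (A : Type) [CommRing A] (j : A →+* k), Function.Injective j →
      (∀ c ∈ S₀, c ∈ Set.range j) →
      ∀ (GA : Option {l // l ∈ S p.1} → MvPolynomial (Fin (ν + 1)) A)
      (gA : MvPolynomial (Fin (ν + 1)) A),
      (∀ i, MvPolynomial.map j (GA i) = i.elim (jR F * R) fun l => W l) →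
      MvPolynomial.map j gA = aeval F (W p.2) → InRad GA gA := by
    intro p
    by_cases hp : p.2 ∈ S (p.1 + 1)
    · obtain ⟨s, hs⟩ := (h.down p.1 p.1.2 p.2 hp).descend
      exact ⟨s, fun _ => hs⟩
    · exact ⟨∅, fun h => absurd h hp⟩
  choose s3 h3 using e3
  choose s4 h4 using fun i => (h.empty i).descend
  have e5 : ∀ p : Fin n, ∃ S₀ : Finset k, p ∈ S 0 →
      ∀ (A : Type) [CommRing A] (j : A →+* k), Function.Injective j →
      (∀ c ∈ S₀, c ∈ Set.range j) →
      ∀ (GA : Unit → MvPolynomial (Fin (ν + 1)) A)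
      (gA : MvPolynomial (Fin (ν + 1)) A), (∀ i, MvPolynomial.map j (GA i) = R) →
      MvPolynomial.map j gA = aeval F (W p) → InRad GA gA := by
    intro p
    by_cases hp : p ∈ S 0
    · obtain ⟨s, hs⟩ := (h.start p hp).descend
      exact ⟨s, fun _ => hs⟩
    · exact ⟨∅, fun h => absurd h hp⟩
  choose s5 h5 using e5
  refine ⟨(Finset.univ.biUnion s1 ∪ Finset.univ.biUnion s2) ∪ (Finset.univ.biUnion s3 ∪
    (Finset.univ.biUnion s4 ∪ Finset.univ.biUnion s5)), ?_⟩
  intro A _ j hj hS FA RA WA hF hR hW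
  have hS' : ∀ {ι : Type} [Fintype ι] (s : ι → Finset k) (i : ι),
      Finset.univ.biUnion s ⊆ (Finset.univ.biUnion s1 ∪ Finset.univ.biUnion s2) ∪
        (Finset.univ.biUnion s3 ∪ (Finset.univ.biUnion s4 ∪ Finset.univ.biUnion s5)) →
      ∀ c ∈ s i, c ∈ Set.range j := fun s i hs c hc =>
    hS c (hs (Finset.mem_biUnion.2 ⟨i, Finset.mem_univ _, hc⟩))
  have hcomp : ∀ l, MvPolynomial.map j (aeval FA (WA l)) = aeval F (W l) := by
    intro l
    rw [comp_map, hW, funext hF]
  have hjR : MvPolynomial.map j (jR FA * RA) = jR F * R := by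
    rw [map_mul, ← jR_map, hR, funext hF]
  refine ⟨fun i => ?_, fun i hi l hl => ?_, fun i hi l hl => ?_, fun i => ?_, fun l hl => ?_⟩
  · exact h1 i A j hj (hS' s1 i (by
      intro v hv
      simp only [Finset.mem_union]; tauto)) FA (X i) hF (map_X _ _)
  · exact h2 (⟨i, hi⟩, l) hl A j hj (hS' s2 _ (by
      intro v hv
      simp only [Finset.mem_union]; tauto)) _ _ (fun i => hW i) (hcomp l)
  · refine h3 (⟨i, hi⟩, l) hl A j hj (hS' s3 _ (by
      intro v hv
      simp only [Finset.mem_union]; tauto)) _ _ ?_ (hcomp l)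
    rintro (_ | i)
    · exact hjR
    · exact hW i
  · exact h4 i A j hj (hS' s4 i (by
      intro v hv
      simp only [Finset.mem_union]; tauto)) _ _ (fun i => hW i) (map_X _ _)
  · exact h5 l hl A j hj (hS' s5 l (by
      intro v hv
      simp only [Finset.mem_union]; tauto)) _ _ (fun _ => hR) (hcomp l)

/-- Orbits which meet `R = 0` are good. -/
theorem goodAt_of_cert {E : Type} [Field E] {F : Fin (ν + 1) → MvPolynomial (Fin (ν + 1)) E}
    {R : MvPolynomial (Fin (ν + 1)) E} {n : ℕ} {W : Fin n → MvPolynomial (Fin (ν + 1)) E}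
    {S : ℕ → Finset (Fin n)} {t : ℕ} (h : CertR F R W S t) {y : Fin (ν + 1) → E} (hy : y ≠ 0)
    {m : ℕ} (hm : eval ((pmap F)^[m] y) R = 0) : GoodAt F y := by
  have hne : ∀ l, (pmap F)^[l] y ≠ 0 := by
    intro l
    induction l with
    | zero => exact hy
    | succ l ih =>
      rw [Function.iterate_succ_apply']
      intro h0
      apply ih
      funext i
      have h1 := (h.nz i).eval (y := (pmap F)^[l] y) fun j => congrFun h0 j
      rwa [eval_X] at h1
  -- the closed sets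
  have hfwd : ∀ i < t, ∀ l l', l ≤ l' → (∀ j ∈ S i, eval ((pmap F)^[l] y) (W j) = 0) →
      ∀ j ∈ S i, eval ((pmap F)^[l'] y) (W j) = 0 := by
    intro i hi l l' hll h0
    induction l', hll using Nat.le_induction with
    | base => exact h0
    | succ l' _ ih =>
      intro j hj
      rw [Function.iterate_succ_apply', ← eval_comp]
      exact (h.inv i hi j hj).eval fun l => ih l l.2
  have hdown : ∀ i < t, ∀ l, (∀ j ∈ S i, eval ((pmap F)^[l] y) (W j) = 0) →
      eval ((pmap F)^[l] y) (jR F * R) = 0 →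
      ∀ j ∈ S (i + 1), eval ((pmap F)^[l + 1] y) (W j) = 0 := by
    intro i hi l h0 h1 j hj
    rw [Function.iterate_succ_apply', ← eval_comp]
    refine (h.down i hi j hj).eval ?_
    rintro (_ | l)
    · exact h1
    · exact h0 l l.2
  have hempty : ∀ l, ¬ ∀ j ∈ S t, eval ((pmap F)^[l] y) (W j) = 0 := by
    intro l h0
    apply hne l
    funext i
    have h1 := (h.empty i).eval (y := (pmap F)^[l] y) fun j => h0 j j.2
    rwa [eval_X] at h1
  have hstart : ∀ j ∈ S 0, eval ((pmap F)^[m + 1] y) (W j) = 0 := by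
    intro j hj
    rw [Function.iterate_succ_apply', ← eval_comp]
    exact (h.start j hj).eval fun _ => hm
  intro l
  refine ⟨hne l, fun hper hdet => ?_⟩
  obtain ⟨r, hr, hper⟩ := hper
  have hper' : ∀ s, (pmap F)^[l + r * s] y = (pmap F)^[l] y := by
    intro s
    induction s with
    | zero => rfl
    | succ s ih =>
      rw [show l + r * (s + 1) = r + (l + r * s) by ring, Function.iterate_add_apply, ih]
      exact hper
  have hdet' : eval ((pmap F)^[l] y) (jR F * R) = 0 := by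
    rw [map_mul, eval_jR, hdet, zero_mul]
  -- the points of the cycle lie on all the closed sets
  have key : ∀ i ≤ t, ∀ j ∈ S i, eval ((pmap F)^[l] y) (W j) = 0 := by
    intro i
    induction i with
    | zero =>
      intro _ j hj
      rcases Nat.eq_zero_or_pos t with rfl | ht
      · exact absurd hstart (hempty _)
      · rw [← hper' (m + 1)]
        refine hfwd 0 ht (m + 1) _ ?_ hstart j hj
        have : m + 1 ≤ r * (m + 1) := Nat.le_mul_of_pos_left _ hr
        omega
    | succ i ih =>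
      intro hi j hj
      have h1 := hdown i (by omega) l (ih (by omega)) hdet'
      rcases Nat.lt_or_ge (i + 1) t with h2 | h2
      · rw [← hper' 1]
        exact hfwd (i + 1) h2 (l + 1) _ (by omega) h1 j hj
      · have h3 : i + 1 = t := le_antisymm hi h2
        rw [h3] at h1
        exact absurd h1 (hempty _)
  exact hempty l (key t le_rfl)

end Pool.Agent.Helper30.THC

end

section

namespace Pool.Agent.Helper16
end Pool.Agent.Helper16
namespace Pool.Agent.Helper36
end Pool.Agent.Helper36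
namespace Pool.Agent.Helper38.TQ
end Pool.Agent.Helper38.TQ
namespace Pool.Agent.Helper30.TKN
end Pool.Agent.Helper30.TKN
namespace Pool.Agent.Helper29.TG
end Pool.Agent.Helper29.TG
namespace Pool.Agent.Helper72.TH
end Pool.Agent.Helper72.TH

/-!
# Function fields: the absolute values of the places satisfy the product formula
-/

set_option autoImplicit false

namespace Pool.Agent.Helper30.THC

open MvPolynomial Height Height.AdmissibleAbsValues

open Pool.Agent.Helper16 (Place IsFunctionField)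

open Pool.Agent.Helper36 (step iter)

open Pool.Agent.Helper38.TQ

open Pool.Agent.Helper30.TKN

open Pool.Agent.Helper29.TG

open Pool.Agent.Helper72.TH (Sm)

open scoped Classical in
/-- The real number belonging to a value. -/
noncomputable def FFAbs_ex (a : WithZero (Multiplicative ℤ)) : ℝ :=
  if a = 0 then 0 else Real.exp ((WithZero.log a : ℤ) : ℝ)

theorem FFAbs_ex_zero : FFAbs_ex 0 = 0 := by
  rw [FFAbs_ex, if_pos rfl]

theorem FFAbs_ex_ne {a : WithZero (Multiplicative ℤ)} (ha : a ≠ 0) :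
    FFAbs_ex a = Real.exp ((WithZero.log a : ℤ) : ℝ) := by
  rw [FFAbs_ex, if_neg ha]

theorem FFAbs_ex_pos {a : WithZero (Multiplicative ℤ)} (ha : a ≠ 0) : 0 < FFAbs_ex a := by
  rw [FFAbs_ex_ne ha]
  exact Real.exp_pos _

theorem FFAbs_ex_nonneg (a : WithZero (Multiplicative ℤ)) : 0 ≤ FFAbs_ex a := by
  by_cases ha : a = 0
  · rw [ha, FFAbs_ex_zero]
  · exact (FFAbs_ex_pos ha).le

theorem FFAbs_ex_one : FFAbs_ex 1 = 1 := by
  rw [FFAbs_ex_ne one_ne_zero, WithZero.log_one, Int.cast_zero, Real.exp_zero]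

theorem FFAbs_ex_mul (a c : WithZero (Multiplicative ℤ)) :
    FFAbs_ex (a * c) = FFAbs_ex a * FFAbs_ex c := by
  by_cases ha : a = 0
  · rw [ha, zero_mul, FFAbs_ex_zero, zero_mul]
  by_cases hc : c = 0
  · rw [hc, mul_zero, FFAbs_ex_zero, mul_zero]
  rw [FFAbs_ex_ne ha, FFAbs_ex_ne hc, FFAbs_ex_ne (mul_ne_zero ha hc), WithZero.log_mul ha hc,
    Int.cast_add, Real.exp_add]

theorem FFAbs_ex_pow (a : WithZero (Multiplicative ℤ)) (n : ℕ) :
    FFAbs_ex (a ^ n) = FFAbs_ex a ^ n := by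
  induction n with
  | zero => rw [pow_zero, pow_zero, FFAbs_ex_one]
  | succ n ih => rw [pow_succ, pow_succ, FFAbs_ex_mul, ih]

theorem FFAbs_ex_le {a c : WithZero (Multiplicative ℤ)} : FFAbs_ex a ≤ FFAbs_ex c ↔ a ≤ c := by
  by_cases ha : a = 0
  · rw [ha, FFAbs_ex_zero]
    exact iff_of_true (FFAbs_ex_nonneg c) zero_le
  by_cases hc : c = 0
  · rw [hc, FFAbs_ex_zero]
    refine iff_of_false (not_le.2 (FFAbs_ex_pos ha)) ?_
    rw [le_zero_iff]
    exact ha
  rw [FFAbs_ex_ne ha, FFAbs_ex_ne hc, Real.exp_le_exp, Int.cast_le, WithZero.log_le_log ha hc]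

theorem FFAbs_ex_lt {a c : WithZero (Multiplicative ℤ)} : FFAbs_ex a < FFAbs_ex c ↔ a < c := by
  rw [← not_le, ← not_le, FFAbs_ex_le]

theorem FFAbs_ex_inj {a c : WithZero (Multiplicative ℤ)} (h : FFAbs_ex a = FFAbs_ex c) : a = c :=
  le_antisymm (FFAbs_ex_le.1 h.le) (FFAbs_ex_le.1 h.ge)

theorem FFAbs_ex_max (a c : WithZero (Multiplicative ℤ)) :
    FFAbs_ex (max a c) = max (FFAbs_ex a) (FFAbs_ex c) := by
  rcases le_total a c with h | h
  · rw [max_eq_right h, max_eq_right (FFAbs_ex_le.2 h)]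
  · rw [max_eq_left h, max_eq_left (FFAbs_ex_le.2 h)]

/-- The product of exponentials. -/
theorem FFAbs_finprod_exp {ι : Type*} (f : ι → ℤ) (hf : (Function.support f).Finite) :
    ∏ᶠ b, Real.exp ((f b : ℤ) : ℝ) = Real.exp ((∑ᶠ b, f b : ℤ) : ℝ) := by
  have h1 : Function.mulSupport (fun b => Real.exp ((f b : ℤ) : ℝ)) ⊆
      (hf.toFinset : Set ι) := by
    intro b hb
    rw [Function.mem_mulSupport] at hb
    rw [Set.Finite.coe_toFinset, Function.mem_support]
    intro h0
    apply hb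
    rw [h0, Int.cast_zero, Real.exp_zero]
  have h2 : Function.support f ⊆ (hf.toFinset : Set ι) := by
    rw [Set.Finite.coe_toFinset]
  rw [finprod_eq_prod_of_mulSupport_subset _ h1, finsum_eq_sum_of_support_subset _ h2,
    Int.cast_sum, Real.exp_sum]

variable {ν : ℕ} {k K : Type} [Field k] [Field K] [Algebra k K]

theorem FFAbs_val (b : Place k K) (x : K) [Decidable (x = 0)] :
    (if x = 0 then 0 else Real.exp ((WithZero.log (b.val x) : ℤ) : ℝ)) = FFAbs_ex (b.val x) := by
  by_cases hx : x = 0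
  · rw [if_pos hx, hx, map_zero, FFAbs_ex_zero]
  · rw [if_neg hx, FFAbs_ex_ne]
    simpa using hx

open scoped Classical in
/-- The real absolute value of a place. -/
noncomputable def absOf (b : Place k K) : AbsoluteValue K ℝ where
  toFun x := if x = 0 then 0 else Real.exp ((WithZero.log (b.val x) : ℤ) : ℝ)
  map_mul' := by
    intro x y
    rw [FFAbs_val, FFAbs_val, FFAbs_val, map_mul, FFAbs_ex_mul]
  nonneg' := by
    intro x
    change 0 ≤ (if x = 0 then 0 else Real.exp ((WithZero.log (b.val x) : ℤ) : ℝ))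
    rw [FFAbs_val]
    exact FFAbs_ex_nonneg _
  eq_zero' := by
    intro x
    change (if x = 0 then 0 else Real.exp ((WithZero.log (b.val x) : ℤ) : ℝ)) = 0 ↔ x = 0
    by_cases hx : x = 0
    · rw [if_pos hx]
      exact iff_of_true rfl hx
    · rw [if_neg hx]
      exact iff_of_false (Real.exp_pos _).ne' hx
  add_le' := by
    intro x y
    change (if x + y = 0 then 0 else Real.exp ((WithZero.log (b.val (x + y)) : ℤ) : ℝ)) ≤
      (if x = 0 then 0 else Real.exp ((WithZero.log (b.val x) : ℤ) : ℝ)) +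
      (if y = 0 then 0 else Real.exp ((WithZero.log (b.val y) : ℤ) : ℝ))
    rw [FFAbs_val, FFAbs_val, FFAbs_val]
    have h1 := FFAbs_ex_le.2 (b.val.map_add x y)
    rw [FFAbs_ex_max] at h1
    exact h1.trans (max_le_add_of_nonneg (FFAbs_ex_nonneg _) (FFAbs_ex_nonneg _))

theorem FFAbs_eq (b : Place k K) (x : K) : absOf b x = FFAbs_ex (b.val x) := by
  classical
  have h1 : absOf b x =
      (if x = 0 then 0 else Real.exp ((WithZero.log (b.val x) : ℤ) : ℝ)) := by
    unfold absOf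
    rfl
  rw [h1, FFAbs_val]

theorem absOf_injective : Function.Injective (absOf (k := k) (K := K)) := by
  intro b c h
  have h1 : b.val = c.val := by
    ext x
    have h2 : absOf b x = absOf c x := by rw [h]
    rw [FFAbs_eq, FFAbs_eq] at h2
    exact FFAbs_ex_inj h2
  cases b
  cases c
  simp only at h1
  subst h1
  rfl

theorem FFAbs_na (b : Place k K) : IsNonarchimedean (absOf b) := by
  intro x y
  rw [FFAbs_eq, FFAbs_eq, FFAbs_eq, ← FFAbs_ex_max]
  exact FFAbs_ex_le.2 (b.val.map_add x y)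

theorem FFAbs_nm (b : Place k K) (x : Fin (ν + 1) → K) :
    nm (absOf b) x = FFAbs_ex (nrm b x) := by
  refine le_antisymm (nm_le (FFAbs_ex_nonneg _) fun i => ?_) ?_
  · rw [FFAbs_eq]
    exact FFAbs_ex_le.2 (val_le_nrm b x i)
  · obtain ⟨i, hi⟩ := exists_val_eq_nrm b x
    rw [← hi, ← FFAbs_eq]
    exact le_nm (absOf b) x i

theorem FFAbs_range (g : AbsoluteValue K ℝ → ℝ) :
    ∏ᶠ v : Set.range (absOf (k := k) (K := K)), g v.val = ∏ᶠ b : Place k K, g (absOf b) :=
  (finprod_comp_equiv (Equiv.ofInjective _ (absOf_injective (k := k) (K := K)))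
    (f := fun v : Set.range (absOf (k := k) (K := K)) => g v.val)).symm

/-- The absolute values of the places of a function field. -/
@[reducible] noncomputable def ffAbs [IsAlgClosed k] (hK : IsFunctionField k K) :
    AdmissibleAbsValues K where
  archAbsVal := 0
  nonarchAbsVal := Set.range (absOf (k := k) (K := K))
  isNonarchimedean := by
    rintro _ ⟨b, rfl⟩
    exact FFAbs_na b
  hasFiniteMulSupport := by
    intro x hx
    have h1 := (finsum_log hK x hx).1
    have h2 : (Function.mulSupport fun v : Set.range (absOf (k := k) (K := K)) => v.val x) ⊆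
        (fun b : Place k K => (⟨absOf b, ⟨b, rfl⟩⟩ : Set.range (absOf (k := k) (K := K)))) ''
          (Function.support fun b : Place k K => WithZero.log (b.val x)) := by
      rintro ⟨_, ⟨b, rfl⟩⟩ hb
      refine ⟨b, ?_, rfl⟩
      rw [Function.mem_mulSupport] at hb
      rw [Function.mem_support]
      intro h0
      apply hb
      change absOf b x = 1
      rw [FFAbs_eq, FFAbs_ex_ne (by simpa using hx), h0, Int.cast_zero, Real.exp_zero]
    exact (h1.image _).subset h2
  product_formula := by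
    intro x hx
    rw [Multiset.map_zero, Multiset.prod_zero, one_mul]
    have h1 := FFAbs_range (k := k) (K := K) fun v => v x
    rw [h1]
    have h2 : ∀ b : Place k K, absOf b x = Real.exp ((WithZero.log (b.val x) : ℤ) : ℝ) := by
      intro b
      rw [FFAbs_eq, FFAbs_ex_ne (by simpa using hx)]
    rw [finprod_congr h2, FFAbs_finprod_exp _ (finsum_log hK x hx).1, (finsum_log hK x hx).2,
      Int.cast_zero, Real.exp_zero]

theorem sm_absOf_iff (b : Place k K) (g : MvPolynomial (Fin (ν + 1)) K) (e : ℕ)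
    {x : Fin (ν + 1) → K} (hx : x ≠ 0) :
    Sm (absOf b) g e x ↔ b.val (eval x g) < nrm b x ^ e := by
  unfold Pool.Agent.Helper72.TH.Sm
  rw [FFAbs_nm, FFAbs_eq, ← FFAbs_ex_pow, FFAbs_ex_lt]

theorem exists_absOf_notMem [IsAlgClosed k] (hK : IsFunctionField k K)
    {B : Set (AbsoluteValue K ℝ)} (hB : B.Finite) : ∃ b : Place k K, absOf b ∉ B := by
  have := Pool.Agent.Helper30.RED.infinite_places hK
  by_contra hcon
  push Not at hcon
  have h1 : (Set.univ : Set (Place k K)).Finite :=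
    (hB.preimage (absOf_injective (k := k) (K := K)).injOn).subset fun b _ => hcon b
  exact Set.infinite_univ h1

/-- The two heights. -/
theorem logHeight_ffAbs [IsAlgClosed k] (hK : IsFunctionField k K) {x : Fin (ν + 1) → K}
    (hx : x ≠ 0) : @logHeight K _ (ffAbs hK) _ x = (ht k x : ℝ) := by
  let _ : AdmissibleAbsValues K := ffAbs hK
  have h0 : mulHeight x = ∏ᶠ b : Place k K, Real.exp ((WithZero.log (nrm b x) : ℤ) : ℝ) := by
    rw [mulHeight_eq hx]
    change ((0 : Multiset (AbsoluteValue K ℝ)).map fun v => ⨆ i, v (x i)).prod *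
      ∏ᶠ v : Set.range (absOf (k := k) (K := K)), (⨆ i, v.val (x i)) = _
    rw [Multiset.map_zero, Multiset.prod_zero, one_mul,
      FFAbs_range (k := k) (K := K) fun v => ⨆ i, v (x i)]
    refine finprod_congr fun b => ?_
    have h1 := FFAbs_nm b x
    rw [FFAbs_ex_ne (nrm_ne_zero hx)] at h1
    exact h1
  rw [logHeight_eq_log_mulHeight, h0, FFAbs_finprod_exp _ (nrm_support hK x hx), Real.log_exp]
  rfl

/-- Unbounded heights tend to infinity. -/
theorem tendsto_ffAbs [IsAlgClosed k] [Algebra K ℂ] (hK : IsFunctionField k K) {d : ℕ}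
    {F : Fin (ν + 1) → MvPolynomial (Fin (ν + 1)) K}
    (hF : IsEndo d fun i => map (algebraMap K ℂ) (F i)) {x : Fin (ν + 1) → K} (hx : x ≠ 0)
    (hunb : ∀ B : ℤ, ∃ n, B < ht k (iter F x n)) :
    Filter.Tendsto (fun n => @logHeight K _ (ffAbs hK) _ (iter F x n)) Filter.atTop
      Filter.atTop := by
  obtain ⟨n₁, hn₁⟩ := ht_growth hK hF hx hunb 1
  have h1 : ∀ n, @logHeight K _ (ffAbs hK) _ (iter F x n) = ((ht k (iter F x n) : ℤ) : ℝ) :=
    fun n => logHeight_ffAbs hK (iter_ne_zeroK hF hx n)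
  have h2 : Filter.Tendsto (fun n : ℕ => (n : ℝ)) Filter.atTop Filter.atTop :=
    tendsto_natCast_atTop_atTop
  refine Filter.tendsto_atTop_mono' _ ?_ h2
  filter_upwards [Filter.eventually_ge_atTop n₁] with n hn
  rw [h1]
  have h3 := hn₁ n hn
  have h4 : (n : ℤ) ≤ ht k (iter F x n) := by linarith
  exact_mod_cast h4

end Pool.Agent.Helper30.THC

end

section

namespace Pool.Agent.Helper16
end Pool.Agent.Helper16
namespace Pool.Agent.Helper36
end Pool.Agent.Helper36
namespace Pool.Agent.Helper38.TQ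
end Pool.Agent.Helper38.TQ
namespace Pool.Agent.Helper30.TKN
end Pool.Agent.Helper30.TKN
namespace Pool.Agent.Helper30.RED
end Pool.Agent.Helper30.RED
namespace Pool.Agent.Helper72.TH
end Pool.Agent.Helper72.TH
namespace Pool.Agent.Helper38.Dml
end Pool.Agent.Helper38.Dml

set_option autoImplicit false

namespace Pool.Agent.Helper30.THC

open MvPolynomial

open Pool.Agent.Helper16 (Place IsFunctionField)

open Pool.Agent.Helper36 (step iter iter_zero iter_succ iter_succ' iter_add iter_map APSet)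

open Pool.Agent.Helper38.TQ

open Pool.Agent.Helper30.TKN

open Pool.Agent.Helper30.RED

open Pool.Agent.Helper72.TH (Chain)

open Pool.Agent.Helper38.Dml (pmap pjac GoodAt)

variable {ν : ℕ}

/-- If the specialised orbit meets the hypersurface, then the orbit has the property. -/
theorem dml_of_hit_place {k K : Type} [Field k] [IsAlgClosed k] [Field K] [Algebra k K]
    [Algebra k ℂ] [Algebra K ℂ] [IsScalarTower k K ℂ] (hK : IsFunctionField k K) {d : ℕ}
    {F : Fin (ν + 1) → MvPolynomial (Fin (ν + 1)) K} (hF : ∀ i, (F i).IsHomogeneous d)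
    {x : Fin (ν + 1) → K} (hx : x ≠ 0) {b : Place k K}
    {f : Fin (ν + 1) → MvPolynomial (Fin (ν + 1)) k} (hf : GoodRed d b F f)
    {z : Fin (ν + 1) → k} (hz : Red b x z) {n : ℕ} {δ : Fin n → ℕ} {S : ℕ → Finset (Fin n)}
    {t : ℕ} {ρ : MvPolynomial (Fin (ν + 1)) k} {w : Fin n → MvPolynomial (Fin (ν + 1)) k}
    (hc : Chain ℂ f (jf f * ρ) w δ S t)
    (hs : ∀ x : Fin (ν + 1) → ℂ, aeval x ρ = 0 →
      ∀ j ∈ S 0, aeval (fun l => aeval x (f l)) (w j) = 0)
    {m : ℕ} (hm : eval (iter f z m) ρ = 0) (c : ℂ) (hc0 : c ≠ 0) :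
    Pool.Agent.Helper38.Sym.DMLgen (fun i => map (algebraMap K ℂ) (F i))
      (fun i => c * algebraMap K ℂ (x i)) := by
  classical
  have hnz : ∀ y : Fin (ν + 1) → ℂ, (∀ i, aeval y (f i) = 0) → y = 0 := by
    intro y hy
    refine (hf.endo.map (k' := ℂ)).nz y fun i => ?_
    rw [← aeval_eq_eval_map]
    exact hy i
  obtain ⟨S₀, hS₀⟩ := (certR_of_chain hnz hc hs).descend
  obtain ⟨i₀, hi₀⟩ : ∃ i, z i ≠ 0 := Function.ne_iff.1 hz.1
  refine etale_gen hK hF x hx b f hf z hz
    ((S₀ ∪ ρ.coeffs) ∪ ((Finset.univ.biUnion fun j => (w j).coeffs) ∪ {(z i₀)⁻¹})) ?_ c hc0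
  intro p _ A _ _ j ψ FA zA hj hS hFA hzA
  have hρ : ∃ RA, map j RA = ρ := NonCrit_liftMv j ρ fun c hc => hS c (by
    simp only [Finset.mem_union]; tauto)
  obtain ⟨RA, hRA⟩ := hρ
  have hw : ∀ l, ∃ WA, map j WA = w l := fun l => NonCrit_liftMv j (w l) fun c hc => hS c (by
    have h1 : c ∈ Finset.univ.biUnion fun j => (w j).coeffs :=
      Finset.mem_biUnion.2 ⟨l, Finset.mem_univ _, hc⟩
    simp only [Finset.mem_union]; tauto)
  choose WA hWA using hw
  have hcert := hS₀ A j hj (fun c hc => hS c (by simp only [Finset.mem_union]; tauto))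
    FA RA WA hFA hRA hWA
  have hcertψ := hcert.map ψ
  refine goodAt_of_cert hcertψ (m := m) ?_ ?_
  · intro h0
    obtain ⟨u, hu⟩ := hS (z i₀)⁻¹ (by simp)
    have h1 : zA i₀ * u = 1 := by
      apply hj
      rw [map_mul, hzA, hu, map_one, mul_inv_cancel₀ hi₀]
    have h2 := congrArg ψ h1
    have h3 : ψ (zA i₀) = 0 := congrFun h0 i₀
    rw [map_mul, h3, zero_mul, map_one] at h2
    exact zero_ne_one h2
  · rw [← map_pmap_iterate ψ FA zA m, ← Pool.Agent.Helper38.Sym.map_eval_gen]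
    have h1 : eval ((pmap FA)^[m] zA) RA = 0 := by
      apply hj
      rw [Pool.Agent.Helper38.Sym.map_eval_gen, map_pmap_iterate j FA zA m, hRA, funext hFA,
        funext hzA, ← iter_eq_pmap, hm, map_zero]
    rw [h1, map_zero]

open Pool.Agent.Helper72.TH in
/-- **Function fields, unbounded heights.** -/
theorem cl1_unb {k : Type} [Field k] [IsAlgClosed k] [Algebra k ℂ] (K : IntermediateField k ℂ)
    (hK : IsFunctionField k K) {d r n : ℕ} (hr : 1 ≤ r) {δ : Fin n → ℕ}
    {S : ℕ → Finset (Fin n)} {t : ℕ} {F : Fin (ν + 1) → MvPolynomial (Fin (ν + 1)) K}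
    {W : Fin (n + 1) → MvPolynomial (Fin (ν + 1)) K} {x : Fin (ν + 1) → K}
    (hF : IsEndo d fun i => map (algebraMap K ℂ) (F i))
    (hC : Cl1 r n δ S t (fun i => map (algebraMap K ℂ) (F i))
      (fun j => map (algebraMap K ℂ) (W j))) (hx : x ≠ 0)
    (hunb : ∀ B : ℤ, ∃ n, B < ht k (iter F x n)) (c : ℂ) (hc0 : c ≠ 0) :
    Pool.Agent.Helper38.Sym.DMLgen (fun i => map (algebraMap K ℂ) (F i))
      (fun i => c * algebraMap K ℂ (x i)) := by
  classical
  letI : Height.AdmissibleAbsValues K := ffAbs hK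
  have hhom : ∀ i, (F i).IsHomogeneous d := fun i => homog_of_endo hF i
  have hnz : ∀ y : Fin (ν + 1) → ℂ, (∀ i, aeval y (F i) = 0) → y = 0 :=
    growth_aeval_zero hF
  have hne : ∀ n, iter F x n ≠ 0 := fun n => iter_ne_zeroK hF hx n
  have hchain : Chain ℂ F (jf F * W (Fin.last n)) (fun j => W j.castSucc) δ S t := by
    refine chain_map.1 ?_
    rw [map_mul, ← map_jf']
    exact hC.chain
  have hstart : ∀ z : Fin (ν + 1) → ℂ, aeval z (W (Fin.last n)) = 0 →
      ∀ j ∈ S 0, aeval (fun l => aeval z (F l)) (W j.castSucc) = 0 := by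
    intro z hz j hj
    have h1 := hC.start z (by rw [aevalC, ← aeval_eq_eval_map]; exact hz) j hj
    simp only [aevalC, ← aeval_eq_eval_map] at h1
    exact h1
  have hRh : (W (Fin.last n)).IsHomogeneous r := hom_of_map (algebraMap K ℂ) hC.hom
  -- the bad places
  obtain ⟨A₁, hA₁, h₁⟩ := chain_spec hK hchain
  obtain ⟨A₂, hA₂, h₂⟩ := all_places (k := k) (K := K) (ι := {j // j ∈ S 0})
    (P := fun j b => ∀ (h : Unit → MvPolynomial (Fin (ν + 1)) k)
      (γ : MvPolynomial (Fin (ν + 1)) k), (∀ u : Unit, RedP b (W (Fin.last n)) (h u)) →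
      RedP b (aeval F (W j.1.castSucc)) γ →
      ∀ z : Fin (ν + 1) → ℂ, (∀ u, aeval z (h u) = 0) → aeval z γ = 0) (by
    rintro ⟨j, hj⟩
    obtain ⟨A, hA, h⟩ := incl_spec hK (κ := Unit) (fun _ => W (Fin.last n))
      (aeval F (W j.castSucc)) (fun z hz => by
        rw [aeval_comp]
        exact hstart z (hz ()) j hj)
    exact ⟨A, hA, h⟩)
  have hA₃ : (⋃ j, {b : Place k K | ¬ ∀ m, b.val ((W j).coeff m) ≤ 1}).Finite :=
    Set.finite_iUnion fun j => Good2_fin hK (W j)
  have hA₄ := good_finite hK hF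
  set A₀ : Set (Place k K) := (A₁ ∪ A₂) ∪
    ((⋃ j, {b : Place k K | ¬ ∀ m, b.val ((W j).coeff m) ≤ 1}) ∪ {b | ¬ Good d b F}) with hA₀
  have hA₀f : A₀.Finite := (hA₁.union hA₂).union (hA₃.union hA₄)
  have hB : (absOf (k := k) (K := K) '' A₀).Finite := hA₀f.image _
  -- the hitting theorem
  obtain ⟨m, v, hv, hvB, hsm⟩ := exists_hit (L := ℂ) (K := K)
    (by have := hF.two_le; omega) hhom hnz hr hRh (k := t)
    (fun T hT y hy => chain_count hnz hchain hstart T hT y fun j hj => by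
      have h1 := hy j hj
      have h2 : ∀ j, iter (fun i => map (algebraMap K ℂ) (F i)) y j = iter F y j := by
        intro j
        induction j with
        | zero => rfl
        | succ j ih =>
          rw [iter_succ, iter_succ, ih]
          funext i
          exact aeval_map_algebraMap ℂ _ _
      rwa [h2] at h1)
    hB (by
      obtain ⟨b, hb⟩ := exists_absOf_notMem hK hB
      exact ⟨absOf b, ⟨b, rfl⟩, hb⟩) hne (tendsto_ffAbs hK hF hx hunb)
  obtain ⟨b, rfl⟩ : ∃ b, absOf b = v := hv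
  have hb : b ∉ A₀ := fun h => hvB ⟨b, h, rfl⟩
  simp only [hA₀, Set.mem_union, not_or] at hb
  obtain ⟨⟨hb1, hb2⟩, hb3, hb4⟩ := hb
  have hgood : Good d b F := by
    by_contra h
    exact hb4 h
  obtain ⟨f, hf⟩ := hgood
  have hint : ∀ j, ∀ m, b.val ((W j).coeff m) ≤ 1 := by
    intro j
    by_contra hcon
    exact hb3 (Set.mem_iUnion.2 ⟨j, hcon⟩)
  choose w hw using fun j => redP_exists' hK b (hint j)
  obtain ⟨z, hz⟩ := exists_red hK b x hx
  have hcf : Chain ℂ f (jf f * w (Fin.last n)) (fun j => w j.castSucc) δ S t :=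
    h₁ b hb1 f _ _ hf.red ((redP_jf hf.red).mul (hw _)) fun j => hw _
  have hsf : ∀ x : Fin (ν + 1) → ℂ, aeval x (w (Fin.last n)) = 0 →
      ∀ j ∈ S 0, aeval (fun l => aeval x (f l)) (w j.castSucc) = 0 := by
    intro y hy j hj
    have h3 := h₂ b hb2 ⟨j, hj⟩ (fun _ => w (Fin.last n)) _ (fun _ => hw _)
      (redP_aeval (hw _) hf.red) y fun _ => hy
    rwa [aeval_comp] at h3
  have hm : eval (iter f z m) (w (Fin.last n)) = 0 := by
    rw [red_eval_iff hRh (hw _) (hf.iter hhom hz m), ← sm_absOf_iff b _ _ (hne m)]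
    exact hsm
  exact dml_of_hit_place hK hhom hx hf hz hcf hsf hm c hc0

end Pool.Agent.Helper30.THC

end

section

namespace Pool.Agent.Helper16
end Pool.Agent.Helper16
namespace Pool.Agent.Helper36
end Pool.Agent.Helper36
namespace Pool.Agent.Helper38.TQ
end Pool.Agent.Helper38.TQ
namespace Pool.Agent.Helper30.TKN
end Pool.Agent.Helper30.TKN
namespace Pool.Agent.Helper30.RED
end Pool.Agent.Helper30.RED
namespace Pool.Agent.Helper33.GC
end Pool.Agent.Helper33.GC
namespace Pool.Agent.Helper72.TH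
end Pool.Agent.Helper72.TH

/-!
# Tame invariant hypersurfaces over the complex numbers: all closed sets, all dimensions
-/

set_option autoImplicit false

namespace Pool.Agent.Helper30.THC

open MvPolynomial

open Pool.Agent.Helper16 (Place IsFunctionField)

open Pool.Agent.Helper36 (step iter iter_zero iter_succ iter_succ' iter_add iter_map APSet APSet_univ)

open Pool.Agent.Helper38.TQ

open Pool.Agent.Helper30.TKN

open Pool.Agent.Helper30.RED

open Pool.Agent.Helper33.GC (APSet_inter)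

open Pool.Agent.Helper72.TH (Chain)

variable {ν : ℕ}

/-- Induction on the transcendence degree for a class of maps and all the closed sets. -/
theorem allN_induct_cl {d N : ℕ}
    (Cl : (Fin (ν + 1) → MvPolynomial (Fin (ν + 1)) ℂ) →
      (Fin N → MvPolynomial (Fin (ν + 1)) ℂ) → Prop)
    (hspec : ∀ (k : Type) [Field k] [IsAlgClosed k] [Algebra k ℂ] (K : IntermediateField k ℂ),
      IsFunctionField k K → ∀ (F : Fin (ν + 1) → MvPolynomial (Fin (ν + 1)) K)
      (W : Fin N → MvPolynomial (Fin (ν + 1)) K),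
      (IsEndo d fun i => map (algebraMap K ℂ) (F i)) →
      Cl (fun i => map (algebraMap K ℂ) (F i)) (fun j => map (algebraMap K ℂ) (W j)) →
      ∃ A : Set (Place k K), A.Finite ∧ ∀ b ∉ A,
        ∀ (f : Fin (ν + 1) → MvPolynomial (Fin (ν + 1)) k)
        (w : Fin N → MvPolynomial (Fin (ν + 1)) k), GoodRed d b F f →
          (∀ j, RedP b (W j) (w j)) →
          Cl (fun i => map (algebraMap k ℂ) (f i)) (fun j => map (algebraMap k ℂ) (w j)))
    (R : Set ℕ → Prop) (hRu : R Set.univ) (hRi : ∀ S T, R S → R T → R (S ∩ T))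
    (hunb : ∀ (k : Type) [Field k] [IsAlgClosed k] [Algebra k ℂ] (K : IntermediateField k ℂ),
      IsFunctionField k K → ∀ (F : Fin (ν + 1) → MvPolynomial (Fin (ν + 1)) K)
      (W : Fin N → MvPolynomial (Fin (ν + 1)) K) (x : Fin (ν + 1) → K),
      (IsEndo d fun i => map (algebraMap K ℂ) (F i)) →
      Cl (fun i => map (algebraMap K ℂ) (F i)) (fun j => map (algebraMap K ℂ) (W j)) →
      x ≠ 0 → (∀ B : ℤ, ∃ n, B < ht k (iter F x n)) →
      ∀ T : Set (MvPolynomial (Fin (ν + 1)) ℂ), (∀ g ∈ T, ∃ e, g.IsHomogeneous e) →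
      R {n | ∀ g ∈ T, eval (iter (fun i => map (algebraMap K ℂ) (F i))
        (fun i => algebraMap K ℂ (x i)) n) g = 0})
    (halg : ∀ (f : Fin (ν + 1) → MvPolynomial (Fin (ν + 1)) ℂ)
      (w : Fin N → MvPolynomial (Fin (ν + 1)) ℂ) (a : Fin (ν + 1) → ℂ),
      (∀ i m, IsAlgebraic ℚ ((f i).coeff m)) → (∀ j m, IsAlgebraic ℚ ((w j).coeff m)) →
      (∀ i, IsAlgebraic ℚ (a i)) → IsEndo d f → Cl f w → a ≠ 0 →
      ∀ T : Set (MvPolynomial (Fin (ν + 1)) ℂ), (∀ g ∈ T, ∃ e, g.IsHomogeneous e) →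
      R {n | ∀ g ∈ T, eval (iter f a n) g = 0})
    {f : Fin (ν + 1) → MvPolynomial (Fin (ν + 1)) ℂ} (hf : IsEndo d f)
    {w₀ : Fin N → MvPolynomial (Fin (ν + 1)) ℂ} (hcl : Cl f w₀) {a : Fin (ν + 1) → ℂ}
    (ha : a ≠ 0) {S : Set (MvPolynomial (Fin (ν + 1)) ℂ)}
    (hS : ∀ g ∈ S, ∃ e, g.IsHomogeneous e) :
    R {n | ∀ g ∈ S, eval (iter f a n) g = 0} := by
  classical
  obtain ⟨S₀, hS₀, hS₀v⟩ := exists_finite_subfamily S
  set r : ℕ := S₀.card with hr
  let p : Fin r → MvPolynomial (Fin (ν + 1)) ℂ := fun j => (S₀.equivFin.symm j : _)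
  have hpS : ∀ j, p j ∈ S₀ := fun j => (S₀.equivFin.symm j).2
  have hpsurj : ∀ s ∈ S₀, ∃ j, p j = s := by
    intro s hs
    refine ⟨S₀.equivFin ⟨s, hs⟩, ?_⟩
    change ((S₀.equivFin.symm (S₀.equivFin ⟨s, hs⟩) : S₀) : MvPolynomial (Fin (ν + 1)) ℂ) = s
    rw [Equiv.symm_apply_apply]
  choose e' he' using fun j => hS (p j) (hS₀ (hpS j))
  let w' : Fin (r + N) → MvPolynomial (Fin (ν + 1)) ℂ := Fin.append p w₀
  have hw3 : ∀ j, w' (Fin.castAdd N j) = p j := fun j => Fin.append_left _ _ j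
  have hw4 : ∀ j, w' (Fin.natAdd r j) = w₀ j := fun j => Fin.append_right _ _ j
  have hset : {n | ∀ g ∈ S, eval (iter f a n) g = 0} =
      {n | ∀ j : Fin r, eval (iter f a n) (w' (Fin.castAdd N j)) = 0} := by
    ext n
    constructor
    · intro hn j
      rw [hw3]
      exact hn _ (hS₀ (hpS j))
    · intro hn
      refine hS₀v _ fun s hs => ?_
      obtain ⟨j, rfl⟩ := hpsurj s hs
      rw [← hw3]
      exact hn j
  rw [hset]
  refine inductN (d := d) (Fin.castAdd N) e' (fun f w _ => Cl f (fun j => w (Fin.natAdd r j)))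
    R hRu hRi ?_ ?_ ?_ f w' a hf ?_ ha ?_
  · intro k _ _ _ K hK F W x hF hC hx B hB
    obtain ⟨A', hA', h'⟩ := hspec k K hK F (fun j => W (Fin.natAdd r j)) hF hC
    exact ⟨A', hA', fun b hb f w z hf hw _ =>
      h' b hb f (fun j => w (Fin.natAdd r j)) hf fun j => hw _⟩
  · intro k _ _ _ K hK F W x hF hC hx hub hWh
    have h1 := hunb k K hK F (fun j => W (Fin.natAdd r j)) x hF hC hx hub
      (Set.range fun j => map (algebraMap K ℂ) (W (Fin.castAdd N j))) (by
        rintro g ⟨j, rfl⟩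
        exact ⟨_, (hWh j).map _⟩)
    have h2 : {n | ∀ j : Fin r, eval (iter F x n) (W (Fin.castAdd N j)) = 0} =
        {n | ∀ g ∈ Set.range fun j => map (algebraMap K ℂ) (W (Fin.castAdd N j)),
          eval (iter (fun i => map (algebraMap K ℂ) (F i)) (fun i => algebraMap K ℂ (x i)) n) g
            = 0} := by
      ext n
      simp only [Set.mem_ofPred_eq, Set.forall_mem_range, eval_iter_map]
    rw [h2]
    exact h1
  · intro f w a hfa hwa haa hf hC ha hwh
    have hSw : {n | ∀ j : Fin r, eval (iter f a n) (w (Fin.castAdd N j)) = 0} =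
        {n | ∀ g ∈ Set.range fun j : Fin r => w (Fin.castAdd N j),
          eval (iter f a n) g = 0} := by
      ext n
      simp
    rw [hSw]
    refine halg f (fun j => w (Fin.natAdd r j)) a hfa (fun j => hwa _) haa hf hC ha _ ?_
    rintro g ⟨j, rfl⟩
    exact ⟨_, hwh j⟩
  · simp only [hw4]
    exact hcl
  · intro j
    rw [hw3]
    exact he' j

/-- **Tame invariant hypersurfaces**: every endomorphism of `P^N` over `ℂ` with the data of the
first part has the dynamical Mordell-Lang property, for all points and all closed sets. -/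
theorem part1_all {d r n : ℕ} (hr : 1 ≤ r) {δ : Fin n → ℕ} {S : ℕ → Finset (Fin n)} {t : ℕ}
    {f : Fin (ν + 1) → MvPolynomial (Fin (ν + 1)) ℂ}
    {w : Fin (n + 1) → MvPolynomial (Fin (ν + 1)) ℂ}
    {a : Fin (ν + 1) → ℂ} (hf : IsEndo d f) (hC : Cl1 r n δ S t f w) (ha : a ≠ 0)
    {T : Set (MvPolynomial (Fin (ν + 1)) ℂ)} (hT : ∀ g ∈ T, ∃ e, g.IsHomogeneous e) :
    ∃ A, {n | ∀ g ∈ T, eval (iter f a n) g = 0} = APSet A := by
  refine allN_induct_cl (d := d) (N := n + 1) (fun f w => Cl1 r n δ S t f w) ?_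
    (fun U => ∃ A, U = APSet A) APSet_univ ?_ ?_ ?_ hf hC ha hT
  · intro k _ _ _ K hK F W _ hC
    exact cl1_spec K hK hC
  · rintro _ _ ⟨A, rfl⟩ ⟨B, rfl⟩
    exact APSet_inter A B
  · intro k _ _ _ K hK F W x hF hC hx hub T hT
    obtain ⟨A, hA⟩ := cl1_unb K hK hr hF hC hx hub 1 one_ne_zero T hT
    refine ⟨A, ?_⟩
    have h1 : {n : ℕ | ∃ q ∈ A, ∃ k : ℕ, n = q.1 * k + q.2} = APSet A := rfl
    rw [← h1, ← hA]
    simp only [one_mul]
    rfl
  · intro f w a hfa hwa haa hf hC ha T hT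
    exact cl1_alg hr hfa hwa haa hf hC ha hT

end Pool.Agent.Helper30.THC

end

section

namespace Pool.Agent.Helper16
end Pool.Agent.Helper16
namespace Pool.Agent.Helper36
end Pool.Agent.Helper36
namespace Pool.Agent.Helper38.TQ
end Pool.Agent.Helper38.TQ
namespace Pool.Agent.Helper30.TKN
end Pool.Agent.Helper30.TKN
namespace Pool.Agent.Helper30.RED
end Pool.Agent.Helper30.RED
namespace Pool.Agent.Helper72.TH
end Pool.Agent.Helper72.TH

/-!
# Tame invariant hypersurfaces over the complex numbers: sets of forms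
-/

set_option autoImplicit false

namespace Pool.Agent.Helper30.THC

open MvPolynomial

open Pool.Agent.Helper16 (Place IsFunctionField)

open Pool.Agent.Helper36 (step iter iter_zero iter_succ iter_succ' iter_add iter_map APSet APSet_univ)

open Pool.Agent.Helper38.TQ

open Pool.Agent.Helper30.TKN

open Pool.Agent.Helper30.RED

open Pool.Agent.Helper72.TH (Chain)

variable {ν : ℕ}

/-- The chain of closed sets given by sets of forms. -/
structure ChainC (f : Fin (ν + 1) → MvPolynomial (Fin (ν + 1)) ℂ)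
    (q : MvPolynomial (Fin (ν + 1)) ℂ) (k : ℕ)
    (Z : ℕ → Set (MvPolynomial (Fin (ν + 1)) ℂ)) : Prop where
  form : ∀ i ≤ k, ∀ g ∈ Z i, ∃ e, g.IsHomogeneous e
  inv : ∀ i < k, ∀ x : Fin (ν + 1) → ℂ, (∀ g ∈ Z i, eval x g = 0) →
    ∀ g ∈ Z i, eval (fun l => eval x (f l)) g = 0
  down : ∀ i < k, ∀ x : Fin (ν + 1) → ℂ, (∀ g ∈ Z i, eval x g = 0) → eval x q = 0 →
    ∀ g ∈ Z (i + 1), eval (fun l => eval x (f l)) g = 0
  empty : ∀ x : Fin (ν + 1) → ℂ, (∀ g ∈ Z k, eval x g = 0) → x = 0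

/-- Finitely many of the forms define the closed sets of the chain. -/
theorem exists_chain {f : Fin (ν + 1) → MvPolynomial (Fin (ν + 1)) ℂ}
    {q : MvPolynomial (Fin (ν + 1)) ℂ} {k : ℕ} {Z : ℕ → Set (MvPolynomial (Fin (ν + 1)) ℂ)}
    (hZ : ChainC f q k Z) :
    ∃ (n : ℕ) (W : Fin n → MvPolynomial (Fin (ν + 1)) ℂ) (δ : Fin n → ℕ)
      (S : ℕ → Finset (Fin n)), Chain ℂ f q W δ S k ∧ ∀ i ≤ k, ∀ j ∈ S i, W j ∈ Z i := by
  classical
  choose t htZ ht using fun i => exists_finite_subfamily (Z i)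
  set U : Finset (MvPolynomial (Fin (ν + 1)) ℂ) := (Finset.range (k + 1)).biUnion t with hU
  have hUh : ∀ g : U, ∃ e, (g : MvPolynomial (Fin (ν + 1)) ℂ).IsHomogeneous e := by
    rintro ⟨g, hg⟩
    obtain ⟨i, hi, hgi⟩ := Finset.mem_biUnion.1 hg
    exact hZ.form i (by
      have := Finset.mem_range.1 hi
      omega) g (htZ i hgi)
  set e := U.equivFin with he
  let W : Fin U.card → MvPolynomial (Fin (ν + 1)) ℂ := fun j => (e.symm j : U)
  choose δ hδ using fun j : Fin U.card => hUh (e.symm j)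
  set S : ℕ → Finset (Fin U.card) := fun i => Finset.univ.filter fun j => W j ∈ t i with hS
  have hmemS : ∀ i j, j ∈ S i ↔ W j ∈ t i := by
    intro i j
    rw [hS, Finset.mem_filter]
    exact ⟨fun h => h.2, fun h => ⟨Finset.mem_univ _, h⟩⟩
  have hZS : ∀ i ≤ k, ∀ y : Fin (ν + 1) → ℂ, (∀ j ∈ S i, aeval y (W j) = 0) →
      ∀ g ∈ Z i, eval y g = 0 := by
    intro i hi y hy
    refine ht i y fun g hg => ?_
    have hgU : g ∈ U := Finset.mem_biUnion.2 ⟨i, Finset.mem_range.2 (by omega), hg⟩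
    have h1 := hy (e ⟨g, hgU⟩) (by
      rw [hmemS]
      change ((e.symm (e ⟨g, hgU⟩) : U) : MvPolynomial (Fin (ν + 1)) ℂ) ∈ t i
      rw [Equiv.symm_apply_apply]
      exact hg)
    rw [aevalC] at h1
    change eval y ((e.symm (e ⟨g, hgU⟩) : U) : MvPolynomial (Fin (ν + 1)) ℂ) = 0 at h1
    rw [Equiv.symm_apply_apply] at h1
    exact h1
  have hSZ : ∀ i, ∀ j ∈ S i, W j ∈ Z i := fun i j hj => htZ i ((hmemS i j).1 hj)
  refine ⟨U.card, W, δ, S, ⟨hδ, ?_, ?_, ?_⟩, fun i _ => hSZ i⟩
  · intro i hi x hx j hj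
    simp only [aevalC]
    exact hZ.inv i hi x (hZS i hi.le x hx) _ (hSZ i j hj)
  · intro i hi x hx hq j hj
    rw [aevalC] at hq
    simp only [aevalC]
    exact hZ.down i hi x (hZS i hi.le x hx) hq _ (hSZ (i + 1) j hj)
  · intro x hx
    exact hZ.empty x (hZS k le_rfl x hx)

/-- **Tame invariant hypersurfaces over the complex numbers.** -/
theorem partOne {d k : ℕ} {f : Fin (ν + 1) → MvPolynomial (Fin (ν + 1)) ℂ} (hf : IsEndo d f)
    {R : MvPolynomial (Fin (ν + 1)) ℂ} {r : ℕ} (hr : 1 ≤ r) (hR : R.IsHomogeneous r)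
    {Z : ℕ → Set (MvPolynomial (Fin (ν + 1)) ℂ)} (hZ : ChainC f (jf f * R) k Z)
    (hRZ : ∀ x : Fin (ν + 1) → ℂ, eval x R = 0 → ∀ g ∈ Z 0, eval (fun l => eval x (f l)) g = 0)
    {a : Fin (ν + 1) → ℂ} (ha : a ≠ 0) {V : Set (MvPolynomial (Fin (ν + 1)) ℂ)}
    (hV : ∀ g ∈ V, ∃ e, g.IsHomogeneous e) :
    ∃ T : Finset (ℕ × ℕ), {n : ℕ | ∀ g ∈ V, eval ((fun (x : Fin (ν + 1) → ℂ)
        (i : Fin (ν + 1)) => eval x (f i))^[n] a) g = 0} =
      {n : ℕ | ∃ q ∈ T, ∃ m : ℕ, n = q.1 * m + q.2} := by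
  classical
  obtain ⟨n, W, δ, S, hch, hSZ⟩ := exists_chain hZ
  have hC : Cl1 r n δ S k f (Fin.snoc W R) := by
    refine ⟨?_, ?_, ?_⟩
    · rw [Fin.snoc_last]
      exact hR
    · simp only [Fin.snoc_last, Fin.snoc_castSucc]
      exact hch
    · intro x hx j hj
      rw [Fin.snoc_last, aevalC] at hx
      simp only [Fin.snoc_castSucc, aevalC]
      exact hRZ x hx _ (hSZ 0 (Nat.zero_le k) j hj)
  obtain ⟨A, hA⟩ := part1_all hr hf hC ha hV
  exact ⟨A, hA⟩

end Pool.Agent.Helper30.THC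

end
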