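import Pool.Agent.Helper72.TM2.T35
import Pool.Agent.Helper72.TM2.T44
import Pool.Agent.Helper72.TM2.T52
import Pool.Agent.Helper72.TM2.T34
import Pool.Agent.Helper72.TM2.T54

section

namespace Pool.Agent.Helper16
end Pool.Agent.Helper16
namespace Pool.Agent.Helper36
end Pool.Agent.Helper36
namespace Pool.Agent.Helper38.TQ
end Pool.Agent.Helper38.TQ
namespace Pool.Agent.Helper30.TKN
end Pool.Agent.Helper30.TKN
namespace Pool.Agent.Helper30.RED
end Pool.Agent.Helper30.RED
namespace Pool.Agent.Helper30.THC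
end Pool.Agent.Helper30.THC
namespace Pool.Agent.Helper33.GC
end Pool.Agent.Helper33.GC
namespace Pool.Agent.Helper72.TH
end Pool.Agent.Helper72.TH

/-!
# Project THD: the induction over the transcendence degree
-/

set_option autoImplicit false

namespace Pool.Agent.Helper30.THD

open MvPolynomial

open Pool.Agent.Helper16 (Place IsFunctionField)

open Pool.Agent.Helper36 (step iter iter_zero iter_succ iter_succ' iter_add iter_map APSet APSet_univ)

open Pool.Agent.Helper38.TQ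

open Pool.Agent.Helper30.TKN

open Pool.Agent.Helper30.RED

open Pool.Agent.Helper30.THC

open Pool.Agent.Helper33.GC (APSet_inter)

open Pool.Agent.Helper72.TH (Chain)

variable {ν : ℕ}

/-- The Dynamical Mordell-Lang property for the data. -/
theorem part3_data {d N r M n : ℕ} {V : Fin r → Fin N} {Λ : Fin 3 → Fin N} {G : Fin M → Fin N}
    {P : Fin N} {Z : Fin n → Fin N} {e : Fin r → ℕ} {u : Fin M → (Fin 3 →₀ ℕ)} {D s t : ℕ}
    {i₀ : Fin (ν + 1)} {δ : Fin n → ℕ} {S : ℕ → Finset (Fin n)}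
    {f : Fin (ν + 1) → MvPolynomial (Fin (ν + 1)) ℂ}
    {w : Fin N → MvPolynomial (Fin (ν + 1)) ℂ} {a : Fin (ν + 1) → ℂ}
    (hf : IsEndo d f) (hC : Cl3 V Λ G P Z e u D s t i₀ δ S f w) (ha : a ≠ 0) :
    ∃ A, {n | ∀ j, eval (iter f a n) (w (V j)) = 0} = APSet A := by
  refine inductN (d := d) V e (fun f w _ => Cl3 V Λ G P Z e u D s t i₀ δ S f w)
    (fun U => ∃ A, U = APSet A) APSet_univ ?_ ?_ ?_ ?_ f w a hf hC ha hC.homV
  · rintro _ _ ⟨A, rfl⟩ ⟨B, rfl⟩
    exact APSet_inter A B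
  · intro k _ _ _ K hK F W x hF hC hx B hB
    obtain ⟨A, hA, h⟩ := cl3_spec (d := d) K hK hC
    exact ⟨A, hA, fun b hb f w z hf hw _ => h b hb f w hf hw⟩
  · intro k _ _ _ K hK F W x hF hC hx hub hWh
    exact unbC ν d k K hK F x hF hx hub r (fun j => W (V j)) (fun j => ⟨_, hWh j⟩) (by
      refine curveSet_of_forms ?_ (hC.homL 0) (hC.homL 1) fun z hz h0 h1 =>
        hC.noz z (fun j => ?_) h0 h1
      · rintro g ⟨j, rfl⟩
        exact ⟨_, hC.homV j⟩
      · exact hz _ ⟨j, rfl⟩)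
  · intro f w a hfa hwa haa hf hC ha _
    exact cl3_alg hfa hwa haa hf hC ha

end Pool.Agent.Helper30.THD

end

section

namespace Pool.Agent.Helper36
end Pool.Agent.Helper36
namespace Pool.Agent.Helper38.TQ
end Pool.Agent.Helper38.TQ
namespace Pool.Agent.Helper30.TKN
end Pool.Agent.Helper30.TKN
namespace Pool.Agent.Helper30.THC
end Pool.Agent.Helper30.THC
namespace Pool.Agent.Helper72.TH
end Pool.Agent.Helper72.TH

/-!
# Project THD: the theorem for an irreducible relation and a separated point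
-/

set_option autoImplicit false

namespace Pool.Agent.Helper30.THD

open MvPolynomial Filter

open Pool.Agent.Helper36 (step iter iter_zero iter_succ iter_succ' iter_add iter_map APSet APSet_univ)

open Pool.Agent.Helper38.TQ

open Pool.Agent.Helper30.TKN

open Pool.Agent.Helper30.THC

open Pool.Agent.Helper72.TH (Chain)

variable {ν : ℕ}

theorem core {d : ℕ} {f : Fin (ν + 1) → MvPolynomial (Fin (ν + 1)) ℂ} (hf : IsEndo d f)
    {a : Fin (ν + 1) → ℂ} (ha : a ≠ 0) {r : ℕ} {v : Fin r → MvPolynomial (Fin (ν + 1)) ℂ}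
    (hv : ∀ j, ∃ e : ℕ, (v j).IsHomogeneous e) {l : Fin 3 → MvPolynomial (Fin (ν + 1)) ℂ}
    (hl : ∀ i, (l i).IsHomogeneous 1)
    (noz : ∀ z : Fin (ν + 1) → ℂ, (∀ j, eval z (v j) = 0) → eval z (l 0) = 0 →
      eval z (l 1) = 0 → z = 0)
    {p : Fin (ν + 1) → ℂ} {i₀ : Fin (ν + 1)} (hp1 : p i₀ = 1) (hp : ∀ j, eval p (v j) = 0)
    {D : ℕ} {g : MvPolynomial (Fin 3) ℂ} (hg : NoFac D g)
    (rel : ∀ z : Fin (ν + 1) → ℂ, (∀ j, eval z (v j) = 0) → eval (fun i => eval z (l i)) g = 0)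
    (sep : ∀ z : Fin (ν + 1) → ℂ, (∀ j, eval z (v j) = 0) →
      (∀ i i', eval z (l i) * eval p (l i') = eval z (l i') * eval p (l i)) →
      ∀ a b, z a * p b = z b * p a)
    {k : ℕ} {Z : ℕ → Set (MvPolynomial (Fin (ν + 1)) ℂ)} (hZ : ChainC f (jf f) k Z) {s : ℕ}
    (hs : ∀ g ∈ Z 0, eval (iter f p s) g = 0) :
    ∃ A, {n | ∀ j, eval (iter f a n) (v j) = 0} = APSet A := by
  classical
  obtain ⟨n, W, δ, S, hch, hSZ⟩ := exists_chain hZ
  obtain ⟨M, u, q, hgg⟩ := exists_gg (ν := ν) g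
  choose e he using hv
  set ε := Fintype.equivFin (Fin r ⊕ (Fin 3 ⊕ (Fin M ⊕ (Unit ⊕ Fin n)))) with hε
  set N := Fintype.card (Fin r ⊕ (Fin 3 ⊕ (Fin M ⊕ (Unit ⊕ Fin n)))) with hN
  let w : Fin N → MvPolynomial (Fin (ν + 1)) ℂ := fun x =>
    Sum.elim v (Sum.elim l (Sum.elim q (Sum.elim (fun _ => lin p) W))) (ε.symm x)
  let V : Fin r → Fin N := fun j => ε (Sum.inl j)
  let Λ : Fin 3 → Fin N := fun j => ε (Sum.inr (Sum.inl j))
  let G : Fin M → Fin N := fun j => ε (Sum.inr (Sum.inr (Sum.inl j)))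
  let P : Fin N := ε (Sum.inr (Sum.inr (Sum.inr (Sum.inl ()))))
  let Y : Fin n → Fin N := fun j => ε (Sum.inr (Sum.inr (Sum.inr (Sum.inr j))))
  have hwV : ∀ j, w (V j) = v j := by
    intro j
    change Sum.elim v _ (ε.symm (ε (Sum.inl j))) = v j
    rw [Equiv.symm_apply_apply]
    rfl
  have hwL : ∀ j, w (Λ j) = l j := by
    intro j
    change Sum.elim v _ (ε.symm (ε (Sum.inr (Sum.inl j)))) = l j
    rw [Equiv.symm_apply_apply]
    rfl
  have hwG : ∀ j, w (G j) = q j := by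
    intro j
    change Sum.elim v _ (ε.symm (ε (Sum.inr (Sum.inr (Sum.inl j))))) = q j
    rw [Equiv.symm_apply_apply]
    rfl
  have hwP : pt (w P) = p := by
    change pt (Sum.elim v _ (ε.symm (ε (Sum.inr (Sum.inr (Sum.inr (Sum.inl ()))))))) = p
    rw [Equiv.symm_apply_apply]
    exact pt_lin p
  have hwY : ∀ j, w (Y j) = W j := by
    intro j
    change Sum.elim v _ (ε.symm (ε (Sum.inr (Sum.inr (Sum.inr (Sum.inr j)))))) = W j
    rw [Equiv.symm_apply_apply]
    rfl
  have hC : Cl3 V Λ G P Y e u D s k i₀ δ S f w := by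
    refine ⟨?_, ?_, ?_, ?_, ?_, ?_, ?_, ?_, ?_, ?_⟩
    · intro j
      rw [hwV]
      exact he j
    · intro j
      rw [hwL]
      exact hl j
    · intro z hz h0 h1
      rw [hwL] at h0 h1
      exact noz z (fun j => by
        rw [← hwV]
        exact hz j) h0 h1
    · intro j
      rw [hwV, hwP]
      exact hp j
    · rw [hwP]
      exact hp1
    · intro z hz
      simp only [hwL, hwG]
      rw [hgg]
      exact rel z fun j => by
        rw [← hwV]
        exact hz j
    · intro z hz h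
      simp only [hwL, hwP] at h ⊢
      exact sep z (fun j => by
        rw [← hwV]
        exact hz j) h
    · simp only [hwG]
      rw [hgg]
      exact hg
    · simp only [hwY]
      exact hch
    · intro j hj
      rw [hwY, hwP]
      exact hs _ (hSZ 0 (Nat.zero_le k) j hj)
  obtain ⟨A, hA⟩ := part3_data hf hC ha
  refine ⟨A, ?_⟩
  rw [← hA]
  simp only [hwV]

end Pool.Agent.Helper30.THD

end
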