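import Pool.Agent.Helper72.TM2.T41
import Pool.Agent.Helper72.TM2.T40
import Pool.Agent.Helper72.TM2.T37
import Pool.Agent.Helper72.TM2.T39

section

namespace Pool.Agent.Helper29.TG
end Pool.Agent.Helper29.TG

/-!
# Project NZ: a linear form which is large at finitely many points

The linear form is `∑ ζ ^ a X_a`, where `ζ` is a root of unity of order `n > ν t`. The product of
the values at the points `u i` is the value at `ζ` of the product `P` of the polynomials
`∑ u i a T ^ a`.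
-/

set_option autoImplicit false

namespace Pool.Agent.Helper45.NZ

open Pool.Agent.Helper29.TG (nm)

variable {A : Type} [Field A] [IsAlgClosed A] [CharZero A] {W : AbsoluteValue A ℝ}

theorem exists_choice (hW : Pl W) {ν t : ℕ} (u : Fin t → Fin (ν + 1) → A) (hu : ∀ i, u i ≠ 0) :
    ∃ c : Fin (ν + 1) → A, (∀ a, W (c a) ≤ 1) ∧ (∏ i, ∑ a, c a * u i a) ≠ 0 ∧
      ∑ i, Real.log (nm W (u i)) ≤
        Real.log (W (∏ i, ∑ a, c a * u i a)) + kap W * (t * (ν * Real.log 4)) := by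
  obtain ⟨j, hj⟩ := prod_le_coeff hW u
  obtain ⟨ζ, hζ, h1⟩ := exists_zeta hW
    (∏ i, ∑ a : Fin (ν + 1), Polynomial.C (u i a) * Polynomial.X ^ (a : ℕ))
  have h2 : (∏ i, ∑ a : Fin (ν + 1), Polynomial.C (u i a) * Polynomial.X ^ (a : ℕ)).eval ζ =
      ∏ i, ∑ a : Fin (ν + 1), ζ ^ (a : ℕ) * u i a := by
    rw [Polynomial.eval_prod]
    refine Finset.prod_congr rfl fun i _ => ?_
    rw [Polynomial.eval_finsetSum]
    refine Finset.sum_congr rfl fun a _ => ?_
    rw [Polynomial.eval_mul, Polynomial.eval_C, Polynomial.eval_pow, Polynomial.eval_X, mul_comm]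
  have hpos : ∀ i, 0 < nm W (u i) := fun i => Pool.Agent.Helper29.TG.nm_pos W (hu i)
  have hprod : 0 < ∏ i, nm W (u i) := Finset.prod_pos fun i _ => hpos i
  have h3 : ∏ i, nm W (u i) ≤ Real.exp (kap W * (t * (ν * Real.log 4))) *
      W (∏ i, ∑ a : Fin (ν + 1), ζ ^ (a : ℕ) * u i a) := by
    rw [← h2]
    exact hj.trans (mul_le_mul_of_nonneg_left (h1 j) (Real.exp_pos _).le)
  have hW0 : 0 < W (∏ i, ∑ a : Fin (ν + 1), ζ ^ (a : ℕ) * u i a) := by
    by_contra hcon
    push Not at hcon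
    have h4 := hprod.trans_le (h3.trans
      (mul_le_mul_of_nonneg_left hcon (Real.exp_pos _).le))
    rw [mul_zero] at h4
    exact lt_irrefl _ h4
  refine ⟨fun a => ζ ^ (a : ℕ), fun a => ?_, ?_, ?_⟩
  · rw [map_pow, hζ, one_pow]
  · intro h0
    rw [h0, map_zero] at hW0
    exact lt_irrefl _ hW0
  · have h5 := Real.log_le_log hprod h3
    rw [Real.log_mul (Real.exp_pos _).ne' hW0.ne', Real.log_exp,
      Real.log_prod fun i _ => (hpos i).ne'] at h5
    linarith

end Pool.Agent.Helper45.NZ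

end

section

namespace Pool.Agent.Helper29.TG
end Pool.Agent.Helper29.TG
namespace Pool.Agent.Helper30.ZB
end Pool.Agent.Helper30.ZB

set_option autoImplicit false

namespace Pool.Agent.Helper45.NZ

open MvPolynomial

open Pool.Agent.Helper29.TG (nm nm_pos)

open Pool.Agent.Helper30.ZB

variable {A : Type} [Field A] {ν : ℕ}

/-- The family consists of forms of degree `m₂ + n e`. -/
theorem fam_hom {J : Ideal (MvPolynomial (Fin (ν + 1)) A)}
    {h : MvPolynomial (Fin (ν + 1)) A} {e : ℕ}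
    {c : Fin (ν + 1) → A} {m₂ q s : ℕ} {qa : Fin q → MvPolynomial (Fin (ν + 1)) A}
    {pc : Fin s → MvPolynomial (Fin (ν + 1)) A} (D : Data J h e c m₂ q s qa pc) (n : ℕ)
    (c' : Fin (ν + 1) → A) (κ : (Fin (n + 1) × Fin q) ⊕ Fin s) :
    (fam h e qa pc n c' κ).IsHomogeneous (m₂ + n * e) := by
  have hlf : (lf A c').IsHomogeneous 1 := by
    unfold lf
    refine IsHomogeneous.sum _ _ _ fun i _ => ?_
    have h1 := (isHomogeneous_C (Fin (ν + 1)) (algebraMap A A (c' i))).mul (isHomogeneous_X A i)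
    rwa [zero_add] at h1
  rcases κ with ⟨j, a⟩ | i
  · have h1 := ((D.h_hom.pow (j : ℕ)).mul (hlf.pow ((n - j) * e))).mul (D.qa_hom a)
    have h3 : ∀ j' n' : ℕ, j' ≤ n' → e * j' + 1 * ((n' - j') * e) + m₂ = m₂ + n' * e := by
      intro j' n' hj
      obtain ⟨r, rfl⟩ := Nat.exists_eq_add_of_le hj
      rw [Nat.add_sub_cancel_left]
      ring
    have h2 : e * (j : ℕ) + 1 * ((n - j) * e) + m₂ = m₂ + n * e :=
      h3 j n (Nat.lt_succ_iff.1 j.2)
    rw [h2] at h1
    exact h1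
  · have h1 := (D.h_hom.pow (n + 1)).mul (D.pc_hom i)
    have h2 : e * (n + 1) + (m₂ - e) = m₂ + n * e := by
      have h3 := D.e_le
      have h4 : e * (n + 1) = n * e + e := by ring
      omega
    rw [h2] at h1
    exact h1

/-- The number of the homomorphisms. -/
theorem card_eq [CharZero A] {J : Ideal (MvPolynomial (Fin (ν + 1)) A)}
    {h : MvPolynomial (Fin (ν + 1)) A} {e : ℕ} {c : Fin (ν + 1) → A} {m₂ q s : ℕ}
    {qa : Fin q → MvPolynomial (Fin (ν + 1)) A} {pc : Fin s → MvPolynomial (Fin (ν + 1)) A}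
    (D : Data J h e c m₂ q s qa pc) {t : ℕ}
    (χ : Fin t → (Qo (J ⊔ Ideal.span {h}) c →ₐ[A] A))
    (hN : ∀ a : Qo (J ⊔ Ideal.span {h}) c, Algebra.norm A a = ∏ i, χ i a) : t = q := by
  let B : Module.Basis (Fin q) A (Qo (J ⊔ Ideal.span {h}) c) :=
    Module.Basis.mk D.qa_ind D.qa_span
  have h1 : Module.finrank A (Qo (J ⊔ Ideal.span {h}) c) = q := by
    rw [Module.finrank_eq_card_basis B, Fintype.card_fin]
  have h2 := hN (algebraMap A (Qo (J ⊔ Ideal.span {h}) c) 2)
  rw [Algebra.norm_algebraMap, h1] at h2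
  have h3 : ∀ i, χ i (algebraMap A (Qo (J ⊔ Ideal.span {h}) c) 2) = 2 := by
    intro i
    exact (χ i).commutes 2
  rw [Finset.prod_congr rfl fun i _ => h3 i, Finset.prod_const, Finset.card_univ,
    Fintype.card_fin] at h2
  have h4 : ((2 ^ q : ℕ) : A) = ((2 ^ t : ℕ) : A) := by
    push_cast
    exact h2
  exact (Nat.pow_right_injective le_rfl (Nat.cast_injective h4)).symm

/-- **The inequality at one place.** -/
theorem loc [IsAlgClosed A] [CharZero A] {W : AbsoluteValue A ℝ} (hW : Pl W)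
    {J : Ideal (MvPolynomial (Fin (ν + 1)) A)} {h : MvPolynomial (Fin (ν + 1)) A} {e : ℕ}
    {c : Fin (ν + 1) → A} {m₂ q s : ℕ} {qa : Fin q → MvPolynomial (Fin (ν + 1)) A}
    {pc : Fin s → MvPolynomial (Fin (ν + 1)) A} (D : Data J h e c m₂ q s qa pc)
    (n : ℕ) {t : ℕ} (χ : Fin t → (Qo (J ⊔ Ideal.span {h}) c →ₐ[A] A))
    (P : (Fin (n + 1) × Fin q) ⊕ Fin s → Fin (ν + 1) → A)
    (hN : ∀ a : Qo (J ⊔ Ideal.span {h}) c, Algebra.norm A a = ∏ i, χ i a)
    (hP0 : ∀ κ, P κ ≠ 0) (hPJ : ∀ κ, ∀ g ∈ J, eval (P κ) g = 0)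
    (hdet : (Matrix.of fun κ κ' => eval (P κ) (fam h e qa pc n c κ')).det ≠ 0) :
    Real.log (W (Matrix.of fun κ κ' => eval (P κ) (fam h e qa pc n c κ')).det) +
        ((e * (n * (n + 1) / 2) : ℕ) : ℝ) *
          ∑ i, Real.log (nm W fun a => χ i (cls (J ⊔ Ideal.span {h}) c (X a))) ≤
      ((m₂ + n * e : ℕ) : ℝ) * ∑ κ, Real.log (nm W (P κ)) +
        (((q * (n * (n + 1) / 2) : ℕ) : ℝ) * lp W h +
          ((n + 1 : ℕ) : ℝ) * (s * lp W h + ∑ a, lp W (qa a) + ∑ i, lp W (pc i))) +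
        kap W * (((e * q * (n * (n + 1) / 2) : ℕ) : ℝ) * (Real.log (ν + 1) + ν * Real.log 4) +
          Real.log (Nat.factorial ((n + 1) * q + s))) := by
  classical
  have htq : t = q := card_eq D χ hN
  set u : Fin t → Fin (ν + 1) → A := fun i a => χ i (cls (J ⊔ Ideal.span {h}) c (X a)) with hu
  have hu0 : ∀ i, u i ≠ 0 := fun i => (Pts_of_hom A (χ i)).2.1
  obtain ⟨c', hc1, hc2, hc3⟩ := exists_choice hW u hu0
  obtain ⟨T, hT1, hT2⟩ := Det_change D n c'
  have hlf : ∀ i, χ i (cls (J ⊔ Ideal.span {h}) c (lf A c')) = ∑ a, c' a * u i a := by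
    intro i
    rw [← (Pts_of_hom A (χ i)).2.2 (lf A c')]
    unfold lf
    rw [map_sum]
    refine Finset.sum_congr rfl fun a _ => ?_
    rw [map_mul, aeval_C, aeval_X]
    rfl
  have hE : (Matrix.of fun κ κ' => eval (P κ) (fam h e qa pc n c' κ')) =
      (Matrix.of fun κ κ' => eval (P κ) (fam h e qa pc n c κ')) * T.transpose := by
    ext κ κ'
    rw [Matrix.mul_apply, Matrix.of_apply]
    have h1 := hPJ κ _ (hT1 κ')
    rw [map_sub, map_sum, sub_eq_zero] at h1
    rw [h1]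
    refine Finset.sum_congr rfl fun κ'' _ => ?_
    rw [map_mul, eval_C, Matrix.of_apply, Matrix.transpose_apply, mul_comm]
  have hdet' : (Matrix.of fun κ κ' => eval (P κ) (fam h e qa pc n c' κ')).det =
      (Matrix.of fun κ κ' => eval (P κ) (fam h e qa pc n c κ')).det *
        (∏ i, ∑ a, c' a * u i a) ^ (e * (n * (n + 1) / 2)) := by
    rw [hE, Matrix.det_mul, Matrix.det_transpose, hT2, hN]
    congr 2
    exact Finset.prod_congr rfl fun i _ => hlf i
  have hdne : (Matrix.of fun κ κ' => eval (P κ) (fam h e qa pc n c' κ')).det ≠ 0 := by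
    rw [hdet']
    exact mul_ne_zero hdet (pow_ne_zero _ hc2)
  have h1 := det_le hW P (fam h e qa pc n c') (fun κ => fam_hom D n c' κ)
  have h2 := fam_le W (h := h) (e := e) (qa := qa) (pc := pc) n hc1
  have hlhs : 0 < W (Matrix.of fun κ κ' => eval (P κ) (fam h e qa pc n c' κ')).det :=
    W.pos hdne
  have hfam : 0 < ∏ κ, sz W (fam h e qa pc n c' κ) := by
    by_contra hcon
    have h3 : 0 ≤ ∏ κ, sz W (fam h e qa pc n c' κ) :=
      Finset.prod_nonneg fun κ _ => sz_nonneg W _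
    have h4 : ∏ κ, sz W (fam h e qa pc n c' κ) = 0 := le_antisymm (not_lt.1 hcon) h3
    rw [h4, mul_zero, mul_zero] at h1
    exact absurd h1 (not_le.2 hlhs)
  have hnmP : ∀ κ, 0 < nm W (P κ) := fun κ => nm_pos W (hP0 κ)
  have hprodP : 0 < ∏ κ, nm W (P κ) ^ (m₂ + n * e) :=
    Finset.prod_pos fun κ _ => pow_pos (hnmP κ) _
  have h5 := Real.log_le_log hlhs h1
  rw [Real.log_mul (Real.exp_pos _).ne' (mul_pos hprodP hfam).ne', Real.log_exp,
    Real.log_mul hprodP.ne' hfam.ne', Real.log_prod fun κ _ => (pow_pos (hnmP κ) _).ne'] at h5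
  have h6 : ∑ κ, Real.log (nm W (P κ) ^ (m₂ + n * e)) =
      ((m₂ + n * e : ℕ) : ℝ) * ∑ κ, Real.log (nm W (P κ)) := by
    rw [Finset.mul_sum]
    exact Finset.sum_congr rfl fun κ _ => Real.log_pow _ _
  rw [h6] at h5
  have h7 : Real.log (W (Matrix.of fun κ κ' => eval (P κ) (fam h e qa pc n c' κ')).det) =
      Real.log (W (Matrix.of fun κ κ' => eval (P κ) (fam h e qa pc n c κ')).det) +
        ((e * (n * (n + 1) / 2) : ℕ) : ℝ) * Real.log (W (∏ i, ∑ a, c' a * u i a)) := by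
    rw [hdet', map_mul, map_pow, Real.log_mul (W.pos hdet).ne' (pow_pos (W.pos hc2) _).ne',
      Real.log_pow]
  rw [h7] at h5
  have h8 : Fintype.card ((Fin (n + 1) × Fin q) ⊕ Fin s) = (n + 1) * q + s := by
    simp
  rw [h8] at h5
  have h9 := mul_le_mul_of_nonneg_left hc3
    (Nat.cast_nonneg (α := ℝ) (e * (n * (n + 1) / 2)))
  have h10 : ((e * (n * (n + 1) / 2) : ℕ) : ℝ) * (kap W * ((t : ℝ) * (ν * Real.log 4))) =
      kap W * (((e * q * (n * (n + 1) / 2) : ℕ) : ℝ) * (ν * Real.log 4)) := by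
    have h11 : e * q * (n * (n + 1) / 2) = (e * (n * (n + 1) / 2)) * q := by ring
    rw [htq, h11, Nat.cast_mul (e * (n * (n + 1) / 2)) q]
    ring
  rw [mul_add ((e * (n * (n + 1) / 2) : ℕ) : ℝ), h10] at h9
  have h12 : ∀ i, (fun a => χ i (cls (J ⊔ Ideal.span {h}) c (X a))) = u i := fun i => rfl
  simp only [h12]
  linarith

end Pool.Agent.Helper45.NZ

end

section

namespace Pool.Agent.Helper29.TG
end Pool.Agent.Helper29.TG

/-!
# Project NZ: the height of a polynomial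
-/

set_option autoImplicit false

namespace Pool.Agent.Helper45.NZ

open MvPolynomial Height AdmissibleAbsValues

open Pool.Agent.Helper29.TG (nm ls FS Mem)

variable {A : Type} [Field A] [CharZero A] {M : Type} [Field M] [NumberField M] [Algebra M A]

theorem FS_kap : FS (fun v : AbsoluteValue M ℝ => kap v) :=
  Pool.Agent.Helper29.TG.FS.zero.congr fun _ hv => kap_nonarch hv

theorem ls_kap : ls (fun v : AbsoluteValue M ℝ => kap v) = Module.finrank ℚ M := by
  unfold ls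
  have h1 : (archAbsVal (K := M)).map (fun v : AbsoluteValue M ℝ => kap v) =
      (archAbsVal (K := M)).map fun _ => (1 : ℝ) :=
    Multiset.map_congr rfl fun v hv => kap_arch hv
  have h2 : (∑ᶠ v : nonarchAbsVal (K := M), kap v.val) = 0 := by
    rw [← finsum_zero (α := nonarchAbsVal (K := M))]
    exact finsum_congr fun v => kap_nonarch v.2
  rw [h1, h2, Multiset.map_const', Multiset.sum_replicate, nsmul_eq_mul, mul_one, add_zero,
    ← NumberField.totalWeight_eq_finrank]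
  rfl

private theorem CpB_ne (c : M) : (![c, 1] : Fin 2 → M) ≠ 0 := by
  intro h
  have h1 := congrFun h 1
  simp at h1

private theorem CpB_nm (v : AbsoluteValue M ℝ) (c : M) :
    v c ≤ nm v ![c, 1] ∧ 1 ≤ nm v ![c, 1] := by
  constructor
  · exact Pool.Agent.Helper29.TG.le_nm v ![c, 1] 0
  · have h1 := Pool.Agent.Helper29.TG.le_nm v ![c, 1] 1
    simpa using h1

private theorem CpB_lp {σ : Type} (G : MvPolynomial σ M) (v : AbsoluteValue M ℝ) :
    lp v G ≤ ∑ m ∈ G.support, Real.log (nm v ![G.coeff m, 1]) +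
      Real.log (G.support.card + 1) * kap v := by
  classical
  have hlog : ∀ m, 0 ≤ Real.log (nm v ![G.coeff m, 1]) := fun m =>
    Real.log_nonneg (CpB_nm v _).2
  have hS : 0 ≤ ∑ m ∈ G.support, Real.log (nm v ![G.coeff m, 1]) :=
    Finset.sum_nonneg fun m _ => hlog m
  have hcard : 0 ≤ Real.log (G.support.card + 1 : ℝ) := Real.log_nonneg (by
    have : (0 : ℝ) ≤ G.support.card := Nat.cast_nonneg _
    linarith)
  have hkap : 0 ≤ kap v := by
    unfold kap
    split_ifs <;> norm_num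
  have hP : ∀ m ∈ G.support, v (G.coeff m) ≤
      Real.exp (∑ m ∈ G.support, Real.log (nm v ![G.coeff m, 1])) := by
    intro m hm
    refine (CpB_nm v _).1.trans ?_
    have h1 : 0 < nm v ![G.coeff m, 1] := lt_of_lt_of_le one_pos (CpB_nm v _).2
    rw [← Real.exp_log h1]
    exact Real.exp_le_exp.2 (Finset.single_le_sum
      (f := fun m => Real.log (nm v ![G.coeff m, 1])) (fun m _ => hlog m) hm)
  unfold lp
  refine max_le (add_nonneg hS (mul_nonneg hcard hkap)) ?_
  by_cases hv : IsNonarchimedean v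
  · have h1 : kap v = 0 := by
      unfold kap
      rw [if_pos hv]
    have h2 : sz v G = ⨆ m : G.support, v (G.coeff m) := by
      unfold sz
      rw [if_pos hv]
    rw [h1, mul_zero, add_zero, h2]
    have h3 : (⨆ m : G.support, v (G.coeff m)) ≤
        Real.exp (∑ m ∈ G.support, Real.log (nm v ![G.coeff m, 1])) :=
      Real.iSup_le (fun m => hP m.1 m.2) (Real.exp_pos _).le
    rcases (Real.iSup_nonneg fun m : G.support => v.nonneg (G.coeff m)).eq_or_lt with h4 | h4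
    · rw [← h4, Real.log_zero]
      exact hS
    · have h5 := Real.log_le_log h4 h3
      rwa [Real.log_exp] at h5
  · have h1 : kap v = 1 := by
      unfold kap
      rw [if_neg hv]
    have h2 : sz v G = ∑ m ∈ G.support, v (G.coeff m) := by
      unfold sz
      rw [if_neg hv]
    rw [h1, mul_one, h2]
    have h3 : ∑ m ∈ G.support, v (G.coeff m) ≤ (G.support.card + 1 : ℝ) *
        Real.exp (∑ m ∈ G.support, Real.log (nm v ![G.coeff m, 1])) := by
      have h4 := Finset.sum_le_card_nsmul G.support (fun m => v (G.coeff m)) _ hP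
      rw [nsmul_eq_mul] at h4
      have h5 := Real.exp_pos (∑ m ∈ G.support, Real.log (nm v ![G.coeff m, 1]))
      have h6 : (G.support.card : ℝ) * Real.exp (∑ m ∈ G.support,
          Real.log (nm v ![G.coeff m, 1])) ≤ (G.support.card + 1 : ℝ) *
          Real.exp (∑ m ∈ G.support, Real.log (nm v ![G.coeff m, 1])) := by
        nlinarith
      exact h4.trans h6
    have hc1 : (0 : ℝ) < (G.support.card + 1 : ℝ) := by positivity
    rcases (Finset.sum_nonneg fun m (_ : m ∈ G.support) => v.nonneg (G.coeff m)).eq_or_lt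
      with h4 | h4
    · rw [← h4, Real.log_zero]
      exact add_nonneg hS hcard
    · have h5 := Real.log_le_log h4 h3
      rw [Real.log_mul hc1.ne' (Real.exp_pos _).ne', Real.log_exp] at h5
      linarith

private theorem CpB_nonneg {σ : Type} (G : MvPolynomial σ M) (v : AbsoluteValue M ℝ) :
    0 ≤ lp v G := le_max_left _ _

private theorem CpB_FS {σ : Type} (G : MvPolynomial σ M) :
    FS (fun v : AbsoluteValue M ℝ => ∑ m ∈ G.support, Real.log (nm v ![G.coeff m, 1])) :=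
  Pool.Agent.Helper29.TG.FS.sum _ fun m _ => Pool.Agent.Helper29.TG.FS_nm (CpB_ne _)

theorem FS_lp {σ : Type} (G : MvPolynomial σ M) : FS (fun v => lp v G) := by
  refine (CpB_FS G).mono fun v hv h0 => ?_
  have h1 := CpB_lp G v
  have h2 : (∑ m ∈ G.support, Real.log (nm v ![G.coeff m, 1])) = 0 := h0
  rw [h2, kap_nonarch hv, mul_zero, add_zero] at h1
  exact le_antisymm h1 (CpB_nonneg G v)

/-- The sum of the positive parts of the local sizes. -/
theorem ls_lp_le {σ : Type} (G : MvPolynomial σ M) :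
    ls (fun v => lp v G) ≤ Module.finrank ℚ M * Cp (map (algebraMap M A) G) := by
  classical
  have hk : FS (fun v : AbsoluteValue M ℝ => Real.log (G.support.card + 1) * kap v) :=
    FS_kap.mul_left _
  have h1 := Pool.Agent.Helper29.TG.ls_mono (FS_lp G) ((CpB_FS G).add hk)
    fun v _ => CpB_lp G v
  rw [Pool.Agent.Helper29.TG.ls_add (CpB_FS G) hk, Pool.Agent.Helper29.TG.ls_mul_left, ls_kap,
    Pool.Agent.Helper29.TG.ls_sum _ fun m _ => Pool.Agent.Helper29.TG.FS_nm (CpB_ne _)] at h1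
  refine h1.trans (le_of_eq ?_)
  have hn : (Module.finrank ℚ M : ℝ) ≠ 0 := by
    exact_mod_cast (Module.finrank_pos (R := ℚ) (M := M)).ne'
  have hs : (map (algebraMap M A) G).support = G.support :=
    support_map_of_injective _ (algebraMap M A).injective
  unfold Cp
  rw [hs, mul_add, Finset.mul_sum]
  congr 1
  · refine Finset.sum_congr rfl fun m _ => ?_
    rw [Pool.Agent.Helper29.TG.ls_nm (CpB_ne _)]
    have h2 : (![(map (algebraMap M A) G).coeff m, 1] : Fin 2 → A) =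
        fun i => algebraMap M A ((![G.coeff m, 1] : Fin 2 → M) i) := by
      funext i
      fin_cases i
      · simp [coeff_map]
      · simp
    rw [h2, aht_map, mul_div_cancel₀ _ hn]
  · ring

theorem Cp_nonneg [Algebra.IsAlgebraic ℚ A] {σ : Type} (G : MvPolynomial σ A) : 0 ≤ Cp G := by
  unfold Cp
  refine add_nonneg (Finset.sum_nonneg fun m _ => aht_nonneg _) (Real.log_nonneg ?_)
  have : (0 : ℝ) ≤ G.support.card := Nat.cast_nonneg _
  linarith

end Pool.Agent.Helper45.NZ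

end

section

namespace Pool.Agent.Helper29.TG
end Pool.Agent.Helper29.TG
namespace Pool.Agent.Helper30.ZB
end Pool.Agent.Helper30.ZB

/-!
# Project NZ: the sum over all places
-/

set_option autoImplicit false

namespace Pool.Agent.Helper45.NZ

open MvPolynomial Height AdmissibleAbsValues

open Pool.Agent.Helper29.TG

open Pool.Agent.Helper30.ZB

variable {A : Type} [Field A] [CharZero A] {ν : ℕ}

/-- A number field which contains a finite set of elements. -/
theorem exists_field_set [Algebra.IsAlgebraic ℚ A] {S : Set A} (hS : S.Finite) :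
    ∃ (M : Type) (_ : Field M) (_ : NumberField M) (_ : Algebra M A),
      ∀ a ∈ S, ∃ α : M, algebraMap M A α = a := by
  have := hS.to_subtype
  obtain ⟨M, _, _, _, α, hα⟩ := exists_field (fun a : S => (a : A))
  exact ⟨M, _, inferInstance, _, fun a ha => ⟨α ⟨a, ha⟩, hα ⟨a, ha⟩⟩⟩

theorem exists_map {M : Type} [Field M] [Algebra M A] {σ : Type} {G : MvPolynomial σ A}
    (h : ∀ m ∈ G.support, ∃ α : M, algebraMap M A α = G.coeff m) :
    ∃ G' : MvPolynomial σ M, map (algebraMap M A) G' = G := by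
  have h1 : G ∈ Set.range (map (σ := σ) (algebraMap M A)) := by
    rw [mem_range_map_iff_coeffs_subset]
    intro x hx
    obtain ⟨m, hm, rfl⟩ := mem_coeffs_iff.1 hx
    obtain ⟨α, hα⟩ := h m hm
    exact ⟨α, hα⟩
  exact h1

/-- **The inequality for the heights.** -/
theorem level [IsAlgClosed A] [Algebra.IsAlgebraic ℚ A]
    {J : Ideal (MvPolynomial (Fin (ν + 1)) A)} {h : MvPolynomial (Fin (ν + 1)) A} {e : ℕ}
    {c : Fin (ν + 1) → A} {m₂ q s : ℕ} {qa : Fin q → MvPolynomial (Fin (ν + 1)) A}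
    {pc : Fin s → MvPolynomial (Fin (ν + 1)) A} (D : Data J h e c m₂ q s qa pc)
    (n : ℕ) {t : ℕ} (χ : Fin t → (Qo (J ⊔ Ideal.span {h}) c →ₐ[A] A))
    (P : (Fin (n + 1) × Fin q) ⊕ Fin s → Fin (ν + 1) → A)
    (hN : ∀ a : Qo (J ⊔ Ideal.span {h}) c, Algebra.norm A a = ∏ i, χ i a)
    (hP0 : ∀ κ, P κ ≠ 0) (hPJ : ∀ κ, ∀ g ∈ J, eval (P κ) g = 0)
    (hdet : (Matrix.of fun κ κ' => eval (P κ) (fam h e qa pc n c κ')).det ≠ 0) :
    ((e * (n * (n + 1) / 2) : ℕ) : ℝ) *
          ∑ i, aht (fun a => χ i (cls (J ⊔ Ideal.span {h}) c (X a))) ≤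
      ((m₂ + n * e : ℕ) : ℝ) * ∑ κ, aht (P κ) +
        (((q * (n * (n + 1) / 2) : ℕ) : ℝ) * Cp h +
          ((n + 1 : ℕ) : ℝ) * (s * Cp h + ∑ a, Cp (qa a) + ∑ i, Cp (pc i))) +
        (((e * q * (n * (n + 1) / 2) : ℕ) : ℝ) * (Real.log (ν + 1) + ν * Real.log 4) +
          Real.log (Nat.factorial ((n + 1) * q + s))) := by
  classical
  set u : Fin t → Fin (ν + 1) → A := fun i a => χ i (cls (J ⊔ Ideal.span {h}) c (X a)) with hu
  have hu0 : ∀ i, u i ≠ 0 := fun i => (Pts_of_hom A (χ i)).2.1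
  set dt : A := (Matrix.of fun κ κ' => eval (P κ) (fam h e qa pc n c κ')).det with hdt
  -- the number field
  set S : Set A := (⋃ i, ⋃ a, {u i a}) ∪ (⋃ κ, ⋃ a, {P κ a}) ∪ {dt} ∪
    (⋃ m ∈ h.support, {h.coeff m}) ∪ (⋃ a, ⋃ m ∈ (qa a).support, {(qa a).coeff m}) ∪
    (⋃ i, ⋃ m ∈ (pc i).support, {(pc i).coeff m}) with hS
  have hfin : S.Finite := by
    refine Set.Finite.union (Set.Finite.union (Set.Finite.union (Set.Finite.union
      (Set.Finite.union ?_ ?_) ?_) ?_) ?_) ?_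
    · exact Set.finite_iUnion fun i => Set.finite_iUnion fun a => Set.finite_singleton _
    · exact Set.finite_iUnion fun i => Set.finite_iUnion fun a => Set.finite_singleton _
    · exact Set.finite_singleton _
    · exact h.support.finite_toSet.biUnion fun m _ => Set.finite_singleton _
    · exact Set.finite_iUnion fun a =>
        (qa a).support.finite_toSet.biUnion fun m _ => Set.finite_singleton _
    · exact Set.finite_iUnion fun a =>
        (pc a).support.finite_toSet.biUnion fun m _ => Set.finite_singleton _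
  obtain ⟨M, _, _, _, hM⟩ := exists_field_set hfin
  have hMu : ∀ i a, ∃ α : M, algebraMap M A α = u i a := fun i a => hM _ (by
    simp only [hS, Set.mem_union, Set.mem_iUnion, Set.mem_singleton_iff]
    exact Or.inl (Or.inl (Or.inl (Or.inl (Or.inl ⟨i, a, rfl⟩)))))
  have hMP : ∀ κ a, ∃ α : M, algebraMap M A α = P κ a := fun κ a => hM _ (by
    simp only [hS, Set.mem_union, Set.mem_iUnion, Set.mem_singleton_iff]
    exact Or.inl (Or.inl (Or.inl (Or.inl (Or.inr ⟨κ, a, rfl⟩)))))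
  obtain ⟨dt', hdt'⟩ : ∃ α : M, algebraMap M A α = dt := hM _ (by
    simp only [hS, Set.mem_union, Set.mem_iUnion, Set.mem_singleton_iff]
    simp only [true_or, or_true])
  obtain ⟨h', hh'⟩ : ∃ G' : MvPolynomial (Fin (ν + 1)) M, map (algebraMap M A) G' = h :=
    exists_map fun m hm => hM _ (by
      simp only [hS, Set.mem_union, Set.mem_iUnion, Set.mem_singleton_iff]
      exact Or.inl (Or.inl (Or.inr ⟨m, hm, rfl⟩)))
  have hqa' : ∀ a, ∃ G' : MvPolynomial (Fin (ν + 1)) M, map (algebraMap M A) G' = qa a := fun a =>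
    exists_map fun m hm => hM _ (by
      simp only [hS, Set.mem_union, Set.mem_iUnion, Set.mem_singleton_iff]
      exact Or.inl (Or.inr ⟨a, m, hm, rfl⟩))
  have hpc' : ∀ i, ∃ G' : MvPolynomial (Fin (ν + 1)) M, map (algebraMap M A) G' = pc i := fun i =>
    exists_map fun m hm => hM _ (by
      simp only [hS, Set.mem_union, Set.mem_iUnion, Set.mem_singleton_iff]
      exact Or.inr ⟨i, m, hm, rfl⟩)
  choose u' hu' using hMu
  choose P' hP' using hMP
  choose qa' hqa' using hqa'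
  choose pc' hpc' using hpc'
  have hu'e : ∀ i, u i = fun a => algebraMap M A (u' i a) := fun i => funext fun a => (hu' i a).symm
  have hP'e : ∀ κ, P κ = fun a => algebraMap M A (P' κ a) := fun κ => funext fun a => (hP' κ a).symm
  have hu'0 : ∀ i, u' i ≠ 0 := by
    intro i h0
    refine hu0 i ?_
    rw [hu'e, h0]
    funext a
    exact map_zero _
  have hP'0 : ∀ κ, P' κ ≠ 0 := by
    intro κ h0
    refine hP0 κ ?_
    rw [hP'e, h0]
    funext a
    exact map_zero _
  have hdt'0 : dt' ≠ 0 := by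
    intro h0
    refine hdet ?_
    rw [← hdt', h0, map_zero]
  have hd : (0 : ℝ) < Module.finrank ℚ M := by
    exact_mod_cast Module.finrank_pos
  -- the two sides
  set F : AbsoluteValue M ℝ → ℝ := fun v => Real.log (v dt') +
    ((e * (n * (n + 1) / 2) : ℕ) : ℝ) * ∑ i, Real.log (nm v (u' i)) with hF
  set G₁ : AbsoluteValue M ℝ → ℝ := fun v =>
    ((m₂ + n * e : ℕ) : ℝ) * ∑ κ, Real.log (nm v (P' κ)) with hG₁
  set G₂ : AbsoluteValue M ℝ → ℝ := fun v => s * lp v h' + ∑ a, lp v (qa' a) +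
    ∑ i, lp v (pc' i) with hG₂
  set G₃ : AbsoluteValue M ℝ → ℝ := fun v => ((q * (n * (n + 1) / 2) : ℕ) : ℝ) * lp v h' +
    ((n + 1 : ℕ) : ℝ) * G₂ v with hG₃
  set Λ : ℝ := ((e * q * (n * (n + 1) / 2) : ℕ) : ℝ) * (Real.log (ν + 1) + ν * Real.log 4) +
          Real.log (Nat.factorial ((n + 1) * q + s)) with hΛ
  have hptw : ∀ v, Mem v → F v ≤ G₁ v + G₃ v + Λ * kap v := by
    intro v hv
    obtain ⟨W, hW, hW1, hW2⟩ := exists_ext (A := A) hv
    have h1 := loc hW D n χ P hN hP0 hPJ hdet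
    have h2 : W dt = v dt' := by rw [← hdt', hW1]
    have h3 : ∀ i, nm W (fun a => χ i (cls (J ⊔ Ideal.span {h}) c (X a))) = nm v (u' i) := by
      intro i
      have h4 : (fun a => χ i (cls (J ⊔ Ideal.span {h}) c (X a))) =
        fun a => algebraMap M A (u' i a) := hu'e i
      rw [h4, nm_ext hW1]
    have h4 : ∀ κ, nm W (P κ) = nm v (P' κ) := fun κ => by rw [hP'e, nm_ext hW1]
    have h5 : lp W h = lp v h' := by
      rw [← lp_ext hW1 hW2, hh']
    have h6 : ∀ a, lp W (qa a) = lp v (qa' a) := fun a => by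
      rw [← lp_ext hW1 hW2, hqa']
    have h7 : ∀ i, lp W (pc i) = lp v (pc' i) := fun i => by
      rw [← lp_ext hW1 hW2, hpc']
    rw [← hdt, h2, h5, kap_ext hW2] at h1
    simp only [h3, h4, h6, h7] at h1
    simp only [hF, hG₁, hG₂, hG₃, hΛ]
    linarith
  have hFSu : ∀ i ∈ Finset.univ, FS (fun v : AbsoluteValue M ℝ => Real.log (nm v (u' i))) :=
    fun i _ => FS_nm (hu'0 i)
  have hFSP : ∀ κ ∈ Finset.univ, FS (fun v : AbsoluteValue M ℝ => Real.log (nm v (P' κ))) :=
    fun κ _ => FS_nm (hP'0 κ)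
  have hFSF : FS F := (FS_log hdt'0).add ((FS.sum Finset.univ hFSu).mul_left _)
  have hFS1 : FS G₁ := (FS.sum Finset.univ hFSP).mul_left _
  have hFSqa : ∀ a ∈ Finset.univ, FS (fun v : AbsoluteValue M ℝ => lp v (qa' a)) :=
    fun a _ => FS_lp _
  have hFSpc : ∀ a ∈ Finset.univ, FS (fun v : AbsoluteValue M ℝ => lp v (pc' a)) :=
    fun a _ => FS_lp _
  have hFS2 : FS G₂ := (((FS_lp h').mul_left _).add (FS.sum Finset.univ hFSqa)).add
    (FS.sum Finset.univ hFSpc)
  have hFS3 : FS G₃ := ((FS_lp h').mul_left _).add (hFS2.mul_left _)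
  have hFSk : FS (fun v : AbsoluteValue M ℝ => Λ * kap v) := FS_kap.mul_left _
  have hls := ls_mono hFSF ((hFS1.add hFS3).add hFSk) hptw
  have e1 : ls F = ((e * (n * (n + 1) / 2) : ℕ) : ℝ) *
      ∑ i, aht (u i) * (Module.finrank ℚ M : ℝ) := by
    rw [hF, ls_add (FS_log hdt'0) ((FS.sum Finset.univ hFSu).mul_left _), ls_log hdt'0, zero_add,
      ls_mul_left, ls_sum _ hFSu]
    congr 1
    refine Finset.sum_congr rfl fun i _ => ?_
    rw [ls_nm (hu'0 i), hu'e, aht_map, div_mul_cancel₀ _ hd.ne']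
  have e2 : ls G₁ = ((m₂ + n * e : ℕ) : ℝ) * ∑ κ, aht (P κ) * (Module.finrank ℚ M : ℝ) := by
    rw [hG₁, ls_mul_left, ls_sum _ hFSP]
    congr 1
    refine Finset.sum_congr rfl fun i _ => ?_
    rw [ls_nm (hP'0 i), hP'e, aht_map, div_mul_cancel₀ _ hd.ne']
  have hCh : ls (fun v => lp v h') ≤ Module.finrank ℚ M * Cp h := by
    have h1 := ls_lp_le (A := A) h'
    rwa [hh'] at h1
  have hCqa : ∀ a, ls (fun v => lp v (qa' a)) ≤ Module.finrank ℚ M * Cp (qa a) := by
    intro a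
    have h1 := ls_lp_le (A := A) (qa' a)
    rwa [hqa'] at h1
  have hCpc : ∀ i, ls (fun v => lp v (pc' i)) ≤ Module.finrank ℚ M * Cp (pc i) := by
    intro i
    have h1 := ls_lp_le (A := A) (pc' i)
    rwa [hpc'] at h1
  have e3 : ls G₂ ≤ s * (Module.finrank ℚ M * Cp h) + ∑ a, Module.finrank ℚ M * Cp (qa a) +
      ∑ i, Module.finrank ℚ M * Cp (pc i) := by
    rw [hG₂, ls_add (((FS_lp h').mul_left _).add (FS.sum Finset.univ hFSqa))
      (FS.sum Finset.univ hFSpc), ls_add ((FS_lp h').mul_left _) (FS.sum Finset.univ hFSqa),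
      ls_mul_left, ls_sum _ hFSqa, ls_sum _ hFSpc]
    refine add_le_add (add_le_add ?_ ?_) ?_
    · exact mul_le_mul_of_nonneg_left hCh (Nat.cast_nonneg _)
    · exact Finset.sum_le_sum fun a _ => hCqa a
    · exact Finset.sum_le_sum fun a _ => hCpc a
  have e4 : ls G₃ ≤ ((q * (n * (n + 1) / 2) : ℕ) : ℝ) * (Module.finrank ℚ M * Cp h) +
      ((n + 1 : ℕ) : ℝ) * (s * (Module.finrank ℚ M * Cp h) +
        ∑ a, Module.finrank ℚ M * Cp (qa a) + ∑ i, Module.finrank ℚ M * Cp (pc i)) := by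
    rw [hG₃, ls_add ((FS_lp h').mul_left _) (hFS2.mul_left _), ls_mul_left, ls_mul_left]
    refine add_le_add ?_ ?_
    · exact mul_le_mul_of_nonneg_left hCh (Nat.cast_nonneg _)
    · exact mul_le_mul_of_nonneg_left e3 (Nat.cast_nonneg _)
  rw [ls_add (hFS1.add hFS3) hFSk, ls_add hFS1 hFS3, ls_mul_left Λ, ls_kap, e1, e2] at hls
  have e5 := hls.trans (add_le_add_left (add_le_add_right e4 _) _)
  rw [← Finset.mul_sum, ← Finset.mul_sum, ← Finset.sum_mul, ← Finset.sum_mul] at e5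
  have e6 : ((e * (n * (n + 1) / 2) : ℕ) : ℝ) * (∑ i, aht (u i)) * (Module.finrank ℚ M : ℝ) ≤
      (((m₂ + n * e : ℕ) : ℝ) * (∑ κ, aht (P κ)) +
        (((q * (n * (n + 1) / 2) : ℕ) : ℝ) * Cp h +
          ((n + 1 : ℕ) : ℝ) * (s * Cp h + ∑ a, Cp (qa a) + ∑ i, Cp (pc i))) + Λ) *
        (Module.finrank ℚ M : ℝ) := by
    refine le_trans (le_of_eq ?_) (e5.trans (le_of_eq ?_)) <;> ring
  exact le_of_mul_le_mul_right e6 hd

end Pool.Agent.Helper45.NZ

end

section

namespace Pool.Agent.Helper30.ZB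
end Pool.Agent.Helper30.ZB

set_option autoImplicit false

namespace Pool.Agent.Helper45.NZ

open MvPolynomial

open Pool.Agent.Helper30.ZB

variable {A : Type} [Field A] {ν : ℕ}

/-- Telescoping. -/
theorem telescope {J : Ideal (MvPolynomial (Fin (ν + 1)) A)} (hp : J.IsPrime) (hJ : Hom J)
    {h : MvPolynomial (Fin (ν + 1)) A} {e : ℕ} (hh : h.IsHomogeneous e) (hhJ : h ∉ J) (m n : ℕ) :
    R J (m + n * e) = R J m + ∑ i ∈ Finset.range n, R (J ⊔ Ideal.span {h}) (m + (i + 1) * e) := by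
  induction n with
  | zero => simp
  | succ n ih =>
    have h1 := Dim_add hp hJ hh hhJ (m + n * e)
    rw [show m + n * e + e = m + (n + 1) * e by ring] at h1
    rw [h1, ih, Finset.sum_range_succ]
    ring

/-- The dimensions modulo `h` do not tend to infinity. -/
theorem bounded {J : Ideal (MvPolynomial (Fin (ν + 1)) A)} (hp : J.IsPrime) (hJ : Hom J)
    {δ c₀ : ℕ} (hδ : ∀ m, R J m ≤ δ * m + c₀) {h : MvPolynomial (Fin (ν + 1)) A} {e : ℕ}
    (he : 0 < e) (hh : h.IsHomogeneous e) (hhJ : h ∉ J) (m₀ : ℕ) :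
    ∃ m, m₀ ≤ m ∧ R (J ⊔ Ideal.span {h}) m ≤ e * δ := by
  by_contra hcon
  push Not at hcon
  have h1 : ∀ n, n * (e * δ + 1) ≤ δ * (m₀ + n * e) + c₀ := by
    intro n
    have h2 := telescope hp hJ hh hhJ m₀ n
    have h3 := hδ (m₀ + n * e)
    have h4 : n * (e * δ + 1) ≤
        ∑ i ∈ Finset.range n, R (J ⊔ Ideal.span {h}) (m₀ + (i + 1) * e) := by
      calc n * (e * δ + 1) = ∑ i ∈ Finset.range n, (e * δ + 1) := by simp
        _ ≤ _ := Finset.sum_le_sum fun i _ => hcon _ (by nlinarith)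
    omega
  have h5 := h1 (δ * m₀ + c₀ + 1)
  nlinarith

theorem log_factorial_le {r R₀ : ℕ} (h : r ≤ R₀) :
    Real.log (Nat.factorial r) ≤ R₀ * Real.log R₀ := by
  have h1 : (Nat.factorial r : ℝ) ≤ (R₀ : ℝ) ^ R₀ := by
    have h2 : Nat.factorial r ≤ R₀ ^ R₀ :=
      (Nat.factorial_le h).trans (Nat.factorial_le_pow R₀)
    exact_mod_cast h2
  have h3 := Real.log_le_log (by exact_mod_cast Nat.factorial_pos r) h1
  rwa [Real.log_pow] at h3

/-- The limit. -/
theorem limit {q s : ℕ} {H L C₃ : ℝ}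
    (h : ∀ n : ℕ, ((n * (n + 1) / 2 : ℕ) : ℝ) * H ≤
      ((n * (n + 1) / 2 : ℕ) : ℝ) * L + ((n : ℝ) + 1) * C₃ +
        Real.log (Nat.factorial ((n + 1) * q + s))) : H ≤ L := by
  by_contra hcon
  push Not at hcon
  set ε : ℝ := H - L with hε
  have hε0 : 0 < ε := by rw [hε]; linarith
  set g : ℝ := ((q + s + 1 : ℕ) : ℝ) with hg
  have hg0 : 0 < g := by
    rw [hg]
    exact_mod_cast Nat.succ_pos _
  have hlo := Real.isLittleO_log_id_atTop.def (c := ε / (8 * g ^ 2)) (by positivity)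
  obtain ⟨x₀, hx₀⟩ := Filter.eventually_atTop.1 hlo
  obtain ⟨n, hn⟩ := exists_nat_ge (max (max x₀ (8 * |C₃| / ε + 1)) 1)
  have hn1 : (1 : ℝ) ≤ n := (le_max_right _ _).trans hn
  have hn2 : x₀ ≤ n := (le_max_left _ _).trans ((le_max_left _ _).trans hn)
  have hn3 : 8 * |C₃| / ε + 1 ≤ n := (le_max_right _ _).trans ((le_max_left _ _).trans hn)
  have hT : ((n * (n + 1) / 2 : ℕ) : ℝ) * 2 = (n : ℝ) * (n + 1) := by
    have h2 : 2 ∣ n * (n + 1) := (Nat.even_mul_succ_self n).two_dvd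
    have h3 := Nat.div_mul_cancel h2
    have h4 : (((n * (n + 1) / 2) * 2 : ℕ) : ℝ) = ((n * (n + 1) : ℕ) : ℝ) := by rw [h3]
    rw [Nat.cast_mul] at h4
    rw [Nat.cast_ofNat] at h4
    rw [h4]
    push_cast
    ring
  set R₀ : ℕ := (n + 1) * (q + s + 1) with hR₀
  have hR0 : 0 < R₀ := Nat.mul_pos (Nat.succ_pos _) (Nat.succ_pos _)
  have hrR : (n + 1) * q + s ≤ R₀ := by
    rw [hR₀]
    nlinarith [Nat.zero_le (n * s)]
  have hRc : (R₀ : ℝ) = ((n : ℝ) + 1) * g := by
    rw [hR₀, hg]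
    push_cast
    ring
  have hlog := log_factorial_le hrR
  have hg1 : 1 ≤ g := by
    rw [hg]
    exact_mod_cast Nat.succ_le_succ (Nat.zero_le _)
  have hx : x₀ ≤ (R₀ : ℝ) := by
    rw [hRc]
    nlinarith
  have h5 := hx₀ _ hx
  have hlogR : 0 ≤ Real.log R₀ := Real.log_natCast_nonneg _
  rw [Real.norm_of_nonneg hlogR, id, Real.norm_of_nonneg (Nat.cast_nonneg _)] at h5
  have h6 : (R₀ : ℝ) * Real.log R₀ ≤ ε * ((n : ℝ) + 1) ^ 2 / 8 := by
    have h7 := mul_le_mul_of_nonneg_left h5 (Nat.cast_nonneg (α := ℝ) R₀)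
    refine h7.trans (le_of_eq ?_)
    rw [hRc]
    field_simp
  have h8 := h n
  have h9 : ((n * (n + 1) / 2 : ℕ) : ℝ) * ε ≤
      ((n : ℝ) + 1) * C₃ + ε * ((n : ℝ) + 1) ^ 2 / 8 := by
    rw [hε]
    linarith
  have h10 : ε * ((n : ℝ) + 1) ^ 2 / 4 ≤ ((n * (n + 1) / 2 : ℕ) : ℝ) * ε := by
    have h11 : ((n : ℝ) + 1) ^ 2 / 4 ≤ ((n * (n + 1) / 2 : ℕ) : ℝ) := by nlinarith
    nlinarith
  have h12 : C₃ ≤ |C₃| := le_abs_self _
  have h13 : ε * ((n : ℝ) + 1) / 8 ≤ |C₃| := by
    have h14 : ((n : ℝ) + 1) * (ε * ((n : ℝ) + 1) / 8) ≤ ((n : ℝ) + 1) * |C₃| := by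
      nlinarith
    exact le_of_mul_le_mul_left h14 (by linarith)
  have h15 : 8 * |C₃| / ε + 1 ≤ (n : ℝ) := hn3
  have h16 : 8 * |C₃| / ε < (n : ℝ) + 1 := by linarith
  rw [div_lt_iff₀ hε0] at h16
  nlinarith

/-- **The theorem of Zhang and Bezout** for curves over the algebraic numbers: `J` is the
homogeneous prime ideal of a curve of degree at most `δ`, `h` a form of degree `e` which is not
zero on the curve. If the points of height at most `C₁` are dense in the curve, then the height of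
every zero `y` of `h` on the curve is at most
`δ (2 e C₁ + Cp h + e (log (ν + 1) + ν log 4))`. -/
theorem zhang_bezout_number [IsAlgClosed A] [CharZero A] [Algebra.IsAlgebraic ℚ A]
    {J : Ideal (MvPolynomial (Fin (ν + 1)) A)} (hp : J.IsPrime) (hJ : Hom J) {δ c₀ : ℕ}
    (hδ : ∀ m, R J m ≤ δ * m + c₀) {h : MvPolynomial (Fin (ν + 1)) A} {e : ℕ} (he : 0 < e)
    (hh : h.IsHomogeneous e) (hhJ : h ∉ J) {C₁ : ℝ} (hC₁ : 0 ≤ C₁)
    {S : Set (Fin (ν + 1) → A)} (hS0 : ∀ P ∈ S, P ≠ 0)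
    (hSJ : ∀ P ∈ S, ∀ g ∈ J, eval P g = 0)
    (hdense : ∀ (g : MvPolynomial (Fin (ν + 1)) A) (m : ℕ), g.IsHomogeneous m → g ∉ J →
      ∃ P ∈ S, eval P g ≠ 0)
    (hsmall : ∀ P ∈ S, aht P ≤ C₁)
    {y : Fin (ν + 1) → A} (hy : y ≠ 0) (hyJ : ∀ g ∈ J, eval y g = 0) (hyh : eval y h = 0) :
    aht y ≤ δ * (2 * e * C₁ + Cp h + e * (Real.log (ν + 1) + ν * Real.log 4)) := by
  classical
  have : Infinite A := IsAlgClosed.instInfinite
  set I : Ideal (MvPolynomial (Fin (ν + 1)) A) := J ⊔ Ideal.span {h} with hI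
  have hIh : Hom I := Dim_hom_sup hJ hh
  obtain ⟨c, m₁, hmiss⟩ := Lin_exists (k := A) (I := I) (B := e * δ)
    (fun m₀ => bounded hp hJ hδ he hh hhJ m₀)
  obtain ⟨hfin, m₂', hm₂', hmain⟩ := Quot_main hIh hmiss
  set q : ℕ := Module.finrank A (Qo I c) with hq
  set m₂ : ℕ := m₂' + e with hm₂
  have hqle : q ≤ e * δ := by
    obtain ⟨m, hm, h1⟩ := bounded hp hJ hδ he hh hhJ m₂'
    rw [(hmain m hm).2.2] at h1
    exact h1
  -- the bases
  have hb : ∃ qa : Fin q → MvPolynomial (Fin (ν + 1)) A, (∀ a, (qa a).IsHomogeneous m₂) ∧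
      ⊤ ≤ Submodule.span A (Set.range fun a => cls I c (qa a)) ∧
      LinearIndependent A fun a => cls I c (qa a) := by
    let B := Module.finBasis A (Qo I c)
    choose qa hqa1 hqa2 using fun a => (hmain m₂ (by omega)).1 (B a)
    refine ⟨qa, hqa1, ?_, ?_⟩
    · have h1 : (fun a => cls I c (qa a)) = B := funext hqa2
      rw [h1, B.span_eq]
    · have h1 : (fun a => cls I c (qa a)) = B := funext hqa2
      rw [h1]
      exact B.linearIndependent
  obtain ⟨qa, hqa1, hqa2, hqa3⟩ := hb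
  have hpc : ∃ (s : ℕ) (p : Fin s → MvPolynomial (Fin (ν + 1)) A),
      (∀ i, (p i).IsHomogeneous (m₂ - e)) ∧
      (∀ g : MvPolynomial (Fin (ν + 1)) A, g.IsHomogeneous (m₂ - e) →
        ∃ a : Fin s → A, g - ∑ i, C (a i) * p i ∈ J) ∧
      ∀ a : Fin s → A, ∑ i, C (a i) * p i ∈ J → a = 0 := ⟨_, Dim_exists_basis J (m₂ - e)⟩
  obtain ⟨s, pc, hpc1, hpc2, hpc3⟩ := hpc
  have D : Data J h e c m₂ q s qa pc :=
    { prime := hp
      hom := hJ
      h_hom := hh
      e_pos := he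
      e_le := by omega
      h_not := hhJ
      misses := fun m hm => hmiss m (by omega)
      qa_hom := hqa1
      qa_span := hqa2
      qa_ind := hqa3
      qa_gen := fun m hm p hp h0 => (hmain m (by omega)).2.1 p hp h0
      pc_hom := hpc1
      pc_span := hpc2
      pc_ind := hpc3 }
  -- the point `y`
  have hyI : ∀ g ∈ I, aeval y g = 0 := by
    intro g hg
    obtain ⟨g₁, hg₁, g₂, hg₂, rfl⟩ := Submodule.mem_sup.1 hg
    obtain ⟨w, rfl⟩ := Ideal.mem_span_singleton'.1 hg₂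
    have h1 : aeval y g₁ = 0 := hyJ g₁ hg₁
    have h2 : aeval y h = 0 := hyh
    rw [map_add, h1, map_mul, h2, mul_zero, add_zero]
  obtain ⟨ψ, a, ha, hψ⟩ := Pts_zero hIh hmiss A y hy hyI
  -- the homomorphisms
  obtain ⟨t, χ, hN, hχ⟩ := norm_eq_prod (K := A) (A := Qo I c) (Ω := A)
  have hN' : ∀ a : Qo I c, Algebra.norm A a = ∏ i, χ i a := hN
  obtain ⟨i₀, hi₀⟩ := hχ ψ
  have hyu : aht (fun b => χ i₀ (cls I c (X b))) = aht y := by
    rw [hψ, hi₀]
    exact (aht_smul ha _).symm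
  have hsum : aht y ≤ ∑ i, aht (fun b => χ i (cls I c (X b))) := by
    rw [← hyu]
    exact Finset.single_le_sum (f := fun i => aht (fun b => χ i (cls I c (X b))))
      (fun i _ => aht_nonneg _) (Finset.mem_univ i₀)
  set Λ : ℝ := Real.log (ν + 1) + ν * Real.log 4 with hΛ
  have hΛ0 : 0 ≤ Λ := by
    rw [hΛ]
    have h1 : 0 ≤ Real.log ((ν : ℝ) + 1) := Real.log_nonneg (by
      have : (0 : ℝ) ≤ ν := Nat.cast_nonneg _
      linarith)
    have h2 : 0 ≤ Real.log 4 := Real.log_nonneg (by norm_num)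
    positivity
  set C₂ : ℝ := s * Cp h + ∑ a, Cp (qa a) + ∑ i, Cp (pc i) with hC₂
  have hCh : 0 ≤ Cp h := Cp_nonneg h
  have hineq : ∀ n : ℕ, ((e * (n * (n + 1) / 2) : ℕ) : ℝ) * aht y ≤
      ((m₂ + n * e : ℕ) : ℝ) * ((((n + 1) * q + s : ℕ) : ℝ) * C₁) +
        (((q * (n * (n + 1) / 2) : ℕ) : ℝ) * Cp h + ((n + 1 : ℕ) : ℝ) * C₂) +
        (((e * q * (n * (n + 1) / 2) : ℕ) : ℝ) * Λ +
          Real.log (Nat.factorial ((n + 1) * q + s))) := by
    intro n
    obtain ⟨P, hPS, hPdet⟩ := Pool.Agent.Helper45.TNC.exists_det_ne_zero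
      (fun (κ : (Fin (n + 1) × Fin q) ⊕ Fin s) (P : Fin (ν + 1) → A) =>
        eval P (fam h e qa pc n c κ)) S (by
        intro b hb
        refine Det_ind D n b ?_
        by_contra hnot
        obtain ⟨P, hP, hP1⟩ := hdense _ (m₂ + n * e) (IsHomogeneous.sum _ _ _ fun κ _ => by
          have h1 := (isHomogeneous_C (Fin (ν + 1)) (b κ)).mul (fam_hom D n c κ)
          rwa [zero_add] at h1) hnot
        apply hP1
        rw [map_sum, ← hb P hP]
        exact Finset.sum_congr rfl fun κ _ => by rw [map_mul, eval_C])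
    have hdet : (Matrix.of fun κ κ' => eval (P κ) (fam h e qa pc n c κ')).det ≠ 0 := by
      rw [← Matrix.det_transpose]
      exact hPdet
    have h1 := level D n χ P hN' (fun κ => hS0 _ (hPS κ)) (fun κ => hSJ _ (hPS κ)) hdet
    have h2 : ∑ κ, aht (P κ) ≤ (((n + 1) * q + s : ℕ) : ℝ) * C₁ := by
      calc ∑ κ, aht (P κ) ≤ ∑ κ : (Fin (n + 1) × Fin q) ⊕ Fin s, C₁ :=
            Finset.sum_le_sum fun κ _ => hsmall _ (hPS κ)
        _ = _ := by
          rw [Finset.sum_const, Finset.card_univ, Fintype.card_sum, Fintype.card_prod,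
            Fintype.card_fin, Fintype.card_fin, Fintype.card_fin, nsmul_eq_mul]
    have h3 := mul_le_mul_of_nonneg_left hsum
      (Nat.cast_nonneg (α := ℝ) (e * (n * (n + 1) / 2)))
    have h4 := mul_le_mul_of_nonneg_left h2 (Nat.cast_nonneg (α := ℝ) (m₂ + n * e))
    refine h3.trans (h1.trans ?_)
    exact add_le_add (add_le_add h4 le_rfl) le_rfl
  -- the limit
  have hlim : (e : ℝ) * aht y ≤ 2 * e * q * C₁ + q * Cp h + e * q * Λ := by
    refine limit (q := q) (s := s) (C₃ := (m₂ * (q + s) + e * s) * C₁ + |C₂|) fun n => ?_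
    have h1 := hineq n
    have hT : ((n * (n + 1) / 2 : ℕ) : ℝ) * 2 = (n : ℝ) * (n + 1) := by
      have h2 : 2 ∣ n * (n + 1) := (Nat.even_mul_succ_self n).two_dvd
      have h3 := Nat.div_mul_cancel h2
      have h4 : (((n * (n + 1) / 2) * 2 : ℕ) : ℝ) = ((n * (n + 1) : ℕ) : ℝ) := by rw [h3]
      rw [Nat.cast_mul, Nat.cast_ofNat] at h4
      rw [h4]
      push_cast
      ring
    set T : ℕ := n * (n + 1) / 2 with hTd
    have hnn : (0 : ℝ) ≤ n := Nat.cast_nonneg _
    have hqq : (0 : ℝ) ≤ q := Nat.cast_nonneg _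
    have hss : (0 : ℝ) ≤ s := Nat.cast_nonneg _
    have hee : (0 : ℝ) ≤ e := Nat.cast_nonneg _
    have hmm : (0 : ℝ) ≤ m₂ := Nat.cast_nonneg _
    have h5 : ((m₂ + n * e : ℕ) : ℝ) * ((((n + 1) * q + s : ℕ) : ℝ) * C₁) ≤
        (T : ℝ) * (2 * e * q * C₁) + ((n : ℝ) + 1) * ((m₂ * (q + s) + e * s) * C₁) := by
      have h6 : (T : ℝ) * (2 * e * q * C₁) = (n : ℝ) * (n + 1) * e * q * C₁ := by
        rw [← hT]; ring
      rw [h6]
      push_cast
      have h7 : 0 ≤ (m₂ : ℝ) * s * n * C₁ := by positivity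
      have h8 : 0 ≤ (e : ℝ) * s * C₁ := by positivity
      nlinarith
    have h9 : ((n + 1 : ℕ) : ℝ) * C₂ ≤ ((n : ℝ) + 1) * |C₂| := by
      push_cast
      exact mul_le_mul_of_nonneg_left (le_abs_self _) (by linarith)
    push_cast at h1 h5 h9 ⊢
    linarith
  have he' : (0 : ℝ) < e := by exact_mod_cast he
  have hq' : (q : ℝ) ≤ e * δ := by exact_mod_cast hqle
  have h10 : (e : ℝ) * aht y ≤ (e : ℝ) * (δ * (2 * e * C₁ + Cp h + e * Λ)) := by
    refine hlim.trans ?_
    have h11 : (q : ℝ) * (2 * e * C₁ + Cp h + e * Λ) ≤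
        (e * δ) * (2 * e * C₁ + Cp h + e * Λ) :=
      mul_le_mul_of_nonneg_right hq' (by positivity)
    linarith
  exact le_of_mul_le_mul_left h10 he'

end Pool.Agent.Helper45.NZ

end

section

namespace Pool.Agent.Helper29.TG
end Pool.Agent.Helper29.TG
namespace Pool.Agent.Helper36
end Pool.Agent.Helper36
namespace Pool.Agent.Helper38.TQ
end Pool.Agent.Helper38.TQ

/-!
# Project NZ: growth of the absolute height
-/

set_option autoImplicit false

namespace Pool.Agent.Helper45.NZ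

open MvPolynomial Height AdmissibleAbsValues

open Pool.Agent.Helper29.TG (nm ls FS Mem)

open Pool.Agent.Helper36 (step iter)

open Pool.Agent.Helper38.TQ

variable {ν : ℕ} {A : Type} [Field A] [CharZero A] [IsAlgClosed A] [Algebra.IsAlgebraic ℚ A]
  [Algebra A ℂ]

omit [CharZero A] [IsAlgClosed A] [Algebra.IsAlgebraic ℚ A] [Algebra A ℂ] in
/-- The absolute value of a sum. -/
theorem Grow_sum_le (W : AbsoluteValue A ℝ) (b : Fin (ν + 1) → A) {B : ℝ}
    (hb : ∀ j, W (b j) ≤ B) : W (∑ j, b j) ≤ Real.exp (kap W * Real.log (ν + 1)) * B := by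
  classical
  by_cases h : IsNonarchimedean W
  · have h1 : kap W = 0 := by
      unfold kap
      rw [if_pos h]
    rw [h1, zero_mul, Real.exp_zero, one_mul]
    obtain ⟨j, -, hj⟩ := IsNonarchimedean.finset_image_add_of_nonempty h b
      (t := Finset.univ) Finset.univ_nonempty
    exact hj.trans (hb j)
  · have h1 : kap W = 1 := by
      unfold kap
      rw [if_neg h]
    have h2 : (0 : ℝ) < (ν : ℝ) + 1 := by positivity
    rw [h1, one_mul, Real.exp_log h2]
    refine (W.sum_le Finset.univ b).trans ?_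
    refine (Finset.sum_le_sum fun j _ => hb j).trans (le_of_eq ?_)
    rw [Finset.sum_const, Finset.card_univ, Fintype.card_fin, nsmul_eq_mul]
    push_cast
    ring

omit [CharZero A] [IsAlgClosed A] [Algebra.IsAlgebraic ℚ A] [Algebra A ℂ] in
theorem Grow_sz_le_exp {σ : Type} (W : AbsoluteValue A ℝ) (G : MvPolynomial σ A) :
    sz W G ≤ Real.exp (lp W G) := by
  rcases (sz_nonneg W G).eq_or_lt with h | h
  · rw [← h]
    exact (Real.exp_pos _).le
  · have h1 : Real.log (sz W G) ≤ lp W G := le_max_right _ _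
    calc sz W G = Real.exp (Real.log (sz W G)) := (Real.exp_log h).symm
      _ ≤ Real.exp (lp W G) := Real.exp_le_exp.2 h1

/-- The inequality at one place. -/
theorem Grow_loc {d : ℕ} {F : Fin (ν + 1) → MvPolynomial (Fin (ν + 1)) A}
    {M : ℕ} {q : Fin (ν + 1) × Fin (ν + 1) → MvPolynomial (Fin (ν + 1)) A}
    (hq : ∀ a, (q a).IsHomogeneous M)
    (h : ∀ a, ∑ j, q (a, j) * F j = MvPolynomial.X a ^ (M + d))
    (W : AbsoluteValue A ℝ) {y : Fin (ν + 1) → A} (hy : y ≠ 0) (hs : step F y ≠ 0) :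
    (d : ℝ) * Real.log (nm W y) ≤ Real.log (nm W (step F y)) + ∑ a, lp W (q a) +
      Real.log (ν + 1) * kap W := by
  classical
  have hn0 : 0 < nm W y := Pool.Agent.Helper29.TG.nm_pos W hy
  have hs0 : 0 < nm W (step F y) := Pool.Agent.Helper29.TG.nm_pos W hs
  obtain ⟨i, hi⟩ := Pool.Agent.Helper29.TG.exists_nm_eq W hy
  have hlp : ∀ a, lp W (q a) ≤ ∑ a, lp W (q a) := fun a =>
    Finset.single_le_sum (f := fun a => lp W (q a)) (fun a _ => le_max_left _ _)
      (Finset.mem_univ a)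
  have h1 : W (y i ^ (M + d)) ≤ Real.exp (kap W * Real.log (ν + 1)) *
      (Real.exp (∑ a, lp W (q a)) * nm W y ^ M * nm W (step F y)) := by
    rw [Pool.Agent.Helper38.TNA.Periodic_cert h y i]
    refine Grow_sum_le W _ fun j => ?_
    rw [map_mul, Algebra.algebraMap_self, MvPolynomial.map_id]
    refine mul_le_mul ?_ (Pool.Agent.Helper29.TG.le_nm W (step F y) j) (W.nonneg _)
      (mul_nonneg (Real.exp_pos _).le (pow_nonneg hn0.le _))
    refine (eval_le_sz W (hq (i, j)) y).trans ?_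
    refine mul_le_mul_of_nonneg_right ?_ (pow_nonneg hn0.le _)
    exact (Grow_sz_le_exp W _).trans (Real.exp_le_exp.2 (hlp _))
  rw [map_pow, ← hi.2, pow_add] at h1
  have h2 : 0 < nm W y ^ M := pow_pos hn0 _
  have h3 : nm W y ^ d ≤ Real.exp (kap W * Real.log (ν + 1) + ∑ a, lp W (q a)) *
      nm W (step F y) := by
    refine le_of_mul_le_mul_left (a := nm W y ^ M) (h1.trans (le_of_eq ?_)) h2
    rw [Real.exp_add]
    ring
  have h4 := Real.log_le_log (pow_pos hn0 _) h3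
  rw [Real.log_pow, Real.log_mul (Real.exp_pos _).ne' hs0.ne', Real.log_exp] at h4
  linarith

/-- The height of the image of a point. -/
theorem growA {d : ℕ} {F : Fin (ν + 1) → MvPolynomial (Fin (ν + 1)) A}
    (hF : IsEndo d fun i => map (algebraMap A ℂ) (F i)) :
    ∃ C : ℝ, 0 ≤ C ∧ ∀ y : Fin (ν + 1) → A, y ≠ 0 → d * aht y ≤ aht (step F y) + C := by
  classical
  obtain ⟨e, q, hq, h⟩ := Pool.Agent.Helper36.exists_nullstellensatz (L := ℂ) F
    (fun i => Pool.Agent.Helper30.TKN.homog_of_endo hF i)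
    (Pool.Agent.Helper30.TKN.growth_aeval_zero hF)
  have hlog : (0 : ℝ) ≤ Real.log (ν + 1) := Real.log_nonneg (by
    have : (0 : ℝ) ≤ ν := Nat.cast_nonneg _
    linarith)
  refine ⟨∑ a, Cp (q a) + Real.log (ν + 1),
    add_nonneg (Finset.sum_nonneg fun a _ => Cp_nonneg _) hlog, ?_⟩
  intro y hy
  have hs : step F y ≠ 0 := Pool.Agent.Helper38.TNA.step_ne_zeroL hF hy
  -- the number field
  have hfin : Finite ((Fin (ν + 1) ⊕ Fin (ν + 1)) ⊕
      (Σ a : Fin (ν + 1) × Fin (ν + 1), ((q a).support : Set (Fin (ν + 1) →₀ ℕ)))) := inferInstance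
  obtain ⟨M, _, _, _, α, hα⟩ := exists_field (A := A)
    (fun o : (Fin (ν + 1) ⊕ Fin (ν + 1)) ⊕
      (Σ a : Fin (ν + 1) × Fin (ν + 1), ((q a).support : Set (Fin (ν + 1) →₀ ℕ))) =>
      Sum.elim (Sum.elim y (step F y)) (fun p => (q p.1).coeff p.2.1) o)
  set y' : Fin (ν + 1) → M := fun i => α (Sum.inl (Sum.inl i)) with hy'
  set s' : Fin (ν + 1) → M := fun i => α (Sum.inl (Sum.inr i)) with hs'
  have hye : y = fun i => algebraMap M A (y' i) :=
    funext fun i => (hα (Sum.inl (Sum.inl i))).symm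
  have hse : step F y = fun i => algebraMap M A (s' i) :=
    funext fun i => (hα (Sum.inl (Sum.inr i))).symm
  have hqe : ∀ a, ∃ G' : MvPolynomial (Fin (ν + 1)) M, map (algebraMap M A) G' = q a := by
    intro a
    have h1 : q a ∈ Set.range (map (σ := Fin (ν + 1)) (algebraMap M A)) := by
      rw [mem_range_map_iff_coeffs_subset]
      intro x hx
      obtain ⟨m, hm, rfl⟩ := mem_coeffs_iff.1 hx
      exact ⟨α (Sum.inr ⟨a, ⟨m, hm⟩⟩), hα (Sum.inr ⟨a, ⟨m, hm⟩⟩)⟩
    exact h1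
  choose q' hq' using hqe
  have hy'0 : y' ≠ 0 := by
    intro h0
    refine hy ?_
    rw [hye, h0]
    funext a
    exact map_zero _
  have hs'0 : s' ≠ 0 := by
    intro h0
    refine hs ?_
    rw [hse, h0]
    funext a
    exact map_zero _
  have hd : (0 : ℝ) < Module.finrank ℚ M := by
    exact_mod_cast Module.finrank_pos
  have hptw : ∀ v : AbsoluteValue M ℝ, Mem v → (d : ℝ) * Real.log (nm v y') ≤
      Real.log (nm v s') + ∑ a, lp v (q' a) + Real.log (ν + 1) * kap v := by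
    intro v hv
    obtain ⟨W, hW, hW1, hW2⟩ := exists_ext (A := A) hv
    have h1 := Grow_loc hq h W hy hs
    have h2 : nm W y = nm v y' := by rw [hye, nm_ext hW1]
    have h3 : nm W (step F y) = nm v s' := by rw [hse, nm_ext hW1]
    have h4 : ∀ a, lp W (q a) = lp v (q' a) := fun a => by
      rw [← lp_ext hW1 hW2, hq']
    rw [h2, h3, kap_ext hW2] at h1
    simp only [h4] at h1
    exact h1
  have hFSy : FS (fun v : AbsoluteValue M ℝ => (d : ℝ) * Real.log (nm v y')) :=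
    (Pool.Agent.Helper29.TG.FS_nm hy'0).mul_left _
  have hFSs : FS (fun v : AbsoluteValue M ℝ => Real.log (nm v s')) :=
    Pool.Agent.Helper29.TG.FS_nm hs'0
  have hFSq : ∀ a ∈ Finset.univ, FS (fun v : AbsoluteValue M ℝ => lp v (q' a)) :=
    fun a _ => FS_lp _
  have hFSqs : FS (fun v : AbsoluteValue M ℝ => ∑ a, lp v (q' a)) :=
    Pool.Agent.Helper29.TG.FS.sum Finset.univ hFSq
  have hFSk : FS (fun v : AbsoluteValue M ℝ => Real.log (ν + 1) * kap v) := FS_kap.mul_left _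
  have hls := Pool.Agent.Helper29.TG.ls_mono hFSy ((hFSs.add hFSqs).add hFSk) hptw
  rw [Pool.Agent.Helper29.TG.ls_add (hFSs.add hFSqs) hFSk,
    Pool.Agent.Helper29.TG.ls_add hFSs hFSqs, Pool.Agent.Helper29.TG.ls_mul_left,
    Pool.Agent.Helper29.TG.ls_mul_left, ls_kap, Pool.Agent.Helper29.TG.ls_nm hy'0,
    Pool.Agent.Helper29.TG.ls_nm hs'0, Pool.Agent.Helper29.TG.ls_sum _ hFSq] at hls
  have hC : ∑ a, ls (fun v : AbsoluteValue M ℝ => lp v (q' a)) ≤
      ∑ a, Module.finrank ℚ M * Cp (q a) := by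
    refine Finset.sum_le_sum fun a _ => ?_
    have h1 := ls_lp_le (A := A) (q' a)
    rwa [hq'] at h1
  have e1 : logHeight y' = aht y * (Module.finrank ℚ M : ℝ) := by
    rw [hye, aht_map, div_mul_cancel₀ _ hd.ne']
  have e2 : logHeight s' = aht (step F y) * (Module.finrank ℚ M : ℝ) := by
    rw [hse, aht_map, div_mul_cancel₀ _ hd.ne']
  rw [e1, e2] at hls
  rw [← Finset.mul_sum] at hC
  have e6 : (d : ℝ) * aht y * (Module.finrank ℚ M : ℝ) ≤
      (aht (step F y) + (∑ a, Cp (q a) + Real.log (ν + 1))) * (Module.finrank ℚ M : ℝ) := by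
    linarith
  exact le_of_mul_le_mul_right e6 hd

/-- The heights of the points of an orbit. -/
theorem iter_lower {d : ℕ} {F : Fin (ν + 1) → MvPolynomial (Fin (ν + 1)) A}
    (hF : IsEndo d fun i => map (algebraMap A ℂ) (F i)) :
    ∃ C : ℝ, 0 ≤ C ∧ ∀ y : Fin (ν + 1) → A, y ≠ 0 → ∀ N : ℕ,
      (d : ℝ) ^ N * (aht y - C) ≤ aht (iter F y N) - C := by
  obtain ⟨C, hC0, hC⟩ := growA hF
  refine ⟨C, hC0, fun y hy N => ?_⟩
  have hd : (2 : ℝ) ≤ d := by exact_mod_cast hF.two_le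
  induction N with
  | zero => simp [Pool.Agent.Helper36.iter_zero]
  | succ n ih =>
    have h1 := hC (iter F y n) (Pool.Agent.Helper38.TNA.iter_ne_zeroL hF hy n)
    rw [← Pool.Agent.Helper36.iter_succ] at h1
    have h2 : (d : ℝ) * ((d : ℝ) ^ n * (aht y - C)) ≤ d * (aht (iter F y n) - C) :=
      mul_le_mul_of_nonneg_left ih (by linarith)
    have h3 : 2 * C ≤ d * C := mul_le_mul_of_nonneg_right hd hC0
    rw [pow_succ]
    linarith

end Pool.Agent.Helper45.NZ

end

section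

namespace Pool.Agent.Helper36
end Pool.Agent.Helper36
namespace Pool.Agent.Helper38.TQ
end Pool.Agent.Helper38.TQ

/-!
# Project NZ: Northcott's theorem along an orbit
-/

set_option autoImplicit false

namespace Pool.Agent.Helper45.NZ

open MvPolynomial Height AdmissibleAbsValues

open Pool.Agent.Helper36 (step iter)

open Pool.Agent.Helper38.TQ

variable {ν : ℕ} {A : Type} [Field A] [CharZero A] [IsAlgClosed A] [Algebra.IsAlgebraic ℚ A]
  [Algebra A ℂ]

omit [CharZero A] [IsAlgClosed A] [Algebra.IsAlgebraic ℚ A] [Algebra A ℂ] in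
theorem North_map {M : Type} [Field M] [Algebra M A] {σ : Type} {G : MvPolynomial σ A}
    (h : ∀ m ∈ G.support, ∃ α : M, algebraMap M A α = G.coeff m) :
    ∃ G' : MvPolynomial σ M, map (algebraMap M A) G' = G := by
  have h1 : G ∈ Set.range (map (σ := σ) (algebraMap M A)) := by
    rw [mem_range_map_iff_coeffs_subset]
    intro x hx
    obtain ⟨m, hm, rfl⟩ := mem_coeffs_iff.1 hx
    obtain ⟨α, hα⟩ := h m hm
    exact ⟨α, hα⟩
  exact h1

omit [CharZero A] [IsAlgClosed A] [Algebra.IsAlgebraic ℚ A] [Algebra A ℂ] in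
/-- The orbit over the small field. -/
theorem North_iter {M : Type} [Field M] [Algebra M A]
    {F : Fin (ν + 1) → MvPolynomial (Fin (ν + 1)) A}
    {F' : Fin (ν + 1) → MvPolynomial (Fin (ν + 1)) M}
    (hFF : ∀ i, map (algebraMap M A) (F' i) = F i) (x' : Fin (ν + 1) → M) (n : ℕ) :
    iter F (fun a => algebraMap M A (x' a)) n = fun a => algebraMap M A (iter F' x' n a) := by
  induction n with
  | zero => rfl
  | succ n ih =>
    rw [Pool.Agent.Helper36.iter_succ, Pool.Agent.Helper36.iter_succ, ih]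
    funext i
    simp only [step]
    rw [← hFF i, aeval_map_algebraMap]
    exact aeval_algebraMap_apply A (iter F' x' n) (F' i)

/-- The heights of the points of an infinite orbit tend to infinity. -/
theorem aht_tendsto {d : ℕ} {F : Fin (ν + 1) → MvPolynomial (Fin (ν + 1)) A}
    (hF : IsEndo d fun i => map (algebraMap A ℂ) (F i)) {x : Fin (ν + 1) → A} (hx : x ≠ 0)
    (hdist : ∀ n m, n < m → ¬ PEq (iter F x n) (iter F x m)) (B : ℝ) :
    ∃ n₀, ∀ n, n₀ ≤ n → B < aht (iter F x n) := by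
  classical
  obtain ⟨M, _, _, _, α, hα⟩ := exists_field
    (τ := Fin (ν + 1) ⊕ (Σ i : Fin (ν + 1), {m // m ∈ (F i).support}))
    (fun o => Sum.elim (fun a => x a) (fun p => (F p.1).coeff p.2.1) o)
  set x' : Fin (ν + 1) → M := fun a => α (Sum.inl a) with hx'
  have hxx : x = fun a => algebraMap M A (x' a) := by
    funext a
    exact (hα (Sum.inl a)).symm
  have hF' : ∀ i, ∃ G : MvPolynomial (Fin (ν + 1)) M, map (algebraMap M A) G = F i := by
    intro i
    exact North_map fun m hm => ⟨α (Sum.inr ⟨i, ⟨m, hm⟩⟩), hα (Sum.inr ⟨i, ⟨m, hm⟩⟩)⟩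
  choose F' hFF using hF'
  have hx0 : x' ≠ 0 := by
    intro h0
    apply hx
    rw [hxx, h0]
    funext a
    exact map_zero _
  let _ : Algebra M ℂ := ((algebraMap A ℂ).comp (algebraMap M A)).toAlgebra
  have hmap : (algebraMap M ℂ) = (algebraMap A ℂ).comp (algebraMap M A) := rfl
  have hend : IsEndo d fun i => map (algebraMap M ℂ) (F' i) := by
    have h1 : (fun i => map (algebraMap M ℂ) (F' i)) = fun i => map (algebraMap A ℂ) (F i) := by
      funext i
      rw [← hFF i, map_map, hmap]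
    rw [h1]
    exact hF
  have hhom := fun i => Pool.Agent.Helper30.TKN.homog_of_endo hend i
  have hgr := Pool.Agent.Helper36.growth (L := ℂ) hend.two_le F' hhom
    (Pool.Agent.Helper30.TKN.growth_aeval_zero hend) (fun n => iter F' x' n)
    (fun n => Pool.Agent.Helper38.TNA.iter_ne_zeroL hend hx0 n)
    (fun n => Pool.Agent.Helper36.iter_succ F' x' n)
  rcases hgr with ⟨n, m, hnm, c, hc, hcm⟩ | ⟨n₀, hn₀⟩
  · exfalso
    refine hdist n m hnm ⟨algebraMap M A c, ?_, ?_⟩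
    · exact (map_ne_zero (algebraMap M A)).2 hc
    · rw [hxx, North_iter hFF, North_iter hFF, hcm]
      funext a
      simp only [Pi.smul_apply, smul_eq_mul, map_mul]
  · have hd : (0 : ℝ) < Module.finrank ℚ M := by
      exact_mod_cast Module.finrank_pos
    obtain ⟨k, hk⟩ := pow_unbounded_of_one_lt (B * Module.finrank ℚ M) (one_lt_two : (1 : ℝ) < 2)
    refine ⟨n₀ + k, fun n hn => ?_⟩
    rw [hxx, North_iter hFF, aht_map, lt_div_iff₀ hd]
    refine hk.trans_le ?_
    refine le_trans ?_ (hn₀ n (by omega))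
    have hd2 : (2 : ℝ) ≤ d := by exact_mod_cast hend.two_le
    calc (2 : ℝ) ^ k ≤ (d : ℝ) ^ k := pow_le_pow_left₀ (by norm_num) hd2 k
      _ ≤ (d : ℝ) ^ (n - n₀) := pow_le_pow_right₀ (by linarith) (by omega)

end Pool.Agent.Helper45.NZ

end
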