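import Pool.Agent.Helper72.TM2.T57
import Pool.Agent.Helper72.TM2.T49
import Pool.Agent.Helper72.TM2.T43
import Pool.Agent.Helper72.TM2.T47
import Pool.Agent.Helper72.TM2.T48
import Pool.Agent.Helper72.TM2.T52
import Pool.Agent.Helper72.TM2.T23

section

namespace Pool.Agent.Helper36
end Pool.Agent.Helper36
namespace Pool.Agent.Helper38.TQ
end Pool.Agent.Helper38.TQ
namespace Pool.Agent.Helper38.TNA
end Pool.Agent.Helper38.TNA
namespace Pool.Agent.Helper63.TN
end Pool.Agent.Helper63.TN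
namespace Pool.Agent.Helper30.TKN
end Pool.Agent.Helper30.TKN
namespace Pool.Agent.Helper30.ZB
end Pool.Agent.Helper30.ZB

set_option autoImplicit false

namespace Pool.Agent.Helper45.NZ

open MvPolynomial

open Pool.Agent.Helper36 (step iter)

open Pool.Agent.Helper38.TQ

open Pool.Agent.Helper38.TNA

open Pool.Agent.Helper63.TN

open Pool.Agent.Helper30.TKN

open Pool.Agent.Helper30.ZB

variable {ν : ℕ}

/-- The point is preperiodic. -/
def IsPre {A : Type} [Field A] (F : Fin (ν + 1) → MvPolynomial (Fin (ν + 1)) A)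
    (w : Fin (ν + 1) → A) : Prop :=
  ∃ m l : ℕ, m < l ∧ PEq (iter F w m) (iter F w l)

/-- The curve contains arbitrarily many preperiodic points. -/
def ManyPreA {A : Type} [Field A] (I : Ideal (MvPolynomial (Fin (ν + 1)) A))
    (F : Fin (ν + 1) → MvPolynomial (Fin (ν + 1)) A) : Prop :=
  ∀ s : ℕ, ∃ w : Fin s → Fin (ν + 1) → A, (∀ j, OnI I (w j) ∧ IsPre F (w j)) ∧
    ∀ i j, i ≠ j → ¬ PEq (w i) (w j)

variable {A : Type} [Field A] [CharZero A] [IsAlgClosed A] [Algebra.IsAlgebraic ℚ A]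
  [Algebra A ℂ]

/-- The points of the orbit of a preperiodic point. -/
theorem pre_iter {d : ℕ} {F : Fin (ν + 1) → MvPolynomial (Fin (ν + 1)) A}
    (hF : ∀ i, (F i).IsHomogeneous d) {w : Fin (ν + 1) → A} (h : IsPre F w) (N : ℕ) :
    IsPre F (iter F w N) := by
  obtain ⟨m, l, hml, c, hc, hcw⟩ := h
  refine ⟨m, l, hml, c ^ d ^ N, pow_ne_zero _ hc, ?_⟩
  rw [← Pool.Agent.Helper36.iter_add, ← Pool.Agent.Helper36.iter_add, Nat.add_comm l N,
    Nat.add_comm m N, Pool.Agent.Helper36.iter_add, Pool.Agent.Helper36.iter_add, hcw,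
    iter_smulL hF]

/-- The heights of the preperiodic points are bounded. -/
theorem pre_bound {d : ℕ} {F : Fin (ν + 1) → MvPolynomial (Fin (ν + 1)) A}
    (hF : IsEndo d fun i => map (algebraMap A ℂ) (F i)) :
    ∃ C : ℝ, 0 ≤ C ∧ ∀ w : Fin (ν + 1) → A, w ≠ 0 → IsPre F w → aht w ≤ C := by
  obtain ⟨C, hC, hlow⟩ := iter_lower hF
  refine ⟨C, hC, fun w hw hpre => ?_⟩
  obtain ⟨m, l, hml, c, hc, hcw⟩ := hpre
  have hFh := fun i => homog_of_endo hF i
  have h2 : (2 : ℝ) ≤ d := by exact_mod_cast hF.two_le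
  obtain ⟨r, rfl⟩ : ∃ r, l = m + r := ⟨l - m, by omega⟩
  have hr : 0 < r := by omega
  set z := iter F w m with hz
  have hz0 : z ≠ 0 := iter_ne_zeroL hF hw m
  have h3 : aht (iter F z r) = aht z := by
    have h4 : iter F z r = iter F w (m + r) := by
      rw [hz, Nat.add_comm m r, Pool.Agent.Helper36.iter_add]
    rw [h4, hcw]
    exact aht_smul hc z
  have h5 : aht z ≤ C := by
    by_contra hcon
    push Not at hcon
    have h6 := hlow z hz0 r
    rw [h3] at h6
    have h7 : (2 : ℝ) ≤ (d : ℝ) ^ r := by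
      calc (2 : ℝ) ≤ d := h2
        _ = (d : ℝ) ^ 1 := (pow_one _).symm
        _ ≤ (d : ℝ) ^ r := pow_le_pow_right₀ (by linarith) hr
    nlinarith
  have h8 := hlow w hw m
  have h9 : (d : ℝ) ^ m * (aht w - C) ≤ 0 := by
    rw [← hz] at h8
    linarith
  have h10 : (0 : ℝ) < (d : ℝ) ^ m := by positivity
  by_contra hcon
  push Not at hcon
  have := mul_pos h10 (sub_pos.2 hcon)
  linarith

/-- **Curves with infinitely many preperiodic points**: the heights of the returns which are not the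
last one are bounded. -/
theorem aht_return_le_pre {d : ℕ} {F : Fin (ν + 1) → MvPolynomial (Fin (ν + 1)) A}
    (hF : IsEndo d fun i => map (algebraMap A ℂ) (F i))
    {I : Ideal (MvPolynomial (Fin (ν + 1)) A)} (hI : IsCurve I)
    (hnp : NonPer I F) (hmany : ManyPreA I F) (x : Fin (ν + 1) → A) :
    ∃ B : ℝ, ∀ i n, i < n → OnI I (iter F x i) → OnI I (iter F x n) →
      aht (iter F x i) ≤ B := by
  classical
  have : Infinite A := IsAlgClosed.instInfinite
  have hFh := fun i => homog_of_endo hF i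
  have hd : 0 < d := by have := hF.two_le; omega
  obtain ⟨S, hS1, hS2⟩ := exists_gens hI.prime hI.hom hnp
  obtain ⟨R₀, hR⟩ := hilb hI
  obtain ⟨C₁, hC₁, hper⟩ := pre_bound hF
  obtain ⟨C₂, hC₂, hlow⟩ := iter_lower hF
  choose e he hhe using fun h : S => (hS1 h.1 h.2).2
  set Λ : ℝ := Real.log (ν + 1) + ν * Real.log 4 with hΛ
  have hΛ0 : 0 ≤ Λ := by
    rw [hΛ]
    have h1 : 0 ≤ Real.log ((ν : ℝ) + 1) := Real.log_nonneg (by
      have : (0 : ℝ) ≤ ν := Nat.cast_nonneg _
      linarith)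
    have h2 : 0 ≤ Real.log 4 := Real.log_nonneg (by norm_num)
    positivity
  -- the bound for the point on the image
  have key : ∀ N, 0 < N → ∀ y : Fin (ν + 1) → A, OnI I y → OnI I (iter F y N) →
      aht (iter F y N) ≤ (d : ℝ) ^ N * ∑ h : S, R₀ * (2 * e h * C₁ + Cp h.1 + e h * Λ) := by
    intro N hN y hy hyN
    obtain ⟨h, hhS, hhJ⟩ := hS2 N hN
    let J := img F N I
    have hJp : J.IsPrime := img_prime hI.prime
    have hJh : Hom J := img_hom hd hFh hI.hom N
    let T : Set (Fin (ν + 1) → A) := {P | ∃ w : Fin (ν + 1) → A, OnI I w ∧ IsPre F w ∧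
      P = iter F w N}
    have hT0 : ∀ P ∈ T, P ≠ 0 := by
      rintro P ⟨w, hw, -, rfl⟩
      exact iter_ne_zeroL hF hw.1 N
    have hdense : ∀ (g : MvPolynomial (Fin (ν + 1)) A) (m : ℕ), g.IsHomogeneous m → g ∉ J →
        ∃ P ∈ T, eval P g ≠ 0 := by
      intro g m hg hgJ
      by_contra hcon
      push Not at hcon
      have h1 : pull F N g ∉ I := fun h => hgJ (mem_img.2 h)
      obtain ⟨B, hB⟩ := bound_points (k := A) hI (pull_isHomogeneous hFh hg N) h1
      obtain ⟨w, hw, hne⟩ := hmany (B + 1)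
      have h2 := hB A (B + 1) w (fun j => ⟨(hw j).1, ?_⟩) hne
      · omega
      · rw [Pool.Agent.Helper38.TNA.aeval_pull]
        exact hcon (iter F (w j) N) ⟨w j, (hw j).1, (hw j).2, rfl⟩
    have hTJ : ∀ P ∈ T, ∀ g ∈ J, eval P g = 0 := by
      rintro P ⟨w, hw, -, rfl⟩ g hg
      have h1 := Pool.Agent.Helper38.TNA.aeval_pull (L := A) F g N w
      have h2 := hw.2 _ (mem_img.1 hg)
      rw [h1] at h2
      exact h2
    have hTs : ∀ P ∈ T, aht P ≤ C₁ := by
      rintro P ⟨w, hw, hw2, rfl⟩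
      exact hper (iter F w N) (iter_ne_zeroL hF hw.1 N) (pre_iter hFh hw2 N)
    have hRJ : ∀ m, R J m ≤ R₀ * d ^ N * m + R₀ := by
      intro m
      calc R J m ≤ R I (m * d ^ N) := R_img_le hFh I N m
        _ ≤ R₀ * (m * d ^ N) + R₀ := hR _
        _ = _ := by ring
    have h3 := zhang_bezout_number hJp hJh hRJ (he ⟨h, hhS⟩) (hhe ⟨h, hhS⟩) hhJ hC₁ hT0 hTJ
      hdense hTs (y := iter F y N) hyN.1 (fun g hg => by
        have h4 := Pool.Agent.Helper38.TNA.aeval_pull (L := A) F g N y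
        have h5 := hy.2 _ (mem_img.1 hg)
        rw [h4] at h5
        exact h5) (hyN.2 h (hS1 h hhS).1)
    refine h3.trans ?_
    have h5 : (R₀ : ℝ) * (2 * e ⟨h, hhS⟩ * C₁ + Cp h + e ⟨h, hhS⟩ * Λ) ≤
        ∑ h : S, (R₀ : ℝ) * (2 * e h * C₁ + Cp h.1 + e h * Λ) :=
      Finset.single_le_sum (f := fun h : S => (R₀ : ℝ) * (2 * e h * C₁ + Cp h.1 + e h * Λ))
        (fun i _ => by
          have := Cp_nonneg i.1
          positivity) (Finset.mem_univ (⟨h, hhS⟩ : S))
    push_cast
    calc (R₀ : ℝ) * (d : ℝ) ^ N * (2 * e ⟨h, hhS⟩ * C₁ + Cp h +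
          e ⟨h, hhS⟩ * (Real.log (ν + 1) + ν * Real.log 4)) =
        (d : ℝ) ^ N * (R₀ * (2 * e ⟨h, hhS⟩ * C₁ + Cp h + e ⟨h, hhS⟩ * Λ)) := by
          rw [hΛ]; ring
      _ ≤ _ := mul_le_mul_of_nonneg_left h5 (by positivity)
  refine ⟨(∑ h : S, R₀ * (2 * e h * C₁ + Cp h.1 + e h * Λ)) + C₂, fun i n hin hi hn => ?_⟩
  obtain ⟨N, rfl⟩ : ∃ N, n = i + N := ⟨n - i, by omega⟩
  have hN : 0 < N := by omega
  have h1 : iter F x (i + N) = iter F (iter F x i) N := by
    rw [Nat.add_comm i N, Pool.Agent.Helper36.iter_add]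
  rw [h1] at hn
  have h2 := key N hN _ hi hn
  have h3 := hlow _ hi.1 N
  have hdN : (0 : ℝ) < (d : ℝ) ^ N := by positivity
  have h4 : (d : ℝ) ^ N * (aht (iter F x i) - C₂) ≤
      (d : ℝ) ^ N * ∑ h : S, R₀ * (2 * e h * C₁ + Cp h.1 + e h * Λ) := by linarith
  have h5 := le_of_mul_le_mul_left h4 hdN
  linarith

/-- On a curve which is not periodic but contains many preperiodic points there are only finitely
many points of an infinite orbit. -/
theorem caseP {d : ℕ} {F : Fin (ν + 1) → MvPolynomial (Fin (ν + 1)) A}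
    (hF : IsEndo d fun i => map (algebraMap A ℂ) (F i))
    {I : Ideal (MvPolynomial (Fin (ν + 1)) A)} (hI : IsCurve I)
    (hnp : NonPer I F) (hmany : ManyPreA I F) {x : Fin (ν + 1) → A} (hx : x ≠ 0)
    (hdist : ∀ n m, n < m → ¬ PEq (iter F x n) (iter F x m)) :
    {n | OnI I (iter F x n)}.Finite := by
  obtain ⟨B, hB⟩ := aht_return_le_pre hF hI hnp hmany x
  obtain ⟨n₁, hn₁⟩ := aht_tendsto hF hx hdist B
  by_cases h : ∃ i, n₁ ≤ i ∧ OnI I (iter F x i)
  · obtain ⟨i, hi, hiI⟩ := h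
    refine (Set.finite_Iic i).subset fun n hn => ?_
    rw [Set.mem_Iic]
    by_contra hcon
    push Not at hcon
    have h1 := hB i n hcon hiI hn
    have h2 := hn₁ i hi
    linarith
  · push Not at h
    refine (Set.finite_Iio n₁).subset fun n hn => ?_
    rw [Set.mem_Iio]
    by_contra hcon
    push Not at hcon
    exact h n hcon hn

end Pool.Agent.Helper45.NZ

end

section

namespace Pool.Agent.Helper36
end Pool.Agent.Helper36
namespace Pool.Agent.Helper38.TQ
end Pool.Agent.Helper38.TQ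
namespace Pool.Agent.Helper63.TN
end Pool.Agent.Helper63.TN
namespace Pool.Agent.Helper45.NZ
end Pool.Agent.Helper45.NZ

set_option autoImplicit false

namespace Pool.Agent.Helper72.TH

open MvPolynomial Filter Topology

open Pool.Agent.Helper36 (step iter)

open Pool.Agent.Helper38.TQ (IsEndo PEq CurveSet)

variable {ν : ℕ}

section

open Pool.Agent.Helper36 (iter_succ iter_add APSet APSet_of_evClosed mapLin mapLin_isHomogeneous eval_eq_zero_iff_mapLin)

open Pool.Agent.Helper38.TQ (OnCurve eval_map_k iter_ne_zero)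

open Pool.Agent.Helper63.TN (OnI IsCurve NonPer van pull van_form van_hom van_curve van_on aeval_pull pull_hom zeros_finite)

open Pool.Agent.Helper45.NZ (ManyPreA IsPre caseP)

variable {A : Type} [Field A]

/-- A point is on the curve if all forms of the ideal vanish. -/
theorem onI_of_forms {I : Ideal (MvPolynomial (Fin (ν + 1)) A)}
    (hI : ∀ G ∈ I, ∀ m, homogeneousComponent m G ∈ I) {L : Type}
    [Field L] [Algebra A L] {u : Fin (ν + 1) → L} (hu : u ≠ 0)
    (h : ∀ G ∈ I, ∀ e, G.IsHomogeneous e → aeval u G = 0) : OnI I u := by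
  refine ⟨hu, fun G hG => ?_⟩
  rw [← sum_homogeneousComponent G, map_sum]
  exact Finset.sum_eq_zero fun m _ =>
    h _ (hI G hG m) m (homogeneousComponent_isHomogeneous m G)

/-- The closed set swept out by a subsequence is contained in the given closed set. -/
theorem zero_of_onI [Infinite A] [Algebra A ℂ] {U : Ultrafilter ℕ} {x : ℕ → Fin (ν + 1) → A}
    {V : Set (MvPolynomial (Fin (ν + 1)) ℂ)} (hV : ∀ g ∈ V, ∃ e : ℕ, g.IsHomogeneous e)
    (hU : ∀ᶠ n in (U : Filter ℕ), ∀ g ∈ V, eval (fun i => algebraMap A ℂ (x n i)) g = 0) {n : ℕ}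
    (hn : OnI (van U x) (x n)) : ∀ g ∈ V, eval (fun i => algebraMap A ℂ (x n i)) g = 0 := by
  intro g hg
  rw [eval_eq_zero_iff_mapLin (K := A)]
  intro ρ
  obtain ⟨e, he⟩ := hV g hg
  have h1 : mapLin ρ g ∈ van U x := by
    rw [van_form (mapLin_isHomogeneous ρ he)]
    filter_upwards [hU] with m hm
    exact (eval_eq_zero_iff_mapLin g (x m)).1 (hm g hg) ρ
  exact hn.2 _ h1

theorem endo_desc [Algebra A ℂ] {d : ℕ} {F : Fin (ν + 1) → MvPolynomial (Fin (ν + 1)) A}
    (hF : IsEndo d fun i => map (algebraMap A ℂ) (F i)) : IsEndo d F := by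
  have hinj : Function.Injective (algebraMap A ℂ) := (algebraMap A ℂ).injective
  refine ⟨hF.two_le, fun i => IsHomogeneous.of_map hinj (hF.hom i), fun x hx => ?_⟩
  have h1 : (fun i => algebraMap A ℂ (x i)) = 0 := by
    apply hF.nz
    intro i
    rw [eval_map_k]
    have h2 : aeval (fun i => algebraMap A ℂ (x i)) (F i) =
      algebraMap A ℂ (aeval x (F i)) := aeval_algebraMap_apply (A := A) (B := ℂ) x (F i)
    rw [h2, aeval_eq_eval]
    have h3 : eval x (F i) = 0 := hx i
    rw [h3, map_zero]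
  funext i
  apply hinj
  have := congrFun h1 i
  simpa using this

/-- An ultrafilter of large elements of an infinite set. -/
theorem exists_ultra {E : Set ℕ} (hE : E.Infinite) :
    ∃ W : Ultrafilter ℕ, (W : Filter ℕ) ≤ atTop ∧ E ∈ (W : Filter ℕ) := by
  have h1 : (atTop ⊓ 𝓟 E : Filter ℕ).NeBot := by
    rw [← frequently_mem_iff_neBot]
    exact Nat.frequently_atTop_iff_infinite.2 hE
  refine ⟨Ultrafilter.of (atTop ⊓ 𝓟 E), (Ultrafilter.of_le _).trans inf_le_left, ?_⟩
  exact (Ultrafilter.of_le (atTop ⊓ 𝓟 E)) (mem_inf_of_right (mem_principal_self E))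

/-- A set of a free ultrafilter is infinite. -/
theorem infinite_of_mem {W : Ultrafilter ℕ} (hW : (W : Filter ℕ) ≤ atTop) {S : Set ℕ}
    (hS : S ∈ (W : Filter ℕ)) : S.Infinite := by
  intro hfin
  obtain ⟨b, hb⟩ := hfin.bddAbove
  obtain ⟨n, hn, hn'⟩ := (inter_mem hS (hW (Ioi_mem_atTop b)) |> fun h =>
    (W : Filter ℕ).nonempty_of_mem h)
  have := hb hn
  have : b < n := hn'
  omega

/-- **A curve which contains infinitely many points of an orbit and infinitely many preperiodic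
points**, over the algebraic numbers: all return sets are finite unions of progressions. -/
theorem prog_of_many [IsAlgClosed A] [CharZero A] [Algebra.IsAlgebraic ℚ A] [Algebra A ℂ] {d : ℕ}
    {F : Fin (ν + 1) → MvPolynomial (Fin (ν + 1)) A}
    (hF : IsEndo d fun i => map (algebraMap A ℂ) (F i)) {x : Fin (ν + 1) → A} (hx : x ≠ 0)
    (hdist : ∀ n m, n < m → ¬ PEq (iter F x n) (iter F x m))
    {U : Ultrafilter ℕ} (hU : (U : Filter ℕ) ≤ atTop) (hcur : OnCurve U (iter F x))
    (hmany : ManyPreA (van U (iter F x)) F)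
    {V : Set (MvPolynomial (Fin (ν + 1)) ℂ)} (hV : ∀ g ∈ V, ∃ e : ℕ, g.IsHomogeneous e) :
    ∃ T, {n | ∀ g ∈ V, eval (fun i => algebraMap A ℂ (iter F x n i)) g = 0} = APSet T := by
  classical
  have hFA := endo_desc hF
  have hFh : ∀ i, (F i).IsHomogeneous d := fun i => hFA.hom i
  have hinfA : Infinite A := IsAlgClosed.instInfinite
  have hne : ∀ n, iter F x n ≠ 0 := fun n => iter_ne_zero hFA hx n
  set I := van U (iter F x) with hI'
  have hI : IsCurve I := van_curve (k := A) hne hcur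
  have hon : ∀ᶠ n in (U : Filter ℕ), OnI I (iter F x n) := van_on hne
  have hper : ∃ M, 0 < M ∧ ∀ h ∈ I, ∀ e, h.IsHomogeneous e → pull F M h ∈ I := by
    by_contra hcon
    push Not at hcon
    have hnp : NonPer I F := by
      intro M hM
      obtain ⟨h, hh, e, he, hh'⟩ := hcon M hM
      exact ⟨h, hh, e, he, hh'⟩
    exact infinite_of_mem hU hon (caseP hF hI hnp hmany hx hdist)
  obtain ⟨M, hM, hM'⟩ := hper
  obtain ⟨n₀, hn₀⟩ := hon.exists
  have hfw : ∀ k, OnI I (iter F x (n₀ + k * M)) := by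
    intro k
    induction k with
    | zero => simpa using hn₀
    | succ k ih =>
      refine onI_of_forms hI.hom (hne _) fun G hG e he => ?_
      have h1 := ih.2 _ (hM' G hG e he)
      rw [aeval_pull, ← iter_add] at h1
      rw [show n₀ + (k + 1) * M = M + (n₀ + k * M) by ring]
      exact h1
  apply APSet_of_evClosed hM
  by_contra hinf
  obtain ⟨W, hW, hWE⟩ := exists_ultra hinf
  -- the residue class
  obtain ⟨r, hr⟩ : ∃ r, {n | ∃ k, n = n₀ + r + k * M} ∈ (W : Filter ℕ) := by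
    have h1 : (⋃ r ∈ Set.Iio M, {n | ∃ k, n = n₀ + r + k * M}) ∈ (W : Filter ℕ) := by
      refine mem_of_superset (hW (Ici_mem_atTop n₀)) ?_
      intro n hn
      have hn' : n₀ ≤ n := hn
      rw [Set.mem_iUnion₂]
      refine ⟨(n - n₀) % M, Nat.mod_lt _ hM, (n - n₀) / M, ?_⟩
      have h2 := Nat.mod_add_div (n - n₀) M
      have h3 : M * ((n - n₀) / M) = (n - n₀) / M * M := Nat.mul_comm _ _
      omega
    obtain ⟨r, -, hr⟩ := (Ultrafilter.finite_biUnion_mem_iff (Set.finite_Iio M)).1 h1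
    exact ⟨r, hr⟩
  -- the curve of the residue class
  have hJ : ∀ k, OnI (van W (iter F x)) (iter F x (n₀ + r + k * M)) := by
    intro k
    refine onI_of_forms (fun G hG m => van_hom hG m) (hne _) fun G hG e he => ?_
    have hGW := (van_form he).1 hG
    have hpe : ∀ j, aeval (iter F x (n₀ + j * M)) (pull F r G) =
        aeval (iter F x (n₀ + r + j * M)) G := by
      intro j
      rw [aeval_pull, ← iter_add, show r + (n₀ + j * M) = n₀ + r + j * M by ring]
    have hmem : pull F r G ∈ I := by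
      by_contra hcon
      have h1 := zeros_finite hI (pull_hom hFh r he) hcon (fun k => iter F x (n₀ + k * M)) (by
        intro k k' hkk h
        rcases lt_or_gt_of_ne hkk with h2 | h2
        · exact hdist _ _ (by
            have := Nat.mul_lt_mul_of_pos_right h2 hM
            omega) h
        · exact hdist _ _ (by
            have := Nat.mul_lt_mul_of_pos_right h2 hM
            omega) h.symm)
      have h2 : {n | ∃ k, n = n₀ + r + k * M ∧ aeval (iter F x n) G = 0}.Infinite := by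
        refine infinite_of_mem hW ?_
        filter_upwards [hr, hGW] with n hn hn'
        obtain ⟨k, hk⟩ := hn
        refine ⟨k, hk, ?_⟩
        rw [aeval_eq_eval]
        exact hn'
      apply h2
      refine (h1.image fun k => n₀ + r + k * M).subset ?_
      rintro n ⟨k, rfl, hk⟩
      refine ⟨k, ⟨hfw k, ?_⟩, rfl⟩
      rw [hpe]
      exact hk
    rw [← hpe]
    exact (hfw k).2 _ hmem
  obtain ⟨n, ⟨hnS, hnS'⟩, k, rfl⟩ := (W : Filter ℕ).nonempty_of_mem (inter_mem hWE hr)
  apply hnS'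
  have hS : ∀ᶠ n in (W : Filter ℕ), ∀ g ∈ V,
      eval (fun i => algebraMap A ℂ (iter F x n i)) g = 0 := by
    filter_upwards [hWE] with n hn
    exact hn.1
  have h3 := hJ (k + 1)
  rw [show n₀ + r + (k + 1) * M = n₀ + r + k * M + M by ring] at h3
  exact zero_of_onI hV hS h3

end

/-- A curve which contains infinitely many points of the orbit of `a` and infinitely many
preperiodic points is periodic (helper45: `Helper45.NZ.caseP`), so all return sets of `a` are finite
unions of progressions. `T = vanK 𝒰 (iter f a)` consists of all forms over `ℂ` that vanish at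
almost all points of the orbit. -/
theorem dml_of_many_pre {d : ℕ} {f : Fin (ν + 1) → MvPolynomial (Fin (ν + 1)) ℂ} (hf : IsEndo d f)
    (hfa : ∀ i m, IsAlgebraic ℚ ((f i).coeff m))
    {a : Fin (ν + 1) → ℂ} (ha : a ≠ 0) {c : ℂ} (hc : c ≠ 0)
    (haa : ∀ i, IsAlgebraic ℚ (c * a i))
    (hprea : ¬ ∃ n m, n < m ∧ PEq (iter f a n) (iter f a m))
    {𝒰 : Ultrafilter ℕ} (h𝒰 : (𝒰 : Filter ℕ) ≤ atTop)
    {V : Set (MvPolynomial (Fin (ν + 1)) ℂ)} (hV : ∀ g ∈ V, ∃ e, g.IsHomogeneous e)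
    (hcur : CurveSet V) (hUV : ∀ᶠ n in (𝒰 : Filter ℕ), ∀ g ∈ V, eval (iter f a n) g = 0)
    {p : ℕ → Fin (ν + 1) → ℂ} (hp0 : ∀ n, p n ≠ 0)
    (hpT : ∀ n, ∀ g ∈ vanK 𝒰 (fun n => iter f a n), eval (p n) g = 0)
    (hpne : ∀ n m, n ≠ m → ¬ PEq (p n) (p m))
    (hpre : ∀ n, ∃ s t, s < t ∧ PEq (iter f (p n) s) (iter f (p n) t))
    {V' : Set (MvPolynomial (Fin (ν + 1)) ℂ)} (hV' : ∀ g ∈ V', ∃ e, g.IsHomogeneous e) :
    ∃ T : Finset (ℕ × ℕ), {n : ℕ | ∀ g ∈ V', eval (iter f a n) g = 0} =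
      {n : ℕ | ∃ q ∈ T, ∃ m : ℕ, n = q.1 * m + q.2} := by
  classical
  let A : Type := algebraicClosure ℚ ℂ
  have hAcl : IsAlgClosed A :=
    (IsAlgClosed.algebraicClosure_eq_bot_iff (algebraicClosure ℚ ℂ) ℂ).1
      (algebraicClosure.algebraicClosure_eq_bot ℚ ℂ)
  have hinj : Function.Injective (algebraMap A ℂ) := (algebraMap A ℂ).injective
  have hch : CharZero A := charZero_of_injective_algebraMap (R := ℚ) (A := A)
    (algebraMap ℚ A).injective
  have hal : Algebra.IsAlgebraic ℚ A := by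
    have h1 : @Algebra.IsAlgebraic ℚ A _ _ (algebraicClosure ℚ ℂ).algebra' :=
      algebraicClosure.isAlgebraic ℚ ℂ
    have h0 : (algebraicClosure ℚ ℂ).algebra' = (DivisionRing.toRatAlgebra : Algebra ℚ A) :=
      Subsingleton.elim _ _
    rw [h0] at h1
    exact h1
  have hinfA : Infinite A := IsAlgClosed.instInfinite
  have hlift : ∀ i, ∃ F : MvPolynomial (Fin (ν + 1)) A,
      MvPolynomial.map (algebraMap A ℂ) F = f i := by
    intro i
    refine ⟨∑ m ∈ (f i).support, MvPolynomial.monomial m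
      (⟨(f i).coeff m, mem_algebraicClosure_iff.2 (hfa i m)⟩ : A), ?_⟩
    rw [map_sum]
    conv_rhs => rw [(f i).as_sum]
    refine Finset.sum_congr rfl fun m _ => ?_
    rw [MvPolynomial.map_monomial]
    rfl
  choose F hFf using hlift
  have hff : (fun i => map (algebraMap A ℂ) (F i)) = f := funext hFf
  have hF : IsEndo d fun i => map (algebraMap A ℂ) (F i) := by
    rw [hff]
    exact hf
  have hFA := endo_desc hF
  set x : Fin (ν + 1) → A := fun i => ⟨c * a i, mem_algebraicClosure_iff.2 (haa i)⟩ with hx'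
  have hxa : (fun i => algebraMap A ℂ (x i)) = c • a := rfl
  have hx : x ≠ 0 := by
    intro h
    apply ha
    have h1 : c • a = 0 := by
      rw [← hxa, h]
      funext i
      simp
    exact (smul_eq_zero.1 h1).resolve_left hc
  -- iterates
  have hit0 : ∀ (z : Fin (ν + 1) → ℂ) n, iter f z n = iter F z n := by
    intro z n
    induction n with
    | zero => rfl
    | succ n ih =>
      rw [Pool.Agent.Helper36.iter_succ, Pool.Agent.Helper36.iter_succ, ih]
      funext i
      show aeval _ (f i) = aeval _ (F i)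
      rw [← hFf i, aeval_map_algebraMap]
  have hit : ∀ n, (fun i => algebraMap A ℂ (iter F x n i)) = c ^ d ^ n • iter f a n := by
    intro n
    have h1 : iter F (fun i => algebraMap A ℂ (x i)) n =
        fun i => algebraMap A ℂ (iter F x n i) :=
      Pool.Agent.Helper36.iter_map F (Algebra.ofId A ℂ) x n
    rw [← h1, hxa, ← hit0, Pool.Agent.Helper38.TQ.iter_smul hf]
  have hcn : ∀ n, c ^ d ^ n ≠ 0 := fun n => pow_ne_zero _ hc
  have hev : ∀ (g : MvPolynomial (Fin (ν + 1)) ℂ), (∃ e, g.IsHomogeneous e) → ∀ n,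
      eval (fun i => algebraMap A ℂ (iter F x n i)) g = 0 ↔ eval (iter f a n) g = 0 := by
    rintro g ⟨e, he⟩ n
    rw [hit, Pool.Agent.Helper38.TQ.eval_smul_hom he]
    constructor
    · exact fun h => (mul_eq_zero.1 h).resolve_left (pow_ne_zero _ (hcn n))
    · intro h
      rw [h, mul_zero]
  have hne : ∀ n, iter F x n ≠ 0 := fun n => Pool.Agent.Helper38.TQ.iter_ne_zero hFA hx n
  have hdist : ∀ n m, n < m → ¬ PEq (iter F x n) (iter F x m) := by
    rintro n m hnm ⟨b, hb, h⟩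
    apply hprea
    refine ⟨n, m, hnm, (c ^ d ^ m)⁻¹ * algebraMap A ℂ b * c ^ d ^ n,
      mul_ne_zero (mul_ne_zero (inv_ne_zero (hcn m)) ((map_ne_zero _).2 hb)) (hcn n), ?_⟩
    have h1 : c ^ d ^ m • iter f a m = algebraMap A ℂ b • (c ^ d ^ n • iter f a n) := by
      rw [← hit, ← hit, h]
      funext i
      simp
    rw [mul_assoc, mul_smul, mul_smul, ← h1, smul_smul, inv_mul_cancel₀ (hcn m), one_smul]
  have hOn : Pool.Agent.Helper38.TQ.OnCurve 𝒰 (iter F x) := by
    refine hcur A (iter F x) 𝒰 ?_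
    filter_upwards [hUV] with n hn g hg
    exact (hev g (hV g hg) n).2 (hn g hg)
  have hI : Pool.Agent.Helper63.TN.IsCurve (Pool.Agent.Helper63.TN.van 𝒰 (iter F x)) :=
    Pool.Agent.Helper63.TN.van_curve (k := A) hne hOn
  -- the preperiodic points
  have hpt : ∀ n, ∃ (w : Fin (ν + 1) → A) (b : ℂ), b ≠ 0 ∧
      p n = b • (fun i => algebraMap A ℂ (w i)) ∧
      Pool.Agent.Helper63.TN.OnI (Pool.Agent.Helper63.TN.van 𝒰 (iter F x)) w ∧
      Pool.Agent.Helper45.NZ.IsPre F w := by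
    intro n
    obtain ⟨s, t, hst, hPEq⟩ := hpre n
    rw [hit0, hit0] at hPEq
    obtain ⟨b', hb', h'⟩ := hPEq
    obtain ⟨w, b, hb, hw⟩ := Pool.Agent.Helper38.TQ.isConst_of_preper_complex hFA (hp0 n)
      ⟨s, t, hst, b', hb', h'⟩
    have hw' : p n = b • fun i => algebraMap A ℂ (w i) := hw
    have hw0 : w ≠ 0 := by
      rintro rfl
      apply hp0 n
      rw [hw']
      funext i
      simp
    refine ⟨w, b, hb, hw', ?_, ?_⟩
    · refine onI_of_forms hI.hom hw0 fun G hG e he => ?_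
      have h1 : eval (p n) (map (algebraMap A ℂ) G) = 0 := by
        apply hpT n
        refine ⟨⟨e, he.map _⟩, ?_⟩
        filter_upwards [(Pool.Agent.Helper63.TN.van_form he).1 hG] with m hm
        rw [← hev _ ⟨e, he.map _⟩, Pool.Agent.Helper38.TQ.eval_map_k]
        have h4 : aeval (fun i => algebraMap A ℂ (iter F x m i)) G =
            algebraMap A ℂ (aeval (iter F x m) G) :=
          aeval_algebraMap_apply (A := A) (B := ℂ) (iter F x m) G
        rw [h4, aeval_eq_eval, hm, map_zero]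
      rw [Pool.Agent.Helper38.TQ.eval_map_k, hw',
        Pool.Agent.Helper38.TQ.aeval_smul_hom he] at h1
      have h3 := (mul_eq_zero.1 h1).resolve_left (pow_ne_zero _ hb)
      have h4 : aeval (fun i => algebraMap A ℂ (w i)) G = algebraMap A ℂ (aeval w G) :=
        aeval_algebraMap_apply (A := A) (B := ℂ) w G
      rw [h4] at h3
      exact (map_eq_zero _).1 h3
    · refine ⟨s, t, hst, ?_⟩
      have h3 : PEq (iter F (p n) s) (iter F (p n) t) := ⟨b', hb', h'⟩
      have h4 : PEq (fun i => algebraMap A ℂ (w i)) (p n) := ⟨b, hb, hw'⟩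
      have h5 := ((Pool.Agent.Helper38.TQ.PEq.iter hFA h4 s).trans h3).trans
        (Pool.Agent.Helper38.TQ.PEq.iter hFA h4.symm t)
      have h6 : ∀ n, iter F (fun i => algebraMap A ℂ (w i)) n =
          fun i => algebraMap A ℂ (iter F w n i) := fun n =>
        Pool.Agent.Helper36.iter_map F (Algebra.ofId A ℂ) w n
      rw [h6, h6] at h5
      exact Pool.Agent.Helper38.TQ.PEq.descend (algebraMap A ℂ)
        (Pool.Agent.Helper38.TQ.iter_ne_zero hFA hw0 s)
        (Pool.Agent.Helper38.TQ.iter_ne_zero hFA hw0 t) h5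
  choose w b hb hw hwI hwp using hpt
  have hmany : Pool.Agent.Helper45.NZ.ManyPreA
      (Pool.Agent.Helper63.TN.van 𝒰 (iter F x)) F := by
    intro s
    refine ⟨fun j => w j, fun j => ⟨hwI j, hwp j⟩, fun i j hij h => ?_⟩
    obtain ⟨γ, hγ, h1⟩ := h
    apply hpne i j fun h => hij (Fin.ext h)
    refine ⟨b j * algebraMap A ℂ γ * (b i)⁻¹,
      mul_ne_zero (mul_ne_zero (hb j) ((map_ne_zero _).2 hγ)) (inv_ne_zero (hb i)), ?_⟩
    have h2 : w (j : ℕ) = γ • w (i : ℕ) := h1
    rw [hw j, hw i, h2, smul_smul, mul_assoc, mul_assoc, inv_mul_cancel₀ (hb i), mul_one,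
      mul_smul]
    congr 1
  obtain ⟨T, hT⟩ := prog_of_many hF hx hdist h𝒰 hOn hmany hV'
  refine ⟨T, ?_⟩
  have h1 : {n : ℕ | ∀ g ∈ V', eval (iter f a n) g = 0} =
      {n | ∀ g ∈ V', eval (fun i => algebraMap A ℂ (iter F x n i)) g = 0} := by
    ext n
    exact forall₂_congr fun g hg => (hev g (hV' g hg) n).symm
  rw [h1, hT]
  rfl

end Pool.Agent.Helper72.TH

end

section

namespace Pool.Agent.Helper36
end Pool.Agent.Helper36
namespace Pool.Agent.Helper38.TQ
end Pool.Agent.Helper38.TQ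

/-!
# Project TH: part (2) with a second alternative
-/

set_option autoImplicit false

namespace Pool.Agent.Helper72.TH

open MvPolynomial Filter Topology

open Pool.Agent.Helper36 (step iter)

open Pool.Agent.Helper38.TQ (IsEndo PEq CurveSet)

variable {ν : ℕ}

/-- Every infinite closed subset of the closed set of `V` contains a tame point or infinitely many
preperiodic points. -/
def Meets3 (f : Fin (ν + 1) → MvPolynomial (Fin (ν + 1)) ℂ)
    (V : Set (MvPolynomial (Fin (ν + 1)) ℂ)) : Prop :=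
  ∀ T : Set (MvPolynomial (Fin (ν + 1)) ℂ), (∀ g ∈ T, ∃ e, g.IsHomogeneous e) →
    (∀ p : Fin (ν + 1) → ℂ, (∀ g ∈ T, eval p g = 0) → ∀ g ∈ V, eval p g = 0) →
    (∃ p : ℕ → Fin (ν + 1) → ℂ, (∀ n, p n ≠ 0) ∧ (∀ n m, n ≠ m → ¬ PEq (p n) (p m)) ∧
      ∀ n, ∀ g ∈ T, eval (p n) g = 0) →
    (∃ p : Fin (ν + 1) → ℂ, p ≠ 0 ∧ (∀ g ∈ T, eval p g = 0) ∧ TamePt f p) ∨
      ∃ p : ℕ → Fin (ν + 1) → ℂ, (∀ n, p n ≠ 0) ∧ (∀ n m, n ≠ m → ¬ PEq (p n) (p m)) ∧
        (∀ n, ∀ g ∈ T, eval (p n) g = 0) ∧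
        ∀ n, ∃ s t, s < t ∧ PEq (iter f (p n) s) (iter f (p n) t)

/-- **Part (2)**, with a second alternative: infinitely many preperiodic points. -/
theorem final3 {d : ℕ} {f : Fin (ν + 1) → MvPolynomial (Fin (ν + 1)) ℂ} (hf : IsEndo d f)
    (hfa : ∀ i m, IsAlgebraic ℚ ((f i).coeff m))
    {a : Fin (ν + 1) → ℂ} (ha : a ≠ 0) {c : ℂ} (hc : c ≠ 0)
    (haa : ∀ i, IsAlgebraic ℚ (c * a i)) {V : Set (MvPolynomial (Fin (ν + 1)) ℂ)}
    (hV : ∀ g ∈ V, ∃ e, g.IsHomogeneous e) (hcur : CurveSet V) (hmeet : Meets3 f V)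
    (hinf : {n : ℕ | ∀ g ∈ V, eval ((fun (x : Fin (ν + 1) → ℂ)
        (i : Fin (ν + 1)) => eval x (f i))^[n] a) g = 0}.Infinite)
    {V' : Set (MvPolynomial (Fin (ν + 1)) ℂ)} (hV' : ∀ g ∈ V', ∃ e, g.IsHomogeneous e) :
    ∃ T : Finset (ℕ × ℕ), {n : ℕ | ∀ g ∈ V', eval ((fun (x : Fin (ν + 1) → ℂ)
        (i : Fin (ν + 1)) => eval x (f i))^[n] a) g = 0} =
      {n : ℕ | ∃ q ∈ T, ∃ m : ℕ, n = q.1 * m + q.2} := by
  classical
  have hb : (fun i => c * a i) ≠ 0 := by
    intro h
    apply ha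
    funext i
    exact (mul_eq_zero.1 (congrFun h i)).resolve_left hc
  -- the orbit of the point
  have horb : ∀ n, (fun (x : Fin (ν + 1) → ℂ) (i : Fin (ν + 1)) => eval x (f i))^[n] a =
      iter f a n := by
    intro n
    rfl
  simp only [horb] at hinf ⊢
  have hne : ∀ n, iter f a n ≠ 0 := by
    intro n
    induction n with
    | zero => exact ha
    | succ n ih =>
      rw [Pool.Agent.Helper36.iter_succ]
      intro h
      exact ih (hf.nz _ fun i => congrFun h i)
  -- the preperiodic case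
  by_cases hprea : ∃ n m, n < m ∧ PEq (iter f a n) (iter f a m)
  · obtain ⟨n, m, hnm, hp⟩ := hprea
    have h1 : (fun i => map (algebraMap ℂ ℂ) (f i)) = f := by
      funext i
      rw [Algebra.algebraMap_self, MvPolynomial.map_id]
    have h2 := Pool.Agent.Helper72.PN.MainN_preper (K := ℂ) (F := f) (d := d) (by
      rw [h1]
      exact hf) a hnm hp V' hV'
    exact h2
  have hNB : (atTop ⊓ Filter.principal {n : ℕ | ∀ g ∈ V, eval (iter f a n) g = 0}).NeBot := by
    rw [← Nat.cofinite_eq_atTop]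
    exact hinf.cofinite_inf_principal_neBot
  set 𝒰 : Ultrafilter ℕ := Ultrafilter.of (atTop ⊓ Filter.principal
      {n : ℕ | ∀ g ∈ V, eval (iter f a n) g = 0}) with h𝒰d
  have hle : (𝒰 : Filter ℕ) ≤ atTop ⊓ Filter.principal
      {n : ℕ | ∀ g ∈ V, eval (iter f a n) g = 0} := Ultrafilter.of_le _
  have h𝒰 : (𝒰 : Filter ℕ) ≤ atTop := hle.trans inf_le_left
  have hUV : ∀ᶠ n in (𝒰 : Filter ℕ), ∀ g ∈ V, eval (iter f a n) g = 0 :=
    (hle.trans inf_le_right) (Filter.mem_principal_self _)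
  -- the closure
  obtain ⟨φ, hφ⟩ : ∃ φ : ℕ → ℕ, Function.Injective φ ∧
      ∀ i, ∀ g ∈ vanK 𝒰 (fun n => iter f a n), eval (iter f a (φ i)) g = 0 := by
    have h1 : {n | ∀ g ∈ vanK 𝒰 (fun n => iter f a n), eval (iter f a n) g = 0}.Infinite := by
      intro hfin
      have h2 := vanK_mem 𝒰 (fun n => iter f a n)
      have h3 : ∀ᶠ n in atTop,
          n ∉ {n | ∀ g ∈ vanK 𝒰 (fun n => iter f a n), eval (iter f a n) g = 0} := by
        rw [← Nat.cofinite_eq_atTop]
        exact hfin.compl_mem_cofinite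
      obtain ⟨n, hn1, hn2⟩ := (h2.and (h𝒰 h3)).exists
      exact hn2 hn1
    refine ⟨fun i => (h1.natEmbedding _ i : ℕ), ?_, fun i => (h1.natEmbedding _ i).2⟩
    intro i j hij
    exact (h1.natEmbedding _).injective (Subtype.ext hij)
  have hmeet' := hmeet (vanK 𝒰 (fun n => iter f a n))
    (fun g hg => hg.1)
    (fun p hp g hg => hp g ⟨hV g hg, by
      filter_upwards [hUV] with n hn
      exact hn g hg⟩)
    ⟨fun i => iter f a (φ i), fun i => hne (φ i), fun i j hij h => by
        rcases lt_or_gt_of_ne fun h2 => hij (hφ.1 h2) with h2 | h2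
        · exact hprea ⟨_, _, h2, h⟩
        · exact hprea ⟨_, _, h2, h.symm⟩,
      fun i g hg => hφ.2 i g hg⟩
  rcases hmeet' with ⟨p, hp0, hpT, k, Z, hZ, s, hps⟩ | ⟨p, hp0, hpne, hpT, hpre⟩
  swap
  · exact dml_of_many_pre hf hfa ha hc haa hprea h𝒰 hV hcur hUV hp0 hpT hpne hpre hV'
  -- the number field
  have hZ1 : ChainS f (Pool.Agent.Helper30.TKN.jf f * 1) k Z := by
    rw [mul_one]
    exact hZ
  obtain ⟨K, hK, F, R', x, n, W, δ, S, hFf, hR', hx, hx0, hch, hSZ⟩ :=
    exists_dataN hf hfa (R := 1) (fun m => by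
      rw [coeff_one]
      split_ifs
      · exact isAlgebraic_one
      · exact isAlgebraic_zero) hZ1 hb haa
  have hR1 : R' = 1 := map_injective _ (algebraMap K ℂ).injective (hR'.trans (map_one _).symm)
  rw [hR1, mul_one] at hch
  have hF : IsEndo d fun i => map (algebraMap K ℂ) (F i) := by
    rw [hFf]
    exact hf
  have h3 : (fun i => c⁻¹ * algebraMap K ℂ (x i)) = a := by
    funext i
    rw [show algebraMap K ℂ (x i) = c * a i from congrFun hx i, ← mul_assoc, inv_mul_cancel₀ hc,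
      one_mul]
  have h4 : (fun (x : Fin (ν + 1) → ℂ) (i : Fin (ν + 1)) =>
      eval x (map (algebraMap K ℂ) (F i))) = fun x i => eval x (f i) := by
    funext x i
    rw [← hFf]
  have h5 : ∀ n, iter f a n = c⁻¹ ^ d ^ n • fun i => algebraMap K ℂ (iter F x n i) := by
    intro n
    rw [← horb]
    have h6 := Pool.Agent.Helper72.PN.MainN_orbit hF x c⁻¹ n
    rw [h3, h4] at h6
    exact h6
  have hcn : ∀ n, c⁻¹ ^ d ^ n ≠ 0 := fun n => pow_ne_zero _ (inv_ne_zero hc)
  have h7 : ∀ (g : MvPolynomial (Fin (ν + 1)) ℂ) (e : ℕ), g.IsHomogeneous e → ∀ n,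
      eval (iter f a n) g = 0 → eval (fun i => algebraMap K ℂ (iter F x n i)) g = 0 := by
    intro g e hg n hn
    rw [h5, Pool.Agent.Helper38.TQ.eval_smul_hom hg, mul_eq_zero] at hn
    exact hn.resolve_left (pow_ne_zero _ (hcn n))
  have h8 : ∀ (g : MvPolynomial (Fin (ν + 1)) ℂ) (e : ℕ), g.IsHomogeneous e → ∀ n,
      eval (fun i => algebraMap K ℂ (iter F x n i)) g = 0 → eval (iter f a n) g = 0 := by
    intro g e hg n hn
    rw [h5, Pool.Agent.Helper38.TQ.eval_smul_hom hg, hn, mul_zero]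
  have h1 := dml_of_nonpre hF (x := x) c⁻¹ (inv_ne_zero hc) hV' fun hpre _ =>
    mainC hF hch hx0 hpre h𝒰 hcur (by
      filter_upwards [hUV] with n hn g hg
      obtain ⟨e, he⟩ := hV g hg
      exact h7 g e he n (hn g hg)) hp0 (fun g e hg hgU => by
        have h9 := hpT (map (algebraMap K ℂ) g) ⟨⟨e, hg.map _⟩, by
          filter_upwards [hgU] with n hn
          refine h8 _ e (hg.map _) n ?_
          rw [← Pool.Agent.Helper38.Sym.map_eval_gen, hn, map_zero]⟩
        rw [eval_map] at h9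
        exact h9) (s := s) (fun j hj => by
        have h9 := hps _ ((hSZ 0 (Nat.zero_le k)).1 j hj)
        rw [← hFf, Pool.Agent.Helper38.TQ.iter_map_base F p s, eval_map] at h9
        exact h9)
  rw [h3, h4] at h1
  exact h1

end Pool.Agent.Helper72.TH

end

section

namespace Pool.Agent.Helper16
end Pool.Agent.Helper16
namespace Pool.Agent.Helper36
end Pool.Agent.Helper36
namespace Pool.Agent.Helper38.TQ
end Pool.Agent.Helper38.TQ
namespace Pool.Agent.Helper30.TKN
end Pool.Agent.Helper30.TKN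
namespace Pool.Agent.Helper38.TQK
end Pool.Agent.Helper38.TQK

/-!
# Curves in projective space: all points of unbounded height, elementary form
-/

set_option autoImplicit false

namespace Pool.Agent.Helper38.TNA

open MvPolynomial

open Pool.Agent.Helper16 (Place IsFunctionField)

open Pool.Agent.Helper36 (step iter iter_zero iter_succ iter_succ' iter_add iter_map)

open Pool.Agent.Helper38.TQ

open Pool.Agent.Helper30.TKN

open Pool.Agent.Helper38.TQK

variable {ν : ℕ}

/-- The theorem on curves, with the format of finite unions of progressions used here. -/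
theorem tn_fu {k K : Type} [Field k] [IsAlgClosed k] [Field K] [Algebra k K] [Algebra k ℂ]
    [Algebra K ℂ] [IsScalarTower k K ℂ] (hK : IsFunctionField k K) {d : ℕ}
    {F : Fin (ν + 1) → MvPolynomial (Fin (ν + 1)) K}
    (hF : IsEndo d fun i => map (algebraMap K ℂ) (F i)) {x : Fin (ν + 1) → K} (hx : x ≠ 0)
    (hunb : ∀ B : ℤ, ∃ n, B < Pool.Agent.Helper38.TQ.ht k (iter F x n)) (c : ℂ) (hc : c ≠ 0)
    {S₀ : Set (MvPolynomial (Fin (ν + 1)) ℂ)} (hS₀ : ∀ g ∈ S₀, ∃ e, g.IsHomogeneous e)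
    (hcurve : CurveSet S₀) :
    ∃ T : Finset (ℕ × ℕ), {n : ℕ | ∀ g ∈ S₀,
        eval ((fun (x : Fin (ν + 1) → ℂ) (i : Fin (ν + 1)) =>
          eval x (map (algebraMap K ℂ) (F i)))^[n] (fun i => c * algebraMap K ℂ (x i))) g = 0} =
      {n : ℕ | ∃ q ∈ T, ∃ m : ℕ, n = q.1 * m + q.2} := by
  classical
  obtain ⟨m, a, q, h⟩ := Pool.Agent.Helper63.TN.tn_dml hK hF hx hunb c hc hS₀ hcurve
  refine ⟨Finset.univ.image fun j => (q j, a j), ?_⟩
  ext n
  rw [Set.mem_setOf_eq, Set.mem_setOf_eq]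
  refine (h n).trans ?_
  constructor
  · rintro ⟨j, t, rfl⟩
    exact ⟨(q j, a j), Finset.mem_image_of_mem _ (Finset.mem_univ j), t, by ring⟩
  · rintro ⟨p, hp, t, rfl⟩
    obtain ⟨j, -, rfl⟩ := Finset.mem_image.1 hp
    exact ⟨j, t, by ring⟩

/-- **Curves, maps over the constants.** The return set of a point which is not defined over `k` to
a closed set of dimension at most one is a finite union of progressions. -/
theorem dml_curve_all {k : Type} [Field k] [IsAlgClosed k] [Algebra k ℂ] {d : ℕ}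
    {F : Fin (ν + 1) → MvPolynomial (Fin (ν + 1)) k} (hF : IsEndo d F)
    {a : Fin (ν + 1) → ℂ} (ha0 : a ≠ 0) (hac : ¬ IsConst k a)
    {S : Set (MvPolynomial (Fin (ν + 1)) ℂ)} (hS : ∀ g ∈ S, ∃ e, g.IsHomogeneous e)
    (hcur : CurveSet S) :
    ∃ T : Finset (ℕ × ℕ), {n : ℕ | ∀ g ∈ S, eval (iter F a n) g = 0} =
      {n : ℕ | ∃ q ∈ T, ∃ m : ℕ, n = q.1 * m + q.2} := by
  classical
  obtain ⟨i₀, hi₀⟩ := Function.ne_iff.1 ha0
  have hi₀' : a i₀ ≠ 0 := hi₀
  set v : Fin (ν + 1) → ℂ := (a i₀)⁻¹ • a with hv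
  have hv1 : v i₀ = 1 := by
    rw [hv, Pi.smul_apply, smul_eq_mul, inv_mul_cancel₀ hi₀']
  have hvc : ¬ IsConst k v := by rwa [hv, isConst_smul (inv_ne_zero hi₀')]
  obtain ⟨k', _, _, _, _, _, hvc', hK⟩ := exists_function_field v i₀ hv1 hvc
  set K := IntermediateField.adjoin k' (Set.range v)
  let y : Fin (ν + 1) → K := fun i => ⟨v i, IntermediateField.subset_adjoin _ _ ⟨i, rfl⟩⟩
  have hyv : (fun i => algebraMap K ℂ (y i)) = v := rfl
  have hy0 : y ≠ 0 := by
    intro h
    have h1 := congrArg (fun w : Fin (ν + 1) → K => algebraMap K ℂ (w i₀)) h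
    simp only [Pi.zero_apply, map_zero] at h1
    have h2 : algebraMap K ℂ (y i₀) = v i₀ := rfl
    rw [h2, hv1] at h1
    exact one_ne_zero h1
  have hyc : ¬ IsConst k' y := by
    rintro ⟨w, c, hc0, hw⟩
    apply hvc'
    refine ⟨w, algebraMap K ℂ c, by simpa using hc0, ?_⟩
    rw [← hyv, hw]
    funext i
    rw [map_mul, ← IsScalarTower.algebraMap_apply]
  have hF' := hF.map (k' := k')
  have hay : (fun i => a i₀ * algebraMap K ℂ (y i)) = a := by
    funext i
    have h6 : algebraMap K ℂ (y i) = (a i₀)⁻¹ * a i := rfl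
    rw [h6, ← mul_assoc, mul_inv_cancel₀ hi₀', one_mul]
  -- the map over `K`
  set FK : Fin (ν + 1) → MvPolynomial (Fin (ν + 1)) K := fun i =>
    map (algebraMap k' K) (map (algebraMap k k') (F i)) with hFK
  have hFKC : ∀ i, map (algebraMap K ℂ) (FK i) = map (algebraMap k ℂ) (F i) := by
    intro i
    rw [hFK]
    simp only [map_map]
    congr 2
    refine RingHom.ext fun c => ?_
    change algebraMap K ℂ (algebraMap k' K (algebraMap k k' c)) = algebraMap k ℂ c
    rw [← IsScalarTower.algebraMap_apply k' K ℂ, ← IsScalarTower.algebraMap_apply k k' ℂ]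
  have hFC : IsEndo d fun i => map (algebraMap K ℂ) (FK i) := by
    have h1 := hF.map (k' := ℂ)
    have h2 : (fun i => map (algebraMap K ℂ) (FK i)) = fun i => map (algebraMap k ℂ) (F i) :=
      funext hFKC
    rw [h2]
    exact h1
  have hitK : ∀ n, iter FK y n = iter (fun i => map (algebraMap k k') (F i)) y n := fun n =>
    iter_map_base _ y n
  have hunb : ∀ B : ℤ, ∃ n, B < Pool.Agent.Helper38.TQ.ht k' (iter FK y n) := by
    intro B
    refine ⟨B.toNat, ?_⟩
    rw [hitK]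
    exact (Int.self_le_toNat B).trans_lt (ht_iter_large hK hF' hy0 hyc _)
  have horb : ∀ n, iter F a n = (a i₀) ^ d ^ n • fun i => algebraMap K ℂ (iter FK y n i) := by
    intro n
    have h4 := orbit_eq (k' := k') (K := K) hF y (a i₀) n
    rw [hay] at h4
    rw [h4, hitK]
  have h2 := tn_fu hK hFC hy0 hunb (a i₀) hi₀' hS hcur
  obtain ⟨T, hT⟩ := h2
  refine ⟨T, ?_⟩
  rw [← hT]
  ext n
  have horb2 : (fun (x : Fin (ν + 1) → ℂ) (i : Fin (ν + 1)) => eval x
      (map (algebraMap K ℂ) (FK i)))^[n] (fun i => a i₀ * algebraMap K ℂ (y i)) =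
        iter F a n := by
    rw [orbit_complex hFC, horb]
  simp only [Set.mem_ofPred_eq, horb2]

end Pool.Agent.Helper38.TNA

end

section

namespace Pool.Agent.Helper36
end Pool.Agent.Helper36
namespace Pool.Agent.Helper38.TQ
end Pool.Agent.Helper38.TQ

/-!
# Project TH: points which are not algebraic
-/

set_option autoImplicit false

namespace Pool.Agent.Helper72.TH

open MvPolynomial

open Pool.Agent.Helper36 (step iter)

open Pool.Agent.Helper38.TQ (IsEndo PEq CurveSet IsConst)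

variable {ν : ℕ}

/-- The endomorphism is defined over the algebraic numbers. If the point is not, then the return
sets to closed sets of dimension at most one are finite unions of progressions. -/
theorem alg_or_dml {d : ℕ} {f : Fin (ν + 1) → MvPolynomial (Fin (ν + 1)) ℂ} (hf : IsEndo d f)
    (hfa : ∀ i m, IsAlgebraic ℚ ((f i).coeff m)) {a : Fin (ν + 1) → ℂ} (ha : a ≠ 0) :
    (∃ c : ℂ, c ≠ 0 ∧ ∀ i, IsAlgebraic ℚ (c * a i)) ∨
      ∀ V : Set (MvPolynomial (Fin (ν + 1)) ℂ), (∀ g ∈ V, ∃ e, g.IsHomogeneous e) → CurveSet V →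
        ∃ T : Finset (ℕ × ℕ), {n : ℕ | ∀ g ∈ V, eval (iter f a n) g = 0} =
          {n : ℕ | ∃ q ∈ T, ∃ m : ℕ, n = q.1 * m + q.2} := by
  classical
  let k : IntermediateField ℚ ℂ := algebraicClosure ℚ ℂ
  have hac : IsAlgClosed k := (algebraicClosure.isAlgClosure ℚ ℂ).isAlgClosed
  choose F hF using fun i => exists_liftF k (p := f i) fun m => mem_algebraicClosure_iff.2 (hfa i m)
  have hFf : (fun i => map (algebraMap k ℂ) (F i)) = f := funext hF
  have hFe : IsEndo d F := by
    refine ⟨hf.two_le, fun i => ?_, fun x hx => ?_⟩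
    · have h1 := hf.hom i
      rw [← hF i] at h1
      exact h1.of_map (algebraMap k ℂ).injective
    · have h1 : (fun i => algebraMap k ℂ (x i)) = 0 := by
        apply hf.nz
        intro i
        rw [← hF i, ← Pool.Agent.Helper38.Sym.map_eval_gen, hx i, map_zero]
      funext i
      have h2 := congrFun h1 i
      simpa using h2
  by_cases hc : IsConst k a
  · left
    obtain ⟨z, c, hc0, hz⟩ := hc
    refine ⟨c⁻¹, inv_ne_zero hc0, fun i => ?_⟩
    rw [hz, ← mul_assoc, inv_mul_cancel₀ hc0, one_mul]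
    exact mem_algebraicClosure_iff.1 (z i).2
  · right
    intro V hV hcur
    obtain ⟨T, hT⟩ := Pool.Agent.Helper38.TNA.dml_curve_all hFe ha hc hV hcur
    refine ⟨T, ?_⟩
    rw [← hT]
    have h1 : ∀ n, iter f a n = iter F a n := by
      intro n
      rw [← hFf]
      exact Pool.Agent.Helper38.TQ.iter_map_base F a n
    simp only [h1]

end Pool.Agent.Helper72.TH

end
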