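import Pool.Agent.Helper72.TM2.T55
import Pool.Agent.Helper72.TM2.T56
import Pool.Agent.Helper72.TM2.T58

section

namespace Pool.Agent.Helper36
end Pool.Agent.Helper36
namespace Pool.Agent.Helper38.TQ
end Pool.Agent.Helper38.TQ
namespace Pool.Agent.Helper30.TKN
end Pool.Agent.Helper30.TKN
namespace Pool.Agent.Helper30.RED
end Pool.Agent.Helper30.RED
namespace Pool.Agent.Helper30.THC
end Pool.Agent.Helper30.THC
namespace Pool.Agent.Helper30.TP
end Pool.Agent.Helper30.TP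
namespace Pool.Agent.Helper72.TH
end Pool.Agent.Helper72.TH

set_option autoImplicit false

namespace Pool.Agent.Helper30.THD

open MvPolynomial Filter

open Pool.Agent.Helper36 (step iter iter_zero iter_succ iter_succ' iter_add iter_map APSet APSet_univ)

open Pool.Agent.Helper38.TQ

open Pool.Agent.Helper30.TKN

open Pool.Agent.Helper30.RED

open Pool.Agent.Helper30.THC

open Pool.Agent.Helper30.TP (Free union_of_ultra)

open Pool.Agent.Helper72.TH (Chain vanK vanK_mem)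

variable {ν : ℕ}

/-- A progression in a finite union of progressions which is a member of the ultrafilter. -/
theorem exists_ap {U : Ultrafilter ℕ} {A : Finset (ℕ × ℕ)} (h : APSet A ∈ U) :
    ∃ q r : ℕ, {n | ∃ m, n = q * m + r} ∈ U ∧ {n | ∃ m, n = q * m + r} ⊆ APSet A := by
  have h1 : APSet A = ⋃ p ∈ (A : Set (ℕ × ℕ)), {n : ℕ | ∃ m, n = p.1 * m + p.2} := by
    ext n
    simp only [APSet, Set.mem_ofPred_eq, Set.mem_iUnion, Finset.mem_coe, exists_prop]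
  rw [h1, Ultrafilter.finite_biUnion_mem_iff A.finite_toSet] at h
  obtain ⟨p, hp, hpU⟩ := h
  exact ⟨p.1, p.2, hpU, fun n hn => ⟨p, hp, hn⟩⟩

/-- The values of a polynomial in three linear forms. -/
theorem eval_aeval3 (l : Fin 3 → MvPolynomial (Fin (ν + 1)) ℂ) (g : MvPolynomial (Fin 3) ℂ)
    (z : Fin (ν + 1) → ℂ) : eval z (aeval l g) = eval (fun i => eval z (l i)) g := by
  have h := comp_aeval_apply (aeval z : MvPolynomial (Fin (ν + 1)) ℂ →ₐ[ℂ] ℂ) (f := l) g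
  simp only [aevalC] at h
  rw [h]

/-- The data for the forms vanishing along an ultrafilter and one of their common zeros. -/
theorem exists_sepdata {x : ℕ → Fin (ν + 1) → ℂ} {U : Ultrafilter ℕ}
    {T : Set (MvPolynomial (Fin (ν + 1)) ℂ)} (hT : T = vanK U x)
    {V : Set (MvPolynomial (Fin (ν + 1)) ℂ)} (hV : ∀ g ∈ V, ∃ e, g.IsHomogeneous e)
    (hdim : ringKrullDim (MvPolynomial (Fin (ν + 1)) ℂ ⧸ Ideal.span V) ≤ 2)
    (hTV : ∀ x : Fin (ν + 1) → ℂ, (∀ g ∈ T, eval x g = 0) → ∀ g ∈ V, eval x g = 0)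
    {p : Fin (ν + 1) → ℂ} (hp0 : p ≠ 0) (hpT : ∀ g ∈ T, eval p g = 0) :
    ∃ (r : ℕ) (v : Fin r → MvPolynomial (Fin (ν + 1)) ℂ)
      (l : Fin 3 → MvPolynomial (Fin (ν + 1)) ℂ) (D : ℕ) (g : MvPolynomial (Fin 3) ℂ),
      (∀ j, v j ∈ T) ∧
      (∀ z : Fin (ν + 1) → ℂ, (∀ j, eval z (v j) = 0) → ∀ g ∈ T, eval z g = 0) ∧
      (∀ i, (l i).IsHomogeneous 1) ∧
      (∀ z : Fin (ν + 1) → ℂ, (∀ j, eval z (v j) = 0) → eval z (l 0) = 0 →
        eval z (l 1) = 0 → z = 0) ∧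
      NoFac D g ∧
      (∀ z : Fin (ν + 1) → ℂ, (∀ j, eval z (v j) = 0) →
        eval (fun i => eval z (l i)) g = 0) ∧
      ∀ z : Fin (ν + 1) → ℂ, (∀ j, eval z (v j) = 0) →
        (∀ i i', eval z (l i) * eval p (l i') = eval z (l i') * eval p (l i)) →
        ∀ a b, z a * p b = z b * p a := by
  classical
  have hTf : ∀ g ∈ T, ∃ e, g.IsHomogeneous e := by
    rw [hT]
    exact fun g hg => hg.1
  have hTU : ∀ᶠ n in (U : Filter ℕ), ∀ g ∈ T, eval (x n) g = 0 := by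
    rw [hT]
    exact vanK_mem U _
  -- the linear forms
  obtain ⟨c, hc⟩ := exists_two_forms hV hdim
  have hnoz : ∀ z : Fin (ν + 1) → ℂ, (∀ g ∈ T, eval z g = 0) → eval z (lin (c 0)) = 0 →
      eval z (lin (c 1)) = 0 → z = 0 := by
    intro z hz h0 h1
    refine hc z (hTV z hz) fun j hj => ?_
    rw [eval_lin] at h0 h1
    interval_cases j
    · exact h0
    · exact h1
  obtain ⟨l₂, hl₂, hsep⟩ := exists_sep hTf (lin_hom (c 0)) (lin_hom (c 1)) hnoz hp0 hpT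
  -- the plane curve
  have hcur : CurveSet V := curveSet_of_krull hV hdim
  have hon : OnCurve U x := by
    refine hcur ℂ _ U ?_
    filter_upwards [hTU] with n hn g hg
    exact hTV _ hn g hg
  obtain ⟨D, g, hg, hgU⟩ := exists_nofac hon ![c 0, c 1, pt l₂]
  -- finitely many equations
  obtain ⟨S₀, hS₀T, hS₀⟩ := exists_finite_subfamily T
  let v : Fin S₀.card → MvPolynomial (Fin (ν + 1)) ℂ := fun j => (S₀.equivFin.symm j : _)
  have hv : ∀ j, v j ∈ T := fun j => hS₀T (S₀.equivFin.symm j).2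
  have hvT : ∀ z : Fin (ν + 1) → ℂ, (∀ j, eval z (v j) = 0) → ∀ g ∈ T, eval z g = 0 := by
    intro z hz
    refine hS₀ z fun h hh => ?_
    have h1 := hz (S₀.equivFin ⟨h, hh⟩)
    change eval z ((S₀.equivFin.symm (S₀.equivFin ⟨h, hh⟩) : S₀) : MvPolynomial _ ℂ) = 0 at h1
    rw [Equiv.symm_apply_apply] at h1
    exact h1
  set l : Fin 3 → MvPolynomial (Fin (ν + 1)) ℂ := ![lin (c 0), lin (c 1), l₂] with hl
  have hlh : ∀ i, (l i).IsHomogeneous 1 := by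
    intro i
    fin_cases i
    · exact lin_hom _
    · exact lin_hom _
    · exact hl₂
  have hrow : ∀ z : Fin (ν + 1) → ℂ, (fun i => eval z (l i)) =
      fun j => ∑ i, (![c 0, c 1, pt l₂] : Fin 3 → Fin (ν + 1) → ℂ) j i * z i := by
    intro z
    funext j
    fin_cases j
    · exact eval_lin _ _
    · exact eval_lin _ _
    · exact eval_linear hl₂ z
  have hgT : aeval l g ∈ T := by
    rw [hT]
    refine ⟨⟨1 * D, hg.hom.aeval l hlh⟩, ?_⟩
    filter_upwards [hgU] with n hn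
    rw [eval_aeval3, hrow]
    exact hn
  refine ⟨_, v, l, D, g, hv, hvT, hlh, fun z hz h0 h1 => hnoz z (hvT z hz) h0 h1, hg,
    fun z hz => ?_, fun z hz h => hsep z (hvT z hz) (h 0 1) (h 0 2) (h 1 2)⟩
  have h1 := hvT z hz _ hgT
  rwa [eval_aeval3] at h1

/-- The forms vanishing along an ultrafilter: the return set of a closed set of dimension at most
one which contains a tame point. -/
theorem ap_vanK {d : ℕ} {f : Fin (ν + 1) → MvPolynomial (Fin (ν + 1)) ℂ} (hf : IsEndo d f)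
    {a : Fin (ν + 1) → ℂ} (ha : a ≠ 0) {U : Ultrafilter ℕ}
    {T : Set (MvPolynomial (Fin (ν + 1)) ℂ)} (hT : T = vanK U fun n => iter f a n)
    {V : Set (MvPolynomial (Fin (ν + 1)) ℂ)} (hV : ∀ g ∈ V, ∃ e, g.IsHomogeneous e)
    (hdim : ringKrullDim (MvPolynomial (Fin (ν + 1)) ℂ ⧸ Ideal.span V) ≤ 2)
    (hTV : ∀ x : Fin (ν + 1) → ℂ, (∀ g ∈ T, eval x g = 0) → ∀ g ∈ V, eval x g = 0)
    {p : Fin (ν + 1) → ℂ} (hp0 : p ≠ 0) (hpT : ∀ g ∈ T, eval p g = 0)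
    {k : ℕ} {Z : ℕ → Set (MvPolynomial (Fin (ν + 1)) ℂ)} (hZ : ChainC f (jf f) k Z) {s : ℕ}
    (hs : ∀ g ∈ Z 0, eval (iter f p s) g = 0) :
    ∃ A, {n | ∀ g ∈ T, eval (iter f a n) g = 0} = APSet A := by
  classical
  have hTf : ∀ g ∈ T, ∃ e, g.IsHomogeneous e := by
    rw [hT]
    exact fun g hg => hg.1
  -- normalisation of the point
  obtain ⟨i₀, hi₀⟩ := Function.ne_iff.1 hp0
  have hi₀ : p i₀ ≠ 0 := hi₀
  obtain ⟨p', hp1, hp'⟩ : ∃ p' : Fin (ν + 1) → ℂ, p' i₀ = 1 ∧ p' = (p i₀)⁻¹ • p :=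
    ⟨_, by rw [Pi.smul_apply, smul_eq_mul, inv_mul_cancel₀ hi₀], rfl⟩
  have hp'0 : p' ≠ 0 := by
    intro h
    rw [h] at hp1
    exact zero_ne_one hp1
  have hp'T : ∀ g ∈ T, eval p' g = 0 := by
    intro g hg
    obtain ⟨e, he⟩ := hTf g hg
    rw [hp', eval_smul_hom he, hpT g hg, mul_zero]
  have hp's : ∀ g ∈ Z 0, eval (iter f p' s) g = 0 := by
    intro g hg
    obtain ⟨e, he⟩ := hZ.form 0 (Nat.zero_le k) g hg
    rw [hp', iter_smul hf, eval_smul_hom he, hs g hg, mul_zero]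
  obtain ⟨r, v, l, D, g, hv, hvT, hlh, hnoz, hg, hrel, hsep⟩ :=
    exists_sepdata hT hV hdim hTV hp'0 hp'T
  obtain ⟨A, hA⟩ := core hf ha (v := v) (fun j => hTf _ (hv j)) hlh hnoz hp1
    (fun j => hp'T _ (hv j)) hg hrel hsep hZ hp's
  refine ⟨A, ?_⟩
  rw [← hA]
  ext n
  exact ⟨fun hn j => hn _ (hv j), fun hn => hvT _ hn⟩

/-- Every infinite closed subset of the common zeros of the forms vanishing along an ultrafilter
contains all of these zeros. -/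
theorem mem_sub {x : ℕ → Fin (ν + 1) → ℂ} {U : Ultrafilter ℕ}
    {T : Set (MvPolynomial (Fin (ν + 1)) ℂ)} (hT : T = vanK U x)
    {V : Set (MvPolynomial (Fin (ν + 1)) ℂ)} (hV : ∀ g ∈ V, ∃ e, g.IsHomogeneous e)
    (hdim : ringKrullDim (MvPolynomial (Fin (ν + 1)) ℂ ⧸ Ideal.span V) ≤ 2)
    (hTV : ∀ x : Fin (ν + 1) → ℂ, (∀ g ∈ T, eval x g = 0) → ∀ g ∈ V, eval x g = 0)
    {p : Fin (ν + 1) → ℂ} (hp0 : p ≠ 0) (hpT : ∀ g ∈ T, eval p g = 0)
    {T' : Set (MvPolynomial (Fin (ν + 1)) ℂ)} (hT' : ∀ g ∈ T', ∃ e : ℕ, g.IsHomogeneous e)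
    (hT'T : ∀ x : Fin (ν + 1) → ℂ, (∀ g ∈ T', eval x g = 0) → ∀ g ∈ T, eval x g = 0)
    (y : ℕ → Fin (ν + 1) → ℂ) (hy0 : ∀ n, y n ≠ 0) (hyne : ∀ n m, n ≠ m → ¬ PEq (y n) (y m))
    (hyT : ∀ n, ∀ g ∈ T', eval (y n) g = 0) : ∀ g ∈ T', eval p g = 0 := by
  have hTf : ∀ g ∈ T, ∃ e, g.IsHomogeneous e := by
    rw [hT]
    exact fun g hg => hg.1
  obtain ⟨r, v, l, D, g, hv, hvT, hlh, hnoz, hg, hrel, hsep⟩ :=
    exists_sepdata hT hV hdim hTV hp0 hpT
  choose e he using fun j => hTf _ (hv j)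
  exact mem_of_infinite he hlh hnoz hg hrel hp0 (fun j => hpT _ (hv j)) hsep hT'
    (fun z hz j => hT'T z hz _ (hv j)) y hy0 hyne hyT

/-- **Closed sets of dimension at most one which contain enough tame points or preperiodic points,
over the complex numbers.** -/
theorem partThree {d : ℕ} {f : Fin (ν + 1) → MvPolynomial (Fin (ν + 1)) ℂ} (hf : IsEndo d f)
    {a : Fin (ν + 1) → ℂ} (ha : a ≠ 0) {V : Set (MvPolynomial (Fin (ν + 1)) ℂ)}
    (hV : ∀ g ∈ V, ∃ e, g.IsHomogeneous e)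
    (hdim : ringKrullDim (MvPolynomial (Fin (ν + 1)) ℂ ⧸ Ideal.span V) ≤ 2)
    (hmeet : ∀ T : Set (MvPolynomial (Fin (ν + 1)) ℂ), (∀ g ∈ T, ∃ e, g.IsHomogeneous e) →
      (∀ x : Fin (ν + 1) → ℂ, (∀ g ∈ T, eval x g = 0) → ∀ g ∈ V, eval x g = 0) →
      (∃ p : ℕ → Fin (ν + 1) → ℂ, (∀ n, p n ≠ 0) ∧ (∀ n m, n ≠ m → ¬ PEq (p n) (p m)) ∧
        ∀ n, ∀ g ∈ T, eval (p n) g = 0) →
      (∃ p : Fin (ν + 1) → ℂ, p ≠ 0 ∧ (∀ g ∈ T, eval p g = 0) ∧
        ∃ (k : ℕ) (Z : ℕ → Set (MvPolynomial (Fin (ν + 1)) ℂ)), ChainC f (jf f) k Z ∧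
          ∃ s : ℕ, ∀ g ∈ Z 0, eval (iter f p s) g = 0) ∨
      ((∀ i m, IsAlgebraic ℚ ((f i).coeff m)) ∧
        ∃ p : ℕ → Fin (ν + 1) → ℂ, (∀ n, p n ≠ 0) ∧ (∀ n m, n ≠ m → ¬ PEq (p n) (p m)) ∧
          (∀ n, ∀ g ∈ T, eval (p n) g = 0) ∧
          ∀ n, ∃ s t, s < t ∧ PEq (iter f (p n) s) (iter f (p n) t))) :
    ∃ A : Finset (ℕ × ℕ), {n : ℕ | ∀ g ∈ V, eval ((fun (x : Fin (ν + 1) → ℂ)
        (i : Fin (ν + 1)) => eval x (f i))^[n] a) g = 0} =
      {n : ℕ | ∃ q ∈ A, ∃ m : ℕ, n = q.1 * m + q.2} := by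
  classical
  -- the orbit of the point
  have horb : ∀ n, (fun (x : Fin (ν + 1) → ℂ) (i : Fin (ν + 1)) => eval x (f i))^[n] a =
      iter f a n := fun n => rfl
  simp only [horb]
  have hne : ∀ n, iter f a n ≠ 0 := by
    intro n
    induction n with
    | zero => exact ha
    | succ n ih =>
      rw [iter_succ]
      intro h
      exact ih (hf.nz _ fun i => congrFun h i)
  -- the preperiodic case
  by_cases hprea : ∃ n m, n < m ∧ PEq (iter f a n) (iter f a m)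
  · obtain ⟨n, m, hnm, hp⟩ := hprea
    have h1 : (fun i => map (algebraMap ℂ ℂ) (f i)) = f := by
      funext i
      rw [Algebra.algebraMap_self, MvPolynomial.map_id]
    have h2 := Pool.Agent.Helper72.PN.MainN_preper (K := ℂ) (F := f) (d := d) (by
      rw [h1]
      exact hf) a hnm hp V hV
    exact h2
  refine union_of_ultra _ fun U hU hUV => ?_
  have hUV : ∀ᶠ n in (U : Filter ℕ), ∀ g ∈ V, eval (iter f a n) g = 0 := hUV
  -- the closure
  set T := vanK U fun n => iter f a n with hT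
  have hTf : ∀ g ∈ T, ∃ e, g.IsHomogeneous e := fun g hg => hg.1
  have hTU : ∀ᶠ n in (U : Filter ℕ), ∀ g ∈ T, eval (iter f a n) g = 0 := vanK_mem U _
  have hTV : ∀ x : Fin (ν + 1) → ℂ, (∀ g ∈ T, eval x g = 0) → ∀ g ∈ V, eval x g = 0 :=
    fun x hx g hg => hx g ⟨hV g hg, by
      filter_upwards [hUV] with n hn
      exact hn g hg⟩
  have hinf : {n | ∀ g ∈ T, eval (iter f a n) g = 0}.Infinite := by
    intro hfin
    obtain ⟨B, hB⟩ := hfin.bddAbove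
    obtain ⟨n, hn1, hn2⟩ := (hTU.and (hU (B + 1))).exists
    have := hB hn1
    omega
  obtain ⟨φ, hφ⟩ : ∃ φ : ℕ → ℕ, Function.Injective φ ∧
      ∀ i, ∀ g ∈ T, eval (iter f a (φ i)) g = 0 := by
    refine ⟨fun i => (hinf.natEmbedding _ i : ℕ), ?_, fun i => (hinf.natEmbedding _ i).2⟩
    intro i j hij
    exact (hinf.natEmbedding _).injective (Subtype.ext hij)
  suffices hap : ∃ A, {n | ∀ g ∈ T, eval (iter f a n) g = 0} = APSet A by
    obtain ⟨A, hA⟩ := hap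
    have hAU : APSet A ∈ U := by
      rw [← hA]
      exact hTU
    obtain ⟨q, r, h1, h2⟩ := exists_ap hAU
    refine ⟨q, r, h1, h2.trans ?_⟩
    rw [← hA]
    exact fun n hn => hTV _ hn
  rcases hmeet T hTf hTV ⟨fun i => iter f a (φ i), fun i => hne (φ i), fun i j hij h => by
        rcases lt_or_gt_of_ne fun h2 => hij (hφ.1 h2) with h2 | h2
        · exact hprea ⟨_, _, h2, h⟩
        · exact hprea ⟨_, _, h2, h.symm⟩,
      fun i g hg => hφ.2 i g hg⟩ with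
    ⟨p, hp0, hpT, k, Z, hZ, s, hps⟩ | ⟨hfa, p, hp0, hpp, hpT, hpre⟩
  · exact ap_vanK hf ha hT hV hdim hTV hp0 hpT hZ hps
  · have hcurT : CurveSet T := fun K _ _ y U' hy =>
      curveSet_of_krull hV hdim K y U' (by
        filter_upwards [hy] with n hn
        exact hTV _ hn)
    rcases Pool.Agent.Helper72.TH.alg_or_dml hf hfa ha with ⟨c, hc, haa⟩ | h
    swap
    · obtain ⟨A, hA⟩ := h T hTf hcurT
      exact ⟨A, hA⟩
    obtain ⟨A, hA⟩ := Pool.Agent.Helper72.TH.final3 hf hfa ha hc haa hTf hcurT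
      (fun T' hT' hT'T ⟨y, hy0, hyne, hyT⟩ => Or.inr ⟨p, hp0, hpp, fun n =>
        mem_sub hT hV hdim hTV (hp0 n) (hpT n) hT' hT'T y hy0 hyne hyT, hpre⟩) hinf hTf
    exact ⟨A, hA⟩

end Pool.Agent.Helper30.THD

end
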